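import Mathlib

/-!
# MP_f1937f_nt: functions satisfying the parallelogram law are quadratic forms (piece QUAD)
-/

namespace LT

theorem Quad.aff_zero (g : ℤ → ℤ) (hg : ∀ n, g (n + 1) + g (n - 1) = 2 * g n) (h0 : g 0 = 0)
    (h1 : g 1 = 0) : ∀ n, g n = 0 := by
  have hpos : ∀ n : ℕ, g n = 0 ∧ g (n + 1) = 0 := by
    intro n
    induction n with
    | zero => simpa using ⟨h0, h1⟩
    | succ n ih =>
      refine ⟨by exact_mod_cast ih.2, ?_⟩
      have := hg (n + 1)
      rw [ih.2] at this
      have h2 : (n : ℤ) + 1 - 1 = n := by ring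
      rw [h2, ih.1] at this
      push_cast
      linarith
  have hneg : ∀ n : ℕ, g (-n) = 0 ∧ g (-n + 1) = 0 := by
    intro n
    induction n with
    | zero => simpa using ⟨h0, h1⟩
    | succ n ih =>
      have := hg (-n)
      rw [ih.1, ih.2] at this
      have h2 : (-(n : ℤ) - 1) = -((n + 1 : ℕ) : ℤ) := by push_cast; ring
      rw [h2] at this
      refine ⟨by linarith, ?_⟩
      have h3 : -((n + 1 : ℕ) : ℤ) + 1 = -(n : ℤ) := by push_cast; ring
      rw [h3]
      exact ih.1
  intro n
  obtain ⟨m, hm | hm⟩ := Int.eq_nat_or_neg n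
  · rw [hm]; exact (hpos m).1
  · rw [hm]; exact (hneg m).1

/-- A function with the parallelogram law is quadratic on the subgroup generated by two elements. -/
theorem quad_form {G : Type} [AddCommGroup G] (h : G → ℤ)
    (hp : ∀ x y, h (x + y) + h (x - y) = 2 * h x + 2 * h y) (P Q : G) (a b : ℤ) :
    h (a • P + b • Q) =
      h P * a ^ 2 + (h (P + Q) - h P - h Q) * a * b + h Q * b ^ 2 := by
  have h00 : h 0 = 0 := by
    have := hp 0 0
    simp only [add_zero, sub_zero] at this
    linarith
  set D : ℤ → ℤ → ℤ := fun a b => h (a • P + b • Q) -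
    (h P * a ^ 2 + (h (P + Q) - h P - h Q) * a * b + h Q * b ^ 2) with hD
  have hD0 : D 0 0 = 0 := by simp [hD, h00]
  have hD10 : D 1 0 = 0 := by simp [hD]
  have hD01 : D 0 1 = 0 := by simp [hD]
  have hD11 : D 1 1 = 0 := by
    simp [hD]
    ring
  have hrow : ∀ a b, D (a + 1) b + D (a - 1) b = 2 * D a b := by
    intro a b
    have := hp (a • P + b • Q) P
    have e1 : a • P + b • Q + P = (a + 1) • P + b • Q := by rw [add_smul, one_smul]; abel
    have e2 : a • P + b • Q - P = (a - 1) • P + b • Q := by rw [sub_smul, one_smul]; abel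
    rw [e1, e2] at this
    simp only [hD]
    linear_combination this
  have hcol : ∀ a b, D a (b + 1) + D a (b - 1) = 2 * D a b := by
    intro a b
    have := hp (a • P + b • Q) Q
    have e1 : a • P + b • Q + Q = a • P + (b + 1) • Q := by rw [add_smul, one_smul]; abel
    have e2 : a • P + b • Q - Q = a • P + (b - 1) • Q := by rw [sub_smul, one_smul]; abel
    rw [e1, e2] at this
    simp only [hD]
    linear_combination this
  have h0 : ∀ b, D 0 b = 0 := Quad.aff_zero (D 0) (hcol 0) hD0 hD01
  have h1 : ∀ b, D 1 b = 0 := Quad.aff_zero (D 1) (hcol 1) hD10 hD11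
  have h2 := Quad.aff_zero (fun a => D a b) (fun a => hrow a b) (h0 b) (h1 b) a
  simp only [hD] at h2
  linarith

/-- A nonnegative binary integral quadratic form has nonpositive discriminant. -/
theorem quad_disc {A B C : ℤ} (h : ∀ a b : ℤ, 0 ≤ A * a ^ 2 + B * a * b + C * b ^ 2) :
    B ^ 2 ≤ 4 * A * C := by
  have hA : 0 ≤ A := by simpa using h 1 0
  have hC : 0 ≤ C := by simpa using h 0 1
  rcases hA.lt_or_eq with hA' | hA'
  · have h1 := h (-B) (2 * A)
    by_contra hlt
    push Not at hlt
    nlinarith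
  · have hB : B = 0 := by
      by_contra hB
      have h1 := h (-B * (C + 1)) 1
      rw [← hA'] at h1
      have h2 : 1 ≤ B ^ 2 := by
        have := sq_nonneg B
        have h3 : B ^ 2 ≠ 0 := pow_ne_zero 2 hB
        omega
      nlinarith
    rw [hB, ← hA']
    norm_num

end LT
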