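import Mathlib
import Pool.Agent.Lib_MP_f1937f_nt.Quad

set_option autoImplicit false

/-!
# MP_f1937f_nt, theorem C: counting primitive vectors of bounded degree in a lattice of rank two

`h` is a positive definite integral quadratic form (parallelogram law) on a group of rank at most
two, all whose binary discriminants are divisible by `p`.
-/

namespace LT.K

open Finset

section

variable {G : Type} [AddCommGroup G] (h : G → ℤ)

/-- the bilinear form -/
def bb (x y : G) : ℤ := h (x + y) - h x - h y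

theorem bb_quad (hpar : ∀ x y, h (x + y) + h (x - y) = 2 * h x + 2 * h y) (x y : G) (a b : ℤ) :
    h (a • x + b • y) = h x * a ^ 2 + bb h x y * a * b + h y * b ^ 2 :=
  LT.quad_form h hpar x y a b

theorem h_smul (hpar : ∀ x y, h (x + y) + h (x - y) = 2 * h x + 2 * h y) (x : G) (a : ℤ) :
    h (a • x) = a ^ 2 * h x := by
  have := bb_quad h hpar x x a 0
  simp only [zero_smul, add_zero] at this
  rw [this]
  ring

theorem bb_comm (x y : G) : bb h x y = bb h y x := by
  unfold bb
  rw [add_comm]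
  ring

/-- additivity of the bilinear form -/
theorem bb_add (hpar : ∀ x y, h (x + y) + h (x - y) = 2 * h x + 2 * h y) (x y z : G) :
    bb h x (y + z) = bb h x y + bb h x z := by
  have e1 := hpar (x + y) z
  have e2 := hpar x (y - z)
  have e3 := hpar (x + z) y
  have e4 := hpar y z
  have e5 := hpar x (z - y)
  have e6 := hpar x (y + z)
  have e7 := hpar (x + y + z) 0
  have a1 : x + y + z = x + (y + z) := by abel
  have a2 : x + y - z = x + (y - z) := by abel
  have a3 : x + z + y = x + (y + z) := by abel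
  have a4 : x + z - y = x - (y - z) := by abel
  unfold bb
  rw [a1, a2] at e1
  rw [a3, a4] at e3
  linarith

theorem bb_zero (hpar : ∀ x y, h (x + y) + h (x - y) = 2 * h x + 2 * h y) (x : G) :
    bb h x 0 = 0 := by
  have := bb_add h hpar x 0 0
  rw [add_zero] at this
  linarith

theorem bb_neg (hpar : ∀ x y, h (x + y) + h (x - y) = 2 * h x + 2 * h y) (x y : G) :
    bb h x (-y) = -bb h x y := by
  have := bb_add h hpar x y (-y)
  rw [add_neg_cancel, bb_zero h hpar] at this
  linarith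

theorem bb_zsmul (hpar : ∀ x y, h (x + y) + h (x - y) = 2 * h x + 2 * h y) (x y : G) (n : ℤ) :
    bb h x (n • y) = n * bb h x y := by
  have hnat : ∀ m : ℕ, bb h x ((m : ℤ) • y) = m * bb h x y := by
    intro m
    induction m with
    | zero => simp [bb_zero h hpar]
    | succ m ih =>
      rw [Nat.cast_succ, add_smul, one_smul, bb_add h hpar, ih]
      ring
  obtain ⟨m, rfl | rfl⟩ := n.eq_nat_or_neg
  · exact hnat m
  · rw [neg_smul, bb_neg h hpar, hnat]
    ring

theorem bb_self (hpar : ∀ x y, h (x + y) + h (x - y) = 2 * h x + 2 * h y) (x : G) :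
    bb h x x = 2 * h x := by
  have h1 := hpar x x
  rw [sub_self] at h1
  have h2 := hpar 0 0
  rw [add_zero, sub_zero] at h2
  unfold bb
  linarith

/-- the discriminant -/
def dd (x y : G) : ℤ := 4 * h x * h y - bb h x y ^ 2

theorem dd_add (hpar : ∀ x y, h (x + y) + h (x - y) = 2 * h x + 2 * h y) (x y : G) (n : ℤ) :
    dd h x (y + n • x) = dd h x y := by
  unfold dd
  rw [bb_add h hpar, bb_zsmul h hpar, bb_self h hpar]
  have h1 := bb_quad h hpar y x 1 n
  rw [one_smul] at h1
  rw [h1, bb_comm h y x]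
  ring

theorem dd_zsmul (hpar : ∀ x y, h (x + y) + h (x - y) = 2 * h x + 2 * h y) (x y : G) (n : ℤ) :
    dd h x (n • y) = n ^ 2 * dd h x y := by
  unfold dd
  rw [bb_zsmul h hpar, h_smul h hpar]
  ring

theorem dd_nonneg (hpar : ∀ x y, h (x + y) + h (x - y) = 2 * h x + 2 * h y)
    (h0 : ∀ x, 0 ≤ h x) (x y : G) : 0 ≤ dd h x y := by
  have := LT.quad_disc (A := h x) (B := bb h x y) (C := h y) (fun a b => by
    rw [← bb_quad h hpar]; exact h0 _)
  unfold dd
  linarith

/-- reduction modulo `x` -/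
theorem exists_reduce (hpar : ∀ x y, h (x + y) + h (x - y) = 2 * h x + 2 * h y) (x y : G)
    (hx : 0 < h x) : ∃ n : ℤ, |bb h x (y + n • x)| ≤ h x := by
  -- `bb x (y + n x) = bb x y + 2 n h x`
  have key : ∀ n : ℤ, bb h x (y + n • x) = bb h x y + 2 * h x * n := by
    intro n
    rw [bb_add h hpar, bb_zsmul h hpar, bb_self h hpar]
    ring
  set b := bb h x y with hb
  set a := h x with ha
  refine ⟨-((b + a) / (2 * a)), ?_⟩
  rw [key]
  have h1 : (b + a) % (2 * a) = (b + a) - 2 * a * ((b + a) / (2 * a)) := Int.emod_def _ _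
  have h2 : 0 ≤ (b + a) % (2 * a) := Int.emod_nonneg _ (by omega)
  have h3 : (b + a) % (2 * a) < 2 * a := Int.emod_lt_of_pos _ (by omega)
  rw [abs_le]
  constructor
  · nlinarith
  · nlinarith

/-- the number of integers `k` with `|α + 2 a k| ≤ ρ` -/
theorem card_interval (K : Finset ℤ) (α a ρ : ℝ) (ha : 0 < a) (hρ : 0 ≤ ρ)
    (hK : ∀ k ∈ K, |α + 2 * a * k| ≤ ρ) : (K.card : ℝ) ≤ ρ / a + 1 := by
  have hsub : K ⊆ Finset.Icc ⌈(-ρ - α) / (2 * a)⌉ ⌊(ρ - α) / (2 * a)⌋ := by
    intro k hk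
    have h1 := abs_le.mp (hK k hk)
    rw [Finset.mem_Icc, Int.ceil_le, Int.le_floor, div_le_iff₀ (by positivity),
      le_div_iff₀ (by positivity)]
    constructor <;> nlinarith [h1.1, h1.2]
  have h1 := Finset.card_le_card hsub
  rw [Int.card_Icc] at h1
  have h2 : (K.card : ℝ) ≤ ((⌊(ρ - α) / (2 * a)⌋ + 1 - ⌈(-ρ - α) / (2 * a)⌉).toNat : ℝ) := by
    exact_mod_cast h1
  rcases le_or_gt 0 (⌊(ρ - α) / (2 * a)⌋ + 1 - ⌈(-ρ - α) / (2 * a)⌉) with h3 | h3
  · have h4 : (((⌊(ρ - α) / (2 * a)⌋ + 1 - ⌈(-ρ - α) / (2 * a)⌉).toNat : ℤ) : ℝ) =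
        ((⌊(ρ - α) / (2 * a)⌋ + 1 - ⌈(-ρ - α) / (2 * a)⌉ : ℤ) : ℝ) := by
      rw [Int.toNat_of_nonneg h3]
    have h5 := Int.floor_le ((ρ - α) / (2 * a))
    have h6 := Int.le_ceil ((-ρ - α) / (2 * a))
    have h7 : (ρ - α) / (2 * a) - (-ρ - α) / (2 * a) = ρ / a := by
      field_simp
      ring
    rw [Int.cast_natCast] at h4
    rw [h4] at h2
    push_cast at h2
    linarith
  · rw [Int.toNat_of_nonpos h3.le] at h2
    have : 0 ≤ ρ / a := by positivity
    simp at h2
    rw [h2]
    simp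
    linarith

/-- `x` is not a proper multiple -/
def Prim (x : G) : Prop := ∀ (y : G) (k : ℤ), x = k • y → k = 1 ∨ k = -1

theorem h_zero (hpar : ∀ x y, h (x + y) + h (x - y) = 2 * h x + 2 * h y) : h 0 = 0 := by
  have h2 := hpar 0 0
  rw [add_zero, sub_zero] at h2
  linarith

theorem h_neg (hpar : ∀ x y, h (x + y) + h (x - y) = 2 * h x + 2 * h y) (x : G) :
    h (-x) = h x := by
  have := h_smul h hpar x (-1)
  simpa using this

/-- structure of the short vectors: if `f` is a shortest nonzero vector and `g` is a vector of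
degree at most `T`, not a multiple of `f`, with the smallest discriminant, then all vectors of
degree at most `T` are of the form `s g + k f` -/
theorem short_structure (hpar : ∀ x y, h (x + y) + h (x - y) = 2 * h x + 2 * h y)
    (hpos : ∀ x, x ≠ 0 → 0 < h x)
    (hrank : ∀ x y z : G, ∃ a b c : ℤ, (a ≠ 0 ∨ b ≠ 0 ∨ c ≠ 0) ∧ a • x + b • y + c • z = 0)
    (T : ℤ) (f : G) (hf0 : f ≠ 0) (hfT : h f ≤ T) (hfmin : ∀ x, x ≠ 0 → h f ≤ h x)
    (g : G) (hgT : h g ≤ T) (hgf : ∀ k : ℤ, g ≠ k • f)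
    (hgmin : ∀ x, h x ≤ T → (∀ k : ℤ, x ≠ k • f) → dd h f g ≤ dd h f x)
    (x : G) (hx : h x ≤ T) : ∃ s k : ℤ, x = s • g + k • f := by
  have h0 : ∀ x, 0 ≤ h x := by
    intro x
    by_cases hx0 : x = 0
    · rw [hx0, h_zero h hpar]
    · exact (hpos x hx0).le
  have ha := hpos f hf0
  -- vectors with discriminant zero are multiples of `f`
  have hmul : ∀ y : G, dd h f y = 0 → ∃ k : ℤ, y = k • f := by
    intro y hy
    obtain ⟨n, hn⟩ := exists_reduce h hpar f y ha
    have h1 : dd h f (y + n • f) = 0 := by rw [dd_add h hpar, hy]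
    have h2 : 4 * h f * h (y + n • f) = bb h f (y + n • f) ^ 2 := by
      unfold dd at h1
      linarith
    have h3 : bb h f (y + n • f) ^ 2 ≤ h f ^ 2 := by
      rw [← sq_abs]
      exact pow_le_pow_left₀ (abs_nonneg _) hn 2
    have h4 : h (y + n • f) < h f := by nlinarith
    have h5 : y + n • f = 0 := by
      by_contra hne
      exact absurd (hfmin _ hne) (not_le.mpr h4)
    refine ⟨-n, ?_⟩
    rw [neg_smul]
    exact eq_neg_of_add_eq_zero_left h5
  obtain ⟨α, β, γ, hne, hrel⟩ := hrank x g f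
  -- `g` and `f` are independent
  have hgf0 : dd h f g ≠ 0 := by
    intro hc
    obtain ⟨k, hk⟩ := hmul g hc
    exact hgf k hk
  have hD : 0 < dd h f g := lt_of_le_of_ne (dd_nonneg h hpar h0 f g) (Ne.symm hgf0)
  have hα : α ≠ 0 := by
    intro hα0
    rw [hα0, zero_smul, zero_add] at hrel
    by_cases hβ : β = 0
    · rw [hβ, zero_smul, zero_add] at hrel
      have hγ : γ ≠ 0 := by
        rcases hne with h1 | h1 | h1
        · exact absurd hα0 h1
        · exact absurd hβ h1
        · exact h1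
      have h1 := h_smul h hpar f γ
      rw [hrel, h_zero h hpar] at h1
      have h2 : 0 < γ ^ 2 := by positivity
      nlinarith
    · have h1 : dd h f (β • g) = 0 := by
        have h2 : β • g = 0 + (-γ) • f := by
          rw [zero_add, neg_smul]
          exact eq_neg_of_add_eq_zero_left hrel
        rw [h2, dd_add h hpar]
        unfold dd
        rw [bb_zero h hpar, h_zero h hpar]
        ring
      rw [dd_zsmul h hpar] at h1
      have h2 : 0 < β ^ 2 := by positivity
      nlinarith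
  -- nearest integer to `-β / α`
  obtain ⟨s, hs⟩ : ∃ s : ℤ, |2 * (β + α * s)| ≤ |α| := by
    have h1 : ∃ s : ℤ, |2 * (β + |α| * s)| ≤ |α| := by
      have hpa : 0 < |α| := abs_pos.mpr hα
      refine ⟨-((2 * β + |α|) / (2 * |α|)), ?_⟩
      have h1 : (2 * β + |α|) % (2 * |α|) =
          (2 * β + |α|) - 2 * |α| * ((2 * β + |α|) / (2 * |α|)) := Int.emod_def _ _
      have h2 : 0 ≤ (2 * β + |α|) % (2 * |α|) := Int.emod_nonneg _ (by omega)
      have h3 : (2 * β + |α|) % (2 * |α|) < 2 * |α| := Int.emod_lt_of_pos _ (by omega)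
      rw [abs_le]
      constructor
      · nlinarith
      · nlinarith
    obtain ⟨s, hs⟩ := h1
    rcases abs_choice α with h2 | h2
    · exact ⟨s, by rw [h2] at hs ⊢; exact hs⟩
    · refine ⟨-s, ?_⟩
      rw [h2] at hs ⊢
      have : β + α * -s = β + -α * s := by ring
      rw [this]
      exact hs
  -- the vector `x - s g` has small discriminant
  set y : G := x + (-s) • g with hy
  have hαy : α • y = (-(β + α * s)) • g + (-γ) • f := by
    have h1 : α • x = -(β • g) - γ • f := by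
      have h2 : α • x + (β • g + γ • f) = 0 := by rw [← add_assoc]; exact hrel
      rw [eq_neg_of_add_eq_zero_left h2]
      abel
    rw [hy, smul_add, h1, smul_smul]
    have e1 : (-(β + α * s)) • g = -(β • g) + (α * -s) • g := by
      rw [← neg_smul, ← add_smul]
      congr 1
      ring
    rw [e1, neg_smul]
    abel
  have hdy : α ^ 2 * dd h f y = (β + α * s) ^ 2 * dd h f g := by
    rw [← dd_zsmul h hpar, hαy, dd_add h hpar, dd_zsmul h hpar]
    ring
  have hα2 : 0 < α ^ 2 := by positivity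
  have hle : 4 * (β + α * s) ^ 2 ≤ α ^ 2 := by
    have h1 : (2 * (β + α * s)) ^ 2 ≤ α ^ 2 := by
      rw [← sq_abs, ← sq_abs α]
      exact pow_le_pow_left₀ (abs_nonneg _) hs 2
    linarith
  have hdy4 : 4 * dd h f y ≤ dd h f g := by
    have h1 : α ^ 2 * (4 * dd h f y) ≤ α ^ 2 * dd h f g := by
      calc α ^ 2 * (4 * dd h f y) = 4 * (α ^ 2 * dd h f y) := by ring
        _ = (4 * (β + α * s) ^ 2) * dd h f g := by rw [hdy]; ring
        _ ≤ α ^ 2 * dd h f g := mul_le_mul_of_nonneg_right hle hD.le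
    exact le_of_mul_le_mul_left h1 hα2
  -- reduce modulo `f`
  obtain ⟨n, hn⟩ := exists_reduce h hpar f y ha
  have h1 : dd h f (y + n • f) = dd h f y := dd_add h hpar _ _ _
  have hb2 : bb h f (y + n • f) ^ 2 ≤ h f ^ 2 := by
    rw [← sq_abs]
    exact pow_le_pow_left₀ (abs_nonneg _) hn 2
  have hdg : dd h f g ≤ 4 * h f * T := by
    unfold dd
    have : 4 * h f * h g ≤ 4 * h f * T := by
      apply mul_le_mul_of_nonneg_left hgT
      linarith
    nlinarith [sq_nonneg (bb h f g)]
  have hyT : h (y + n • f) ≤ T := by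
    have h2 : 4 * h f * h (y + n • f) = dd h f y + bb h f (y + n • f) ^ 2 := by
      rw [← h1]
      unfold dd
      ring
    have h3 : 4 * h f * h (y + n • f) ≤ h f * T + h f ^ 2 := by nlinarith
    have h4 : h f * (4 * h (y + n • f)) ≤ h f * (T + h f) := by nlinarith
    have h5 := le_of_mul_le_mul_left h4 ha
    linarith
  have hmem : ∃ k : ℤ, y + n • f = k • f := by
    by_contra hc
    push Not at hc
    have h2 := hgmin _ hyT hc
    rw [h1] at h2
    have h3 : 0 ≤ dd h f y := dd_nonneg h hpar h0 f y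
    nlinarith
  obtain ⟨k, hk⟩ := hmem
  refine ⟨s, k - n, ?_⟩
  have h2 : y = (k - n) • f := by
    rw [sub_smul, ← hk]
    abel
  have h3 : x = s • g + y := by
    rw [hy, neg_smul]
    abel
  rw [h3, h2]

/-- the number of nonzero integers in a symmetric interval -/
theorem card_nonzero (K : Finset ℤ) (R : ℝ) (hR : 0 ≤ R)
    (hK : ∀ k ∈ K, k ≠ 0 ∧ |(k : ℝ)| ≤ R) : (K.card : ℝ) ≤ 2 * R := by
  have hsub : K ⊆ (Finset.Icc (-⌊R⌋) ⌊R⌋).erase 0 := by
    intro k hk
    obtain ⟨h1, h2⟩ := hK k hk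
    have h3 := abs_le.mp h2
    rw [Finset.mem_erase, Finset.mem_Icc]
    refine ⟨h1, ?_, Int.le_floor.mpr h3.2⟩
    have h4 : -k ≤ ⌊R⌋ := Int.le_floor.mpr (by push_cast; linarith [h3.1])
    omega
  have h1 := Finset.card_le_card hsub
  have hfl : 0 ≤ ⌊R⌋ := Int.floor_nonneg.mpr hR
  have h0 : (0 : ℤ) ∈ Finset.Icc (-⌊R⌋) ⌊R⌋ := by
    rw [Finset.mem_Icc]
    omega
  rw [Finset.card_erase_of_mem h0, Int.card_Icc] at h1
  have h2 : (K.card : ℤ) ≤ 2 * ⌊R⌋ := by omega
  have h3 : (K.card : ℝ) ≤ 2 * (⌊R⌋ : ℝ) := by exact_mod_cast h2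
  have h4 := Int.floor_le R
  linarith

/-- The number of primitive vectors of bounded degree, with different degrees. -/
theorem lat_count (hpar : ∀ x y, h (x + y) + h (x - y) = 2 * h x + 2 * h y)
    (hpos : ∀ x, x ≠ 0 → 0 < h x)
    (hrank : ∀ x y z : G, ∃ a b c : ℤ, (a ≠ 0 ∨ b ≠ 0 ∨ c ≠ 0) ∧ a • x + b • y + c • z = 0)
    {p : ℕ} (hp : 0 < p) (hdisc : ∀ x y, (p : ℤ) ∣ 4 * h x * h y - bb h x y ^ 2)
    {T : ℝ} (hT : 0 ≤ T) (S : Finset G) (hS : ∀ x ∈ S, x ≠ 0 ∧ (h x : ℝ) ≤ T ∧ Prim x)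
    (hinj : ∀ x ∈ S, ∀ y ∈ S, h x = h y → x = y) :
    (S.card : ℝ) ≤ 1 + 12 * T / Real.sqrt p := by
  classical
  have hp0 : (0 : ℝ) < p := by exact_mod_cast hp
  have hsp : 0 < Real.sqrt p := Real.sqrt_pos.mpr hp0
  have hnn : 0 ≤ 12 * T / Real.sqrt p := by positivity
  have h0 : ∀ x, 0 ≤ h x := by
    intro x
    by_cases hx0 : x = 0
    · rw [hx0, h_zero h hpar]
    · exact (hpos x hx0).le
  by_cases hSe : S = ∅
  · rw [hSe, Finset.card_empty, Nat.cast_zero]
    linarith
  obtain ⟨x0, hx0⟩ := Finset.nonempty_iff_ne_empty.mpr hSe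
  -- the shortest vector
  obtain ⟨f, hf0, hfmin⟩ : ∃ f : G, f ≠ 0 ∧ ∀ x, x ≠ 0 → h f ≤ h x := by
    have hex : ∃ n : ℕ, ∃ x : G, x ≠ 0 ∧ h x = n :=
      ⟨(h x0).toNat, x0, (hS x0 hx0).1, (Int.toNat_of_nonneg (h0 x0)).symm⟩
    obtain ⟨f, hf0, hf⟩ := Nat.find_spec hex
    refine ⟨f, hf0, fun x hx => ?_⟩
    by_contra hc
    push Not at hc
    have h1 : (h x).toNat < Nat.find hex := by
      have h2 := h0 x
      omega
    exact Nat.find_min hex h1 ⟨x, hx, (Int.toNat_of_nonneg (h0 x)).symm⟩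
  have ha := hpos f hf0
  have har : (0 : ℝ) < (h f : ℝ) := by exact_mod_cast ha
  have hfT : (h f : ℝ) ≤ T := by
    have h1 : (h f : ℝ) ≤ h x0 := by exact_mod_cast hfmin x0 (hS x0 hx0).1
    exact h1.trans (hS x0 hx0).2.1
  set S1 := S.filter (fun x => ∃ k : ℤ, x = k • f) with hS1
  set S2 := S.filter (fun x => ¬ ∃ k : ℤ, x = k • f) with hS2
  have hcard : S1.card + S2.card = S.card := Finset.card_filter_add_card_filter_not _
  have hc1 : S1.card ≤ 1 := by
    rw [Finset.card_le_one]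
    intro x hx y hy
    rw [hS1, Finset.mem_filter] at hx hy
    have key : ∀ z ∈ S, (∃ k : ℤ, z = k • f) → h z = h f := by
      rintro z hz ⟨k, hk⟩
      have h1 := (hS z hz).2.2 f k hk
      rw [hk, h_smul h hpar]
      rcases h1 with h1 | h1 <;> rw [h1] <;> ring
    exact hinj x hx.1 y hy.1 ((key x hx.1 hx.2).trans (key y hy.1 hy.2).symm)
  have hc2 : (S2.card : ℝ) ≤ 12 * T / Real.sqrt p := by
    by_cases hSe2 : S2 = ∅
    · rw [hSe2, Finset.card_empty, Nat.cast_zero]
      exact hnn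
    obtain ⟨x1, hx1⟩ := Finset.nonempty_iff_ne_empty.mpr hSe2
    rw [hS2, Finset.mem_filter] at hx1
    have hTf : ∀ x : G, (h x : ℝ) ≤ T → h x ≤ ⌊T⌋ := fun x hx => Int.le_floor.mpr hx
    -- the second vector
    obtain ⟨g, hgT, hgf, hgmin⟩ : ∃ g : G, h g ≤ ⌊T⌋ ∧ (∀ k : ℤ, g ≠ k • f) ∧
        ∀ x, h x ≤ ⌊T⌋ → (∀ k : ℤ, x ≠ k • f) → dd h f g ≤ dd h f x := by
      have hdn : ∀ x, 0 ≤ dd h f x := dd_nonneg h hpar h0 f
      have hex : ∃ n : ℕ, ∃ x : G, (h x ≤ ⌊T⌋ ∧ ∀ k : ℤ, x ≠ k • f) ∧ dd h f x = n := by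
        refine ⟨(dd h f x1).toNat, x1, ⟨hTf x1 (hS x1 hx1.1).2.1, ?_⟩,
          (Int.toNat_of_nonneg (hdn x1)).symm⟩
        intro k hk
        exact hx1.2 ⟨k, hk⟩
      obtain ⟨g, ⟨hg1, hg2⟩, hg3⟩ := Nat.find_spec hex
      refine ⟨g, hg1, hg2, fun x hx1 hx2 => ?_⟩
      by_contra hc
      push Not at hc
      have h1 : (dd h f x).toNat < Nat.find hex := by
        have h2 := hdn x
        omega
      exact Nat.find_min hex h1 ⟨x, ⟨hx1, hx2⟩, (Int.toNat_of_nonneg (hdn x)).symm⟩
    have hstr := short_structure h hpar hpos hrank ⌊T⌋ f hf0 (hTf f hfT) hfmin g hgT hgf hgmin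
    -- the discriminant is at least `p`
    have hDp : (p : ℤ) ≤ dd h f g := by
      have h1 : (p : ℤ) ∣ dd h f g := hdisc f g
      have h2 : dd h f g ≠ 0 := by
        intro hc
        -- then `g` reduces to zero modulo `f`
        obtain ⟨n, hn⟩ := exists_reduce h hpar f g ha
        have h3 : dd h f (g + n • f) = 0 := by rw [dd_add h hpar, hc]
        have h4 : 4 * h f * h (g + n • f) = bb h f (g + n • f) ^ 2 := by
          unfold dd at h3
          linarith
        have h5 : bb h f (g + n • f) ^ 2 ≤ h f ^ 2 := by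
          rw [← sq_abs]
          exact pow_le_pow_left₀ (abs_nonneg _) hn 2
        have h6 : h (g + n • f) < h f := by nlinarith
        have h7 : g + n • f = 0 := by
          by_contra hne
          exact absurd (hfmin _ hne) (not_le.mpr h6)
        apply hgf (-n)
        rw [neg_smul]
        exact eq_neg_of_add_eq_zero_left h7
      have h3 := dd_nonneg h hpar h0 f g
      exact Int.le_of_dvd (lt_of_le_of_ne h3 (Ne.symm h2)) h1
    have hDpr : (p : ℝ) ≤ (dd h f g : ℝ) := by exact_mod_cast hDp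
    -- coordinates
    have hco : ∀ x : G, ∃ sk : ℤ × ℤ, x ∈ S2 → x = sk.1 • g + sk.2 • f := by
      intro x
      by_cases hx : x ∈ S2
      · have hx' := hx
        rw [hS2, Finset.mem_filter] at hx'
        obtain ⟨s, k, hsk⟩ := hstr x (hTf x (hS x hx'.1).2.1)
        exact ⟨(s, k), fun _ => hsk⟩
      · exact ⟨(0, 0), fun hc => absurd hc hx⟩
    choose co hco using hco
    set a : ℝ := (h f : ℝ) with hadef
    -- facts for the elements of `S2`
    have hfact : ∀ x ∈ S2, (co x).1 ≠ 0 ∧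
        |((co x).1 : ℝ)| ≤ 2 * Real.sqrt (a * T / p) ∧
        |((co x).1 : ℝ) * (bb h f g : ℝ) + 2 * a * ((co x).2 : ℝ)| ≤ 2 * Real.sqrt (a * T) := by
      intro x hx
      have hx' := hx
      rw [hS2, Finset.mem_filter] at hx'
      have hsk := hco x hx
      have hxT := (hS x hx'.1).2.1
      set s := (co x).1 with hs
      set k := (co x).2 with hk
      have hdx : dd h f x = s ^ 2 * dd h f g := by
        rw [hsk, dd_add h hpar, dd_zsmul h hpar]
      have hbx : bb h f x = s * bb h f g + 2 * h f * k := by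
        rw [hsk, bb_add h hpar, bb_zsmul h hpar, bb_zsmul h hpar, bb_self h hpar]
        ring
      have hddr : (dd h f x : ℝ) = 4 * a * h x - (bb h f x : ℝ) ^ 2 := by
        unfold dd
        push_cast
        ring
      have hdd0 : (0 : ℝ) ≤ (dd h f x : ℝ) := by exact_mod_cast dd_nonneg h hpar h0 f x
      have hax : 4 * a * (h x : ℝ) ≤ 4 * (a * T) := by nlinarith
      refine ⟨?_, ?_, ?_⟩
      · intro hs0
        apply hx'.2
        refine ⟨k, ?_⟩
        rw [hs0, zero_smul, zero_add] at hsk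
        exact hsk
      · have h1 : (s : ℝ) ^ 2 * p ≤ 4 * (a * T) := by
          calc (s : ℝ) ^ 2 * p ≤ (s : ℝ) ^ 2 * (dd h f g : ℝ) :=
                mul_le_mul_of_nonneg_left hDpr (sq_nonneg _)
            _ = (dd h f x : ℝ) := by rw [hdx]; push_cast; ring
            _ ≤ 4 * (a * T) := by rw [hddr]; nlinarith [sq_nonneg (bb h f x : ℝ)]
        have h2 : (s : ℝ) ^ 2 ≤ (2 * Real.sqrt (a * T / p)) ^ 2 := by
          rw [mul_pow, Real.sq_sqrt (by positivity), ← mul_div_assoc, le_div_iff₀ hp0]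
          linarith
        exact abs_le_of_sq_le_sq h2 (by positivity)
      · have h1 : (bb h f x : ℝ) ^ 2 ≤ (2 * Real.sqrt (a * T)) ^ 2 := by
          rw [mul_pow, Real.sq_sqrt (by positivity)]
          linarith
        have h2 := abs_le_of_sq_le_sq h1 (by positivity)
        have h3 : (bb h f x : ℝ) = (s : ℝ) * (bb h f g : ℝ) + 2 * a * (k : ℝ) := by
          rw [hbx]
          push_cast
          ring
        rwa [h3] at h2
    -- count
    set R : ℝ := 2 * Real.sqrt (a * T / p) with hR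
    set ρ : ℝ := 2 * Real.sqrt (a * T) with hρ
    have hρ0 : 0 ≤ ρ := by positivity
    have hR0 : 0 ≤ R := by positivity
    have himg : ((S2.image fun x => (co x).1).card : ℝ) ≤ 2 * R := by
      apply card_nonzero _ R hR0
      intro s hs
      obtain ⟨x, hx, rfl⟩ := Finset.mem_image.mp hs
      exact ⟨(hfact x hx).1, (hfact x hx).2.1⟩
    have hfib : ∀ s ∈ S2.image (fun x => (co x).1),
        (S2.filter (fun x => (co x).1 = s)).card ≤ ⌊ρ / a + 1⌋₊ := by
      intro s _
      have h1 : (S2.filter (fun x => (co x).1 = s)).card ≤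
          ((S2.filter (fun x => (co x).1 = s)).image fun x => (co x).2).card := by
        apply le_of_eq
        symm
        apply Finset.card_image_of_injOn
        intro x hx y hy hxy
        rw [Finset.mem_coe, Finset.mem_filter] at hx hy
        rw [hco x hx.1, hco y hy.1, hx.2, hy.2]
        simp only at hxy
        rw [hxy]
      refine h1.trans (Nat.le_floor ?_)
      apply card_interval _ ((s : ℝ) * (bb h f g : ℝ)) a ρ har hρ0
      intro k hk
      obtain ⟨x, hx, rfl⟩ := Finset.mem_image.mp hk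
      rw [Finset.mem_filter] at hx
      have := (hfact x hx.1).2.2
      rwa [hx.2] at this
    have hmain := Finset.card_le_mul_card_image S2 _ hfib
    have hfl : ((⌊ρ / a + 1⌋₊ : ℕ) : ℝ) ≤ ρ / a + 1 := Nat.floor_le (by positivity)
    have h1 : (S2.card : ℝ) ≤ (ρ / a + 1) * (2 * R) := by
      calc (S2.card : ℝ) ≤ ((⌊ρ / a + 1⌋₊ : ℕ) : ℝ) *
            ((S2.image fun x => (co x).1).card : ℝ) := by exact_mod_cast hmain
        _ ≤ (ρ / a + 1) * (2 * R) := by
          apply mul_le_mul hfl himg (Nat.cast_nonneg _) (by positivity)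
    refine h1.trans ?_
    have hsa : 0 < Real.sqrt a := Real.sqrt_pos.mpr har
    have e1 : R = 2 * (Real.sqrt a * Real.sqrt T) / Real.sqrt p := by
      rw [hR, Real.sqrt_div (by positivity), Real.sqrt_mul har.le]
      ring
    have e2 : ρ = 2 * (Real.sqrt a * Real.sqrt T) := by
      rw [hρ, Real.sqrt_mul har.le]
    have e3 : Real.sqrt a * Real.sqrt a = a := Real.mul_self_sqrt har.le
    have e4 : Real.sqrt T * Real.sqrt T = T := Real.mul_self_sqrt hT
    have e5 : Real.sqrt a ≤ Real.sqrt T := Real.sqrt_le_sqrt hfT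
    have e6 : ρ / a + 1 = (2 * Real.sqrt T + Real.sqrt a) / Real.sqrt a := by
      rw [e2, div_add_one har.ne', div_eq_div_iff har.ne' hsa.ne']
      linear_combination (2 * Real.sqrt T) * e3
    rw [e6, e1, div_mul_eq_mul_div, div_le_div_iff₀ hsa hsp]
    have e7 : (2 * Real.sqrt T + Real.sqrt a) * (2 * (2 * (Real.sqrt a * Real.sqrt T) /
        Real.sqrt p)) * Real.sqrt p =
        (2 * Real.sqrt T + Real.sqrt a) * (4 * (Real.sqrt a * Real.sqrt T)) := by
      field_simp
      ring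
    rw [e7]
    have hsT : 0 ≤ Real.sqrt T := Real.sqrt_nonneg _
    have e8 : (2 * Real.sqrt T + Real.sqrt a) ≤ 3 * Real.sqrt T := by linarith
    calc (2 * Real.sqrt T + Real.sqrt a) * (4 * (Real.sqrt a * Real.sqrt T))
        ≤ 3 * Real.sqrt T * (4 * (Real.sqrt a * Real.sqrt T)) :=
          mul_le_mul_of_nonneg_right e8 (by positivity)
      _ = 12 * (Real.sqrt T * Real.sqrt T) * Real.sqrt a := by ring
      _ = 12 * T * Real.sqrt a := by rw [e4]
  have h5 : (S.card : ℝ) = (S1.card : ℝ) + (S2.card : ℝ) := by exact_mod_cast hcard.symm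
  have h6 : (S1.card : ℝ) ≤ 1 := by exact_mod_cast hc1
  rw [h5]
  linarith

end

end LT.K
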