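import Pool.Agent.Lib_MP_f1937f_nt.FAs

/-!
# MP_f1937f_nt: the maps which fix the origin form a group (piece FINO)
-/

namespace LT

open Polynomial WeierstrassCurve

theorem InO_zero {k : Type} [Field k] {a b a' b' : k} : InO (.zero : MM a b a' b') := Or.inl rfl

theorem InO_neg {k : Type} [Field k] {a b a' b' : k} {P : MM a b a' b'} (hP : InO P) :
    InO (-P) := by
  rcases hP with h | h
  · left
    rw [h]
    rfl
  · right
    rw [uu_neg]
    exact h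

namespace FIno

section abstract

variable {K Γ : Type} [Field K] [LinearOrderedCommGroupWithZero Γ] (v : Valuation K Γ)

/-- valuation of the right hand side of the product relation -/
theorem rhs2 {u₁ u₂ α β : K} (hα : v α ≤ 1) (hβ : v β ≤ 1) (h1 : 1 < v u₂) (h12 : v u₂ ≤ v u₁) :
    v ((u₁ * u₂ - α) ^ 2 - β * (u₁ + u₂)) = v u₁ ^ 2 * v u₂ ^ 2 := by
  have hA : 1 < v u₁ := lt_of_lt_of_le h1 h12
  have hm : v (u₁ * u₂) = v u₁ * v u₂ := map_mul _ _ _
  have h3 : v u₁ < v u₁ * v u₂ := by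
    have := mul_lt_mul_of_pos_left h1 (lt_trans zero_lt_one hA)
    rwa [mul_one] at this
  have h4 : v α < v (u₁ * u₂) := by
    rw [hm]
    exact lt_of_le_of_lt hα (lt_trans hA h3)
  have h5 : v (u₁ * u₂ - α) = v u₁ * v u₂ := by
    rw [← hm]
    exact Valuation.map_sub_eq_of_lt_left _ h4
  have h6 : v ((u₁ * u₂ - α) ^ 2) = v u₁ ^ 2 * v u₂ ^ 2 := by
    rw [map_pow, h5, mul_pow]
  have h7 : v (u₁ + u₂) ≤ v u₁ := (v.map_add u₁ u₂).trans (max_le le_rfl h12)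
  have h8 : v (β * (u₁ + u₂)) ≤ v u₁ := by
    rw [map_mul]
    calc v β * v (u₁ + u₂) ≤ 1 * v u₁ := mul_le_mul' hβ h7
      _ = v u₁ := one_mul _
  have h10 : v u₁ < v u₁ ^ 2 * v u₂ ^ 2 := by
    calc v u₁ < v u₁ * v u₂ := h3
      _ = (v u₁ * v u₂) * 1 := (mul_one _).symm
      _ ≤ (v u₁ * v u₂) * (v u₁ * v u₂) := mul_le_mul' le_rfl (lt_trans hA h3).le
      _ = v u₁ ^ 2 * v u₂ ^ 2 := by rw [← mul_pow, sq]
  rw [← h6]
  apply Valuation.map_sub_eq_of_lt_left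
  rw [h6]
  exact lt_of_le_of_lt h8 h10

/-- valuation of the right hand side of the sum relation -/
theorem rhs1 {u₁ u₂ α β γ : K} (hα : v α ≤ 1) (hβ : v β ≤ 1) (hγ : v γ ≤ 1) (h1 : 1 ≤ v u₂)
    (h12 : v u₂ ≤ v u₁) :
    v (γ * (u₁ * u₂ + α) * (u₁ + u₂) + β) ≤ v u₁ ^ 2 * v u₂ := by
  have hA : 1 ≤ v u₁ := le_trans h1 h12
  have hm : v (u₁ * u₂) = v u₁ * v u₂ := map_mul _ _ _
  have h3 : 1 ≤ v u₁ * v u₂ := by
    calc (1 : Γ) = 1 * 1 := (one_mul 1).symm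
      _ ≤ v u₁ * v u₂ := mul_le_mul' hA h1
  have h4 : v (u₁ * u₂ + α) ≤ v u₁ * v u₂ :=
    (v.map_add (u₁ * u₂) α).trans (max_le (le_of_eq hm) (hα.trans h3))
  have h7 : v (u₁ + u₂) ≤ v u₁ := (v.map_add u₁ u₂).trans (max_le le_rfl h12)
  have h8 : v (γ * (u₁ * u₂ + α) * (u₁ + u₂)) ≤ v u₁ ^ 2 * v u₂ := by
    rw [map_mul, map_mul]
    calc v γ * v (u₁ * u₂ + α) * v (u₁ + u₂)
        ≤ 1 * (v u₁ * v u₂) * v u₁ := mul_le_mul' (mul_le_mul' hγ h4) h7
      _ = v u₁ ^ 2 * v u₂ := by rw [one_mul, sq]; ac_rfl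
  have h9 : v β ≤ v u₁ ^ 2 * v u₂ := by
    refine hβ.trans ?_
    calc (1 : Γ) = 1 * 1 := (one_mul 1).symm
      _ ≤ v u₁ * (v u₁ * v u₂) := mul_le_mul' hA h3
      _ = v u₁ ^ 2 * v u₂ := by rw [sq]; ac_rfl
  exact (v.map_add _ _).trans (max_le h8 h9)

/-- the main step -/
theorem key {u₁ u₂ u₃ u₄ α β γ δ : K} (hα : v α ≤ 1) (hβ : v β ≤ 1) (hγ : v γ ≤ 1)
    (hδ : v δ ≤ 1) (e1 : (u₃ + u₄) * (u₁ - u₂) ^ 2 = γ * (u₁ * u₂ + α) * (u₁ + u₂) + β)
    (e2 : u₃ * u₄ * (u₁ - u₂) ^ 2 = (u₁ * u₂ - α) ^ 2 - δ * (u₁ + u₂))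
    (h2 : 1 < v u₂) (h12 : v u₂ ≤ v u₁) : 1 < v u₃ := by
  by_contra hcon
  have hx : v u₃ ≤ 1 := not_lt.mp hcon
  have h1 : 1 < v u₁ := lt_of_lt_of_le h2 h12
  have f2 : v u₃ * v u₄ * v (u₁ - u₂) ^ 2 = v u₁ ^ 2 * v u₂ ^ 2 := by
    rw [← rhs2 v hα hδ h2 h12, ← e2, map_mul, map_mul, map_pow]
  have f1 : v (u₃ + u₄) * v (u₁ - u₂) ^ 2 ≤ v u₁ ^ 2 * v u₂ := by
    have := rhs1 v hα hβ hγ h2.le h12
    rwa [← e1, map_mul, map_pow] at this
  have hD : v (u₁ - u₂) ≤ v u₁ := (v.map_sub _ _).trans (max_le le_rfl h12)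
  have hA0 : 0 < v u₁ := lt_trans zero_lt_one h1
  have hB0 : 0 < v u₂ := lt_trans zero_lt_one h2
  -- `u₃ + u₄` is smaller than `u₄`
  have f3 : v (u₃ + u₄) < v u₄ := by
    by_contra hc
    push Not at hc
    have g1 : v u₄ * v (u₁ - u₂) ^ 2 ≤ v (u₃ + u₄) * v (u₁ - u₂) ^ 2 := mul_le_mul' hc le_rfl
    have g2 : v u₃ * v u₄ * v (u₁ - u₂) ^ 2 ≤ v u₄ * v (u₁ - u₂) ^ 2 := by
      calc v u₃ * v u₄ * v (u₁ - u₂) ^ 2 ≤ 1 * v u₄ * v (u₁ - u₂) ^ 2 :=
            mul_le_mul' (mul_le_mul' hx le_rfl) le_rfl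
        _ = v u₄ * v (u₁ - u₂) ^ 2 := by rw [one_mul]
    have g3 : v u₁ ^ 2 * v u₂ ^ 2 ≤ v u₁ ^ 2 * v u₂ := by
      rw [← f2]
      exact (g2.trans g1).trans f1
    have g4 : v u₁ ^ 2 * v u₂ < v u₁ ^ 2 * v u₂ ^ 2 := by
      apply mul_lt_mul_of_pos_left _ (pow_pos hA0 2)
      calc v u₂ = v u₂ * 1 := (mul_one _).symm
        _ < v u₂ * v u₂ := mul_lt_mul_of_pos_left h2 hB0
        _ = v u₂ ^ 2 := (sq _).symm
    exact absurd g3 (not_le.mpr g4)
  -- so the valuations of `u₃` and `u₄` agree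
  have f4 : v u₃ = v u₄ := by
    have : u₃ = (u₃ + u₄) - u₄ := by ring
    rw [this]
    exact Valuation.map_sub_eq_of_lt_right _ f3
  have f5 : v u₁ ^ 2 * v u₂ ^ 2 ≤ v u₁ ^ 2 * 1 := by
    rw [← f2, ← f4]
    calc v u₃ * v u₃ * v (u₁ - u₂) ^ 2 ≤ 1 * 1 * v u₁ ^ 2 :=
          mul_le_mul' (mul_le_mul' hx hx) (pow_le_pow_left' hD 2)
      _ = v u₁ ^ 2 * 1 := by rw [one_mul, one_mul, mul_one]
  have f6 : v u₁ ^ 2 * 1 < v u₁ ^ 2 * v u₂ ^ 2 := by
    apply mul_lt_mul_of_pos_left _ (pow_pos hA0 2)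
    exact one_lt_pow₀ h2 two_ne_zero
  exact absurd f5 (not_le.mpr f6)

end abstract

variable {k : Type} [Field k] [DecidableEq (RatFunc k)]

theorem va_C_le (c : k) : RatFunc.inftyValuation k (RatFunc.C c) ≤ 1 := by
  by_cases hc : c = 0
  · rw [hc, map_zero, map_zero]
    exact zero_le_one
  · rw [RatFunc.inftyValuation.C k hc]

theorem one_lt_va {u : RatFunc k} :
    1 < RatFunc.inftyValuation k u ↔ u.denom.natDegree < u.num.natDegree := by
  by_cases hu : u = 0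
  · subst hu
    constructor
    · intro h1
      rw [map_zero] at h1
      exact absurd h1 (not_lt_of_ge zero_le_one)
    · intro h
      simp at h
  · have h1 : RatFunc.inftyValuation k u = WithZero.exp u.intDegree :=
      RatFunc.inftyValuation_of_nonzero k hu
    rw [h1, ← WithZero.exp_zero, WithZero.exp_lt_exp]
    unfold RatFunc.intDegree
    omega

theorem InO_iff {a b a' b' : k} {P : MM a b a' b'} (h : P ≠ .zero) :
    InO P ↔ 1 < RatFunc.inftyValuation k (uu P) := by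
  rw [one_lt_va]
  constructor
  · rintro (h1 | h1)
    · exact absurd h1 h
    · exact h1
  · exact Or.inr

/-- generic case, ordered -/
theorem generic (h2 : (2 : k) ≠ 0) {a b a' b' : k} (hd' : dsc a' b' ≠ 0) {P Q : MM a b a' b'}
    (hP : P ≠ .zero) (hQ : Q ≠ .zero) (h1 : P + Q ≠ .zero) (h3 : P - Q ≠ .zero)
    (hQ1 : 1 < RatFunc.inftyValuation k (uu Q))
    (hle : RatFunc.inftyValuation k (uu Q) ≤ RatFunc.inftyValuation k (uu P)) :
    1 < RatFunc.inftyValuation k (uu (P + Q)) := by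
  obtain ⟨e1, e2⟩ := addsub_uu h2 hd' hP hQ h1 h3
  have c2 : (2 : RatFunc k) = RatFunc.C 2 := (map_ofNat RatFunc.C 2).symm
  have c4 : (4 : RatFunc k) * RatFunc.C b' = RatFunc.C (4 * b') := by
    rw [map_mul, map_ofNat]
  rw [c2, c4] at e1
  rw [c4] at e2
  exact key (RatFunc.inftyValuation k) (va_C_le _) (va_C_le _) (va_C_le _) (va_C_le _) e1 e2
    hQ1 hle

/-- generic case -/
theorem generic' (h2 : (2 : k) ≠ 0) {a b a' b' : k} (hd' : dsc a' b' ≠ 0) {P Q : MM a b a' b'}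
    (hP : P ≠ .zero) (hQ : Q ≠ .zero) (h1 : P + Q ≠ .zero) (h3 : P - Q ≠ .zero)
    (hP1 : InO P) (hQ1 : InO Q) : InO (P + Q) := by
  rw [InO_iff hP] at hP1
  rw [InO_iff hQ] at hQ1
  rw [InO_iff h1]
  rcases le_total (RatFunc.inftyValuation k (uu Q)) (RatFunc.inftyValuation k (uu P)) with h | h
  · exact generic h2 hd' hP hQ h1 h3 hQ1 h
  · rw [add_comm]
    refine generic h2 hd' hQ hP (by rw [add_comm]; exact h1) ?_ hP1 h
    intro hc
    apply h3
    have : P - Q = -(Q - P) := (neg_sub Q P).symm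
    rw [this, hc]
    rfl

/-- doubling -/
theorem double (h2 : (2 : k) ≠ 0) {a b a' b' : k} (hd' : dsc a' b' ≠ 0) {P : MM a b a' b'}
    (hP : P ≠ .zero) (h1 : P + P ≠ .zero) (hP1 : InO P) : InO (P + P) := by
  by_cases h3 : P + P + P = .zero
  · have h4 : P + P = -P := by
      have h5 : P + P + P = 0 := h3
      exact eq_neg_of_add_eq_zero_left h5
    rw [h4]
    exact InO_neg hP1
  have h4 : P + P - P ≠ .zero := by
    rw [add_sub_cancel_right]
    exact hP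
  obtain ⟨e1, e2⟩ := addsub_uu h2 hd' h1 hP h3 h4
  rw [add_sub_cancel_right] at e1 e2
  rw [InO_iff hP] at hP1
  rw [InO_iff h1]
  by_contra hcon
  have hx : RatFunc.inftyValuation k (uu (P + P)) ≤ 1 := not_lt.mp hcon
  set w := RatFunc.inftyValuation k with hw
  have c2 : (2 : RatFunc k) = RatFunc.C 2 := (map_ofNat RatFunc.C 2).symm
  have c4 : (4 : RatFunc k) * RatFunc.C b' = RatFunc.C (4 * b') := by
    rw [map_mul, map_ofNat]
  rw [c2, c4] at e1
  rw [c4] at e2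
  have hA0 : 0 < w (uu P) := lt_trans zero_lt_one hP1
  have hD : w (uu (P + P) - uu P) = w (uu P) :=
    Valuation.map_sub_eq_of_lt_right _ (lt_of_le_of_lt hx hP1)
  have hS : w (uu (P + P) + uu P) = w (uu P) :=
    Valuation.map_add_eq_of_lt_right _ (lt_of_le_of_lt hx hP1)
  have hM : w (uu (P + P) * uu P) ≤ w (uu P) := by
    rw [map_mul]
    calc w (uu (P + P)) * w (uu P) ≤ 1 * w (uu P) := mul_le_mul' hx le_rfl
      _ = w (uu P) := one_mul _
  have hC : ∀ c : k, w (RatFunc.C c) ≤ w (uu P) := fun c => (va_C_le c).trans hP1.le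
  -- the product relation
  have f2 : w (uu (P + P + P)) * w (uu P) * w (uu P) ^ 2 ≤ w (uu P) ^ 2 := by
    have g1 := congrArg w e2
    rw [map_mul, map_mul, map_pow, hD] at g1
    rw [g1]
    refine (w.map_sub _ _).trans (max_le ?_ ?_)
    · rw [map_pow]
      exact pow_le_pow_left' ((w.map_sub _ _).trans (max_le hM (hC _))) 2
    · rw [map_mul, hS]
      calc w (RatFunc.C (4 * b')) * w (uu P) ≤ w (uu P) * w (uu P) := mul_le_mul' (hC _) le_rfl
        _ = w (uu P) ^ 2 := (sq _).symm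
  have f3 : w (uu (P + P + P)) < w (uu P) := by
    by_contra hc
    push Not at hc
    have g2 : w (uu P) ^ 2 < w (uu (P + P + P)) * w (uu P) * w (uu P) ^ 2 := by
      calc w (uu P) ^ 2 = 1 * w (uu P) ^ 2 := (one_mul _).symm
        _ < (w (uu P) * w (uu P)) * w (uu P) ^ 2 := by
          apply mul_lt_mul_of_pos_right _ (pow_pos hA0 2)
          calc (1 : WithZero (Multiplicative ℤ)) < w (uu P) := hP1
            _ = w (uu P) * 1 := (mul_one _).symm
            _ ≤ w (uu P) * w (uu P) := mul_le_mul' le_rfl hP1.le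
        _ ≤ w (uu (P + P + P)) * w (uu P) * w (uu P) ^ 2 :=
          mul_le_mul' (mul_le_mul' hc le_rfl) le_rfl
    exact absurd f2 (not_le.mpr g2)
  -- the sum relation
  have g3 := congrArg w e1
  rw [map_mul, map_pow, hD, Valuation.map_add_eq_of_lt_right _ f3] at g3
  have g4 : w (RatFunc.C 2 * (uu (P + P) * uu P + RatFunc.C a') * (uu (P + P) + uu P) +
      RatFunc.C (4 * b')) ≤ w (uu P) ^ 2 := by
    refine (w.map_add _ _).trans (max_le ?_ ?_)
    · rw [map_mul, map_mul, hS]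
      calc w (RatFunc.C 2) * w (uu (P + P) * uu P + RatFunc.C a') * w (uu P)
          ≤ 1 * w (uu P) * w (uu P) := mul_le_mul' (mul_le_mul' (va_C_le _)
            ((w.map_add _ _).trans (max_le hM (hC _)))) le_rfl
        _ = w (uu P) ^ 2 := by rw [one_mul, sq]
    · calc w (RatFunc.C (4 * b')) ≤ w (uu P) := hC _
        _ = w (uu P) * 1 := (mul_one _).symm
        _ ≤ w (uu P) * w (uu P) := mul_le_mul' le_rfl hP1.le
        _ = w (uu P) ^ 2 := (sq _).symm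
  rw [← g3] at g4
  have g5 : w (uu P) ^ 2 < w (uu P) * w (uu P) ^ 2 := by
    calc w (uu P) ^ 2 = 1 * w (uu P) ^ 2 := (one_mul _).symm
      _ < w (uu P) * w (uu P) ^ 2 := mul_lt_mul_of_pos_right hP1 (pow_pos hA0 2)
  exact absurd g4 (not_le.mpr g5)

end FIno

variable {k : Type} [Field k]

theorem InO_add [DecidableEq (RatFunc k)] (h2 : (2 : k) ≠ 0) {a b a' b' : k}
    (hd' : dsc a' b' ≠ 0) {P Q : MM a b a' b'} (hP : InO P) (hQ : InO Q) : InO (P + Q) := by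
  by_cases hP0 : P = .zero
  · have : P + Q = Q := by
      have h0 : P = 0 := hP0
      rw [h0, zero_add]
    rw [this]
    exact hQ
  by_cases hQ0 : Q = .zero
  · have : P + Q = P := by
      have h0 : Q = 0 := hQ0
      rw [h0, add_zero]
    rw [this]
    exact hP
  by_cases h1 : P + Q = .zero
  · exact Or.inl h1
  by_cases h3 : P - Q = .zero
  · have h4 : P = Q := sub_eq_zero.mp h3
    subst h4
    exact FIno.double h2 hd' hP0 h1 hP
  exact FIno.generic' h2 hd' hP0 hQ0 h1 h3 hP hQ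

theorem InO_zsmul [DecidableEq (RatFunc k)] (h2 : (2 : k) ≠ 0) {a b a' b' : k}
    (hd' : dsc a' b' ≠ 0) {P : MM a b a' b'} (hP : InO P) (n : ℤ) : InO (n • P) := by
  have hnat : ∀ m : ℕ, InO ((m : ℤ) • P) := by
    intro m
    induction m with
    | zero =>
      rw [Nat.cast_zero, zero_zsmul]
      exact Or.inl rfl
    | succ m ih =>
      rw [Nat.cast_succ, add_zsmul, one_zsmul]
      exact InO_add h2 hd' ih hP
  obtain ⟨m, rfl | rfl⟩ := n.eq_nat_or_neg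
  · exact hnat m
  · rw [neg_zsmul]
    exact InO_neg (hnat m)

end LT
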