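import Pool.Agent.Lib_MP_f1937f_nt.FAs

/-!
# MP_f1937f_nt: the parallelogram law for the degree (piece FPAR)
-/

namespace LT

open Polynomial WeierstrassCurve

namespace FPar

section Forms

variable {R : Type} [CommRing R]

/-- first quadratic form of the addition-and-subtraction map -/
def F0 (a b g0 g1 g2 : R) : R := g0 ^ 2 - 2 * a * (g0 * g2) - 4 * b * (g1 * g2) + a ^ 2 * g2 ^ 2

/-- second quadratic form of the addition-and-subtraction map -/
def F1 (a b g0 g1 g2 : R) : R := 2 * (g1 * g0) + 2 * a * (g1 * g2) + 4 * b * g2 ^ 2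

/-- third quadratic form of the addition-and-subtraction map -/
def F2 (g0 g1 g2 : R) : R := g1 ^ 2 - 4 * (g0 * g2)

theorem disc' (a b : R) : (SW a b).Δ = -16 * dsc a b := by
  simp only [SW, WeierstrassCurve.Δ, b₂, b₄, b₆, b₈, dsc]
  ring

theorem ev (a b g0 g1 g2 : R) :
    (fun i => (addSubMap (SW a b) i).eval ![g0, g1, g2]) =
      ![F0 a b g0 g1 g2, F1 a b g0 g1 g2, F2 g0 g1 g2] := by
  ext i
  fin_cases i <;> simp [addSubMap, SW, b₂, b₄, b₆, b₈, F0, F1, F2] <;> ring

end Forms

variable {k : Type} [Field k]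

/-- A coprime pair of polynomials of exact height `h`. -/
structure Rep (h : ℕ) (N D : k[X]) : Prop where
  cop : ∀ p : k[X], Prime p → ¬ (p ∣ N ∧ p ∣ D)
  degN : N.natDegree ≤ h
  degD : D.natDegree ≤ h
  top : N.coeff h ≠ 0 ∨ D.coeff h ≠ 0

/-- A triple of polynomials without common factor of exact height `h`. -/
structure Rep3 (h : ℕ) (g0 g1 g2 : k[X]) : Prop where
  cop : ∀ p : k[X], Prime p → ¬ (p ∣ g0 ∧ p ∣ g1 ∧ p ∣ g2)
  deg0 : g0.natDegree ≤ h
  deg1 : g1.natDegree ≤ h
  deg2 : g2.natDegree ≤ h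
  top : g0.coeff h ≠ 0 ∨ g1.coeff h ≠ 0 ∨ g2.coeff h ≠ 0

theorem Rep.mul {h1 h2 : ℕ} {N1 D1 N2 D2 : k[X]} (H1 : Rep h1 N1 D1) (H2 : Rep h2 N2 D2) :
    Rep3 (h1 + h2) (N1 * N2) (N1 * D2 + D1 * N2) (D1 * D2) where
  cop := by
    rintro p hp ⟨q0, q1, q2⟩
    rcases hp.dvd_or_dvd q2 with d | d
    · have n1 : ¬ p ∣ N1 := fun h => H1.cop p hp ⟨h, d⟩
      have n2 : p ∣ N2 := (hp.dvd_or_dvd q0).resolve_left n1
      have e : p ∣ N1 * D2 := (dvd_add_left (d.mul_right N2)).mp q1
      exact H2.cop p hp ⟨n2, (hp.dvd_or_dvd e).resolve_left n1⟩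
    · have n2 : ¬ p ∣ N2 := fun h => H2.cop p hp ⟨h, d⟩
      have n1 : p ∣ N1 := (hp.dvd_or_dvd q0).resolve_right n2
      have e : p ∣ D1 * N2 := (dvd_add_right (d.mul_left N1)).mp q1
      exact H1.cop p hp ⟨n1, (hp.dvd_or_dvd e).resolve_right n2⟩
  deg0 := natDegree_mul_le_of_le H1.degN H2.degN
  deg1 := natDegree_add_le_of_degree_le (natDegree_mul_le_of_le H1.degN H2.degD)
    (natDegree_mul_le_of_le H1.degD H2.degN)
  deg2 := natDegree_mul_le_of_le H1.degD H2.degD
  top := by
    rw [coeff_add, coeff_mul_add_eq_of_natDegree_le H1.degN H2.degN,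
      coeff_mul_add_eq_of_natDegree_le H1.degN H2.degD, coeff_mul_add_eq_of_natDegree_le H1.degD H2.degN,
      coeff_mul_add_eq_of_natDegree_le H1.degD H2.degD]
    by_contra hcon
    push Not at hcon
    obtain ⟨e0, e1, e2⟩ := hcon
    rcases mul_eq_zero.mp e2 with d | d
    · have n1 : N1.coeff h1 ≠ 0 := H1.top.resolve_right (fun h => h d)
      have n2 : N2.coeff h2 = 0 := (mul_eq_zero.mp e0).resolve_left n1
      rw [d, zero_mul, add_zero] at e1
      have d2 : D2.coeff h2 = 0 := (mul_eq_zero.mp e1).resolve_left n1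
      rcases H2.top with h | h
      · exact h n2
      · exact h d2
    · have n2 : N2.coeff h2 ≠ 0 := H2.top.resolve_right (fun h => h d)
      have n1 : N1.coeff h1 = 0 := (mul_eq_zero.mp e0).resolve_right n2
      rw [d, mul_zero, zero_add] at e1
      have d1 : D1.coeff h1 = 0 := (mul_eq_zero.mp e1).resolve_right n2
      rcases H1.top with h | h
      · exact h n1
      · exact h d1

theorem coeff_two {m : ℕ} {p q : k[X]} (hp : p.natDegree ≤ m) (hq : q.natDegree ≤ m) :
    (p * q).coeff (2 * m) = p.coeff m * q.coeff m := by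
  rw [two_mul]
  exact coeff_mul_add_eq_of_natDegree_le hp hq

theorem deg_two {m : ℕ} {p q : k[X]} (hp : p.natDegree ≤ m) (hq : q.natDegree ≤ m) :
    (p * q).natDegree ≤ 2 * m := by
  rw [two_mul]
  exact natDegree_mul_le_of_le hp hq

theorem deg_sub {m : ℕ} {p q : k[X]} (hp : p.natDegree ≤ m) (hq : q.natDegree ≤ m) :
    (p - q).natDegree ≤ m :=
  (natDegree_sub_le_of_le hp hq).trans (max_self m).le

theorem deg_C {m : ℕ} (c : k) {p : k[X]} (hp : p.natDegree ≤ m) : (C c * p).natDegree ≤ m :=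
  (natDegree_C_mul_le c p).trans hp

theorem Rep3.forms {m : ℕ} {g0 g1 g2 : k[X]} (H : Rep3 m g0 g1 g2) (h2 : (2 : k) ≠ 0) {a b : k}
    (hd : dsc a b ≠ 0) :
    Rep3 (2 * m) (F0 (C a) (C b) g0 g1 g2) (F1 (C a) (C b) g0 g1 g2) (F2 g0 g1 g2) := by
  have hdisc : (-16 : k) * dsc a b ≠ 0 := by
    have : (16 : k) = 2 ^ 4 := by norm_num
    rw [this]
    exact mul_ne_zero (neg_ne_zero.mpr (pow_ne_zero 4 h2)) hd
  have e0 : F0 (C a) (C b) g0 g1 g2 =
      g0 * g0 - C (2 * a) * (g0 * g2) - C (4 * b) * (g1 * g2) + C (a ^ 2) * (g2 * g2) := by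
    simp only [F0, map_mul, map_pow, map_ofNat]
    ring
  have e1 : F1 (C a) (C b) g0 g1 g2 =
      C 2 * (g1 * g0) + C (2 * a) * (g1 * g2) + C (4 * b) * (g2 * g2) := by
    simp only [F1, map_mul, map_ofNat]
    ring
  have e2 : F2 g0 g1 g2 = g1 * g1 - C 4 * (g0 * g2) := by
    simp only [F2, map_ofNat]
    ring
  refine ⟨?_, ?_, ?_, ?_, ?_⟩
  · rintro p hp ⟨d0, d1, d2⟩
    have hell : (SW (C a) (C b) : WeierstrassCurve k[X]).IsElliptic := by
      constructor
      rw [disc']
      have : (-16 : k[X]) * dsc (C a) (C b) = C (-16 * dsc a b) := by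
        simp only [dsc, map_mul, map_add, map_pow, map_neg, map_ofNat]
      rw [this]
      exact (isUnit_iff_ne_zero.mpr hdisc).map C
    have hc := fun i => addSubMapCoeff_condition (SW (C a) (C b) : WeierstrassCurve k[X])
      ![g0, g1, g2] i
    have hev := ev (C a) (C b) g0 g1 g2
    have key : ∀ i : Fin 3, p ∣ (![g0, g1, g2] i) ^ 4 := by
      intro i
      rw [← hc i]
      refine Finset.dvd_sum fun j _ => Dvd.dvd.mul_left ?_ _
      have hj := congrFun hev j
      rw [hj]
      fin_cases j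
      · exact d0
      · exact d1
      · exact d2
    exact H.cop p hp ⟨hp.dvd_of_dvd_pow (key 0), hp.dvd_of_dvd_pow (key 1),
      hp.dvd_of_dvd_pow (key 2)⟩
  · rw [e0]
    refine natDegree_add_le_of_degree_le (deg_sub (deg_sub
      (deg_two H.deg0 H.deg0) (deg_C _ (deg_two H.deg0 H.deg2)))
      (deg_C _ (deg_two H.deg1 H.deg2))) (deg_C _ (deg_two H.deg2 H.deg2))
  · rw [e1]
    exact natDegree_add_le_of_degree_le (natDegree_add_le_of_degree_le
      (deg_C _ (deg_two H.deg1 H.deg0)) (deg_C _ (deg_two H.deg1 H.deg2)))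
      (deg_C _ (deg_two H.deg2 H.deg2))
  · rw [e2]
    exact deg_sub (deg_two H.deg1 H.deg1) (deg_C _ (deg_two H.deg0 H.deg2))
  · have hell : (SW a b : WeierstrassCurve k).IsElliptic := by
      constructor
      rw [sw_disc]
      exact isUnit_iff_ne_zero.mpr hdisc
    have c0 : (F0 (C a) (C b) g0 g1 g2).coeff (2 * m) =
        F0 a b (g0.coeff m) (g1.coeff m) (g2.coeff m) := by
      rw [e0]
      simp only [coeff_add, coeff_sub, coeff_C_mul, coeff_two H.deg0 H.deg0,
        coeff_two H.deg0 H.deg2, coeff_two H.deg1 H.deg2, coeff_two H.deg2 H.deg2, F0]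
      ring
    have c1 : (F1 (C a) (C b) g0 g1 g2).coeff (2 * m) =
        F1 a b (g0.coeff m) (g1.coeff m) (g2.coeff m) := by
      rw [e1]
      simp only [coeff_add, coeff_C_mul, coeff_two H.deg1 H.deg0,
        coeff_two H.deg1 H.deg2, coeff_two H.deg2 H.deg2, F1]
      ring
    have c2 : (F2 g0 g1 g2).coeff (2 * m) = F2 (g0.coeff m) (g1.coeff m) (g2.coeff m) := by
      rw [e2]
      simp only [coeff_sub, coeff_C_mul, coeff_two H.deg1 H.deg1, coeff_two H.deg0 H.deg2, F2]
      ring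
    rw [c0, c1, c2]
    by_contra hcon
    push Not at hcon
    obtain ⟨z0, z1, z2⟩ := hcon
    have hne : (![g0.coeff m, g1.coeff m, g2.coeff m] : Fin 3 → k) ≠ 0 := by
      intro h0
      have h00 := congrFun h0 0
      have h01 := congrFun h0 1
      have h02 := congrFun h0 2
      simp at h00 h01 h02
      rcases H.top with h | h | h
      · exact h h00
      · exact h h01
      · exact h h02
    apply addSubMap_ne_zero (SW a b : WeierstrassCurve k) hne
    rw [ev, z0, z1, z2]
    ext i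
    fin_cases i <;> rfl

theorem Rep3.unique {h h' : ℕ} {g0 g1 g2 g0' g1' g2' : k[X]} (H : Rep3 h g0 g1 g2)
    (H' : Rep3 h' g0' g1' g2') {A B : RatFunc k} (hA : A ≠ 0) (hB : B ≠ 0)
    (e0 : A * algebraMap k[X] (RatFunc k) g0 = B * algebraMap k[X] (RatFunc k) g0')
    (e1 : A * algebraMap k[X] (RatFunc k) g1 = B * algebraMap k[X] (RatFunc k) g1')
    (e2 : A * algebraMap k[X] (RatFunc k) g2 = B * algebraMap k[X] (RatFunc k) g2') :
    h = h' := by
  have hinj : Function.Injective (algebraMap k[X] (RatFunc k)) := IsFractionRing.injective _ _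
  obtain ⟨μ, hμ⟩ : ∃ μ, μ = B / A := ⟨_, rfl⟩
  have hμ0 : μ ≠ 0 := by rw [hμ]; exact div_ne_zero hB hA
  have hp0 : μ.num ≠ 0 := RatFunc.num_ne_zero hμ0
  have hq0 : μ.denom ≠ 0 := RatFunc.denom_ne_zero μ
  have hcop := RatFunc.isCoprime_num_denom μ
  have tr : ∀ {x x' : k[X]}, A * algebraMap k[X] (RatFunc k) x = B * algebraMap k[X] (RatFunc k) x' →
      μ.denom * x = μ.num * x' := by
    intro x x' hx
    apply hinj
    rw [map_mul, map_mul]
    have h1 : algebraMap k[X] (RatFunc k) x = μ * algebraMap k[X] (RatFunc k) x' := by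
      rw [hμ, div_mul_eq_mul_div, eq_div_iff hA, mul_comm]
      exact hx
    have h2 : algebraMap k[X] (RatFunc k) μ.denom * μ = algebraMap k[X] (RatFunc k) μ.num := by
      have h3 := RatFunc.num_div_denom μ
      have h4 : algebraMap k[X] (RatFunc k) μ.denom ≠ 0 := by
        intro h5
        exact hq0 (hinj (by rw [h5, map_zero]))
      rw [div_eq_iff h4] at h3
      rw [h3, mul_comm]
    rw [h1, ← mul_assoc, h2]
  have t0 := tr e0
  have t1 := tr e1
  have t2 := tr e2
  have hqu : IsUnit μ.denom := by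
    by_contra hnu
    obtain ⟨π, hπ, hπd⟩ := WfDvdMonoid.exists_irreducible_factor hnu hq0
    have hd : ∀ {x x' : k[X]}, μ.denom * x = μ.num * x' → π ∣ x' := by
      intro x x' hx
      exact hπd.trans (hcop.symm.dvd_of_dvd_mul_left ⟨x, hx.symm⟩)
    exact H'.cop π hπ.prime ⟨hd t0, hd t1, hd t2⟩
  have hpu : IsUnit μ.num := by
    by_contra hnu
    obtain ⟨π, hπ, hπd⟩ := WfDvdMonoid.exists_irreducible_factor hnu hp0
    have hd : ∀ {x x' : k[X]}, μ.denom * x = μ.num * x' → π ∣ x := by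
      intro x x' hx
      exact hπd.trans (hcop.dvd_of_dvd_mul_left ⟨x', hx⟩)
    exact H.cop π hπ.prime ⟨hd t0, hd t1, hd t2⟩
  obtain ⟨q, hq, hqC⟩ := Polynomial.isUnit_iff.mp hqu
  obtain ⟨p, hp, hpC⟩ := Polynomial.isUnit_iff.mp hpu
  rw [← hqC, ← hpC] at t0 t1 t2
  have hcoef : ∀ {x x' : k[X]}, C q * x = C p * x' → ∀ n, x.coeff n ≠ 0 ↔ x'.coeff n ≠ 0 := by
    intro x x' hx n
    have h1 := congrArg (fun y => coeff y n) hx
    simp only [coeff_C_mul] at h1
    constructor
    · intro h2 h3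
      rw [h3, mul_zero] at h1
      exact (mul_ne_zero hq.ne_zero h2) h1
    · intro h2 h3
      rw [h3, mul_zero] at h1
      exact (mul_ne_zero hp.ne_zero h2) h1.symm
  apply le_antisymm
  · rcases H.top with ht | ht | ht
    · exact (le_natDegree_of_ne_zero ((hcoef t0 h).mp ht)).trans H'.deg0
    · exact (le_natDegree_of_ne_zero ((hcoef t1 h).mp ht)).trans H'.deg1
    · exact (le_natDegree_of_ne_zero ((hcoef t2 h).mp ht)).trans H'.deg2
  · rcases H'.top with ht | ht | ht
    · exact (le_natDegree_of_ne_zero ((hcoef t0 h').mpr ht)).trans H.deg0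
    · exact (le_natDegree_of_ne_zero ((hcoef t1 h').mpr ht)).trans H.deg1
    · exact (le_natDegree_of_ne_zero ((hcoef t2 h').mpr ht)).trans H.deg2

theorem fR_ne (a b : k) : fR a b ≠ 0 := by
  unfold fR
  have h : fP a b ≠ 0 := by
    intro h0
    have h1 := congrArg (fun y => coeff y 3) h0
    simp [fP] at h1
  intro h1
  exact h ((IsFractionRing.injective k[X] (RatFunc k)) (by rw [h1, map_zero]))

/-- The projective `x`-coordinate of a point. -/
theorem rep_exists {a b a' b' : k} (P : MM a b a' b') :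
    ∃ (N D : k[X]) (l : RatFunc k), Rep (hh P) N D ∧ l ≠ 0 ∧
      P.xRep = ![l * (fR a b * algebraMap k[X] (RatFunc k) N), l * algebraMap k[X] (RatFunc k) D] := by
  have hf := fR_ne a b
  rcases P with _ | ⟨x, y, h⟩
  · refine ⟨1, 0, (fR a b)⁻¹, ?_, inv_ne_zero hf, ?_⟩
    · have hh0 : hh (Affine.Point.zero : MM a b a' b') = 0 := by
        simp [hh, uu, xc]
      rw [hh0]
      refine ⟨?_, by simp, by simp, ?_⟩
      · rintro p hp ⟨h1, -⟩
        exact hp.not_isUnit (isUnit_of_dvd_one h1)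
      · left; simp
    · rw [map_one, mul_one, inv_mul_cancel₀ hf, map_zero, mul_zero]
      rfl
  · set U : RatFunc k := uu (Affine.Point.some x y h : MM a b a' b') with hU
    have hUe : U = x / fR a b := rfl
    have hdn : algebraMap k[X] (RatFunc k) U.denom ≠ 0 := by
      intro h0
      exact RatFunc.denom_ne_zero U ((IsFractionRing.injective k[X] (RatFunc k))
        (by rw [h0, map_zero]))
    refine ⟨U.num, U.denom, (algebraMap k[X] (RatFunc k) U.denom)⁻¹, ?_, inv_ne_zero hdn, ?_⟩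
    · have hhe : hh (Affine.Point.some x y h : MM a b a' b') =
        max U.num.natDegree U.denom.natDegree := rfl
      rw [hhe]
      refine ⟨?_, le_max_left _ _, le_max_right _ _, ?_⟩
      · rintro p hp ⟨h1, h2⟩
        exact hp.not_isUnit ((RatFunc.isCoprime_num_denom U).isUnit_of_dvd' h1 h2)
      · rcases le_total U.num.natDegree U.denom.natDegree with hle | hle
        · right
          rw [max_eq_right hle]
          exact leadingCoeff_ne_zero.mpr (RatFunc.denom_ne_zero U)
        · by_cases hn : U.num = 0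
          · right
            rw [hn] at hle ⊢
            rw [natDegree_zero] at hle ⊢
            have : U.denom.natDegree = 0 := Nat.le_zero.mp hle
            rw [this, max_self, ← this]
            exact leadingCoeff_ne_zero.mpr (RatFunc.denom_ne_zero U)
          · left
            rw [max_eq_left hle]
            exact leadingCoeff_ne_zero.mpr hn
    · have hx : x = fR a b * (algebraMap k[X] (RatFunc k) U.num / algebraMap k[X] (RatFunc k) U.denom) := by
        rw [RatFunc.num_div_denom, hUe]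
        field_simp
      rw [inv_mul_cancel₀ hdn, Affine.Point.xRep_some]
      have h3 : (algebraMap k[X] (RatFunc k) U.denom)⁻¹ *
          (fR a b * algebraMap k[X] (RatFunc k) U.num) = x := by
        conv_rhs => rw [hx]
        field_simp
      rw [h3]

end FPar

open FPar in
/-- The parallelogram law. -/
theorem hh_par {k : Type} [Field k] [DecidableEq (RatFunc k)] (h2 : (2 : k) ≠ 0)
    {a b a' b' : k} (hd' : dsc a' b' ≠ 0) (P Q : MM a b a' b') :
    hh (P + Q) + hh (P - Q) = 2 * hh P + 2 * hh Q := by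
  have hf := fR_ne a b
  have hell : (SW (RatFunc.C a' * fR a b ^ 2) (RatFunc.C b' * fR a b ^ 3)).IsElliptic := by
    constructor
    rw [sw_disc]
    have e : (-16 : RatFunc k) * dsc (RatFunc.C a' * fR a b ^ 2) (RatFunc.C b' * fR a b ^ 3) =
        RatFunc.C (-16 * dsc a' b') * fR a b ^ 6 := by
      simp only [dsc, map_mul, map_add, map_pow, map_neg, map_ofNat]
      ring
    rw [e, isUnit_iff_ne_zero]
    refine mul_ne_zero ?_ (pow_ne_zero 6 hf)
    rw [Ne, map_eq_zero]
    have : (16 : k) = 2 ^ 4 := by norm_num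
    rw [this]
    exact mul_ne_zero (neg_ne_zero.mpr (pow_ne_zero 4 h2)) hd'
  obtain ⟨c, hc, hrel⟩ := LangForms.addSub_rel
    (SW (RatFunc.C a' * fR a b ^ 2) (RatFunc.C b' * fR a b ^ 3)) P Q
  obtain ⟨N1, D1, l1, R1, hl1, x1⟩ := rep_exists P
  obtain ⟨N2, D2, l2, R2, hl2, x2⟩ := rep_exists Q
  obtain ⟨N3, D3, l3, R3, hl3, x3⟩ := rep_exists (P + Q)
  obtain ⟨N4, D4, l4, R4, hl4, x4⟩ := rep_exists (P - Q)
  unfold Affine.Point.sym2x at hrel
  rw [x1, x2, x3, x4] at hrel
  simp only [Matrix.cons_val_zero, Matrix.cons_val_one] at hrel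
  rw [ev] at hrel
  have r0 := congrFun hrel 0
  have r1 := congrFun hrel 1
  have r2 := congrFun hrel 2
  simp only [F0, F1, F2, Pi.smul_apply, smul_eq_mul, Matrix.cons_val_zero, Matrix.cons_val_one,
    Matrix.cons_val] at r0 r1 r2
  have H := (R1.mul R2).forms h2 hd'
  have H' := R3.mul R4
  have huniq : 2 * (hh P + hh Q) = hh (P + Q) + hh (P - Q) := by
    refine Rep3.unique H H' (A := l1 ^ 2 * l2 ^ 2 * fR a b ^ 2) (B := c * (l3 * l4))
      (mul_ne_zero (mul_ne_zero (pow_ne_zero 2 hl1) (pow_ne_zero 2 hl2)) (pow_ne_zero 2 hf))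
      (mul_ne_zero hc (mul_ne_zero hl3 hl4)) ?_ ?_ ?_
    · apply mul_left_cancel₀ (pow_ne_zero 2 hf)
      simp only [F0, map_sub, map_add, map_mul, map_pow, map_ofNat, RatFunc.algebraMap_C]
      linear_combination r0
    · apply mul_left_cancel₀ hf
      simp only [F1, map_add, map_mul, map_pow, map_ofNat, RatFunc.algebraMap_C]
      linear_combination r1
    · simp only [F2, map_sub, map_add, map_mul, map_pow, map_ofNat]
      linear_combination r2
  omega

end LT
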