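import Pool.Agent.Lib_MP_f1937f_nt.ALeg

/-!
# MP_f1937f_nt: large sieve for the characters `(-p / ·)` (piece ACHAR)
-/

namespace LT

theorem ac_one {p n : ℕ} (hp4 : p % 4 = 1) (hn : Odd n) :
    jacobiSym (-(p : ℤ)) n = ZMod.χ₄ (n : ZMod 4) * jacobiSym (n : ℤ) p := by
  rw [jacobiSym.neg _ hn, jacobiSym.quadratic_reciprocity_one_mod_four hp4 hn]

theorem ac_three {p n : ℕ} (hp4 : p % 4 = 3) (hn : Odd n) :
    jacobiSym (-(p : ℤ)) n = jacobiSym (n : ℤ) p := by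
  have hn2 : n % 2 = 1 := Nat.odd_iff.1 hn
  rw [jacobiSym.neg _ hn, ← jacobiSym.quadratic_reciprocity_if (by omega) hn2]
  by_cases h3 : n % 4 = 3
  · rw [if_pos ⟨hp4, h3⟩, ZMod.χ₄_nat_three_mod_four h3]
    ring
  · rw [if_neg (fun h => h3 h.2), ZMod.χ₄_nat_one_mod_four (by omega)]
    ring

theorem ls_char : ∃ C : ℝ, 0 < C ∧ ∀ (Y N : ℕ) (a : ℕ → ℝ), 1 ≤ Y →
    ∑ p ∈ (Finset.range (Y + 1)).filter (fun p => p.Prime ∧ p ≠ 2),
      (∑ n ∈ (Finset.range N).filter Odd, a n * (jacobiSym (-(p : ℤ)) n : ℝ)) ^ 2 ≤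
        C * ((N : ℝ) + (Y : ℝ) ^ 2) * ∑ n ∈ Finset.range N, a n ^ 2 := by
  obtain ⟨C, hC, h⟩ := ls_legendre
  refine ⟨2 * C, by positivity, fun Y N a hY => ?_⟩
  set a1 : ℕ → ℝ := fun n => if Odd n then a n * (ZMod.χ₄ (n : ZMod 4) : ℝ) else 0 with ha1
  set a2 : ℕ → ℝ := fun n => if Odd n then a n else 0 with ha2
  have hchi : ∀ b : ZMod 4, |(ZMod.χ₄ b : ℝ)| ≤ 1 := by
    intro b
    rcases ZMod.isQuadratic_χ₄ b with h | h | h <;> rw [h] <;> simp
  have hsq1 : ∑ n ∈ Finset.range N, a1 n ^ 2 ≤ ∑ n ∈ Finset.range N, a n ^ 2 := by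
    refine Finset.sum_le_sum (fun n _ => ?_)
    simp only [ha1]
    split_ifs with ho
    · rw [mul_pow]
      have h1 := hchi (n : ZMod 4)
      have h2 : (ZMod.χ₄ (n : ZMod 4) : ℝ) ^ 2 ≤ 1 := by
        rw [← sq_abs]
        exact pow_le_one₀ (abs_nonneg _) h1
      nlinarith [sq_nonneg (a n)]
    · simp
      positivity
  have hsq2 : ∑ n ∈ Finset.range N, a2 n ^ 2 ≤ ∑ n ∈ Finset.range N, a n ^ 2 := by
    refine Finset.sum_le_sum (fun n _ => ?_)
    simp only [ha2]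
    split_ifs with ho
    · exact le_rfl
    · simp
      positivity
  have hterm : ∀ p ∈ (Finset.range (Y + 1)).filter (fun p => p.Prime ∧ p ≠ 2),
      (∑ n ∈ (Finset.range N).filter Odd, a n * (jacobiSym (-(p : ℤ)) n : ℝ)) ^ 2 ≤
        (∑ n ∈ Finset.range N, a1 n * (jacobiSym (n : ℤ) p : ℝ)) ^ 2 +
        (∑ n ∈ Finset.range N, a2 n * (jacobiSym (n : ℤ) p : ℝ)) ^ 2 := by
    intro p hp
    rw [Finset.mem_filter] at hp
    have hodd : p % 2 = 1 := Nat.odd_iff.1 (hp.2.1.odd_of_ne_two hp.2.2)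
    rw [Finset.sum_filter]
    rcases (by omega : p % 4 = 1 ∨ p % 4 = 3) with h4 | h4
    · have e : ∑ n ∈ Finset.range N, (if Odd n then a n * (jacobiSym (-(p : ℤ)) n : ℝ) else 0)
          = ∑ n ∈ Finset.range N, a1 n * (jacobiSym (n : ℤ) p : ℝ) := by
        refine Finset.sum_congr rfl (fun n _ => ?_)
        simp only [ha1]
        split_ifs with ho
        · rw [ac_one h4 ho]
          push_cast
          ring
        · simp
      rw [e]
      nlinarith [sq_nonneg (∑ n ∈ Finset.range N, a2 n * (jacobiSym (n : ℤ) p : ℝ))]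
    · have e : ∑ n ∈ Finset.range N, (if Odd n then a n * (jacobiSym (-(p : ℤ)) n : ℝ) else 0)
          = ∑ n ∈ Finset.range N, a2 n * (jacobiSym (n : ℤ) p : ℝ) := by
        refine Finset.sum_congr rfl (fun n _ => ?_)
        simp only [ha2]
        split_ifs with ho
        · rw [ac_three h4 ho]
        · simp
      rw [e]
      nlinarith [sq_nonneg (∑ n ∈ Finset.range N, a1 n * (jacobiSym (n : ℤ) p : ℝ))]
  refine (Finset.sum_le_sum hterm).trans ?_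
  rw [Finset.sum_add_distrib]
  have h1 := h Y N a1 hY
  have h2 := h Y N a2 hY
  have hK : 0 ≤ C * ((N : ℝ) + (Y : ℝ) ^ 2) := by positivity
  have h3 := mul_le_mul_of_nonneg_left hsq1 hK
  have h4 := mul_le_mul_of_nonneg_left hsq2 hK
  calc _ ≤ C * ((N : ℝ) + (Y : ℝ) ^ 2) * ∑ n ∈ Finset.range N, a n ^ 2 +
        C * ((N : ℝ) + (Y : ℝ) ^ 2) * ∑ n ∈ Finset.range N, a n ^ 2 :=
        add_le_add (h1.trans h3) (h2.trans h4)
    _ = 2 * C * ((N : ℝ) + (Y : ℝ) ^ 2) * ∑ n ∈ Finset.range N, a n ^ 2 := by ring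

end LT
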