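import Mathlib

/-!
# MP_f1937f_nt: greedy covering (piece AGREEDY)
-/

namespace LT

private lemma greedy_step {α β : Type} [DecidableEq α] [DecidableEq β] (U : Finset α) (Q : Finset β)
    (R : α → β → Prop) [∀ s q, Decidable (R s q)]
    (h : ∀ s ∈ U, Q.card ≤ 4 * (Q.filter (R s)).card) (hQ : Q.Nonempty) :
    ∃ q ∈ Q, U.card ≤ 4 * (U.filter (fun s => R s q)).card := by
  by_contra hcon
  push Not at hcon
  have h1 : ∑ q ∈ Q, 4 * (U.filter (fun s => R s q)).card < ∑ _q ∈ Q, U.card :=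
    Finset.sum_lt_sum_of_nonempty hQ hcon
  have h2 : ∑ q ∈ Q, (U.filter (fun s => R s q)).card = ∑ s ∈ U, (Q.filter (R s)).card := by
    simp only [Finset.card_filter]
    exact Finset.sum_comm
  have h3 : ∑ _s ∈ U, Q.card ≤ ∑ s ∈ U, 4 * (Q.filter (R s)).card := Finset.sum_le_sum h
  rw [← Finset.mul_sum, h2] at h1
  rw [← Finset.mul_sum] at h3
  simp only [Finset.sum_const, smul_eq_mul] at h1 h3
  rw [mul_comm U.card] at h3
  omega

private lemma greedy_iter {α β : Type} [DecidableEq α] [DecidableEq β] (S : Finset α) (Q : Finset β)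
    (R : α → β → Prop) [∀ s q, Decidable (R s q)]
    (h : ∀ s ∈ S, Q.card ≤ 4 * (Q.filter (R s)).card) (hQ : Q.Nonempty) (n : ℕ) :
    ∃ T : Finset β, T ⊆ Q ∧ T.card ≤ n ∧
      4 ^ n * (S.filter (fun s => ∀ t ∈ T, ¬ R s t)).card ≤ 3 ^ n * S.card := by
  induction n with
  | zero =>
    refine ⟨∅, by simp, by simp, ?_⟩
    simp
  | succ n ih =>
    obtain ⟨T, hT, hTn, hc⟩ := ih
    set U := S.filter (fun s => ∀ t ∈ T, ¬ R s t) with hU
    obtain ⟨q, hq, hqU⟩ := greedy_step U Q R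
      (fun s hs => h s (Finset.mem_of_mem_filter s hs)) hQ
    refine ⟨insert q T, ?_, ?_, ?_⟩
    · exact Finset.insert_subset hq hT
    · exact (Finset.card_insert_le _ _).trans (by omega)
    · have e1 : S.filter (fun s => ∀ t ∈ insert q T, ¬ R s t) = U.filter (fun s => ¬ R s q) := by
        ext s
        simp only [hU, Finset.mem_filter, Finset.mem_insert, forall_eq_or_imp]
        tauto
      have e2 := Finset.card_filter_add_card_filter_not (s := U) (fun s => R s q)
      rw [e1]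
      have e3 : 4 * (U.filter (fun s => ¬ R s q)).card ≤ 3 * U.card := by omega
      calc 4 ^ (n + 1) * (U.filter (fun s => ¬ R s q)).card
          = 4 ^ n * (4 * (U.filter (fun s => ¬ R s q)).card) := by ring
        _ ≤ 4 ^ n * (3 * U.card) := Nat.mul_le_mul_left _ e3
        _ = 3 * (4 ^ n * U.card) := by ring
        _ ≤ 3 * (3 ^ n * S.card) := Nat.mul_le_mul_left _ hc
        _ = 3 ^ (n + 1) * S.card := by ring

private lemma log_four_thirds : (1 : ℝ) / 4 < Real.log (4 / 3) := by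
  rw [Real.lt_log_iff_exp_lt (by norm_num)]
  have h1 : Real.exp 1 < 2.7182818286 := Real.exp_one_lt_d9
  have h2 : (Real.exp (1 / 4)) ^ 4 = Real.exp 1 := by
    rw [← Real.exp_nat_mul]; norm_num
  by_contra hcon
  push Not at hcon
  have h3 : ((4 : ℝ) / 3) ^ 4 ≤ (Real.exp (1 / 4)) ^ 4 :=
    pow_le_pow_left₀ (by norm_num) hcon 4
  rw [h2] at h3
  norm_num at h3
  linarith

/-- If each element of `S` is related to at least a quarter of `Q`, then few elements of `Q` suffice. -/
theorem greedy {α β : Type} [DecidableEq α] [DecidableEq β] (S : Finset α) (Q : Finset β)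
    (R : α → β → Prop) [∀ s q, Decidable (R s q)]
    (h : ∀ s ∈ S, Q.card ≤ 4 * (Q.filter (R s)).card) (hQ : Q.Nonempty) :
    ∃ T : Finset β, T ⊆ Q ∧ (∀ s ∈ S, ∃ t ∈ T, R s t) ∧
      (T.card : ℝ) ≤ 4 * Real.log (S.card + 1) + 1 := by
  set L := Real.log (S.card + 1) with hL
  have hL0 : 0 ≤ L := Real.log_nonneg (by
    have : (0 : ℝ) ≤ S.card := Nat.cast_nonneg _
    linarith)
  obtain ⟨T, hT, hTn, hc⟩ := greedy_iter S Q R h hQ (⌊4 * L⌋₊ + 1)
  set n := ⌊4 * L⌋₊ + 1 with hn
  have hn1 : 4 * L < n := by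
    have := Nat.lt_floor_add_one (4 * L)
    rw [hn]; push_cast; exact this
  have hn2 : (n : ℝ) ≤ 4 * L + 1 := by
    have := Nat.floor_le (a := 4 * L) (by positivity)
    rw [hn]; push_cast; linarith
  refine ⟨T, hT, ?_, ?_⟩
  · by_contra hcon
    push Not at hcon
    obtain ⟨s, hs, hsT⟩ := hcon
    have h1 : 1 ≤ (S.filter (fun s => ∀ t ∈ T, ¬ R s t)).card := by
      rw [Nat.one_le_iff_ne_zero, Finset.card_ne_zero]
      exact ⟨s, Finset.mem_filter.2 ⟨hs, hsT⟩⟩
    have h2 : 4 ^ n ≤ 3 ^ n * S.card := by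
      calc 4 ^ n = 4 ^ n * 1 := (mul_one _).symm
        _ ≤ _ := Nat.mul_le_mul_left _ h1
        _ ≤ _ := hc
    have h3 : (4 : ℝ) ^ n ≤ 3 ^ n * S.card := by exact_mod_cast h2
    have h4 : ((4 : ℝ) / 3) ^ n ≤ S.card := by
      rw [div_pow, div_le_iff₀ (by positivity)]
      linarith
    have h5 : (S.card : ℝ) + 1 < (4 / 3) ^ n := by
      have : (4 / 3 : ℝ) ^ n = Real.exp (n * Real.log (4 / 3)) := by
        rw [Real.exp_nat_mul, Real.exp_log (by norm_num)]
      rw [this, ← Real.log_lt_iff_lt_exp (by positivity), ← hL]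
      have hnpos : (0 : ℝ) < n := by rw [hn]; positivity
      nlinarith [log_four_thirds]
    linarith
  · exact le_trans (by exact_mod_cast hTn) hn2

end LT
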