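import Pool.Agent.Lib_MP_f1937f_nt.ATau
import Pool.Agent.Lib_MP_f1937f_nt.AGreedy

/-!
# MP_f1937f_nt: the last stage of the covering (piece ALAST)
-/

namespace LT

/-- If a Jacobi symbol is `-1`, then so is one of its factors. -/
private lemma alast_factor (a : ℤ) : ∀ n : ℕ, 0 < n → jacobiSym a n = -1 →
    ∃ q : ℕ, q.Prime ∧ q ∣ n ∧ jacobiSym a q = -1 := by
  intro n
  induction n using Nat.strong_induction_on with
  | _ n ih =>
    intro hn h
    by_cases h1 : n = 1
    · subst h1
      rw [jacobiSym.one_right] at h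
      norm_num at h
    · have hq := Nat.minFac_prime h1
      obtain ⟨m, hm⟩ := Nat.minFac_dvd n
      have hm0 : 0 < m := by
        rcases Nat.eq_zero_or_pos m with h0 | h0
        · rw [h0, mul_zero] at hm; omega
        · exact h0
      have hmn : m < n := by
        have h2 := hq.two_le
        nlinarith
      have hprod : jacobiSym a n = jacobiSym a (Nat.minFac n) * jacobiSym a m := by
        conv_lhs => rw [hm]
        have : NeZero (Nat.minFac n) := ⟨hq.ne_zero⟩
        have : NeZero m := ⟨hm0.ne'⟩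
        exact jacobiSym.mul_right a _ _
      rw [h] at hprod
      rcases jacobiSym.trichotomy a (Nat.minFac n) with h3 | h3 | h3
      · rw [h3, zero_mul] at hprod
        norm_num at hprod
      · rw [h3, one_mul] at hprod
        obtain ⟨q, hq1, hq2, hq3⟩ := ih m hmn hm0 hprod.symm
        exact ⟨q, hq1, hq2.trans ⟨Nat.minFac n, by rw [mul_comm]; exact hm⟩, hq3⟩
      · exact ⟨Nat.minFac n, hq, Nat.minFac_dvd n, h3⟩

private lemma alast_nn_pos (c : ℕ) : 0 < nn c := by unfold nn; positivity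

private lemma alast_nn_le {c Y : ℕ} (hc : c < 100 * Y) : nn c ≤ (8400 * Y) ^ 2 := by
  unfold nn
  have h : 84 * c + 84 ≤ 8400 * Y := by omega
  have h2 : (84 * c + 84) ^ 2 ≤ (8400 * Y) ^ 2 := Nat.pow_le_pow_left h 2
  nlinarith

open Finset in
/-- The good values of `c`: few prime factors of `nn c`. -/
private noncomputable def alastQ (X : ℕ) (B : ℝ) : Finset ℕ :=
  open Classical in (range X).filter fun c => (2 : ℝ) ^ (nn c).primeFactors.card ≤ B

open Finset in
/-- Markov. -/
private lemma alast_markov {C : ℝ} (hC : 0 < C) {X : ℕ} (hX : 2 ≤ X)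
    (h : ∑ c ∈ range X, (2 : ℝ) ^ (nn c).primeFactors.card ≤ C * X * (Real.log X) ^ 3) :
    12 * ((range X \ alastQ X (12 * C * (Real.log X) ^ 3)).card : ℝ) ≤ X := by
  have hlog : 0 < Real.log X := Real.log_pos (by exact_mod_cast hX)
  set B := 12 * C * (Real.log X) ^ 3 with hB
  have hBpos : 0 < B := by positivity
  have h1 : ((range X \ alastQ X B).card : ℝ) * B ≤ C * X * (Real.log X) ^ 3 := by
    refine le_trans ?_ h
    calc ((range X \ alastQ X B).card : ℝ) * B = ∑ c ∈ range X \ alastQ X B, B := by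
          rw [sum_const, nsmul_eq_mul]
      _ ≤ ∑ c ∈ range X \ alastQ X B, (2 : ℝ) ^ (nn c).primeFactors.card := by
          refine sum_le_sum fun c hc => ?_
          rw [mem_sdiff] at hc
          by_contra hlt
          push Not at hlt
          apply hc.2
          unfold alastQ
          rw [mem_filter]
          exact ⟨hc.1, hlt.le⟩
      _ ≤ _ := sum_le_sum_of_subset_of_nonneg sdiff_subset (fun _ _ _ => by positivity)
  have h2 : (12 * ((range X \ alastQ X B).card : ℝ)) * (C * (Real.log X) ^ 3) ≤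
      X * (C * (Real.log X) ^ 3) := by
    calc (12 * ((range X \ alastQ X B).card : ℝ)) * (C * (Real.log X) ^ 3)
        = ((range X \ alastQ X B).card : ℝ) * B := by rw [hB]; ring
      _ ≤ C * X * (Real.log X) ^ 3 := h1
      _ = _ := by ring
  exact le_of_mul_le_mul_right h2 (by positivity)

open Real in
theorem last_cover : ∃ C : ℝ, 0 < C ∧ ∃ Y₀ : ℕ, ∀ Y : ℕ, Y₀ ≤ Y →
    ∀ T : Finset ℕ, (∀ p ∈ T, p.Prime ∧ p % 3 = 2 ∧ p ≤ Y) → (T.card : ℝ) ≤ (log Y) ^ 7 →
    ∃ M : ℕ, 0 < M ∧ (∀ q : ℕ, q.Prime → q ∣ M → q % 3 = 1 ∧ ¬ q ∣ 42) ∧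
      (∀ p ∈ T, KilledBy p M) ∧
      (M.primeFactors.card : ℝ) ≤ C * (log (log Y)) ^ 2 ∧
      log M ≤ C * log Y * log (log Y) := by
  classical
  obtain ⟨C₁, hC₁, hnn⟩ := nn_tau
  set K : ℝ := 12 * C₁ with hK
  have hKpos : 0 < K := by positivity
  refine ⟨66 * (|log (8 * K)| + 3) + 132, by positivity, max 8400 ⌈exp (exp 1)⌉₊, ?_⟩
  intro Y hY T hT hTc
  have hY1 : 8400 ≤ Y := le_trans (le_max_left _ _) hY
  have hY2 : exp (exp 1) ≤ Y := le_trans (Nat.le_ceil _) (by exact_mod_cast le_trans (le_max_right _ _) hY)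
  have hYr : (8400 : ℝ) ≤ Y := by exact_mod_cast hY1
  have hYpos : (0 : ℝ) < Y := by linarith
  set L := log (Y : ℝ) with hL
  have hL1 : exp 1 ≤ L := by
    rw [hL, le_log_iff_exp_le hYpos]; exact hY2
  have he2 : (2 : ℝ) ≤ exp 1 := by
    have := add_one_le_exp (1 : ℝ)
    linarith
  have hL2 : 2 ≤ L := he2.trans hL1
  have hLpos : 0 < L := by linarith
  set l := log L with hl
  have hl1 : 1 ≤ l := by
    rw [hl, le_log_iff_exp_le hLpos]; exact hL1
  -- the set of good c
  set X : ℕ := 100 * Y with hX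
  have hX2 : 2 ≤ X := by omega
  have hXr : (X : ℝ) = 100 * Y := by rw [hX]; push_cast; ring
  set B : ℝ := 12 * C₁ * (log X) ^ 3 with hB
  set Q := alastQ X B with hQ
  have hmark := alast_markov hC₁ hX2 (hnn X hX2)
  rw [← hB, ← hQ] at hmark
  have hQsub : Q ⊆ Finset.range X := by
    rw [hQ]; unfold alastQ; exact Finset.filter_subset _ _
  have hQcard : Q.card ≤ X := by
    have := Finset.card_le_card hQsub
    rwa [Finset.card_range] at this
  have hQne : Q.Nonempty := by
    rw [Finset.nonempty_iff_ne_empty]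
    intro h0
    rw [h0, Finset.sdiff_empty, Finset.card_range] at hmark
    have : (0 : ℝ) < X := by rw [hXr]; linarith
    linarith
  have hrel : ∀ p ∈ T, Q.card ≤ 4 * (Q.filter (fun c => jacobiSym (-(p : ℤ)) (nn c) = -1)).card := by
    intro p hp
    obtain ⟨hp1, hp2, hp3⟩ := hT p hp
    have h1 := nn_count hp1 hp2 (X := X) (by omega)
    have h2 : ((Finset.range X).filter fun c => jacobiSym (-(p : ℤ)) (nn c) = -1).card ≤
        (Q.filter (fun c => jacobiSym (-(p : ℤ)) (nn c) = -1)).card + (Finset.range X \ Q).card := by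
      rw [← Finset.card_union_of_disjoint]
      · apply Finset.card_le_card
        intro c hc
        rw [Finset.mem_filter] at hc
        rw [Finset.mem_union, Finset.mem_filter, Finset.mem_sdiff]
        by_cases hcQ : c ∈ Q
        · left; exact ⟨hcQ, hc.2⟩
        · right; exact ⟨hc.1, hcQ⟩
      · rw [Finset.disjoint_left]
        intro c hc hc'
        exact (Finset.mem_sdiff.mp hc').2 (Finset.mem_filter.mp hc).1
    have h3 : 12 * (Finset.range X \ Q).card ≤ X := by exact_mod_cast hmark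
    omega
  obtain ⟨D, hDQ, hDcov, hDcard⟩ := greedy T Q (fun p c => jacobiSym (-(p : ℤ)) (nn c) = -1)
    (by intro p hp; convert hrel p hp) hQne
  have hDl : (D.card : ℝ) ≤ 33 * l := by
    have h1 : log ((T.card : ℝ) + 1) ≤ 8 * l := by
      have h2 : (T.card : ℝ) + 1 ≤ L ^ 8 := by
        have h3 : (1 : ℝ) ≤ L ^ 7 := one_le_pow₀ (by linarith)
        have h4 : L ^ 8 = L * L ^ 7 := by ring
        rw [h4]
        nlinarith
      calc log ((T.card : ℝ) + 1) ≤ log (L ^ 8) := log_le_log (by positivity) h2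
        _ = 8 * l := by rw [log_pow]; push_cast; rfl
    linarith
  refine ⟨∏ c ∈ D, nn c, Finset.prod_pos fun c _ => alast_nn_pos c, ?_, ?_, ?_, ?_⟩
  · intro q hq hqM
    rw [hq.prime.dvd_finsetProd_iff] at hqM
    obtain ⟨c, _, hc⟩ := hqM
    exact nn_prime_mod hq hc
  · intro p hp
    obtain ⟨c, hc1, hc2⟩ := hDcov p hp
    obtain ⟨q, hq1, hq2, hq3⟩ := alast_factor _ _ (alast_nn_pos c) hc2
    refine ⟨q, hq1, hq2.trans (Finset.dvd_prod_of_mem _ hc1), ?_, hq3⟩
    rintro rfl
    have := (nn_prime_mod hq1 hq2).1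
    omega
  · -- the number of prime factors
    have h1 : (∏ c ∈ D, nn c).primeFactors.card ≤ ∑ c ∈ D, (nn c).primeFactors.card := by
      have hsub : (∏ c ∈ D, nn c).primeFactors ⊆ D.biUnion fun c => (nn c).primeFactors := by
        intro q hq
        have hq1 := Nat.prime_of_mem_primeFactors hq
        have hq2 := Nat.dvd_of_mem_primeFactors hq
        rw [hq1.prime.dvd_finsetProd_iff] at hq2
        obtain ⟨c, hc1, hc2⟩ := hq2
        rw [Finset.mem_biUnion]
        exact ⟨c, hc1, Nat.mem_primeFactors.mpr ⟨hq1, hc2, (alast_nn_pos c).ne'⟩⟩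
      exact (Finset.card_le_card hsub).trans Finset.card_biUnion_le
    have h2 : ∀ c ∈ D, ((nn c).primeFactors.card : ℝ) ≤ 2 * (|log (8 * K)| + 3) * l := by
      intro c hc
      have h3 : (2 : ℝ) ^ (nn c).primeFactors.card ≤ B := by
        have := hDQ hc
        rw [hQ] at this
        unfold alastQ at this
        exact (Finset.mem_filter.mp this).2
      have hlogX : log X ≤ 2 * L := by
        rw [hXr, log_mul (by norm_num) hYpos.ne']
        have : log 100 ≤ log (Y : ℝ) := log_le_log (by norm_num) (by linarith)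
        linarith
      have hlogX0 : 0 ≤ log (X : ℝ) := log_nonneg (by exact_mod_cast (by omega : 1 ≤ X))
      have h4 : B ≤ 8 * K * L ^ 3 := by
        rw [hB, ← hK]
        have : (log (X : ℝ)) ^ 3 ≤ (2 * L) ^ 3 := pow_le_pow_left₀ hlogX0 hlogX 3
        calc K * (log (X : ℝ)) ^ 3 ≤ K * (2 * L) ^ 3 := mul_le_mul_of_nonneg_left this hKpos.le
          _ = _ := by ring
      have h5 : ((nn c).primeFactors.card : ℝ) * log 2 ≤ log (8 * K) + 3 * l := by
        calc ((nn c).primeFactors.card : ℝ) * log 2 = log ((2 : ℝ) ^ (nn c).primeFactors.card) := by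
              rw [log_pow]
          _ ≤ log (8 * K * L ^ 3) := log_le_log (by positivity) (h3.trans h4)
          _ = log (8 * K) + 3 * l := by
              rw [log_mul (by positivity) (by positivity), log_pow]; push_cast; rfl
      have h6 : log (8 * K) + 3 * l ≤ (|log (8 * K)| + 3) * l := by
        have h7 := le_abs_self (log (8 * K))
        have h8 := abs_nonneg (log (8 * K))
        nlinarith
      have h7 : (1 : ℝ) / 2 ≤ log 2 := by
        have := log_two_gt_d9
        linarith
      have h8 : 0 ≤ ((nn c).primeFactors.card : ℝ) := Nat.cast_nonneg _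
      nlinarith
    calc ((∏ c ∈ D, nn c).primeFactors.card : ℝ) ≤ ∑ c ∈ D, ((nn c).primeFactors.card : ℝ) := by
          exact_mod_cast h1
      _ ≤ ∑ c ∈ D, 2 * (|log (8 * K)| + 3) * l := Finset.sum_le_sum h2
      _ = D.card * (2 * (|log (8 * K)| + 3) * l) := by rw [Finset.sum_const, nsmul_eq_mul]
      _ ≤ (33 * l) * (2 * (|log (8 * K)| + 3) * l) :=
          mul_le_mul_of_nonneg_right hDl (by positivity)
      _ = 66 * (|log (8 * K)| + 3) * l ^ 2 := by ring
      _ ≤ (66 * (|log (8 * K)| + 3) + 132) * l ^ 2 := by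
          refine mul_le_mul_of_nonneg_right ?_ (by positivity)
          linarith
  · -- the size
    have h1 : ∀ c ∈ D, log (nn c : ℝ) ≤ 4 * L := by
      intro c hc
      have hcX : c < 100 * Y := by
        have := Finset.mem_range.mp (hQsub (hDQ hc))
        omega
      have h2 : ((nn c : ℕ) : ℝ) ≤ ((Y : ℝ) ^ 2) ^ 2 := by
        have h3 : ((nn c : ℕ) : ℝ) ≤ (8400 * (Y : ℝ)) ^ 2 := by exact_mod_cast alast_nn_le hcX
        refine h3.trans (pow_le_pow_left₀ (by positivity) ?_ 2)
        nlinarith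
      have h4 : (0 : ℝ) < (nn c : ℕ) := by exact_mod_cast alast_nn_pos c
      calc log (nn c : ℝ) ≤ log (((Y : ℝ) ^ 2) ^ 2) := log_le_log h4 h2
        _ = 4 * L := by rw [← pow_mul, log_pow]; push_cast; ring
    have h2 : log ((∏ c ∈ D, nn c : ℕ) : ℝ) = ∑ c ∈ D, log (nn c : ℝ) := by
      rw [Nat.cast_prod, log_prod]
      intro c _
      exact_mod_cast (alast_nn_pos c).ne'
    rw [h2]
    calc ∑ c ∈ D, log (nn c : ℝ) ≤ ∑ c ∈ D, 4 * L := Finset.sum_le_sum h1
      _ = D.card * (4 * L) := by rw [Finset.sum_const, nsmul_eq_mul]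
      _ ≤ (33 * l) * (4 * L) := mul_le_mul_of_nonneg_right hDl (by positivity)
      _ = 132 * L * l := by ring
      _ ≤ (66 * (|log (8 * K)| + 3) + 132) * L * l := by
          refine mul_le_mul_of_nonneg_right (mul_le_mul_of_nonneg_right ?_ hLpos.le) (by linarith)
          have := abs_nonneg (log (8 * K))
          linarith

end LT
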