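import Pool.Agent.Lib_MP_f1937f_nt.ALev
import Pool.Agent.Lib_MP_f1937f_nt.ALast

/-!
# MP_f1937f_nt: the covering theorem (piece ACOV)
-/

namespace LT

open Real Filter in
private lemma cov_asym (C₁ C₂ b : ℝ) : ∃ Y₀ : ℕ, ∀ Y : ℕ, Y₀ ≤ Y →
    1 ≤ log (log Y) ∧ 1 ≤ log Y ∧ (C₁ * log Y) ^ 5 + log Y + b ≤ (log Y) ^ 7 ∧
      4 * log 2 + 14 / 1000 * log Y + (C₁ + C₂) * (log (log Y)) ^ 2 ≤ log Y / 12 := by
  have hlog : Tendsto (fun Y : ℕ => log (Y : ℝ)) atTop atTop :=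
    tendsto_log_atTop.comp tendsto_natCast_atTop_atTop
  have key : ∀ᶠ L : ℝ in atTop, 1 ≤ log L ∧ 1 ≤ L ∧ (C₁ * L) ^ 5 + L + b ≤ L ^ 7 ∧
      4 * log 2 + 14 / 1000 * L + (C₁ + C₂) * (log L) ^ 2 ≤ L / 12 := by
    have e1 : ∀ᶠ L : ℝ in atTop, 1 ≤ log L := tendsto_log_atTop.eventually_ge_atTop 1
    have e2 : ∀ᶠ L : ℝ in atTop, 400 ≤ L := eventually_ge_atTop 400
    have e3 : ∀ᶠ L : ℝ in atTop, |C₁| ^ 5 + 1 + |b| ≤ L := eventually_ge_atTop _
    have hpos : (0 : ℝ) < 1 / (100 * (|C₁ + C₂| + 1)) := by positivity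
    have e4 := (isLittleO_pow_log_id_atTop (n := 2)).bound hpos
    filter_upwards [e1, e2, e3, e4] with L h1 h2 h3 h4
    refine ⟨h1, by linarith, ?_, ?_⟩
    · have hL : (1 : ℝ) ≤ L := by linarith
      have hL5 : (1 : ℝ) ≤ L ^ 5 := one_le_pow₀ hL
      have a1 : (C₁ * L) ^ 5 ≤ |C₁| ^ 5 * L ^ 5 := by
        rw [mul_pow]
        refine mul_le_mul_of_nonneg_right ?_ (by positivity)
        calc C₁ ^ 5 ≤ |C₁ ^ 5| := le_abs_self _
          _ = |C₁| ^ 5 := abs_pow _ _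
      have a2 : L ≤ L ^ 5 := le_self_pow₀ hL (by norm_num)
      have a3 : b ≤ |b| * L ^ 5 := by
        calc b ≤ |b| := le_abs_self _
          _ = |b| * 1 := (mul_one _).symm
          _ ≤ _ := mul_le_mul_of_nonneg_left hL5 (abs_nonneg _)
      have a4 : (|C₁| ^ 5 + 1 + |b|) * L ^ 5 ≤ L * L ^ 5 :=
        mul_le_mul_of_nonneg_right h3 (by positivity)
      have a5 : L ^ 6 ≤ L ^ 7 := pow_le_pow_right₀ hL (by norm_num)
      calc (C₁ * L) ^ 5 + L + b ≤ |C₁| ^ 5 * L ^ 5 + L ^ 5 + |b| * L ^ 5 := by linarith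
        _ = (|C₁| ^ 5 + 1 + |b|) * L ^ 5 := by ring
        _ ≤ L * L ^ 5 := a4
        _ = L ^ 6 := by ring
        _ ≤ L ^ 7 := a5
    · have hL : (0 : ℝ) < L := by linarith
      have hlog2 : log 2 ≤ 1 := by
        have := log_two_lt_d9
        linarith
      rw [norm_of_nonneg (by positivity), id, norm_of_nonneg hL.le] at h4
      have a1 : (C₁ + C₂) * (log L) ^ 2 ≤ (|C₁ + C₂| + 1) * (log L) ^ 2 := by
        refine mul_le_mul_of_nonneg_right ?_ (by positivity)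
        have := le_abs_self (C₁ + C₂)
        linarith
      have a2 : (|C₁ + C₂| + 1) * (log L) ^ 2 ≤
          (|C₁ + C₂| + 1) * (1 / (100 * (|C₁ + C₂| + 1)) * L) :=
        mul_le_mul_of_nonneg_left h4 (by positivity)
      have a3 : (|C₁ + C₂| + 1) * (1 / (100 * (|C₁ + C₂| + 1)) * L) = L / 100 := by
        have : |C₁ + C₂| + 1 ≠ 0 := by positivity
        field_simp
      linarith
  obtain ⟨Y₀, hY₀⟩ := eventually_atTop.1 (hlog.eventually key)
  exact ⟨Y₀, fun Y hY => hY₀ Y hY⟩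

private lemma KilledBy.mono {p M N : ℕ} (h : KilledBy p M) (hMN : M ∣ N) : KilledBy p N := by
  obtain ⟨q, h1, h2, h3, h4⟩ := h
  exact ⟨q, h1, h2.trans hMN, h3, h4⟩

open Real in
/-- A small set `S` of primes up to `Y`, the bad primes `B`, and the primes `= 2 mod 3` dividing `22 M`
are killed by a modulus `M`, `log M ≪ log Y (log log Y)²`, with few prime factors. -/
theorem cover_main (B : Finset ℕ) : ∃ C : ℝ, 0 < C ∧ ∃ Y₀ : ℕ, ∀ Y : ℕ, Y₀ ≤ Y →
    ∀ S : Finset ℕ, (∀ p ∈ S, p.Prime ∧ p ≤ Y) → (S.card : ℝ) ≤ (Y : ℝ) ^ ((1 : ℝ) / 1000) →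
    ∃ M : ℕ, 0 < M ∧ Odd M ∧ ¬ 3 ∣ M ∧ ¬ 7 ∣ M ∧
      (∀ p : ℕ, p.Prime → p % 3 = 2 → (p ∈ S ∨ p ∈ B ∨ p ∣ 22 * M) → KilledBy p M) ∧
      log M ≤ C * log Y * (log (log Y)) ^ 2 ∧
      (2 : ℝ) ^ M.primeFactors.card ≤ (Y : ℝ) ^ ((1 : ℝ) / 16) := by
  classical
  obtain ⟨C₁, hC₁, Y₁, H₁⟩ := lev_cover (1 / 100) (by norm_num)
  obtain ⟨C₂, hC₂, Y₂, H₂⟩ := last_cover
  obtain ⟨Y₃, H₃⟩ := cov_asym C₁ C₂ (B.card + 2)
  refine ⟨2 * C₁ + C₂, by positivity, Y₁ + Y₂ + Y₃ + 11 + B.sup id, ?_⟩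
  intro Y hY S hS hcard
  obtain ⟨hl, hL, h7, h12⟩ := H₃ Y (by omega)
  have hYpos : (0 : ℝ) < Y := by
    have : 0 < Y := by omega
    exact_mod_cast this
  have hY1 : (1 : ℝ) ≤ Y := by
    have : 1 ≤ Y := by omega
    exact_mod_cast this
  set L := log (Y : ℝ) with hLdef
  set l := log L with hldef
  obtain ⟨P, T, hP, hTS, hTc, hkill, hPc, hPlog⟩ := H₁ Y (by omega) (S.filter (fun p => p ≠ 2))
    (fun p hp => by
      rw [Finset.mem_filter] at hp
      exact ⟨(hS p hp.1).1, hp.2, (hS p hp.1).2⟩)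
  -- the logarithm of the size of `S`
  have hSlog : log (((S.filter (fun p => p ≠ 2)).card : ℝ) + 1) ≤ log 2 + L / 1000 := by
    have c1 : ((S.filter (fun p => p ≠ 2)).card : ℝ) ≤ (Y : ℝ) ^ ((1 : ℝ) / 1000) :=
      le_trans (by exact_mod_cast Finset.card_filter_le _ _) hcard
    have c2 : (1 : ℝ) ≤ (Y : ℝ) ^ ((1 : ℝ) / 1000) := one_le_rpow hY1 (by norm_num)
    calc log (((S.filter (fun p => p ≠ 2)).card : ℝ) + 1)
        ≤ log (2 * (Y : ℝ) ^ ((1 : ℝ) / 1000)) := by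
          apply log_le_log (by positivity)
          linarith
      _ = log 2 + L / 1000 := by
          rw [log_mul (by norm_num) (by positivity), log_rpow hYpos]
          ring
  have hSlog0 : 0 ≤ log (((S.filter (fun p => p ≠ 2)).card : ℝ) + 1) := by
    apply log_nonneg
    have : (0 : ℝ) ≤ ((S.filter (fun p => p ≠ 2)).card : ℝ) := Nat.cast_nonneg _
    linarith
  have hlog2 : log 2 ≤ 3 / 4 := by
    have := log_two_lt_d9
    linarith
  have hlog20 : 0 < log 2 := log_pos (by norm_num)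
  have hPc' : (P.card : ℝ) ≤ 4 * log 2 + 14 / 1000 * L + C₁ * l ^ 2 := by
    linarith
  have hCl : 0 ≤ C₂ * l ^ 2 := by positivity
  have hPL : (P.card : ℝ) ≤ L := by
    have : (C₁ + C₂) * l ^ 2 = C₁ * l ^ 2 + C₂ * l ^ 2 := by ring
    linarith
  -- the second stage
  set T' := (T ∪ P ∪ B ∪ {2, 11}).filter (fun p => p.Prime ∧ p % 3 = 2) with hT'
  have hT'mem : ∀ p ∈ T', p.Prime ∧ p % 3 = 2 ∧ p ≤ Y := by
    intro p hp
    rw [hT', Finset.mem_filter] at hp
    refine ⟨hp.2.1, hp.2.2, ?_⟩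
    have hp1 := hp.1
    simp only [Finset.mem_union, Finset.mem_insert, Finset.mem_singleton] at hp1
    rcases hp1 with ((hp1 | hp1) | hp1) | hp1
    · have := hTS hp1
      rw [Finset.mem_filter] at this
      exact (hS p this.1).2
    · exact (hP p hp1).2.2
    · have : p ≤ B.sup id := Finset.le_sup (f := id) hp1
      omega
    · omega
  have hT'card : (T'.card : ℝ) ≤ L ^ 7 := by
    have c1 : T'.card ≤ T.card + P.card + B.card + 2 := by
      calc T'.card ≤ (T ∪ P ∪ B ∪ {2, 11}).card := Finset.card_filter_le _ _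
        _ ≤ (T ∪ P ∪ B).card + ({2, 11} : Finset ℕ).card := Finset.card_union_le _ _
        _ ≤ (T ∪ P ∪ B).card + 2 := by
            have : ({2, 11} : Finset ℕ).card ≤ 2 := Finset.card_le_two
            omega
        _ ≤ _ := by
            have i1 := Finset.card_union_le (T ∪ P) B
            have i2 := Finset.card_union_le T P
            omega
    have c2 : (T'.card : ℝ) ≤ T.card + P.card + B.card + 2 := by exact_mod_cast c1
    linarith
  obtain ⟨M₂, hM₂pos, hM₂p, hM₂k, hM₂w, hM₂log⟩ := H₂ Y (by omega) T' hT'mem hT'card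
  set M₁ := ∏ q ∈ P, q with hM₁
  have hM₁pos : 0 < M₁ := Finset.prod_pos (fun q hq => (hP q hq).1.pos)
  have hdiv : ∀ r : ℕ, r.Prime → r ∣ 42 → ¬ r ∣ M₁ * M₂ := by
    intro r hr hr42 h
    rcases (hr.dvd_mul).1 h with h | h
    · rw [hM₁] at h
      obtain ⟨q, hq, hrq⟩ := (Prime.dvd_finsetProd_iff hr.prime _).1 h
      have : r = q := (Nat.prime_dvd_prime_iff_eq hr (hP q hq).1).1 hrq
      exact (hP q hq).2.1 (this ▸ hr42)
    · exact (hM₂p r hr h).2 hr42
  refine ⟨M₁ * M₂, Nat.mul_pos hM₁pos hM₂pos, ?_, hdiv 3 Nat.prime_three (by norm_num),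
    hdiv 7 (by norm_num) (by norm_num), ?_, ?_, ?_⟩
  · rw [← Nat.not_even_iff_odd, even_iff_two_dvd]
    exact hdiv 2 Nat.prime_two (by norm_num)
  · intro p hp hp3 hcase
    have hT'k : p ∈ T ∪ P ∪ B ∪ {2, 11} → KilledBy p (M₁ * M₂) := by
      intro hmem
      exact (hM₂k p (Finset.mem_filter.2 ⟨hmem, hp, hp3⟩)).mono (Dvd.intro_left _ rfl)
    rcases hcase with hcase | hcase | hcase
    · by_cases hp2 : p = 2
      · apply hT'k
        simp [hp2]
      · by_cases hpT : p ∈ T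
        · apply hT'k
          simp [hpT]
        · obtain ⟨q, hq, hqj⟩ := hkill p (Finset.mem_filter.2 ⟨hcase, hp2⟩) hpT
          refine ⟨q, (hP q hq).1, (Finset.dvd_prod_of_mem _ hq).mul_right _, ?_, hqj⟩
          rintro rfl
          exact (hP 2 hq).2.1 (by norm_num)
    · apply hT'k
      simp [hcase]
    · rcases (hp.dvd_mul).1 hcase with h | h
      · have h22 : p ∣ 2 * 11 := by simpa using h
        rcases (hp.dvd_mul).1 h22 with h | h
        · apply hT'k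
          rw [(Nat.prime_dvd_prime_iff_eq hp Nat.prime_two).1 h]
          simp
        · apply hT'k
          rw [(Nat.prime_dvd_prime_iff_eq hp (by norm_num)).1 h]
          simp
      · rcases (hp.dvd_mul).1 h with h | h
        · rw [hM₁] at h
          obtain ⟨q, hq, hpq⟩ := (Prime.dvd_finsetProd_iff hp.prime _).1 h
          have : p = q := (Nat.prime_dvd_prime_iff_eq hp (hP q hq).1).1 hpq
          apply hT'k
          rw [this]
          simp [hq]
        · have := (hM₂p p hp h).1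
          omega
  · have c1 : log ((M₁ * M₂ : ℕ) : ℝ) = log (∏ q ∈ P, (q : ℝ)) + log M₂ := by
      rw [Nat.cast_mul, log_mul (by positivity) (by positivity), hM₁, Nat.cast_prod]
    have hSL : log (((S.filter (fun p => p ≠ 2)).card : ℝ) + 1) ≤ L := by
      have h3 : L / 1000 + 3 / 4 ≤ L := by linarith
      linarith
    have hll : l ≤ l ^ 2 := le_self_pow₀ hl (by norm_num)
    have hLpos : 0 < L := by linarith
    have c2 : C₁ * log (((S.filter (fun p => p ≠ 2)).card : ℝ) + 1) * l ≤ C₁ * L * l ^ 2 := by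
      apply mul_le_mul _ hll (by linarith) (by positivity)
      exact mul_le_mul_of_nonneg_left hSL hC₁.le
    have c3 : C₂ * L * l ≤ C₂ * L * l ^ 2 := mul_le_mul_of_nonneg_left hll (by positivity)
    rw [c1]
    calc log (∏ q ∈ P, (q : ℝ)) + log M₂ ≤ (C₁ * L * l ^ 2 + C₁ * L * l ^ 2) + C₂ * L * l ^ 2 := by
          linarith
      _ = (2 * C₁ + C₂) * L * l ^ 2 := by ring
  · have c1 : (M₁ * M₂).primeFactors.card ≤ P.card + M₂.primeFactors.card := by
      rw [Nat.primeFactors_mul hM₁pos.ne' hM₂pos.ne']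
      have : M₁.primeFactors ⊆ P := by
        intro r hr
        have hr' := Nat.prime_of_mem_primeFactors hr
        have hrd := Nat.dvd_of_mem_primeFactors hr
        rw [hM₁] at hrd
        obtain ⟨q, hq, hrq⟩ := (Prime.dvd_finsetProd_iff hr'.prime _).1 hrd
        rw [(Nat.prime_dvd_prime_iff_eq hr' (hP q hq).1).1 hrq]
        exact hq
      exact (Finset.card_union_le _ _).trans (Nat.add_le_add_right (Finset.card_le_card this) _)
    have c2 : ((M₁ * M₂).primeFactors.card : ℝ) ≤ L / 12 := by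
      have : ((M₁ * M₂).primeFactors.card : ℝ) ≤ P.card + M₂.primeFactors.card := by
        exact_mod_cast c1
      have e : (C₁ + C₂) * l ^ 2 = C₁ * l ^ 2 + C₂ * l ^ 2 := by ring
      linarith
    rw [← rpow_natCast, rpow_def_of_pos (by norm_num), rpow_def_of_pos hYpos]
    apply exp_le_exp.2
    calc log 2 * ((M₁ * M₂).primeFactors.card : ℝ) ≤ 3 / 4 * (L / 12) :=
          mul_le_mul hlog2 c2 (Nat.cast_nonneg _) (by norm_num)
      _ = L * (1 / 16) := by ring

end LT
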