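import Mathlib

/-!
# MP_f1937f_nt: definitions for the covering argument
-/

namespace LT

/-- The primes up to `z` which do not divide `42`. -/
def PZ (z : ℕ) : Finset ℕ := (Finset.range (z + 1)).filter fun q => q.Prime ∧ ¬ q ∣ 42

/-- `p` is killed by `M`: some odd prime `q ∣ M` is inert in `ℚ(√-p)`. -/
def KilledBy (p M : ℕ) : Prop := ∃ q : ℕ, q.Prime ∧ q ∣ M ∧ q ≠ 2 ∧ jacobiSym (-(p : ℤ)) q = -1

/-- The primes `q ≤ z` which kill `p`. -/
def killers (z p : ℕ) : Finset ℕ := (PZ z).filter fun q => jacobiSym (-(p : ℤ)) q = -1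

end LT
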