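import Pool.Agent.Lib_MP_f1937f_nt.AChar

/-!
# MP_f1937f_nt: few primes are exceptional (piece AEXC)
-/

namespace LT

namespace AExc

/-- two functions on `Fin l` with the same multiset of values differ by a permutation -/
theorem exists_perm_of_map_eq {α : Type*} {l : ℕ} (x y : Fin l → α)
    (h : Multiset.map y Finset.univ.val = Multiset.map x Finset.univ.val) :
    ∃ σ : Equiv.Perm (Fin l), y = x ∘ σ := by
  classical
  have hc : ∀ c : α, Nonempty ({a // y a = c} ≃ {b // x b = c}) := by
    intro c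
    apply Fintype.card_eq.1
    have h1 := congrArg (Multiset.count c) h
    rw [Multiset.count_map, Multiset.count_map] at h1
    rw [Fintype.card_subtype, Fintype.card_subtype]
    have e1 : (Finset.univ.filter (fun a : Fin l => y a = c)).card =
        (Multiset.filter (fun a => c = y a) Finset.univ.val).card := by
      rw [← Finset.filter_val, Finset.card_def]
      congr 2
      ext a
      simp [eq_comm]
    have e2 : (Finset.univ.filter (fun a : Fin l => x a = c)).card =
        (Multiset.filter (fun a => c = x a) Finset.univ.val).card := by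
      rw [← Finset.filter_val, Finset.card_def]
      congr 2
      ext a
      simp [eq_comm]
    rw [e1, e2]
    exact h1
  refine ⟨Equiv.ofFiberEquiv (f := y) (g := x) (fun c => (hc c).some), ?_⟩
  funext i
  exact (Equiv.ofFiberEquiv_map (f := y) (g := x) (fun c => (hc c).some) i).symm

/-- tuples of primes -/
def TT (S : Finset ℕ) (r : ℕ) : Finset (Fin r → ℕ) := Fintype.piFinset (fun _ => S)

/-- the number of `r`-tuples with product `n` -/
def aa (S : Finset ℕ) (r n : ℕ) : ℕ := ((TT S r).filter (fun g => ∏ i, g i = n)).card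

/-- the number of `r`-tuples of primes with given product -/
theorem aa_le {r : ℕ} (S : Finset ℕ) (hS : ∀ q ∈ S, q.Prime) (n : ℕ) : aa S r n ≤ r.factorial := by
  classical
  unfold aa
  rcases ((TT S r).filter (fun g => ∏ i, g i = n)).eq_empty_or_nonempty with h | ⟨x, hx⟩
  · rw [h]; simp
  · have hsub : (TT S r).filter (fun g => ∏ i, g i = n) ⊆
        (Finset.univ : Finset (Equiv.Perm (Fin r))).image (fun σ : Equiv.Perm (Fin r) => x ∘ σ) := by
      intro y hy
      simp only [TT, Finset.mem_filter, Fintype.mem_piFinset] at hx hy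
      have hrel : Multiset.Rel Associated (Multiset.map y Finset.univ.val)
          (Multiset.map x Finset.univ.val) := by
        apply prime_factors_unique
        · intro a ha
          obtain ⟨i, -, rfl⟩ := Multiset.mem_map.1 ha
          exact (hS _ (hy.1 i)).prime
        · intro a ha
          obtain ⟨i, -, rfl⟩ := Multiset.mem_map.1 ha
          exact (hS _ (hx.1 i)).prime
        · have e : (Multiset.map y Finset.univ.val).prod = (Multiset.map x Finset.univ.val).prod := by
            show ∏ i, y i = ∏ i, x i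
            rw [hx.2, hy.2]
          exact Associated.of_eq e
      rw [associated_eq_eq, Multiset.rel_eq] at hrel
      obtain ⟨σ, hσ⟩ := exists_perm_of_map_eq x y hrel
      exact Finset.mem_image.2 ⟨σ, Finset.mem_univ _, hσ.symm⟩
    calc ((TT S r).filter (fun g => ∏ i, g i = n)).card
        ≤ ((Finset.univ : Finset (Equiv.Perm (Fin r))).image (fun σ : Equiv.Perm (Fin r) => x ∘ σ)).card :=
          Finset.card_le_card hsub
      _ ≤ (Finset.univ : Finset (Equiv.Perm (Fin r))).card := Finset.card_image_le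
      _ = r.factorial := by rw [Finset.card_univ, Fintype.card_perm, Fintype.card_fin]

theorem jac_prod {ι : Type} (s : Finset ι) (g : ι → ℕ) (a : ℤ) (h : ∀ i ∈ s, g i ≠ 0) :
    jacobiSym a (∏ i ∈ s, g i) = ∏ i ∈ s, jacobiSym a (g i) := by
  classical
  induction s using Finset.induction_on with
  | empty => simp
  | insert i s hi ih =>
    rw [Finset.prod_insert hi, Finset.prod_insert hi, jacobiSym.mul_right' a (h i (by simp))
      (Finset.prod_ne_zero_iff.2 fun j hj => h j (by simp [hj])), ih fun j hj => h j (by simp [hj])]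

/-- the power of a character sum over primes -/
theorem pow_sum (S : Finset ℕ) (hS : ∀ q ∈ S, q.Prime ∧ q ≠ 2) (r N : ℕ)
    (hN : ∀ g ∈ TT S r, ∏ i, g i < N) (a : ℤ) :
    (∑ q ∈ S, (jacobiSym a q : ℝ)) ^ r =
      ∑ n ∈ (Finset.range N).filter Odd, (aa S r n : ℝ) * (jacobiSym a n : ℝ) := by
  classical
  have h1 : (∑ q ∈ S, (jacobiSym a q : ℝ)) ^ r = ∑ g ∈ TT S r, ∏ i, (jacobiSym a (g i) : ℝ) := by
    unfold TT
    rw [← Finset.prod_univ_sum (fun _ : Fin r => S) (fun _ q => (jacobiSym a q : ℝ))]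
    rw [Finset.prod_const, Finset.card_univ, Fintype.card_fin]
  have hmaps : ∀ g ∈ TT S r, ∏ i, g i ∈ (Finset.range N).filter Odd := by
    intro g hg
    rw [Finset.mem_filter, Finset.mem_range]
    refine ⟨hN g hg, ?_⟩
    simp only [TT, Fintype.mem_piFinset] at hg
    refine Finset.prod_induction _ Odd (fun a b => Odd.mul) odd_one fun i _ => ?_
    exact (hS _ (hg i)).1.odd_of_ne_two (hS _ (hg i)).2
  rw [h1, ← Finset.sum_fiberwise_of_maps_to hmaps]
  refine Finset.sum_congr rfl fun n _ => ?_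
  have h2 : ∀ g ∈ (TT S r).filter (fun g => ∏ i, g i = n),
      ∏ i, (jacobiSym a (g i) : ℝ) = (jacobiSym a n : ℝ) := by
    intro g hg
    rw [Finset.mem_filter] at hg
    rw [← hg.2, jac_prod]
    · push_cast; rfl
    · intro i _
      have := hg.1
      simp only [TT, Fintype.mem_piFinset] at this
      exact (hS _ (this i)).1.ne_zero
  rw [Finset.sum_congr rfl h2, Finset.sum_const, nsmul_eq_mul]
  rfl

theorem sum_aa (S : Finset ℕ) (r N : ℕ) (hN : ∀ g ∈ TT S r, ∏ i, g i < N) :
    ∑ n ∈ Finset.range N, aa S r n = S.card ^ r := by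
  classical
  unfold aa
  rw [← Finset.card_eq_sum_card_fiberwise (f := fun g : Fin r → ℕ => ∏ i, g i)
    (fun g hg => by rw [Finset.coe_range]; exact hN g hg)]
  unfold TT
  rw [Fintype.card_piFinset]
  simp

theorem sum_sq_aa (S : Finset ℕ) (hS : ∀ q ∈ S, q.Prime) (r N : ℕ)
    (hN : ∀ g ∈ TT S r, ∏ i, g i < N) :
    ∑ n ∈ Finset.range N, (aa S r n : ℝ) ^ 2 ≤ r.factorial * (S.card : ℝ) ^ r := by
  calc ∑ n ∈ Finset.range N, (aa S r n : ℝ) ^ 2 ≤
      ∑ n ∈ Finset.range N, (r.factorial : ℝ) * (aa S r n : ℝ) := by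
        refine Finset.sum_le_sum fun n _ => ?_
        rw [sq]
        refine mul_le_mul_of_nonneg_right ?_ (Nat.cast_nonneg _)
        exact_mod_cast aa_le S hS n
    _ = r.factorial * (S.card : ℝ) ^ r := by
        rw [← Finset.mul_sum, ← Nat.cast_sum, sum_aa S r N hN]
        push_cast
        rfl

theorem PZ_prime {z q : ℕ} (h : q ∈ PZ z) : q.Prime ∧ q ≠ 2 ∧ q ≤ z := by
  simp only [PZ, Finset.mem_filter, Finset.mem_range] at h
  refine ⟨h.2.1, ?_, by omega⟩
  rintro rfl
  exact h.2.2 (by norm_num)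

theorem card_PZ {z : ℕ} (hz : 100 ≤ z) : (z : ℝ) / (3 * Real.log z) ≤ ((PZ z).card : ℝ) ∧
    6 ≤ ((PZ z).card : ℝ) := by
  have h1 : Nat.primeCounting z ≤ (PZ z).card + 3 := by
    rw [Nat.primeCounting, Nat.primeCounting', Nat.count_eq_card_filter_range]
    have h2 : (Finset.range (z + 1)).filter Nat.Prime ⊆ PZ z ∪ {2, 3, 7} := by
      intro q hq
      simp only [Finset.mem_filter, Finset.mem_range, PZ, Finset.mem_union, Finset.mem_insert,
        Finset.mem_singleton] at hq ⊢
      by_cases h : q ∣ 42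
      · right
        have h3 : q ∣ 2 * 3 * 7 := by simpa using h
        rcases (hq.2.dvd_mul.1 h3) with h4 | h4
        · rcases (hq.2.dvd_mul.1 h4) with h5 | h5
          · exact Or.inl ((Nat.prime_dvd_prime_iff_eq hq.2 Nat.prime_two).1 h5)
          · exact Or.inr (Or.inl ((Nat.prime_dvd_prime_iff_eq hq.2 Nat.prime_three).1 h5))
        · exact Or.inr (Or.inr ((Nat.prime_dvd_prime_iff_eq hq.2 (by norm_num)).1 h4))
      · exact Or.inl ⟨hq.1, hq.2, h⟩
    refine (Finset.card_le_card h2).trans ((Finset.card_union_le _ _).trans ?_)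
    exact Nat.add_le_add_left (Finset.card_le_three) _
  have hzR : (100 : ℝ) ≤ z := by exact_mod_cast hz
  have h3 := Chebyshev.pi_ge z
  have hl100 : Real.log 100 < 4.61 := by
    have e : (100 : ℝ) = 2 ^ 2 * 5 ^ 2 := by norm_num
    have h5 : Real.log 5 < 1.61 := by
      have := Real.log_five_lt_d9
      linarith
    have h2 := Real.log_two_lt_d9
    rw [e, Real.log_mul (by norm_num) (by norm_num), Real.log_pow, Real.log_pow]
    push_cast
    linarith
  have hlog : ∀ t : ℝ, 0 < t → Real.log t ≤ t / 100 + 3.61 := by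
    intro t ht
    have h4 := Real.log_le_sub_one_of_pos (show 0 < t / 100 by positivity)
    rw [Real.log_div ht.ne' (by norm_num)] at h4
    linarith
  have hlz : 0 < Real.log z := Real.log_pos (by linarith)
  have hz1 := hlog z (by linarith)
  have hz2 := hlog (z + 1) (by linarith)
  have hl2 := Real.log_two_gt_d9
  rw [div_le_iff₀ hlz] at h3
  have h4 : (Nat.primeCounting z : ℝ) ≤ ((PZ z).card : ℝ) + 3 := by exact_mod_cast h1
  have h5 : (z : ℝ) / 3 ≤ ((PZ z).card : ℝ) * Real.log z := by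
    have h6 : (z : ℝ) * Real.log 2 - Real.log (z + 1) ≤ (((PZ z).card : ℝ) + 3) * Real.log z :=
      h3.trans (mul_le_mul_of_nonneg_right h4 hlz.le)
    have h7 : (z : ℝ) * 0.6931471803 ≤ z * Real.log 2 := mul_le_mul_of_nonneg_left hl2.le (by linarith)
    nlinarith
  have h6 : (z : ℝ) / (3 * Real.log z) ≤ ((PZ z).card : ℝ) := by
    rw [div_le_iff₀ (by positivity)]
    linarith
  refine ⟨h6, le_trans ?_ h6⟩
  rw [le_div_iff₀ (by positivity)]
  nlinarith

/-- the character sum of an exceptional prime is large -/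
theorem exc_sum {z p : ℕ} (hp : p.Prime) (h : 4 * (killers z p).card < (PZ z).card)
    (h6 : 6 ≤ ((PZ z).card : ℝ)) :
    ((PZ z).card : ℝ) / 3 ≤ ∑ q ∈ PZ z, (jacobiSym (-(p : ℤ)) q : ℝ) := by
  classical
  have h1 : ∀ q ∈ PZ z, (1 : ℝ) - 2 * (if jacobiSym (-(p : ℤ)) q = -1 then 1 else 0) -
      (if q = p then 1 else 0) ≤ (jacobiSym (-(p : ℤ)) q : ℝ) := by
    intro q hq
    rcases jacobiSym.trichotomy (-(p : ℤ)) q with h2 | h2 | h2
    · have hqp : q = p := by
        have hq' := PZ_prime hq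
        have : NeZero q := ⟨hq'.1.ne_zero⟩
        rw [jacobiSym.eq_zero_iff_not_coprime] at h2
        have h3 : ¬ Nat.Coprime p q := by
          intro h4
          apply h2
          simpa [Int.gcd] using h4
        rw [Nat.coprime_primes hp hq'.1] at h3
        push Not at h3
        exact h3.symm
      rw [h2, if_neg (by norm_num), if_pos hqp]
      norm_num
    · rw [h2, if_neg (by norm_num)]
      split_ifs <;> norm_num
    · rw [h2, if_pos rfl]
      split_ifs <;> norm_num
  have h2 := Finset.sum_le_sum h1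
  rw [Finset.sum_sub_distrib, Finset.sum_sub_distrib, ← Finset.mul_sum] at h2
  simp only [Finset.sum_const, nsmul_eq_mul, mul_one, Finset.sum_boole] at h2
  have h3 : ((PZ z).filter (fun q => jacobiSym (-(p : ℤ)) q = -1)).card = (killers z p).card := rfl
  rw [h3] at h2
  have h4 : (((PZ z).filter (fun q => q = p)).card : ℝ) ≤ 1 := by
    have : ((PZ z).filter (fun q => q = p)).card ≤ 1 := by
      rw [Finset.card_le_one]
      intro a ha b hb
      rw [Finset.mem_filter] at ha hb
      rw [ha.2, hb.2]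
    exact_mod_cast this
  have h5 : 4 * ((killers z p).card : ℝ) < ((PZ z).card : ℝ) := by exact_mod_cast h
  linarith

end AExc

open AExc

/-- Moments: the number of odd primes `p ≤ Y` killed by less than a quarter of the primes up to `z`. -/
theorem exc_bound : ∃ C : ℝ, 1 ≤ C ∧ ∀ Y z : ℕ, C ≤ z → z ≤ Y →
    ((((Finset.range (Y + 1)).filter (fun p => p.Prime ∧ p ≠ 2 ∧
      4 * (killers z p).card < (PZ z).card)).card : ℕ) : ℝ) ≤
      (C * Real.log Y) ^ (2 * Real.log Y / Real.log z + 1) := by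
  classical
  obtain ⟨C1, hC1, hls⟩ := ls_char
  set C : ℝ := 100 + 81 * (3 * C1 + 1) with hC
  refine ⟨C, by rw [hC]; linarith, fun Y z hCz hzY => ?_⟩
  have hzR : (100 : ℝ) ≤ z := by rw [hC] at hCz; linarith
  have hz : 100 ≤ z := by exact_mod_cast hzR
  have hYR : (z : ℝ) ≤ Y := by exact_mod_cast hzY
  have hlz : 1 ≤ Real.log z := by
    rw [Real.le_log_iff_exp_le (by linarith)]
    have := Real.exp_one_lt_d9
    linarith
  have hlY : Real.log z ≤ Real.log Y := Real.log_le_log (by linarith) hYR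
  obtain ⟨hP, hP6⟩ := card_PZ hz
  set P : ℝ := ((PZ z).card : ℝ) with hPdef
  set x : ℝ := 2 * Real.log Y / Real.log z with hx
  set r : ℕ := ⌈x⌉₊ with hr
  have hx2 : 2 ≤ x := by
    rw [hx, le_div_iff₀ (by linarith)]
    linarith
  have hr1 : x ≤ r := Nat.le_ceil x
  have hr2 : (r : ℝ) < x + 1 := Nat.ceil_lt_add_one (by linarith)
  have hrlog : (r : ℝ) * Real.log z ≤ 3 * Real.log Y := by
    have h1 : (r : ℝ) * Real.log z ≤ (x + 1) * Real.log z :=
      mul_le_mul_of_nonneg_right hr2.le (by linarith)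
    have h2 : x * Real.log z = 2 * Real.log Y := by
      rw [hx]; field_simp
    linarith
  have hYz : (Y : ℝ) ^ 2 ≤ (z : ℝ) ^ r := by
    have hY0 : (0 : ℝ) < Y := by linarith
    have hz0 : (0 : ℝ) < z := by linarith
    rw [← Real.log_le_log_iff (by positivity) (by positivity), Real.log_pow, Real.log_pow]
    have h2 : x * Real.log z = 2 * Real.log Y := by
      rw [hx]; field_simp
    push_cast
    nlinarith
  -- the tuples
  have hN : ∀ g ∈ TT (PZ z) r, ∏ i, g i < z ^ r + 1 := by
    intro g hg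
    simp only [TT, Fintype.mem_piFinset] at hg
    have : ∏ i, g i ≤ ∏ _i : Fin r, z := Finset.prod_le_prod' fun i _ => (PZ_prime (hg i)).2.2
    rw [Finset.prod_const, Finset.card_univ, Fintype.card_fin] at this
    omega
  have h1 := hls Y (z ^ r + 1) (fun n => (aa (PZ z) r n : ℝ)) (by omega)
  have hsq := sum_sq_aa (PZ z) (fun q hq => (PZ_prime hq).1) r (z ^ r + 1) hN
  set Ex := (Finset.range (Y + 1)).filter (fun p => p.Prime ∧ p ≠ 2 ∧
      4 * (killers z p).card < (PZ z).card) with hEx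
  have h2 : (Ex.card : ℝ) * ((P / 3) ^ r) ^ 2 ≤
      ∑ p ∈ (Finset.range (Y + 1)).filter (fun p => p.Prime ∧ p ≠ 2),
      (∑ n ∈ (Finset.range (z ^ r + 1)).filter Odd,
        (aa (PZ z) r n : ℝ) * (jacobiSym (-(p : ℤ)) n : ℝ)) ^ 2 := by
    calc (Ex.card : ℝ) * ((P / 3) ^ r) ^ 2 = ∑ p ∈ Ex, ((P / 3) ^ r) ^ 2 := by
          rw [Finset.sum_const, nsmul_eq_mul]
      _ ≤ ∑ p ∈ Ex, (∑ n ∈ (Finset.range (z ^ r + 1)).filter Odd,
            (aa (PZ z) r n : ℝ) * (jacobiSym (-(p : ℤ)) n : ℝ)) ^ 2 := by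
          refine Finset.sum_le_sum fun p hp => ?_
          rw [hEx, Finset.mem_filter] at hp
          rw [← pow_sum (PZ z) (fun q hq => ⟨(PZ_prime hq).1, (PZ_prime hq).2.1⟩) r (z ^ r + 1) hN]
          have h3 := exc_sum hp.2.1 hp.2.2.2 hP6
          have hP0 : 0 ≤ P / 3 := by positivity
          gcongr
      _ ≤ _ := by
          refine Finset.sum_le_sum_of_subset_of_nonneg ?_ fun p _ _ => sq_nonneg _
          intro p hp
          rw [hEx, Finset.mem_filter] at hp
          rw [Finset.mem_filter]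
          exact ⟨hp.1, hp.2.1, hp.2.2.1⟩
  have hz0 : (0 : ℝ) < z := by linarith
  have hzr : (1 : ℝ) ≤ (z : ℝ) ^ r := one_le_pow₀ (by linarith)
  have h3 : (Ex.card : ℝ) * ((P / 3) ^ r) ^ 2 ≤
      C1 * (3 * (z : ℝ) ^ r) * (r.factorial * P ^ r) := by
    refine h2.trans (h1.trans ?_)
    have h4 : (((z ^ r + 1 : ℕ) : ℝ) + (Y : ℝ) ^ 2) ≤ 3 * (z : ℝ) ^ r := by
      push_cast
      linarith
    exact mul_le_mul (mul_le_mul_of_nonneg_left h4 hC1.le) hsq
      (Finset.sum_nonneg fun _ _ => sq_nonneg _) (by positivity)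
  have hP0 : 0 < P := by linarith
  -- solve for the cardinality
  have h4 : (Ex.card : ℝ) ≤ 3 * C1 * (r.factorial * (9 * z / P) ^ r) := by
    have h5 : ((P / 3) ^ r) ^ 2 = P ^ r * (P / 9) ^ r := by
      rw [← pow_mul, mul_comm r 2, pow_mul, ← mul_pow]
      congr 1
      ring
    rw [h5] at h3
    have h6 : (0 : ℝ) < P ^ r * (P / 9) ^ r := by positivity
    rw [← le_div_iff₀ h6] at h3
    refine h3.trans (le_of_eq ?_)
    rw [div_eq_iff h6.ne']
    have h7 : (9 * z / P) ^ r * (P / 9) ^ r = (z : ℝ) ^ r := by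
      rw [← mul_pow]
      congr 1
      field_simp
    calc C1 * (3 * (z : ℝ) ^ r) * (r.factorial * P ^ r) =
        3 * C1 * (r.factorial * ((9 * z / P) ^ r * (P / 9) ^ r)) * P ^ r := by rw [h7]; ring
      _ = _ := by ring
  have h9 : 9 * z / P ≤ 27 * Real.log z := by
    rw [div_le_iff₀ hP0]
    rw [div_le_iff₀ (by linarith)] at hP
    nlinarith
  have h10 : (r.factorial : ℝ) ≤ (r : ℝ) ^ r := by exact_mod_cast Nat.factorial_le_pow r
  have h11 : (r.factorial : ℝ) * (9 * z / P) ^ r ≤ (81 * Real.log Y) ^ r := by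
    calc (r.factorial : ℝ) * (9 * z / P) ^ r ≤ (r : ℝ) ^ r * (27 * Real.log z) ^ r := by gcongr
      _ = (27 * (r * Real.log z)) ^ r := by rw [← mul_pow]; congr 1; ring
      _ ≤ (81 * Real.log Y) ^ r := by
          have : 0 ≤ (r : ℝ) * Real.log z := by positivity
          refine pow_le_pow_left₀ (by positivity) ?_ r
          linarith
  have hr0 : r ≠ 0 := by
    intro h
    rw [h] at hr1
    norm_num at hr1
    linarith
  have h12 : 3 * C1 ≤ (3 * C1 + 1) ^ r := by
    calc 3 * C1 ≤ (3 * C1 + 1) ^ 1 := by linarith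
      _ ≤ (3 * C1 + 1) ^ r := pow_le_pow_right₀ (by linarith) (Nat.one_le_iff_ne_zero.2 hr0)
  have h13 : (Ex.card : ℝ) ≤ (C * Real.log Y) ^ r := by
    calc (Ex.card : ℝ) ≤ 3 * C1 * (r.factorial * (9 * z / P) ^ r) := h4
      _ ≤ (3 * C1 + 1) ^ r * (81 * Real.log Y) ^ r := by gcongr
      _ = ((3 * C1 + 1) * (81 * Real.log Y)) ^ r := by rw [← mul_pow]
      _ ≤ (C * Real.log Y) ^ r := by
          refine pow_le_pow_left₀ (by positivity) ?_ r
          rw [hC]
          nlinarith
  have hbase : 1 ≤ C * Real.log Y := by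
    rw [hC]
    nlinarith
  calc (Ex.card : ℝ) ≤ (C * Real.log Y) ^ r := h13
    _ = (C * Real.log Y) ^ (r : ℝ) := (Real.rpow_natCast _ _).symm
    _ ≤ (C * Real.log Y) ^ (x + 1) := Real.rpow_le_rpow_of_exponent_le hbase hr2.le

end LT
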