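import Mathlib

/-!
# MP_f1937f_nt: final real analysis (piece AFIN)
-/

namespace LT

open Real in
theorem fin_real (f : ℝ → ℝ) (hf : Monotone f) {C c : ℝ} (hC : 0 < C) (hc : 0 < c) (Y₀ : ℕ)
    (h : ∀ Y : ℕ, Y₀ ≤ Y →
      (Y : ℝ) ^ c ≤ f (exp (exp (C * log Y * (log (log Y)) ^ 2)))) :
    ∃ c' : ℝ, 0 < c' ∧ ∃ x₀ : ℝ, ∀ x : ℝ, x₀ ≤ x →
      exp (c' * log (log x) / (log (log (log x))) ^ 2) ≤ f x := by
  set c1 : ℝ := min 1 (1 / C) with hc1
  have hc1pos : 0 < c1 := lt_min one_pos (by positivity)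
  have hc1le : c1 ≤ 1 := min_le_left _ _
  have hc1C : C * c1 ≤ 1 := by
    have : c1 ≤ 1 / C := min_le_right _ _
    calc C * c1 ≤ C * (1 / C) := by gcongr
      _ = 1 := by field_simp
  -- the growth of `T`
  have hlim : Filter.Tendsto (fun L : ℝ => c1 * (L / (log L) ^ 2)) Filter.atTop Filter.atTop := by
    apply Filter.Tendsto.const_mul_atTop hc1pos
    have h1 : (fun L : ℝ => (log L) ^ 2) =o[Filter.atTop] (fun L : ℝ => L) :=
      isLittleO_pow_log_id_atTop
    have h2 := h1.tendsto_div_nhds_zero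
    have h3 : Filter.Tendsto (fun L : ℝ => ((log L) ^ 2 / L)) Filter.atTop
        (nhdsWithin 0 (Set.Ioi 0)) := by
      rw [tendsto_nhdsWithin_iff]
      refine ⟨h2, ?_⟩
      filter_upwards [Filter.eventually_gt_atTop 1] with L hL
      have : 0 < log L := log_pos hL
      have h0 : 0 < L := by linarith
      exact div_pos (by positivity) h0
    have h4 := h3.inv_tendsto_nhdsGT_zero
    refine h4.congr (fun L => ?_)
    simp
  have hloglog : Filter.Tendsto (fun x : ℝ => log (log x)) Filter.atTop Filter.atTop :=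
    tendsto_log_atTop.comp tendsto_log_atTop
  set K : ℝ := max (max 1 (2 * log 2)) (log (Y₀ + 1)) + 2 with hK
  have hev : ∀ᶠ L : ℝ in Filter.atTop, 1 ≤ log L ∧ 1 ≤ L ∧ K ≤ c1 * (L / (log L) ^ 2) :=
    (tendsto_log_atTop.eventually_ge_atTop 1).and
      ((Filter.eventually_ge_atTop 1).and (hlim.eventually_ge_atTop K))
  have hev2 := hloglog.eventually hev
  have hev3 := hev2.and ((Filter.eventually_gt_atTop (1 : ℝ)).and
    (tendsto_log_atTop.eventually_gt_atTop (1 : ℝ)))
  obtain ⟨x₀, hx₀⟩ := Filter.eventually_atTop.1 hev3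
  refine ⟨c * c1 / 2, by positivity, x₀, fun x hx => ?_⟩
  obtain ⟨⟨hl1, hL1, hT⟩, hx1, hlx1⟩ := hx₀ x hx
  set L : ℝ := log (log x) with hL
  set T : ℝ := c1 * (L / (log L) ^ 2) with hTdef
  have hK1 : 3 ≤ K := by
    have : (1 : ℝ) ≤ max (max 1 (2 * log 2)) (log (Y₀ + 1)) :=
      le_max_of_le_left (le_max_left _ _)
    linarith
  have hK2 : 2 * log 2 ≤ K := by
    have : (2 * log 2 : ℝ) ≤ max (max 1 (2 * log 2)) (log (Y₀ + 1)) :=
      le_max_of_le_left (le_max_right _ _)
    linarith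
  have hK3 : log (Y₀ + 1) ≤ K := by
    have : log ((Y₀ : ℝ) + 1) ≤ max (max 1 (2 * log 2)) (log (Y₀ + 1)) := le_max_right _ _
    linarith
  have hT3 : 3 ≤ T := hK1.trans hT
  set Y : ℕ := ⌊exp T⌋₊ with hY
  have hYle : (Y : ℝ) ≤ exp T := Nat.floor_le (exp_pos _).le
  have hYlt : exp T < (Y : ℝ) + 1 := Nat.lt_floor_add_one _
  have hT2 : exp (T / 2) * exp (T / 2) = exp T := by
    rw [← exp_add]; congr 1; ring
  have hT2' : 2 ≤ exp (T / 2) := by
    have h1 : log 2 ≤ T / 2 := by linarith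
    calc (2 : ℝ) = exp (log 2) := (exp_log (by norm_num)).symm
      _ ≤ exp (T / 2) := exp_le_exp.2 h1
  have hYlow : exp (T / 2) ≤ (Y : ℝ) := by
    nlinarith
  have hY0 : Y₀ ≤ Y := by
    have h1 : (Y₀ : ℝ) + 1 ≤ exp T := by
      calc (Y₀ : ℝ) + 1 = exp (log ((Y₀ : ℝ) + 1)) := (exp_log (by positivity)).symm
        _ ≤ exp T := exp_le_exp.2 (hK3.trans hT)
    exact Nat.le_floor (by linarith)
  have hYpos : (0 : ℝ) < Y := by linarith
  have hlogY : log Y ≤ T := by
    calc log Y ≤ log (exp T) := log_le_log hYpos hYle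
      _ = T := log_exp T
  have hlogY2 : 1 ≤ log Y := by
    have h1 : T / 2 ≤ log Y := by
      calc T / 2 = log (exp (T / 2)) := (log_exp _).symm
        _ ≤ log Y := log_le_log (exp_pos _) hYlow
    linarith
  have hTL : T ≤ L := by
    have h2 : L / (log L) ^ 2 ≤ L := by
      apply div_le_self (by linarith)
      nlinarith
    calc T = c1 * (L / (log L) ^ 2) := rfl
      _ ≤ 1 * L := by
          apply mul_le_mul hc1le h2 (by positivity) (by norm_num)
      _ = L := one_mul L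
  have hll : log (log Y) ≤ log L :=
    log_le_log (by linarith) (hlogY.trans hTL)
  have hll0 : 0 ≤ log (log Y) := log_nonneg hlogY2
  have hmain : C * log Y * (log (log Y)) ^ 2 ≤ L := by
    have hlL : 0 < log L := by linarith
    calc C * log Y * (log (log Y)) ^ 2 ≤ C * T * (log L) ^ 2 := by gcongr
      _ = (C * c1) * L := by
          rw [hTdef]; field_simp
      _ ≤ 1 * L := by gcongr
      _ = L := one_mul L
  have hxL : exp (exp L) = x := by
    rw [hL, exp_log (by linarith), exp_log (by linarith)]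
  have hfx : (Y : ℝ) ^ c ≤ f x := by
    refine (h Y hY0).trans (hf ?_)
    rw [← hxL]
    exact exp_le_exp.2 (exp_le_exp.2 hmain)
  refine le_trans ?_ hfx
  calc exp (c * c1 / 2 * L / (log L) ^ 2) = exp (T / 2) ^ c := by
        rw [← exp_mul]; congr 1; rw [hTdef]; ring
    _ ≤ (Y : ℝ) ^ c := by
        exact rpow_le_rpow (exp_pos _).le hYlow hc.le

end LT
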