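import Pool.Agent.Lib_MP_f1937f_nt.ADefs
import Pool.Agent.Lib_MP_c1fc80_nt.LargeSieve

/-!
# MP_f1937f_nt: large sieve for the Legendre symbols (piece ALEG)
-/

namespace LT

open Finset Pool.Agent.LibLS

/-- The additive large sieve with weights. -/
private lemma aleg_additive {ι : Type*} (R : Finset ι) (α : ι → ℝ) {δ : ℝ} (hδ : 0 < δ)
    (hsp : Spaced R α δ) (M : ℕ) (hM : 1 / δ ≤ M) (N : ℕ) (hN : N ≤ M) (a : ℕ → ℝ) :
    ∑ r ∈ R, ‖∑ n ∈ range N, (a n : ℂ) * e (n * α r)‖ ^ 2 ≤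
      9 * M * ∑ n ∈ range N, a n ^ 2 := by
  classical
  set V : ι → ℂ := fun r => ∑ n ∈ range N, (a n : ℂ) * e (n * α r) with hV
  set X : ℝ := ∑ r ∈ R, ‖V r‖ ^ 2 with hX
  have hX0 : 0 ≤ X := sum_nonneg fun _ _ => by positivity
  have h1 := dual_ineq R α (fun r => (starRingEnd ℂ) (V r)) hδ hsp M hM
  simp only [RCLike.norm_conj] at h1
  have h2 : (X : ℂ) = ∑ n ∈ range N, (a n : ℂ) * ∑ r ∈ R, (starRingEnd ℂ) (V r) * e (n * α r) := by
    simp_rw [mul_sum]
    rw [sum_comm, hX, Complex.ofReal_sum]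
    refine sum_congr rfl fun r _ => ?_
    rw [← Complex.normSq_eq_norm_sq, ← Complex.mul_conj]
    have : V r = ∑ n ∈ range N, (a n : ℂ) * e (n * α r) := rfl
    calc V r * (starRingEnd ℂ) (V r) =
        (∑ n ∈ range N, (a n : ℂ) * e (n * α r)) * (starRingEnd ℂ) (V r) := by rw [← this]
      _ = _ := by
        rw [sum_mul]
        refine sum_congr rfl fun n _ => ?_
        ring
  have h3 : X ≤ ∑ n ∈ range N, |a n| * ‖∑ r ∈ R, (starRingEnd ℂ) (V r) * e (n * α r)‖ := by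
    have : X = ‖(X : ℂ)‖ := by rw [Complex.norm_real, Real.norm_of_nonneg hX0]
    rw [this, h2]
    refine (norm_sum_le _ _).trans (sum_le_sum fun n _ => ?_)
    rw [norm_mul, Complex.norm_real, Real.norm_eq_abs]
  have h4 : X ^ 2 ≤ (∑ n ∈ range N, a n ^ 2) * (9 * M * X) := by
    calc X ^ 2 ≤ (∑ n ∈ range N, |a n| *
            ‖∑ r ∈ R, (starRingEnd ℂ) (V r) * e (n * α r)‖) ^ 2 :=
          pow_le_pow_left₀ hX0 h3 2
      _ ≤ (∑ n ∈ range N, |a n| ^ 2) *
            ∑ n ∈ range N, ‖∑ r ∈ R, (starRingEnd ℂ) (V r) * e (n * α r)‖ ^ 2 :=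
          sum_mul_sq_le_sq_mul_sq _ _ _
      _ ≤ (∑ n ∈ range N, |a n| ^ 2) *
            ∑ n ∈ range M, ‖∑ r ∈ R, (starRingEnd ℂ) (V r) * e (n * α r)‖ ^ 2 := by
          refine mul_le_mul_of_nonneg_left ?_ (sum_nonneg fun _ _ => by positivity)
          exact sum_le_sum_of_subset_of_nonneg (range_subset_range.mpr hN)
            (fun _ _ _ => by positivity)
      _ ≤ (∑ n ∈ range N, |a n| ^ 2) * (9 * M * X) :=
          mul_le_mul_of_nonneg_left h1 (sum_nonneg fun _ _ => by positivity)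
      _ = _ := by simp only [sq_abs]
  by_cases hX1 : X = 0
  · rw [hX1]
    have : 0 ≤ ∑ n ∈ range N, a n ^ 2 := sum_nonneg fun _ _ => by positivity
    positivity
  · have hXpos : 0 < X := lt_of_le_of_ne hX0 (Ne.symm hX1)
    have h5 : X * X ≤ (9 * M * ∑ n ∈ range N, a n ^ 2) * X := by nlinarith
    exact le_of_mul_le_mul_right h5 hXpos

/-- The fractions with prime denominators are well spaced. -/
private lemma aleg_spaced (P : Finset ℕ) (hP : ∀ q ∈ P, q.Prime) (M : ℕ) (hM : 0 < M)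
    (hPM : ∀ q ∈ P, q ^ 2 ≤ M) :
    Spaced (P.sigma (fun q => Ico 1 q)) (fun x : (_ : ℕ) × ℕ => (x.2 : ℝ) / x.1) (1 / M) := by
  have hMr : (0 : ℝ) < M := by exact_mod_cast hM
  rintro ⟨q, a⟩ hr ⟨q', a'⟩ hs hne k
  simp only [mem_sigma, mem_Ico] at hr hs
  obtain ⟨hq, ha1, ha2⟩ := hr
  obtain ⟨hq', ha1', ha2'⟩ := hs
  have hqp := hP q hq
  have hqp' := hP q' hq'
  have hq0 : (0 : ℝ) < q := by exact_mod_cast hqp.pos
  have hq0' : (0 : ℝ) < q' := by exact_mod_cast hqp'.pos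
  have hle : (q : ℝ) * q' ≤ M := by
    have h1 : (q : ℝ) ^ 2 ≤ M := by exact_mod_cast hPM q hq
    have h2 : (q' : ℝ) ^ 2 ≤ M := by exact_mod_cast hPM q' hq'
    nlinarith [sq_nonneg ((q : ℝ) - q')]
  have h3 : (a : ℝ) / q - a' / q' - k =
      (((a : ℤ) * q' - a' * q - k * q * q' : ℤ) : ℝ) / (q * q') := by
    push_cast
    field_simp
  have h4 : ((a : ℤ) * q' - a' * q - k * q * q') ≠ 0 := by
    intro h0
    by_cases hqq : q = q'
    · subst hqq
      have h5 : (q : ℤ) * ((a : ℤ) - a' - k * q) = 0 := by linear_combination h0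
      rcases mul_eq_zero.mp h5 with h6 | h6
      · have : (q : ℤ) ≠ 0 := by exact_mod_cast hqp.ne_zero
        exact this h6
      · have h7 : ((a : ℤ) - a') = k * q := by linarith
        have h8 : (q : ℤ) ∣ (a : ℤ) - a' := ⟨k, by linarith⟩
        have h9 : (a : ℤ) - a' = 0 := by
          apply Int.eq_zero_of_abs_lt_dvd h8
          rw [abs_lt]
          constructor <;> omega
        apply hne
        have : a = a' := by omega
        rw [this]
    · have h5 : (q : ℤ) ∣ (a : ℤ) * q' := ⟨a' + k * q', by linear_combination h0⟩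
      have h6 : q ∣ a * q' := by exact_mod_cast h5
      rcases (Nat.Prime.dvd_mul hqp).mp h6 with h7 | h7
      · exact absurd (Nat.le_of_dvd ha1 h7) (not_le.mpr ha2)
      · exact hqq ((Nat.prime_dvd_prime_iff_eq hqp hqp').mp h7)
  have h5 : (1 : ℝ) ≤ |(((a : ℤ) * q' - a' * q - k * q * q' : ℤ) : ℝ)| := by
    have := Int.one_le_abs h4
    exact_mod_cast this
  rw [h3, abs_div, abs_of_pos (mul_pos hq0 hq0')]
  rw [div_le_div_iff₀ hMr (mul_pos hq0 hq0')]
  nlinarith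

/-- A sum over `ZMod p` as a sum over representatives. -/
private lemma aleg_sum_zmod (p : ℕ) [NeZero p] (f : ZMod p → ℂ) :
    ∑ x : ZMod p, f x = ∑ b ∈ range p, f (b : ZMod p) := by
  refine Finset.sum_nbij' (fun x => x.val) (fun b => (b : ZMod p)) ?_ ?_ ?_ ?_ ?_
  · intro x _
    exact mem_range.mpr (ZMod.val_lt x)
  · intro b _
    exact mem_univ _
  · intro x _
    exact ZMod.natCast_zmod_val x
  · intro b hb
    exact ZMod.val_cast_of_lt (mem_range.mp hb)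
  · intro x _
    rw [ZMod.natCast_zmod_val]

/-- The quadratic character with complex values. -/
private noncomputable def alegChi (p : ℕ) [Fact p.Prime] : MulChar (ZMod p) ℂ :=
  (quadraticChar (ZMod p)).ringHomComp (Int.castRingHom ℂ)

private lemma alegChi_apply (p : ℕ) [Fact p.Prime] (x : ZMod p) :
    alegChi p x = ((quadraticChar (ZMod p) x : ℤ) : ℂ) := rfl

private lemma aleg_ne_one (p : ℕ) [Fact p.Prime] (hp2 : p ≠ 2) : alegChi p ≠ 1 := by
  have h1 : quadraticChar (ZMod p) ≠ 1 := by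
    apply quadraticChar_ne_one
    rw [ZMod.ringChar_zmod_n]
    exact hp2
  unfold alegChi
  rw [MulChar.ringHomComp_ne_one_iff (Int.cast_injective)]
  exact h1

private lemma aleg_quad (p : ℕ) [Fact p.Prime] : (alegChi p).IsQuadratic := by
  have h := quadraticChar_isQuadratic (ZMod p)
  intro x
  rw [alegChi_apply]
  rcases h x with h1 | h1 | h1
  · left; rw [h1]; simp
  · right; left; rw [h1]; simp
  · right; right; rw [h1]; simp

private lemma aleg_norm_le (p : ℕ) [Fact p.Prime] (x : ZMod p) : ‖alegChi p x‖ ≤ 1 := by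
  rcases aleg_quad p x with h1 | h1 | h1 <;> rw [h1] <;> simp

private lemma aleg_tau (p : ℕ) [Fact p.Prime] (n : ZMod p) (hp2 : p ≠ 2) :
    alegChi p n * gaussSum (alegChi p) (ZMod.stdAddChar (N := p)) =
      ∑ x : ZMod p, alegChi p x * ZMod.stdAddChar (n * x) := by
  by_cases hn : n = 0
  · subst hn
    have h0 : alegChi p 0 = 0 := MulChar.map_nonunit _ (by simp)
    rw [h0, zero_mul]
    simp only [zero_mul, AddChar.map_zero_eq_one, mul_one]
    exact (MulChar.sum_eq_zero_of_ne_one (aleg_ne_one p hp2)).symm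
  · have h1 := gaussSum_mulShift_eq (alegChi p) (ZMod.stdAddChar (N := p)) (Units.mk0 n hn)
    rw [(aleg_quad p).inv] at h1
    simp only [Units.val_mk0] at h1
    rw [← h1]
    rfl

private lemma aleg_norm_tau (p : ℕ) [Fact p.Prime] (hp2 : p ≠ 2) :
    ‖gaussSum (alegChi p) (ZMod.stdAddChar (N := p))‖ ^ 2 = p := by
  have h1 := gaussSum_mul_gaussSum_eq_card (aleg_ne_one p hp2) (ZMod.isPrimitive_stdAddChar p)
  rw [← star_gaussSum_eq] at h1
  have h2 : ((‖gaussSum (alegChi p) (ZMod.stdAddChar (N := p))‖ ^ 2 : ℝ) : ℂ) = (p : ℝ) := by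
    rw [← Complex.normSq_eq_norm_sq, ← Complex.mul_conj]
    rw [ZMod.card] at h1
    simpa using h1
  exact_mod_cast h2

private lemma aleg_e (p : ℕ) [Fact p.Prime] (n b : ℕ) :
    ZMod.stdAddChar (((n : ℕ) : ZMod p) * ((b : ℕ) : ZMod p)) = e (n * ((b : ℝ) / p)) := by
  have h1 : ((n : ZMod p) * (b : ZMod p)) = (((n * b : ℕ) : ℤ) : ZMod p) := by push_cast; ring
  rw [h1, ZMod.stdAddChar_coe]
  unfold e
  congr 1
  push_cast
  ring

private lemma aleg_gauss (p : ℕ) [Fact p.Prime] (hp2 : p ≠ 2) (N : ℕ) (a : ℕ → ℝ) :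
    (∑ n ∈ range N, a n * (jacobiSym (n : ℤ) p : ℝ)) ^ 2 ≤
      ∑ b ∈ Ico 1 p, ‖∑ n ∈ range N, (a n : ℂ) * e (n * ((b : ℝ) / p))‖ ^ 2 := by
  have hp : p.Prime := Fact.out
  set A : ℝ := ∑ n ∈ range N, a n * (jacobiSym (n : ℤ) p : ℝ) with hA
  set τ := gaussSum (alegChi p) (ZMod.stdAddChar (N := p)) with hτ
  have hA' : (A : ℂ) = ∑ n ∈ range N, (a n : ℂ) * alegChi p (n : ZMod p) := by
    rw [hA]
    push_cast
    refine sum_congr rfl fun n _ => ?_
    rw [alegChi_apply, ← jacobiSym.legendreSym.to_jacobiSym, legendreSym]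
    simp
  have hprod : (A : ℂ) * τ =
      ∑ b ∈ Ico 1 p, alegChi p (b : ZMod p) * ∑ n ∈ range N, (a n : ℂ) * e (n * ((b : ℝ) / p)) := by
    rw [hA', sum_mul]
    have h1 : ∀ n ∈ range N, (a n : ℂ) * alegChi p (n : ZMod p) * τ =
        ∑ b ∈ range p, (a n : ℂ) * (alegChi p (b : ZMod p) * e (n * ((b : ℝ) / p))) := by
      intro n _
      rw [mul_assoc, aleg_tau p (n : ZMod p) hp2, aleg_sum_zmod, mul_sum]
      refine sum_congr rfl fun b _ => ?_
      rw [aleg_e]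
    rw [sum_congr rfl h1, sum_comm]
    have h3 : range p = insert 0 (Ico 1 p) := by
      ext x
      simp only [mem_range, mem_insert, mem_Ico]
      have := hp.pos
      omega
    rw [h3, sum_insert (by simp)]
    have h0 : alegChi p ((0 : ℕ) : ZMod p) = 0 := by
      rw [Nat.cast_zero]
      exact MulChar.map_nonunit _ (by simp)
    rw [h0]
    simp only [zero_mul, mul_zero, sum_const_zero, zero_add]
    refine sum_congr rfl fun b _ => ?_
    rw [mul_sum]
    refine sum_congr rfl fun n _ => ?_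
    ring
  have hnorm : A ^ 2 * p ≤ (p : ℝ) *
      ∑ b ∈ Ico 1 p, ‖∑ n ∈ range N, (a n : ℂ) * e (n * ((b : ℝ) / p))‖ ^ 2 := by
    calc A ^ 2 * p = ‖(A : ℂ) * τ‖ ^ 2 := by
          rw [norm_mul, mul_pow, aleg_norm_tau p hp2, Complex.norm_real, Real.norm_eq_abs, sq_abs]
      _ ≤ (∑ b ∈ Ico 1 p, ‖alegChi p (b : ZMod p)‖ *
            ‖∑ n ∈ range N, (a n : ℂ) * e (n * ((b : ℝ) / p))‖) ^ 2 := by
          rw [hprod]
          refine pow_le_pow_left₀ (norm_nonneg _) ?_ 2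
          refine (norm_sum_le _ _).trans (sum_le_sum fun b _ => ?_)
          rw [norm_mul]
      _ ≤ (∑ b ∈ Ico 1 p, ‖alegChi p (b : ZMod p)‖ ^ 2) *
            ∑ b ∈ Ico 1 p, ‖∑ n ∈ range N, (a n : ℂ) * e (n * ((b : ℝ) / p))‖ ^ 2 :=
          sum_mul_sq_le_sq_mul_sq _ _ _
      _ ≤ (p : ℝ) * ∑ b ∈ Ico 1 p, ‖∑ n ∈ range N, (a n : ℂ) * e (n * ((b : ℝ) / p))‖ ^ 2 := by
          refine mul_le_mul_of_nonneg_right ?_ (sum_nonneg fun _ _ => by positivity)
          have h5 : ∑ b ∈ Ico 1 p, ‖alegChi p (b : ZMod p)‖ ^ 2 ≤ ∑ b ∈ Ico 1 p, (1 : ℝ) := by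
            refine sum_le_sum fun b _ => ?_
            exact pow_le_one₀ (norm_nonneg _) (aleg_norm_le p _)
          refine h5.trans ?_
          rw [sum_const, Nat.card_Ico, nsmul_eq_mul, mul_one]
          exact_mod_cast Nat.sub_le p 1
  have hp0 : (0 : ℝ) < p := by exact_mod_cast hp.pos
  rw [mul_comm] at hnorm
  exact le_of_mul_le_mul_left hnorm hp0

/-- Large sieve for the quadratic characters modulo odd primes. -/
theorem ls_legendre : ∃ C : ℝ, 0 < C ∧ ∀ (Y N : ℕ) (a : ℕ → ℝ), 1 ≤ Y →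
    ∑ p ∈ (Finset.range (Y + 1)).filter (fun p => p.Prime ∧ p ≠ 2),
      (∑ n ∈ Finset.range N, a n * (jacobiSym (n : ℤ) p : ℝ)) ^ 2 ≤
        C * ((N : ℝ) + (Y : ℝ) ^ 2) * ∑ n ∈ Finset.range N, a n ^ 2 := by
  refine ⟨9, by norm_num, ?_⟩
  intro Y N a hY
  set P := (Finset.range (Y + 1)).filter (fun p => p.Prime ∧ p ≠ 2) with hP
  have hP1 : ∀ q ∈ P, q.Prime := fun q hq => (mem_filter.mp hq).2.1
  have hM0 : 0 < N + Y ^ 2 := by positivity
  have hP2 : ∀ q ∈ P, q ^ 2 ≤ N + Y ^ 2 := by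
    intro q hq
    have h1 : q ≤ Y := by
      have := mem_range.mp (mem_filter.mp hq).1
      omega
    have h2 : q ^ 2 ≤ Y ^ 2 := Nat.pow_le_pow_left h1 2
    omega
  have hsp := aleg_spaced P hP1 (N + Y ^ 2) hM0 hP2
  have hMr : (0 : ℝ) < ((N + Y ^ 2 : ℕ) : ℝ) := by exact_mod_cast hM0
  have hmain := aleg_additive _ _ (by positivity : (0 : ℝ) < 1 / ((N + Y ^ 2 : ℕ) : ℝ)) hsp
    (N + Y ^ 2) (by rw [one_div_one_div]) N (by omega) a
  rw [sum_sigma] at hmain
  calc ∑ p ∈ P, (∑ n ∈ Finset.range N, a n * (jacobiSym (n : ℤ) p : ℝ)) ^ 2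
      ≤ ∑ p ∈ P, ∑ b ∈ Ico 1 p, ‖∑ n ∈ range N, (a n : ℂ) * e (n * ((b : ℝ) / p))‖ ^ 2 := by
        refine sum_le_sum fun p hp => ?_
        have hpp := mem_filter.mp hp
        have : Fact p.Prime := ⟨hpp.2.1⟩
        exact aleg_gauss p hpp.2.2 N a
    _ ≤ 9 * ((N + Y ^ 2 : ℕ) : ℝ) * ∑ n ∈ range N, a n ^ 2 := hmain
    _ = _ := by push_cast; ring

end LT
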