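import Pool.Agent.Lib_MP_f1937f_nt.AExc
import Pool.Agent.Lib_MP_f1937f_nt.AGreedy

/-!
# MP_f1937f_nt: the levels of the covering (piece ALEV)
-/

namespace LT

open Real

/-- One level of the covering. -/
private lemma alev_step (z : ℕ) (hz : 5 ≤ z) (U : Finset ℕ) :
    ∃ (D U' : Finset ℕ), D ⊆ PZ z ∧ U' ⊆ U ∧
      (∀ p ∈ U', 4 * (killers z p).card < (PZ z).card) ∧
      (∀ p ∈ U, p ∉ U' → ∃ q ∈ D, jacobiSym (-(p : ℤ)) q = -1) ∧
      (D.card : ℝ) ≤ 4 * log (U.card + 1) + 1 := by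
  classical
  set U' := U.filter (fun p => 4 * (killers z p).card < (PZ z).card) with hU'
  have hne : (PZ z).Nonempty := by
    refine ⟨5, ?_⟩
    unfold PZ
    rw [Finset.mem_filter, Finset.mem_range]
    refine ⟨by omega, by norm_num, by norm_num⟩
  have hrel : ∀ p ∈ U \ U', (PZ z).card ≤
      4 * ((PZ z).filter (fun q => jacobiSym (-(p : ℤ)) q = -1)).card := by
    intro p hp
    rw [Finset.mem_sdiff, hU', Finset.mem_filter] at hp
    by_contra hlt
    push Not at hlt
    exact hp.2 ⟨hp.1, hlt⟩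
  obtain ⟨D, hD1, hD2, hD3⟩ := greedy (U \ U') (PZ z)
    (fun p q => jacobiSym (-(p : ℤ)) q = -1) (by intro p hp; convert hrel p hp) hne
  refine ⟨D, U', hD1, Finset.filter_subset _ _, ?_, ?_, ?_⟩
  · intro p hp
    exact (Finset.mem_filter.mp hp).2
  · intro p hp hp'
    exact hD2 p (Finset.mem_sdiff.mpr ⟨hp, hp'⟩)
  · refine hD3.trans ?_
    have h1 : (((U \ U').card : ℕ) : ℝ) ≤ U.card := by
      exact_mod_cast Finset.card_le_card Finset.sdiff_subset
    have h2 : log (((U \ U').card : ℝ) + 1) ≤ log ((U.card : ℝ) + 1) :=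
      log_le_log (by positivity) (by linarith)
    linarith

/-- The cost of level `i`. -/
private noncomputable def alevG (s L l lam : ℝ) : ℕ → ℝ
  | 0 => s
  | (i + 1) => 1 + 2 * l + 4 * L * l / (2 ^ i * lam)

/-- The induction over the levels. -/
private lemma alev_induct {C₁ : ℝ} (hC₁ : 1 ≤ C₁)
    (hexc : ∀ Y z : ℕ, C₁ ≤ z → z ≤ Y →
      ((((Finset.range (Y + 1)).filter (fun p => p.Prime ∧ p ≠ 2 ∧
        4 * (killers z p).card < (PZ z).card)).card : ℕ) : ℝ) ≤
        (C₁ * Real.log Y) ^ (2 * Real.log Y / Real.log z + 1))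
    (Y z₀ : ℕ) (hz5 : 5 ≤ z₀) (hzC : C₁ ≤ z₀) (L l lam : ℝ) (hL : L = log Y) (hl : l = log L)
    (hlam : lam = log z₀) (hL2 : 2 ≤ L) (hCL : C₁ ≤ L) (hl1 : 1 ≤ l)
    (S : Finset ℕ) (hS : ∀ p ∈ S, p.Prime ∧ p ≠ 2 ∧ p ≤ Y) :
    ∀ n : ℕ, (∀ i < n, z₀ ^ 2 ^ i ≤ Y) →
    ∃ (P : Finset ℕ) (T : Finset ℕ), (∀ q ∈ P, q.Prime ∧ ¬ q ∣ 42 ∧ q ≤ Y) ∧ T ⊆ S ∧
      (∀ m, n = m + 1 → (T.card : ℝ) ≤ (C₁ * L) ^ (2 * L / (2 ^ m * lam) + 1)) ∧
      log (T.card + 1) ≤ alevG (log (S.card + 1)) L l lam n ∧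
      (∀ p ∈ S, p ∉ T → ∃ q ∈ P, jacobiSym (-(p : ℤ)) q = -1) ∧
      (P.card : ℝ) ≤ ∑ i ∈ Finset.range n, (4 * alevG (log (S.card + 1)) L l lam i + 1) ∧
      ∑ q ∈ P, log (q : ℝ) ≤
        ∑ i ∈ Finset.range n, (4 * alevG (log (S.card + 1)) L l lam i + 1) * (2 ^ i * lam) := by
  classical
  intro n
  induction n with
  | zero =>
    intro _
    refine ⟨∅, S, by simp, Finset.Subset.refl _, by intro m hm; omega, ?_, ?_, by simp, by simp⟩
    · simp [alevG]
    · intro p hp hp'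
      exact absurd hp hp'
  | succ n ih =>
    intro hn
    obtain ⟨P, T, hP, hTS, -, hT1, hcov, hPc, hPl⟩ := ih (fun i hi => hn i (by omega))
    set z := z₀ ^ 2 ^ n with hz
    have hzY : z ≤ Y := hn n (by omega)
    have hz0z : z₀ ≤ z := Nat.le_self_pow (by positivity) _
    have hlogz : log (z : ℝ) = 2 ^ n * lam := by
      rw [hz]
      push_cast
      rw [log_pow, hlam]
      push_cast
      ring
    have hlampos : 0 < lam := by
      rw [hlam]
      exact log_pos (by exact_mod_cast (by omega : 1 < z₀))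
    obtain ⟨D, U, hD1, hU1, hU2, hU3, hDc⟩ := alev_step z (by omega) T
    have hLpos : 0 < L := by linarith
    have hbase : 1 ≤ C₁ * L := by nlinarith
    have hexpo : 0 ≤ 2 * L / (2 ^ n * lam) + 1 := by positivity
    have hUcard : (U.card : ℝ) ≤ (C₁ * L) ^ (2 * L / (2 ^ n * lam) + 1) := by
      have h1 := hexc Y z (hzC.trans (by exact_mod_cast hz0z)) hzY
      rw [← hL, hlogz] at h1
      refine le_trans ?_ h1
      have h2 : U ⊆ (Finset.range (Y + 1)).filter (fun p => p.Prime ∧ p ≠ 2 ∧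
          4 * (killers z p).card < (PZ z).card) := by
        intro p hp
        obtain ⟨h3, h4, h5⟩ := hS p (hTS (hU1 hp))
        rw [Finset.mem_filter, Finset.mem_range]
        exact ⟨by omega, h3, h4, hU2 p hp⟩
      exact_mod_cast Finset.card_le_card h2
    refine ⟨P ∪ D, U, ?_, hU1.trans hTS, ?_, ?_, ?_, ?_, ?_⟩
    · intro q hq
      rw [Finset.mem_union] at hq
      rcases hq with hq | hq
      · exact hP q hq
      · have h1 := hD1 hq
        unfold PZ at h1
        rw [Finset.mem_filter, Finset.mem_range] at h1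
        exact ⟨h1.2.1, h1.2.2, by omega⟩
    · intro m hm
      have : m = n := by omega
      rw [this]
      exact hUcard
    · -- log bound
      have h1 : (U.card : ℝ) + 1 ≤ 2 * (C₁ * L) ^ (2 * L / (2 ^ n * lam) + 1) := by
        have h2 : (1 : ℝ) ≤ (C₁ * L) ^ (2 * L / (2 ^ n * lam) + 1) := one_le_rpow hbase hexpo
        linarith
      have h3 : log (C₁ * L) ≤ 2 * l := by
        have h4 : C₁ * L ≤ L ^ 2 := by nlinarith
        calc log (C₁ * L) ≤ log (L ^ 2) := log_le_log (by positivity) h4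
          _ = 2 * l := by rw [log_pow, hl]; push_cast; rfl
      have h5 : log 2 ≤ 1 := by
        have := log_two_lt_d9
        linarith
      calc log ((U.card : ℝ) + 1) ≤ log (2 * (C₁ * L) ^ (2 * L / (2 ^ n * lam) + 1)) :=
            log_le_log (by positivity) h1
        _ = log 2 + (2 * L / (2 ^ n * lam) + 1) * log (C₁ * L) := by
            rw [log_mul (by norm_num) (by positivity), log_rpow (by positivity)]
        _ ≤ 1 + (2 * L / (2 ^ n * lam) + 1) * (2 * l) :=
            add_le_add h5 (mul_le_mul_of_nonneg_left h3 hexpo)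
        _ = alevG (log (S.card + 1)) L l lam (n + 1) := by
            show _ = 1 + 2 * l + 4 * L * l / (2 ^ n * lam)
            ring
    · intro p hp hpU
      by_cases hpT : p ∈ T
      · obtain ⟨q, hq1, hq2⟩ := hU3 p hpT hpU
        exact ⟨q, Finset.mem_union_right _ hq1, hq2⟩
      · obtain ⟨q, hq1, hq2⟩ := hcov p hp hpT
        exact ⟨q, Finset.mem_union_left _ hq1, hq2⟩
    · rw [Finset.sum_range_succ]
      have h1 : ((P ∪ D).card : ℝ) ≤ P.card + D.card := by exact_mod_cast Finset.card_union_le P D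
      linarith
    · rw [Finset.sum_range_succ]
      have hDlog : ∑ q ∈ D, log (q : ℝ) ≤ D.card * (2 ^ n * lam) := by
        calc ∑ q ∈ D, log (q : ℝ) ≤ ∑ q ∈ D, (2 ^ n * lam) := by
              refine Finset.sum_le_sum fun q hq => ?_
              have h1 := hD1 hq
              unfold PZ at h1
              rw [Finset.mem_filter, Finset.mem_range] at h1
              rw [← hlogz]
              have h2 : 0 < q := h1.2.1.pos
              exact log_le_log (by exact_mod_cast h2) (by exact_mod_cast (by omega : q ≤ z))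
          _ = _ := by rw [Finset.sum_const, nsmul_eq_mul]
      have hDc' : (D.card : ℝ) ≤ 4 * alevG (log (S.card + 1)) L l lam n + 1 := by linarith
      have h2 : (D.card : ℝ) * (2 ^ n * lam) ≤
          (4 * alevG (log (S.card + 1)) L l lam n + 1) * (2 ^ n * lam) :=
        mul_le_mul_of_nonneg_right hDc' (by positivity)
      have h3 : ∑ q ∈ P ∪ D, log (q : ℝ) ≤ ∑ q ∈ P, log (q : ℝ) + ∑ q ∈ D, log (q : ℝ) := by
        rw [← Finset.sum_union_inter]
        have h4 : 0 ≤ ∑ q ∈ P ∩ D, log (q : ℝ) := Finset.sum_nonneg fun q _ => log_natCast_nonneg q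
        linarith
      linarith

/-- The geometric sum. -/
private lemma alev_geom (m : ℕ) : ∑ i ∈ Finset.range m, (1 : ℝ) / 2 ^ i ≤ 2 := by
  have h : ∀ m : ℕ, ∑ i ∈ Finset.range m, (1 : ℝ) / 2 ^ i = 2 - 2 / 2 ^ m := by
    intro m
    induction m with
    | zero => norm_num
    | succ m ih =>
      rw [Finset.sum_range_succ, ih, pow_succ]
      field_simp
      ring
  rw [h m]
  have : (0 : ℝ) < 2 / 2 ^ m := by positivity
  linarith

/-- The largeness conditions. -/
private lemma alev_large (C₁ B : ℝ) : ∃ Y₀ : ℕ, ∀ Y : ℕ, Y₀ ≤ Y →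
    5 ≤ log (Y : ℝ) ∧ C₁ ≤ log (Y : ℝ) ∧ 1 ≤ log (log (Y : ℝ)) ∧
      2 * (log (Y : ℝ)) ^ B ≤ (Y : ℝ) := by
  have hcast : Filter.Tendsto (fun Y : ℕ => (Y : ℝ)) Filter.atTop Filter.atTop :=
    tendsto_natCast_atTop_atTop
  have hlog : Filter.Tendsto (fun Y : ℕ => log (Y : ℝ)) Filter.atTop Filter.atTop :=
    tendsto_log_atTop.comp hcast
  have hloglog : Filter.Tendsto (fun Y : ℕ => log (log (Y : ℝ))) Filter.atTop Filter.atTop :=
    tendsto_log_atTop.comp hlog
  have h4 : ∀ᶠ Y : ℕ in Filter.atTop, 2 * (log (Y : ℝ)) ^ B ≤ (Y : ℝ) := by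
    have h5 := (isLittleO_log_rpow_rpow_atTop B (one_pos)).comp_tendsto hcast
    have h6 := h5.bound (show (0 : ℝ) < 1 / 2 by norm_num)
    filter_upwards [h6, hlog.eventually_ge_atTop 1] with Y hY hY1
    simp only [Function.comp_apply, rpow_one, norm_eq_abs] at hY
    rw [abs_of_nonneg (rpow_nonneg (by linarith) _), abs_of_nonneg (Nat.cast_nonneg Y)] at hY
    linarith
  have h := (((hlog.eventually_ge_atTop 5).and (hlog.eventually_ge_atTop C₁)).and
    (hloglog.eventually_ge_atTop 1)).and h4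
  obtain ⟨Y₀, hY₀⟩ := Filter.eventually_atTop.mp h
  exact ⟨Y₀, fun Y hY => ⟨(hY₀ Y hY).1.1.1, (hY₀ Y hY).1.1.2, (hY₀ Y hY).1.2, (hY₀ Y hY).2⟩⟩

theorem lev_cover (ε : ℝ) (hε : 0 < ε) : ∃ C : ℝ, 0 < C ∧ ∃ Y₀ : ℕ, ∀ Y : ℕ, Y₀ ≤ Y →
    ∀ S : Finset ℕ, (∀ p ∈ S, p.Prime ∧ p ≠ 2 ∧ p ≤ Y) →
    ∃ (P : Finset ℕ) (T : Finset ℕ), (∀ q ∈ P, q.Prime ∧ ¬ q ∣ 42 ∧ q ≤ Y) ∧ T ⊆ S ∧
      (T.card : ℝ) ≤ (C * log Y) ^ 5 ∧ (∀ p ∈ S, p ∉ T → ∃ q ∈ P, jacobiSym (-(p : ℤ)) q = -1) ∧
      (P.card : ℝ) ≤ 4 * log (S.card + 1) + ε * log Y + C * (log (log Y)) ^ 2 ∧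
      log (∏ q ∈ P, (q : ℝ)) ≤ C * log (S.card + 1) * log (log Y) +
        C * log Y * (log (log Y)) ^ 2 := by
  obtain ⟨C₁, hC₁, hexc⟩ := exc_bound
  set B : ℝ := 40 / ε + 1 with hB
  have hB1 : 1 ≤ B := by
    have : 0 < 40 / ε := by positivity
    linarith
  obtain ⟨Y₀, hY₀⟩ := alev_large C₁ B
  refine ⟨C₁ + 4 * (B + 1) + 90, by positivity, Y₀, ?_⟩
  intro Y hY S hS
  obtain ⟨hL5, hCL, hl1, hYB⟩ := hY₀ Y hY
  set L := log (Y : ℝ) with hL
  set l := log L with hl
  have hLpos : 0 < L := by linarith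
  set z₀ : ℕ := ⌈L ^ B⌉₊ with hz₀
  have hLB : L ≤ L ^ B := by
    calc L = L ^ (1 : ℝ) := (rpow_one L).symm
      _ ≤ L ^ B := rpow_le_rpow_of_exponent_le (by linarith) hB1
  have hz1 : L ^ B ≤ z₀ := Nat.le_ceil _
  have hz2 : (z₀ : ℝ) ≤ 2 * L ^ B := by
    have := Nat.ceil_lt_add_one (show (0 : ℝ) ≤ L ^ B by positivity)
    linarith
  have hz5r : (5 : ℝ) ≤ z₀ := by linarith
  have hz5 : 5 ≤ z₀ := by exact_mod_cast hz5r
  have hzY : z₀ ≤ Y := by
    have : (z₀ : ℝ) ≤ Y := hz2.trans hYB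
    exact_mod_cast this
  set lam := log (z₀ : ℝ) with hlam
  have hlam1 : B * l ≤ lam := by
    calc B * l = log (L ^ B) := by rw [log_rpow hLpos]
      _ ≤ lam := log_le_log (by positivity) hz1
  have hlam2 : lam ≤ (B + 1) * l := by
    have h1 : (z₀ : ℝ) ≤ L ^ (B + 1) := by
      rw [rpow_add hLpos, rpow_one]
      have h2 : 0 < L ^ B := by positivity
      nlinarith
    calc lam ≤ log (L ^ (B + 1)) := log_le_log (by linarith) h1
      _ = (B + 1) * l := by rw [log_rpow hLpos]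
  have hlampos : 0 < lam := by nlinarith
  have hlam1' : 1 ≤ lam := by nlinarith
  -- the last level
  have hex : ∃ n : ℕ, Y < z₀ ^ 2 ^ n := by
    refine ⟨Y, ?_⟩
    calc Y < 2 ^ Y := Nat.lt_two_pow_self
      _ ≤ z₀ ^ Y := Nat.pow_le_pow_left (by omega) _
      _ ≤ z₀ ^ 2 ^ Y := Nat.pow_le_pow_right (by omega) Nat.lt_two_pow_self.le
  classical
  set n := Nat.find hex with hn
  have hn1 : Y < z₀ ^ 2 ^ n := Nat.find_spec hex
  have hn2 : ∀ i < n, z₀ ^ 2 ^ i ≤ Y := fun i hi => not_lt.mp (Nat.find_min hex hi)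
  have hn0 : n ≠ 0 := by
    intro h0
    rw [h0] at hn1
    simp at hn1
    omega
  obtain ⟨m, hm⟩ := Nat.exists_eq_succ_of_ne_zero hn0
  have hYpos : 0 < Y := by omega
  have hmL : 2 ^ m * lam ≤ L := by
    have h1 := hn2 m (by omega)
    have h2 : log ((z₀ ^ 2 ^ m : ℕ) : ℝ) ≤ log (Y : ℝ) :=
      log_le_log (by positivity) (by exact_mod_cast h1)
    push_cast at h2
    rw [log_pow] at h2
    push_cast at h2
    exact h2
  have hmL2 : L < 2 * (2 ^ m * lam) := by
    have h2 : log (Y : ℝ) < log ((z₀ ^ 2 ^ n : ℕ) : ℝ) :=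
      log_lt_log (by exact_mod_cast hYpos) (by exact_mod_cast hn1)
    push_cast at h2
    rw [log_pow, hm] at h2
    push_cast at h2
    rw [pow_succ] at h2
    calc L < 2 ^ m * 2 * lam := h2
      _ = _ := by ring
  have hmpow : (2 : ℝ) ^ m ≤ L := by
    have h1 : (0 : ℝ) < 2 ^ m := by positivity
    nlinarith
  have hml : (m : ℝ) ≤ 2 * l := by
    have h1 : (m : ℝ) * log 2 ≤ l := by
      rw [← log_pow]
      exact log_le_log (by positivity) hmpow
    have h2 : (1 : ℝ) / 2 ≤ log 2 := by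
      have := log_two_gt_d9
      linarith
    have h3 : (0 : ℝ) ≤ m := Nat.cast_nonneg m
    nlinarith
  obtain ⟨P, T, hP, hTS, hTc, -, hcov, hPc, hPl⟩ := alev_induct hC₁ hexc Y z₀ hz5
    (by linarith) L l lam hL hl hlam (by linarith) hCL hl1 S hS n hn2
  refine ⟨P, T, hP, hTS, ?_, hcov, ?_, ?_⟩
  · have h1 := hTc m hm
    have hbase : 1 ≤ C₁ * L := by nlinarith
    calc (T.card : ℝ) ≤ (C₁ * L) ^ (2 * L / (2 ^ m * lam) + 1) := h1
      _ ≤ (C₁ * L) ^ (5 : ℝ) := by
          refine rpow_le_rpow_of_exponent_le hbase ?_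
          have h2 : 2 * L / (2 ^ m * lam) ≤ 4 := by
            rw [div_le_iff₀ (by positivity)]
            linarith
          linarith
      _ = (C₁ * L) ^ 5 := by rw [← rpow_natCast]; norm_num
      _ ≤ _ := by
          refine pow_le_pow_left₀ (by positivity) ?_ 5
          refine mul_le_mul_of_nonneg_right ?_ hLpos.le
          linarith
  · -- number of elements of P
    rw [hm, Finset.sum_range_succ'] at hPc
    have h1 : ∑ i ∈ Finset.range m, (4 * alevG (log (S.card + 1)) L l lam (i + 1) + 1) =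
        m * (5 + 8 * l) + 16 * L * l / lam * ∑ i ∈ Finset.range m, (1 : ℝ) / 2 ^ i := by
      rw [Finset.mul_sum]
      have h2 : ((m : ℕ) : ℝ) * (5 + 8 * l) = ∑ i ∈ Finset.range m, (5 + 8 * l) := by
        rw [Finset.sum_const, Finset.card_range, nsmul_eq_mul]
      rw [h2, ← Finset.sum_add_distrib]
      refine Finset.sum_congr rfl fun i _ => ?_
      show 4 * (1 + 2 * l + 4 * L * l / (2 ^ i * lam)) + 1 = _
      field_simp
      ring
    rw [h1] at hPc
    have h3 : 16 * L * l / lam * ∑ i ∈ Finset.range m, (1 : ℝ) / 2 ^ i ≤ ε * L := by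
      calc 16 * L * l / lam * ∑ i ∈ Finset.range m, (1 : ℝ) / 2 ^ i
          ≤ 16 * L * l / lam * 2 := mul_le_mul_of_nonneg_left (alev_geom m) (by positivity)
        _ ≤ 16 * L * l / (B * l) * 2 := by
            refine mul_le_mul_of_nonneg_right ?_ (by norm_num)
            exact div_le_div_of_nonneg_left (by positivity) (by positivity) hlam1
        _ = 32 * L / B := by
            have : l ≠ 0 := by linarith
            field_simp
            norm_num
        _ ≤ ε * L := by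
            rw [div_le_iff₀ (by linarith)]
            have h4 : ε * B = 40 + ε := by rw [hB]; field_simp
            calc 32 * L ≤ (40 + ε) * L := by nlinarith
              _ = ε * L * B := by rw [← h4]; ring
    have h5 : (m : ℝ) * (5 + 8 * l) ≤ 2 * l * (5 + 8 * l) :=
      mul_le_mul_of_nonneg_right hml (by positivity)
    have h6 : 2 * l * (5 + 8 * l) + 1 ≤ 90 * l ^ 2 := by nlinarith
    have h7 : 90 * l ^ 2 ≤ (C₁ + 4 * (B + 1) + 90) * l ^ 2 := by
      refine mul_le_mul_of_nonneg_right ?_ (by positivity)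
      linarith
    have h8 : alevG (log (S.card + 1)) L l lam 0 = log (S.card + 1) := rfl
    rw [h8] at hPc
    linarith
  · -- size of the product
    rw [log_prod (fun q hq => by
      have := (hP q hq).1.ne_zero
      exact_mod_cast this)]
    refine hPl.trans ?_
    rw [hm, Finset.sum_range_succ']
    have h8 : alevG (log (S.card + 1)) L l lam 0 = log (S.card + 1) := rfl
    rw [h8, pow_zero, one_mul]
    have h1 : ∀ i ∈ Finset.range m, (4 * alevG (log (S.card + 1)) L l lam (i + 1) + 1) *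
        (2 ^ (i + 1) * lam) ≤ 45 * L * l := by
      intro i hi
      rw [Finset.mem_range] at hi
      have h2 : (2 : ℝ) ^ (i + 1) * lam ≤ L := by
        refine le_trans ?_ hmL
        refine mul_le_mul_of_nonneg_right ?_ hlampos.le
        exact pow_le_pow_right₀ (by norm_num) (by omega)
      have h3 : (4 * alevG (log (S.card + 1)) L l lam (i + 1) + 1) * (2 ^ (i + 1) * lam) =
          (5 + 8 * l) * (2 ^ (i + 1) * lam) + 32 * L * l := by
        show (4 * (1 + 2 * l + 4 * L * l / (2 ^ i * lam)) + 1) * (2 ^ (i + 1) * lam) = _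
        rw [pow_succ]
        field_simp
        ring
      rw [h3]
      have h4 : (5 + 8 * l) * (2 ^ (i + 1) * lam) ≤ (5 + 8 * l) * L :=
        mul_le_mul_of_nonneg_left h2 (by positivity)
      nlinarith
    have h2 : ∑ i ∈ Finset.range m, (4 * alevG (log (S.card + 1)) L l lam (i + 1) + 1) *
        (2 ^ (i + 1) * lam) ≤ 90 * L * l ^ 2 := by
      calc ∑ i ∈ Finset.range m, (4 * alevG (log (S.card + 1)) L l lam (i + 1) + 1) *
            (2 ^ (i + 1) * lam) ≤ ∑ i ∈ Finset.range m, 45 * L * l := Finset.sum_le_sum h1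
        _ = m * (45 * L * l) := by rw [Finset.sum_const, Finset.card_range, nsmul_eq_mul]
        _ ≤ 2 * l * (45 * L * l) := mul_le_mul_of_nonneg_right hml (by positivity)
        _ = _ := by ring
    have hs0 : 0 ≤ log ((S.card : ℝ) + 1) := log_nonneg (by
      have : (0 : ℝ) ≤ S.card := Nat.cast_nonneg _
      linarith)
    have h3 : (4 * log ((S.card : ℝ) + 1) + 1) * lam ≤
        4 * (B + 1) * log ((S.card : ℝ) + 1) * l + (B + 1) * L * l ^ 2 := by
      have h4 : (4 * log ((S.card : ℝ) + 1) + 1) * lam ≤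
          (4 * log ((S.card : ℝ) + 1) + 1) * ((B + 1) * l) :=
        mul_le_mul_of_nonneg_left hlam2 (by positivity)
      have h5 : l ≤ L * l ^ 2 := by nlinarith
      have h6 : (B + 1) * l ≤ (B + 1) * (L * l ^ 2) :=
        mul_le_mul_of_nonneg_left h5 (by linarith)
      nlinarith
    have h4 : 4 * (B + 1) * log ((S.card : ℝ) + 1) * l ≤
        (C₁ + 4 * (B + 1) + 90) * log ((S.card : ℝ) + 1) * l := by
      refine mul_le_mul_of_nonneg_right (mul_le_mul_of_nonneg_right ?_ hs0) (by linarith)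
      linarith
    have h5 : ((B + 1) + 90) * L * l ^ 2 ≤ (C₁ + 4 * (B + 1) + 90) * L * l ^ 2 := by
      refine mul_le_mul_of_nonneg_right (mul_le_mul_of_nonneg_right ?_ hLpos.le) (by positivity)
      linarith
    linarith

end LT
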