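import Pool.Agent.Lib_MP_f1937f_nt.ADefs

/-!
# MP_f1937f_nt: the numbers b² + b + 1 with 84 ∣ b (piece AQUAD)
-/

namespace LT

/-- The number `b² + b + 1`, `b = 84 c`. -/
def nn (c : ℕ) : ℕ := (84 * c) ^ 2 + 84 * c + 1

theorem aq_cast (c q : ℕ) :
    ((nn c : ℕ) : ZMod q) = (84 * (c : ZMod q)) ^ 2 + 84 * (c : ZMod q) + 1 := by
  unfold nn
  push_cast
  ring

theorem aq_root {q : ℕ} (hq : q.Prime) (h3 : q ≠ 3) (x : ZMod q) (hx : x ^ 2 + x + 1 = 0) :
    q % 3 = 1 := by
  haveI : Fact q.Prime := ⟨hq⟩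
  have hx3 : x ^ 3 = 1 := by linear_combination (x - 1) * hx
  have hx1 : x ≠ 1 := by
    intro h1
    rw [h1] at hx
    have h30 : ((3 : ℕ) : ZMod q) = 0 := by
      push_cast
      linear_combination hx
    rw [ZMod.natCast_eq_zero_iff] at h30
    exact h3 ((Nat.prime_dvd_prime_iff_eq hq Nat.prime_three).1 h30)
  haveI : Fact (Nat.Prime 3) := ⟨Nat.prime_three⟩
  have hord := orderOf_eq_prime hx3 hx1
  have hx0 : x ≠ 0 := by
    intro h0
    rw [h0] at hx
    simp at hx
  have hd := ZMod.orderOf_dvd_card_sub_one hx0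
  rw [hord] at hd
  have := hq.one_lt
  omega

theorem nn_prime_mod {c q : ℕ} (hq : q.Prime) (h : q ∣ nn c) : q % 3 = 1 ∧ ¬ q ∣ 42 := by
  have h42 : ¬ q ∣ 42 := by
    intro h42
    have h84 : q ∣ 84 * c := Dvd.dvd.mul_right (h42.trans (by norm_num)) c
    have h1 : q ∣ 1 := by
      have h2 : q ∣ (84 * c) ^ 2 + 84 * c := dvd_add (dvd_pow h84 two_ne_zero) h84
      exact (Nat.dvd_add_right h2).1 h
    exact hq.one_lt.ne' (Nat.dvd_one.1 h1)
  refine ⟨?_, h42⟩
  have h3 : q ≠ 3 := by
    rintro rfl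
    exact h42 (by norm_num)
  refine aq_root hq h3 (84 * (c : ZMod q)) ?_
  rw [← aq_cast]
  exact (ZMod.natCast_eq_zero_iff (nn c) q).2 h

theorem aq_conic {p : ℕ} [Fact p.Prime] (h2 : p ≠ 2) (h3 : p ≠ 3) :
    (Finset.univ.filter fun z : ZMod p × ZMod p => z.2 ^ 2 = z.1 ^ 2 + z.1 + 1).card = p - 1 := by
  classical
  have hp : p.Prime := Fact.out
  have h : (Finset.univ.filter fun u : ZMod p => u ≠ 0).card = p - 1 := by
    rw [Finset.filter_ne', Finset.card_erase_of_mem (Finset.mem_univ _), Finset.card_univ,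
      ZMod.card]
  rw [← h]
  have h2' : (2 : ZMod p) ≠ 0 := by
    intro h0
    have h1 : ((2 : ℕ) : ZMod p) = 0 := by exact_mod_cast h0
    rw [ZMod.natCast_eq_zero_iff] at h1
    exact h2 ((Nat.prime_dvd_prime_iff_eq hp Nat.prime_two).1 h1)
  have h3' : (3 : ZMod p) ≠ 0 := by
    intro h0
    have h1 : ((3 : ℕ) : ZMod p) = 0 := by exact_mod_cast h0
    rw [ZMod.natCast_eq_zero_iff] at h1
    exact h3 ((Nat.prime_dvd_prime_iff_eq hp Nat.prime_three).1 h1)
  have h4' : (4 : ZMod p) ≠ 0 := by
    have : (4 : ZMod p) = 2 * 2 := by norm_num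
    rw [this]
    exact mul_ne_zero h2' h2'
  refine Finset.card_bij' (fun z _ => 2 * z.2 - 2 * z.1 - 1)
    (fun u _ => ((3 / u - u - 2) / 4, (3 / u + u) / 4)) ?_ ?_ ?_ ?_
  · intro z hz
    simp only [Finset.mem_filter, Finset.mem_univ, true_and] at hz ⊢
    intro h0
    apply h3'
    have e : (2 * z.2 - 2 * z.1 - 1) * (2 * z.2 + 2 * z.1 + 1) = 3 := by
      linear_combination 4 * hz
    rw [← e, h0, zero_mul]
  · intro u hu
    simp only [Finset.mem_filter, Finset.mem_univ, true_and] at hu ⊢
    field_simp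
    ring
  · intro z hz
    simp only [Finset.mem_filter, Finset.mem_univ, true_and] at hz
    have e : (2 * z.2 - 2 * z.1 - 1) * (2 * z.2 + 2 * z.1 + 1) = 3 := by
      linear_combination 4 * hz
    have hne : (2 * z.2 - 2 * z.1 - 1) ≠ 0 := by
      intro h0
      apply h3'
      rw [← e, h0, zero_mul]
    have e2 : 3 / (2 * z.2 - 2 * z.1 - 1) = 2 * z.2 + 2 * z.1 + 1 := by
      rw [div_eq_iff hne, ← e]
      ring
    ext
    · simp only [e2]
      rw [div_eq_iff h4']
      ring
    · simp only [e2]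
      rw [div_eq_iff h4']
      ring
  · intro u hu
    simp only [Finset.mem_filter, Finset.mem_univ, true_and] at hu
    simp only
    field_simp
    ring

theorem aq_half {p : ℕ} [Fact p.Prime] (h2 : p ≠ 2) (h3 : p % 3 = 2) :
    2 * (Finset.univ.filter fun x : ZMod p =>
      quadraticChar (ZMod p) (x ^ 2 + x + 1) = -1).card = p + 1 := by
  classical
  have hp : p.Prime := Fact.out
  have h3' : p ≠ 3 := by rintro rfl; omega
  have hc := aq_conic h2 h3'
  have hsum : ((Finset.univ.filter fun z : ZMod p × ZMod p =>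
      z.2 ^ 2 = z.1 ^ 2 + z.1 + 1).card : ℤ)
      = ∑ x : ZMod p, (quadraticChar (ZMod p) (x ^ 2 + x + 1) + 1) := by
    rw [Finset.card_filter, Fintype.sum_prod_type]
    push_cast
    refine Finset.sum_congr rfl (fun x _ => ?_)
    rw [← quadraticChar_card_sqrts ((ZMod.ringChar_zmod_n p).substr h2)]
    rw [Finset.sum_boole]
    congr 2
    ext y
    simp
  have hval : ∀ x : ZMod p, quadraticChar (ZMod p) (x ^ 2 + x + 1) = 1 ∨
      quadraticChar (ZMod p) (x ^ 2 + x + 1) = -1 := by
    intro x
    apply quadraticChar_dichotomy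
    intro h0
    have := aq_root hp h3' x h0
    omega
  have hsum2 : ∑ x : ZMod p, (quadraticChar (ZMod p) (x ^ 2 + x + 1) + 1)
      = ∑ x : ZMod p, (2 - 2 * (if quadraticChar (ZMod p) (x ^ 2 + x + 1) = -1 then 1 else 0)) := by
    refine Finset.sum_congr rfl (fun x _ => ?_)
    rcases hval x with h | h
    · rw [h]; norm_num
    · rw [h]; norm_num
  rw [hsum2, Finset.sum_sub_distrib, ← Finset.mul_sum, Finset.sum_boole, hc] at hsum
  simp only [Finset.sum_const, Finset.card_univ, ZMod.card, nsmul_eq_mul] at hsum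
  have h1 := hp.one_lt
  have h4 : ((p - 1 : ℕ) : ℤ) = (p : ℤ) - 1 := by
    push_cast [Nat.cast_sub h1.le]
    ring
  rw [h4] at hsum
  push_cast at hsum
  omega

theorem aq_mod4 (c : ℕ) : nn c % 4 = 1 := by
  have h : nn c = 4 * (21 * c * (84 * c) + 21 * c) + 1 := by
    unfold nn
    ring
  omega

theorem aq_jac {p : ℕ} [Fact p.Prime] (h2 : p ≠ 2) (c : ℕ) :
    jacobiSym (-(p : ℤ)) (nn c)
      = quadraticChar (ZMod p) ((84 * (c : ZMod p)) ^ 2 + 84 * (c : ZMod p) + 1) := by
  have hp : p.Prime := Fact.out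
  have h4 := aq_mod4 c
  have hodd : Odd (nn c) := Nat.odd_iff.2 (by omega)
  have hpodd : Odd p := hp.odd_of_ne_two h2
  rw [jacobiSym.neg _ hodd, ZMod.χ₄_nat_one_mod_four h4, one_mul,
    ← jacobiSym.quadratic_reciprocity_one_mod_four h4 hpodd, ← jacobiSym.legendreSym.to_jacobiSym,
    legendreSym, ← aq_cast]
  congr 1
  push_cast
  rfl

/-- A third of the `c` in a long interval kill `p`. -/
theorem nn_count {p : ℕ} (hp : p.Prime) (h3 : p % 3 = 2) {X : ℕ} (hX : 100 * p ≤ X) :
    X ≤ 3 * ((Finset.range X).filter fun c => jacobiSym (-(p : ℤ)) (nn c) = -1).card := by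
  classical
  rcases eq_or_ne p 2 with rfl | h2
  · have hsub : (Finset.range (X / 2)).image (fun c => 2 * c + 1) ⊆
        (Finset.range X).filter fun c => jacobiSym (-((2 : ℕ) : ℤ)) (nn c) = -1 := by
      intro c hc
      obtain ⟨k, hk, rfl⟩ := Finset.mem_image.1 hc
      rw [Finset.mem_range] at hk
      rw [Finset.mem_filter, Finset.mem_range]
      refine ⟨by omega, ?_⟩
      have h8 : nn (2 * k + 1) % 8 = 5 := by
        have h : nn (2 * k + 1) = 8 * (882 * (2 * k + 1) * (2 * k + 1) + 21 * k + 10) + 5 := by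
          unfold nn
          ring
        omega
      have h4 : nn (2 * k + 1) % 4 = 1 := by omega
      have hodd : Odd (nn (2 * k + 1)) := Nat.odd_iff.2 (by omega)
      rw [jacobiSym.neg _ hodd, ZMod.χ₄_nat_one_mod_four h4, one_mul]
      rw [show ((2 : ℕ) : ℤ) = 2 by norm_num, jacobiSym.at_two hodd]
      rw [ZMod.χ₈_nat_eq_if_mod_eight]
      simp [h8]
      omega
    have hc := Finset.card_le_card hsub
    rw [Finset.card_image_of_injective _ (by intro a b h; simpa using h), Finset.card_range] at hc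
    omega
  · haveI : Fact p.Prime := ⟨hp⟩
    have h84 : (84 : ZMod p) ≠ 0 := by
      intro h0
      have h1 : ((84 : ℕ) : ZMod p) = 0 := by exact_mod_cast h0
      rw [ZMod.natCast_eq_zero_iff] at h1
      have h5 : p ∣ 2 * 2 * 3 * 7 := by norm_num at h1 ⊢; exact h1
      rcases (Nat.Prime.dvd_mul hp).1 h5 with h | h
      · rcases (Nat.Prime.dvd_mul hp).1 h with h | h
        · rcases (Nat.Prime.dvd_mul hp).1 h with h | h <;>
            exact h2 ((Nat.prime_dvd_prime_iff_eq hp Nat.prime_two).1 h)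
        · have := (Nat.prime_dvd_prime_iff_eq hp Nat.prime_three).1 h
          omega
      · have := (Nat.prime_dvd_prime_iff_eq hp (by norm_num : Nat.Prime 7)).1 h
        omega
    set P : ℕ → Prop := fun c => jacobiSym (-(p : ℤ)) (nn c) = -1 with hP
    have hPiff : ∀ c, P c ↔ quadraticChar (ZMod p)
        ((84 * (c : ZMod p)) ^ 2 + 84 * (c : ZMod p) + 1) = -1 := by
      intro c
      rw [hP]
      simp only
      rw [aq_jac h2]
    have hper : ∀ c, P (p + c) ↔ P c := by
      intro c
      rw [hPiff, hPiff]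
      push_cast
      simp
    have hperiod : Nat.count P p = (Finset.univ.filter fun x : ZMod p =>
        quadraticChar (ZMod p) (x ^ 2 + x + 1) = -1).card := by
      rw [Nat.count_eq_card_filter_range]
      refine Finset.card_bij' (fun c _ => 84 * (c : ZMod p)) (fun x _ => (x / 84).val) ?_ ?_ ?_ ?_
      · intro c hc
        rw [Finset.mem_filter] at hc
        rw [Finset.mem_filter]
        exact ⟨Finset.mem_univ _, (hPiff c).1 hc.2⟩
      · intro x hx
        rw [Finset.mem_filter] at hx
        rw [Finset.mem_filter, Finset.mem_range, hPiff]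
        refine ⟨ZMod.val_lt _, ?_⟩
        rw [ZMod.natCast_zmod_val]
        rw [mul_div_cancel₀ _ h84]
        exact hx.2
      · intro c hc
        rw [Finset.mem_filter, Finset.mem_range] at hc
        rw [mul_div_cancel_left₀ _ h84]
        exact ZMod.val_cast_of_lt hc.1
      · intro x hx
        rw [ZMod.natCast_zmod_val, mul_div_cancel₀ _ h84]
    have hmul : ∀ k, Nat.count P (k * p) = k * Nat.count P p := by
      intro k
      induction k with
      | zero => simp
      | succ k ih =>
        rw [Nat.add_mul, one_mul, add_comm (k * p) p, Nat.count_add]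
        have : (fun j => P (p + j)) = P := by
          funext j
          exact propext (hper j)
        simp only [this]
        rw [ih]
        ring
    have hhalf := aq_half h2 h3
    rw [← hperiod] at hhalf
    have hk := hmul (X / p)
    have hle : Nat.count P (X / p * p) ≤ Nat.count P X :=
      Nat.count_monotone P (Nat.div_mul_le_self X p)
    have hcard : ((Finset.range X).filter fun c => jacobiSym (-(p : ℤ)) (nn c) = -1).card
        = Nat.count P X := by
      rw [Nat.count_eq_card_filter_range]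
    rw [hcard]
    have hppos := hp.pos
    have h100 : 100 ≤ X / p := (Nat.le_div_iff_mul_le hppos).2 hX
    have hlt : X < p * (X / p + 1) := by
      have := Nat.lt_mul_div_succ X hppos
      simpa [Nat.succ_eq_add_one] using this
    set k := X / p
    set M := Nat.count P p
    nlinarith

end LT
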