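import Pool.Agent.Lib_MP_f1937f_nt.AQuad

/-!
# MP_f1937f_nt: average number of divisors of b² + b + 1 (piece ATAU)
-/

namespace LT

/-- squarefree numbers, as products of their prime factors -/
def AtSf (d : ℕ) : Prop := ∏ p ∈ d.primeFactors, p = d

instance : DecidablePred AtSf := fun d => by unfold AtSf; infer_instance

theorem at_pf {n : ℕ} {S : Finset ℕ} (hS : S ⊆ n.primeFactors) :
    (∏ p ∈ S, p).primeFactors = S :=
  Nat.primeFactors_prod (fun p hp => Nat.prime_of_mem_primeFactors (hS hp))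

theorem at_inj {n : ℕ} : Set.InjOn (fun S : Finset ℕ => ∏ p ∈ S, p)
    (n.primeFactors.powerset : Set (Finset ℕ)) := by
  intro S hS T hT h
  have hS' : S ⊆ n.primeFactors := by simpa using hS
  have hT' : T ⊆ n.primeFactors := by simpa using hT
  simp only at h
  rw [← at_pf hS', ← at_pf hT', h]

theorem at_dvd {n : ℕ} {S : Finset ℕ} (hS : S ⊆ n.primeFactors) : ∏ p ∈ S, p ∣ n :=
  (Finset.prod_dvd_prod_of_subset _ _ _ hS).trans (Nat.prod_primeFactors_dvd n)

theorem at_pos {n : ℕ} {S : Finset ℕ} (hS : S ⊆ n.primeFactors) : 0 < ∏ p ∈ S, p :=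
  Finset.prod_pos (fun p hp => (Nat.prime_of_mem_primeFactors (hS hp)).pos)

theorem at_two_pow_le {n D : ℕ} (hn : n ≠ 0) (hD : n ≤ D ^ 2) :
    2 ^ n.primeFactors.card ≤
      2 * ((Finset.Icc 1 D).filter fun d => d ∣ n ∧ AtSf d).card := by
  classical
  set W := n.primeFactors.powerset with hW
  set A := W.filter fun S => ∏ p ∈ S, p ≤ D with hA
  set B := W.filter fun S => ∏ p ∈ n.primeFactors \ S, p ≤ D with hB
  have hWc : W.card = 2 ^ n.primeFactors.card := Finset.card_powerset _
  have hsub : W ⊆ A ∪ B := by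
    intro S hS
    have hS' : S ⊆ n.primeFactors := Finset.mem_powerset.1 hS
    rw [Finset.mem_union, hA, hB, Finset.mem_filter, Finset.mem_filter]
    by_contra hcon
    push Not at hcon
    have h1 := hcon.1 hS
    have h2 := hcon.2 hS
    have h3 : (∏ p ∈ n.primeFactors \ S, p) * ∏ p ∈ S, p = ∏ p ∈ n.primeFactors, p :=
      Finset.prod_sdiff hS'
    have h4 : ∏ p ∈ n.primeFactors, p ≤ n :=
      Nat.le_of_dvd (Nat.pos_of_ne_zero hn) (Nat.prod_primeFactors_dvd n)
    have h5 : D * D < (∏ p ∈ n.primeFactors \ S, p) * ∏ p ∈ S, p :=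
      Nat.mul_lt_mul'' h2 h1
    rw [h3] at h5
    nlinarith
  have hBA : B.card ≤ A.card := by
    refine Finset.card_le_card_of_injOn (fun S => n.primeFactors \ S) ?_ ?_
    · intro S hS
      rw [Finset.mem_coe, hB, Finset.mem_filter] at hS
      rw [Finset.mem_coe, hA, Finset.mem_filter]
      exact ⟨Finset.mem_powerset.2 Finset.sdiff_subset, hS.2⟩
    · intro S hS T hT h
      rw [Finset.mem_coe, hB, Finset.mem_filter, hW, Finset.mem_powerset] at hS hT
      simp only at h
      rw [← Finset.sdiff_sdiff_eq_self hS.1, ← Finset.sdiff_sdiff_eq_self hT.1, h]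
  have hAD : A.card ≤ ((Finset.Icc 1 D).filter fun d => d ∣ n ∧ AtSf d).card := by
    refine Finset.card_le_card_of_injOn (fun S => ∏ p ∈ S, p) ?_ ?_
    · intro S hS
      rw [Finset.mem_coe, hA, Finset.mem_filter, hW, Finset.mem_powerset] at hS
      rw [Finset.mem_coe, Finset.mem_filter, Finset.mem_Icc]
      refine ⟨⟨at_pos hS.1, hS.2⟩, at_dvd hS.1, ?_⟩
      unfold AtSf
      rw [at_pf hS.1]
    · exact at_inj.mono (by
        intro S hS
        rw [Finset.mem_coe, hA, Finset.mem_filter] at hS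
        exact Finset.mem_coe.2 hS.1)
  have h1 := (Finset.card_le_card hsub).trans (Finset.card_union_le A B)
  omega

theorem at_two_pow_le_divisors {d : ℕ} (hd : d ≠ 0) :
    2 ^ d.primeFactors.card ≤ d.divisors.card := by
  classical
  rw [← Finset.card_powerset]
  refine Finset.card_le_card_of_injOn (fun S => ∏ p ∈ S, p) ?_ at_inj
  intro S hS
  rw [Finset.mem_coe, Finset.mem_powerset] at hS
  rw [Finset.mem_coe, Nat.mem_divisors]
  exact ⟨at_dvd hS, hd⟩

/-- at most two roots modulo a prime -/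
theorem at_roots_prime {q : ℕ} (hq : q.Prime) :
    ((Finset.range q).filter fun r => q ∣ nn r).card ≤ 2 := by
  classical
  haveI : Fact q.Prime := ⟨hq⟩
  rcases Finset.eq_empty_or_nonempty ((Finset.range q).filter fun r => q ∣ nn r) with he | hne
  · rw [he]; simp
  · obtain ⟨r0, hr0⟩ := hne
    rw [Finset.mem_filter] at hr0
    have h42 := (nn_prime_mod hq hr0.2).2
    have h84 : (84 : ZMod q) ≠ 0 := by
      intro h0
      have h1 : ((84 : ℕ) : ZMod q) = 0 := by exact_mod_cast h0
      rw [ZMod.natCast_eq_zero_iff] at h1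
      have h5 : q ∣ 42 * 2 := by norm_num at h1 ⊢; exact h1
      rcases (Nat.Prime.dvd_mul hq).1 h5 with h | h
      · exact h42 h
      · exact h42 (h.trans (by norm_num))
    set x0 : ZMod q := 84 * (r0 : ZMod q) with hx0
    have hroot : ∀ r, q ∣ nn r → (84 * (r : ZMod q)) ^ 2 + 84 * (r : ZMod q) + 1 = 0 := by
      intro r hr
      rw [← aq_cast]
      exact (ZMod.natCast_eq_zero_iff (nn r) q).2 hr
    have h0 := hroot r0 hr0.2
    have hcard : ((Finset.range q).filter fun r => q ∣ nn r).card ≤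
        ({x0, -1 - x0} : Finset (ZMod q)).card := by
      refine Finset.card_le_card_of_injOn (fun r => 84 * (r : ZMod q)) ?_ ?_
      · intro r hr
        rw [Finset.mem_coe, Finset.mem_filter] at hr
        have h1 := hroot r hr.2
        have h2 : (84 * (r : ZMod q) - x0) * (84 * (r : ZMod q) + x0 + 1) = 0 := by
          rw [hx0]
          linear_combination h1 - h0
        rw [Finset.mem_coe, Finset.mem_insert, Finset.mem_singleton]
        rcases mul_eq_zero.1 h2 with h | h
        · left; linear_combination h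
        · right; linear_combination h
      · intro r hr s hs h
        rw [Finset.mem_coe, Finset.mem_filter, Finset.mem_range] at hr hs
        simp only at h
        have h1 := mul_left_cancel₀ h84 h
        have h2 := congrArg ZMod.val h1
        rwa [ZMod.val_cast_of_lt hr.1, ZMod.val_cast_of_lt hs.1] at h2
    exact hcard.trans Finset.card_le_two

theorem at_nn_mod {c d q : ℕ} (h : c % q = d % q) : q ∣ nn c ↔ q ∣ nn d := by
  have h1 : (c : ZMod q) = (d : ZMod q) := (ZMod.natCast_eq_natCast_iff' c d q).2 h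
  rw [← ZMod.natCast_eq_zero_iff, ← ZMod.natCast_eq_zero_iff, aq_cast, aq_cast, h1]

/-- at most `2 ^ ω(d)` roots modulo a squarefree number -/
theorem at_roots {d : ℕ} (hd : AtSf d) (hd0 : 0 < d) :
    ((Finset.range d).filter fun r => d ∣ nn r).card ≤ 2 ^ d.primeFactors.card := by
  classical
  have h1 : ((Finset.range d).filter fun r => d ∣ nn r).card ≤
      (Finset.pi d.primeFactors (fun q => (Finset.range q).filter fun r => q ∣ nn r)).card := by
    refine Finset.card_le_card_of_injOn (fun r => fun q _ => r % q) ?_ ?_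
    · intro r hr
      rw [Finset.mem_coe, Finset.mem_filter, Finset.mem_range] at hr
      rw [Finset.mem_coe, Finset.mem_pi]
      intro q hq
      have hqp := Nat.prime_of_mem_primeFactors hq
      rw [Finset.mem_filter, Finset.mem_range]
      refine ⟨Nat.mod_lt _ hqp.pos, ?_⟩
      rw [at_nn_mod (Nat.mod_mod r q)]
      exact (Nat.dvd_of_mem_primeFactors hq).trans hr.2
    · have key : ∀ r s : ℕ, r ≤ s → s < d → (∀ q ∈ d.primeFactors, r % q = s % q) → r = s := by
        intro r s hrs hs h
        have h2 : ∏ p ∈ d.primeFactors, p ∣ s - r := by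
          apply Finset.prod_primes_dvd
          · intro q hq
            exact (Nat.prime_of_mem_primeFactors hq).prime
          · intro q hq
            exact (Nat.modEq_iff_dvd' hrs).1 (h q hq)
        rw [hd] at h2
        have h3 : s - r = 0 := Nat.eq_zero_of_dvd_of_lt h2 (by omega)
        omega
      intro r hr s hs h
      rw [Finset.mem_coe, Finset.mem_filter, Finset.mem_range] at hr hs
      have h4 : ∀ q ∈ d.primeFactors, r % q = s % q := fun q hq => congrFun (congrFun h q) hq
      rcases le_total r s with h5 | h5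
      · exact key r s h5 hs.1 h4
      · exact (key s r h5 hr.1 (fun q hq => (h4 q hq).symm)).symm
  refine h1.trans ?_
  rw [Finset.card_pi]
  calc ∏ q ∈ d.primeFactors, ((Finset.range q).filter fun r => q ∣ nn r).card
      ≤ ∏ _q ∈ d.primeFactors, 2 :=
        Finset.prod_le_prod (fun _ _ => Nat.zero_le _)
          (fun q hq => at_roots_prime (Nat.prime_of_mem_primeFactors hq))
    _ = 2 ^ d.primeFactors.card := by rw [Finset.prod_const]

theorem at_count {d : ℕ} (hd : AtSf d) (hd0 : 0 < d) (X : ℕ) :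
    ((Finset.range X).filter fun c => d ∣ nn c).card ≤
      2 ^ d.primeFactors.card * (X / d + 1) := by
  classical
  have h1 : ((Finset.range X).filter fun c => d ∣ nn c).card ≤
      (((Finset.range d).filter fun r => d ∣ nn r) ×ˢ Finset.range (X / d + 1)).card := by
    refine Finset.card_le_card_of_injOn (fun c => (c % d, c / d)) ?_ ?_
    · intro c hc
      rw [Finset.mem_coe, Finset.mem_filter, Finset.mem_range] at hc
      rw [Finset.mem_coe, Finset.mem_product, Finset.mem_filter, Finset.mem_range,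
        Finset.mem_range]
      refine ⟨⟨Nat.mod_lt _ hd0, ?_⟩, ?_⟩
      · rw [at_nn_mod (Nat.mod_mod c d)]
        exact hc.2
      · exact Nat.lt_succ_of_le (Nat.div_le_div_right hc.1.le)
    · intro a _ b _ h
      simp only [Prod.mk.injEq] at h
      rw [← Nat.div_add_mod a d, ← Nat.div_add_mod b d, h.1, h.2]
  refine h1.trans ?_
  rw [Finset.card_product, Finset.card_range]
  exact Nat.mul_le_mul_right _ (at_roots hd hd0)

/-- `n ↦ 1 / n` -/
noncomputable def atInv : ArithmeticFunction ℝ := ⟨fun n => (n : ℝ)⁻¹, by simp⟩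

theorem at_inv_mul (n : ℕ) : (atInv * atInv) n = (n.divisors.card : ℝ) / n := by
  rw [ArithmeticFunction.mul_apply]
  have h : ∀ p ∈ n.divisorsAntidiagonal, atInv p.1 * atInv p.2 = (n : ℝ)⁻¹ := by
    intro p hp
    obtain ⟨h1, h2⟩ := Nat.mem_divisorsAntidiagonal.1 hp
    show ((p.1 : ℕ) : ℝ)⁻¹ * ((p.2 : ℕ) : ℝ)⁻¹ = (n : ℝ)⁻¹
    rw [← h1]
    push_cast
    rw [mul_inv]
  rw [Finset.sum_congr rfl h, Nat.sum_divisorsAntidiagonal (fun _ _ => (n : ℝ)⁻¹),
    Finset.sum_const, nsmul_eq_mul]
  ring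

theorem at_harm (D : ℕ) : ∑ n ∈ Finset.Ioc 0 D, atInv n ≤ 1 + Real.log D := by
  have h := harmonic_le_one_add_log D
  rw [harmonic_eq_sum_Icc] at h
  push_cast at h
  have h2 : Finset.Ioc 0 D = Finset.Icc 1 D := by
    ext x; simp only [Finset.mem_Icc, Finset.mem_Ioc]; omega
  rw [h2]
  exact h

theorem at_sum_tau (D : ℕ) (hD : 1 ≤ D) :
    ∑ n ∈ Finset.Ioc 0 D, (n.divisors.card : ℝ) / n ≤ (1 + Real.log D) ^ 2 := by
  have h := ArithmeticFunction.sum_Ioc_mul_eq_sum_sum atInv atInv D
  rw [Finset.sum_congr rfl (fun n _ => at_inv_mul n)] at h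
  rw [h]
  have hnn : ∀ n, 0 ≤ atInv n := fun n => inv_nonneg.2 (Nat.cast_nonneg n)
  have hlog : 0 ≤ Real.log D := Real.log_nonneg (by exact_mod_cast hD)
  have hH := at_harm D
  calc ∑ n ∈ Finset.Ioc 0 D, atInv n * ∑ m ∈ Finset.Ioc 0 (D / n), atInv m
      ≤ ∑ n ∈ Finset.Ioc 0 D, atInv n * (1 + Real.log D) := by
        refine Finset.sum_le_sum (fun n _ => mul_le_mul_of_nonneg_left ?_ (hnn n))
        refine le_trans (Finset.sum_le_sum_of_subset_of_nonneg ?_ (fun m _ _ => hnn m)) hH
        exact Finset.Ioc_subset_Ioc_right (Nat.div_le_self D n)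
    _ = (∑ n ∈ Finset.Ioc 0 D, atInv n) * (1 + Real.log D) := by rw [Finset.sum_mul]
    _ ≤ (1 + Real.log D) * (1 + Real.log D) := mul_le_mul_of_nonneg_right hH (by linarith)
    _ = (1 + Real.log D) ^ 2 := by ring

/-- Average number of divisors. -/
theorem nn_tau : ∃ C : ℝ, 0 < C ∧ ∀ X : ℕ, 2 ≤ X →
    ∑ c ∈ Finset.range X, (2 : ℝ) ^ (nn c).primeFactors.card ≤ C * X * (Real.log X) ^ 3 := by
  classical
  refine ⟨34000, by norm_num, fun X hX => ?_⟩
  set D := 84 * X with hD
  have hD1 : 1 ≤ D := by omega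
  have hXpos : (0 : ℝ) < X := by
    have : 0 < X := by omega
    exact_mod_cast this
  have hDpos : (0 : ℝ) < D := by exact_mod_cast hD1
  have hnn0 : ∀ c, nn c ≠ 0 := fun c => by unfold nn; omega
  have hnnD : ∀ c ∈ Finset.range X, nn c ≤ D ^ 2 := by
    intro c hc
    rw [Finset.mem_range] at hc
    have h1 : 84 * c + 1 ≤ D := by omega
    calc nn c ≤ (84 * c + 1) ^ 2 := by unfold nn; nlinarith
      _ ≤ D ^ 2 := Nat.pow_le_pow_left h1 2
  have step1 : ∑ c ∈ Finset.range X, 2 ^ (nn c).primeFactors.card ≤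
      2 * ∑ c ∈ Finset.range X, ((Finset.Icc 1 D).filter fun d => d ∣ nn c ∧ AtSf d).card := by
    rw [Finset.mul_sum]
    exact Finset.sum_le_sum (fun c hc => at_two_pow_le (hnn0 c) (hnnD c hc))
  have step2 : ∑ c ∈ Finset.range X, ((Finset.Icc 1 D).filter fun d => d ∣ nn c ∧ AtSf d).card
      = ∑ d ∈ (Finset.Icc 1 D).filter AtSf, ((Finset.range X).filter fun c => d ∣ nn c).card := by
    simp only [Finset.card_filter]
    rw [Finset.sum_comm, Finset.sum_filter]
    refine Finset.sum_congr rfl (fun d _ => ?_)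
    by_cases h : AtSf d
    · simp [h]
    · simp [h]
  have step3 : ∀ d ∈ (Finset.Icc 1 D).filter AtSf,
      (((Finset.range X).filter fun c => d ∣ nn c).card : ℝ) ≤
        ((X : ℝ) + D) * ((d.divisors.card : ℝ) / d) := by
    intro d hd
    rw [Finset.mem_filter, Finset.mem_Icc] at hd
    have hd0 : 0 < d := hd.1.1
    have hdpos : (0 : ℝ) < d := by exact_mod_cast hd0
    have h1 := at_count hd.2 hd0 X
    have h2 := at_two_pow_le_divisors hd0.ne'
    have h3 : ((Finset.range X).filter fun c => d ∣ nn c).card ≤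
        d.divisors.card * (X / d + 1) := h1.trans (Nat.mul_le_mul_right _ h2)
    have h4 : (((Finset.range X).filter fun c => d ∣ nn c).card : ℝ) ≤
        (d.divisors.card : ℝ) * (((X / d : ℕ) : ℝ) + 1) := by exact_mod_cast h3
    refine h4.trans ?_
    have h5 : ((X / d : ℕ) : ℝ) ≤ (X : ℝ) / d := Nat.cast_div_le
    have h6 : (1 : ℝ) ≤ (D : ℝ) / d := by
      rw [le_div_iff₀ hdpos, one_mul]
      exact_mod_cast hd.1.2
    have h7 : ((X : ℝ) + D) * ((d.divisors.card : ℝ) / d)
        = (d.divisors.card : ℝ) * ((X : ℝ) / d + (D : ℝ) / d) := by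
      field_simp
    rw [h7]
    exact mul_le_mul_of_nonneg_left (by linarith) (Nat.cast_nonneg _)
  have step4 : (∑ d ∈ (Finset.Icc 1 D).filter AtSf,
      ((Finset.range X).filter fun c => d ∣ nn c).card : ℝ) ≤
        ((X : ℝ) + D) * (1 + Real.log D) ^ 2 := by
    refine (Finset.sum_le_sum step3).trans ?_
    rw [← Finset.mul_sum]
    refine mul_le_mul_of_nonneg_left ?_ (by positivity)
    refine le_trans (Finset.sum_le_sum_of_subset_of_nonneg (Finset.filter_subset _ _)
      (fun m _ _ => by positivity)) ?_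
    have h2 : Finset.Icc 1 D = Finset.Ioc 0 D := by
      ext x; simp only [Finset.mem_Icc, Finset.mem_Ioc]; omega
    rw [h2]
    exact at_sum_tau D hD1
  have hlogX : Real.log 2 ≤ Real.log X := Real.log_le_log (by norm_num) (by exact_mod_cast hX)
  have hlog2 : (0.5 : ℝ) < Real.log 2 := by
    have := Real.log_two_gt_d9
    linarith
  have hlogD : 1 + Real.log D ≤ 10 * Real.log X := by
    have h1 : Real.log D = Real.log 84 + Real.log X := by
      rw [hD]
      push_cast
      rw [Real.log_mul (by norm_num) hXpos.ne']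
    have h2 : Real.log 84 ≤ 7 * Real.log 2 := by
      rw [← Real.log_rpow (by norm_num)]
      apply Real.log_le_log (by norm_num)
      norm_num
    rw [h1]
    linarith
  have hlogD0 : 0 ≤ 1 + Real.log D := by
    have : 0 ≤ Real.log D := Real.log_nonneg (by exact_mod_cast hD1)
    linarith
  set L := Real.log X with hL
  have hL5 : 0.5 < L := by linarith
  have h8 : (1 + Real.log D) ^ 2 ≤ 200 * L ^ 3 := by
    have h9 : (1 + Real.log D) ^ 2 ≤ (10 * L) ^ 2 := pow_le_pow_left₀ hlogD0 hlogD 2
    have h10 : L ^ 2 ≤ 2 * L ^ 3 := by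
      have : L ^ 3 = L ^ 2 * L := by ring
      nlinarith [sq_nonneg L]
    nlinarith
  have hcast : ∑ c ∈ Finset.range X, (2 : ℝ) ^ (nn c).primeFactors.card
      = ((∑ c ∈ Finset.range X, 2 ^ (nn c).primeFactors.card : ℕ) : ℝ) := by
    push_cast
    rfl
  rw [hcast]
  have h11 : ((∑ c ∈ Finset.range X, 2 ^ (nn c).primeFactors.card : ℕ) : ℝ) ≤
      2 * (∑ d ∈ (Finset.Icc 1 D).filter AtSf,
        ((Finset.range X).filter fun c => d ∣ nn c).card : ℝ) := by
    rw [step2] at step1
    exact_mod_cast step1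
  have h12 : (D : ℝ) = 84 * X := by rw [hD]; push_cast; ring
  calc ((∑ c ∈ Finset.range X, 2 ^ (nn c).primeFactors.card : ℕ) : ℝ)
      ≤ 2 * (((X : ℝ) + D) * (1 + Real.log D) ^ 2) := h11.trans (by linarith)
    _ ≤ 2 * (((X : ℝ) + D) * (200 * L ^ 3)) := by
        have : 0 ≤ (X : ℝ) + D := by positivity
        have := mul_le_mul_of_nonneg_left h8 this
        linarith
    _ = 34000 * X * L ^ 3 := by rw [h12]; ring

end LT
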