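import Pool.Agent.Lib_MP_f1937f_nt.Defs

/-!
# MP_f1937f_nt: basic facts on short Weierstrass curves and on maps of points
-/

namespace LT

open Polynomial WeierstrassCurve

section

variable {k k' k'' : Type} [Field k] [Field k'] [Field k'']

theorem sw_map (f : k →+* k') {a b : k} {a' b' : k'} (ha : f a = a') (hb : f b = b') :
    (SW a b).map f = SW a' b' := by
  subst ha hb
  ext <;> simp [SW]

theorem sw_disc (a b : k) : (SW a b).Δ = -16 * dsc a b := by
  simp only [SW, WeierstrassCurve.Δ, b₂, b₄, b₆, b₈, dsc]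
  ring

theorem sw_nons (h2 : (2 : k) ≠ 0) {a b : k} (hd : dsc a b ≠ 0) {x y : k} :
    (SW a b).toAffine.Nonsingular x y ↔ y ^ 2 = x ^ 3 + a * x + b := by
  have h := Affine.equation_iff_nonsingular_of_Δ_ne_zero (W := (SW a b).toAffine) (x := x) (y := y)
    (by
      change (SW a b).Δ ≠ 0
      rw [sw_disc]
      have : (16 : k) = 2 ^ 4 := by norm_num
      rw [this]
      exact mul_ne_zero (neg_ne_zero.mpr (pow_ne_zero 4 h2)) hd)
  rw [← h, sw_equation]

variable [DecidableEq k] [DecidableEq k'] [DecidableEq k'']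

/-- The map on points given by a homomorphism of fields. -/
noncomputable def mapW (f : k →+* k') {W : WeierstrassCurve k} {W' : WeierstrassCurve k'}
    (h : W.map f = W') : W.toAffine.Point →+ W'.toAffine.Point where
  toFun
    | .zero => .zero
    | .some x y hxy => .some (f x) (f y) (by
        rw [← h]; exact (Affine.map_nonsingular W f.injective x y).mpr hxy)
  map_zero' := rfl
  map_add' := by
    subst h
    rintro (_ | ⟨x₁, y₁, h₁⟩) (_ | ⟨x₂, y₂, h₂⟩)
    · rfl
    · rfl
    · rfl
    · by_cases hxy : x₁ = x₂ ∧ y₁ = W.toAffine.negY x₂ y₂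
      · have h1 := Affine.Point.add_of_Y_eq (h₁ := h₁) (h₂ := h₂) hxy.1 hxy.2
        rw [h1]
        symm
        apply Affine.Point.add_of_Y_eq
        · rw [hxy.1]
        · rw [hxy.2, ← hxy.1, Affine.map_negY]
      · have h1 := Affine.Point.add_some (h₁ := h₁) (h₂ := h₂) hxy
        rw [h1]
        have h2 : ¬(f x₁ = f x₂ ∧ f y₁ = (W.map f).toAffine.negY (f x₂) (f y₂)) := by
          rw [Affine.map_negY]
          rintro ⟨h3, h4⟩
          exact hxy ⟨f.injective h3, f.injective h4⟩
        rw [Affine.Point.add_some h2]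
        simp only [Affine.map_slope, Affine.map_addX, Affine.map_addY]

@[simp] theorem mapW_zero (f : k →+* k') {W : WeierstrassCurve k} {W' : WeierstrassCurve k'}
    (h : W.map f = W') : mapW f h .zero = .zero := rfl

theorem mapW_some (f : k →+* k') {W : WeierstrassCurve k} {W' : WeierstrassCurve k'}
    (h : W.map f = W') (x y : k) (hxy : W.toAffine.Nonsingular x y) :
    ∃ h', mapW f h (.some x y hxy) = .some (f x) (f y) h' := ⟨_, rfl⟩

theorem mapW_injective (f : k →+* k') {W : WeierstrassCurve k} {W' : WeierstrassCurve k'}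
    (h : W.map f = W') : Function.Injective (mapW f h) := by
  rintro (_ | ⟨x₁, y₁, h₁⟩) (_ | ⟨x₂, y₂, h₂⟩) he
  · rfl
  · exact absurd he (by rintro ⟨⟩)
  · exact absurd he (by rintro ⟨⟩)
  · have h1 := (Affine.Point.some.injEq ..).mp he
    have hx := f.injective h1.1
    have hy := f.injective h1.2
    subst hx hy
    rfl

theorem mapW_mapW (f : k →+* k') (g : k' →+* k'') {W : WeierstrassCurve k}
    {W' : WeierstrassCurve k'} {W'' : WeierstrassCurve k''} (h : W.map f = W') (h' : W'.map g = W'')
    (P : W.toAffine.Point) :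
    mapW g h' (mapW f h P) = mapW (g.comp f) (by rw [← h', ← h, WeierstrassCurve.map_map]) P := by
  rcases P with _ | ⟨x, y, hxy⟩ <;> rfl

/-- The map on points of short Weierstrass curves given by a homomorphism of fields. -/
noncomputable def mapPt (f : k →+* k') {a b : k} {a' b' : k'} (ha : f a = a') (hb : f b = b') :
    Pt a b →+ Pt a' b' := mapW f (sw_map f ha hb)

theorem mapPt_some (f : k →+* k') {a b : k} {a' b' : k'} (ha : f a = a') (hb : f b = b')
    (x y : k) (hxy : (SW a b).toAffine.Nonsingular x y) :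
    ∃ h', mapPt f ha hb (.some x y hxy) = .some (f x) (f y) h' := ⟨_, rfl⟩

theorem mapPt_injective (f : k →+* k') {a b : k} {a' b' : k'} (ha : f a = a') (hb : f b = b') :
    Function.Injective (mapPt f ha hb) := mapW_injective f _

theorem mapPt_mapPt (f : k →+* k') (g : k' →+* k'') {a b : k} {a' b' : k'} {a'' b'' : k''}
    (ha : f a = a') (hb : f b = b') (ha' : g a' = a'') (hb' : g b' = b'') (P : Pt a b) :
    mapPt g ha' hb' (mapPt f ha hb P) =
      mapPt (g.comp f) (by simp [ha, ha']) (by simp [hb, hb']) P := mapW_mapW f g _ _ P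

theorem xc_mapPt (f : k →+* k') {a b : k} {a' b' : k'} (ha : f a = a') (hb : f b = b')
    (P : Pt a b) : xc (mapPt f ha hb P) = f (xc P) := by
  rcases P with _ | ⟨x, y, h⟩
  · exact (map_zero f).symm
  · rfl

theorem yc_mapPt (f : k →+* k') {a b : k} {a' b' : k'} (ha : f a = a') (hb : f b = b')
    (P : Pt a b) : yc (mapPt f ha hb P) = f (yc P) := by
  rcases P with _ | ⟨x, y, h⟩
  · exact (map_zero f).symm
  · rfl

end

/-- A point is determined by its coordinates. -/
theorem pt_ext {k : Type} [Field k] {a b : k} {P Q : Pt a b} (hP : P ≠ 0) (hQ : Q ≠ 0) (hx : xc P = xc Q)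
    (hy : yc P = yc Q) : P = Q := by
  rcases P with _ | ⟨x, y, h⟩
  · exact absurd rfl hP
  rcases Q with _ | ⟨x', y', h'⟩
  · exact absurd rfl hQ
  change x = x' at hx
  change y = y' at hy
  subst hx hy
  rfl

end LT
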