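import Pool.Agent.Lib_MP_f1937f_nt.CAddD

/-!
# MP_f1937f_nt: the addition theorem for `℘` (piece CADD)
-/

namespace LT

open Polynomial WeierstrassCurve PeriodPair Filter Topology

namespace CAddAux

theorem hasDerivAt_wp (Λ : PeriodPair) {u : ℂ} (hu : u ∉ Λ.lattice) :
    HasDerivAt ℘[Λ] (℘'[Λ] u) u := by
  have h : DifferentiableAt ℂ ℘[Λ] u :=
    (Λ.differentiableOn_weierstrassP u hu).differentiableAt
      (Λ.isClosed_lattice.isOpen_compl.mem_nhds hu)
  rw [← deriv_weierstrassP]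
  exact h.hasDerivAt

theorem analyticAt_wp (Λ : PeriodPair) {u : ℂ} (hu : u ∉ Λ.lattice) : AnalyticAt ℂ ℘[Λ] u :=
  Λ.analyticOnNhd_weierstrassP u hu

theorem wp_add_mem (Λ : PeriodPair) (z : ℂ) {l : ℂ} (hl : l ∈ Λ.lattice) :
    ℘[Λ] (z + l) = ℘[Λ] z := Λ.weierstrassP_add_coe z ⟨l, hl⟩

theorem wp_sub_mem (Λ : PeriodPair) (z : ℂ) {l : ℂ} (hl : l ∈ Λ.lattice) :
    ℘[Λ] (z - l) = ℘[Λ] z := Λ.weierstrassP_sub_coe z ⟨l, hl⟩

theorem wpd_add_mem (Λ : PeriodPair) (z : ℂ) {l : ℂ} (hl : l ∈ Λ.lattice) :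
    ℘'[Λ] (z + l) = ℘'[Λ] z := Λ.derivWeierstrassP_add_coe z ⟨l, hl⟩

/-- `z² ℘(z) → 1`. -/
theorem lim_zero (Λ : PeriodPair) : Tendsto (fun z => z ^ 2 * ℘[Λ] z) (𝓝[≠] 0) (𝓝 1) := by
  have h0 : Tendsto (fun z : ℂ => z ^ 2) (𝓝[≠] 0) (𝓝 0) := by
    have : Tendsto (fun z : ℂ => z ^ 2) (𝓝 0) (𝓝 ((0:ℂ) ^ 2)) := (continuous_pow 2).tendsto 0
    simpa using this.mono_left nhdsWithin_le_nhds
  have h1 := (h0.mul (wp_zero Λ).1).add_const (1:ℂ)
  rw [mul_zero, zero_add] at h1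
  refine h1.congr' ?_
  filter_upwards [self_mem_nhdsWithin] with z hz
  have hz' : z ≠ 0 := hz
  field_simp
  ring

/-- `(z - u)² ℘(z) → 1` at a lattice point. -/
theorem lim_mem (Λ : PeriodPair) {u : ℂ} (hu : u ∈ Λ.lattice) :
    Tendsto (fun z => (z - u) ^ 2 * ℘[Λ] z) (𝓝[≠] u) (𝓝 1) := by
  have h1 : Tendsto (fun z : ℂ => z - u) (𝓝[≠] u) (𝓝[≠] 0) := by
    refine tendsto_nhdsWithin_iff.2 ⟨?_, ?_⟩
    · have : Tendsto (fun z : ℂ => z - u) (𝓝 u) (𝓝 (u - u)) :=
        (continuous_id.sub continuous_const).tendsto u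
      rw [sub_self] at this
      exact this.mono_left nhdsWithin_le_nhds
    · filter_upwards [self_mem_nhdsWithin] with z hz
      exact sub_ne_zero.2 hz
  have h2 := (lim_zero Λ).comp h1
  refine h2.congr (fun z => ?_)
  simp only [Function.comp]
  rw [wp_sub_mem Λ z hu]

/-- `(z - u)² ℘(z) → 0` at other points. -/
theorem lim_notMem (Λ : PeriodPair) {u : ℂ} (hu : u ∉ Λ.lattice) :
    Tendsto (fun z => (z - u) ^ 2 * ℘[Λ] z) (𝓝[≠] u) (𝓝 0) := by
  have h0 : Tendsto (fun z : ℂ => (z - u) ^ 2) (𝓝[≠] u) (𝓝 0) := by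
    have : Tendsto (fun z : ℂ => (z - u) ^ 2) (𝓝 u) (𝓝 ((u - u) ^ 2)) :=
      ((continuous_id.sub continuous_const).pow 2).tendsto u
    simpa using this.mono_left nhdsWithin_le_nhds
  have h1 : Tendsto ℘[Λ] (𝓝[≠] u) (𝓝 (℘[Λ] u)) :=
    (analyticAt_wp Λ hu).continuousAt.tendsto.mono_left nhdsWithin_le_nhds
  simpa using h0.mul h1

theorem exists_lim (Λ : PeriodPair) (u : ℂ) :
    ∃ k, Tendsto (fun z => (z - u) ^ 2 * ℘[Λ] z) (𝓝[≠] u) (𝓝 k) := by
  by_cases hu : u ∈ Λ.lattice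
  · exact ⟨1, lim_mem Λ hu⟩
  · exact ⟨0, lim_notMem Λ hu⟩

/-- translation -/
theorem tendsto_shift {f : ℂ → ℂ} {u a k : ℂ}
    (h : Tendsto (fun z => (z - (u + a)) ^ 2 * f z) (𝓝[≠] (u + a)) (𝓝 k)) :
    Tendsto (fun z => (z - u) ^ 2 * f (z + a)) (𝓝[≠] u) (𝓝 k) := by
  have h1 : Tendsto (fun z : ℂ => z + a) (𝓝[≠] u) (𝓝[≠] (u + a)) := by
    refine tendsto_nhdsWithin_iff.2 ⟨?_, ?_⟩
    · have : Tendsto (fun z : ℂ => z + a) (𝓝 u) (𝓝 (u + a)) :=
        (continuous_id.add continuous_const).tendsto u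
      exact this.mono_left nhdsWithin_le_nhds
    · filter_upwards [self_mem_nhdsWithin] with z hz
      intro h'
      exact hz (add_right_cancel h')
  refine (h.comp h1).congr (fun z => ?_)
  simp only [Function.comp]
  congr 2
  ring

theorem slope_lim (Λ : PeriodPair) {u : ℂ} (hu : u ∉ Λ.lattice) :
    Tendsto (fun z => (℘[Λ] z - ℘[Λ] u) / (z - u)) (𝓝[≠] u) (𝓝 (℘'[Λ] u)) := by
  have h := (hasDerivAt_wp Λ hu).tendsto_slope
  refine h.congr (fun z => ?_)
  rw [slope_def_field]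

/-- Second order expansion. -/
theorem taylor2 {f f' : ℂ → ℂ} {w c : ℂ} (hf : AnalyticAt ℂ f w)
    (hd : ∀ᶠ z in 𝓝 w, HasDerivAt f (f' z) z) (hd2 : HasDerivAt f' c w) :
    ∃ (c₃ : ℂ) (k : ℂ → ℂ), AnalyticAt ℂ k w ∧
      ∀ z, f z = f w + f' w * (z - w) + c / 2 * (z - w) ^ 2 + c₃ * (z - w) ^ 3 +
        (z - w) ^ 4 * k z := by
  have key : ∀ {g : ℂ → ℂ}, AnalyticAt ℂ g w → AnalyticAt ℂ (dslope g w) w := by
    intro g hg
    obtain ⟨p, hp⟩ := hg
    exact ⟨_, hp.has_fpower_series_dslope_fslope⟩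
  have key2 : ∀ (g : ℂ → ℂ) (z : ℂ), g z = g w + (z - w) * dslope g w z := by
    intro g z
    have := sub_smul_dslope g w z
    rw [smul_eq_mul] at this
    rw [this]; ring
  set f1 := dslope f w with hf1
  set f2 := dslope f1 w with hf2
  set f3 := dslope f2 w with hf3
  set f4 := dslope f3 w with hf4
  have a1 : AnalyticAt ℂ f1 w := key hf
  have a2 : AnalyticAt ℂ f2 w := key a1
  have a3 : AnalyticAt ℂ f3 w := key a2
  have a4 : AnalyticAt ℂ f4 w := key a3
  have e1 : f1 w = f' w := by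
    rw [hf1, dslope_same]
    exact hd.self_of_nhds.deriv
  have e2 : f2 w = c / 2 := by
    -- derivative of f near w
    have hev : ∀ᶠ z in 𝓝 w, AnalyticAt ℂ f2 z := a2.eventually_analyticAt
    have hder : ∀ᶠ z in 𝓝 w, f' z = f' w + 2 * (z - w) * f2 z + (z - w) ^ 2 * deriv f2 z := by
      filter_upwards [hd, hev] with z hz hz2
      have h1 : HasDerivAt (fun z => f w + (z - w) * (f1 w + (z - w) * f2 z))
          (0 + (1 * (f1 w + (z - w) * f2 z) +
            (z - w) * (0 + (1 * f2 z + (z - w) * deriv f2 z)))) z := by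
        have hid : HasDerivAt (fun z : ℂ => z - w) 1 z := (hasDerivAt_id z).sub_const w
        exact (hasDerivAt_const z (f w)).add
          (hid.mul ((hasDerivAt_const z (f1 w)).add (hid.mul hz2.differentiableAt.hasDerivAt)))
      have h2 : (fun z => f w + (z - w) * (f1 w + (z - w) * f2 z)) = f := by
        funext y
        rw [← key2 f1 y, ← key2 f y]
      rw [h2] at h1
      rw [hz.unique h1, ← e1]
      ring
    have l1 : Tendsto (fun z => (f' z - f' w) / (z - w)) (𝓝[≠] w) (𝓝 c) := by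
      refine hd2.tendsto_slope.congr (fun z => ?_)
      rw [slope_def_field]
    have l2 : Tendsto (fun z => 2 * f2 z + (z - w) * deriv f2 z) (𝓝[≠] w)
        (𝓝 (2 * f2 w + (w - w) * deriv f2 w)) := by
      have c1 : ContinuousAt f2 w := a2.continuousAt
      have c2 : ContinuousAt (deriv f2) w := a2.deriv.continuousAt
      have c3 : ContinuousAt (fun z => 2 * f2 z + (z - w) * deriv f2 z) w :=
        (continuousAt_const.mul c1).add ((continuousAt_id.sub continuousAt_const).mul c2)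
      exact c3.tendsto.mono_left nhdsWithin_le_nhds
    have l3 : Tendsto (fun z => 2 * f2 z + (z - w) * deriv f2 z) (𝓝[≠] w) (𝓝 c) := by
      refine l1.congr' ?_
      filter_upwards [self_mem_nhdsWithin, hder.filter_mono nhdsWithin_le_nhds] with z hz hz2
      have : z - w ≠ 0 := sub_ne_zero.2 hz
      rw [hz2]
      field_simp
      ring
    have := tendsto_nhds_unique l3 l2
    rw [sub_self, zero_mul, add_zero] at this
    rw [this]; ring
  refine ⟨f3 w, f4, a4, fun z => ?_⟩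
  have h1 := key2 f z
  have h2 := key2 f1 z
  have h3 := key2 f2 z
  have h4 := key2 f3 z
  rw [← hf1] at h1
  rw [← hf2] at h2
  rw [← hf3] at h3
  rw [← hf4] at h4
  rw [h1, h2, h3, h4, e1, e2]
  ring

end CAddAux

open CAddAux in
theorem wp_sum (Λ : PeriodPair) {z w : ℂ} (hz : z ∉ Λ.lattice) (hw : w ∉ Λ.lattice)
    (h₁ : z + w ∉ Λ.lattice) (h₂ : z - w ∉ Λ.lattice) :
    (℘[Λ] (z + w) + ℘[Λ] (z - w) - 2 * ℘[Λ] w) * (℘[Λ] z - ℘[Λ] w) ^ 2 =
      (6 * ℘[Λ] w ^ 2 - Λ.g₂ / 2) * (℘[Λ] z - ℘[Λ] w) + ℘'[Λ] w ^ 2 := by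
  set A : ℂ := 6 * ℘[Λ] w ^ 2 - Λ.g₂ / 2 with hA
  set B : ℂ := ℘'[Λ] w ^ 2 with hB
  set F : ℂ → ℂ := fun z => (℘[Λ] (z + w) + ℘[Λ] (z - w) - 2 * ℘[Λ] w) *
    (℘[Λ] z - ℘[Λ] w) ^ 2 - A * (℘[Λ] z - ℘[Λ] w) - B with hF
  -- meromorphic
  have mw : Meromorphic ℘[Λ] := Λ.meromorphic_weierstrassP
  have mplus : Meromorphic (fun z => ℘[Λ] (z + w)) := fun x =>
    (meromorphicAt_fun_comp_add_const_iff_meromorphicAt).2 (mw (x + w))
  have mminus : Meromorphic (fun z => ℘[Λ] (z - w)) := fun x =>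
    (meromorphicAt_fun_comp_sub_const_iff_meromorphicAt).2 (mw (x - w))
  have mF : Meromorphic F := by
    intro x
    have c1 : MeromorphicAt (fun _ : ℂ => 2 * ℘[Λ] w) x := analyticAt_const.meromorphicAt
    have c2 : MeromorphicAt (fun _ : ℂ => ℘[Λ] w) x := analyticAt_const.meromorphicAt
    have c3 : MeromorphicAt (fun _ : ℂ => A) x := analyticAt_const.meromorphicAt
    have c4 : MeromorphicAt (fun _ : ℂ => B) x := analyticAt_const.meromorphicAt
    exact (((((mplus x).add (mminus x)).sub c1).mul (((mw x).sub c2).pow 2)).sub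
      (c3.mul ((mw x).sub c2))).sub c4
  have perF : ∀ z : ℂ, ∀ l ∈ Λ.lattice, F (z + l) = F z := by
    intro z l hl
    simp only [hF]
    rw [show z + l + w = (z + w) + l by ring, show z + l - w = (z - w) + l by ring,
      wp_add_mem Λ _ hl, wp_add_mem Λ _ hl, wp_add_mem Λ _ hl]
  -- continuity at good points
  have contF : ∀ u : ℂ, u ∉ Λ.lattice → u + w ∉ Λ.lattice → u - w ∉ Λ.lattice →
      ContinuousAt F u := by
    intro u h0 hp hm
    have c0 : ContinuousAt ℘[Λ] u := (analyticAt_wp Λ h0).continuousAt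
    have c1 : ContinuousAt (fun z => ℘[Λ] (z + w)) u :=
      ContinuousAt.comp (f := fun z => z + w) (g := ℘[Λ]) (analyticAt_wp Λ hp).continuousAt
        (continuousAt_id.add continuousAt_const)
    have c2 : ContinuousAt (fun z => ℘[Λ] (z - w)) u :=
      ContinuousAt.comp (f := fun z => z - w) (g := ℘[Λ]) (analyticAt_wp Λ hm).continuousAt
        (continuousAt_id.sub continuousAt_const)
    exact ((((c1.add c2).sub continuousAt_const).mul
      ((c0.sub continuousAt_const).pow 2)).sub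
      (continuousAt_const.mul (c0.sub continuousAt_const))).sub continuousAt_const
  -- the limit at points where ℘ takes the value ℘ w
  have limval : ∀ u k₁ k₂ : ℂ, u ∉ Λ.lattice → ℘[Λ] u = ℘[Λ] w →
      Tendsto (fun z => (z - (u + w)) ^ 2 * ℘[Λ] z) (𝓝[≠] (u + w)) (𝓝 k₁) →
      Tendsto (fun z => (z - (u + -w)) ^ 2 * ℘[Λ] z) (𝓝[≠] (u + -w)) (𝓝 k₂) →
      Tendsto F (𝓝[≠] u) (𝓝 ((k₁ + k₂) * ℘'[Λ] u ^ 2 - B)) := by
    intro u k₁ k₂ hu huw h1 h2
    have t1 := tendsto_shift h1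
    have t2 := tendsto_shift h2
    have t3 := slope_lim Λ hu
    have t0 : Tendsto (fun z : ℂ => (z - u)) (𝓝[≠] u) (𝓝 0) := by
      have : Tendsto (fun z : ℂ => (z - u)) (𝓝 u) (𝓝 (u - u)) :=
        (continuous_id.sub continuous_const).tendsto u
      rw [sub_self] at this
      exact this.mono_left nhdsWithin_le_nhds
    have t4 : Tendsto (fun z => ((z - u) ^ 2 * ℘[Λ] (z + w) + (z - u) ^ 2 * ℘[Λ] (z + -w)
        - (z - u) ^ 2 * (2 * ℘[Λ] w)) * ((℘[Λ] z - ℘[Λ] u) / (z - u)) ^ 2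
        - A * ((℘[Λ] z - ℘[Λ] u) / (z - u) * (z - u)) - B) (𝓝[≠] u)
        (𝓝 ((k₁ + k₂ - 0 ^ 2 * (2 * ℘[Λ] w)) * (℘'[Λ] u) ^ 2 - A * (℘'[Λ] u * 0) - B)) :=
      ((((t1.add t2).sub ((t0.pow 2).mul_const _)).mul (t3.pow 2)).sub
        ((t3.mul t0).const_mul A)).sub_const B
    have e : (k₁ + k₂ - 0 ^ 2 * (2 * ℘[Λ] w)) * (℘'[Λ] u) ^ 2 - A * (℘'[Λ] u * 0) - B =
        (k₁ + k₂) * ℘'[Λ] u ^ 2 - B := by ring
    rw [e] at t4
    refine t4.congr' ?_
    filter_upwards [self_mem_nhdsWithin] with z hz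
    have hz' : z - u ≠ 0 := sub_ne_zero.2 hz
    simp only [hF]
    rw [huw, ← sub_eq_add_neg]
    field_simp
  -- the limit at zero
  have lim0 : ∃ c, Tendsto F (𝓝[≠] 0) (𝓝 c) := by
    have hd : ∀ᶠ z in 𝓝 w, HasDerivAt ℘[Λ] (℘'[Λ] z) z := by
      filter_upwards [Λ.isClosed_lattice.isOpen_compl.mem_nhds hw] with z hz
      exact hasDerivAt_wp Λ hz
    obtain ⟨c₃, k, hk, hT⟩ := taylor2 (analyticAt_wp Λ hw) hd (wp_deriv2 Λ w hw)
    rw [← hA] at hT
    -- s(z) = k (w + z) + k (w - z)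
    have s1 : Tendsto (fun z => k (w + z)) (𝓝[≠] 0) (𝓝 (k w)) := by
      have : ContinuousAt (fun z => k (w + z)) 0 :=
        ContinuousAt.comp (f := fun z => w + z) (g := k) (by simpa using hk.continuousAt)
          (continuousAt_const.add continuousAt_id)
      have h := this.tendsto
      simp only [add_zero] at h
      exact h.mono_left nhdsWithin_le_nhds
    have s2 : Tendsto (fun z => k (w - z)) (𝓝[≠] 0) (𝓝 (k w)) := by
      have : ContinuousAt (fun z => k (w - z)) 0 :=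
        ContinuousAt.comp (f := fun z => w - z) (g := k) (by simpa using hk.continuousAt)
          (continuousAt_const.sub continuousAt_id)
      have h := this.tendsto
      simp only [sub_zero] at h
      exact h.mono_left nhdsWithin_le_nhds
    have t0 : Tendsto (fun z : ℂ => z ^ 2) (𝓝[≠] 0) (𝓝 0) := by
      have : Tendsto (fun z : ℂ => z ^ 2) (𝓝 0) (𝓝 ((0:ℂ) ^ 2)) := (continuous_pow 2).tendsto 0
      simpa using this.mono_left nhdsWithin_le_nhds
    have u1 : Tendsto (fun z => z ^ 2 * ℘[Λ] z - z ^ 2 * ℘[Λ] w) (𝓝[≠] 0)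
        (𝓝 (1 - 0 * ℘[Λ] w)) := (lim_zero Λ).sub (t0.mul_const _)
    have v1 : Tendsto (fun z => (℘[Λ] z - 1 / z ^ 2) - ℘[Λ] w) (𝓝[≠] 0) (𝓝 (0 - ℘[Λ] w)) :=
      (wp_zero Λ).1.sub_const _
    have T := (((u1.const_mul A).mul v1).add ((s1.add s2).mul (u1.pow 2))).sub_const B
    refine ⟨_, T.congr' ?_⟩
    filter_upwards [self_mem_nhdsWithin] with z hz
    have hz' : z ≠ 0 := hz
    simp only [hF]
    have e1 : ℘[Λ] (z - w) = ℘[Λ] (w - z) := by
      rw [← Λ.weierstrassP_neg (z - w)]; congr 1; ring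
    rw [e1, add_comm z w, hT (w + z), hT (w - z)]
    field_simp
    ring
  have ordF : ∀ u : ℂ, 0 ≤ meromorphicOrderAt F u := by
    intro u
    by_cases hu : u ∈ Λ.lattice
    · have h1 : (fun z => F (z + u)) = F := by
        funext y; exact perF y u hu
      have h2 : meromorphicOrderAt (fun z => F (z + u)) 0 = meromorphicOrderAt F (0 + u) :=
        meromorphicOrderAt_fun_comp_add_const_eq_meromorphicOrderAt
      rw [h1, zero_add] at h2
      rw [← h2]
      exact (tendsto_nhds_iff_meromorphicOrderAt_nonneg (mF 0)).1 lim0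
    · rw [← tendsto_nhds_iff_meromorphicOrderAt_nonneg (mF u)]
      by_cases hp : u + w ∈ Λ.lattice
      · have huw : ℘[Λ] u = ℘[Λ] w := by
          have := wp_add_mem Λ (-w) hp
          rw [Λ.weierstrassP_neg] at this
          rw [← this]; congr 1; ring
        obtain ⟨k₁, hk₁⟩ := exists_lim Λ (u + w)
        obtain ⟨k₂, hk₂⟩ := exists_lim Λ (u + -w)
        exact ⟨_, limval u k₁ k₂ hu huw hk₁ hk₂⟩
      · by_cases hm : u - w ∈ Λ.lattice
        · have huw : ℘[Λ] u = ℘[Λ] w := by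
            have := wp_add_mem Λ w hm
            rw [← this]; congr 1; ring
          obtain ⟨k₁, hk₁⟩ := exists_lim Λ (u + w)
          obtain ⟨k₂, hk₂⟩ := exists_lim Λ (u + -w)
          exact ⟨_, limval u k₁ k₂ hu huw hk₁ hk₂⟩
        · exact ⟨_, (contF u hu hp hm).tendsto.mono_left nhdsWithin_le_nhds⟩
  obtain ⟨c, hc⟩ := liou Λ F mF perF ordF
  -- the constant is zero
  have hc0 : c = 0 := by
    have hlim : Tendsto F (𝓝[≠] w) (𝓝 0) := by
      have m1 : w + -w ∈ Λ.lattice := by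
        rw [add_neg_cancel]; exact Λ.lattice.zero_mem
      by_cases h2w : w + w ∈ Λ.lattice
      · have hd0 : ℘'[Λ] w = 0 := by
          have e := wpd_add_mem Λ (-w) h2w
          rw [Λ.derivWeierstrassP_neg, show -w + (w + w) = w by ring] at e
          have : 2 * ℘'[Λ] w = 0 := by linear_combination e
          simpa using this
        have := limval w 1 1 hw rfl (lim_mem Λ h2w) (lim_mem Λ m1)
        simpa [hB, hd0] using this
      · have := limval w 0 1 hw rfl (lim_notMem Λ h2w) (lim_mem Λ m1)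
        simpa [hB] using this
    have hev : ∀ᶠ y in 𝓝[≠] w, F y = c := by
      have i1 : ∀ᶠ y in 𝓝 w, y ∉ Λ.lattice := Λ.isClosed_lattice.isOpen_compl.mem_nhds hw
      have i2 : ∀ᶠ y in 𝓝[≠] w, y + w ∉ Λ.lattice := by
        have hs : ∀ᶠ y in 𝓝 (w + w), y ∈ (((Λ.lattice : Set ℂ) \ {w + w})ᶜ : Set ℂ) :=
          Λ.compl_lattice_sdiff_singleton_mem_nhds (w + w)
        have ht : Tendsto (fun y : ℂ => y + w) (𝓝 w) (𝓝 (w + w)) :=
          (continuous_id.add continuous_const).tendsto w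
        have := (ht.eventually hs).filter_mono (nhdsWithin_le_nhds (s := {w}ᶜ))
        filter_upwards [this, self_mem_nhdsWithin] with y hy hy2 hmem
        apply hy
        refine ⟨hmem, ?_⟩
        intro h
        exact hy2 (add_right_cancel h)
      have i3 : ∀ᶠ y in 𝓝[≠] w, y - w ∉ Λ.lattice := by
        have hs : ∀ᶠ y in 𝓝 (w - w), y ∈ (((Λ.lattice : Set ℂ) \ {w - w})ᶜ : Set ℂ) :=
          Λ.compl_lattice_sdiff_singleton_mem_nhds (w - w)
        have ht : Tendsto (fun y : ℂ => y - w) (𝓝 w) (𝓝 (w - w)) :=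
          (continuous_id.sub continuous_const).tendsto w
        have := (ht.eventually hs).filter_mono (nhdsWithin_le_nhds (s := {w}ᶜ))
        filter_upwards [this, self_mem_nhdsWithin] with y hy hy2 hmem
        apply hy
        refine ⟨hmem, ?_⟩
        intro h
        exact hy2 (sub_left_injective h)
      filter_upwards [i1.filter_mono nhdsWithin_le_nhds, i2, i3] with y h1 h2 h3
      exact hc y (contF y h1 h2 h3)
    have : Tendsto F (𝓝[≠] w) (𝓝 c) :=
      tendsto_const_nhds.congr' (hev.mono fun y hy => hy.symm)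
    exact tendsto_nhds_unique this hlim
  have hfin := hc z (contF z hz h₁ h₂)
  rw [hc0] at hfin
  simp only [hF] at hfin
  linear_combination hfin

end LT
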