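import Pool.Agent.Lib_MP_f1937f_nt.CDefs

/-!
# MP_f1937f_nt: second derivative and behaviour at 0 of `℘` (piece CZERO)
-/

namespace LT

open Polynomial WeierstrassCurve PeriodPair Filter Topology

private theorem compl_preconn (Λ : PeriodPair) : IsPreconnected ((Λ.lattice : Set ℂ)ᶜ) := by
  have hc : (Λ.lattice : Set ℂ).Countable := by
    have : Countable Λ.lattice := by
      have e := Λ.latticeEquivProd
      exact e.toEquiv.countable_iff.2 inferInstance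
    exact Set.countable_coe_iff.1 this
  exact (hc.isConnected_compl_of_one_lt_rank
    (Complex.rank_real_complex ▸ Nat.one_lt_ofNat)).isPreconnected

/-- `℘` is not constant off the lattice: `℘'` does not vanish identically. -/
private theorem derivP_ne (Λ : PeriodPair) :
    ¬ ∀ z ∈ (Λ.lattice : Set ℂ)ᶜ, ℘'[Λ] z = 0 := by
  intro h
  have hopen : IsOpen ((Λ.lattice : Set ℂ)ᶜ) := Λ.isClosed_lattice.isOpen_compl
  obtain ⟨a, ha⟩ := hopen.exists_is_const_of_deriv_eq_zero (compl_preconn Λ)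
    (f := ℘[Λ]) (Λ.analyticOnNhd_weierstrassP.differentiableOn) (by
      intro z hz
      rw [deriv_weierstrassP]
      exact h z hz)
  have h1 : Tendsto ℘[Λ] (𝓝[≠] 0) (Bornology.cobounded ℂ) := by
    apply tendsto_cobounded_of_meromorphicOrderAt_neg
    rw [Λ.order_weierstrassP 0 (zero_mem _)]
    decide
  have h2 : ∀ᶠ z in 𝓝[≠] (0 : ℂ), ℘[Λ] z = a := by
    filter_upwards [self_mem_nhdsWithin,
      mem_nhdsWithin_of_mem_nhds (Λ.compl_lattice_sdiff_singleton_mem_nhds 0)] with w hw1 hw2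
    exact ha w (fun hw3 => hw2 ⟨hw3, hw1⟩)
  have h3 : Tendsto (fun _ : ℂ => a) (𝓝[≠] (0 : ℂ)) (Bornology.cobounded ℂ) :=
    h1.congr' h2
  have h4 := tendsto_norm_cobounded_atTop.comp h3
  exact not_tendsto_const_atTop _ _ h4

/-- The second derivative of `℘`. -/
theorem wp_deriv2 (Λ : PeriodPair) (z : ℂ) (hz : z ∉ Λ.lattice) :
    HasDerivAt ℘'[Λ] (6 * ℘[Λ] z ^ 2 - Λ.g₂ / 2) z := by
  have hopen : IsOpen ((Λ.lattice : Set ℂ)ᶜ) := Λ.isClosed_lattice.isOpen_compl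
  have hP : AnalyticOnNhd ℂ ℘[Λ] (Λ.lattice : Set ℂ)ᶜ := Λ.analyticOnNhd_weierstrassP
  have hP' : AnalyticOnNhd ℂ ℘'[Λ] (Λ.lattice : Set ℂ)ᶜ := Λ.analyticOnNhd_derivWeierstrassP
  have hD : AnalyticOnNhd ℂ (fun w => 2 * deriv ℘'[Λ] w - 12 * ℘[Λ] w ^ 2 + Λ.g₂)
      (Λ.lattice : Set ℂ)ᶜ := by
    intro w hw
    have h1 := hP'.deriv w hw
    have h2 := hP w hw
    exact ((analyticAt_const.mul h1).sub (analyticAt_const.mul (h2.pow 2))).add analyticAt_const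
  have hmul : ∀ w ∈ (Λ.lattice : Set ℂ)ᶜ,
      ℘'[Λ] w * (2 * deriv ℘'[Λ] w - 12 * ℘[Λ] w ^ 2 + Λ.g₂) = 0 := by
    intro w hw
    have h1 : HasDerivAt ℘[Λ] (℘'[Λ] w) w := by
      have := (hP w hw).differentiableAt.hasDerivAt
      rwa [deriv_weierstrassP] at this
    have h2 : HasDerivAt ℘'[Λ] (deriv ℘'[Λ] w) w := (hP' w hw).differentiableAt.hasDerivAt
    have h3 : HasDerivAt (fun u => ℘'[Λ] u ^ 2) (2 * ℘'[Λ] w * deriv ℘'[Λ] w) w := by
      refine (h2.pow 2).congr_deriv ?_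
      norm_num
    have h4 : HasDerivAt (fun u => 4 * ℘[Λ] u ^ 3 - Λ.g₂ * ℘[Λ] u - Λ.g₃)
        (4 * (3 * ℘[Λ] w ^ 2 * ℘'[Λ] w) - Λ.g₂ * ℘'[Λ] w) w := by
      refine ((((h1.pow 3).const_mul 4).sub (h1.const_mul Λ.g₂)).sub_const Λ.g₃).congr_deriv ?_
      norm_num
    have h5 : (fun u => ℘'[Λ] u ^ 2) =ᶠ[𝓝 w] fun u => 4 * ℘[Λ] u ^ 3 - Λ.g₂ * ℘[Λ] u - Λ.g₃ := by
      filter_upwards [hopen.mem_nhds hw] with u hu
      exact Λ.derivWeierstrassP_sq u hu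
    have h6 := h3.unique (h4.congr_of_eventuallyEq h5)
    linear_combination h6
  rcases hP'.eq_zero_or_eq_zero_of_mul_eq_zero hD hmul (compl_preconn Λ) with h | h
  · exact absurd h (derivP_ne Λ)
  · have h1 := h z hz
    have h2 : HasDerivAt ℘'[Λ] (deriv ℘'[Λ] z) z := (hP' z hz).differentiableAt.hasDerivAt
    refine h2.congr_deriv ?_
    linear_combination h1 / 2

/-- `℘(z) - 1/z²` tends to `0` at `0`, and `(℘(z) - 1/z²)/z²` to `g₂/20`. -/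
theorem wp_zero (Λ : PeriodPair) :
    Tendsto (fun z => ℘[Λ] z - 1 / z ^ 2) (𝓝[≠] 0) (𝓝 0) ∧
      Tendsto (fun z => (℘[Λ] z - 1 / z ^ 2) / z ^ 2) (𝓝[≠] 0) (𝓝 (Λ.g₂ / 20)) ∧
      Tendsto (fun z => (℘[Λ] z - 1 / z ^ 2 - Λ.g₂ / 20 * z ^ 2) / z ^ 4) (𝓝[≠] 0)
        (𝓝 (Λ.g₃ / 28)) := by
  have hfun : ∀ z, ℘[Λ] z - 1 / z ^ 2 = ℘[Λ - (0 : ℂ)] z := by
    intro z
    have := Λ.weierstrassPExcept_add ⟨0, zero_mem _⟩ z
    simp only [sub_zero] at this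
    rw [← this]
    ring
  have hO := (Λ.hasFPowerSeriesAt_weierstrassPExcept 0).isBigO_sub_partialSum_pow 5
  have hpart : ∀ y : ℂ, (FormalMultilinearSeries.ofScalars (𝕜 := ℂ) ℂ fun i : ℕ ↦
      if i = 0 then ℘[Λ - (0 : ℂ)] 0 else (i + 1) * Λ.sumInvPow 0 (i + 2)).partialSum 5 y
      = Λ.g₂ / 20 * y ^ 2 + Λ.g₃ / 28 * y ^ 4 := by
    intro y
    simp only [FormalMultilinearSeries.partialSum, FormalMultilinearSeries.ofScalars_apply_eq,
      Finset.sum_range_succ, Finset.sum_range_zero, sumInvPow_zero, smul_eq_mul]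
    have h3 : Λ.G 3 = 0 := Λ.G_eq_zero_of_odd 3 (by decide)
    have h5 : Λ.G 5 = 0 := Λ.G_eq_zero_of_odd 5 (by decide)
    simp only [PeriodPair.g₂, PeriodPair.g₃]
    norm_num [h3, h5]
    ring
  have hlim3 : Tendsto (fun z => (℘[Λ] z - 1 / z ^ 2 - Λ.g₂ / 20 * z ^ 2) / z ^ 4) (𝓝[≠] 0)
        (𝓝 (Λ.g₃ / 28)) := by
    have h1 : (fun z : ℂ => (℘[Λ] z - 1 / z ^ 2 - Λ.g₂ / 20 * z ^ 2) / z ^ 4 - Λ.g₃ / 28)
        =O[𝓝[≠] 0] fun z => z := by
      obtain ⟨C, hC⟩ := hO.bound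
      refine Asymptotics.IsBigO.of_bound C ?_
      filter_upwards [self_mem_nhdsWithin, mem_nhdsWithin_of_mem_nhds hC] with z hz1 hz2
      have hz0 : z ≠ 0 := hz1
      rw [hpart z, zero_add] at hz2
      have h2 : (℘[Λ] z - 1 / z ^ 2 - Λ.g₂ / 20 * z ^ 2) / z ^ 4 - Λ.g₃ / 28 =
          (℘[Λ - (0 : ℂ)] z - (Λ.g₂ / 20 * z ^ 2 + Λ.g₃ / 28 * z ^ 4)) / z ^ 4 := by
        rw [hfun z]
        field_simp
        ring
      rw [h2, norm_div, norm_pow]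
      have hzpos : 0 < ‖z‖ := norm_pos_iff.2 hz0
      rw [div_le_iff₀ (pow_pos hzpos 4)]
      refine hz2.trans (le_of_eq ?_)
      rw [norm_pow, norm_norm]
      ring
    have h2 : Tendsto (fun z : ℂ => z) (𝓝[≠] 0) (𝓝 0) := tendsto_id.mono_left nhdsWithin_le_nhds
    have h3 := h1.trans_tendsto h2
    have h4 := h3.add_const (Λ.g₃ / 28)
    rw [zero_add] at h4
    refine h4.congr fun z => ?_
    ring
  have hlim2 : Tendsto (fun z => (℘[Λ] z - 1 / z ^ 2) / z ^ 2) (𝓝[≠] 0) (𝓝 (Λ.g₂ / 20)) := by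
    have h2 : Tendsto (fun z : ℂ => z ^ 2) (𝓝[≠] 0) (𝓝 0) := by
      have : Tendsto (fun z : ℂ => z ^ 2) (𝓝 0) (𝓝 (0 ^ 2)) := (continuous_pow 2).tendsto 0
      rw [zero_pow two_ne_zero] at this
      exact this.mono_left nhdsWithin_le_nhds
    have h3 := (hlim3.mul h2).add_const (Λ.g₂ / 20)
    rw [mul_zero, zero_add] at h3
    refine h3.congr' ?_
    filter_upwards [self_mem_nhdsWithin] with z hz
    have hz0 : z ≠ 0 := hz
    field_simp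
    ring
  refine ⟨?_, hlim2, hlim3⟩
  have h2 : Tendsto (fun z : ℂ => z ^ 2) (𝓝[≠] 0) (𝓝 0) := by
    have : Tendsto (fun z : ℂ => z ^ 2) (𝓝 0) (𝓝 (0 ^ 2)) := (continuous_pow 2).tendsto 0
    rw [zero_pow two_ne_zero] at this
    exact this.mono_left nhdsWithin_le_nhds
  have h3 := hlim2.mul h2
  rw [mul_zero] at h3
  refine h3.congr' ?_
  filter_upwards [self_mem_nhdsWithin] with z hz
  have hz0 : z ≠ 0 := hz
  field_simp

end LT
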