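import Pool.Agent.Lib_MP_f1937f_nt.CLiou
import Pool.Agent.Lib_MP_f1937f_nt.CZero

/-!
# MP_f1937f_nt: the difference formula for `℘` (piece CADDD)
-/

namespace LT

open Polynomial WeierstrassCurve PeriodPair Filter Topology

namespace CAddD

/-- The elliptic function which the theorem asserts to vanish. -/
noncomputable def F (Λ : PeriodPair) (w z : ℂ) : ℂ :=
  (℘[Λ] (z + w) - ℘[Λ] (z - w)) * (℘[Λ] z - ℘[Λ] w) ^ 2 + ℘'[Λ] z * ℘'[Λ] w

lemma per_P (Λ : PeriodPair) (z : ℂ) {l : ℂ} (hl : l ∈ Λ.lattice) : ℘[Λ] (z + l) = ℘[Λ] z :=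
  Λ.weierstrassP_add_coe z ⟨l, hl⟩

lemma per_P' (Λ : PeriodPair) (z : ℂ) {l : ℂ} (hl : l ∈ Λ.lattice) : ℘'[Λ] (z + l) = ℘'[Λ] z :=
  Λ.derivWeierstrassP_add_coe z ⟨l, hl⟩

lemma F_per (Λ : PeriodPair) (w z : ℂ) {l : ℂ} (hl : l ∈ Λ.lattice) : F Λ w (z + l) = F Λ w z := by
  unfold F
  rw [per_P Λ z hl, per_P' Λ z hl, show z + l + w = z + w + l by ring,
    show z + l - w = z - w + l by ring, per_P Λ _ hl, per_P Λ _ hl]

lemma F_neg (Λ : PeriodPair) (w z : ℂ) : F Λ w (-z) = - F Λ w z := by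
  unfold F
  rw [Λ.weierstrassP_neg, Λ.derivWeierstrassP_neg, show -z + w = -(z - w) by ring,
    show -z - w = -(z + w) by ring, Λ.weierstrassP_neg, Λ.weierstrassP_neg]
  ring

lemma mero (Λ : PeriodPair) (w : ℂ) : Meromorphic (F Λ w) := by
  intro x
  unfold F
  have h1 : MeromorphicAt (fun z => ℘[Λ] (z + w)) x :=
    (Λ.meromorphic_weierstrassP (x + w)).comp_analyticAt (f := ℘[Λ]) (g := fun z => z + w)
      (by fun_prop)
  have h2 : MeromorphicAt (fun z => ℘[Λ] (z - w)) x :=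
    (Λ.meromorphic_weierstrassP (x - w)).comp_analyticAt (f := ℘[Λ]) (g := fun z => z - w)
      (by fun_prop)
  have h3 := Λ.meromorphic_weierstrassP x
  have h4 := Λ.meromorphic_derivWeierstrassP x
  fun_prop

lemma nbhd (Λ : PeriodPair) {z : ℂ} (hz : z ∉ Λ.lattice) : ∀ᶠ y in 𝓝 z, y ∉ Λ.lattice :=
  Λ.isClosed_lattice.isOpen_compl.mem_nhds hz

lemma contP (Λ : PeriodPair) {z : ℂ} (hz : z ∉ Λ.lattice) : ContinuousAt ℘[Λ] z :=
  (Λ.analyticOnNhd_weierstrassP z hz).continuousAt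

lemma contP' (Λ : PeriodPair) {z : ℂ} (hz : z ∉ Λ.lattice) : ContinuousAt ℘'[Λ] z :=
  (Λ.analyticOnNhd_derivWeierstrassP z hz).continuousAt

lemma hasDeriv (Λ : PeriodPair) {z : ℂ} (hz : z ∉ Λ.lattice) :
    HasDerivAt ℘[Λ] (℘'[Λ] z) z := by
  have := (Λ.analyticOnNhd_weierstrassP z hz).differentiableAt.hasDerivAt
  rwa [Λ.deriv_weierstrassP] at this

lemma F_cont (Λ : PeriodPair) {w z : ℂ} (hz : z ∉ Λ.lattice) (h₁ : z + w ∉ Λ.lattice)
    (h₂ : z - w ∉ Λ.lattice) : ContinuousAt (F Λ w) z := by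
  unfold F
  have h1 : ContinuousAt (fun z => ℘[Λ] (z + w)) z :=
    ContinuousAt.comp (f := fun z => z + w) (g := ℘[Λ]) (contP Λ h₁) (by fun_prop)
  have h2 : ContinuousAt (fun z => ℘[Λ] (z - w)) z :=
    ContinuousAt.comp (f := fun z => z - w) (g := ℘[Λ]) (contP Λ h₂) (by fun_prop)
  have h3 := contP Λ hz
  have h4 := contP' Λ hz
  fun_prop

lemma iter2 (Λ : PeriodPair) : iteratedDeriv 2 ℘[Λ] = deriv ℘'[Λ] := by
  rw [iteratedDeriv_succ, iteratedDeriv_one, Λ.deriv_weierstrassP]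

lemma iter3 (Λ : PeriodPair) {w : ℂ} (hw : w ∉ Λ.lattice) :
    iteratedDeriv 3 ℘[Λ] w = 12 * ℘[Λ] w * ℘'[Λ] w := by
  rw [iteratedDeriv_succ, iter2]
  have h : deriv ℘'[Λ] =ᶠ[𝓝 w] fun z => 6 * ℘[Λ] z ^ 2 - Λ.g₂ / 2 := by
    filter_upwards [nbhd Λ hw] with y hy
    exact (wp_deriv2 Λ y hy).deriv
  rw [h.deriv_eq]
  have h2 := (((hasDeriv Λ hw).pow 2).const_mul 6).sub_const (Λ.g₂ / 2)
  have h3 : HasDerivAt (fun z => 6 * ℘[Λ] z ^ 2 - Λ.g₂ / 2) (12 * ℘[Λ] w * ℘'[Λ] w) w := by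
    refine HasDerivAt.congr_deriv h2 ?_
    push_cast
    ring
  exact h3.deriv

/-- Taylor expansion of `℘(w+y) - ℘(w-y)`. -/
lemma taylor (Λ : PeriodPair) {w : ℂ} (hw : w ∉ Λ.lattice) :
    (fun y : ℂ => ℘[Λ] (w + y) - ℘[Λ] (w - y) - 2 * ℘'[Λ] w * y
      - 4 * ℘[Λ] w * ℘'[Λ] w * y ^ 3) =O[𝓝 0] (fun y : ℂ => ‖y‖ ^ 5) := by
  have ha := (Λ.analyticOnNhd_weierstrassP w hw).hasFPowerSeriesAt
  have h1 := ha.isBigO_sub_partialSum_pow 5
  have hneg : Tendsto (fun y : ℂ => -y) (𝓝 0) (𝓝 0) := by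
    simpa using (continuous_neg (G := ℂ)).tendsto 0
  have h2 := h1.comp_tendsto hneg
  have h3 : (fun y : ℂ => ‖y‖ ^ 5) ∘ (fun y : ℂ => -y) = fun y : ℂ => ‖y‖ ^ 5 := by
    funext y; simp
  rw [h3] at h2
  refine (h1.sub h2).congr_left ?_
  intro y
  simp only [Function.comp, FormalMultilinearSeries.partialSum, Finset.sum_range_succ,
    Finset.sum_range_zero, FormalMultilinearSeries.ofScalars_apply_eq, iter3 Λ hw,
    iteratedDeriv_one, Λ.deriv_weierstrassP, smul_eq_mul, Nat.factorial, sub_eq_add_neg w y]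
  push_cast
  ring

/-- `F` tends to `0` at `0`. -/
lemma lim0 (Λ : PeriodPair) {w : ℂ} (hw : w ∉ Λ.lattice) :
    Tendsto (F Λ w) (𝓝[≠] 0) (𝓝 0) := by
  set a := ℘'[Λ] w with ha
  set b := ℘[Λ] w with hb
  set R : ℂ → ℂ := fun y => ℘[Λ] (w + y) - ℘[Λ] (w - y) - 2 * a * y - 4 * b * a * y ^ 3 with hR
  set h : ℂ → ℂ := fun y => ℘[Λ] y - 1 / y ^ 2 with hh
  set h' : ℂ → ℂ := fun y => ℘'[Λ] y + 2 / y ^ 3 with hh'
  have hz : Tendsto (fun y : ℂ => y) (𝓝[≠] 0) (𝓝 0) := tendsto_id.mono_left nhdsWithin_le_nhds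
  have h0 : Tendsto h (𝓝[≠] 0) (𝓝 0) := (wp_zero Λ).1
  have h1 : Tendsto (fun y => h y / y) (𝓝[≠] 0) (𝓝 0) := by
    have := (wp_zero Λ).2.1.mul hz
    rw [mul_zero] at this
    refine this.congr' ?_
    filter_upwards [self_mem_nhdsWithin] with y hy
    have hy' : y ≠ 0 := hy
    simp only [hh]
    field_simp
  have h2 : Tendsto h' (𝓝[≠] 0) (𝓝 0) := by
    have e : ∀ y, ℘'[Λ - (0 : ℂ)] y = h' y := by
      intro y
      have := Λ.derivWeierstrassPExcept_def 0 y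
      simpa [hh'] using this
    have c : ContinuousAt ℘'[Λ - (0 : ℂ)] 0 := (Λ.analyticAt_derivWeierstrassPExcept 0).continuousAt
    have c2 := c.tendsto.mono_left (nhdsWithin_le_nhds (s := {0}ᶜ))
    have e0 : ℘'[Λ - (0 : ℂ)] 0 = 0 := by
      rw [e]; simp [hh']
    rw [e0] at c2
    exact c2.congr e
  have hR4 : Tendsto (fun y => R y / y ^ 4) (𝓝[≠] 0) (𝓝 0) := by
    have t := taylor Λ hw
    have t2 : (fun y : ℂ => R y / y ^ 4) =O[𝓝[≠] 0] (fun y : ℂ => y) := by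
      obtain ⟨C, hC⟩ := t.bound
      refine Asymptotics.IsBigO.of_bound C ?_
      filter_upwards [mem_nhdsWithin_of_mem_nhds hC, self_mem_nhdsWithin] with y hy hy0
      have hy' : y ≠ 0 := hy0
      have hn : 0 < ‖y‖ := norm_pos_iff.mpr hy'
      rw [norm_div, norm_pow, div_le_iff₀ (by positivity)]
      have : ‖(‖y‖ ^ 5 : ℝ)‖ = ‖y‖ ^ 5 := by rw [norm_pow, norm_norm]
      rw [this] at hy
      calc ‖R y‖ ≤ C * ‖y‖ ^ 5 := hy
        _ = C * ‖y‖ * ‖y‖ ^ 4 := by ring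
    exact t2.trans_tendsto hz
  have key : Tendsto (fun y => 4 * a * (h y / y) + 2 * a * y * (h y - b) ^ 2
      + 8 * a * b * (h y - b) * y + 4 * a * b * y ^ 3 * (h y - b) ^ 2
      + R y / y ^ 4 + 2 * (R y / y ^ 4) * y ^ 2 * (h y - b) + (R y / y ^ 4) * y ^ 4 * (h y - b) ^ 2
      + a * h' y) (𝓝[≠] 0) (𝓝 (4 * a * 0 + 2 * a * 0 * (0 - b) ^ 2
      + 8 * a * b * (0 - b) * 0 + 4 * a * b * 0 ^ 3 * (0 - b) ^ 2
      + 0 + 2 * 0 * 0 ^ 2 * (0 - b) + 0 * 0 ^ 4 * (0 - b) ^ 2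
      + a * 0)) := by
    have hb' := h0.sub_const b
    exact (((((((h1.const_mul _).add ((hz.const_mul _).mul (hb'.pow 2))).add
      ((hb'.const_mul _).mul hz)).add (((hz.pow 3).const_mul _).mul (hb'.pow 2))).add hR4).add
      (((hR4.const_mul 2).mul (hz.pow 2)).mul hb')).add ((hR4.mul (hz.pow 4)).mul (hb'.pow 2))).add
      (h2.const_mul a)
  have e : 4 * a * 0 + 2 * a * 0 * (0 - b) ^ 2
      + 8 * a * b * (0 - b) * 0 + 4 * a * b * 0 ^ 3 * (0 - b) ^ 2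
      + 0 + 2 * 0 * 0 ^ 2 * (0 - b) + 0 * 0 ^ 4 * (0 - b) ^ 2
      + a * 0 = 0 := by ring
  rw [e] at key
  refine key.congr' ?_
  filter_upwards [self_mem_nhdsWithin] with y hy
  have hy' : y ≠ 0 := hy
  have e1 : ℘[Λ] y = h y + 1 / y ^ 2 := by simp [hh]
  have e2 : ℘'[Λ] y = h' y - 2 / y ^ 3 := by simp [hh']
  have e3 : ℘[Λ] (y + w) - ℘[Λ] (y - w) = R y + 2 * a * y + 4 * b * a * y ^ 3 := by
    simp only [hR]
    rw [add_comm y w, show y - w = -(w - y) by ring, Λ.weierstrassP_neg]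
    ring
  unfold F
  rw [e1, e2, e3, ← ha, ← hb]
  field_simp
  ring

/-- `F` has a limit at points congruent to `w`. -/
lemma limw (Λ : PeriodPair) {w : ℂ} (hw : w ∉ Λ.lattice) (h2w : w + w ∉ Λ.lattice) :
    Tendsto (F Λ w) (𝓝[≠] w) (𝓝 0) := by
  have hz : Tendsto (fun y : ℂ => y - w) (𝓝[≠] w) (𝓝[≠] 0) := by
    refine tendsto_nhdsWithin_iff.mpr ⟨?_, ?_⟩
    · have : Tendsto (fun y : ℂ => y - w) (𝓝 w) (𝓝 (w - w)) := by
        exact (continuous_id.sub continuous_const).tendsto w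
      rw [sub_self] at this
      exact this.mono_left nhdsWithin_le_nhds
    · filter_upwards [self_mem_nhdsWithin] with y hy
      exact sub_ne_zero.mpr hy
  have hz0 : Tendsto (fun y : ℂ => y - w) (𝓝[≠] w) (𝓝 0) := hz.mono_right nhdsWithin_le_nhds
  have h0 : Tendsto (fun y => ℘[Λ] (y - w) - 1 / (y - w) ^ 2) (𝓝[≠] w) (𝓝 0) :=
    (wp_zero Λ).1.comp hz
  have hs : Tendsto (fun y => (℘[Λ] y - ℘[Λ] w) / (y - w)) (𝓝[≠] w) (𝓝 (℘'[Λ] w)) := by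
    have := (hasDeriv Λ hw).tendsto_slope
    refine this.congr ?_
    intro y
    rw [slope_def_field]
  have hP : Tendsto (fun y => ℘[Λ] y - ℘[Λ] w) (𝓝[≠] w) (𝓝 0) := by
    have := ((contP Λ hw).tendsto.mono_left (nhdsWithin_le_nhds (s := {w}ᶜ))).sub_const (℘[Λ] w)
    rwa [sub_self] at this
  have hP' : Tendsto ℘'[Λ] (𝓝[≠] w) (𝓝 (℘'[Λ] w)) :=
    (contP' Λ hw).tendsto.mono_left (nhdsWithin_le_nhds (s := {w}ᶜ))
  have hQ : Tendsto (fun y => ℘[Λ] (y + w)) (𝓝[≠] w) (𝓝 (℘[Λ] (w + w))) := by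
    have : ContinuousAt (fun z => ℘[Λ] (z + w)) w :=
      ContinuousAt.comp (f := fun z => z + w) (g := ℘[Λ]) (contP Λ h2w) (by fun_prop)
    exact this.tendsto.mono_left (nhdsWithin_le_nhds (s := {w}ᶜ))
  have key : Tendsto (fun y => ℘[Λ] (y + w) * (℘[Λ] y - ℘[Λ] w) ^ 2
      - (℘[Λ] (y - w) - 1 / (y - w) ^ 2) * (℘[Λ] y - ℘[Λ] w) ^ 2
      - ((℘[Λ] y - ℘[Λ] w) / (y - w)) ^ 2 + ℘'[Λ] y * ℘'[Λ] w) (𝓝[≠] w)
      (𝓝 (℘[Λ] (w + w) * 0 ^ 2 - 0 * 0 ^ 2 - (℘'[Λ] w) ^ 2 + ℘'[Λ] w * ℘'[Λ] w)) :=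
    (((hQ.mul (hP.pow 2)).sub (h0.mul (hP.pow 2))).sub (hs.pow 2)).add (hP'.mul_const _)
  rw [show ℘[Λ] (w + w) * 0 ^ 2 - 0 * 0 ^ 2 - (℘'[Λ] w) ^ 2 + ℘'[Λ] w * ℘'[Λ] w = 0 by ring] at key
  refine key.congr' ?_
  filter_upwards [self_mem_nhdsWithin] with y hy
  have hy' : y - w ≠ 0 := sub_ne_zero.mpr hy
  unfold F
  field_simp
  ring

/-- Translation of a limit. -/
lemma shift (Λ : PeriodPair) (w : ℂ) {z x c : ℂ} (h : Tendsto (F Λ w) (𝓝[≠] x) (𝓝 c))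
    (hl : z - x ∈ Λ.lattice) : Tendsto (F Λ w) (𝓝[≠] z) (𝓝 c) := by
  have hz : Tendsto (fun y : ℂ => y - (z - x)) (𝓝[≠] z) (𝓝[≠] x) := by
    refine tendsto_nhdsWithin_iff.mpr ⟨?_, ?_⟩
    · have : Tendsto (fun y : ℂ => y - (z - x)) (𝓝 z) (𝓝 (z - (z - x))) := by
        exact (continuous_id.sub continuous_const).tendsto z
      rw [sub_sub_cancel] at this
      exact this.mono_left nhdsWithin_le_nhds
    · filter_upwards [self_mem_nhdsWithin] with y hy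
      intro h
      apply hy
      have : y - (z - x) = x := h
      show y = z
      linear_combination this
  refine (h.comp hz).congr ?_
  intro y
  show F Λ w (y - (z - x)) = F Λ w y
  rw [← F_per Λ w (y - (z - x)) hl]
  congr 1
  ring

lemma reflect (Λ : PeriodPair) (w : ℂ) {x c : ℂ} (h : Tendsto (F Λ w) (𝓝[≠] x) (𝓝 c)) :
    Tendsto (F Λ w) (𝓝[≠] (-x)) (𝓝 (-c)) := by
  have hz : Tendsto (fun y : ℂ => -y) (𝓝[≠] (-x)) (𝓝[≠] x) := by
    refine tendsto_nhdsWithin_iff.mpr ⟨?_, ?_⟩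
    · have : Tendsto (fun y : ℂ => -y) (𝓝 (-x)) (𝓝 (-(-x))) := by
        exact continuous_neg.tendsto (-x)
      rw [neg_neg] at this
      exact this.mono_left nhdsWithin_le_nhds
    · filter_upwards [self_mem_nhdsWithin] with y hy
      intro h
      apply hy
      have : -y = x := h
      show y = -x
      linear_combination -this
  refine (h.comp hz).neg.congr ?_
  intro y
  show -(F Λ w (-y)) = F Λ w y
  rw [F_neg, neg_neg]

end CAddD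

theorem wp_diff (Λ : PeriodPair) {z w : ℂ} (hz : z ∉ Λ.lattice) (hw : w ∉ Λ.lattice)
    (h₁ : z + w ∉ Λ.lattice) (h₂ : z - w ∉ Λ.lattice) :
    (℘[Λ] (z + w) - ℘[Λ] (z - w)) * (℘[Λ] z - ℘[Λ] w) ^ 2 = -(℘'[Λ] z * ℘'[Λ] w) := by
  by_cases h2w : w + w ∈ Λ.lattice
  · have e1 : ℘[Λ] (z + w) = ℘[Λ] (z - w) := by
      rw [show z + w = z - w + (w + w) by ring, CAddD.per_P Λ _ h2w]
    have e2 : ℘'[Λ] w = 0 := by
      have : ℘'[Λ] w = ℘'[Λ] (-w) := by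
        rw [← CAddD.per_P' Λ (-w) h2w]
        congr 1
        ring
      rw [Λ.derivWeierstrassP_neg] at this
      linear_combination (1 / 2 : ℂ) * this
    rw [e1, e2]
    ring
  · have hord : ∀ x : ℂ, 0 ≤ meromorphicOrderAt (CAddD.F Λ w) x := by
      intro x
      rw [← tendsto_nhds_iff_meromorphicOrderAt_nonneg (CAddD.mero Λ w x)]
      by_cases hx : x ∈ Λ.lattice
      · exact ⟨_, CAddD.shift Λ w (CAddD.lim0 Λ hw) (by simpa using hx)⟩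
      by_cases hx1 : x - w ∈ Λ.lattice
      · exact ⟨_, CAddD.shift Λ w (CAddD.limw Λ hw h2w) hx1⟩
      by_cases hx2 : x + w ∈ Λ.lattice
      · exact ⟨_, CAddD.shift Λ w (CAddD.reflect Λ w (CAddD.limw Λ hw h2w)) (by simpa using hx2)⟩
      exact ⟨_, (CAddD.F_cont Λ hx hx2 hx1).tendsto.mono_left nhdsWithin_le_nhds⟩
    obtain ⟨c, hc⟩ := liou Λ (CAddD.F Λ w) (CAddD.mero Λ w)
      (fun z l hl => CAddD.F_per Λ w z hl) hord
    have c1 := hc z (CAddD.F_cont Λ hz h₁ h₂)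
    have c2 := hc (-z) (CAddD.F_cont Λ (by simpa using hz)
      (by rw [show -z + w = -(z - w) by ring]; exact fun h => h₂ (by simpa only [neg_neg] using neg_mem h))
      (by rw [show -z - w = -(z + w) by ring]; exact fun h => h₁ (by simpa only [neg_neg] using neg_mem h)))
    rw [CAddD.F_neg, c1] at c2
    have c0 : c = 0 := by linear_combination -(1 / 2 : ℂ) * c2
    rw [c0] at c1
    unfold CAddD.F at c1
    linear_combination c1

end LT
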