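import Pool.Agent.Lib_MP_f1937f_nt.Basics

/-!
# MP_f1937f_nt: complex uniformisation: definitions
-/

namespace LT

open Polynomial WeierstrassCurve PeriodPair

/-- `θ` is the uniformisation `ℂ → E(ℂ)` by the Weierstrass functions of `Λ`. -/
def IsTh (Λ : PeriodPair) {a b : ℂ} (θ : ℂ →+ Pt a b) : Prop :=
  (∀ z ∈ Λ.lattice, θ z = 0) ∧
    ∀ z : ℂ, z ∉ Λ.lattice → ∃ h, θ z = .some (℘[Λ] z) (℘'[Λ] z / 2) h

/-- The finite set `R` represents the nonzero classes of `Λ'` modulo `Λ`. -/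
def IsReps (Λ Λ' : PeriodPair) (R : Finset ℂ) : Prop :=
  (∀ w ∈ R, w ∈ Λ'.lattice ∧ w ∉ Λ.lattice) ∧
    (∀ z ∈ Λ'.lattice, z ∉ Λ.lattice → ∃ w ∈ R, z - w ∈ Λ.lattice) ∧
    ∀ w ∈ R, ∀ w' ∈ R, w - w' ∈ Λ.lattice → w = w'

/-- Centred rectangular lattice: all `(α u + i β v) / 2` with `u + v` even. -/
def CL (α β : ℝ) : Set ℂ :=
  {z | ∃ u v : ℤ, Even (u + v) ∧ z = ((α * u : ℝ) + (β * v : ℝ) * Complex.I) / 2}

/-- Rectangular lattice: all `α u + i β v`. -/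
def RR (α β : ℝ) : Set ℂ :=
  {z | ∃ u v : ℤ, z = (α * u : ℝ) + (β * v : ℝ) * Complex.I}

/-- `VeluOK a b L`: the quotient by `L` is given by Velu's formulas. -/
def VeluOK {k : Type} [Field k] [DecidableEq k] (a b : k) (L : AddSubgroup (Pt a b)) : Prop :=
  dsc (vA a b L) (vB a b L) ≠ 0 ∧
    ∃ (ψ : MM a b (vA a b L) (vB a b L)) (Ψ : Pt a b →+ Pt (vA a b L) (vB a b L)),
      ψ ≠ .zero ∧ uu ψ = vU a b L ∧ HasC ψ 1 ∧ InO ψ ∧ Compat ψ Ψ ∧ Ψ.ker = L ∧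
        Function.Surjective Ψ

end LT
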