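import Pool.Agent.Lib_MP_f1937f_nt.CAdd

/-!
# MP_f1937f_nt: `℘` takes each value twice (piece CINJ)
-/

namespace LT

open Polynomial WeierstrassCurve PeriodPair Filter Topology

theorem cinj_tendsto_cob (Λ : PeriodPair) {l : ℂ} (hl : l ∈ Λ.lattice) :
    Tendsto (℘[Λ] : ℂ → ℂ) (𝓝[≠] l) (Bornology.cobounded ℂ) := by
  apply tendsto_cobounded_of_meromorphicOrderAt_neg
  rw [Λ.order_weierstrassP l hl]
  decide

theorem cinj_ne_const (Λ : PeriodPair) (c x : ℂ) (_hx : x ∉ Λ.lattice) :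
    ∀ᶠ u in 𝓝[≠] x, ℘[Λ] u ≠ c := by
  have hm : MeromorphicOn (fun z => ℘[Λ] z - c) Set.univ := by
    intro z _
    exact (Λ.meromorphic_weierstrassP z).sub (MeromorphicAt.const c z)
  have h0 : meromorphicOrderAt (fun z => ℘[Λ] z - c) 0 ≠ ⊤ := by
    intro h
    rw [meromorphicOrderAt_eq_top_iff] at h
    have h1 := cinj_tendsto_cob Λ (Λ.lattice.zero_mem)
    have h2 : Tendsto (℘[Λ] : ℂ → ℂ) (𝓝[≠] 0) (𝓝 c) := by
      refine (tendsto_const_nhds (x := c)).congr' ?_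
      filter_upwards [h] with z hz
      have := sub_eq_zero.1 hz
      exact this.symm
    have h3 := h2.norm
    have h4 := tendsto_norm_atTop_iff_cobounded.2 h1
    exact not_tendsto_nhds_of_tendsto_atTop h4 _ h3
  have h1 := hm.meromorphicOrderAt_ne_top_of_isPreconnected isPreconnected_univ
    (Set.mem_univ (0 : ℂ)) (Set.mem_univ x) h0
  have h2 := (meromorphicOrderAt_ne_top_iff_eventually_ne_zero (hm x (Set.mem_univ x))).1 h1
  filter_upwards [h2] with u hu h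
  exact hu (by rw [h, sub_self])

theorem cinj_cont (Λ : PeriodPair) {x : ℂ} (hx : x ∉ Λ.lattice) : ContinuousAt (℘[Λ] : ℂ → ℂ) x :=
  (Λ.analyticOnNhd_weierstrassP x hx).continuousAt

theorem cinj_ev_notMem (Λ : PeriodPair) {x : ℂ} (hx : x ∉ Λ.lattice) :
    ∀ᶠ u in 𝓝 x, u ∉ Λ.lattice :=
  Λ.isClosed_lattice.isOpen_compl.mem_nhds hx

theorem cinj_ev_notMem' (Λ : PeriodPair) (x : ℂ) :
    ∀ᶠ u in 𝓝[≠] x, u ∉ Λ.lattice := by
  have h := Λ.compl_lattice_sdiff_singleton_mem_nhds x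
  have h' : ((↑Λ.lattice \ {x})ᶜ : Set ℂ) ∈ 𝓝[≠] x := mem_nhdsWithin_of_mem_nhds h
  filter_upwards [h', self_mem_nhdsWithin] with u hu hux hul
  exact hu ⟨hul, hux⟩

theorem cinj_per (Λ : PeriodPair) {z w : ℂ} (h : z - w ∈ Λ.lattice) : ℘[Λ] z = ℘[Λ] w := by
  have := Λ.weierstrassP_add_coe w ⟨z - w, h⟩
  simpa using this

/-- `℘'(w) = 0` forces `2w ∈ Λ`. -/
theorem cinj_two_mem (Λ : PeriodPair) {w : ℂ} (hw : w ∉ Λ.lattice) (hd : ℘'[Λ] w = 0) :
    2 * w ∈ Λ.lattice := by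
  by_contra h2
  have hww : w + w ∉ Λ.lattice := by rwa [← two_mul]
  -- near `w`, `℘(u+w) = ℘(u-w)`
  have hev : ∀ᶠ u in 𝓝[≠] w, ℘[Λ] (u - w) = ℘[Λ] (u + w) := by
    have e1 : ∀ᶠ u in 𝓝[≠] w, u ∉ Λ.lattice := cinj_ev_notMem' Λ w
    have e2 : ∀ᶠ u in 𝓝[≠] w, u + w ∉ Λ.lattice := by
      have hc : ContinuousAt (fun u : ℂ => u + w) w := by fun_prop
      exact (hc.eventually (cinj_ev_notMem Λ hww)).filter_mono nhdsWithin_le_nhds
    have e3 : ∀ᶠ u in 𝓝[≠] w, u - w ∉ Λ.lattice := by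
      have ht : Tendsto (fun u : ℂ => u - w) (𝓝[≠] w) (𝓝[≠] 0) := by
        apply tendsto_nhdsWithin_of_tendsto_nhds_of_eventually_within
        · have hc : ContinuousAt (fun u : ℂ => u - w) w := by fun_prop
          have := hc.tendsto
          rw [sub_self] at this
          exact this.mono_left nhdsWithin_le_nhds
        · filter_upwards [self_mem_nhdsWithin] with u hu
          exact sub_ne_zero.2 hu
      exact ht.eventually (cinj_ev_notMem' Λ 0)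
    filter_upwards [e1, e2, e3, cinj_ne_const Λ (℘[Λ] w) w hw] with u h1 h2 h3 h4
    have h5 := wp_diff Λ h1 hw h2 h3
    rw [hd, mul_zero, neg_zero] at h5
    have h6 : (℘[Λ] u - ℘[Λ] w) ^ 2 ≠ 0 := pow_ne_zero _ (sub_ne_zero.2 h4)
    have h7 := (mul_eq_zero.1 h5).resolve_right h6
    exact (sub_eq_zero.1 h7).symm
  have t1 : Tendsto (fun u => ℘[Λ] (u + w)) (𝓝[≠] w) (𝓝 (℘[Λ] (w + w))) := by
    have hc : ContinuousAt (fun u : ℂ => ℘[Λ] (u + w)) w :=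
      ContinuousAt.comp (f := fun u : ℂ => u + w) (g := (℘[Λ] : ℂ → ℂ)) (x := w)
        (cinj_cont Λ hww) (by fun_prop)
    exact hc.tendsto.mono_left nhdsWithin_le_nhds
  have t2 : Tendsto (fun u => ℘[Λ] (u - w)) (𝓝[≠] w) (Bornology.cobounded ℂ) := by
    have ht : Tendsto (fun u : ℂ => u - w) (𝓝[≠] w) (𝓝[≠] 0) := by
      apply tendsto_nhdsWithin_of_tendsto_nhds_of_eventually_within
      · have hc : ContinuousAt (fun u : ℂ => u - w) w := by fun_prop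
        have := hc.tendsto
        rw [sub_self] at this
        exact this.mono_left nhdsWithin_le_nhds
      · filter_upwards [self_mem_nhdsWithin] with u hu
        exact sub_ne_zero.2 hu
    exact (cinj_tendsto_cob Λ Λ.lattice.zero_mem).comp ht
  have t3 := t2.congr' hev
  have h3 := t1.norm
  have h4 := tendsto_norm_atTop_iff_cobounded.2 t3
  exact not_tendsto_nhds_of_tendsto_atTop h4 _ h3

/-- In the case `℘ z = ℘ w`, `z ≠ ± w`, the derivative vanishes. -/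
theorem cinj_deriv (Λ : PeriodPair) {z w : ℂ} (hz : z ∉ Λ.lattice) (hw : w ∉ Λ.lattice)
    (h₁ : z + w ∉ Λ.lattice) (h₂ : z - w ∉ Λ.lattice) (h : ℘[Λ] z = ℘[Λ] w) :
    ℘'[Λ] w = 0 := by
  have h3 := wp_sum Λ hz hw h₁ h₂
  rw [h, sub_self, mul_zero, zero_add] at h3
  have h4 : ℘'[Λ] w ^ 2 = 0 := by
    rw [← h3]; ring
  exact pow_eq_zero_iff (two_ne_zero) |>.1 h4

theorem cinj_aux (Λ : PeriodPair) {z w : ℂ} (hz : z ∉ Λ.lattice) (hw : w ∉ Λ.lattice)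
    (h₁ : z + w ∉ Λ.lattice) (h₂ : z - w ∉ Λ.lattice) (h : ℘[Λ] z = ℘[Λ] w) : False := by
  have hd := cinj_deriv Λ hz hw h₁ h₂ h
  have h2w := cinj_two_mem Λ hw hd
  set e := ℘[Λ] w with he
  -- near `z` the sum formula reads `2 (℘(u+w) - e) (℘ u - e) = 6 e^2 - g₂/2`
  have e1 : ∀ᶠ u in 𝓝[≠] z, u ∉ Λ.lattice := cinj_ev_notMem' Λ z
  have e2 : ∀ᶠ u in 𝓝[≠] z, u + w ∉ Λ.lattice := by
    have hc : ContinuousAt (fun u : ℂ => u + w) z := by fun_prop
    exact (hc.eventually (cinj_ev_notMem Λ h₁)).filter_mono nhdsWithin_le_nhds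
  have e3 : ∀ᶠ u in 𝓝[≠] z, u - w ∉ Λ.lattice := by
    have hc : ContinuousAt (fun u : ℂ => u - w) z := by fun_prop
    exact (hc.eventually (cinj_ev_notMem Λ h₂)).filter_mono nhdsWithin_le_nhds
  have e4 := cinj_ne_const Λ e z hz
  have hev : ∀ᶠ u in 𝓝[≠] z,
      2 * (℘[Λ] (u + w) - e) * (℘[Λ] u - e) = 6 * e ^ 2 - Λ.g₂ / 2 := by
    filter_upwards [e1, e2, e3, e4] with u h1 h2 h3 h4
    have h5 := wp_sum Λ h1 hw h2 h3
    have h6 : ℘[Λ] (u - w) = ℘[Λ] (u + w) := by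
      symm
      apply cinj_per Λ
      have : u + w - (u - w) = 2 * w := by ring
      rw [this]; exact h2w
    rw [h6, hd] at h5
    have h7 : ℘[Λ] u - e ≠ 0 := sub_ne_zero.2 h4
    apply mul_right_cancel₀ h7
    linear_combination h5
  have tz : Tendsto (fun u => ℘[Λ] u) (𝓝[≠] z) (𝓝 e) := by
    have := (cinj_cont Λ hz).tendsto
    rw [h] at this
    exact this.mono_left nhdsWithin_le_nhds
  have tzw : Tendsto (fun u => ℘[Λ] (u + w)) (𝓝[≠] z) (𝓝 (℘[Λ] (z + w))) := by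
    have hc : ContinuousAt (fun u : ℂ => ℘[Λ] (u + w)) z :=
      ContinuousAt.comp (f := fun u : ℂ => u + w) (g := (℘[Λ] : ℂ → ℂ)) (x := z)
        (cinj_cont Λ h₁) (by fun_prop)
    exact hc.tendsto.mono_left nhdsWithin_le_nhds
  have t1 : Tendsto (fun u => 2 * (℘[Λ] (u + w) - e) * (℘[Λ] u - e)) (𝓝[≠] z)
      (𝓝 (2 * (℘[Λ] (z + w) - e) * (e - e))) :=
    ((tzw.sub_const e).const_mul 2).mul (tz.sub_const e)
  have t2 : Tendsto (fun _ : ℂ => 6 * e ^ 2 - Λ.g₂ / 2) (𝓝[≠] z)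
      (𝓝 (2 * (℘[Λ] (z + w) - e) * (e - e))) := t1.congr' hev
  have hk : 6 * e ^ 2 - Λ.g₂ / 2 = 0 := by
    have := tendsto_nhds_unique t2 tendsto_const_nhds
    rw [← this]; ring
  have e5 : ∀ᶠ u in 𝓝[≠] z, ℘[Λ] (u + w) = e := by
    filter_upwards [hev, e4] with u h1 h2
    rw [hk] at h1
    have h7 : ℘[Λ] u - e ≠ 0 := sub_ne_zero.2 h2
    have h8 := (mul_eq_zero.1 h1).resolve_right h7
    have h9 := (mul_eq_zero.1 h8).resolve_left two_ne_zero
    exact sub_eq_zero.1 h9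
  have e6 : ∀ᶠ u in 𝓝[≠] z, ℘[Λ] (u + w) ≠ e := by
    have ht : Tendsto (fun u : ℂ => u + w) (𝓝[≠] z) (𝓝[≠] (z + w)) := by
      apply tendsto_nhdsWithin_of_tendsto_nhds_of_eventually_within
      · have hc : ContinuousAt (fun u : ℂ => u + w) z := by fun_prop
        exact hc.tendsto.mono_left nhdsWithin_le_nhds
      · filter_upwards [self_mem_nhdsWithin] with u hu
        simpa using hu
    exact ht.eventually (cinj_ne_const Λ e (z + w) h₁)
  obtain ⟨u, hu1, hu2⟩ := (e5.and e6).exists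
  exact hu2 hu1

theorem wp_inj (Λ : PeriodPair) {z w : ℂ} (hz : z ∉ Λ.lattice) (hw : w ∉ Λ.lattice) :
    ℘[Λ] z = ℘[Λ] w ↔ z - w ∈ Λ.lattice ∨ z + w ∈ Λ.lattice := by
  constructor
  · intro h
    by_contra hcon
    rw [not_or] at hcon
    exact cinj_aux Λ hz hw hcon.2 hcon.1 h
  · rintro (h | h)
    · exact cinj_per Λ h
    · have h1 : ℘[Λ] z = ℘[Λ] (-w) := cinj_per Λ (by simpa using h)
      rw [h1, Λ.weierstrassP_neg]

theorem wp_deriv_zero (Λ : PeriodPair) {z : ℂ} (hz : z ∉ Λ.lattice) :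
    ℘'[Λ] z = 0 ↔ 2 * z ∈ Λ.lattice := by
  constructor
  · exact cinj_two_mem Λ hz
  · intro h
    have h1 := Λ.derivWeierstrassP_add_coe (-z) ⟨2 * z, h⟩
    rw [Λ.derivWeierstrassP_neg] at h1
    have h2 : -z + ((⟨2 * z, h⟩ : Λ.lattice) : ℂ) = z := by
      show -z + 2 * z = z
      ring
    rw [h2] at h1
    have h3 : (2 : ℂ) * ℘'[Λ] z = 0 := by linear_combination h1
    exact (mul_eq_zero.1 h3).resolve_left two_ne_zero

end LT
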