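import Pool.Agent.Lib_MP_f1937f_nt.CInj

/-!
# MP_f1937f_nt: surjectivity, discriminant (piece CINJB)
-/

namespace LT

open Polynomial WeierstrassCurve PeriodPair Filter Topology

theorem wp_surj (Λ : PeriodPair) (c : ℂ) : ∃ z : ℂ, z ∉ Λ.lattice ∧ ℘[Λ] z = c := by
  by_contra hcon
  push Not at hcon
  have hz₀ : Λ.ω₁ / 2 ∉ Λ.lattice := Λ.ω₁_div_two_notMem_lattice
  have key := liou_lim Λ (fun z => (℘[Λ] z - c)⁻¹) (c := 0) ?_ ?_ ?_ _ hz₀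
  · have h1 : ℘[Λ] (Λ.ω₁ / 2) - c ≠ 0 := sub_ne_zero.mpr (hcon _ hz₀)
    exact inv_ne_zero h1 key
  · have hd := (Λ.differentiableOn_weierstrassP).sub_const c
    intro z hz
    exact (hd z hz).inv (sub_ne_zero.mpr (hcon z hz))
  · intro z l hl
    have := Λ.weierstrassP_add_coe z ⟨l, hl⟩
    simp only at this ⊢
    rw [this]
  · have h1 : Tendsto (fun z : ℂ => z) (𝓝[≠] 0) (𝓝 0) := tendsto_nhdsWithin_of_tendsto_nhds tendsto_id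
    have h2 : Tendsto (fun z : ℂ => z ^ 2) (𝓝[≠] 0) (𝓝 0) := by
      simpa using h1.pow 2
    have h3 : Tendsto (fun z : ℂ => (℘[Λ] z - 1 / z ^ 2) - c) (𝓝[≠] 0) (𝓝 (0 - c)) :=
      (wp_zero Λ).1.sub_const c
    have h4 : Tendsto (fun z : ℂ => 1 + z ^ 2 * ((℘[Λ] z - 1 / z ^ 2) - c)) (𝓝[≠] 0) (𝓝 1) := by
      simpa using (h2.mul h3).const_add 1
    have h5 : Tendsto (fun z : ℂ => z ^ 2 / (1 + z ^ 2 * ((℘[Λ] z - 1 / z ^ 2) - c))) (𝓝[≠] 0)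
        (𝓝 0) := by
      have := h2.div h4 one_ne_zero
      rw [zero_div] at this
      exact this
    refine h5.congr' ?_
    filter_upwards [self_mem_nhdsWithin] with z hz
    have hz' : z ≠ 0 := hz
    have : 1 + z ^ 2 * ((℘[Λ] z - 1 / z ^ 2) - c) = z ^ 2 * (℘[Λ] z - c) := by
      field_simp
      ring
    rw [this, div_mul_cancel_left₀ (pow_ne_zero 2 hz')]

theorem CInjB.disc_alg {g₂ g₃ a b c : ℂ} (hab : a ≠ b) (hac : a ≠ c) (hbc : b ≠ c)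
    (ha : 4 * a ^ 3 - g₂ * a - g₃ = 0) (hb : 4 * b ^ 3 - g₂ * b - g₃ = 0)
    (hc : 4 * c ^ 3 - g₂ * c - g₃ = 0) : g₂ ^ 3 - 27 * g₃ ^ 2 ≠ 0 := by
  have h1 : g₂ = 4 * (a ^ 2 + a * b + b ^ 2) := by
    apply mul_left_cancel₀ (sub_ne_zero.mpr hab)
    linear_combination hb - ha
  have h2 : g₂ = 4 * (a ^ 2 + a * c + c ^ 2) := by
    apply mul_left_cancel₀ (sub_ne_zero.mpr hac)
    linear_combination hc - ha
  have h3 : c = -a - b := by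
    apply mul_left_cancel₀ (sub_ne_zero.mpr hbc)
    linear_combination (-1 / 4 : ℂ) * h1 + (1 / 4 : ℂ) * h2
  have h4 : g₃ = -4 * a * b * (a + b) := by
    linear_combination -ha - a * h1
  subst h3
  have h5 : g₂ ^ 3 - 27 * g₃ ^ 2 = 16 * ((a - b) * (a - (-a - b)) * (b - (-a - b))) ^ 2 := by
    rw [h4, h1]
    ring
  rw [h5]
  exact mul_ne_zero (by norm_num) (pow_ne_zero 2 (mul_ne_zero (mul_ne_zero
    (sub_ne_zero.mpr hab) (sub_ne_zero.mpr hac)) (sub_ne_zero.mpr hbc)))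

theorem wp_disc (Λ : PeriodPair) : Λ.g₂ ^ 3 - 27 * Λ.g₃ ^ 2 ≠ 0 := by
  have n1 := Λ.ω₁_div_two_notMem_lattice
  have n2 := Λ.ω₂_div_two_notMem_lattice
  have n3 : (Λ.ω₁ + Λ.ω₂) / 2 ∉ Λ.lattice := by
    have h := (Λ.mul_ω₁_add_mul_ω₂_mem_lattice (α := 1 / 2) (β := 1 / 2)).not.mpr (by norm_num)
    rwa [show ((1 / 2 : ℚ) : ℂ) * Λ.ω₁ + ((1 / 2 : ℚ) : ℂ) * Λ.ω₂ = (Λ.ω₁ + Λ.ω₂) / 2 by
      push_cast; ring] at h
  have n4 : (Λ.ω₁ - Λ.ω₂) / 2 ∉ Λ.lattice := by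
    have h := (Λ.mul_ω₁_add_mul_ω₂_mem_lattice (α := 1 / 2) (β := -1 / 2)).not.mpr (by norm_num)
    rwa [show ((1 / 2 : ℚ) : ℂ) * Λ.ω₁ + ((-1 / 2 : ℚ) : ℂ) * Λ.ω₂ = (Λ.ω₁ - Λ.ω₂) / 2 by
      push_cast; ring] at h
  have m1 := Λ.ω₁_mem_lattice
  have m2 := Λ.ω₂_mem_lattice
  have d1 : ℘'[Λ] (Λ.ω₁ / 2) = 0 := (wp_deriv_zero Λ n1).mpr (by
    rw [mul_div_cancel₀ _ two_ne_zero]; exact m1)
  have d2 : ℘'[Λ] (Λ.ω₂ / 2) = 0 := (wp_deriv_zero Λ n2).mpr (by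
    rw [mul_div_cancel₀ _ two_ne_zero]; exact m2)
  have d3 : ℘'[Λ] ((Λ.ω₁ + Λ.ω₂) / 2) = 0 := (wp_deriv_zero Λ n3).mpr (by
    rw [mul_div_cancel₀ _ two_ne_zero]; exact add_mem m1 m2)
  have e1 := Λ.derivWeierstrassP_sq _ n1
  have e2 := Λ.derivWeierstrassP_sq _ n2
  have e3 := Λ.derivWeierstrassP_sq _ n3
  rw [d1] at e1
  rw [d2] at e2
  rw [d3] at e3
  refine CInjB.disc_alg (a := ℘[Λ] (Λ.ω₁ / 2)) (b := ℘[Λ] (Λ.ω₂ / 2))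
    (c := ℘[Λ] ((Λ.ω₁ + Λ.ω₂) / 2)) ?_ ?_ ?_ (by linear_combination -e1)
    (by linear_combination -e2) (by linear_combination -e3)
  · intro h
    rcases (wp_inj Λ n1 n2).mp h with h | h
    · apply n4
      rwa [sub_div]
    · apply n3
      rwa [add_div]
  · intro h
    rcases (wp_inj Λ n1 n3).mp h with h | h
    · apply n2
      have := neg_mem h
      rwa [show -(Λ.ω₁ / 2 - (Λ.ω₁ + Λ.ω₂) / 2) = Λ.ω₂ / 2 by ring] at this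
    · apply n2
      have := sub_mem h m1
      rwa [show Λ.ω₁ / 2 + (Λ.ω₁ + Λ.ω₂) / 2 - Λ.ω₁ = Λ.ω₂ / 2 by ring] at this
  · intro h
    rcases (wp_inj Λ n2 n3).mp h with h | h
    · apply n1
      have := neg_mem h
      rwa [show -(Λ.ω₂ / 2 - (Λ.ω₁ + Λ.ω₂) / 2) = Λ.ω₁ / 2 by ring] at this
    · apply n1
      have := sub_mem h m2
      rwa [show Λ.ω₂ / 2 + (Λ.ω₁ + Λ.ω₂) / 2 - Λ.ω₂ = Λ.ω₁ / 2 by ring] at this

theorem wp_dsc (Λ : PeriodPair) : dsc (-Λ.g₂ / 4) (-Λ.g₃ / 4) ≠ 0 := by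
  have h : dsc (-Λ.g₂ / 4) (-Λ.g₃ / 4) = -(Λ.g₂ ^ 3 - 27 * Λ.g₃ ^ 2) / 16 := by
    unfold dsc
    ring
  rw [h]
  exact div_ne_zero (neg_ne_zero.mpr (wp_disc Λ)) (by norm_num)

/-- The invariants and functions only depend on the lattice. -/
theorem lattice_congr {Λ Λ' : PeriodPair} (h : ∀ z : ℂ, z ∈ Λ.lattice ↔ z ∈ Λ'.lattice) :
    Λ.g₂ = Λ'.g₂ ∧ Λ.g₃ = Λ'.g₃ ∧ (∀ z, ℘[Λ] z = ℘[Λ'] z) ∧ ∀ z, ℘'[Λ] z = ℘'[Λ'] z := by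
  have hs : (Λ.lattice : Set ℂ) = (Λ'.lattice : Set ℂ) := Set.ext h
  have key : ∀ f : ℂ → ℂ, ∑' l : Λ.lattice, f l = ∑' l : Λ'.lattice, f l := fun f =>
    tsum_congr_set_coe f hs
  refine ⟨?_, ?_, fun z => ?_, fun z => ?_⟩
  · unfold PeriodPair.g₂ PeriodPair.G
    rw [key fun l => (l ^ 4)⁻¹]
  · unfold PeriodPair.g₃ PeriodPair.G
    rw [key fun l => (l ^ 6)⁻¹]
  · unfold PeriodPair.weierstrassP
    exact key fun l => (1 / (z - l) ^ 2 - 1 / l ^ 2)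
  · unfold PeriodPair.derivWeierstrassP
    rw [key fun l => 2 / (z - l) ^ 3]

end LT
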