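import Pool.Agent.Lib_MP_f1937f_nt.CDefs

/-!
# MP_f1937f_nt: Liouville's theorem for elliptic functions (piece CLIOU)
-/

namespace LT

open Polynomial WeierstrassCurve PeriodPair Filter Topology

/-- An entire elliptic function is constant. -/
private theorem liou_entire (Λ : PeriodPair) (g : ℂ → ℂ) (hg : ∀ z, AnalyticAt ℂ g z)
    (hper : ∀ z : ℂ, ∀ l ∈ Λ.lattice, g (z + l) = g z) (z w : ℂ) : g z = g w := by
  have hd : Differentiable ℂ g := fun x ↦ (hg x).differentiableAt
  exact hd.apply_eq_apply_of_bounded (IsZLattice.isCompact_range_of_periodic Λ.lattice _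
    hd.continuous fun z w hw ↦ hper z w hw).isBounded z w

private theorem tendsto_add_ne (x l : ℂ) : Tendsto (fun w : ℂ => w + l) (𝓝[≠] x) (𝓝[≠] (x + l)) := by
  refine tendsto_nhdsWithin_iff.2 ⟨?_, ?_⟩
  · exact ((continuous_id.add continuous_const).tendsto x).mono_left nhdsWithin_le_nhds
  · filter_upwards [self_mem_nhdsWithin] with w hw
    simpa using hw

/-- A meromorphic elliptic function without poles is constant. -/
theorem liou (Λ : PeriodPair) (f : ℂ → ℂ) (hf : Meromorphic f)
    (hper : ∀ z : ℂ, ∀ l ∈ Λ.lattice, f (z + l) = f z)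
    (hord : ∀ z : ℂ, 0 ≤ meromorphicOrderAt f z) :
    ∃ c : ℂ, ∀ z : ℂ, ContinuousAt f z → f z = c := by
  have hf' : MeromorphicOn f Set.univ := fun z _ => hf z
  set g := toMeromorphicNFOn f Set.univ with hgdef
  have hNF : MeromorphicNFOn g Set.univ := meromorphicNFOn_toMeromorphicNFOn f Set.univ
  have hgan : ∀ z, AnalyticAt ℂ g z := by
    intro z
    have h1 := hNF (Set.mem_univ z)
    rw [← h1.meromorphicOrderAt_nonneg_iff_analyticAt, hgdef,
      meromorphicOrderAt_toMeromorphicNFOn hf' (Set.mem_univ z)]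
    exact hord z
  have hgf : ∀ x, g =ᶠ[𝓝[≠] x] f := fun x =>
    hf'.toMeromorphicNFOn_eq_self_on_nhdsNE (Set.mem_univ x)
  have hgper : ∀ z : ℂ, ∀ l ∈ Λ.lattice, g (z + l) = g z := by
    intro z l hl
    have h1 : Tendsto (fun w => g (w + l)) (𝓝[≠] z) (𝓝 (g (z + l))) :=
      (((hgan (z + l)).continuousAt.tendsto).mono_left nhdsWithin_le_nhds).comp
        (tendsto_add_ne z l)
    have h2 : Tendsto g (𝓝[≠] z) (𝓝 (g z)) :=
      ((hgan z).continuousAt.tendsto).mono_left nhdsWithin_le_nhds
    have h3 : (fun w => g (w + l)) =ᶠ[𝓝[≠] z] g := by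
      have h4 : ∀ᶠ w in 𝓝[≠] z, g (w + l) = f (w + l) :=
        (tendsto_add_ne z l).eventually (hgf (z + l))
      filter_upwards [h4, hgf z] with w hw1 hw2
      rw [hw1, hw2, hper w l hl]
    exact tendsto_nhds_unique (h1.congr' h3) h2
  refine ⟨g 0, fun z hz => ?_⟩
  have h1 : Tendsto f (𝓝[≠] z) (𝓝 (f z)) := hz.tendsto.mono_left nhdsWithin_le_nhds
  have h2 : Tendsto g (𝓝[≠] z) (𝓝 (g z)) :=
    ((hgan z).continuousAt.tendsto).mono_left nhdsWithin_le_nhds
  have h3 : f z = g z := tendsto_nhds_unique h1 (h2.congr' (hgf z))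
  rw [h3]
  exact liou_entire Λ g hgan hgper z 0

/-- A holomorphic function on `ℂ \ Λ`, elliptic and with limit `c` at `0`, is the constant `c`. -/
theorem liou_lim (Λ : PeriodPair) (f : ℂ → ℂ) (hd : DifferentiableOn ℂ f (Λ.lattice : Set ℂ)ᶜ)
    (hper : ∀ z : ℂ, ∀ l ∈ Λ.lattice, f (z + l) = f z) {c : ℂ}
    (hc : Tendsto f (𝓝[≠] 0) (𝓝 c)) (z : ℂ) (hz : z ∉ Λ.lattice) : f z = c := by
  classical
  set g : ℂ → ℂ := fun w => if w ∈ Λ.lattice then c else f w with hgdef
  have hopen : IsOpen ((Λ.lattice : Set ℂ)ᶜ) := Λ.isClosed_lattice.isOpen_compl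
  have hgoff : ∀ w, w ∉ Λ.lattice → g =ᶠ[𝓝 w] f := by
    intro w hw
    filter_upwards [hopen.mem_nhds hw] with u hu
    simp only [hgdef]
    exact if_neg hu
  have hdoff : ∀ w, w ∉ Λ.lattice → DifferentiableAt ℂ g w := by
    intro w hw
    exact ((hd w hw).differentiableAt (hopen.mem_nhds hw)).congr_of_eventuallyEq (hgoff w hw)
  have hpunc : ∀ l ∈ Λ.lattice, ∀ᶠ w in 𝓝[≠] l, w ∉ Λ.lattice := by
    intro l _
    filter_upwards [self_mem_nhdsWithin,
      mem_nhdsWithin_of_mem_nhds (Λ.compl_lattice_sdiff_singleton_mem_nhds l)] with w hw1 hw2 hw3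
    exact hw2 ⟨hw3, hw1⟩
  have hgan : ∀ w, AnalyticAt ℂ g w := by
    intro w
    by_cases hw : w ∈ Λ.lattice
    · apply Complex.analyticAt_of_differentiable_on_punctured_nhds_of_continuousAt
      · filter_upwards [hpunc w hw] with u hu
        exact hdoff u hu
      · have hlim : Tendsto f (𝓝[≠] w) (𝓝 c) := by
          have h1 : Tendsto (fun u : ℂ => u + (-w)) (𝓝[≠] w) (𝓝[≠] (w + (-w))) :=
            tendsto_add_ne w (-w)
          rw [add_neg_cancel] at h1
          have h2 := hc.comp h1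
          refine h2.congr fun u => ?_
          simp only [Function.comp]
          exact hper u (-w) (neg_mem hw)
        have h3 : Tendsto g (𝓝[≠] w) (𝓝 (g w)) := by
          have h4 : g w = c := by simp only [hgdef]; exact if_pos hw
          rw [h4]
          refine hlim.congr' ?_
          filter_upwards [hpunc w hw] with u hu
          simp only [hgdef]
          exact (if_neg hu).symm
        exact continuousAt_iff_punctured_nhds.2 h3
    · have : ∀ᶠ u in 𝓝 w, DifferentiableAt ℂ g u := by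
        filter_upwards [hopen.mem_nhds hw] with u hu
        exact hdoff u hu
      exact Complex.analyticAt_iff_eventually_differentiableAt.2 this
  have hgper : ∀ w : ℂ, ∀ l ∈ Λ.lattice, g (w + l) = g w := by
    intro w l hl
    simp only [hgdef]
    by_cases hw : w ∈ Λ.lattice
    · rw [if_pos hw, if_pos (add_mem hw hl)]
    · have : w + l ∉ Λ.lattice := fun h => hw (by simpa using sub_mem h hl)
      rw [if_neg hw, if_neg this, hper w l hl]
  have h := liou_entire Λ g hgan hgper z 0
  have hgz : g z = f z := by simp only [hgdef]; exact if_neg hz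
  have hg0 : g 0 = c := by simp only [hgdef]; exact if_pos (zero_mem _)
  rw [← hgz, h, hg0]

end LT
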