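import Pool.Agent.Lib_MP_f1937f_nt.CInj

/-!
# MP_f1937f_nt: `℘` of an overlattice (piece COVER)
-/

namespace LT

open Polynomial WeierstrassCurve PeriodPair Filter Topology

namespace COver

/-- Decomposition of a sum over `Λ'` along the cosets of `Λ`. -/
theorem hasSum_over {Λ Λ' : PeriodPair} (h : Λ.lattice ≤ Λ'.lattice) {R : Finset ℂ}
    (hR : IsReps Λ Λ' R) (G : ℂ → ℂ) (a : ℂ → ℂ)
    (hG : ∀ w ∈ insert 0 R, HasSum (fun l : Λ.lattice => G (w + l)) (a w)) :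
    HasSum (fun l : Λ'.lattice => G l) (∑ w ∈ insert 0 R, a w) := by
  obtain ⟨h1, h2, h3⟩ := hR
  let t : ℂ → Set ℂ := fun w => {x | x - w ∈ Λ.lattice}
  have hdisj : ((insert 0 R : Finset ℂ) : Set ℂ).Pairwise (Function.onFun Disjoint t) := by
    intro w hw w' hw' hne
    rw [Function.onFun, Set.disjoint_left]
    intro x hx hx'
    have hx1 : x - w ∈ Λ.lattice := hx
    have hx2 : x - w' ∈ Λ.lattice := hx'
    have hd : w - w' ∈ Λ.lattice := by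
      have := Λ.lattice.sub_mem hx2 hx1
      simpa using this
    apply hne
    simp only [Finset.coe_insert, Set.mem_insert_iff, Finset.mem_coe] at hw hw'
    rcases hw with rfl | hw
    · rcases hw' with rfl | hw'
      · rfl
      · exfalso
        apply (h1 w' hw').2
        have := Λ.lattice.neg_mem hd
        simpa using this
    · rcases hw' with rfl | hw'
      · exfalso
        apply (h1 w hw).2
        simpa using hd
      · exact h3 w hw w' hw' hd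
  have hs : ∀ w ∈ (insert 0 R : Finset ℂ), HasSum (G ∘ (↑) : t w → ℂ) (a w) := by
    intro w hw
    let e : Λ.lattice ≃ t w :=
      { toFun := fun l => ⟨w + l, by
          change w + (l : ℂ) - w ∈ Λ.lattice
          rw [add_sub_cancel_left]
          exact l.2⟩
        invFun := fun x => ⟨x.1 - w, x.2⟩
        left_inv := fun l => by ext; simp
        right_inv := fun x => by ext; simp }
    rw [← e.hasSum_iff]
    exact hG w hw
  have hU : (⋃ w ∈ (insert 0 R : Finset ℂ), t w) = (Λ'.lattice : Set ℂ) := by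
    ext x
    simp only [Set.mem_iUnion, SetLike.mem_coe, exists_prop]
    constructor
    · rintro ⟨w, hw, hx⟩
      have hw' : w ∈ Λ'.lattice := by
        rcases Finset.mem_insert.mp hw with rfl | hw
        · exact Λ'.lattice.zero_mem
        · exact (h1 w hw).1
      have := Λ'.lattice.add_mem (h hx) hw'
      simpa using this
    · intro hx
      by_cases hx' : x ∈ Λ.lattice
      · refine ⟨0, Finset.mem_insert_self _ _, ?_⟩
        change x - 0 ∈ Λ.lattice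
        simpa using hx'
      · obtain ⟨w, hw, hwx⟩ := h2 x hx hx'
        exact ⟨w, Finset.mem_insert_of_mem hw, hwx⟩
  have := hasSum_sum_disjoint (insert 0 R : Finset ℂ) hdisj hs
  rw [hU] at this
  exact this

theorem zero_notMem {Λ Λ' : PeriodPair} {R : Finset ℂ} (hR : IsReps Λ Λ' R) : (0 : ℂ) ∉ R :=
  fun h0 => (hR.1 0 h0).2 Λ.lattice.zero_mem

theorem wp_over_sub {Λ Λ' : PeriodPair} (h : Λ.lattice ≤ Λ'.lattice) {R : Finset ℂ}
    (hR : IsReps Λ Λ' R) (z : ℂ) :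
    ℘[Λ'] z = ℘[Λ] z + ∑ w ∈ R, (℘[Λ] (z - w) - ℘[Λ] w) := by
  have hG : ∀ w ∈ insert 0 R, HasSum (fun l : Λ.lattice =>
      (fun x : ℂ => 1 / (z - x) ^ 2 - 1 / x ^ 2) (w + l))
        ((fun w : ℂ => ℘[Λ] (z - w) - ℘[Λ] w) w) := by
    intro w _
    have e1 := (Λ.hasSum_weierstrassP (z - w)).sub (Λ.hasSum_weierstrassP (-w))
    rw [Λ.weierstrassP_neg] at e1
    have e2 : (fun l : Λ.lattice => (fun x : ℂ => 1 / (z - x) ^ 2 - 1 / x ^ 2) (w + l)) =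
        fun l : Λ.lattice => 1 / (z - w - (l : ℂ)) ^ 2 - 1 / (l : ℂ) ^ 2 -
          (1 / (-w - (l : ℂ)) ^ 2 - 1 / (l : ℂ) ^ 2) := by
      funext l
      simp only
      rw [show z - (w + (l : ℂ)) = z - w - l by ring,
        show (-w - (l : ℂ)) ^ 2 = (w + (l : ℂ)) ^ 2 by ring]
      ring
    rw [e2]
    exact e1
  have := hasSum_over h hR (fun x : ℂ => 1 / (z - x) ^ 2 - 1 / x ^ 2)
    (fun w : ℂ => ℘[Λ] (z - w) - ℘[Λ] w) hG
  rw [Finset.sum_insert (zero_notMem hR)] at this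
  rw [(Λ'.hasSum_weierstrassP z).unique this]
  simp

theorem wp_over_deriv_sub {Λ Λ' : PeriodPair} (h : Λ.lattice ≤ Λ'.lattice) {R : Finset ℂ}
    (hR : IsReps Λ Λ' R) (z : ℂ) :
    ℘'[Λ'] z = ℘'[Λ] z + ∑ w ∈ R, ℘'[Λ] (z - w) := by
  have hG : ∀ w ∈ insert 0 R, HasSum (fun l : Λ.lattice =>
      (fun x : ℂ => - 2 / (z - x) ^ 3) (w + l))
        ((fun w : ℂ => ℘'[Λ] (z - w)) w) := by
    intro w _
    have e1 := Λ.hasSum_derivWeierstrassP (z - w)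
    have e2 : (fun l : Λ.lattice => (fun x : ℂ => - 2 / (z - x) ^ 3) (w + l)) =
        fun l : Λ.lattice => - 2 / (z - w - (l : ℂ)) ^ 3 := by
      funext l
      simp only
      rw [show z - (w + (l : ℂ)) = z - w - l by ring]
    rw [e2]
    exact e1
  have := hasSum_over h hR (fun x : ℂ => - 2 / (z - x) ^ 3)
    (fun w : ℂ => ℘'[Λ] (z - w)) hG
  rw [Finset.sum_insert (zero_notMem hR)] at this
  rw [(Λ'.hasSum_derivWeierstrassP z).unique this]
  simp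

theorem wp_over_add {Λ Λ' : PeriodPair} (h : Λ.lattice ≤ Λ'.lattice) {R : Finset ℂ}
    (hR : IsReps Λ Λ' R) (z : ℂ) :
    ℘[Λ'] z = ℘[Λ] z + ∑ w ∈ R, (℘[Λ] (z + w) - ℘[Λ] w) := by
  have := wp_over_sub h hR (-z)
  rw [Λ'.weierstrassP_neg, Λ.weierstrassP_neg] at this
  rw [this]
  congr 1
  apply Finset.sum_congr rfl
  intro w _
  rw [show -z - w = -(z + w) by ring, Λ.weierstrassP_neg]

end COver

theorem wp_over {Λ Λ' : PeriodPair} (h : Λ.lattice ≤ Λ'.lattice) {R : Finset ℂ}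
    (hR : IsReps Λ Λ' R) {z : ℂ} (hz : z ∉ Λ'.lattice) :
    ℘[Λ'] z = ℘[Λ] z + ∑ w ∈ R, (℘[Λ] (z + w) - ℘[Λ] w) := by
  have _ := hz
  exact COver.wp_over_add h hR z

theorem wp_over_deriv {Λ Λ' : PeriodPair} (h : Λ.lattice ≤ Λ'.lattice) {R : Finset ℂ}
    (hR : IsReps Λ Λ' R) {z : ℂ} (hz : z ∉ Λ'.lattice) :
    ℘'[Λ'] z = ℘'[Λ] z + ∑ w ∈ R, ℘'[Λ] (z + w) := by
  have _ := hz
  have := COver.wp_over_deriv_sub h hR (-z)
  rw [Λ'.derivWeierstrassP_neg, Λ.derivWeierstrassP_neg] at this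
  have e : ∑ w ∈ R, ℘'[Λ] (-z - w) = -∑ w ∈ R, ℘'[Λ] (z + w) := by
    rw [← Finset.sum_neg_distrib]
    apply Finset.sum_congr rfl
    intro w _
    rw [show -z - w = -(z + w) by ring, Λ.derivWeierstrassP_neg]
  rw [e] at this
  linear_combination -this

/-- The rational expression of `℘_Λ'` in terms of `℘_Λ`. -/
theorem wp_over_rat {Λ Λ' : PeriodPair} (h : Λ.lattice ≤ Λ'.lattice) {R : Finset ℂ}
    (hR : IsReps Λ Λ' R) {z : ℂ} (hz : z ∉ Λ'.lattice) :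
    ℘[Λ'] z = ℘[Λ] z + ∑ w ∈ R, ((3 * ℘[Λ] w ^ 2 - Λ.g₂ / 4) / (℘[Λ] z - ℘[Λ] w) +
      (℘'[Λ] w ^ 2 / 2) / (℘[Λ] z - ℘[Λ] w) ^ 2) := by
  have h1 := COver.wp_over_add h hR z
  have h2 := COver.wp_over_sub h hR z
  have h3 : 2 * ∑ w ∈ R, ((3 * ℘[Λ] w ^ 2 - Λ.g₂ / 4) / (℘[Λ] z - ℘[Λ] w) +
      (℘'[Λ] w ^ 2 / 2) / (℘[Λ] z - ℘[Λ] w) ^ 2) =
      ∑ w ∈ R, (℘[Λ] (z + w) - ℘[Λ] w) + ∑ w ∈ R, (℘[Λ] (z - w) - ℘[Λ] w) := by
    rw [Finset.mul_sum, ← Finset.sum_add_distrib]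
    apply Finset.sum_congr rfl
    intro w hw
    have hw1 := (hR.1 w hw).1
    have hw2 := (hR.1 w hw).2
    have hz1 : z ∉ Λ.lattice := fun hc => hz (h hc)
    have ha : z + w ∉ Λ.lattice := fun hc => hz (by
      have := Λ'.lattice.sub_mem (h hc) hw1
      simpa using this)
    have hs : z - w ∉ Λ.lattice := fun hc => hz (by
      have := Λ'.lattice.add_mem (h hc) hw1
      simpa using this)
    have hne : ℘[Λ] z - ℘[Λ] w ≠ 0 := by
      intro hc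
      rcases (wp_inj Λ hz1 hw2).mp (sub_eq_zero.mp hc) with hc | hc
      · exact hs hc
      · exact ha hc
    have hsum := wp_sum Λ hz1 hw2 ha hs
    have hS : ℘[Λ] (z + w) + ℘[Λ] (z - w) - 2 * ℘[Λ] w =
        ((6 * ℘[Λ] w ^ 2 - Λ.g₂ / 2) * (℘[Λ] z - ℘[Λ] w) + ℘'[Λ] w ^ 2) /
          (℘[Λ] z - ℘[Λ] w) ^ 2 := by
      rw [eq_div_iff (pow_ne_zero 2 hne)]
      exact hsum
    have hT : 2 * ((3 * ℘[Λ] w ^ 2 - Λ.g₂ / 4) / (℘[Λ] z - ℘[Λ] w) +
        (℘'[Λ] w ^ 2 / 2) / (℘[Λ] z - ℘[Λ] w) ^ 2) =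
        ((6 * ℘[Λ] w ^ 2 - Λ.g₂ / 2) * (℘[Λ] z - ℘[Λ] w) + ℘'[Λ] w ^ 2) /
          (℘[Λ] z - ℘[Λ] w) ^ 2 := by
      generalize ℘[Λ] z - ℘[Λ] w = D at hne
      field_simp
      ring
    rw [hT, ← hS]
    ring
  linear_combination (h1 + h2) / 2 - h3 / 2

end LT
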