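import Pool.Agent.Lib_MP_f1937f_nt.COver

/-!
# MP_f1937f_nt: the invariants of an overlattice (piece COVERB)
-/

namespace LT

open Polynomial WeierstrassCurve PeriodPair Filter Topology

namespace COverB

/-- Integration of a little-o. -/
theorem lo_step {g g' : ℂ → ℂ} {n : ℕ} (h : ∀ᶠ z in 𝓝 (0 : ℂ), HasDerivAt g (g' z) z)
    (h0 : g 0 = 0) (ho : g' =o[𝓝 0] fun z => z ^ n) : g =o[𝓝 0] fun z => z ^ (n + 1) := by
  rw [Asymptotics.isLittleO_iff] at ho ⊢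
  intro c hc
  obtain ⟨r, hr, hb⟩ := Metric.eventually_nhds_iff_ball.1 (h.and (ho hc))
  filter_upwards [Metric.ball_mem_nhds (0 : ℂ) hr] with z hz
  have hz' : ‖z‖ < r := by simpa using hz
  have hsub : ∀ y ∈ Metric.closedBall (0 : ℂ) ‖z‖, y ∈ Metric.ball (0 : ℂ) r := by
    intro y hy
    rw [mem_closedBall_zero_iff] at hy
    rw [mem_ball_zero_iff]
    linarith
  have key := Convex.norm_image_sub_le_of_norm_hasDerivWithin_le (f := g) (f' := g')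
    (s := Metric.closedBall (0 : ℂ) ‖z‖) (x := 0) (y := z) (C := c * ‖z‖ ^ n)
    (fun y hy => (hb y (hsub y hy)).1.hasDerivWithinAt)
    (fun y hy => by
      have h1 := (hb y (hsub y hy)).2
      rw [mem_closedBall_zero_iff] at hy
      rw [norm_pow] at h1
      refine h1.trans ?_
      exact mul_le_mul_of_nonneg_left (pow_le_pow_left₀ (norm_nonneg _) hy n) hc.le)
    (convex_closedBall _ _) (by simp) (by simp)
  rw [h0, sub_zero, sub_zero] at key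
  rw [norm_pow, pow_succ, ← mul_assoc]
  exact key

/-- The constant term of a small function vanishes. -/
theorem const_zero {c : ℂ} {r : ℂ → ℂ} (hr : Continuous r) {n : ℕ}
    (h : (fun z => c + z * r z) =o[𝓝[≠] 0] fun z : ℂ => z ^ n) : c = 0 := by
  have h1 : (fun z : ℂ => z ^ n) =O[𝓝[≠] 0] fun _ => (1 : ℂ) := by
    have hc : Tendsto (fun z : ℂ => z ^ n) (𝓝[≠] 0) (𝓝 ((0 : ℂ) ^ n)) :=
      ((continuous_pow n).tendsto 0).mono_left nhdsWithin_le_nhds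
    exact hc.isBigO_one ℂ
  have h2 := (Asymptotics.isLittleO_one_iff ℂ).1 (h.trans_isBigO h1)
  have h3 : Tendsto (fun z : ℂ => c + z * r z) (𝓝[≠] 0) (𝓝 (c + 0 * r 0)) :=
    ((continuous_const.add (continuous_id.mul hr)).tendsto 0).mono_left nhdsWithin_le_nhds
  rw [zero_mul, add_zero] at h3
  exact tendsto_nhds_unique h3 h2

theorem cancel_step {c : ℂ} {r : ℂ → ℂ} {n : ℕ} (hc : c = 0)
    (h : (fun z => c + z * r z) =o[𝓝[≠] 0] fun z : ℂ => z ^ (n + 1)) :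
    r =o[𝓝[≠] 0] fun z : ℂ => z ^ n := by
  rw [Asymptotics.isLittleO_iff] at h ⊢
  intro ε hε
  filter_upwards [h hε, self_mem_nhdsWithin] with z hz hz0
  have hz0' : 0 < ‖z‖ := norm_pos_iff.2 hz0
  rw [hc, zero_add, norm_mul, norm_pow, pow_succ] at hz
  rw [norm_pow]
  have : ‖z‖ * ‖r z‖ ≤ ‖z‖ * (ε * ‖z‖ ^ n) := by
    calc ‖z‖ * ‖r z‖ ≤ ε * (‖z‖ ^ n * ‖z‖) := hz
      _ = ‖z‖ * (ε * ‖z‖ ^ n) := by ring
  exact le_of_mul_le_mul_left this hz0'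

theorem coeffs_zero {c₀ c₁ c₂ c₃ c₄ : ℂ}
    (h : (fun z : ℂ => c₀ + z * (c₁ + z * (c₂ + z * (c₃ + z * c₄)))) =o[𝓝[≠] 0]
      fun z : ℂ => z ^ 4) : c₂ = 0 ∧ c₄ = 0 := by
  have k0 := const_zero (r := fun z => c₁ + z * (c₂ + z * (c₃ + z * c₄))) (by fun_prop) h
  have h1 := cancel_step (r := fun z => c₁ + z * (c₂ + z * (c₃ + z * c₄))) (n := 3) k0 h
  have k1 := const_zero (r := fun z => c₂ + z * (c₃ + z * c₄)) (by fun_prop) h1
  have h2 := cancel_step (r := fun z => c₂ + z * (c₃ + z * c₄)) (n := 2) k1 h1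
  have k2 := const_zero (r := fun z => c₃ + z * c₄) (by fun_prop) h2
  have h3 := cancel_step (r := fun z => c₃ + z * c₄) (n := 1) k2 h2
  have k3 := const_zero (r := fun _ => c₄) (by fun_prop) h3
  have h4 := cancel_step (r := fun _ => c₄) (n := 0) k3 h3
  have h5 : (fun z : ℂ => c₄ + z * 0) =o[𝓝[≠] 0] fun z : ℂ => z ^ 0 := by
    simpa using h4
  exact ⟨k2, const_zero (r := fun _ => 0) (by fun_prop) h5⟩

/-- Taylor expansion to order four. -/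
theorem taylor_four {F₀ F₁ F₂ F₃ F₄ : ℂ → ℂ} (h₀ : ∀ᶠ z in 𝓝 (0 : ℂ), HasDerivAt F₀ (F₁ z) z)
    (h₁ : ∀ᶠ z in 𝓝 (0 : ℂ), HasDerivAt F₁ (F₂ z) z)
    (h₂ : ∀ᶠ z in 𝓝 (0 : ℂ), HasDerivAt F₂ (F₃ z) z)
    (h₃ : ∀ᶠ z in 𝓝 (0 : ℂ), HasDerivAt F₃ (F₄ z) z) (h₄ : ContinuousAt F₄ 0) :
    (fun z => F₀ z - (F₀ 0 + F₁ 0 * z + F₂ 0 / 2 * z ^ 2 + F₃ 0 / 6 * z ^ 3 +
      F₄ 0 / 24 * z ^ 4)) =o[𝓝 0] fun z => z ^ 4 := by
  have o4 : (fun z => F₄ z - F₄ 0) =o[𝓝 0] fun z : ℂ => z ^ 0 := by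
    simp only [pow_zero]
    rw [Asymptotics.isLittleO_one_iff]
    have : Tendsto (fun z => F₄ z - F₄ 0) (𝓝 0) (𝓝 (F₄ 0 - F₄ 0)) := h₄.sub_const _
    rwa [sub_self] at this
  have o3 : (fun z => F₃ z - (F₃ 0 + F₄ 0 * z)) =o[𝓝 0] fun z : ℂ => z ^ (0 + 1) := by
    refine lo_step (g' := fun z => F₄ z - F₄ 0) ?_ (by simp) o4
    filter_upwards [h₃] with z hz
    have h5 : HasDerivAt (fun z : ℂ => F₃ 0 + F₄ 0 * z) (F₄ 0) z := by
      simpa using ((hasDerivAt_id z).const_mul (F₄ 0)).const_add (F₃ 0)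
    exact hz.sub h5
  have o2 : (fun z => F₂ z - (F₂ 0 + F₃ 0 * z + F₄ 0 / 2 * z ^ 2)) =o[𝓝 0]
      fun z : ℂ => z ^ (0 + 1 + 1) := by
    refine lo_step (g' := fun z => F₃ z - (F₃ 0 + F₄ 0 * z)) ?_ (by simp) o3
    filter_upwards [h₂] with z hz
    have h5 : HasDerivAt (fun z : ℂ => F₂ 0 + F₃ 0 * z + F₄ 0 / 2 * z ^ 2)
        (F₃ 0 + F₄ 0 * z) z := by
      have a1 := ((hasDerivAt_id z).const_mul (F₃ 0)).const_add (F₂ 0)
      have a2 := (hasDerivAt_pow 2 z).const_mul (F₄ 0 / 2)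
      exact (a1.add a2).congr_deriv (by
        simp only [mul_one]
        push_cast
        ring)
    exact hz.sub h5
  have o1 : (fun z => F₁ z - (F₁ 0 + F₂ 0 * z + F₃ 0 / 2 * z ^ 2 + F₄ 0 / 6 * z ^ 3)) =o[𝓝 0]
      fun z : ℂ => z ^ (0 + 1 + 1 + 1) := by
    refine lo_step (g' := fun z => F₂ z - (F₂ 0 + F₃ 0 * z + F₄ 0 / 2 * z ^ 2)) ?_ (by simp) o2
    filter_upwards [h₁] with z hz
    have h5 : HasDerivAt (fun z : ℂ => F₁ 0 + F₂ 0 * z + F₃ 0 / 2 * z ^ 2 + F₄ 0 / 6 * z ^ 3)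
        (F₂ 0 + F₃ 0 * z + F₄ 0 / 2 * z ^ 2) z := by
      have a1 := ((hasDerivAt_id z).const_mul (F₂ 0)).const_add (F₁ 0)
      have a2 := (hasDerivAt_pow 2 z).const_mul (F₃ 0 / 2)
      have a3 := (hasDerivAt_pow 3 z).const_mul (F₄ 0 / 6)
      exact ((a1.add a2).add a3).congr_deriv (by
        simp only [mul_one]
        push_cast
        ring)
    exact hz.sub h5
  refine lo_step (n := 3) (g' := fun z => F₁ z - (F₁ 0 + F₂ 0 * z + F₃ 0 / 2 * z ^ 2 +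
    F₄ 0 / 6 * z ^ 3)) ?_ (by simp) o1
  filter_upwards [h₀] with z hz
  have h5 : HasDerivAt (fun z : ℂ => F₀ 0 + F₁ 0 * z + F₂ 0 / 2 * z ^ 2 + F₃ 0 / 6 * z ^ 3 +
      F₄ 0 / 24 * z ^ 4) (F₁ 0 + F₂ 0 * z + F₃ 0 / 2 * z ^ 2 + F₄ 0 / 6 * z ^ 3) z := by
    have a1 := ((hasDerivAt_id z).const_mul (F₁ 0)).const_add (F₀ 0)
    have a2 := (hasDerivAt_pow 2 z).const_mul (F₂ 0 / 2)
    have a3 := (hasDerivAt_pow 3 z).const_mul (F₃ 0 / 6)
    have a4 := (hasDerivAt_pow 4 z).const_mul (F₄ 0 / 24)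
    exact (((a1.add a2).add a3).add a4).congr_deriv (by
      simp only [mul_one]
      push_cast
      ring)
  exact hz.sub h5

theorem wp_hasDerivAt (Λ : PeriodPair) {z : ℂ} (hz : z ∉ Λ.lattice) :
    HasDerivAt ℘[Λ] (℘'[Λ] z) z := by
  have h1 : DifferentiableAt ℂ ℘[Λ] z := (Λ.analyticOnNhd_weierstrassP z hz).differentiableAt
  have h2 := h1.hasDerivAt
  rwa [deriv_weierstrassP] at h2

end COverB

open COverB

/-- The invariants of an overlattice (Velu). -/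
theorem g_over {Λ Λ' : PeriodPair} (h : Λ.lattice ≤ Λ'.lattice) {R : Finset ℂ}
    (hR : IsReps Λ Λ' R) :
    -Λ'.g₂ / 4 = -Λ.g₂ / 4 - 5 * ∑ w ∈ R, (3 * ℘[Λ] w ^ 2 - Λ.g₂ / 4) ∧
      -Λ'.g₃ / 4 = -Λ.g₃ / 4 - 7 * ∑ w ∈ R,
        (5 * ℘[Λ] w ^ 3 - 3 * Λ.g₂ / 4 * ℘[Λ] w - Λ.g₃ / 2) := by
  classical
  set P := ℘[Λ] with hP
  set Q := ℘'[Λ] with hQ
  -- near 0 the points z + w are outside the lattice
  have hnear : ∀ᶠ z in 𝓝 (0 : ℂ), ∀ w ∈ R, z + w ∉ Λ.lattice := by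
    rw [Filter.eventually_all_finset]
    intro w hw
    have h1 : w ∈ (Λ.lattice : Set ℂ)ᶜ := (hR.1 w hw).2
    have h2 : (Λ.lattice : Set ℂ)ᶜ ∈ 𝓝 w := Λ.isClosed_lattice.isOpen_compl.mem_nhds h1
    have h3 : Tendsto (fun z : ℂ => z + w) (𝓝 0) (𝓝 w) := by
      have : Tendsto (fun z : ℂ => z + w) (𝓝 0) (𝓝 (0 + w)) :=
        (continuous_id.add continuous_const).tendsto 0
      rwa [zero_add] at this
    exact h3 h2
  have d0 : ∀ z : ℂ, z ∉ Λ.lattice → HasDerivAt P (Q z) z := fun z hz => wp_hasDerivAt Λ hz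
  have d1 : ∀ z : ℂ, z ∉ Λ.lattice → HasDerivAt Q (6 * P z ^ 2 - Λ.g₂ / 2) z :=
    fun z hz => wp_deriv2 Λ z hz
  have d2 : ∀ z : ℂ, z ∉ Λ.lattice →
      HasDerivAt (fun z => 6 * P z ^ 2 - Λ.g₂ / 2) (12 * P z * Q z) z := by
    intro z hz
    have a1 := (((d0 z hz).pow 2).const_mul 6).sub_const (Λ.g₂ / 2)
    exact a1.congr_deriv (by
      push_cast
      ring)
  have d3 : ∀ z : ℂ, z ∉ Λ.lattice → HasDerivAt (fun z => 12 * P z * Q z)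
      (120 * P z ^ 3 - 18 * Λ.g₂ * P z - 12 * Λ.g₃) z := by
    intro z hz
    have a1 := ((d0 z hz).const_mul 12).mul (d1 z hz)
    have h4 : Q z ^ 2 = 4 * P z ^ 3 - Λ.g₂ * P z - Λ.g₃ := Λ.derivWeierstrassP_sq z hz
    exact a1.congr_deriv (by linear_combination 12 * h4)
  have d4 : ∀ z : ℂ, z ∉ Λ.lattice →
      ContinuousAt (fun z => 120 * P z ^ 3 - 18 * Λ.g₂ * P z - 12 * Λ.g₃) z := by
    intro z hz
    have hc : ContinuousAt P z := (d0 z hz).continuousAt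
    exact ((continuousAt_const.mul (hc.pow 3)).sub (continuousAt_const.mul hc)).sub
      continuousAt_const
  have hshift : ∀ {f f' : ℂ → ℂ}, (∀ z : ℂ, z ∉ Λ.lattice → HasDerivAt f (f' z) z) →
      ∀ z w : ℂ, z + w ∉ Λ.lattice → HasDerivAt (fun z => f (z + w)) (f' (z + w)) z := by
    intro f f' hf z w hzw
    exact HasDerivAt.comp_add_const z w (hf (z + w) hzw)
  set F₀ : ℂ → ℂ := fun z => ∑ w ∈ R, (P (z + w) - P w) with hF₀
  set F₁ : ℂ → ℂ := fun z => ∑ w ∈ R, Q (z + w) with hF₁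
  set F₂ : ℂ → ℂ := fun z => ∑ w ∈ R, (6 * P (z + w) ^ 2 - Λ.g₂ / 2) with hF₂
  set F₃ : ℂ → ℂ := fun z => ∑ w ∈ R, (12 * P (z + w) * Q (z + w)) with hF₃
  set F₄ : ℂ → ℂ := fun z => ∑ w ∈ R, (120 * P (z + w) ^ 3 - 18 * Λ.g₂ * P (z + w) -
    12 * Λ.g₃) with hF₄
  have e0 : ∀ᶠ z in 𝓝 (0 : ℂ), HasDerivAt F₀ (F₁ z) z := by
    filter_upwards [hnear] with z hz
    apply HasDerivAt.fun_sum
    intro w hw
    exact (hshift d0 z w (hz w hw)).sub_const _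
  have e1 : ∀ᶠ z in 𝓝 (0 : ℂ), HasDerivAt F₁ (F₂ z) z := by
    filter_upwards [hnear] with z hz
    apply HasDerivAt.fun_sum
    intro w hw
    exact hshift d1 z w (hz w hw)
  have e2 : ∀ᶠ z in 𝓝 (0 : ℂ), HasDerivAt F₂ (F₃ z) z := by
    filter_upwards [hnear] with z hz
    apply HasDerivAt.fun_sum
    intro w hw
    exact hshift d2 z w (hz w hw)
  have e3 : ∀ᶠ z in 𝓝 (0 : ℂ), HasDerivAt F₃ (F₄ z) z := by
    filter_upwards [hnear] with z hz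
    apply HasDerivAt.fun_sum
    intro w hw
    exact hshift d3 z w (hz w hw)
  have e4 : ContinuousAt F₄ 0 := by
    apply tendsto_finsetSum
    intro w hw
    have hw' : (0 : ℂ) + w ∉ Λ.lattice := by
      rw [zero_add]; exact (hR.1 w hw).2
    have a1 : ContinuousAt (fun z : ℂ => z + w) 0 :=
      (continuous_id.add continuous_const).continuousAt
    exact ContinuousAt.comp (f := fun z : ℂ => z + w) (d4 _ hw') a1
  have hT := taylor_four e0 e1 e2 e3 e4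
  -- the other expansion
  set A : ℂ := (Λ'.g₂ - Λ.g₂) / 20 with hA
  set B : ℂ := (Λ'.g₃ - Λ.g₃) / 28 with hB
  have hF : ∀ᶠ z in 𝓝[≠] (0 : ℂ), F₀ z = ℘[Λ'] z - P z := by
    have h1 : ∀ᶠ z in 𝓝[≠] (0 : ℂ), z ∉ Λ'.lattice := by
      have h2 := Λ'.compl_lattice_sdiff_singleton_mem_nhds 0
      filter_upwards [mem_nhdsWithin_of_mem_nhds h2, self_mem_nhdsWithin] with z hz hz0
      intro hz'
      exact hz ⟨hz', hz0⟩
    filter_upwards [h1] with z hz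
    have h3 := wp_over h hR hz
    rw [h3, hF₀]
    ring
  have hG : (fun z => F₀ z - (A * z ^ 2 + B * z ^ 4)) =o[𝓝[≠] 0] fun z : ℂ => z ^ 4 := by
    have h1 := (wp_zero Λ).2.2
    have h2 := (wp_zero Λ').2.2
    have h3 := (h2.sub h1).sub_const B
    have h4 : Λ'.g₃ / 28 - Λ.g₃ / 28 - B = 0 := by rw [hB]; ring
    rw [h4] at h3
    have h5 : (fun z : ℂ => F₀ z - (A * z ^ 2 + B * z ^ 4)) =ᶠ[𝓝[≠] 0]
        fun z => ((℘[Λ'] z - 1 / z ^ 2 - Λ'.g₂ / 20 * z ^ 2) / z ^ 4 -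
          (℘[Λ] z - 1 / z ^ 2 - Λ.g₂ / 20 * z ^ 2) / z ^ 4 - B) * z ^ 4 := by
      filter_upwards [hF, self_mem_nhdsWithin] with z hz hz0
      have hz0' : z ≠ 0 := hz0
      rw [hz, hA]
      field_simp
      ring
    refine Asymptotics.IsLittleO.congr' ?_ h5.symm (EventuallyEq.refl _ _)
    have h6 : (fun z : ℂ => ((℘[Λ'] z - 1 / z ^ 2 - Λ'.g₂ / 20 * z ^ 2) / z ^ 4 -
          (℘[Λ] z - 1 / z ^ 2 - Λ.g₂ / 20 * z ^ 2) / z ^ 4 - B)) =o[𝓝[≠] 0]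
        fun _ => (1 : ℂ) := (Asymptotics.isLittleO_one_iff ℂ).2 h3
    have h7 := h6.mul_isBigO (Asymptotics.isBigO_refl (fun z : ℂ => z ^ 4) (𝓝[≠] 0))
    simpa using h7
  have hT' := hT.mono (nhdsWithin_le_nhds (s := {0}ᶜ))
  have hdiff := hG.sub hT'
  have hpoly : (fun z : ℂ => F₀ 0 + z * (F₁ 0 + z * ((F₂ 0 / 2 - A) + z * (F₃ 0 / 6 +
      z * (F₄ 0 / 24 - B))))) =o[𝓝[≠] 0] fun z : ℂ => z ^ 4 := by
    refine hdiff.congr' (Eventually.of_forall fun z => ?_) (EventuallyEq.refl _ _)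
    simp only
    ring
  obtain ⟨k2, k4⟩ := coeffs_zero hpoly
  have s2 : F₂ 0 = ∑ w ∈ R, (6 * P w ^ 2 - Λ.g₂ / 2) := by
    simp only [hF₂, zero_add]
  have s4 : F₄ 0 = ∑ w ∈ R, (120 * P w ^ 3 - 18 * Λ.g₂ * P w - 12 * Λ.g₃) := by
    simp only [hF₄, zero_add]
  rw [s2] at k2
  rw [s4] at k4
  have t2 : ∑ w ∈ R, (6 * P w ^ 2 - Λ.g₂ / 2) = 2 * ∑ w ∈ R, (3 * P w ^ 2 - Λ.g₂ / 4) := by
    rw [Finset.mul_sum]
    apply Finset.sum_congr rfl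
    intro w _
    ring
  have t4 : ∑ w ∈ R, (120 * P w ^ 3 - 18 * Λ.g₂ * P w - 12 * Λ.g₃) =
      24 * ∑ w ∈ R, (5 * P w ^ 3 - 3 * Λ.g₂ / 4 * P w - Λ.g₃ / 2) := by
    rw [Finset.mul_sum]
    apply Finset.sum_congr rfl
    intro w _
    ring
  rw [t2] at k2
  rw [t4] at k4
  constructor
  · rw [hA] at k2
    linear_combination 5 * k2
  · rw [hB] at k4
    linear_combination 7 * k4

end LT
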