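import Pool.Agent.Lib_MP_f1937f_nt.CDefs

/-!
# MP_f1937f_nt: overlattices have a pair of periods (piece CPER)
-/

namespace LT

open Polynomial WeierstrassCurve PeriodPair

/-- The lattice scaled by `1 / n`. -/
noncomputable def CPer.scaled (Λ : PeriodPair) (n : ℕ) (hn : 0 < n) : PeriodPair where
  ω₁ := Λ.ω₁ / n
  ω₂ := Λ.ω₂ / n
  indep := by
    have hnR : (n : ℝ) ≠ 0 := by exact_mod_cast hn.ne'
    have h := Λ.indep
    rw [LinearIndependent.pair_iff] at h ⊢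
    intro s t hst
    have h1 := h (s / n) (t / n) (by
      have hnC : (n : ℂ) ≠ 0 := by exact_mod_cast hn.ne'
      rw [Complex.real_smul, Complex.real_smul] at hst ⊢
      push_cast
      rw [← hst]
      field_simp)
    constructor
    · have := h1.1
      rwa [div_eq_zero_iff, or_iff_left hnR] at this
    · have := h1.2
      rwa [div_eq_zero_iff, or_iff_left hnR] at this

theorem pp_exists (Λ : PeriodPair) (S : AddSubgroup ℂ) (h : ∀ z ∈ Λ.lattice, z ∈ S) {n : ℕ}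
    (hn : 0 < n) (hS : ∀ z ∈ S, n • z ∈ Λ.lattice) :
    ∃ Λ' : PeriodPair, ∀ z : ℂ, z ∈ Λ'.lattice ↔ z ∈ S := by
  set L : Submodule ℤ ℂ := AddSubgroup.toIntSubmodule S with hL
  have hmem : ∀ z : ℂ, z ∈ L ↔ z ∈ S := fun z => Iff.rfl
  have hnC : (n : ℂ) ≠ 0 := by exact_mod_cast hn.ne'
  have hsub : (L : Set ℂ) ⊆ ((CPer.scaled Λ n hn).lattice : Set ℂ) := by
    intro z hz
    have h1 := hS z hz
    rw [PeriodPair.mem_lattice] at h1
    obtain ⟨m, k, hmk⟩ := h1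
    rw [SetLike.mem_coe, PeriodPair.mem_lattice]
    refine ⟨m, k, ?_⟩
    simp only [CPer.scaled]
    rw [nsmul_eq_mul] at hmk
    field_simp
    linear_combination hmk
  have hdisc : DiscreteTopology L := by
    have h0 : DiscreteTopology ((CPer.scaled Λ n hn).lattice : Set ℂ) :=
      inferInstanceAs (DiscreteTopology (CPer.scaled Λ n hn).lattice)
    exact DiscreteTopology.of_subset h0 hsub
  have hspan : IsZLattice ℝ L := by
    refine ⟨?_⟩
    have h1 : Submodule.span ℝ (Λ.lattice : Set ℂ) = ⊤ := IsZLattice.span_top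
    rw [← top_le_iff, ← h1]
    exact Submodule.span_mono fun z hz => h z hz
  have hfree : Module.Free ℤ L := ZLattice.module_free ℝ L
  have hfin : Module.Finite ℤ L := ZLattice.module_finite ℝ L
  have hrank : Module.finrank ℤ L = 2 := by
    rw [ZLattice.rank ℝ L, Complex.finrank_real_complex]
  let b : Module.Basis (Fin 2) ℤ L := Module.finBasisOfFinrankEq ℤ L hrank
  have hind : LinearIndependent ℝ ![(b 0 : ℂ), (b 1 : ℂ)] := by
    have h1 := (b.ofZLatticeBasis ℝ L).linearIndependent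
    have h2 : (⇑(b.ofZLatticeBasis ℝ L)) = ![(b 0 : ℂ), (b 1 : ℂ)] := by
      ext i
      fin_cases i <;> simp [Module.Basis.ofZLatticeBasis_apply]
    rw [h2] at h1
    exact h1
  refine ⟨⟨(b 0 : ℂ), (b 1 : ℂ), hind⟩, fun z => ?_⟩
  rw [PeriodPair.mem_lattice]
  constructor
  · rintro ⟨m, k, rfl⟩
    have h1 : ((m • b 0 + k • b 1 : L) : ℂ) ∈ L := (m • b 0 + k • b 1 : L).2
    rw [hmem] at h1
    simpa using h1
  · intro hz
    have h1 := b.sum_repr ⟨z, hz⟩
    rw [Fin.sum_univ_two] at h1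
    refine ⟨b.repr ⟨z, hz⟩ 0, b.repr ⟨z, hz⟩ 1, ?_⟩
    have h2 := congrArg (Subtype.val) h1
    simpa using h2

/-- Representatives exist. -/
theorem reps_exists {Λ Λ' : PeriodPair} (h : ∀ z ∈ Λ.lattice, z ∈ Λ'.lattice) {n : ℕ}
    (hn : 0 < n) (hS : ∀ z ∈ Λ'.lattice, n • z ∈ Λ.lattice) :
    ∃ R : Finset ℂ, IsReps Λ Λ' R := by
  classical
  let q : ℂ → ℂ ⧸ Λ.lattice := fun z => Submodule.Quotient.mk z
  have hq : ∀ z w, q z = q w ↔ z - w ∈ Λ.lattice := fun z w => Submodule.Quotient.eq _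
  let C : Finset ℂ := ((Finset.range n) ×ˢ (Finset.range n)).image
    (fun p => ((p.1 : ℕ) : ℂ) * Λ'.ω₁ + ((p.2 : ℕ) : ℂ) * Λ'.ω₂)
  let D : Finset ℂ := C.filter (fun w => w ∉ Λ.lattice)
  have hC' : ∀ w ∈ C, w ∈ Λ'.lattice := by
    intro w hw
    rw [Finset.mem_image] at hw
    obtain ⟨p, _, rfl⟩ := hw
    rw [PeriodPair.mem_lattice]
    exact ⟨p.1, p.2, by push_cast; ring⟩
  have hC : ∀ z ∈ Λ'.lattice, ∃ w ∈ C, z - w ∈ Λ.lattice := by
    intro z hz
    rw [PeriodPair.mem_lattice] at hz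
    obtain ⟨m, k, rfl⟩ := hz
    have hn' : (0 : ℤ) < n := by exact_mod_cast hn
    obtain ⟨i, hi⟩ := Int.eq_ofNat_of_zero_le (Int.emod_nonneg m hn'.ne')
    obtain ⟨j, hj⟩ := Int.eq_ofNat_of_zero_le (Int.emod_nonneg k hn'.ne')
    have hi' := Int.emod_lt_of_pos m hn'
    have hj' := Int.emod_lt_of_pos k hn'
    refine ⟨(i : ℂ) * Λ'.ω₁ + (j : ℂ) * Λ'.ω₂, ?_, ?_⟩
    · rw [Finset.mem_image]
      refine ⟨(i, j), ?_, rfl⟩
      rw [Finset.mem_product, Finset.mem_range, Finset.mem_range]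
      constructor <;> [skip; skip] <;> simp only <;> omega
    · have h1 : ((m / n : ℤ) : ℂ) * Λ'.ω₁ + ((k / n : ℤ) : ℂ) * Λ'.ω₂ ∈ Λ'.lattice :=
        PeriodPair.mem_lattice.mpr ⟨_, _, rfl⟩
      have h2 := hS _ h1
      rw [nsmul_eq_mul] at h2
      have e1 : (m : ℂ) = n * ((m / n : ℤ) : ℂ) + i := by
        have := Int.mul_ediv_add_emod m n
        rw [hi] at this
        exact_mod_cast this.symm
      have e2 : (k : ℂ) = n * ((k / n : ℤ) : ℂ) + j := by
        have := Int.mul_ediv_add_emod k n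
        rw [hj] at this
        exact_mod_cast this.symm
      have h3 : (m : ℂ) * Λ'.ω₁ + k * Λ'.ω₂ - (i * Λ'.ω₁ + j * Λ'.ω₂) =
          n * (((m / n : ℤ) : ℂ) * Λ'.ω₁ + ((k / n : ℤ) : ℂ) * Λ'.ω₂) := by
        rw [e1, e2]
        ring
      rw [h3]
      exact h2
  have hex : ∀ κ : ℂ ⧸ Λ.lattice, ∃ w : ℂ, κ ∈ D.image q → w ∈ D ∧ q w = κ := by
    intro κ
    by_cases hκ : κ ∈ D.image q
    · obtain ⟨w, hw, hw'⟩ := Finset.mem_image.mp hκ
      exact ⟨w, fun _ => ⟨hw, hw'⟩⟩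
    · exact ⟨0, fun h => absurd h hκ⟩
  choose g hg using hex
  refine ⟨(D.image q).image g, ?_, ?_, ?_⟩
  · intro w hw
    obtain ⟨κ, hκ, rfl⟩ := Finset.mem_image.mp hw
    obtain ⟨h1, _⟩ := hg κ hκ
    rw [Finset.mem_filter] at h1
    exact ⟨hC' _ h1.1, h1.2⟩
  · intro z hz hzn
    obtain ⟨c, hc, hzc⟩ := hC z hz
    have hcn : c ∉ Λ.lattice := by
      intro hcl
      apply hzn
      have := Λ.lattice.add_mem hzc hcl
      simpa using this
    have hcD : q c ∈ D.image q := Finset.mem_image_of_mem q (Finset.mem_filter.mpr ⟨hc, hcn⟩)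
    obtain ⟨h1, h2⟩ := hg (q c) hcD
    refine ⟨g (q c), Finset.mem_image_of_mem g hcD, ?_⟩
    have h3 := (hq _ _).mp h2
    have h4 := Λ.lattice.sub_mem hzc h3
    have h5 : z - c - (g (q c) - c) = z - g (q c) := by ring
    rw [h5] at h4
    exact h4
  · intro w hw w' hw' hww
    obtain ⟨κ, hκ, rfl⟩ := Finset.mem_image.mp hw
    obtain ⟨κ', hκ', rfl⟩ := Finset.mem_image.mp hw'
    have h1 := (hg κ hκ).2
    have h2 := (hg κ' hκ').2
    have h3 := (hq _ _).mpr hww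
    rw [h1, h2] at h3
    rw [h3]

end LT
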