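import Pool.Agent.Lib_MP_f1937f_nt.CInjB

/-!
# MP_f1937f_nt: the uniformisation homomorphism (piece CTH)
-/

namespace LT

open Polynomial WeierstrassCurve PeriodPair Filter Topology

namespace CTh

theorem hasDerivAt_wp (Λ : PeriodPair) {z : ℂ} (hz : z ∉ Λ.lattice) :
    HasDerivAt ℘[Λ] (℘'[Λ] z) z := by
  have h1 := Λ.deriv_weierstrassP
  rw [← h1]
  exact ((Λ.analyticOnNhd_weierstrassP z hz).differentiableAt).hasDerivAt

theorem wp_add (Λ : PeriodPair) {z w : ℂ} (hz : z ∉ Λ.lattice) (hw : w ∉ Λ.lattice)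
    (h₁ : z + w ∉ Λ.lattice) (h₂ : z - w ∉ Λ.lattice) :
    ℘[Λ] (z + w) = ((℘'[Λ] z - ℘'[Λ] w) / (℘[Λ] z - ℘[Λ] w)) ^ 2 / 4 - ℘[Λ] z - ℘[Λ] w := by
  have hne : ℘[Λ] z - ℘[Λ] w ≠ 0 := by
    rw [sub_ne_zero]
    intro h
    rcases (wp_inj Λ hz hw).1 h with h3 | h3
    · exact h₂ h3
    · exact h₁ h3
  have S := wp_sum Λ hz hw h₁ h₂
  have D := wp_diff Λ hz hw h₁ h₂
  have E1 := Λ.derivWeierstrassP_sq z hz
  have E2 := Λ.derivWeierstrassP_sq w hw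
  have key : 4 * (℘[Λ] z - ℘[Λ] w) ^ 2 * ℘[Λ] (z + w) =
      (℘'[Λ] z - ℘'[Λ] w) ^ 2 - 4 * (℘[Λ] z + ℘[Λ] w) * (℘[Λ] z - ℘[Λ] w) ^ 2 := by
    linear_combination 2 * S + 2 * D + E2 - E1
  rw [div_pow]
  field_simp
  linear_combination key

theorem wp_add_deriv (Λ : PeriodPair) {z w : ℂ} (hz : z ∉ Λ.lattice) (hw : w ∉ Λ.lattice)
    (h₁ : z + w ∉ Λ.lattice) (h₂ : z - w ∉ Λ.lattice) :
    ℘'[Λ] (z + w) = -(℘'[Λ] z + (℘'[Λ] z - ℘'[Λ] w) / (℘[Λ] z - ℘[Λ] w) *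
      (((℘'[Λ] z - ℘'[Λ] w) / (℘[Λ] z - ℘[Λ] w)) ^ 2 / 4 - ℘[Λ] z - ℘[Λ] w - ℘[Λ] z)) := by
  have hne : ℘[Λ] z - ℘[Λ] w ≠ 0 := by
    rw [sub_ne_zero]
    intro h
    rcases (wp_inj Λ hz hw).1 h with h3 | h3
    · exact h₂ h3
    · exact h₁ h3
  have hA : HasDerivAt (fun s => ℘[Λ] (s + w)) (℘'[Λ] (z + w)) z := by
    have := (hasDerivAt_wp Λ h₁).comp z ((hasDerivAt_id z).add_const w)
    simpa [Function.comp_def] using this
  have hP := hasDerivAt_wp Λ hz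
  have hQ := wp_deriv2 Λ z hz
  have hm : HasDerivAt (fun s => (℘'[Λ] s - ℘'[Λ] w) / (℘[Λ] s - ℘[Λ] w))
      (((6 * ℘[Λ] z ^ 2 - Λ.g₂ / 2) * (℘[Λ] z - ℘[Λ] w) -
        (℘'[Λ] z - ℘'[Λ] w) * ℘'[Λ] z) / (℘[Λ] z - ℘[Λ] w) ^ 2) z :=
    (hQ.sub_const _).div (hP.sub_const _) hne
  have hB : HasDerivAt (fun s => ((℘'[Λ] s - ℘'[Λ] w) / (℘[Λ] s - ℘[Λ] w)) ^ 2 / 4 -
      ℘[Λ] s - ℘[Λ] w) ((2 : ℕ) * ((℘'[Λ] z - ℘'[Λ] w) / (℘[Λ] z - ℘[Λ] w)) ^ (2 - 1) *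
      (((6 * ℘[Λ] z ^ 2 - Λ.g₂ / 2) * (℘[Λ] z - ℘[Λ] w) -
        (℘'[Λ] z - ℘'[Λ] w) * ℘'[Λ] z) / (℘[Λ] z - ℘[Λ] w) ^ 2) / 4 - ℘'[Λ] z) z :=
    (((hm.pow 2).div_const 4).sub hP).sub_const _
  have hopen : ∀ᶠ s in 𝓝 z, s ∉ Λ.lattice ∧ s + w ∉ Λ.lattice ∧ s - w ∉ Λ.lattice := by
    have hc : IsOpen ((Λ.lattice : Set ℂ)ᶜ) := Λ.isClosed_lattice.isOpen_compl
    have c1 : ∀ᶠ s in 𝓝 z, s ∈ ((Λ.lattice : Set ℂ)ᶜ) := hc.mem_nhds hz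
    have c2 : ∀ᶠ s in 𝓝 z, s + w ∈ ((Λ.lattice : Set ℂ)ᶜ) :=
      (continuous_add_const w).continuousAt.eventually (hc.mem_nhds h₁)
    have c3 : ∀ᶠ s in 𝓝 z, s - w ∈ ((Λ.lattice : Set ℂ)ᶜ) :=
      (continuous_sub_right w).continuousAt.eventually (hc.mem_nhds h₂)
    filter_upwards [c1, c2, c3] with s a1 a2 a3
    exact ⟨a1, a2, a3⟩
  have heq : (fun s => ℘[Λ] (s + w)) =ᶠ[𝓝 z] fun s =>
      ((℘'[Λ] s - ℘'[Λ] w) / (℘[Λ] s - ℘[Λ] w)) ^ 2 / 4 - ℘[Λ] s - ℘[Λ] w := by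
    filter_upwards [hopen] with s hs
    exact wp_add Λ hs.1 hw hs.2.1 hs.2.2
  have hval := (hA.congr_of_eventuallyEq heq.symm).unique hB
  have E1 := Λ.derivWeierstrassP_sq z hz
  have E2 := Λ.derivWeierstrassP_sq w hw
  have key : ((6 * ℘[Λ] z ^ 2 - Λ.g₂ / 2) * (℘[Λ] z - ℘[Λ] w) -
        (℘'[Λ] z - ℘'[Λ] w) * ℘'[Λ] z) / (℘[Λ] z - ℘[Λ] w) ^ 2 / 2 +
      (((℘'[Λ] z - ℘'[Λ] w) / (℘[Λ] z - ℘[Λ] w)) ^ 2 / 4 - ℘[Λ] z - ℘[Λ] w - ℘[Λ] z) = 0 := by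
    rw [div_pow]
    field_simp
    linear_combination 4 * E2 - 4 * E1
  rw [hval]
  linear_combination ((℘'[Λ] z - ℘'[Λ] w) / (℘[Λ] z - ℘[Λ] w)) * key

theorem nons (Λ : PeriodPair) {a b : ℂ} (ha : a = -Λ.g₂ / 4) (hb : b = -Λ.g₃ / 4) {z : ℂ}
    (hz : z ∉ Λ.lattice) : (SW a b).toAffine.Nonsingular (℘[Λ] z) (℘'[Λ] z / 2) := by
  have hd : dsc a b ≠ 0 := by
    rw [ha, hb]
    exact wp_dsc Λ
  rw [sw_nons two_ne_zero hd]
  have E := Λ.derivWeierstrassP_sq z hz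
  rw [ha, hb]
  linear_combination E / 4

open Classical in
/-- The uniformisation map. -/
noncomputable def th (Λ : PeriodPair) {a b : ℂ} (ha : a = -Λ.g₂ / 4) (hb : b = -Λ.g₃ / 4)
    (z : ℂ) : Pt a b :=
  if h : z ∈ Λ.lattice then 0 else .some (℘[Λ] z) (℘'[Λ] z / 2) (nons Λ ha hb h)

section

variable (Λ : PeriodPair) {a b : ℂ} (ha : a = -Λ.g₂ / 4) (hb : b = -Λ.g₃ / 4)

theorem th_of_mem {z : ℂ} (hz : z ∈ Λ.lattice) : th Λ ha hb z = 0 := dif_pos hz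

theorem th_of_notMem {z : ℂ} (hz : z ∉ Λ.lattice) :
    th Λ ha hb z = .some (℘[Λ] z) (℘'[Λ] z / 2) (nons Λ ha hb hz) := dif_neg hz

theorem th_neg (z : ℂ) : th Λ ha hb (-z) = -th Λ ha hb z := by
  by_cases hz : z ∈ Λ.lattice
  · rw [th_of_mem Λ ha hb hz, th_of_mem Λ ha hb (neg_mem hz), neg_zero]
  · have hz' : -z ∉ Λ.lattice := fun h => hz (by simpa using neg_mem h)
    rw [th_of_notMem Λ ha hb hz, th_of_notMem Λ ha hb hz', Affine.Point.neg_some]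
    rw [Affine.Point.some.injEq]
    refine ⟨Λ.weierstrassP_neg z, ?_⟩
    rw [Λ.derivWeierstrassP_neg]
    simp [Affine.negY, SW]
    ring

theorem th_add_lattice (z : ℂ) {l : ℂ} (hl : l ∈ Λ.lattice) :
    th Λ ha hb (z + l) = th Λ ha hb z := by
  by_cases hz : z ∈ Λ.lattice
  · rw [th_of_mem Λ ha hb hz, th_of_mem Λ ha hb (add_mem hz hl)]
  · have hz' : z + l ∉ Λ.lattice := fun h => hz (by simpa using sub_mem h hl)
    rw [th_of_notMem Λ ha hb hz, th_of_notMem Λ ha hb hz', Affine.Point.some.injEq]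
    refine ⟨Λ.weierstrassP_add_coe z ⟨l, hl⟩, ?_⟩
    rw [Λ.derivWeierstrassP_add_coe z ⟨l, hl⟩]

theorem th_add_generic {z w : ℂ} (hz : z ∉ Λ.lattice) (hw : w ∉ Λ.lattice)
    (h₁ : z + w ∉ Λ.lattice) (h₂ : z - w ∉ Λ.lattice) :
    th Λ ha hb (z + w) = th Λ ha hb z + th Λ ha hb w := by
  have hne : ℘[Λ] z ≠ ℘[Λ] w := by
    intro h
    rcases (wp_inj Λ hz hw).1 h with h3 | h3
    · exact h₂ h3
    · exact h₁ h3
  have hne' : ℘[Λ] z - ℘[Λ] w ≠ 0 := sub_ne_zero.2 hne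
  rw [th_of_notMem Λ ha hb hz, th_of_notMem Λ ha hb hw, th_of_notMem Λ ha hb h₁,
    Affine.Point.add_of_X_ne hne, Affine.Point.some.injEq, Affine.slope_of_X_ne hne]
  have e1 : (℘'[Λ] z / 2 - ℘'[Λ] w / 2) / (℘[Λ] z - ℘[Λ] w) =
      (℘'[Λ] z - ℘'[Λ] w) / (℘[Λ] z - ℘[Λ] w) / 2 := by
    field_simp
  rw [e1]
  constructor
  · rw [wp_add Λ hz hw h₁ h₂]
    simp only [Affine.addX, SW]
    ring
  · rw [wp_add_deriv Λ hz hw h₁ h₂]
    simp only [Affine.addY, Affine.negAddY, Affine.addX, Affine.negY, SW]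
    ring

theorem exists_aux (z : ℂ) : ∃ u : ℂ, u ∉ Λ.lattice ∧ z + u ∉ Λ.lattice ∧ z - u ∉ Λ.lattice ∧
    2 * u ∉ Λ.lattice := by
  have hc : (Λ.lattice : Set ℂ).Countable := by
    have : Countable Λ.lattice := Λ.latticeEquivProd.toEquiv.countable_iff.2 inferInstance
    exact Set.to_countable _
  have c1 : ((fun u : ℂ => z + u) ⁻¹' (Λ.lattice : Set ℂ)).Countable :=
    hc.preimage_of_injOn ((add_right_injective z).injOn)
  have c2 : ((fun u : ℂ => z - u) ⁻¹' (Λ.lattice : Set ℂ)).Countable :=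
    hc.preimage_of_injOn ((sub_right_injective (b := z)).injOn)
  have c3 : ((fun u : ℂ => 2 * u) ⁻¹' (Λ.lattice : Set ℂ)).Countable :=
    hc.preimage_of_injOn ((mul_right_injective₀ (two_ne_zero' ℂ)).injOn)
  obtain ⟨u, hu⟩ := (((hc.union c1).union (c2.union c3)).dense_compl ℝ).nonempty
  simp only [Set.mem_compl_iff, Set.mem_union, not_or, Set.mem_preimage, SetLike.mem_coe] at hu
  exact ⟨u, hu.1.1, hu.1.2, hu.2.1, hu.2.2⟩

theorem th_double {z : ℂ} (h2 : 2 * z ∉ Λ.lattice) :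
    th Λ ha hb (2 * z) = th Λ ha hb z + th Λ ha hb z := by
  have hz : z ∉ Λ.lattice := by
    intro hz
    apply h2
    have := add_mem hz hz
    rwa [← two_mul] at this
  obtain ⟨u, hu, h3, h4, h5⟩ := exists_aux Λ z
  have hu' : -u ∉ Λ.lattice := fun h => hu (by simpa using neg_mem h)
  have e1 := th_add_generic Λ ha hb hz hu h3 h4
  have e2 := th_add_generic Λ ha hb hz hu' (by rwa [← sub_eq_add_neg]) (by rwa [sub_neg_eq_add])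
  have e3 := th_add_generic Λ ha hb h3 h4
    (by
      have : z + u + (z - u) = 2 * z := by ring
      rwa [this])
    (by
      have : z + u - (z - u) = 2 * u := by ring
      rwa [this])
  have e4 : z + u + (z - u) = 2 * z := by ring
  rw [e4] at e3
  rw [← sub_eq_add_neg, th_neg] at e2
  rw [e3, e1, e2]
  abel

theorem th_add (z w : ℂ) : th Λ ha hb (z + w) = th Λ ha hb z + th Λ ha hb w := by
  by_cases hw : w ∈ Λ.lattice
  · rw [th_add_lattice Λ ha hb z hw, th_of_mem Λ ha hb hw, add_zero]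
  by_cases hz : z ∈ Λ.lattice
  · rw [add_comm, th_add_lattice Λ ha hb w hz, th_of_mem Λ ha hb hz, zero_add]
  by_cases h₁ : z + w ∈ Λ.lattice
  · rw [th_of_mem Λ ha hb h₁]
    have : w = -z + (z + w) := by ring
    rw [this, th_add_lattice Λ ha hb (-z) h₁, th_neg, add_neg_cancel]
  by_cases h₂ : z - w ∈ Λ.lattice
  · have e1 : z = w + (z - w) := by ring
    have e2 : th Λ ha hb z = th Λ ha hb w := by
      conv_lhs => rw [e1]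
      exact th_add_lattice Λ ha hb w h₂
    have e3 : z + w = 2 * w + (z - w) := by ring
    have h3 : 2 * w ∉ Λ.lattice := by
      intro h
      apply h₁
      rw [e3]
      exact add_mem h h₂
    rw [e3, th_add_lattice Λ ha hb (2 * w) h₂, th_double Λ ha hb h3, e2]
  exact th_add_generic Λ ha hb hz hw h₁ h₂

end

end CTh

theorem th_exists (Λ : PeriodPair) {a b : ℂ} (ha : a = -Λ.g₂ / 4) (hb : b = -Λ.g₃ / 4) :
    ∃ θ : ℂ →+ Pt a b, IsTh Λ θ ∧ Function.Surjective θ := by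
  refine ⟨⟨⟨CTh.th Λ ha hb, CTh.th_of_mem Λ ha hb (zero_mem _)⟩, CTh.th_add Λ ha hb⟩,
    ⟨fun z hz => CTh.th_of_mem Λ ha hb hz, fun z hz => ⟨CTh.nons Λ ha hb hz,
      CTh.th_of_notMem Λ ha hb hz⟩⟩, ?_⟩
  rintro (_ | ⟨x, y, h⟩)
  · exact ⟨0, CTh.th_of_mem Λ ha hb (zero_mem _)⟩
  · obtain ⟨z, hz, hx⟩ := wp_surj Λ x
    have hd : dsc a b ≠ 0 := by
      rw [ha, hb]
      exact wp_dsc Λ
    have h1 := (sw_nons two_ne_zero hd).1 h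
    have h2 := (sw_nons two_ne_zero hd).1 (CTh.nons Λ ha hb hz)
    rw [hx, ← h1] at h2
    have h3 : (℘'[Λ] z / 2 - y) * (℘'[Λ] z / 2 + y) = 0 := by linear_combination h2
    rcases mul_eq_zero.1 h3 with h4 | h4
    · refine ⟨z, ?_⟩
      show CTh.th Λ ha hb z = _
      rw [CTh.th_of_notMem Λ ha hb hz, Affine.Point.some.injEq]
      exact ⟨hx, sub_eq_zero.1 h4⟩
    · refine ⟨-z, ?_⟩
      have hz' : -z ∉ Λ.lattice := fun h => hz (by simpa using neg_mem h)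
      show CTh.th Λ ha hb (-z) = _
      rw [CTh.th_of_notMem Λ ha hb hz', Affine.Point.some.injEq, Λ.weierstrassP_neg,
        Λ.derivWeierstrassP_neg]
      exact ⟨hx, by linear_combination -h4⟩

end LT
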