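import Pool.Agent.Lib_MP_f1937f_nt.CTh

/-!
# MP_f1937f_nt: facts on the uniformisation (piece CTHB)
-/

namespace LT

open Polynomial WeierstrassCurve PeriodPair Filter Topology

theorem IsTh.ker {Λ : PeriodPair} {a b : ℂ} {θ : ℂ →+ Pt a b} (h : IsTh Λ θ) (z : ℂ) :
    θ z = 0 ↔ z ∈ Λ.lattice := by
  constructor
  · intro hz
    by_contra hn
    obtain ⟨h', e⟩ := h.2 z hn
    rw [hz] at e
    exact absurd e (by rintro ⟨⟩)
  · exact h.1 z

theorem IsTh.coeff {Λ : PeriodPair} {a b : ℂ} {θ : ℂ →+ Pt a b} (h : IsTh Λ θ) :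
    a = -Λ.g₂ / 4 ∧ b = -Λ.g₃ / 4 := by
  have key : ∀ c : ℂ, (a + Λ.g₂ / 4) * c + (b + Λ.g₃ / 4) = 0 := by
    intro c
    obtain ⟨z, hz, rfl⟩ := wp_surj Λ c
    obtain ⟨h', -⟩ := h.2 z hz
    have h1 := sw_equation.1 h'.1
    have E := Λ.derivWeierstrassP_sq z hz
    linear_combination E / 4 - h1
  have h0 := key 0
  have h1 := key 1
  constructor
  · linear_combination h1 - h0
  · linear_combination h0

theorem IsTh.surj {Λ : PeriodPair} {a b : ℂ} {θ : ℂ →+ Pt a b} (h : IsTh Λ θ) :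
    Function.Surjective θ := by
  obtain ⟨ha, hb⟩ := h.coeff
  obtain ⟨θ', h', hs⟩ := th_exists Λ ha hb
  intro P
  obtain ⟨z, hz⟩ := hs P
  refine ⟨z, ?_⟩
  rw [← hz]
  by_cases hm : z ∈ Λ.lattice
  · rw [h.1 z hm, h'.1 z hm]
  · obtain ⟨h1, e1⟩ := h.2 z hm
    obtain ⟨h2, e2⟩ := h'.2 z hm
    rw [e1, e2]

end LT
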