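import Pool.Agent.Lib_MP_f1937f_nt.CorePrime

/-!
# MP_f1937f_nt: many supersingular primes from a killing modulus (layer COUNT)
-/

namespace LT

open Polynomial WeierstrassCurve

/-- The elementary facts on `d = h (11 M 7^k)`. -/
theorem core_d {h M k : ℕ} (hh : h = 1 ∨ h = 2) (hM : 0 < M) (hMo : Odd M) (hM3 : ¬ 3 ∣ M) :
    0 < h * (11 * M * 7 ^ k) ∧ ¬ 4 ∣ h * (11 * M * 7 ^ k) ∧ ¬ 3 ∣ h * (11 * M * 7 ^ k) ∧
      (h * (11 * M * 7 ^ k)).primeFactors.card ≤ M.primeFactors.card + 3 := by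
  have hodd : Odd (11 * M * 7 ^ k) := by
    rw [Nat.odd_mul, Nat.odd_mul]
    exact ⟨⟨by decide, hMo⟩, Odd.pow (by decide)⟩
  have h3 : ¬ 3 ∣ 11 * M * 7 ^ k := by
    intro h0
    rcases (Nat.Prime.dvd_mul Nat.prime_three).1 h0 with h1 | h1
    · rcases (Nat.Prime.dvd_mul Nat.prime_three).1 h1 with h2 | h2
      · omega
      · exact hM3 h2
    · have := Nat.prime_three.dvd_of_dvd_pow h1
      omega
  have hpos : 0 < 11 * M * 7 ^ k := by positivity
  refine ⟨?_, ?_, ?_, ?_⟩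
  · rcases hh with rfl | rfl <;> omega
  · rcases hodd with ⟨r, hr⟩
    rcases hh with rfl | rfl <;> omega
  · rcases hh with rfl | rfl <;> omega
  · have hsub : (h * (11 * M * 7 ^ k)).primeFactors ⊆ {2, 11, 7} ∪ M.primeFactors := by
      intro p hp
      obtain ⟨hp1, hp2, hp3⟩ := Nat.mem_primeFactors.1 hp
      rw [Finset.mem_union]
      rcases hp1.dvd_mul.1 hp2 with h1 | h1
      · left
        rcases hh with rfl | rfl
        · exact absurd (Nat.dvd_one.1 h1) hp1.one_lt.ne'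
        · have := (Nat.prime_dvd_prime_iff_eq hp1 Nat.prime_two).1 h1
          simp [this]
      · rcases hp1.dvd_mul.1 h1 with h2 | h2
        · rcases hp1.dvd_mul.1 h2 with h4 | h4
          · left
            have := (Nat.prime_dvd_prime_iff_eq hp1 (by norm_num)).1 h4
            simp [this]
          · right
            exact Nat.mem_primeFactors.2 ⟨hp1, h4, hM.ne'⟩
        · left
          have := (Nat.prime_dvd_prime_iff_eq hp1 (by norm_num)).1 (hp1.dvd_of_dvd_pow h2)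
          simp [this]
    have h1 := Finset.card_le_card hsub
    have h2 := Finset.card_union_le ({2, 11, 7} : Finset ℕ) M.primeFactors
    have h4 : ({2, 11, 7} : Finset ℕ).card = 3 := by decide
    omega

theorem red_transport {p q : ℕ} [Fact p.Prime] (h : q = p) {n : ℕ} {j : ℚ}
    (H : ∃ _ : Fact q.Prime, ∃ L : AddSubgroup (Pt (0 : Fb q) (-31 / 4)), RedL q n j L) :
    ∃ L : AddSubgroup (Pt (0 : Fb p) (-31 / 4)), RedL p n j L := by
  subst h
  obtain ⟨_, L, hL⟩ := H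
  exact ⟨L, hL⟩

open Real in
theorem core (W : WeierstrassCurve ℤ) (hΔ : W.Δ ≠ 0) (hCM : NoCM W) :
    ∃ (B : Finset ℕ) (C : ℝ), 0 < C ∧ ∃ Y₀ : ℕ, ∀ Y : ℕ, Y₀ ≤ Y → ∀ M : ℕ, 0 < M → Odd M →
      ¬ 3 ∣ M → ¬ 7 ∣ M →
      (∀ p : ℕ, p.Prime → p % 3 = 2 → (p ∈ SS W Y ∨ p ∈ B ∨ p ∣ 22 * M) → KilledBy p M) →
      ∀ X : ℕ, exp (C * ((M : ℝ) * Y) ^ 6) ≤ X →
        (Y : ℝ) ^ ((1 : ℝ) / 4) ≤ C * 2 ^ M.primeFactors.card * log Y * (SS W X).card := by
  obtain ⟨hc0, hc1⟩ := noCM_ne hΔ hCM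
  obtain ⟨h, lo, hi, C, hh, hlo, hlh, hC, hprime⟩ := core_prime W hΔ hCM
  set hi' : ℝ := min hi (4 * lo) with hhi'
  have hlh' : lo < hi' := lt_min hlh (by linarith)
  have hhi'0 : 0 < hi' := hlo.trans hlh'
  obtain ⟨c, hc, Y₁, hwin⟩ := window hlo hlh'
  refine ⟨badW W, C * (61 * hi') ^ 3 + 48 / c, by positivity, Y₁ + 3, ?_⟩
  intro Y hY M hM hMo hM3 hM7 hkill X hX
  obtain ⟨k, T, hTc, hT⟩ := hwin Y (by omega) (11 * M) (by omega)
  have hY3 : (3 : ℝ) ≤ Y := by
    have : 3 ≤ Y := by omega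
    exact_mod_cast this
  have hM1 : (1 : ℝ) ≤ M := by exact_mod_cast hM
  obtain ⟨hd0, hd4, hd3, hdc⟩ := core_d (k := k) hh hM hMo hM3
  set d : ℕ := h * (11 * M * 7 ^ k) with hd
  -- the prime attached to `m`
  have key : ∀ m ∈ T, ∃ p : ℕ, ∃ _ : Fact p.Prime, 5 ≤ p ∧ p % 3 = 2 ∧ ¬ p ∣ d * m ∧
        p ∈ SS W X ∧ Y < p ∧ p ∉ badW W ∧
        ∃ L : AddSubgroup (Pt (0 : Fb p) (-31 / 4)), RedL p (d * m) (jW W) L := by
    intro m hm
    obtain ⟨hmb, hmY, hw1, hw2⟩ := hT m hm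
    apply hprime Y M k m hM hMo hM3 hM7 hkill hmb hw1 (hw2.trans_le (min_le_left _ _)) X
    refine le_trans (exp_le_exp.2 ?_) hX
    -- the size of `n = d m`
    have hm0 : 0 < m := by
      obtain ⟨b, -, -, rfl⟩ := hmb
      omega
    have hm1 : (1 : ℝ) ≤ m := by exact_mod_cast hm0
    have hmY' : (4 * m * m : ℝ) ≤ Y := by exact_mod_cast hmY
    have h7 : (7 : ℝ) ^ k ≤ hi' * (11 * M * m) := by
      rw [div_lt_iff₀ (by push_cast; positivity)] at hw2
      push_cast at hw2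
      exact hw2.le
    have hh2 : (h : ℝ) ≤ 2 := by
      rcases hh with rfl | rfl <;> norm_num
    have hn : ((d * m : ℕ) : ℝ) ≤ 61 * hi' * M ^ 2 * Y := by
      rw [hd]
      push_cast
      calc (h : ℝ) * (11 * M * 7 ^ k) * m ≤ 2 * (11 * M * (hi' * (11 * M * m))) * m := by gcongr
        _ = 60.5 * hi' * M ^ 2 * (4 * m * m) := by ring
        _ ≤ 60.5 * hi' * M ^ 2 * Y := by gcongr
        _ ≤ 61 * hi' * M ^ 2 * Y := by gcongr; norm_num
    have hY1 : (1 : ℝ) ≤ Y := by linarith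
    calc C * ((d * m : ℕ) : ℝ) ^ 3 ≤ C * (61 * hi' * M ^ 2 * Y) ^ 3 := by gcongr
      _ = C * (61 * hi') ^ 3 * ((M : ℝ) ^ 6 * Y ^ 3) := by ring
      _ ≤ C * (61 * hi') ^ 3 * ((M : ℝ) ^ 6 * Y ^ 6) := by
          have : (Y : ℝ) ^ 3 ≤ Y ^ 6 := pow_le_pow_right₀ hY1 (by norm_num)
          gcongr
      _ = C * (61 * hi') ^ 3 * ((M : ℝ) * Y) ^ 6 := by ring
      _ ≤ (C * (61 * hi') ^ 3 + 48 / c) * ((M : ℝ) * Y) ^ 6 := by
          have : 0 ≤ 48 / c := by positivity
          gcongr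
          linarith
  choose! P hP using key
  -- every prime serves few `m`
  have hfib : ∀ p ∈ SS W X, (T.filter (fun m => P m = p)).card ≤ 48 * 2 ^ M.primeFactors.card := by
    intro p hp
    by_cases hne : (T.filter (fun m => P m = p)).Nonempty
    · obtain ⟨m₀, hm₀⟩ := hne
      rw [Finset.mem_filter] at hm₀
      obtain ⟨hm₀T, rfl⟩ := hm₀
      obtain ⟨hpf, hp5, hp3, hpn, hpX, hpY, hpB, -⟩ := hP m₀ hm₀T
      set p := P m₀ with hpdef
      obtain ⟨hb1, hb2, hb3⟩ := badW_not hΔ hCM hpf.out hpB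
      obtain ⟨hj0, hj1⟩ := jW_ne hb1 hb2 hb3
      have hsb := serve_bound hp5 hp3 hd0 hd4 hd3 (jW_val hΔ hb1 hc0) hj0 hj1
        (T.filter (fun m => P m = p)) (by
          intro m hm
          rw [Finset.mem_filter] at hm
          obtain ⟨hmT, hmp⟩ := hm
          obtain ⟨hmb, hmY, -, -⟩ := hT m hmT
          obtain ⟨hpf', -, -, hpn', -, hpY', -, L, hL⟩ := hP m hmT
          refine ⟨?_, ?_, ?_, ?_⟩
          · obtain ⟨b, -, -, rfl⟩ := hmb
            omega
          · omega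
          · rw [← hmp]
            exact hpn'
          · exact red_transport hmp ⟨hpf', L, hL⟩) 1 (by
          intro B hB hsq
          apply window_square hlo (min_le_right hi (4 * lo)) (M := 11 * M) (k := k) (by omega)
            (T := T) (fun m hm => ⟨(hT m hm).1, (hT m hm).2.2⟩) B
            (hB.trans (Finset.filter_subset _ _)) hsq)
      refine hsb.trans ?_
      have h1 : 2 ^ d.primeFactors.card ≤ 2 ^ (M.primeFactors.card + 3) :=
        Nat.pow_le_pow_right (by norm_num) hdc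
      rw [pow_add] at h1
      omega
    · rw [Finset.not_nonempty_iff_eq_empty] at hne
      rw [hne]
      simp
  have hcard := Finset.card_le_mul_card_image_of_maps_to (f := P) (s := T) (t := SS W X)
    (fun m hm => by
      obtain ⟨-, -, -, -, h1, -⟩ := hP m hm
      exact h1) (48 * 2 ^ M.primeFactors.card) hfib
  have hcard' : (T.card : ℝ) ≤ 48 * 2 ^ M.primeFactors.card * (SS W X).card := by
    exact_mod_cast hcard
  have hlog : 1 ≤ log Y := by
    rw [le_log_iff_exp_le (by linarith)]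
    have := exp_one_lt_d9
    linarith
  have hcY : (Y : ℝ) ^ ((1 : ℝ) / 4) ≤ 48 / c * 2 ^ M.primeFactors.card * (SS W X).card := by
    have h1 := hTc.trans hcard'
    rw [div_mul_eq_mul_div, div_mul_eq_mul_div, le_div_iff₀ hc]
    linarith
  refine hcY.trans ?_
  have h2 : 0 ≤ 48 / c * 2 ^ M.primeFactors.card * ((SS W X).card : ℝ) := by positivity
  calc 48 / c * 2 ^ M.primeFactors.card * ((SS W X).card : ℝ)
      ≤ 48 / c * 2 ^ M.primeFactors.card * ((SS W X).card : ℝ) * log Y := by nlinarith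
    _ = 48 / c * 2 ^ M.primeFactors.card * log Y * ((SS W X).card : ℝ) := by ring
    _ ≤ (C * (61 * hi') ^ 3 + 48 / c) * 2 ^ M.primeFactors.card * log Y * (SS W X).card := by
        have h3 : 0 ≤ C * (61 * hi') ^ 3 := by positivity
        gcongr
        linarith

end LT
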