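import Pool.Agent.Lib_MP_f1937f_nt.SizeC

/-!
# MP_f1937f_nt: products over the cyclic subgroups are rational
-/

namespace LT

open Polynomial WeierstrassCurve

theorem hom_quarter {Ω Ω' : Type} [Field Ω] [Field Ω'] (σ : Ω →+* Ω') :
    σ (-31 / 4) = -31 / 4 := by
  rw [map_div₀, map_neg, map_ofNat, map_ofNat]

theorem dsc_quarter {Ω : Type} [Field Ω] [CharZero Ω] : dsc (0 : Ω) (-31 / 4) ≠ 0 := by
  rw [dsc]
  norm_num

section

variable {Ω Ω' : Type} [Field Ω] [DecidableEq Ω] [CharZero Ω] [IsAlgClosed Ω] [Field Ω']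
  [DecidableEq Ω'] [CharZero Ω'] [IsAlgClosed Ω']

omit [CharZero Ω] [IsAlgClosed Ω] [CharZero Ω'] [IsAlgClosed Ω'] in
theorem cycL_mapsTo (σ : Ω →+* Ω') (h0 : σ 0 = 0) (h1 : σ (-31 / 4) = -31 / 4) {n : ℕ}
    {L : AddSubgroup (Pt (0 : Ω) (-31 / 4))} (hL : L ∈ CycL (0 : Ω) (-31 / 4) n) :
    L.map (mapPt σ h0 h1) ∈ CycL (0 : Ω') (-31 / 4) n := by
  obtain ⟨T, hT, rfl⟩ := hL
  refine ⟨mapPt σ h0 h1 T, ?_, ?_⟩
  · rw [← hT]
    exact addOrderOf_injective (mapPt σ h0 h1) (mapPt_injective σ h0 h1) T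
  · exact AddMonoidHom.map_zmultiples _ _

/-- Torsion points come from the smaller field. -/
theorem tors_surj (σ : Ω →+* Ω') (h0 : σ 0 = 0) (h1 : σ (-31 / 4) = -31 / 4) {n : ℕ} (hn : 0 < n)
    {T' : Pt (0 : Ω') (-31 / 4)} (hT' : n • T' = 0) :
    ∃ T : Pt (0 : Ω) (-31 / 4), mapPt σ h0 h1 T = T' := by
  have c1 : Nat.card {P : Pt (0 : Ω) (-31 / 4) // n • P = 0} = n ^ 2 :=
    card_tors two_ne_zero dsc_quarter (by exact_mod_cast hn.ne')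
  have c2 : Nat.card {P : Pt (0 : Ω') (-31 / 4) // n • P = 0} = n ^ 2 :=
    card_tors two_ne_zero dsc_quarter (by exact_mod_cast hn.ne')
  have hpos : 0 < n ^ 2 := pow_pos hn 2
  have f2 : Finite {P : Pt (0 : Ω') (-31 / 4) // n • P = 0} :=
    Nat.finite_of_card_ne_zero (by rw [c2]; exact hpos.ne')
  let F : {P : Pt (0 : Ω) (-31 / 4) // n • P = 0} → {P : Pt (0 : Ω') (-31 / 4) // n • P = 0} :=
    fun P => ⟨mapPt σ h0 h1 P.1, by rw [← map_nsmul, P.2, map_zero]⟩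
  have hF : Function.Injective F := by
    intro P Q h
    apply Subtype.ext
    exact mapPt_injective σ h0 h1 (congrArg Subtype.val h)
  have hbij : Function.Bijective F :=
    (Nat.bijective_iff_injective_and_card F).2 ⟨hF, by rw [c1, c2]⟩
  obtain ⟨T, hT⟩ := hbij.2 ⟨T', hT'⟩
  exact ⟨T.1, congrArg Subtype.val hT⟩

theorem cycL_bijOn (σ : Ω →+* Ω') (h0 : σ 0 = 0) (h1 : σ (-31 / 4) = -31 / 4) {n : ℕ}
    (hn : 0 < n) : Set.BijOn (fun L : AddSubgroup (Pt (0 : Ω) (-31 / 4)) =>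
      L.map (mapPt σ h0 h1)) (CycL (0 : Ω) (-31 / 4) n) (CycL (0 : Ω') (-31 / 4) n) := by
  refine ⟨fun L hL => cycL_mapsTo σ h0 h1 hL, ?_, ?_⟩
  · exact (AddSubgroup.map_injective (mapPt_injective σ h0 h1)).injOn
  · rintro L' ⟨T', hT', rfl⟩
    obtain ⟨T, rfl⟩ := tors_surj σ h0 h1 hn (T' := T') (by
      rw [← hT']
      exact addOrderOf_nsmul_eq_zero T')
    refine ⟨AddSubgroup.zmultiples T, ⟨T, ?_, rfl⟩, ?_⟩
    · rw [← hT']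
      exact (addOrderOf_injective (mapPt σ h0 h1) (mapPt_injective σ h0 h1) T).symm
    · exact AddMonoidHom.map_zmultiples _ _

end

theorem isAlgClosure_ac (k : Type) [Field k] : IsAlgClosure k (AlgebraicClosure k) :=
  inferInstance

theorem isAlgClosure_rat : IsAlgClosure ℚ (AlgebraicClosure ℚ) := by
  have h := isAlgClosure_ac ℚ
  convert h
  · rfl
  · exact Subsingleton.elim _ _

theorem isGalois_rat : IsGalois ℚ (AlgebraicClosure ℚ) := by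
  have h := isAlgClosure_rat
  infer_instance

theorem prod_rat {n : ℕ} (hn : 0 < n)
    (φ : ∀ (Ω : Type) [Field Ω] [DecidableEq Ω], AddSubgroup (Pt (0 : Ω) (-31 / 4)) → Ω)
    (hφ : ∀ (Ω Ω' : Type) [Field Ω] [DecidableEq Ω] [CharZero Ω] [Field Ω'] [DecidableEq Ω']
      [CharZero Ω'] (σ : Ω →+* Ω') (h0 : σ 0 = 0) (h1 : σ (-31 / 4) = -31 / 4),
      ∀ L ∈ CycL (0 : Ω) (-31 / 4) n, φ Ω' (L.map (mapPt σ h0 h1)) = σ (φ Ω L)) :
    ∃ N : ℚ, ∀ (Ω : Type) [Field Ω] [DecidableEq Ω] [CharZero Ω] [IsAlgClosed Ω],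
      ∏ᶠ L ∈ CycL (0 : Ω) (-31 / 4) n, φ Ω L = (N : Ω) := by
  classical
  have key : ∀ (Ω Ω' : Type) [Field Ω] [DecidableEq Ω] [CharZero Ω] [IsAlgClosed Ω] [Field Ω']
      [DecidableEq Ω'] [CharZero Ω'] [IsAlgClosed Ω'] (σ : Ω →+* Ω'),
      ∏ᶠ L ∈ CycL (0 : Ω') (-31 / 4) n, φ Ω' L =
        σ (∏ᶠ L ∈ CycL (0 : Ω) (-31 / 4) n, φ Ω L) := by
    intro Ω Ω' _ _ _ _ _ _ _ _ σ
    have h0 : σ 0 = 0 := map_zero σ
    have h1 : σ (-31 / 4) = -31 / 4 := hom_quarter σ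
    have e1 : σ (∏ᶠ L ∈ CycL (0 : Ω) (-31 / 4) n, φ Ω L) =
        ∏ᶠ L ∈ CycL (0 : Ω) (-31 / 4) n, σ (φ Ω L) :=
      MonoidHom.map_finprod_mem (fun L => φ Ω L) (σ : Ω →* Ω') (cycL_finite hn).1
    rw [e1]
    symm
    exact finprod_mem_eq_of_bijOn _ (cycL_bijOn σ h0 h1 hn)
      (fun L hL => (hφ Ω Ω' σ h0 h1 L hL).symm)
  have hfix : ∀ τ : AlgebraicClosure ℚ ≃ₐ[ℚ] AlgebraicClosure ℚ,
      τ (∏ᶠ L ∈ CycL (0 : AlgebraicClosure ℚ) (-31 / 4) n, φ (AlgebraicClosure ℚ) L) =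
      ∏ᶠ L ∈ CycL (0 : AlgebraicClosure ℚ) (-31 / 4) n, φ (AlgebraicClosure ℚ) L := by
    intro τ
    exact (key (AlgebraicClosure ℚ) (AlgebraicClosure ℚ)
      (τ : AlgebraicClosure ℚ →+* AlgebraicClosure ℚ)).symm
  have hGal : IsGalois ℚ (AlgebraicClosure ℚ) := isGalois_rat
  have hrange := (InfiniteGalois.mem_range_algebraMap_iff_fixed (k := ℚ)
    (∏ᶠ L ∈ CycL (0 : AlgebraicClosure ℚ) (-31 / 4) n, φ (AlgebraicClosure ℚ) L)).2 hfix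
  obtain ⟨N, hN⟩ := hrange
  refine ⟨N, fun Ω _ _ _ _ => ?_⟩
  let ι : AlgebraicClosure ℚ →ₐ[ℚ] Ω := IsAlgClosed.lift
  rw [key (AlgebraicClosure ℚ) Ω (ι : AlgebraicClosure ℚ →+* Ω), ← hN]
  have e1 : ((ι : AlgebraicClosure ℚ →+* Ω)) ((algebraMap ℚ (AlgebraicClosure ℚ)) N) =
      algebraMap ℚ Ω N := ι.commutes N
  rw [e1]
  exact eq_ratCast (algebraMap ℚ Ω) N

end LT
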