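import Pool.Agent.Lib_MP_f1937f_nt.SizeD
import Pool.Agent.Lib_MP_f1937f_nt.GlobGen

/-!
# MP_f1937f_nt: `N_n` is a rational number, independent of the field (layer GAL)
-/

namespace LT

open Polynomial WeierstrassCurve

theorem jL_natural {Ω Ω' : Type} [Field Ω] [DecidableEq Ω] [Field Ω'] [DecidableEq Ω']
    (σ : Ω →+* Ω') {a b : Ω} {a' b' : Ω'} (ha : σ a = a') (hb : σ b = b')
    {L : AddSubgroup (Pt a b)} (hL : Finite L) :
    jL a' b' (L.map (mapPt σ ha hb)) = σ (jL a b L) := by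
  rw [jL, jL, vA_map σ ha hb hL, vB_map σ ha hb hL, jinv, jinv, dsc, dsc, map_div₀, map_mul,
    map_pow, map_add, map_mul, map_mul, map_pow, map_pow, map_ofNat, map_ofNat, map_ofNat]

/-- `N_n` is rational and does not depend on the algebraically closed field. -/
theorem NN_rat (j : ℚ) {n : ℕ} (hn : 0 < n) :
    ∃ N : ℚ, ∀ (Ω : Type) [Field Ω] [DecidableEq Ω] [CharZero Ω] [IsAlgClosed Ω],
      NN Ω (j : Ω) n = (N : Ω) := by
  refine prod_rat hn (fun Ω _ _ L => (j : Ω) - jL 0 (-31 / 4) L) ?_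
  intro Ω Ω' _ _ _ _ _ _ σ h0 h1 L hL
  rw [jL_natural σ h0 h1 (cycL_mem hn hL).1, map_sub, map_ratCast]

end LT
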