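import Pool.Agent.Lib_MP_f1937f_nt.LC

/-!
# MP_f1937f_nt: the local theorem at a good prime (piece LOCMAIN)
-/

namespace LT

open Polynomial WeierstrassCurve

/-- Subgroups of the reduction lift. -/
theorem lift_sub {A B : Type} [AddCommGroup A] [AddCommGroup B] (f : A →+ B) (L : AddSubgroup A)
    {L' : AddSubgroup B} (h : L' ≤ L.map f) : ∃ M : AddSubgroup A, M ≤ L ∧ M.map f = L' := by
  refine ⟨L ⊓ L'.comap f, inf_le_left, ?_⟩
  apply le_antisymm
  · rintro _ ⟨x, hx, rfl⟩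
    exact hx.2
  · intro y hy
    obtain ⟨x, hx, rfl⟩ := h hy
    exact ⟨x, ⟨hx, hy⟩, rfl⟩

/-- An element of norm less than one reduces to zero. -/
theorem rdc_small {p : ℕ} [Fact p.Prime] {x : PadicAlgCl p} {x' : Fb p}
    (h : Rdc (OP p) (rP p) x x') (hx : ‖x‖ < 1) : x' = 0 := by
  by_contra h0
  have h1 : x⁻¹ ∈ OP p := (Rdc.inv h h0).mem
  rw [mem_OP, norm_inv] at h1
  have hx0 : x ≠ 0 := by
    rintro rfl
    exact h0 (Rdc.unique h (Rdc.zero _ _))
  have hpos : 0 < ‖x‖ := norm_pos_iff.2 hx0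
  have h2 : 1 < ‖x‖⁻¹ := (one_lt_inv₀ hpos).2 hx
  exact absurd h1 (not_le.2 h2)

/-- A homomorphism which is injective on the `n`-torsion maps cyclic subgroups of order `n` to
cyclic subgroups of order `n`. -/
theorem cyc_map_of_inj {k k' : Type} [Field k] [DecidableEq k] [Field k'] [DecidableEq k']
    {a b : k} {a' b' : k'} (f : Pt a b →+ Pt a' b') {n : ℕ}
    (hinj : ∀ P : Pt a b, n • P = 0 → f P = 0 → P = 0) {L : AddSubgroup (Pt a b)}
    (hL : L ∈ CycL a b n) : L.map f ∈ CycL a' b' n := by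
  obtain ⟨T, hT, rfl⟩ := hL
  refine ⟨f T, ?_, AddMonoidHom.map_zmultiples f T⟩
  apply Nat.dvd_antisymm
  · rw [← hT]
    exact addOrderOf_map_dvd f T
  · rw [← hT]
    apply addOrderOf_dvd_of_nsmul_eq_zero
    apply hinj
    · rw [smul_comm, ← hT, addOrderOf_nsmul_eq_zero, smul_zero]
    · rw [map_nsmul, addOrderOf_nsmul_eq_zero]

/-- At a prime `p ≥ 5`, `p = 2 mod 3`, not dividing `n`, where `N_n` has odd valuation, there are
reduction data. -/
theorem local_main {p : ℕ} [Fact p.Prime] (h5 : 5 ≤ p) (h3 : p % 3 = 2) {n : ℕ} (hn : 0 < n)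
    (hpn : ¬ p ∣ n) {j : ℚ} (hj : 0 ≤ padicValRat p j) {N : ℚ}
    (hN : NN (PadicAlgCl p) (j : PadicAlgCl p) n = (N : PadicAlgCl p))
    (hodd : Odd (padicValRat p N)) :
    0 < padicValRat p N ∧ ∃ L : AddSubgroup (Pt (0 : Fb p) (-31 / 4)), RedL p n j L := by
  refine ⟨lt_of_le_of_ne (val_nonneg h5 h3 hn hpn hj hN) ?_, ?_⟩
  · intro h0
    rw [← h0] at hodd
    exact absurd hodd (by decide)
  obtain ⟨red, hred, -⟩ := redE_exists (p := p) h5 h3
  obtain ⟨L, hL, σ, hσ, hfix, hclose⟩ := exists_fixed h5 h3 hn hpn hj hN hodd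
  obtain ⟨ι⟩ := embed_padic p
  have h2' : (2 : Fb p) ≠ 0 := (fb_ne h5).1
  have h3' : (3 : Fb p) ≠ 0 := (fb_ne h5).2
  have ha : Rdc (OP p) (rP p) (0 : PadicAlgCl p) (0 : Fb p) := Rdc.zero _ _
  have hb : Rdc (OP p) (rP p) (-31 / 4 : PadicAlgCl p) (-31 / 4 : Fb p) := rdc_quarter h5
  have hd' : dsc (0 : Fb p) (-31 / 4) ≠ 0 := e0_dsc h5 h3
  have hd : dsc (0 : PadicAlgCl p) (-31 / 4) ≠ 0 := dsc_ne_of_red ha hb hd'
  haveI : CharZero (PadicAlgCl p) := ι.charZero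
  have hnK : (n : PadicAlgCl p) ≠ 0 := Nat.cast_ne_zero.2 hn.ne'
  obtain ⟨hfin, hcard⟩ := (CycL_fin (k := PadicAlgCl p) two_ne_zero hd hnK).2 L hL
  have hnF : (n : Fb p) ≠ 0 := by
    intro h
    exact hpn ((CharP.cast_eq_zero_iff (Fb p) p n).1 h)
  have hcL : ¬ p ∣ Nat.card L := by
    rw [hcard]
    exact hpn
  have hcF : (Nat.card L : Fb p) ≠ 0 := by
    rw [hcard]
    exact hnF
  refine ⟨L.map red, ?_, ?_, ?_, ?_⟩
  · exact cyc_map_of_inj red (fun P hP h0 => IsRed.inj ha hb h2' hd' hred hnF hP h0) hL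
  · exact frob_stable h5 h3 hred σ hσ L hfin hcL hfix
  · have h1 := jL_red h5 h3 hred L hfin hcL
    have h2 := rdc_rat (p := p) hj
    have h4 := rdc_small (h2.sub h1) hclose
    exact (sub_eq_zero.1 h4).symm
  · intro L'' hL''
    obtain ⟨M, hM, rfl⟩ := lift_sub red L hL''
    exact chain_reduce (rP_surj p) ha hb h2' h3' hd' hred hM hfin hcF (chain_char0 ι hM hfin)

end LT
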