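import Pool.Agent.Lib_MP_f1937f_nt.Red
import Pool.Agent.Lib_MP_f5471b_nt.AddSub

/-!
# MP_f1937f_nt: integrality of torsion points (piece TORSINT)
-/

namespace LT

open Polynomial WeierstrassCurve

namespace TorsInt

section

variable {K : Type} [Field K] {W : WeierstrassCurve K}

/-- `t = 1 / x(P)` (and `0` at the origin). -/
def IsXi (P : W.toAffine.Point) (t : K) : Prop := P.xRep 0 ≠ 0 ∧ P.xRep 1 = t * P.xRep 0

theorem IsXi.unique {P : W.toAffine.Point} {t t' : K} (h : IsXi P t) (h' : IsXi P t') :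
    t = t' := by
  have h1 := h.2.symm.trans h'.2
  exact mul_right_cancel₀ h.1 h1

theorem isXi_zero : IsXi (0 : W.toAffine.Point) 0 := by
  constructor
  · simp
  · simp

theorem isXi_some {x y : K} (h : W.toAffine.Nonsingular x y) (hx : x ≠ 0) :
    IsXi (Affine.Point.some x y h) x⁻¹ := by
  constructor
  · simpa using hx
  · simp [hx]

variable [DecidableEq K]

/-- The sum and the difference in terms of `1 / x`. -/
theorem step [W.IsElliptic] {P Q : W.toAffine.Point} {s t : K} (hP : IsXi P s) (hQ : IsXi Q t)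
    (hG : 1 - W.b₄ * (s * t) - W.b₆ * (s + t) * (s * t) - W.b₈ * (s * t) ^ 2 ≠ 0) :
    ∃ u v : K, IsXi (P + Q) u ∧ IsXi (P - Q) v ∧
      (u + v) * (1 - W.b₄ * (s * t) - W.b₆ * (s + t) * (s * t) - W.b₈ * (s * t) ^ 2) =
        2 * (s + t) + W.b₂ * (s * t) + W.b₄ * (s + t) * (s * t) + W.b₆ * (s * t) ^ 2 := by
  obtain ⟨c, hc, h⟩ := LangForms.addSub_rel W P Q
  have hs : P.sym2x Q = ![P.xRep 0 * Q.xRep 0, P.xRep 0 * Q.xRep 1 + P.xRep 1 * Q.xRep 0,
      P.xRep 1 * Q.xRep 1] := rfl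
  have hs' : (P + Q).sym2x (P - Q) = ![(P + Q).xRep 0 * (P - Q).xRep 0,
      (P + Q).xRep 0 * (P - Q).xRep 1 + (P + Q).xRep 1 * (P - Q).xRep 0,
      (P + Q).xRep 1 * (P - Q).xRep 1] := rfl
  rw [hs, hs', LangForms.AddSub.eval_addSubMap] at h
  have e0 := congrFun h 0
  have e1 := congrFun h 1
  simp only [Pi.smul_apply, smul_eq_mul, Matrix.cons_val_zero, Matrix.cons_val_one] at e0 e1
  rw [hP.2, hQ.2] at e0 e1
  have hX := hP.1
  have hY := hQ.1
  generalize P.xRep 0 = X at e0 e1 hX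
  generalize Q.xRep 0 = Y at e0 e1 hY
  have e0' : (X * Y) ^ 2 * (1 - W.b₄ * (s * t) - W.b₆ * (s + t) * (s * t) - W.b₈ * (s * t) ^ 2) =
      c * ((P + Q).xRep 0 * (P - Q).xRep 0) := by
    rw [← e0]
    ring
  have e1' : (X * Y) ^ 2 * (2 * (s + t) + W.b₂ * (s * t) + W.b₄ * (s + t) * (s * t) +
      W.b₆ * (s * t) ^ 2) =
      c * ((P + Q).xRep 0 * (P - Q).xRep 1 + (P + Q).xRep 1 * (P - Q).xRep 0) := by
    rw [← e1]
    ring
  have hne : (P + Q).xRep 0 * (P - Q).xRep 0 ≠ 0 := by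
    intro h0
    rw [h0, mul_zero] at e0'
    exact mul_ne_zero (pow_ne_zero 2 (mul_ne_zero hX hY)) hG e0'
  have hA : (P + Q).xRep 0 ≠ 0 := left_ne_zero_of_mul hne
  have hB : (P - Q).xRep 0 ≠ 0 := right_ne_zero_of_mul hne
  refine ⟨(P + Q).xRep 1 / (P + Q).xRep 0, (P - Q).xRep 1 / (P - Q).xRep 0, ⟨hA, ?_⟩, ⟨hB, ?_⟩, ?_⟩
  · field_simp
  · field_simp
  · have h3 : ((P + Q).xRep 1 / (P + Q).xRep 0 + (P - Q).xRep 1 / (P - Q).xRep 0) *
        ((P + Q).xRep 0 * (P - Q).xRep 0) =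
        (P + Q).xRep 0 * (P - Q).xRep 1 + (P + Q).xRep 1 * (P - Q).xRep 0 := by
      field_simp
      ring
    apply mul_left_cancel₀ (pow_ne_zero 2 (mul_ne_zero hX hY))
    rw [e1', ← h3]
    linear_combination ((P + Q).xRep 1 / (P + Q).xRep 0 + (P - Q).xRep 1 / (P - Q).xRep 0) * e0'

end

/-- `1 + s² w` is a unit. -/
theorem unit_of {K : Type} [Field K] (O : ValuationSubring K) {s w : K} (hs : O.valuation s < 1)
    (hw : w ∈ O) : 1 + s * w ≠ 0 ∧ (1 + s * w)⁻¹ ∈ O := by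
  have h1 : O.valuation (s * w) < 1 := by
    rw [map_mul]
    exact mul_lt_one_of_lt_of_le hs ((O.valuation_le_one_iff w).mpr hw)
  have h2 := Valuation.map_one_add_of_lt O.valuation h1
  constructor
  · intro h
    rw [h, map_zero] at h2
    exact zero_ne_one h2
  · rw [← O.valuation_le_one_iff, map_inv₀, h2, inv_one]

theorem key {K : Type} [Field K] [DecidableEq K] (O : ValuationSubring K)
    (W : WeierstrassCurve K) [W.IsElliptic] (h2 : W.b₂ ∈ O) (h4 : W.b₄ ∈ O) (h6 : W.b₆ ∈ O)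
    (h8 : W.b₈ ∈ O) {P : W.toAffine.Point} {s : K} (hs : O.valuation s < 1) (hP : IsXi P s)
    (k : ℕ) :
    (∃ o : K, o ∈ O ∧ IsXi (k • P) ((k : K) ^ 2 * s + s ^ 2 * o)) ∧
    (∃ o : K, o ∈ O ∧ IsXi ((k + 1) • P) (((k + 1 : ℕ) : K) ^ 2 * s + s ^ 2 * o)) := by
  have hsO : s ∈ O := (O.valuation_le_one_iff s).mp hs.le
  have hnat : ∀ n : ℕ, (n : K) ∈ O := fun n => natCast_mem O n
  induction k with
  | zero =>
    refine ⟨⟨0, zero_mem O, ?_⟩, ⟨0, zero_mem O, ?_⟩⟩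
    · rw [zero_nsmul]
      simpa using isXi_zero
    · rw [zero_add, one_nsmul]
      simpa using hP
  | succ k ih =>
    refine ⟨ih.2, ?_⟩
    obtain ⟨⟨o, ho, h0⟩, ⟨o', ho', h1⟩⟩ := ih
    set n : K := ((k + 1 : ℕ) : K) with hn
    have hnO : n ∈ O := hnat _
    -- the product of the two values
    obtain ⟨w, hw⟩ : ∃ w : K, w = n ^ 2 + s * o' := ⟨_, rfl⟩
    have hwO : w ∈ O := by
      rw [hw]
      exact add_mem (pow_mem hnO 2) (mul_mem hsO ho')
    have hst : n ^ 2 * s + s ^ 2 * o' = s * w := by rw [hw]; ring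
    rw [hst] at h1
    have hg : ∃ g : K, g ∈ O ∧ 1 - W.b₄ * (s * w * s) - W.b₆ * (s * w + s) * (s * w * s) -
        W.b₈ * (s * w * s) ^ 2 = 1 + s * (s * g) := by
      refine ⟨-(W.b₄ * w) - W.b₆ * (s * w + s) * w - W.b₈ * (w * w * s * s), ?_, by ring⟩
      exact sub_mem (sub_mem (neg_mem (mul_mem h4 hwO)) (mul_mem (mul_mem h6 (add_mem
        (mul_mem hsO hwO) hsO)) hwO)) (mul_mem h8 (mul_mem (mul_mem (mul_mem hwO hwO) hsO) hsO))
    obtain ⟨g, hgO, hg⟩ := hg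
    obtain ⟨hu, huO⟩ := unit_of O hs (mul_mem hsO hgO)
    obtain ⟨u, v, hu1, hv1, huv⟩ := step h1 hP (by rw [hg]; exact hu)
    have e1 : (k + 1) • P + P = (k + 1 + 1) • P := (succ_nsmul P (k + 1)).symm
    have e2 : (k + 1) • P - P = k • P := by
      rw [succ_nsmul, add_sub_cancel_right]
    rw [e1] at hu1
    rw [e2] at hv1
    have hv2 := hv1.unique h0
    rw [hg] at huv
    -- the numerator
    obtain ⟨r, hrO, hr⟩ : ∃ r : K, r ∈ O ∧ 2 * (s * w + s) + W.b₂ * (s * w * s) +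
        W.b₄ * (s * w + s) * (s * w * s) + W.b₆ * (s * w * s) ^ 2 = 2 * (s * w + s) + s ^ 2 * r := by
      refine ⟨W.b₂ * w + W.b₄ * (s * w + s) * w + W.b₆ * (w * w * s * s), ?_, by ring⟩
      exact add_mem (add_mem (mul_mem h2 hwO) (mul_mem (mul_mem h4 (add_mem
        (mul_mem hsO hwO) hsO)) hwO)) (mul_mem h6 (mul_mem (mul_mem (mul_mem hwO hwO) hsO) hsO))
    rw [hr] at huv
    have h2O : (2 : K) ∈ O := by exact_mod_cast hnat 2
    -- the value
    have hval : u + v = 2 * (s * w + s) + s ^ 2 * ((r - 2 * (s * w + s) * g) *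
        (1 + s * (s * g))⁻¹) := by
      have h3 : (1 + s * (s * g)) * (1 + s * (s * g))⁻¹ = 1 := mul_inv_cancel₀ hu
      apply mul_right_cancel₀ hu
      rw [huv]
      linear_combination (-s ^ 2 * (r - 2 * (s * w + s) * g)) * h3
    have hres : u = (((k + 1 + 1 : ℕ) : K) ^ 2 * s + s ^ 2 *
        (2 * o' + (r - 2 * (s * w + s) * g) * (1 + s * (s * g))⁻¹ - o)) := by
      have h5 : u = 2 * (s * w + s) + s ^ 2 * ((r - 2 * (s * w + s) * g) *
        (1 + s * (s * g))⁻¹) - v := by rw [← hval]; ring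
      rw [h5, hv2]
      have h6 : n = (k : K) + 1 := by rw [hn]; push_cast; ring
      have h7 : (((k + 1 + 1 : ℕ) : K)) = (k : K) + 2 := by push_cast; ring
      rw [h7, hw, h6]
      ring
    refine ⟨2 * o' + (r - 2 * (s * w + s) * g) * (1 + s * (s * g))⁻¹ - o, ?_, ?_⟩
    · exact sub_mem (add_mem (mul_mem h2O ho') (mul_mem (sub_mem hrO (mul_mem (mul_mem h2O
        (add_mem (mul_mem hsO hwO) hsO)) hgO)) huO)) ho
    · rw [← hres]
      exact hu1

end TorsInt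

/-- The torsion estimate: if `n P = 0` then `n² x(P)` is integral. -/
theorem tors_int {K : Type} [Field K] [DecidableEq K] (O : ValuationSubring K)
    (W : WeierstrassCurve K) (hΔ : W.Δ ≠ 0) (h1 : W.a₁ ∈ O) (h2 : W.a₂ ∈ O) (h3 : W.a₃ ∈ O)
    (h4 : W.a₄ ∈ O) (h6 : W.a₆ ∈ O) {n : ℕ} (hn : (n : K) ≠ 0) {x y : K}
    (h : W.toAffine.Nonsingular x y) (hP : n • (Affine.Point.some x y h) = 0) :
    (n : K) ^ 2 * x ∈ O := by
  haveI : W.IsElliptic := ⟨isUnit_iff_ne_zero.mpr hΔ⟩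
  have hnat : ∀ m : ℕ, (m : K) ∈ O := fun m => natCast_mem O m
  have two : (2 : K) ∈ O := by exact_mod_cast hnat 2
  have four : (4 : K) ∈ O := by exact_mod_cast hnat 4
  by_cases hx : x ∈ O
  · exact mul_mem (pow_mem (hnat n) 2) hx
  have hx0 : x ≠ 0 := by
    rintro rfl
    exact hx (zero_mem O)
  have hv : O.valuation x⁻¹ < 1 := by
    rw [map_inv₀]
    apply inv_lt_one_of_one_lt₀
    rw [← not_le, O.valuation_le_one_iff]
    exact hx
  have hb2 : W.b₂ ∈ O := add_mem (pow_mem h1 2) (mul_mem four h2)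
  have hb4 : W.b₄ ∈ O := add_mem (mul_mem two h4) (mul_mem h1 h3)
  have hb6 : W.b₆ ∈ O := add_mem (pow_mem h3 2) (mul_mem four h6)
  have hb8 : W.b₈ ∈ O := by
    unfold WeierstrassCurve.b₈
    exact sub_mem (add_mem (sub_mem (add_mem (mul_mem (pow_mem h1 2) h6)
      (mul_mem (mul_mem four h2) h6)) (mul_mem (mul_mem h1 h3) h4)) (mul_mem h2 (pow_mem h3 2)))
      (pow_mem h4 2)
  obtain ⟨⟨o, ho, hk⟩, -⟩ := TorsInt.key O W hb2 hb4 hb6 hb8 hv (TorsInt.isXi_some h hx0) n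
  rw [hP] at hk
  have h7 := hk.unique TorsInt.isXi_zero
  have h8 : (n : K) ^ 2 * x = -o := by
    field_simp at h7
    linear_combination h7
  rw [h8]
  exact neg_mem ho

end LT
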