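import Pool.Agent.Lib_MP_f1937f_nt.Basics

/-!
# MP_f1937f_nt: the isomorphism of the groups of points given by a change of variables (piece VC)
-/

namespace LT

open Polynomial WeierstrassCurve

section vc

variable {k : Type} [Field k]

/-- The relations between the coefficients of a Weierstrass curve and of its change of variables. -/
structure VcRel (W W' : WeierstrassCurve k) (v r s t : k) : Prop where
  hv : v ≠ 0
  h1 : v * W'.a₁ = W.a₁ + 2 * s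
  h2 : v ^ 2 * W'.a₂ = W.a₂ - s * W.a₁ + 3 * r - s ^ 2
  h3 : v ^ 3 * W'.a₃ = W.a₃ + r * W.a₁ + 2 * t
  h4 : v ^ 4 * W'.a₄ = W.a₄ - s * W.a₃ + 2 * r * W.a₂ - (t + r * s) * W.a₁ + 3 * r ^ 2 - 2 * s * t
  h6 : v ^ 6 * W'.a₆ = W.a₆ + r * W.a₄ + r ^ 2 * W.a₂ + r ^ 3 - t * W.a₃ - t ^ 2 - r * t * W.a₁

namespace VcRel

variable {W W' : WeierstrassCurve k} {v r s t : k}

theorem of_smul (C : VariableChange k) (h : W' = C • W) : VcRel W W' (C.u : k) C.r C.s C.t := by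
  have hu : (C.u : k) * ((C.u⁻¹ : kˣ) : k) = 1 := C.u.mul_inv
  have hp : ∀ n : ℕ, (C.u : k) ^ n * ((C.u⁻¹ : kˣ) : k) ^ n = 1 := fun n => by
    rw [← mul_pow, hu, one_pow]
  subst h
  refine ⟨C.u.ne_zero, ?_, ?_, ?_, ?_, ?_⟩
  · rw [variableChange_a₁, ← mul_assoc, hu, one_mul]
  · rw [variableChange_a₂, ← mul_assoc, hp, one_mul]
  · rw [variableChange_a₃, ← mul_assoc, hp, one_mul]
  · rw [variableChange_a₄, ← mul_assoc, hp, one_mul]
  · rw [variableChange_a₆, ← mul_assoc, hp, one_mul]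

theorem equation (h : VcRel W W' v r s t) (x y : k) :
    W.toAffine.Equation (v ^ 2 * x + r) (v ^ 3 * y + v ^ 2 * s * x + t) ↔
      W'.toAffine.Equation x y := by
  rw [Affine.equation_iff', Affine.equation_iff']
  have key : (v ^ 3 * y + v ^ 2 * s * x + t) ^ 2 + W.a₁ * (v ^ 2 * x + r) *
      (v ^ 3 * y + v ^ 2 * s * x + t) + W.a₃ * (v ^ 3 * y + v ^ 2 * s * x + t) -
      ((v ^ 2 * x + r) ^ 3 + W.a₂ * (v ^ 2 * x + r) ^ 2 + W.a₄ * (v ^ 2 * x + r) + W.a₆) =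
      v ^ 6 * (y ^ 2 + W'.a₁ * x * y + W'.a₃ * y -
        (x ^ 3 + W'.a₂ * x ^ 2 + W'.a₄ * x + W'.a₆)) := by
    linear_combination (-v ^ 5 * x * y) * h.h1 + (v ^ 4 * x ^ 2) * h.h2 + (-v ^ 3 * y) * h.h3 +
      (v ^ 2 * x) * h.h4 + h.h6
  rw [key]
  simp [h.hv]

theorem dY (h : VcRel W W' v r s t) (x y : k) :
    2 * (v ^ 3 * y + v ^ 2 * s * x + t) + W.a₁ * (v ^ 2 * x + r) + W.a₃ =
      v ^ 3 * (2 * y + W'.a₁ * x + W'.a₃) := by
  linear_combination (-v ^ 2 * x) * h.h1 + (-1) * h.h3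

theorem dX (h : VcRel W W' v r s t) (x y : k) :
    W.a₁ * (v ^ 3 * y + v ^ 2 * s * x + t) - (3 * (v ^ 2 * x + r) ^ 2 +
      2 * W.a₂ * (v ^ 2 * x + r) + W.a₄) =
      v ^ 4 * (W'.a₁ * y - (3 * x ^ 2 + 2 * W'.a₂ * x + W'.a₄)) -
        s * v ^ 3 * (2 * y + W'.a₁ * x + W'.a₃) := by
  linear_combination (-v ^ 3 * y + s * v ^ 2 * x) * h.h1 + (2 * v ^ 2 * x) * h.h2 + s * h.h3 + h.h4

theorem nonsingular (h : VcRel W W' v r s t) (x y : k) :
    W.toAffine.Nonsingular (v ^ 2 * x + r) (v ^ 3 * y + v ^ 2 * s * x + t) ↔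
      W'.toAffine.Nonsingular x y := by
  have hv := h.hv
  rw [Affine.nonsingular_iff', Affine.nonsingular_iff', h.equation, h.dX, h.dY]
  refine and_congr Iff.rfl ?_
  rw [← not_and_or, ← not_and_or, not_iff_not]
  constructor
  · rintro ⟨h1, h2⟩
    have h3 : 2 * y + W'.a₁ * x + W'.a₃ = 0 := by
      rcases mul_eq_zero.mp h2 with h4 | h4
      · exact absurd h4 (pow_ne_zero 3 hv)
      · exact h4
    rw [h3, mul_zero, sub_zero] at h1
    rcases mul_eq_zero.mp h1 with h4 | h4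
    · exact absurd h4 (pow_ne_zero 4 hv)
    · exact ⟨h4, h3⟩
  · rintro ⟨h1, h2⟩
    rw [h1, h2]
    simp

theorem negY (h : VcRel W W' v r s t) (x y : k) :
    W.toAffine.negY (v ^ 2 * x + r) (v ^ 3 * y + v ^ 2 * s * x + t) =
      v ^ 3 * W'.toAffine.negY x y + v ^ 2 * s * x + t := by
  simp only [Affine.negY]
  linear_combination (v ^ 2 * x) * h.h1 + h.h3

theorem addX (h : VcRel W W' v r s t) (x₁ x₂ l : k) :
    W.toAffine.addX (v ^ 2 * x₁ + r) (v ^ 2 * x₂ + r) (v * l + s) =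
      v ^ 2 * W'.toAffine.addX x₁ x₂ l + r := by
  simp only [Affine.addX]
  linear_combination (-v * l) * h.h1 + h.h2

theorem addY (h : VcRel W W' v r s t) (x₁ x₂ y₁ l : k) :
    W.toAffine.addY (v ^ 2 * x₁ + r) (v ^ 2 * x₂ + r) (v ^ 3 * y₁ + v ^ 2 * s * x₁ + t)
      (v * l + s) = v ^ 3 * W'.toAffine.addY x₁ x₂ y₁ l +
        v ^ 2 * s * W'.toAffine.addX x₁ x₂ l + t := by
  have h1 : W.toAffine.negAddY (v ^ 2 * x₁ + r) (v ^ 2 * x₂ + r)
      (v ^ 3 * y₁ + v ^ 2 * s * x₁ + t) (v * l + s) =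
      v ^ 3 * W'.toAffine.negAddY x₁ x₂ y₁ l + v ^ 2 * s * W'.toAffine.addX x₁ x₂ l + t := by
    unfold Affine.negAddY
    rw [h.addX]
    ring
  unfold Affine.addY
  rw [h.addX, h1, h.negY]

theorem x_inj (h : VcRel W W' v r s t) {x₁ x₂ : k} : v ^ 2 * x₁ + r = v ^ 2 * x₂ + r ↔ x₁ = x₂ := by
  constructor
  · intro he
    exact mul_left_cancel₀ (pow_ne_zero 2 h.hv) (add_right_cancel he)
  · rintro rfl
    rfl

theorem y_inj (h : VcRel W W' v r s t) {x y₁ y₂ : k} :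
    v ^ 3 * y₁ + v ^ 2 * s * x + t = v ^ 3 * y₂ + v ^ 2 * s * x + t ↔ y₁ = y₂ := by
  constructor
  · intro he
    exact mul_left_cancel₀ (pow_ne_zero 3 h.hv) (add_right_cancel (add_right_cancel he))
  · rintro rfl
    rfl

variable [DecidableEq k]

theorem slope (h : VcRel W W' v r s t) {x₁ x₂ y₁ y₂ : k}
    (h₁ : W'.toAffine.Equation x₁ y₁) (h₂ : W'.toAffine.Equation x₂ y₂)
    (hxy : ¬(x₁ = x₂ ∧ y₁ = W'.toAffine.negY x₂ y₂)) :
    W.toAffine.slope (v ^ 2 * x₁ + r) (v ^ 2 * x₂ + r) (v ^ 3 * y₁ + v ^ 2 * s * x₁ + t)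
      (v ^ 3 * y₂ + v ^ 2 * s * x₂ + t) = v * W'.toAffine.slope x₁ x₂ y₁ y₂ + s := by
  have hv := h.hv
  by_cases hx : x₁ = x₂
  · have hy : y₁ ≠ W'.toAffine.negY x₂ y₂ := fun hy => hxy ⟨hx, hy⟩
    have hyy : y₁ = y₂ := Affine.Y_eq_of_Y_ne h₁ h₂ hx hy
    subst hx hyy
    have hY : v ^ 3 * y₁ + v ^ 2 * s * x₁ + t ≠ W.toAffine.negY (v ^ 2 * x₁ + r)
        (v ^ 3 * y₁ + v ^ 2 * s * x₁ + t) := by
      rw [h.negY]
      exact fun he => hy (h.y_inj.mp he)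
    rw [Affine.slope_of_Y_ne rfl hy, Affine.slope_of_Y_ne rfl hY, h.negY]
    have hd : y₁ - W'.toAffine.negY x₁ y₁ ≠ 0 := sub_ne_zero.mpr hy
    have e1 : v ^ 3 * y₁ + v ^ 2 * s * x₁ + t -
        (v ^ 3 * W'.toAffine.negY x₁ y₁ + v ^ 2 * s * x₁ + t) =
        v ^ 3 * (y₁ - W'.toAffine.negY x₁ y₁) := by ring
    have e2 : 3 * (v ^ 2 * x₁ + r) ^ 2 + 2 * W.a₂ * (v ^ 2 * x₁ + r) + W.a₄ -
        W.a₁ * (v ^ 3 * y₁ + v ^ 2 * s * x₁ + t) =
        v ^ 4 * (3 * x₁ ^ 2 + 2 * W'.a₂ * x₁ + W'.a₄ - W'.a₁ * y₁) +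
          s * v ^ 3 * (y₁ - W'.toAffine.negY x₁ y₁) := by
      have := h.dX x₁ y₁
      simp only [Affine.negY]
      linear_combination (-1) * this
    rw [e1]
    rw [div_eq_iff (mul_ne_zero (pow_ne_zero 3 hv) hd)]
    have e3 : (v * ((3 * x₁ ^ 2 + 2 * W'.a₂ * x₁ + W'.a₄ - W'.a₁ * y₁) /
        (y₁ - W'.toAffine.negY x₁ y₁)) + s) * (v ^ 3 * (y₁ - W'.toAffine.negY x₁ y₁)) =
        v ^ 4 * (((3 * x₁ ^ 2 + 2 * W'.a₂ * x₁ + W'.a₄ - W'.a₁ * y₁) /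
        (y₁ - W'.toAffine.negY x₁ y₁)) * (y₁ - W'.toAffine.negY x₁ y₁)) +
        s * v ^ 3 * (y₁ - W'.toAffine.negY x₁ y₁) := by ring
    rw [e3, div_mul_cancel₀ _ hd]
    exact e2
  · have hX : v ^ 2 * x₁ + r ≠ v ^ 2 * x₂ + r := fun he => hx (h.x_inj.mp he)
    rw [Affine.slope_of_X_ne hx, Affine.slope_of_X_ne hX]
    have hd : x₁ - x₂ ≠ 0 := sub_ne_zero.mpr hx
    rw [div_eq_iff (sub_ne_zero.mpr hX)]
    have e3 : (v * ((y₁ - y₂) / (x₁ - x₂)) + s) * (v ^ 2 * x₁ + r - (v ^ 2 * x₂ + r)) =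
        v ^ 3 * ((y₁ - y₂) / (x₁ - x₂) * (x₁ - x₂)) + s * v ^ 2 * (x₁ - x₂) := by ring
    rw [e3, div_mul_cancel₀ _ hd]
    ring

/-- The map on points. -/
def fn (h : VcRel W W' v r s t) : W'.toAffine.Point → W.toAffine.Point
  | .zero => .zero
  | .some x y hxy => .some (v ^ 2 * x + r) (v ^ 3 * y + v ^ 2 * s * x + t)
      ((h.nonsingular x y).mpr hxy)

/-- The homomorphism of groups. -/
noncomputable def hom (h : VcRel W W' v r s t) : W'.toAffine.Point →+ W.toAffine.Point where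
  toFun := h.fn
  map_zero' := rfl
  map_add' := by
    rintro (_ | ⟨x₁, y₁, h₁⟩) (_ | ⟨x₂, y₂, h₂⟩)
    · rfl
    · rfl
    · rfl
    · by_cases hxy : x₁ = x₂ ∧ y₁ = W'.toAffine.negY x₂ y₂
      · have h1 := Affine.Point.add_of_Y_eq (h₁ := h₁) (h₂ := h₂) hxy.1 hxy.2
        rw [h1]
        symm
        apply Affine.Point.add_of_Y_eq
        · rw [hxy.1]
        · rw [h.negY, hxy.1, hxy.2]
      · have h1 := Affine.Point.add_some (h₁ := h₁) (h₂ := h₂) hxy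
        rw [h1]
        have h2 : ¬(v ^ 2 * x₁ + r = v ^ 2 * x₂ + r ∧ v ^ 3 * y₁ + v ^ 2 * s * x₁ + t =
            W.toAffine.negY (v ^ 2 * x₂ + r) (v ^ 3 * y₂ + v ^ 2 * s * x₂ + t)) := by
          rintro ⟨h3, h4⟩
          have h5 := h.x_inj.mp h3
          rw [h.negY, h5] at h4
          exact hxy ⟨h5, h.y_inj.mp h4⟩
        have h6 := Affine.Point.add_some (h₁ := (h.nonsingular x₁ y₁).mpr h₁)
          (h₂ := (h.nonsingular x₂ y₂).mpr h₂) h2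
        refine Eq.trans ?_ h6.symm
        simp only [fn]
        simp only [h.slope h₁.1 h₂.1 hxy, h.addX, h.addY]

theorem hom_bijective (h : VcRel W W' v r s t) : Function.Bijective h.hom := by
  have hv := h.hv
  constructor
  · rintro (_ | ⟨x₁, y₁, h₁⟩) (_ | ⟨x₂, y₂, h₂⟩) he
    · rfl
    · exact absurd he (by rintro ⟨⟩)
    · exact absurd he (by rintro ⟨⟩)
    · have h1 := (Affine.Point.some.injEq ..).mp he
      have hx := h.x_inj.mp h1.1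
      subst hx
      have hy := h.y_inj.mp h1.2
      subst hy
      rfl
  · rintro (_ | ⟨x, y, hxy⟩)
    · exact ⟨.zero, rfl⟩
    · have ex : v ^ 2 * ((x - r) / v ^ 2) + r = x := by
        rw [mul_div_cancel₀ _ (pow_ne_zero 2 hv)]
        ring
      have ey : v ^ 3 * ((y - v ^ 2 * s * ((x - r) / v ^ 2) - t) / v ^ 3) +
          v ^ 2 * s * ((x - r) / v ^ 2) + t = y := by
        rw [mul_div_cancel₀ _ (pow_ne_zero 3 hv)]
        ring
      refine ⟨.some ((x - r) / v ^ 2) ((y - v ^ 2 * s * ((x - r) / v ^ 2) - t) / v ^ 3) ?_, ?_⟩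
      · rw [← h.nonsingular, ex, ey]
        exact hxy
      · exact (Affine.Point.some.injEq ..).mpr ⟨ex, ey⟩

end VcRel

end vc

theorem vc_exists {k : Type} [Field k] [DecidableEq k] {W W' : WeierstrassCurve k}
    (C : VariableChange k) (h : W' = C • W) :
    ∃ e : W'.toAffine.Point ≃+ W.toAffine.Point,
      ∀ (x y : k) (hxy : W'.toAffine.Nonsingular x y), ∃ h', e (.some x y hxy) =
        .some ((C.u : k) ^ 2 * x + C.r) ((C.u : k) ^ 3 * y + (C.u : k) ^ 2 * C.s * x + C.t) h' := by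
  have hr := VcRel.of_smul C h
  exact ⟨AddEquiv.ofBijective hr.hom hr.hom_bijective, fun x y hxy =>
    ⟨(hr.nonsingular x y).mpr hxy, rfl⟩⟩

/-- Scaling. -/
theorem sc_exists {k : Type} [Field k] [DecidableEq k] {v : k} (hv : v ≠ 0) (a b : k) :
    ∃ e : Pt a b ≃+ Pt (v ^ 4 * a) (v ^ 6 * b),
      ∀ (x y : k) (hxy : (SW a b).toAffine.Nonsingular x y), ∃ h', e (.some x y hxy) =
        .some (v ^ 2 * x) (v ^ 3 * y) h' := by
  have hr : VcRel (SW (v ^ 4 * a) (v ^ 6 * b)) (SW a b) v 0 0 0 := by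
    refine ⟨hv, ?_, ?_, ?_, ?_, ?_⟩ <;> simp [SW]
  refine ⟨AddEquiv.ofBijective hr.hom hr.hom_bijective, fun x y hxy => ?_⟩
  have hx : v ^ 2 * x + 0 = v ^ 2 * x := add_zero _
  have hy : v ^ 3 * y + v ^ 2 * 0 * x + 0 = v ^ 3 * y := by ring
  refine ⟨?_, ?_⟩
  · have := (hr.nonsingular x y).mpr hxy
    rwa [hx, hy] at this
  · exact (Affine.Point.some.injEq ..).mpr ⟨hx, hy⟩

end LT
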