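import Pool.Agent.Lib_MP_f1937f_nt.NkDefs
import Pool.Agent.Lib_MP_f1937f_nt.Vc
import Pool.Agent.Lib_MP_f1937f_nt.TorsInt

/-!
# MP_f1937f_nt: good reduction at `2` (piece NKB)

Proof. Over `PadicAlgCl 2` the curve `E₀ : y² = x³ - 31/4` is isomorphic to `W : y² + y = x³ - 8` by
`(x, y) ↦ (x, y - 1/2)` (`vc_exists` with `u = 1`, `r = s = 0`, `t = ± 1/2`). `W` reduces to `W' : y² + y = x³` over `Fb 2`
(`red_exists` of `Red.lean`; the discriminant of `W'` is `-27 ≠ 0`). `G` is the group of points of `W'`, `Fr` is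
`mapW (frobenius (Fb 2) 2)`. `Fr (Fr P) = -(2 • P)` : doubling on `W'` (characteristic `2`): the slope is `x²`, `x(2P) = x⁴`,
`y(2P) = x⁶ + x³ + y + 1 = y⁴ + 1`, and `-(x, y) = (x, y + 1)`. Injectivity on the torsion prime to `2`: if `q • P = 0` with `q`
odd, `P = (x, y) ≠ 0`, then `q² x ∈ O` (`tors_int`), `q` is a unit of `O` (`q` odd), so `x ∈ O`, so the reduction is not
`0`. Galois action: if `x ∉ O` both sides are `0` (take `n = 1`; `gal_mem` for `σ` and `σ.symm`); if `x ∈ O` then with `s` from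
`gal_res`, `red (σ P) = (s x̄, s ȳ)` (`Rdc.unique`) and `frob_odd` for the two coordinates gives an odd `n` with `s x̄ = x̄ ^ 2 ^ n`,
`s ȳ = ȳ ^ 2 ^ n`, which is `Fr^[n]` (induction, or as `FFrob.frob_iter`).
-/

namespace LT

open Polynomial WeierstrassCurve

namespace NkB

theorem some_congr {k : Type} [Field k] {W : WeierstrassCurve k} {x y x' y' : k}
    (h : W.toAffine.Nonsingular x y) (h' : W.toAffine.Nonsingular x' y')
    (hx : x = x') (hy : y = y') : (Affine.Point.some x y h : W.toAffine.Point) = .some x' y' h' := by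
  subst hx hy
  rfl

section char2

/-- `y² + y = x³` -/
def Wk (k : Type) [Field k] : WeierstrassCurve k := ⟨0, 0, 1, 0, 0⟩

variable (k : Type) [Field k] [DecidableEq k] [CharP k 2]

/-- the Frobenius endomorphism -/
noncomputable def Fr : (Wk k).toAffine.Point →+ (Wk k).toAffine.Point :=
  mapW (frobenius k 2) (by ext <;> simp [Wk])

theorem Fr_some (x y : k) (h : (Wk k).toAffine.Nonsingular x y) :
    ∃ h', Fr k (.some x y h) = .some (x ^ 2) (y ^ 2) h' := ⟨_, rfl⟩

theorem Fr_iter (n : ℕ) (x y : k) (h : (Wk k).toAffine.Nonsingular x y) :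
    ∃ h', (Fr k)^[n] (.some x y h) = .some (x ^ 2 ^ n) (y ^ 2 ^ n) h' := by
  induction n generalizing x y h with
  | zero => exact ⟨by simpa using h, by simp⟩
  | succ e ih =>
    obtain ⟨h1, h2⟩ := Fr_some k x y h
    obtain ⟨h3, h4⟩ := ih _ _ h1
    rw [Function.iterate_succ_apply, h2, h4]
    have e1 : (x ^ 2) ^ 2 ^ e = x ^ 2 ^ (e + 1) := by rw [← pow_mul, pow_succ']
    have e2 : (y ^ 2) ^ 2 ^ e = y ^ 2 ^ (e + 1) := by rw [← pow_mul, pow_succ']
    have h5 : (Wk k).toAffine.Nonsingular (x ^ 2 ^ (e + 1)) (y ^ 2 ^ (e + 1)) := by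
      rw [← e1, ← e2]; exact h3
    exact ⟨h5, some_congr _ _ e1 e2⟩

theorem Fr_sq (P : (Wk k).toAffine.Point) : Fr k (Fr k P) = -(2 • P) := by
  have two : (2 : k) = 0 := by
    have := CharP.cast_eq_zero k 2
    exact_mod_cast this
  rcases P with _ | ⟨x, y, h⟩
  · have h1 : (Affine.Point.zero : (Wk k).toAffine.Point) = 0 := rfl
    rw [h1, map_zero, map_zero, smul_zero, neg_zero]
  · have heq : y ^ 2 + y = x ^ 3 := by
      have := (Affine.equation_iff _ _).mp h.1
      simpa [Wk] using this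
    have hne : y ≠ (Wk k).toAffine.negY x y := by
      intro h0
      have h1 : y = -y - 1 := by simpa [Affine.negY, Wk] using h0
      have h2 : (1 : k) = 0 := by linear_combination h1 - y * two
      exact one_ne_zero h2
    have hxy : ¬(x = x ∧ y = (Wk k).toAffine.negY x y) := fun h0 => hne h0.2
    have hs : (Wk k).toAffine.slope x x y y = x ^ 2 := by
      rw [Affine.slope_of_Y_ne rfl hne]
      have h1 : y - (Wk k).toAffine.negY x y = 1 := by
        simp only [Affine.negY, Wk]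
        linear_combination y * two
      rw [h1]
      simp only [Wk]
      linear_combination x ^ 2 * two
    rw [two_nsmul, Affine.Point.add_some hxy, Affine.Point.neg_some]
    obtain ⟨h1, h2⟩ := Fr_some k x y h
    obtain ⟨h3, h4⟩ := Fr_some k _ _ h1
    rw [h2, h4]
    apply some_congr
    · rw [hs]
      simp only [Affine.addX, Wk]
      linear_combination x * two
    · rw [hs]
      simp only [Affine.negY, Affine.addY, Affine.negAddY, Affine.addX, Wk]
      linear_combination (y ^ 2 - y + x ^ 3 + 1) * heq + (2 * x ^ 3 - y - x ^ 3 * y) * two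

end char2

/-- `y² + y = x³ - 8` over the algebraic closure of `ℚ_2` -/
noncomputable def W8 : WeierstrassCurve (PadicAlgCl 2) := ⟨0, 0, 1, 0, -8⟩

theorem rdcW : RdcW (OP 2) (rP 2) W8 (Wk (Fb 2)) := by
  have h8 : Rdc (OP 2) (rP 2) (-8 : PadicAlgCl 2) (0 : Fb 2) := by
    have h := Rdc.intCast (OP 2) (rP 2) (-8)
    have h1 : (((-8 : ℤ)) : PadicAlgCl 2) = -8 := by push_cast; rfl
    have two : (2 : Fb 2) = 0 := by
      have := CharP.cast_eq_zero (Fb 2) 2
      exact_mod_cast this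
    have h2 : (((-8 : ℤ)) : Fb 2) = 0 := by
      push_cast
      linear_combination (-4) * two
    rwa [h1, h2] at h
  exact ⟨Rdc.zero _ _, Rdc.zero _ _, Rdc.one _ _, Rdc.zero _ _, h8⟩

theorem disc : (Wk (Fb 2)).Δ ≠ 0 := by
  have two : (2 : Fb 2) = 0 := by
    have := CharP.cast_eq_zero (Fb 2) 2
    exact_mod_cast this
  have h : (Wk (Fb 2)).Δ = 1 := by
    simp only [Wk, WeierstrassCurve.Δ, b₂, b₄, b₆, b₈]
    linear_combination (-14) * two
  rw [h]
  exact one_ne_zero

theorem disc8 : W8.Δ ≠ 0 := by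
  have h : W8.Δ = -25947 := by
    simp only [W8, WeierstrassCurve.Δ, b₂, b₄, b₆, b₈]
    norm_num
  rw [h]
  norm_num

theorem e_exists : ∃ e : W8.toAffine.Point ≃+ Pt (0 : PadicAlgCl 2) (-31 / 4),
    ∀ (x y : PadicAlgCl 2) (hxy : W8.toAffine.Nonsingular x y), ∃ h', e (.some x y hxy) =
      .some x (y + 1 / 2) h' := by
  obtain ⟨e, he⟩ := vc_exists (W := SW (0 : PadicAlgCl 2) (-31 / 4)) (W' := W8)
    ⟨1, 0, 0, 1 / 2⟩ (by
      ext
      · simp [W8, SW, variableChange_a₁]
      · simp [W8, SW, variableChange_a₂]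
      · simp [W8, SW, variableChange_a₃]
      · simp [W8, SW, variableChange_a₄]
      · simp [W8, SW, variableChange_a₆]
        norm_num)
  refine ⟨e, fun x y hxy => ?_⟩
  obtain ⟨h, h'⟩ := he x y hxy
  have e1 : (((1 : (PadicAlgCl 2)ˣ) : PadicAlgCl 2)) ^ 2 * x + 0 = x := by simp
  have e2 : (((1 : (PadicAlgCl 2)ˣ) : PadicAlgCl 2)) ^ 3 * y +
      (((1 : (PadicAlgCl 2)ˣ) : PadicAlgCl 2)) ^ 2 * 0 * x + 1 / 2 = y + 1 / 2 := by simp
  have h2 : (SW (0 : PadicAlgCl 2) (-31 / 4)).toAffine.Nonsingular x (y + 1 / 2) := by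
    have h3 := h
    simp only [e1, e2] at h3
    exact h3
  exact ⟨h2, h'.trans (some_congr _ _ e1 e2)⟩

end NkB

open NkB in
theorem good_two : GoodRed 2 := by
  obtain ⟨e, he⟩ := e_exists
  obtain ⟨red, h1, h2⟩ := red_exists (OP 2) (rP 2) rdcW disc
  refine ⟨(Wk (Fb 2)).toAffine.Point, inferInstance, red.comp e.symm.toAddMonoidHom, Fr (Fb 2),
    Fr_sq (Fb 2), ?_, ?_⟩
  · intro q hq P hP hr
    obtain ⟨P', rfl⟩ := e.surjective P
    have hr' : red P' = 0 := by simpa using hr
    have hP' : q • P' = 0 := by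
      apply e.injective
      rw [map_nsmul, map_zero]
      exact hP
    rcases P' with _ | ⟨x, y, h⟩
    · exact map_zero e
    · exfalso
      by_cases hx : x ∈ OP 2
      · obtain ⟨x', y', h', -, -, h3⟩ := h2 x y h hx
        rw [h3] at hr'
        exact Affine.Point.some_ne_zero _ hr'
      · have hq0 : q ≠ 0 := by
          rintro rfl
          exact hq (dvd_zero 2)
        have hqK : (q : PadicAlgCl 2) ≠ 0 := Nat.cast_ne_zero.mpr hq0
        have h3 := tors_int (OP 2) W8 disc8 rdcW.1.mem rdcW.2.1.mem rdcW.2.2.1.mem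
          rdcW.2.2.2.1.mem rdcW.2.2.2.2.mem hqK h hP'
        have hqF : (q : Fb 2) ≠ 0 := by
          intro h4
          exact hq ((CharP.cast_eq_zero_iff (Fb 2) 2 q).mp h4)
        have h4 := ((Rdc.natCast (OP 2) (rP 2) q).inv hqF).mem
        apply hx
        have h5 : x = (q : PadicAlgCl 2)⁻¹ ^ 2 * ((q : PadicAlgCl 2) ^ 2 * x) := by
          field_simp
        rw [h5]
        exact mul_mem (pow_mem h4 2) h3
  · intro σ hσ P
    obtain ⟨P', rfl⟩ := e.surjective P
    rcases P' with _ | ⟨x, y, h⟩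
    · refine ⟨1, odd_one, ?_⟩
      have h3 : (Affine.Point.zero : W8.toAffine.Point) = 0 := rfl
      rw [h3, map_zero, map_zero, map_zero, Function.iterate_one, map_zero]
    · obtain ⟨h3, h4⟩ := he x y h
      obtain ⟨h5, h6⟩ := mapPt_some (σ : PadicAlgCl 2 →+* PadicAlgCl 2)
        (map_zero (σ : PadicAlgCl 2 →+* PadicAlgCl 2))
        (map_quarter (σ : PadicAlgCl 2 →+* PadicAlgCl 2)) x (y + 1 / 2) h3
      have hsW : W8.map (σ : PadicAlgCl 2 →+* PadicAlgCl 2) = W8 := by
        ext <;> simp [W8]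
        exact map_ofNat σ 8
      obtain ⟨h7, h8⟩ := mapW_some (σ : PadicAlgCl 2 →+* PadicAlgCl 2) hsW x y h
      obtain ⟨h9, h10⟩ := he _ _ h7
      have h11 : mapE (σ : PadicAlgCl 2 →+* PadicAlgCl 2) (e (.some x y h)) =
          e (.some (σ x) (σ y) h7) := by
        rw [h4]
        refine Eq.trans h6 (Eq.trans ?_ h10.symm)
        apply some_congr
        · rfl
        · change σ (y + 1 / 2) = σ y + 1 / 2
          rw [map_add, map_div₀, map_one, map_ofNat]
      rw [h11]
      simp only [AddMonoidHom.comp_apply, AddEquiv.toAddMonoidHom_eq_coe, AddMonoidHom.coe_coe,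
        AddEquiv.symm_apply_apply]
      by_cases hx : x ∈ OP 2
      · obtain ⟨x', y', h', hx', hy', h12⟩ := h2 x y h hx
        obtain ⟨x'', y'', h'', hx'', hy'', h13⟩ := h2 (σ x) (σ y) h7 (gal_mem 2 σ hx)
        obtain ⟨s, hs⟩ := gal_res 2 σ
        obtain ⟨n, hodd, hpow⟩ := frob_odd 2 (by norm_num) σ hσ s hs {x', y'}
        refine ⟨n, hodd, ?_⟩
        obtain ⟨h14, h15⟩ := Fr_iter (Fb 2) n x' y' h'
        rw [h12, h13, h15]
        apply some_congr
        · rw [hx''.unique (hs _ _ hx'), hpow x' (by simp)]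
        · rw [hy''.unique (hs _ _ hy'), hpow y' (by simp)]
      · have hσx : σ x ∉ OP 2 := by
          intro h12
          apply hx
          have h13 := gal_mem 2 σ.symm h12
          rwa [AlgEquiv.symm_apply_apply] at h13
        refine ⟨1, odd_one, ?_⟩
        rw [h1 _ _ _ hx, h1 _ _ _ hσx, Function.iterate_one, map_zero]

end LT
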