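import Pool.Agent.Lib_MP_f1937f_nt.NkC
import Pool.Agent.Lib_MP_f1937f_nt.Vc
import Pool.Agent.Lib_MP_f1937f_nt.TorsInt

/-!
# MP_f1937f_nt: potentially good reduction at `3` (piece NKD)

Proof of `good_three`. Let `K = PadicAlgCl 3`, `u ∈ K` with `u⁴ = 3`, `r` the image of the cube root of `31/4` in `ℤ_[3]` with residue
`1` (`cube_root`). With `x = u² X + r`, `y = u³ Y`, the curve `E₀ : y² = x³ - 31/4` becomes
`W : Y² = X³ + r u² X² + r² X` (`3 u⁻² = u²`, `3 u⁻⁴ = 1`), which reduces to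
`W' = SW 1 0 : Y² = X³ + X` over `Fb 3` (`‖u‖ < 1`, `r` reduces to `1`; discriminant `-64 ≠ 0`).
-/

namespace LT

open Polynomial WeierstrassCurve

/-- A cube root of `31/4` in `ℤ_3` (Hensel: `31/4 = 1 + 27/4`, start from `1`). -/
theorem cube_root : ∃ r : ℚ_[3], r ^ 3 = 31 / 4 ∧ ‖r - 1‖ < 1 := by
  have h3 : ‖(3 : ℤ_[3])‖ = 3⁻¹ := by
    have := PadicInt.norm_p (p := 3)
    exact_mod_cast this
  have h4 : ‖(4 : ℤ_[3])‖ = 1 := by
    have h5 := (PadicInt.norm_int_lt_one_iff_dvd (p := 3) 4).not.mpr (by norm_num)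
    have h6 := PadicInt.norm_le_one (4 : ℤ_[3])
    have h7 : ‖((4 : ℤ) : ℤ_[3])‖ = ‖(4 : ℤ_[3])‖ := by norm_num
    rw [h7, not_lt] at h5
    exact le_antisymm h6 h5
  have ha : ‖(4 * X ^ 3 - 31 : ℤ_[3][X]).aeval (1 : ℤ_[3])‖ <
      ‖(derivative (4 * X ^ 3 - 31 : ℤ_[3][X])).aeval (1 : ℤ_[3])‖ ^ 2 := by
    have e1 : (4 * X ^ 3 - 31 : ℤ_[3][X]).aeval (1 : ℤ_[3]) = -(3 ^ 3) := by
      simp
      norm_num
    have e2 : (derivative (4 * X ^ 3 - 31 : ℤ_[3][X])).aeval (1 : ℤ_[3]) = 3 * 4 := by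
      simp
      norm_num
    rw [e1, e2, norm_neg, norm_pow, norm_mul, h3, h4]
    norm_num
  obtain ⟨z, hz, hz1, -⟩ := hensels_lemma ha
  have e3 : 4 * z ^ 3 = 31 := by
    have : (4 * X ^ 3 - 31 : ℤ_[3][X]).aeval z = 4 * z ^ 3 - 31 := by simp
    rw [this, sub_eq_zero] at hz
    exact hz
  refine ⟨(z : ℚ_[3]), ?_, ?_⟩
  · have e4 : (4 : ℚ_[3]) * (z : ℚ_[3]) ^ 3 = 31 := by
      have := congrArg (fun w : ℤ_[3] => (w : ℚ_[3])) e3
      push_cast at this
      exact this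
    rw [eq_div_iff (by norm_num), mul_comm]
    exact e4
  · have e5 : ‖z - 1‖ < 1 := lt_of_lt_of_le hz1 (PadicInt.norm_le_one _)
    have e6 : ‖z - 1‖ = ‖(z : ℚ_[3]) - 1‖ := by
      rw [PadicInt.norm_def]
      push_cast
      rfl
    rw [e6] at e5
    exact e5

namespace NkD

theorem pow_mem' {K : Type} [Field K] {O : ValuationSubring K} {y : K} {n : ℕ} (hn : n ≠ 0)
    (h : y ^ n ∈ O) : y ∈ O := by
  rw [← O.valuation_le_one_iff] at h ⊢
  rw [map_pow] at h
  by_contra h1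
  rw [not_le] at h1
  exact absurd h (not_le.mpr (one_lt_pow₀ h1 hn))

theorem small {p : ℕ} [Fact p.Prime] {x : PadicAlgCl p} (hx : ‖x‖ < 1) :
    Rdc (OP p) (rP p) x 0 := by
  obtain ⟨x', hx'⟩ := Rdc.exists (rP p) (mem_OP.mpr hx.le)
  by_cases h0 : x' = 0
  · subst h0
    exact hx'
  · exfalso
    have h1 := mem_OP.mp (hx'.inv h0).mem
    rw [norm_inv] at h1
    have h2 : x ≠ 0 := by
      rintro rfl
      exact h0 (hx'.unique (Rdc.zero _ _))
    have h3 : 1 < ‖x‖⁻¹ := (one_lt_inv₀ (norm_pos_iff.mpr h2)).mpr hx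
    linarith

theorem some_congr' {k : Type} [Field k] {W : WeierstrassCurve k} {x y x' y' : k}
    (h : W.toAffine.Nonsingular x y) (h' : W.toAffine.Nonsingular x' y')
    (hx : x = x') (hy : y = y') : (Affine.Point.some x y h : W.toAffine.Point) = .some x' y' h' := by
  subst hx hy
  rfl

theorem pow_three {k : Type} [Field k] {i : k} (hi : i ^ 2 = -1) (n : ℕ) :
    i ^ 3 ^ n = (-1) ^ n * i := by
  induction n with
  | zero => simp
  | succ n ih =>
    rw [pow_succ 3 n, pow_mul, ih, mul_pow]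
    have h3 : i ^ 3 = -i := by
      rw [pow_succ, hi]
      ring
    rw [h3, ← pow_mul, mul_comm n 3, pow_mul]
    ring

end NkD

open NkD

theorem good_three : GoodThree := by
  have hp3 : (3 : Fb 3) = 0 := by
    have := CharP.cast_eq_zero (Fb 3) 3
    exact_mod_cast this
  obtain ⟨r0, hr0, hr1⟩ := cube_root
  obtain ⟨u, hu⟩ := IsAlgClosed.exists_pow_nat_eq (3 : PadicAlgCl 3) (n := 4) (by norm_num)
  have hu0 : u ≠ 0 := by
    rintro rfl
    norm_num at hu
  set r : PadicAlgCl 3 := algebraMap ℚ_[3] (PadicAlgCl 3) r0 with hrdef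
  have hr3 : r ^ 3 = 31 / 4 := by
    rw [hrdef, ← map_pow, hr0, map_div₀, map_ofNat, map_ofNat]
  have hrr : Rdc (OP 3) (rP 3) r 1 := by
    have h1 : ‖r - 1‖ < 1 := by
      have h2 : r - 1 = algebraMap ℚ_[3] (PadicAlgCl 3) (r0 - 1) := by
        rw [map_sub, map_one]
      rw [h2]
      have h3 := PadicAlgCl.norm_extends (p := 3) (r0 - 1)
      exact lt_of_eq_of_lt h3 hr1
    have h4 := (small h1).add (Rdc.one (OP 3) (rP 3))
    rw [sub_add_cancel, zero_add] at h4
    exact h4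
  have hu3 : Rdc (OP 3) (rP 3) (3 : PadicAlgCl 3) 0 := by
    have := Rdc.natCast (OP 3) (rP 3) 3
    rw [← hp3]
    exact_mod_cast this
  have huu : Rdc (OP 3) (rP 3) u 0 := by
    have h1 : u ∈ OP 3 := by
      apply pow_mem' (n := 4) (by norm_num)
      rw [hu]
      exact hu3.mem
    obtain ⟨u', hu'⟩ := Rdc.exists (rP 3) h1
    have h2 := hu'.pow 4
    rw [hu] at h2
    have h3 : u' ^ 4 = 0 := h2.unique hu3
    rw [pow_eq_zero_iff (by norm_num)] at h3
    rw [← h3]
    exact hu'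
  -- the two models
  set W : WeierstrassCurve (PadicAlgCl 3) := ⟨0, r * u ^ 2, 0, r ^ 2, 0⟩ with hW
  have hrel : VcRel (SW (0 : PadicAlgCl 3) (-31 / 4)) W u r 0 0 := by
    refine ⟨hu0, ?_, ?_, ?_, ?_, ?_⟩
    · simp [SW, hW]
    · simp only [SW, hW]
      linear_combination r * hu
    · simp [SW, hW]
    · simp only [SW, hW]
      linear_combination r ^ 2 * hu
    · simp only [SW, hW]
      linear_combination -hr3
  have hRW : RdcW (OP 3) (rP 3) W (SW (1 : Fb 3) 0) := by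
    refine ⟨Rdc.zero _ _, ?_, Rdc.zero _ _, ?_, Rdc.zero _ _⟩
    · have h1 := hrr.mul (huu.pow 2)
      have h2 : (1 : Fb 3) * 0 ^ 2 = 0 := by ring
      rw [h2] at h1
      exact h1
    · have h1 := hrr.pow 2
      rw [one_pow] at h1
      exact h1
  have hΔ : (SW (1 : Fb 3) 0).Δ ≠ 0 := by
    rw [sw_disc, dsc]
    have h1 : (-16 * (4 * 1 ^ 3 + 27 * 0 ^ 2) : Fb 3) = -1 - 21 * 3 := by norm_num
    rw [h1, hp3]
    norm_num
  have hΔW : W.Δ ≠ 0 := by
    intro h
    have h1 := RedAux.disc_val hRW hΔ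
    rw [h, map_zero] at h1
    exact zero_ne_one h1
  obtain ⟨red, hred1, hred2⟩ := red_exists (OP 3) (rP 3) hRW hΔ
  let e : W.toAffine.Point ≃+ Pt (0 : PadicAlgCl 3) (-31 / 4) :=
    AddEquiv.ofBijective hrel.hom hrel.hom_bijective
  have he : ∀ (x y : PadicAlgCl 3) (h : W.toAffine.Nonsingular x y), ∃ h', e (.some x y h) =
      .some (u ^ 2 * x + r) (u ^ 3 * y) h' := by
    intro x y h
    have h1 : u ^ 3 * y + u ^ 2 * 0 * x + 0 = u ^ 3 * y := by ring
    have h2 := (hrel.nonsingular x y).mpr h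
    have h3 : (SW (0 : PadicAlgCl 3) (-31 / 4)).toAffine.Nonsingular (u ^ 2 * x + r) (u ^ 3 * y) := by
      rw [← h1]; exact h2
    exact ⟨h3, some_congr' h2 h3 rfl h1⟩
  refine ⟨Pt (1 : Fb 3) 0, inferInstance, red.comp e.symm.toAddMonoidHom, ?_, ?_⟩
  · intro q hq P hP hP0
    have hq' : (q : Fb 3) ≠ 0 := by
      rw [Ne, CharP.cast_eq_zero_iff (Fb 3) 3]
      exact hq
    have hqK : (q : PadicAlgCl 3) ≠ 0 := by
      intro h
      have h1 : q = 0 := by exact_mod_cast h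
      exact hq (h1 ▸ dvd_zero 3)
    obtain ⟨Q, rfl⟩ := e.surjective P
    have h1 : red Q = 0 := by
      have h2 : red (e.symm (e Q)) = 0 := hP0
      rwa [e.symm_apply_apply] at h2
    have h2 : q • Q = 0 := by
      apply e.injective
      rw [map_nsmul, hP, map_zero]
    rcases Q with _ | ⟨x, y, h⟩
    · exact map_zero e
    · exfalso
      have h3 := tors_int (OP 3) W hΔW (zero_mem _) hRW.2.1.mem (zero_mem _) hRW.2.2.2.1.mem
        (zero_mem _) hqK h h2
      have h4 : ((q : PadicAlgCl 3)⁻¹) ∈ OP 3 := ((Rdc.natCast (OP 3) (rP 3) q).inv hq').mem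
      have hx : x ∈ OP 3 := by
        have h5 : x = (q : PadicAlgCl 3) ^ 2 * x * ((q : PadicAlgCl 3)⁻¹) ^ 2 := by field_simp
        rw [h5]
        exact mul_mem h3 (pow_mem h4 2)
      obtain ⟨x', y', h', -, -, h6⟩ := hred2 x y h hx
      rw [h6] at h1
      exact Affine.Point.some_ne_zero _ h1
  · intro σ hσ P
    obtain ⟨s, hs⟩ := gal_res 3 σ
    -- the fourth root of unity
    set ε : PadicAlgCl 3 := σ u / u with hεdef
    have hσu : σ u = ε * u := by
      rw [hεdef, div_mul_cancel₀ _ hu0]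
    have hε : ε ^ 4 = 1 := by
      rw [hεdef, div_pow, ← map_pow, hu, map_ofNat, div_self (by norm_num)]
    have hεO : ε ∈ OP 3 := pow_mem' (n := 4) (by norm_num) (by rw [hε]; exact one_mem _)
    obtain ⟨e', he'⟩ := Rdc.exists (rP 3) hεO
    have he4 : e' ^ 4 = 1 := by
      have h1 := he'.pow 4
      rw [hε] at h1
      exact h1.unique (Rdc.one _ _)
    -- the square root of `-1`
    set ι : PadicAlgCl 3 := dl 3 / u ^ 2 with hιdef
    have hι : ι ^ 2 = -1 := by
      rw [hιdef, div_pow, dl_sq, ← pow_mul]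
      have h1 : u ^ (2 * 2) = 3 := hu
      rw [h1]
      norm_num
    have hιO : ι ∈ OP 3 := by
      apply pow_mem' (n := 4) (by norm_num)
      have h1 : ι ^ 4 = 1 := by
        have : ι ^ 4 = (ι ^ 2) ^ 2 := by ring
        rw [this, hι]
        norm_num
      rw [h1]
      exact one_mem _
    obtain ⟨i', hi'⟩ := Rdc.exists (rP 3) hιO
    have hi2 : i' ^ 2 = -1 := by
      have h1 := hi'.pow 2
      rw [hι] at h1
      exact h1.unique (Rdc.one (OP 3) (rP 3)).neg
    have hi0 : i' ≠ 0 := by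
      rintro rfl
      norm_num at hi2
    have hσι : σ ι * ε ^ 2 = -ι := by
      rw [hιdef, map_div₀, hσ, map_pow, hσu]
      have hε0 : ε ≠ 0 := by
        rintro h
        rw [h] at hε
        norm_num at hε
      field_simp
    have hsi : s i' * e' ^ 2 = -i' := by
      have h1 := (hs _ _ hi').mul (he'.pow 2)
      rw [hσι] at h1
      exact h1.unique hi'.neg
    have hsn : ∀ n : ℕ, s i' = i' ^ 3 ^ n → (-1) ^ n * e' ^ 2 = -1 := by
      intro n hn
      rw [hn, pow_three hi2] at hsi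
      apply mul_right_cancel₀ hi0
      linear_combination hsi
    have hσr : σ r = r := by
      rw [hrdef]
      exact σ.commutes r0
    obtain ⟨Q, rfl⟩ := e.surjective P
    have hsymm : ∀ R, (red.comp e.symm.toAddMonoidHom) (e R) = red R := by
      intro R
      show red (e.symm (e R)) = red R
      rw [e.symm_apply_apply]
    rw [hsymm]
    rcases Q with _ | ⟨x, y, h⟩
    · obtain ⟨n, hn⟩ := frob_lift 3 s {i'}
      obtain ⟨Φ, -, hΦ⟩ := three_sq he4 (hsn n (hn i' (Finset.mem_singleton_self i'))) (0 : Pt (1 : Fb 3) 0)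
      refine ⟨Φ, n, ?_, ?_⟩
      · have h1 : e (Affine.Point.zero : W.toAffine.Point) = 0 := map_zero e
        have h2 : red (Affine.Point.zero : W.toAffine.Point) = 0 := map_zero red
        rw [h1, h2, map_zero, map_zero, map_zero]
      · have h2 : red (Affine.Point.zero : W.toAffine.Point) = 0 := map_zero red
        rw [h2]
        exact hΦ
    · -- the image of the point
      obtain ⟨h1, h2⟩ := he x y h
      obtain ⟨h3, h4⟩ := mapPt_some (σ : PadicAlgCl 3 →+* PadicAlgCl 3)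
        (map_zero (σ : PadicAlgCl 3 →+* PadicAlgCl 3))
        (map_quarter (σ : PadicAlgCl 3 →+* PadicAlgCl 3)) _ _ h1
      have h4' : mapE (σ : PadicAlgCl 3 →+* PadicAlgCl 3) (e (.some x y h)) =
          .some (σ (u ^ 2 * x + r)) (σ (u ^ 3 * y)) h3 := by
        rw [h2]; exact h4
      have ex : σ (u ^ 2 * x + r) = u ^ 2 * (ε ^ 2 * σ x) + r := by
        rw [map_add, map_mul, map_pow, hσu, hσr]
        ring
      have ey : σ (u ^ 3 * y) = u ^ 3 * (ε ^ 3 * σ y) := by
        rw [map_mul, map_pow, hσu]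
        ring
      have h5 : W.toAffine.Nonsingular (ε ^ 2 * σ x) (ε ^ 3 * σ y) := by
        rw [← hrel.nonsingular]
        have h6 : u ^ 3 * (ε ^ 3 * σ y) + u ^ 2 * 0 * (ε ^ 2 * σ x) + 0 = u ^ 3 * (ε ^ 3 * σ y) := by
          ring
        rw [h6, ← ex, ← ey]
        exact h3
      obtain ⟨h6, h7⟩ := he _ _ h5
      have h8 : mapE (σ : PadicAlgCl 3 →+* PadicAlgCl 3) (e (.some x y h)) =
          e (.some (ε ^ 2 * σ x) (ε ^ 3 * σ y) h5) := by
        rw [h4', h7]
        exact some_congr' _ _ ex ey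
      rw [h8, hsymm]
      by_cases hx : x ∈ OP 3
      · obtain ⟨x', y', h', hx', hy', hxy'⟩ := hred2 x y h hx
        obtain ⟨n, hn⟩ := frob_lift 3 s {x', y', i'}
        obtain ⟨Φ, hΦ1, hΦ⟩ := three_sq he4 (hsn n (hn i' (by simp))) (red (.some x y h))
        refine ⟨Φ, n, ?_, hΦ⟩
        have hX : Rdc (OP 3) (rP 3) (ε ^ 2 * σ x) (e' ^ 2 * x' ^ 3 ^ n) := by
          have h9 := (he'.pow 2).mul (hs _ _ hx')
          rw [hn x' (by simp)] at h9
          exact h9
        have hY : Rdc (OP 3) (rP 3) (ε ^ 3 * σ y) (e' ^ 3 * y' ^ 3 ^ n) := by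
          have h9 := (he'.pow 3).mul (hs _ _ hy')
          rw [hn y' (by simp)] at h9
          exact h9
        obtain ⟨x'', y'', h'', hx'', hy'', hxy''⟩ := hred2 _ _ h5 hX.mem
        obtain ⟨h9, h10⟩ := hΦ1 x' y' h'
        rw [hxy'', hxy', h10]
        exact some_congr' _ _ (hx''.unique hX) (hy''.unique hY)
      · obtain ⟨n, hn⟩ := frob_lift 3 s {i'}
        have h9 : ε ^ 2 * σ x ∉ OP 3 := by
          intro h10
          apply hx
          have h11 : σ x ∈ OP 3 := by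
            have h12 : σ x = ε ^ 2 * (ε ^ 2 * σ x) := by
              linear_combination -σ x * hε
            rw [h12]
            exact mul_mem (pow_mem hεO 2) h10
          have h13 := gal_mem 3 σ.symm h11
          rwa [AlgEquiv.symm_apply_apply] at h13
        rw [hred1 _ _ _ hx, hred1 _ _ _ h9]
        obtain ⟨Φ, -, hΦ⟩ := three_sq he4 (hsn n (hn i' (Finset.mem_singleton_self i'))) (0 : Pt (1 : Fb 3) 0)
        exact ⟨Φ, n, (map_zero Φ).symm, hΦ⟩

end LT
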