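import Pool.Agent.Lib_MP_f1937f_nt.FPt

/-!
# MP_f1937f_nt: the Frobenius map as a point over `k(x)` (piece FFROB)
-/

namespace LT

open Polynomial WeierstrassCurve

section

variable {k : Type} [Field k] [DecidableEq k] (p : ℕ) [Fact p.Prime] [CharP k p]

/-- The Frobenius homomorphism on points. -/
noncomputable def frobPt {a b : k} (ha : a ^ p = a) (hb : b ^ p = b) : Pt a b →+ Pt a b :=
  mapPt (frobenius k p) (a' := a) (b' := b) (by rw [frobenius_def, ha]) (by rw [frobenius_def, hb])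

theorem frobPt_some {a b : k} (ha : a ^ p = a) (hb : b ^ p = b) (x y : k)
    (h : (SW a b).toAffine.Nonsingular x y) :
    ∃ h', frobPt p ha hb (.some x y h) = .some (x ^ p) (y ^ p) h' := ⟨_, rfl⟩

theorem FFrob.frob_iter {a b : k} (ha : a ^ p = a) (hb : b ^ p = b) (e : ℕ) (x y : k)
    (h : (SW a b).toAffine.Nonsingular x y) :
    ∃ h', (frobPt p ha hb)^[e] (.some x y h) = .some (x ^ p ^ e) (y ^ p ^ e) h' := by
  induction e generalizing x y h with
  | zero => exact ⟨by simpa using h, by simp⟩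
  | succ e ih =>
    obtain ⟨h1, h2⟩ := frobPt_some p ha hb x y h
    obtain ⟨h3, h4⟩ := ih _ _ h1
    rw [Function.iterate_succ_apply, h2, h4]
    have e1 : (x ^ p) ^ p ^ e = x ^ p ^ (e + 1) := by rw [← pow_mul, pow_succ']
    have e2 : (y ^ p) ^ p ^ e = y ^ p ^ (e + 1) := by rw [← pow_mul, pow_succ']
    have h5 : (SW a b).toAffine.Nonsingular (x ^ p ^ (e + 1)) (y ^ p ^ (e + 1)) := by
      rw [← e1, ← e2]; exact h3
    refine ⟨h5, ?_⟩
    simp only [e1, e2]

theorem FFrob.pow_eq {a : k} (ha : a ^ p = a) (e : ℕ) : a ^ p ^ e = a := by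
  induction e with
  | zero => simp
  | succ e ih => rw [pow_succ, pow_mul, ih, ha]

/-- Powers of Frobenius as points over `k(x)`. -/
theorem frob_exists (hp : p ≠ 2) {a b : k} (hd : dsc a b ≠ 0) (ha : a ^ p = a) (hb : b ^ p = b)
    (e : ℕ) : ∃ φ : MM a b a b, φ ≠ .zero ∧ hh φ = p ^ e ∧ InO φ ∧ (0 < e → HasC φ 0) ∧
      ∀ Φ : Pt a b →+ Pt a b, (∀ P, Φ P = (frobPt p ha hb)^[e] P) → Compat φ Φ := by
  have hpp : p.Prime := Fact.out
  have h2 : (2 : k) ≠ 0 := by
    intro h
    have h3 : ((2 : ℕ) : k) = 0 := by exact_mod_cast h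
    rw [CharP.cast_eq_zero_iff k p] at h3
    exact hp ((Nat.prime_dvd_prime_iff_eq hpp Nat.prime_two).mp h3)
  have hodd : Odd (p ^ e) := (hpp.odd_of_ne_two hp).pow
  obtain ⟨m, hm⟩ := hodd
  have hq0 : 0 < p ^ e := pow_pos hpp.pos e
  have hfP : fP a b ^ p ^ e = (X ^ p ^ e) ^ 3 + C a * X ^ p ^ e + C b := by
    unfold fP
    rw [add_pow_char_pow, add_pow_char_pow, mul_pow, ← C_pow, ← C_pow, FFrob.pow_eq p ha,
      FFrob.pow_eq p hb]
    ring
  have heq : (fR a b ^ m) ^ 2 * fR a b = (algebraMap k[X] (RatFunc k) (X ^ p ^ e)) ^ 3 +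
      RatFunc.C a * algebraMap k[X] (RatFunc k) (X ^ p ^ e) + RatFunc.C b := by
    have h3 : (fR a b ^ m) ^ 2 * fR a b = algebraMap k[X] (RatFunc k) (fP a b ^ p ^ e) := by
      rw [hm, map_pow]
      unfold fR
      ring
    rw [h3, hfP]
    simp only [map_add, map_mul, map_pow, RatFunc.algebraMap_C]
  obtain ⟨φ, h0, hu, hv⟩ := mk_exists h2 hd _ _ heq
  have hnum : (uu φ).num = X ^ p ^ e := by rw [hu, RatFunc.num_algebraMap]
  have hden : (uu φ).denom = 1 := by rw [hu, RatFunc.denom_algebraMap]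
  refine ⟨φ, h0, ?_, ?_, ?_, ?_⟩
  · unfold hh
    rw [hnum, hden]
    simp
  · right
    rw [hnum, hden]
    simpa using hq0
  · intro he
    refine ⟨?_, fun _ => rfl⟩
    rw [hu, dR_poly, map_zero, zero_mul]
    have : derivative ((X : k[X]) ^ p ^ e) = 0 := by
      rw [derivative_X_pow]
      have h4 : ((p ^ e : ℕ) : k) = 0 := by
        rw [Nat.cast_pow, CharP.cast_eq_zero, zero_pow he.ne']
      rw [h4, C_0, zero_mul]
    rw [this, map_zero]
  · intro Φ hΦ x y h hy
    refine ⟨fun h3 => absurd h3 h0, fun _ => ⟨?_, ?_⟩⟩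
    · intro h3
      rw [hden, eval_one] at h3
      exact absurd h3 one_ne_zero
    · intro _
      obtain ⟨h4, h5⟩ := FFrob.frob_iter p ha hb e x y h
      have hf : (fP a b).eval x = y ^ 2 := by
        have h6 := (sw_nons h2 hd).mp h
        rw [h6]
        simp [fP]
      have e1 : (uu φ).eval (RingHom.id k) x = x ^ p ^ e := by
        rw [hu, RatFunc.eval_algebraMap]
        simp
      have e2 : y * (vv φ).eval (RingHom.id k) x = y ^ p ^ e := by
        have h7 : fR a b ^ m = algebraMap k[X] (RatFunc k) (fP a b ^ m) := by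
          unfold fR; rw [map_pow]
        rw [hv, h7, RatFunc.eval_algebraMap]
        have h8 : eval₂ (RingHom.id k) x (algebraMap k[X] k[X] (fP a b ^ m)) = (y ^ 2) ^ m := by
          rw [Algebra.algebraMap_self_apply, eval₂_id, eval_pow, hf]
        rw [h8, hm]
        ring
      have h9 : (SW a b).toAffine.Nonsingular ((uu φ).eval (RingHom.id k) x)
          (y * (vv φ).eval (RingHom.id k) x) := by
        rw [e1, e2]; exact h4
      refine ⟨h9, ?_⟩
      rw [hΦ, h5]
      simp only [e1, e2]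

end

end LT
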