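import Pool.Agent.Lib_MP_f1937f_nt.CDefs
import Pool.Agent.Lib_MP_f1937f_nt.FFrob
import Pool.Agent.Lib_MP_f1937f_nt.ADefs

/-!
# MP_f1937f_nt: definitions for the upper layers

* `NN Ω j n` : the product of `j - j(E₀/L)` over the cyclic subgroups `L` of order `n` of
  `E₀ : y² = x³ - 31/4` over the algebraically closed field `Ω`;
* `OP p` : the valuation ring of the algebraic closure of `ℚ_p`; `Fb p` : the algebraic closure of `F_p`;
* `RedL p n j L` : the data obtained by reduction modulo `p`.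
-/

namespace LT

open Polynomial WeierstrassCurve

/-- The number `N_n = ∏ (j - j_L)`. -/
noncomputable def NN (Ω : Type) [Field Ω] [DecidableEq Ω] (j : Ω) (n : ℕ) : Ω :=
  ∏ᶠ L ∈ CycL (0 : Ω) (-31 / 4) n, (j - jL 0 (-31 / 4) L)

/-- The algebraic closure of `F_p`. -/
abbrev Fb (p : ℕ) [Fact p.Prime] : Type := AlgebraicClosure (ZMod p)

noncomputable instance (p : ℕ) [Fact p.Prime] : DecidableEq (Fb p) := Classical.decEq _

noncomputable instance (p : ℕ) [Fact p.Prime] : DecidableEq (PadicAlgCl p) := Classical.decEq _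

/-- The ring of integers of the algebraic closure of `ℚ_p`. -/
noncomputable def OP (p : ℕ) [Fact p.Prime] : ValuationSubring (PadicAlgCl p) :=
  (Valued.v : Valuation (PadicAlgCl p) NNReal).valuationSubring

theorem mem_OP {p : ℕ} [Fact p.Prime] {x : PadicAlgCl p} : x ∈ OP p ↔ ‖x‖ ≤ 1 := by
  rw [OP, Valuation.mem_valuationSubring_iff, PadicAlgCl.valuation_def]
  exact Iff.rfl

theorem frob_quarter (p : ℕ) [Fact p.Prime] : (-31 / 4 : Fb p) ^ p = -31 / 4 := by
  have h := map_div₀ (frobenius (Fb p) p) (-31) 4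
  rw [frobenius_def] at h
  rw [h, map_neg]
  congr 1
  · congr 1
    exact map_ofNat (frobenius (Fb p) p) 31
  · exact map_ofNat (frobenius (Fb p) p) 4

theorem frob_zero (p : ℕ) [Fact p.Prime] : (0 : Fb p) ^ p = 0 :=
  zero_pow (Fact.out : p.Prime).ne_zero

/-- The Frobenius homomorphism of `E₀` modulo `p`. -/
noncomputable def F0 (p : ℕ) [Fact p.Prime] : Pt (0 : Fb p) (-31 / 4) →+ Pt (0 : Fb p) (-31 / 4) :=
  frobPt p (frob_zero p) (frob_quarter p)

/-- Velu's quotients by `L' ≤ L` and the isogeny between them. -/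
def ChainOK {k : Type} [Field k] [DecidableEq k] (a b : k) (L' L : AddSubgroup (Pt a b)) : Prop :=
  VeluOK a b L' ∧ VeluOK a b L ∧ ∃ M : AddSubgroup (Pt (vA a b L') (vB a b L')),
    Nat.card M * Nat.card L' = Nat.card L ∧ VeluOK (vA a b L') (vB a b L') M ∧
      vA (vA a b L') (vB a b L') M = vA a b L ∧ vB (vA a b L') (vB a b L') M = vB a b L

/-- Reduction data: a cyclic Frobenius stable subgroup of order `n` of `E₀` over the algebraic closure
of `F_p` such that the quotient has `j`-invariant `j`. -/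
structure RedL (p : ℕ) [Fact p.Prime] (n : ℕ) (j : ℚ) (L : AddSubgroup (Pt (0 : Fb p) (-31 / 4))) :
    Prop where
  cyc : L ∈ CycL (0 : Fb p) (-31 / 4) n
  frob : ∀ P ∈ L, F0 p P ∈ L
  jj : jL 0 (-31 / 4) L = (j : Fb p)
  chain : ∀ L' : AddSubgroup (Pt (0 : Fb p) (-31 / 4)), L' ≤ L → ChainOK 0 (-31 / 4) L' L

/-- The number of affine points modulo `p`. -/
def affCount (W : WeierstrassCurve ℤ) (p : ℕ) : ℕ :=
  ((Finset.range p ×ˢ Finset.range p).filter (fun q : ℕ × ℕ =>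
    (q.2 : ZMod p) ^ 2 + (W.a₁ : ZMod p) * (q.1 : ZMod p) * (q.2 : ZMod p)
      + (W.a₃ : ZMod p) * (q.2 : ZMod p)
    = (q.1 : ZMod p) ^ 3 + (W.a₂ : ZMod p) * (q.1 : ZMod p) ^ 2
      + (W.a₄ : ZMod p) * (q.1 : ZMod p) + (W.a₆ : ZMod p))).card

/-- The good primes `p ≤ n` with `a_p = 0`. -/
def SS (W : WeierstrassCurve ℤ) (n : ℕ) : Finset ℕ :=
  (Finset.range (n + 1)).filter fun p => p.Prime ∧ ¬ (p : ℤ) ∣ W.Δ ∧ affCount W p = p

/-- The curve has no complex multiplication (over `ℂ`): a lattice `Λ` with the same `j`-invariant,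
`c₄³ / Δ = 1728 g₂³ / (g₂³ - 27 g₃²)`, has only the integers as multipliers. -/
def NoCM (W : WeierstrassCurve ℤ) : Prop :=
  ∀ Λ : PeriodPair, (W.c₄ : ℂ) ^ 3 * (Λ.g₂ ^ 3 - 27 * Λ.g₃ ^ 2) = 1728 * Λ.g₂ ^ 3 * (W.Δ : ℂ) →
    ∀ α : ℂ, (∀ z ∈ Λ.lattice, α * z ∈ Λ.lattice) → ∃ k : ℤ, α = k

end LT
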