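import Pool.Agent.Lib_MP_f1937f_nt.FTors
import Pool.Agent.Lib_MP_f1937f_nt.IDefs

/-!
# MP_f1937f_nt: the cyclic subgroups of order `n` (piece SIZEC)

Proof. `card_tors` (with `n ≠ 0` in `Ω`, `dsc 0 (-31/4) ≠ 0`): the set of the `T` with `n • T = 0` has `n²` elements, and
`CycL 0 (-31/4) n` is contained in its image under `AddSubgroup.zmultiples`. A cyclic group generated by an element of
order `n > 0` is finite with `n` elements (`Nat.card_zmultiples`), all killed by `n`.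
-/

namespace LT

open Polynomial WeierstrassCurve

section

variable {Ω : Type} [Field Ω] [DecidableEq Ω]

theorem cycL_mem {n : ℕ} (hn : 0 < n) {L : AddSubgroup (Pt (0 : Ω) (-31 / 4))}
    (hL : L ∈ CycL (0 : Ω) (-31 / 4) n) :
    Finite L ∧ Nat.card L = n ∧ ∀ P ∈ L, n • P = 0 := by
  obtain ⟨T, hT, rfl⟩ := hL
  have hc : Nat.card (AddSubgroup.zmultiples T) = n := by
    rw [Nat.card_zmultiples, hT]
  refine ⟨Nat.finite_of_card_ne_zero (by rw [hc]; exact hn.ne'), hc, ?_⟩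
  intro x hx
  obtain ⟨m, rfl⟩ := AddSubgroup.mem_zmultiples_iff.1 hx
  rw [smul_comm, ← hT, addOrderOf_nsmul_eq_zero, smul_zero]

theorem cycL_finite [CharZero Ω] [IsAlgClosed Ω] {n : ℕ} (hn : 0 < n) :
    (CycL (0 : Ω) (-31 / 4) n).Finite ∧ (CycL (0 : Ω) (-31 / 4) n).ncard ≤ n ^ 2 := by
  have hd : dsc (0 : Ω) (-31 / 4) ≠ 0 := by
    unfold dsc
    norm_num
  have hcard := card_tors (k := Ω) two_ne_zero hd (n := n) (by exact_mod_cast hn.ne')
  set S : Set (Pt (0 : Ω) (-31 / 4)) := {T | n • T = 0} with hS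
  have hsub : CycL (0 : Ω) (-31 / 4) n ⊆ AddSubgroup.zmultiples '' S := by
    rintro L ⟨T, hT, rfl⟩
    exact ⟨T, by rw [hS, Set.mem_setOf_eq, ← hT, addOrderOf_nsmul_eq_zero], rfl⟩
  have hSn : S.ncard = n ^ 2 := hcard
  have hSf : S.Finite := by
    apply Set.finite_of_ncard_ne_zero
    rw [hSn]
    positivity
  refine ⟨(hSf.image _).subset hsub, ?_⟩
  calc (CycL (0 : Ω) (-31 / 4) n).ncard ≤ (AddSubgroup.zmultiples '' S).ncard :=
        Set.ncard_le_ncard hsub (hSf.image _)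
    _ ≤ S.ncard := Set.ncard_image_le hSf
    _ = n ^ 2 := hSn

end

end LT
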