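import Pool.Agent.Lib_MP_f1937f_nt.NkA
import Pool.Agent.Lib_MP_f1937f_nt.NkB
import Pool.Agent.Lib_MP_f1937f_nt.NkD
import Pool.Agent.Lib_MP_f1937f_nt.SizeC

/-!
# MP_f1937f_nt: `N_n` is a norm at the killed primes and at `3` (layer GAL)
-/

namespace LT

open Polynomial WeierstrassCurve

/-- Iterates of an endomorphism. -/
def iterHom {G : Type} [AddCommGroup G] (Fr : G →+ G) (m : ℕ) : G →+ G where
  toFun := Fr^[m]
  map_zero' := iterate_map_zero Fr m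
  map_add' := iterate_map_add Fr m

theorem iter_sq {G : Type} [AddCommGroup G] (Fr : G →+ G) {p : ℕ} (h : ∀ P, Fr (Fr P) = -(p • P))
    (m : ℕ) (x : G) : Fr^[m] (Fr^[m] x) = ((-(p : ℤ)) ^ m) • x := by
  induction m generalizing x with
  | zero => simp
  | succ m ih =>
    have e1 : Fr^[m + 1] x = Fr (Fr^[m] x) := Function.iterate_succ_apply' Fr m x
    have e2 : Fr^[m + 1] (Fr (Fr^[m] x)) = Fr^[m] (Fr (Fr (Fr^[m] x))) :=
      Function.iterate_succ_apply Fr m _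
    have e3 : -(p • Fr^[m] x) = (-(p : ℤ)) • Fr^[m] x := by
      rw [neg_smul, natCast_zsmul]
    have e4 : Fr^[m] ((-(p : ℤ)) • Fr^[m] x) = (-(p : ℤ)) • Fr^[m] (Fr^[m] x) :=
      map_zsmul (iterHom Fr m) _ _
    rw [e1, e2, h, e3, e4, ih, smul_smul, pow_succ']

theorem norm_kill {p : ℕ} [Fact p.Prime] (h3 : p % 3 = 2) {n : ℕ} (hn : 0 < n)
    (hk : KilledBy p n) (j : ℚ) : ∃ a b : ℚ_[p],
      NN (PadicAlgCl p) (j : PadicAlgCl p) n =
        algebraMap ℚ_[p] (PadicAlgCl p) (a ^ 2 + 3 * b ^ 2) := by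
  have hpp : p.Prime := Fact.out
  refine norm_lemma p (Or.inl h3) _ (cycL_finite hn).1 (fun L hL => (cycL_mem hn hL).1)
    (fun σ L hL => CycL_map _ hL) ?_ j
  intro σ hσ L hL hfix
  obtain ⟨T, hT, rfl⟩ := hL
  obtain ⟨q, hq, hqn, hq2, hJ⟩ := hk
  have hpq : ¬ p ∣ q := by
    intro h
    have h1 : p = q := (Nat.prime_dvd_prime_iff_eq hpp hq).mp h
    subst h1
    have h2 : jacobiSym (-(p : ℤ)) p = 0 := by
      rw [jacobiSym.eq_zero_iff]
      refine ⟨hpp.ne_zero, ?_⟩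
      rw [Int.neg_gcd, Int.gcd_self]
      simpa using hpp.one_lt.ne'
    rw [h2] at hJ
    norm_num at hJ
  have hG : GoodRed p := by
    by_cases h2 : p = 2
    · subst h2
      exact good_two
    · refine good_five ?_ h3
      have h4 := hpp.two_le
      by_contra hlt
      have h5 : p = 3 ∨ p = 4 := by omega
      rcases h5 with rfl | rfl
      · omega
      · omega
  obtain ⟨G, _, red, Fr, hF, hinj, hgal⟩ := hG
  refine kill_core red _ hq hn hqn (fun P h1 h2 => hinj q hpq P h1 h2) ?_ hT hfix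
  intro P
  obtain ⟨m, hm, e⟩ := hgal σ hσ P
  refine ⟨iterHom Fr m, (-(p : ℤ)) ^ m, e, iter_sq Fr hF m (red P), ?_⟩
  · rw [jacobiSym.pow_left, hJ]
    exact hm.neg_one_pow

theorem norm_three {n : ℕ} (hn : 0 < n) (hk : 11 ∣ n) (j : ℚ) : ∃ a b : ℚ_[3],
      NN (PadicAlgCl 3) (j : PadicAlgCl 3) n =
        algebraMap ℚ_[3] (PadicAlgCl 3) (a ^ 2 + 3 * b ^ 2) := by
  refine norm_lemma 3 (Or.inr rfl) _ (cycL_finite hn).1 (fun L hL => (cycL_mem hn hL).1)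
    (fun σ L hL => CycL_map _ hL) ?_ j
  intro σ hσ L hL hfix
  obtain ⟨T, hT, rfl⟩ := hL
  obtain ⟨G, _, red, hinj, hgal⟩ := good_three
  refine kill_core red _ (q := 11) (by norm_num) hn hk
    (fun P h1 h2 => hinj 11 (by norm_num) P h1 h2) ?_ hT hfix
  intro P
  obtain ⟨Φ, m, e, h | h⟩ := hgal σ hσ P
  · refine ⟨Φ, (-3 : ℤ) ^ m, e, h.2, ?_⟩
    rw [jacobiSym.pow_left]
    have h1 : jacobiSym (-3) 11 = -1 := by norm_num
    rw [h1]
    exact h.1.neg_one_pow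
  · refine ⟨Φ, -(3 : ℤ) ^ m, e, h.2, ?_⟩
    obtain ⟨l, rfl⟩ := h.1
    have h1 : jacobiSym (-1) 11 = -1 := by norm_num
    have h2 : jacobiSym 3 11 = 1 := by norm_num
    have h3 : (-(3 : ℤ) ^ (l + l)) = -1 * 3 ^ (l + l) := by ring
    rw [h3, jacobiSym.mul_left, jacobiSym.pow_left, h1, h2, one_pow, mul_one]

end LT
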