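import Pool.Agent.Lib_MP_f1937f_nt.IDefs

/-!
# MP_f1937f_nt: the number of points modulo `p` in terms of the short Weierstrass form (piece PCOUNT)
-/

namespace LT

open Polynomial WeierstrassCurve

theorem int_frob (p : ℕ) [Fact p.Prime] (z : ℤ) : ((z : ℤ) : Fb p) ^ p = ((z : ℤ) : Fb p) := by
  have h := map_intCast (frobenius (Fb p) p) z
  rwa [frobenius_def] at h

namespace PCount

/-- The elements of the algebraic closure fixed by Frobenius come from `F_p`. -/
theorem exists_zmod {p : ℕ} [Fact p.Prime] {c : Fb p} (hc : c ^ p = c) :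
    ∃ z : ZMod p, algebraMap (ZMod p) (Fb p) z = c := by
  have hp : p.Prime := Fact.out
  have hne : (X ^ p - X : (Fb p)[X]) ≠ 0 := by
    intro h0
    have h1 : (X ^ p - X : (Fb p)[X]).coeff p = 0 := by rw [h0]; simp
    rw [coeff_sub, coeff_X_pow_self, coeff_X, if_neg hp.one_lt.ne] at h1
    simp at h1
  have hdeg : (X ^ p - X : (Fb p)[X]).natDegree ≤ p := by
    refine (natDegree_sub_le _ _).trans ?_
    rw [natDegree_X_pow, natDegree_X]
    exact max_le le_rfl hp.one_lt.le
  have hroot : ∀ x : Fb p, x ^ p = x → x ∈ (X ^ p - X : (Fb p)[X]).roots.toFinset := by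
    intro x hx
    rw [Multiset.mem_toFinset, mem_roots hne]
    simp [hx]
  have hcard : (X ^ p - X : (Fb p)[X]).roots.toFinset.card ≤ p :=
    (Multiset.toFinset_card_le _).trans ((card_roots' _).trans hdeg)
  have hsub : (Finset.univ : Finset (ZMod p)).image (algebraMap (ZMod p) (Fb p)) ⊆
      (X ^ p - X : (Fb p)[X]).roots.toFinset := by
    intro x hx
    obtain ⟨n, -, rfl⟩ := Finset.mem_image.mp hx
    apply hroot
    rw [← map_pow, ZMod.pow_card]
  have heq := Finset.eq_of_subset_of_card_le hsub (by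
    rw [Finset.card_image_of_injective _ (algebraMap (ZMod p) (Fb p)).injective,
      Finset.card_univ, ZMod.card]; exact hcard)
  have h1 := hroot c hc
  rw [← heq] at h1
  obtain ⟨n, -, hn⟩ := Finset.mem_image.mp h1
  exact ⟨n, hn⟩

theorem nat_ne_zero {p : ℕ} [Fact p.Prime] {n : ℕ} (h : ¬ p ∣ n) : ((n : ℕ) : Fb p) ≠ 0 := by
  rw [Ne, CharP.cast_eq_zero_iff (Fb p) p]
  exact h

theorem not_dvd {p : ℕ} [Fact p.Prime] (h5 : 5 ≤ p) (a b : ℕ) : ¬ p ∣ 2 ^ a * 3 ^ b := by
  have hp : p.Prime := Fact.out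
  intro h
  rcases (hp.dvd_mul).mp h with h1 | h1
  · have := Nat.le_of_dvd (by norm_num) (hp.dvd_of_dvd_pow h1)
    omega
  · have := Nat.le_of_dvd (by norm_num) (hp.dvd_of_dvd_pow h1)
    omega

/-- The change of coordinates. -/
theorem change {k : Type} [Field k] (W : WeierstrassCurve ℤ) (x y : k) :
    (108 * (2 * y + (W.a₁ : k) * x + (W.a₃ : k))) ^ 2 -
      ((36 * x + 3 * (W.b₂ : k)) ^ 3 + ((-27 * W.c₄ : ℤ) : k) * (36 * x + 3 * (W.b₂ : k)) +
        ((-54 * W.c₆ : ℤ) : k)) =
    46656 * (y ^ 2 + (W.a₁ : k) * x * y + (W.a₃ : k) * y -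
      (x ^ 3 + (W.a₂ : k) * x ^ 2 + (W.a₄ : k) * x + (W.a₆ : k))) := by
  simp only [WeierstrassCurve.c₄, WeierstrassCurve.c₆, WeierstrassCurve.b₂, WeierstrassCurve.b₄,
    WeierstrassCurve.b₆]
  push_cast
  ring

theorem dsc_ne {p : ℕ} [Fact p.Prime] (h5 : 5 ≤ p) (W : WeierstrassCurve ℤ)
    (hΔ : ¬ (p : ℤ) ∣ W.Δ) :
    dsc ((-27 * W.c₄ : ℤ) : Fb p) ((-54 * W.c₆ : ℤ) : Fb p) ≠ 0 := by
  have h1 : dsc ((-27 * W.c₄ : ℤ) : Fb p) ((-54 * W.c₆ : ℤ) : Fb p) =
      -((2 ^ 8 * 3 ^ 12 : ℕ) : Fb p) * ((W.Δ : ℤ) : Fb p) := by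
    have h2 := W.c_relation
    have h3 : (1728 : Fb p) * ((W.Δ : ℤ) : Fb p) = ((W.c₄ : ℤ) : Fb p) ^ 3 -
        ((W.c₆ : ℤ) : Fb p) ^ 2 := by
      exact_mod_cast congrArg (fun z : ℤ => (z : Fb p)) h2
    unfold dsc
    push_cast
    linear_combination (78732 : Fb p) * h3
  rw [h1]
  refine mul_ne_zero (neg_ne_zero.mpr (nat_ne_zero (not_dvd h5 8 12))) ?_
  rw [Ne, CharP.intCast_eq_zero_iff (Fb p) p]
  exact hΔ

end PCount

/-- `(x, y) ↦ (36 x + 3 b₂, 108 (2 y + a₁ x + a₃))` maps the solutions of the equation of `W` over `F_p`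
bijectively to the solutions of `Y² = X³ - 27 c₄ X - 54 c₆`; the points over the algebraic closure fixed by
Frobenius are the points with coordinates in `F_p` (and the origin). -/
theorem affCount_eq {p : ℕ} [Fact p.Prime] (h5 : 5 ≤ p) (W : WeierstrassCurve ℤ)
    (hΔ : ¬ (p : ℤ) ∣ W.Δ) :
    Nat.card {P : Pt ((-27 * W.c₄ : ℤ) : Fb p) ((-54 * W.c₆ : ℤ) : Fb p) //
      frobPt p (int_frob p _) (int_frob p _) P = P} = affCount W p + 1 := by
  classical
  have hp : p.Prime := Fact.out
  have h2 : (2 : Fb p) ≠ 0 := by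
    have := PCount.nat_ne_zero (p := p) (PCount.not_dvd h5 1 0)
    simpa using this
  have h3 : (3 : Fb p) ≠ 0 := by
    have := PCount.nat_ne_zero (p := p) (PCount.not_dvd h5 0 1)
    simpa using this
  have h36 : (36 : Fb p) ≠ 0 := by
    have : (36 : Fb p) = 2 ^ 2 * 3 ^ 2 := by norm_num
    rw [this]
    exact mul_ne_zero (pow_ne_zero _ h2) (pow_ne_zero _ h3)
  have h108 : (108 : Fb p) ≠ 0 := by
    have : (108 : Fb p) = 2 ^ 2 * 3 ^ 3 := by norm_num
    rw [this]
    exact mul_ne_zero (pow_ne_zero _ h2) (pow_ne_zero _ h3)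
  have h46656 : (46656 : Fb p) ≠ 0 := by
    have : (46656 : Fb p) = 2 ^ 6 * 3 ^ 6 := by norm_num
    rw [this]
    exact mul_ne_zero (pow_ne_zero _ h2) (pow_ne_zero _ h3)
  have hd := PCount.dsc_ne h5 W hΔ
  set A : Fb p := ((-27 * W.c₄ : ℤ) : Fb p) with hA
  set B : Fb p := ((-54 * W.c₆ : ℤ) : Fb p) with hB
  set T : Finset (ℕ × ℕ) := (Finset.range p ×ˢ Finset.range p).filter (fun q : ℕ × ℕ =>
    (q.2 : ZMod p) ^ 2 + (W.a₁ : ZMod p) * (q.1 : ZMod p) * (q.2 : ZMod p)
      + (W.a₃ : ZMod p) * (q.2 : ZMod p)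
    = (q.1 : ZMod p) ^ 3 + (W.a₂ : ZMod p) * (q.1 : ZMod p) ^ 2
      + (W.a₄ : ZMod p) * (q.1 : ZMod p) + (W.a₆ : ZMod p)) with hT
  have hTc : affCount W p = T.card := rfl
  -- the coordinates of the image
  set fx : ℕ × ℕ → Fb p := fun q => 36 * (q.1 : Fb p) + 3 * (W.b₂ : Fb p) with hfx
  set fy : ℕ × ℕ → Fb p := fun q => 108 * (2 * (q.2 : Fb p) + (W.a₁ : Fb p) * (q.1 : Fb p) +
    (W.a₃ : Fb p)) with hfy
  have hmem : ∀ q ∈ T, (SW A B).toAffine.Nonsingular (fx q) (fy q) := by
    intro q hq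
    rw [sw_nons h2 hd, ← sub_eq_zero]
    have h := (Finset.mem_filter.mp hq).2
    have h' := congrArg (algebraMap (ZMod p) (Fb p)) h
    simp only [map_add, map_mul, map_pow, map_natCast, map_intCast] at h'
    rw [hfx, hfy]
    dsimp only
    rw [hA, hB, PCount.change W (q.1 : Fb p) (q.2 : Fb p), h', sub_self, mul_zero]
  have hfix : ∀ q, fx q ^ p = fx q ∧ fy q ^ p = fy q := by
    intro q
    have e1 : fx q = ((36 * (q.1 : ℤ) + 3 * W.b₂ : ℤ) : Fb p) := by
      rw [hfx]; push_cast; ring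
    have e2 : fy q = ((108 * (2 * (q.2 : ℤ) + W.a₁ * (q.1 : ℤ) + W.a₃) : ℤ) : Fb p) := by
      rw [hfy]; push_cast; ring
    rw [e1, e2]
    exact ⟨int_frob p _, int_frob p _⟩
  set g : Option T → {P : Pt A B // frobPt p (int_frob p _) (int_frob p _) P = P} := fun o =>
    match o with
    | none => ⟨0, map_zero _⟩
    | some q => ⟨.some (fx q.1) (fy q.1) (hmem q.1 q.2), by
        obtain ⟨h', e⟩ := frobPt_some p (int_frob p (-27 * W.c₄)) (int_frob p (-54 * W.c₆))
          (fx q.1) (fy q.1) (hmem q.1 q.2)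
        rw [e]
        simp only [(hfix q.1).1, (hfix q.1).2]⟩ with hg
  have hbij : Function.Bijective g := by
    constructor
    · rintro (_ | q) (_ | q') h
      · rfl
      · exact absurd (congrArg Subtype.val h) (by rintro ⟨⟩)
      · exact absurd (congrArg Subtype.val h) (by rintro ⟨⟩)
      · have h1 := congrArg Subtype.val h
        have h4 : fx q.1 = fx q'.1 ∧ fy q.1 = fy q'.1 := (Affine.Point.some.injEq ..).mp h1
        obtain ⟨h5', h6⟩ := h4
        have hq := Finset.mem_product.mp (Finset.mem_filter.mp q.2).1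
        have hq' := Finset.mem_product.mp (Finset.mem_filter.mp q'.2).1
        rw [Finset.mem_range, Finset.mem_range] at hq hq'
        have e1 : (q.1.1 : Fb p) = (q'.1.1 : Fb p) := by
          have : (36 : Fb p) * (q.1.1 : Fb p) = 36 * (q'.1.1 : Fb p) := by
            rw [hfx] at h5'
            exact add_right_cancel h5'
          exact mul_left_cancel₀ h36 this
        have e2 : (q.1.2 : Fb p) = (q'.1.2 : Fb p) := by
          rw [hfy] at h6
          have h7 := mul_left_cancel₀ h108 h6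
          rw [e1] at h7
          have h8 := add_right_cancel (add_right_cancel h7)
          exact mul_left_cancel₀ h2 h8
        have e1' : q.1.1 = q'.1.1 := CharP.natCast_injOn_Iio (Fb p) p hq.1 hq'.1 e1
        have e2' : q.1.2 = q'.1.2 := CharP.natCast_injOn_Iio (Fb p) p hq.2 hq'.2 e2
        exact congrArg some (Subtype.ext (Prod.ext e1' e2'))
    · rintro ⟨P, hP⟩
      rcases P with _ | ⟨x, y, hxy⟩
      · exact ⟨none, rfl⟩
      · obtain ⟨h', e⟩ := frobPt_some p (int_frob p (-27 * W.c₄)) (int_frob p (-54 * W.c₆)) x y hxy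
        have h7 : x ^ p = x ∧ y ^ p = y := (Affine.Point.some.injEq ..).mp (e.symm.trans hP)
        obtain ⟨u, hu⟩ := PCount.exists_zmod h7.1
        obtain ⟨v, hv⟩ := PCount.exists_zmod h7.2
        set m : ZMod p := (u - 3 * (W.b₂ : ZMod p)) / 36 with hm
        set n : ZMod p := (v / 108 - (W.a₁ : ZMod p) * m - (W.a₃ : ZMod p)) / 2 with hn
        have hmx : 36 * algebraMap (ZMod p) (Fb p) m + 3 * (W.b₂ : Fb p) = x := by
          rw [hm, map_div₀, map_sub, map_mul, map_intCast, map_ofNat, map_ofNat, hu]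
          field_simp
          ring
        have hny : 108 * (2 * algebraMap (ZMod p) (Fb p) n +
            (W.a₁ : Fb p) * algebraMap (ZMod p) (Fb p) m + (W.a₃ : Fb p)) = y := by
          rw [hn, map_div₀, map_sub, map_sub, map_mul, map_div₀, map_intCast, map_intCast,
            map_ofNat, map_ofNat, hv]
          field_simp
          ring
        have hcm : ((m.val : ℕ) : ZMod p) = m := ZMod.natCast_zmod_val m
        have hcn : ((n.val : ℕ) : ZMod p) = n := ZMod.natCast_zmod_val n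
        have hcm' : ((m.val : ℕ) : Fb p) = algebraMap (ZMod p) (Fb p) m := by
          rw [← map_natCast (algebraMap (ZMod p) (Fb p)), hcm]
        have hcn' : ((n.val : ℕ) : Fb p) = algebraMap (ZMod p) (Fb p) n := by
          rw [← map_natCast (algebraMap (ZMod p) (Fb p)), hcn]
        have hmT : (m.val, n.val) ∈ T := by
          rw [hT, Finset.mem_filter]
          refine ⟨Finset.mem_product.mpr ⟨Finset.mem_range.mpr (ZMod.val_lt m),
            Finset.mem_range.mpr (ZMod.val_lt n)⟩, ?_⟩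
          dsimp only
          rw [hcm, hcn]
          apply (algebraMap (ZMod p) (Fb p)).injective
          simp only [map_add, map_mul, map_pow, map_intCast]
          rw [← sub_eq_zero]
          have h8 := PCount.change (k := Fb p) W (algebraMap (ZMod p) (Fb p) m)
            (algebraMap (ZMod p) (Fb p) n)
          rw [hmx, hny] at h8
          have h9 := (sw_nons h2 hd).mp hxy
          rw [← hA, ← hB, h9, sub_self] at h8
          exact (mul_eq_zero.mp h8.symm).resolve_left h46656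
        refine ⟨some ⟨(m.val, n.val), hmT⟩, ?_⟩
        apply Subtype.ext
        have e1 : fx (m.val, n.val) = x := by
          rw [hfx]; dsimp only; rw [hcm', hmx]
        have e2 : fy (m.val, n.val) = y := by
          rw [hfy]; dsimp only; rw [hcm', hcn', hny]
        change (Affine.Point.some (fx (m.val, n.val)) (fy (m.val, n.val)) _ : Pt A B) =
          .some x y hxy
        simp only [e1, e2]
  rw [hTc, ← Nat.card_congr (Equiv.ofBijective g hbij), Finite.card_option, Nat.card_eq_fintype_card,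
    Fintype.card_coe]

end LT
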