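import Pool.Agent.Lib_MP_f1937f_nt.IDefs

/-!
# MP_f1937f_nt: discriminant and `j`-invariant of the short Weierstrass form modulo `p` (piece PDISC)
-/

namespace LT

open Polynomial WeierstrassCurve

namespace PDisc

theorem int_ne {p : ℕ} [Fact p.Prime] {n : ℤ} (hn : ¬ (p : ℤ) ∣ n) : ((n : ℤ) : Fb p) ≠ 0 := by
  intro h
  exact hn ((CharP.intCast_eq_zero_iff (Fb p) p n).mp h)

theorem small_ne {p : ℕ} [Fact p.Prime] (h5 : 5 ≤ p) (i j : ℕ) :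
    ¬ (p : ℤ) ∣ (2 ^ i * 3 ^ j : ℤ) := by
  have hpp : p.Prime := Fact.out
  intro h
  have h' : p ∣ 2 ^ i * 3 ^ j := by exact_mod_cast h
  rcases (Nat.Prime.dvd_mul hpp).mp h' with h1 | h1
  · have := Nat.le_of_dvd (by norm_num) (hpp.dvd_of_dvd_pow h1)
    omega
  · have := Nat.le_of_dvd (by norm_num) (hpp.dvd_of_dvd_pow h1)
    omega

/-- the integer identity -/
theorem rel (W : WeierstrassCurve ℤ) :
    4 * (-27 * W.c₄) ^ 3 + 27 * (-54 * W.c₆) ^ 2 = -(2 ^ 8 * 3 ^ 12) * W.Δ := by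
  have h := W.c_relation
  linear_combination 78732 * h

end PDisc

/-- `4 (-27 c₄)³ + 27 (-54 c₆)² = -78732 · 1728 Δ`, `78732 = 2² 3⁹`. -/
theorem dsc_c {p : ℕ} [Fact p.Prime] (h5 : 5 ≤ p) (W : WeierstrassCurve ℤ)
    (hΔ : ¬ (p : ℤ) ∣ W.Δ) :
    dsc ((-27 * W.c₄ : ℤ) : Fb p) ((-54 * W.c₆ : ℤ) : Fb p) ≠ 0 := by
  have hpp : p.Prime := Fact.out
  have h1 : dsc ((-27 * W.c₄ : ℤ) : Fb p) ((-54 * W.c₆ : ℤ) : Fb p)
      = ((-(2 ^ 8 * 3 ^ 12) * W.Δ : ℤ) : Fb p) := by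
    rw [← PDisc.rel W, dsc]
    push_cast
    ring
  rw [h1]
  apply PDisc.int_ne
  intro h
  rcases (Int.Prime.dvd_mul' hpp h) with h2 | h2
  · rw [dvd_neg] at h2
    exact PDisc.small_ne h5 8 12 h2
  · exact hΔ h2

/-- The denominator of `j` divides `Δ`, so it is not divisible by `p`. -/
theorem jinv_c {p : ℕ} [Fact p.Prime] (h5 : 5 ≤ p) (W : WeierstrassCurve ℤ)
    (hΔ : ¬ (p : ℤ) ∣ W.Δ) {j : ℚ} (hj : (W.c₄ : ℚ) ^ 3 = j * W.Δ) :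
    jinv ((-27 * W.c₄ : ℤ) : Fb p) ((-54 * W.c₆ : ℤ) : Fb p) = (j : Fb p) := by
  have hpp : p.Prime := Fact.out
  have hd := dsc_c h5 W hΔ
  have h1 : dsc ((-27 * W.c₄ : ℤ) : Fb p) ((-54 * W.c₆ : ℤ) : Fb p)
      = ((-(2 ^ 8 * 3 ^ 12) * W.Δ : ℤ) : Fb p) := by
    rw [← PDisc.rel W, dsc]
    push_cast
    ring
  -- the integral relation
  have hden : (j.den : ℤ) * W.c₄ ^ 3 = j.num * W.Δ := by
    have h2 : (j.den : ℚ) ≠ 0 := by exact_mod_cast j.den_nz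
    have h3 : (j.den : ℚ) * (W.c₄ : ℚ) ^ 3 = j.num * W.Δ := by
      rw [hj]
      have h4 := Rat.mul_den_eq_num j
      linear_combination (W.Δ : ℚ) * h4
    exact_mod_cast h3
  have hpd : ¬ (p : ℤ) ∣ (j.den : ℤ) := by
    intro h
    have h2 : (p : ℤ) ∣ j.num * W.Δ := by
      rw [← hden]
      exact Dvd.dvd.mul_right h _
    rcases (Int.Prime.dvd_mul' hpp h2) with h3 | h3
    · have h4 : p ∣ j.den := by exact_mod_cast h
      have h5' : p ∣ j.num.natAbs := Int.natCast_dvd.mp h3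
      have h6 := Nat.dvd_gcd h5' h4
      rw [Nat.Coprime.gcd_eq_one j.reduced] at h6
      exact hpp.one_lt.ne' (Nat.dvd_one.mp h6)
    · exact hΔ h3
  have hdn : ((j.den : ℤ) : Fb p) ≠ 0 := PDisc.int_ne hpd
  have hdn' : (j.den : Fb p) ≠ 0 := by exact_mod_cast hdn
  have hΔ' : ((W.Δ : ℤ) : Fb p) ≠ 0 := PDisc.int_ne hΔ
  have hF : (j.den : Fb p) * (W.c₄ : Fb p) ^ 3 = j.num * W.Δ := by
    exact_mod_cast congrArg (fun n : ℤ => (n : Fb p)) hden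
  have hsm : ((2 ^ 8 * 3 ^ 12 : ℤ) : Fb p) ≠ 0 := PDisc.int_ne (PDisc.small_ne h5 8 12)
  rw [jinv, div_eq_iff hd, h1, Rat.cast_def]
  rw [div_mul_eq_mul_div, eq_div_iff hdn']
  push_cast at hsm ⊢
  linear_combination (-(6912 * 27 ^ 3 : Fb p)) * hF
end LT
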