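import Pool.Agent.Lib_MP_f1937f_nt.Basics

/-!
# MP_f1937f_nt: curves with the same `j`-invariant (piece PJINV)
-/

namespace LT

open Polynomial WeierstrassCurve

theorem jinv_ne {k : Type} [Field k] {a b : k} (h0 : jinv a b ≠ 0) (h1 : jinv a b ≠ 1728)
    (hd : dsc a b ≠ 0) : a ≠ 0 ∧ b ≠ 0 := by
  constructor
  · rintro rfl
    apply h0
    simp [jinv]
  · rintro rfl
    apply h1
    rw [jinv, div_eq_iff hd, dsc]
    ring

namespace PJinv

theorem six_ne {k : Type} [Field k] (h2 : (2 : k) ≠ 0) (h3 : (3 : k) ≠ 0) : (6912 : k) ≠ 0 := by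
  have : (6912 : k) = 2 ^ 8 * 3 ^ 3 := by norm_num
  rw [this]
  exact mul_ne_zero (pow_ne_zero _ h2) (pow_ne_zero _ h3)

theorem key {k : Type} [Field k] (h2 : (2 : k) ≠ 0) (h3 : (3 : k) ≠ 0)
    {a b a' b' : k} (hd : dsc a b ≠ 0) (hd' : dsc a' b' ≠ 0) (hj : jinv a b = jinv a' b') :
    a ^ 3 * b' ^ 2 = a' ^ 3 * b ^ 2 := by
  rw [jinv, jinv, div_eq_div_iff hd hd', dsc, dsc] at hj
  have h4 : (6912 : k) * 3 ^ 3 ≠ 0 := mul_ne_zero (six_ne h2 h3) (pow_ne_zero _ h3)
  apply mul_left_cancel₀ h4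
  linear_combination hj

/-- the common computation -/
theorem sq_iso {k : Type} [Field k] {a b a' b' v : k} (ha : a ≠ 0) (hb : b ≠ 0) (ha' : a' ≠ 0)
    (hb' : b' ≠ 0) (hk : a ^ 3 * b' ^ 2 = a' ^ 3 * b ^ 2) (hv : v ^ 2 = (b' / b) * (a / a')) :
    v ≠ 0 ∧ v ^ 4 * a = a' ∧ v ^ 6 * b = b' := by
  refine ⟨?_, ?_, ?_⟩
  · rintro rfl
    have : (b' / b) * (a / a') ≠ 0 := mul_ne_zero (div_ne_zero hb' hb) (div_ne_zero ha ha')
    exact this (by rw [← hv]; ring)
  · have : v ^ 4 = ((b' / b) * (a / a')) ^ 2 := by rw [← hv]; ring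
    rw [this]
    field_simp
    linear_combination hk
  · have : v ^ 6 = ((b' / b) * (a / a')) ^ 3 := by rw [← hv]; ring
    rw [this]
    field_simp
    linear_combination hk

end PJinv

/-- Over an algebraically closed field, curves with the same `j`-invariant are isomorphic. Proof: if
`a = 0` then `a' = 0`, take `v^6 = b'/b`; if `b = 0` (`j = 1728`) then `b' = 0`, take `v^4 = a'/a`; otherwise
`a^3 b'^2 = a'^3 b^2`, take `v^2 = (b'/b) (a/a')`. -/
theorem jinv_iso {k : Type} [Field k] [IsAlgClosed k] (h2 : (2 : k) ≠ 0) (h3 : (3 : k) ≠ 0)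
    {a b a' b' : k} (hd : dsc a b ≠ 0) (hd' : dsc a' b' ≠ 0) (hj : jinv a b = jinv a' b') :
    ∃ v : k, v ≠ 0 ∧ v ^ 4 * a = a' ∧ v ^ 6 * b = b' := by
  have hk := PJinv.key h2 h3 hd hd' hj
  by_cases ha : a = 0
  · subst ha
    have hb : b ≠ 0 := by
      rintro rfl
      exact hd (by simp [dsc])
    have ha' : a' = 0 := by
      have h1 : a' ^ 3 * b ^ 2 = 0 := by rw [← hk]; ring
      rcases mul_eq_zero.mp h1 with h | h
      · exact pow_eq_zero_iff (by norm_num) |>.mp h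
      · exact absurd (pow_eq_zero_iff (by norm_num) |>.mp h) hb
    subst ha'
    have hb' : b' ≠ 0 := by
      rintro rfl
      exact hd' (by simp [dsc])
    obtain ⟨v, hv⟩ := IsAlgClosed.exists_pow_nat_eq (b' / b) (n := 6) (by norm_num)
    refine ⟨v, ?_, by simp, ?_⟩
    · rintro rfl
      have : b' / b ≠ 0 := div_ne_zero hb' hb
      exact this (by rw [← hv]; norm_num)
    · rw [hv]
      field_simp
  · by_cases hb : b = 0
    · subst hb
      have hb' : b' = 0 := by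
        have h1 : a ^ 3 * b' ^ 2 = 0 := by rw [hk]; ring
        rcases mul_eq_zero.mp h1 with h | h
        · exact absurd (pow_eq_zero_iff (by norm_num) |>.mp h) ha
        · exact pow_eq_zero_iff (by norm_num) |>.mp h
      subst hb'
      have ha' : a' ≠ 0 := by
        rintro rfl
        exact hd' (by simp [dsc])
      obtain ⟨v, hv⟩ := IsAlgClosed.exists_pow_nat_eq (a' / a) (n := 4) (by norm_num)
      refine ⟨v, ?_, ?_, by simp⟩
      · rintro rfl
        have : a' / a ≠ 0 := div_ne_zero ha' ha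
        exact this (by rw [← hv]; norm_num)
      · rw [hv]
        field_simp
    · have ha' : a' ≠ 0 := by
        rintro rfl
        have h1 : a ^ 3 * b' ^ 2 = 0 := by rw [hk]; ring
        rcases mul_eq_zero.mp h1 with h | h
        · exact ha (pow_eq_zero_iff (by norm_num) |>.mp h)
        · have hb' : b' = 0 := pow_eq_zero_iff (by norm_num) |>.mp h
          subst hb'
          exact hd' (by simp [dsc])
      have hb' : b' ≠ 0 := by
        rintro rfl
        have h1 : a' ^ 3 * b ^ 2 = 0 := by rw [← hk]; ring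
        rcases mul_eq_zero.mp h1 with h | h
        · exact ha' (pow_eq_zero_iff (by norm_num) |>.mp h)
        · exact hb (pow_eq_zero_iff (by norm_num) |>.mp h)
      obtain ⟨v, hv⟩ := IsAlgClosed.exists_pow_nat_eq ((b' / b) * (a / a')) (n := 2) (by norm_num)
      exact ⟨v, PJinv.sq_iso ha hb ha' hb' hk hv⟩

/-- The quadratic class of an element of `F_p`. -/
theorem cls_two {k : Type} [Field k] (p : ℕ) [Fact p.Prime] [CharP k p] (hp : p ≠ 2) {s : k}
    (hs : s ≠ 0) (hf : s ^ p = s) : s ^ ((p - 1) / 2) = 1 ∨ s ^ ((p - 1) / 2) = -1 := by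
  have hpp : p.Prime := Fact.out
  have hodd : Odd p := hpp.odd_of_ne_two hp
  have h1 : (s ^ ((p - 1) / 2)) ^ 2 = 1 := by
    rw [← pow_mul]
    have h2 : (p - 1) / 2 * 2 = p - 1 := by
      obtain ⟨m, hm⟩ := hodd
      omega
    rw [h2]
    apply mul_left_cancel₀ hs
    rw [mul_one, ← pow_succ', Nat.sub_add_cancel hpp.one_le]
    exact hf
  exact sq_eq_one_iff.mp h1

/-- Curves over `F_p` with the same `j`-invariant, not `0` or `1728`, and the same class of `b / a` are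
isomorphic over `F_p`. Proof: take `v` with `v^2 = (b'/b) (a/a')`; then `v^(p-1) = (v^2)^((p-1)/2) = 1`. -/
theorem jinv_iso_fp {k : Type} [Field k] [IsAlgClosed k] (p : ℕ) [Fact p.Prime] [CharP k p]
    (h5 : 5 ≤ p) {a b a' b' : k} (hd : dsc a b ≠ 0) (hd' : dsc a' b' ≠ 0) (ha : a ≠ 0) (hb : b ≠ 0)
    (ha' : a' ≠ 0) (hb' : b' ≠ 0) (hj : jinv a b = jinv a' b')
    (hc : (b / a) ^ ((p - 1) / 2) = (b' / a') ^ ((p - 1) / 2)) :
    ∃ v : k, v ≠ 0 ∧ v ^ p = v ∧ v ^ 4 * a = a' ∧ v ^ 6 * b = b' := by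
  have hpp : p.Prime := Fact.out
  have h2 : (2 : k) ≠ 0 := by
    intro h
    have h' : ((2 : ℕ) : k) = 0 := by exact_mod_cast h
    have := Nat.le_of_dvd (by norm_num) ((CharP.cast_eq_zero_iff k p 2).mp h')
    omega
  have h3 : (3 : k) ≠ 0 := by
    intro h
    have h' : ((3 : ℕ) : k) = 0 := by exact_mod_cast h
    have := Nat.le_of_dvd (by norm_num) ((CharP.cast_eq_zero_iff k p 3).mp h')
    omega
  have hk := PJinv.key h2 h3 hd hd' hj
  obtain ⟨v, hv⟩ := IsAlgClosed.exists_pow_nat_eq ((b' / b) * (a / a')) (n := 2) (by norm_num)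
  obtain ⟨h4, h6, h7⟩ := PJinv.sq_iso ha hb ha' hb' hk hv
  refine ⟨v, h4, ?_, h6, h7⟩
  have hodd : Odd p := hpp.odd_of_ne_two (by omega)
  have h8 : (p - 1) / 2 * 2 = p - 1 := by
    obtain ⟨m, hm⟩ := hodd
    omega
  have h9 : v ^ (p - 1) = 1 := by
    rw [← h8, mul_comm, pow_mul, hv]
    have h10 : (b' / b) * (a / a') = (b' / a') / (b / a) := by field_simp
    rw [h10, div_pow, ← hc, div_self]
    exact pow_ne_zero _ (div_ne_zero hb ha)
  calc v ^ p = v ^ (p - 1 + 1) := by rw [Nat.sub_add_cancel hpp.one_le]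
    _ = v := by rw [pow_succ, h9, one_mul]

end LT
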