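import Pool.Agent.Lib_MP_f1937f_nt.Basics
import Pool.Agent.Lib_MP_f5471b_nt.Red
import Pool.Agent.Lib_MP_f5471b_nt.AddSub

/-!
# MP_f1937f_nt: reduction of the points of a Weierstrass curve with good reduction (piece RED)
-/

namespace LT

open Polynomial WeierstrassCurve

section

variable {K κ : Type} [Field K] [Field κ]

/-- The element `x` of the valuation ring `O` reduces to `x'`. -/
def Rdc (O : ValuationSubring K) (r : O →+* κ) (x : K) (x' : κ) : Prop :=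
  ∃ z : O, (z : K) = x ∧ r z = x'

/-- The coefficients of `W` reduce to the coefficients of `W'`. -/
def RdcW (O : ValuationSubring K) (r : O →+* κ) (W : WeierstrassCurve K)
    (W' : WeierstrassCurve κ) : Prop :=
  Rdc O r W.a₁ W'.a₁ ∧ Rdc O r W.a₂ W'.a₂ ∧ Rdc O r W.a₃ W'.a₃ ∧ Rdc O r W.a₄ W'.a₄ ∧
    Rdc O r W.a₆ W'.a₆

theorem Rdc.add {O : ValuationSubring K} {r : O →+* κ} {x y : K} {x' y' : κ}
    (hx : Rdc O r x x') (hy : Rdc O r y y') : Rdc O r (x + y) (x' + y') := by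
  obtain ⟨u, rfl, rfl⟩ := hx
  obtain ⟨v, rfl, rfl⟩ := hy
  exact ⟨u + v, rfl, map_add r u v⟩

theorem Rdc.mul {O : ValuationSubring K} {r : O →+* κ} {x y : K} {x' y' : κ}
    (hx : Rdc O r x x') (hy : Rdc O r y y') : Rdc O r (x * y) (x' * y') := by
  obtain ⟨u, rfl, rfl⟩ := hx
  obtain ⟨v, rfl, rfl⟩ := hy
  exact ⟨u * v, rfl, map_mul r u v⟩

theorem Rdc.neg {O : ValuationSubring K} {r : O →+* κ} {x : K} {x' : κ}
    (hx : Rdc O r x x') : Rdc O r (-x) (-x') := by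
  obtain ⟨u, rfl, rfl⟩ := hx
  exact ⟨-u, rfl, map_neg r u⟩

theorem Rdc.sub {O : ValuationSubring K} {r : O →+* κ} {x y : K} {x' y' : κ}
    (hx : Rdc O r x x') (hy : Rdc O r y y') : Rdc O r (x - y) (x' - y') := by
  obtain ⟨u, rfl, rfl⟩ := hx
  obtain ⟨v, rfl, rfl⟩ := hy
  exact ⟨u - v, rfl, map_sub r u v⟩

theorem Rdc.pow {O : ValuationSubring K} {r : O →+* κ} {x : K} {x' : κ}
    (hx : Rdc O r x x') (n : ℕ) : Rdc O r (x ^ n) (x' ^ n) := by
  obtain ⟨u, rfl, rfl⟩ := hx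
  exact ⟨u ^ n, rfl, map_pow r u n⟩

theorem Rdc.natCast (O : ValuationSubring K) (r : O →+* κ) (n : ℕ) :
    Rdc O r (n : K) (n : κ) := ⟨n, rfl, map_natCast r n⟩

theorem Rdc.intCast (O : ValuationSubring K) (r : O →+* κ) (n : ℤ) :
    Rdc O r (n : K) (n : κ) := ⟨n, rfl, map_intCast r n⟩

theorem Rdc.zero (O : ValuationSubring K) (r : O →+* κ) : Rdc O r 0 0 := ⟨0, rfl, map_zero r⟩

theorem Rdc.one (O : ValuationSubring K) (r : O →+* κ) : Rdc O r 1 1 := ⟨1, rfl, map_one r⟩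

theorem Rdc.mem {O : ValuationSubring K} {r : O →+* κ} {x : K} {x' : κ}
    (hx : Rdc O r x x') : x ∈ O := by
  obtain ⟨u, rfl, rfl⟩ := hx
  exact u.2

theorem Rdc.unique {O : ValuationSubring K} {r : O →+* κ} {x : K} {x' x'' : κ}
    (hx : Rdc O r x x') (hx' : Rdc O r x x'') : x' = x'' := by
  obtain ⟨u, rfl, rfl⟩ := hx
  obtain ⟨v, hv, rfl⟩ := hx'
  rw [Subtype.ext hv]

theorem Rdc.exists {O : ValuationSubring K} (r : O →+* κ) {x : K} (hx : x ∈ O) :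
    ∃ x', Rdc O r x x' := ⟨r ⟨x, hx⟩, ⟨x, hx⟩, rfl, rfl⟩

theorem Rdc.inv {O : ValuationSubring K} {r : O →+* κ} [IsLocalHom r] {x : K} {x' : κ}
    (hx : Rdc O r x x') (h0 : x' ≠ 0) : Rdc O r x⁻¹ x'⁻¹ := by
  obtain ⟨u, rfl, rfl⟩ := hx
  have h1 : IsUnit (r u) := isUnit_iff_ne_zero.mpr h0
  obtain ⟨w, rfl⟩ := isUnit_of_map_unit r u h1
  refine ⟨(w⁻¹ : Oˣ), ?_, ?_⟩
  · apply eq_inv_of_mul_eq_one_left
    have : ((w⁻¹ : Oˣ) : O) * (w : O) = 1 := by simp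
    exact congrArg Subtype.val this
  · apply eq_inv_of_mul_eq_one_left
    rw [← map_mul]
    simp

end


namespace RedAux

variable {K κ : Type} [Field K] [Field κ] {O : ValuationSubring K} {r : O →+* κ} [IsLocalHom r]
  {W : WeierstrassCurve K} {W' : WeierstrassCurve κ}

omit [IsLocalHom r] in
theorem le_one {x : K} {x' : κ} (h : Rdc O r x x') : O.valuation x ≤ 1 :=
  (O.valuation_le_one_iff x).mpr h.mem

theorem lt_one_iff {x : K} {x' : κ} (h : Rdc O r x x') : O.valuation x < 1 ↔ x' = 0 := by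
  obtain ⟨z, rfl, rfl⟩ := h
  rw [← O.valuation_lt_one_iff z]
  constructor
  · intro hz
    by_contra hne
    have h1 : IsUnit (r z) := isUnit_iff_ne_zero.mpr hne
    exact (IsLocalRing.mem_maximalIdeal z).mp hz (isUnit_of_map_unit r z h1)
  · intro hz
    rw [IsLocalRing.mem_maximalIdeal]
    intro hu
    exact (hu.map r).ne_zero hz

theorem Rdc_div {x y : K} {x' y' : κ} (hx : Rdc O r x x') (hy : Rdc O r y y') (h0 : y' ≠ 0) :
    Rdc O r (x / y) (x' / y') := by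
  rw [div_eq_mul_inv, div_eq_mul_inv]
  exact hx.mul (hy.inv h0)

omit [IsLocalHom r] in
theorem Rdc_disc (hW : RdcW O r W W') : Rdc O r W.Δ W'.Δ := by
  obtain ⟨⟨a1, h1, h1'⟩, ⟨a2, h2, h2'⟩, ⟨a3, h3, h3'⟩, ⟨a4, h4, h4'⟩, ⟨a6, h6, h6'⟩⟩ := hW
  let W0 : WeierstrassCurve O := ⟨a1, a2, a3, a4, a6⟩
  have e1 : W0.map (algebraMap O K) = W := by
    ext <;> simp [W0, WeierstrassCurve.map, ← h1, ← h2, ← h3, ← h4, ← h6] <;> rfl
  have e2 : W0.map r = W' := by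
    ext <;> simp [W0, WeierstrassCurve.map, h1', h2', h3', h4', h6']
  refine ⟨W0.Δ, ?_, ?_⟩
  · rw [← e1, WeierstrassCurve.map_Δ]; rfl
  · rw [← e2, WeierstrassCurve.map_Δ]

theorem disc_val (hW : RdcW O r W W') (hΔ : W'.Δ ≠ 0) : O.valuation W.Δ = 1 := by
  apply le_antisymm (le_one (Rdc_disc hW))
  by_contra h
  rw [not_le] at h
  exact hΔ ((lt_one_iff (Rdc_disc hW)).mp h)

omit [IsLocalHom r] in
theorem Rdc_b (hW : RdcW O r W W') : Rdc O r W.b₂ W'.b₂ ∧ Rdc O r W.b₄ W'.b₄ ∧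
    Rdc O r W.b₆ W'.b₆ ∧ Rdc O r W.b₈ W'.b₈ := by
  obtain ⟨⟨a1, h1, h1'⟩, ⟨a2, h2, h2'⟩, ⟨a3, h3, h3'⟩, ⟨a4, h4, h4'⟩, ⟨a6, h6, h6'⟩⟩ := hW
  let W0 : WeierstrassCurve O := ⟨a1, a2, a3, a4, a6⟩
  have e1 : W0.map (algebraMap O K) = W := by
    ext <;> simp [W0, WeierstrassCurve.map, ← h1, ← h2, ← h3, ← h4, ← h6] <;> rfl
  have e2 : W0.map r = W' := by
    ext <;> simp [W0, WeierstrassCurve.map, h1', h2', h3', h4', h6']
  refine ⟨⟨W0.b₂, ?_, ?_⟩, ⟨W0.b₄, ?_, ?_⟩, ⟨W0.b₆, ?_, ?_⟩, ⟨W0.b₈, ?_, ?_⟩⟩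
  · rw [← e1, WeierstrassCurve.map_b₂]; rfl
  · rw [← e2, WeierstrassCurve.map_b₂]
  · rw [← e1, WeierstrassCurve.map_b₄]; rfl
  · rw [← e2, WeierstrassCurve.map_b₄]
  · rw [← e1, WeierstrassCurve.map_b₆]; rfl
  · rw [← e2, WeierstrassCurve.map_b₆]
  · rw [← e1, WeierstrassCurve.map_b₈]; rfl
  · rw [← e2, WeierstrassCurve.map_b₈]

omit [IsLocalHom r] in
theorem Rdc_negY (hW : RdcW O r W W') {x y : K} {x' y' : κ} (hx : Rdc O r x x')
    (hy : Rdc O r y y') : Rdc O r (W.toAffine.negY x y) (W'.toAffine.negY x' y') := by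
  obtain ⟨h1, h2, h3, h4, h6⟩ := hW
  exact (hy.neg.sub (h1.mul hx)).sub h3

omit [IsLocalHom r] in
theorem nons (hW : RdcW O r W W') (hΔ : W'.Δ ≠ 0) {x y : K} {x' y' : κ}
    (h : W.toAffine.Nonsingular x y) (hx : Rdc O r x x')
    (hy : Rdc O r y y') : W'.toAffine.Nonsingular x' y' := by
  rw [← Affine.equation_iff_nonsingular_of_Δ_ne_zero hΔ, Affine.equation_iff]
  have h0 := (Affine.equation_iff _ _).mp h.1
  obtain ⟨h1, h2, h3, h4, h6⟩ := hW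
  have l : Rdc O r (y ^ 2 + W.a₁ * x * y + W.a₃ * y) (y' ^ 2 + W'.a₁ * x' * y' + W'.a₃ * y') :=
    ((hy.pow 2).add ((h1.mul hx).mul hy)).add (h3.mul hy)
  have l' : Rdc O r (x ^ 3 + W.a₂ * x ^ 2 + W.a₄ * x + W.a₆)
      (x' ^ 3 + W'.a₂ * x' ^ 2 + W'.a₄ * x' + W'.a₆) :=
    (((hx.pow 3).add (h2.mul (hx.pow 2))).add (h4.mul hx)).add h6
  change y ^ 2 + W.a₁ * x * y + W.a₃ * y = x ^ 3 + W.a₂ * x ^ 2 + W.a₄ * x + W.a₆ at h0
  rw [h0] at l
  exact l.unique l'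

theorem slope_formula {F : Type} [Field F] [DecidableEq F] (W : WeierstrassCurve F)
    {x₁ y₁ x₂ y₂ : F} (h₁ : W.toAffine.Equation x₁ y₁) (h₂ : W.toAffine.Equation x₂ y₂)
    (hD : y₁ ≠ W.toAffine.negY x₂ y₂) : W.toAffine.slope x₁ x₂ y₁ y₂ =
      (x₁ ^ 2 + x₁ * x₂ + x₂ ^ 2 + W.a₂ * (x₁ + x₂) + W.a₄ - W.a₁ * y₁) /
        (y₁ - W.toAffine.negY x₂ y₂) := by
  have e₁ := (Affine.equation_iff _ _).mp h₁
  have e₂ := (Affine.equation_iff _ _).mp h₂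
  by_cases hx : x₁ = x₂
  · have hy := Affine.Y_eq_of_Y_ne h₁ h₂ hx hD
    rw [Affine.slope_of_Y_ne hx hD]
    subst hx hy
    congr 1
    ring
  · rw [Affine.slope_of_X_ne hx, div_eq_div_iff (sub_ne_zero.mpr hx) (sub_ne_zero.mpr hD)]
    simp only [Affine.negY]
    linear_combination e₁ - e₂

variable [DecidableEq K] [DecidableEq κ]

theorem Rdc_slope (hW : RdcW O r W W') {x₁ y₁ x₂ y₂ : K} {x₁' y₁' x₂' y₂' : κ}
    (h₁ : W.toAffine.Nonsingular x₁ y₁) (h₂ : W.toAffine.Nonsingular x₂ y₂)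
    (h₁' : W'.toAffine.Nonsingular x₁' y₁') (h₂' : W'.toAffine.Nonsingular x₂' y₂')
    (hx₁ : Rdc O r x₁ x₁') (hy₁ : Rdc O r y₁ y₁') (hx₂ : Rdc O r x₂ x₂') (hy₂ : Rdc O r y₂ y₂')
    (hxy : ¬(x₁' = x₂' ∧ y₁' = W'.toAffine.negY x₂' y₂')) :
    Rdc O r (W.toAffine.slope x₁ x₂ y₁ y₂) (W'.toAffine.slope x₁' x₂' y₁' y₂') := by
  by_cases hD' : y₁' = W'.toAffine.negY x₂' y₂'
  · have hx' : x₁' ≠ x₂' := fun h => hxy ⟨h, hD'⟩
    have hx : x₁ ≠ x₂ := by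
      rintro rfl
      exact hx' (hx₁.unique hx₂)
    rw [Affine.slope_of_X_ne hx, Affine.slope_of_X_ne hx']
    exact Rdc_div (hy₁.sub hy₂) (hx₁.sub hx₂) (sub_ne_zero.mpr hx')
  · have hD : y₁ ≠ W.toAffine.negY x₂ y₂ := by
      intro h
      have := Rdc_negY hW hx₂ hy₂
      rw [← h] at this
      exact hD' (hy₁.unique this)
    rw [slope_formula W h₁.1 h₂.1 hD, slope_formula W' h₁'.1 h₂'.1 hD']
    refine Rdc_div ?_ (hy₁.sub (Rdc_negY hW hx₂ hy₂)) (sub_ne_zero.mpr hD')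
    obtain ⟨h1, h2, h3, h4, h6⟩ := hW
    exact (((((hx₁.pow 2).add (hx₁.mul hx₂)).add (hx₂.pow 2)).add
      (h2.mul (hx₁.add hx₂))).add h4).sub (h1.mul hy₁)

/-- `P` reduces to `P'`. -/
def IsRed (O : ValuationSubring K) (r : O →+* κ) (P : W.toAffine.Point)
    (P' : W'.toAffine.Point) : Prop :=
  (P' = 0 ∧ (P = 0 ∨ ∃ x y h, P = .some x y h ∧ x ∉ O)) ∨
    ∃ x y h x' y' h', P = .some x y h ∧ P' = .some x' y' h' ∧ Rdc O r x x' ∧ Rdc O r y y'

omit [IsLocalHom r] in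
theorem IsRed.unique {P : W.toAffine.Point} {P' P'' : W'.toAffine.Point} (h : IsRed O r P P')
    (h' : IsRed O r P P'') : P' = P'' := by
  rcases h with ⟨h1, h2⟩ | ⟨x, y, h, x', y', g, rfl, rfl, hx, hy⟩
  · rcases h' with ⟨h1', h2'⟩ | ⟨x, y, h, x', y', g, rfl, rfl, hx, hy⟩
    · rw [h1, h1']
    · rcases h2 with h2 | ⟨x1, y1, g1, e, hx1⟩
      · exact absurd h2 (Affine.Point.some_ne_zero _)
      · rw [Affine.Point.some.injEq] at e
        exact absurd (e.1 ▸ hx.mem) hx1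
  · rcases h' with ⟨h1', h2'⟩ | ⟨x1, y1, h1, x1', y1', g1, e, rfl, hx1, hy1⟩
    · rcases h2' with h2 | ⟨x1, y1, g1, e, hx1⟩
      · exact absurd h2 (Affine.Point.some_ne_zero _)
      · rw [Affine.Point.some.injEq] at e
        exact absurd (e.1 ▸ hx.mem) hx1
    · rw [Affine.Point.some.injEq] at e
      rw [← e.1] at hx1
      rw [← e.2] at hy1
      have e1 := hx.unique hx1
      have e2 := hy.unique hy1
      subst e1 e2
      rfl

omit [IsLocalHom r] in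
theorem IsRed.zero : IsRed O r (0 : W.toAffine.Point) (0 : W'.toAffine.Point) :=
  Or.inl ⟨rfl, Or.inl rfl⟩

omit [IsLocalHom r] in
theorem IsRed.exists (hW : RdcW O r W W') (hΔ : W'.Δ ≠ 0) (P : W.toAffine.Point) :
    ∃ P' : W'.toAffine.Point, IsRed O r P P' := by
  rcases P with _ | ⟨x, y, h⟩
  · exact ⟨0, IsRed.zero⟩
  · by_cases hx : x ∈ O
    · have hy : y ∈ O := by
        rw [← O.valuation_le_one_iff] at hx ⊢
        obtain ⟨h1, h2, h3, h4, h6⟩ := hW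
        exact LangForms.val_y_le_one O.valuation W (le_one h1) (le_one h2) (le_one h3)
          (le_one h4) (le_one h6) h.1 hx
      obtain ⟨x', hx'⟩ := Rdc.exists r hx
      obtain ⟨y', hy'⟩ := Rdc.exists r hy
      exact ⟨.some x' y' (nons hW hΔ h hx' hy'), Or.inr ⟨x, y, h, x', y', _, rfl, rfl, hx', hy'⟩⟩
    · exact ⟨0, Or.inl ⟨rfl, Or.inr ⟨x, y, h, rfl, hx⟩⟩⟩

omit [IsLocalHom r] in
theorem IsRed.neg (hW : RdcW O r W W') {P : W.toAffine.Point}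
    {P' : W'.toAffine.Point} (h : IsRed O r P P') : IsRed O r (-P) (-P') := by
  rcases h with ⟨rfl, h2 | ⟨x, y, g, rfl, hx⟩⟩ | ⟨x, y, h, x', y', g, rfl, rfl, hx, hy⟩
  · rw [h2, neg_zero, neg_zero]; exact IsRed.zero
  · rw [neg_zero]
    exact Or.inl ⟨rfl, Or.inr ⟨x, _, (Affine.nonsingular_neg x y).mpr g,
      Affine.Point.neg_some g, hx⟩⟩
  · exact Or.inr ⟨x, _, (Affine.nonsingular_neg x y).mpr h, x', _,
      (Affine.nonsingular_neg x' y').mpr g, Affine.Point.neg_some h, Affine.Point.neg_some g,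
      hx, Rdc_negY hW hx hy⟩

theorem fin_add (hW : RdcW O r W W') (hΔ : W'.Δ ≠ 0) {x₁ y₁ x₂ y₂ : K} {x₁' y₁' x₂' y₂' : κ}
    (h₁ : W.toAffine.Nonsingular x₁ y₁) (h₂ : W.toAffine.Nonsingular x₂ y₂)
    (h₁' : W'.toAffine.Nonsingular x₁' y₁') (h₂' : W'.toAffine.Nonsingular x₂' y₂')
    (hx₁ : Rdc O r x₁ x₁') (hy₁ : Rdc O r y₁ y₁') (hx₂ : Rdc O r x₂ x₂') (hy₂ : Rdc O r y₂ y₂') :
    IsRed O r (.some x₁ y₁ h₁ + .some x₂ y₂ h₂) (.some x₁' y₁' h₁' + .some x₂' y₂' h₂') := by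
  by_cases hxy' : x₁' = x₂' ∧ y₁' = W'.toAffine.negY x₂' y₂'
  · rw [Affine.Point.add_of_Y_eq hxy'.1 hxy'.2]
    by_cases hxy : x₁ = x₂ ∧ y₁ = W.toAffine.negY x₂ y₂
    · rw [Affine.Point.add_of_Y_eq hxy.1 hxy.2]
      exact IsRed.zero
    · obtain ⟨h1, h2, h3, h4, h6⟩ := id hW
      have hn := (Affine.nonsingular_neg x₂ y₂).mpr h₂
      have hdx : O.valuation (x₁ - x₂) < 1 := by
        rw [lt_one_iff (hx₁.sub hx₂), hxy'.1, sub_self]
      have hdy : O.valuation (y₁ - W.toAffine.negY x₂ y₂) < 1 := by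
        rw [lt_one_iff (hy₁.sub (Rdc_negY hW hx₂ hy₂)), hxy'.2, sub_self]
      obtain ⟨x, y, p, he, hx⟩ := LangForms.reduction O.valuation W (le_one h1) (le_one h2)
        (le_one h3) (le_one h4) (le_one h6) (disc_val hW hΔ) hn h₁ (le_one hx₂) hdx hdy
        (by
          intro h
          rw [Affine.Point.some.injEq] at h
          exact hxy h)
      refine Or.inl ⟨rfl, Or.inr ⟨x, y, p, ?_, ?_⟩⟩
      · rw [← he, ← Affine.Point.neg_some h₂, sub_neg_eq_add]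
      · rw [← O.valuation_le_one_iff, not_le]
        exact hx
  · have hxy : ¬(x₁ = x₂ ∧ y₁ = W.toAffine.negY x₂ y₂) := by
      rintro ⟨e1, e2⟩
      apply hxy'
      constructor
      · rw [← e1] at hx₂
        exact hx₁.unique hx₂
      · have := Rdc_negY hW hx₂ hy₂
        rw [← e2] at this
        exact hy₁.unique this
    rw [Affine.Point.add_some hxy, Affine.Point.add_some hxy']
    have hs := Rdc_slope hW h₁ h₂ h₁' h₂' hx₁ hy₁ hx₂ hy₂ hxy'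
    have hX : Rdc O r (W.toAffine.addX x₁ x₂ (W.toAffine.slope x₁ x₂ y₁ y₂))
        (W'.toAffine.addX x₁' x₂' (W'.toAffine.slope x₁' x₂' y₁' y₂')) := by
      obtain ⟨h1, h2, h3, h4, h6⟩ := hW
      exact ((((hs.pow 2).add (h1.mul hs)).sub h2).sub hx₁).sub hx₂
    refine Or.inr ⟨_, _, _, _, _, _, rfl, rfl, hX, ?_⟩
    exact Rdc_negY hW hX ((hs.mul (hX.sub hx₁)).add hy₁)

/-- The kernel of reduction is closed under addition. -/
theorem kernel_add (hW : RdcW O r W W') (hΔ : W'.Δ ≠ 0) {x₁ y₁ x₂ y₂ : K}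
    (h₁ : W.toAffine.Nonsingular x₁ y₁) (h₂ : W.toAffine.Nonsingular x₂ y₂)
    (hx₁ : x₁ ∉ O) (hx₂ : x₂ ∉ O) :
    IsRed O r (.some x₁ y₁ h₁ + .some x₂ y₂ h₂) (0 : W'.toAffine.Point) := by
  set v := O.valuation with hv
  have hΔK : W.Δ ≠ 0 := by
    intro h
    have h1 := disc_val hW hΔ
    rw [h, map_zero] at h1
    exact zero_ne_one h1
  have : W.IsElliptic := ⟨isUnit_iff_ne_zero.mpr hΔK⟩
  obtain ⟨c, hc, hrel⟩ := LangForms.addSub_rel W (.some x₁ y₁ h₁) (.some x₂ y₂ h₂)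
  rw [Affine.Point.sym2x_some_some, LangForms.AddSub.eval_addSubMap] at hrel
  have v1 : 1 < v x₁ := by rw [← not_le, hv, O.valuation_le_one_iff]; exact hx₁
  have v2 : 1 < v x₂ := by rw [← not_le, hv, O.valuation_le_one_iff]; exact hx₂
  have p1 : 0 < v x₁ := lt_trans zero_lt_one v1
  have p2 : 0 < v x₂ := lt_trans zero_lt_one v2
  obtain ⟨r2, r4, r6, r8⟩ := Rdc_b hW
  have b2 : v W.b₂ ≤ 1 := le_one r2
  have b4 : v W.b₄ ≤ 1 := le_one r4
  have b6 : v W.b₆ ≤ 1 := le_one r6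
  have b8 : v W.b₈ ≤ 1 := le_one r8
  have l1 : v x₁ < v x₁ * v x₂ := by
    calc v x₁ = v x₁ * 1 := (mul_one _).symm
      _ < v x₁ * v x₂ := mul_lt_mul_of_pos_left v2 p1
  have l2 : v x₂ < v x₁ * v x₂ := by
    calc v x₂ = 1 * v x₂ := (one_mul _).symm
      _ < v x₁ * v x₂ := mul_lt_mul_of_pos_right v1 p2
  set s := x₁ * x₂ with hs
  set t := x₁ + x₂ with ht
  have vs : v s = v x₁ * v x₂ := v.map_mul _ _
  rw [← vs] at l1 l2
  have vt : v t < v s := v.map_add_lt l1 l2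
  have vs1 : 1 < v s := lt_trans v1 l1
  have ps : 0 < v s := lt_trans zero_lt_one vs1
  have hss : v s < v (s ^ 2) := by
    rw [v.map_pow, pow_two]
    calc v s = 1 * v s := (one_mul _).symm
      _ < v s * v s := mul_lt_mul_of_pos_right vs1 ps
  have hmul : ∀ {a b : K}, v a ≤ 1 → v (a * b) ≤ v b := by
    intro a b ha
    rw [v.map_mul]
    exact mul_le_of_le_one_left' ha
  have hrest : v (-(W.b₄ * s + W.b₆ * t + W.b₈)) < v (s ^ 2) := by
    rw [v.map_neg]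
    refine v.map_add_lt (v.map_add_lt ?_ ?_) ?_
    · exact lt_of_le_of_lt (hmul b4) hss
    · exact lt_of_le_of_lt (hmul b6) (lt_trans vt hss)
    · exact lt_of_le_of_lt b8 (lt_trans vs1 hss)
  have hA : v (s ^ 2 - W.b₄ * s * 1 - W.b₆ * t * 1 - W.b₈ * 1 ^ 2) = v (s ^ 2) := by
    have : s ^ 2 - W.b₄ * s * 1 - W.b₆ * t * 1 - W.b₈ * 1 ^ 2 =
        s ^ 2 + (-(W.b₄ * s + W.b₆ * t + W.b₈)) := by ring
    rw [this]
    exact v.map_add_eq_of_lt_left hrest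
  have h2le : v (2 : K) ≤ 1 := by simpa using LangForms.Red.nat_le v 2
  have hts : v (t * s) < v (s ^ 2) := by
    rw [v.map_mul, v.map_pow, pow_two]
    exact mul_lt_mul_of_pos_right vt ps
  have hB : v (2 * t * s + W.b₂ * s * 1 + W.b₄ * t * 1 + W.b₆ * 1 ^ 2) < v (s ^ 2) := by
    have : 2 * t * s + W.b₂ * s * 1 + W.b₄ * t * 1 + W.b₆ * 1 ^ 2 =
      2 * (t * s) + W.b₂ * s + W.b₄ * t + W.b₆ := by ring
    rw [this]
    refine v.map_add_lt (v.map_add_lt (v.map_add_lt ?_ ?_) ?_) ?_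
    · exact lt_of_le_of_lt (hmul h2le) hts
    · exact lt_of_le_of_lt (hmul b2) hss
    · exact lt_of_le_of_lt (hmul b4) (lt_trans vt hss)
    · exact lt_of_le_of_lt b6 (lt_trans vs1 hss)
  have e0 := congrFun hrel 0
  have e1 := congrFun hrel 1
  have e2 := congrFun hrel 2
  simp only [Matrix.cons_val_zero, Matrix.cons_val_one, Matrix.cons_val, Pi.smul_apply,
    smul_eq_mul] at e0 e1 e2
  generalize Affine.Point.some x₁ y₁ h₁ + Affine.Point.some x₂ y₂ h₂ = R at e0 e1 e2 ⊢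
  generalize Affine.Point.some x₁ y₁ h₁ - Affine.Point.some x₂ y₂ h₂ = T at e0 e1 e2
  rcases R with _ | ⟨x₃, y₃, h₃⟩
  · exact IsRed.zero
  by_cases hx₃ : x₃ ∈ O
  swap
  · exact Or.inl ⟨rfl, Or.inr ⟨x₃, y₃, h₃, rfl, hx₃⟩⟩
  exfalso
  have v3 : v x₃ ≤ 1 := by rw [hv, O.valuation_le_one_iff]; exact hx₃
  rcases T with _ | ⟨x₄, y₄, h₄⟩
  · rw [← Affine.Point.zero_def, Affine.Point.sym2x_some_zero] at e0 e1 e2
    simp only [Matrix.cons_val_zero, Matrix.cons_val_one, Matrix.cons_val] at e0 e1 e2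
    rw [e0, v.map_mul] at hA
    rw [e1, v.map_mul, map_one, mul_one] at hB
    rw [← hA] at hB
    exact absurd (mul_le_of_le_one_right' v3) (not_le.mpr hB)
  · rw [Affine.Point.sym2x_some_some] at e0 e1 e2
    simp only [Matrix.cons_val_zero, Matrix.cons_val_one, Matrix.cons_val] at e0 e1 e2
    have hvc : v c < v (s ^ 2) := by
      have : c = t ^ 2 - 4 * s := by linear_combination -e2
      rw [this, sub_eq_add_neg]
      refine v.map_add_lt ?_ ?_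
      · rw [v.map_pow, v.map_pow]
        exact pow_lt_pow_left₀ vt zero_le two_ne_zero
      · rw [v.map_neg]
        have h4le : v (4 : K) ≤ 1 := by simpa using LangForms.Red.nat_le v 4
        exact lt_of_le_of_lt (hmul h4le) hss
    rw [e0, v.map_mul, v.map_mul] at hA
    rw [e1, v.map_mul] at hB
    have v4 : 1 < v x₄ := by
      by_contra h4
      rw [not_lt] at h4
      have : v c * (v x₃ * v x₄) ≤ v c := mul_le_of_le_one_right' (mul_le_one' v3 h4)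
      rw [hA] at this
      exact absurd this (not_le.mpr hvc)
    have h34 : v (x₃ + x₄) = v x₄ := v.map_add_eq_of_lt_right (lt_of_le_of_lt v3 v4)
    rw [h34, ← hA] at hB
    exact absurd (mul_le_mul_right (mul_le_of_le_one_left' v3) (v c)) (not_le.mpr hB)

/-- Every point which reduces to `0` is `0` or has a pole. -/
theorem isRed_zero_add (hW : RdcW O r W W') (hΔ : W'.Δ ≠ 0) {P Q : W.toAffine.Point}
    (hP : IsRed O r P (0 : W'.toAffine.Point)) (hQ : IsRed O r Q (0 : W'.toAffine.Point)) :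
    IsRed O r (P + Q) (0 : W'.toAffine.Point) := by
  rcases hP with ⟨-, rfl | ⟨x, y, h, rfl, hx⟩⟩ | ⟨x, y, h, x', y', h', -, e, -⟩
  · rw [zero_add]; exact hQ
  · rcases hQ with ⟨-, rfl | ⟨x1, y1, h1, rfl, hx1⟩⟩ | ⟨x, y, h, x', y', h', -, e, -⟩
    · rw [add_zero]
      exact Or.inl ⟨rfl, Or.inr ⟨x, y, h, rfl, hx⟩⟩
    · exact kernel_add hW hΔ h h1 hx hx1
    · exact absurd e.symm (Affine.Point.some_ne_zero _)
  · exact absurd e.symm (Affine.Point.some_ne_zero _)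

theorem isRed_ne_add (hW : RdcW O r W W') (hΔ : W'.Δ ≠ 0) {P Q : W.toAffine.Point}
    {P' Q' : W'.toAffine.Point} (hP : IsRed O r P P') (hP0 : P' ≠ 0)
    (hQ : IsRed O r Q Q') (hQ0 : Q' ≠ 0) : IsRed O r (P + Q) (P' + Q') := by
  rcases hP with ⟨e, -⟩ | ⟨x, y, h, x', y', h', rfl, rfl, hx, hy⟩
  · exact absurd e hP0
  · rcases hQ with ⟨e, -⟩ | ⟨x1, y1, h1, x1', y1', h1', rfl, rfl, hx1, hy1⟩
    · exact absurd e hQ0
    · exact fin_add hW hΔ h h1 h' h1' hx hy hx1 hy1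

theorem isRed_mix_add (hW : RdcW O r W W') (hΔ : W'.Δ ≠ 0) {P Q : W.toAffine.Point}
    {Q' : W'.toAffine.Point} (hP : IsRed O r P (0 : W'.toAffine.Point))
    (hQ : IsRed O r Q Q') (hQ0 : Q' ≠ 0) : IsRed O r (P + Q) Q' := by
  obtain ⟨R', hR⟩ := IsRed.exists hW hΔ (P + Q)
  by_cases hR0 : R' = 0
  · subst hR0
    exfalso
    have h1 := hP.neg hW
    rw [neg_zero] at h1
    have h2 := isRed_zero_add hW hΔ h1 hR
    rw [neg_add_cancel_left] at h2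
    exact hQ0 (hQ.unique h2)
  · have h1 := hQ.neg hW
    have h2 := isRed_ne_add hW hΔ hR hR0 h1 (neg_ne_zero.mpr hQ0)
    rw [add_neg_cancel_right] at h2
    have h3 := h2.unique hP
    rw [add_neg_eq_zero] at h3
    rw [← h3]
    exact hR

theorem isRed_add (hW : RdcW O r W W') (hΔ : W'.Δ ≠ 0) {P Q : W.toAffine.Point}
    {P' Q' : W'.toAffine.Point} (hP : IsRed O r P P')
    (hQ : IsRed O r Q Q') : IsRed O r (P + Q) (P' + Q') := by
  by_cases hP0 : P' = 0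
  · subst hP0
    by_cases hQ0 : Q' = 0
    · subst hQ0
      rw [add_zero]
      exact isRed_zero_add hW hΔ hP hQ
    · rw [zero_add]
      exact isRed_mix_add hW hΔ hP hQ hQ0
  · by_cases hQ0 : Q' = 0
    · subst hQ0
      rw [add_zero, add_comm]
      exact isRed_mix_add hW hΔ hQ hP hP0
    · exact isRed_ne_add hW hΔ hP hP0 hQ hQ0

end RedAux

/-- The reduction homomorphism. -/
theorem red_exists {K κ : Type} [Field K] [Field κ] [DecidableEq K] [DecidableEq κ]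
    (O : ValuationSubring K) (r : O →+* κ) [IsLocalHom r] {W : WeierstrassCurve K}
    {W' : WeierstrassCurve κ} (hW : RdcW O r W W') (hΔ : W'.Δ ≠ 0) :
    ∃ red : W.toAffine.Point →+ W'.toAffine.Point,
      (∀ (x y : K) (h : W.toAffine.Nonsingular x y), x ∉ O → red (.some x y h) = 0) ∧
      (∀ (x y : K) (h : W.toAffine.Nonsingular x y), x ∈ O → ∃ (x' y' : κ) (h' : _),
        Rdc O r x x' ∧ Rdc O r y y' ∧ red (.some x y h) = .some x' y' h') := by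
  classical
  choose f hf using fun P : W.toAffine.Point => RedAux.IsRed.exists hW hΔ P
  refine ⟨⟨⟨f, (hf 0).unique RedAux.IsRed.zero⟩, fun P Q =>
    (hf (P + Q)).unique (RedAux.isRed_add hW hΔ (hf P) (hf Q))⟩, ?_, ?_⟩
  · intro x y h hx
    exact (hf (.some x y h)).unique (Or.inl ⟨rfl, Or.inr ⟨x, y, h, rfl, hx⟩⟩)
  · intro x y h hx
    rcases hf (.some x y h) with ⟨h1, h2 | ⟨x1, y1, h1', e, hx1⟩⟩ |
      ⟨x1, y1, h1, x', y', h', e, e', hx', hy'⟩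
    · exact absurd h2 (Affine.Point.some_ne_zero _)
    · rw [Affine.Point.some.injEq] at e
      exact absurd (e.1 ▸ hx) hx1
    · rw [Affine.Point.some.injEq] at e
      obtain ⟨rfl, rfl⟩ := e
      exact ⟨x', y', h', hx', hy', e'⟩

end LT
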