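import Pool.Agent.Lib_MP_f1937f_nt.FPt
import Pool.Agent.Lib_MP_f1937f_nt.Red
import Pool.Agent.Lib_MP_f1937f_nt.Vc

/-!
# MP_f1937f_nt: evaluation of the points over `k(x)` at a point (piece FEV)
-/

namespace LT

open Polynomial WeierstrassCurve

namespace FEv

section

variable {k : Type} [Field k]

theorem denom_neg_dvd (u : RatFunc k) : (-u).denom ∣ u.denom := by
  rw [RatFunc.denom_dvd (RatFunc.denom_ne_zero u)]
  refine ⟨-u.num, ?_⟩
  rw [map_neg, neg_div, RatFunc.num_div_denom]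

theorem eval_ne_of_dvd {p q : k[X]} {x : k} (h : p ∣ q) (hq : q.eval x ≠ 0) : p.eval x ≠ 0 := by
  obtain ⟨r, rfl⟩ := h
  rw [eval_mul] at hq
  exact left_ne_zero_of_mul hq

/-- the valuation ring of `k(x)` at the place `x` -/
noncomputable def OO (x : k) : ValuationSubring (RatFunc k) where
  carrier := {u | u.denom.eval x ≠ 0}
  mul_mem' {u v} hu hv := by
    have h : (u.denom * v.denom).eval x ≠ 0 := by
      rw [eval_mul]; exact mul_ne_zero hu hv
    exact eval_ne_of_dvd (RatFunc.denom_mul_dvd u v) h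
  add_mem' {u v} hu hv := by
    have h : (u.denom * v.denom).eval x ≠ 0 := by
      rw [eval_mul]; exact mul_ne_zero hu hv
    exact eval_ne_of_dvd (RatFunc.denom_add_dvd u v) h
  one_mem' := by simp
  zero_mem' := by simp
  neg_mem' {u} hu := eval_ne_of_dvd (denom_neg_dvd u) hu
  mem_or_inv_mem' u := by
    by_cases h : u.denom.eval x ≠ 0
    · exact Or.inl h
    · right
      push Not at h
      by_cases hu : u = 0
      · subst hu
        simp
      · apply eval_ne_of_dvd (RatFunc.denom_inv_dvd hu)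
        intro h0
        obtain ⟨r, s, hrs⟩ := RatFunc.isCoprime_num_denom u
        have h1 := congrArg (Polynomial.eval x) hrs
        rw [eval_add, eval_mul, eval_mul, h, h0] at h1
        simp at h1

theorem mem_OO {x : k} {u : RatFunc k} : u ∈ OO x ↔ u.denom.eval x ≠ 0 := Iff.rfl

theorem ev2 (p : k[X]) (x : k) : Polynomial.eval₂ (RingHom.id k) x p = p.eval x := rfl

/-- evaluation -/
noncomputable def rr (x : k) : OO x →+* k where
  toFun u := (u : RatFunc k).eval (RingHom.id k) x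
  map_one' := by simp
  map_zero' := by simp
  map_mul' u v := RatFunc.eval_mul (RingHom.id k) x (mem_OO.mp u.2) (mem_OO.mp v.2)
  map_add' u v := RatFunc.eval_add (RingHom.id k) x (mem_OO.mp u.2) (mem_OO.mp v.2)

instance (x : k) : IsLocalHom (rr x) where
  map_nonunit u hu := by
    have h0 : (u : RatFunc k).eval (RingHom.id k) x ≠ 0 := hu.ne_zero
    have hnum : (u : RatFunc k).num.eval x ≠ 0 := by
      intro h1
      apply h0
      rw [RatFunc.eval, ev2, h1, zero_div]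
    have hu0 : (u : RatFunc k) ≠ 0 := by
      intro h1
      apply h0
      rw [h1, RatFunc.eval_zero]
    have hinv : (u : RatFunc k)⁻¹ ∈ OO x :=
      eval_ne_of_dvd (RatFunc.denom_inv_dvd hu0) hnum
    refine IsUnit.of_mul_eq_one ⟨(u : RatFunc k)⁻¹, hinv⟩ ?_
    apply Subtype.ext
    exact mul_inv_cancel₀ hu0

theorem rdc_iff {x : k} {u : RatFunc k} {w : k} :
    Rdc (OO x) (rr x) u w ↔ u ∈ OO x ∧ u.eval (RingHom.id k) x = w := by
  constructor
  · rintro ⟨z, rfl, rfl⟩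
    exact ⟨z.2, rfl⟩
  · rintro ⟨h, rfl⟩
    exact ⟨⟨u, h⟩, rfl, rfl⟩

theorem rdc_C (x c : k) : Rdc (OO x) (rr x) (RatFunc.C c) c := by
  rw [rdc_iff]
  refine ⟨?_, RatFunc.eval_C ..⟩
  rw [mem_OO, RatFunc.denom_C]
  simp

theorem rdc_poly (x : k) (p : k[X]) :
    Rdc (OO x) (rr x) (algebraMap k[X] (RatFunc k) p) (p.eval x) := by
  rw [rdc_iff]
  refine ⟨?_, ?_⟩
  · rw [mem_OO, RatFunc.denom_algebraMap]
    simp
  · rw [RatFunc.eval, RatFunc.num_algebraMap, RatFunc.denom_algebraMap, ev2, ev2]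
    simp

theorem rdc_fR (x a b : k) : Rdc (OO x) (rr x) (fR a b) (x ^ 3 + a * x + b) := by
  have h := rdc_poly x (fP a b)
  have h1 : (fP a b).eval x = x ^ 3 + a * x + b := by simp [fP]
  rw [h1] at h
  exact h

theorem sc' [DecidableEq k] {v : k} (hv : v ≠ 0) {A B A' B' : k} (hA : v ^ 4 * A = A')
    (hB : v ^ 6 * B = B') :
    ∃ e : Pt A B ≃+ Pt A' B',
      ∀ (x y : k) (hxy : (SW A B).toAffine.Nonsingular x y), ∃ h', e (.some x y hxy) =
        .some (v ^ 2 * x) (v ^ 3 * y) h' := by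
  subst hA hB
  exact sc_exists hv A B

end

end FEv

open FEv

variable {k : Type} [Field k] [DecidableEq k] [DecidableEq (RatFunc k)]

/-- Evaluation at the point `(x, y)`, `y ≠ 0`, is a homomorphism (reduction at the place `x` of
`k(x)`, followed by the untwisting by `y`). -/
theorem ev_exists (h2 : (2 : k) ≠ 0) {a b a' b' : k} (hd' : dsc a' b' ≠ 0) {x y : k}
    (hxy : y ^ 2 = x ^ 3 + a * x + b) (hy : y ≠ 0) :
    ∃ ev : MM a b a' b' →+ Pt a' b', ∀ ψ : MM a b a' b', ψ ≠ .zero →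
      ((uu ψ).denom.eval x = 0 → ev ψ = 0) ∧
      ((uu ψ).denom.eval x ≠ 0 → ∃ h', ev ψ =
        .some ((uu ψ).eval (RingHom.id k) x) (y * (vv ψ).eval (RingHom.id k) x) h') := by
  have hf : Rdc (OO x) (rr x) (fR a b) (y ^ 2) := by rw [hxy]; exact rdc_fR x a b
  have hc : y ^ 2 ≠ 0 := pow_ne_zero 2 hy
  have hW : RdcW (OO x) (rr x) (SW (RatFunc.C a' * fR a b ^ 2) (RatFunc.C b' * fR a b ^ 3))
      (SW (a' * (y ^ 2) ^ 2) (b' * (y ^ 2) ^ 3)) :=
    ⟨Rdc.zero _ _, Rdc.zero _ _, Rdc.zero _ _, (rdc_C x a').mul (hf.pow 2),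
      (rdc_C x b').mul (hf.pow 3)⟩
  have hΔ : (SW (a' * (y ^ 2) ^ 2) (b' * (y ^ 2) ^ 3)).Δ ≠ 0 := by
    rw [sw_disc]
    have h1 : -16 * dsc (a' * (y ^ 2) ^ 2) (b' * (y ^ 2) ^ 3) =
        -(2 ^ 4 * (y ^ 12 * dsc a' b')) := by
      simp only [dsc]; ring
    rw [h1]
    exact neg_ne_zero.mpr (mul_ne_zero (pow_ne_zero 4 h2) (mul_ne_zero (pow_ne_zero 12 hy) hd'))
  obtain ⟨red, hred1, hred2⟩ := red_exists (OO x) (rr x) hW hΔ
  have hv : (y⁻¹ : k) ≠ 0 := inv_ne_zero hy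
  obtain ⟨e, he⟩ := sc' hv (A := a' * (y ^ 2) ^ 2) (B := b' * (y ^ 2) ^ 3) (A' := a') (B' := b')
    (by field_simp) (by field_simp)
  refine ⟨e.toAddMonoidHom.comp red, ?_⟩
  intro ψ hψ
  rcases ψ with _ | ⟨X, Y, h⟩
  · exact absurd rfl hψ
  have hf0 : fR a b ≠ 0 := fR_ne_zero a b
  have hfi : Rdc (OO x) (rr x) (fR a b)⁻¹ (y ^ 2)⁻¹ := hf.inv hc
  have huu : uu (.some X Y h : MM a b a' b') = X / fR a b := rfl
  have hvv : vv (.some X Y h : MM a b a' b') = Y / fR a b ^ 2 := rfl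
  have hX : X = uu (.some X Y h : MM a b a' b') * fR a b := by
    rw [huu, div_mul_cancel₀ _ hf0]
  constructor
  · intro hden
    have hXO : X ∉ OO x := by
      intro hmem
      have h1 : uu (.some X Y h : MM a b a' b') ∈ OO x := by
        rw [huu, div_eq_mul_inv]
        exact (OO x).mul_mem _ _ hmem hfi.mem
      exact (mem_OO.mp h1) hden
    have h1 := hred1 X Y h hXO
    change e (red _) = 0
    rw [h1, map_zero]
  · intro hden
    have hmem : X ∈ OO x := by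
      rw [hX]
      exact (OO x).mul_mem _ _ (mem_OO.mpr hden) hf.mem
    obtain ⟨x', y', h', hx', hy', hr⟩ := hred2 X Y h hmem
    obtain ⟨h'', he'⟩ := he x' y' h'
    have hU : Rdc (OO x) (rr x) (uu (.some X Y h : MM a b a' b')) (x' * (y ^ 2)⁻¹) := by
      rw [huu, div_eq_mul_inv]
      exact hx'.mul hfi
    have hV : Rdc (OO x) (rr x) (vv (.some X Y h : MM a b a' b')) (y' * ((y ^ 2)⁻¹) ^ 2) := by
      rw [hvv, div_eq_mul_inv, ← inv_pow]
      exact hy'.mul (hfi.pow 2)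
    have eU := (rdc_iff.mp hU).2
    have eV := (rdc_iff.mp hV).2
    have e1 : (y⁻¹) ^ 2 * x' = (uu (.some X Y h : MM a b a' b')).eval (RingHom.id k) x := by
      rw [eU]; field_simp
    have e2 : (y⁻¹) ^ 3 * y' = y * (vv (.some X Y h : MM a b a' b')).eval (RingHom.id k) x := by
      rw [eV]; field_simp
    have hgoal : (e.toAddMonoidHom.comp red) (.some X Y h) =
        .some ((y⁻¹) ^ 2 * x') ((y⁻¹) ^ 3 * y') h'' := by
      change e (red _) = _
      rw [hr, he']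
    rw [hgoal]
    have hns : (SW a' b').toAffine.Nonsingular
        ((uu (.some X Y h : MM a b a' b')).eval (RingHom.id k) x)
        (y * (vv (.some X Y h : MM a b a' b')).eval (RingHom.id k) x) := by
      rw [← e1, ← e2]; exact h''
    refine ⟨hns, ?_⟩
    apply pt_ext
    · rintro ⟨⟩
    · rintro ⟨⟩
    · exact e1
    · exact e2

namespace FEv

/-- the evaluation homomorphism at `(x, y)` -/
noncomputable def ev (h2 : (2 : k) ≠ 0) {a b a' b' : k} (hd' : dsc a' b' ≠ 0) {x y : k}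
    (hxy : y ^ 2 = x ^ 3 + a * x + b) (hy : y ≠ 0) : MM a b a' b' →+ Pt a' b' :=
  Classical.choose (ev_exists h2 hd' hxy hy)

theorem ev_spec (h2 : (2 : k) ≠ 0) {a b a' b' : k} (hd' : dsc a' b' ≠ 0) {x y : k}
    (hxy : y ^ 2 = x ^ 3 + a * x + b) (hy : y ≠ 0) (ψ : MM a b a' b') (h0 : ψ ≠ .zero) :
      ((uu ψ).denom.eval x = 0 → ev h2 hd' hxy hy ψ = 0) ∧
      ((uu ψ).denom.eval x ≠ 0 → ∃ h', ev h2 hd' hxy hy ψ =
        .some ((uu ψ).eval (RingHom.id k) x) (y * (vv ψ).eval (RingHom.id k) x) h') :=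
  Classical.choose_spec (ev_exists h2 hd' hxy hy) ψ h0

theorem compat_iff (h2 : (2 : k) ≠ 0) {a b a' b' : k} (hd' : dsc a' b' ≠ 0)
    {ψ : MM a b a' b'} {Ψ : Pt a b →+ Pt a' b'} :
    Compat ψ Ψ ↔ ∀ (x y : k) (h : (SW a b).toAffine.Nonsingular x y) (hy : y ≠ 0),
      ev h2 hd' (sw_equation.mp h.1) hy ψ = Ψ (.some x y h) := by
  constructor
  · intro hC x y h hy
    obtain ⟨c1, c2⟩ := hC x y h hy
    by_cases h0 : ψ = .zero
    · rw [c1 h0, h0]
      exact map_zero _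
    · obtain ⟨c3, c4⟩ := c2 h0
      obtain ⟨s1, s2⟩ := ev_spec h2 hd' (sw_equation.mp h.1) hy ψ h0
      by_cases hden : (uu ψ).denom.eval x = 0
      · rw [c3 hden, s1 hden]
      · obtain ⟨h', e1⟩ := c4 hden
        obtain ⟨h'', e2⟩ := s2 hden
        rw [e1, e2]
  · intro hev x y h hy
    have he := hev x y h hy
    refine ⟨fun h0 => ?_, fun h0 => ⟨fun hden => ?_, fun hden => ?_⟩⟩
    · rw [← he, h0]
      exact map_zero _
    · rw [← he]
      exact (ev_spec h2 hd' (sw_equation.mp h.1) hy ψ h0).1 hden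
    · rw [← he]
      exact (ev_spec h2 hd' (sw_equation.mp h.1) hy ψ h0).2 hden

end FEv

theorem Compat_zero {a b a' b' : k} : Compat (.zero : MM a b a' b') 0 := by
  intro x y h hy
  exact ⟨fun _ => rfl, fun h0 => absurd rfl h0⟩

theorem Compat_neg (h2 : (2 : k) ≠ 0) {a b a' b' : k} (hd' : dsc a' b' ≠ 0)
    {P : MM a b a' b'} {Ψ : Pt a b →+ Pt a' b'} (h : Compat P Ψ) : Compat (-P) (-Ψ) := by
  rw [compat_iff h2 hd'] at h ⊢
  intro x y hn hy
  rw [map_neg, h x y hn hy]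
  rfl

theorem Compat_add (h2 : (2 : k) ≠ 0) {a b a' b' : k} (hd' : dsc a' b' ≠ 0)
    {P Q : MM a b a' b'} {Ψ Φ : Pt a b →+ Pt a' b'} (h : Compat P Ψ) (h' : Compat Q Φ) :
    Compat (P + Q) (Ψ + Φ) := by
  rw [compat_iff h2 hd'] at h h' ⊢
  intro x y hn hy
  rw [map_add, h x y hn hy, h' x y hn hy]
  rfl

theorem Compat_zsmul (h2 : (2 : k) ≠ 0) {a b a' b' : k} (hd' : dsc a' b' ≠ 0)
    {P : MM a b a' b'} {Ψ : Pt a b →+ Pt a' b'} (h : Compat P Ψ) (n : ℤ) :
    Compat (n • P) (n • Ψ) := by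
  rw [compat_iff h2 hd'] at h ⊢
  intro x y hn hy
  rw [map_zsmul, h x y hn hy]
  rfl

end LT
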