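import Pool.Agent.Lib_MP_f1937f_nt.IDefs
import Pool.Agent.Lib_MP_f1937f_nt.FEv

/-!
# MP_f1937f_nt: quotients of curves without `p`-torsion have no `p`-torsion (piece PTORS)
-/

namespace LT

open Polynomial WeierstrassCurve

/-- `Q = Ψ P`, `p P ∈ L`, so `n p P = 0`, `n P = 0`, `n Q = 0` and `p Q = 0`. -/
theorem quot_no_tors {k : Type} [Field k] [DecidableEq k] {a b : k} {p n : ℕ}
    (hpn : Nat.Coprime p n) (ht : ∀ P : Pt a b, p • P = 0 → P = 0) {L : AddSubgroup (Pt a b)}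
    (hL : L ∈ CycL a b n) (hV : VeluOK a b L) (Q : Pt (vA a b L) (vB a b L)) (hQ : p • Q = 0) :
    Q = 0 := by
  obtain ⟨_, ψ, Ψ, _, _, _, _, _, hker, hsurj⟩ := hV
  obtain ⟨P, rfl⟩ := hsurj Q
  rw [← map_nsmul] at hQ
  have h1 : p • P ∈ L := by
    rw [← hker]
    exact hQ
  have hn : ∀ x ∈ L, n • x = 0 := by
    obtain ⟨T, hT, rfl⟩ := hL
    intro x hx
    obtain ⟨m, rfl⟩ := AddSubgroup.mem_zmultiples_iff.1 hx
    rw [smul_comm, ← hT, addOrderOf_nsmul_eq_zero, smul_zero]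
  have h2 : n • P = 0 := by
    apply ht
    rw [smul_comm]
    exact hn _ h1
  have h3 : n • Ψ P = 0 := by rw [← map_nsmul, h2, map_zero]
  have h4 : p • Ψ P = 0 := by rw [← map_nsmul, hQ]
  have h5 : addOrderOf (Ψ P) ∣ Nat.gcd p n :=
    Nat.dvd_gcd (addOrderOf_dvd_of_nsmul_eq_zero h4) (addOrderOf_dvd_of_nsmul_eq_zero h3)
  rw [hpn, Nat.dvd_one] at h5
  exact AddMonoid.addOrderOf_eq_one_iff.1 h5

/-- Transport to an isomorphic curve (`sc'` in FEv.lean). -/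
theorem iso_no_tors {k : Type} [Field k] [DecidableEq k] {a b a' b' v : k} {p : ℕ} (hv : v ≠ 0)
    (ha : v ^ 4 * a = a') (hb : v ^ 6 * b = b') (ht : ∀ P : Pt a b, p • P = 0 → P = 0)
    (Q : Pt a' b') (hQ : p • Q = 0) : Q = 0 := by
  obtain ⟨e, _⟩ := FEv.sc' hv ha hb
  have h1 : e.symm Q = 0 := by
    apply ht
    rw [← map_nsmul, hQ, map_zero]
  rw [← e.apply_symm_apply Q, h1, map_zero]

end LT
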