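import Pool.Agent.Lib_MP_f1937f_nt.LA
import Pool.Agent.Lib_MP_f1937f_nt.PJinv
import Pool.Agent.Lib_MP_f1937f_nt.PCount
import Pool.Agent.Lib_MP_f1937f_nt.PDisc
import Pool.Agent.Lib_MP_f1937f_nt.PTors

/-!
# MP_f1937f_nt: reduction data imply supersingular (layer P)
-/

namespace LT

open Polynomial WeierstrassCurve

theorem ss_of_red {p : ℕ} [Fact p.Prime] (h5 : 5 ≤ p) (h3 : p % 3 = 2) {n : ℕ} (hn : 0 < n)
    (hpn : ¬ p ∣ n) (W : WeierstrassCurve ℤ) {j : ℚ} (hj : (W.c₄ : ℚ) ^ 3 = j * W.Δ)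
    (hΔ : ¬ (p : ℤ) ∣ W.Δ) {L : AddSubgroup (Pt (0 : Fb p) (-31 / 4))}
    (hL : RedL p n j L) : affCount W p = p := by
  have hV : VeluOK (0 : Fb p) (-31 / 4) L := (hL.chain L le_rfl).2.1
  have hcop : Nat.Coprime p n := (Nat.Prime.coprime_iff_not_dvd Fact.out).mpr hpn
  have ht := quot_no_tors hcop (fun P hP => e0_no_tors h5 h3 hP) hL.cyc hV
  have hd := dsc_c (p := p) h5 W hΔ
  have hjj : jinv (vA (0 : Fb p) (-31 / 4) L) (vB 0 (-31 / 4) L) =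
      jinv ((-27 * W.c₄ : ℤ) : Fb p) ((-54 * W.c₆ : ℤ) : Fb p) := by
    rw [jinv_c h5 W hΔ hj]
    exact hL.jj
  obtain ⟨v, hv, hva, hvb⟩ := jinv_iso (fb_ne h5).1 (fb_ne h5).2 hV.1 hd hjj
  have ht' := iso_no_tors (p := p) hv hva hvb ht
  have hc := supersingular_card p h5 hd (int_frob p _) (int_frob p _) ht'
  rw [affCount_eq h5 W hΔ] at hc
  omega

end LT
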