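import Mathlib

/-!
# MP_f1937f_nt: abelian groups with d² elements killed by d (piece TB)
-/

namespace LT

namespace Tb

/-- the elements killed by `n` -/
def tor (G : Type) [AddCommGroup G] (n : ℕ) : AddSubgroup G where
  carrier := {P | n • P = 0}
  add_mem' := by
    intro a b ha hb
    simp only [Set.mem_ofPred_eq] at *
    rw [smul_add, ha, hb, add_zero]
  zero_mem' := by simp
  neg_mem' := by
    intro a ha
    simp only [Set.mem_ofPred_eq] at *
    rw [smul_neg, ha, neg_zero]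

theorem mem_tor {G : Type} [AddCommGroup G] {n : ℕ} {P : G} : P ∈ tor G n ↔ n • P = 0 := Iff.rfl

/-- independent pairs -/
def Ind {G : Type} [AddCommGroup G] (n : ℕ) (S T : G) : Prop :=
  n • S = 0 ∧ n • T = 0 ∧ ∀ i j : ℤ, i • S + j • T = 0 → (n : ℤ) ∣ i ∧ (n : ℤ) ∣ j

/-- multiplication by `p` from the elements killed by `p m` onto the elements killed by `m` -/
theorem surj {G : Type} [AddCommGroup G] {p m : ℕ} (hp : 0 < p) (hm : 0 < m)
    (h1 : Nat.card (tor G (p * m)) = (p * m) ^ 2) (h2 : Nat.card (tor G p) = p ^ 2)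
    (h3 : Nat.card (tor G m) = m ^ 2) (S' : G) (hS : m • S' = 0) : ∃ S : G, p • S = S' := by
  have hfin1 : Finite (tor G (p * m)) := Nat.finite_of_card_ne_zero (by rw [h1]; positivity)
  have hfin3 : Finite (tor G m) := Nat.finite_of_card_ne_zero (by rw [h3]; positivity)
  let f : tor G (p * m) →+ tor G m :=
    { toFun := fun x => ⟨p • (x : G), by
        rw [mem_tor, smul_smul, mul_comm]
        exact x.2⟩
      map_zero' := by ext; simp
      map_add' := by intro x y; ext; simp }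
  have hk : Nat.card f.ker = p ^ 2 := by
    rw [← h2]
    refine Nat.card_congr ⟨fun x => ⟨(x : tor G (p * m)), ?_⟩, fun x => ⟨⟨x, ?_⟩, ?_⟩, ?_, ?_⟩
    · have := x.2
      rw [AddMonoidHom.mem_ker] at this
      rw [mem_tor]
      exact congrArg Subtype.val this
    · rw [mem_tor, mul_comm, mul_smul]
      have := x.2
      rw [mem_tor] at this
      rw [this, smul_zero]
    · rw [AddMonoidHom.mem_ker]
      ext
      exact x.2
    · intro x; rfl
    · intro x; rfl
  have hi := AddSubgroup.index_ker f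
  have hc := f.ker.card_mul_index
  rw [hk, hi, h1] at hc
  have hr : Nat.card f.range = m ^ 2 := by
    have h4 : p ^ 2 * Nat.card f.range = p ^ 2 * m ^ 2 := by rw [hc]; ring
    exact Nat.eq_of_mul_eq_mul_left (by positivity) h4
  have htop : f.range = ⊤ := by
    apply AddSubgroup.eq_top_of_card_eq
    rw [hr, h3]
  have hmem : (⟨S', hS⟩ : tor G m) ∈ f.range := by rw [htop]; exact AddSubgroup.mem_top _
  obtain ⟨x, hx⟩ := hmem
  exact ⟨x, congrArg Subtype.val hx⟩

/-- primes -/
theorem ind_prime {G : Type} [AddCommGroup G] {p : ℕ} (hp : p.Prime)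
    (h2 : Nat.card (tor G p) = p ^ 2) : ∃ S T : G, Ind p S T := by
  have hfin : Finite (tor G p) := Nat.finite_of_card_ne_zero (by rw [h2]; exact pow_ne_zero 2 hp.pos.ne')
  -- choose S ≠ 0
  have hS : ∃ S ∈ tor G p, S ≠ 0 := by
    by_contra hcon
    push Not at hcon
    have : tor G p = ⊥ := by
      rw [eq_bot_iff]
      intro x hx
      exact hcon x hx
    rw [this] at h2
    have h3 : Nat.card ((⊥ : AddSubgroup G)) = 1 := AddSubgroup.card_bot
    rw [h3] at h2
    have := hp.one_lt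
    nlinarith
  obtain ⟨S, hS, hS0⟩ := hS
  have : Fact p.Prime := ⟨hp⟩
  have hord : addOrderOf S = p := addOrderOf_eq_prime hS hS0
  have hT : ∃ T ∈ tor G p, T ∉ AddSubgroup.zmultiples S := by
    by_contra hcon
    push Not at hcon
    have hle : tor G p ≤ AddSubgroup.zmultiples S := hcon
    have hfz : Finite (AddSubgroup.zmultiples S) := by
      refine Nat.finite_of_card_ne_zero ?_
      rw [Nat.card_zmultiples, hord]
      exact hp.pos.ne'
    have h4 := AddSubgroup.card_le_of_le hle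
    rw [h2, Nat.card_zmultiples, hord] at h4
    have := hp.one_lt
    nlinarith
  obtain ⟨T, hT, hTS⟩ := hT
  refine ⟨S, T, hS, hT, ?_⟩
  intro i j hij
  have hj : (p : ℤ) ∣ j := by
    by_contra hj
    have hcop : IsCoprime (p : ℤ) j :=
      (Prime.coprime_iff_not_dvd (Nat.prime_iff_prime_int.1 hp)).2 hj
    obtain ⟨u, v, huv⟩ := hcop
    apply hTS
    rw [AddSubgroup.mem_zmultiples_iff]
    refine ⟨-(v * i), ?_⟩
    have h5 : T = (u * p + v * j) • T := by rw [huv, one_smul]
    have h6 : ((p : ℤ)) • T = 0 := by rw [natCast_zsmul]; exact hT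
    rw [add_smul, mul_smul, mul_smul, h6, smul_zero, zero_add] at h5
    have h7 : j • T = -(i • S) := by
      rw [eq_neg_iff_add_eq_zero, add_comm]; exact hij
    rw [h7] at h5
    rw [h5, smul_neg, neg_smul, mul_smul]
  refine ⟨?_, hj⟩
  obtain ⟨c, rfl⟩ := hj
  have h6 : ((p : ℤ)) • T = 0 := by rw [natCast_zsmul]; exact hT
  rw [mul_comm, mul_smul, h6, smul_zero, add_zero] at hij
  rw [← hord]
  exact addOrderOf_dvd_iff_zsmul_eq_zero.2 hij

/-- coprime case -/
theorem ind_coprime {G : Type} [AddCommGroup G] {p m : ℕ} (hpm : Nat.Coprime p m) {S T S' T' : G}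
    (h : Ind p S T) (h' : Ind m S' T') : Ind (p * m) (S + S') (T + T') := by
  obtain ⟨h1, h2, h3⟩ := h
  obtain ⟨h1', h2', h3'⟩ := h'
  have e : ∀ {A B : G}, p • A = 0 → m • B = 0 → (p * m) • (A + B) = 0 := by
    intro A B hA hB
    rw [smul_add, mul_comm, mul_smul, hA, smul_zero, zero_add, mul_comm, mul_smul, hB, smul_zero]
  refine ⟨e h1 h1', e h2 h2', ?_⟩
  intro i j hij
  have hpm' : IsCoprime (p : ℤ) (m : ℤ) := Nat.isCoprime_iff_coprime.2 hpm
  have k1 : (m : ℤ) • S' = 0 := by rw [natCast_zsmul]; exact h1'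
  have k2 : (m : ℤ) • T' = 0 := by rw [natCast_zsmul]; exact h2'
  have k3 : (p : ℤ) • S = 0 := by rw [natCast_zsmul]; exact h1
  have k4 : (p : ℤ) • T = 0 := by rw [natCast_zsmul]; exact h2
  have a1 : ((m : ℤ) * i) • S + ((m : ℤ) * j) • T = 0 := by
    have : (m : ℤ) • (i • (S + S') + j • (T + T')) = 0 := by rw [hij, smul_zero]
    have e1 : (m : ℤ) • (i • (S + S') + j • (T + T')) =
        ((m : ℤ) * i) • S + ((m : ℤ) * j) • T + (i • ((m : ℤ) • S') + j • ((m : ℤ) • T')) := by
      simp only [smul_add, smul_smul, mul_comm]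
      abel
    rw [e1, k1, k2] at this
    simpa using this
  have a2 : ((p : ℤ) * i) • S' + ((p : ℤ) * j) • T' = 0 := by
    have : (p : ℤ) • (i • (S + S') + j • (T + T')) = 0 := by rw [hij, smul_zero]
    have e1 : (p : ℤ) • (i • (S + S') + j • (T + T')) =
        ((p : ℤ) * i) • S' + ((p : ℤ) * j) • T' + (i • ((p : ℤ) • S) + j • ((p : ℤ) • T)) := by
      simp only [smul_add, smul_smul, mul_comm]
      abel
    rw [e1, k3, k4] at this
    simpa using this
  obtain ⟨b1, b2⟩ := h3 _ _ a1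
  obtain ⟨b3, b4⟩ := h3' _ _ a2
  have c1 := hpm'.dvd_of_dvd_mul_left b1
  have c2 := hpm'.dvd_of_dvd_mul_left b2
  have c3 := hpm'.symm.dvd_of_dvd_mul_left b3
  have c4 := hpm'.symm.dvd_of_dvd_mul_left b4
  push_cast
  exact ⟨hpm'.mul_dvd c1 c3, hpm'.mul_dvd c2 c4⟩

/-- the step at a prime dividing `m` -/
theorem ind_step {G : Type} [AddCommGroup G] {p m : ℕ} (hpm : p ∣ m) (hm : 0 < m)
    {S T : G} (h' : Ind m (p • S) (p • T)) : Ind (p * m) S T := by
  obtain ⟨h1', h2', h3'⟩ := h'
  refine ⟨by rw [mul_comm, mul_smul]; exact h1', by rw [mul_comm, mul_smul]; exact h2', ?_⟩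
  intro i j hij
  have a1 : i • (p • S) + j • (p • T) = 0 := by
    have : (p : ℤ) • (i • S + j • T) = 0 := by rw [hij, smul_zero]
    rw [smul_add, smul_smul, smul_smul, mul_comm, mul_smul, mul_comm, mul_smul, natCast_zsmul,
      natCast_zsmul] at this
    exact this
  obtain ⟨⟨i', hi⟩, ⟨j', hj⟩⟩ := h3' _ _ a1
  obtain ⟨c, rfl⟩ := hpm
  have hc : (0 : ℤ) < c := by
    have : 0 < c := Nat.pos_of_mul_pos_left hm
    exact_mod_cast this
  have hp0 : (0 : ℤ) < p := by
    have : 0 < p := Nat.pos_of_mul_pos_right hm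
    exact_mod_cast this
  have a2 : ((c : ℤ) * i') • (p • S) + ((c : ℤ) * j') • (p • T) = 0 := by
    rw [← natCast_zsmul, ← natCast_zsmul, smul_smul, smul_smul]
    rw [hi, hj] at hij
    push_cast at hij
    rw [show (c : ℤ) * i' * p = p * c * i' by ring, show (c : ℤ) * j' * p = p * c * j' by ring]
    exact hij
  obtain ⟨b1, b2⟩ := h3' _ _ a2
  push_cast at b1 b2 hi hj ⊢
  rw [hi, hj]
  have d1 : (p : ℤ) ∣ i' := by
    have : (c : ℤ) * p ∣ c * i' := by rw [mul_comm (c : ℤ) p]; exact b1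
    exact (mul_dvd_mul_iff_left hc.ne').1 this
  have d2 : (p : ℤ) ∣ j' := by
    have : (c : ℤ) * p ∣ c * j' := by rw [mul_comm (c : ℤ) p]; exact b2
    exact (mul_dvd_mul_iff_left hc.ne').1 this
  obtain ⟨u, rfl⟩ := d1
  obtain ⟨v, rfl⟩ := d2
  exact ⟨⟨u, by ring⟩, ⟨v, by ring⟩⟩

theorem exists_ind {G : Type} [AddCommGroup G] (n : ℕ) (hn : 0 < n)
    (h : ∀ d : ℕ, d ∣ n → Nat.card (tor G d) = d ^ 2) : ∃ S T : G, Ind n S T := by
  induction n using Nat.strong_induction_on with
  | _ n ih =>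
    by_cases h1 : n = 1
    · refine ⟨0, 0, by simp, by simp, ?_⟩
      intro i j _
      rw [h1]
      simp
    · have hp : (n.minFac).Prime := Nat.minFac_prime h1
      obtain ⟨m, hm⟩ := Nat.minFac_dvd n
      set p := n.minFac with hpdef
      have hm0 : 0 < m := by
        rcases Nat.eq_zero_or_pos m with h0 | h0
        · rw [h0, mul_zero] at hm; omega
        · exact h0
      have hmn : m < n := by
        rw [hm]
        have := hp.one_lt
        nlinarith
      have hdm : m ∣ n := ⟨p, by rw [mul_comm]; exact hm⟩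
      have hdp : p ∣ n := ⟨m, hm⟩
      obtain ⟨S', T', hST⟩ := ih m hmn hm0 (fun d hd => h d (hd.trans hdm))
      by_cases hpm : p ∣ m
      · have hs := fun S' hS' => surj (G := G) hp.pos hm0 (by rw [← hm]; exact h n dvd_rfl)
          (h p hdp) (h m hdm) S' hS'
        obtain ⟨S, hS⟩ := hs S' hST.1
        obtain ⟨T, hT⟩ := hs T' hST.2.1
        refine ⟨S, T, ?_⟩
        rw [hm]
        apply ind_step hpm hm0
        rw [hS, hT]
        exact hST
      · obtain ⟨S, T, hST'⟩ := ind_prime hp (h p hdp)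
        refine ⟨S + S', T + T', ?_⟩
        rw [hm]
        exact ind_coprime ((Nat.Prime.coprime_iff_not_dvd hp).2 hpm) hST' hST

end Tb

/-- In an abelian group with `d²` elements of order dividing `d` for each `d ∣ n`, there is an element of
order `n`, and the subgroup of the elements killed by `n` is the product of two cyclic groups. -/
theorem tors_basis {G : Type} [AddCommGroup G] {n : ℕ} (hn : 0 < n)
    (h : ∀ d : ℕ, d ∣ n → Nat.card {P : G // d • P = 0} = d ^ 2) :
    ∃ S T : G, (∀ P : G, n • P = 0 ↔ ∃ i j : ℤ, P = i • S + j • T) ∧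
      ∀ i j : ℤ, i • S + j • T = 0 → (n : ℤ) ∣ i ∧ (n : ℤ) ∣ j := by
  obtain ⟨S, T, h1, h2, h3⟩ := Tb.exists_ind (G := G) n hn h
  refine ⟨S, T, ?_, h3⟩
  intro P
  constructor
  · intro hP
    have hfin : Finite {P : G // n • P = 0} :=
      Nat.finite_of_card_ne_zero (by rw [h n dvd_rfl]; positivity)
    let g : Fin n × Fin n → {P : G // n • P = 0} := fun x =>
      ⟨((x.1 : ℕ) : ℤ) • S + ((x.2 : ℕ) : ℤ) • T, by
        rw [smul_add, smul_comm n, smul_comm n, h1, h2, smul_zero, smul_zero, add_zero]⟩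
    have hg : Function.Injective g := by
      rintro ⟨i, j⟩ ⟨i', j'⟩ hxy
      have e1 : ((i : ℕ) : ℤ) • S + ((j : ℕ) : ℤ) • T = ((i' : ℕ) : ℤ) • S + ((j' : ℕ) : ℤ) • T :=
        congrArg Subtype.val hxy
      have e2 : (((i : ℕ) : ℤ) - ((i' : ℕ) : ℤ)) • S + (((j : ℕ) : ℤ) - ((j' : ℕ) : ℤ)) • T = 0 := by
        rw [sub_smul, sub_smul, ← sub_eq_zero.2 e1]
        abel
      obtain ⟨f1, f2⟩ := h3 _ _ e2
      have g1 : ((i : ℕ) : ℤ) - ((i' : ℕ) : ℤ) = 0 := by
        apply Int.eq_zero_of_abs_lt_dvd f1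
        have := i.2
        have := i'.2
        rw [abs_lt]
        constructor <;> omega
      have g2 : ((j : ℕ) : ℤ) - ((j' : ℕ) : ℤ) = 0 := by
        apply Int.eq_zero_of_abs_lt_dvd f2
        have := j.2
        have := j'.2
        rw [abs_lt]
        constructor <;> omega
      have k1 : i = i' := by apply Fin.ext; omega
      have k2 : j = j' := by apply Fin.ext; omega
      rw [k1, k2]
    have hcard : Nat.card (Fin n × Fin n) = Nat.card {P : G // n • P = 0} := by
      rw [h n dvd_rfl, Nat.card_prod, Nat.card_eq_fintype_card, Fintype.card_fin]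
      ring
    have hb : Function.Bijective g := (Nat.bijective_iff_injective_and_card g).2 ⟨hg, hcard⟩
    obtain ⟨x, hx⟩ := hb.2 ⟨P, hP⟩
    exact ⟨_, _, (congrArg Subtype.val hx).symm⟩
  · rintro ⟨i, j, rfl⟩
    rw [smul_add, smul_comm n, smul_comm n, h1, h2, smul_zero, smul_zero, add_zero]

/-- A cyclic group of order `n` has exactly one subgroup of order `d` for each `d ∣ n`: here it is
the set of the elements killed by `d`. -/
theorem cyc_sub {G : Type} [AddCommGroup G] {n d : ℕ} (hn : 0 < n) (hd : d ∣ n)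
    {L : AddSubgroup G} (hL : ∃ T : G, addOrderOf T = n ∧ L = AddSubgroup.zmultiples T) :
    ∃ L' : AddSubgroup G, (∃ T : G, addOrderOf T = d ∧ L' = AddSubgroup.zmultiples T) ∧
      ∀ P : G, P ∈ L' ↔ P ∈ L ∧ d • P = 0 := by
  obtain ⟨T, hT, rfl⟩ := hL
  obtain ⟨e, he⟩ := hd
  have hd0 : 0 < d := by
    rcases Nat.eq_zero_or_pos d with h0 | h0
    · rw [h0, zero_mul] at he; omega
    · exact h0
  have he0 : 0 < e := by
    rcases Nat.eq_zero_or_pos e with h0 | h0
    · rw [h0, mul_zero] at he; omega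
    · exact h0
  refine ⟨AddSubgroup.zmultiples (e • T), ⟨e • T, ?_, rfl⟩, ?_⟩
  · rw [addOrderOf_nsmul' _ he0.ne', hT, he]
    rw [Nat.gcd_eq_right (Dvd.intro_left d rfl)]
    exact Nat.mul_div_cancel _ he0
  · intro P
    constructor
    · intro hP
      rw [AddSubgroup.mem_zmultiples_iff] at hP
      obtain ⟨k, rfl⟩ := hP
      refine ⟨?_, ?_⟩
      · rw [AddSubgroup.mem_zmultiples_iff]
        exact ⟨k * e, by rw [mul_smul, natCast_zsmul]⟩
      · rw [smul_comm, smul_smul, ← he, ← hT, addOrderOf_nsmul_eq_zero, smul_zero]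
    · rintro ⟨hP, hP2⟩
      rw [AddSubgroup.mem_zmultiples_iff] at hP
      obtain ⟨k, rfl⟩ := hP
      have h1 : ((d : ℤ) * k) • T = 0 := by
        rw [mul_smul, natCast_zsmul]; exact hP2
      have h2 := addOrderOf_dvd_iff_zsmul_eq_zero.2 h1
      rw [hT, he] at h2
      push_cast at h2
      have hd0' : (d : ℤ) ≠ 0 := by exact_mod_cast hd0.ne'
      have h3 : (e : ℤ) ∣ k := (mul_dvd_mul_iff_left hd0').1 h2
      obtain ⟨c, rfl⟩ := h3
      rw [AddSubgroup.mem_zmultiples_iff]
      exact ⟨c, by rw [mul_comm, mul_smul, natCast_zsmul]⟩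

end LT
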