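import Pool.Agent.Lib_MP_f1937f_nt.PStabDefs
import Pool.Agent.Lib_MP_f1937f_nt.Tb

/-!
# MP_f1937f_nt: stable cyclic subgroups: order 1, 2 and products (piece PSTABM)
-/

namespace LT

namespace PStabM

/-- The elements of a cyclic subgroup of order `n` are killed by `n`. -/
theorem kill {G : Type} [AddCommGroup G] {n : ℕ} {L : AddSubgroup G}
    (hL : ∃ T : G, addOrderOf T = n ∧ L = AddSubgroup.zmultiples T) {x : G} (hx : x ∈ L) :
    n • x = 0 := by
  obtain ⟨T, hT, rfl⟩ := hL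
  rw [AddSubgroup.mem_zmultiples_iff] at hx
  obtain ⟨k, rfl⟩ := hx
  rw [smul_comm, ← hT, addOrderOf_nsmul_eq_zero, smul_zero]

/-- The part killed by a divisor is stable and cyclic. -/
theorem part {G : Type} [AddCommGroup G] (F : G →+ G) {n d : ℕ} (hn : 0 < n) (hd : d ∣ n)
    {L : AddSubgroup G} (hL : L ∈ StabG F n) : L ⊓ Tb.tor G d ∈ StabG F d := by
  obtain ⟨hL1, hL2⟩ := hL
  obtain ⟨L', hL', hmem⟩ := cyc_sub hn hd hL1
  have e : L ⊓ Tb.tor G d = L' := by
    ext x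
    rw [AddSubgroup.mem_inf, hmem, Tb.mem_tor]
  rw [e]
  refine ⟨hL', ?_⟩
  intro x hx
  rw [hmem] at hx ⊢
  exact ⟨hL2 x hx.1, by rw [← map_nsmul, hx.2, map_zero]⟩

/-- One inclusion. -/
theorem le_of {G : Type} [AddCommGroup G] {m n : ℕ} (hmn : Nat.Coprime m n) {L L' : AddSubgroup G}
    (hL : ∃ T : G, addOrderOf T = m * n ∧ L = AddSubgroup.zmultiples T)
    (h1 : L ⊓ Tb.tor G m ≤ L') (h2 : L ⊓ Tb.tor G n ≤ L') : L ≤ L' := by
  intro x hx
  have hx0 := kill hL hx
  obtain ⟨u, v, huv⟩ := Nat.isCoprime_iff_coprime.2 hmn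
  have e : x = (v * n) • x + (u * m) • x := by
    rw [← add_smul, add_comm, huv, one_smul]
  rw [e]
  apply L'.add_mem
  · apply h1
    rw [AddSubgroup.mem_inf, Tb.mem_tor]
    refine ⟨L.zsmul_mem hx _, ?_⟩
    rw [← natCast_zsmul, smul_smul, show (m : ℤ) * (v * n) = v * ((m * n : ℕ) : ℤ) by push_cast; ring,
      mul_smul, natCast_zsmul, hx0, smul_zero]
  · apply h2
    rw [AddSubgroup.mem_inf, Tb.mem_tor]
    refine ⟨L.zsmul_mem hx _, ?_⟩
    rw [← natCast_zsmul, smul_smul, show (n : ℤ) * (u * m) = u * ((m * n : ℕ) : ℤ) by push_cast; ring,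
      mul_smul, natCast_zsmul, hx0, smul_zero]

end PStabM

theorem stab_one {G : Type} [AddCommGroup G] (F : G →+ G) : (StabG F 1).encard ≤ 1 := by
  rw [Set.encard_le_one_iff]
  rintro L L' ⟨⟨T, hT, rfl⟩, _⟩ ⟨⟨T', hT', rfl⟩, _⟩
  rw [AddMonoid.addOrderOf_eq_one_iff] at hT hT'
  rw [hT, hT']

/-- A subgroup of order `2` is generated by one of the three elements of order `2`. -/
theorem stab_two {G : Type} [AddCommGroup G] (F : G →+ G)
    (hc : Nat.card {x : G // 2 • x = 0} = 4) : (StabG F 2).encard ≤ 3 := by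
  have h1 : StabG F 2 ⊆ (fun T : G => AddSubgroup.zmultiples T) '' ({x : G | 2 • x = 0} \ {0}) := by
    rintro L ⟨⟨T, hT, rfl⟩, _⟩
    refine ⟨T, ⟨?_, ?_⟩, rfl⟩
    · show 2 • T = 0
      rw [← hT, addOrderOf_nsmul_eq_zero]
    · intro h0
      have h0' : T = 0 := h0
      rw [h0', addOrderOf_zero] at hT
      omega
  have hfin : ({x : G | 2 • x = 0}).Finite := by
    have h0 : Finite {x : G // 2 • x = 0} := Nat.finite_of_card_ne_zero (by
      rw [hc]
      norm_num)
    exact Set.finite_coe_iff.mp h0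
  refine (Set.encard_le_encard h1).trans ((Set.encard_image_le _ _).trans ?_)
  have h2 : ({x : G | 2 • x = 0}).encard = 4 := by
    rw [← hfin.cast_ncard_eq]
    have : ({x : G | 2 • x = 0}).ncard = 4 := hc
    rw [this]
    rfl
  have h3 := Set.encard_sdiff_singleton_add_one (s := {x : G | 2 • x = 0}) (a := 0)
    (by show 2 • (0 : G) = 0; simp)
  rw [h2] at h3
  have h4 : ({x : G | 2 • x = 0} \ {0}).encard + 1 ≤ 3 + 1 := by
    rw [h3]
    norm_num
  exact (ENat.add_le_add_iff_right (by simp)).mp h4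

/-- `L ↦ (L[m], L[n])` (cyc_sub) is injective on the stable cyclic subgroups of order `m n`: `L` is the
sum of the two (`u m + v n = 1`). -/
theorem stab_mul {G : Type} [AddCommGroup G] (F : G →+ G) {m n : ℕ} (hm : 0 < m) (hn : 0 < n)
    (hmn : Nat.Coprime m n) :
    (StabG F (m * n)).encard ≤ (StabG F m).encard * (StabG F n).encard := by
  rw [← Set.encard_prod]
  refine Set.encard_le_encard_of_injOn
    (f := fun L : AddSubgroup G => (L ⊓ Tb.tor G m, L ⊓ Tb.tor G n)) ?_ ?_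
  · intro L hL
    exact ⟨PStabM.part F (Nat.mul_pos hm hn) (Dvd.intro n rfl) hL,
      PStabM.part F (Nat.mul_pos hm hn) (Dvd.intro_left m rfl) hL⟩
  · intro L hL L' hL' he
    have h1 : L ⊓ Tb.tor G m = L' ⊓ Tb.tor G m := congrArg Prod.fst he
    have h2 : L ⊓ Tb.tor G n = L' ⊓ Tb.tor G n := congrArg Prod.snd he
    apply le_antisymm
    · exact PStabM.le_of hmn hL.1 (h1.le.trans inf_le_left) (h2.le.trans inf_le_left)
    · exact PStabM.le_of hmn hL'.1 (h1.ge.trans inf_le_left) (h2.ge.trans inf_le_left)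

end LT
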