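import Pool.Agent.Lib_MP_f1937f_nt.PStabDefs

/-!
# MP_f1937f_nt: at most two stable cyclic subgroups of odd prime power order (piece PSTABQ)
-/

namespace LT

/-- Eigenvalues: if `L = ⟨T⟩` is stable, `F T = l T`, and `l² = -p mod q^e`. -/
theorem stab_eigen {G : Type} [AddCommGroup G] (F : G →+ G) {p n : ℕ} (hn : 0 < n)
    (hF : ∀ x, F (F x) = -(p • x)) {L : AddSubgroup G} (hL : L ∈ StabG F n) :
    ∃ l : ℤ, (n : ℤ) ∣ l ^ 2 + p ∧ (∀ x ∈ L, F x = l • x) ∧ (∀ x ∈ L, n • x = 0) ∧
      Nat.card L = n := by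
  obtain ⟨⟨T, hT, rfl⟩, hst⟩ := hL
  have h1 := hst T (AddSubgroup.mem_zmultiples T)
  rw [AddSubgroup.mem_zmultiples_iff] at h1
  obtain ⟨l, hl⟩ := h1
  refine ⟨l, ?_, ?_, ?_, ?_⟩
  · rw [← hT]
    apply addOrderOf_dvd_iff_zsmul_eq_zero.2
    have h2 := hF T
    rw [← hl, map_zsmul, ← hl, smul_smul] at h2
    rw [add_smul, pow_two, h2, natCast_zsmul, neg_add_cancel]
  · intro x hx
    rw [AddSubgroup.mem_zmultiples_iff] at hx
    obtain ⟨k, rfl⟩ := hx
    rw [map_zsmul, ← hl, smul_comm]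
  · intro x hx
    rw [AddSubgroup.mem_zmultiples_iff] at hx
    obtain ⟨k, rfl⟩ := hx
    rw [smul_comm, ← hT, addOrderOf_nsmul_eq_zero, smul_zero]
  · rw [Nat.card_zmultiples, hT]

namespace PStabQ

/-- An element killed by coprime integers vanishes. -/
theorem zero_of {G : Type} [AddCommGroup G] {a b : ℤ} (h : IsCoprime a b) {x : G}
    (ha : a • x = 0) (hb : b • x = 0) : x = 0 := by
  obtain ⟨u, v, huv⟩ := h
  have : (u * a + v * b) • x = 0 := by
    rw [add_smul, mul_smul, mul_smul, ha, hb, smul_zero, smul_zero, add_zero]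
  rwa [huv, one_smul] at this

/-- The eigenspace. -/
def eig {G : Type} [AddCommGroup G] (F : G →+ G) (n : ℕ) (l : ℤ) : AddSubgroup G where
  carrier := {x | n • x = 0 ∧ F x = l • x}
  add_mem' := by
    rintro x y ⟨hx, hx'⟩ ⟨hy, hy'⟩
    exact ⟨by rw [smul_add, hx, hy, add_zero], by rw [map_add, hx', hy', smul_add]⟩
  zero_mem' := ⟨by simp, by simp⟩
  neg_mem' := by
    rintro x ⟨hx, hx'⟩
    exact ⟨by rw [smul_neg, hx, neg_zero], by rw [map_neg, hx', smul_neg]⟩

theorem mem_eig {G : Type} [AddCommGroup G] {F : G →+ G} {n : ℕ} {l : ℤ} {x : G} :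
    x ∈ eig F n l ↔ n • x = 0 ∧ F x = l • x := Iff.rfl

/-- The eigenspace depends on `l` modulo `n`. -/
theorem eig_congr {G : Type} [AddCommGroup G] (F : G →+ G) (n : ℕ) {l m : ℤ}
    (h : (n : ℤ) ∣ l - m) : eig F n l = eig F n m := by
  obtain ⟨c, hc⟩ := h
  ext x
  rw [mem_eig, mem_eig]
  refine and_congr_right fun hx => ?_
  have : l • x = m • x := by
    rw [← sub_eq_zero, ← sub_smul, hc, mul_comm, mul_smul, natCast_zsmul, hx, smul_zero]
  rw [this]

theorem cop {p n : ℕ} (h6 : Nat.Coprime n 6) (hpn : Nat.Coprime n p) {l : ℤ}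
    (hl : (n : ℤ) ∣ l ^ 2 + p) : IsCoprime (n : ℤ) (2 * l) := by
  have h2 : Nat.Coprime n 2 := Nat.Coprime.coprime_dvd_right (by norm_num) h6
  have h2' : IsCoprime (n : ℤ) 2 := by exact_mod_cast Nat.isCoprime_iff_coprime.2 h2
  apply IsCoprime.mul_right h2'
  have hp' : IsCoprime (n : ℤ) (p : ℤ) := Nat.isCoprime_iff_coprime.2 hpn
  obtain ⟨u, v, huv⟩ := hp'
  obtain ⟨c, hc⟩ := hl
  refine ⟨u + v * c, -(v * l), ?_⟩
  have : (p : ℤ) = n * c - l ^ 2 := by linarith
  rw [this] at huv
  linarith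

end PStabQ

open PStabQ in
/-- The eigenspace of `l` among the elements killed by `n = q^e` has at most `n` elements: the map `D`
exchanges the eigenspaces `K_l` and `K_{-l}` and is injective on them (`D² = -3`), `K_l ∩ K_{-l} = 0`
(`2 l` is prime to `n`), so `|K_l|² ≤ n²`. -/
theorem eigen_card {G : Type} [AddCommGroup G] (F D : G →+ G) {p n : ℕ} (hn : 0 < n)
    (h6 : Nat.Coprime n 6) (hpn : Nat.Coprime n p) (hD : ∀ x, D (D x) = -(3 • x))
    (hFD : ∀ x, F (D x) = -D (F x)) (hc : Nat.card {x : G // n • x = 0} = n ^ 2) {l : ℤ}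
    (hl : (n : ℤ) ∣ l ^ 2 + p) :
    Finite {x : G // n • x = 0 ∧ F x = l • x} ∧ Nat.card {x : G // n • x = 0 ∧ F x = l • x} ≤ n := by
  have hfin : Finite {x : G // n • x = 0} := Nat.finite_of_card_ne_zero (by
    rw [hc]; positivity)
  have hfin' : Finite {x : G // n • x = 0 ∧ F x = l • x} :=
    Finite.of_injective (fun x : {x : G // n • x = 0 ∧ F x = l • x} =>
      (⟨x.1, x.2.1⟩ : {x : G // n • x = 0})) (by
        intro x y hxy
        have hxy' : (⟨x.1, x.2.1⟩ : {x : G // n • x = 0}) = ⟨y.1, y.2.1⟩ := hxy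
        exact Subtype.ext (Subtype.mk.inj hxy'))
  refine ⟨hfin', ?_⟩
  have h3 : IsCoprime (n : ℤ) 3 := by
    have : Nat.Coprime n 3 := Nat.Coprime.coprime_dvd_right (by norm_num) h6
    exact_mod_cast Nat.isCoprime_iff_coprime.2 this
  have hcop := cop h6 hpn hl
  -- `D` is injective on the elements killed by `n`
  have hDinj : ∀ x : G, n • x = 0 → D x = 0 → x = 0 := by
    intro x hx hx'
    apply zero_of h3 (by rw [natCast_zsmul]; exact hx)
    have h1 := hD x
    rw [hx', map_zero] at h1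
    have h2 : (3 : ℕ) • x = 0 := (neg_eq_zero.mp h1.symm)
    have h4 : (3 : ℤ) • x = (3 : ℕ) • x := by
      rw [← natCast_zsmul]
      norm_num
    rw [h4]
    exact h2
  let g : {x : G // n • x = 0 ∧ F x = l • x} × {x : G // n • x = 0 ∧ F x = l • x} →
      {x : G // n • x = 0} := fun z => ⟨z.1.1 + D z.2.1, by
    rw [smul_add, z.1.2.1, ← map_nsmul, z.2.2.1, map_zero, add_zero]⟩
  have hg : Function.Injective g := by
    rintro ⟨⟨x, hx1, hx2⟩, ⟨y, hy1, hy2⟩⟩ ⟨⟨x', hx1', hx2'⟩, ⟨y', hy1', hy2'⟩⟩ h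
    have h1 : x + D y = x' + D y' := congrArg Subtype.val h
    have h2 : x - x' = D (y' - y) := by
      rw [map_sub, sub_eq_sub_iff_add_eq_add, h1]
      abel
    have h3 : n • (x - x') = 0 := by rw [smul_sub, hx1, hx1', sub_zero]
    have h4 : F (x - x') = l • (x - x') := by rw [map_sub, hx2, hx2', smul_sub]
    have h5 : F (x - x') = -(l • (x - x')) := by
      rw [h2, hFD, map_sub F, hy2, hy2', ← smul_sub, map_zsmul]
    have h6 : x - x' = 0 := by
      apply zero_of hcop (by rw [natCast_zsmul]; exact h3)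
      rw [two_mul, add_smul]
      nth_rewrite 1 [← h4]
      rw [h5, neg_add_cancel]
    have h7 : y' - y = 0 := by
      apply hDinj _ (by rw [smul_sub, hy1, hy1', sub_zero])
      rw [← h2, h6]
    have h8 : x = x' := sub_eq_zero.mp h6
    have h9 : y = y' := (sub_eq_zero.mp h7).symm
    subst h8
    subst h9
    rfl
  have h5 := Nat.card_le_card_of_injective g hg
  rw [Nat.card_prod, hc] at h5
  have h6 : Nat.card {x : G // n • x = 0 ∧ F x = l • x} ^ 2 ≤ n ^ 2 := by
    rw [pow_two]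
    exact h5
  exact (Nat.pow_le_pow_iff_left two_ne_zero).mp h6

open PStabQ in
/-- Two eigenvalues `l, m` (`l² = m² = -p mod q^e`) are equal or opposite modulo `q^e` (`q` does not divide
`2 l`); a stable subgroup with eigenvalue `l` is contained in the eigenspace of `l`, so equal to it. -/
theorem stab_pow {G : Type} [AddCommGroup G] (F D : G →+ G) {p q e : ℕ} (hq : q.Prime)
    (he : 0 < e) (hq2 : q ≠ 2) (hq3 : q ≠ 3) (hqp : ¬ q ∣ p) (hF : ∀ x, F (F x) = -(p • x))
    (hD : ∀ x, D (D x) = -(3 • x)) (hFD : ∀ x, F (D x) = -D (F x))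
    (hc : Nat.card {x : G // (q ^ e) • x = 0} = (q ^ e) ^ 2) :
    (StabG F (q ^ e)).encard ≤ 2 := by
  set n := q ^ e with hn
  have hn0 : 0 < n := pow_pos hq.pos e
  have hpn : Nat.Coprime n p := Nat.Coprime.pow_left e ((Nat.Prime.coprime_iff_not_dvd hq).2 hqp)
  have h6 : Nat.Coprime n 6 := by
    apply Nat.Coprime.pow_left
    have h2 : Nat.Coprime q 2 := (Nat.coprime_primes hq Nat.prime_two).2 hq2
    have h3 : Nat.Coprime q 3 := (Nat.coprime_primes hq Nat.prime_three).2 hq3
    exact Nat.Coprime.mul_right h2 h3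
  -- a stable subgroup is an eigenspace
  have hE : ∀ L ∈ StabG F n, ∃ l : ℤ, (n : ℤ) ∣ l ^ 2 + p ∧ L = eig F n l := by
    intro L hL
    obtain ⟨l, hl, h1, h2, h3⟩ := stab_eigen F hn0 hF hL
    refine ⟨l, hl, ?_⟩
    obtain ⟨h4, h5⟩ := eigen_card F D hn0 h6 hpn hD hFD hc hl
    have h4' : Finite (eig F n l) := h4
    have h5' : Nat.card (eig F n l) ≤ n := h5
    apply AddSubgroup.eq_of_le_of_card_ge
    · intro x hx
      exact ⟨h2 x hx, h1 x hx⟩
    · rw [h3]
      exact h5'
  rcases Set.eq_empty_or_nonempty (StabG F n) with h0 | ⟨L₁, hL₁⟩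
  · rw [h0]
    simp
  · obtain ⟨l, hl, _⟩ := hE L₁ hL₁
    have hsub : StabG F n ⊆ {eig F n l, eig F n (-l)} := by
      intro L hL
      obtain ⟨m, hm, rfl⟩ := hE L hL
      have h1 : (n : ℤ) ∣ (m - l) * (m + l) := by
        have : (m - l) * (m + l) = (m ^ 2 + p) - (l ^ 2 + p) := by ring
        rw [this]
        exact dvd_sub hm hl
      have hqZ : Prime (q : ℤ) := Nat.prime_iff_prime_int.1 hq
      have h2 : (n : ℤ) ∣ m - l ∨ (n : ℤ) ∣ m + l := by
        by_cases h3 : (q : ℤ) ∣ m - l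
        · have h4 : ¬ (q : ℤ) ∣ m + l := by
            intro h4
            have h5 : (q : ℤ) ∣ 2 * m := by
              have : 2 * m = (m - l) + (m + l) := by ring
              rw [this]
              exact dvd_add h3 h4
            have h6 : IsCoprime (n : ℤ) (2 * m) := cop h6 hpn hm
            have h7 : (q : ℤ) ∣ n := by
              rw [hn]
              push_cast
              exact dvd_pow_self _ he.ne'
            have h8 := h6.isUnit_of_dvd' h7 h5
            exact hqZ.not_isUnit h8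
          left
          have h5 : IsCoprime (n : ℤ) (m + l) := by
            rw [hn]
            push_cast
            exact IsCoprime.pow_left ((Prime.coprime_iff_not_dvd hqZ).2 h4)
          exact h5.dvd_of_dvd_mul_right h1
        · right
          have h5 : IsCoprime (n : ℤ) (m - l) := by
            rw [hn]
            push_cast
            exact IsCoprime.pow_left ((Prime.coprime_iff_not_dvd hqZ).2 h3)
          exact h5.dvd_of_dvd_mul_left h1
      rcases h2 with h2 | h2
      · left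
        exact eig_congr F n h2
      · right
        exact eig_congr F n (by simpa using h2)
    refine (Set.encard_le_encard hsub).trans ?_
    refine (Set.encard_insert_le _ _).trans ?_
    rw [Set.encard_singleton]
    norm_num

end LT
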