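import Pool.Agent.Lib_MP_f1937f_nt.PDelta
import Pool.Agent.Lib_MP_f1937f_nt.PStabQ
import Pool.Agent.Lib_MP_f1937f_nt.PStabM

/-!
# MP_f1937f_nt: the number of Frobenius stable cyclic subgroups (piece PSTABC)
-/

namespace LT

open Polynomial WeierstrassCurve

namespace PStabC

/-- Torsion count on `E₀`. -/
theorem tors_card {p : ℕ} [Fact p.Prime] (h5 : 5 ≤ p) (h3 : p % 3 = 2) {n : ℕ} (hn : ¬ p ∣ n) :
    Nat.card {x : Pt (0 : Fb p) (-31 / 4) // n • x = 0} = n ^ 2 := by
  apply card_tors (fb_ne h5).1 (e0_dsc h5 h3)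
  intro h
  exact hn ((CharP.cast_eq_zero_iff (Fb p) p n).mp h)

/-- The bound for odd orders. -/
theorem odd_card {p : ℕ} [Fact p.Prime] (h5 : 5 ≤ p) (h3 : p % 3 = 2) (d : ℕ) :
    0 < d → ¬ 2 ∣ d → ¬ 3 ∣ d → ¬ p ∣ d →
      (StabG (F0 p) d).encard ≤ 2 ^ d.primeFactors.card := by
  have hpp : p.Prime := Fact.out
  obtain ⟨D, hD, hFD⟩ := delta_hom (p := p) h5 h3
  induction d using Nat.recOnPosPrimePosCoprime with
  | prime_pow q e hq he =>
    intro _ h2 h3' hp
    have hq2 : q ≠ 2 := by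
      rintro rfl
      exact h2 (dvd_pow_self 2 he.ne')
    have hq3 : q ≠ 3 := by
      rintro rfl
      exact h3' (dvd_pow_self 3 he.ne')
    have hqp : ¬ q ∣ p := by
      intro h
      rw [Nat.prime_dvd_prime_iff_eq hq hpp] at h
      subst h
      exact hp (dvd_pow_self q he.ne')
    have h := stab_pow (F0 p) D hq he hq2 hq3 hqp (F0_sq h5 h3) hD hFD (tors_card h5 h3 hp)
    rw [Nat.primeFactors_prime_pow he.ne' hq, Finset.card_singleton, pow_one]
    exact h
  | zero => intro h; exact absurd h (lt_irrefl 0)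
  | one =>
    intro _ _ _ _
    have h := stab_one (F0 p)
    simpa using h
  | coprime a b ha hb hab iha ihb =>
    intro _ h2 h3' hp
    have h1 := iha (by omega) (fun h => h2 (h.mul_right b)) (fun h => h3' (h.mul_right b))
      (fun h => hp (h.mul_right b))
    have h2' := ihb (by omega) (fun h => h2 (h.mul_left a)) (fun h => h3' (h.mul_left a))
      (fun h => hp (h.mul_left a))
    have h4 := stab_mul (F0 p) (show 0 < a by omega) (show 0 < b by omega) hab
    rw [Nat.Coprime.primeFactors_mul hab, Finset.card_union_of_disjoint hab.disjoint_primeFactors,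
      pow_add]
    exact h4.trans (mul_le_mul' h1 h2')

end PStabC

/-- Induction on the factorisation (`Nat.recOnPosPrimePosCoprime`), first for odd `d` (bound
`2 ^ ω(d)`), then `d = 2 d'`. -/
theorem stab_card {p : ℕ} [Fact p.Prime] (h5 : 5 ≤ p) (h3 : p % 3 = 2) {d : ℕ} (hd : 0 < d)
    (h4 : ¬ 4 ∣ d) (h3d : ¬ 3 ∣ d) (hpd : ¬ p ∣ d) :
    (StabG (F0 p) d).encard ≤ 3 * 2 ^ d.primeFactors.card := by
  by_cases h2 : 2 ∣ d
  · obtain ⟨c, rfl⟩ := h2
    have hc : ¬ 2 ∣ c := by
      intro h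
      apply h4
      obtain ⟨e, rfl⟩ := h
      exact ⟨e, by ring⟩
    have hc0 : 0 < c := by omega
    have hcop : Nat.Coprime 2 c := (Nat.Prime.coprime_iff_not_dvd Nat.prime_two).mpr hc
    have h1 := PStabC.odd_card h5 h3 c hc0 hc (fun h => h3d (h.mul_left 2))
      (fun h => hpd (h.mul_left 2))
    have hp2 : ¬ p ∣ 2 := fun h => hpd (h.mul_right c)
    have h5' := stab_two (F0 p) (by
      rw [PStabC.tors_card h5 h3 hp2]
      norm_num)
    have h6 := stab_mul (F0 p) two_pos hc0 hcop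
    have h7 : (c.primeFactors.card) ≤ (2 * c).primeFactors.card := by
      apply Finset.card_le_card
      exact Nat.primeFactors_mono (Dvd.intro_left 2 rfl) (by omega)
    calc (StabG (F0 p) (2 * c)).encard ≤ (StabG (F0 p) 2).encard * (StabG (F0 p) c).encard := h6
      _ ≤ 3 * 2 ^ c.primeFactors.card := mul_le_mul' h5' h1
      _ ≤ 3 * 2 ^ (2 * c).primeFactors.card := by
        apply mul_le_mul' le_rfl
        exact pow_le_pow_right₀ (by norm_num) h7
  · have h1 := PStabC.odd_card h5 h3 d hd h2 h3d hpd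
    calc (StabG (F0 p) d).encard ≤ 2 ^ d.primeFactors.card := h1
      _ = 1 * 2 ^ d.primeFactors.card := (one_mul _).symm
      _ ≤ 3 * 2 ^ d.primeFactors.card := mul_le_mul' (by norm_num) le_rfl

end LT
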