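import Pool.Agent.Lib_MP_f1937f_nt.PPair
import Pool.Agent.Lib_MP_f1937f_nt.PStabC

/-!
# MP_f1937f_nt: one prime serves few `m'` (layer P)
-/

namespace LT

open Polynomial WeierstrassCurve

/-- If `p` serves all `m ∈ A` (with the same `d`), and all subsets of `A` in one square class have at most
`K` elements, then `A` has at most `6 · 2^ω(d) · K` elements. -/
theorem serve_bound {p : ℕ} [Fact p.Prime] (h5 : 5 ≤ p) (h3 : p % 3 = 2) {d : ℕ} (hd : 0 < d)
    (h4 : ¬ 4 ∣ d) (h3d : ¬ 3 ∣ d) {j : ℚ} (hj : 0 ≤ padicValRat p j) (hj0 : ((j : ℚ) : Fb p) ≠ 0)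
    (hj1 : ((j : ℚ) : Fb p) ≠ 1728) (A : Finset ℕ)
    (hA : ∀ m ∈ A, 0 < m ∧ 4 * m * m < p ∧ ¬ p ∣ d * m ∧
      ∃ L : AddSubgroup (Pt (0 : Fb p) (-31 / 4)), RedL p (d * m) j L) (K : ℕ)
    (hK : ∀ B ⊆ A, (∀ x ∈ B, ∀ y ∈ B, IsSquare (x * y)) → B.card ≤ K) :
    A.card ≤ 6 * 2 ^ d.primeFactors.card * K := by
  classical
  have hpp : p.Prime := Fact.out
  rcases A.eq_empty_or_nonempty with rfl | hne
  · simp
  have hpd : ¬ p ∣ d := by
    obtain ⟨m, hm⟩ := hne
    intro h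
    exact (hA m hm).2.2.1 (h.mul_right m)
  -- the subgroups
  have hL : ∀ m : ℕ, ∃ L : AddSubgroup (Pt (0 : Fb p) (-31 / 4)), m ∈ A → RedL p (d * m) j L := by
    intro m
    by_cases hm : m ∈ A
    · obtain ⟨L, hL⟩ := (hA m hm).2.2.2
      exact ⟨L, fun _ => hL⟩
    · exact ⟨⊥, fun h => absurd h hm⟩
  choose L hL using hL
  have hL' : ∀ m : ℕ, ∃ L' : AddSubgroup (Pt (0 : Fb p) (-31 / 4)), m ∈ A →
      L' ∈ StabG (F0 p) d ∧ L' ≤ L m := by
    intro m
    by_cases hm : m ∈ A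
    · have hR := hL m hm
      have hm0 := (hA m hm).1
      obtain ⟨L', h1, h2⟩ := cyc_sub (n := d * m) (d := d) (Nat.mul_pos hd hm0) (Dvd.intro m rfl)
        hR.cyc
      refine ⟨L', fun _ => ⟨⟨h1, ?_⟩, fun P hP => ((h2 P).mp hP).1⟩⟩
      intro P hP
      rw [h2] at hP ⊢
      refine ⟨hR.frob P hP.1, ?_⟩
      rw [← map_nsmul, hP.2, map_zero]
    · exact ⟨⊥, fun h => absurd h hm⟩
  choose L' hL' using hL'
  -- the classes
  let c : ℕ → Fb p := fun m => (vB 0 (-31 / 4) (L m) / vA 0 (-31 / 4) (L m)) ^ ((p - 1) / 2)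
  have hfinS : (StabG (F0 p) d).Finite := by
    rw [← Set.encard_lt_top_iff]
    refine lt_of_le_of_lt (stab_card h5 h3 hd h4 h3d hpd) ?_
    have : (3 : ℕ∞) * 2 ^ d.primeFactors.card = ((3 * 2 ^ d.primeFactors.card : ℕ) : ℕ∞) := by
      push_cast
      rfl
    rw [this]
    exact ENat.natCast_lt_top _
  have hcardS : hfinS.toFinset.card ≤ 3 * 2 ^ d.primeFactors.card := by
    have h1 := stab_card h5 h3 hd h4 h3d hpd
    rw [hfinS.encard_eq_coe_toFinset_card] at h1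
    exact_mod_cast h1
  have hcls : ∀ m ∈ A, c m ∈ ({1, -1} : Finset (Fb p)) := by
    intro m hm
    have hR := hL m hm
    have hV : VeluOK (0 : Fb p) (-31 / 4) (L m) := (hR.chain (L m) le_rfl).2.1
    have hjL : jinv (vA (0 : Fb p) (-31 / 4) (L m)) (vB 0 (-31 / 4) (L m)) = (j : Fb p) := hR.jj
    obtain ⟨h1, h2⟩ := jinv_ne (by rw [hjL]; exact hj0) (by rw [hjL]; exact hj1) hV.1
    have hfin : Finite (L m) := by
      obtain ⟨T, hT, hLT⟩ := hR.cyc
      apply Nat.finite_of_card_ne_zero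
      rw [hLT, Nat.card_zmultiples, hT]
      exact (Nat.mul_pos hd (hA m hm).1).ne'
    obtain ⟨h6, h7⟩ := vel_fix hfin hR.frob
    have h8 := cls_two p (by omega : p ≠ 2) (s := vB 0 (-31 / 4) (L m) / vA 0 (-31 / 4) (L m))
      (div_ne_zero h2 h1) (by rw [div_pow, h6, h7])
    rw [Finset.mem_insert, Finset.mem_singleton]
    exact h8
  let f : ℕ → AddSubgroup (Pt (0 : Fb p) (-31 / 4)) × Fb p := fun m => (L' m, c m)
  have hmaps : ∀ m ∈ A, f m ∈ hfinS.toFinset ×ˢ ({1, -1} : Finset (Fb p)) := by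
    intro m hm
    rw [Finset.mem_product]
    exact ⟨by rw [Set.Finite.mem_toFinset]; exact (hL' m hm).1, hcls m hm⟩
  have hfib : ∀ b ∈ hfinS.toFinset ×ˢ ({1, -1} : Finset (Fb p)),
      (A.filter (fun m => f m = b)).card ≤ K := by
    intro b _
    apply hK _ (Finset.filter_subset _ _)
    intro x hx y hy
    rw [Finset.mem_filter] at hx hy
    have hxy : f x = f y := hx.2.trans hy.2.symm
    have h1 : L' x = L' y := congrArg Prod.fst hxy
    have h2 : c x = c y := congrArg Prod.snd hxy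
    have hx' := hA x hx.1
    have hy' := hA y hy.1
    have hlt : 4 * x * y < p := by
      rcases le_total x y with h | h
      · calc 4 * x * y ≤ 4 * y * y := by
              exact Nat.mul_le_mul_right _ (Nat.mul_le_mul_left _ h)
          _ < p := hy'.2.1
      · calc 4 * x * y ≤ 4 * x * x := Nat.mul_le_mul_left _ h
          _ < p := hx'.2.1
    exact pair_square h5 h3 hd hx'.1 hy'.1 hx'.2.2.1 hy'.2.2.1 hlt hj0 hj1 (hL' x hx.1).1.1
      (hL x hx.1) (hL y hy.1) (hL' x hx.1).2 (by rw [h1]; exact (hL' y hy.1).2) h2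
  have hmain := Finset.card_le_mul_card_image_of_maps_to hmaps K hfib
  rw [Finset.card_product] at hmain
  have h2c : ({1, -1} : Finset (Fb p)).card ≤ 2 := Finset.card_le_two
  calc A.card ≤ K * (hfinS.toFinset.card * ({1, -1} : Finset (Fb p)).card) := hmain
    _ ≤ K * ((3 * 2 ^ d.primeFactors.card) * 2) :=
      Nat.mul_le_mul_left _ (Nat.mul_le_mul hcardS h2c)
    _ = 6 * 2 ^ d.primeFactors.card * K := by ring

end LT
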