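import Mathlib

/-!
# MP_f1937f_nt: reciprocity (piece REC)
-/

namespace LT

/-- Scaling of a pair of `p`-adic numbers. -/
theorem rec_scale {p : ℕ} [Fact p.Prime] (a b : ℚ_[p]) (h : a ≠ 0 ∨ b ≠ 0) :
    ∃ (v : ℤ) (a' b' : ℤ_[p]), a = (p : ℚ_[p]) ^ v * a' ∧ b = (p : ℚ_[p]) ^ v * b' ∧
      (‖a'‖ = 1 ∨ ‖b'‖ = 1) := by
  have hp : (p : ℚ_[p]) ≠ 0 := by exact_mod_cast (Fact.out : p.Prime).ne_zero
  have key : ∀ a b : ℚ_[p], a ≠ 0 → ‖b‖ ≤ ‖a‖ → ∃ (v : ℤ) (a' b' : ℤ_[p]),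
      a = (p : ℚ_[p]) ^ v * a' ∧ b = (p : ℚ_[p]) ^ v * b' ∧ ‖a'‖ = 1 := by
    intro a b ha hab
    have hna : ‖a‖ = (p : ℝ) ^ (-a.valuation) := Padic.norm_eq_zpow_neg_valuation ha
    have hpp : (0 : ℝ) < p := by exact_mod_cast (Fact.out : p.Prime).pos
    have h1 : ‖(p : ℚ_[p]) ^ (-a.valuation) * a‖ = 1 := by
      rw [norm_mul, hna, norm_zpow, Padic.norm_p, inv_zpow', neg_neg, ← zpow_add₀ hpp.ne']
      simp
    have h2 : ‖(p : ℚ_[p]) ^ (-a.valuation) * b‖ ≤ 1 := by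
      rw [← h1, norm_mul, norm_mul]
      exact mul_le_mul_of_nonneg_left hab (norm_nonneg _)
    refine ⟨a.valuation, ⟨_, h1.le⟩, ⟨_, h2⟩, ?_, ?_, h1⟩
    · change a = (p : ℚ_[p]) ^ a.valuation * ((p : ℚ_[p]) ^ (-a.valuation) * a)
      rw [← mul_assoc, ← zpow_add₀ hp]
      simp
    · change b = (p : ℚ_[p]) ^ a.valuation * ((p : ℚ_[p]) ^ (-a.valuation) * b)
      rw [← mul_assoc, ← zpow_add₀ hp]
      simp
  by_cases hab : ‖b‖ ≤ ‖a‖
  · have ha : a ≠ 0 := by
      rintro rfl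
      rw [norm_zero] at hab
      have := norm_le_zero_iff.1 hab
      tauto
    obtain ⟨v, a', b', h1, h2, h3⟩ := key a b ha hab
    exact ⟨v, a', b', h1, h2, Or.inl h3⟩
  · push Not at hab
    have hb : b ≠ 0 := by
      rintro rfl
      rw [norm_zero] at hab
      exact absurd hab (not_lt.2 (norm_nonneg _))
    obtain ⟨v, b', a', h1, h2, h3⟩ := key b a hb hab.le
    exact ⟨v, a', b', h2, h1, Or.inr h3⟩

/-- A `p`-adic integer is divisible by `p` if and only if it vanishes modulo `p`. -/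
theorem rec_dvd {p : ℕ} [Fact p.Prime] {a : ℤ_[p]} : PadicInt.toZMod a = 0 ↔ (p : ℤ_[p]) ∣ a := by
  have h1 : PadicInt.toZMod a = 0 ↔ a ∈ IsLocalRing.maximalIdeal ℤ_[p] := by
    rw [← PadicInt.ker_toZMod]
    exact Iff.rfl
  rw [h1, PadicInt.maximalIdeal_eq_span_p, Ideal.mem_span_singleton]

/-- A `p`-adic integer which is a unit does not vanish modulo `p`. -/
theorem rec_unit {p : ℕ} [Fact p.Prime] {a : ℤ_[p]} : ‖a‖ = 1 ↔ PadicInt.toZMod a ≠ 0 := by
  have h1 : PadicInt.toZMod a = 0 ↔ a ∈ IsLocalRing.maximalIdeal ℤ_[p] := by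
    rw [← PadicInt.ker_toZMod]
    exact Iff.rfl
  rw [Ne, h1, IsLocalRing.mem_maximalIdeal, mem_nonunits_iff, not_not, PadicInt.isUnit_iff]

/-- The valuation of a rational number from its norm. -/
theorem rec_val {p : ℕ} [Fact p.Prime] {N : ℚ} (hN : N ≠ 0) {w : ℤ}
    (h : ‖(N : ℚ_[p])‖ = (p : ℝ) ^ (-w)) : padicValRat p N = w := by
  have h1 : ((padicNorm p N : ℚ) : ℝ) = (p : ℝ) ^ (-w) := by
    rw [← h, Padic.eq_padicNorm]
  rw [padicNorm.eq_zpow_of_nonzero hN] at h1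
  push_cast at h1
  have hp : (1 : ℝ) < p := by exact_mod_cast (Fact.out : p.Prime).one_lt
  have h2 := zpow_right_injective₀ (by linarith) hp.ne' h1
  have h3 : -padicValRat p N = -w := h2
  linarith

/-- `-3` is not a square modulo `p`. -/
theorem rec_nsq {p : ℕ} [Fact p.Prime] (h3 : p % 3 = 2) (h2 : p ≠ 2) {x y : ZMod p}
    (h : x ^ 2 + 3 * y ^ 2 = 0) : x = 0 ∧ y = 0 := by
  have hp : p.Prime := Fact.out
  have h30 : (3 : ZMod p) ≠ 0 := by
    intro h0
    have : ((3 : ℕ) : ZMod p) = 0 := by exact_mod_cast h0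
    rw [ZMod.natCast_eq_zero_iff] at this
    have h4 := (Nat.prime_dvd_prime_iff_eq hp Nat.prime_three).1 this
    omega
  have h20 : (2 : ZMod p) ≠ 0 := by
    intro h0
    have : ((2 : ℕ) : ZMod p) = 0 := by exact_mod_cast h0
    rw [ZMod.natCast_eq_zero_iff] at this
    exact h2 ((Nat.prime_dvd_prime_iff_eq hp Nat.prime_two).1 this)
  by_cases hy : y = 0
  · subst hy
    refine ⟨?_, rfl⟩
    have : x ^ 2 = 0 := by linear_combination h
    exact pow_eq_zero_iff (two_ne_zero) |>.1 this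
  · exfalso
    have hx : (x / y) ^ 2 = -3 := by
      rw [div_pow, div_eq_iff (pow_ne_zero 2 hy)]
      linear_combination h
    set t : ZMod p := x / y with ht
    obtain ⟨w, hw⟩ : ∃ w : ZMod p, 2 * w = -1 + t := ⟨(-1 + t) / 2, by field_simp⟩
    have hw1 : w ^ 2 + w + 1 = 0 := by
      have h4 : (2 : ZMod p) ^ 2 * (w ^ 2 + w + 1) = 0 := by
        linear_combination (2 * w + 1 + t) * hw + hx
      rcases mul_eq_zero.1 h4 with h5 | h5
      · exact absurd h5 (pow_ne_zero 2 h20)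
      · exact h5
    have hw3 : w ^ 3 = 1 := by linear_combination (w - 1) * hw1
    have hw0 : w ≠ 0 := by
      rintro h0
      rw [h0] at hw1
      norm_num at hw1
    have hf := ZMod.pow_card_sub_one_eq_one hw0
    obtain ⟨k, hk⟩ : ∃ k, p - 1 = 3 * k + 1 := ⟨p / 3, by omega⟩
    rw [hk, pow_succ, pow_mul, hw3, one_pow, one_mul] at hf
    rw [hf] at hw1
    apply h30
    linear_combination hw1

theorem rec_two_aux (x : ZMod 2) : x ≠ 0 → x = 1 := by
  revert x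
  decide

/-- The case `p = 2`. -/
theorem rec_norm_two {a b : ℤ_[2]} (h : ‖a‖ = 1 ∨ ‖b‖ = 1) :
    ∃ e : ℕ, ‖a ^ 2 + 3 * b ^ 2‖ = (2 : ℝ) ^ (-(2 * (e : ℤ))) := by
  have hodd : ∀ x : ℤ_[2], PadicInt.toZMod x ≠ 0 → ∃ y, x = 1 + 2 * y := by
    intro x hx
    have h1 : PadicInt.toZMod (x - 1) = 0 := by
      rw [map_sub, map_one, rec_two_aux _ hx, sub_self]
    obtain ⟨y, hy⟩ := rec_dvd.1 h1
    exact ⟨y, by
      push_cast at hy
      linear_combination hy⟩
  by_cases ha : PadicInt.toZMod a = 0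
  · refine ⟨0, ?_⟩
    have hb : PadicInt.toZMod b ≠ 0 := by
      rcases h with h | h
      · exact absurd ha (rec_unit.1 h)
      · exact rec_unit.1 h
    simp only [Nat.cast_zero, mul_zero, neg_zero, zpow_zero]
    rw [rec_unit, map_add, map_pow, map_mul, map_pow, ha, rec_two_aux _ hb, map_ofNat]
    decide
  · by_cases hb : PadicInt.toZMod b = 0
    · refine ⟨0, ?_⟩
      simp only [Nat.cast_zero, mul_zero, neg_zero, zpow_zero]
      rw [rec_unit, map_add, map_pow, map_mul, map_pow, hb, rec_two_aux _ ha, map_ofNat]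
      decide
    · refine ⟨1, ?_⟩
      obtain ⟨x, hx⟩ := hodd a ha
      obtain ⟨y, hy⟩ := hodd b hb
      have h1 : a ^ 2 + 3 * b ^ 2 = (2 : ℤ_[2]) ^ 2 * (1 + (x + x ^ 2) + 3 * (y + y ^ 2)) := by
        rw [hx, hy]
        ring
      have h4 : ‖(1 + (x + x ^ 2) + 3 * (y + y ^ 2) : ℤ_[2])‖ = 1 := by
        rw [rec_unit]
        simp only [map_add, map_mul, map_pow, map_one, map_ofNat]
        generalize PadicInt.toZMod x = s
        generalize PadicInt.toZMod y = t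
        revert s t
        decide
      have h5 : ‖(2 : ℤ_[2])‖ = 2⁻¹ := by
        have := PadicInt.norm_p (p := 2)
        simpa using this
      rw [h1, norm_mul, h4, mul_one, norm_pow, h5]
      norm_num

/-- The norm of `a² + 3 b²`, if `a` or `b` is a unit. -/
theorem rec_norm {p : ℕ} [Fact p.Prime] (h3 : p % 3 = 2) {a b : ℤ_[p]} (h : ‖a‖ = 1 ∨ ‖b‖ = 1) :
    ∃ e : ℕ, ‖a ^ 2 + 3 * b ^ 2‖ = (p : ℝ) ^ (-(2 * (e : ℤ))) := by
  by_cases h2 : p = 2
  · subst h2
    exact_mod_cast rec_norm_two h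
  · refine ⟨0, ?_⟩
    simp only [Nat.cast_zero, mul_zero, neg_zero, zpow_zero]
    rw [rec_unit, map_add, map_pow, map_mul, map_pow, map_ofNat]
    intro h0
    obtain ⟨h4, h5⟩ := rec_nsq h3 h2 h0
    rcases h with h | h
    · exact rec_unit.1 h h4
    · exact rec_unit.1 h h5

/-- Norms from the unramified quadratic extension have even valuation. -/
theorem norm_even {p : ℕ} [Fact p.Prime] (h3 : p % 3 = 2) {N : ℚ} (hN : N ≠ 0) {a b : ℚ_[p]}
    (h : (N : ℚ_[p]) = a ^ 2 + 3 * b ^ 2) : Even (padicValRat p N) := by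
  have hab : a ≠ 0 ∨ b ≠ 0 := by
    by_contra hc
    push Not at hc
    rw [hc.1, hc.2] at h
    apply hN
    have : (N : ℚ_[p]) = 0 := by rw [h]; ring
    exact_mod_cast this
  obtain ⟨v, a', b', ha, hb, hu⟩ := rec_scale a b hab
  obtain ⟨e, he⟩ := rec_norm h3 hu
  have hpp : (0 : ℝ) < p := by exact_mod_cast (Fact.out : p.Prime).pos
  have hN2 : (N : ℚ_[p]) = (p : ℚ_[p]) ^ (2 * v) * ((a' ^ 2 + 3 * b' ^ 2 : ℤ_[p]) : ℚ_[p]) := by
    rw [h, ha, hb]
    have hp : (p : ℚ_[p]) ≠ 0 := by exact_mod_cast (Fact.out : p.Prime).ne_zero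
    have h33 : ((3 : ℤ_[p]) : ℚ_[p]) = 3 := rfl
    rw [two_mul v, zpow_add₀ hp]
    push_cast
    rw [h33]
    ring
  have h4 : ‖(N : ℚ_[p])‖ = (p : ℝ) ^ (-(2 * v + 2 * (e : ℤ))) := by
    rw [hN2, norm_mul, norm_zpow, Padic.norm_p, inv_zpow']
    have h5 : ‖((a' ^ 2 + 3 * b' ^ 2 : ℤ_[p]) : ℚ_[p])‖ = ‖a' ^ 2 + 3 * b' ^ 2‖ := rfl
    rw [h5, he, ← zpow_add₀ hpp.ne']
    congr 1
    ring
  rw [rec_val hN h4]
  exact ⟨v + e, by ring⟩

/-- A number all whose prime factors of odd multiplicity are `≠ 2` mod `3` is `1` mod `3`. -/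
theorem rec_nat {u : ℕ} (h3 : ¬ 3 ∣ u)
    (h : ∀ p : ℕ, p.Prime → p % 3 = 2 → Even (padicValNat p u)) : u % 3 = 1 := by
  have hu : u ≠ 0 := by
    rintro rfl
    exact h3 (dvd_zero 3)
  obtain ⟨t, s, hst, ht⟩ := Nat.sq_mul_squarefree u
  have hs0 : s ≠ 0 := by
    rintro rfl
    apply hu
    rw [← hst]
    ring
  have ht0 : t ≠ 0 := ht.ne_zero
  have hs3 : s % 3 = 1 ∨ s % 3 = 2 := by
    have : ¬ 3 ∣ s := fun hd => h3 (by rw [← hst]; exact Dvd.dvd.mul_right (dvd_pow hd two_ne_zero) _)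
    omega
  have ht1 : t % 3 = 1 := by
    have hprod : ∏ p ∈ t.primeFactors, p = t := Nat.prod_primeFactors_of_squarefree ht
    have hall : ∀ p ∈ t.primeFactors, p % 3 = 1 := by
      intro p hp
      have hpp := Nat.prime_of_mem_primeFactors hp
      have hpt := Nat.dvd_of_mem_primeFactors hp
      have : Fact p.Prime := ⟨hpp⟩
      have hv1 : padicValNat p t = 1 := by
        have h1 : t.factorization p ≤ 1 := (Nat.squarefree_iff_factorization_le_one ht0).1 ht p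
        have h2 : 0 < t.factorization p := hpp.factorization_pos_of_dvd ht0 hpt
        rw [← Nat.factorization_def t hpp]
        omega
      have hvu : padicValNat p u = 2 * padicValNat p s + 1 := by
        rw [← hst, padicValNat.mul (pow_ne_zero 2 hs0) ht0, padicValNat.pow, hv1]
      have hne2 : p % 3 ≠ 2 := by
        intro h4
        have h5 := h p hpp h4
        rw [hvu] at h5
        rcases h5 with ⟨r, hr⟩
        omega
      have hne3 : p ≠ 3 := by
        rintro rfl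
        exact h3 (by rw [← hst]; exact Dvd.dvd.mul_left hpt _)
      have hne0 : p % 3 ≠ 0 := by
        intro h0
        have := (Nat.prime_dvd_prime_iff_eq Nat.prime_three hpp).1 (Nat.dvd_of_mod_eq_zero h0)
        exact hne3 this.symm
      omega
    rw [← hprod, Finset.prod_nat_mod, Finset.prod_congr rfl hall]
    simp
  have hs1 : s ^ 2 % 3 = 1 := by
    rcases hs3 with h4 | h4 <;> simp [Nat.pow_mod, h4]
  rw [← hst, Nat.mul_mod, hs1, ht1]

/-- A negative rational number which is a norm at `3` has odd valuation at some prime `p = 2 mod 3`. -/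
theorem rec_three {N : ℚ} (hN : N < 0) {a b : ℚ_[3]} (h : (N : ℚ_[3]) = a ^ 2 + 3 * b ^ 2) :
    ∃ p : ℕ, p.Prime ∧ p % 3 = 2 ∧ Odd (padicValRat p N) := by
  by_contra hcon
  push Not at hcon
  -- the natural number `m = |num| den`
  set m : ℕ := N.num.natAbs * N.den with hm
  have hN0 : N ≠ 0 := hN.ne
  have hnum : N.num < 0 := Rat.num_neg.2 hN
  have hm0 : m ≠ 0 := Nat.mul_ne_zero (Int.natAbs_ne_zero.2 hnum.ne) N.den_nz
  have hmN : (N : ℚ) * (N.den : ℚ) ^ 2 = -(m : ℚ) := by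
    have h1 : (N : ℚ) * N.den = N.num := Rat.mul_den_eq_num N
    have h2 : ((N.num.natAbs : ℕ) : ℚ) = -(N.num : ℚ) := by
      have h0 : ((N.num.natAbs : ℕ) : ℤ) = -N.num := by omega
      have h00 := congrArg (fun z : ℤ => (z : ℚ)) h0
      simpa using h00
    rw [hm]
    push_cast
    rw [h2, pow_two, ← mul_assoc, h1]
    ring
  have hval : ∀ p : ℕ, p.Prime → p % 3 = 2 → Even (padicValNat p m) := by
    intro p hp h3
    have : Fact p.Prime := ⟨hp⟩
    have h4 := hcon p hp h3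
    rw [Int.not_odd_iff_even] at h4
    rw [padicValRat_def, padicValInt.eq_1] at h4
    have h5 : padicValNat p m = padicValNat p N.num.natAbs + padicValNat p N.den := by
      rw [hm, padicValNat.mul (Int.natAbs_ne_zero.2 hnum.ne) N.den_nz]
    rw [h5]
    rcases h4 with ⟨r, hr⟩
    generalize padicValNat p N.num.natAbs = x at hr ⊢
    generalize padicValNat p N.den = y at hr ⊢
    rw [even_iff_two_dvd]
    omega
  -- split off the power of `3`
  obtain ⟨v, u, hu3, hmu⟩ := Nat.exists_eq_pow_mul_and_not_dvd hm0 3 (by norm_num)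
  have hu0 : u ≠ 0 := by
    rintro rfl
    exact hu3 (dvd_zero 3)
  have hu1 : u % 3 = 1 := by
    apply rec_nat hu3
    intro p hp h3
    have : Fact p.Prime := ⟨hp⟩
    have h4 := hval p hp h3
    have h5 : padicValNat p m = padicValNat p u := by
      rw [hmu, padicValNat.mul (by positivity) hu0]
      have : padicValNat p (3 ^ v) = 0 := by
        rw [padicValNat.pow, padicValNat.eq_zero_of_not_dvd, mul_zero]
        intro hd
        have := (Nat.prime_dvd_prime_iff_eq hp Nat.prime_three).1 hd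
        omega
      omega
    rwa [h5] at h4
  -- the `3`-adic equation
  have hab : a ≠ 0 ∨ b ≠ 0 := by
    by_contra hc
    push Not at hc
    rw [hc.1, hc.2] at h
    apply hN0
    have : (N : ℚ_[3]) = 0 := by rw [h]; ring
    exact_mod_cast this
  have hden : ((N.den : ℕ) : ℚ_[3]) ≠ 0 := by exact_mod_cast N.den_nz
  have heq : (a * N.den) ^ 2 + 3 * (b * N.den) ^ 2 = -((3 : ℚ_[3]) ^ v * u) := by
    have h1 : ((N : ℚ_[3])) * (N.den : ℚ_[3]) ^ 2 = -(m : ℚ_[3]) := by exact_mod_cast congrArg (fun x : ℚ => (x : ℚ_[3])) hmN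
    rw [h] at h1
    rw [hmu] at h1
    push_cast at h1
    linear_combination h1
  obtain ⟨w, a', b', ha, hb, hu'⟩ := rec_scale (a * (N.den : ℚ_[3])) (b * (N.den : ℚ_[3]))
    (by rcases hab with h4 | h4
        · exact Or.inl (mul_ne_zero h4 hden)
        · exact Or.inr (mul_ne_zero h4 hden))
  have h30 : (3 : ℚ_[3]) ≠ 0 := by norm_num
  have h333 : ((3 : ℤ_[3]) : ℚ_[3]) = 3 := rfl
  have heq2 : (((a' ^ 2 + 3 * b' ^ 2 : ℤ_[3])) : ℚ_[3]) = -((3 : ℚ_[3]) ^ ((v : ℤ) - 2 * w) * u) := by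
    rw [ha, hb] at heq
    have h5 : (3 : ℚ_[3]) ^ (2 * w) * ((a' : ℚ_[3]) ^ 2 + 3 * (b' : ℚ_[3]) ^ 2) =
        -((3 : ℚ_[3]) ^ v * u) := by
      rw [two_mul, zpow_add₀ h30]
      push_cast at heq
      linear_combination heq
    push_cast
    rw [zpow_sub₀ h30, zpow_natCast, h333]
    have h6 : (3 : ℚ_[3]) ^ (2 * w) ≠ 0 := zpow_ne_zero _ h30
    field_simp
    linear_combination h5
  have hnu : ‖(u : ℤ_[3])‖ = 1 := by
    rw [rec_unit, map_natCast]
    intro h0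
    rw [ZMod.natCast_eq_zero_iff] at h0
    exact hu3 h0
  have huz : ((u : ℕ) : ZMod 3) = 1 := by
    have : ((u : ℕ) : ZMod 3) = ((1 : ℕ) : ZMod 3) := by
      rw [ZMod.natCast_eq_natCast_iff]
      exact hu1
    simpa using this
  have hsq : ∀ x : ZMod 3, x ≠ 0 → x ^ 2 = 1 := by decide
  have hnorm3 : ‖(3 : ℚ_[3])‖ = 3⁻¹ := by
    have := Padic.norm_p (p := 3)
    simpa using this
  have hnorm : ‖a' ^ 2 + 3 * b' ^ 2‖ = (3 : ℝ) ^ (2 * w - v) := by
    have h7 : ‖a' ^ 2 + 3 * b' ^ 2‖ = ‖(((a' ^ 2 + 3 * b' ^ 2 : ℤ_[3])) : ℚ_[3])‖ := rfl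
    rw [h7, heq2, norm_neg, norm_mul, norm_zpow, hnorm3, inv_zpow']
    have h8 : ‖((u : ℕ) : ℚ_[3])‖ = ‖((u : ℕ) : ℤ_[3])‖ := by
      rw [PadicInt.norm_def]
      simp
    rw [h8, hnu, mul_one]
    congr 1
    ring
  by_cases hau : ‖a'‖ = 1
  · have ha1 : PadicInt.toZMod (a' ^ 2 + 3 * b' ^ 2) = 1 := by
      rw [map_add, map_pow, map_mul, map_ofNat, hsq _ (rec_unit.1 hau)]
      have : (3 : ZMod 3) = 0 := by decide
      rw [this]
      ring
    have hn1 : ‖a' ^ 2 + 3 * b' ^ 2‖ = 1 := by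
      rw [rec_unit, ha1]
      decide
    rw [hn1] at hnorm
    have hw : 2 * w - (v : ℤ) = 0 := by
      have h9 : (3 : ℝ) ^ (2 * w - (v : ℤ)) = (3 : ℝ) ^ (0 : ℤ) := by rw [← hnorm, zpow_zero]
      exact zpow_right_injective₀ (by norm_num) (by norm_num) h9
    have h10 : a' ^ 2 + 3 * b' ^ 2 = -(u : ℤ_[3]) := by
      have h11 : (((a' ^ 2 + 3 * b' ^ 2 : ℤ_[3])) : ℚ_[3]) = ((-(u : ℤ_[3]) : ℤ_[3]) : ℚ_[3]) := by
        rw [heq2]
        have : (v : ℤ) - 2 * w = 0 := by omega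
        rw [this]
        push_cast
        ring
      exact Subtype.ext h11
    rw [h10, map_neg, map_natCast, huz] at ha1
    revert ha1
    decide
  · have hbu : ‖b'‖ = 1 := by tauto
    have ha0 : PadicInt.toZMod a' = 0 := by
      by_contra hc
      exact hau (rec_unit.2 hc)
    obtain ⟨x, hx⟩ := rec_dvd.1 ha0
    push_cast at hx
    have hfac : a' ^ 2 + 3 * b' ^ 2 = 3 * (3 * x ^ 2 + b' ^ 2) := by
      rw [hx]
      ring
    have hc1 : PadicInt.toZMod (3 * x ^ 2 + b' ^ 2) = 1 := by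
      rw [map_add, map_pow, map_mul, map_ofNat, hsq _ (rec_unit.1 hbu)]
      have : (3 : ZMod 3) = 0 := by decide
      rw [this]
      ring
    have hn1 : ‖3 * x ^ 2 + b' ^ 2‖ = 1 := by
      rw [rec_unit, hc1]
      decide
    have hnorm3' : ‖(3 : ℤ_[3])‖ = 3⁻¹ := by
      have := PadicInt.norm_p (p := 3)
      simpa using this
    rw [hfac, norm_mul, hn1, mul_one, hnorm3'] at hnorm
    have hw : 2 * w - (v : ℤ) = -1 := by
      have h9 : (3 : ℝ) ^ (2 * w - (v : ℤ)) = (3 : ℝ) ^ (-1 : ℤ) := by rw [← hnorm, zpow_neg_one]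
      exact zpow_right_injective₀ (by norm_num) (by norm_num) h9
    have h10 : 3 * x ^ 2 + b' ^ 2 = -(u : ℤ_[3]) := by
      have h11 : (((3 * x ^ 2 + b' ^ 2 : ℤ_[3])) : ℚ_[3]) = ((-(u : ℤ_[3]) : ℤ_[3]) : ℚ_[3]) := by
        rw [hfac] at heq2
        have h12 : (v : ℤ) - 2 * w = 1 := by omega
        rw [h12, zpow_one] at heq2
        have h33 : ((3 : ℤ_[3]) : ℚ_[3]) = 3 := rfl
        push_cast at heq2 ⊢
        rw [h33] at heq2 ⊢
        have h13 : (3 : ℚ_[3]) * (3 * (x : ℚ_[3]) ^ 2 + (b' : ℚ_[3]) ^ 2) = 3 * (-(u : ℚ_[3])) := by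
          linear_combination heq2
        exact mul_left_cancel₀ h30 h13
      exact Subtype.ext h11
    rw [h10, map_neg, map_natCast, huz] at hc1
    revert hc1
    decide

end LT
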