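import Mathlib

/-!
# MP_f1937f_nt: the algebraic closure of `ℚ_p` embeds in `ℂ` (piece VEMB)
-/

namespace LT

open Cardinal

theorem mk_padic_le (p : ℕ) [Fact p.Prime] : #ℚ_[p] ≤ 𝔠 := by
  have h1 : #ℚ_[p] ≤ #(CauSeq ℚ (padicNorm p)) := mk_quotient_le
  have h2 : #(CauSeq ℚ (padicNorm p)) ≤ #(ℕ → ℚ) := mk_subtype_le _
  have h3 : #(ℕ → ℚ) = 𝔠 := by simp
  exact (h1.trans h2).trans h3.le

theorem mk_padicAlgCl (p : ℕ) [Fact p.Prime] : #(PadicAlgCl p) = 𝔠 := by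
  apply le_antisymm
  · have h := Algebra.IsAlgebraic.cardinalMk_le_max ℚ_[p] (PadicAlgCl p)
    exact h.trans (max_le (mk_padic_le p) aleph0_le_continuum)
  · have h1 : 𝔠 ≤ #ℚ_[p] := continuum_le_cardinal_of_nontriviallyNormedField ℚ_[p]
    have h2 : #ℚ_[p] ≤ #(PadicAlgCl p) :=
      mk_le_of_injective (algebraMap ℚ_[p] (PadicAlgCl p)).injective
    exact h1.trans h2

/-- Both fields are algebraically closed of characteristic `0` and of cardinality the continuum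
(`Algebra.IsAlgebraic.cardinalMk_le_max`, `IsAlgClosed.ringEquivOfCardinalEqOfCharZero` or a
transcendence basis). -/
theorem embed_padic (p : ℕ) [Fact p.Prime] : Nonempty (PadicAlgCl p →+* ℂ) := by
  have h : #(PadicAlgCl p) = #ℂ := by rw [mk_padicAlgCl, mk_complex]
  have hu : ℵ₀ < #(PadicAlgCl p) := by rw [mk_padicAlgCl]; exact aleph0_lt_continuum
  obtain ⟨e⟩ := IsAlgClosed.ringEquiv_of_equiv_of_charZero (K := PadicAlgCl p) (L := ℂ)
    hu (Cardinal.eq.1 h)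
  exact ⟨e.toRingHom⟩

end LT
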