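import Pool.Agent.Lib_MP_f1937f_nt.VelE
import Pool.Agent.Lib_MP_f1937f_nt.VEmb

/-!
# MP_f1937f_nt: Velu's formulas in characteristic 0 (layer VEL): collects `velu_C` (VelB), `chain_char0`
(VelE) and `embed_padic` (VEmb).
-/
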