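import Pool.Agent.Lib_MP_f1937f_nt.SizeE
import Pool.Agent.Lib_MP_f1937f_nt.Vel

/-!
# MP_f1937f_nt: the size of the prime (layer SIZ)
-/

namespace LT

open Polynomial WeierstrassCurve

/-! ### the size over `ℂ` -/

theorem vA_le {C : ℝ} (hC0 : 0 < C)
    (hC : ∀ n : ℕ, 0 < n → ∀ P : Pt (0 : ℂ) (-31 / 4), n • P = 0 → ‖xc P‖ ≤ C * (n : ℝ) ^ 2)
    {n : ℕ} (hn : 0 < n) {L : AddSubgroup (Pt (0 : ℂ) (-31 / 4))}
    (hL : L ∈ CycL (0 : ℂ) (-31 / 4) n) : ‖vA 0 (-31 / 4) L‖ ≤ 15 * C ^ 2 * (n : ℝ) ^ 5 := by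
  obtain ⟨hf, hcard, hP⟩ := cycL_mem hn hL
  rw [vA_sum hf, zero_sub, norm_neg, norm_mul]
  have h1 : ‖∑ P ∈ (nz_finite hf).toFinset, (3 * xc P ^ 2 + 0 : ℂ)‖ ≤
      ∑ P ∈ (nz_finite hf).toFinset, 3 * (C * (n : ℝ) ^ 2) ^ 2 := by
    refine (norm_sum_le _ _).trans (Finset.sum_le_sum fun P hPm => ?_)
    rw [Set.Finite.mem_toFinset] at hPm
    have h2 := hC n hn P (hP P hPm.1)
    rw [add_zero, norm_mul, norm_pow]
    have h3 : ‖(3 : ℂ)‖ = 3 := by simp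
    rw [h3]
    gcongr
  rw [Finset.sum_const, nsmul_eq_mul] at h1
  have h4 : ((nz_finite hf).toFinset.card : ℝ) ≤ n := by
    have := nz_card hf
    rw [hcard] at this
    exact_mod_cast this
  have h5 : ‖(5 : ℂ)‖ = 5 := by simp
  rw [h5]
  calc 5 * ‖∑ P ∈ (nz_finite hf).toFinset, (3 * xc P ^ 2 + 0 : ℂ)‖
      ≤ 5 * (((nz_finite hf).toFinset.card : ℝ) * (3 * (C * (n : ℝ) ^ 2) ^ 2)) := by gcongr
    _ ≤ 5 * ((n : ℝ) * (3 * (C * (n : ℝ) ^ 2) ^ 2)) := by gcongr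
    _ = 15 * C ^ 2 * (n : ℝ) ^ 5 := by ring

theorem vB_le {C : ℝ} (hC0 : 0 < C)
    (hC : ∀ n : ℕ, 0 < n → ∀ P : Pt (0 : ℂ) (-31 / 4), n • P = 0 → ‖xc P‖ ≤ C * (n : ℝ) ^ 2)
    {n : ℕ} (hn : 0 < n) {L : AddSubgroup (Pt (0 : ℂ) (-31 / 4))}
    (hL : L ∈ CycL (0 : ℂ) (-31 / 4) n) :
    ‖vB 0 (-31 / 4) L‖ ≤ (35 * C ^ 3 + 200) * (n : ℝ) ^ 7 := by
  obtain ⟨hf, hcard, hP⟩ := cycL_mem hn hL
  have hn1 : (1 : ℝ) ≤ n := by exact_mod_cast hn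
  rw [vB_sum hf]
  have h1 : ‖∑ P ∈ (nz_finite hf).toFinset, (5 * xc P ^ 3 + 3 * 0 * xc P + 2 * (-31 / 4) : ℂ)‖ ≤
      ∑ P ∈ (nz_finite hf).toFinset, (5 * (C * (n : ℝ) ^ 2) ^ 3 + 16) := by
    refine (norm_sum_le _ _).trans (Finset.sum_le_sum fun P hPm => ?_)
    rw [Set.Finite.mem_toFinset] at hPm
    have h2 := hC n hn P (hP P hPm.1)
    have e : (5 * xc P ^ 3 + 3 * 0 * xc P + 2 * (-31 / 4) : ℂ) = 5 * xc P ^ 3 + (-31 / 2) := by ring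
    rw [e]
    refine (norm_add_le _ _).trans (add_le_add ?_ ?_)
    · rw [norm_mul, norm_pow]
      have h3 : ‖(5 : ℂ)‖ = 5 := by simp
      rw [h3]
      gcongr
    · have : ‖(-31 / 2 : ℂ)‖ = 31 / 2 := by simp
      rw [this]
      norm_num
  rw [Finset.sum_const, nsmul_eq_mul] at h1
  have h4 : ((nz_finite hf).toFinset.card : ℝ) ≤ n := by
    have := nz_card hf
    rw [hcard] at this
    exact_mod_cast this
  have h7 : ‖(7 : ℂ)‖ = 7 := by simp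
  have h8 : ‖(-31 / 4 : ℂ)‖ = 31 / 4 := by simp
  calc ‖(-31 / 4 : ℂ) - 7 * ∑ P ∈ (nz_finite hf).toFinset,
        (5 * xc P ^ 3 + 3 * 0 * xc P + 2 * (-31 / 4) : ℂ)‖
      ≤ 31 / 4 + 7 * (((nz_finite hf).toFinset.card : ℝ) * (5 * (C * (n : ℝ) ^ 2) ^ 3 + 16)) := by
        refine (norm_sub_le _ _).trans ?_
        rw [h8, norm_mul, h7]
        gcongr
    _ ≤ 31 / 4 + 7 * ((n : ℝ) * (5 * (C * (n : ℝ) ^ 2) ^ 3 + 16)) := by gcongr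
    _ = 35 * C ^ 3 * (n : ℝ) ^ 7 + (31 / 4 + 112 * (n : ℝ)) := by ring
    _ ≤ 35 * C ^ 3 * (n : ℝ) ^ 7 + 200 * (n : ℝ) ^ 7 := by
        have h9 : (n : ℝ) ≤ (n : ℝ) ^ 7 := by
          calc (n : ℝ) = (n : ℝ) ^ 1 := (pow_one _).symm
            _ ≤ (n : ℝ) ^ 7 := pow_le_pow_right₀ hn1 (by norm_num)
        have h10 : (1 : ℝ) ≤ (n : ℝ) ^ 7 := one_le_pow₀ hn1
        gcongr
        linarith
    _ = (35 * C ^ 3 + 200) * (n : ℝ) ^ 7 := by ring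

theorem zF_le (u w : ℤ) : ∃ K : ℝ, 1 ≤ K ∧ ∀ n : ℕ, 0 < n → ∀ L ∈ CycL (0 : ℂ) (-31 / 4) n,
    ‖zF u w n ℂ L‖ ≤ K * (n : ℝ) ^ 27 := by
  obtain ⟨C, hC0, hC⟩ := arch_x
  refine ⟨4096 * (|(u : ℝ)| * (4 * (15 * C ^ 2) ^ 3 + 27 * (35 * C ^ 3 + 200) ^ 2) +
    |(w : ℝ)| * 6912 * (15 * C ^ 2) ^ 3) + 1, ?_, fun n hn L hL => ?_⟩
  · have : 0 ≤ 4096 * (|(u : ℝ)| * (4 * (15 * C ^ 2) ^ 3 + 27 * (35 * C ^ 3 + 200) ^ 2) +
      |(w : ℝ)| * 6912 * (15 * C ^ 2) ^ 3) := by positivity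
    linarith
  have hn1 : (1 : ℝ) ≤ n := by exact_mod_cast hn
  have hA := vA_le hC0 hC hn hL
  have hB := vB_le hC0 hC hn hL
  have hu : ‖(u : ℂ)‖ = |(u : ℝ)| := by
    rw [Complex.norm_intCast]
  have hw : ‖(w : ℂ)‖ = |(w : ℝ)| := by
    rw [Complex.norm_intCast]
  have hD : ‖(4 * (n : ℂ) ^ 2) ^ 6‖ = 4096 * (n : ℝ) ^ 12 := by
    rw [norm_pow, norm_mul, norm_pow, Complex.norm_natCast]
    have : ‖(4 : ℂ)‖ = 4 := by simp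
    rw [this]
    ring
  have hd : ‖dsc (vA 0 (-31 / 4) L) (vB 0 (-31 / 4) L)‖ ≤
      4 * (15 * C ^ 2 * (n : ℝ) ^ 5) ^ 3 + 27 * ((35 * C ^ 3 + 200) * (n : ℝ) ^ 7) ^ 2 := by
    rw [dsc]
    refine (norm_add_le _ _).trans (add_le_add ?_ ?_)
    · rw [norm_mul, norm_pow]
      have : ‖(4 : ℂ)‖ = 4 := by simp
      rw [this]
      gcongr
    · rw [norm_mul, norm_pow]
      have : ‖(27 : ℂ)‖ = 27 := by simp
      rw [this]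
      gcongr
  rw [zF, norm_mul, hD]
  have h1 : ‖(u : ℂ) * dsc (vA 0 (-31 / 4) L) (vB 0 (-31 / 4) L) -
      (w : ℂ) * 6912 * vA 0 (-31 / 4) L ^ 3‖ ≤
      |(u : ℝ)| * (4 * (15 * C ^ 2 * (n : ℝ) ^ 5) ^ 3 +
        27 * ((35 * C ^ 3 + 200) * (n : ℝ) ^ 7) ^ 2) +
      |(w : ℝ)| * 6912 * (15 * C ^ 2 * (n : ℝ) ^ 5) ^ 3 := by
    refine (norm_sub_le _ _).trans (add_le_add ?_ ?_)
    · rw [norm_mul, hu]
      gcongr
    · rw [norm_mul, norm_mul, norm_pow, hw]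
      have : ‖(6912 : ℂ)‖ = 6912 := by simp
      rw [this]
      gcongr
  have h15 : (n : ℝ) ^ 14 ≤ (n : ℝ) ^ 15 := pow_le_pow_right₀ hn1 (by norm_num)
  calc 4096 * (n : ℝ) ^ 12 * ‖(u : ℂ) * dsc (vA 0 (-31 / 4) L) (vB 0 (-31 / 4) L) -
      (w : ℂ) * 6912 * vA 0 (-31 / 4) L ^ 3‖
      ≤ 4096 * (n : ℝ) ^ 12 * (|(u : ℝ)| * (4 * (15 * C ^ 2 * (n : ℝ) ^ 5) ^ 3 +
        27 * ((35 * C ^ 3 + 200) * (n : ℝ) ^ 7) ^ 2) +
      |(w : ℝ)| * 6912 * (15 * C ^ 2 * (n : ℝ) ^ 5) ^ 3) := by gcongr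
    _ = 4096 * (n : ℝ) ^ 12 * (|(u : ℝ)| * (4 * (15 * C ^ 2) ^ 3 * (n : ℝ) ^ 15 +
        27 * (35 * C ^ 3 + 200) ^ 2 * (n : ℝ) ^ 14) +
      |(w : ℝ)| * 6912 * (15 * C ^ 2) ^ 3 * (n : ℝ) ^ 15) := by ring
    _ ≤ 4096 * (n : ℝ) ^ 12 * (|(u : ℝ)| * (4 * (15 * C ^ 2) ^ 3 * (n : ℝ) ^ 15 +
        27 * (35 * C ^ 3 + 200) ^ 2 * (n : ℝ) ^ 15) +
      |(w : ℝ)| * 6912 * (15 * C ^ 2) ^ 3 * (n : ℝ) ^ 15) := by gcongr
    _ = 4096 * (|(u : ℝ)| * (4 * (15 * C ^ 2) ^ 3 + 27 * (35 * C ^ 3 + 200) ^ 2) +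
      |(w : ℝ)| * 6912 * (15 * C ^ 2) ^ 3) * (n : ℝ) ^ 27 := by ring
    _ ≤ _ := by
      have : (0 : ℝ) ≤ (n : ℝ) ^ 27 := by positivity
      gcongr
      linarith

/-- The size of `Z`. -/
theorem z_le {u w : ℤ} {K : ℝ} (hK : 1 ≤ K)
    (h : ∀ n : ℕ, 0 < n → ∀ L ∈ CycL (0 : ℂ) (-31 / 4) n, ‖zF u w n ℂ L‖ ≤ K * (n : ℝ) ^ 27)
    {n : ℕ} (hn : 0 < n) {Z : ℤ}
    (hZ : ∏ᶠ L ∈ CycL (0 : ℂ) (-31 / 4) n, zF u w n ℂ L = (Z : ℂ)) :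
    |(Z : ℝ)| ≤ (K * (n : ℝ) ^ 27) ^ n ^ 2 := by
  have hn1 : (1 : ℝ) ≤ n := by exact_mod_cast hn
  obtain ⟨hfin, hcard⟩ := cycL_finite (Ω := ℂ) hn
  have hK1 : 1 ≤ K * (n : ℝ) ^ 27 := one_le_mul_of_one_le_of_one_le hK (one_le_pow₀ hn1)
  have h1 : ‖(Z : ℂ)‖ = |(Z : ℝ)| := by rw [Complex.norm_intCast]
  rw [← h1, ← hZ, finprod_mem_eq_finite_toFinset_prod _ hfin, norm_prod]
  calc ∏ L ∈ hfin.toFinset, ‖zF u w n ℂ L‖ ≤ ∏ _L ∈ hfin.toFinset, (K * (n : ℝ) ^ 27) := by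
        refine Finset.prod_le_prod (fun _ _ => norm_nonneg _) fun L hL => ?_
        rw [Set.Finite.mem_toFinset] at hL
        exact h n hn L hL
    _ = (K * (n : ℝ) ^ 27) ^ hfin.toFinset.card := by rw [Finset.prod_const]
    _ ≤ (K * (n : ℝ) ^ 27) ^ n ^ 2 := by
        refine pow_le_pow_right₀ hK1 ?_
        rwa [← Set.ncard_eq_toFinset_card _ hfin]

/-! ### the prime divides `Z` -/

section prime

variable (p : ℕ) [Fact p.Prime]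

theorem dsc_ne_zero {n : ℕ} (hn : 0 < n) {L : AddSubgroup (Pt (0 : PadicAlgCl p) (-31 / 4))}
    (hL : L ∈ CycL (0 : PadicAlgCl p) (-31 / 4) n) :
    dsc (vA 0 (-31 / 4) L) (vB 0 (-31 / 4) L) ≠ 0 := by
  obtain ⟨ι⟩ := embed_padic p
  exact (chain_char0 ι (le_refl L) (cycL_mem hn hL).1).1.1

theorem zF_eq {u w : ℤ} (hw : w ≠ 0) {n : ℕ} (hn : 0 < n)
    {L : AddSubgroup (Pt (0 : PadicAlgCl p) (-31 / 4))}
    (hL : L ∈ CycL (0 : PadicAlgCl p) (-31 / 4) n) :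
    zF u w n (PadicAlgCl p) L = (((u : PadicAlgCl p) / w) - jL 0 (-31 / 4) L) *
      ((w : PadicAlgCl p) * ((4 * (n : PadicAlgCl p) ^ 2) ^ 6 *
        dsc (vA 0 (-31 / 4) L) (vB 0 (-31 / 4) L))) := by
  have hd := dsc_ne_zero p hn hL
  have hw' : (w : PadicAlgCl p) ≠ 0 := by exact_mod_cast hw
  rw [zF, jL, jinv]
  field_simp

theorem dvd_Z {u w : ℤ} (hw : w ≠ 0) {n : ℕ} (hn : 0 < n) {N : ℚ} (hN0 : N ≠ 0)
    (hN : NN (PadicAlgCl p) ((u : PadicAlgCl p) / w) n = (N : PadicAlgCl p))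
    (hv : 0 < padicValRat p N) {Z : ℤ}
    (hZ : ∏ᶠ L ∈ CycL (0 : PadicAlgCl p) (-31 / 4) n, zF u w n (PadicAlgCl p) L =
      (Z : PadicAlgCl p)) : Z ≠ 0 ∧ (p : ℤ) ∣ Z := by
  have hfin := (cycL_finite (Ω := PadicAlgCl p) hn).1
  have hw' : (w : PadicAlgCl p) ≠ 0 := by exact_mod_cast hw
  have hn' : (n : PadicAlgCl p) ≠ 0 := by exact_mod_cast hn.ne'
  have h1 : (Z : PadicAlgCl p) = (N : PadicAlgCl p) * ∏ L ∈ hfin.toFinset,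
      ((w : PadicAlgCl p) * ((4 * (n : PadicAlgCl p) ^ 2) ^ 6 *
        dsc (vA 0 (-31 / 4) L) (vB 0 (-31 / 4) L))) := by
    rw [← hZ, ← hN, NN, finprod_mem_eq_finite_toFinset_prod _ hfin,
      finprod_mem_eq_finite_toFinset_prod _ hfin, ← Finset.prod_mul_distrib]
    refine Finset.prod_congr rfl fun L hL => ?_
    rw [Set.Finite.mem_toFinset] at hL
    exact zF_eq p hw hn hL
  have h2 : ∏ L ∈ hfin.toFinset, ((w : PadicAlgCl p) * ((4 * (n : PadicAlgCl p) ^ 2) ^ 6 *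
        dsc (vA 0 (-31 / 4) L) (vB 0 (-31 / 4) L))) ≠ 0 := by
    refine Finset.prod_ne_zero_iff.mpr fun L hL => ?_
    rw [Set.Finite.mem_toFinset] at hL
    have hd := dsc_ne_zero p hn hL
    have h4 : (4 : PadicAlgCl p) ≠ 0 := by norm_num
    exact mul_ne_zero hw' (mul_ne_zero (pow_ne_zero 6 (mul_ne_zero h4 (pow_ne_zero 2 hn'))) hd)
  have h3 : ∏ L ∈ hfin.toFinset, ((w : PadicAlgCl p) * ((4 * (n : PadicAlgCl p) ^ 2) ^ 6 *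
        dsc (vA 0 (-31 / 4) L) (vB 0 (-31 / 4) L))) ∈ OP p := by
    refine prod_mem fun L hL => ?_
    rw [Set.Finite.mem_toFinset] at hL
    exact mul_mem (intCast_mem (OP p) w) (dsc_OP p hn hL)
  have hNc : (N : PadicAlgCl p) ≠ 0 := by exact_mod_cast hN0
  constructor
  · rintro rfl
    rw [Int.cast_zero] at h1
    exact mul_ne_zero hNc h2 h1.symm
  · rw [← padicNorm.int_lt_one_iff]
    have h5 : ‖((Z : ℚ) : PadicAlgCl p)‖ < 1 := by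
      have e : ((Z : ℚ) : PadicAlgCl p) = (Z : PadicAlgCl p) := by push_cast; rfl
      rw [e, h1, norm_mul]
      have h6 : ‖(N : PadicAlgCl p)‖ < 1 := by
        rw [norm_rat_alg, padicNorm.eq_zpow_of_nonzero hN0]
        push_cast
        rw [zpow_neg]
        apply inv_lt_one_of_one_lt₀
        exact one_lt_zpow₀ (by exact_mod_cast (Fact.out : p.Prime).one_lt) hv
      rw [mem_OP] at h3
      calc ‖(N : PadicAlgCl p)‖ * _ ≤ ‖(N : PadicAlgCl p)‖ * 1 := by gcongr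
        _ < 1 := by rwa [mul_one]
    rw [norm_rat_alg] at h5
    exact_mod_cast h5

end prime

theorem size_bound (j : ℚ) : ∃ C : ℝ, 0 < C ∧ ∀ (p : ℕ) [Fact p.Prime] (n : ℕ), 0 < n → 5 ≤ p →
    ¬ p ∣ n → 0 ≤ padicValRat p j → ∀ N : ℚ, N ≠ 0 →
    NN (PadicAlgCl p) (j : PadicAlgCl p) n = (N : PadicAlgCl p) → 0 < padicValRat p N →
    Real.log p ≤ C * (n : ℝ) ^ 3 := by
  obtain ⟨K, hK, hle⟩ := zF_le j.num j.den
  refine ⟨Real.log K + 27, by have := Real.log_nonneg hK; linarith, ?_⟩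
  intro p _ n hn _ _ _ N hN0 hN hv
  obtain ⟨Z, hZ⟩ := z_exists j.num j.den hn
  have hw : (j.den : ℤ) ≠ 0 := by exact_mod_cast j.den_nz
  have hj : (j : PadicAlgCl p) = ((j.num : ℤ) : PadicAlgCl p) / ((j.den : ℤ) : PadicAlgCl p) := by
    conv_lhs => rw [← Rat.num_div_den j]
    push_cast
    rfl
  rw [hj] at hN
  obtain ⟨hZ0, hdvd⟩ := dvd_Z p hw hn hN0 hN hv (hZ (PadicAlgCl p))
  have hb := z_le hK hle hn (hZ ℂ)
  have hpZ : (p : ℝ) ≤ |(Z : ℝ)| := by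
    have h1 := Int.le_of_dvd (abs_pos.mpr hZ0) ((dvd_abs _ _).mpr hdvd)
    have h2 : ((p : ℤ) : ℝ) ≤ ((|Z| : ℤ) : ℝ) := by exact_mod_cast h1
    rw [Int.cast_abs] at h2
    exact_mod_cast h2
  have hn1 : (1 : ℝ) ≤ n := by exact_mod_cast hn
  have hp0 : (0 : ℝ) < p := by exact_mod_cast (Fact.out : p.Prime).pos
  have hlogn : Real.log n ≤ n := (Real.log_le_sub_one_of_pos (by linarith)).trans (by linarith)
  have hlogK := Real.log_nonneg hK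
  calc Real.log p ≤ Real.log ((K * (n : ℝ) ^ 27) ^ n ^ 2) :=
        Real.log_le_log hp0 (hpZ.trans hb)
    _ = (n : ℝ) ^ 2 * (Real.log K + 27 * Real.log n) := by
        rw [Real.log_pow, Real.log_mul (by positivity) (by positivity), Real.log_pow]
        push_cast
        ring
    _ ≤ (n : ℝ) ^ 2 * (Real.log K * n + 27 * n) := by
        have : Real.log K ≤ Real.log K * n := le_mul_of_one_le_right hlogK hn1
        gcongr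
    _ = (Real.log K + 27) * (n : ℝ) ^ 3 := by ring

end LT
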