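import Pool.Agent.Lib_MP_f1937f_nt.Gap

/-!
# MP_f1937f_nt: many numbers `b² + b + 1` in a window (layer COUNT)
-/

namespace LT

open Real

/-- The multiples of `21` in an interval. -/
theorem mult_count {x y : ℝ} (hx : 21 ≤ x) :
    ∃ S : Finset ℕ, (∀ b ∈ S, 21 ∣ b ∧ 21 ≤ b ∧ x ≤ b ∧ (b : ℝ) ≤ y) ∧ (y - x) / 21 - 1 ≤ S.card := by
  classical
  by_cases hy : 0 ≤ y
  · refine ⟨(Finset.Icc ⌈x / 21⌉₊ ⌊y / 21⌋₊).image (fun t => 21 * t), ?_, ?_⟩
    · intro b hb
      rw [Finset.mem_image] at hb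
      obtain ⟨t, ht, rfl⟩ := hb
      rw [Finset.mem_Icc] at ht
      have h1 : x / 21 ≤ t := Nat.ceil_le.1 ht.1
      have h2 : (t : ℝ) ≤ y / 21 := (Nat.le_floor_iff (by positivity)).1 ht.2
      have h3 : (21 : ℝ) ≤ ((21 * t : ℕ) : ℝ) := by
        push_cast
        linarith
      refine ⟨dvd_mul_right _ _, by exact_mod_cast h3, ?_, ?_⟩
      · push_cast
        linarith
      · push_cast
        linarith
    · rw [Finset.card_image_of_injective _ (fun a b h => by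
        simpa using h), Nat.card_Icc]
      have h1 : (⌈x / 21⌉₊ : ℝ) < x / 21 + 1 := Nat.ceil_lt_add_one (by linarith)
      have h2 : y / 21 < (⌊y / 21⌋₊ : ℝ) + 1 := Nat.lt_floor_add_one _
      have h3 : ((⌊y / 21⌋₊ + 1 : ℕ) : ℝ) ≤ ((⌊y / 21⌋₊ + 1 - ⌈x / 21⌉₊ : ℕ) : ℝ) + (⌈x / 21⌉₊ : ℝ) := by
        have : ⌊y / 21⌋₊ + 1 ≤ (⌊y / 21⌋₊ + 1 - ⌈x / 21⌉₊) + ⌈x / 21⌉₊ := by omega
        exact_mod_cast this
      push_cast at h3
      linarith
  · refine ⟨∅, by simp, ?_⟩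
    simp only [Finset.card_empty, Nat.cast_zero]
    push Not at hy
    linarith

/-- There are many `m = b² + b + 1`, `21 ∣ b`, in the window `lo < 7^k / (M m) < hi`, for some `k`. -/
theorem window {lo hi : ℝ} (hlo : 0 < lo) (hlh : lo < hi) :
    ∃ c : ℝ, 0 < c ∧ ∃ Y₀ : ℕ, ∀ Y : ℕ, Y₀ ≤ Y → ∀ M : ℕ, 0 < M →
      ∃ (k : ℕ) (T : Finset ℕ), c * (Y : ℝ) ^ ((1 : ℝ) / 4) ≤ T.card ∧
        ∀ m ∈ T, (∃ b, 21 ∣ b ∧ 21 ≤ b ∧ m = b ^ 2 + b + 1) ∧ 4 * m * m ≤ Y ∧
          lo < 7 ^ k / ((M * m : ℕ) : ℝ) ∧ 7 ^ k / ((M * m : ℕ) : ℝ) < hi := by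
  have hhi : 0 < hi := hlo.trans hlh
  set r : ℝ := sqrt (lo / hi) with hr
  have hr0 : 0 < r := Real.sqrt_pos.2 (by positivity)
  have hr1 : r < 1 := by
    rw [hr, Real.sqrt_lt' one_pos, one_pow, div_lt_one hhi]
    exact hlh
  have hr2 : r ^ 2 = lo / hi := Real.sq_sqrt (by positivity)
  set c0 : ℝ := (1 - r) / (21 * 4) with hc0
  have hc0p : 0 < c0 := by
    rw [hc0]
    have : 0 < 1 - r := by linarith
    positivity
  -- asymptotic conditions
  have hlim : Filter.Tendsto (fun Y : ℕ => (Y : ℝ) ^ ((1 : ℝ) / 4)) Filter.atTop Filter.atTop :=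
    (tendsto_rpow_atTop (by norm_num)).comp tendsto_natCast_atTop_atTop
  obtain ⟨Y₀, hY₀⟩ := Filter.eventually_atTop.1
    (hlim.eventually_ge_atTop (max (max 1 (4 / c0)) (max (84 / r) (2 / lo + 2))))
  refine ⟨c0 / 2, by positivity, Y₀, fun Y hY M hM => ?_⟩
  have hbig := hY₀ Y hY
  set s : ℝ := (Y : ℝ) ^ ((1 : ℝ) / 4) with hs
  have hs1 : 1 ≤ s := le_trans (le_trans (le_max_left _ _) (le_max_left _ _)) hbig
  have hs2 : 4 / c0 ≤ s := le_trans (le_trans (le_max_right _ _) (le_max_left _ _)) hbig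
  have hs3 : 84 / r ≤ s := le_trans (le_trans (le_max_left _ _) (le_max_right _ _)) hbig
  have hs4 : 2 / lo + 2 ≤ s := le_trans (le_trans (le_max_right _ _) (le_max_right _ _)) hbig
  have hsY : s ^ 4 = Y := by
    rw [hs, ← rpow_natCast, ← rpow_mul (Nat.cast_nonneg _)]
    norm_num
  have hM1 : (1 : ℝ) ≤ M := by exact_mod_cast hM
  have hM0 : (0 : ℝ) < M := by linarith
  -- the choice of `k`
  obtain ⟨k, hk1, hk2⟩ : ∃ k : ℕ, (7 : ℝ) ^ k ≤ M * lo * s ^ 2 / 2 ∧ M * lo * s ^ 2 / 2 < 7 ^ (k + 1) := by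
    apply exists_nat_pow_near
    · have h1 : 2 / lo ≤ s ^ 2 := by nlinarith
      have h2 : 2 ≤ lo * s ^ 2 := by
        rw [div_le_iff₀ hlo] at h1
        linarith
      have h3 : lo * s ^ 2 ≤ M * (lo * s ^ 2) := by
        have : 0 ≤ lo * s ^ 2 := by positivity
        nlinarith
      linarith
    · norm_num
  -- the upper limit `U` of the window
  set U : ℝ := 7 ^ k / (M * lo) with hU
  have hMlo : 0 < M * lo := by positivity
  have hU1 : U ≤ s ^ 2 / 2 := by
    rw [hU, div_le_iff₀ hMlo]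
    linarith
  have hU2 : s ^ 2 / 14 < U := by
    rw [hU, lt_div_iff₀ hMlo]
    rw [pow_succ (7 : ℝ) k] at hk2
    linarith
  have hU0 : 0 < U := by
    have : 0 < s ^ 2 / 14 := by positivity
    linarith
  set q : ℝ := sqrt U with hq
  have hqU : q ^ 2 = U := Real.sq_sqrt hU0.le
  have hq0 : 0 < q := Real.sqrt_pos.2 hU0
  have hq1 : s / 4 ≤ q := by
    rw [hq]
    apply Real.le_sqrt_of_sq_le
    nlinarith
  have hx21 : 21 ≤ r * q := by
    have h1 : 84 ≤ r * s := by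
      rw [div_le_iff₀ hr0] at hs3
      linarith
    nlinarith
  obtain ⟨S, hS, hSc⟩ := mult_count (x := r * q) (y := q - 1) hx21
  classical
  refine ⟨k, S.image (fun b => b ^ 2 + b + 1), ?_, ?_⟩
  · rw [Finset.card_image_of_injOn]
    · have h1 : c0 * s ≤ (1 - r) * q / 21 := by
        rw [hc0]
        have : 0 < 1 - r := by linarith
        have h2 : (1 - r) * (s / 4) ≤ (1 - r) * q := by gcongr
        linarith
      have h2 : 4 ≤ c0 * s := by
        rw [div_le_iff₀ hc0p] at hs2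
        linarith
      have h3 : (q - 1 - r * q) / 21 - 1 = (1 - r) * q / 21 - 22 / 21 := by ring
      linarith
    · intro a _ b _ hab
      simp only at hab
      have h1 : (a : ℤ) ^ 2 + a = (b : ℤ) ^ 2 + b := by
        have : (a : ℤ) ^ 2 + a + 1 = (b : ℤ) ^ 2 + b + 1 := by exact_mod_cast hab
        linarith
      have h2 : ((a : ℤ) - b) * (a + b + 1) = 0 := by linear_combination h1
      rcases mul_eq_zero.1 h2 with h3 | h3
      · omega
      · omega
  · intro m hm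
    rw [Finset.mem_image] at hm
    obtain ⟨b, hb, rfl⟩ := hm
    obtain ⟨hb1, hb2, hb3, hb4⟩ := hS b hb
    have hb0 : (21 : ℝ) ≤ b := by exact_mod_cast hb2
    -- the size of `m`
    have hm1 : ((b ^ 2 + b + 1 : ℕ) : ℝ) < U := by
      push_cast
      rw [← hqU]
      nlinarith
    have hm2 : U * (lo / hi) < ((b ^ 2 + b + 1 : ℕ) : ℝ) := by
      push_cast
      rw [← hqU, ← hr2]
      have h1 : (r * q) ^ 2 ≤ (b : ℝ) ^ 2 := by
        apply pow_le_pow_left₀ (by positivity) hb3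
      have h2 : q ^ 2 * r ^ 2 = (r * q) ^ 2 := by ring
      rw [h2]
      linarith
    set m : ℕ := b ^ 2 + b + 1 with hmdef
    have hmpos : (0 : ℝ) < m := by
      have : 0 < m := by omega
      exact_mod_cast this
    refine ⟨⟨b, hb1, hb2, rfl⟩, ?_, ?_, ?_⟩
    · have h1 : (4 * m * m : ℝ) ≤ Y := by
        rw [← hsY]
        have h2 : (m : ℝ) ≤ s ^ 2 / 2 := by linarith
        nlinarith
      exact_mod_cast h1
    · push_cast
      rw [lt_div_iff₀ (by positivity)]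
      rw [hU, lt_div_iff₀ hMlo] at hm1
      linarith
    · push_cast
      rw [div_lt_iff₀ (by positivity)]
      have h1 : U * (lo / hi) * (hi * M) = 7 ^ k := by
        rw [hU]
        field_simp
      have h2 : U * (lo / hi) * (hi * M) < m * (hi * M) := by
        apply mul_lt_mul_of_pos_right hm2
        positivity
      rw [h1] at h2
      linarith

/-- In a short window, every square class contains at most one `m`. -/
theorem window_square {lo hi : ℝ} (hlo : 0 < lo) (h4 : hi ≤ 4 * lo) {M k : ℕ} (hM : 0 < M)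
    {T : Finset ℕ}
    (hT : ∀ m ∈ T, (∃ b, 21 ∣ b ∧ 21 ≤ b ∧ m = b ^ 2 + b + 1) ∧
          lo < 7 ^ k / ((M * m : ℕ) : ℝ) ∧ 7 ^ k / ((M * m : ℕ) : ℝ) < hi)
    (B : Finset ℕ) (hB : B ⊆ T) (hsq : ∀ x ∈ B, ∀ y ∈ B, IsSquare (x * y)) : B.card ≤ 1 := by
  rw [Finset.card_le_one]
  have key : ∀ x ∈ B, ∀ y ∈ B, x < y → False := by
    intro x hx y hy hxy
    obtain ⟨⟨b, -, hb, rfl⟩, h1, h2⟩ := hT x (hB hx)
    obtain ⟨⟨c, -, hc, rfl⟩, h3, h5⟩ := hT y (hB hy)
    have hbc : b < c := by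
      by_contra hcon
      push Not at hcon
      have : c ^ 2 + c + 1 ≤ b ^ 2 + b + 1 := by
        have := Nat.pow_le_pow_left hcon 2
        omega
      omega
    have h6 := gap_square (by omega) hbc (hsq _ hx _ hy)
    have h7 : (4 * ((b ^ 2 + b + 1 : ℕ) : ℝ)) < ((c ^ 2 + c + 1 : ℕ) : ℝ) := by exact_mod_cast h6
    set x : ℕ := b ^ 2 + b + 1
    set y : ℕ := c ^ 2 + c + 1
    have hx0 : (0 : ℝ) < x := by
      have : 0 < x := by omega
      exact_mod_cast this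
    have hy0 : (0 : ℝ) < y := by linarith
    have hM0 : (0 : ℝ) < M := by exact_mod_cast hM
    push_cast at h1 h2 h3 h5
    rw [div_lt_iff₀ (by positivity)] at h2
    rw [lt_div_iff₀ (by positivity)] at h3
    -- `lo M y < 7^k < hi M x ≤ 4 lo M x`
    have h8 : hi * (M * (x : ℝ)) ≤ 4 * lo * (M * x) := by
      apply mul_le_mul_of_nonneg_right h4
      positivity
    have h9 : lo * M * (4 * (x : ℝ)) < lo * M * y := by
      apply mul_lt_mul_of_pos_left h7
      positivity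
    nlinarith
  intro x hx y hy
  rcases lt_trichotomy x y with h | h | h
  · exact (key x hx y hy h).elim
  · exact h
  · exact (key y hy x hx h).elim

end LT
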