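import Pool.Agent.Lib_MP_f1937f_nt.Sign
import Pool.Agent.Lib_MP_f1937f_nt.Glob
import Pool.Agent.Lib_MP_f1937f_nt.NormK
import Pool.Agent.Lib_MP_f1937f_nt.Rec
import Pool.Agent.Lib_MP_f1937f_nt.LocMain
import Pool.Agent.Lib_MP_f1937f_nt.PFour
import Pool.Agent.Lib_MP_f1937f_nt.PThree
import Pool.Agent.Lib_MP_f1937f_nt.Size
import Pool.Agent.Lib_MP_f1937f_nt.Window

/-!
# MP_f1937f_nt: one modulus gives one supersingular prime (layer COUNT)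
-/

namespace LT

open Polynomial WeierstrassCurve

/-- The rational number `j`. -/
noncomputable def jW (W : WeierstrassCurve ℤ) : ℚ := (W.c₄ : ℚ) ^ 3 / (W.Δ : ℚ)

/-- The bad primes. -/
def badW (W : WeierstrassCurve ℤ) : Finset ℕ :=
  (W.Δ.natAbs * W.c₄.natAbs * (W.c₄ ^ 3 - 1728 * W.Δ).natAbs).primeFactors

theorem jW_eq {W : WeierstrassCurve ℤ} (hΔ : W.Δ ≠ 0) : (W.c₄ : ℚ) ^ 3 = jW W * W.Δ := by
  have : (W.Δ : ℚ) ≠ 0 := by exact_mod_cast hΔ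
  rw [jW, div_mul_cancel₀ _ this]

theorem badW_not {W : WeierstrassCurve ℤ} (hΔ : W.Δ ≠ 0) (hCM : NoCM W) {p : ℕ} (hp : p.Prime)
    (h : p ∉ badW W) : ¬ (p : ℤ) ∣ W.Δ ∧ ¬ (p : ℤ) ∣ W.c₄ ∧ ¬ (p : ℤ) ∣ (W.c₄ ^ 3 - 1728 * W.Δ) := by
  obtain ⟨h1, h2⟩ := noCM_ne hΔ hCM
  have h3 : W.c₄ ^ 3 - 1728 * W.Δ ≠ 0 := sub_ne_zero.2 h2
  have h4 : W.Δ.natAbs * W.c₄.natAbs * (W.c₄ ^ 3 - 1728 * W.Δ).natAbs ≠ 0 := by
    refine Nat.mul_ne_zero (Nat.mul_ne_zero ?_ ?_) ?_ <;> rwa [Int.natAbs_ne_zero]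
  have h5 : ¬ p ∣ W.Δ.natAbs * W.c₄.natAbs * (W.c₄ ^ 3 - 1728 * W.Δ).natAbs := by
    intro hd
    exact h (Nat.mem_primeFactors.2 ⟨hp, hd, h4⟩)
  rw [Int.natCast_dvd, Int.natCast_dvd, Int.natCast_dvd]
  refine ⟨fun hd => h5 ?_, fun hd => h5 ?_, fun hd => h5 ?_⟩
  · exact Dvd.dvd.mul_right (Dvd.dvd.mul_right hd _) _
  · exact Dvd.dvd.mul_right (Dvd.dvd.mul_left hd _) _
  · exact Dvd.dvd.mul_left hd _

theorem jW_val {W : WeierstrassCurve ℤ} (hΔ : W.Δ ≠ 0) {p : ℕ} [Fact p.Prime]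
    (h1 : ¬ (p : ℤ) ∣ W.Δ) (h2 : W.c₄ ≠ 0) : 0 ≤ padicValRat p (jW W) := by
  have h3 : (W.c₄ : ℚ) ^ 3 ≠ 0 := pow_ne_zero 3 (by exact_mod_cast h2)
  have h4 : (W.Δ : ℚ) ≠ 0 := by exact_mod_cast hΔ
  rw [jW, padicValRat.div h3 h4, padicValRat.of_int (z := W.Δ), padicValInt.eq_zero_of_not_dvd h1]
  have h5 : (W.c₄ : ℚ) ^ 3 = ((W.c₄ ^ 3 : ℤ) : ℚ) := by push_cast; ring
  rw [h5, padicValRat.of_int]
  simp

theorem jW_cast {W : WeierstrassCurve ℤ} {p : ℕ} [Fact p.Prime]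
    (h1 : ¬ (p : ℤ) ∣ W.Δ) :
    ((jW W : ℚ) : Fb p) = (W.c₄ : Fb p) ^ 3 / (W.Δ : Fb p) ∧ (W.Δ : Fb p) ≠ 0 := by
  have h2 : (W.Δ : Fb p) ≠ 0 := by
    rwa [Ne, CharP.intCast_eq_zero_iff (Fb p) p]
  refine ⟨?_, h2⟩
  have h3 : jW W = ((W.c₄ ^ 3 : ℤ) : ℚ) / ((W.Δ : ℤ) : ℚ) := by
    rw [jW]
    push_cast
    ring
  rw [h3, Rat.cast_div_of_ne_zero]
  · push_cast
    ring
  · simp
  · simpa using h2

theorem jW_ne {W : WeierstrassCurve ℤ} {p : ℕ} [Fact p.Prime]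
    (h1 : ¬ (p : ℤ) ∣ W.Δ) (h2 : ¬ (p : ℤ) ∣ W.c₄) (h3 : ¬ (p : ℤ) ∣ (W.c₄ ^ 3 - 1728 * W.Δ)) :
    ((jW W : ℚ) : Fb p) ≠ 0 ∧ ((jW W : ℚ) : Fb p) ≠ 1728 := by
  obtain ⟨h4, h5⟩ := jW_cast h1
  have h6 : (W.c₄ : Fb p) ≠ 0 := by
    rwa [Ne, CharP.intCast_eq_zero_iff (Fb p) p]
  rw [h4]
  refine ⟨div_ne_zero (pow_ne_zero 3 h6) h5, ?_⟩
  rw [Ne, div_eq_iff h5]
  intro h7
  apply h3
  rw [← CharP.intCast_eq_zero_iff (Fb p) p]
  push_cast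
  rw [h7, sub_self]

/-- No subgroup has the `j`-invariant of `W`. -/
theorem jL_ne {W : WeierstrassCurve ℤ} (hΔ : W.Δ ≠ 0) (hCM : NoCM W) {n : ℕ} (hn : 0 < n) :
    ∀ L ∈ CycL (0 : ℂ) (-31 / 4) n, jL 0 (-31 / 4) L ≠ ((jW W : ℚ) : ℂ) := by
  intro L hL hj
  obtain ⟨Λ, h1, α, h2, h3⟩ := jL_cm hn hL
  rw [hj] at h1
  have h4 : (W.Δ : ℂ) ≠ 0 := by exact_mod_cast hΔ
  obtain ⟨k, hk⟩ := hCM Λ (by
    have h5 : ((jW W : ℚ) : ℂ) * (W.Δ : ℂ) = (W.c₄ : ℂ) ^ 3 := by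
      have := congrArg (fun x : ℚ => (x : ℂ)) (jW_eq hΔ)
      push_cast at this
      exact this.symm
    rw [← h5]
    linear_combination (W.Δ : ℂ) * h1) α h2
  exact h3 k hk

/-- One modulus gives one supersingular prime, which is not killed by the modulus. -/
theorem core_prime0 (W : WeierstrassCurve ℤ) (hΔ : W.Δ ≠ 0) (hCM : NoCM W) :
    ∃ (h : ℕ) (lo hi C : ℝ), (h = 1 ∨ h = 2) ∧ 0 < lo ∧ lo < hi ∧ 0 < C ∧
      ∀ M k : ℕ, Odd M → ¬ 3 ∣ M → ¬ 7 ∣ M → 11 ∣ M →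
      lo < 7 ^ k / (M : ℝ) → 7 ^ k / (M : ℝ) < hi →
      (∀ p : ℕ, p.Prime → p % 3 = 2 → (p ∈ badW W ∨ p ∣ 2 * M) → KilledBy p M) →
      ∃ (p : ℕ) (_ : Fact p.Prime), 5 ≤ p ∧ p % 3 = 2 ∧ ¬ KilledBy p M ∧ p ∉ badW W ∧
        ¬ p ∣ h * (M * 7 ^ k) ∧ affCount W p = p ∧
        Real.log p ≤ C * ((h * (M * 7 ^ k) : ℕ) : ℝ) ^ 3 ∧
        ∃ L : AddSubgroup (Pt (0 : Fb p) (-31 / 4)), RedL p (h * (M * 7 ^ k)) (jW W) L := by
  obtain ⟨hc0, hc1⟩ := noCM_ne hΔ hCM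
  have hj1728 : ((jW W : ℚ) : ℝ) ≠ 1728 := by
    intro h0
    have h1 : jW W = 1728 := by exact_mod_cast h0
    have h2 := jW_eq hΔ
    rw [h1] at h2
    exact hc1 (by exact_mod_cast h2)
  obtain ⟨h, hh, lo, hi, hlo, hlh, hsign⟩ := sign_main ((jW W : ℚ) : ℝ) hj1728
  obtain ⟨C, hC, hsize⟩ := size_bound (jW W)
  refine ⟨h, lo, hi, C, hh, hlo, hlh, hC, ?_⟩
  intro M k hMo hM3 hM7 hM11 hw1 hw2 hkill
  have hh0 : 0 < h := by rcases hh with rfl | rfl <;> norm_num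
  have hM : 0 < M := hMo.pos
  set n : ℕ := h * (M * 7 ^ k) with hn
  have hn0 : 0 < n := by positivity
  -- the rational number `N`
  obtain ⟨N, hN⟩ := NN_rat (jW W) hn0
  have hjC : ((((jW W : ℚ) : ℝ)) : ℂ) = ((jW W : ℚ) : ℂ) := by norm_cast
  have hNneg : N < 0 := by
    obtain ⟨r, hr, hNr⟩ := hsign M k hMo hM3 hM7 hM11 hw1 hw2
      (by
        rw [← hn, hjC]
        exact jL_ne hΔ hCM hn0)
    rw [← hn, hjC, hN ℂ] at hNr
    have h1 : ((N : ℝ) : ℂ) = (r : ℂ) := by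
      rw [← hNr]
      norm_cast
    have h2 : (N : ℝ) = r := by exact_mod_cast h1
    have h3 : (N : ℝ) < 0 := by rw [h2]; exact hr
    exact_mod_cast h3
  have hN0 : N ≠ 0 := hNneg.ne
  have cast_eq : ∀ (p : ℕ) [Fact p.Prime] (a b : ℚ_[p]),
      NN (PadicAlgCl p) ((jW W : ℚ) : PadicAlgCl p) n =
        algebraMap ℚ_[p] (PadicAlgCl p) (a ^ 2 + 3 * b ^ 2) → (N : ℚ_[p]) = a ^ 2 + 3 * b ^ 2 := by
    intro p _ a b hab
    rw [hN (PadicAlgCl p)] at hab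
    apply (algebraMap ℚ_[p] (PadicAlgCl p)).injective
    rw [← hab, map_ratCast]
  -- the prime `p`
  obtain ⟨p, hp, hp3, hodd⟩ : ∃ p : ℕ, p.Prime ∧ p % 3 = 2 ∧ Odd (padicValRat p N) := by
    obtain ⟨a, b, hab⟩ := norm_three hn0 (n := n) (by
      rw [hn]
      exact Dvd.dvd.mul_left (Dvd.dvd.mul_right hM11 _) _) (jW W)
    exact rec_three hNneg (cast_eq 3 a b hab)
  have hpf : Fact p.Prime := ⟨hp⟩
  -- it is not killed
  have hnk : ¬ KilledBy p n := by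
    intro hk
    obtain ⟨a, b, hab⟩ := norm_kill hp3 hn0 hk (jW W)
    have := norm_even hp3 hN0 (cast_eq p a b hab)
    exact (Int.not_even_iff_odd.2 hodd) this
  have hnk' : ¬ KilledBy p M := by
    rintro ⟨q, h1, h2, h3, h4⟩
    exact hnk ⟨q, h1, by
      rw [hn]
      exact Dvd.dvd.mul_left (Dvd.dvd.mul_right h2 _) _, h3, h4⟩
  have hpB : p ∉ badW W := fun h1 => hnk' (hkill p hp hp3 (Or.inl h1))
  have hpM : ¬ p ∣ 2 * M := fun h1 => hnk' (hkill p hp hp3 (Or.inr h1))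
  have hp2 : ¬ p ∣ 2 := fun h1 => hpM (Dvd.dvd.mul_right h1 _)
  have hp5 : 5 ≤ p := by
    have h1 := hp.two_le
    have h2 : p ≠ 2 := fun h0 => hp2 (by rw [h0])
    have h3 : p ≠ 3 := by omega
    have h4 : p ≠ 4 := by
      rintro rfl
      exact absurd hp (by norm_num)
    omega
  have hpn : ¬ p ∣ n := by
    rw [hn]
    intro h0
    rcases hp.dvd_mul.1 h0 with h2 | h2
    · rcases hh with rfl | rfl
      · exact hp.one_lt.ne' (Nat.dvd_one.1 h2)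
      · exact hp2 h2
    · rcases hp.dvd_mul.1 h2 with h3 | h3
      · exact hpM (Dvd.dvd.mul_left h3 _)
      · have h4 := (Nat.prime_dvd_prime_iff_eq hp (by norm_num)).1 (hp.dvd_of_dvd_pow h3)
        omega
  obtain ⟨hb1, hb2, hb3⟩ := badW_not hΔ hCM hp hpB
  have hjv := jW_val hΔ hb1 hc0
  obtain ⟨hpos, L, hL⟩ := local_main hp5 hp3 hn0 hpn hjv (hN (PadicAlgCl p)) hodd
  have haff := ss_of_red hp5 hp3 hn0 hpn W (jW_eq hΔ) hb1 hL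
  have hlog := hsize p n hn0 hp5 hpn hjv N hN0 (hN (PadicAlgCl p)) hpos
  exact ⟨p, hpf, hp5, hp3, hnk', hpB, hpn, haff, hlog, L, hL⟩

/-- One modulus gives one new supersingular prime. -/
theorem core_prime (W : WeierstrassCurve ℤ) (hΔ : W.Δ ≠ 0) (hCM : NoCM W) :
    ∃ (h : ℕ) (lo hi C : ℝ), (h = 1 ∨ h = 2) ∧ 0 < lo ∧ lo < hi ∧ 0 < C ∧
      ∀ Y M k m : ℕ, 0 < M → Odd M → ¬ 3 ∣ M → ¬ 7 ∣ M →
      (∀ p : ℕ, p.Prime → p % 3 = 2 → (p ∈ SS W Y ∨ p ∈ badW W ∨ p ∣ 22 * M) → KilledBy p M) →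
      (∃ b, 21 ∣ b ∧ 21 ≤ b ∧ m = b ^ 2 + b + 1) →
      lo < 7 ^ k / ((11 * M * m : ℕ) : ℝ) → 7 ^ k / ((11 * M * m : ℕ) : ℝ) < hi →
      ∀ X : ℕ, Real.exp (C * ((h * (11 * M * 7 ^ k) * m : ℕ) : ℝ) ^ 3) ≤ X →
      ∃ (p : ℕ) (_ : Fact p.Prime), 5 ≤ p ∧ p % 3 = 2 ∧ ¬ p ∣ h * (11 * M * 7 ^ k) * m ∧
        p ∈ SS W X ∧ Y < p ∧ p ∉ badW W ∧
        ∃ L : AddSubgroup (Pt (0 : Fb p) (-31 / 4)), RedL p (h * (11 * M * 7 ^ k) * m) (jW W) L := by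
  obtain ⟨h, lo, hi, C, hh, hlo, hlh, hC, H⟩ := core_prime0 W hΔ hCM
  refine ⟨h, lo, hi, C, hh, hlo, hlh, hC, ?_⟩
  intro Y M k m hM hMo hM3 hM7 hkill hm hw1 hw2 X hX
  obtain ⟨b, hb21, hb, hmb⟩ := hm
  obtain ⟨t, rfl⟩ := hb21
  have hm1 : m % 2 = 1 := by
    rw [hmb]
    have : (21 * t) ^ 2 + 21 * t + 1 = (21 * t) * (21 * t + 1) + 1 := by ring
    rw [this]
    have h2 : (21 * t) * (21 * t + 1) % 2 = 0 := by
      rcases Nat.even_or_odd (21 * t) with h4 | h4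
      · exact Nat.even_iff.1 (h4.mul_right _)
      · exact Nat.even_iff.1 ((h4.add_one).mul_left _)
    omega
  have hm21 : m % 21 = 1 := by
    rw [hmb]
    have : (21 * t) ^ 2 + 21 * t + 1 = 21 * (21 * t ^ 2 + t) + 1 := by ring
    rw [this]
    omega
  have hm3 : ¬ 3 ∣ m := by omega
  have hm7 : ¬ 7 ∣ m := by omega
  have kill_mono : ∀ p : ℕ, KilledBy p M → KilledBy p (11 * M * m) := by
    rintro p ⟨q, h1, h2, h3, h4⟩
    exact ⟨q, h1, Dvd.dvd.mul_right (Dvd.dvd.mul_left h2 _) _, h3, h4⟩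
  have hn' : h * (11 * M * m * 7 ^ k) = h * (11 * M * 7 ^ k) * m := by ring
  obtain ⟨p, hpf, hp5, hp3, hnk, hpB, hpn, haff, hlog, L, hL⟩ := H (11 * M * m) k
      (by
        rw [Nat.odd_mul, Nat.odd_mul]
        exact ⟨⟨by decide, hMo⟩, Nat.odd_iff.2 hm1⟩)
      (by
        intro h0
        rcases (Nat.Prime.dvd_mul Nat.prime_three).1 h0 with h1 | h1
        · rcases (Nat.Prime.dvd_mul Nat.prime_three).1 h1 with h2 | h2
          · omega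
          · exact hM3 h2
        · exact hm3 h1)
      (by
        have h7 : Nat.Prime 7 := by norm_num
        intro h0
        rcases (Nat.Prime.dvd_mul h7).1 h0 with h1 | h1
        · rcases (Nat.Prime.dvd_mul h7).1 h1 with h2 | h2
          · omega
          · exact hM7 h2
        · exact hm7 h1)
      (Dvd.intro (M * m) (by ring)) hw1 hw2
      (by
        intro p hp hp3 hor
        apply kill_mono
        apply hkill p hp hp3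
        rcases hor with h1 | h1
        · exact Or.inr (Or.inl h1)
        · right
          right
          rcases hp.dvd_mul.1 h1 with h2 | h2
          · exact Dvd.dvd.mul_right (h2.trans (by norm_num)) _
          · rcases hp.dvd_mul.1 h2 with h3 | h3
            · rcases hp.dvd_mul.1 h3 with h4 | h4
              · exact Dvd.dvd.mul_right (h4.trans (by norm_num)) _
              · exact Dvd.dvd.mul_left h4 _
            · rw [hmb] at h3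
              exact absurd h3 (gap_prime hp hp3))
  have hp := hpf.out
  rw [hn'] at hpn hlog hL
  obtain ⟨hb1, -, -⟩ := badW_not hΔ hCM hp hpB
  have hpX : p ≤ X := by
    have h1 : (p : ℝ) ≤ X := by
      have hp0 : (0 : ℝ) < p := by exact_mod_cast hp.pos
      calc (p : ℝ) = Real.exp (Real.log p) := (Real.exp_log hp0).symm
        _ ≤ Real.exp (C * ((h * (11 * M * 7 ^ k) * m : ℕ) : ℝ) ^ 3) := Real.exp_le_exp.2 hlog
        _ ≤ X := hX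
    exact_mod_cast h1
  have hmem : ∀ Z : ℕ, p ≤ Z → p ∈ SS W Z := by
    intro Z hZ
    rw [SS, Finset.mem_filter, Finset.mem_range]
    exact ⟨by omega, hp, hb1, haff⟩
  refine ⟨p, hpf, hp5, hp3, hpn, hmem X hpX, ?_, hpB, L, hL⟩
  by_contra hcon
  push Not at hcon
  exact hnk (kill_mono p (hkill p hp hp3 (Or.inl (hmem Y hcon))))

end LT
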