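import Mathlib

/-!
# MP_f1937f_nt (Lang-Trotter, trace 0): basic definitions

* `SW a b` : the short Weierstrass curve `y² = x³ + a x + b`, `Pt a b` its group of points;
* Velu's formulas `vA`, `vB`, `vU` for the quotient by a finite subgroup;
* points over `k(x)` of the twist of `y² = x³ + a' x + b'` by `x³ + a x + b` : these are the
  odd maps `(x, y) ↦ (U(x), y V(x))` between the two curves.
-/

namespace LT

open Polynomial WeierstrassCurve

/-- The short Weierstrass curve `y² = x³ + a x + b`. -/
def SW {R : Type} [CommRing R] (a b : R) : WeierstrassCurve R := ⟨0, 0, 0, a, b⟩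

/-- The points of the short Weierstrass curve. -/
abbrev Pt {k : Type} [Field k] (a b : k) : Type := (SW a b).toAffine.Point

/-- The discriminant (up to the factor `-16`). -/
def dsc {R : Type} [CommRing R] (a b : R) : R := 4 * a ^ 3 + 27 * b ^ 2

section

variable {k : Type} [Field k]

/-- The `x`-coordinate of a point (and `0` at the origin). -/
def xc {a b : k} : Pt a b → k
  | .zero => 0
  | .some x _ _ => x

/-- The `y`-coordinate of a point (and `0` at the origin). -/
def yc {a b : k} : Pt a b → k
  | .zero => 0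
  | .some _ y _ => y

/-- The `j`-invariant of `y² = x³ + a x + b`. -/
noncomputable def jinv (a b : k) : k := 6912 * a ^ 3 / dsc a b

variable [DecidableEq k]

/-- Velu's coefficient `a` of the quotient by `L`. -/
noncomputable def vA (a b : k) (L : AddSubgroup (Pt a b)) : k :=
  a - 5 * ∑ᶠ P ∈ {P : Pt a b | P ∈ L ∧ P ≠ 0}, (3 * xc P ^ 2 + a)

/-- Velu's coefficient `b` of the quotient by `L`. -/
noncomputable def vB (a b : k) (L : AddSubgroup (Pt a b)) : k :=
  b - 7 * ∑ᶠ P ∈ {P : Pt a b | P ∈ L ∧ P ≠ 0}, (5 * xc P ^ 3 + 3 * a * xc P + 2 * b)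

/-- Velu's rational function giving the `x`-coordinate of the quotient map. -/
noncomputable def vU (a b : k) (L : AddSubgroup (Pt a b)) : RatFunc k :=
  RatFunc.X + ∑ᶠ P ∈ {P : Pt a b | P ∈ L ∧ P ≠ 0},
    (RatFunc.C (3 * xc P ^ 2 + a) / (RatFunc.X - RatFunc.C (xc P)) +
      RatFunc.C (2 * (xc P ^ 3 + a * xc P + b)) / (RatFunc.X - RatFunc.C (xc P)) ^ 2)

/-- The `j`-invariant of the quotient by `L`. -/
noncomputable def jL (a b : k) (L : AddSubgroup (Pt a b)) : k := jinv (vA a b L) (vB a b L)

/-- The cyclic subgroups of order `n`. -/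
def CycL (a b : k) (n : ℕ) : Set (AddSubgroup (Pt a b)) :=
  {L | ∃ T : Pt a b, addOrderOf T = n ∧ L = AddSubgroup.zmultiples T}

end

/-! ### derivation and points over `k(x)` -/

section

variable {k : Type} [Field k]

/-- The derivation `d/dx` of `k(x)`. -/
noncomputable def dR (u : RatFunc k) : RatFunc k :=
  algebraMap k[X] (RatFunc k) (derivative u.num * u.denom - u.num * derivative u.denom) /
    algebraMap k[X] (RatFunc k) (u.denom ^ 2)

/-- The polynomial `x³ + a x + b`. -/
noncomputable def fP (a b : k) : k[X] := X ^ 3 + C a * X + C b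

/-- The rational function `x³ + a x + b`. -/
noncomputable def fR (a b : k) : RatFunc k := algebraMap k[X] (RatFunc k) (fP a b)

/-- The points over `k(x)` of the twist of `y² = x³ + a' x + b'` by `x³ + a x + b`: the odd maps from
`y² = x³ + a x + b` to `y² = x³ + a' x + b'`. -/
abbrev MM (a b a' b' : k) : Type := Pt (RatFunc.C a' * fR a b ^ 2) (RatFunc.C b' * fR a b ^ 3)

variable {a b a' b' : k}

/-- The function `U` of the map `(x, y) ↦ (U, y V)`. -/
noncomputable def uu (P : MM a b a' b') : RatFunc k := xc P / fR a b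

/-- The function `V` of the map `(x, y) ↦ (U, y V)`. -/
noncomputable def vv (P : MM a b a' b') : RatFunc k := yc P / fR a b ^ 2

/-- The degree. -/
noncomputable def hh (P : MM a b a' b') : ℕ :=
  max (uu P).num.natDegree (uu P).denom.natDegree

/-- The map sends the origin to the origin. -/
def InO (P : MM a b a' b') : Prop := P = .zero ∨ (uu P).denom.natDegree < (uu P).num.natDegree

/-- The map multiplies the invariant differential by `c`. -/
def HasC (P : MM a b a' b') (c : k) : Prop :=
  dR (uu P) = RatFunc.C c * vv P ∧ (vv P = 0 → c = 0)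

variable [DecidableEq k]

/-- The homomorphism `Ψ` on points is given by the map `ψ` (outside the points of order `2`). -/
def Compat (ψ : MM a b a' b') (Ψ : Pt a b →+ Pt a' b') : Prop :=
  ∀ (x y : k) (h : (SW a b).toAffine.Nonsingular x y), y ≠ 0 →
    (ψ = .zero → Ψ (.some x y h) = 0) ∧
    (ψ ≠ .zero → ((uu ψ).denom.eval x = 0 → Ψ (.some x y h) = 0) ∧
      ((uu ψ).denom.eval x ≠ 0 → ∃ h', Ψ (.some x y h) =
        .some ((uu ψ).eval (RingHom.id k) x) (y * (vv ψ).eval (RingHom.id k) x) h'))

end

/-! ### changing the field -/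

section

variable {k k' : Type} [Field k] [Field k']

theorem sw_equation {a b x y : k} : (SW a b).toAffine.Equation x y ↔ y ^ 2 = x ^ 3 + a * x + b := by
  rw [Affine.equation_iff]
  simp [SW]

end

end LT
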