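import Pool.Agent.Lib_MP_f1937f_nt.FPt
import Pool.Agent.Lib_MP_f5471b_nt.AddSub

/-!
# MP_f1937f_nt: the x-coordinates of P + Q and P - Q (piece FAS)
-/

namespace LT

open Polynomial WeierstrassCurve

/-- The relation of `LangForms.addSub_rel` for a short Weierstrass curve, in coordinates. -/
theorem addsub_sw {F : Type} [Field F] [DecidableEq F] (h2 : (2 : F) ≠ 0) {A B : F}
    (hd : dsc A B ≠ 0) {P Q : Pt A B} (hP : P ≠ .zero) (hQ : Q ≠ .zero)
    (h1 : P + Q ≠ .zero) (h3 : P - Q ≠ .zero) :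
    (xc (P + Q) + xc (P - Q)) * (xc P - xc Q) ^ 2 =
        2 * (xc P * xc Q + A) * (xc P + xc Q) + 4 * B ∧
      xc (P + Q) * xc (P - Q) * (xc P - xc Q) ^ 2 =
        (xc P * xc Q - A) ^ 2 - 4 * B * (xc P + xc Q) := by
  have hE : (SW A B).IsElliptic := by
    refine ⟨?_⟩
    rw [sw_disc]
    refine IsUnit.mk0 _ (mul_ne_zero ?_ hd)
    have : (16 : F) = 2 ^ 4 := by norm_num
    rw [neg_ne_zero, this]
    exact pow_ne_zero 4 h2
  obtain ⟨c, hc, h⟩ := LangForms.addSub_rel (SW A B) P Q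
  generalize hR : P + Q = R at *
  generalize hS : P - Q = S at *
  rcases P with _ | ⟨x₁, y₁, e₁⟩
  · exact absurd rfl hP
  rcases Q with _ | ⟨x₂, y₂, e₂⟩
  · exact absurd rfl hQ
  rcases R with _ | ⟨x₃, y₃, e₃⟩
  · exact absurd rfl h1
  rcases S with _ | ⟨x₄, y₄, e₄⟩
  · exact absurd rfl h3
  rw [Affine.Point.sym2x_some_some, LangForms.AddSub.eval_addSubMap,
    Affine.Point.sym2x_some_some] at h
  have g0 := congrFun h 0
  have g1 := congrFun h 1
  have g2 : (x₁ + x₂) ^ 2 - 4 * (x₁ * x₂) * 1 = c * 1 := congrFun h 2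
  simp only [SW, b₂, b₄, b₆, b₈, Pi.smul_apply, smul_eq_mul, Matrix.cons_val_zero,
    Matrix.cons_val_one] at g0 g1
  simp only [xc]
  constructor
  · linear_combination (x₃ + x₄) * g2 - g1
  · linear_combination (x₃ * x₄) * g2 - g0

/-- Symmetric functions of the `x`-coordinates of `P + Q` and `P - Q` (twist invariant form). -/
theorem addsub_uu {k : Type} [Field k] [DecidableEq (RatFunc k)] (h2 : (2 : k) ≠ 0)
    {a b a' b' : k} (hd' : dsc a' b' ≠ 0) {P Q : MM a b a' b'} (hP : P ≠ .zero) (hQ : Q ≠ .zero)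
    (h1 : P + Q ≠ .zero) (h3 : P - Q ≠ .zero) :
    (uu (P + Q) + uu (P - Q)) * (uu P - uu Q) ^ 2 =
        2 * (uu P * uu Q + RatFunc.C a') * (uu P + uu Q) + 4 * RatFunc.C b' ∧
      uu (P + Q) * uu (P - Q) * (uu P - uu Q) ^ 2 =
        (uu P * uu Q - RatFunc.C a') ^ 2 - 4 * RatFunc.C b' * (uu P + uu Q) := by
  have hf := fR_ne_zero a b
  have h2' : (2 : RatFunc k) ≠ 0 := by
    have : (2 : RatFunc k) = RatFunc.C (2 : k) := (map_ofNat RatFunc.C 2).symm
    rw [this, Ne, map_eq_zero]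
    exact h2
  have hd : dsc (RatFunc.C a' * fR a b ^ 2) (RatFunc.C b' * fR a b ^ 3) ≠ 0 := by
    have : dsc (RatFunc.C a' * fR a b ^ 2) (RatFunc.C b' * fR a b ^ 3) =
        RatFunc.C (dsc a' b') * fR a b ^ 6 := by
      simp only [dsc, map_add, map_mul, map_pow, map_ofNat]
      ring
    rw [this]
    exact mul_ne_zero (by rwa [Ne, map_eq_zero]) (pow_ne_zero 6 hf)
  obtain ⟨g1, g2⟩ := addsub_sw h2' hd hP hQ h1 h3
  simp only [uu]
  constructor
  · field_simp
    linear_combination g1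
  · field_simp
    linear_combination g2

end LT
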