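import Pool.Agent.Lib_MP_f1937f_nt.Basics

/-!
# MP_f1937f_nt: the derivation of `k(x)` (piece FDER)
-/

namespace LT

open Polynomial WeierstrassCurve

variable {k : Type} [Field k]

theorem FDer.am_inj {p q : k[X]} (h : algebraMap k[X] (RatFunc k) p = algebraMap k[X] (RatFunc k) q) :
    p = q := RatFunc.algebraMap_injective k h

theorem FDer.am_ne {q : k[X]} (hq : q ≠ 0) : algebraMap k[X] (RatFunc k) q ≠ 0 :=
  RatFunc.algebraMap_ne_zero hq

theorem dR_frac (p q : k[X]) (hq : q ≠ 0) :
    dR (algebraMap k[X] (RatFunc k) p / algebraMap k[X] (RatFunc k) q) =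
      algebraMap k[X] (RatFunc k) (derivative p * q - p * derivative q) /
        algebraMap k[X] (RatFunc k) (q ^ 2) := by
  unfold dR
  set u : RatFunc k := algebraMap k[X] (RatFunc k) p / algebraMap k[X] (RatFunc k) q with hu
  have hD : u.denom ≠ 0 := u.denom_ne_zero
  have h : u.num * q = p * u.denom := by
    have h1 := u.num_div_denom
    nth_rewrite 3 [hu] at h1
    rw [div_eq_div_iff (FDer.am_ne hD) (FDer.am_ne hq), ← map_mul, ← map_mul] at h1
    exact FDer.am_inj h1
  have h' : derivative u.num * q + u.num * derivative q =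
      derivative p * u.denom + p * derivative u.denom := by
    have := congrArg derivative h
    rwa [derivative_mul, derivative_mul] at this
  rw [div_eq_div_iff (FDer.am_ne (pow_ne_zero 2 hD)) (FDer.am_ne (pow_ne_zero 2 hq)), ← map_mul,
    ← map_mul]
  congr 1
  linear_combination (u.denom * q) * h' - (derivative u.denom * q + u.denom * derivative q) * h

theorem FDer.exists_frac (u : RatFunc k) : ∃ p q : k[X], q ≠ 0 ∧
    u = algebraMap k[X] (RatFunc k) p / algebraMap k[X] (RatFunc k) q :=
  ⟨u.num, u.denom, u.denom_ne_zero, u.num_div_denom.symm⟩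

theorem dR_poly (p : k[X]) :
    dR (algebraMap k[X] (RatFunc k) p) = algebraMap k[X] (RatFunc k) (derivative p) := by
  have := dR_frac p 1 one_ne_zero
  simpa using this

theorem dR_C (c : k) : dR (RatFunc.C c) = 0 := by
  have := dR_poly (C c : k[X])
  simpa using this

theorem dR_X : dR (RatFunc.X : RatFunc k) = 1 := by
  have := dR_poly (X : k[X])
  simpa using this

theorem dR_zero : dR (0 : RatFunc k) = 0 := by
  have := dR_C (0 : k)
  simpa using this

theorem dR_one : dR (1 : RatFunc k) = 0 := by
  have := dR_C (1 : k)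
  simpa using this

theorem dR_add (u v : RatFunc k) : dR (u + v) = dR u + dR v := by
  obtain ⟨p, q, hq, rfl⟩ := FDer.exists_frac u
  obtain ⟨r, s, hs, rfl⟩ := FDer.exists_frac v
  have hq' := FDer.am_ne hq
  have hs' := FDer.am_ne hs
  rw [div_add_div _ _ hq' hs', ← map_mul, ← map_mul, ← map_mul, ← map_add,
    dR_frac _ _ (mul_ne_zero hq hs), dR_frac _ _ hq, dR_frac _ _ hs]
  simp only [derivative_mul, derivative_add, map_mul, map_add, map_sub, map_pow]
  field_simp
  ring

theorem dR_neg (u : RatFunc k) : dR (-u) = -dR u := by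
  obtain ⟨p, q, hq, rfl⟩ := FDer.exists_frac u
  rw [← neg_div, ← map_neg, dR_frac _ _ hq, dR_frac _ _ hq, ← neg_div, ← map_neg]
  congr 2
  rw [derivative_neg]
  ring

theorem dR_sub (u v : RatFunc k) : dR (u - v) = dR u - dR v := by
  rw [sub_eq_add_neg, dR_add, dR_neg, ← sub_eq_add_neg]

theorem dR_mul (u v : RatFunc k) : dR (u * v) = dR u * v + u * dR v := by
  obtain ⟨p, q, hq, rfl⟩ := FDer.exists_frac u
  obtain ⟨r, s, hs, rfl⟩ := FDer.exists_frac v
  have hq' := FDer.am_ne hq
  have hs' := FDer.am_ne hs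
  rw [div_mul_div_comm, ← map_mul, ← map_mul,
    dR_frac _ _ (mul_ne_zero hq hs), dR_frac _ _ hq, dR_frac _ _ hs]
  simp only [derivative_mul, map_mul, map_add, map_sub, map_pow]
  field_simp
  ring

theorem dR_pow (u : RatFunc k) (n : ℕ) : dR (u ^ (n + 1)) = (n + 1 : RatFunc k) * u ^ n * dR u := by
  induction n with
  | zero => simp
  | succ n ih =>
    rw [pow_succ u (n + 1), dR_mul, ih]
    push_cast
    ring

theorem dR_inv (u : RatFunc k) : dR u⁻¹ = -dR u / u ^ 2 := by
  by_cases hu : u = 0
  · subst hu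
    simp [dR_zero]
  · have h := dR_mul u u⁻¹
    rw [mul_inv_cancel₀ hu, dR_one] at h
    field_simp
    field_simp at h
    linear_combination (-1 : RatFunc k) * h

theorem dR_div (u v : RatFunc k) : dR (u / v) = (dR u * v - u * dR v) / v ^ 2 := by
  by_cases hv : v = 0
  · subst hv
    simp [dR_zero]
  · rw [div_eq_mul_inv, dR_mul, dR_inv]
    field_simp
    ring

theorem FDer.der_eq_zero (u : RatFunc k) (h : dR u = 0) :
    derivative u.num = 0 ∧ derivative u.denom = 0 := by
  have hD : u.denom ≠ 0 := u.denom_ne_zero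
  unfold dR at h
  rw [div_eq_zero_iff] at h
  rcases h with h | h
  · have h1 : derivative u.num * u.denom - u.num * derivative u.denom = 0 := by
      apply FDer.am_inj
      rw [h, map_zero]
    have h2 : u.denom ∣ u.num * derivative u.denom := by
      refine ⟨derivative u.num, ?_⟩
      linear_combination -h1
    have h3 : u.denom ∣ derivative u.denom :=
      (u.isCoprime_num_denom.symm).dvd_of_dvd_mul_left h2
    have h4 : derivative u.denom = 0 := by
      by_contra hne
      have h5 := Polynomial.degree_le_of_dvd h3 hne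
      exact absurd (Polynomial.degree_derivative_lt hD) (not_lt.mpr h5)
    refine ⟨?_, h4⟩
    rw [h4, mul_zero, sub_zero] at h1
    exact (mul_eq_zero.mp h1).resolve_right hD
  · exact absurd h (FDer.am_ne (pow_ne_zero 2 hD))

theorem FDer.dvd_natDegree (p : ℕ) [CharP k p] (f : k[X]) (h : derivative f = 0) :
    p ∣ f.natDegree := by
  rcases Nat.eq_zero_or_pos f.natDegree with h0 | h0
  · rw [h0]
    exact dvd_zero p
  · have h1 : (derivative f).coeff (f.natDegree - 1) = 0 := by rw [h]; simp
    rw [Polynomial.coeff_derivative, Nat.sub_add_cancel h0] at h1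
    have h2 : ((f.natDegree - 1 : ℕ) : k) + 1 = (f.natDegree : k) := by
      rw [← Nat.cast_add_one, Nat.sub_add_cancel h0]
    rw [h2] at h1
    have hf : f ≠ 0 := by
      rintro rfl
      simp at h0
    have h3 : f.coeff f.natDegree ≠ 0 := by
      rw [Polynomial.coeff_natDegree]
      exact Polynomial.leadingCoeff_ne_zero.mpr hf
    have h4 := (mul_eq_zero.mp h1).resolve_left h3
    exact (CharP.cast_eq_zero_iff k p _).mp h4

/-- In characteristic `p` a function with derivative `0` is a function of `x^p`, so its degree is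
divisible by `p`. -/
theorem dR_eq_zero_dvd (p : ℕ) [Fact p.Prime] [CharP k p] (u : RatFunc k) (h : dR u = 0) :
    p ∣ max u.num.natDegree u.denom.natDegree := by
  obtain ⟨h1, h2⟩ := FDer.der_eq_zero u h
  rcases le_total u.num.natDegree u.denom.natDegree with h3 | h3
  · rw [max_eq_right h3]
    exact FDer.dvd_natDegree p _ h2
  · rw [max_eq_left h3]
    exact FDer.dvd_natDegree p _ h1

/-- In characteristic `0` a function with derivative `0` is constant. -/
theorem dR_eq_zero_const [CharZero k] (u : RatFunc k) (h : dR u = 0) :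
    ∃ c : k, u = RatFunc.C c := by
  obtain ⟨h1, h2⟩ := FDer.der_eq_zero u h
  have h3 := Polynomial.derivative_eq_zero.mp h1
  have h4 := Polynomial.derivative_eq_zero.mp h2
  rw [Polynomial.natDegree_eq_zero] at h3 h4
  obtain ⟨a, ha⟩ := h3
  obtain ⟨b, hb⟩ := h4
  refine ⟨a / b, ?_⟩
  rw [← u.num_div_denom, ← ha, ← hb, RatFunc.algebraMap_C, RatFunc.algebraMap_C, ← map_div₀]

end LT
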