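import Pool.Agent.Lib_MP_f1937f_nt.FPt

/-!
# MP_f1937f_nt: additivity of the action on the invariant differential (piece FDIF)
-/

namespace LT

open Polynomial WeierstrassCurve

variable {k : Type} [Field k]

theorem HasC_zero {a b a' b' : k} : HasC (.zero : MM a b a' b') 0 := by
  refine ⟨?_, fun _ => rfl⟩
  rw [uu_zero, vv_zero, dR_zero, mul_zero]

theorem HasC_neg {a b a' b' : k} {P : MM a b a' b'} {c : k} (hP : HasC P c) :
    HasC (-P) (-c) := by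
  refine ⟨?_, fun h => ?_⟩
  · rw [uu_neg, vv_neg, hP.1, map_neg]
    ring
  · rw [vv_neg, neg_eq_zero] at h
    rw [hP.2 h, neg_zero]

namespace FDif

/-- the generic case of the addition: polynomial identity -/
theorem id_generic {K : Type} [Field K] {f f' A B U₁ V₁ U₂ V₂ dV₁ dV₂ L dL c d : K} (hf : f ≠ 0)
    (h2 : (2 : K) ≠ 0) (hU : U₁ - U₂ ≠ 0)
    (e₁ : V₁ ^ 2 * f = U₁ ^ 3 + A * U₁ + B) (e₂ : V₂ ^ 2 * f = U₂ ^ 3 + A * U₂ + B)
    (g₁ : 2 * f * dV₁ + f' * V₁ = c * (3 * U₁ ^ 2 + A))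
    (g₂ : 2 * f * dV₂ + f' * V₂ = d * (3 * U₂ ^ 2 + A))
    (hL : L * (U₁ - U₂) = V₁ - V₂)
    (hdL : dL * (U₁ - U₂) + L * (c * V₁ - d * V₂) = dV₁ - dV₂) :
    f' * L ^ 2 + f * (2 * L * dL) - c * V₁ - d * V₂ =
      (c + d) * (-(L * (f * L ^ 2 - U₁ - U₂ - U₁) + V₁)) := by
  have hL' : L = (V₁ - V₂) / (U₁ - U₂) := by rw [eq_div_iff hU]; exact hL
  have hdV₁ : dV₁ = (c * (3 * U₁ ^ 2 + A) - f' * V₁) / (2 * f) := by
    rw [eq_div_iff (mul_ne_zero h2 hf)]; linear_combination g₁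
  have hdV₂ : dV₂ = (d * (3 * U₂ ^ 2 + A) - f' * V₂) / (2 * f) := by
    rw [eq_div_iff (mul_ne_zero h2 hf)]; linear_combination g₂
  have hdL' : dL = (dV₁ - dV₂ - L * (c * V₁ - d * V₂)) / (U₁ - U₂) := by
    rw [eq_div_iff hU]; linear_combination hdL
  have hA : A * (U₁ - U₂) = V₁ ^ 2 * f - V₂ ^ 2 * f - U₁ ^ 3 + U₂ ^ 3 := by
    linear_combination e₂ - e₁
  have hA' : A = (V₁ ^ 2 * f - V₂ ^ 2 * f - U₁ ^ 3 + U₂ ^ 3) / (U₁ - U₂) := by
    rw [eq_div_iff hU]; exact hA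
  subst hdL' hL' hdV₁ hdV₂
  rw [hA']
  field_simp
  ring

/-- the doubling: polynomial identity -/
theorem id_double {K : Type} [Field K] {f f' A U V dV L dL c : K} (hf : f ≠ 0)
    (h2 : (2 : K) ≠ 0) (hV : V ≠ 0)
    (g : 2 * f * dV + f' * V = c * (3 * U ^ 2 + A))
    (hL : L * (2 * f * V) = 3 * U ^ 2 + A)
    (hdL : dL * (2 * f * V) + L * (2 * (f' * V + f * dV)) = 6 * U * (c * V)) :
    f' * L ^ 2 + f * (2 * L * dL) - c * V - c * V =
      (c + c) * (-(L * (f * L ^ 2 - U - U - U) + V)) := by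
  have hn : 2 * f * V ≠ 0 := mul_ne_zero (mul_ne_zero h2 hf) hV
  have hL' : L = (3 * U ^ 2 + A) / (2 * f * V) := by rw [eq_div_iff hn]; exact hL
  have hdV : dV = (c * (3 * U ^ 2 + A) - f' * V) / (2 * f) := by
    rw [eq_div_iff (mul_ne_zero h2 hf)]; linear_combination g
  have hdL' : dL = (6 * U * (c * V) - L * (2 * (f' * V + f * dV))) / (2 * f * V) := by
    rw [eq_div_iff hn]; linear_combination hdL
  subst hdL' hL' hdV
  field_simp
  ring

theorem two_ne (h2 : (2 : k) ≠ 0) : (2 : RatFunc k) ≠ 0 := by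
  have h : (2 : RatFunc k) = RatFunc.C (2 : k) := by rw [map_ofNat]
  rw [h]
  exact fun h' => h2 ((map_eq_zero_iff _ RatFunc.C_injective).1 h')

/-- the addition formulas on a short Weierstrass curve -/
theorem pt_add {K : Type} [Field K] [DecidableEq K] {A B : K} {P Q : Pt A B}
    (hP : P ≠ 0) (hQ : Q ≠ 0) (hPQ : P + Q ≠ 0) :
    ∃ l : K, xc (P + Q) = l ^ 2 - xc P - xc Q ∧
      yc (P + Q) = -(l * (xc (P + Q) - xc P) + yc P) ∧
      ((xc P ≠ xc Q ∧ l * (xc P - xc Q) = yc P - yc Q) ∨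
        (xc P = xc Q ∧ yc P = yc Q ∧ yc P ≠ 0 ∧ (l * (2 * yc P) = 3 * xc P ^ 2 + A ∨
          (2 : K) = 0))) := by
  rcases P with _ | ⟨x₁, y₁, h₁⟩
  · exact absurd rfl hP
  rcases Q with _ | ⟨x₂, y₂, h₂⟩
  · exact absurd rfl hQ
  have hneg : ∀ x y : K, (SW A B).toAffine.negY x y = -y := by
    intro x y
    rw [Affine.negY]
    simp [SW]
  have hxy : ¬(x₁ = x₂ ∧ y₁ = (SW A B).toAffine.negY x₂ y₂) := by
    rintro ⟨h3, h4⟩
    exact hPQ (Affine.Point.add_of_Y_eq h3 h4)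
  have hsum := Affine.Point.add_some (h₁ := h₁) (h₂ := h₂) hxy
  refine ⟨(SW A B).toAffine.slope x₁ x₂ y₁ y₂, ?_, ?_, ?_⟩
  · rw [hsum]
    change (SW A B).toAffine.addX x₁ x₂ _ = _ - x₁ - x₂
    simp only [Affine.addX, SW]
    ring
  · rw [hsum]
    change (SW A B).toAffine.addY x₁ x₂ y₁ _ =
      -((SW A B).toAffine.slope x₁ x₂ y₁ y₂ *
        ((SW A B).toAffine.addX x₁ x₂ ((SW A B).toAffine.slope x₁ x₂ y₁ y₂) - x₁) + y₁)
    rw [Affine.addY, hneg, Affine.negAddY]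
  · by_cases hx : x₁ = x₂
    · right
      have hy : y₁ ≠ (SW A B).toAffine.negY x₂ y₂ := fun h => hxy ⟨hx, h⟩
      have hyy : y₁ = y₂ := Affine.Y_eq_of_Y_ne h₁.1 h₂.1 hx hy
      subst hx hyy
      have hy0 : y₁ ≠ 0 := by
        rintro rfl
        apply hy
        rw [hneg, neg_zero]
      refine ⟨rfl, rfl, hy0, ?_⟩
      by_cases h2 : (2 : K) = 0
      · exact Or.inr h2
      left
      rw [Affine.slope_of_Y_ne rfl hy, hneg]
      change (3 * x₁ ^ 2 + 2 * 0 * x₁ + A - 0 * y₁) / (y₁ - -y₁) * (2 * y₁) = 3 * x₁ ^ 2 + A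
      have hy2 : y₁ - -y₁ = 2 * y₁ := by ring
      rw [hy2]
      field_simp
      ring
    · left
      have hx' : x₁ - x₂ ≠ 0 := sub_ne_zero.2 hx
      refine ⟨hx, ?_⟩
      rw [Affine.slope_of_X_ne hx]
      change (y₁ - y₂) / (x₁ - x₂) * (x₁ - x₂) = y₁ - y₂
      exact div_mul_cancel₀ _ hx'

theorem conv {K : Type} [Field K] {f A X1 Y1 X2 Y2 X3 Y3 l : K} (hf : f ≠ 0) (h2 : (2 : K) ≠ 0)
    (hx : X3 = l ^ 2 - X1 - X2) (hy : Y3 = -(l * (X3 - X1) + Y1))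
    (hl : (X1 ≠ X2 ∧ l * (X1 - X2) = Y1 - Y2) ∨
      (X1 = X2 ∧ Y1 = Y2 ∧ Y1 ≠ 0 ∧ (l * (2 * Y1) = 3 * X1 ^ 2 + A * f ^ 2 ∨ (2 : K) = 0))) :
    ∃ L : K, X3 / f = f * L ^ 2 - X1 / f - X2 / f ∧
      Y3 / f ^ 2 = -(L * (X3 / f - X1 / f) + Y1 / f ^ 2) ∧
      ((X1 / f - X2 / f ≠ 0 ∧ L * (X1 / f - X2 / f) = Y1 / f ^ 2 - Y2 / f ^ 2) ∨
        (X1 / f = X2 / f ∧ Y1 / f ^ 2 = Y2 / f ^ 2 ∧ Y1 / f ^ 2 ≠ 0 ∧
          L * (2 * f * (Y1 / f ^ 2)) = 3 * (X1 / f) ^ 2 + A)) := by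
  refine ⟨l / f, ?_, ?_, ?_⟩
  · rw [hx]
    field_simp
  · rw [hy]
    field_simp
  · rcases hl with ⟨h3, h4⟩ | ⟨h3, h4, h5, h6⟩
    · left
      have h3' : X1 - X2 ≠ 0 := sub_ne_zero.2 h3
      refine ⟨?_, ?_⟩
      · rw [← sub_div]
        exact div_ne_zero h3' hf
      · rw [← sub_div, ← sub_div, ← h4]
        field_simp
    · right
      have h6' := h6.resolve_right h2
      refine ⟨by rw [h3], by rw [h4], div_ne_zero h5 (pow_ne_zero 2 hf), ?_⟩
      field_simp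
      linear_combination h6'

/-- the addition in terms of `U`, `V` -/
theorem add_uv [DecidableEq (RatFunc k)] (h2 : (2 : k) ≠ 0) {a b a' b' : k} {P Q : MM a b a' b'}
    (hP : P ≠ 0) (hQ : Q ≠ 0) (hPQ : P + Q ≠ 0) :
    ∃ L : RatFunc k, uu (P + Q) = fR a b * L ^ 2 - uu P - uu Q ∧
      vv (P + Q) = -(L * (uu (P + Q) - uu P) + vv P) ∧
      ((uu P - uu Q ≠ 0 ∧ L * (uu P - uu Q) = vv P - vv Q) ∨
        (uu P = uu Q ∧ vv P = vv Q ∧ vv P ≠ 0 ∧
          L * (2 * fR a b * vv P) = 3 * uu P ^ 2 + RatFunc.C a')) := by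
  obtain ⟨l, hx, hy, hl⟩ := pt_add hP hQ hPQ
  exact conv (fR_ne_zero a b) (two_ne h2) hx hy hl

/-- derivative of `V` -/
theorem deriv_V {a b a' b' : k} {P : MM a b a' b'} {c : k} (hP0 : P ≠ 0)
    (hP : HasC P c) : 2 * fR a b * dR (vv P) + dR (fR a b) * vv P =
      RatFunc.C c * (3 * uu P ^ 2 + RatFunc.C a') := by
  by_cases hV : vv P = 0
  · rw [hV, dR_zero, hP.2 hV, map_zero]
    ring
  have h := congrArg dR (uu_vv_eq (ψ := P) hP0)
  have h3 : dR (uu P ^ 3) = 3 * uu P ^ 2 * dR (uu P) := by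
    have := dR_pow (uu P) 2
    norm_num at this
    exact this
  have h4 : dR (vv P ^ 2) = 2 * vv P * dR (vv P) := by
    have := dR_pow (vv P) 1
    norm_num at this
    exact this
  rw [dR_mul, dR_add, dR_add, dR_C, dR_mul, dR_C, h3, h4, hP.1] at h
  have h5 : vv P * (2 * fR a b * dR (vv P) + dR (fR a b) * vv P) =
      vv P * (RatFunc.C c * (3 * uu P ^ 2 + RatFunc.C a')) := by
    linear_combination h
  exact mul_left_cancel₀ hV h5

/-- first half of the additivity -/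
theorem add_first [DecidableEq (RatFunc k)] (h2 : (2 : k) ≠ 0) {a b a' b' : k}
    {P Q : MM a b a' b'} {c d : k} (hP0 : P ≠ 0) (hQ0 : Q ≠ 0) (hP : HasC P c) (hQ : HasC Q d) :
    dR (uu (P + Q)) = RatFunc.C (c + d) * vv (P + Q) := by
  by_cases hPQ : P + Q = 0
  · rw [hPQ]
    change dR (uu (.zero : MM a b a' b')) = _ * vv (.zero : MM a b a' b')
    rw [uu_zero, vv_zero, dR_zero, mul_zero]
  obtain ⟨L, hu, hv, hL⟩ := add_uv h2 hP0 hQ0 hPQ
  have hf := fR_ne_zero a b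
  have h2' := two_ne h2
  have g₁ := deriv_V hP0 hP
  have g₂ := deriv_V hQ0 hQ
  have e₁ := uu_vv_eq (ψ := P) hP0
  have e₂ := uu_vv_eq (ψ := Q) hQ0
  have hL2 : dR (L ^ 2) = 2 * L * dR L := by
    have := dR_pow L 1
    norm_num at this
    exact this
  have hD : dR (uu (P + Q)) = dR (fR a b) * L ^ 2 + fR a b * (2 * L * dR L) -
      RatFunc.C c * vv P - RatFunc.C d * vv Q := by
    rw [hu, dR_sub, dR_sub, dR_mul, hL2, hP.1, hQ.1]
  rw [hD, hv, hu, map_add]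
  rcases hL with ⟨hU, hL⟩ | ⟨hU, hV, hV0, hL⟩
  · refine FDif.id_generic hf h2' hU e₁ e₂ g₁ g₂ hL ?_
    have h := congrArg dR hL
    rw [dR_mul, dR_sub, dR_sub, hP.1, hQ.1] at h
    exact h
  · have hcd : RatFunc.C d = RatFunc.C c := by
      have h1 := hP.1
      rw [hU, hQ.1, hV] at h1
      rw [← hV] at h1
      exact mul_right_cancel₀ hV0 h1
    rw [← hU, ← hV, hcd]
    refine FDif.id_double hf h2' hV0 g₁ hL ?_
    have h := congrArg dR hL
    have h3 : dR (uu P ^ 2) = 2 * uu P * dR (uu P) := by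
      have := dR_pow (uu P) 1
      norm_num at this
      exact this
    have h4 : dR (2 : RatFunc k) = 0 := by
      have h : (2 : RatFunc k) = RatFunc.C (2 : k) := by rw [map_ofNat]
      rw [h, dR_C]
    have h5 : dR (3 : RatFunc k) = 0 := by
      have h : (3 : RatFunc k) = RatFunc.C (3 : k) := by rw [map_ofNat]
      rw [h, dR_C]
    rw [dR_mul, dR_mul, dR_mul, h4, dR_add, dR_C, dR_mul, h5, h3, hP.1] at h
    linear_combination h

end FDif

theorem HasC_add [DecidableEq (RatFunc k)] (h2 : (2 : k) ≠ 0) {a b a' b' : k}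
    (hd' : dsc a' b' ≠ 0) {P Q : MM a b a' b'} {c d : k} (hP : HasC P c) (hQ : HasC Q d) :
    HasC (P + Q) (c + d) := by
  have _ := hd'
  by_cases hP0 : P = 0
  · subst hP0
    have hc : c = 0 := hP.2 vv_zero
    rw [zero_add, hc, zero_add]
    exact hQ
  by_cases hQ0 : Q = 0
  · subst hQ0
    have hd : d = 0 := hQ.2 vv_zero
    rw [add_zero, hd, add_zero]
    exact hP
  have h1 := FDif.add_first h2 hP0 hQ0 hP hQ
  refine ⟨h1, fun hV => ?_⟩
  -- `P + Q` has `V = 0`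
  by_cases hPQ : P + Q = 0
  · have hQP : Q = -P := (neg_eq_of_add_eq_zero_right hPQ).symm
    have h3 := hQ.1
    rw [hQP, uu_neg, vv_neg, hP.1] at h3
    have h4 : RatFunc.C (c + d) * vv P = 0 := by
      rw [map_add]; linear_combination h3
    rcases mul_eq_zero.1 h4 with h5 | h5
    · exact (map_eq_zero_iff _ RatFunc.C_injective).1 h5
    · have hc := hP.2 h5
      have hd := hQ.2 (by rw [hQP, vv_neg, h5, neg_zero])
      rw [hc, hd, add_zero]
  have h3 : HasC (P + Q) 0 := by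
    refine ⟨?_, fun _ => rfl⟩
    rw [h1, hV, mul_zero, mul_zero]
  have hP' : -P ≠ 0 := neg_ne_zero.2 hP0
  have hQ' : -Q ≠ 0 := neg_ne_zero.2 hQ0
  have h4 := FDif.add_first h2 hPQ hP' h3 (HasC_neg hP)
  have h5 := FDif.add_first h2 hPQ hQ' h3 (HasC_neg hQ)
  rw [show P + Q + -P = Q by abel, zero_add, map_neg, hQ.1] at h4
  rw [show P + Q + -Q = P by abel, zero_add, map_neg, hP.1] at h5
  have h6 : RatFunc.C (c + d) * vv Q = 0 := by
    rw [map_add]; linear_combination h4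
  have h7 : RatFunc.C (c + d) * vv P = 0 := by
    rw [map_add]; linear_combination h5
  rcases mul_eq_zero.1 h6 with h8 | h8
  · exact (map_eq_zero_iff _ RatFunc.C_injective).1 h8
  rcases mul_eq_zero.1 h7 with h9 | h9
  · exact (map_eq_zero_iff _ RatFunc.C_injective).1 h9
  rw [hP.2 h9, hQ.2 h8, add_zero]

theorem HasC_zsmul [DecidableEq (RatFunc k)] (h2 : (2 : k) ≠ 0) {a b a' b' : k}
    (hd' : dsc a' b' ≠ 0) {P : MM a b a' b'} {c : k} (hP : HasC P c) (n : ℤ) :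
    HasC (n • P) ((n : k) * c) := by
  induction n using Int.induction_on with
  | zero =>
    rw [zero_zsmul, Int.cast_zero, zero_mul]
    exact HasC_zero
  | succ n ih =>
    rw [add_zsmul, one_zsmul, Int.cast_add, Int.cast_one, add_mul, one_mul]
    exact HasC_add h2 hd' ih hP
  | pred n ih =>
    have h := HasC_add h2 hd' ih (HasC_neg hP)
    rw [sub_zsmul, one_zsmul, Int.cast_sub, Int.cast_one, sub_mul, one_mul]
    rw [← sub_eq_add_neg, ← sub_eq_add_neg] at h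
    exact h

/-- In characteristic `p`, a map which kills the differential has degree divisible by `p`. -/
theorem dvd_hh_of_HasC_zero (p : ℕ) [Fact p.Prime] [CharP k p] {a b a' b' : k}
    {P : MM a b a' b'} (hP : HasC P 0) : p ∣ hh P := by
  refine dR_eq_zero_dvd p _ ?_
  rw [hP.1, map_zero, zero_mul]

end LT
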