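import Pool.Agent.Lib_MP_f1937f_nt.FKer
import Pool.Agent.Lib_MP_f1937f_nt.FIno
import Pool.Agent.Lib_MP_f1937f_nt.FDif
import Pool.Agent.Lib_MP_f1937f_nt.FPar
import Pool.Agent.Lib_MP_f1937f_nt.Quad

/-!
# MP_f1937f_nt: torsion points (piece FTORS)
-/

namespace LT

open Polynomial WeierstrassCurve

section

variable {k : Type} [Field k] [DecidableEq k] [IsAlgClosed k]

/-- The map attached to multiplication by `n`. -/
theorem FTors.mul_map (h2 : (2 : k) ≠ 0) {a b : k} (hd : dsc a b ≠ 0) (n : ℕ) :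
    ∃ ψ : MM a b a b, HasC ψ (n : k) ∧ InO ψ ∧ hh ψ = n ^ 2 ∧
      Compat ψ ((n : ℤ) • AddMonoidHom.id (Pt a b)) := by
  classical
  obtain ⟨ι, _, _, hh1, hI, hC, hcomp⟩ := id_exists h2 hd
  refine ⟨(n : ℤ) • ι, ?_, InO_zsmul h2 hd hI n, ?_, Compat_zsmul h2 hd hcomp n⟩
  · have h := HasC_zsmul h2 hd hC (n : ℤ)
    rw [mul_one, Int.cast_natCast] at h
    exact h
  · have h := quad_form (fun P : MM a b a b => (hh P : ℤ)) (fun x y => by
      have := hh_par h2 hd x y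
      exact_mod_cast this) ι 0 (n : ℤ) 0
    simp only [zero_smul, add_zero, mul_zero] at h
    rw [hh1] at h
    have h' : ((hh ((n : ℤ) • ι) : ℕ) : ℤ) = ((n ^ 2 : ℕ) : ℤ) := by
      rw [h]
      push_cast
      ring
    exact_mod_cast h'

/-- The number of `n`-torsion points. -/
theorem card_tors (h2 : (2 : k) ≠ 0) {a b : k} (hd : dsc a b ≠ 0) {n : ℕ} (hn : (n : k) ≠ 0) :
    Nat.card {P : Pt a b // n • P = 0} = n ^ 2 := by
  obtain ⟨ψ, hC, hI, hh2, hcomp⟩ := FTors.mul_map h2 hd n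
  rw [← hh2, ← ker_card h2 hd hd hn hC hI hcomp]
  refine Nat.card_congr (Equiv.subtypeEquivRight fun P => ?_)
  rw [AddMonoidHom.mem_ker, AddMonoidHom.smul_apply, AddMonoidHom.id_apply, natCast_zsmul]

/-- Multiplication by `n` is surjective. -/
theorem nsmul_surj (h2 : (2 : k) ≠ 0) {a b : k} (hd : dsc a b ≠ 0) {n : ℕ} (hn : (n : k) ≠ 0) :
    Function.Surjective fun P : Pt a b => n • P := by
  obtain ⟨ψ, hC, hI, hh2, hcomp⟩ := FTors.mul_map h2 hd n
  have hn0 : n ≠ 0 := by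
    rintro rfl
    simp at hn
  have h0 : ψ ≠ .zero := by
    rintro rfl
    rw [hh_zero] at hh2
    have : n ^ 2 ≠ 0 := pow_ne_zero 2 hn0
    exact this hh2.symm
  intro Q
  obtain ⟨P, hP⟩ := surj_of_compat h2 hd hd h0 hcomp hI Q
  refine ⟨P, ?_⟩
  rw [AddMonoidHom.smul_apply, AddMonoidHom.id_apply, natCast_zsmul] at hP
  exact hP

end

end LT
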