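import Pool.Agent.Lib_MP_f1937f_nt.FFrob
import Pool.Agent.Lib_MP_f1937f_nt.FTors

/-!
# MP_f1937f_nt: Hasse's theorem and the supersingular case (piece FHASSE)
-/

namespace LT

open Polynomial WeierstrassCurve

namespace FHasse

/-- The kernel of a composition with a surjective homomorphism. -/
theorem card_ker_comp {G : Type} [AddCommGroup G] (g f : G →+ G) (hf : Function.Surjective f) :
    Nat.card (g.comp f).ker = Nat.card g.ker * Nat.card f.ker := by
  let φ : (g.comp f).ker →+ g.ker :=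
    { toFun := fun x => ⟨f x.1, x.2⟩
      map_zero' := by
        apply Subtype.ext
        exact map_zero f
      map_add' := by
        intro x y
        apply Subtype.ext
        exact map_add f x.1 y.1 }
  have hφ : Function.Surjective φ := by
    rintro ⟨y, hy⟩
    obtain ⟨x, rfl⟩ := hf y
    exact ⟨⟨x, hy⟩, rfl⟩
  have h1 := AddSubgroup.card_eq_card_quotient_mul_card_addSubgroup φ.ker
  rw [Nat.card_congr (QuotientAddGroup.quotientKerEquivOfSurjective φ hφ).toEquiv] at h1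
  rw [h1]
  have e : φ.ker ≃ f.ker :=
    { toFun := fun x => ⟨x.1.1, by
        have h2 := x.2
        rw [AddMonoidHom.mem_ker] at h2
        exact congrArg Subtype.val h2⟩
      invFun := fun x => ⟨⟨x.1, by
        have h2 := x.2
        rw [AddMonoidHom.mem_ker] at h2 ⊢
        rw [AddMonoidHom.comp_apply, h2, map_zero]⟩, by
        have h2 := x.2
        rw [AddMonoidHom.mem_ker] at h2 ⊢
        apply Subtype.ext
        exact h2⟩
      left_inv := fun x => rfl
      right_inv := fun x => rfl }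
  rw [Nat.card_congr e]

end FHasse

section

variable {k : Type} [Field k] [DecidableEq k] [IsAlgClosed k] (p : ℕ) [Fact p.Prime] [CharP k p]

namespace FHasse

include p in
omit [DecidableEq k] [IsAlgClosed k] in
theorem two_ne (hp : p ≠ 2) : (2 : k) ≠ 0 := by
  apply Ring.two_ne_zero
  rw [ringChar.eq k p]
  exact hp

theorem quad [DecidableEq (RatFunc k)] (hp : p ≠ 2) {a b a' b' : k} (hd : dsc a' b' ≠ 0)
    (P Q : MM a b a' b') (i j : ℤ) :
    (hh (i • P + j • Q) : ℤ) = hh P * i ^ 2 + (hh (P + Q) - hh P - hh Q) * i * j +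
      hh Q * j ^ 2 := by
  apply quad_form (fun x : MM a b a' b' => (hh x : ℤ))
  intro x y
  have := hh_par (two_ne p hp) hd x y
  exact_mod_cast this

/-- The number of elements of the kernel of `i • ι + j • φ`. -/
theorem count [DecidableEq (RatFunc k)] (hp : p ≠ 2) {a b : k} (hd : dsc a b ≠ 0)
    {ι φ : MM a b a b} {Φ : Pt a b →+ Pt a b} (hι : Compat ι (AddMonoidHom.id (Pt a b)))
    (hφ : Compat φ Φ) (hc : HasC ι 1) (hc' : HasC φ 0) (hI : InO ι) (hI' : InO φ) (i j : ℤ)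
    (hi : ¬ (p : ℤ) ∣ i) :
    Nat.card {P : Pt a b // i • P + j • Φ P = 0} = hh (i • ι + j • φ) := by
  have h2 : (2 : k) ≠ 0 := two_ne p hp
  have h1 : HasC (i • ι + j • φ) ((i : k) * 1 + (j : k) * 0) :=
    HasC_add h2 hd (HasC_zsmul h2 hd hc i) (HasC_zsmul h2 hd hc' j)
  have h3 : ((i : k) * 1 + (j : k) * 0) ≠ 0 := by
    rw [mul_one, mul_zero, add_zero]
    intro h
    exact hi ((CharP.intCast_eq_zero_iff k p i).mp h)
  have h4 : InO (i • ι + j • φ) := InO_add h2 hd (InO_zsmul h2 hd hI i) (InO_zsmul h2 hd hI' j)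
  have h5 : Compat (i • ι + j • φ) (i • AddMonoidHom.id (Pt a b) + j • Φ) :=
    Compat_add h2 hd (Compat_zsmul h2 hd hι i) (Compat_zsmul h2 hd hφ j)
  rw [← ker_card h2 hd hd h3 h1 h4 h5]
  rfl

end FHasse

/-- The degree form on `1` and Frobenius. -/
theorem deg_frob (hp : p ≠ 2) {a b : k} (hd : dsc a b ≠ 0) (ha : a ^ p = a) (hb : b ^ p = b) :
    ∃ t : ℤ, t ^ 2 ≤ 4 * p ∧ ∀ i j : ℤ, ¬ (p : ℤ) ∣ i →
      (Nat.card {P : Pt a b // i • P + j • frobPt p ha hb P = 0} : ℤ) =
        i ^ 2 + t * i * j + p * j ^ 2 := by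
  classical
  have h2 : (2 : k) ≠ 0 := FHasse.two_ne p hp
  obtain ⟨ι, hι1, hι2, hι3, hι4, hι5, hι6⟩ := id_exists h2 hd
  obtain ⟨φ, hφ1, hφ2, hφ3, hφ4, hφ5⟩ := frob_exists p hp hd ha hb 1
  have hφ6 := hφ5 (frobPt p ha hb) (fun P => rfl)
  have hφ7 := hφ4 one_pos
  have hq : ∀ i j : ℤ, (hh (i • ι + j • φ) : ℤ) =
      i ^ 2 + ((hh (ι + φ) : ℤ) - 1 - p) * i * j + p * j ^ 2 := by
    intro i j
    rw [FHasse.quad p hp hd ι φ i j, hι3, hφ2]
    push_cast
    ring
  refine ⟨(hh (ι + φ) : ℤ) - 1 - p, ?_, ?_⟩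
  · have := quad_disc (A := 1) (B := (hh (ι + φ) : ℤ) - 1 - p) (C := p) (fun i j => by
      rw [one_mul, ← hq i j]
      positivity)
    linarith
  · intro i j hi
    rw [FHasse.count p hp hd hι6 hφ6 hι5 hφ7 hι4 hφ3 i j hi, hq i j]

/-- A curve over `F_p`, `p ≥ 5`, without `p`-torsion, has `p + 1` points over `F_p`. -/
theorem supersingular_card (hp : 5 ≤ p) {a b : k} (hd : dsc a b ≠ 0) (ha : a ^ p = a)
    (hb : b ^ p = b) (htors : ∀ P : Pt a b, p • P = 0 → P = 0) :
    Nat.card {P : Pt a b // frobPt p ha hb P = P} = p + 1 := by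
  have hp2 : p ≠ 2 := by omega
  obtain ⟨t, ht, hc⟩ := deg_frob p hp2 hd ha hb
  have hpp : p.Prime := Fact.out
  have h1 : (p : ℤ) ∣ t := by
    by_contra hnt
    have h3 := hc t (-1) hnt
    have h4 : (t ^ 2 + t * t * (-1) + (p : ℤ) * (-1) ^ 2) = p := by ring
    rw [h4] at h3
    let Ψ : Pt a b →+ Pt a b := t • AddMonoidHom.id (Pt a b) + (-1 : ℤ) • frobPt p ha hb
    have h5 : Nat.card Ψ.ker = p := by
      have : Nat.card Ψ.ker = Nat.card {P : Pt a b // t • P + (-1 : ℤ) • frobPt p ha hb P = 0} := rfl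
      rw [this]
      exact_mod_cast h3
    have h6 : ∀ x : Ψ.ker, x = 0 := by
      intro x
      have h7 : Nat.card Ψ.ker • x = 0 := card_nsmul_eq_zero'
      rw [h5] at h7
      apply Subtype.ext
      apply htors
      exact congrArg Subtype.val h7
    have h8 : Nat.card Ψ.ker = 1 := by
      rw [Nat.card_eq_one_iff_unique]
      exact ⟨⟨fun x y => by rw [h6 x, h6 y]⟩, ⟨0⟩⟩
    have h9 := hpp.one_lt
    omega
  have h2 : t = 0 := by
    obtain ⟨c, rfl⟩ := h1
    have h3 : (p : ℤ) * (p * c ^ 2) ≤ p * 4 := by nlinarith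
    have h4 : (0 : ℤ) < p := by positivity
    have h5 := le_of_mul_le_mul_left h3 h4
    have h6 : c ^ 2 < 1 := by
      by_contra h7
      push Not at h7
      have h8 : (5 : ℤ) ≤ p := by exact_mod_cast hp
      nlinarith
    have h7 : c = 0 := by
      by_contra h8
      have : 0 < c ^ 2 := by positivity
      omega
    rw [h7, mul_zero]
  have h3 := hc 1 (-1) (by
    intro h
    have h4 := Int.le_of_dvd one_pos h
    have : (5 : ℤ) ≤ p := by exact_mod_cast hp
    omega)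
  rw [h2] at h3
  have h4 : Nat.card {P : Pt a b // frobPt p ha hb P = P} =
      Nat.card {P : Pt a b // (1 : ℤ) • P + (-1 : ℤ) • frobPt p ha hb P = 0} := by
    apply Nat.card_congr
    apply Equiv.subtypeEquivRight
    intro P
    rw [one_zsmul, neg_one_zsmul, ← sub_eq_add_neg, sub_eq_zero]
    exact eq_comm
  rw [h4]
  have h5 : ((Nat.card {P : Pt a b // (1 : ℤ) • P + (-1 : ℤ) • frobPt p ha hb P = 0} : ℕ) : ℤ) =
      ((p + 1 : ℕ) : ℤ) := by
    rw [h3]
    push_cast
    ring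
  exact_mod_cast h5

/-- A curve over `F_p` with `p + 1` points over `F_p` satisfies `Frob² = -p`. -/
theorem frob_sq_of_card (hp : p ≠ 2) {a b : k} (hd : dsc a b ≠ 0) (ha : a ^ p = a)
    (hb : b ^ p = b) (hc : Nat.card {P : Pt a b // frobPt p ha hb P = P} = p + 1) (P : Pt a b) :
    frobPt p ha hb (frobPt p ha hb P) = -(p • P) := by
  classical
  have h2 : (2 : k) ≠ 0 := FHasse.two_ne p hp
  have hpp : p.Prime := Fact.out
  obtain ⟨ι, hι1, hι2, hι3, hι4, hι5, hι6⟩ := id_exists h2 hd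
  obtain ⟨φ, hφ1, hφ2, hφ3, hφ4, hφ5⟩ := frob_exists p hp hd ha hb 1
  have hφ6 := hφ5 (frobPt p ha hb) (fun P => rfl)
  have hφ7 := hφ4 one_pos
  obtain ⟨ψ, hψ1, hψ2, hψ3, hψ4, hψ5⟩ := frob_exists p hp hd ha hb 2
  have hψ6 := hψ5 ((frobPt p ha hb).comp (frobPt p ha hb)) (fun P => rfl)
  have hψ7 := hψ4 two_pos
  have hp1 : ¬ (p : ℤ) ∣ 1 := by
    intro h
    have h4 := Int.le_of_dvd one_pos h
    have := hpp.one_lt
    omega
  have hp1' : ¬ (p : ℤ) ∣ -1 := by
    intro h
    exact hp1 (by simpa using h)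
  -- the number of fixed points
  have c1 : Nat.card (frobPt p ha hb - AddMonoidHom.id (Pt a b) : Pt a b →+ Pt a b).ker =
      p + 1 := by
    rw [← hc]
    apply Nat.card_congr
    apply Equiv.subtypeEquivRight
    intro P
    rw [AddMonoidHom.mem_ker, AddMonoidHom.sub_apply, AddMonoidHom.id_apply, sub_eq_zero]
  have q1 := FHasse.quad p hp hd ι φ
  have c2 : (hh (ι + φ) : ℤ) = p + 1 := by
    have e1 := FHasse.count p hp hd hι6 hφ6 hι5 hφ7 hι4 hφ3 1 (-1) hp1
    have e2 : Nat.card {P : Pt a b // (1 : ℤ) • P + (-1 : ℤ) • frobPt p ha hb P = 0} = p + 1 := by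
      rw [← hc]
      apply Nat.card_congr
      apply Equiv.subtypeEquivRight
      intro P
      rw [one_zsmul, neg_one_zsmul, ← sub_eq_add_neg, sub_eq_zero]
      exact eq_comm
    rw [e2] at e1
    have e3 := q1 1 (-1)
    rw [← e1, hι3, hφ2] at e3
    push_cast at e3
    linarith
  have c3 : Nat.card (frobPt p ha hb + AddMonoidHom.id (Pt a b) : Pt a b →+ Pt a b).ker =
      p + 1 := by
    have e1 := FHasse.count p hp hd hι6 hφ6 hι5 hφ7 hι4 hφ3 1 1 hp1
    rw [one_zsmul, one_zsmul] at e1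
    have e2 : Nat.card (frobPt p ha hb + AddMonoidHom.id (Pt a b) : Pt a b →+ Pt a b).ker =
        Nat.card {P : Pt a b // (1 : ℤ) • P + (1 : ℤ) • frobPt p ha hb P = 0} := by
      apply Nat.card_congr
      apply Equiv.subtypeEquivRight
      intro P
      rw [AddMonoidHom.mem_ker, AddMonoidHom.add_apply, AddMonoidHom.id_apply, one_zsmul, one_zsmul,
        add_comm]
    rw [e2, e1]
    exact_mod_cast c2
  -- surjectivity
  have s1 : Function.Surjective
      (frobPt p ha hb + AddMonoidHom.id (Pt a b) : Pt a b →+ Pt a b) := by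
    have f1 : HasC (φ + ι) (0 + 1) := HasC_add h2 hd hφ7 hι5
    apply surj_of_compat h2 hd hd (ψ := φ + ι) _ (Compat_add h2 hd hφ6 hι6)
      (InO_add h2 hd hφ3 hι4)
    intro h0
    have f2 : hh (φ + ι) = 0 := by rw [h0]; exact hh_zero
    rw [add_comm φ ι] at f2
    rw [f2] at c2
    have := hpp.pos
    omega
  have c4 : Nat.card ((frobPt p ha hb - AddMonoidHom.id (Pt a b) : Pt a b →+ Pt a b).comp
      (frobPt p ha hb + AddMonoidHom.id (Pt a b) : Pt a b →+ Pt a b)).ker = (p + 1) * (p + 1) := by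
    rw [FHasse.card_ker_comp _ _ s1, c1, c3]
  have c5 : Nat.card ((frobPt p ha hb - AddMonoidHom.id (Pt a b) : Pt a b →+ Pt a b).comp
      (frobPt p ha hb + AddMonoidHom.id (Pt a b) : Pt a b →+ Pt a b)).ker =
      Nat.card {P : Pt a b // (-1 : ℤ) • P +
        (1 : ℤ) • ((frobPt p ha hb).comp (frobPt p ha hb)) P = 0} := by
    apply Nat.card_congr
    apply Equiv.subtypeEquivRight
    intro P
    rw [AddMonoidHom.mem_ker, AddMonoidHom.comp_apply, AddMonoidHom.sub_apply,
      AddMonoidHom.add_apply, AddMonoidHom.id_apply, AddMonoidHom.id_apply, map_add,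
      neg_one_zsmul, one_zsmul, AddMonoidHom.comp_apply]
    have : frobPt p ha hb (frobPt p ha hb P) + frobPt p ha hb P - (frobPt p ha hb P + P) =
        -P + frobPt p ha hb (frobPt p ha hb P) := by abel
    rw [this]
  have c6 := FHasse.count p hp hd hι6 hψ6 hι5 hψ7 hι4 hψ3 (-1) 1 hp1'
  rw [← c5, c4] at c6
  have q2 := FHasse.quad p hp hd ι ψ
  have c7 : (hh (ι + ψ) : ℤ) = p ^ 2 + 1 - 2 * p := by
    have e3 := q2 (-1) 1
    rw [← c6, hι3, hψ2] at e3
    push_cast at e3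
    linarith
  have c8 : hh ((p : ℤ) • ι + (1 : ℤ) • ψ) = 0 := by
    have e3 := q2 p 1
    rw [c7, hι3, hψ2] at e3
    have : (hh ((p : ℤ) • ι + (1 : ℤ) • ψ) : ℤ) = 0 := by
      rw [e3]
      push_cast
      ring
    exact_mod_cast this
  have c9 := eq_zero_of_hh _ c8 (InO_add h2 hd (InO_zsmul h2 hd hι4 p) (InO_zsmul h2 hd hψ3 1))
  have c10 := Compat_add h2 hd (Compat_zsmul h2 hd hι6 p) (Compat_zsmul h2 hd hψ6 1)
  rw [c9] at c10
  have c11 := eq_zero_of_compat h2 hd c10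
  have c12 := DFunLike.congr_fun c11 P
  rw [AddMonoidHom.add_apply, AddMonoidHom.zero_apply] at c12
  have c13 : (p : ℤ) • P + (1 : ℤ) • frobPt p ha hb (frobPt p ha hb P) = 0 := c12
  rw [one_zsmul, natCast_zsmul] at c13
  exact (neg_eq_of_add_eq_zero_right c13).symm

end

end LT
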