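import Pool.Agent.Lib_MP_f1937f_nt.FEv

/-!
# MP_f1937f_nt: the value at the points of order 2 (piece FKERA)
-/

namespace LT

open Polynomial WeierstrassCurve

variable {k : Type} [Field k] [DecidableEq k] [IsAlgClosed k]

namespace FKerA

section

variable {k : Type} [Field k] [DecidableEq k]

/-- Adding a point `(e, 0)`. -/
theorem add_two {a b : k} {t y x : k} (ht : (SW a b).toAffine.Nonsingular t y)
    (hx : (SW a b).toAffine.Nonsingular x 0) (htx : t ≠ x) :
    ∃ h', (Affine.Point.some t y ht + Affine.Point.some x 0 hx : Pt a b) =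
      .some (x + (3 * x ^ 2 + a) / (t - x)) (-(y * (3 * x ^ 2 + a) / (t - x) ^ 2)) h' := by
  have hs : t - x ≠ 0 := sub_ne_zero.2 htx
  have e1 : y ^ 2 = t ^ 3 + a * t + b := sw_equation.1 ht.1
  have e2 : (0 : k) ^ 2 = x ^ 3 + a * x + b := sw_equation.1 hx.1
  have hne : ¬(t = x ∧ y = (SW a b).toAffine.negY x 0) := fun h => htx h.1
  have hsl : (SW a b).toAffine.slope t x y 0 = y / (t - x) := by
    rw [Affine.slope_of_X_ne htx, sub_zero]
  have hX : (SW a b).toAffine.addX t x ((SW a b).toAffine.slope t x y 0) =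
      x + (3 * x ^ 2 + a) / (t - x) := by
    rw [hsl, Affine.addX]
    simp only [SW]
    field_simp
    linear_combination e1 - e2
  have hY : (SW a b).toAffine.addY t x y ((SW a b).toAffine.slope t x y 0) =
      -(y * (3 * x ^ 2 + a) / (t - x) ^ 2) := by
    rw [Affine.addY, Affine.negAddY, hX, hsl, Affine.negY]
    simp only [SW]
    field_simp
    ring
  rw [Affine.Point.add_some hne]
  refine ⟨?_, ?_⟩
  · rw [← hX, ← hY]
    exact Affine.nonsingular_add ht hx hne
  · congr 1

theorem add_self_zero {a b x : k} (hx : (SW a b).toAffine.Nonsingular x 0) :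
    (Affine.Point.some x 0 hx + Affine.Point.some x 0 hx : Pt a b) = 0 :=
  Affine.Point.add_of_Y_eq rfl (by simp [Affine.negY, SW])

/-- The polynomial `s ^ n P(x + δ / s)`. -/
noncomputable def st (P : k[X]) (x δ : k) (n : ℕ) : k[X] :=
  ∑ i ∈ Finset.range (n + 1), C ((taylor x P).coeff i * δ ^ i) * X ^ (n - i)

theorem st_eval (P : k[X]) (x δ : k) (n : ℕ) (hn : P.natDegree ≤ n) {s : k} (hs : s ≠ 0) :
    (st P x δ n).eval s = s ^ n * P.eval (x + δ / s) := by
  have h1 : P.eval (x + δ / s) = (taylor x P).eval (δ / s) := by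
    rw [taylor_eval, add_comm]
  have h2 : (taylor x P).natDegree < n + 1 := by
    rw [natDegree_taylor]; omega
  rw [h1, eval_eq_sum_range' h2, st, eval_finsetSum, Finset.mul_sum]
  apply Finset.sum_congr rfl
  intro i hi
  have hin : i ≤ n := by
    have := Finset.mem_range.1 hi
    omega
  simp only [eval_mul, eval_C, eval_pow, eval_X]
  have h3 : s ^ n = s ^ (n - i) * s ^ i := by
    rw [← pow_add, Nat.sub_add_cancel hin]
  rw [h3, div_pow]
  field_simp

theorem st_natDegree (P : k[X]) (x δ : k) (n : ℕ) : (st P x δ n).natDegree ≤ n := by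
  unfold st
  apply natDegree_sum_le_of_forall_le
  intro i hi
  refine (natDegree_C_mul_X_pow_le _ _).trans ?_
  omega

theorem st_coeff (P : k[X]) (x δ : k) (n : ℕ) : (st P x δ n).coeff n = P.eval x := by
  unfold st
  rw [finsetSum_coeff, Finset.sum_eq_single 0]
  · rw [Nat.sub_zero, coeff_C_mul_X_pow, if_pos rfl, taylor_coeff_zero, pow_zero, mul_one]
  · intro i hi hi0
    rw [coeff_C_mul_X_pow, if_neg]
    have := Finset.mem_range.1 hi
    omega
  · intro h
    exact absurd (Finset.mem_range.2 (Nat.succ_pos n)) h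

/-- If `s ^ n P₁(x + δ / s) Q₁(x + s) = s ^ n P₂(x + δ / s) Q₂(x + s)` for infinitely many `s`, then
the coefficients of `s ^ (2 n)` agree. -/
theorem top_coeff [Infinite k] {P₁ P₂ Q₁ Q₂ R : k[X]} {x δ : k} {n : ℕ} (hP₁ : P₁.natDegree ≤ n)
    (hP₂ : P₂.natDegree ≤ n) (hQ₁ : Q₁.natDegree ≤ n) (hQ₂ : Q₂.natDegree ≤ n) (hR : R ≠ 0)
    (h : ∀ t : k, t ≠ x → R.eval t ≠ 0 →
      P₁.eval (x + δ / (t - x)) * Q₁.eval t = P₂.eval (x + δ / (t - x)) * Q₂.eval t) :
    P₁.eval x * Q₁.coeff n = P₂.eval x * Q₂.coeff n := by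
  -- coefficient n of the Taylor shift, for degree ≤ n
  have hco : ∀ Q : k[X], Q.natDegree ≤ n → (taylor x Q).coeff n = Q.coeff n := by
    intro Q hQ
    rcases hQ.lt_or_eq with h1 | h1
    · rw [coeff_eq_zero_of_natDegree_lt h1, coeff_eq_zero_of_natDegree_lt (by
        rw [natDegree_taylor]; exact h1)]
    · rw [← h1, coeff_taylor_natDegree]
      rfl
  have hpoly : st P₁ x δ n * taylor x Q₁ = st P₂ x δ n * taylor x Q₂ := by
    apply eq_of_infinite_eval_eq
    have hR' : X * taylor x R ≠ 0 := by
      apply mul_ne_zero X_ne_zero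
      intro h1
      apply hR
      exact taylor_injective x (by rw [h1, map_zero])
    have hinf : ((X * taylor x R).roots.toFinset : Set k)ᶜ.Infinite :=
      (Finset.finite_toSet _).infinite_compl
    refine hinf.mono ?_
    intro s hs
    have hs' : (X * taylor x R).eval s ≠ 0 := by
      intro h1
      apply hs
      rw [Finset.mem_coe, Multiset.mem_toFinset, mem_roots hR']
      exact h1
    rw [eval_mul, eval_X, taylor_eval] at hs'
    have hs0 : s ≠ 0 := left_ne_zero_of_mul hs'
    have hs1 : R.eval (s + x) ≠ 0 := right_ne_zero_of_mul hs'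
    have h3 := h (s + x) (by
      intro h4
      apply hs0
      linear_combination h4) hs1
    rw [add_sub_cancel_right] at h3
    show eval s _ = eval s _
    rw [eval_mul, eval_mul, st_eval _ _ _ _ hP₁ hs0, st_eval _ _ _ _ hP₂ hs0, taylor_eval,
      taylor_eval, mul_assoc, mul_assoc, h3]
  have h1 : (st P₁ x δ n * taylor x Q₁).coeff (n + n) =
      (st P₂ x δ n * taylor x Q₂).coeff (n + n) := by rw [hpoly]
  rw [coeff_mul_add_eq_of_natDegree_le (st_natDegree _ _ _ _) (by rw [natDegree_taylor]; exact hQ₁),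
    coeff_mul_add_eq_of_natDegree_le (st_natDegree _ _ _ _) (by rw [natDegree_taylor]; exact hQ₂),
    st_coeff, st_coeff, hco _ hQ₁, hco _ hQ₂] at h1
  exact h1

end

end FKerA

open FKerA

/-- The value at the points of order `2`. -/
theorem compat_two (h2 : (2 : k) ≠ 0) {a b a' b' : k} (hd : dsc a b ≠ 0) (hd' : dsc a' b' ≠ 0)
    {ψ : MM a b a' b'} (h0 : ψ ≠ .zero) {Ψ : Pt a b →+ Pt a' b'} (hC : Compat ψ Ψ) (hI : InO ψ)
    {x : k} (h : (SW a b).toAffine.Nonsingular x 0) :
    ((uu ψ).denom.eval x = 0 → Ψ (.some x 0 h) = 0) ∧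
      ((uu ψ).denom.eval x ≠ 0 → ∃ h', Ψ (.some x 0 h) =
        .some ((uu ψ).eval (RingHom.id k) x) 0 h') := by
  have hinf : Infinite k := IsAlgClosed.instInfinite
  have hdeg : (uu ψ).denom.natDegree < (uu ψ).num.natDegree := hI.resolve_left h0
  have hD0 : (uu ψ).denom ≠ 0 := RatFunc.denom_ne_zero _
  have hcop : IsCoprime (uu ψ).num (uu ψ).denom := RatFunc.isCoprime_num_denom _
  have hev : ∀ t, (uu ψ).eval (RingHom.id k) t = (uu ψ).num.eval t / (uu ψ).denom.eval t := by
    intro t
    rw [RatFunc.eval, eval₂_id, eval₂_id]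
  set N := (uu ψ).num with hN
  set D := (uu ψ).denom with hDdef
  set n := N.natDegree with hn
  have hN0 : N ≠ 0 := by
    intro h1
    rw [h1, natDegree_zero] at hn
    omega
  have hlc : N.coeff n ≠ 0 := by
    have : N.coeff n = N.leadingCoeff := rfl
    rw [this]
    exact leadingCoeff_ne_zero.2 hN0
  have hDn : D.coeff n = 0 := coeff_eq_zero_of_natDegree_lt hdeg
  have hf0 : fP a b ≠ 0 := by
    intro h1
    have h3 : (fP a b).natDegree = 3 := by
      unfold fP
      compute_degree!
    rw [h1, natDegree_zero] at h3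
    omega
  have hfx : (fP a b).eval x = 0 := by
    have := sw_equation.1 h.1
    simp only [fP, eval_add, eval_pow, eval_X, eval_mul, eval_C]
    rw [← this]; ring
  set δ := 3 * x ^ 2 + a with hδ
  have hδ0 : δ ≠ 0 := by
    intro h1
    have h3 := ((SW a b).toAffine.nonsingular_iff x 0).1 h
    have e2 : (0 : k) ^ 2 = x ^ 3 + a * x + b := sw_equation.1 h.1
    apply hd
    have ha : a = -3 * x ^ 2 := by linear_combination h1
    have hb : b = 2 * x ^ 3 := by
      rw [ha] at e2
      linear_combination -e2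
    unfold dsc
    rw [ha, hb]
    ring
  -- points `P = (t, y)` and `P + T`
  have hP : ∀ t : k, t ≠ x → (fP a b).eval t ≠ 0 → ∃ (y : k) (ht : (SW a b).toAffine.Nonsingular t y)
      (y' : k) (ht' : (SW a b).toAffine.Nonsingular (x + δ / (t - x)) y'), y ≠ 0 ∧ y' ≠ 0 ∧
      Ψ (.some (x + δ / (t - x)) y' ht') = Ψ (.some t y ht) + Ψ (.some x 0 h) := by
    intro t htx hft
    obtain ⟨y, hy⟩ := IsAlgClosed.exists_pow_nat_eq ((fP a b).eval t) (by norm_num : 0 < 2)
    have hy' : y ^ 2 = t ^ 3 + a * t + b := by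
      rw [hy]
      simp [fP]
    have hy0 : y ≠ 0 := by
      rintro rfl
      apply hft
      rw [← hy]
      ring
    have ht : (SW a b).toAffine.Nonsingular t y := (sw_nons h2 hd).2 hy'
    obtain ⟨h3, h4⟩ := add_two ht h htx
    refine ⟨y, ht, _, h3, hy0, ?_, ?_⟩
    · rw [neg_ne_zero]
      exact div_ne_zero (mul_ne_zero hy0 hδ0) (pow_ne_zero 2 (sub_ne_zero.2 htx))
    · rw [← map_add, h4]
  -- the value at T
  have hS : Ψ (.some x 0 h) = 0 ∨ ∃ (e : k) (he : (SW a' b').toAffine.Nonsingular e 0),
      Ψ (.some x 0 h) = .some e 0 he := by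
    have h3 : Ψ (.some x 0 h) + Ψ (.some x 0 h) = 0 := by
      rw [← map_add, add_self_zero, map_zero]
    rcases hP' : Ψ (.some x 0 h) with _ | ⟨e, v, he⟩
    · left; rfl
    · right
      rw [hP'] at h3
      have h4 : (Affine.Point.some e v he : Pt a' b') = -Affine.Point.some e v he :=
        eq_neg_of_add_eq_zero_left h3
      rw [Affine.Point.neg_some] at h4
      have h5 := ((Affine.Point.some.injEq ..).mp h4).2
      have h6 : v = 0 := by
        simp only [Affine.negY, SW] at h5
        have : (2 : k) * v = 0 := by linear_combination h5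
        exact (mul_eq_zero.1 this).resolve_left h2
      subst h6
      exact ⟨e, he, rfl⟩
  rcases hS with hS | ⟨e, he, hS⟩
  · -- S = 0
    have key : N.eval x * D.coeff n = D.eval x * N.coeff n := by
      apply top_coeff (δ := δ) (R := fP a b * D) le_rfl hdeg.le hdeg.le le_rfl
        (mul_ne_zero hf0 hD0)
      intro t htx hRt
      rw [eval_mul] at hRt
      have hft := left_ne_zero_of_mul hRt
      have hDt := right_ne_zero_of_mul hRt
      obtain ⟨y, ht, y', ht', hy0, hy0', hΨ⟩ := hP t htx hft
      rw [hS, add_zero] at hΨ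
      obtain ⟨h3, h4⟩ := ((hC t y ht hy0).2 h0).2 hDt
      by_cases hD3 : D.eval (x + δ / (t - x)) = 0
      · exfalso
        have h5 := ((hC _ y' ht' hy0').2 h0).1 hD3
        rw [h5, h4] at hΨ
        exact absurd hΨ (by rintro ⟨⟩)
      · obtain ⟨h5, h6⟩ := ((hC _ y' ht' hy0').2 h0).2 hD3
        rw [h4, h6] at hΨ
        have h7 := ((Affine.Point.some.injEq ..).mp hΨ).1
        rw [hev, hev, div_eq_div_iff hD3 hDt] at h7
        rw [h7]; ring
    rw [hDn, mul_zero] at key
    have hDx : D.eval x = 0 := (mul_eq_zero.1 key.symm).resolve_right hlc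
    exact ⟨fun _ => hS, fun h3 => absurd hDx h3⟩
  · -- S = (e, 0)
    have hNe : N - C e * D ≠ 0 := by
      intro h1
      apply hlc
      have h3 := congrArg (fun p => coeff p n) h1
      simp only [coeff_sub, coeff_C_mul, hDn, mul_zero, sub_zero, coeff_zero] at h3
      exact h3
    have hNedeg : (N - C e * D).natDegree ≤ n := by
      refine (natDegree_sub_le _ _).trans (max_le le_rfl ?_)
      exact (natDegree_C_mul_le _ _).trans hdeg.le
    set g := 3 * e ^ 2 + a' with hg
    have key : N.eval x * (N - C e * D).coeff n =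
        D.eval x * (C e * (N - C e * D) + C g * D).coeff n := by
      apply top_coeff (δ := δ) (R := fP a b * D * (N - C e * D)) le_rfl hdeg.le hNedeg ?_
        (mul_ne_zero (mul_ne_zero hf0 hD0) hNe)
      · intro t htx hRt
        rw [eval_mul, eval_mul] at hRt
        have hft := left_ne_zero_of_mul (left_ne_zero_of_mul hRt)
        have hDt := right_ne_zero_of_mul (left_ne_zero_of_mul hRt)
        have hNt := right_ne_zero_of_mul hRt
        obtain ⟨y, ht, y', ht', hy0, hy0', hΨ⟩ := hP t htx hft
        obtain ⟨h3, h4⟩ := ((hC t y ht hy0).2 h0).2 hDt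
        have hUe : (uu ψ).eval (RingHom.id k) t ≠ e := by
          intro h5
          rw [hev, div_eq_iff hDt] at h5
          apply hNt
          rw [eval_sub, eval_mul, eval_C, h5]
          ring
        rw [hS, h4] at hΨ
        obtain ⟨h8, h9⟩ := add_two h3 he hUe
        rw [h9] at hΨ
        by_cases hD3 : D.eval (x + δ / (t - x)) = 0
        · exfalso
          have h5 := ((hC _ y' ht' hy0').2 h0).1 hD3
          rw [h5] at hΨ
          exact absurd hΨ (by rintro ⟨⟩)
        · obtain ⟨h5, h6⟩ := ((hC _ y' ht' hy0').2 h0).2 hD3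
          rw [h6] at hΨ
          have h7 := ((Affine.Point.some.injEq ..).mp hΨ).1
          rw [hev, hev] at h7
          simp only [eval_sub, eval_mul, eval_C, eval_add] at hNt ⊢
          rw [div_eq_iff hD3] at h7
          rw [h7]
          have h10 : N.eval t / D.eval t - e ≠ 0 := by
            intro h11
            apply hNt
            have : N.eval t / D.eval t = e := by linear_combination h11
            rw [div_eq_iff hDt] at this
            rw [this]
            ring
          have h11 : N.eval t - e * D.eval t ≠ 0 := hNt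
          have h12 : (3 * e ^ 2 + a') / (N.eval t / D.eval t - e) =
              (3 * e ^ 2 + a') * D.eval t / (N.eval t - e * D.eval t) := by
            rw [div_eq_div_iff h10 h11]
            field_simp
          rw [h12, hg]
          generalize D.eval (x + δ / (t - x)) = Z
          field_simp
      · refine (natDegree_add_le _ _).trans (max_le ?_ ?_)
        · exact (natDegree_C_mul_le _ _).trans hNedeg
        · exact (natDegree_C_mul_le _ _).trans hdeg.le
    simp only [coeff_sub, coeff_C_mul, coeff_add, hDn, mul_zero, sub_zero, add_zero] at key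
    have key2 : N.eval x = D.eval x * e := by
      have : (N.eval x) * N.coeff n = (D.eval x * e) * N.coeff n := by
        rw [key]; ring
      exact mul_right_cancel₀ hlc this
    have hDx : D.eval x ≠ 0 := by
      intro h1
      rw [h1, zero_mul] at key2
      obtain ⟨u, v, huv⟩ := hcop
      have h3 := congrArg (eval x) huv
      rw [eval_add, eval_mul, eval_mul, h1, key2, mul_zero, mul_zero, add_zero, eval_one] at h3
      exact zero_ne_one h3
    refine ⟨fun h3 => absurd h3 hDx, fun _ => ?_⟩
    have hUx : (uu ψ).eval (RingHom.id k) x = e := by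
      rw [hev, key2]
      field_simp
    rw [hS]
    refine ⟨by rw [hUx]; exact he, ?_⟩
    congr 1
    exact hUx.symm

end LT
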