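import Pool.Agent.Lib_MP_f1937f_nt.FKerS
import Pool.Agent.Lib_MP_f1937f_nt.FKerA

/-!
# MP_f1937f_nt: the kernel of a separable map has `deg` elements (piece FKER)
-/

namespace LT

open Polynomial WeierstrassCurve

namespace FKer

variable {k : Type} [Field k]

theorem eval_fP (a b x : k) : (fP a b).eval x = x ^ 3 + a * x + b := by
  simp [fP]

theorem eval_uu {a b a' b' : k} (ψ : MM a b a' b') (x : k) :
    (uu ψ).eval (RingHom.id k) x = (uu ψ).num.eval x / (uu ψ).denom.eval x := by
  simp only [RatFunc.eval, Polynomial.eval, RingHom.id]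

theorem neg_eq_self_iff (h2 : (2 : k) ≠ 0) {y : k} : -y = y ↔ y = 0 := by
  constructor
  · intro h
    have : (2 : k) * y = 0 := by linear_combination -h
    exact (mul_eq_zero.mp this).resolve_left h2
  · rintro rfl
    exact neg_zero

theorem negY_sw {a b x y : k} : (SW a b).toAffine.negY x y = -y := by
  simp [SW, Affine.negY]

variable [DecidableEq k]

omit [DecidableEq k] in
theorem neg_some {a b x y : k} (h : (SW a b).toAffine.Nonsingular x y) :
    ∃ h', -(Affine.Point.some x y h : Pt a b) = .some x (-y) h' := by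
  have h1 : (SW a b).toAffine.Nonsingular x (-y) := by
    rw [← negY_sw (a := a) (b := b) (x := x)]
    exact (Affine.nonsingular_neg x y).mpr h
  refine ⟨h1, ?_⟩
  rw [Affine.Point.neg_some]
  congr 1
  exact negY_sw

/-- a nonzero point of order two has `y = 0` -/
theorem y_eq_zero_of_two (h2 : (2 : k) ≠ 0) {a b x y : k} (h : (SW a b).toAffine.Nonsingular x y)
    (hP : (Affine.Point.some x y h : Pt a b) + .some x y h = 0) : y = 0 := by
  have h1 : (Affine.Point.some x y h : Pt a b) = -(.some x y h) := eq_neg_of_add_eq_zero_left hP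
  obtain ⟨h', hn⟩ := neg_some h
  rw [hn] at h1
  have := (Affine.Point.some.injEq ..).mp h1
  exact (neg_eq_self_iff h2).mp this.2.symm

theorem two_of_y_eq_zero {a b x : k} (h : (SW a b).toAffine.Nonsingular x 0) :
    (Affine.Point.some x 0 h : Pt a b) + .some x 0 h = 0 := by
  obtain ⟨h', hn⟩ := neg_some h
  have : (Affine.Point.some x 0 h : Pt a b) = -(.some x 0 h) := by
    rw [hn]
    congr 1
    exact neg_zero.symm
  rw [eq_neg_iff_add_eq_zero] at this
  exact this

end FKer

open FKer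

variable {k : Type} [Field k] [DecidableEq k] [IsAlgClosed k]

namespace FKer

omit [DecidableEq k] in
theorem sqrt_exists (c : k) : ∃ s : k, s ^ 2 = c := IsAlgClosed.exists_pow_nat_eq c (by norm_num)

/-- there is a point which is not of order two -/
theorem exists_y_ne_zero (h2 : (2 : k) ≠ 0) {a b : k} (hd : dsc a b ≠ 0) :
    ∃ (x y : k) (_ : (SW a b).toAffine.Nonsingular x y), y ≠ 0 := by
  have hinf : Infinite k := IsAlgClosed.instInfinite
  have hf : fP a b ≠ 0 := by
    intro h
    have : (fP a b).coeff 3 = 0 := by rw [h]; simp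
    simp [fP] at this
  obtain ⟨x, hx⟩ := Infinite.exists_notMem_finset (fP a b).roots.toFinset
  rw [Multiset.mem_toFinset, mem_roots hf, IsRoot.def, eval_fP] at hx
  obtain ⟨y, hy⟩ := sqrt_exists (x ^ 3 + a * x + b)
  refine ⟨x, y, (sw_nons h2 hd).mpr hy, ?_⟩
  rintro rfl
  apply hx
  rw [← hy]
  ring

end FKer

/-- If the map is zero, the homomorphism is zero. -/
theorem eq_zero_of_compat (h2 : (2 : k) ≠ 0) {a b a' b' : k} (hd : dsc a b ≠ 0)
    {Ψ : Pt a b →+ Pt a' b'} (hC : Compat (.zero : MM a b a' b') Ψ) : Ψ = 0 := by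
  have key : ∀ (x y : k) (h : (SW a b).toAffine.Nonsingular x y), y ≠ 0 → Ψ (.some x y h) = 0 :=
    fun x y h hy => (hC x y h hy).1 rfl
  obtain ⟨x₀, y₀, h₀, hy₀⟩ := exists_y_ne_zero h2 hd
  ext P
  rcases P with _ | ⟨x, y, h⟩
  · exact map_zero Ψ
  · by_cases hy : y = 0
    · subst hy
      obtain ⟨S, hS⟩ : ∃ S : Pt a b, S = .some x 0 h + .some x₀ y₀ h₀ := ⟨_, rfl⟩
      have hS2 : S + S ≠ 0 := by
        intro h0
        rw [hS] at h0
        have h3 := two_of_y_eq_zero h
        have h4 : (Affine.Point.some x₀ y₀ h₀ : Pt a b) + .some x₀ y₀ h₀ = 0 := by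
          calc (Affine.Point.some x₀ y₀ h₀ : Pt a b) + .some x₀ y₀ h₀
              = (Affine.Point.some x 0 h + .some x 0 h) +
                  (.some x₀ y₀ h₀ + .some x₀ y₀ h₀) := by rw [h3, zero_add]
            _ = (.some x 0 h + .some x₀ y₀ h₀) + (.some x 0 h + .some x₀ y₀ h₀) := by abel
            _ = 0 := h0
        exact hy₀ (y_eq_zero_of_two h2 h₀ h4)
      have hΨS : Ψ S = 0 := by
        rcases S with _ | ⟨u, v, huv⟩
        · exact map_zero Ψ
        · refine key u v huv ?_
          rintro rfl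
          exact hS2 (two_of_y_eq_zero huv)
      rw [hS, map_add, key x₀ y₀ h₀ hy₀, add_zero] at hΨS
      exact hΨS
    · exact key x y h hy

/-- A nonzero map fixing the origin is surjective on points. -/
theorem surj_of_compat (h2 : (2 : k) ≠ 0) {a b a' b' : k} (hd : dsc a b ≠ 0)
    (hd' : dsc a' b' ≠ 0) {ψ : MM a b a' b'} (h0 : ψ ≠ .zero) {Ψ : Pt a b →+ Pt a' b'}
    (hC : Compat ψ Ψ) (hI : InO ψ) : Function.Surjective Ψ := by
  intro Q
  rcases Q with _ | ⟨x', y', hQ⟩
  · exact ⟨0, map_zero Ψ⟩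
  have hdeg : (uu ψ).denom.natDegree < (uu ψ).num.natDegree := hI.resolve_left h0
  obtain ⟨t, ht⟩ : ∃ t : k, IsRoot ((uu ψ).num - C x' * (uu ψ).denom) t := by
    apply IsAlgClosed.exists_root
    have h3 : (C x' * (uu ψ).denom).natDegree < (uu ψ).num.natDegree :=
      lt_of_le_of_lt (natDegree_C_mul_le _ _) hdeg
    rw [degree_sub_eq_left_of_degree_lt (degree_lt_degree h3)]
    exact (natDegree_pos_iff_degree_pos.mp (by omega)).ne'
  rw [IsRoot.def, eval_sub, eval_mul, eval_C, sub_eq_zero] at ht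
  have hD : (uu ψ).denom.eval t ≠ 0 := by
    intro hD
    rw [hD, mul_zero] at ht
    obtain ⟨r, s, hrs⟩ := RatFunc.isCoprime_num_denom (uu ψ)
    have := congrArg (Polynomial.eval t) hrs
    rw [eval_add, eval_mul, eval_mul, ht, hD] at this
    simp at this
  have hU : (uu ψ).eval (RingHom.id k) t = x' := by
    rw [eval_uu, ht, mul_div_assoc, div_self hD, mul_one]
  have hQe := (sw_nons h2 hd').mp hQ
  by_cases hf : t ^ 3 + a * t + b = 0
  · have hn : (SW a b).toAffine.Nonsingular t 0 := (sw_nons h2 hd).mpr (by rw [hf]; ring)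
    obtain ⟨h', hΨ⟩ := (compat_two h2 hd hd' h0 hC hI hn).2 hD
    refine ⟨.some t 0 hn, ?_⟩
    have he := (sw_nons h2 hd').mp h'
    rw [hU] at he
    have hy' : y' = 0 := by
      have : y' ^ 2 = 0 := by rw [hQe, ← he]; ring
      exact pow_eq_zero_iff (two_ne_zero) |>.mp this
    rw [hΨ]
    subst hy'
    congr 1
  · obtain ⟨s, hs⟩ := sqrt_exists (t ^ 3 + a * t + b)
    have hs0 : s ≠ 0 := by
      rintro rfl
      apply hf
      rw [← hs]
      ring
    have hn : (SW a b).toAffine.Nonsingular t s := (sw_nons h2 hd).mpr hs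
    obtain ⟨h', hΨ⟩ := ((hC t s hn hs0).2 h0).2 hD
    have he := (sw_nons h2 hd').mp h'
    rw [hU, ← hQe] at he
    rcases sq_eq_sq_iff_eq_or_eq_neg.mp he with h3 | h3
    · refine ⟨.some t s hn, ?_⟩
      rw [hΨ]
      congr 1
    · refine ⟨-.some t s hn, ?_⟩
      rw [map_neg, hΨ]
      obtain ⟨h4, h5⟩ := neg_some h'
      rw [h5]
      congr 1
      rw [h3, neg_neg]

namespace FKer

/-- the two square roots of `c` -/
noncomputable def sq (c : k) : Finset k :=
  {(sqrt_exists c).choose, -(sqrt_exists c).choose}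

theorem mem_sq {c s : k} : s ∈ sq c ↔ s ^ 2 = c := by
  have h := (sqrt_exists c).choose_spec
  rw [sq, Finset.mem_insert, Finset.mem_singleton, ← sq_eq_sq_iff_eq_or_eq_neg, h]

theorem card_sq (h2 : (2 : k) ≠ 0) (c : k) : (sq c).card = if c = 0 then 1 else 2 := by
  have h := (sqrt_exists c).choose_spec
  rw [sq]
  split_ifs with hc
  · have h3 : (sqrt_exists c).choose = 0 := by
      rw [hc] at h
      rw [hc]
      exact pow_eq_zero_iff (two_ne_zero) |>.mp h
    rw [h3]
    simp
  · refine Finset.card_pair ?_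
    intro h3
    apply hc
    rw [← h, (neg_eq_self_iff h2).mp h3.symm]
    ring

/-- coordinates of a point -/
def co {a b : k} : Pt a b → Option (Σ _ : k, k)
  | .zero => none
  | .some x y _ => some ⟨x, y⟩

omit [DecidableEq k] [IsAlgClosed k] in
theorem co_injective {a b : k} : Function.Injective (co (a := a) (b := b)) := by
  rintro (_ | ⟨x₁, y₁, h₁⟩) (_ | ⟨x₂, y₂, h₂⟩) he
  · rfl
  · exact absurd he (by simp [co])
  · exact absurd he (by simp [co])
  · simp only [co, Option.some.injEq, Sigma.mk.injEq, heq_eq_eq] at he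
    obtain ⟨rfl, rfl⟩ := he
    rfl

end FKer

/-- The kernel of a separable map has `deg` elements. -/
theorem ker_card (h2 : (2 : k) ≠ 0) {a b a' b' : k} (hd : dsc a b ≠ 0) (hd' : dsc a' b' ≠ 0)
    {ψ : MM a b a' b'} {c : k} (hc : c ≠ 0) (h : HasC ψ c) (hI : InO ψ)
    {Ψ : Pt a b →+ Pt a' b'} (hC : Compat ψ Ψ) : Nat.card Ψ.ker = hh ψ := by
  classical
  have h0 : ψ ≠ .zero := by
    rintro rfl
    exact hc (h.2 vv_zero)
  obtain ⟨hdeg, hmul⟩ := ker_struct h2 hd hc h hI
  have hDne : (uu ψ).denom ≠ 0 := RatFunc.denom_ne_zero _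
  obtain ⟨K', hK'⟩ : ∃ K' : Finset (Σ _ : k, k), K' =
    (uu ψ).denom.roots.toFinset.sigma fun t => FKer.sq (t ^ 3 + a * t + b) := ⟨_, rfl⟩
  have hmem : ∀ t s : k, (⟨t, s⟩ : Σ _ : k, k) ∈ K' ↔
      (uu ψ).denom.eval t = 0 ∧ s ^ 2 = t ^ 3 + a * t + b := by
    intro t s
    rw [hK', Finset.mem_sigma, Multiset.mem_toFinset, mem_roots hDne, mem_sq]
    exact Iff.rfl
  have hcard : K'.card = (uu ψ).denom.natDegree := by
    rw [hK', Finset.card_sigma, (IsAlgClosed.splits (uu ψ).denom).natDegree_eq_card_roots,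
      ← Multiset.toFinset_sum_count_eq]
    refine Finset.sum_congr rfl fun t ht => ?_
    rw [Multiset.mem_toFinset, mem_roots hDne] at ht
    have hpos : 0 < (uu ψ).denom.rootMultiplicity t := (rootMultiplicity_pos hDne).mpr ht
    rw [count_roots, card_sq h2]
    rcases hmul t with h3 | ⟨h3, h4⟩ | ⟨h3, h4⟩
    · omega
    · rw [eval_fP] at h3
      rw [if_neg h3, h4]
    · rw [eval_fP] at h3
      rw [if_pos h3, h4]
  have hker : ∀ (x y : k) (hn : (SW a b).toAffine.Nonsingular x y),
      Ψ (.some x y hn) = 0 ↔ (uu ψ).denom.eval x = 0 := by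
    intro x y hn
    by_cases hy : y = 0
    · subst hy
      obtain ⟨h3, h4⟩ := compat_two h2 hd hd' h0 hC hI hn
      refine ⟨fun h5 => ?_, h3⟩
      by_contra h6
      obtain ⟨h', h7⟩ := h4 h6
      rw [h5] at h7
      exact absurd h7 (Affine.Point.some_ne_zero _).symm
    · obtain ⟨h3, h4⟩ := (hC x y hn hy).2 h0
      refine ⟨fun h5 => ?_, h3⟩
      by_contra h6
      obtain ⟨h', h7⟩ := h4 h6
      rw [h5] at h7
      exact absurd h7 (Affine.Point.some_ne_zero _).symm
  have himg : co '' (Ψ.ker : Set (Pt a b)) = ((insert none (K'.map Function.Embedding.some) :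
      Finset (Option (Σ _ : k, k))) : Set (Option (Σ _ : k, k))) := by
    ext o
    simp only [Set.mem_image, SetLike.mem_coe, AddMonoidHom.mem_ker, Finset.coe_insert,
      Set.mem_insert_iff, Finset.mem_map, Function.Embedding.some_apply]
    constructor
    · rintro ⟨P, hP, rfl⟩
      rcases P with _ | ⟨x, y, hn⟩
      · left; rfl
      · right
        refine ⟨⟨x, y⟩, ?_, rfl⟩
        rw [hmem]
        exact ⟨(hker x y hn).mp hP, (sw_nons h2 hd).mp hn⟩
    · rintro (rfl | ⟨⟨t, s⟩, hts, rfl⟩)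
      · exact ⟨0, map_zero Ψ, rfl⟩
      · rw [hmem] at hts
        have hn : (SW a b).toAffine.Nonsingular t s := (sw_nons h2 hd).mpr hts.2
        exact ⟨.some t s hn, (hker t s hn).mpr hts.1, rfl⟩
  have h8 : Nat.card Ψ.ker = ((Ψ.ker : Set (Pt a b))).ncard := rfl
  rw [h8, ← Set.ncard_image_of_injective _ co_injective, himg, Set.ncard_coe_finset,
    Finset.card_insert_of_notMem (by simp), Finset.card_map, hcard, hh, hdeg]
  omega

end LT
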