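import Pool.Agent.Lib_MP_f1937f_nt.FPt

/-!
# MP_f1937f_nt: the poles of a separable map (piece FKERS)
-/

namespace LT

open Polynomial WeierstrassCurve

namespace FKerS

variable {k : Type} [Field k]

/-- The polynomial form of `(U')² f = c² (U³ + a' U + b')`. -/
theorem poly_identity {a b a' b' : k} {ψ : MM a b a' b'} {c : k} (h0 : ψ ≠ .zero)
    (h : HasC ψ c) :
    (derivative (uu ψ).num * (uu ψ).denom - (uu ψ).num * derivative (uu ψ).denom) ^ 2 *
        fP a b =
      C (c ^ 2) * (uu ψ).denom * ((uu ψ).num ^ 3 + C a' * (uu ψ).num * (uu ψ).denom ^ 2 +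
        C b' * (uu ψ).denom ^ 3) := by
  have hD : (uu ψ).denom ≠ 0 := RatFunc.denom_ne_zero _
  have hU : uu ψ = algebraMap k[X] (RatFunc k) (uu ψ).num /
      algebraMap k[X] (RatFunc k) (uu ψ).denom := (RatFunc.num_div_denom _).symm
  have h2 := uu_vv_eq h0
  have h3 : dR (uu ψ) ^ 2 * fR a b =
      RatFunc.C c ^ 2 * (uu ψ ^ 3 + RatFunc.C a' * uu ψ + RatFunc.C b') := by
    rw [h.1]
    linear_combination RatFunc.C c ^ 2 * h2
  unfold dR fR at h3
  set w := derivative (uu ψ).num * (uu ψ).denom - (uu ψ).num * derivative (uu ψ).denom with hw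
  generalize hN : (uu ψ).num = N at *
  generalize hDD : (uu ψ).denom = D at *
  rw [hU] at h3
  have hD' : algebraMap k[X] (RatFunc k) D ≠ 0 := by
    intro h4
    apply hD
    apply RatFunc.algebraMap_injective k
    rw [h4, map_zero]
  apply RatFunc.algebraMap_injective k
  simp only [map_mul, map_add, map_pow, RatFunc.algebraMap_C] at h3 ⊢
  field_simp at h3
  linear_combination h3

end FKerS

open FKerS

/-- Poles of `U` for a separable map: simple at the roots of `x³ + a x + b`, double elsewhere,
simple at infinity. -/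
theorem ker_struct {k : Type} [Field k] (h2 : (2 : k) ≠ 0) {a b a' b' : k}
    (hd : dsc a b ≠ 0) {ψ : MM a b a' b'} {c : k} (hc : c ≠ 0) (h : HasC ψ c)
    (hI : InO ψ) :
    (uu ψ).num.natDegree = (uu ψ).denom.natDegree + 1 ∧
      ∀ x : k, (uu ψ).denom.rootMultiplicity x = 0 ∨
        ((fP a b).eval x ≠ 0 ∧ (uu ψ).denom.rootMultiplicity x = 2) ∨
        ((fP a b).eval x = 0 ∧ (uu ψ).denom.rootMultiplicity x = 1) := by
  have h0 : ψ ≠ .zero := by
    intro h0
    apply hc
    apply h.2
    rw [h0, vv_zero]
  have hdeg : (uu ψ).denom.natDegree < (uu ψ).num.natDegree := hI.resolve_left h0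
  have hid := poly_identity h0 h
  have hD : (uu ψ).denom ≠ 0 := RatFunc.denom_ne_zero _
  have hcop : IsCoprime (uu ψ).num (uu ψ).denom := RatFunc.isCoprime_num_denom _
  generalize (uu ψ).num = N at *
  generalize (uu ψ).denom = D at *
  set w := derivative N * D - N * derivative D with hw
  set G := N ^ 3 + C a' * N * D ^ 2 + C b' * D ^ 3 with hG
  have hf3 : (fP a b).natDegree = 3 := by
    unfold fP
    compute_degree!
  have hf0 : fP a b ≠ 0 := by
    intro h1
    rw [h1] at hf3
    simp at hf3
  set n := N.natDegree with hn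
  set d := D.natDegree with hdd
  have hN0 : N ≠ 0 := by
    rintro rfl
    simp at hn
    omega
  -- degree of G
  have hGdeg : G.natDegree = 3 * n := by
    have e1 : (N ^ 3).natDegree = 3 * n := by rw [natDegree_pow]
    have e2 : (C a' * N * D ^ 2).natDegree < 3 * n := by
      have a1 : (C a' * N * D ^ 2).natDegree ≤ n + 2 * d := by
        refine natDegree_mul_le.trans ?_
        have a2 : (C a' * N).natDegree ≤ n := natDegree_C_mul_le _ _
        have a3 : (D ^ 2).natDegree ≤ 2 * d := natDegree_pow_le
        omega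
      omega
    have e3 : (C b' * D ^ 3).natDegree < 3 * n := by
      have a1 : (C b' * D ^ 3).natDegree ≤ 3 * d :=
        (natDegree_C_mul_le _ _).trans natDegree_pow_le
      omega
    rw [hG, add_assoc, natDegree_add_eq_left_of_natDegree_lt, e1]
    rw [e1]
    refine lt_of_le_of_lt (natDegree_add_le _ _) (max_lt e2 e3)
  have hG0 : G ≠ 0 := by
    intro h1
    rw [h1, natDegree_zero] at hGdeg
    omega
  have hc2 : C (c ^ 2) ≠ 0 := by
    rw [Ne, C_eq_zero]
    exact pow_ne_zero 2 hc
  have hR0 : C (c ^ 2) * D * G ≠ 0 := mul_ne_zero (mul_ne_zero hc2 hD) hG0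
  have hL0 : w ^ 2 * fP a b ≠ 0 := by rw [hid]; exact hR0
  have hw0 : w ≠ 0 := by
    intro h1
    apply hL0
    rw [h1]
    ring
  refine ⟨?_, ?_⟩
  · -- degrees
    have e1 : (w ^ 2 * fP a b).natDegree = 2 * w.natDegree + 3 := by
      rw [natDegree_mul (pow_ne_zero 2 hw0) hf0, natDegree_pow, hf3]
    have e2 : (C (c ^ 2) * D * G).natDegree = d + 3 * n := by
      rw [natDegree_mul (mul_ne_zero hc2 hD) hG0, natDegree_mul hc2 hD, natDegree_C, hGdeg]
      omega
    rw [hid, e2] at e1
    have e3 : w.natDegree + 1 ≤ n + d := by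
      have a1 : (derivative N * D).natDegree ≤ n - 1 + d :=
        natDegree_mul_le.trans (Nat.add_le_add_right (natDegree_derivative_le N) _)
      have a2 : (N * derivative D).natDegree ≤ n + d - 1 := by
        rcases Nat.eq_zero_or_pos d with hd0 | hd0
        · have : derivative D = 0 := by
            rw [eq_C_of_natDegree_eq_zero (p := D) (by omega), derivative_C]
          rw [this, mul_zero, natDegree_zero]
          omega
        · have : (N * derivative D).natDegree ≤ n + (d - 1) :=
            natDegree_mul_le.trans (Nat.add_le_add_left (natDegree_derivative_le D) _)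
          omega
      have a3 : w.natDegree ≤ n + d - 1 := by
        rw [hw]
        refine (natDegree_sub_le _ _).trans (max_le ?_ a2)
        omega
      omega
    omega
  · intro x
    rcases Nat.eq_zero_or_pos (D.rootMultiplicity x) with hm | hm
    · left; exact hm
    right
    set m := D.rootMultiplicity x with hmdef
    have hDx : D.IsRoot x := (rootMultiplicity_pos hD).1 hm
    have hNx : N.eval x ≠ 0 := by
      intro h1
      obtain ⟨u, v, huv⟩ := hcop
      have h3 := congrArg (eval x) huv
      rw [eval_add, eval_mul, eval_mul, h1, hDx, mul_zero, mul_zero, add_zero, eval_one] at h3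
      exact zero_ne_one h3
    have hGx : G.eval x ≠ 0 := by
      have : G.eval x = N.eval x ^ 3 := by
        rw [hG]
        simp only [eval_add, eval_mul, eval_pow, eval_C]
        rw [show D.eval x = 0 from hDx]
        ring
      rw [this]
      exact pow_ne_zero 3 hNx
    have hGm : G.rootMultiplicity x = 0 := rootMultiplicity_eq_zero hGx
    have hRm : (C (c ^ 2) * D * G).rootMultiplicity x = m := by
      rw [rootMultiplicity_mul hR0, rootMultiplicity_mul (mul_ne_zero hc2 hD), hGm,
        rootMultiplicity_C]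
      omega
    have hLm : (w ^ 2 * fP a b).rootMultiplicity x =
        2 * w.rootMultiplicity x + (fP a b).rootMultiplicity x := by
      rw [rootMultiplicity_mul hL0, sq, rootMultiplicity_mul (mul_ne_zero hw0 hw0)]
      omega
    rw [hid, hRm] at hLm
    have hwm : m - 1 ≤ w.rootMultiplicity x := by
      rw [le_rootMultiplicity_iff hw0]
      have h3 : (X - C x) ^ m ∣ D := pow_rootMultiplicity_dvd D x
      have h4 : (X - C x) ^ (m - 1) ∣ derivative D :=
        pow_sub_one_dvd_derivative_of_pow_dvd h3
      have h5 : (X - C x) ^ (m - 1) ∣ D := (pow_dvd_pow _ (Nat.sub_le _ _)).trans h3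
      exact dvd_sub (Dvd.dvd.mul_left h5 _) (Dvd.dvd.mul_left h4 _)
    by_cases hfx : (fP a b).eval x = 0
    · right
      have h3 : 0 < (fP a b).rootMultiplicity x := (rootMultiplicity_pos hf0).2 hfx
      exact ⟨hfx, by omega⟩
    · left
      have h3 : (fP a b).rootMultiplicity x = 0 := rootMultiplicity_eq_zero hfx
      exact ⟨hfx, by omega⟩

end LT
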