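import Pool.Agent.Lib_MP_f1937f_nt.FDer
import Pool.Agent.Lib_MP_f1937f_nt.Vc

/-!
# MP_f1937f_nt: points over `k(x)` of the twist: construction, identity, negation (piece FPT)
-/

namespace LT

open Polynomial WeierstrassCurve

variable {k : Type} [Field k]

namespace FPtAux

theorem fP_monic (a b : k) : (fP a b).Monic := by
  unfold fP
  monicity!

theorem fP_natDegree (a b : k) : (fP a b).natDegree = 3 := by
  unfold fP
  compute_degree!

theorem denom_C_mul {c : k} (hc : c ≠ 0) (u : RatFunc k) :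
    (RatFunc.C c * u).denom = u.denom := by
  have key : ∀ (d : k) (w : RatFunc k), (RatFunc.C d * w).denom ∣ w.denom := by
    intro d w
    have h := RatFunc.denom_mul_dvd (RatFunc.C d) w
    rwa [RatFunc.denom_C, one_mul] at h
  have h1 := key c u
  have h2 : u.denom ∣ (RatFunc.C c * u).denom := by
    have h := key c⁻¹ (RatFunc.C c * u)
    rwa [← mul_assoc, ← map_mul, inv_mul_cancel₀ hc, map_one, one_mul] at h
  exact Polynomial.eq_of_monic_of_associated (RatFunc.monic_denom _) (RatFunc.monic_denom _)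
    (associated_of_dvd_dvd h1 h2)

theorem num_C_mul {c : k} (hc : c ≠ 0) (u : RatFunc k) :
    (RatFunc.C c * u).num = Polynomial.C c * u.num := by
  have h := RatFunc.num_denom_mul (RatFunc.C c) u
  rw [denom_C_mul hc, RatFunc.denom_C, one_mul, RatFunc.num_C] at h
  exact mul_right_cancel₀ (RatFunc.denom_ne_zero u) h

theorem eval_C_mul {c : k} (hc : c ≠ 0) (u : RatFunc k) (x : k) :
    (RatFunc.C c * u).eval (RingHom.id k) x = c * u.eval (RingHom.id k) x := by
  unfold RatFunc.eval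
  rw [num_C_mul hc, denom_C_mul hc]
  simp [mul_div_assoc]

end FPtAux

open FPtAux

theorem fR_ne_zero (a b : k) : fR a b ≠ 0 := by
  unfold fR
  rw [Ne, map_eq_zero_iff _ (IsFractionRing.injective k[X] (RatFunc k))]
  exact (fP_monic a b).ne_zero

/-- Equation of a nonzero point in terms of `U` and `V`. -/
theorem uu_vv_eq {a b a' b' : k} {ψ : MM a b a' b'} (h : ψ ≠ .zero) :
    vv ψ ^ 2 * fR a b = uu ψ ^ 3 + RatFunc.C a' * uu ψ + RatFunc.C b' := by
  have hf := fR_ne_zero a b
  rcases ψ with _ | ⟨x, y, hxy⟩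
  · exact absurd rfl h
  · have h1 := sw_equation.mp hxy.1
    simp only [vv, uu, xc, yc]
    field_simp
    rw [h1]
    ring

/-- Two nonzero points with the same `U`, `V` are equal. -/
theorem mm_ext {a b a' b' : k} {ψ φ : MM a b a' b'} (hψ : ψ ≠ .zero) (hφ : φ ≠ .zero)
    (hu : uu ψ = uu φ) (hv : vv ψ = vv φ) : ψ = φ := by
  have hf := fR_ne_zero a b
  refine pt_ext hψ hφ ?_ ?_
  · exact (div_left_inj' hf).mp hu
  · exact (div_left_inj' (pow_ne_zero 2 hf)).mp hv

/-- The equation has no solution with `U` a constant and `V ≠ 0`. -/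
theorem const_vv_zero {a b a' b' : k} {ψ : MM a b a' b'} {c : k} (h : uu ψ = RatFunc.C c) :
    vv ψ = 0 := by
  by_contra hv
  have h0 : ψ ≠ .zero := by
    rintro rfl
    exact hv (by simp [vv, yc])
  have h1 := uu_vv_eq h0
  rw [h, ← map_pow, ← map_mul, ← map_add, ← map_add] at h1
  have h2 := congrArg RatFunc.intDegree h1
  rw [RatFunc.intDegree_C, RatFunc.intDegree_mul (pow_ne_zero 2 hv) (fR_ne_zero a b), sq,
    RatFunc.intDegree_mul hv hv] at h2
  unfold fR at h2
  rw [RatFunc.intDegree_polynomial, fP_natDegree] at h2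
  push_cast at h2
  omega

/-- The construction of points over `k(x)`. -/
theorem mk_exists (h2 : (2 : k) ≠ 0) {a b a' b' : k} (hd' : dsc a' b' ≠ 0) (U V : RatFunc k)
    (h : V ^ 2 * fR a b = U ^ 3 + RatFunc.C a' * U + RatFunc.C b') :
    ∃ ψ : MM a b a' b', ψ ≠ .zero ∧ uu ψ = U ∧ vv ψ = V := by
  have hf := fR_ne_zero a b
  have h2' : (2 : RatFunc k) ≠ 0 := by
    have : (2 : RatFunc k) = RatFunc.C (2 : k) := (map_ofNat RatFunc.C 2).symm
    rw [this, Ne, map_eq_zero]
    exact h2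
  have hd : dsc (RatFunc.C a' * fR a b ^ 2) (RatFunc.C b' * fR a b ^ 3) ≠ 0 := by
    have : dsc (RatFunc.C a' * fR a b ^ 2) (RatFunc.C b' * fR a b ^ 3) =
        RatFunc.C (dsc a' b') * fR a b ^ 6 := by
      simp only [dsc, map_add, map_mul, map_pow, map_ofNat]
      ring
    rw [this]
    exact mul_ne_zero (by rwa [Ne, map_eq_zero]) (pow_ne_zero 6 hf)
  have hn : (SW (RatFunc.C a' * fR a b ^ 2) (RatFunc.C b' * fR a b ^ 3)).toAffine.Nonsingular
      (fR a b * U) (fR a b ^ 2 * V) := by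
    rw [sw_nons h2' hd]
    linear_combination fR a b ^ 3 * h
  refine ⟨.some _ _ hn, ?_, ?_, ?_⟩
  · rintro ⟨⟩
  · simp only [uu, xc]
    field_simp
  · simp only [vv, yc]
    field_simp

theorem uu_zero {a b a' b' : k} : uu (.zero : MM a b a' b') = 0 := by
  simp [uu, xc]

theorem vv_zero {a b a' b' : k} : vv (.zero : MM a b a' b') = 0 := by
  simp [vv, yc]

theorem hh_zero {a b a' b' : k} : hh (.zero : MM a b a' b') = 0 := by
  unfold hh
  rw [uu_zero]
  simp

theorem uu_neg {a b a' b' : k} (ψ : MM a b a' b') : uu (-ψ) = uu ψ := by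
  rcases ψ with _ | ⟨x, y, hxy⟩
  · rfl
  · rfl

theorem vv_neg {a b a' b' : k} (ψ : MM a b a' b') : vv (-ψ) = -vv ψ := by
  rcases ψ with _ | ⟨x, y, hxy⟩
  · change vv (.zero : MM a b a' b') = - vv (.zero : MM a b a' b')
    rw [vv_zero, neg_zero]
  · rw [Affine.Point.neg_some]
    simp only [vv, yc, Affine.negY, SW]
    ring

theorem hh_neg {a b a' b' : k} (ψ : MM a b a' b') : hh (-ψ) = hh ψ := by
  unfold hh
  rw [uu_neg]

/-- A point of degree `0` which maps the origin to the origin is zero. -/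
theorem eq_zero_of_hh {a b a' b' : k} (ψ : MM a b a' b') (h : hh ψ = 0) (hI : InO ψ) :
    ψ = .zero := by
  rcases hI with h1 | h1
  · exact h1
  · unfold hh at h
    omega

/-- The identity map. -/
theorem id_exists [DecidableEq k] (h2 : (2 : k) ≠ 0) {a b : k} (hd : dsc a b ≠ 0) :
    ∃ ι : MM a b a b, uu ι = RatFunc.X ∧ vv ι = 1 ∧ hh ι = 1 ∧ InO ι ∧ HasC ι 1 ∧
      Compat ι (AddMonoidHom.id (Pt a b)) := by
  obtain ⟨ι, h0, hu, hv⟩ := mk_exists h2 (a := a) (b := b) hd RatFunc.X 1 (by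
    simp [fR, fP, RatFunc.algebraMap_C, RatFunc.algebraMap_X])
  refine ⟨ι, hu, hv, ?_, ?_, ?_, ?_⟩
  · unfold hh
    rw [hu]
    simp
  · right
    rw [hu]
    simp
  · refine ⟨?_, ?_⟩
    · rw [hu, hv, dR_X]
      simp
    · rw [hv]
      intro h
      exact absurd h one_ne_zero
  · intro x y h hy
    refine ⟨fun h => absurd h h0, fun _ => ⟨?_, ?_⟩⟩
    · rw [hu]
      intro h
      simp at h
    · intro _
      rw [hu, hv]
      simp only [RatFunc.eval_X, RatFunc.eval_one, mul_one]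
      exact ⟨h, rfl⟩

/-- Composition with the scaling `(x, y) ↦ (v² x, v³ y)` of the target. -/
theorem scale_exists [DecidableEq k] (h2 : (2 : k) ≠ 0) {a b a' b' v : k} (hv : v ≠ 0)
    (hd' : dsc a' b' ≠ 0) (ψ : MM a b a' b') :
    ∃ φ : MM a b (v ^ 4 * a') (v ^ 6 * b'), hh φ = hh ψ ∧ (InO ψ → InO φ) ∧
      (∀ c : k, HasC ψ c → HasC φ (c / v)) ∧
      (∀ Ψ : Pt a b →+ Pt a' b', Compat ψ Ψ → ∃ e : Pt a' b' ≃+ Pt (v ^ 4 * a') (v ^ 6 * b'),
        Compat φ (e.toAddMonoidHom.comp Ψ)) := by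
  obtain ⟨e, he⟩ := sc_exists hv a' b'
  have hv2 : v ^ 2 ≠ 0 := pow_ne_zero 2 hv
  have hv3 : v ^ 3 ≠ 0 := pow_ne_zero 3 hv
  by_cases h0 : ψ = .zero
  · subst h0
    refine ⟨.zero, ?_, ?_, ?_, ?_⟩
    · rw [hh_zero, hh_zero]
    · intro _
      left
      rfl
    · rintro c ⟨_, h4⟩
      have hc := h4 vv_zero
      subst hc
      refine ⟨?_, ?_⟩
      · rw [uu_zero, vv_zero, dR_zero, mul_zero]
      · intro _
        simp
    · intro Ψ hΨ
      refine ⟨e, ?_⟩
      intro x y h hy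
      refine ⟨fun _ => ?_, fun h => absurd rfl h⟩
      have := (hΨ x y h hy).1 rfl
      simp [this]
  · obtain ⟨φ, hφ0, hu, hvv⟩ := mk_exists h2 (a := a) (b := b) (a' := v ^ 4 * a')
      (b' := v ^ 6 * b') (by
        have : dsc (v ^ 4 * a') (v ^ 6 * b') = v ^ 12 * dsc a' b' := by
          simp only [dsc]
          ring
        rw [this]
        exact mul_ne_zero (pow_ne_zero _ hv) hd')
      (RatFunc.C (v ^ 2) * uu ψ) (RatFunc.C (v ^ 3) * vv ψ) (by
        have h1 := uu_vv_eq h0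
        simp only [map_mul, map_pow]
        linear_combination RatFunc.C v ^ 6 * h1)
    refine ⟨φ, ?_, ?_, ?_, ?_⟩
    · unfold hh
      rw [hu, num_C_mul hv2, denom_C_mul hv2, Polynomial.natDegree_C_mul hv2]
    · rintro (h | h)
      · exact absurd h h0
      · right
        rw [hu, num_C_mul hv2, denom_C_mul hv2, Polynomial.natDegree_C_mul hv2]
        exact h
    · rintro c ⟨h3, h4⟩
      refine ⟨?_, ?_⟩
      · rw [hu, hvv, dR_mul, dR_C, zero_mul, zero_add, h3, ← mul_assoc, ← mul_assoc, ← map_mul,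
          ← map_mul]
        congr 2
        field_simp
      · intro h
        rw [hvv] at h
        rcases mul_eq_zero.mp h with h5 | h5
        · exact absurd ((map_eq_zero _).mp h5) hv3
        · rw [h4 h5, zero_div]
    · intro Ψ hΨ
      refine ⟨e, ?_⟩
      intro x y h hy
      refine ⟨fun h => absurd h hφ0, fun _ => ⟨?_, ?_⟩⟩
      · intro h5
        rw [hu, denom_C_mul hv2] at h5
        have := ((hΨ x y h hy).2 h0).1 h5
        simp [this]
      · intro h5
        rw [hu, denom_C_mul hv2] at h5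
        obtain ⟨h6, h7⟩ := ((hΨ x y h hy).2 h0).2 h5
        obtain ⟨h8, h9⟩ := he _ _ h6
        rw [hu, hvv, eval_C_mul hv2, eval_C_mul hv3]
        have h10 : y * (v ^ 3 * (vv ψ).eval (RingHom.id k) x) =
            v ^ 3 * (y * (vv ψ).eval (RingHom.id k) x) := by ring
        rw [h10]
        refine ⟨h8, ?_⟩
        rw [← h9, ← h7]
        rfl

end LT
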