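import Pool.Agent.Lib_MP_f1937f_nt.FTors

/-!
# MP_f1937f_nt: the repulsion lemma (piece FREP)
-/

namespace LT

open Polynomial WeierstrassCurve

section

variable {k : Type} [Field k] [DecidableEq k] [IsAlgClosed k] (p : ℕ) [Fact p.Prime] [CharP k p]

/-- Arithmetic of the repulsion lemma. -/
theorem rep_arith {p : ℕ} (hp : p.Prime) (hp2 : p ≠ 2) {m₁ m₂ : ℕ} (t : ℤ) (s : ℤ)
    (h0 : ∀ a b : ℤ, 0 ≤ (m₁ : ℤ) * a ^ 2 + t * a * b + m₂ * b ^ 2)
    (hs : ∀ a b : ℤ, ((p : ℤ) ∣ (m₁ : ℤ) * a ^ 2 + t * a * b + m₂ * b ^ 2) ↔ (p : ℤ) ∣ a + s * b)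
    (hlt : 4 * m₁ * m₂ < p) : IsSquare (m₁ * m₂) := by
  have hpi : Prime (p : ℤ) := Nat.prime_iff_prime_int.mp hp
  have hdisc : t ^ 2 ≤ 4 * (m₁ : ℤ) * m₂ := quad_disc h0
  have h1 : ¬ (p : ℤ) ∣ (m₁ : ℤ) := by
    intro hd
    have h2 := (hs 1 0).mp (by simpa using hd)
    have h3 : (p : ℤ) ∣ 1 := by simpa using h2
    have h4 : p ∣ 1 := by exact_mod_cast h3
    exact hp.one_lt.ne' (Nat.dvd_one.mp h4)
  have h2 : (p : ℤ) ∣ (m₁ : ℤ) * s ^ 2 - t * s + m₂ := by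
    have h3 := (hs (-s) 1).mpr (by simp)
    have h4 : (m₁ : ℤ) * (-s) ^ 2 + t * (-s) * 1 + m₂ * 1 ^ 2 = (m₁ : ℤ) * s ^ 2 - t * s + m₂ := by
      ring
    rwa [h4] at h3
  -- an inverse of m₁
  have hcop : IsCoprime (m₁ : ℤ) (p : ℤ) := ((hpi.coprime_iff_not_dvd).mpr h1).symm
  obtain ⟨u, v, huv⟩ := hcop
  have h3 : (p : ℤ) ∣ (m₁ : ℤ) * (s - t * u) ^ 2 + t * (s - t * u) * 1 + m₂ * 1 ^ 2 := by
    obtain ⟨e, he⟩ := h2
    refine ⟨e + 2 * s * t * v - t ^ 2 * u * v, ?_⟩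
    linear_combination he + (t ^ 2 * u - 2 * s * t) * huv
  have h4 := (hs (s - t * u) 1).mp h3
  have h5 : (p : ℤ) ∣ 2 * (m₁ : ℤ) * s - t := by
    obtain ⟨e, he⟩ := h4
    refine ⟨(m₁ : ℤ) * e - t * v, ?_⟩
    linear_combination (m₁ : ℤ) * he + t * huv
  have h6 : (p : ℤ) ∣ 4 * (m₁ : ℤ) * m₂ - t ^ 2 := by
    obtain ⟨e, he⟩ := h5
    obtain ⟨f, hf⟩ := h2
    refine ⟨4 * (m₁ : ℤ) * f - (2 * (m₁ : ℤ) * s - t) * e, ?_⟩
    linear_combination 4 * (m₁ : ℤ) * hf - (2 * (m₁ : ℤ) * s - t) * he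
  have h7 : 4 * (m₁ : ℤ) * m₂ - t ^ 2 = 0 := by
    apply Int.eq_zero_of_dvd_of_nonneg_of_lt _ _ h6
    · linarith
    · have h8 : 4 * (m₁ : ℤ) * m₂ < p := by exact_mod_cast hlt
      nlinarith [sq_nonneg t]
  have h8 : Even t := by
    by_contra hodd
    rw [Int.not_even_iff_odd] at hodd
    obtain ⟨w, hw⟩ := hodd
    have h9 : 4 * ((m₁ : ℤ) * m₂) = 4 * (w ^ 2 + w) + 1 := by
      rw [hw] at h7
      linear_combination h7
    omega
  obtain ⟨w, hw⟩ := h8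
  have h9 : (m₁ : ℤ) * m₂ = w * w := by
    rw [hw] at h7
    linarith
  refine ⟨w.natAbs, ?_⟩
  have h10 : ((m₁ * m₂ : ℕ) : ℤ) = ((w.natAbs * w.natAbs : ℕ) : ℤ) := by
    push_cast
    rw [h9, ← abs_mul_abs_self w]
  exact_mod_cast h10

/-- An element with `x ^ p = x` is the image of an integer. -/
theorem FRep.exists_int {c : k} (hc : c ^ p = c) : ∃ n : ℕ, (n : k) = c := by
  have hp : p.Prime := Fact.out
  have hne : (X ^ p - X : k[X]) ≠ 0 := by
    intro h0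
    have h1 : (X ^ p - X : k[X]).coeff p = 0 := by rw [h0]; simp
    rw [coeff_sub, coeff_X_pow_self, coeff_X, if_neg hp.one_lt.ne] at h1
    simp at h1
  have hdeg : (X ^ p - X : k[X]).natDegree ≤ p := by
    refine (natDegree_sub_le _ _).trans ?_
    rw [natDegree_X_pow, natDegree_X]
    exact max_le le_rfl hp.one_lt.le
  have hroot : ∀ x : k, x ^ p = x → x ∈ (X ^ p - X : k[X]).roots.toFinset := by
    intro x hx
    rw [Multiset.mem_toFinset, mem_roots hne]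
    simp [hx]
  have hcard : (X ^ p - X : k[X]).roots.toFinset.card ≤ p :=
    (Multiset.toFinset_card_le _).trans ((card_roots' _).trans hdeg)
  have hinj : Set.InjOn (fun n : ℕ => (n : k)) (Finset.range p : Finset ℕ) := by
    intro x hx y hy hxy
    rw [Finset.coe_range] at hx hy
    exact CharP.natCast_injOn_Iio k p hx hy hxy
  have hsub : (Finset.range p).image (fun n : ℕ => (n : k)) ⊆
      (X ^ p - X : k[X]).roots.toFinset := by
    intro x hx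
    obtain ⟨n, -, rfl⟩ := Finset.mem_image.mp hx
    apply hroot
    have h1 := map_natCast (frobenius k p) n
    rwa [frobenius_def] at h1
  have heq := Finset.eq_of_subset_of_card_le hsub (by
    rw [Finset.card_image_of_injOn hinj, Finset.card_range]; exact hcard)
  have h1 := hroot c hc
  rw [← heq] at h1
  obtain ⟨n, -, hn⟩ := Finset.mem_image.mp h1
  exact ⟨n, hn⟩

/-- The repulsion lemma: two isogenies of degrees `m₁`, `m₂` with `4 m₁ m₂ < p` from the same curve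
without `p`-torsion, both multiplying the differential by elements of `F_p`. -/
theorem repulsion (hp2 : p ≠ 2) {a b a' b' : k} (hd : dsc a b ≠ 0) (hd' : dsc a' b' ≠ 0)
    (htors : ∀ P : Pt a b, p • P = 0 → P = 0) {ψ₁ ψ₂ : MM a b a' b'} {c₁ c₂ : k}
    (hc₁ : c₁ ≠ 0) (hc₂ : c₂ ≠ 0) (hf₁ : c₁ ^ p = c₁) (hf₂ : c₂ ^ p = c₂)
    (h₁ : HasC ψ₁ c₁) (h₂ : HasC ψ₂ c₂) (hI₁ : InO ψ₁) (hI₂ : InO ψ₂)
    {Ψ₁ Ψ₂ : Pt a b →+ Pt a' b'} (hC₁ : Compat ψ₁ Ψ₁) (hC₂ : Compat ψ₂ Ψ₂)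
    (hlt : 4 * hh ψ₁ * hh ψ₂ < p) : IsSquare (hh ψ₁ * hh ψ₂) := by
  classical
  have hp : p.Prime := Fact.out
  have h2 : (2 : k) ≠ 0 := by
    intro h0
    have h1 : ((2 : ℕ) : k) = 0 := by exact_mod_cast h0
    rw [CharP.cast_eq_zero_iff k p] at h1
    exact hp2 ((Nat.prime_dvd_prime_iff_eq hp Nat.prime_two).mp h1)
  obtain ⟨s, hs⟩ := FRep.exists_int p (k := k) (c := c₂ / c₁) (by rw [div_pow, hf₁, hf₂])
  have hs' : c₂ = c₁ * s := by rw [hs]; field_simp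
  have hq := quad_form (fun ψ : MM a b a' b' => (hh ψ : ℤ)) (by
    intro x y
    have h := hh_par h2 hd' x y
    exact_mod_cast h) ψ₁ ψ₂
  set t : ℤ := (hh (ψ₁ + ψ₂) : ℤ) - hh ψ₁ - hh ψ₂ with ht
  apply rep_arith hp hp2 t (s : ℤ) _ _ hlt
  · intro i j
    rw [← hq i j]
    exact Int.natCast_nonneg _
  · intro i j
    rw [← hq i j, Int.natCast_dvd_natCast]
    have hCC : HasC (i • ψ₁ + j • ψ₂) ((i : k) * c₁ + (j : k) * c₂) :=
      HasC_add h2 hd' (HasC_zsmul h2 hd' h₁ i) (HasC_zsmul h2 hd' h₂ j)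
    have hfac : (i : k) * c₁ + (j : k) * c₂ = c₁ * ((i + s * j : ℤ) : k) := by
      rw [hs']; push_cast; ring
    have hII : InO (i • ψ₁ + j • ψ₂) :=
      InO_add h2 hd' (InO_zsmul h2 hd' hI₁ i) (InO_zsmul h2 hd' hI₂ j)
    have hKK : Compat (i • ψ₁ + j • ψ₂) (i • Ψ₁ + j • Ψ₂) :=
      Compat_add h2 hd' (Compat_zsmul h2 hd' hC₁ i) (Compat_zsmul h2 hd' hC₂ j)
    constructor
    · intro hdvd
      by_contra hnd
      have hne : (i : k) * c₁ + (j : k) * c₂ ≠ 0 := by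
        rw [hfac]
        apply mul_ne_zero hc₁
        intro h0
        exact hnd ((CharP.intCast_eq_zero_iff k p _).mp h0)
      have hcard := ker_card h2 hd hd' hne hCC hII hKK
      have hh0 : hh (i • ψ₁ + j • ψ₂) ≠ 0 := by
        intro h0
        have h1 := eq_zero_of_hh _ h0 hII
        rw [h1] at hCC
        exact hne (hCC.2 vv_zero)
      have hfin : Finite (i • Ψ₁ + j • Ψ₂).ker := Nat.finite_of_card_ne_zero (by rw [hcard]; exact hh0)
      rw [← hcard] at hdvd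
      obtain ⟨x, hx⟩ := exists_prime_addOrderOf_dvd_card' p hdvd
      have h1 : p • (x : Pt a b) = 0 := by
        have h3 : p • x = 0 := by rw [← hx]; exact addOrderOf_nsmul_eq_zero x
        have h4 := congrArg (Subtype.val) h3
        simpa using h4
      have h3 := htors _ h1
      have h4 : x = 0 := Subtype.ext h3
      rw [h4, addOrderOf_zero] at hx
      exact hp.one_lt.ne hx
    · intro hdvd
      have h0 : (i : k) * c₁ + (j : k) * c₂ = 0 := by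
        rw [hfac, (CharP.intCast_eq_zero_iff k p _).mpr hdvd, mul_zero]
      rw [h0] at hCC
      exact dvd_hh_of_HasC_zero p hCC

end

end LT
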