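import Pool.Agent.Lib_MP_f1937f_nt.Core
import Pool.Agent.Lib_MP_f1937f_nt.ACov
import Pool.Agent.Lib_MP_f1937f_nt.AFin

/-!
# MP_f1937f_nt: the final theorem (layer COUNT)
-/

namespace LT

open Polynomial WeierstrassCurve

theorem SS_mono (W : WeierstrassCurve ℤ) {m n : ℕ} (h : m ≤ n) : SS W m ⊆ SS W n := by
  intro p hp
  rw [SS, Finset.mem_filter, Finset.mem_range] at hp ⊢
  exact ⟨by omega, hp.2⟩

open Real Filter in
/-- Asymptotic comparisons. -/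
theorem fin_asym (C : ℝ) : ∃ Y₀ : ℕ, ∀ Y : ℕ, Y₀ ≤ Y →
    1 ≤ log (log Y) ∧ 1 ≤ log Y ∧ C * log Y ≤ (Y : ℝ) ^ ((1 : ℝ) / 8) := by
  have hlog : Tendsto (fun Y : ℕ => log (Y : ℝ)) atTop atTop :=
    tendsto_log_atTop.comp tendsto_natCast_atTop_atTop
  have e1 : ∀ᶠ Y : ℕ in atTop, 1 ≤ log (log (Y : ℝ)) :=
    (tendsto_log_atTop.comp hlog).eventually_ge_atTop 1
  have e2 : ∀ᶠ Y : ℕ in atTop, 1 ≤ log (Y : ℝ) := hlog.eventually_ge_atTop 1
  have hpos : (0 : ℝ) < 1 / (|C| + 1) := by positivity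
  have e3 : ∀ᶠ Y : ℕ in atTop, ‖log (Y : ℝ)‖ ≤ 1 / (|C| + 1) * ‖(Y : ℝ) ^ ((1 : ℝ) / 8)‖ :=
    tendsto_natCast_atTop_atTop.eventually
      ((isLittleO_log_rpow_atTop (r := (1 : ℝ) / 8) (by norm_num)).bound hpos)
  obtain ⟨Y₀, hY₀⟩ := eventually_atTop.1 (e1.and (e2.and e3))
  refine ⟨Y₀, fun Y hY => ?_⟩
  obtain ⟨h1, h2, h3⟩ := hY₀ Y hY
  refine ⟨h1, h2, ?_⟩
  rw [norm_of_nonneg (by linarith), norm_of_nonneg (by positivity)] at h3
  have h4 : C * log Y ≤ (|C| + 1) * log Y := by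
    refine mul_le_mul_of_nonneg_right ?_ (by linarith)
    have := le_abs_self C
    linarith
  have h5 : (|C| + 1) * log Y ≤ (|C| + 1) * (1 / (|C| + 1) * (Y : ℝ) ^ ((1 : ℝ) / 8)) := by
    gcongr
  have h6 : (|C| + 1) * (1 / (|C| + 1) * (Y : ℝ) ^ ((1 : ℝ) / 8)) = (Y : ℝ) ^ ((1 : ℝ) / 8) := by
    have : |C| + 1 ≠ 0 := by positivity
    field_simp
  linarith

open Real in
/-- The main theorem. -/
theorem main_theorem (W : WeierstrassCurve ℤ) (hΔ : W.Δ ≠ 0) (hCM : NoCM W) :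
    ∃ c : ℝ, 0 < c ∧ ∃ x₀ : ℝ, ∀ x : ℝ, x₀ ≤ x →
      exp (c * log (log x) / (log (log (log x))) ^ 2) ≤ ((SS W ⌊x⌋₊).card : ℝ) := by
  obtain ⟨B, C₀, hC₀, Y₁, hcore⟩ := core W hΔ hCM
  obtain ⟨C₁, hC₁, Y₂, hcov⟩ := cover_main B
  obtain ⟨Y₃, hasym⟩ := fin_asym C₀
  refine fin_real (fun x => ((SS W ⌊x⌋₊).card : ℝ)) ?_ (C := 6 * C₁ + 6 + C₀ + 1) (c := 1 / 1000)
    (by positivity) (by norm_num) (Y₁ + Y₂ + Y₃ + 3) ?_
  · intro x y hxy
    have h1 := Finset.card_le_card (SS_mono W (Nat.floor_le_floor hxy))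
    change ((SS W ⌊x⌋₊).card : ℝ) ≤ ((SS W ⌊y⌋₊).card : ℝ)
    exact_mod_cast h1
  · intro Y hY
    obtain ⟨hl, hL, hC⟩ := hasym Y (by omega)
    have hY3 : (3 : ℝ) ≤ Y := by
      have : 3 ≤ Y := by omega
      exact_mod_cast this
    have hY0 : (0 : ℝ) < Y := by linarith
    set L := log (Y : ℝ) with hLdef
    set l := log L with hldef
    have hl2 : 1 ≤ l ^ 2 := one_le_pow₀ hl
    have hLl : L ≤ L * l ^ 2 := by nlinarith
    have hLl1 : 1 ≤ L * l ^ 2 := by linarith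
    set E : ℝ := exp ((6 * C₁ + 6 + C₀ + 1) * L * l ^ 2) with hE
    by_cases hcard : ((SS W Y).card : ℝ) ≤ (Y : ℝ) ^ ((1 : ℝ) / 1000)
    · obtain ⟨M, hM, hMo, hM3, hM7, hkill, hMlog, hMω⟩ := hcov Y (by omega) (SS W Y)
        (fun p hp => by
          rw [SS, Finset.mem_filter, Finset.mem_range] at hp
          exact ⟨hp.2.1, by omega⟩) hcard
      have hM1 : (1 : ℝ) ≤ M := by exact_mod_cast hM
      have hM0 : (0 : ℝ) < M := by linarith
      -- the size condition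
      have hMY : ((M : ℝ) * Y) ^ 6 ≤ exp ((6 * C₁ + 6) * (L * l ^ 2)) := by
        have h1 : log (((M : ℝ) * Y) ^ 6) = 6 * (log M + L) := by
          rw [log_pow, log_mul hM0.ne' hY0.ne', hLdef]
          norm_num
        rw [← exp_log (show (0 : ℝ) < ((M : ℝ) * Y) ^ 6 by positivity), h1]
        apply exp_le_exp.2
        have h2 : log M ≤ C₁ * (L * l ^ 2) := by linarith
        linarith
      have hMY1 : 1 ≤ ((M : ℝ) * Y) ^ 6 := by
        apply one_le_pow₀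
        nlinarith
      have hX1 : C₀ * ((M : ℝ) * Y) ^ 6 + 1 ≤ E := by
        have h1 : E = exp ((6 * C₁ + 6) * (L * l ^ 2)) * exp ((C₀ + 1) * (L * l ^ 2)) := by
          rw [hE, ← exp_add]
          congr 1
          ring
        have h2 : C₀ + 1 ≤ exp ((C₀ + 1) * (L * l ^ 2)) := by
          have h3 := add_one_le_exp ((C₀ + 1) * (L * l ^ 2))
          have h4 : (C₀ + 1) * 1 ≤ (C₀ + 1) * (L * l ^ 2) := by gcongr
          linarith
        rw [h1]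
        calc C₀ * ((M : ℝ) * Y) ^ 6 + 1 ≤ ((M : ℝ) * Y) ^ 6 * (C₀ + 1) := by linarith
          _ ≤ _ := by gcongr
      have hX2 : exp (C₀ * ((M : ℝ) * Y) ^ 6) ≤ (⌊exp E⌋₊ : ℝ) := by
        have h1 : exp E < (⌊exp E⌋₊ : ℝ) + 1 := Nat.lt_floor_add_one _
        have h2 : exp (C₀ * ((M : ℝ) * Y) ^ 6) + 1 ≤ exp E := by
          have h3 : exp (C₀ * ((M : ℝ) * Y) ^ 6) * exp 1 ≤ exp E := by
            rw [← exp_add]
            exact exp_le_exp.2 hX1
          have h4 : (2 : ℝ) ≤ exp 1 := by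
            have := add_one_le_exp (1 : ℝ)
            linarith
          have h5 : 1 ≤ exp (C₀ * ((M : ℝ) * Y) ^ 6) := one_le_exp (by positivity)
          nlinarith
        linarith
      have h1 := hcore Y (by omega) M hM hMo hM3 hM7 hkill ⌊exp E⌋₊ hX2
      change (Y : ℝ) ^ ((1 : ℝ) / 1000) ≤ ((SS W ⌊exp E⌋₊).card : ℝ)
      set F : ℝ := ((SS W ⌊exp E⌋₊).card : ℝ) with hF
      have hF0 : 0 ≤ F := Nat.cast_nonneg _
      have h2 : (Y : ℝ) ^ ((1 : ℝ) / 4) ≤ (Y : ℝ) ^ ((1 : ℝ) / 8) * (Y : ℝ) ^ ((1 : ℝ) / 16) * F := by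
        calc (Y : ℝ) ^ ((1 : ℝ) / 4) ≤ C₀ * 2 ^ M.primeFactors.card * L * F := h1
          _ = (C₀ * L) * 2 ^ M.primeFactors.card * F := by ring
          _ ≤ _ := by gcongr
      have h3 : (Y : ℝ) ^ ((1 : ℝ) / 4) =
          (Y : ℝ) ^ ((1 : ℝ) / 8) * (Y : ℝ) ^ ((1 : ℝ) / 16) * (Y : ℝ) ^ ((1 : ℝ) / 16) := by
        rw [← rpow_add hY0, ← rpow_add hY0]
        norm_num
      rw [h3] at h2
      have h4 : (Y : ℝ) ^ ((1 : ℝ) / 16) ≤ F := by
        apply le_of_mul_le_mul_left h2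
        positivity
      refine le_trans ?_ h4
      apply rpow_le_rpow_of_exponent_le (by linarith)
      norm_num
    · push Not at hcard
      refine hcard.le.trans ?_
      have hle : Y ≤ ⌊exp E⌋₊ := by
        apply Nat.le_floor
        rw [← exp_log hY0]
        apply exp_le_exp.2
        have h1 : L + 1 ≤ exp L := add_one_le_exp L
        have h2 : exp L ≤ E := by
          apply exp_le_exp.2
          have h3 : 1 * (L * l ^ 2) ≤ (6 * C₁ + 6 + C₀ + 1) * (L * l ^ 2) := by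
            gcongr
            linarith
          linarith
        linarith
      have h1 := Finset.card_le_card (SS_mono W hle)
      exact_mod_cast h1

end LT
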