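import Mathlib

/-!
# MP_f1937f_nt: the numbers `b² + b + 1` in a window (layer COUNT)
-/

namespace LT

/-- No prime `= 2 mod 3` divides `b² + b + 1`. -/
theorem gap_prime {p b : ℕ} (hp : p.Prime) (h3 : p % 3 = 2) : ¬ p ∣ b ^ 2 + b + 1 := by
  intro hd
  have : Fact p.Prime := ⟨hp⟩
  have h30 : (3 : ZMod p) ≠ 0 := by
    intro h0
    have : ((3 : ℕ) : ZMod p) = 0 := by exact_mod_cast h0
    rw [ZMod.natCast_eq_zero_iff] at this
    have h4 := (Nat.prime_dvd_prime_iff_eq hp Nat.prime_three).1 this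
    omega
  set w : ZMod p := (b : ZMod p) with hw
  have hw1 : w ^ 2 + w + 1 = 0 := by
    have := (ZMod.natCast_eq_zero_iff (b ^ 2 + b + 1) p).2 hd
    push_cast at this
    exact this
  have hw3 : w ^ 3 = 1 := by linear_combination (w - 1) * hw1
  have hw0 : w ≠ 0 := by
    rintro h0
    rw [h0] at hw1
    norm_num at hw1
  have hf := ZMod.pow_card_sub_one_eq_one hw0
  obtain ⟨k, hk⟩ : ∃ k, p - 1 = 3 * k + 1 := ⟨p / 3, by have := hp.one_lt; omega⟩
  rw [hk, pow_succ, pow_mul, hw3, one_pow, one_mul] at hf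
  rw [hf] at hw1
  apply h30
  linear_combination hw1

/-- Two different numbers `b² + b + 1` in one square class are far apart. -/
theorem gap_square {b c : ℕ} (hb : 3 ≤ b) (hbc : b < c)
    (h : IsSquare ((b ^ 2 + b + 1) * (c ^ 2 + c + 1))) :
    4 * (b ^ 2 + b + 1) < c ^ 2 + c + 1 := by
  obtain ⟨s, hs⟩ := h
  -- `(4 s)² = (u w + 3)² + 3 (w - u)²` with `u = 2 b + 1`, `w = 2 c + 1`
  obtain ⟨e, rfl⟩ : ∃ e, c = b + e := ⟨c - b, by omega⟩
  have he : 0 < e := by omega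
  have h1 : (4 * s) ^ 2 = ((2 * b + 1) * (2 * (b + e) + 1) + 3) ^ 2 + 12 * e ^ 2 := by
    have : (4 * s) ^ 2 = 16 * (s * s) := by ring
    rw [this, ← hs]
    ring
  have h2 : (2 * b + 1) * (2 * (b + e) + 1) + 3 < 4 * s := by
    apply lt_of_pow_lt_pow_left₀ 2 (Nat.zero_le _)
    rw [h1]
    have : 0 < 12 * e ^ 2 := by positivity
    omega
  have h3 : ((2 * b + 1) * (2 * (b + e) + 1) + 4) ^ 2 ≤ (4 * s) ^ 2 :=
    Nat.pow_le_pow_left h2 2
  rw [h1] at h3
  have h4 : 2 * ((2 * b + 1) * (2 * (b + e) + 1)) + 7 ≤ 12 * e ^ 2 := by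
    nlinarith
  -- `e ≥ 1.2 b`
  have h5 : 6 * (2 * b + 1) < 5 * (2 * e) := by
    by_contra hc
    push Not at hc
    have h6 : 5 * e ≤ 6 * b + 3 := by omega
    nlinarith
  nlinarith

end LT
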