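import Pool.Agent.Lib_MP_f1937f_nt.SDef
import Pool.Agent.Lib_MP_f1937f_nt.CInjB

/-!
# MP_f1937f_nt: homotheties and complex conjugation (piece SHOMO)
-/

namespace LT.Sgn

open Polynomial WeierstrassCurve PeriodPair

/-- The lattice `c Λ` (period pair `c ω₁, c ω₂`). -/
theorem scale_exists (Λ : PeriodPair) {c : ℂ} (hc : c ≠ 0) :
    ∃ Λ' : PeriodPair, ∀ z : ℂ, c * z ∈ Λ'.lattice ↔ z ∈ Λ.lattice := by
  have hi : LinearIndependent ℝ ![c * Λ.ω₁, c * Λ.ω₂] := by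
    rw [LinearIndependent.pair_iff]
    intro s t h
    apply LinearIndependent.pair_iff.mp Λ.indep s t
    apply mul_left_cancel₀ hc
    rw [mul_zero, ← h]
    simp only [Complex.real_smul]
    ring
  refine ⟨⟨c * Λ.ω₁, c * Λ.ω₂, hi⟩, fun z => ?_⟩
  rw [mem_lattice, mem_lattice]
  constructor
  · rintro ⟨m, n, h⟩
    refine ⟨m, n, mul_left_cancel₀ hc ?_⟩
    rw [← h]
    ring
  · rintro ⟨m, n, h⟩
    refine ⟨m, n, ?_⟩
    rw [← h]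
    ring

namespace SHomo

/-- The bijection `l ↦ c l`. -/
noncomputable def eqv {Λ Λ' : PeriodPair} {c : ℂ} (hc : c ≠ 0)
    (h : ∀ z : ℂ, c * z ∈ Λ'.lattice ↔ z ∈ Λ.lattice) : Λ.lattice ≃ Λ'.lattice where
  toFun l := ⟨c * l, (h l).mpr l.2⟩
  invFun l := ⟨c⁻¹ * l, (h _).mp (by rw [mul_inv_cancel_left₀ hc]; exact l.2)⟩
  left_inv l := Subtype.ext (inv_mul_cancel_left₀ hc _)
  right_inv l := Subtype.ext (mul_inv_cancel_left₀ hc _)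

theorem G_scale {Λ Λ' : PeriodPair} {c : ℂ} (hc : c ≠ 0)
    (h : ∀ z : ℂ, c * z ∈ Λ'.lattice ↔ z ∈ Λ.lattice) (n : ℕ) :
    Λ'.G n = Λ.G n / c ^ n := by
  unfold PeriodPair.G
  rw [← (eqv hc h).tsum_eq, div_eq_inv_mul, ← tsum_mul_left]
  refine tsum_congr fun l => ?_
  change ((c * (l : ℂ)) ^ n)⁻¹ = _
  rw [mul_pow, mul_inv]

/-- The bijection `l ↦ conj l`. -/
noncomputable def cqv {Λ Λ' : PeriodPair}
    (h : ∀ z : ℂ, starRingEnd ℂ z ∈ Λ'.lattice ↔ z ∈ Λ.lattice) : Λ.lattice ≃ Λ'.lattice where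
  toFun l := ⟨starRingEnd ℂ l, (h l).mpr l.2⟩
  invFun l := ⟨starRingEnd ℂ l, (h _).mp (by rw [Complex.conj_conj]; exact l.2)⟩
  left_inv l := Subtype.ext (Complex.conj_conj _)
  right_inv l := Subtype.ext (Complex.conj_conj _)

theorem G_conj {Λ Λ' : PeriodPair}
    (h : ∀ z : ℂ, starRingEnd ℂ z ∈ Λ'.lattice ↔ z ∈ Λ.lattice) (n : ℕ) :
    Λ'.G n = starRingEnd ℂ (Λ.G n) := by
  unfold PeriodPair.G
  rw [← (cqv h).tsum_eq, Complex.conj_tsum]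
  refine tsum_congr fun l => ?_
  change ((starRingEnd ℂ (l : ℂ)) ^ n)⁻¹ = _
  rw [map_inv₀, map_pow]

end SHomo

/-- `G n (c Λ) = c⁻ⁿ G n Λ`: reindex the sum by the bijection `l ↦ c l` from `Λ` to `Λ'`. -/
theorem g_scale {Λ Λ' : PeriodPair} {c : ℂ} (hc : c ≠ 0)
    (h : ∀ z : ℂ, c * z ∈ Λ'.lattice ↔ z ∈ Λ.lattice) :
    Λ'.g₂ = Λ.g₂ / c ^ 4 ∧ Λ'.g₃ = Λ.g₃ / c ^ 6 := by
  unfold PeriodPair.g₂ PeriodPair.g₃
  rw [SHomo.G_scale hc h, SHomo.G_scale hc h]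
  exact ⟨(mul_div_assoc _ _ _).symm, (mul_div_assoc _ _ _).symm⟩

theorem jj_scale {Λ Λ' : PeriodPair} {c : ℂ} (hc : c ≠ 0)
    (h : ∀ z : ℂ, c * z ∈ Λ'.lattice ↔ z ∈ Λ.lattice) : jj Λ' = jj Λ := by
  obtain ⟨h2, h3⟩ := g_scale hc h
  unfold jj jinv dsc
  rw [h2, h3]
  have e1 : 6912 * (-(Λ.g₂ / c ^ 4) / 4) ^ 3 = (6912 * (-Λ.g₂ / 4) ^ 3) / c ^ 12 := by
    field_simp
  have e2 : 4 * (-(Λ.g₂ / c ^ 4) / 4) ^ 3 + 27 * (-(Λ.g₃ / c ^ 6) / 4) ^ 2 =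
      (4 * (-Λ.g₂ / 4) ^ 3 + 27 * (-Λ.g₃ / 4) ^ 2) / c ^ 12 := by
    field_simp
  rw [e1, e2, div_div_div_cancel_right₀ (pow_ne_zero _ hc)]

theorem jj_congr {Λ Λ' : PeriodPair} (h : ∀ z : ℂ, z ∈ Λ.lattice ↔ z ∈ Λ'.lattice) :
    jj Λ = jj Λ' := by
  unfold jj
  rw [(lattice_congr h).1, (lattice_congr h).2.1]

/-- The invariants and the Weierstrass functions of the conjugate lattice (reindex the sums by
`l ↦ conj l`; `Complex.conj_tsum`, or `Complex.conjCLE.map_tsum` in some form). -/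
theorem g_conj {Λ Λ' : PeriodPair}
    (h : ∀ z : ℂ, starRingEnd ℂ z ∈ Λ'.lattice ↔ z ∈ Λ.lattice) :
    Λ'.g₂ = starRingEnd ℂ Λ.g₂ ∧ Λ'.g₃ = starRingEnd ℂ Λ.g₃ ∧ jj Λ' = starRingEnd ℂ (jj Λ) ∧
      (∀ z : ℂ, ℘[Λ'] (starRingEnd ℂ z) = starRingEnd ℂ (℘[Λ] z)) ∧
      ∀ z : ℂ, ℘'[Λ'] (starRingEnd ℂ z) = starRingEnd ℂ (℘'[Λ] z) := by
  have h2 : Λ'.g₂ = starRingEnd ℂ Λ.g₂ := by
    unfold PeriodPair.g₂
    rw [SHomo.G_conj h, map_mul, Complex.conj_ofNat]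
  have h3 : Λ'.g₃ = starRingEnd ℂ Λ.g₃ := by
    unfold PeriodPair.g₃
    rw [SHomo.G_conj h, map_mul, Complex.conj_ofNat]
  refine ⟨h2, h3, ?_, fun z => ?_, fun z => ?_⟩
  · unfold jj jinv dsc
    rw [h2, h3]
    simp only [map_div₀, map_mul, map_add, map_pow, map_neg, Complex.conj_ofNat]
  · unfold PeriodPair.weierstrassP
    rw [← (SHomo.cqv h).tsum_eq, Complex.conj_tsum]
    refine tsum_congr fun l => ?_
    change (1 / (starRingEnd ℂ z - starRingEnd ℂ (l : ℂ)) ^ 2 - 1 / (starRingEnd ℂ (l : ℂ)) ^ 2) = _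
    simp only [map_sub, map_div₀, map_one, map_pow]
  · unfold PeriodPair.derivWeierstrassP
    rw [← (SHomo.cqv h).tsum_eq, map_neg, Complex.conj_tsum]
    refine congrArg Neg.neg (tsum_congr fun l => ?_)
    change (2 / (starRingEnd ℂ z - starRingEnd ℂ (l : ℂ)) ^ 3) = _
    simp only [map_sub, map_div₀, Complex.conj_ofNat, map_pow]

end LT.Sgn
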