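import Pool.Agent.Lib_MP_f1937f_nt.SDef

/-!
# MP_f1937f_nt: the two families of real lattices (piece SPAIR)
-/

namespace LT.Sgn

open Polynomial WeierstrassCurve PeriodPair

/-- The centred rectangular lattice is the lattice of a period pair: take
`ω₁ = (α + iβ)/2`, `ω₂ = (α - iβ)/2`; then `m ω₁ + n ω₂ = ((m+n) α + (m-n) i β)/2`. -/
theorem CL_exists {α β : ℝ} (hα : 0 < α) (hβ : 0 < β) :
    ∃ Λ : PeriodPair, ∀ z : ℂ, z ∈ Λ.lattice ↔ z ∈ CL α β := by
  have hind : LinearIndependent ℝ ![((α : ℂ) + β * Complex.I) / 2, ((α : ℂ) - β * Complex.I) / 2] := by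
    rw [LinearIndependent.pair_iff]
    intro s t hst
    rw [Complex.real_smul, Complex.real_smul] at hst
    have h1 := congrArg Complex.re hst
    have h2 := congrArg Complex.im hst
    simp at h1 h2
    have e1 : (s + t) * α = 0 := by linarith
    have e2 : (s - t) * β = 0 := by linarith
    have e3 := (mul_eq_zero.mp e1).resolve_right hα.ne'
    have e4 := (mul_eq_zero.mp e2).resolve_right hβ.ne'
    constructor <;> linarith
  refine ⟨⟨_, _, hind⟩, fun z => ?_⟩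
  rw [PeriodPair.mem_lattice]
  constructor
  · rintro ⟨m, n, rfl⟩
    refine ⟨m + n, m - n, ⟨m, by ring⟩, ?_⟩
    push_cast
    ring
  · rintro ⟨u, v, ⟨m, hm⟩, rfl⟩
    refine ⟨m, u - m, ?_⟩
    have hv : v = m + m - u := by omega
    subst hv
    push_cast
    ring

/-- The rectangular lattice is the lattice of a period pair: `ω₁ = α`, `ω₂ = iβ`. -/
theorem RR_exists {α β : ℝ} (hα : 0 < α) (hβ : 0 < β) :
    ∃ Λ : PeriodPair, ∀ z : ℂ, z ∈ Λ.lattice ↔ z ∈ RR α β := by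
  have hind : LinearIndependent ℝ ![(α : ℂ), (β : ℂ) * Complex.I] := by
    rw [LinearIndependent.pair_iff]
    intro s t hst
    rw [Complex.real_smul, Complex.real_smul] at hst
    have h1 := congrArg Complex.re hst
    have h2 := congrArg Complex.im hst
    simp at h1 h2
    exact ⟨h1.resolve_right hα.ne', h2.resolve_right hβ.ne'⟩
  refine ⟨⟨_, _, hind⟩, fun z => ?_⟩
  rw [PeriodPair.mem_lattice]
  constructor
  · rintro ⟨m, n, rfl⟩
    refine ⟨m, n, ?_⟩
    push_cast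
    ring
  · rintro ⟨u, v, rfl⟩
    refine ⟨u, v, ?_⟩
    push_cast
    ring

namespace SPair

theorem le_of_int {a a' : ℝ} (ha : 0 < a) (ha' : 0 < a') {m : ℤ} (h : a = a' * m) : a' ≤ a := by
  have hm : 0 < m := by
    by_contra hn
    have h1 : (m : ℝ) ≤ 0 := by exact_mod_cast not_lt.mp hn
    have : a' * m ≤ 0 := mul_nonpos_of_nonneg_of_nonpos ha'.le h1
    linarith
  have h2 : (1 : ℝ) ≤ m := by exact_mod_cast hm
  rw [h]
  exact le_mul_of_one_le_right ha'.le h2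

theorem cl_re {a a' b' : ℝ} (ha : 0 < a) (ha' : 0 < a') (hb' : 0 < b')
    (h : (a : ℂ) ∈ CL a' b') : a' ≤ a := by
  obtain ⟨u, v, ⟨m, hm⟩, e⟩ := h
  have h1 := congrArg Complex.re e
  have h2 := congrArg Complex.im e
  simp at h1 h2
  have hv : v = 0 := by
    have h3 : b' * (v : ℝ) = 0 := by linarith
    exact_mod_cast (mul_eq_zero.mp h3).resolve_left hb'.ne'
  have hu : u = 2 * m := by omega
  refine le_of_int ha ha' (m := m) ?_
  rw [h1, hu]
  push_cast
  ring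

theorem cl_im {b a' b' : ℝ} (hb : 0 < b) (ha' : 0 < a') (hb' : 0 < b')
    (h : (b : ℂ) * Complex.I ∈ CL a' b') : b' ≤ b := by
  obtain ⟨u, v, ⟨m, hm⟩, e⟩ := h
  have h1 := congrArg Complex.re e
  have h2 := congrArg Complex.im e
  simp at h1 h2
  have hu : u = 0 := by
    have h3 : a' * (u : ℝ) = 0 := by linarith
    exact_mod_cast (mul_eq_zero.mp h3).resolve_left ha'.ne'
  have hv : v = 2 * m := by omega
  refine le_of_int hb hb' (m := m) ?_
  rw [h2, hv]
  push_cast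
  ring

theorem rr_re {a a' b' : ℝ} (ha : 0 < a) (ha' : 0 < a') (h : (a : ℂ) ∈ RR a' b') : a' ≤ a := by
  obtain ⟨u, v, e⟩ := h
  have h1 := congrArg Complex.re e
  simp at h1
  exact le_of_int ha ha' h1

theorem rr_im {b a' b' : ℝ} (hb : 0 < b) (hb' : 0 < b') (h : (b : ℂ) * Complex.I ∈ RR a' b') :
    b' ≤ b := by
  obtain ⟨u, v, e⟩ := h
  have h2 := congrArg Complex.im e
  simp at h2
  exact le_of_int hb hb' h2

theorem mem_cl_re (a b : ℝ) : (a : ℂ) ∈ CL a b := ⟨2, 0, ⟨1, rfl⟩, by push_cast; ring⟩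

theorem mem_cl_im (a b : ℝ) : (b : ℂ) * Complex.I ∈ CL a b :=
  ⟨0, 2, ⟨1, rfl⟩, by push_cast; ring⟩

theorem mem_rr_re (a b : ℝ) : (a : ℂ) ∈ RR a b := ⟨1, 0, by push_cast; ring⟩

theorem mem_rr_im (a b : ℝ) : (b : ℂ) * Complex.I ∈ RR a b := ⟨0, 1, by push_cast; ring⟩

end SPair

open SPair

/-- The centred lattices are determined by their real and imaginary parts (`CL a b ∩ ℝ = a ℤ`,
`CL a b ∩ iℝ = i b ℤ`). -/
theorem CL_inj {a b a' b' : ℝ} (ha : 0 < a) (hb : 0 < b) (ha' : 0 < a') (hb' : 0 < b')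
    (h : CL a b = CL a' b') : a = a' ∧ b = b' :=
  ⟨le_antisymm (cl_re ha' ha hb (h ▸ mem_cl_re a' b')) (cl_re ha ha' hb' (h ▸ mem_cl_re a b)),
    le_antisymm (cl_im hb' ha hb (h ▸ mem_cl_im a' b')) (cl_im hb ha' hb' (h ▸ mem_cl_im a b))⟩

theorem RR_inj {a b a' b' : ℝ} (ha : 0 < a) (hb : 0 < b) (ha' : 0 < a') (hb' : 0 < b')
    (h : RR a b = RR a' b') : a = a' ∧ b = b' :=
  ⟨le_antisymm (rr_re ha' ha (h ▸ mem_rr_re a' b')) (rr_re ha ha' (h ▸ mem_rr_re a b)),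
    le_antisymm (rr_im hb' hb (h ▸ mem_rr_im a' b')) (rr_im hb hb' (h ▸ mem_rr_im a b))⟩

end LT.Sgn
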