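import Pool.Agent.Lib_MP_f1937f_nt.IDefs
import Pool.Agent.Lib_MP_f1937f_nt.SPair
import Pool.Agent.Lib_MP_f1937f_nt.SHomo

/-!
# MP_f1937f_nt: the hexagonal and the square lattice (layer SGN)
-/

namespace LT

open Polynomial WeierstrassCurve PeriodPair

namespace Sgn.Hex

/-- The primitive third root of unity. -/
noncomputable def rho : ℂ := (-1 + (Real.sqrt 3 : ℂ) * Complex.I) / 2

theorem sq3 : ((Real.sqrt 3 : ℝ) : ℂ) ^ 2 = 3 := by
  have h : (Real.sqrt 3) ^ 2 = 3 := Real.sq_sqrt (by norm_num)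
  exact_mod_cast congrArg (fun x : ℝ => (x : ℂ)) h

theorem rho_eq : rho ^ 2 + rho + 1 = 0 := by
  unfold rho
  linear_combination (1 / 4 : ℂ) * (Real.sqrt 3 : ℂ) ^ 2 * Complex.I_sq - (1 / 4 : ℂ) * sq3

theorem rho_cube : rho ^ 3 = 1 := by
  linear_combination (rho - 1) * rho_eq

theorem rho_ne_zero : rho ≠ 0 := by
  intro h
  have := rho_eq
  rw [h] at this
  norm_num at this

theorem rho_ne_one : rho ≠ 1 := by
  intro h
  have := rho_eq
  rw [h] at this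
  norm_num at this

theorem mul_mem {z : ℂ} (hz : z ∈ CL 1 (Real.sqrt 3)) : rho * z ∈ CL 1 (Real.sqrt 3) := by
  obtain ⟨u, v, he, rfl⟩ := hz
  obtain ⟨k, hk⟩ := he
  refine ⟨-k - v, k - v, ⟨-v, by ring⟩, ?_⟩
  have hu : (u : ℂ) = 2 * k - v := by
    have : (u : ℂ) + v = k + k := by exact_mod_cast congrArg (fun x : ℤ => (x : ℂ)) hk
    linear_combination this
  unfold rho
  push_cast
  rw [hu]
  linear_combination ((1 / 4 : ℂ) * (Real.sqrt 3 : ℂ) ^ 2 * v) * Complex.I_sq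
    - (1 / 4 : ℂ) * v * sq3

theorem mul_mem_iff (z : ℂ) : rho * z ∈ CL 1 (Real.sqrt 3) ↔ z ∈ CL 1 (Real.sqrt 3) := by
  constructor
  · intro h
    have h1 := mul_mem (mul_mem h)
    have h2 : rho * (rho * (rho * z)) = z := by
      linear_combination z * rho_cube
    rwa [h2] at h1
  · exact mul_mem

theorem conj_mem {α β : ℝ} {z : ℂ} (hz : z ∈ CL α β) : starRingEnd ℂ z ∈ CL α β := by
  obtain ⟨u, v, he, rfl⟩ := hz
  obtain ⟨k, hk⟩ := he
  refine ⟨u, -v, ⟨k - v, by linarith⟩, ?_⟩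
  simp only [map_div₀, map_add, map_mul, Complex.conj_ofReal, Complex.conj_I, Complex.conj_ofNat]
  push_cast
  ring

theorem conj_mem_iff {α β : ℝ} (z : ℂ) : starRingEnd ℂ z ∈ CL α β ↔ z ∈ CL α β := by
  constructor
  · intro h
    have := conj_mem h
    rwa [Complex.conj_conj] at this
  · exact conj_mem

/-- The lattice `CL 1 √3`. -/
theorem base : ∃ Λ : PeriodPair, (∀ z : ℂ, z ∈ Λ.lattice ↔ z ∈ CL 1 (Real.sqrt 3)) ∧ Λ.g₂ = 0 ∧
    ∃ r : ℝ, r ≠ 0 ∧ Λ.g₃ = r := by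
  obtain ⟨Λ, hΛ⟩ := CL_exists (α := 1) (β := Real.sqrt 3) one_pos (Real.sqrt_pos.mpr (by norm_num))
  have h1 := (g_scale (Λ := Λ) (Λ' := Λ) rho_ne_zero (fun z => by
    rw [hΛ, hΛ, mul_mem_iff])).1
  have h2 : Λ.g₂ = 0 := by
    have h4 : rho ^ 4 = rho := by linear_combination rho * rho_cube
    rw [h4, eq_div_iff rho_ne_zero] at h1
    have h5 : Λ.g₂ * (rho - 1) = 0 := by linear_combination h1
    exact (mul_eq_zero.mp h5).resolve_right (sub_ne_zero.mpr rho_ne_one)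
  have h3 := (g_conj (Λ := Λ) (Λ' := Λ) (fun z => by rw [hΛ, hΛ, conj_mem_iff])).2.1
  refine ⟨Λ, hΛ, h2, Λ.g₃.re, ?_, ?_⟩
  · intro h0
    have h4 : Λ.g₃ = 0 := by
      rw [← (Complex.conj_eq_iff_re.mp h3.symm), h0]
      simp
    have := wp_disc Λ
    rw [h2, h4] at this
    norm_num at this
  · exact (Complex.conj_eq_iff_re.mp h3.symm).symm

theorem sixth {r : ℝ} (hr : 0 < r) : ∃ c : ℝ, 0 < c ∧ c ^ 6 = r := by
  refine ⟨r ^ ((1 : ℝ) / 6), by positivity, ?_⟩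
  rw [← Real.rpow_natCast, ← Real.rpow_mul hr.le]
  norm_num

end Sgn.Hex

open Sgn Sgn.Hex

/-- The hexagonal lattice uniformising `y² = x³ - 31/4`. -/
theorem hex_exists : ∃ (Λ : PeriodPair) (α β : ℝ), 0 < α ∧ 0 < β ∧
    (β = Real.sqrt 3 * α ∨ α = Real.sqrt 3 * β) ∧ Λ.g₂ = 0 ∧ Λ.g₃ = 31 ∧
    (∀ z : ℂ, z ∈ Λ.lattice ↔ z ∈ CL α β) ∧
    ∃ ρ : ℂ, ρ ^ 2 + ρ + 1 = 0 ∧ ∀ z ∈ Λ.lattice, ρ * z ∈ Λ.lattice := by
  obtain ⟨Λ, hΛ, h2, r, hr, h3⟩ := Sgn.Hex.base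
  have h30 : 0 < Real.sqrt 3 := Real.sqrt_pos.mpr (by norm_num)
  rcases lt_or_gt_of_ne hr with hneg | hpos
  · obtain ⟨c, hc, hc6⟩ := sixth (r := -r / 31) (by linarith)
    have hcC : (c : ℂ) ≠ 0 := by exact_mod_cast hc.ne'
    have hIc : Complex.I * (c : ℂ) ≠ 0 := mul_ne_zero Complex.I_ne_zero hcC
    obtain ⟨Λ', hΛ'⟩ := Sgn.scale_exists Λ hIc
    have hg := g_scale hIc hΛ'
    have key : ∀ z : ℂ, z ∈ Λ'.lattice ↔ z / (Complex.I * (c : ℂ)) ∈ Λ.lattice := by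
      intro z
      rw [← hΛ', mul_div_cancel₀ _ hIc]
    refine ⟨Λ', Real.sqrt 3 * c, c, by positivity, hc, Or.inr rfl, ?_, ?_, ?_, rho, rho_eq, ?_⟩
    · rw [hg.1, h2, zero_div]
    · rw [hg.2, h3, mul_pow]
      have hI6 : Complex.I ^ 6 = -1 := by
        rw [show (6 : ℕ) = 2 * 3 by norm_num, pow_mul, Complex.I_sq]
        norm_num
      have hc6' : (c : ℂ) ^ 6 = -r / 31 := by exact_mod_cast congrArg (fun x : ℝ => (x : ℂ)) hc6
      have hrC : (r : ℂ) ≠ 0 := by exact_mod_cast hr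
      rw [hI6, hc6']
      field_simp
    · intro z
      rw [key, hΛ]
      constructor
      · rintro ⟨u, v, ⟨k, hk⟩, hz⟩
        rw [div_eq_iff hIc] at hz
        refine ⟨-v, u, ⟨k - v, by linarith⟩, ?_⟩
        rw [hz]
        push_cast
        linear_combination ((c : ℂ) * (Real.sqrt 3 : ℂ) * v / 2) * Complex.I_sq
      · rintro ⟨u, v, ⟨k, hk⟩, rfl⟩
        refine ⟨v, -u, ⟨k - u, by linarith⟩, ?_⟩
        rw [div_eq_iff hIc]
        push_cast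
        linear_combination ((c : ℂ) * (Real.sqrt 3 : ℂ) * u / 2) * Complex.I_sq
    · intro z hz
      rw [key] at hz ⊢
      rw [hΛ] at hz ⊢
      rw [mul_div_assoc]
      exact mul_mem hz
  · obtain ⟨c, hc, hc6⟩ := sixth (r := r / 31) (by linarith)
    have hcC : (c : ℂ) ≠ 0 := by exact_mod_cast hc.ne'
    obtain ⟨Λ', hΛ'⟩ := Sgn.scale_exists Λ hcC
    have hg := g_scale hcC hΛ'
    have key : ∀ z : ℂ, z ∈ Λ'.lattice ↔ z / (c : ℂ) ∈ Λ.lattice := by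
      intro z
      rw [← hΛ', mul_div_cancel₀ _ hcC]
    refine ⟨Λ', c, Real.sqrt 3 * c, hc, by positivity, Or.inl rfl, ?_, ?_, ?_, rho, rho_eq, ?_⟩
    · rw [hg.1, h2, zero_div]
    · rw [hg.2, h3]
      have hc6' : (c : ℂ) ^ 6 = r / 31 := by exact_mod_cast congrArg (fun x : ℝ => (x : ℂ)) hc6
      have hrC : (r : ℂ) ≠ 0 := by exact_mod_cast hr
      rw [hc6']
      field_simp
    · intro z
      rw [key, hΛ]
      constructor
      · rintro ⟨u, v, he, hz⟩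
        rw [div_eq_iff hcC] at hz
        refine ⟨u, v, he, ?_⟩
        rw [hz]
        push_cast
        ring
      · rintro ⟨u, v, he, rfl⟩
        refine ⟨u, v, he, ?_⟩
        rw [div_eq_iff hcC]
        push_cast
        ring
    · intro z hz
      rw [key] at hz ⊢
      rw [hΛ] at hz ⊢
      rw [mul_div_assoc]
      exact mul_mem hz

/-- The square lattice. -/
theorem sq_exists : ∃ Λ : PeriodPair, Λ.g₃ = 0 ∧ ∀ z ∈ Λ.lattice, Complex.I * z ∈ Λ.lattice := by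
  obtain ⟨Λ, hΛ⟩ := RR_exists (α := 1) (β := 1) one_pos one_pos
  have hI : ∀ z ∈ Λ.lattice, Complex.I * z ∈ Λ.lattice := by
    intro z hz
    rw [hΛ] at hz ⊢
    obtain ⟨u, v, rfl⟩ := hz
    refine ⟨-v, u, ?_⟩
    push_cast
    linear_combination (v : ℂ) * Complex.I_sq
  refine ⟨Λ, ?_, hI⟩
  have h1 := (g_scale (Λ := Λ) (Λ' := Λ) Complex.I_ne_zero (fun z => by
    constructor
    · intro h
      have h2 := hI _ (hI _ (hI _ h))
      have h3 : Complex.I * (Complex.I * (Complex.I * (Complex.I * z))) = z := by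
        linear_combination z * (Complex.I ^ 2 - 1) * Complex.I_sq
      rwa [h3] at h2
    · exact hI z)).2
  have hI6 : Complex.I ^ 6 = -1 := by
    rw [show (6 : ℕ) = 2 * 3 by norm_num, pow_mul, Complex.I_sq]
    norm_num
  rw [hI6] at h1
  linear_combination (1 / 2 : ℂ) * h1

/-- `j = 0` and `j = 1728` are CM. -/
theorem noCM_ne {W : WeierstrassCurve ℤ} (hΔ : W.Δ ≠ 0) (h : NoCM W) :
    W.c₄ ≠ 0 ∧ W.c₄ ^ 3 ≠ 1728 * W.Δ := by
  constructor
  · intro h4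
    obtain ⟨Λ, α, β, _, _, _, hg2, hg3, _, ρ, hρ, hm⟩ := hex_exists
    obtain ⟨k, hk⟩ := h Λ (by rw [h4, hg2]; simp) ρ hm
    rw [hk] at hρ
    have h1 : k ^ 2 + k + 1 = 0 := by exact_mod_cast hρ
    nlinarith [sq_nonneg (2 * k + 1)]
  · intro h4
    obtain ⟨Λ, hg3, hm⟩ := sq_exists
    have h4C : (W.c₄ : ℂ) ^ 3 = 1728 * (W.Δ : ℂ) := by
      exact_mod_cast congrArg (fun x : ℤ => (x : ℂ)) h4
    obtain ⟨k, hk⟩ := h Λ (by rw [h4C, hg3]; ring) Complex.I hm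
    have h1 := congrArg Complex.im hk
    simp at h1

end LT
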