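import Pool.Agent.Lib_MP_f1937f_nt.Size

/-!
# MP_f1937f_nt, theorem C: a better bound for the size of the prime (piece KSIZE)

`cycL_count`: the map `T ↦ zmultiples T` from the points of order `n` (at most `n²` by `card_tors`) to `CycL n` has fibres with
exactly `φ(n)` elements (the generators), so `φ(n) · #CycL n ≤ n²`.
`totient_lower`: `n ≤ φ(n) (log₂ n + 1)`: `φ(n) = n ∏ (1 - 1/q)` over the `ω` prime factors, the `i`-th of them is
at least `i + 1`, so `φ(n) / n ≥ ∏_{i ≤ ω} (1 - 1/(i+1)) = 1 / (ω + 1)`, `2^ω ≤ n` (induction on `ω`, or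
any other proof; a different power of `log n` is also fine if `k_size` is changed: ask helper12).
`k_size`: as `size_bound` (Size.lean) with `#CycL n ≤ n (log₂ n + 1)` instead of `n²` in `z_le`.
-/

namespace LT

open Polynomial WeierstrassCurve

namespace KSize

theorem prod_le (s : Finset ℕ) : (∀ q ∈ s, 2 ≤ q) →
    ∏ q ∈ s, q ≤ (s.card + 1) * ∏ q ∈ s, (q - 1) := by
  induction s using Finset.induction_on_max with
  | empty => intro _; simp
  | insert a s hmax ih =>
    intro h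
    have ha : a ∉ s := fun h1 => lt_irrefl _ (hmax a h1)
    have ih' := ih fun q hq => h q (Finset.mem_insert_of_mem hq)
    rw [Finset.prod_insert ha, Finset.prod_insert ha, Finset.card_insert_of_notMem ha]
    have ha2 : 2 ≤ a := h a (Finset.mem_insert_self _ _)
    have hcard : s.card + 2 ≤ a := by
      have h1 : s ⊆ Finset.Ico 2 a := by
        intro q hq
        rw [Finset.mem_Ico]
        exact ⟨h q (Finset.mem_insert_of_mem hq), hmax q hq⟩
      have h2 := Finset.card_le_card h1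
      rw [Nat.card_Ico] at h2
      omega
    obtain ⟨b, rfl⟩ : ∃ b, a = b + 1 := ⟨a - 1, by omega⟩
    rw [Nat.add_sub_cancel]
    set X := ∏ q ∈ s, q
    set Y := ∏ q ∈ s, (q - 1)
    calc (b + 1) * X ≤ (b + 1) * ((s.card + 1) * Y) := Nat.mul_le_mul_left _ ih'
      _ = ((b + 1) * (s.card + 1)) * Y := by ring
      _ ≤ ((s.card + 1 + 1) * b) * Y := by
        apply Nat.mul_le_mul_right
        nlinarith
      _ = _ := by ring

end KSize

theorem totient_lower {n : ℕ} (hn : 0 < n) : n ≤ n.totient * (Nat.log 2 n + 1) := by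
  have h2 : ∀ q ∈ n.primeFactors, 2 ≤ q := fun q hq => (Nat.prime_of_mem_primeFactors hq).two_le
  have h1 := KSize.prod_le n.primeFactors h2
  have h3 := Nat.totient_mul_prod_primeFactors n
  have h4 : n.primeFactors.card ≤ Nat.log 2 n := by
    apply Nat.le_log_of_pow_le (by norm_num)
    exact (Finset.pow_card_le_prod _ _ 2 h2).trans
      (Nat.le_of_dvd hn (Nat.prod_primeFactors_dvd n))
  set X := ∏ q ∈ n.primeFactors, q
  set Y := ∏ q ∈ n.primeFactors, (q - 1) with hY
  have hY0 : 0 < Y := by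
    rw [hY]
    apply Finset.prod_pos
    intro q hq
    have := h2 q hq
    omega
  have h5 : n * Y ≤ (n.totient * (Nat.log 2 n + 1)) * Y := by
    rw [← h3]
    calc n.totient * X ≤ n.totient * ((n.primeFactors.card + 1) * Y) := Nat.mul_le_mul_left _ h1
      _ ≤ n.totient * ((Nat.log 2 n + 1) * Y) := by gcongr
      _ = _ := by ring
  exact Nat.le_of_mul_le_mul_right h5 hY0

theorem cycL_count {Ω : Type} [Field Ω] [DecidableEq Ω] [CharZero Ω] [IsAlgClosed Ω] {n : ℕ}
    (hn : 0 < n) : n.totient * (CycL (0 : Ω) (-31 / 4) n).ncard ≤ n ^ 2 := by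
  classical
  have hd : dsc (0 : Ω) (-31 / 4) ≠ 0 := by
    unfold dsc
    norm_num
  have hcard := card_tors (k := Ω) two_ne_zero hd (n := n) (by exact_mod_cast hn.ne')
  set S : Set (Pt (0 : Ω) (-31 / 4)) := {T | n • T = 0} with hS
  have hSn : S.ncard = n ^ 2 := hcard
  have hSf : S.Finite := by
    apply Set.finite_of_ncard_ne_zero
    rw [hSn]
    positivity
  obtain ⟨hfin, -⟩ := cycL_finite (Ω := Ω) hn
  -- the points of order `n`
  set A : Finset (Pt (0 : Ω) (-31 / 4)) := hSf.toFinset.filter fun T => addOrderOf T = n with hA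
  have hAn : A.card ≤ n ^ 2 := by
    rw [← hSn, Set.ncard_eq_toFinset_card _ hSf]
    exact Finset.card_filter_le _ _
  have hmaps : Set.MapsTo (fun T => AddSubgroup.zmultiples T) (A : Set (Pt (0 : Ω) (-31 / 4)))
      (hfin.toFinset : Set (AddSubgroup (Pt (0 : Ω) (-31 / 4)))) := by
    intro T hT
    rw [Finset.mem_coe, hA, Finset.mem_filter] at hT
    rw [Finset.mem_coe, Set.Finite.mem_toFinset]
    exact ⟨T, hT.2, rfl⟩
  have hsum := Finset.card_eq_sum_card_fiberwise hmaps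
  have hfib : ∀ L ∈ hfin.toFinset,
      n.totient ≤ (A.filter fun T => AddSubgroup.zmultiples T = L).card := by
    intro L hL
    rw [Set.Finite.mem_toFinset] at hL
    obtain ⟨hLf, hLc, hL0⟩ := cycL_mem hn hL
    have hcyc : IsAddCyclic L := by
      obtain ⟨T, -, rfl⟩ := hL
      infer_instance
    have : Fintype L := Fintype.ofFinite L
    have h1 := IsAddCyclic.card_addOrderOf_eq_totient (α := L) (d := n) (by
      rw [← Nat.card_eq_fintype_card, hLc])
    rw [← h1]
    apply Finset.card_le_card_of_injOn (fun T : L => (T : Pt (0 : Ω) (-31 / 4)))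
    · intro T hT
      rw [Finset.mem_coe, Finset.mem_filter] at hT
      have h2 : addOrderOf (T : Pt (0 : Ω) (-31 / 4)) = n := by
        rw [AddSubgroup.addOrderOf_coe]
        exact hT.2
      rw [Finset.mem_coe, Finset.mem_filter, hA, Finset.mem_filter, Set.Finite.mem_toFinset]
      refine ⟨⟨hL0 _ T.2, h2⟩, ?_⟩
      apply AddSubgroup.eq_of_le_of_card_ge
      · rw [AddSubgroup.zmultiples_le]
        exact T.2
      · rw [hLc, Nat.card_zmultiples, h2]
    · intro T _ T' _ h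
      exact Subtype.ext h
  calc n.totient * (CycL (0 : Ω) (-31 / 4) n).ncard
      = ∑ _L ∈ hfin.toFinset, n.totient := by
        rw [Finset.sum_const, smul_eq_mul, mul_comm, Set.ncard_eq_toFinset_card _ hfin]
    _ ≤ ∑ L ∈ hfin.toFinset, (A.filter fun T => AddSubgroup.zmultiples T = L).card :=
        Finset.sum_le_sum hfib
    _ = A.card := hsum.symm
    _ ≤ n ^ 2 := hAn

namespace KSize

theorem z_le {u w : ℤ} {K : ℝ} (hK : 1 ≤ K)
    (h : ∀ n : ℕ, 0 < n → ∀ L ∈ CycL (0 : ℂ) (-31 / 4) n, ‖zF u w n ℂ L‖ ≤ K * (n : ℝ) ^ 27)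
    {n : ℕ} (hn : 0 < n) {Z : ℤ}
    (hZ : ∏ᶠ L ∈ CycL (0 : ℂ) (-31 / 4) n, zF u w n ℂ L = (Z : ℂ)) :
    |(Z : ℝ)| ≤ (K * (n : ℝ) ^ 27) ^ (n * (Nat.log 2 n + 1)) := by
  have hn1 : (1 : ℝ) ≤ n := by exact_mod_cast hn
  obtain ⟨hfin, -⟩ := cycL_finite (Ω := ℂ) hn
  have hcount := cycL_count (Ω := ℂ) hn
  have hcard : (CycL (0 : ℂ) (-31 / 4) n).ncard ≤ n * (Nat.log 2 n + 1) := by
    have h1 := totient_lower hn
    have h2 : 0 < n.totient := Nat.totient_pos.2 hn
    have h3 : n.totient * (CycL (0 : ℂ) (-31 / 4) n).ncard ≤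
        n.totient * (n * (Nat.log 2 n + 1)) := by
      calc n.totient * (CycL (0 : ℂ) (-31 / 4) n).ncard ≤ n ^ 2 := hcount
        _ = n * n := sq n
        _ ≤ n * (n.totient * (Nat.log 2 n + 1)) := Nat.mul_le_mul_left _ h1
        _ = _ := by ring
    exact Nat.le_of_mul_le_mul_left h3 h2
  have hK1 : 1 ≤ K * (n : ℝ) ^ 27 := one_le_mul_of_one_le_of_one_le hK (one_le_pow₀ hn1)
  have h1 : ‖(Z : ℂ)‖ = |(Z : ℝ)| := by rw [Complex.norm_intCast]
  rw [← h1, ← hZ, finprod_mem_eq_finite_toFinset_prod _ hfin, norm_prod]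
  calc ∏ L ∈ hfin.toFinset, ‖zF u w n ℂ L‖ ≤ ∏ _L ∈ hfin.toFinset, (K * (n : ℝ) ^ 27) := by
        refine Finset.prod_le_prod (fun _ _ => norm_nonneg _) fun L hL => ?_
        rw [Set.Finite.mem_toFinset] at hL
        exact h n hn L hL
    _ = (K * (n : ℝ) ^ 27) ^ hfin.toFinset.card := by rw [Finset.prod_const]
    _ ≤ (K * (n : ℝ) ^ 27) ^ (n * (Nat.log 2 n + 1)) := by
        refine pow_le_pow_right₀ hK1 ?_
        rwa [← Set.ncard_eq_toFinset_card _ hfin]

theorem log_two_le {n : ℕ} (hn : 0 < n) : (Nat.log 2 n : ℝ) ≤ 2 * Real.log n := by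
  have h1 : ((2 : ℝ)) ^ (Nat.log 2 n) ≤ n := by
    exact_mod_cast Nat.pow_log_le_self 2 hn.ne'
  have h2 := Real.log_le_log (by positivity) h1
  rw [Real.log_pow] at h2
  have h3 : (1 : ℝ) / 2 ≤ Real.log 2 := by
    have := Real.log_two_gt_d9
    linarith
  have h4 : (0 : ℝ) ≤ Nat.log 2 n := Nat.cast_nonneg _
  nlinarith

end KSize

theorem k_size (j : ℚ) : ∃ C : ℝ, 0 < C ∧ ∀ (p : ℕ) [Fact p.Prime] (n : ℕ), 0 < n → 5 ≤ p →
    ¬ p ∣ n → 0 ≤ padicValRat p j → ∀ N : ℚ, N ≠ 0 →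
    NN (PadicAlgCl p) (j : PadicAlgCl p) n = (N : PadicAlgCl p) → 0 < padicValRat p N →
    Real.log p ≤ C * n * (1 + Real.log n) ^ 2 := by
  obtain ⟨K, hK, hle⟩ := zF_le j.num j.den
  have hlogK := Real.log_nonneg hK
  refine ⟨2 * (Real.log K + 27), by linarith, ?_⟩
  intro p _ n hn _ _ _ N hN0 hN hv
  obtain ⟨Z, hZ⟩ := z_exists j.num j.den hn
  have hw : (j.den : ℤ) ≠ 0 := by exact_mod_cast j.den_nz
  have hj : (j : PadicAlgCl p) = ((j.num : ℤ) : PadicAlgCl p) / ((j.den : ℤ) : PadicAlgCl p) := by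
    conv_lhs => rw [← Rat.num_div_den j]
    push_cast
    rfl
  rw [hj] at hN
  obtain ⟨hZ0, hdvd⟩ := dvd_Z p hw hn hN0 hN hv (hZ (PadicAlgCl p))
  have hb := KSize.z_le hK hle hn (hZ ℂ)
  have hpZ : (p : ℝ) ≤ |(Z : ℝ)| := by
    have h1 := Int.le_of_dvd (abs_pos.mpr hZ0) ((dvd_abs _ _).mpr hdvd)
    have h2 : ((p : ℤ) : ℝ) ≤ ((|Z| : ℤ) : ℝ) := by exact_mod_cast h1
    rw [Int.cast_abs] at h2
    exact_mod_cast h2
  have hn1 : (1 : ℝ) ≤ n := by exact_mod_cast hn
  have hp0 : (0 : ℝ) < p := by exact_mod_cast (Fact.out : p.Prime).pos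
  have hlogn : 0 ≤ Real.log n := Real.log_nonneg hn1
  have hl2 := KSize.log_two_le hn
  calc Real.log p ≤ Real.log ((K * (n : ℝ) ^ 27) ^ (n * (Nat.log 2 n + 1))) :=
        Real.log_le_log hp0 (hpZ.trans hb)
    _ = ((n : ℝ) * (Nat.log 2 n + 1)) * (Real.log K + 27 * Real.log n) := by
        rw [Real.log_pow, Real.log_mul (by positivity) (by positivity), Real.log_pow]
        push_cast
        ring
    _ ≤ ((n : ℝ) * (2 * (1 + Real.log n))) * ((Real.log K + 27) * (1 + Real.log n)) := by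
        apply mul_le_mul
        · apply mul_le_mul_of_nonneg_left _ (by linarith)
          linarith
        · nlinarith
        · positivity
        · positivity
    _ = 2 * (Real.log K + 27) * n * (1 + Real.log n) ^ 2 := by ring

end LT
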