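import Pool.Agent.Lib_MP_f1937f_nt.KSign
import Pool.Agent.Lib_MP_f1937f_nt.KSize
import Pool.Agent.Lib_MP_f1937f_nt.CorePrime

/-!
# MP_f1937f_nt, theorem C: one modulus gives one supersingular prime (piece KCORE)

The same proof as `core_prime0` (CorePrime.lean) with `n = h (M Q)`, `Q = 1 mod 3` prime, using `k_sign` and `k_size`.
-/

namespace LT

open Polynomial WeierstrassCurve

theorem k_core (W : WeierstrassCurve ℤ) (hΔ : W.Δ ≠ 0) (hCM : NoCM W) :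
    ∃ (h : ℕ) (lo hi C : ℝ), (h = 1 ∨ h = 2) ∧ 1 ≤ lo ∧ lo < hi ∧ 0 < C ∧
      ∀ M Q : ℕ, Odd M → ¬ 3 ∣ M → 11 ∣ M → Q.Prime → Q % 3 = 1 → ¬ Q ∣ M →
      lo < (Q : ℝ) / (M : ℝ) → (Q : ℝ) / (M : ℝ) < hi →
      (∀ p : ℕ, p.Prime → p % 3 = 2 → (p ∈ badW W ∨ p ∣ 2 * M) → KilledBy p M) →
      ∃ (p : ℕ) (_ : Fact p.Prime), 5 ≤ p ∧ p % 3 = 2 ∧ ¬ KilledBy p M ∧ p ∉ badW W ∧
        ¬ p ∣ h * (M * Q) ∧ affCount W p = p ∧
        Real.log p ≤ C * ((h * (M * Q) : ℕ) : ℝ) * (1 + Real.log ((h * (M * Q) : ℕ) : ℝ)) ^ 2 ∧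
        ∃ L : AddSubgroup (Pt (0 : Fb p) (-31 / 4)), RedL p (h * (M * Q)) (jW W) L := by
  obtain ⟨hc0, hc1⟩ := noCM_ne hΔ hCM
  have hj1728 : ((jW W : ℚ) : ℝ) ≠ 1728 := by
    intro h0
    have h1 : jW W = 1728 := by exact_mod_cast h0
    have h2 := jW_eq hΔ
    rw [h1] at h2
    exact hc1 (by exact_mod_cast h2)
  obtain ⟨h, hh, lo, hi, hlo, hlh, hsign⟩ := k_sign ((jW W : ℚ) : ℝ) hj1728
  obtain ⟨C, hC, hsize⟩ := k_size (jW W)
  refine ⟨h, lo, hi, C, hh, hlo, hlh, hC, ?_⟩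
  intro M Q hMo hM3 hM11 hQ hQ3 hQM hw1 hw2 hkill
  have hh0 : 0 < h := by rcases hh with rfl | rfl <;> norm_num
  have hM : 0 < M := hMo.pos
  have hQ0 : 0 < Q := hQ.pos
  have hQodd : Odd Q := by
    rcases hQ.eq_two_or_odd' with h2 | h2
    · rw [h2] at hQ3
      norm_num at hQ3
    · exact h2
  set n : ℕ := h * (M * Q) with hn
  have hn0 : 0 < n := by positivity
  -- the rational number `N`
  obtain ⟨N, hN⟩ := NN_rat (jW W) hn0
  have hjC : ((((jW W : ℚ) : ℝ)) : ℂ) = ((jW W : ℚ) : ℂ) := by norm_cast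
  have hNneg : N < 0 := by
    obtain ⟨r, hr, hNr⟩ := hsign M Q hMo hM11 hQ hQodd hQM hw1 hw2
      (by
        rw [← hn, hjC]
        exact jL_ne hΔ hCM hn0)
    rw [← hn, hjC, hN ℂ] at hNr
    have h1 : ((N : ℝ) : ℂ) = (r : ℂ) := by
      rw [← hNr]
      norm_cast
    have h2 : (N : ℝ) = r := by exact_mod_cast h1
    have h3 : (N : ℝ) < 0 := by rw [h2]; exact hr
    exact_mod_cast h3
  have hN0 : N ≠ 0 := hNneg.ne
  have cast_eq : ∀ (p : ℕ) [Fact p.Prime] (a b : ℚ_[p]),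
      NN (PadicAlgCl p) ((jW W : ℚ) : PadicAlgCl p) n =
        algebraMap ℚ_[p] (PadicAlgCl p) (a ^ 2 + 3 * b ^ 2) → (N : ℚ_[p]) = a ^ 2 + 3 * b ^ 2 := by
    intro p _ a b hab
    rw [hN (PadicAlgCl p)] at hab
    apply (algebraMap ℚ_[p] (PadicAlgCl p)).injective
    rw [← hab, map_ratCast]
  -- the prime `p`
  obtain ⟨p, hp, hp3, hodd⟩ : ∃ p : ℕ, p.Prime ∧ p % 3 = 2 ∧ Odd (padicValRat p N) := by
    obtain ⟨a, b, hab⟩ := norm_three hn0 (n := n) (by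
      rw [hn]
      exact Dvd.dvd.mul_left (Dvd.dvd.mul_right hM11 _) _) (jW W)
    exact rec_three hNneg (cast_eq 3 a b hab)
  have hpf : Fact p.Prime := ⟨hp⟩
  -- it is not killed
  have hnk : ¬ KilledBy p n := by
    intro hk
    obtain ⟨a, b, hab⟩ := norm_kill hp3 hn0 hk (jW W)
    have := norm_even hp3 hN0 (cast_eq p a b hab)
    exact (Int.not_even_iff_odd.2 hodd) this
  have hnk' : ¬ KilledBy p M := by
    rintro ⟨q, h1, h2, h3, h4⟩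
    exact hnk ⟨q, h1, by
      rw [hn]
      exact Dvd.dvd.mul_left (Dvd.dvd.mul_right h2 _) _, h3, h4⟩
  have hpB : p ∉ badW W := fun h1 => hnk' (hkill p hp hp3 (Or.inl h1))
  have hpM : ¬ p ∣ 2 * M := fun h1 => hnk' (hkill p hp hp3 (Or.inr h1))
  have hp2 : ¬ p ∣ 2 := fun h1 => hpM (Dvd.dvd.mul_right h1 _)
  have hp5 : 5 ≤ p := by
    have h1 := hp.two_le
    have h2 : p ≠ 2 := fun h0 => hp2 (by rw [h0])
    have h3 : p ≠ 3 := by omega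
    have h4 : p ≠ 4 := by
      rintro rfl
      exact absurd hp (by norm_num)
    omega
  have hpn : ¬ p ∣ n := by
    rw [hn]
    intro h0
    rcases hp.dvd_mul.1 h0 with h2 | h2
    · rcases hh with rfl | rfl
      · exact hp.one_lt.ne' (Nat.dvd_one.1 h2)
      · exact hp2 h2
    · rcases hp.dvd_mul.1 h2 with h3 | h3
      · exact hpM (Dvd.dvd.mul_left h3 _)
      · have h4 := (Nat.prime_dvd_prime_iff_eq hp hQ).1 h3
        omega
  obtain ⟨hb1, hb2, hb3⟩ := badW_not hΔ hCM hp hpB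
  have hjv := jW_val hΔ hb1 hc0
  obtain ⟨hpos, L, hL⟩ := local_main hp5 hp3 hn0 hpn hjv (hN (PadicAlgCl p)) hodd
  have haff := ss_of_red hp5 hp3 hn0 hpn W (jW_eq hΔ) hb1 hL
  have hlog := hsize p n hn0 hp5 hpn hjv N hN0 (hN (PadicAlgCl p)) hpos
  exact ⟨p, hpf, hp5, hp3, hnk', hpB, hpn, haff, hlog, L, hL⟩

end LT
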