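import Pool.Agent.Lib_MP_f1937f_nt.KCount2

/-!
# MP_f1937f_nt, theorem C: the counting inequality (piece KCOUNT)

Proof. `h`, `lo`, `hi`, `C₀` from `k_core`, `S` from `k_nu lo hi` for the modulus `11 M`. For `(m, Q) ∈ S` the integer `11 M m` is odd,
prime to 3 (the prime factors of `m` are `1 mod 3`), `Q > lo · 11 M m ≥ 11 M m`, so `Q ∤ 11 M m`; the primes `p = 2 mod 3`
in `badW W` or dividing `2 · 11 M m` are killed by `M` (they do not divide `m`), so by `11 M m`. `k_core` gives a prime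
`p = p(m, Q)`, not killed by `M`, so `p ∉ SS W Y` and `p > Y`; `n = h (11 M m Q) ≤ 22 M V`, so
`log p ≤ C₀ n (1 + log n)² ≤ C M V (log V)²` and `p ∈ SS W X`. The map `(m, Q) ↦ ν = m Q` is injective on `S` (`Q > m`, so
`Q` is the largest prime factor of `ν`). For a given `p` the `ν` which it serves satisfy `RedL p (d ν) j L`,
`d = 11 h M` (`4 ∤ d`, `3 ∤ d`), so their number is at most `6 · 2^(ω(M) + 2) (1 + 12 V / √p)` (`k_serve`, `jW_ne`).
-/

namespace LT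

open Polynomial WeierstrassCurve

theorem k_count (W : WeierstrassCurve ℤ) (hΔ : W.Δ ≠ 0) (hCM : NoCM W) :
    ∃ C V₀ : ℝ, 1 ≤ C ∧ ∀ Y M : ℕ, 0 < M → Odd M → ¬ 3 ∣ M →
      (∀ p : ℕ, p.Prime → p % 3 = 2 → (p ∈ SS W Y ∨ p ∈ badW W ∨ p ∣ 22 * M) → KilledBy p M) →
      ∀ V : ℝ, V₀ ≤ V → C * M ≤ V → ∀ X : ℕ, Real.exp (C * M * V * Real.log V ^ 2) ≤ X →
        V / Real.log V ^ 4 ≤ C * 2 ^ M.primeFactors.card *
          ∑ p ∈ (SS W X).filter (fun p => Y < p), (1 + 12 * V / Real.sqrt p) := by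
  classical
  obtain ⟨C, V₀, hC, H⟩ := k_count2 W hΔ hCM
  refine ⟨C, V₀, hC, ?_⟩
  intro Y M hM hMo hM3 hkill V hV hCV X hX
  refine (H Y M hM hMo hM3 hkill V hV hCV X hX).trans ?_
  apply mul_le_mul_of_nonneg_left _ (by positivity)
  have hV0 : 0 ≤ V := by
    refine le_trans ?_ hCV
    positivity
  refine Finset.sum_le_sum_of_subset_of_nonneg ?_ ?_
  · intro p hp
    rw [Finset.mem_filter] at hp ⊢
    exact ⟨hp.1, hp.2.1⟩
  · intro p _ _
    have := Real.sqrt_nonneg (p : ℝ)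
    positivity

end LT
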