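import Pool.Agent.Lib_MP_f1937f_nt.KHom

/-!
# MP_f1937f_nt, theorem C: the discriminants are divisible by `p` (piece KDISC)

Proof of `k_disc`: as in `repulsion` (FRep.lean), with `c₁, c₂ ∈ F_p` the multipliers. For all integers `i, j`,
`D(i, j) = hh (i • ψ + j • φ) = hh ψ i² + t i j + hh φ j²` (`quad_form`, `t = K.bb`) is divisible by `p` if and only if
`i c₁ + j c₂ = 0`. If `c₁ = c₂ = 0` then `p` divides `hh ψ`, `hh φ`, `t`. If `c₁ ≠ 0`: the divisibility is `p ∣ i + s j`,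
`s = c₂ / c₁`, and the first part of the proof of `rep_arith` gives `p ∣ 4 hh ψ hh φ - t²` (no size
condition is needed). If `c₁ = 0`, `c₂ ≠ 0` exchange the two maps. (`ker_card`, no point of order `p`,
`dvd_hh_of_HasC_zero`.)
-/

namespace LT

open Polynomial WeierstrassCurve

namespace KDisc

/-- the arithmetic part of the repulsion lemma -/
theorem arith {p : ℕ} (hp : p.Prime) {m₁ m₂ : ℤ} (t : ℤ) (s : ℤ)
    (hs : ∀ a b : ℤ, ((p : ℤ) ∣ m₁ * a ^ 2 + t * a * b + m₂ * b ^ 2) ↔ (p : ℤ) ∣ a + s * b) :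
    (p : ℤ) ∣ 4 * m₁ * m₂ - t ^ 2 := by
  have hpi : Prime (p : ℤ) := Nat.prime_iff_prime_int.mp hp
  have h1 : ¬ (p : ℤ) ∣ m₁ := by
    intro hd
    have h2 := (hs 1 0).mp (by simpa using hd)
    have h3 : (p : ℤ) ∣ 1 := by simpa using h2
    have h4 : p ∣ 1 := by exact_mod_cast h3
    exact hp.one_lt.ne' (Nat.dvd_one.mp h4)
  have h2 : (p : ℤ) ∣ m₁ * s ^ 2 - t * s + m₂ := by
    have h3 := (hs (-s) 1).mpr (by simp)
    have h4 : m₁ * (-s) ^ 2 + t * (-s) * 1 + m₂ * 1 ^ 2 = m₁ * s ^ 2 - t * s + m₂ := by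
      ring
    rwa [h4] at h3
  have hcop : IsCoprime m₁ (p : ℤ) := ((hpi.coprime_iff_not_dvd).mpr h1).symm
  obtain ⟨u, v, huv⟩ := hcop
  have h3 : (p : ℤ) ∣ m₁ * (s - t * u) ^ 2 + t * (s - t * u) * 1 + m₂ * 1 ^ 2 := by
    obtain ⟨e, he⟩ := h2
    refine ⟨e + 2 * s * t * v - t ^ 2 * u * v, ?_⟩
    linear_combination he + (t ^ 2 * u - 2 * s * t) * huv
  have h4 := (hs (s - t * u) 1).mp h3
  have h5 : (p : ℤ) ∣ 2 * m₁ * s - t := by
    obtain ⟨e, he⟩ := h4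
    refine ⟨m₁ * e - t * v, ?_⟩
    linear_combination m₁ * he + t * huv
  obtain ⟨e, he⟩ := h5
  obtain ⟨f, hf⟩ := h2
  refine ⟨4 * m₁ * f - (2 * m₁ * s - t) * e, ?_⟩
  linear_combination 4 * m₁ * hf - (2 * m₁ * s - t) * he

end KDisc

section

variable {k : Type} [Field k] [DecidableEq k] [IsAlgClosed k] [DecidableEq (RatFunc k)] (p : ℕ)
  [Fact p.Prime] [CharP k p]

variable {a b a' b' : k} {ha : a ^ p = a} {hb : b ^ p = b} {ha' : a' ^ p = a'}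
  {hb' : b' ^ p = b'}

theorem KDisc.dvd_iff (hp : 5 ≤ p) (hd : dsc a b ≠ 0) (hd' : dsc a' b' ≠ 0)
    (htors : ∀ P : Pt a b, p • P = 0 → P = 0) {ψ₁ ψ₂ : MM a b a' b'}
    {c₁ c₂ : k} (h₁ : HasC ψ₁ c₁) (h₂ : HasC ψ₂ c₂) (hI₁ : InO ψ₁) (hI₂ : InO ψ₂)
    {Ψ₁ Ψ₂ : Pt a b →+ Pt a' b'} (hC₁ : Compat ψ₁ Ψ₁) (hC₂ : Compat ψ₂ Ψ₂) (i j : ℤ) :
    (p : ℤ) ∣ (hh (i • ψ₁ + j • ψ₂) : ℤ) ↔ (i : k) * c₁ + (j : k) * c₂ = 0 := by
  have hpp : p.Prime := Fact.out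
  have h2 := two_ne_of p (k := k) hp
  rw [Int.natCast_dvd_natCast]
  have hCC : HasC (i • ψ₁ + j • ψ₂) ((i : k) * c₁ + (j : k) * c₂) :=
    HasC_add h2 hd' (HasC_zsmul h2 hd' h₁ i) (HasC_zsmul h2 hd' h₂ j)
  have hII : InO (i • ψ₁ + j • ψ₂) :=
    InO_add h2 hd' (InO_zsmul h2 hd' hI₁ i) (InO_zsmul h2 hd' hI₂ j)
  have hKK : Compat (i • ψ₁ + j • ψ₂) (i • Ψ₁ + j • Ψ₂) :=
    Compat_add h2 hd' (Compat_zsmul h2 hd' hC₁ i) (Compat_zsmul h2 hd' hC₂ j)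
  constructor
  · intro hdvd
    by_contra hne
    have hcard := ker_card h2 hd hd' hne hCC hII hKK
    have hh0 : hh (i • ψ₁ + j • ψ₂) ≠ 0 := by
      intro h0
      have h1 := eq_zero_of_hh _ h0 hII
      rw [h1] at hCC
      exact hne (hCC.2 vv_zero)
    have hfin : Finite (i • Ψ₁ + j • Ψ₂).ker := Nat.finite_of_card_ne_zero (by rw [hcard]; exact hh0)
    rw [← hcard] at hdvd
    obtain ⟨x, hx⟩ := exists_prime_addOrderOf_dvd_card' p hdvd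
    have h1 : p • (x : Pt a b) = 0 := by
      have h3 : p • x = 0 := by rw [← hx]; exact addOrderOf_nsmul_eq_zero x
      have h4 := congrArg (Subtype.val) h3
      simpa using h4
    have h3 := htors _ h1
    have h4 : x = 0 := Subtype.ext h3
    rw [h4, addOrderOf_zero] at hx
    exact hpp.one_lt.ne hx
  · intro h0
    rw [h0] at hCC
    exact dvd_hh_of_HasC_zero p hCC

theorem k_disc (hp : 5 ≤ p) (hd : dsc a b ≠ 0) (hd' : dsc a' b' ≠ 0)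
    (htors : ∀ P : Pt a b, p • P = 0 → P = 0) {ψ φ : MM a b a' b'}
    (h : HomF p ha hb ha' hb' ψ) (h' : HomF p ha hb ha' hb' φ) :
    (p : ℤ) ∣ 4 * (hh ψ : ℤ) * (hh φ : ℤ) -
      (K.bb (fun x : MM a b a' b' => (hh x : ℤ)) ψ φ) ^ 2 := by
  have hpp : p.Prime := Fact.out
  have h2 := two_ne_of p (k := k) hp
  obtain ⟨c₁, hf₁, h₁⟩ := h.dif
  obtain ⟨c₂, hf₂, h₂⟩ := h'.dif
  obtain ⟨Ψ₁, hC₁, -⟩ := h.hom
  obtain ⟨Ψ₂, hC₂, -⟩ := h'.hom
  have hdvd := KDisc.dvd_iff p hp hd hd' htors h₁ h₂ h.inO h'.inO hC₁ hC₂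
  have hq := quad_form (fun ψ : MM a b a' b' => (hh ψ : ℤ)) (by
    intro x y
    have h := hh_par h2 hd' x y
    exact_mod_cast h) ψ φ
  unfold K.bb
  set t : ℤ := (hh (ψ + φ) : ℤ) - hh ψ - hh φ with ht
  by_cases hc₁ : c₁ = 0
  · by_cases hc₂ : c₂ = 0
    · have h3 := (hdvd 1 0).2 (by rw [hc₁, hc₂]; ring)
      have h4 := (hdvd 0 1).2 (by rw [hc₁, hc₂]; ring)
      have h5 := (hdvd 1 1).2 (by rw [hc₁, hc₂]; ring)
      rw [hq] at h3 h4 h5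
      have h6 : (p : ℤ) ∣ (hh ψ : ℤ) := by simpa using h3
      have h7 : (p : ℤ) ∣ (hh φ : ℤ) := by simpa using h4
      have h8 : (p : ℤ) ∣ t := by
        have h9 : (p : ℤ) ∣ (hh ψ : ℤ) + t + hh φ := by simpa using h5
        have h10 := (h9.sub h6).sub h7
        have h11 : (hh ψ : ℤ) + t + hh φ - hh ψ - hh φ = t := by ring
        rwa [h11] at h10
      exact (((h6.mul_left 4).mul_right _)).sub (h8.trans (dvd_pow_self t (by norm_num)))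
    · -- exchange the two maps
      have h3 := KDisc.arith hpp (m₁ := (hh φ : ℤ)) (m₂ := (hh ψ : ℤ)) t 0 (by
        intro i j
        have h4 : (hh φ : ℤ) * i ^ 2 + t * i * j + hh ψ * j ^ 2 =
            hh ψ * j ^ 2 + t * j * i + hh φ * i ^ 2 := by ring
        rw [h4, ← hq j i, hdvd j i, hc₁, mul_zero, zero_add, mul_eq_zero, zero_mul, add_zero,
          CharP.intCast_eq_zero_iff k p]
        simp [hc₂])
      have h4 : 4 * (hh ψ : ℤ) * hh φ - t ^ 2 = 4 * hh φ * hh ψ - t ^ 2 := by ring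
      rw [h4]
      exact h3
  · obtain ⟨s, hs⟩ := FRep.exists_int p (k := k) (c := c₂ / c₁) (by rw [div_pow, hf₁, hf₂])
    have hs' : c₂ = c₁ * s := by rw [hs]; field_simp
    apply KDisc.arith hpp t (s : ℤ)
    intro i j
    rw [← hq i j, hdvd i j]
    have hfac : (i : k) * c₁ + (j : k) * c₂ = c₁ * ((i + s * j : ℤ) : k) := by
      rw [hs']; push_cast; ring
    rw [hfac, mul_eq_zero, CharP.intCast_eq_zero_iff k p]
    simp [hc₁]

end

end LT
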