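import Pool.Agent.Lib_MP_f1937f_nt.KHom

/-!
# MP_f1937f_nt, theorem C: maps with cyclic kernel are primitive (piece KPRIM)

Proof. `ψ = n • χ`. Let `X` be the homomorphism of `χ`. `Ψ = n • X` (`Compat_zsmul`, and two
homomorphisms compatible with the same map agree: `Compat_add`, `Compat_neg`, `eq_zero_of_compat`). The multiplier of
`ψ` is `c = n c'` (`HasC_zsmul`; the multiplier is unique because `vv ψ ≠ 0`), so `p` does not divide `n` and
`n ≠ 0`. The kernel of `Ψ` contains all `n² ` points killed by `n` (`card_tors`); a cyclic group has at most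
`|n|` elements killed by `n`, so `|n| = 1`.
-/

namespace LT

open Polynomial WeierstrassCurve

section

variable {k : Type} [Field k] [DecidableEq k] [IsAlgClosed k] [DecidableEq (RatFunc k)] (p : ℕ)
  [Fact p.Prime] [CharP k p]

variable {a b a' b' : k} {ha : a ^ p = a} {hb : b ^ p = b} {ha' : a' ^ p = a'}
  {hb' : b' ^ p = b'}

theorem k_prim (hp : 5 ≤ p) (hd : dsc a b ≠ 0) (hd' : dsc a' b' ≠ 0) {ψ : MM a b a' b'}
    {c : k} (hc : c ≠ 0) (hC : HasC ψ c) {Ψ : Pt a b →+ Pt a' b'} (hΨ : Compat ψ Ψ)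
    (hcyc : IsAddCyclic Ψ.ker) {χ : MM a b a' b'} (hχ : HomF p ha hb ha' hb' χ) {n : ℤ}
    (h : ψ = n • χ) : n = 1 ∨ n = -1 := by
  have h2 : (2 : k) ≠ 0 := two_ne_of p hp
  obtain ⟨c', hc', hC'⟩ := hχ.dif
  obtain ⟨X, hX, hXF⟩ := hχ.hom
  subst h
  have hC2 := HasC_zsmul h2 hd' hC' n
  have hvv : vv (n • χ) ≠ 0 := fun h0 => hc (hC.2 h0)
  have hcc : c = (n : k) * c' := by
    have h1 := hC.1
    rw [hC2.1] at h1
    exact (RatFunc.C_injective (mul_right_cancel₀ hvv h1)).symm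
  have hn : (n : k) ≠ 0 := by
    intro h0
    apply hc
    rw [hcc, h0, zero_mul]
  have hdiff : Compat ((n • χ) + -(n • χ)) (Ψ + -(n • X)) :=
    Compat_add h2 hd' hΨ (Compat_neg h2 hd' (Compat_zsmul h2 hd' hX n))
  rw [add_neg_cancel] at hdiff
  have hΨX : Ψ = n • X := by
    have h3 := eq_zero_of_compat h2 hd hdiff
    rwa [add_neg_eq_zero] at h3
  obtain ⟨N, hN⟩ : ∃ N : ℕ, n.natAbs = N := ⟨_, rfl⟩
  have hNk : (N : k) ≠ 0 := by
    intro h0
    apply hn
    rcases Int.natAbs_eq n with h3 | h3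
    · rw [h3, hN, Int.cast_natCast, h0]
    · rw [h3, hN, Int.cast_neg, Int.cast_natCast, h0, neg_zero]
  have hN0 : N ≠ 0 := by
    rintro rfl
    exact hNk Nat.cast_zero
  have hcard : Nat.card {P : Pt a b // N • P = 0} = N ^ 2 := card_tors h2 hd hNk
  have hle : (nsmulAddMonoidHom (α := Pt a b) N).ker ≤ Ψ.ker := by
    intro P hP
    rw [AddMonoidHom.mem_ker] at hP ⊢
    have hP' : N • P = 0 := hP
    rw [hΨX, AddMonoidHom.smul_apply, ← map_zsmul]
    have h3 : n • P = 0 := by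
      rcases Int.natAbs_eq n with h3 | h3
      · rw [h3, hN, natCast_zsmul, hP']
      · rw [h3, hN, neg_smul, natCast_zsmul, hP', neg_zero]
    rw [h3, map_zero]
  have := hcyc
  have hcT : IsAddCyclic (nsmulAddMonoidHom (α := Pt a b) N).ker :=
    isAddCyclic_of_injective (AddSubgroup.inclusion hle) (AddSubgroup.inclusion_injective hle)
  obtain ⟨g, hg⟩ := hcT.exists_generator
  have hord : addOrderOf g = Nat.card (nsmulAddMonoidHom (α := Pt a b) N).ker :=
    addOrderOf_eq_card_of_forall_mem_zmultiples hg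
  have hdvd : addOrderOf g ∣ N := by
    rw [addOrderOf_dvd_iff_nsmul_eq_zero]
    exact Subtype.ext g.2
  have hcard2 : Nat.card (nsmulAddMonoidHom (α := Pt a b) N).ker = N ^ 2 := hcard
  rw [hord, hcard2] at hdvd
  have h4 : N ^ 2 ≤ N := Nat.le_of_dvd (Nat.pos_of_ne_zero hN0) hdvd
  have h5 : N = 1 := by
    have h6 : 1 ≤ N := Nat.pos_of_ne_zero hN0
    nlinarith
  have h7 : n.natAbs = 1 := by rw [hN, h5]
  exact Int.natAbs_eq_iff.mp (by simpa using h7)

end

end LT
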