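import Pool.Agent.Lib_MP_f1937f_nt.KRank
import Pool.Agent.Lib_MP_f1937f_nt.KDisc
import Pool.Agent.Lib_MP_f1937f_nt.KPrim

/-!
# MP_f1937f_nt, theorem C: the number of degrees of cyclic maps over `F_p` killing `L'` (piece KGROUP)
-/

namespace LT

open Polynomial WeierstrassCurve

section

variable {k : Type} [Field k] [DecidableEq k] [IsAlgClosed k] [DecidableEq (RatFunc k)] (p : ℕ)
  [Fact p.Prime] [CharP k p]

variable {a b a' b' : k} {ha : a ^ p = a} {hb : b ^ p = b} {ha' : a' ^ p = a'}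
  {hb' : b' ^ p = b'}

/-- The group of the maps over `F_p` which kill `L'`. -/
def KGroup.GL (hp : 5 ≤ p) (ha : a ^ p = a) (hb : b ^ p = b) (ha' : a' ^ p = a')
    (hb' : b' ^ p = b') (hd' : dsc a' b' ≠ 0) (L' : AddSubgroup (Pt a b)) :
    AddSubgroup (MM a b a' b') where
  carrier := {ψ | HomF p ha hb ha' hb' ψ ∧ ∃ Ψ : Pt a b →+ Pt a' b', Compat ψ Ψ ∧
    ∀ P ∈ L', Ψ P = 0}
  zero_mem' := ⟨HomF.zero p, 0, Compat_zero, fun P _ => rfl⟩
  add_mem' := by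
    rintro x y ⟨hx, X, hX, hXL⟩ ⟨hy, Y, hY, hYL⟩
    refine ⟨HomF.add p hp hd' hx hy, X + Y, Compat_add (two_ne_of p hp) hd' hX hY, ?_⟩
    intro P hP
    rw [AddMonoidHom.add_apply, hXL P hP, hYL P hP, add_zero]
  neg_mem' := by
    rintro x ⟨hx, X, hX, hXL⟩
    refine ⟨HomF.neg p hp hd' hx, -X, Compat_neg (two_ne_of p hp) hd' hX, ?_⟩
    intro P hP
    rw [AddMonoidHom.neg_apply, hXL P hP, neg_zero]

theorem KGroup.dvd_sep (hp : 5 ≤ p) (hd : dsc a b ≠ 0) (hd' : dsc a' b' ≠ 0)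
    {L' : AddSubgroup (Pt a b)} {d : ℕ} (hL' : Nat.card L' = d) {ψ : MM a b a' b'}
    {Ψ : Pt a b →+ Pt a' b'} {c : k} (hc : c ≠ 0) (hI : InO ψ) (hC : HasC ψ c)
    (hΨ : Compat ψ Ψ) (hk : ∀ P ∈ L', Ψ P = 0) : d ∣ hh ψ := by
  have h2 := two_ne_of p (k := k) hp
  have h3 := ker_card h2 hd hd' hc hC hI hΨ
  have h4 : L' ≤ Ψ.ker := fun P hP => hk P hP
  rw [← h3, ← hL']
  exact AddSubgroup.card_dvd_of_le h4

/-- The degree of a map which kills `L'` is divisible by the order of `L'`. -/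
theorem KGroup.dvd_all (hp : 5 ≤ p) (hd : dsc a b ≠ 0) (hd' : dsc a' b' ≠ 0)
    {L' : AddSubgroup (Pt a b)} {d : ℕ} (hL' : Nat.card L' = d)
    {ψ₀ : MM a b a' b'} {Ψ₀ : Pt a b →+ Pt a' b'} {c₀ : k} (hc₀ : c₀ ≠ 0)
    (hI₀ : InO ψ₀) (hC₀ : HasC ψ₀ c₀) (hΨ₀ : Compat ψ₀ Ψ₀) (hk₀ : ∀ P ∈ L', Ψ₀ P = 0)
    {ψ : MM a b a' b'} (hψ : ψ ∈ KGroup.GL p hp ha hb ha' hb' hd' L') : d ∣ hh ψ := by
  have h2 := two_ne_of p (k := k) hp
  obtain ⟨hF, Ψ, hΨ, hk⟩ := hψ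
  obtain ⟨c, -, hC⟩ := hF.dif
  by_cases hc : c = 0
  · subst hc
    have hp2 : p ≠ 2 := by omega
    have key : ∀ i : ℤ, (i : k) ≠ 0 → d ∣ hh (i • ψ₀ + (1 : ℤ) • ψ) := by
      intro i hi
      have e1 : HasC (i • ψ₀ + (1 : ℤ) • ψ) ((i : k) * c₀ + ((1 : ℤ) : k) * 0) :=
        HasC_add h2 hd' (HasC_zsmul h2 hd' hC₀ i) (HasC_zsmul h2 hd' hC 1)
      refine KGroup.dvd_sep p hp hd hd' hL' (Ψ := i • Ψ₀ + (1 : ℤ) • Ψ) ?_
        (InO_add h2 hd' (InO_zsmul h2 hd' hI₀ i) (InO_zsmul h2 hd' hF.inO 1)) e1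
        (Compat_add h2 hd' (Compat_zsmul h2 hd' hΨ₀ i) (Compat_zsmul h2 hd' hΨ 1)) ?_
      · rw [mul_zero, add_zero]
        exact mul_ne_zero hi hc₀
      · intro P hP
        rw [AddMonoidHom.add_apply, AddMonoidHom.smul_apply, AddMonoidHom.smul_apply, hk₀ P hP,
          hk P hP, smul_zero, smul_zero, add_zero]
    have h1 := key 1 (by rw [Int.cast_one]; exact one_ne_zero)
    have h2' := key 2 (by rw [Int.cast_ofNat]; exact h2)
    have h0 := KGroup.dvd_sep p hp hd hd' hL' hc₀ hI₀ hC₀ hΨ₀ hk₀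
    rw [← Int.natCast_dvd_natCast] at h0 h1 h2' ⊢
    rw [FHasse.quad p hp2 hd' ψ₀ ψ] at h1 h2'
    obtain ⟨u, hu⟩ := h0
    obtain ⟨v, hv⟩ := h1
    obtain ⟨w, hw⟩ := h2'
    refine ⟨2 * v - w + 2 * u, ?_⟩
    linear_combination 2 * hv - hw + 2 * hu
  · exact KGroup.dvd_sep p hp hd hd' hL' hc hF.inO hC hΨ hk

theorem k_group (hp : 5 ≤ p) (hd : dsc a b ≠ 0) (hd' : dsc a' b' ≠ 0)
    (hF : ∀ P : Pt a b, frobPt p ha hb (frobPt p ha hb P) = -(p • P))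
    (htors : ∀ P : Pt a b, p • P = 0 → P = 0) {L' : AddSubgroup (Pt a b)} {d : ℕ} (hd0 : 0 < d)
    (hpd : ¬ p ∣ d) (hL' : Nat.card L' = d) (B : Finset ℕ) {T : ℝ} (hT : 0 ≤ T)
    (hB : ∀ m ∈ B, (m : ℝ) ≤ T ∧ ∃ (ψ : MM a b a' b') (c : k) (Ψ : Pt a b →+ Pt a' b'), c ≠ 0 ∧
      HomF p ha hb ha' hb' ψ ∧ HasC ψ c ∧ Compat ψ Ψ ∧ IsAddCyclic Ψ.ker ∧
      (∀ P ∈ L', Ψ P = 0) ∧ hh ψ = d * m) :
    (B.card : ℝ) ≤ 1 + 12 * T / Real.sqrt p := by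
  classical
  have hpp : p.Prime := Fact.out
  have h2 := two_ne_of p (k := k) hp
  rcases B.eq_empty_or_nonempty with rfl | ⟨m₀, hm₀⟩
  · rw [Finset.card_empty, Nat.cast_zero]
    positivity
  obtain ⟨-, ψ₀, c₀, Ψ₀, hc₀, hF₀, hC₀, hΨ₀, -, hk₀, -⟩ := hB m₀ hm₀
  let G := KGroup.GL p hp ha hb ha' hb' hd' L'
  have hdvd : ∀ x : G, (d : ℤ) ∣ (hh x.1 : ℤ) := fun x =>
    Int.natCast_dvd_natCast.2
      (KGroup.dvd_all p hp hd hd' hL' hc₀ hF₀.inO hC₀ hΨ₀ hk₀ x.2)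
  let h : G → ℤ := fun x => (hh x.1 : ℤ) / d
  have hdz : (d : ℤ) ≠ 0 := by exact_mod_cast hd0.ne'
  have hh_eq : ∀ x : G, (hh x.1 : ℤ) = d * h x := fun x => (Int.mul_ediv_cancel' (hdvd x)).symm
  have hpar : ∀ x y : G, h (x + y) + h (x - y) = 2 * h x + 2 * h y := by
    intro x y
    have e1 := hh_par h2 hd' x.1 y.1
    have e2 : ((hh (x.1 + y.1) : ℤ)) + hh (x.1 - y.1) = 2 * hh x.1 + 2 * hh y.1 := by
      exact_mod_cast e1
    have e3 := hh_eq (x + y)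
    have e4 := hh_eq (x - y)
    rw [AddSubgroup.coe_add] at e3
    rw [AddSubgroup.coe_sub] at e4
    rw [e3, e4, hh_eq x, hh_eq y] at e2
    apply mul_left_cancel₀ hdz
    linear_combination e2
  have hpos : ∀ x : G, x ≠ 0 → 0 < h x := by
    intro x hx
    have e1 : hh x.1 ≠ 0 := by
      intro h0
      apply hx
      apply Subtype.ext
      exact eq_zero_of_hh x.1 h0 x.2.1.inO
    have e2 : (0 : ℤ) < d * h x := by
      rw [← hh_eq]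
      exact_mod_cast Nat.pos_of_ne_zero e1
    have e3 : (0 : ℤ) < d := by exact_mod_cast hd0
    exact (mul_pos_iff_of_pos_left e3).1 e2
  have hrank : ∀ x y z : G, ∃ i j l : ℤ, (i ≠ 0 ∨ j ≠ 0 ∨ l ≠ 0) ∧ i • x + j • y + l • z = 0 := by
    intro x y z
    obtain ⟨i, j, l, h1, h3⟩ := k_rank p hp hd hd' hF x.2.1 y.2.1 z.2.1
    refine ⟨i, j, l, h1, Subtype.ext ?_⟩
    push_cast
    exact h3
  have hdisc : ∀ x y : G, (p : ℤ) ∣ 4 * h x * h y - K.bb h x y ^ 2 := by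
    intro x y
    have e1 := k_disc p hp hd hd' htors x.2.1 y.2.1
    have e2 : K.bb (fun x : MM a b a' b' => (hh x : ℤ)) x.1 y.1 = d * K.bb h x y := by
      have e3 := hh_eq (x + y)
      rw [AddSubgroup.coe_add] at e3
      rw [K.bb, K.bb, e3, hh_eq x, hh_eq y]
      ring
    rw [e2, hh_eq x, hh_eq y] at e1
    have e4 : 4 * ((d : ℤ) * h x) * (d * h y) - (d * K.bb h x y) ^ 2 =
        (d : ℤ) ^ 2 * (4 * h x * h y - K.bb h x y ^ 2) := by ring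
    rw [e4] at e1
    have e5 : ¬ (p : ℤ) ∣ (d : ℤ) ^ 2 := by
      intro h3
      apply hpd
      have h4 : p ∣ d ^ 2 := by exact_mod_cast h3
      exact hpp.dvd_of_dvd_pow h4
    exact ((Nat.prime_iff_prime_int.1 hpp).dvd_or_dvd e1).resolve_left e5
  -- the maps
  have hch : ∀ m : B, ∃ x : G, h x = (m : ℕ) ∧ x ≠ 0 ∧ K.Prim x := by
    rintro ⟨m, hm⟩
    obtain ⟨-, ψ, c, Ψ, hc, hFψ, hCψ, hΨ, hcyc, hk, hhm⟩ := hB m hm
    refine ⟨⟨ψ, hFψ, Ψ, hΨ, hk⟩, ?_, ?_, ?_⟩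
    · show (hh ψ : ℤ) / d = m
      rw [hhm, Nat.cast_mul, Int.mul_ediv_cancel_left _ hdz]
    · intro h0
      have h3 : ψ = 0 := congrArg Subtype.val h0
      rw [h3] at hCψ
      exact hc (hCψ.2 vv_zero)
    · intro y n hy
      have h3 : ψ = n • y.1 := by
        have := congrArg Subtype.val hy
        push_cast at this
        exact this
      exact k_prim p hp hd hd' hc hCψ hΨ hcyc y.2.1 h3
  choose f hf1 hf2 hf3 using hch
  have hinj : Function.Injective f := by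
    intro m m' hmm
    apply Subtype.ext
    have h1 := hf1 m
    rw [hmm, hf1 m'] at h1
    exact_mod_cast h1.symm
  let S : Finset G := Finset.univ.image f
  have hcard : S.card = B.card := by
    rw [Finset.card_image_of_injective _ hinj, Finset.card_univ, Fintype.card_coe]
  rw [← hcard]
  apply K.lat_count h hpar hpos hrank hpp.pos hdisc hT S
  · intro x hx
    obtain ⟨m, -, rfl⟩ := Finset.mem_image.1 hx
    refine ⟨hf2 m, ?_, hf3 m⟩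
    rw [hf1 m, Int.cast_natCast]
    exact (hB m.1 m.2).1
  · intro x hx y hy hxy
    obtain ⟨m, -, rfl⟩ := Finset.mem_image.1 hx
    obtain ⟨m', -, rfl⟩ := Finset.mem_image.1 hy
    rw [hf1 m, hf1 m'] at hxy
    have : m = m' := by
      apply Subtype.ext
      exact_mod_cast hxy
    rw [this]

end

end LT
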