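import Pool.Agent.Lib_MP_f1937f_nt.KVel
import Pool.Agent.Lib_MP_f1937f_nt.KGroup
import Pool.Agent.Lib_MP_f1937f_nt.PThree

/-!
# MP_f1937f_nt, theorem C: one prime serves few `m`, without a condition on the size of `p` (piece KSERVE)

Proof: as `serve_bound` (PThree.lean): partition of `A` by the subgroup `L'` of order `d` of `L` (at most
`3 · 2^ω(d)` possibilities, `stab_card`) and by the class `c = (B/A)^((p-1)/2)` (2). In one class `B` let `m₀ ∈ B`, `(a', b') =`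
Velu's coefficients of `L_{m₀}` (in `F_p` by `vel_fix`). For `m ∈ B` there is `v ∈ F_p` with `v⁴ A_m = a'`, `v⁶ B_m = b'`
(`jinv_iso_fp`, as in `pair_square`); `k_vel` gives the map `φ_m` of degree `d m` with cyclic kernel `L_m ⊇ L'`, and
`k_group` (with `a = 0`, `b = -31/4`, `F0_sq`, `e0_no_tors`, `e0_dsc`) gives `card B ≤ 1 + 12 T / √p`.
-/

namespace LT

open Polynomial WeierstrassCurve

theorem k_serve {p : ℕ} [Fact p.Prime] (h5 : 5 ≤ p) (h3 : p % 3 = 2) {d : ℕ} (hd : 0 < d)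
    (h4 : ¬ 4 ∣ d) (h3d : ¬ 3 ∣ d) {j : ℚ} (hj0 : ((j : ℚ) : Fb p) ≠ 0)
    (hj1 : ((j : ℚ) : Fb p) ≠ 1728) (A : Finset ℕ) {T : ℝ} (hT : 0 ≤ T)
    (hA : ∀ m ∈ A, 0 < m ∧ (m : ℝ) ≤ T ∧ ¬ p ∣ d * m ∧
      ∃ L : AddSubgroup (Pt (0 : Fb p) (-31 / 4)), RedL p (d * m) j L) :
    (A.card : ℝ) ≤ 6 * 2 ^ d.primeFactors.card * (1 + 12 * T / Real.sqrt p) := by
  classical
  have hpp : p.Prime := Fact.out
  have hR0 : 0 ≤ 1 + 12 * T / Real.sqrt p := by
    have := Real.sqrt_nonneg (p : ℝ)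
    positivity
  rcases A.eq_empty_or_nonempty with rfl | hne
  · rw [Finset.card_empty, Nat.cast_zero]
    positivity
  have hpd : ¬ p ∣ d := by
    obtain ⟨m, hm⟩ := hne
    intro h
    exact (hA m hm).2.2.1 (h.mul_right m)
  -- the subgroups
  have hL : ∀ m : ℕ, ∃ L : AddSubgroup (Pt (0 : Fb p) (-31 / 4)), m ∈ A → RedL p (d * m) j L := by
    intro m
    by_cases hm : m ∈ A
    · obtain ⟨L, hL⟩ := (hA m hm).2.2.2
      exact ⟨L, fun _ => hL⟩
    · exact ⟨⊥, fun h => absurd h hm⟩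
  choose L hL using hL
  have hL' : ∀ m : ℕ, ∃ L' : AddSubgroup (Pt (0 : Fb p) (-31 / 4)), m ∈ A →
      L' ∈ StabG (F0 p) d ∧ L' ≤ L m := by
    intro m
    by_cases hm : m ∈ A
    · have hR := hL m hm
      have hm0 := (hA m hm).1
      obtain ⟨L', h1, h2⟩ := cyc_sub (n := d * m) (d := d) (Nat.mul_pos hd hm0) (Dvd.intro m rfl)
        hR.cyc
      refine ⟨L', fun _ => ⟨⟨h1, ?_⟩, fun P hP => ((h2 P).mp hP).1⟩⟩
      intro P hP
      rw [h2] at hP ⊢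
      refine ⟨hR.frob P hP.1, ?_⟩
      rw [← map_nsmul, hP.2, map_zero]
    · exact ⟨⊥, fun h => absurd h hm⟩
  choose L' hL' using hL'
  -- the classes
  let c : ℕ → Fb p := fun m => (vB 0 (-31 / 4) (L m) / vA 0 (-31 / 4) (L m)) ^ ((p - 1) / 2)
  have hfinS : (StabG (F0 p) d).Finite := by
    rw [← Set.encard_lt_top_iff]
    refine lt_of_le_of_lt (stab_card h5 h3 hd h4 h3d hpd) ?_
    have : (3 : ℕ∞) * 2 ^ d.primeFactors.card = ((3 * 2 ^ d.primeFactors.card : ℕ) : ℕ∞) := by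
      push_cast
      rfl
    rw [this]
    exact ENat.natCast_lt_top _
  have hcardS : hfinS.toFinset.card ≤ 3 * 2 ^ d.primeFactors.card := by
    have h1 := stab_card h5 h3 hd h4 h3d hpd
    rw [hfinS.encard_eq_coe_toFinset_card] at h1
    exact_mod_cast h1
  have hVel : ∀ m ∈ A, VeluOK (0 : Fb p) (-31 / 4) (L m) := fun m hm =>
    ((hL m hm).chain (L m) le_rfl).2.1
  have hjL : ∀ m ∈ A, jinv (vA (0 : Fb p) (-31 / 4) (L m)) (vB 0 (-31 / 4) (L m)) = (j : Fb p) :=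
    fun m hm => (hL m hm).jj
  have hne0 : ∀ m ∈ A, vA (0 : Fb p) (-31 / 4) (L m) ≠ 0 ∧ vB (0 : Fb p) (-31 / 4) (L m) ≠ 0 := by
    intro m hm
    exact jinv_ne (by rw [hjL m hm]; exact hj0) (by rw [hjL m hm]; exact hj1) (hVel m hm).1
  have hfinL : ∀ m ∈ A, Finite (L m) := by
    intro m hm
    obtain ⟨T, hT, hLT⟩ := (hL m hm).cyc
    apply Nat.finite_of_card_ne_zero
    rw [hLT, Nat.card_zmultiples, hT]
    exact (Nat.mul_pos hd (hA m hm).1).ne'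
  have hcls : ∀ m ∈ A, c m ∈ ({1, -1} : Finset (Fb p)) := by
    intro m hm
    obtain ⟨h1, h2⟩ := hne0 m hm
    obtain ⟨h6, h7⟩ := vel_fix (hfinL m hm) (hL m hm).frob
    have h8 := cls_two p (by omega : p ≠ 2) (s := vB 0 (-31 / 4) (L m) / vA 0 (-31 / 4) (L m))
      (div_ne_zero h2 h1) (by rw [div_pow, h6, h7])
    rw [Finset.mem_insert, Finset.mem_singleton]
    exact h8
  let f : ℕ → AddSubgroup (Pt (0 : Fb p) (-31 / 4)) × Fb p := fun m => (L' m, c m)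
  have hmaps : ∀ m ∈ A, f m ∈ hfinS.toFinset ×ˢ ({1, -1} : Finset (Fb p)) := by
    intro m hm
    rw [Finset.mem_product]
    exact ⟨by rw [Set.Finite.mem_toFinset]; exact (hL' m hm).1, hcls m hm⟩
  have hfib : ∀ b ∈ hfinS.toFinset ×ˢ ({1, -1} : Finset (Fb p)),
      (A.filter (fun m => f m = b)).card ≤ ⌊1 + 12 * T / Real.sqrt p⌋₊ := by
    intro b _
    apply Nat.le_floor
    rcases (A.filter (fun m => f m = b)).eq_empty_or_nonempty with he | ⟨m₀, hm₀⟩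
    · rw [he, Finset.card_empty, Nat.cast_zero]
      exact hR0
    rw [Finset.mem_filter] at hm₀
    obtain ⟨hm₀A, hm₀b⟩ := hm₀
    obtain ⟨ha0, hb0⟩ := hne0 m₀ hm₀A
    obtain ⟨hfa, hfb⟩ := vel_fix (hfinL m₀ hm₀A) (hL m₀ hm₀A).frob
    have hcardL' : Nat.card (L' m₀) = d := by
      obtain ⟨T, hT, hLT⟩ := (hL' m₀ hm₀A).1.1
      rw [hLT, Nat.card_zmultiples, hT]
    refine k_group p (ha := frob_zero p) (hb := frob_quarter p) (ha' := hfa) (hb' := hfb) h5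
      (e0_dsc h5 h3) (hVel m₀ hm₀A).1 (fun P => F0_sq h5 h3 P)
      (fun P hP => e0_no_tors h5 h3 hP) (L' := L' m₀) hd hpd hcardL' _ hT ?_
    intro m hm
    rw [Finset.mem_filter] at hm
    obtain ⟨hmA, hmb⟩ := hm
    have hff : f m = f m₀ := hmb.trans hm₀b.symm
    have hLL : L' m = L' m₀ := congrArg Prod.fst hff
    have hcc : c m = c m₀ := congrArg Prod.snd hff
    obtain ⟨ha1, hb1⟩ := hne0 m hmA
    obtain ⟨v, hv, hvp, hva, hvb⟩ := jinv_iso_fp p h5 (hVel m hmA).1 (hVel m₀ hm₀A).1 ha1 hb1 ha0 hb0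
      ((hjL m hmA).trans (hjL m₀ hm₀A).symm) hcc
    obtain ⟨φ, Φ, hC, hI, hK, hF, hker, hhφ⟩ := k_vel h5 h3 (hfinL m hmA) (hL m hmA).frob
      (hVel m hmA) hv hvp hva hvb hfa hfb
    refine ⟨(hA m hmA).2.1, φ, 1 / v, Φ, one_div_ne_zero hv, ⟨hI, ⟨1 / v, ?_, hC⟩, Φ, hK, hF⟩,
      hC, hK, ?_, ?_, ?_⟩
    · rw [div_pow, one_pow, hvp]
    · rw [hker]
      obtain ⟨T, hT, hLT⟩ := (hL m hmA).cyc
      rw [hLT]
      infer_instance
    · intro P hP
      rw [← hLL] at hP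
      have h1 : P ∈ Φ.ker := by
        rw [hker]
        exact (hL' m hmA).2 hP
      exact h1
    · rw [hhφ]
      obtain ⟨T, hT, hLT⟩ := (hL m hmA).cyc
      rw [hLT, Nat.card_zmultiples, hT]
  have hmain := Finset.card_le_mul_card_image_of_maps_to hmaps _ hfib
  rw [Finset.card_product] at hmain
  have h2c : ({1, -1} : Finset (Fb p)).card ≤ 2 := Finset.card_le_two
  have hmain2 : A.card ≤ ⌊1 + 12 * T / Real.sqrt p⌋₊ * ((3 * 2 ^ d.primeFactors.card) * 2) :=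
    hmain.trans (Nat.mul_le_mul_left _ (Nat.mul_le_mul hcardS h2c))
  have hfl : ((⌊1 + 12 * T / Real.sqrt p⌋₊ : ℕ) : ℝ) ≤ 1 + 12 * T / Real.sqrt p :=
    Nat.floor_le hR0
  calc (A.card : ℝ) ≤ ((⌊1 + 12 * T / Real.sqrt p⌋₊ * ((3 * 2 ^ d.primeFactors.card) * 2) : ℕ) : ℝ) := by
        exact_mod_cast hmain2
    _ = ((⌊1 + 12 * T / Real.sqrt p⌋₊ : ℕ) : ℝ) * ((3 * 2 ^ d.primeFactors.card) * 2) := by
        push_cast
        ring
    _ ≤ (1 + 12 * T / Real.sqrt p) * ((3 * 2 ^ d.primeFactors.card) * 2) := by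
        apply mul_le_mul_of_nonneg_right hfl
        positivity
    _ = 6 * 2 ^ d.primeFactors.card * (1 + 12 * T / Real.sqrt p) := by ring

end LT
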