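import Pool.Agent.Lib_MP_f1937f_nt.KNu
import Pool.Agent.Lib_MP_f1937f_nt.KServe
import Pool.Agent.Lib_MP_f1937f_nt.KCore

/-!
# MP_f1937f_nt, theorem C: the counting inequality (piece KCOUNT, form with the primes not killed by `M`)

Proof. `h`, `lo`, `hi`, `C₀` from `k_core`, `S` from `k_nu lo hi` for the modulus `11 M`. For `(m, Q) ∈ S` the integer `11 M m` is odd,
prime to 3 (the prime factors of `m` are `1 mod 3`), `Q > lo · 11 M m ≥ 11 M m`, so `Q ∤ 11 M m`; the primes `p = 2 mod 3`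
in `badW W` or dividing `2 · 11 M m` are killed by `M` (they do not divide `m`), so by `11 M m`. `k_core` gives a prime
`p = p(m, Q)`, not killed by `11 M m`, so not killed by `M`, so `p ∉ SS W Y` and `p > Y`; `n = h (11 M m Q) ≤ 22 M V`, so
`log p ≤ C₀ n (1 + log n)² ≤ C M V (log V)²` and `p ∈ SS W X`. The map `(m, Q) ↦ ν = m Q` is injective on `S` (`Q > m`, so
`Q` is the largest prime factor of `ν`). For a given `p` the `ν` which it serves satisfy `RedL p (d ν) j L`,
`d = 11 h M` (`4 ∤ d`, `3 ∤ d`), so their number is at most `6 · 2^(ω(M) + 2) (1 + 12 V / √p)` (`k_serve`, `jW_ne`).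
-/

namespace LT

open Polynomial WeierstrassCurve

namespace KCount

/-- the pairs `(m, Q)` with `m < Q` are determined by their product -/
theorem pair_inj {m Q m' Q' : ℕ} (hQ : Q.Prime) (hQ' : Q'.Prime) (hm : 0 < m) (hm' : 0 < m')
    (h1 : m < Q) (h2 : m' < Q') (h : m * Q = m' * Q') : m = m' ∧ Q = Q' := by
  have hQQ : Q = Q' := by
    by_contra hne
    have h3 : Q ∣ m' * Q' := ⟨m, by rw [← h]; ring⟩
    have h4 : Q' ∣ m * Q := ⟨m', by rw [h]; ring⟩
    have h5 : Q ∣ m' := by
      rcases hQ.dvd_mul.1 h3 with h6 | h6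
      · exact h6
      · exact absurd ((Nat.prime_dvd_prime_iff_eq hQ hQ').1 h6) hne
    have h7 : Q' ∣ m := by
      rcases hQ'.dvd_mul.1 h4 with h6 | h6
      · exact h6
      · exact absurd ((Nat.prime_dvd_prime_iff_eq hQ' hQ).1 h6) (fun h8 => hne h8.symm)
    have h8 := Nat.le_of_dvd hm' h5
    have h9 := Nat.le_of_dvd hm h7
    omega
  subst hQQ
  exact ⟨Nat.eq_of_mul_eq_mul_right hQ.pos h, rfl⟩

/-- the size of the modulus -/
theorem size_aux {C₀ V : ℝ} (hC₀ : 0 < C₀) (hV : 22 ≤ V) {M n : ℕ} (hM : 0 < M) (hn : 0 < n)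
    (hMV : (M : ℝ) ≤ V) (hnV : (n : ℝ) ≤ 22 * M * V) :
    C₀ * n * (1 + Real.log n) ^ 2 ≤ 352 * C₀ * M * V * Real.log V ^ 2 := by
  have hV0 : 0 < V := by linarith
  have hM1 : (1 : ℝ) ≤ M := by exact_mod_cast hM
  have hn1 : (1 : ℝ) ≤ n := by exact_mod_cast hn
  have hlog1 : 1 ≤ Real.log V := by
    rw [Real.le_log_iff_exp_le hV0]
    have := Real.exp_one_lt_d9
    linarith
  have h22 : Real.log 22 ≤ Real.log V := Real.log_le_log (by norm_num) hV
  have hlM : Real.log M ≤ Real.log V := Real.log_le_log (by linarith) hMV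
  have hln : Real.log n ≤ 3 * Real.log V := by
    have h1 : Real.log n ≤ Real.log (22 * M * V) := Real.log_le_log (by linarith) hnV
    have h2 : Real.log (22 * M * V) = Real.log 22 + Real.log M + Real.log V := by
      rw [Real.log_mul (by positivity) hV0.ne', Real.log_mul (by norm_num) (by linarith)]
    linarith
  have hln0 : 0 ≤ Real.log n := Real.log_nonneg hn1
  have h3 : (1 + Real.log n) ^ 2 ≤ (4 * Real.log V) ^ 2 :=
    pow_le_pow_left₀ (by linarith) (by linarith) 2
  calc C₀ * n * (1 + Real.log n) ^ 2 ≤ C₀ * (22 * M * V) * (4 * Real.log V) ^ 2 := by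
        apply mul_le_mul (mul_le_mul_of_nonneg_left hnV hC₀.le) h3 (by positivity) (by positivity)
    _ = 352 * C₀ * M * V * Real.log V ^ 2 := by ring

/-- the number of prime factors of `h · 11 · M` -/
theorem omega_aux {h M : ℕ} (hh : h = 1 ∨ h = 2) (hM : 0 < M) :
    (h * (11 * M)).primeFactors.card ≤ M.primeFactors.card + 2 := by
  have h1 : (h * (11 * M)).primeFactors ⊆ M.primeFactors ∪ {2, 11} := by
    intro q hq
    rw [Nat.mem_primeFactors] at hq
    obtain ⟨hq, hd, -⟩ := hq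
    rw [Finset.mem_union, Finset.mem_insert, Finset.mem_singleton, Nat.mem_primeFactors]
    rcases hq.dvd_mul.1 hd with h2 | h2
    · right
      left
      rcases hh with rfl | rfl
      · exact absurd (Nat.dvd_one.1 h2) hq.one_lt.ne'
      · exact (Nat.prime_dvd_prime_iff_eq hq Nat.prime_two).1 h2
    · rcases hq.dvd_mul.1 h2 with h3 | h3
      · right
        right
        exact (Nat.prime_dvd_prime_iff_eq hq (by norm_num)).1 h3
      · left
        exact ⟨hq, h3, hM.ne'⟩
  refine (Finset.card_le_card h1).trans ((Finset.card_union_le _ _).trans ?_)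
  exact Nat.add_le_add_left Finset.card_le_two _

end KCount

open Classical in
theorem k_count2 (W : WeierstrassCurve ℤ) (hΔ : W.Δ ≠ 0) (hCM : NoCM W) :
    ∃ C V₀ : ℝ, 1 ≤ C ∧ ∀ Y M : ℕ, 0 < M → Odd M → ¬ 3 ∣ M →
      (∀ p : ℕ, p.Prime → p % 3 = 2 → (p ∈ SS W Y ∨ p ∈ badW W ∨ p ∣ 22 * M) → KilledBy p M) →
      ∀ V : ℝ, V₀ ≤ V → C * M ≤ V → ∀ X : ℕ, Real.exp (C * M * V * Real.log V ^ 2) ≤ X →
        V / Real.log V ^ 4 ≤ C * 2 ^ M.primeFactors.card *
          ∑ p ∈ (SS W X).filter (fun p => Y < p ∧ ¬ KilledBy p M), (1 + 12 * V / Real.sqrt p) := by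
  obtain ⟨h, lo, hi, C₀, hh, hlo, hlh, hC₀, H⟩ := k_core W hΔ hCM
  obtain ⟨c₁, C₁, V₁, hc₁, hC₁, H₁⟩ := k_nu lo hi hlo hlh
  refine ⟨max (max 1 (11 * C₁)) (max (352 * C₀) (24 / c₁)), max V₁ 22,
    (le_max_left _ _).trans (le_max_left _ _), ?_⟩
  set C : ℝ := max (max 1 (11 * C₁)) (max (352 * C₀) (24 / c₁)) with hC
  have hC1 : 1 ≤ C := (le_max_left _ _).trans (le_max_left _ _)
  have hCa : 11 * C₁ ≤ C := (le_max_right _ _).trans (le_max_left _ _)
  have hCb : 352 * C₀ ≤ C := (le_max_left _ _).trans (le_max_right _ _)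
  have hCc : 24 / c₁ ≤ C := (le_max_right _ _).trans (le_max_right _ _)
  intro Y M hM hMo hM3 hkill V hV hCV X hX
  have hM0 : (0 : ℝ) < M := by exact_mod_cast hM
  have hM1 : (1 : ℝ) ≤ M := by exact_mod_cast hM
  have hV22 : 22 ≤ V := (le_max_right _ _).trans hV
  have hV0 : 0 < V := by linarith
  have hMV : (M : ℝ) ≤ V := by
    refine le_trans ?_ hCV
    nlinarith
  have hlogV : 0 < Real.log V := Real.log_pos (by linarith)
  have hh0 : 0 < h := by rcases hh with rfl | rfl <;> norm_num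
  have hh2 : h ≤ 2 := by rcases hh with rfl | rfl <;> norm_num
  obtain ⟨S, hS, hScard⟩ := H₁ (11 * M) V (by positivity) ((le_max_left _ _).trans hV) (by
    push_cast
    calc C₁ * (11 * M) = 11 * C₁ * M := by ring
      _ ≤ C * M := mul_le_mul_of_nonneg_right hCa hM0.le
      _ ≤ V := hCV)
  set d : ℕ := h * (11 * M) with hd
  have hd0 : 0 < d := by positivity
  have hd4 : ¬ 4 ∣ d := by
    intro h0
    rw [hd] at h0
    have h1 : (11 * M) % 2 = 1 := by
      have := Nat.odd_iff.1 hMo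
      omega
    rcases hh with rfl | rfl <;> omega
  have hd3 : ¬ 3 ∣ d := by
    intro h0
    rw [hd] at h0
    rcases (Nat.Prime.dvd_mul Nat.prime_three).1 h0 with h1 | h1
    · rcases hh with rfl | rfl <;> omega
    · rcases (Nat.Prime.dvd_mul Nat.prime_three).1 h1 with h2 | h2
      · omega
      · exact hM3 h2
  -- every pair is served by a prime
  have key : ∀ q : ℕ × ℕ, ∃ p : ℕ, q ∈ S → ∃ _ : Fact p.Prime, 5 ≤ p ∧ p % 3 = 2 ∧ p ∉ badW W ∧
      p ∈ (SS W X).filter (fun p => Y < p ∧ ¬ KilledBy p M) ∧ ¬ p ∣ d * (q.1 * q.2) ∧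
      ∃ L : AddSubgroup (Pt (0 : Fb p) (-31 / 4)), RedL p (d * (q.1 * q.2)) (jW W) L := by
    intro q
    by_cases hq : q ∈ S
    swap
    · exact ⟨0, fun h0 => absurd h0 hq⟩
    obtain ⟨hm0, hmp, hQ, hQ3, hw1, hw2, hmQV⟩ := hS q hq
    obtain ⟨m, Q⟩ := q
    simp only at hm0 hmp hQ hQ3 hw1 hw2 hmQV
    have hm2 : ¬ 2 ∣ m := by
      intro h0
      have := hmp 2 Nat.prime_two h0
      omega
    have hm3 : ¬ 3 ∣ m := by
      intro h0
      have := hmp 3 Nat.prime_three h0
      omega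
    have hMm0 : 0 < 11 * M * m := by positivity
    have hMm0' : (0 : ℝ) < ((11 * M * m : ℕ) : ℝ) := by exact_mod_cast hMm0
    have hQgt : 11 * M * m < Q := by
      rw [lt_div_iff₀ hMm0'] at hw1
      have h1 : ((11 * M * m : ℕ) : ℝ) < (Q : ℝ) := by nlinarith
      exact_mod_cast h1
    have hQn : ¬ Q ∣ 11 * M * m := by
      intro h0
      have := Nat.le_of_dvd hMm0 h0
      omega
    have kill_mono : ∀ p : ℕ, KilledBy p M → KilledBy p (11 * M * m) := by
      rintro p ⟨q, h1, h2, h3, h4⟩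
      exact ⟨q, h1, Dvd.dvd.mul_right (Dvd.dvd.mul_left h2 _) _, h3, h4⟩
    obtain ⟨p, hpf, hp5, hp3, hnk, hpB, hpn, haff, hlog, L, hL⟩ := H (11 * M * m) Q
      (by
        rw [Nat.odd_mul, Nat.odd_mul]
        refine ⟨⟨by decide, hMo⟩, ?_⟩
        rw [← Nat.not_even_iff_odd, even_iff_two_dvd]
        exact hm2)
      (by
        intro h0
        rcases (Nat.Prime.dvd_mul Nat.prime_three).1 h0 with h1 | h1
        · rcases (Nat.Prime.dvd_mul Nat.prime_three).1 h1 with h2 | h2
          · omega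
          · exact hM3 h2
        · exact hm3 h1)
      (Dvd.intro (M * m) (by ring)) hQ hQ3 hQn hw1 hw2
      (by
        intro p hp hp3 hor
        apply kill_mono
        apply hkill p hp hp3
        rcases hor with h1 | h1
        · exact Or.inr (Or.inl h1)
        · right
          right
          rcases hp.dvd_mul.1 h1 with h2 | h2
          · exact Dvd.dvd.mul_right (h2.trans (by norm_num)) _
          · rcases hp.dvd_mul.1 h2 with h3 | h3
            · rcases hp.dvd_mul.1 h3 with h4 | h4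
              · exact Dvd.dvd.mul_right (h4.trans (by norm_num)) _
              · exact Dvd.dvd.mul_left h4 _
            · have := hmp p hp h3
              omega)
    have hp := hpf.out
    have hn' : h * (11 * M * m * Q) = d * (m * Q) := by
      rw [hd]
      ring
    rw [hn'] at hpn hlog hL
    obtain ⟨hb1, -, -⟩ := badW_not hΔ hCM hp hpB
    have hnpos : 0 < d * (m * Q) := Nat.mul_pos hd0 (Nat.mul_pos hm0 hQ.pos)
    have hnV : ((d * (m * Q) : ℕ) : ℝ) ≤ 22 * M * V := by
      rw [Nat.cast_mul]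
      have h1 : ((d : ℕ) : ℝ) ≤ 22 * M := by
        have : d ≤ 22 * M := by
          rw [hd]
          nlinarith
        exact_mod_cast this
      exact mul_le_mul h1 hmQV (Nat.cast_nonneg _) (by positivity)
    have hsz := KCount.size_aux hC₀ hV22 hM hnpos hMV hnV
    have hpX : p ≤ X := by
      have h1 : (p : ℝ) ≤ X := by
        have hp0 : (0 : ℝ) < p := by exact_mod_cast hp.pos
        calc (p : ℝ) = Real.exp (Real.log p) := (Real.exp_log hp0).symm
          _ ≤ Real.exp (C * M * V * Real.log V ^ 2) := by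
              apply Real.exp_le_exp.2
              refine hlog.trans (hsz.trans ?_)
              have h2 : 0 ≤ (M : ℝ) * V * Real.log V ^ 2 := by positivity
              calc 352 * C₀ * M * V * Real.log V ^ 2 = 352 * C₀ * (M * V * Real.log V ^ 2) := by ring
                _ ≤ C * (M * V * Real.log V ^ 2) := mul_le_mul_of_nonneg_right hCb h2
                _ = C * M * V * Real.log V ^ 2 := by ring
          _ ≤ X := hX
      exact_mod_cast h1
    have hmem : ∀ Z : ℕ, p ≤ Z → p ∈ SS W Z := by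
      intro Z hZ
      rw [SS, Finset.mem_filter, Finset.mem_range]
      exact ⟨by omega, hp, hb1, haff⟩
    refine ⟨p, fun _ => ⟨hpf, hp5, hp3, hpB, ?_, hpn, L, hL⟩⟩
    rw [Finset.mem_filter]
    refine ⟨hmem X hpX, ?_, fun h0 => hnk (kill_mono p h0)⟩
    by_contra hcon
    push Not at hcon
    exact hnk (kill_mono p (hkill p hp hp3 (Or.inl (hmem Y hcon))))
  choose f hf using key
  set R : Finset ℕ := (SS W X).filter (fun p => Y < p ∧ ¬ KilledBy p M) with hR
  have hmaps : ∀ q ∈ S, f q ∈ R := by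
    intro q hq
    obtain ⟨_, -, -, -, h1, -⟩ := hf q hq
    exact h1
  have hinj : ∀ q ∈ S, ∀ q' ∈ S, q.1 * q.2 = q'.1 * q'.2 → q = q' := by
    rintro ⟨m, Q⟩ hq ⟨m', Q'⟩ hq' heq
    simp only at heq
    have aux : ∀ q ∈ S, q.1 < q.2 := by
      intro q hq
      obtain ⟨hm0, -, -, -, hw1, -, -⟩ := hS q hq
      have hMm0 : 0 < 11 * M * q.1 := by positivity
      have hMm0' : (0 : ℝ) < ((11 * M * q.1 : ℕ) : ℝ) := by exact_mod_cast hMm0
      rw [lt_div_iff₀ hMm0'] at hw1
      have h1 : ((11 * M * q.1 : ℕ) : ℝ) < (q.2 : ℝ) := by nlinarith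
      have h2 : 11 * M * q.1 < q.2 := by exact_mod_cast h1
      have h3 : q.1 ≤ 11 * M * q.1 := Nat.le_mul_of_pos_left _ (by positivity)
      omega
    obtain ⟨h1, h2⟩ := KCount.pair_inj (hS _ hq).2.2.1 (hS _ hq').2.2.1 (hS _ hq).1 (hS _ hq').1
      (aux _ hq) (aux _ hq') heq
    simp only at h1 h2
    rw [h1, h2]
  have hfib : ∀ p ∈ R, ((S.filter (fun q => f q = p)).card : ℝ) ≤
      24 * 2 ^ M.primeFactors.card * (1 + 12 * V / Real.sqrt p) := by
    intro p _
    have hpos : 0 ≤ 1 + 12 * V / Real.sqrt p := by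
      have := Real.sqrt_nonneg (p : ℝ)
      positivity
    rcases (S.filter (fun q => f q = p)).eq_empty_or_nonempty with he | ⟨q₀, hq₀⟩
    · rw [he, Finset.card_empty, Nat.cast_zero]
      positivity
    rw [Finset.mem_filter] at hq₀
    obtain ⟨hq₀S, rfl⟩ := hq₀
    obtain ⟨hpf, hp5, hp3, hpB, -, -, -⟩ := hf q₀ hq₀S
    obtain ⟨hb1, hb2, hb3⟩ := badW_not hΔ hCM hpf.out hpB
    obtain ⟨hj0, hj1⟩ := jW_ne hb1 hb2 hb3
    have hcardA : ((S.filter (fun q => f q = f q₀)).image (fun q => q.1 * q.2)).card =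
        (S.filter (fun q => f q = f q₀)).card := by
      apply Finset.card_image_of_injOn
      intro q hq q' hq' heq
      exact hinj q (Finset.mem_filter.1 hq).1 q' (Finset.mem_filter.1 hq').1 heq
    have hserve := k_serve hp5 hp3 hd0 hd4 hd3 hj0 hj1
      ((S.filter (fun q => f q = f q₀)).image (fun q => q.1 * q.2)) (T := V) hV0.le (by
        intro ν hν
        rw [Finset.mem_image] at hν
        obtain ⟨q, hq, rfl⟩ := hν
        rw [Finset.mem_filter] at hq
        obtain ⟨hqS, hqf⟩ := hq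
        obtain ⟨hm0, -, hQ, -, -, -, hmQV⟩ := hS q hqS
        obtain ⟨hpf', -, -, -, -, h1, L, hL⟩ := hf q hqS
        refine ⟨Nat.mul_pos hm0 hQ.pos, hmQV, ?_, ?_⟩
        · rw [← hqf]
          exact h1
        · have aux : ∀ (a b : ℕ) (ha : Fact a.Prime) (hb : Fact b.Prime), a = b →
              (∃ L : AddSubgroup (Pt (0 : Fb a) (-31 / 4)), RedL a (d * (q.1 * q.2)) (jW W) L) →
              ∃ L : AddSubgroup (Pt (0 : Fb b) (-31 / 4)), RedL b (d * (q.1 * q.2)) (jW W) L := by
            rintro a b ha hb rfl h0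
            exact h0
          exact aux _ _ hpf' hpf hqf ⟨L, hL⟩)
    rw [hcardA] at hserve
    refine hserve.trans ?_
    apply mul_le_mul_of_nonneg_right _ hpos
    have h1 : (2 : ℝ) ^ d.primeFactors.card ≤ 2 ^ (M.primeFactors.card + 2) :=
      pow_le_pow_right₀ (by norm_num) (KCount.omega_aux hh hM)
    calc 6 * (2 : ℝ) ^ d.primeFactors.card ≤ 6 * 2 ^ (M.primeFactors.card + 2) :=
          mul_le_mul_of_nonneg_left h1 (by norm_num)
      _ = 24 * 2 ^ M.primeFactors.card := by rw [pow_add]; ring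
  have hcard : (S.card : ℝ) ≤ ∑ p ∈ R, 24 * 2 ^ M.primeFactors.card * (1 + 12 * V / Real.sqrt p) := by
    rw [Finset.card_eq_sum_card_fiberwise (f := f) (t := R) hmaps]
    push_cast
    exact Finset.sum_le_sum hfib
  rw [← Finset.mul_sum] at hcard
  set Tt : ℝ := ∑ p ∈ R, (1 + 12 * V / Real.sqrt p) with hTt
  have hTt0 : 0 ≤ Tt := by
    apply Finset.sum_nonneg
    intro p _
    have := Real.sqrt_nonneg (p : ℝ)
    positivity
  have h1 : c₁ * (V / Real.log V ^ 4) ≤ 24 * 2 ^ M.primeFactors.card * Tt := by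
    refine le_trans ?_ (hScard.trans hcard)
    rw [mul_div_assoc]
  have h2 : V / Real.log V ^ 4 ≤ 24 / c₁ * (2 ^ M.primeFactors.card * Tt) := by
    rw [div_mul_eq_mul_div, le_div_iff₀ hc₁]
    linarith
  refine h2.trans ?_
  rw [mul_assoc C]
  exact mul_le_mul_of_nonneg_right hCc (by positivity)

end LT
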