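import Mathlib

/-!
# MP_f1937f_nt, theorem C: sums of `1/√p` over thin sets (piece KDYAD)

Proof. The `i`-th element `p` of `A` satisfies `i ≤ K p^α`, so `1 / √p = p^(α - 1/2) p^(-α) ≤ Y^(α - 1/2) K / i`, and
`∑ 1 / i ≤ 1 + log #A ≤ 1 + log Z`.
-/

namespace LT

theorem k_dyad {Y Z : ℕ} (hY : 1 ≤ Y) (A : Finset ℕ) (hA : ∀ p ∈ A, Y < p ∧ p ≤ Z)
    {K α : ℝ} (hK : 0 ≤ K) (hα0 : 0 ≤ α) (hα : α ≤ 1 / 2)
    (h : ∀ y : ℕ, Y ≤ y → y ≤ Z → ((A.filter (fun p => p ≤ y)).card : ℝ) ≤ K * (y : ℝ) ^ α) :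
    ∑ p ∈ A, 1 / Real.sqrt p ≤ 4 * K * (1 + Real.log Z) * (Y : ℝ) ^ (α - 1 / 2) := by
  classical
  have hY0 : (0 : ℝ) < Y := by exact_mod_cast hY
  rcases A.eq_empty_or_nonempty with rfl | hne
  · rw [Finset.sum_empty]
    have : 0 ≤ Real.log Z := Real.log_natCast_nonneg Z
    positivity
  have hAZ : A.card ≤ Z := by
    have h1 : A ⊆ Finset.Icc 1 Z := by
      intro p hp
      have := hA p hp
      rw [Finset.mem_Icc]
      omega
    have h2 := Finset.card_le_card h1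
    rwa [Nat.card_Icc, Nat.add_sub_cancel] at h2
  have hA0 : 0 < A.card := Finset.card_pos.2 hne
  set ρ : ℕ → ℕ := fun p => (A.filter (fun q => q < p)).card with hρ
  have key : ∀ p ∈ A, ∀ q ∈ A, p < q → ρ p < ρ q := by
    intro p hp q hq hpq
    apply Finset.card_lt_card
    rw [Finset.ssubset_iff_of_subset]
    · exact ⟨p, Finset.mem_filter.2 ⟨hp, hpq⟩, by simp⟩
    · intro r hr
      rw [Finset.mem_filter] at hr ⊢
      exact ⟨hr.1, hr.2.trans hpq⟩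
  have hinj : Set.InjOn ρ A := by
    intro p hp q hq hpq
    rcases lt_trichotomy p q with hlt | heq | hgt
    · exact absurd hpq (key p hp q hq hlt).ne
    · exact heq
    · exact absurd hpq (key q hq p hp hgt).ne'
  have hrange : A.image ρ ⊆ Finset.range A.card := by
    intro i hi
    obtain ⟨p, hp, rfl⟩ := Finset.mem_image.1 hi
    rw [Finset.mem_range]
    apply Finset.card_lt_card
    rw [Finset.ssubset_iff_of_subset (Finset.filter_subset _ _)]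
    exact ⟨p, hp, by simp⟩
  have hterm : ∀ p ∈ A, 1 / Real.sqrt p ≤ K * (Y : ℝ) ^ (α - 1 / 2) * (1 / ((ρ p : ℝ) + 1)) := by
    intro p hp
    obtain ⟨h1, h2⟩ := hA p hp
    have hp0 : (0 : ℝ) < p := lt_trans hY0 (by exact_mod_cast h1)
    have h3 : ((ρ p : ℝ) + 1) ≤ K * (p : ℝ) ^ α := by
      refine le_trans ?_ (h p h1.le h2)
      have h4 : insert p (A.filter (fun q => q < p)) ⊆ A.filter (fun q => q ≤ p) := by
        intro q hq
        rw [Finset.mem_insert, Finset.mem_filter] at hq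
        rw [Finset.mem_filter]
        rcases hq with rfl | hq
        · exact ⟨hp, le_rfl⟩
        · exact ⟨hq.1, hq.2.le⟩
      have h5 := Finset.card_le_card h4
      rw [Finset.card_insert_of_notMem (by simp)] at h5
      exact_mod_cast h5
    have h6 : (0 : ℝ) < (ρ p : ℝ) + 1 := by positivity
    have h7 : 0 < (p : ℝ) ^ α := Real.rpow_pos_of_pos hp0 _
    have e1 : 1 / Real.sqrt (p : ℝ) = (p : ℝ) ^ (α - 1 / 2) * (1 / (p : ℝ) ^ α) := by
      rw [Real.sqrt_eq_rpow, Real.rpow_sub hp0]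
      field_simp
    have e2 : (p : ℝ) ^ (α - 1 / 2) ≤ (Y : ℝ) ^ (α - 1 / 2) :=
      Real.rpow_le_rpow_of_nonpos hY0 (by exact_mod_cast h1.le) (by linarith)
    have e3 : 1 / (p : ℝ) ^ α ≤ K * (1 / ((ρ p : ℝ) + 1)) := by
      rw [mul_one_div, div_le_div_iff₀ h7 h6]
      linarith
    rw [e1]
    calc (p : ℝ) ^ (α - 1 / 2) * (1 / (p : ℝ) ^ α)
        ≤ (Y : ℝ) ^ (α - 1 / 2) * (K * (1 / ((ρ p : ℝ) + 1))) :=
          mul_le_mul e2 e3 (by positivity) (by positivity)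
      _ = _ := by ring
  have hKY : 0 ≤ K * (Y : ℝ) ^ (α - 1 / 2) := by positivity
  have hharm : ∑ p ∈ A, 1 / ((ρ p : ℝ) + 1) ≤ 1 + Real.log Z := by
    have h1 : ∑ p ∈ A, 1 / ((ρ p : ℝ) + 1) = ∑ i ∈ A.image ρ, 1 / ((i : ℝ) + 1) := by
      rw [Finset.sum_image hinj]
    have h2 : ∑ i ∈ A.image ρ, 1 / ((i : ℝ) + 1) ≤ ∑ i ∈ Finset.range A.card, 1 / ((i : ℝ) + 1) :=
      Finset.sum_le_sum_of_subset_of_nonneg hrange fun i _ _ => by positivity
    have h3 := harmonic_le_one_add_log A.card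
    have h4 : ((harmonic A.card : ℚ) : ℝ) = ∑ i ∈ Finset.range A.card, 1 / ((i : ℝ) + 1) := by
      rw [harmonic]
      push_cast
      refine Finset.sum_congr rfl fun i _ => ?_
      rw [one_div]
    rw [h4] at h3
    have h5 : Real.log A.card ≤ Real.log Z :=
      Real.log_le_log (by exact_mod_cast hA0) (by exact_mod_cast hAZ)
    rw [h1]
    linarith
  have hlog : 0 ≤ 1 + Real.log Z := by
    have : 0 ≤ Real.log Z := Real.log_natCast_nonneg Z
    linarith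
  calc ∑ p ∈ A, 1 / Real.sqrt p
      ≤ ∑ p ∈ A, K * (Y : ℝ) ^ (α - 1 / 2) * (1 / ((ρ p : ℝ) + 1)) := Finset.sum_le_sum hterm
    _ = K * (Y : ℝ) ^ (α - 1 / 2) * ∑ p ∈ A, 1 / ((ρ p : ℝ) + 1) := by rw [Finset.mul_sum]
    _ ≤ K * (Y : ℝ) ^ (α - 1 / 2) * (1 + Real.log Z) := mul_le_mul_of_nonneg_left hharm hKY
    _ ≤ 4 * K * (1 + Real.log Z) * (Y : ℝ) ^ (α - 1 / 2) := by
      have : 0 ≤ K * (Y : ℝ) ^ (α - 1 / 2) * (1 + Real.log Z) := mul_nonneg hKY hlog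
      linarith

end LT
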