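import Pool.Agent.Lib_MP_f1937f_nt.AExc

/-!
# MP_f1937f_nt, theorem C: exceptional primes for the threshold `1/2 - η` (piece KEXC)

The same proof as `exc_sum`, `exc_bound` (AExc.lean) with `(1/2 - η)` instead of `1/4`: an exceptional `p` has
`∑_{q ∈ PZ z} (-p/q) ≥ #PZ - 2 (1/2 - η) #PZ - 1 = 2 η #PZ - 1 ≥ η #PZ` (if `η #PZ ≥ 1`, true for large `z`), so the
constant `9` becomes `1/η²`.

`k_exc'`: consequence: if `z ≥ (log Y)^b`-like, the number of exceptional primes up to `y` is at most `y^(8/b)` for all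
`Y ≤ y ≤ Z`, `log Z ≤ (log Y)²`: `(C log y)^(2 log y / log z + 1)`, `log (C log y) ≤ 3 log log Y`, `log z ≥ b log log Y`, so the logarithm
is at most `6 log y / b + 3 log log Y ≤ 8 log y / b` for large `Y`.
-/

namespace LT

open AExc

/-- the character sum of an exceptional prime is large -/
theorem k_exc_sum {η : ℝ} {z p : ℕ} (hp : p.Prime)
    (h : ((killers z p).card : ℝ) < (1 / 2 - η) * (PZ z).card)
    (h6 : 1 ≤ η * ((PZ z).card : ℝ)) :
    η * ((PZ z).card : ℝ) ≤ ∑ q ∈ PZ z, (jacobiSym (-(p : ℤ)) q : ℝ) := by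
  classical
  have h1 : ∀ q ∈ PZ z, (1 : ℝ) - 2 * (if jacobiSym (-(p : ℤ)) q = -1 then 1 else 0) -
      (if q = p then 1 else 0) ≤ (jacobiSym (-(p : ℤ)) q : ℝ) := by
    intro q hq
    rcases jacobiSym.trichotomy (-(p : ℤ)) q with h2 | h2 | h2
    · have hqp : q = p := by
        have hq' := PZ_prime hq
        have : NeZero q := ⟨hq'.1.ne_zero⟩
        rw [jacobiSym.eq_zero_iff_not_coprime] at h2
        have h3 : ¬ Nat.Coprime p q := by
          intro h4
          apply h2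
          simpa [Int.gcd] using h4
        rw [Nat.coprime_primes hp hq'.1] at h3
        push Not at h3
        exact h3.symm
      rw [h2, if_neg (by norm_num), if_pos hqp]
      norm_num
    · rw [h2, if_neg (by norm_num)]
      split_ifs <;> norm_num
    · rw [h2, if_pos rfl]
      split_ifs <;> norm_num
  have h2 := Finset.sum_le_sum h1
  rw [Finset.sum_sub_distrib, Finset.sum_sub_distrib, ← Finset.mul_sum] at h2
  simp only [Finset.sum_const, nsmul_eq_mul, mul_one, Finset.sum_boole] at h2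
  have h3 : ((PZ z).filter (fun q => jacobiSym (-(p : ℤ)) q = -1)).card = (killers z p).card := rfl
  rw [h3] at h2
  have h4 : (((PZ z).filter (fun q => q = p)).card : ℝ) ≤ 1 := by
    have : ((PZ z).filter (fun q => q = p)).card ≤ 1 := by
      rw [Finset.card_le_one]
      intro a ha b hb
      rw [Finset.mem_filter] at ha hb
      rw [ha.2, hb.2]
    exact_mod_cast this
  linarith

theorem k_exc (η : ℝ) (hη : 0 < η) : ∃ C : ℝ, 1 ≤ C ∧ ∀ Y z : ℕ, C ≤ z → z ≤ Y →
    ((((Finset.range (Y + 1)).filter (fun p => p.Prime ∧ p ≠ 2 ∧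
      ((killers z p).card : ℝ) < (1 / 2 - η) * (PZ z).card)).card : ℕ) : ℝ) ≤
      (C * Real.log Y) ^ (2 * Real.log Y / Real.log z + 1) := by
  classical
  obtain ⟨C1, hC1, hls⟩ := ls_char
  obtain ⟨e, hedef⟩ : ∃ e : ℝ, e = 1 / η ^ 2 := ⟨_, rfl⟩
  have he0 : 0 < e := by rw [hedef]; positivity
  have hee : e * η ^ 2 = 1 := by rw [hedef]; field_simp
  obtain ⟨C, hC⟩ : ∃ C : ℝ, C = 100 + 36 * e + 9 * e * (3 * C1 + 1) := ⟨_, rfl⟩
  have hC1e : 0 < 9 * e * (3 * C1 + 1) := by positivity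
  refine ⟨C, by rw [hC]; nlinarith, fun Y z hCz hzY => ?_⟩
  have hzR : (100 : ℝ) ≤ z := by rw [hC] at hCz; linarith
  have hze : 36 * e ≤ (z : ℝ) := by rw [hC] at hCz; linarith
  have hz : 100 ≤ z := by exact_mod_cast hzR
  have hYR : (z : ℝ) ≤ Y := by exact_mod_cast hzY
  have hlz : 1 ≤ Real.log z := by
    rw [Real.le_log_iff_exp_le (by linarith)]
    have := Real.exp_one_lt_d9
    linarith
  have hlY : Real.log z ≤ Real.log Y := Real.log_le_log (by linarith) hYR
  obtain ⟨hP, hP6⟩ := card_PZ hz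
  set P : ℝ := ((PZ z).card : ℝ) with hPdef
  have hηP : 1 ≤ η * P := by
    have hz0 : (0 : ℝ) < z := by linarith
    obtain ⟨s, hs⟩ : ∃ s : ℝ, s = Real.sqrt z := ⟨_, rfl⟩
    have hs0 : 0 < s := by rw [hs]; exact Real.sqrt_pos.2 hz0
    have hss : s ^ 2 = z := by rw [hs]; exact Real.sq_sqrt hz0.le
    have h1 : Real.log z ≤ 2 * s := by
      rw [← hss, Real.log_pow]
      have := Real.log_le_sub_one_of_pos hs0
      push_cast
      linarith
    have h2 : s / 6 ≤ P := by
      refine le_trans ?_ hP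
      rw [div_le_div_iff₀ (by norm_num) (by linarith)]
      calc s * (3 * Real.log z) ≤ s * (3 * (2 * s)) :=
            mul_le_mul_of_nonneg_left (mul_le_mul_of_nonneg_left h1 (by norm_num)) hs0.le
        _ = s ^ 2 * 6 := by ring
        _ = z * 6 := by rw [hss]
    have h3 : 1 ≤ η * (s / 6) := by
      have h4 : (6 : ℝ) ^ 2 ≤ (η * s) ^ 2 := by
        rw [mul_pow, hss]
        nlinarith [sq_nonneg η]
      have h5 : 6 ≤ η * s :=
        (pow_le_pow_iff_left₀ (by norm_num) (by positivity) two_ne_zero).1 h4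
      linarith
    exact h3.trans (mul_le_mul_of_nonneg_left h2 hη.le)
  set x : ℝ := 2 * Real.log Y / Real.log z with hx
  set r : ℕ := ⌈x⌉₊ with hr
  have hx2 : 2 ≤ x := by
    rw [hx, le_div_iff₀ (by linarith)]
    linarith
  have hr1 : x ≤ r := Nat.le_ceil x
  have hr2 : (r : ℝ) < x + 1 := Nat.ceil_lt_add_one (by linarith)
  have hrlog : (r : ℝ) * Real.log z ≤ 3 * Real.log Y := by
    have h1 : (r : ℝ) * Real.log z ≤ (x + 1) * Real.log z :=
      mul_le_mul_of_nonneg_right hr2.le (by linarith)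
    have h2 : x * Real.log z = 2 * Real.log Y := by
      rw [hx]; field_simp
    linarith
  have hYz : (Y : ℝ) ^ 2 ≤ (z : ℝ) ^ r := by
    have hY0 : (0 : ℝ) < Y := by linarith
    have hz0 : (0 : ℝ) < z := by linarith
    rw [← Real.log_le_log_iff (by positivity) (by positivity), Real.log_pow, Real.log_pow]
    have h2 : x * Real.log z = 2 * Real.log Y := by
      rw [hx]; field_simp
    push_cast
    nlinarith
  -- the tuples
  have hN : ∀ g ∈ TT (PZ z) r, ∏ i, g i < z ^ r + 1 := by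
    intro g hg
    simp only [TT, Fintype.mem_piFinset] at hg
    have : ∏ i, g i ≤ ∏ _i : Fin r, z := Finset.prod_le_prod' fun i _ => (PZ_prime (hg i)).2.2
    rw [Finset.prod_const, Finset.card_univ, Fintype.card_fin] at this
    omega
  have h1 := hls Y (z ^ r + 1) (fun n => (aa (PZ z) r n : ℝ)) (by omega)
  have hsq := sum_sq_aa (PZ z) (fun q hq => (PZ_prime hq).1) r (z ^ r + 1) hN
  set Ex := (Finset.range (Y + 1)).filter (fun p => p.Prime ∧ p ≠ 2 ∧
      ((killers z p).card : ℝ) < (1 / 2 - η) * P) with hEx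
  have h2 : (Ex.card : ℝ) * ((η * P) ^ r) ^ 2 ≤
      ∑ p ∈ (Finset.range (Y + 1)).filter (fun p => p.Prime ∧ p ≠ 2),
      (∑ n ∈ (Finset.range (z ^ r + 1)).filter Odd,
        (aa (PZ z) r n : ℝ) * (jacobiSym (-(p : ℤ)) n : ℝ)) ^ 2 := by
    calc (Ex.card : ℝ) * ((η * P) ^ r) ^ 2 = ∑ p ∈ Ex, ((η * P) ^ r) ^ 2 := by
          rw [Finset.sum_const, nsmul_eq_mul]
      _ ≤ ∑ p ∈ Ex, (∑ n ∈ (Finset.range (z ^ r + 1)).filter Odd,
            (aa (PZ z) r n : ℝ) * (jacobiSym (-(p : ℤ)) n : ℝ)) ^ 2 := by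
          refine Finset.sum_le_sum fun p hp => ?_
          rw [hEx, Finset.mem_filter] at hp
          rw [← pow_sum (PZ z) (fun q hq => ⟨(PZ_prime hq).1, (PZ_prime hq).2.1⟩) r (z ^ r + 1) hN]
          have h3 := k_exc_sum hp.2.1 hp.2.2.2 hηP
          have hP0 : 0 ≤ η * P := by positivity
          gcongr
      _ ≤ _ := by
          refine Finset.sum_le_sum_of_subset_of_nonneg ?_ fun p _ _ => sq_nonneg _
          intro p hp
          rw [hEx, Finset.mem_filter] at hp
          rw [Finset.mem_filter]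
          exact ⟨hp.1, hp.2.1, hp.2.2.1⟩
  have hz0 : (0 : ℝ) < z := by linarith
  have hzr : (1 : ℝ) ≤ (z : ℝ) ^ r := one_le_pow₀ (by linarith)
  have h3 : (Ex.card : ℝ) * ((η * P) ^ r) ^ 2 ≤
      C1 * (3 * (z : ℝ) ^ r) * (r.factorial * P ^ r) := by
    refine h2.trans (h1.trans ?_)
    have h4 : (((z ^ r + 1 : ℕ) : ℝ) + (Y : ℝ) ^ 2) ≤ 3 * (z : ℝ) ^ r := by
      push_cast
      linarith
    exact mul_le_mul (mul_le_mul_of_nonneg_left h4 hC1.le) hsq
      (Finset.sum_nonneg fun _ _ => sq_nonneg _) (by positivity)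
  have hP0 : 0 < P := by linarith
  -- solve for the cardinality
  have h4 : (Ex.card : ℝ) ≤ 3 * C1 * (r.factorial * (e * z / P) ^ r) := by
    have h5 : ((η * P) ^ r) ^ 2 = P ^ r * (P * η ^ 2) ^ r := by
      rw [← pow_mul, mul_comm r 2, pow_mul, ← mul_pow]
      congr 1
      ring
    rw [h5] at h3
    have h6 : (0 : ℝ) < P ^ r * (P * η ^ 2) ^ r := by positivity
    rw [← le_div_iff₀ h6] at h3
    refine h3.trans (le_of_eq ?_)
    rw [div_eq_iff h6.ne']
    have h7 : (e * z / P) ^ r * (P * η ^ 2) ^ r = (z : ℝ) ^ r := by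
      rw [← mul_pow]
      congr 1
      have : e * z / P * (P * η ^ 2) = (e * η ^ 2) * z * (P / P) := by ring
      rw [this, hee, div_self hP0.ne']
      ring
    calc C1 * (3 * (z : ℝ) ^ r) * (r.factorial * P ^ r) =
        3 * C1 * (r.factorial * ((e * z / P) ^ r * (P * η ^ 2) ^ r)) * P ^ r := by rw [h7]; ring
      _ = _ := by ring
  have h9 : e * z / P ≤ 3 * e * Real.log z := by
    rw [div_le_iff₀ hP0]
    rw [div_le_iff₀ (by linarith)] at hP
    nlinarith
  have h10 : (r.factorial : ℝ) ≤ (r : ℝ) ^ r := by exact_mod_cast Nat.factorial_le_pow r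
  have h11 : (r.factorial : ℝ) * (e * z / P) ^ r ≤ (9 * e * Real.log Y) ^ r := by
    calc (r.factorial : ℝ) * (e * z / P) ^ r ≤ (r : ℝ) ^ r * (3 * e * Real.log z) ^ r := by gcongr
      _ = (3 * e * (r * Real.log z)) ^ r := by rw [← mul_pow]; congr 1; ring
      _ ≤ (9 * e * Real.log Y) ^ r := by
          have : 0 ≤ (r : ℝ) * Real.log z := by positivity
          refine pow_le_pow_left₀ (by positivity) ?_ r
          nlinarith
  have hr0 : r ≠ 0 := by
    intro h
    rw [h] at hr1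
    norm_num at hr1
    linarith
  have h12 : 3 * C1 ≤ (3 * C1 + 1) ^ r := by
    calc 3 * C1 ≤ (3 * C1 + 1) ^ 1 := by linarith
      _ ≤ (3 * C1 + 1) ^ r := pow_le_pow_right₀ (by linarith) (Nat.one_le_iff_ne_zero.2 hr0)
  have hlY0 : 0 ≤ Real.log Y := by linarith
  have h13 : (Ex.card : ℝ) ≤ (C * Real.log Y) ^ r := by
    calc (Ex.card : ℝ) ≤ 3 * C1 * (r.factorial * (e * z / P) ^ r) := h4
      _ ≤ (3 * C1 + 1) ^ r * (9 * e * Real.log Y) ^ r := by gcongr
      _ = ((3 * C1 + 1) * (9 * e * Real.log Y)) ^ r := by rw [← mul_pow]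
      _ ≤ (C * Real.log Y) ^ r := by
          refine pow_le_pow_left₀ (by positivity) ?_ r
          rw [hC]
          nlinarith
  have hbase : 1 ≤ C * Real.log Y := by
    rw [hC]
    nlinarith
  calc (Ex.card : ℝ) ≤ (C * Real.log Y) ^ r := h13
    _ = (C * Real.log Y) ^ (r : ℝ) := (Real.rpow_natCast _ _).symm
    _ ≤ (C * Real.log Y) ^ (x + 1) := Real.rpow_le_rpow_of_exponent_le hbase hr2.le

open Real in
theorem k_exc' (η : ℝ) (hη : 0 < η) (b : ℝ) (hb : 1 ≤ b) : ∃ Y₀ : ℕ, ∀ Y Z : ℕ, Y₀ ≤ Y → Y ≤ Z →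
    log Z ≤ log Y ^ 2 → ⌈log Y ^ b⌉₊ ≤ Y ∧ ∀ y : ℕ, Y ≤ y → y ≤ Z →
    ((((Finset.range (y + 1)).filter (fun p => p.Prime ∧ p ≠ 2 ∧
      ((killers ⌈log Y ^ b⌉₊ p).card : ℝ) < (1 / 2 - η) * (PZ ⌈log Y ^ b⌉₊).card)).card : ℕ) : ℝ) ≤
      (y : ℝ) ^ (8 / b) := by
  have hb0 : 0 < b := by linarith
  obtain ⟨C, hC, hk⟩ := k_exc η hη
  have ev1 : ∀ᶠ u : ℝ in Filter.atTop, log u ≤ 2 / (3 * b) * u := by
    have h1 := Real.isLittleO_log_id_atTop.bound (show (0 : ℝ) < 2 / (3 * b) by positivity)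
    filter_upwards [h1, Filter.eventually_ge_atTop (1 : ℝ)] with u hu hu1
    rw [Real.norm_eq_abs, Real.norm_eq_abs, id, abs_of_nonneg (Real.log_nonneg hu1),
      abs_of_nonneg (by linarith)] at hu
    exact hu
  have evL : Filter.Tendsto (fun Y : ℕ => log (Y : ℝ)) Filter.atTop Filter.atTop :=
    Real.tendsto_log_atTop.comp tendsto_natCast_atTop_atTop
  have ev2 := evL.eventually ev1
  have ev3 := evL.eventually (Filter.eventually_ge_atTop (max C 3))
  have ev4 : ∀ᶠ Y : ℕ in Filter.atTop, log (Y : ℝ) ^ b + 1 ≤ (Y : ℝ) := by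
    have h1 := (isLittleO_log_rpow_rpow_atTop b (one_pos)).bound (show (0 : ℝ) < 1 / 2 by norm_num)
    have h2 := (tendsto_natCast_atTop_atTop (R := ℝ)).eventually h1
    filter_upwards [h2, (tendsto_natCast_atTop_atTop (R := ℝ)).eventually
      (Filter.eventually_ge_atTop (2 : ℝ))] with Y h3 h4
    rw [Real.rpow_one, Real.norm_eq_abs, Real.norm_eq_abs, abs_of_nonneg (show (0 : ℝ) ≤ Y by linarith),
      abs_of_nonneg (Real.rpow_nonneg (Real.log_nonneg (by linarith)) _)] at h3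
    linarith
  obtain ⟨Y₀, hY₀⟩ := Filter.eventually_atTop.1 ((ev2.and ev3).and ev4)
  refine ⟨Y₀, fun Y Z hY hYZ hlZ => ?_⟩
  obtain ⟨⟨h1, h2⟩, h3⟩ := hY₀ Y hY
  obtain ⟨L, hL⟩ : ∃ L : ℝ, L = log (Y : ℝ) := ⟨_, rfl⟩
  rw [← hL] at h1 h2 h3 hlZ ⊢
  have hLC : C ≤ L := (le_max_left _ _).trans h2
  have hL3 : 3 ≤ L := (le_max_right _ _).trans h2
  have hL0 : 0 < L := by linarith
  have hLb : L ≤ L ^ b := by
    calc L = L ^ (1 : ℝ) := (Real.rpow_one L).symm
      _ ≤ L ^ b := Real.rpow_le_rpow_of_exponent_le (by linarith) hb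
  obtain ⟨z, hz⟩ : ∃ z : ℕ, z = ⌈L ^ b⌉₊ := ⟨_, rfl⟩
  have hzle : (L ^ b : ℝ) ≤ z := by rw [hz]; exact Nat.le_ceil _
  have hzY : z ≤ Y := by
    have h4 : (z : ℝ) < L ^ b + 1 := by
      rw [hz]
      exact Nat.ceil_lt_add_one (by positivity)
    have : (z : ℝ) < Y := h4.trans_le h3
    exact_mod_cast this.le
  rw [← hz]
  refine ⟨hzY, fun y hYy hyZ => ?_⟩
  have hY0 : (0 : ℝ) < Y := by
    have : 0 < L ^ b := by positivity
    linarith
  have hYyR : (Y : ℝ) ≤ y := by exact_mod_cast hYy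
  have hy0 : (0 : ℝ) < y := by linarith
  have hCz : C ≤ (z : ℝ) := (hLC.trans hLb).trans hzle
  refine (hk y z hCz (hzY.trans hYy)).trans ?_
  have hLy : L ≤ log y := by rw [hL]; exact Real.log_le_log hY0 hYyR
  have hyL : log y ≤ L ^ 2 := by
    refine le_trans (Real.log_le_log hy0 (by exact_mod_cast hyZ)) hlZ
  have hLL : 0 < log L := Real.log_pos (by linarith)
  have hlogz : b * log L ≤ log z := by
    rw [← Real.log_rpow hL0]
    exact Real.log_le_log (by positivity) hzle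
  have hlogz0 : 0 < log z := lt_of_lt_of_le (by positivity) hlogz
  have hbase : C * log y ≤ L ^ 3 := by
    calc C * log y ≤ L * L ^ 2 := mul_le_mul hLC hyL (by linarith) (by linarith)
      _ = L ^ 3 := by ring
  have hbase0 : 0 < C * log y := by
    have : 0 < log (y : ℝ) := by linarith
    positivity
  have hlogbase : log (C * log y) ≤ 3 * log L := by
    calc log (C * log y) ≤ log (L ^ 3) := Real.log_le_log hbase0 hbase
      _ = 3 * log L := by rw [Real.log_pow]; norm_num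
  have hexp : 2 * log y / log z + 1 ≤ 2 * log y / (b * log L) + 1 := by
    have : 0 ≤ 2 * log (y : ℝ) := by linarith
    gcongr
  have hexp0 : 0 ≤ 2 * log y / log z + 1 := by
    have : 0 ≤ 2 * log (y : ℝ) := by linarith
    positivity
  have h5 : log (C * log y) * (2 * log y / log z + 1) ≤ log y * (8 / b) := by
    calc log (C * log y) * (2 * log y / log z + 1)
        ≤ 3 * log L * (2 * log y / (b * log L) + 1) := by
          refine mul_le_mul hlogbase hexp hexp0 (by positivity)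
      _ = 6 * log y / b + 3 * log L := by
          field_simp
          ring
      _ ≤ 6 * log y / b + 3 * (2 / (3 * b) * log y) := by
          have : 2 / (3 * b) * L ≤ 2 / (3 * b) * log y :=
            mul_le_mul_of_nonneg_left hLy (by positivity)
          linarith
      _ = log y * (8 / b) := by
          field_simp
          ring
  rw [Real.rpow_def_of_pos hbase0, Real.rpow_def_of_pos hy0]
  exact Real.exp_le_exp.2 h5

end LT
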