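import Mathlib

/-!
# MP_f1937f_nt, theorem C: a greedy choice with a potential (piece KPOT)

`k_pot_iter`: for nonnegative weights `v` on a finite set `U` all of whose elements are related to at least `θ |Q|` elements of `Q`:
for every `n` there is `T ⊆ Q`, `|T| ≤ n`, such that the weight of the elements not related to any element of `T` is at most
`(1 - θ)^n` times the total weight. Induction on `n`: the average over `q ∈ Q` of the weight of the elements of the
remaining set `U'` which are related to `q` is at least `θ` times the weight of `U'` (double counting), so some `q` is at least as good.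

`k_greedy`: apply it to the disjoint union: `U = S ⊔ R` (for example as a subset of `α ⊕ α`, or `S ×ˢ {0} ∪ R ×ˢ {1}`)
with the weights `W` (total weight of `R`) on `S` and `|S| w` on `R`: total `2 W |S|`. If `W > 0` and `|S| > 0`, divide. If `W = 0`
or `S = ∅` use only the other part (the claim for the part of total weight 0 is trivial).
-/

namespace LT

theorem k_pot_iter {α β : Type} [DecidableEq α] [DecidableEq β] (U : Finset α) (Q : Finset β)
    (rel : α → β → Prop) [∀ s q, Decidable (rel s q)] {θ : ℝ} (hθ0 : 0 ≤ θ) (hθ1 : θ ≤ 1)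
    (hU : ∀ s ∈ U, θ * Q.card ≤ ((Q.filter (rel s)).card : ℝ)) (hQ : Q.Nonempty) (v : α → ℝ)
    (hv : ∀ s ∈ U, 0 ≤ v s) (n : ℕ) :
    ∃ T ⊆ Q, T.card ≤ n ∧
      ∑ s ∈ U.filter (fun s => ∀ t ∈ T, ¬ rel s t), v s ≤ (1 - θ) ^ n * ∑ s ∈ U, v s := by
  induction n with
  | zero =>
    refine ⟨∅, Finset.empty_subset _, by simp, ?_⟩
    simp
  | succ n ih =>
    obtain ⟨T, hTQ, hTc, hT⟩ := ih
    set U' := U.filter (fun s => ∀ t ∈ T, ¬ rel s t) with hU'
    have hsub : ∀ s ∈ U', s ∈ U := fun s hs => (Finset.mem_filter.mp hs).1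
    have hdc : ∑ q ∈ Q, (∑ s ∈ U', if rel s q then v s else 0)
        = ∑ s ∈ U', ((Q.filter (rel s)).card : ℝ) * v s := by
      rw [Finset.sum_comm]
      refine Finset.sum_congr rfl fun s _ => ?_
      rw [← Finset.sum_filter, Finset.sum_const, nsmul_eq_mul]
    have hex : ∃ q ∈ Q, θ * ∑ s ∈ U', v s ≤ ∑ s ∈ U', if rel s q then v s else 0 := by
      by_contra hcon
      push Not at hcon
      have h1 : ∑ q ∈ Q, (∑ s ∈ U', if rel s q then v s else 0) < ∑ _q ∈ Q, θ * ∑ s ∈ U', v s :=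
        Finset.sum_lt_sum_of_nonempty hQ hcon
      rw [hdc, Finset.sum_const, nsmul_eq_mul] at h1
      have h2 : (Q.card : ℝ) * (θ * ∑ s ∈ U', v s) ≤ ∑ s ∈ U', ((Q.filter (rel s)).card : ℝ) * v s := by
        rw [← mul_assoc, Finset.mul_sum]
        refine Finset.sum_le_sum fun s hs => ?_
        have := hU s (hsub s hs)
        refine mul_le_mul_of_nonneg_right ?_ (hv s (hsub s hs))
        linarith [mul_comm θ (Q.card : ℝ)]
      linarith
    obtain ⟨q, hqQ, hq⟩ := hex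
    refine ⟨insert q T, Finset.insert_subset hqQ hTQ, (Finset.card_insert_le _ _).trans (by omega), ?_⟩
    have hsplit : ∑ s ∈ U.filter (fun s => ∀ t ∈ insert q T, ¬ rel s t), v s
        = ∑ s ∈ U', v s - ∑ s ∈ U', if rel s q then v s else 0 := by
      have h3 : U.filter (fun s => ∀ t ∈ insert q T, ¬ rel s t) = U'.filter (fun s => ¬ rel s q) := by
        ext s
        simp only [hU', Finset.mem_filter, Finset.mem_insert, forall_eq_or_imp]
        tauto
      rw [h3, Finset.sum_filter, ← Finset.sum_sub_distrib]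
      refine Finset.sum_congr rfl fun s _ => ?_
      by_cases h : rel s q <;> simp [h]
    rw [hsplit]
    have h1θ : 0 ≤ 1 - θ := by linarith
    calc ∑ s ∈ U', v s - ∑ s ∈ U', (if rel s q then v s else 0)
        ≤ (1 - θ) * ∑ s ∈ U', v s := by linarith
      _ ≤ (1 - θ) * ((1 - θ) ^ n * ∑ s ∈ U, v s) := mul_le_mul_of_nonneg_left hT h1θ
      _ = (1 - θ) ^ (n + 1) * ∑ s ∈ U, v s := by ring

theorem k_greedy {α β : Type} [DecidableEq α] [DecidableEq β] (S R : Finset α) (Q : Finset β)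
    (rel : α → β → Prop) [∀ s q, Decidable (rel s q)] {θ : ℝ} (hθ0 : 0 ≤ θ) (hθ1 : θ ≤ 1)
    (hS : ∀ s ∈ S, θ * Q.card ≤ ((Q.filter (rel s)).card : ℝ))
    (hR : ∀ s ∈ R, θ * Q.card ≤ ((Q.filter (rel s)).card : ℝ)) (hQ : Q.Nonempty) (w : α → ℝ)
    (hw : ∀ s ∈ R, 0 ≤ w s) (n : ℕ) :
    ∃ T ⊆ Q, T.card ≤ n ∧
      ((S.filter (fun s => ∀ t ∈ T, ¬ rel s t)).card : ℝ) ≤ 2 * (1 - θ) ^ n * S.card ∧
      ∑ s ∈ R.filter (fun s => ∀ t ∈ T, ¬ rel s t), w s ≤ 2 * (1 - θ) ^ n * ∑ s ∈ R, w s := by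
  classical
  set W : ℝ := ∑ s ∈ R, w s with hW
  have hW0 : 0 ≤ W := Finset.sum_nonneg hw
  have hpow : 0 ≤ (1 - θ) ^ n := pow_nonneg (by linarith) n
  let rel' : α ⊕ α → β → Prop := fun x q => rel (Sum.elim id id x) q
  let v : α ⊕ α → ℝ := Sum.elim (fun _ => 1 / (S.card : ℝ)) (fun s => w s / W)
  have hU : ∀ s ∈ S.disjSum R, θ * Q.card ≤ ((Q.filter (rel' s)).card : ℝ) := by
    intro s hs
    rcases s with s | s
    · exact hS s (Finset.inl_mem_disjSum.mp hs)
    · exact hR s (Finset.inr_mem_disjSum.mp hs)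
  have hv : ∀ s ∈ S.disjSum R, 0 ≤ v s := by
    intro s hs
    rcases s with s | s
    · exact div_nonneg zero_le_one (Nat.cast_nonneg _)
    · exact div_nonneg (hw s (Finset.inr_mem_disjSum.mp hs)) hW0
  obtain ⟨T, hTQ, hTc, hT⟩ := k_pot_iter (S.disjSum R) Q rel' hθ0 hθ1 hU hQ v hv n
  refine ⟨T, hTQ, hTc, ?_⟩
  have htot : ∑ s ∈ S.disjSum R, v s ≤ 2 := by
    rw [Finset.sum_disjSum]
    have h1 : ∑ s ∈ S, v (Sum.inl s) ≤ 1 := by
      change ∑ _s ∈ S, 1 / (S.card : ℝ) ≤ 1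
      rw [Finset.sum_const, nsmul_eq_mul, mul_one_div]
      exact div_self_le_one _
    have h2 : ∑ s ∈ R, v (Sum.inr s) ≤ 1 := by
      change ∑ s ∈ R, w s / W ≤ 1
      rw [← Finset.sum_div]
      exact div_self_le_one _
    linarith
  have hsum : ∑ s ∈ (S.disjSum R).filter (fun s => ∀ t ∈ T, ¬ rel' s t), v s
      = ((S.filter (fun s => ∀ t ∈ T, ¬ rel s t)).card : ℝ) * (1 / (S.card : ℝ))
        + (∑ s ∈ R.filter (fun s => ∀ t ∈ T, ¬ rel s t), w s) / W := by
    rw [Finset.sum_filter, Finset.sum_disjSum]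
    congr 1
    · change (∑ s ∈ S, if (∀ t ∈ T, ¬ rel s t) then 1 / (S.card : ℝ) else 0) = _
      rw [← Finset.sum_filter, Finset.sum_const, nsmul_eq_mul]
    · change (∑ s ∈ R, if (∀ t ∈ T, ¬ rel s t) then w s / W else 0) = _
      rw [← Finset.sum_filter, Finset.sum_div]
  have hmain : ∑ s ∈ (S.disjSum R).filter (fun s => ∀ t ∈ T, ¬ rel' s t), v s ≤ 2 * (1 - θ) ^ n := by
    calc _ ≤ (1 - θ) ^ n * ∑ s ∈ S.disjSum R, v s := hT
      _ ≤ (1 - θ) ^ n * 2 := mul_le_mul_of_nonneg_left htot hpow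
      _ = 2 * (1 - θ) ^ n := by ring
  rw [hsum] at hmain
  have hRn : 0 ≤ ∑ s ∈ R.filter (fun s => ∀ t ∈ T, ¬ rel s t), w s :=
    Finset.sum_nonneg fun s hs => hw s (Finset.mem_filter.mp hs).1
  have hA : 0 ≤ ((S.filter (fun s => ∀ t ∈ T, ¬ rel s t)).card : ℝ) * (1 / (S.card : ℝ)) := by positivity
  have hB : 0 ≤ (∑ s ∈ R.filter (fun s => ∀ t ∈ T, ¬ rel s t), w s) / W := div_nonneg hRn hW0
  constructor
  · rcases S.card.eq_zero_or_pos with h0 | h0
    · have : (S.filter (fun s => ∀ t ∈ T, ¬ rel s t)).card = 0 := by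
        have := Finset.card_filter_le S (fun s => ∀ t ∈ T, ¬ rel s t)
        omega
      rw [this, h0]; simp
    · have h0' : (0 : ℝ) < S.card := by exact_mod_cast h0
      have h4 : ((S.filter (fun s => ∀ t ∈ T, ¬ rel s t)).card : ℝ) / (S.card : ℝ) ≤ 2 * (1 - θ) ^ n := by
        rw [div_eq_mul_one_div]; linarith
      exact (div_le_iff₀ h0').mp h4
  · rcases hW0.eq_or_lt with h0 | h0
    · have h5 : ∑ s ∈ R.filter (fun s => ∀ t ∈ T, ¬ rel s t), w s ≤ W :=
        Finset.sum_le_sum_of_subset_of_nonneg (Finset.filter_subset _ _) fun s hs _ => hw s hs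
      rw [← h0] at h5 ⊢
      simpa using h5
    · exact (div_le_iff₀ h0).mp (by linarith)

end LT
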