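import Pool.Agent.Lib_MP_f1937f_nt.ACov
import Pool.Agent.Lib_MP_f1937f_nt.KDyad
import Pool.Agent.Lib_MP_f1937f_nt.KExc
import Pool.Agent.Lib_MP_f1937f_nt.KPot

/-!
# MP_f1937f_nt, theorem C: the covering lemma with a potential (piece KCOVER)

`S` is a set of primes up to `Z` with few elements up to every `y ∈ [Y, Z]` (at most `y^(1/2-δ)`). There is a modulus `M`, `log M ≪ log Y (log log Y)²`,
which kills the elements of `S` up to `Y`, the set `B`, and the primes `= 2 mod 3` dividing `22 M`, and such that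
`2^ω(M) ∑ 1/√p ≤ Y^(-δ/4)`, the sum over the `p ∈ S`, `p > Y`, not killed by `M`.

Proof. Let `η > 0`, `b`, `ε` be small / large constants depending on `δ` (for example `η = δ/16`, `b = 128/δ`, `ε = δ/64`), `z = ⌈(log Y)^b⌉`,
`θ = 1/2 - η`. Let `S₀`, `R₀` be the odd elements of `S` in `[0, Y]`, `(Y, Z]` which are killed by at least `θ #PZ z` of the primes in `PZ z`,
`S₁`, `R₁` the others. `|S₁| ≤ Y^(8/b)` and `#(R₁ ∩ [0, y]) ≤ y^(8/b)` (`k_exc'`), so by `k_dyad`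
`W = ∑_{R₀} 1/√p ≤ 4 (1 + log Z) Y^(-δ)`, `∑_{R₁} 1/√p ≤ 4 (1 + log Z) Y^(8/b - 1/2)`. Let `n = ⌊log (2 |S₀| + 1) / log (1/(1-θ))⌋ + 1`, so that
`2 (1-θ)^n |S₀| < 1`, `2^n ≤ 2 (2 |S₀| + 1)^(1 + 4 η)` (because `log 2 / log (1/(1/2+η)) ≤ 1 + 4 η` for `η ≤ 1/8`) and
`(2 (1-θ))^n = (1 + 2 η)^n ≤ exp (2 η n) ≤ Y^(2 η)`. `k_greedy` with `w = 1/√p` gives `T ⊆ PZ z`, `|T| ≤ n`, which kills all of `S₀` and leaves
at most `2 (1-θ)^n W` of the weight of `R₀`. `lev_cover ε` applied to `S₁` gives `P`, `T'`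
with `|P| ≤ 4 log (|S₁| + 1) + ε log Y + C (log log Y)²`; `last_cover` applied to `T' ∪ B ∪ {2, 11} ∪` the primes of `T ∪ P` which are `2 mod 3`
gives `M'`. `M = ∏_{T ∪ P} q · M'` (as in `cover_main`, ACov.lean). `2^ω(M) ≤ 2^n 2^|P| 2^(C (log log Y)²) ≤ 2^n Y^(δ/8)`. So
`2^ω(M) ∑ ≤ Y^(δ/8) ((1 + 2η)^n 2 W + 2^n ∑_{R₁} 1/√p) ≤ Y^(-δ/4)`, since `2^n ≤ Y^(1/2 - δ/2)`-like, `log Z ≤ (log Y)²`.
-/

namespace LT

open Real Filter in
private lemma kcov_asym (δ C₁ C₂ b : ℝ) (hδ : 0 < δ) : ∃ Y₀ : ℕ, ∀ Y : ℕ, Y₀ ≤ Y →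
    1 ≤ log (log Y) ∧ 6 ≤ log Y ∧ (C₁ * log Y) ^ 5 + 2 * log Y + 5 + b ≤ (log Y) ^ 7 ∧
      4 * log 2 + 3 * δ / 64 * log Y + (C₁ + C₂) * (log (log Y)) ^ 2 ≤ δ / 16 * log Y ∧
      88 * (1 + log Y ^ 2) ≤ exp (δ / 2 * log Y) := by
  have hlog : Tendsto (fun Y : ℕ => log (Y : ℝ)) atTop atTop :=
    tendsto_log_atTop.comp tendsto_natCast_atTop_atTop
  have key : ∀ᶠ L : ℝ in atTop, 1 ≤ log L ∧ 6 ≤ L ∧ (C₁ * L) ^ 5 + 2 * L + 5 + b ≤ L ^ 7 ∧
      4 * log 2 + 3 * δ / 64 * L + (C₁ + C₂) * (log L) ^ 2 ≤ δ / 16 * L ∧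
      88 * (1 + L ^ 2) ≤ exp (δ / 2 * L) := by
    have e1 : ∀ᶠ L : ℝ in atTop, 1 ≤ log L := tendsto_log_atTop.eventually_ge_atTop 1
    have e2 : ∀ᶠ L : ℝ in atTop, 6 + 512 / δ ≤ L := eventually_ge_atTop _
    have e3 : ∀ᶠ L : ℝ in atTop, |C₁| ^ 5 + 7 + |b| ≤ L := eventually_ge_atTop _
    have hpos : (0 : ℝ) < δ / (128 * (|C₁ + C₂| + 1)) := by positivity
    have e4 := (isLittleO_pow_log_id_atTop (n := 2)).bound hpos
    have hd2 : 0 < δ / 2 := by positivity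
    have e5 := (isLittleO_pow_exp_pos_mul_atTop 2 hd2).bound (show (0 : ℝ) < 1 / 176 by norm_num)
    filter_upwards [e1, e2, e3, e4, e5] with L h1 h2 h3 h4 h5
    have hδ5 : 0 < 512 / δ := by positivity
    have hL6 : 6 ≤ L := by linarith
    refine ⟨h1, hL6, ?_, ?_, ?_⟩
    · have hL : (1 : ℝ) ≤ L := by linarith
      have hL5 : (1 : ℝ) ≤ L ^ 5 := one_le_pow₀ hL
      have a1 : (C₁ * L) ^ 5 ≤ |C₁| ^ 5 * L ^ 5 := by
        rw [mul_pow]
        refine mul_le_mul_of_nonneg_right ?_ (by positivity)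
        calc C₁ ^ 5 ≤ |C₁ ^ 5| := le_abs_self _
          _ = |C₁| ^ 5 := abs_pow _ _
      have a2 : L ≤ L ^ 5 := le_self_pow₀ hL (by norm_num)
      have a3 : b ≤ |b| * L ^ 5 := by
        calc b ≤ |b| := le_abs_self _
          _ = |b| * 1 := (mul_one _).symm
          _ ≤ _ := mul_le_mul_of_nonneg_left hL5 (abs_nonneg _)
      have a4 : (|C₁| ^ 5 + 7 + |b|) * L ^ 5 ≤ L * L ^ 5 :=
        mul_le_mul_of_nonneg_right h3 (by positivity)
      have a5 : L ^ 6 ≤ L ^ 7 := pow_le_pow_right₀ hL (by norm_num)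
      calc (C₁ * L) ^ 5 + 2 * L + 5 + b ≤ |C₁| ^ 5 * L ^ 5 + 2 * L ^ 5 + 5 * L ^ 5 + |b| * L ^ 5 := by
            linarith
        _ = (|C₁| ^ 5 + 7 + |b|) * L ^ 5 := by ring
        _ ≤ L * L ^ 5 := a4
        _ = L ^ 6 := by ring
        _ ≤ L ^ 7 := a5
    · have hL : (0 : ℝ) < L := by linarith
      have hlog2 : log 2 ≤ 1 := by
        have := log_two_lt_d9
        linarith
      rw [norm_of_nonneg (by positivity), id, norm_of_nonneg hL.le] at h4
      have a1 : (C₁ + C₂) * (log L) ^ 2 ≤ (|C₁ + C₂| + 1) * (log L) ^ 2 := by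
        refine mul_le_mul_of_nonneg_right ?_ (by positivity)
        have := le_abs_self (C₁ + C₂)
        linarith
      have a2 : (|C₁ + C₂| + 1) * (log L) ^ 2 ≤
          (|C₁ + C₂| + 1) * (δ / (128 * (|C₁ + C₂| + 1)) * L) :=
        mul_le_mul_of_nonneg_left h4 (by positivity)
      have a3 : (|C₁ + C₂| + 1) * (δ / (128 * (|C₁ + C₂| + 1)) * L) = δ * L / 128 := by
        have : |C₁ + C₂| + 1 ≠ 0 := by positivity
        field_simp
      have a4 : 512 ≤ δ * L := by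
        have h6 : 512 / δ ≤ L := by linarith
        rw [div_le_iff₀ hδ] at h6
        linarith
      have a5 : δ / 16 * L = δ * L / 16 := by ring
      have a6 : 3 * δ / 64 * L = 3 * (δ * L) / 64 := by ring
      rw [a5, a6]
      linarith
    · have hL : (0 : ℝ) < L := by linarith
      rw [norm_of_nonneg (by positivity), norm_of_nonneg (exp_pos _).le] at h5
      have : 1 ≤ L ^ 2 := one_le_pow₀ (by linarith)
      linarith
  obtain ⟨Y₀, hY₀⟩ := eventually_atTop.1 (hlog.eventually key)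
  exact ⟨Y₀, fun Y hY => hY₀ Y hY⟩

open Real in
private lemma kcov_n {η s : ℝ} (hη : 0 < η) (hη2 : η ≤ 1 / 32) (hs : 0 ≤ s) :
    ∃ n : ℕ, 2 * (1 / 2 + η) ^ n * s < 1 ∧ (n : ℝ) ≤ 2 * log (2 * s + 1) + 1 ∧
      (2 : ℝ) ^ n ≤ 2 * (2 * s + 1) ^ (1 + 4 * η) := by
  have hl2 := log_two_gt_d9
  have hl2' := log_two_lt_d9
  set a : ℝ := 1 / 2 + η with ha
  have ha0 : 0 < a := by positivity
  set lam : ℝ := - log a with hlam
  have h1 : log 2 - 2 * η ≤ lam := by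
    have e1 : a = (1 + 2 * η) / 2 := by rw [ha]; ring
    have e2 : log a = log (1 + 2 * η) - log 2 := by
      rw [e1, log_div (by positivity) (by norm_num)]
    have e3 : log (1 + 2 * η) ≤ 2 * η := by
      have := log_le_sub_one_of_pos (show (0 : ℝ) < 1 + 2 * η by positivity)
      linarith
    rw [hlam, e2]
    linarith
  have hlam2 : 1 / 2 ≤ lam := by linarith
  have hlam0 : 0 < lam := by linarith
  have hx0 : 0 ≤ log (2 * s + 1) := log_nonneg (by linarith)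
  have hs1 : 0 < 2 * s + 1 := by linarith
  set x : ℝ := log (2 * s + 1) with hx
  have hdiv0 : 0 ≤ x / lam := by positivity
  refine ⟨⌊x / lam⌋₊ + 1, ?_, ?_, ?_⟩
  · have h2 : x / lam < ((⌊x / lam⌋₊ + 1 : ℕ) : ℝ) := by
      push_cast
      exact Nat.lt_floor_add_one _
    rw [div_lt_iff₀ hlam0] at h2
    have h3 : a ^ (⌊x / lam⌋₊ + 1) < 1 / (2 * s + 1) := by
      have e1 : a ^ (⌊x / lam⌋₊ + 1) = exp (-(((⌊x / lam⌋₊ + 1 : ℕ) : ℝ) * lam)) := by
        rw [hlam, mul_neg, neg_neg, mul_comm, exp_mul, exp_log ha0, rpow_natCast]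
      have e2 : 1 / (2 * s + 1) = exp (-x) := by
        rw [exp_neg, hx, exp_log hs1, one_div]
      rw [e1, e2, exp_lt_exp]
      linarith
    rw [lt_div_iff₀ hs1] at h3
    have h4 : 0 < a ^ (⌊x / lam⌋₊ + 1) := pow_pos ha0 _
    nlinarith
  · have h2 : (⌊x / lam⌋₊ : ℝ) ≤ x / lam := Nat.floor_le hdiv0
    have h3 : x / lam ≤ 2 * x := by
      rw [div_le_iff₀ hlam0]
      nlinarith
    push_cast
    linarith
  · have h2 : (⌊x / lam⌋₊ : ℝ) ≤ x / lam := Nat.floor_le hdiv0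
    rw [pow_succ, mul_comm]
    refine mul_le_mul_of_nonneg_left ?_ (by norm_num)
    rw [← rpow_natCast, rpow_def_of_pos (by norm_num), rpow_def_of_pos hs1]
    apply exp_le_exp.2
    have h3 : log 2 ≤ lam * (1 + 4 * η) := by nlinarith
    calc log 2 * (⌊x / lam⌋₊ : ℝ) ≤ log 2 * (x / lam) := mul_le_mul_of_nonneg_left h2 (by linarith)
      _ = (log 2 / lam) * x := by ring
      _ ≤ (1 + 4 * η) * x := by
          refine mul_le_mul_of_nonneg_right ?_ hx0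
          rw [div_le_iff₀ hlam0]
          linarith
      _ = x * (1 + 4 * η) := by ring


private lemma KilledBy.mono' {p M N : ℕ} (h : KilledBy p M) (hMN : M ∣ N) : KilledBy p N := by
  obtain ⟨q, h1, h2, h3, h4⟩ := h
  exact ⟨q, h1, h2.trans hMN, h3, h4⟩

open Real in
open Classical in
theorem k_cover (B : Finset ℕ) (δ : ℝ) (hδ : 0 < δ) (hδ2 : δ < 1 / 2) :
    ∃ C : ℝ, 0 < C ∧ ∃ Y₀ : ℕ, ∀ Y Z : ℕ, Y₀ ≤ Y → Y ≤ Z → log Z ≤ log Y ^ 2 →
    ∀ S : Finset ℕ, (∀ p ∈ S, p.Prime ∧ p ≤ Z) →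
    (∀ y : ℕ, Y ≤ y → y ≤ Z →
      ((S.filter (fun p => p ≤ y)).card : ℝ) ≤ (y : ℝ) ^ (1 / 2 - δ)) →
    ∃ M : ℕ, 0 < M ∧ Odd M ∧ ¬ 3 ∣ M ∧ ¬ 7 ∣ M ∧
      (∀ p : ℕ, p.Prime → p % 3 = 2 → ((p ∈ S ∧ p ≤ Y) ∨ p ∈ B ∨ p ∣ 22 * M) → KilledBy p M) ∧
      log M ≤ C * log Y * (log (log Y)) ^ 2 ∧
      (2 : ℝ) ^ M.primeFactors.card ≤ Y ∧
      (2 : ℝ) ^ M.primeFactors.card *
        ∑ p ∈ S.filter (fun p => Y < p ∧ ¬ KilledBy p M), 1 / √(p : ℝ) ≤ (Y : ℝ) ^ (-(δ / 4)) := by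
  obtain ⟨η, hηdef⟩ : ∃ η : ℝ, η = δ / 32 := ⟨_, rfl⟩
  obtain ⟨b, hbdef⟩ : ∃ b : ℝ, b = 1024 / δ := ⟨_, rfl⟩
  have hη : 0 < η := by rw [hηdef]; positivity
  have hη2 : η ≤ 1 / 64 := by rw [hηdef]; linarith
  have hb : 1 ≤ b := by
    rw [hbdef, le_div_iff₀ hδ]
    linarith
  have h8b : 8 / b = δ / 128 := by
    rw [hbdef]
    field_simp
    norm_num
  obtain ⟨C₁, hC₁, Y₁, H₁⟩ := lev_cover (δ / 64) (by positivity)
  obtain ⟨C₂, hC₂, Y₂, H₂⟩ := last_cover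
  obtain ⟨Y₃, H₃⟩ := kcov_asym δ C₁ C₂ (B.card + 2) hδ
  obtain ⟨Y₄, H₄⟩ := k_exc' η hη b hb
  refine ⟨2 * (1 + b) + 2 * C₁ + C₂, by positivity, Y₁ + Y₂ + Y₃ + Y₄ + 11 + B.sup id, ?_⟩
  intro Y Z hY hYZ hlZ S hS hcard
  obtain ⟨hl, hL, h7, h12, hexp⟩ := H₃ Y (by omega)
  obtain ⟨hzY, hexc⟩ := H₄ Y Z (by omega) hYZ hlZ
  have hYpos : (0 : ℝ) < Y := by
    have : 0 < Y := by omega
    exact_mod_cast this
  have hY1 : (1 : ℝ) ≤ Y := by
    have : 1 ≤ Y := by omega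
    exact_mod_cast this
  set L := log (Y : ℝ) with hLdef
  set l := log L with hldef
  have hLpos : 0 < L := by linarith
  have hlog2 : log 2 ≤ 3 / 4 := by
    have := log_two_lt_d9
    linarith
  have hlog20 : 0 < log 2 := log_pos (by norm_num)
  have hYrpow : ∀ t : ℝ, (Y : ℝ) ^ t = exp (L * t) := fun t => by
    rw [rpow_def_of_pos hYpos]
  have hlogZ0 : 0 ≤ log (Z : ℝ) := log_natCast_nonneg Z
  -- the killers
  obtain ⟨z, hz⟩ : ∃ z : ℕ, z = ⌈L ^ b⌉₊ := ⟨_, rfl⟩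
  rw [← hz] at hzY hexc
  have hLb : L ≤ L ^ b := by
    calc L = L ^ (1 : ℝ) := (rpow_one L).symm
      _ ≤ L ^ b := rpow_le_rpow_of_exponent_le (by linarith) hb
  have hz5 : 5 ≤ z := by
    have h1 : (5 : ℝ) ≤ (z : ℝ) := by
      rw [hz]
      exact le_trans (by linarith) (Nat.le_ceil _)
    exact_mod_cast h1
  have hPZne : (PZ z).Nonempty := by
    refine ⟨5, ?_⟩
    simp only [PZ, Finset.mem_filter, Finset.mem_range]
    refine ⟨by omega, by norm_num, by norm_num⟩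
  obtain ⟨good, hgood⟩ : ∃ good : ℕ → Prop, good = fun p =>
      (1 / 2 - η) * ((PZ z).card : ℝ) ≤ ((killers z p).card : ℝ) := ⟨_, rfl⟩
  set S₀ := S.filter (fun p => p ≤ Y ∧ p ≠ 2 ∧ good p) with hS₀
  set S₁ := S.filter (fun p => p ≤ Y ∧ p ≠ 2 ∧ ¬ good p) with hS₁
  set R₀ := S.filter (fun p => Y < p ∧ good p) with hR₀
  set R₁ := S.filter (fun p => Y < p ∧ ¬ good p) with hR₁
  -- sizes
  have hS₀c : (S₀.card : ℝ) ≤ (Y : ℝ) ^ (1 / 2 - δ) := by
    refine le_trans ?_ (hcard Y le_rfl hYZ)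
    have : S₀ ⊆ S.filter (fun p => p ≤ Y) := by
      intro p hp
      rw [hS₀, Finset.mem_filter] at hp
      exact Finset.mem_filter.2 ⟨hp.1, hp.2.1⟩
    exact_mod_cast Finset.card_le_card this
  have hS₁c : (S₁.card : ℝ) ≤ (Y : ℝ) ^ (δ / 128) := by
    rw [← h8b]
    refine le_trans ?_ (hexc Y le_rfl hYZ)
    have : S₁ ⊆ ((Finset.range (Y + 1)).filter (fun p => p.Prime ∧ p ≠ 2 ∧
      ((killers z p).card : ℝ) < (1 / 2 - η) * (PZ z).card)) := by
      intro p hp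
      rw [hS₁, Finset.mem_filter, hgood] at hp
      rw [Finset.mem_filter, Finset.mem_range]
      refine ⟨by omega, (hS p hp.1).1, hp.2.2.1, ?_⟩
      exact not_le.1 hp.2.2.2
    exact_mod_cast Finset.card_le_card this
  have hR₀sum : ∑ p ∈ R₀, 1 / √(p : ℝ) ≤ 4 * 1 * (1 + log Z) * (Y : ℝ) ^ ((1 / 2 - δ) - 1 / 2) := by
    refine k_dyad (by omega) R₀ (fun p hp => ?_) (by norm_num) (by linarith) (by linarith) ?_
    · rw [hR₀, Finset.mem_filter] at hp
      exact ⟨hp.2.1, (hS p hp.1).2⟩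
    · intro y hy hyZ
      rw [one_mul]
      refine le_trans ?_ (hcard y hy hyZ)
      have : R₀.filter (fun p => p ≤ y) ⊆ S.filter (fun p => p ≤ y) :=
        Finset.filter_subset_filter _ (Finset.filter_subset _ _)
      exact_mod_cast Finset.card_le_card this
  have hR₁sum : ∑ p ∈ R₁, 1 / √(p : ℝ) ≤ 4 * 1 * (1 + log Z) * (Y : ℝ) ^ (δ / 128 - 1 / 2) := by
    refine k_dyad (by omega) R₁ (fun p hp => ?_) (by norm_num) (by positivity) (by linarith) ?_
    · rw [hR₁, Finset.mem_filter] at hp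
      exact ⟨hp.2.1, (hS p hp.1).2⟩
    · intro y hy hyZ
      rw [one_mul, ← h8b]
      refine le_trans ?_ (hexc y hy hyZ)
      have : R₁.filter (fun p => p ≤ y) ⊆ ((Finset.range (y + 1)).filter (fun p => p.Prime ∧ p ≠ 2 ∧
          ((killers z p).card : ℝ) < (1 / 2 - η) * (PZ z).card)) := by
        intro p hp
        rw [Finset.mem_filter, hR₁, Finset.mem_filter, hgood] at hp
        rw [Finset.mem_filter, Finset.mem_range]
        refine ⟨by omega, (hS p hp.1.1).1, by omega, ?_⟩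
        exact not_le.1 hp.1.2.2
      exact_mod_cast Finset.card_le_card this
  -- the greedy choice
  obtain ⟨n, hn1, hn2, hn3⟩ := kcov_n hη (by linarith : η ≤ 1 / 32) (Nat.cast_nonneg S₀.card)
  have hθ : 1 - (1 / 2 - η) = 1 / 2 + η := by ring
  obtain ⟨T, hTQ, hTc, hTS, hTR⟩ := k_greedy S₀ R₀ (PZ z) (fun p q => jacobiSym (-(p : ℤ)) q = -1)
    (θ := 1 / 2 - η) (by linarith) (by linarith)
    (fun p hp => by
      rw [hS₀, Finset.mem_filter, hgood] at hp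
      exact hp.2.2.2)
    (fun p hp => by
      rw [hR₀, Finset.mem_filter, hgood] at hp
      exact hp.2.2) hPZne (fun p => 1 / √(p : ℝ)) (fun p _ => by positivity) n
  rw [hθ] at hTS hTR
  have hTS0 : ∀ p ∈ S₀, ∃ q ∈ T, jacobiSym (-(p : ℤ)) q = -1 := by
    have h1 : (((S₀.filter (fun s : ℕ => ∀ t ∈ T, ¬ jacobiSym (-(s : ℤ)) t = -1)).card : ℕ) : ℝ) < 1 :=
      lt_of_le_of_lt hTS hn1
    have h2 : (S₀.filter (fun s : ℕ => ∀ t ∈ T, ¬ jacobiSym (-(s : ℤ)) t = -1)).card = 0 := by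
      have : (S₀.filter (fun s : ℕ => ∀ t ∈ T, ¬ jacobiSym (-(s : ℤ)) t = -1)).card < 1 := by
        exact_mod_cast h1
      omega
    rw [Finset.card_eq_zero] at h2
    intro p hp
    by_contra hcon
    push Not at hcon
    have : p ∈ S₀.filter (fun s : ℕ => ∀ t ∈ T, ¬ jacobiSym (-(s : ℤ)) t = -1) :=
      Finset.mem_filter.2 ⟨hp, hcon⟩
    rw [h2] at this
    simp at this
  have hTprime : ∀ q ∈ T, q.Prime ∧ ¬ q ∣ 42 ∧ q ≤ z := by
    intro q hq
    have := hTQ hq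
    simp only [PZ, Finset.mem_filter, Finset.mem_range] at this
    exact ⟨this.2.1, this.2.2, by omega⟩
  -- the exceptional part
  obtain ⟨P, T', hP, hTS', hTc', hkill, hPc, hPlog⟩ := H₁ Y (by omega) S₁
    (fun p hp => by
      rw [hS₁, Finset.mem_filter] at hp
      exact ⟨(hS p hp.1).1, hp.2.2.1, hp.2.1⟩)
  have hYd : (1 : ℝ) ≤ (Y : ℝ) ^ (δ / 128) := one_le_rpow hY1 (by positivity)
  have hSlog : log ((S₁.card : ℝ) + 1) ≤ log 2 + δ / 128 * L := by
    calc log ((S₁.card : ℝ) + 1) ≤ log (2 * (Y : ℝ) ^ (δ / 128)) := by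
          apply log_le_log (by positivity)
          linarith
      _ = log 2 + δ / 128 * L := by
          rw [log_mul (by norm_num) (by positivity), log_rpow hYpos]
  have hSlog0 : 0 ≤ log ((S₁.card : ℝ) + 1) := by
    apply log_nonneg
    have : (0 : ℝ) ≤ (S₁.card : ℝ) := Nat.cast_nonneg _
    linarith
  have hPc' : (P.card : ℝ) ≤ 4 * log 2 + 3 * δ / 64 * L + C₁ * l ^ 2 := by
    have : 3 * δ / 64 * L = 4 * (δ / 128 * L) + δ / 64 * L := by ring
    linarith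
  have hCl : 0 ≤ C₂ * l ^ 2 := by positivity
  have hCsplit : (C₁ + C₂) * l ^ 2 = C₁ * l ^ 2 + C₂ * l ^ 2 := by ring
  have hδL : δ / 16 * L ≤ L := by
    have := mul_le_mul_of_nonneg_right (show δ / 16 ≤ 1 by linarith only [hδ2]) hLpos.le
    linarith only [this]
  have hPL : (P.card : ℝ) ≤ L := by linarith
  -- the size of `n`
  have hY12 : (1 : ℝ) ≤ (Y : ℝ) ^ (1 / 2 - δ) := one_le_rpow hY1 (by linarith)
  have hS₀3 : 2 * (S₀.card : ℝ) + 1 ≤ 3 * (Y : ℝ) ^ (1 / 2 - δ) := by linarith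
  have hS₀pos : (0 : ℝ) < 2 * (S₀.card : ℝ) + 1 := by positivity
  have hlog3 : log 3 ≤ 2 := by
    have := log_le_sub_one_of_pos (show (0 : ℝ) < 3 by norm_num)
    linarith
  have hlog30 : 0 ≤ log 3 := log_nonneg (by norm_num)
  have hnL : (n : ℝ) ≤ L + 5 := by
    have h1 : log (2 * (S₀.card : ℝ) + 1) ≤ log 3 + (1 / 2 - δ) * L := by
      calc log (2 * (S₀.card : ℝ) + 1) ≤ log (3 * (Y : ℝ) ^ (1 / 2 - δ)) :=
            log_le_log hS₀pos hS₀3
        _ = log 3 + (1 / 2 - δ) * L := by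
            rw [log_mul (by norm_num) (by positivity), log_rpow hYpos]
    have h2 : (1 / 2 - δ) * L ≤ 1 / 2 * L := mul_le_mul_of_nonneg_right (by linarith only [hδ]) hLpos.le
    linarith only [h1, h2, hn2, hlog3]
  have h2n : (2 : ℝ) ^ n ≤ 18 * (Y : ℝ) ^ (1 / 2 - 15 * δ / 16) := by
    refine hn3.trans ?_
    have h1 : (2 * (S₀.card : ℝ) + 1) ^ (1 + 4 * η) ≤ (3 * (Y : ℝ) ^ (1 / 2 - δ)) ^ (1 + 4 * η) :=
      rpow_le_rpow hS₀pos.le hS₀3 (by positivity)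
    have h2 : (3 * (Y : ℝ) ^ (1 / 2 - δ)) ^ (1 + 4 * η) =
        (3 : ℝ) ^ (1 + 4 * η) * (Y : ℝ) ^ ((1 / 2 - δ) * (1 + 4 * η)) := by
      rw [mul_rpow (by norm_num) (by positivity), ← rpow_mul hYpos.le]
    have h3 : (3 : ℝ) ^ (1 + 4 * η) ≤ 9 := by
      calc (3 : ℝ) ^ (1 + 4 * η) ≤ (3 : ℝ) ^ (2 : ℝ) :=
            rpow_le_rpow_of_exponent_le (by norm_num) (by linarith)
        _ = 9 := by norm_num
    have h4 : (Y : ℝ) ^ ((1 / 2 - δ) * (1 + 4 * η)) ≤ (Y : ℝ) ^ (1 / 2 - 15 * δ / 16) := by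
      apply rpow_le_rpow_of_exponent_le hY1
      rw [hηdef]
      nlinarith only [sq_nonneg δ, hδ]
    have h5 : (0 : ℝ) ≤ (Y : ℝ) ^ ((1 / 2 - δ) * (1 + 4 * η)) := by positivity
    calc 2 * (2 * (S₀.card : ℝ) + 1) ^ (1 + 4 * η)
        ≤ 2 * ((3 : ℝ) ^ (1 + 4 * η) * (Y : ℝ) ^ ((1 / 2 - δ) * (1 + 4 * η))) := by
          rw [← h2]
          linarith
      _ ≤ 2 * (9 * (Y : ℝ) ^ (1 / 2 - 15 * δ / 16)) := by
          refine mul_le_mul_of_nonneg_left ?_ (by norm_num)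
          exact mul_le_mul h3 h4 h5 (by norm_num)
      _ = _ := by ring
  have h2θn : (2 : ℝ) ^ n * (1 / 2 + η) ^ n ≤ 2 * (Y : ℝ) ^ (δ / 16) := by
    have h1 : (2 : ℝ) ^ n * (1 / 2 + η) ^ n = (1 + 2 * η) ^ n := by
      rw [← mul_pow]
      congr 1
      ring
    have h2 : (1 + 2 * η) ^ n ≤ exp (2 * η) ^ n := by
      apply pow_le_pow_left₀ (by positivity)
      have := add_one_le_exp (2 * η)
      linarith
    have h3 : exp (2 * η) ^ n = exp (2 * η * n) := by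
      rw [mul_comm (2 * η) (n : ℝ), exp_nat_mul]
    have h4 : exp (2 * η * n) ≤ exp (2 * η * L + 1 / 2) := by
      apply exp_le_exp.2
      have h5 : 2 * η * n ≤ 2 * η * (L + 5) := mul_le_mul_of_nonneg_left hnL (by positivity)
      linarith only [h5, hη2]
    have h5 : exp (1 / 2 : ℝ) ≤ 2 := by
      have h6 : exp (1 / 2 : ℝ) ^ 2 = exp 1 := by
        rw [← exp_nat_mul]
        norm_num
      have h7 := exp_one_lt_d9
      have h8 := exp_pos (1 / 2 : ℝ)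
      nlinarith only [h6, h7, h8]
    rw [h1]
    calc (1 + 2 * η) ^ n ≤ exp (2 * η * L + 1 / 2) := by
          rw [h3] at h2
          exact h2.trans h4
      _ = exp (L * (δ / 16)) * exp (1 / 2) := by
          rw [exp_add, hηdef]
          congr 2
          ring
      _ ≤ exp (L * (δ / 16)) * 2 := mul_le_mul_of_nonneg_left h5 (exp_pos _).le
      _ = 2 * (Y : ℝ) ^ (δ / 16) := by rw [hYrpow, mul_comm]
  -- the second stage
  set T'' := (T' ∪ (T ∪ P) ∪ B ∪ {2, 11}).filter (fun p => p.Prime ∧ p % 3 = 2) with hT''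
  have hT''mem : ∀ p ∈ T'', p.Prime ∧ p % 3 = 2 ∧ p ≤ Y := by
    intro p hp
    rw [hT'', Finset.mem_filter] at hp
    refine ⟨hp.2.1, hp.2.2, ?_⟩
    have hp1 := hp.1
    simp only [Finset.mem_union, Finset.mem_insert, Finset.mem_singleton] at hp1
    rcases hp1 with ((hp1 | (hp1 | hp1)) | hp1) | hp1
    · have := hTS' hp1
      rw [hS₁, Finset.mem_filter] at this
      exact this.2.1
    · exact ((hTprime p hp1).2.2).trans hzY
    · exact (hP p hp1).2.2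
    · have : p ≤ B.sup id := Finset.le_sup (f := id) hp1
      omega
    · omega
  have hTcR : (T.card : ℝ) ≤ L + 5 := le_trans (by exact_mod_cast hTc) hnL
  have hT''card : (T''.card : ℝ) ≤ L ^ 7 := by
    have c1 : T''.card ≤ T'.card + (T.card + P.card) + B.card + 2 := by
      calc T''.card ≤ (T' ∪ (T ∪ P) ∪ B ∪ {2, 11}).card := Finset.card_filter_le _ _
        _ ≤ (T' ∪ (T ∪ P) ∪ B).card + ({2, 11} : Finset ℕ).card := Finset.card_union_le _ _
        _ ≤ (T' ∪ (T ∪ P) ∪ B).card + 2 := by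
            have : ({2, 11} : Finset ℕ).card ≤ 2 := Finset.card_le_two
            omega
        _ ≤ _ := by
            have i1 := Finset.card_union_le (T' ∪ (T ∪ P)) B
            have i2 := Finset.card_union_le T' (T ∪ P)
            have i3 := Finset.card_union_le T P
            omega
    have c2 : (T''.card : ℝ) ≤ T'.card + (T.card + P.card) + B.card + 2 := by exact_mod_cast c1
    linarith
  obtain ⟨M₂, hM₂pos, hM₂p, hM₂k, hM₂w, hM₂log⟩ := H₂ Y (by omega) T'' hT''mem hT''card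
  set Q := T ∪ P with hQ
  have hQp : ∀ q ∈ Q, q.Prime ∧ ¬ q ∣ 42 := by
    intro q hq
    rw [hQ, Finset.mem_union] at hq
    rcases hq with hq | hq
    · exact ⟨(hTprime q hq).1, (hTprime q hq).2.1⟩
    · exact ⟨(hP q hq).1, (hP q hq).2.1⟩
  set M₁ := ∏ q ∈ Q, q with hM₁
  have hM₁pos : 0 < M₁ := Finset.prod_pos (fun q hq => (hQp q hq).1.pos)
  have hdiv : ∀ r : ℕ, r.Prime → r ∣ 42 → ¬ r ∣ M₁ * M₂ := by
    intro r hr hr42 h
    rcases (hr.dvd_mul).1 h with h | h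
    · rw [hM₁] at h
      obtain ⟨q, hq, hrq⟩ := (Prime.dvd_finsetProd_iff hr.prime _).1 h
      have : r = q := (Nat.prime_dvd_prime_iff_eq hr (hQp q hq).1).1 hrq
      exact (hQp q hq).2 (this ▸ hr42)
    · exact (hM₂p r hr h).2 hr42
  have hQkill : ∀ p : ℕ, ∀ q ∈ Q, jacobiSym (-(p : ℤ)) q = -1 → KilledBy p (M₁ * M₂) := by
    intro p q hq hqj
    refine ⟨q, (hQp q hq).1, (Finset.dvd_prod_of_mem _ hq).mul_right _, ?_, hqj⟩
    rintro rfl
    exact (hQp 2 hq).2 (by norm_num)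
  have hcardM : (M₁ * M₂).primeFactors.card ≤ Q.card + M₂.primeFactors.card := by
    rw [Nat.primeFactors_mul hM₁pos.ne' hM₂pos.ne']
    have : M₁.primeFactors ⊆ Q := by
      intro r hr
      have hr' := Nat.prime_of_mem_primeFactors hr
      have hrd := Nat.dvd_of_mem_primeFactors hr
      rw [hM₁] at hrd
      obtain ⟨q, hq, hrq⟩ := (Prime.dvd_finsetProd_iff hr'.prime _).1 hrd
      rw [(Nat.prime_dvd_prime_iff_eq hr' (hQp q hq).1).1 hrq]
      exact hq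
    exact (Finset.card_union_le _ _).trans (Nat.add_le_add_right (Finset.card_le_card this) _)
  have h2M : (2 : ℝ) ^ (M₁ * M₂).primeFactors.card ≤ (Y : ℝ) ^ (δ / 16) * 2 ^ n := by
    have c0 : (M₁ * M₂).primeFactors.card ≤ (P.card + M₂.primeFactors.card) + n := by
      have : Q.card ≤ T.card + P.card := Finset.card_union_le _ _
      omega
    calc (2 : ℝ) ^ (M₁ * M₂).primeFactors.card ≤ (2 : ℝ) ^ ((P.card + M₂.primeFactors.card) + n) :=
          pow_le_pow_right₀ (by norm_num) c0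
      _ = (2 : ℝ) ^ (P.card + M₂.primeFactors.card) * 2 ^ n := pow_add _ _ _
      _ ≤ (Y : ℝ) ^ (δ / 16) * 2 ^ n := by
          refine mul_le_mul_of_nonneg_right ?_ (by positivity)
          rw [← rpow_natCast, rpow_def_of_pos (by norm_num), hYrpow]
          apply exp_le_exp.2
          push_cast
          have c2 : (P.card : ℝ) + (M₂.primeFactors.card : ℝ) ≤ δ / 16 * L := by linarith
          have c3 : (0 : ℝ) ≤ (P.card : ℝ) + (M₂.primeFactors.card : ℝ) := by positivity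
          have c4 : log 2 * ((P.card : ℝ) + (M₂.primeFactors.card : ℝ)) ≤
              1 * ((P.card : ℝ) + (M₂.primeFactors.card : ℝ)) :=
            mul_le_mul_of_nonneg_right (by linarith only [hlog2]) c3
          linarith only [c2, c4]
  have h2M0 : (0 : ℝ) < (2 : ℝ) ^ (M₁ * M₂).primeFactors.card := by positivity
  have h2M' : (2 : ℝ) ^ (M₁ * M₂).primeFactors.card ≤ 18 * (Y : ℝ) ^ (1 / 2 - 7 * δ / 8) := by
    refine h2M.trans ?_
    calc (Y : ℝ) ^ (δ / 16) * 2 ^ n ≤ (Y : ℝ) ^ (δ / 16) * (18 * (Y : ℝ) ^ (1 / 2 - 15 * δ / 16)) :=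
          mul_le_mul_of_nonneg_left h2n (by positivity)
      _ = 18 * ((Y : ℝ) ^ (δ / 16) * (Y : ℝ) ^ (1 / 2 - 15 * δ / 16)) := by ring
      _ = 18 * (Y : ℝ) ^ (1 / 2 - 7 * δ / 8) := by
          rw [← rpow_add hYpos]
          congr 2
          ring
  refine ⟨M₁ * M₂, Nat.mul_pos hM₁pos hM₂pos, ?_, hdiv 3 Nat.prime_three (by norm_num),
    hdiv 7 (by norm_num) (by norm_num), ?_, ?_, ?_, ?_⟩
  · rw [← Nat.not_even_iff_odd, even_iff_two_dvd]
    exact hdiv 2 Nat.prime_two (by norm_num)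
  · intro p hp hp3 hcase
    have hT'k : p ∈ T' ∪ Q ∪ B ∪ {2, 11} → KilledBy p (M₁ * M₂) := by
      intro hmem
      exact (hM₂k p (Finset.mem_filter.2 ⟨hmem, hp, hp3⟩)).mono' (Dvd.intro_left _ rfl)
    rcases hcase with hcase | hcase | hcase
    · by_cases hp2 : p = 2
      · apply hT'k
        simp [hp2]
      · by_cases hg : good p
        · obtain ⟨q, hq, hqj⟩ := hTS0 p (Finset.mem_filter.2 ⟨hcase.1, hcase.2, hp2, hg⟩)
          exact hQkill p q (Finset.mem_union_left _ hq) hqj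
        · by_cases hpT : p ∈ T'
          · apply hT'k
            simp [hpT]
          · obtain ⟨q, hq, hqj⟩ := hkill p (Finset.mem_filter.2 ⟨hcase.1, hcase.2, hp2, hg⟩) hpT
            exact hQkill p q (Finset.mem_union_right _ hq) hqj
    · apply hT'k
      simp [hcase]
    · rcases (hp.dvd_mul).1 hcase with h | h
      · have h22 : p ∣ 2 * 11 := by simpa using h
        rcases (hp.dvd_mul).1 h22 with h | h
        · apply hT'k
          rw [(Nat.prime_dvd_prime_iff_eq hp Nat.prime_two).1 h]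
          simp
        · apply hT'k
          rw [(Nat.prime_dvd_prime_iff_eq hp (by norm_num)).1 h]
          simp
      · rcases (hp.dvd_mul).1 h with h | h
        · rw [hM₁] at h
          obtain ⟨q, hq, hpq⟩ := (Prime.dvd_finsetProd_iff hp.prime _).1 h
          have : p = q := (Nat.prime_dvd_prime_iff_eq hp (hQp q hq).1).1 hpq
          apply hT'k
          rw [this]
          simp [hq]
        · have := (hM₂p p hp h).1
          omega
  · have hzlog : log (z : ℝ) ≤ 1 + b * l := by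
      have hLb1 : 1 ≤ L ^ b := by linarith
      have h1 : (z : ℝ) ≤ 2 * L ^ b := by
        rw [hz]
        have := Nat.ceil_lt_add_one (show (0 : ℝ) ≤ L ^ b by positivity)
        linarith
      have hz0 : (0 : ℝ) < z := by
        have : 0 < z := by omega
        exact_mod_cast this
      calc log (z : ℝ) ≤ log (2 * L ^ b) := log_le_log hz0 h1
        _ = log 2 + b * l := by rw [log_mul (by norm_num) (by positivity), log_rpow hLpos]
        _ ≤ 1 + b * l := by linarith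
    have hlog_prod : ∀ A : Finset ℕ, (∀ q ∈ A, q.Prime) → log (∏ q ∈ A, (q : ℝ)) = ∑ q ∈ A, log (q : ℝ) := by
      intro A hA
      apply log_prod
      intro q hq
      have := (hA q hq).pos
      positivity
    have hM₁log : log (M₁ : ℝ) ≤ ∑ q ∈ T, log (q : ℝ) + log (∏ q ∈ P, (q : ℝ)) := by
      rw [hM₁, Nat.cast_prod, hlog_prod Q (fun q hq => (hQp q hq).1),
        hlog_prod P (fun q hq => (hP q hq).1)]
      have h1 := Finset.sum_union_inter (s₁ := T) (s₂ := P) (f := fun q : ℕ => log (q : ℝ))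
      have h2 : 0 ≤ ∑ q ∈ T ∩ P, log (q : ℝ) := Finset.sum_nonneg fun q _ => log_natCast_nonneg q
      linarith
    have hTlog : ∑ q ∈ T, log (q : ℝ) ≤ (2 * L) * (1 + b * l) := by
      calc ∑ q ∈ T, log (q : ℝ) ≤ ∑ _q ∈ T, (1 + b * l) := by
            apply Finset.sum_le_sum
            intro q hq
            refine le_trans ?_ hzlog
            have h1 := (hTprime q hq).1.pos
            apply log_le_log (by exact_mod_cast h1)
            exact_mod_cast (hTprime q hq).2.2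
        _ = (T.card : ℝ) * (1 + b * l) := by rw [Finset.sum_const, nsmul_eq_mul]
        _ ≤ (2 * L) * (1 + b * l) := by
            apply mul_le_mul_of_nonneg_right _ (by positivity)
            linarith
    have c1 : log ((M₁ * M₂ : ℕ) : ℝ) = log (M₁ : ℝ) + log M₂ := by
      rw [Nat.cast_mul, log_mul (by positivity) (by positivity)]
    have hSL : log ((S₁.card : ℝ) + 1) ≤ L := by
      have h3 : δ / 128 * L ≤ 1 / 2 * L :=
        mul_le_mul_of_nonneg_right (by linarith only [hδ2]) hLpos.le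
      linarith
    have hll : l ≤ l ^ 2 := le_self_pow₀ hl (by norm_num)
    have hl2 : 1 ≤ l ^ 2 := one_le_pow₀ hl
    have c2 : C₁ * log ((S₁.card : ℝ) + 1) * l ≤ C₁ * L * l ^ 2 := by
      apply mul_le_mul _ hll (by linarith) (by positivity)
      exact mul_le_mul_of_nonneg_left hSL hC₁.le
    have c3 : C₂ * L * l ≤ C₂ * L * l ^ 2 := mul_le_mul_of_nonneg_left hll (by positivity)
    have c4 : (2 * L) * (1 + b * l) ≤ (2 * L) * ((1 + b) * l ^ 2) := by
      apply mul_le_mul_of_nonneg_left _ (by positivity)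
      have c5 : b * l ≤ b * l ^ 2 := mul_le_mul_of_nonneg_left hll (by linarith only [hb])
      linarith only [c5, hl2]
    rw [c1]
    calc log (M₁ : ℝ) + log M₂
        ≤ ((2 * L) * ((1 + b) * l ^ 2) + (C₁ * L * l ^ 2 + C₁ * L * l ^ 2)) + C₂ * L * l ^ 2 := by
          linarith
      _ = (2 * (1 + b) + 2 * C₁ + C₂) * L * l ^ 2 := by ring
  · refine h2M'.trans ?_
    have h1 : (18 : ℝ) ≤ (Y : ℝ) ^ (1 / 2 : ℝ) := by
      rw [hYrpow]
      have h2 : exp 3 ≤ exp (L * (1 / 2)) := exp_le_exp.2 (by linarith)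
      have h3 : exp 3 = exp 1 ^ 3 := by
        rw [← exp_nat_mul]
        norm_num
      have h4 := exp_one_gt_d9
      have h5 : (2.7 : ℝ) ^ 3 ≤ exp 1 ^ 3 := pow_le_pow_left₀ (by norm_num) (by linarith) 3
      have h6 : (18 : ℝ) ≤ (2.7 : ℝ) ^ 3 := by norm_num
      linarith
    have h2 : (Y : ℝ) ^ (1 / 2 - 7 * δ / 8) ≤ (Y : ℝ) ^ (1 / 2 : ℝ) :=
      rpow_le_rpow_of_exponent_le hY1 (by linarith)
    calc 18 * (Y : ℝ) ^ (1 / 2 - 7 * δ / 8) ≤ (Y : ℝ) ^ (1 / 2 : ℝ) * (Y : ℝ) ^ (1 / 2 : ℝ) :=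
          mul_le_mul h1 h2 (by positivity) (by positivity)
      _ = Y := by
          rw [← rpow_add hYpos]
          norm_num
  · have hsub : ∑ p ∈ S.filter (fun p => Y < p ∧ ¬ KilledBy p (M₁ * M₂)), 1 / √(p : ℝ) ≤
        ∑ p ∈ R₀.filter (fun s : ℕ => ∀ t ∈ T, ¬ jacobiSym (-(s : ℤ)) t = -1), 1 / √(p : ℝ) +
          ∑ p ∈ R₁, 1 / √(p : ℝ) := by
      have h1 : S.filter (fun p => Y < p ∧ ¬ KilledBy p (M₁ * M₂)) ⊆
          (R₀.filter (fun s : ℕ => ∀ t ∈ T, ¬ jacobiSym (-(s : ℤ)) t = -1)) ∪ R₁ := by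
        intro p hp
        rw [Finset.mem_filter] at hp
        rw [Finset.mem_union]
        by_cases hg : good p
        · left
          refine Finset.mem_filter.2 ⟨Finset.mem_filter.2 ⟨hp.1, hp.2.1, hg⟩, ?_⟩
          intro t ht hj
          exact hp.2.2 (hQkill p t (Finset.mem_union_left _ ht) hj)
        · right
          exact Finset.mem_filter.2 ⟨hp.1, hp.2.1, hg⟩
      have h2 : ∀ p : ℕ, 0 ≤ 1 / √(p : ℝ) := fun p => by positivity
      have h3 := Finset.sum_union_inter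
        (s₁ := R₀.filter (fun s : ℕ => ∀ t ∈ T, ¬ jacobiSym (-(s : ℤ)) t = -1)) (s₂ := R₁)
        (f := fun p : ℕ => 1 / √(p : ℝ))
      have h4 : 0 ≤ ∑ p ∈ (R₀.filter (fun s : ℕ => ∀ t ∈ T, ¬ jacobiSym (-(s : ℤ)) t = -1)) ∩ R₁,
        1 / √(p : ℝ) := Finset.sum_nonneg fun p _ => h2 p
      have h5 := Finset.sum_le_sum_of_subset_of_nonneg h1 (f := fun p : ℕ => 1 / √(p : ℝ))
        (fun p _ _ => h2 p)
      linarith
    set X : ℝ := 1 + log Z with hX
    have hX0 : 0 < X := by positivity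
    have hXL : X ≤ 1 + L ^ 2 := by linarith
    have hθn0 : (0 : ℝ) ≤ (1 / 2 + η) ^ n := by positivity
    have hA : (2 : ℝ) ^ (M₁ * M₂).primeFactors.card *
        ∑ p ∈ R₀.filter (fun s : ℕ => ∀ t ∈ T, ¬ jacobiSym (-(s : ℤ)) t = -1), 1 / √(p : ℝ) ≤
        16 * X * (Y : ℝ) ^ (-(3 * δ / 4)) := by
      have h1 : ∑ p ∈ R₀.filter (fun s : ℕ => ∀ t ∈ T, ¬ jacobiSym (-(s : ℤ)) t = -1), 1 / √(p : ℝ) ≤
          2 * (1 / 2 + η) ^ n * (4 * X * (Y : ℝ) ^ (-δ)) := by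
        refine hTR.trans (mul_le_mul_of_nonneg_left ?_ (by positivity))
        refine hR₀sum.trans (le_of_eq ?_)
        rw [mul_one]
        congr 2
        ring
      have h0 : (0 : ℝ) ≤ 2 * (1 / 2 + η) ^ n * (4 * X * (Y : ℝ) ^ (-δ)) := by positivity
      calc _ ≤ ((Y : ℝ) ^ (δ / 16) * 2 ^ n) * (2 * (1 / 2 + η) ^ n * (4 * X * (Y : ℝ) ^ (-δ))) :=
            mul_le_mul h2M h1 (Finset.sum_nonneg fun p _ => by positivity) (by positivity)
        _ = ((2 : ℝ) ^ n * (1 / 2 + η) ^ n) * (8 * X * ((Y : ℝ) ^ (δ / 16) * (Y : ℝ) ^ (-δ))) := by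
            ring
        _ ≤ (2 * (Y : ℝ) ^ (δ / 16)) * (8 * X * ((Y : ℝ) ^ (δ / 16) * (Y : ℝ) ^ (-δ))) :=
            mul_le_mul_of_nonneg_right h2θn (by positivity)
        _ = 16 * X * ((Y : ℝ) ^ (δ / 16) * ((Y : ℝ) ^ (δ / 16) * (Y : ℝ) ^ (-δ))) := by ring
        _ ≤ 16 * X * (Y : ℝ) ^ (-(3 * δ / 4)) := by
            refine mul_le_mul_of_nonneg_left ?_ (by positivity)
            rw [← rpow_add hYpos, ← rpow_add hYpos]
            exact rpow_le_rpow_of_exponent_le hY1 (by linarith)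
    have hB : (2 : ℝ) ^ (M₁ * M₂).primeFactors.card * ∑ p ∈ R₁, 1 / √(p : ℝ) ≤
        72 * X * (Y : ℝ) ^ (-(3 * δ / 4)) := by
      calc _ ≤ (18 * (Y : ℝ) ^ (1 / 2 - 7 * δ / 8)) * (4 * 1 * X * (Y : ℝ) ^ (δ / 128 - 1 / 2)) :=
            mul_le_mul h2M' hR₁sum (Finset.sum_nonneg fun p _ => by positivity) (by positivity)
        _ = 72 * X * ((Y : ℝ) ^ (1 / 2 - 7 * δ / 8) * (Y : ℝ) ^ (δ / 128 - 1 / 2)) := by ring
        _ ≤ 72 * X * (Y : ℝ) ^ (-(3 * δ / 4)) := by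
            refine mul_le_mul_of_nonneg_left ?_ (by positivity)
            rw [← rpow_add hYpos]
            exact rpow_le_rpow_of_exponent_le hY1 (by linarith)
    calc (2 : ℝ) ^ (M₁ * M₂).primeFactors.card *
          ∑ p ∈ S.filter (fun p => Y < p ∧ ¬ KilledBy p (M₁ * M₂)), 1 / √(p : ℝ)
        ≤ (2 : ℝ) ^ (M₁ * M₂).primeFactors.card *
          (∑ p ∈ R₀.filter (fun s : ℕ => ∀ t ∈ T, ¬ jacobiSym (-(s : ℤ)) t = -1), 1 / √(p : ℝ) +
            ∑ p ∈ R₁, 1 / √(p : ℝ)) := mul_le_mul_of_nonneg_left hsub h2M0.le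
      _ ≤ 16 * X * (Y : ℝ) ^ (-(3 * δ / 4)) + 72 * X * (Y : ℝ) ^ (-(3 * δ / 4)) := by
          rw [mul_add]
          linarith
      _ = (88 * X) * (Y : ℝ) ^ (-(3 * δ / 4)) := by ring
      _ ≤ (exp (δ / 2 * L)) * (Y : ℝ) ^ (-(3 * δ / 4)) := by
          refine mul_le_mul_of_nonneg_right ?_ (by positivity)
          linarith
      _ = (Y : ℝ) ^ (-(δ / 4)) := by
          rw [hYrpow, hYrpow, ← exp_add]
          congr 1
          ring

end LT
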