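import Mathlib

/-!
# MP_f1937f_nt, theorem C: representations by `a² + a b + b²` (piece KREPS)

`k_reps`: fix `(a, b) ∈ S`. For `(a', b') ∈ S` let `X = a b' - a' b`, `Y = a b' + a' b + b b'` (integers). Then
`m ∣ X Y` (`X Y = b'² (a² + a b + b²) - b² (a'² + a' b' + b'²)`), and a common divisor of `m, X, Y` divides 3 times a
power of units, hence is 1: `b`, `b'` are prime to `m`; modulo `g = gcd(m, X, Y)`: `2 a b' + b b' = 0`, so `2 a + b = 0`,
`(2a+b)² = 4 m - 3 b²`, `g ∣ 3 b²`, `g ∣ 3`, `3 ∤ m`. So `gcd(m, X) gcd(m, Y) = m`. The map `(a', b') ↦ gcd(m, X)` to the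
divisors of `m` is injective: if `(a', b')`, `(a'', b'')` give the same `d` (so the same `e = m / d`), then modulo `d`:
`a b' = a' b`, `a b'' = a'' b`, so `b (a' b'' - a'' b') = a b' b'' - a b'' b' = 0`; modulo `e`: `a' b = -(a + b) b'`,
`a'' b = -(a + b) b''`, again `b (a' b'' - a'' b') = 0`; so `m ∣ a' b'' - a'' b'`, and `0 < a' b'', a'' b' < m`, so
`a' b'' = a'' b'` and by coprimality `(a', b') = (a'', b'')`.

`k_pf`: `q ∤ b` (else `q ∣ a`), so `t = a / b` in `ZMod q` satisfies `t² + t + 1 = 0`, `t ≠ 1` since `q ≠ 3`, so `t` has order 3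
in the group of units of order `q - 1`.
-/

namespace LT

private lemma kreps_mem {m a b : ℕ} (hab : Nat.Coprime a b) (h : a ^ 2 + a * b + b ^ 2 = m)
    {p : ℕ} (hp : p.Prime) (hpm : p ∣ m) : ¬ p ∣ b := by
  intro hb
  have h1 : p ∣ a ^ 2 + (a * b + b ^ 2) := by rw [← add_assoc, h]; exact hpm
  have h2 : p ∣ a * b + b ^ 2 :=
    dvd_add (dvd_mul_of_dvd_right hb a) (dvd_pow hb two_ne_zero)
  have h3 : p ∣ a ^ 2 := (Nat.dvd_add_left h2).1 h1
  have h4 : p ∣ a := hp.dvd_of_dvd_pow h3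
  have h5 := Nat.dvd_gcd h4 hb
  rw [hab] at h5
  exact hp.one_lt.ne' (Nat.dvd_one.1 h5)

private lemma kreps_cop {m a b : ℕ} (hab : Nat.Coprime a b) (h : a ^ 2 + a * b + b ^ 2 = m) :
    Nat.Coprime m b := by
  apply Nat.Coprime.symm
  apply Nat.coprime_of_dvd
  intro p hp hpb hpm
  exact kreps_mem hab h hp hpm hpb

private lemma kreps_lt {m a b a' b' : ℕ} (ha : 0 < a) (hb : 0 < b)
    (ha' : 0 < a') (hb' : 0 < b') (h : a ^ 2 + a * b + b ^ 2 = m)
    (h' : a' ^ 2 + a' * b' + b' ^ 2 = m) : a * b' < m := by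
  have h1 : a ^ 2 < m := by
    have : 0 < a * b := Nat.mul_pos ha hb
    nlinarith
  have h2 : b' ^ 2 < m := by
    have : 0 < a' * b' := Nat.mul_pos ha' hb'
    nlinarith
  by_contra hc
  push Not at hc
  have h3 : m * m ≤ (a * b') * (a * b') := Nat.mul_le_mul hc hc
  have h4 : (a * b') * (a * b') = a ^ 2 * b' ^ 2 := by ring
  have h5 : a ^ 2 * b' ^ 2 < m * m := by
    have hb2 : 0 < b' ^ 2 := by positivity
    calc a ^ 2 * b' ^ 2 < m * b' ^ 2 := Nat.mul_lt_mul_of_pos_right h1 hb2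
      _ ≤ m * m := Nat.mul_le_mul_left m h2.le
  omega

theorem k_reps {m : ℕ} (hm : 0 < m) (h3 : ¬ 3 ∣ m) (S : Finset (ℕ × ℕ))
    (hS : ∀ q ∈ S, 0 < q.1 ∧ 0 < q.2 ∧ Nat.Coprime q.1 q.2 ∧ q.1 ^ 2 + q.1 * q.2 + q.2 ^ 2 = m) :
    S.card ≤ m.divisors.card := by
  classical
  rcases S.eq_empty_or_nonempty with h0 | ⟨⟨a, b⟩, hab⟩
  · subst h0; simp
  obtain ⟨ha, hb, hcop, hsum⟩ := hS _ hab
  simp only at ha hb hcop hsum
  let X : ℕ × ℕ → ℤ := fun q => (a : ℤ) * q.2 - q.1 * b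
  let Y : ℕ × ℕ → ℤ := fun q => (a : ℤ) * q.2 + q.1 * b + b * q.2
  let d : ℕ × ℕ → ℕ := fun q => Int.gcd (m : ℤ) (X q)
  have hsumZ : (a : ℤ) ^ 2 + a * b + b ^ 2 = m := by exact_mod_cast hsum
  -- facts about one pair
  have hd : ∀ q, d q ∣ m := by
    intro q
    have : ((d q : ℕ) : ℤ) ∣ (m : ℤ) := Int.gcd_dvd_left _ _
    exact_mod_cast this
  have hdX : ∀ q, ((d q : ℕ) : ℤ) ∣ X q := fun q => Int.gcd_dvd_right _ _
  have hdpos : ∀ q, 0 < d q := fun q => Nat.pos_of_dvd_of_pos (hd q) hm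
  have hXY : ∀ q ∈ S, (m : ℤ) ∣ X q * Y q := by
    intro q hq
    obtain ⟨-, -, -, h⟩ := hS q hq
    have hZ : (q.1 : ℤ) ^ 2 + q.1 * q.2 + q.2 ^ 2 = m := by exact_mod_cast h
    refine ⟨(q.2 : ℤ) ^ 2 - b ^ 2, ?_⟩
    simp only [X, Y]
    linear_combination (q.2 : ℤ) ^ 2 * hsumZ - (b : ℤ) ^ 2 * hZ
  have heY : ∀ q ∈ S, ((m / d q : ℕ) : ℤ) ∣ Y q := by
    intro q hq
    have h1 := hXY q hq
    obtain ⟨x, hx⟩ := hdX q
    obtain ⟨e, he⟩ := hd q
    have hde : m / d q = e := by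
      rw [he]; exact Nat.mul_div_cancel_left e (hdpos q)
    rw [hde]
    have hdz : ((d q : ℕ) : ℤ) ≠ 0 := by
      have := hdpos q
      positivity
    have hcopr : IsCoprime (e : ℤ) x := by
      rw [Int.isCoprime_iff_gcd_eq_one]
      have h2 : Int.gcd (m : ℤ) (X q) = d q := rfl
      rw [hx, he] at h2
      push_cast at h2
      have h3 : Int.gcd ((d q : ℤ) * e) ((d q : ℤ) * x) = d q * Int.gcd e x := by
        rw [Int.gcd_mul_left]; simp
      rw [h3] at h2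
      have h4 : d q * Int.gcd e x = d q * 1 := by rw [h2, mul_one]
      exact Nat.eq_of_mul_eq_mul_left (hdpos q) h4
    rw [hx, he] at h1
    push_cast at h1
    have h5 : (e : ℤ) ∣ x * Y q := by
      have : (d q : ℤ) * e ∣ (d q : ℤ) * (x * Y q) := by
        rw [← mul_assoc]; exact h1
      exact (mul_dvd_mul_iff_left hdz).1 this
    exact hcopr.dvd_of_dvd_mul_left h5
  have hcopde : ∀ q ∈ S, Nat.Coprime (d q) (m / d q) := by
    intro q hq
    obtain ⟨-, -, hc, h⟩ := hS q hq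
    apply Nat.coprime_of_dvd
    intro p hp hpd hpe
    have hpm : p ∣ m := dvd_trans hpd (hd q)
    have hpX : (p : ℤ) ∣ X q := dvd_trans (by exact_mod_cast hpd) (hdX q)
    have hpY : (p : ℤ) ∣ Y q := dvd_trans (by exact_mod_cast hpe) (heY q hq)
    have h1 : (p : ℤ) ∣ (q.2 : ℤ) * (2 * a + b) := by
      have := dvd_add hpX hpY
      have e1 : X q + Y q = (q.2 : ℤ) * (2 * a + b) := by
        simp only [X, Y]; ring
      rwa [e1] at this
    have hpi : Prime (p : ℤ) := Nat.prime_iff_prime_int.1 hp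
    have h2 : (p : ℤ) ∣ 2 * a + b := by
      rcases hpi.dvd_or_dvd h1 with h' | h'
      · exact absurd (by exact_mod_cast h') (kreps_mem hc h hp hpm)
      · exact h'
    have h4 : (p : ℤ) ∣ 3 * (b : ℤ) ^ 2 := by
      have h5 : (p : ℤ) ∣ 4 * m - (2 * a + b) * (2 * a + b) :=
        dvd_sub (dvd_mul_of_dvd_right (by exact_mod_cast hpm) _) (dvd_mul_of_dvd_left h2 _)
      have e2 : 4 * (m : ℤ) - (2 * a + b) * (2 * a + b) = 3 * (b : ℤ) ^ 2 := by
        rw [← hsumZ]; ring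
      rwa [e2] at h5
    rcases hpi.dvd_or_dvd h4 with h' | h'
    · have h6 : p ∣ 3 := by exact_mod_cast h'
      have h7 : p = 3 := (Nat.prime_dvd_prime_iff_eq hp Nat.prime_three).1 h6
      exact h3 (h7 ▸ hpm)
    · have h6 : (p : ℤ) ∣ b := hpi.dvd_of_dvd_pow h'
      exact kreps_mem hcop hsum hp hpm (by exact_mod_cast h6)
  -- the map is injective
  apply Finset.card_le_card_of_injOn d
  · intro q _
    exact Finset.mem_coe.2 (Nat.mem_divisors.2 ⟨hd q, hm.ne'⟩)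
  · intro q hq q' hq' hdd
    have hq := Finset.mem_coe.1 hq
    have hq' := Finset.mem_coe.1 hq'
    obtain ⟨p1, p2, hc, h⟩ := hS q hq
    obtain ⟨p1', p2', hc', h'⟩ := hS q' hq'
    have hbm : IsCoprime (m : ℤ) (b : ℤ) := Nat.isCoprime_iff_coprime.2 (kreps_cop hcop hsum)
    set Δ : ℤ := (q'.1 : ℤ) * q.2 - q.1 * q'.2 with hΔ
    have hd1 : ((d q : ℕ) : ℤ) ∣ b * Δ := by
      have hx' : ((d q : ℕ) : ℤ) ∣ X q' := by rw [hdd]; exact hdX q'
      have h1 := dvd_sub (dvd_mul_of_dvd_right (hdX q) (q'.2 : ℤ))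
        (dvd_mul_of_dvd_right hx' (q.2 : ℤ))
      have e1 : (q'.2 : ℤ) * X q - q.2 * X q' = b * Δ := by
        simp only [X, hΔ]; ring
      rwa [e1] at h1
    have he1 : ((m / d q : ℕ) : ℤ) ∣ b * Δ := by
      have hx' : ((m / d q : ℕ) : ℤ) ∣ Y q' := by rw [hdd]; exact heY q' hq'
      have h1 := dvd_sub (dvd_mul_of_dvd_right (heY q hq) (q'.2 : ℤ))
        (dvd_mul_of_dvd_right hx' (q.2 : ℤ))
      have e1 : (q'.2 : ℤ) * Y q - q.2 * Y q' = -(b * Δ) := by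
        simp only [Y, hΔ]; ring
      rw [e1, dvd_neg] at h1
      exact h1
    have hm1 : (m : ℤ) ∣ b * Δ := by
      have h1 : IsCoprime ((d q : ℕ) : ℤ) ((m / d q : ℕ) : ℤ) :=
        Nat.isCoprime_iff_coprime.2 (hcopde q hq)
      have h2 := h1.mul_dvd hd1 he1
      have h4 : ((d q : ℕ) : ℤ) * ((m / d q : ℕ) : ℤ) = m := by
        exact_mod_cast Nat.mul_div_cancel' (hd q)
      rwa [h4] at h2
    have hm2 : (m : ℤ) ∣ Δ := hbm.dvd_of_dvd_mul_left hm1
    have hl1 := kreps_lt p1 p2 p1' p2' h h'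
    have hl2 := kreps_lt p1' p2' p1 p2 h' h
    have hΔ0 : Δ = 0 := by
      apply Int.eq_zero_of_abs_lt_dvd hm2
      rw [abs_lt]
      have e1 : ((q.1 : ℤ) * q'.2) < m := by exact_mod_cast hl1
      have e2 : ((q'.1 : ℤ) * q.2) < m := by exact_mod_cast hl2
      have e3 : (0 : ℤ) ≤ (q.1 : ℤ) * q'.2 := by positivity
      have e4 : (0 : ℤ) ≤ (q'.1 : ℤ) * q.2 := by positivity
      rw [hΔ]
      constructor <;> linarith
    have heq : q'.1 * q.2 = q.1 * q'.2 := by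
      have : (q'.1 : ℤ) * q.2 = q.1 * q'.2 := by linarith
      exact_mod_cast this
    have h5 : q.1 ∣ q'.1 := hc.dvd_of_dvd_mul_right ⟨q'.2, heq⟩
    have h6 : q'.1 ∣ q.1 := hc'.dvd_of_dvd_mul_right ⟨q.2, heq.symm⟩
    have h7 : q.1 = q'.1 := Nat.dvd_antisymm h5 h6
    have h8 : q.2 = q'.2 := by
      rw [h7] at heq
      exact Nat.eq_of_mul_eq_mul_left p1' heq
    exact Prod.ext h7 h8

theorem k_pf {a b q : ℕ} (hab : Nat.Coprime a b) (hq : q.Prime) (h3 : q ≠ 3)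
    (h : q ∣ a ^ 2 + a * b + b ^ 2) : q % 3 = 1 := by
  have : Fact q.Prime := ⟨hq⟩
  have : Fact (Nat.Prime 3) := ⟨Nat.prime_three⟩
  have hb : ¬ q ∣ b := kreps_mem hab rfl hq h
  have hb0 : (b : ZMod q) ≠ 0 := by
    rw [Ne, ZMod.natCast_eq_zero_iff]; exact hb
  have h0 : (a : ZMod q) ^ 2 + a * b + b ^ 2 = 0 := by
    have := (ZMod.natCast_eq_zero_iff (a ^ 2 + a * b + b ^ 2) q).2 h
    push_cast at this
    exact this
  set t : ZMod q := a / b with ht
  have htb : t * b = a := div_mul_cancel₀ _ hb0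
  have h1 : t ^ 2 + t + 1 = 0 := by
    have h2 : (t ^ 2 + t + 1) * (b : ZMod q) ^ 2 = 0 := by
      rw [← htb] at h0
      linear_combination h0
    rcases mul_eq_zero.1 h2 with h' | h'
    · exact h'
    · exact absurd (pow_eq_zero_iff two_ne_zero |>.1 h') hb0
  have h2 : t ^ 3 = 1 := by linear_combination (t - 1) * h1
  have h4 : t ≠ 1 := by
    intro h5
    rw [h5] at h1
    have h6 : ((3 : ℕ) : ZMod q) = 0 := by
      push_cast
      linear_combination h1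
    rw [ZMod.natCast_eq_zero_iff] at h6
    exact h3 ((Nat.prime_dvd_prime_iff_eq hq Nat.prime_three).1 h6)
  have h5 : orderOf t = 3 := orderOf_eq_prime h2 h4
  have ht0 : t ≠ 0 := by
    intro h6
    rw [h6] at h2
    simp at h2
  have h6 : orderOf t ∣ q - 1 := orderOf_dvd_of_pow_eq_one (ZMod.pow_card_sub_one_eq_one ht0)
  rw [h5] at h6
  have := hq.two_le
  omega

end LT
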