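import Mathlib

/-!
# MP_f1937f_nt, theorem C: the second moment of the number of divisors (piece KTAU)

Proof. `τ(m)² = #{(d, e) : d ∣ m, e ∣ m}`, so the sum is `∑_{d, e ≤ N} #{m ≤ N : lcm(d, e) ∣ m} ≤ ∑_{d, e ≤ N} N / lcm(d, e)`
`= N ∑ gcd(d, e) / (d e) ≤ N ∑_{g ≤ N} ∑_{d', e' ≤ N} g / (g² d' e')` (write `d = g d'`, `e = g e'`, injective)
`= N H(N)³`, `H(N) ≤ 1 + log N` (`harmonic_le_one_add_log`).
-/

namespace LT

private lemma kt_card (N : ℕ) :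
    ∑ m ∈ Finset.Icc 1 N, (m.divisors.card) ^ 2 ≤
      ∑ p ∈ (Finset.Icc 1 N ×ˢ (Finset.Icc 1 N ×ˢ Finset.Icc 1 N)), N / (p.1 * p.2.1 * p.2.2) := by
  have h1 : ∑ m ∈ Finset.Icc 1 N, (m.divisors.card) ^ 2 =
      ((Finset.Icc 1 N).sigma (fun m => m.divisors ×ˢ m.divisors)).card := by
    rw [Finset.card_sigma]
    apply Finset.sum_congr rfl
    intro m _
    rw [Finset.card_product, sq]
  have h2 : ∑ p ∈ (Finset.Icc 1 N ×ˢ (Finset.Icc 1 N ×ˢ Finset.Icc 1 N)), N / (p.1 * p.2.1 * p.2.2)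
      = ((Finset.Icc 1 N ×ˢ (Finset.Icc 1 N ×ˢ Finset.Icc 1 N)).sigma
          (fun p => Finset.Icc 1 (N / (p.1 * p.2.1 * p.2.2)))).card := by
    rw [Finset.card_sigma]
    apply Finset.sum_congr rfl
    intro m _
    simp
  rw [h1, h2]
  -- the map
  have key : ∀ m d e : ℕ, 0 < m → d ∣ m → e ∣ m →
      0 < Nat.gcd d e ∧ Nat.gcd d e * (d / Nat.gcd d e) = d ∧ Nat.gcd d e * (e / Nat.gcd d e) = e ∧
      Nat.gcd d e * (d / Nat.gcd d e) * (e / Nat.gcd d e) *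
        (m / (Nat.gcd d e * (d / Nat.gcd d e) * (e / Nat.gcd d e))) = m := by
    intro m d e hm hd he
    have hd0 : 0 < d := Nat.pos_of_dvd_of_pos hd hm
    have hg : 0 < Nat.gcd d e := Nat.gcd_pos_of_pos_left _ hd0
    have e1 : Nat.gcd d e * (d / Nat.gcd d e) = d := Nat.mul_div_cancel' (Nat.gcd_dvd_left d e)
    have e2 : Nat.gcd d e * (e / Nat.gcd d e) = e := Nat.mul_div_cancel' (Nat.gcd_dvd_right d e)
    refine ⟨hg, e1, e2, ?_⟩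
    have e3 : Nat.gcd d e * (d / Nat.gcd d e) * (e / Nat.gcd d e) = Nat.lcm d e := by
      rw [e1, Nat.lcm, Nat.mul_div_assoc _ (Nat.gcd_dvd_right d e)]
    rw [e3]
    exact Nat.mul_div_cancel' (Nat.lcm_dvd hd he)
  apply Finset.card_le_card_of_injOn
    (fun x : (Σ _ : ℕ, ℕ × ℕ) =>
      (⟨(Nat.gcd x.2.1 x.2.2, (x.2.1 / Nat.gcd x.2.1 x.2.2, x.2.2 / Nat.gcd x.2.1 x.2.2)),
        x.1 / (Nat.gcd x.2.1 x.2.2 * (x.2.1 / Nat.gcd x.2.1 x.2.2) *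
          (x.2.2 / Nat.gcd x.2.1 x.2.2))⟩ : (Σ _ : ℕ × (ℕ × ℕ), ℕ)))
  · rintro ⟨m, d, e⟩ hx
    simp only [Finset.coe_sigma, Set.mem_sigma_iff, Finset.mem_coe, Finset.mem_Icc,
      Finset.mem_product, Nat.mem_divisors] at hx ⊢
    obtain ⟨⟨hm1, hmN⟩, ⟨hd, _⟩, he, _⟩ := hx
    obtain ⟨hg, e1, e2, e3⟩ := key m d e hm1 hd he
    set g := Nat.gcd d e
    set d' := d / g
    set e' := e / g
    set k := m / (g * d' * e')
    have hdm : d ≤ m := Nat.le_of_dvd hm1 hd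
    have hem : e ≤ m := Nat.le_of_dvd hm1 he
    have hpos : 0 < g * d' * e' * k := by rw [e3]; exact hm1
    have hk : 0 < k := Nat.pos_of_mul_pos_left hpos
    have hgde : 0 < g * d' * e' := Nat.pos_of_mul_pos_right hpos
    have he' : 0 < e' := Nat.pos_of_mul_pos_left hgde
    have hd' : 0 < d' := Nat.pos_of_mul_pos_left (Nat.pos_of_mul_pos_right hgde)
    refine ⟨⟨⟨hg, ?_⟩, ⟨hd', ?_⟩, he', ?_⟩, hk, ?_⟩
    · calc g ≤ g * d' := Nat.le_mul_of_pos_right _ hd'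
        _ = d := e1
        _ ≤ N := hdm.trans hmN
    · calc d' ≤ g * d' := Nat.le_mul_of_pos_left _ hg
        _ = d := e1
        _ ≤ N := hdm.trans hmN
    · calc e' ≤ g * e' := Nat.le_mul_of_pos_left _ hg
        _ = e := e2
        _ ≤ N := hem.trans hmN
    · exact Nat.div_le_div_right hmN
  · rintro ⟨m, d, e⟩ hx ⟨m', d', e'⟩ hy hxy
    simp only [Finset.coe_sigma, Set.mem_sigma_iff, Finset.mem_coe, Finset.mem_Icc,
      Finset.mem_product, Nat.mem_divisors] at hx hy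
    obtain ⟨⟨hm1, hmN⟩, ⟨hd, _⟩, he, _⟩ := hx
    obtain ⟨⟨hm1', hmN'⟩, ⟨hd', _⟩, he', _⟩ := hy
    obtain ⟨hg, e1, e2, e3⟩ := key m d e hm1 hd he
    obtain ⟨hg', e1', e2', e3'⟩ := key m' d' e' hm1' hd' he'
    simp only [Sigma.mk.injEq, Prod.mk.injEq, heq_eq_eq] at hxy
    obtain ⟨⟨h1, h2, h3⟩, h4⟩ := hxy
    have hd : d = d' := by rw [← e1, ← e1', h2, h1]
    have he : e = e' := by rw [← e2, ← e2', h3, h1]
    subst hd
    subst he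
    have hm : m = m' := by rw [← e3, ← e3', h4]
    subst hm
    rfl

theorem k_tau {N : ℕ} (hN : 1 ≤ N) :
    ∑ m ∈ Finset.Icc 1 N, ((m.divisors.card : ℝ)) ^ 2 ≤ N * (1 + Real.log N) ^ 3 := by
  have h1 : ∑ m ∈ Finset.Icc 1 N, ((m.divisors.card : ℝ)) ^ 2 ≤
      ((∑ p ∈ (Finset.Icc 1 N ×ˢ (Finset.Icc 1 N ×ˢ Finset.Icc 1 N)),
        N / (p.1 * p.2.1 * p.2.2) : ℕ) : ℝ) := by
    have := kt_card N
    exact_mod_cast this
  have h2 : ((∑ p ∈ (Finset.Icc 1 N ×ˢ (Finset.Icc 1 N ×ˢ Finset.Icc 1 N)),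
        N / (p.1 * p.2.1 * p.2.2) : ℕ) : ℝ) ≤
      ∑ p ∈ (Finset.Icc 1 N ×ˢ (Finset.Icc 1 N ×ˢ Finset.Icc 1 N)),
        (N:ℝ) * ((p.1:ℝ)⁻¹ * ((p.2.1:ℝ)⁻¹ * (p.2.2:ℝ)⁻¹)) := by
    push_cast
    apply Finset.sum_le_sum
    intro p _
    refine Nat.cast_div_le.trans (le_of_eq ?_)
    push_cast
    rw [div_eq_mul_inv, mul_inv, mul_inv]
    ring
  have h3 : ∑ p ∈ (Finset.Icc 1 N ×ˢ (Finset.Icc 1 N ×ˢ Finset.Icc 1 N)),
        (N:ℝ) * ((p.1:ℝ)⁻¹ * ((p.2.1:ℝ)⁻¹ * (p.2.2:ℝ)⁻¹)) =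
      N * (∑ i ∈ Finset.Icc 1 N, (i:ℝ)⁻¹)^3 := by
    rw [← Finset.mul_sum]
    congr 1
    rw [Finset.sum_product' (Finset.Icc 1 N) (Finset.Icc 1 N ×ˢ Finset.Icc 1 N)
      (fun a b => (a:ℝ)⁻¹ * ((b.1:ℝ)⁻¹ * (b.2:ℝ)⁻¹)), pow_succ, sq, mul_assoc,
      Finset.sum_mul]
    apply Finset.sum_congr rfl
    intro i _
    rw [← Finset.mul_sum, Finset.sum_mul_sum, Finset.sum_product]
  have h4 : (∑ i ∈ Finset.Icc 1 N, (i:ℝ)⁻¹) ≤ 1 + Real.log N := by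
    have := harmonic_le_one_add_log N
    rw [harmonic_eq_sum_Icc] at this
    push_cast at this
    exact this
  have h5 : (0:ℝ) ≤ ∑ i ∈ Finset.Icc 1 N, (i:ℝ)⁻¹ := Finset.sum_nonneg (fun i _ => by positivity)
  calc _ ≤ _ := h1
    _ ≤ _ := h2
    _ = _ := h3
    _ ≤ _ := by
      apply mul_le_mul_of_nonneg_left _ (by positivity)
      exact pow_le_pow_left₀ h5 h4 3

end LT
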