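import Pool.Agent.Lib_MP_f1937f_nt.KPairs
import Pool.Agent.Lib_MP_f1937f_nt.KReps
import Pool.Agent.Lib_MP_f1937f_nt.KTau

/-!
# MP_f1937f_nt, theorem C: many integers in `(T, r T)` with all prime factors `= 1 mod 3` (piece KFAM)

Proof. `η > 0` with `1 + 3 η + 3 η² ≤ r` (`η = min 1 ((r - 1) / 6)`). Let `S` be as in `k_pairs`, `F` the set of the values
`m = a² + a b + b²`, `(a, b) ∈ S`: `T < a² < m < ((1+η)² + (1+η) η + η²) T ≤ r T`, `m = 1 mod 3`, all prime factors `= 1 mod 3`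
(`k_pf`). Cauchy-Schwarz: `(#S)² ≤ #F ∑_{m ∈ F} r(m)²` with `r(m) = ` number of `(a, b) ∈ S` with value `m`,
`r(m) ≤ τ(m)` (`k_reps`), `∑_{m ≤ r T} τ(m)² ≤ r T (1 + log (r T))³ ≤ C T (log T)³` (`k_tau`).
-/

namespace LT

/-- The value of the quadratic form. -/
private def kval (q : ℕ × ℕ) : ℕ := q.1 ^ 2 + q.1 * q.2 + q.2 ^ 2

private lemma kval_mod3 {q : ℕ × ℕ} (h1 : q.1 % 6 = 1) (h2 : q.2 % 6 = 0) : kval q % 3 = 1 := by
  obtain ⟨a, b⟩ := q
  simp only at h1 h2
  unfold kval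
  simp only
  have h3 : a % 3 = 1 := by omega
  have h4 : b % 3 = 0 := by omega
  simp [Nat.add_mod, Nat.mul_mod, Nat.pow_mod, h3, h4]

theorem k_family (r : ℝ) (hr : 1 < r) : ∃ c : ℝ, 0 < c ∧ ∃ T₀ : ℝ, ∀ T : ℝ, T₀ ≤ T →
    ∃ F : Finset ℕ, (∀ m ∈ F, T < m ∧ (m : ℝ) < r * T ∧
      ∀ q : ℕ, q.Prime → q ∣ m → q % 3 = 1) ∧ c * T / Real.log T ^ 3 ≤ F.card := by
  set η : ℝ := min 1 ((r - 1) / 6) with hηdef
  have hη0 : 0 < η := by
    rw [hηdef, lt_min_iff]
    constructor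
    · norm_num
    · linarith
  have hη1 : η ≤ 1 := min_le_left _ _
  have hη2 : η ≤ (r - 1) / 6 := min_le_right _ _
  have hηr : 1 + 3 * η + 3 * η ^ 2 ≤ r := by nlinarith
  obtain ⟨c, hc, T₀, hT₀⟩ := k_pairs η hη0
  refine ⟨c ^ 2 / (8 * r), by positivity, max T₀ (max 1 (Real.exp (1 + Real.log r))),
    fun T hT => ?_⟩
  have hTa : T₀ ≤ T := (le_max_left _ _).trans hT
  have hTb : 1 ≤ T := (le_max_left _ _).trans ((le_max_right _ _).trans hT)
  have hTc : Real.exp (1 + Real.log r) ≤ T :=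
    (le_max_right _ _).trans ((le_max_right _ _).trans hT)
  have hT0 : 0 < T := by linarith
  have hr0 : 0 < r := by linarith
  have hlog : 1 + Real.log r ≤ Real.log T := (Real.le_log_iff_exp_le hT0).2 hTc
  have hlr : 0 < Real.log r := Real.log_pos hr
  have hlT : 0 < Real.log T := by linarith
  obtain ⟨S, hS, hcard⟩ := hT₀ T hTa
  have hsq : Real.sqrt T ^ 2 = T := Real.sq_sqrt hT0.le
  have hs0 : 0 < Real.sqrt T := Real.sqrt_pos.2 hT0
  have hlow : ∀ q ∈ S, T < (kval q : ℝ) := by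
    intro q hq
    obtain ⟨_, _, _, h4, _, _, _⟩ := hS q hq
    have h8 : (kval q : ℝ) = (q.1 : ℝ) ^ 2 + q.1 * q.2 + (q.2 : ℝ) ^ 2 := by
      unfold kval; push_cast; ring
    rw [h8]
    have h9 : (0 : ℝ) ≤ q.1 := by positivity
    have h10 : (0 : ℝ) ≤ q.2 := by positivity
    have h11 : Real.sqrt T ^ 2 < (q.1 : ℝ) ^ 2 := by
      apply pow_lt_pow_left₀ h4 hs0.le (by norm_num)
    have h12 : (0 : ℝ) ≤ (q.1 : ℝ) * q.2 := by positivity
    have h13 : (0 : ℝ) ≤ (q.2 : ℝ) ^ 2 := by positivity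
    linarith
  have hupp : ∀ q ∈ S, (kval q : ℝ) < r * T := by
    intro q hq
    obtain ⟨_, _, _, _, h5, _, h7⟩ := hS q hq
    have h8 : (kval q : ℝ) = (q.1 : ℝ) ^ 2 + q.1 * q.2 + (q.2 : ℝ) ^ 2 := by
      unfold kval; push_cast; ring
    rw [h8]
    have h9 : (0 : ℝ) ≤ q.1 := by positivity
    have h10 : (0 : ℝ) ≤ q.2 := by positivity
    set A : ℝ := (1 + η) * Real.sqrt T with hA
    set B : ℝ := η * Real.sqrt T with hB
    have hA0 : 0 < A := by positivity
    have hB0 : 0 < B := by positivity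
    have h11 : (q.1 : ℝ) ^ 2 < A ^ 2 := pow_lt_pow_left₀ h5 h9 (by norm_num)
    have h12 : (q.2 : ℝ) ^ 2 ≤ B ^ 2 := pow_le_pow_left₀ h10 h7.le 2
    have h13 : (q.1 : ℝ) * q.2 ≤ A * B := mul_le_mul h5.le h7.le h10 hA0.le
    have h14 : A ^ 2 + A * B + B ^ 2 = (1 + 3 * η + 3 * η ^ 2) * T := by
      rw [hA, hB, ← hsq]
      rw [Real.sqrt_sq hs0.le]
      ring
    have h15 : (1 + 3 * η + 3 * η ^ 2) * T ≤ r * T := mul_le_mul_of_nonneg_right hηr hT0.le
    linarith
  refine ⟨S.image kval, ?_, ?_⟩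
  · intro m hm
    rw [Finset.mem_image] at hm
    obtain ⟨q, hq, rfl⟩ := hm
    obtain ⟨h1, h2, h3, _, _, _, _⟩ := hS q hq
    refine ⟨hlow q hq, hupp q hq, fun p hp hpm => ?_⟩
    have hmod := kval_mod3 h1 h2
    have hp3 : p ≠ 3 := by
      rintro rfl
      omega
    exact k_pf h3 hp hp3 hpm
  · -- Cauchy and Schwarz
    set N : ℕ := ⌊r * T⌋₊ with hN
    have hrT : 1 ≤ r * T := by nlinarith
    have hN1 : 1 ≤ N := by
      rw [hN, Nat.le_floor_iff' (by norm_num)]
      exact_mod_cast hrT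
    have hNle : (N : ℝ) ≤ r * T := Nat.floor_le (by positivity)
    have hN0 : (0 : ℝ) < N := by exact_mod_cast hN1
    have e1 : (S.card : ℝ) = ∑ m ∈ S.image kval, ((S.filter (fun q => kval q = m)).card : ℝ) := by
      rw [Finset.card_eq_sum_card_image kval S]
      push_cast
      rfl
    have e2 : ∀ m ∈ S.image kval, ((S.filter (fun q => kval q = m)).card : ℝ) ≤
        (m.divisors.card : ℝ) := by
      intro m hm
      rw [Finset.mem_image] at hm
      obtain ⟨q₀, hq₀, rfl⟩ := hm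
      obtain ⟨h1, h2, _, _, _, _, _⟩ := hS q₀ hq₀
      have hmod := kval_mod3 h1 h2
      have hle := k_reps (m := kval q₀) (by omega) (by omega)
        (S.filter (fun q => kval q = kval q₀)) (fun q hq => by
          rw [Finset.mem_filter] at hq
          obtain ⟨g1, _, g3, _, _, g6, _⟩ := hS q hq.1
          exact ⟨by omega, g6, g3, hq.2⟩)
      exact_mod_cast hle
    have e3 : (S.card : ℝ) ^ 2 ≤ ((S.image kval).card : ℝ) *
        ∑ m ∈ S.image kval, ((m.divisors.card : ℝ)) ^ 2 := by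
      rw [e1]
      refine (sq_sum_le_card_mul_sum_sq).trans ?_
      refine mul_le_mul_of_nonneg_left ?_ (by positivity)
      refine Finset.sum_le_sum fun m hm => ?_
      exact pow_le_pow_left₀ (by positivity) (e2 m hm) 2
    have e4 : ∑ m ∈ S.image kval, ((m.divisors.card : ℝ)) ^ 2 ≤
        ∑ m ∈ Finset.Icc 1 N, ((m.divisors.card : ℝ)) ^ 2 := by
      refine Finset.sum_le_sum_of_subset_of_nonneg ?_ fun _ _ _ => by positivity
      intro m hm
      rw [Finset.mem_image] at hm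
      obtain ⟨q, hq, rfl⟩ := hm
      rw [Finset.mem_Icc]
      have g1 := hlow q hq
      have g2 := hupp q hq
      constructor
      · have : (0 : ℝ) < (kval q : ℝ) := by linarith
        exact_mod_cast this
      · exact Nat.le_floor g2.le
    have e5 := k_tau hN1
    have e6 : (N : ℝ) * (1 + Real.log N) ^ 3 ≤ r * T * (2 * Real.log T) ^ 3 := by
      have g1 : Real.log N ≤ Real.log (r * T) := Real.log_le_log hN0 hNle
      have g2 : Real.log (r * T) = Real.log r + Real.log T := Real.log_mul hr0.ne' hT0.ne'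
      have g3 : 0 ≤ Real.log N := Real.log_nonneg (by exact_mod_cast hN1)
      have g4 : (1 + Real.log N) ^ 3 ≤ (2 * Real.log T) ^ 3 := by
        apply pow_le_pow_left₀ (by linarith)
        linarith
      exact mul_le_mul hNle g4 (by positivity) (by positivity)
    have e7 : (S.card : ℝ) ^ 2 ≤ ((S.image kval).card : ℝ) * (r * T * (2 * Real.log T) ^ 3) :=
      e3.trans (mul_le_mul_of_nonneg_left (e4.trans (e5.trans e6)) (by positivity))
    have e8 : (c * T) ^ 2 ≤ (S.card : ℝ) ^ 2 := pow_le_pow_left₀ (by positivity) hcard 2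
    have e9 : (c * T) ^ 2 ≤ ((S.image kval).card : ℝ) * (r * T * (2 * Real.log T) ^ 3) :=
      e8.trans e7
    have e10 : c ^ 2 * T ≤ ((S.image kval).card : ℝ) * (8 * r * Real.log T ^ 3) := by
      have g1 : c ^ 2 * T * T ≤ ((S.image kval).card : ℝ) * (8 * r * Real.log T ^ 3) * T := by
        calc c ^ 2 * T * T = (c * T) ^ 2 := by ring
          _ ≤ _ := e9
          _ = _ := by ring
      exact le_of_mul_le_mul_right g1 hT0
    rw [div_le_iff₀ (by positivity)]
    have g5 : c ^ 2 / (8 * r) * T = c ^ 2 * T / (8 * r) := by ring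
    rw [g5, div_le_iff₀ (by positivity)]
    calc c ^ 2 * T ≤ _ := e10
      _ = _ := by ring

end LT
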