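import Pool.Agent.Lib_MP_f1937f_nt.KHom

/-!
# MP_f1937f_nt, theorem C: maps with coefficients in `F_p` commute with Frobenius (piece KFROBR)

`frR` is the action of Frobenius on the coefficients of rational functions (a ring homomorphism).

Proofs. `frR_dR`: `frR` commutes with `d/dx` on polynomials (`Polynomial.derivative_map`), `dR u` does not depend on the
representation `u = N / D` (or: `frR u` has numerator and denominator the images of those of `u`: the images are coprime
(`Polynomial.isCoprime_map` or a Bezout identity) and the denominator is monic, so `RatFunc.num_div`,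
`RatFunc.denom_div` or a uniqueness argument apply). `frR_fix`: the same, `frR u = u`.

`hom_frob`: for `P = (x, y)`, `y ≠ 0`: if `ψ = 0` both sides are `0`. Otherwise `denom (x^p) = (denom x)^p` and the same for
the numerators (`frR_fix`, evaluation of a polynomial with coefficients in `F_p`: `Polynomial.eval₂_hom`, or
`Polynomial.eval_map` and `Polynomial.hom_eval₂`), so the two sides of the equation are given by `Compat` and agree. Hence
`Ψ ∘ F - F ∘ Ψ` satisfies `Compat` with the zero map and is zero by `eq_zero_of_compat` (FKer.lean).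
-/

namespace LT

open Polynomial WeierstrassCurve

section

variable {k : Type} [Field k] (p : ℕ) [Fact p.Prime] [CharP k p]

theorem frR_aux : nonZeroDivisors k[X] ≤
    (nonZeroDivisors k[X]).comap (Polynomial.mapRingHom (frobenius k p)) := by
  intro f hf
  rw [mem_nonZeroDivisors_iff_ne_zero] at hf
  rw [Submonoid.mem_comap, mem_nonZeroDivisors_iff_ne_zero]
  intro h
  exact hf ((Polynomial.map_eq_zero_iff (frobenius k p).injective).mp h)

/-- Frobenius on the coefficients of rational functions. -/
noncomputable def frR : RatFunc k →+* RatFunc k :=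
  RatFunc.mapRingHom (Polynomial.mapRingHom (frobenius k p)) (frR_aux p)

theorem frR_algebraMap (f : k[X]) :
    frR p (algebraMap k[X] (RatFunc k) f) =
      algebraMap k[X] (RatFunc k) (f.map (frobenius k p)) := by
  have h := RatFunc.map_apply_div (Polynomial.mapRingHom (frobenius k p)) (frR_aux p) f 1
  simp only [map_one, div_one, Polynomial.coe_mapRingHom] at h
  exact h

theorem frR_X : frR p (RatFunc.X : RatFunc k) = RatFunc.X := by
  rw [← RatFunc.algebraMap_X, frR_algebraMap, Polynomial.map_X]

theorem frR_C (c : k) : frR p (RatFunc.C c) = RatFunc.C (c ^ p) := by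
  rw [← RatFunc.algebraMap_C, frR_algebraMap, Polynomial.map_C, frobenius_def,
    RatFunc.algebraMap_C]

theorem frR_eq_frac (u : RatFunc k) : frR p u =
    algebraMap k[X] (RatFunc k) (u.num.map (frobenius k p)) /
      algebraMap k[X] (RatFunc k) (u.denom.map (frobenius k p)) := by
  conv_lhs => rw [← u.num_div_denom]
  rw [map_div₀, frR_algebraMap, frR_algebraMap]

theorem frR_dR (u : RatFunc k) : frR p (dR u) = dR (frR p u) := by
  have hD : u.denom.map (frobenius k p) ≠ 0 :=
    (Polynomial.map_ne_zero_iff (frobenius k p).injective).mpr u.denom_ne_zero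
  rw [frR_eq_frac p u, dR_frac _ _ hD]
  unfold dR
  rw [map_div₀, frR_algebraMap, frR_algebraMap]
  simp only [Polynomial.derivative_map, Polynomial.map_sub, Polynomial.map_mul,
    Polynomial.map_pow]

theorem frR_fix {u : RatFunc k} (h : frR p u = u) :
    u.num.map (frobenius k p) = u.num ∧ u.denom.map (frobenius k p) = u.denom := by
  have hD : u.denom ≠ 0 := u.denom_ne_zero
  have hD' : u.denom.map (frobenius k p) ≠ 0 :=
    (Polynomial.map_ne_zero_iff (frobenius k p).injective).mpr hD
  have h1 : u.num.map (frobenius k p) * u.denom = u.num * u.denom.map (frobenius k p) := by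
    have h2 := frR_eq_frac p u
    rw [h] at h2
    nth_rewrite 1 [← u.num_div_denom] at h2
    rw [div_eq_div_iff (FDer.am_ne hD) (FDer.am_ne hD'), ← map_mul, ← map_mul] at h2
    exact (FDer.am_inj h2).symm
  have hc : IsCoprime u.num u.denom := RatFunc.isCoprime_num_denom u
  have hc' : IsCoprime (u.num.map (frobenius k p)) (u.denom.map (frobenius k p)) :=
    (Polynomial.isCoprime_map _).mpr hc
  have d1 : u.denom.map (frobenius k p) ∣ u.denom :=
    hc'.symm.dvd_of_dvd_mul_left ⟨u.num, by rw [h1]; ring⟩
  have d2 : u.denom ∣ u.denom.map (frobenius k p) :=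
    hc.symm.dvd_of_dvd_mul_left ⟨u.num.map (frobenius k p), by rw [← h1]; ring⟩
  have hm : (u.denom.map (frobenius k p)).Monic := (RatFunc.monic_denom u).map _
  have he : u.denom.map (frobenius k p) = u.denom :=
    Polynomial.eq_of_monic_of_associated hm (RatFunc.monic_denom u) (associated_of_dvd_dvd d1 d2)
  refine ⟨?_, he⟩
  rw [he] at h1
  exact mul_right_cancel₀ hD h1

theorem frR_eval_pow {f : k[X]} (h : f.map (frobenius k p) = f) (x : k) :
    f.eval (x ^ p) = (f.eval x) ^ p := by
  have h1 := Polynomial.eval₂_at_apply (p := f) (frobenius k p) x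
  rw [← Polynomial.eval_map, h, frobenius_def, frobenius_def] at h1
  exact h1

theorem frR_reval_pow {u : RatFunc k} (h : frR p u = u) (x : k) :
    u.eval (RingHom.id k) (x ^ p) = (u.eval (RingHom.id k) x) ^ p := by
  obtain ⟨h1, h2⟩ := frR_fix p h
  unfold RatFunc.eval
  rw [Polynomial.eval₂_id, Polynomial.eval₂_id, Polynomial.eval₂_id, Polynomial.eval₂_id,
    frR_eval_pow p h1, frR_eval_pow p h2, div_pow]

variable [DecidableEq k] [IsAlgClosed k] {a b a' b' : k}

theorem hom_frob (hp : 5 ≤ p) (hd : dsc a b ≠ 0) (ha : a ^ p = a) (hb : b ^ p = b)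
    (ha' : a' ^ p = a') (hb' : b' ^ p = b') {ψ : MM a b a' b'} {Ψ : Pt a b →+ Pt a' b'}
    (hC : Compat ψ Ψ) (hu : frR p (uu ψ) = uu ψ) (hv : frR p (vv ψ) = vv ψ) (P : Pt a b) :
    Ψ (frobPt p ha hb P) = frobPt p ha' hb' (Ψ P) := by
  have hpp : p.Prime := Fact.out
  have h2 : (2 : k) ≠ 0 := FHasse.two_ne p (by omega)
  have key : Ψ.comp (frobPt p ha hb) - (frobPt p ha' hb').comp Ψ = 0 := by
    apply eq_zero_of_compat h2 hd
    intro x y h hy
    refine ⟨fun _ => ?_, fun h0 => absurd rfl h0⟩
    rw [AddMonoidHom.sub_apply, AddMonoidHom.comp_apply, AddMonoidHom.comp_apply, sub_eq_zero]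
    obtain ⟨hF, hFe⟩ := frobPt_some p ha hb x y h
    have hyp : y ^ p ≠ 0 := pow_ne_zero _ hy
    rw [hFe]
    by_cases h0 : ψ = .zero
    · rw [(hC x y h hy).1 h0, (hC _ _ hF hyp).1 h0, map_zero]
    · obtain ⟨a1, a2⟩ := (hC x y h hy).2 h0
      obtain ⟨b1, b2⟩ := (hC _ _ hF hyp).2 h0
      have hde : (uu ψ).denom.eval (x ^ p) = ((uu ψ).denom.eval x) ^ p :=
        frR_eval_pow p (frR_fix p hu).2 x
      by_cases hden : (uu ψ).denom.eval x = 0
      · rw [a1 hden, b1 (by rw [hde, hden, zero_pow hpp.ne_zero]), map_zero]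
      · obtain ⟨c1, c2⟩ := a2 hden
        obtain ⟨d1, d2⟩ := b2 (by rw [hde]; exact pow_ne_zero _ hden)
        obtain ⟨e1, e2⟩ := frobPt_some p ha' hb' _ _ c1
        rw [c2, d2, e2]
        have f1 := frR_reval_pow p hu x
        have f2 := frR_reval_pow p hv x
        congr 1
        rw [f2, mul_pow]
  have := DFunLike.congr_fun key P
  rw [AddMonoidHom.sub_apply, AddMonoidHom.comp_apply, AddMonoidHom.comp_apply,
    AddMonoidHom.zero_apply, sub_eq_zero] at this
  exact this

end

end LT
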