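import Pool.Agent.Lib_MP_f1937f_nt.KMain2

/-! The scales at which there are few supersingular primes are rare. -/

set_option autoImplicit false

open Real Finset

namespace LT

private lemma kgap_mono (W : WeierstrassCurve ℤ) {m n : ℕ} (h : m ≤ n) : SS W m ⊆ SS W n := by
  intro p hp
  rw [SS, Finset.mem_filter, Finset.mem_range] at hp ⊢
  exact ⟨by omega, hp.2⟩

theorem kgap_real {c : ℝ} (hc : 0 < c) : ∃ A : ℝ, 1 ≤ A ∧ ∀ u u' : ℝ, A ≤ u → u ≤ u' →
    c * u' / (log u') ^ 2 ≤ 2 * u → u' ≤ 18 / c * u * (log u) ^ 2 := by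
  refine ⟨max (exp 1) ((32 / c) ^ 2), (by
    have := add_one_le_exp (1 : ℝ)
    exact le_trans (by linarith) (le_max_left _ _)), ?_⟩
  intro u u' hu huu h
  have hu1 : exp 1 ≤ u := (le_max_left _ _).trans hu
  have hu2 : (32 / c) ^ 2 ≤ u := (le_max_right _ _).trans hu
  have hpos : 0 < u := lt_of_lt_of_le (exp_pos _) hu1
  have hpos' : 0 < u' := lt_of_lt_of_le hpos huu
  have hlu : 1 ≤ log u := by
    rw [← log_exp 1]
    exact log_le_log (exp_pos _) hu1
  have hlu' : 1 ≤ log u' := hlu.trans (log_le_log hpos huu)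
  have h1 : c * u' ≤ 2 * u * (log u') ^ 2 := by
    rwa [div_le_iff₀ (by positivity)] at h
  obtain ⟨t, ht⟩ : ∃ t : ℝ, t = sqrt (sqrt u') := ⟨_, rfl⟩
  have ht2 : t ^ 2 = sqrt u' := by rw [ht, sq_sqrt (sqrt_nonneg _)]
  have ht4 : (t ^ 2) ^ 2 = u' := by rw [ht2, sq_sqrt hpos'.le]
  have ht0 : 0 < t := by rw [ht]; positivity
  have hlog : log u' ≤ 4 * t := by
    have h2 : log u' = 4 * log t := by
      rw [← ht4, ← pow_mul, log_pow]
      norm_num
    have h3 := log_le_sub_one_of_pos ht0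
    linarith
  have h2 : t ^ 2 ≤ 32 / c * u := by
    have h3 : (log u') ^ 2 ≤ (4 * t) ^ 2 := pow_le_pow_left₀ (by linarith) hlog 2
    have h4 : c * (t ^ 2) ^ 2 ≤ 2 * u * (4 * t) ^ 2 := by
      rw [ht4]
      exact h1.trans (mul_le_mul_of_nonneg_left h3 (by positivity))
    have h5 : (c * t ^ 2) * t ^ 2 ≤ (32 * u) * t ^ 2 := by
      calc (c * t ^ 2) * t ^ 2 = c * (t ^ 2) ^ 2 := by ring
        _ ≤ 2 * u * (4 * t) ^ 2 := h4
        _ = _ := by ring
    have h6 := le_of_mul_le_mul_right h5 (by positivity)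
    rw [div_mul_eq_mul_div, le_div_iff₀ hc]
    linarith
  have h3 : u' ≤ u ^ 3 := by
    calc u' = (t ^ 2) ^ 2 := ht4.symm
      _ ≤ (32 / c * u) ^ 2 := pow_le_pow_left₀ (by positivity) h2 2
      _ = (32 / c) ^ 2 * u ^ 2 := by ring
      _ ≤ u * u ^ 2 := mul_le_mul_of_nonneg_right hu2 (by positivity)
      _ = u ^ 3 := by ring
  have h4 : log u' ≤ 3 * log u := by
    have h5 := log_le_log hpos' h3
    rw [log_pow] at h5
    exact_mod_cast h5
  have h5 : (log u') ^ 2 ≤ (3 * log u) ^ 2 := pow_le_pow_left₀ (by linarith) h4 2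
  have h6 : c * u' ≤ 18 * u * (log u) ^ 2 := by
    calc c * u' ≤ 2 * u * (log u') ^ 2 := h1
      _ ≤ 2 * u * (3 * log u) ^ 2 := mul_le_mul_of_nonneg_left h5 (by positivity)
      _ = _ := by ring
  calc u' = c * u' / c := by field_simp
    _ ≤ 18 * u * (log u) ^ 2 / c := div_le_div_of_nonneg_right h6 hc.le
    _ = _ := by ring

/-- The real numbers `x` with `N(x) < (log x)^(1-ε)` are rare: of two of them `x ≤ x'`, either
`log log x'` is not much larger than `log log x`, or it is at least `(log x) / 2`. -/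
theorem k_gap (W : WeierstrassCurve ℤ) (hΔ : W.Δ ≠ 0) (hCM : NoCM W) {ε : ℝ} (hε : 0 < ε) :
    ∃ C : ℝ, 0 < C ∧ ∃ x₀ : ℝ, ∀ x x' : ℝ, x₀ ≤ x → x ≤ x' →
      ((SS W ⌊x⌋₊).card : ℝ) < log x ^ (1 - ε) → ((SS W ⌊x'⌋₊).card : ℝ) < log x' ^ (1 - ε) →
      log (log x') ≤ C * log (log x) * (log (log (log x))) ^ 2 ∨ log x / 2 ≤ log (log x') := by
  obtain ⟨e, he⟩ : ∃ e : ℝ, e = min (ε / 2) (1 / 4) := ⟨_, rfl⟩
  have he0 : 0 < e := by rw [he]; exact lt_min (by linarith) (by norm_num)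
  have he1 : e ≤ ε / 2 := by rw [he]; exact min_le_left _ _
  have he2 : e ≤ 1 / 4 := by rw [he]; exact min_le_right _ _
  obtain ⟨c, hc, x₁, H⟩ := k_main2 W hΔ hCM he0
  obtain ⟨A, hA1, hA⟩ := kgap_real hc
  refine ⟨18 / c, by positivity, max x₁ (exp (exp A)), ?_⟩
  intro x x' hx hxx hb hb'
  have hx1 : x₁ ≤ x := (le_max_left _ _).trans hx
  have hx2 : exp (exp A) ≤ x := (le_max_right _ _).trans hx
  have hx0 : 0 < x := lt_of_lt_of_le (exp_pos _) hx2
  have hx0' : 0 < x' := lt_of_lt_of_le hx0 hxx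
  have hl : exp A ≤ log x := by
    rw [← log_exp (exp A)]
    exact log_le_log (exp_pos _) hx2
  have hl0 : 0 < log x := lt_of_lt_of_le (exp_pos _) hl
  have hl1 : 1 ≤ log x := by
    have := add_one_le_exp A
    linarith
  have hll : A ≤ log (log x) := by
    rw [← log_exp A]
    exact log_le_log (exp_pos _) hl
  have hlx : log x ≤ log x' := log_le_log hx0 hxx
  have hl1' : 1 ≤ log x' := hl1.trans hlx
  have hllx : log (log x) ≤ log (log x') := log_le_log hl0 hlx
  rcases H x' (hx1.trans hxx) with h | ⟨y, hy1, hy2, hy3⟩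
  · exfalso
    have h1 : log x' ^ (1 - ε) ≤ log x' ^ (1 - e) :=
      rpow_le_rpow_of_exponent_le hl1' (by linarith)
    linarith
  rcases le_or_gt (y : ℝ) x with hyx | hyx
  · left
    apply hA _ _ hll hllx
    have hcard : ((SS W y).card : ℝ) ≤ ((SS W ⌊x⌋₊).card : ℝ) := by
      exact_mod_cast Finset.card_le_card (kgap_mono W (Nat.le_floor hyx))
    have h1 : (y : ℝ) ^ (1 / 2 - e) < (log x ^ 2) ^ (1 / 2 - e) := by
      calc (y : ℝ) ^ (1 / 2 - e) ≤ ((SS W y).card : ℝ) := hy3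
        _ ≤ _ := hcard
        _ < log x ^ (1 - ε) := hb
        _ ≤ log x ^ (2 * (1 / 2 - e)) := rpow_le_rpow_of_exponent_le hl1 (by linarith)
        _ = (log x ^ (2 : ℝ)) ^ (1 / 2 - e) := rpow_mul hl0.le _ _
        _ = _ := by rw [rpow_two]
    have h2 : (y : ℝ) < log x ^ 2 := by
      by_contra hcon
      push Not at hcon
      exact absurd h1 (not_lt.2 (rpow_le_rpow (by positivity) hcon (by linarith)))
    have h3 : exp (c * log (log x') / (log (log (log x'))) ^ 2) ≤ exp (2 * log (log x)) := by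
      refine hy1.trans (h2.le.trans (le_of_eq ?_))
      rw [mul_comm, exp_mul, exp_log hl0, rpow_two]
    exact exp_le_exp.1 h3
  · right
    have h1 : x ≤ log x' ^ 2 := hyx.le.trans hy2
    have h2 := log_le_log hx0 h1
    rw [log_pow] at h2
    push_cast at h2
    linarith

end LT
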