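import Pool.Agent.Lib_MP_f1937f_nt.FRep
import Pool.Agent.Lib_MP_f1937f_nt.FHasse
import Pool.Agent.Lib_MP_f1937f_nt.IDefs
import Pool.Agent.Lib_MP_f1937f_nt.KLat

/-!
# MP_f1937f_nt, theorem C: maps defined over `F_p` (piece KHOM)

`HomF` : the maps `ψ` (points over `k(x)`) between two curves over `F_p` which fix the origin,
multiply the differential by an element of `F_p` and commute with Frobenius.
-/

namespace LT

open Polynomial WeierstrassCurve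

section

variable {k : Type} [Field k] [DecidableEq k] [IsAlgClosed k] [DecidableEq (RatFunc k)] (p : ℕ)
  [Fact p.Prime] [CharP k p]

/-- Maps defined over `F_p` fixing the origin. -/
structure HomF {a b a' b' : k} (ha : a ^ p = a) (hb : b ^ p = b) (ha' : a' ^ p = a')
    (hb' : b' ^ p = b') (ψ : MM a b a' b') : Prop where
  inO : InO ψ
  dif : ∃ c : k, c ^ p = c ∧ HasC ψ c
  hom : ∃ Ψ : Pt a b →+ Pt a' b', Compat ψ Ψ ∧
    ∀ P, Ψ (frobPt p ha hb P) = frobPt p ha' hb' (Ψ P)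

variable {a b a' b' : k} {ha : a ^ p = a} {hb : b ^ p = b} {ha' : a' ^ p = a'}
  {hb' : b' ^ p = b'}

theorem two_ne_of (hp : 5 ≤ p) : (2 : k) ≠ 0 := FHasse.two_ne p (by omega)

theorem HomF.zero : HomF p ha hb ha' hb' (0 : MM a b a' b') := by
  refine ⟨Or.inl rfl, ⟨0, zero_pow (Fact.out : p.Prime).ne_zero, HasC_zero⟩, 0, Compat_zero, ?_⟩
  intro P
  show (0 : Pt a' b') = frobPt p ha' hb' 0
  rw [map_zero]

theorem HomF.add (hp : 5 ≤ p) (hd' : dsc a' b' ≠ 0)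
    {ψ φ : MM a b a' b'} (h : HomF p ha hb ha' hb' ψ) (h' : HomF p ha hb ha' hb' φ) :
    HomF p ha hb ha' hb' (ψ + φ) := by
  obtain ⟨c, hc, hC⟩ := h.dif
  obtain ⟨c', hc', hC'⟩ := h'.dif
  obtain ⟨Ψ, hΨ, hΨF⟩ := h.hom
  obtain ⟨Φ, hΦ, hΦF⟩ := h'.hom
  have h2 := two_ne_of p (k := k) hp
  refine ⟨InO_add h2 hd' h.inO h'.inO, ⟨c + c', ?_, HasC_add h2 hd' hC hC'⟩, Ψ + Φ,
    Compat_add h2 hd' hΨ hΦ, ?_⟩
  · have := map_add (frobenius k p) c c'
    rw [frobenius_def, frobenius_def, frobenius_def, hc, hc'] at this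
    exact this
  · intro P
    show Ψ _ + Φ _ = frobPt p ha' hb' (Ψ P + Φ P)
    rw [map_add, hΨF, hΦF]

theorem HomF.neg (hp : 5 ≤ p) (hd' : dsc a' b' ≠ 0)
    {ψ : MM a b a' b'} (h : HomF p ha hb ha' hb' ψ) : HomF p ha hb ha' hb' (-ψ) := by
  obtain ⟨c, hc, hC⟩ := h.dif
  obtain ⟨Ψ, hΨ, hΨF⟩ := h.hom
  have h2 := two_ne_of p (k := k) hp
  refine ⟨InO_neg h.inO, ⟨-c, ?_, HasC_neg hC⟩, -Ψ, Compat_neg h2 hd' hΨ, ?_⟩
  · have := map_neg (frobenius k p) c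
    rw [frobenius_def, frobenius_def, hc] at this
    exact this
  · intro P
    show -Ψ _ = frobPt p ha' hb' (-Ψ P)
    rw [map_neg, hΨF]

/-- The group of the maps defined over `F_p`. -/
def HomG (hp : 5 ≤ p) (ha : a ^ p = a) (hb : b ^ p = b)
    (ha' : a' ^ p = a') (hb' : b' ^ p = b') (hd' : dsc a' b' ≠ 0) : AddSubgroup (MM a b a' b') where
  carrier := {ψ | HomF p ha hb ha' hb' ψ}
  zero_mem' := HomF.zero p
  add_mem' := fun h h' => HomF.add p hp hd' h h'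
  neg_mem' := fun h => HomF.neg p hp hd' h

end

end LT
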