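import Pool.Agent.Lib_MP_f1937f_nt.IDefs

/-!
# MP_f1937f_nt, theorem C (piece KSMALL)

The sum of `1 / √p` over a sparse set of supersingular primes. The elements of `SS W X` in `(Y, Z]` are ranked: the `i`-th one
satisfies `i ≤ N(p) ≤ p^(1/1000)`, so `1 / √p ≤ Y^(-9/20) p^(-1/20) ≤ Y^(-9/20) i^(-50)`, and the sum over `i` is at most 2.
-/

namespace LT

open Polynomial WeierstrassCurve Real

private lemma ksm_tele (n : ℕ) : ∑ i ∈ Finset.range n, (2 : ℝ) / ((i + 1) * (i + 2)) ≤ 2 := by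
  have h : ∑ i ∈ Finset.range n, (2 : ℝ) / ((i + 1) * (i + 2)) = 2 - 2 / ((n : ℝ) + 1) := by
    induction n with
    | zero => norm_num
    | succ n ih =>
      rw [Finset.sum_range_succ, ih]
      push_cast
      have h1 : ((n : ℝ) + 1) ≠ 0 := by positivity
      have h2 : ((n : ℝ) + 2) ≠ 0 := by positivity
      have h3 : ((n : ℝ) + 1 + 1) ≠ 0 := by positivity
      field_simp
      ring
  rw [h]
  have : (0 : ℝ) ≤ 2 / ((n : ℝ) + 1) := by positivity
  linarith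

private lemma ksm_term {p Y i : ℕ} (hY : 2 ≤ Y) (hYp : Y < p)
    (h : ((i : ℝ) + 1) ≤ (p : ℝ) ^ ((1 : ℝ) / 1000)) :
    1 / √(p : ℝ) ≤ (Y : ℝ) ^ (-(9 : ℝ) / 20) * (2 / (((i : ℝ) + 1) * (i + 2))) := by
  have hY0 : (0 : ℝ) < Y := by
    have : 0 < Y := by omega
    exact_mod_cast this
  have hYp' : (Y : ℝ) ≤ p := by exact_mod_cast hYp.le
  have hp0 : (0 : ℝ) < p := lt_of_lt_of_le hY0 hYp'
  have e1 : 1 / √(p : ℝ) = (p : ℝ) ^ (-(9 : ℝ) / 20) * (p : ℝ) ^ (-(1 : ℝ) / 20) := by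
    rw [← rpow_add hp0, sqrt_eq_rpow, one_div, ← rpow_neg hp0.le]
    norm_num
  have e2 : (p : ℝ) ^ (-(9 : ℝ) / 20) ≤ (Y : ℝ) ^ (-(9 : ℝ) / 20) :=
    rpow_le_rpow_of_nonpos hY0 hYp' (by norm_num)
  have hi : (1 : ℝ) ≤ (i : ℝ) + 1 := by
    have : (0 : ℝ) ≤ (i : ℝ) := Nat.cast_nonneg i
    linarith
  have e3 : (p : ℝ) ^ (-(1 : ℝ) / 20) ≤ 2 / (((i : ℝ) + 1) * (i + 2)) := by
    have e4 : (p : ℝ) ^ (-(1 : ℝ) / 20) = (((p : ℝ) ^ ((1 : ℝ) / 1000)) ^ 50)⁻¹ := by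
      rw [← rpow_natCast, ← rpow_mul hp0.le, ← rpow_neg hp0.le]
      norm_num
    rw [e4]
    have e5 : ((i : ℝ) + 1) ^ 2 ≤ ((p : ℝ) ^ ((1 : ℝ) / 1000)) ^ 50 :=
      calc ((i : ℝ) + 1) ^ 2 ≤ ((i : ℝ) + 1) ^ 50 := pow_le_pow_right₀ hi (by norm_num)
        _ ≤ _ := pow_le_pow_left₀ (by linarith) h 50
    have e6 : ((i : ℝ) + 1) * (i + 2) / 2 ≤ ((p : ℝ) ^ ((1 : ℝ) / 1000)) ^ 50 := by nlinarith
    have e7 : (0 : ℝ) < ((i : ℝ) + 1) * (i + 2) / 2 := by positivity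
    calc (((p : ℝ) ^ ((1 : ℝ) / 1000)) ^ 50)⁻¹ ≤ (((i : ℝ) + 1) * (i + 2) / 2)⁻¹ :=
          inv_anti₀ e7 e6
      _ = _ := by rw [inv_div]
  rw [e1]
  exact mul_le_mul e2 e3 (by positivity) (by positivity)

theorem k_small (W : WeierstrassCurve ℤ) {Y Z : ℕ} (hY : 2 ≤ Y) (hYZ : Y ≤ Z)
    (h : ∀ y : ℕ, Y ≤ y → y ≤ Z → ((SS W y).card : ℝ) ≤ (y : ℝ) ^ ((1 : ℝ) / 1000)) (X : ℕ) :
    ∑ p ∈ (SS W X).filter (fun p => Y < p), 1 / Real.sqrt p ≤
      4 * (1 + log Z) * (Y : ℝ) ^ (-(9 : ℝ) / 20) + (SS W X).card / Real.sqrt Z := by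
  classical
  have hZ0 : (0 : ℝ) < Z := by
    have : 0 < Z := by omega
    exact_mod_cast this
  have hY0 : (0 : ℝ) < Y := by
    have : 0 < Y := by omega
    exact_mod_cast this
  rw [← Finset.sum_filter_add_sum_filter_not _ (fun p => p ≤ Z)]
  refine add_le_add ?_ ?_
  · set S := ((SS W X).filter (fun p => Y < p)).filter (fun p => p ≤ Z) with hS
    have hmem : ∀ p ∈ S, p ∈ SS W X ∧ Y < p ∧ p ≤ Z := by
      intro p hp
      rw [hS, Finset.mem_filter, Finset.mem_filter] at hp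
      exact ⟨hp.1.1, hp.1.2, hp.2⟩
    set ρ : ℕ → ℕ := fun p => (S.filter (fun q => q < p)).card with hρ
    have hρ1 : ∀ p ∈ S, ((ρ p : ℝ) + 1) ≤ (p : ℝ) ^ ((1 : ℝ) / 1000) := by
      intro p hp
      obtain ⟨h1, h2, h3⟩ := hmem p hp
      refine le_trans ?_ (h p h2.le h3)
      have h4 : insert p (S.filter (fun q => q < p)) ⊆ SS W p := by
        intro q hq
        rw [Finset.mem_insert, Finset.mem_filter] at hq
        rcases hq with rfl | hq
        · unfold SS at h1 ⊢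
          rw [Finset.mem_filter] at h1 ⊢
          exact ⟨Finset.mem_range.2 (Nat.lt_succ_self _), h1.2⟩
        · have h5 := (hmem q hq.1).1
          unfold SS at h5 ⊢
          rw [Finset.mem_filter] at h5 ⊢
          exact ⟨Finset.mem_range.2 (by omega), h5.2⟩
      have h5 := Finset.card_le_card h4
      rw [Finset.card_insert_of_notMem (by simp)] at h5
      exact_mod_cast h5
    have hinj : Set.InjOn ρ S := by
      have key : ∀ p ∈ S, ∀ q ∈ S, p < q → ρ p < ρ q := by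
        intro p hp q hq hpq
        apply Finset.card_lt_card
        rw [Finset.ssubset_iff_of_subset]
        · exact ⟨p, Finset.mem_filter.2 ⟨hp, hpq⟩, by simp⟩
        · intro r hr
          rw [Finset.mem_filter] at hr ⊢
          exact ⟨hr.1, hr.2.trans hpq⟩
      intro p hp q hq hpq
      rcases lt_trichotomy p q with hlt | heq | hgt
      · exact absurd hpq (key p hp q hq hlt).ne
      · exact heq
      · exact absurd hpq (key q hq p hp hgt).ne'
    have hrange : S.image ρ ⊆ Finset.range S.card := by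
      intro i hi
      obtain ⟨p, hp, rfl⟩ := Finset.mem_image.1 hi
      rw [Finset.mem_range]
      apply Finset.card_lt_card
      rw [Finset.ssubset_iff_of_subset (Finset.filter_subset _ _)]
      exact ⟨p, hp, by simp⟩
    calc ∑ p ∈ S, 1 / √(p : ℝ)
        ≤ ∑ p ∈ S, (Y : ℝ) ^ (-(9 : ℝ) / 20) * (2 / (((ρ p : ℝ) + 1) * (ρ p + 2))) :=
          Finset.sum_le_sum (fun p hp => ksm_term hY (hmem p hp).2.1 (hρ1 p hp))
      _ = (Y : ℝ) ^ (-(9 : ℝ) / 20) * ∑ i ∈ S.image ρ, (2 : ℝ) / ((i + 1) * (i + 2)) := by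
          rw [← Finset.mul_sum, Finset.sum_image hinj]
      _ ≤ (Y : ℝ) ^ (-(9 : ℝ) / 20) * ∑ i ∈ Finset.range S.card, (2 : ℝ) / ((i + 1) * (i + 2)) := by
          apply mul_le_mul_of_nonneg_left _ (by positivity)
          exact Finset.sum_le_sum_of_subset_of_nonneg hrange (fun i _ _ => by positivity)
      _ ≤ (Y : ℝ) ^ (-(9 : ℝ) / 20) * 2 :=
          mul_le_mul_of_nonneg_left (ksm_tele _) (by positivity)
      _ ≤ 4 * (1 + log Z) * (Y : ℝ) ^ (-(9 : ℝ) / 20) := by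
          have h1 : 0 ≤ log (Z : ℝ) := log_nonneg (by
            have : 1 ≤ Z := by omega
            exact_mod_cast this)
          have h2 : (0 : ℝ) ≤ (Y : ℝ) ^ (-(9 : ℝ) / 20) := by positivity
          nlinarith [mul_nonneg h1 h2]
  · have hb : ∀ p ∈ ((SS W X).filter (fun p => Y < p)).filter (fun p => ¬ p ≤ Z),
        1 / √(p : ℝ) ≤ 1 / √(Z : ℝ) := by
      intro p hp
      have h1 := (Finset.mem_filter.1 hp).2
      have h2 : (Z : ℝ) ≤ p := by
        have : Z ≤ p := by omega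
        exact_mod_cast this
      exact one_div_le_one_div_of_le (sqrt_pos.2 hZ0) (sqrt_le_sqrt h2)
    calc _ ≤ ∑ _p ∈ ((SS W X).filter (fun p => Y < p)).filter (fun p => ¬ p ≤ Z), 1 / √(Z : ℝ) :=
          Finset.sum_le_sum hb
      _ = ((((SS W X).filter (fun p => Y < p)).filter (fun p => ¬ p ≤ Z)).card : ℝ) * (1 / √(Z : ℝ)) := by
          rw [Finset.sum_const, nsmul_eq_mul]
      _ ≤ ((SS W X).card : ℝ) * (1 / √(Z : ℝ)) := by
          apply mul_le_mul_of_nonneg_right _ (by positivity)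
          have : (((SS W X).filter (fun p => Y < p)).filter (fun p => ¬ p ≤ Z)).card ≤ (SS W X).card :=
            (Finset.card_filter_le _ _).trans (Finset.card_filter_le _ _)
          exact_mod_cast this
      _ = _ := by rw [mul_one_div]

end LT
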