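import Pool.Agent.Lib_MP_f1937f_nt.KCount2
import Pool.Agent.Lib_MP_f1937f_nt.KCover

/-!
# MP_f1937f_nt, theorem C, strong form (piece KMAIN2)

Proof. `L = log x`, `L₂ = log L`, `L₃ = log L₂`, `N(y) = #SS(y)`; assume `ε ≤ 1/4` (otherwise use `1/4`), `δ = ε`. `C₁`, `Y₀` from
`k_cover (badW W) ε`, `C₂`, `V₀` from `k_count2`. `Y = ⌈exp (c L₂ / L₃²)⌉` with `c = ε / (16 C₁ + 16)`, `Z = ⌊L²⌋`, `X = ⌊x⌋`. Suppose that the second
case fails: `N(y) < y^(1/2-ε)` for all `Y ≤ y ≤ Z`. `k_cover` for `S = SS W Z` gives `M`, `log M ≤ C₁ log Y (log log Y)² ≤ 2 C₁ c L₂ ≤ (ε/8) L₂`, i.e.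
`M ≤ L^(ε/8)`. Let `V = L^(1 - ε/2)`: `C₂ M V (log V)² ≤ L - 1 ≤ log X`. `k_count2`:
`V / (log V)⁴ ≤ C₂ 2^ω(M) ∑_{p ∈ SS(X), p > Y, not killed} (1 + 12 V / √p)`
`≤ C₂ 2^ω(M) (N(X) + 12 V N(X) / √(Z+1)) + 12 C₂ V 2^ω(M) ∑_{p ∈ SS(Z), p > Y, not killed} 1/√p ≤ 13 C₂ Y N(X) + 12 C₂ V Y^(-ε/4)`,
(`V ≤ L ≤ √(Z+1)`) and the last term is at most half of the left side (`Y^(ε/4) ≥ L₂^5` for large `x`), so
`N(X) ≥ V / (26 C₂ Y (log V)⁴) ≥ L^(1-ε)` (`Y ≤ L^(ε/8)` for large `x`).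
-/

namespace LT

open Polynomial WeierstrassCurve Real

open Filter in
private lemma km2_asym (C V₀ Y₀ : ℝ) {ε c : ℝ} (hC : 1 ≤ C) (hε : 0 < ε) (hc : 0 < c) :
    ∃ t₀ : ℝ, ∀ t : ℝ, t₀ ≤ t → 1 ≤ log t ∧ 1 ≤ c * t / (log t) ^ 2 ∧
      t ≤ exp (c * t / (log t) ^ 2) ∧ Y₀ ≤ t ∧ 2 ≤ t ∧ V₀ ≤ exp (t / 2) ∧ C ≤ exp (3 / 8 * t) ∧
      2 * C * t ^ 2 ≤ exp (3 * ε / 8 * t) ∧
      24 * C * t ^ 4 ≤ exp (ε / 4 * (c * t / (log t) ^ 2)) ∧
      50 * C * t ^ 4 ≤ exp (ε / 8 * t) ∧ 2 * t ≤ (c * t / (log t) ^ 2) ^ 2 := by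
  have key : ∀ᶠ t : ℝ in atTop, 1 ≤ log t ∧ 1 ≤ c * t / (log t) ^ 2 ∧
      t ≤ exp (c * t / (log t) ^ 2) ∧ Y₀ ≤ t ∧ 2 ≤ t ∧ V₀ ≤ exp (t / 2) ∧ C ≤ exp (3 / 8 * t) ∧
      2 * C * t ^ 2 ≤ exp (3 * ε / 8 * t) ∧
      24 * C * t ^ 4 ≤ exp (ε / 4 * (c * t / (log t) ^ 2)) ∧
      50 * C * t ^ 4 ≤ exp (ε / 8 * t) ∧ 2 * t ≤ (c * t / (log t) ^ 2) ^ 2 := by
    have e1 : ∀ᶠ t : ℝ in atTop, 1 ≤ log t := tendsto_log_atTop.eventually_ge_atTop 1
    have e2 : ∀ᶠ t : ℝ in atTop, Y₀ ≤ t := eventually_ge_atTop _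
    have e3 : ∀ᶠ t : ℝ in atTop, 288 * C ≤ t := eventually_ge_atTop _
    have e4 : ∀ᶠ t : ℝ in atTop, 2 * V₀ ≤ t := eventually_ge_atTop _
    have hC0 : 0 < C := by linarith
    have e5 := (isLittleO_pow_log_id_atTop (n := 3)).bound (show 0 < c / 16 by positivity)
    have e5' := (isLittleO_pow_log_id_atTop (n := 3)).bound (show 0 < c * ε / 20 by positivity)
    have e5'' := (isLittleO_pow_log_id_atTop (n := 4)).bound (show 0 < c ^ 2 / 2 by positivity)
    have e6 := (isLittleO_pow_exp_pos_mul_atTop (k := 2) (show 0 < 3 * ε / 8 by positivity)).bound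
      (show 0 < 1 / (2 * C) by positivity)
    have e7 := (isLittleO_pow_exp_pos_mul_atTop (k := 4) (show 0 < ε / 8 by positivity)).bound
      (show 0 < 1 / (50 * C) by positivity)
    filter_upwards [e1, e2, e3, e4, e5, e5', e5'', e6, e7] with t h1 h2 h3 h4 h5 h5' h5'' h6 h7
    have ht : 2 ≤ t := by linarith
    have ht0 : 0 < t := by linarith
    have hl0 : 0 < log t := by linarith
    rw [norm_of_nonneg (by positivity), id, norm_of_nonneg ht0.le] at h5 h5' h5''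
    rw [norm_of_nonneg (by positivity), norm_of_nonneg (exp_pos _).le] at h6 h7
    have k1 : 16 * log t ≤ c * t / (log t) ^ 2 := by
      rw [le_div_iff₀ (by positivity)]
      nlinarith
    have k1' : 5 * log t ≤ ε / 4 * (c * t / (log t) ^ 2) := by
      rw [mul_div_assoc', le_div_iff₀ (by positivity)]
      nlinarith
    have k2 : exp (log t) = t := exp_log ht0
    refine ⟨h1, by linarith, ?_, h2, ht, ?_, ?_, ?_, ?_, ?_, ?_⟩
    · calc t = exp (log t) := k2.symm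
        _ ≤ _ := exp_le_exp.2 (by linarith)
    · have := add_one_le_exp (t / 2)
      linarith
    · have := add_one_le_exp (3 / 8 * t)
      linarith
    · rw [one_div, inv_mul_eq_div, le_div_iff₀ (by positivity)] at h6
      linarith
    · have k3 : 24 * C * t ^ 4 ≤ t ^ 5 := by
        have : 24 * C ≤ t := by linarith
        calc 24 * C * t ^ 4 ≤ t * t ^ 4 :=
              mul_le_mul_of_nonneg_right this (by positivity)
          _ = t ^ 5 := by ring
      refine k3.trans ?_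
      calc t ^ 5 = exp (log t) ^ 5 := by rw [k2]
        _ = exp (5 * log t) := by rw [← exp_nat_mul]; norm_num
        _ ≤ _ := exp_le_exp.2 k1'
    · rw [one_div, inv_mul_eq_div, le_div_iff₀ (by positivity)] at h7
      linarith
    · rw [div_pow, le_div_iff₀ (by positivity)]
      have k4 : 2 * (log t) ^ 4 ≤ c ^ 2 * t := by linarith
      calc 2 * t * ((log t) ^ 2) ^ 2 = t * (2 * (log t) ^ 4) := by ring
        _ ≤ t * (c ^ 2 * t) := mul_le_mul_of_nonneg_left k4 ht0.le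
        _ = (c * t) ^ 2 := by ring
  exact eventually_atTop.1 key

private lemma km2_core {t ε c C Y w N R R' : ℝ} (ht : 2 ≤ t) (hl : 1 ≤ log t) (hε : 0 < ε)
    (hε1 : ε ≤ 1) (hc : 0 < c) (hcε : c ≤ ε / 16) (hC : 1 ≤ C) (h1 : 1 ≤ c * t / (log t) ^ 2)
    (hY1 : exp (c * t / (log t) ^ 2) ≤ Y) (hY2 : Y ≤ 2 * exp (c * t / (log t) ^ 2))
    (hw0 : 0 ≤ w) (hw : w ≤ Y) (hN : 0 ≤ N)
    (hS : exp ((1 - ε / 2) * t) / ((1 - ε / 2) * t) ^ 4 ≤ C * w * (N + 12 * exp ((1 - ε / 2) * t) * R))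
    (hR : R ≤ R' + N * (2 / exp t)) (hwR : w * R' ≤ Y ^ (-(ε / 4)))
    (hi : 24 * C * t ^ 4 ≤ exp (ε / 4 * (c * t / (log t) ^ 2)))
    (hj : 50 * C * t ^ 4 ≤ exp (ε / 8 * t)) : exp ((1 - ε) * t) ≤ N := by
  set V := exp ((1 - ε / 2) * t) with hV
  have hV0 : 0 < V := exp_pos _
  have ht0 : 0 < t := by linarith
  have hC0 : 0 < C := by linarith
  have hY0 : 0 < Y := lt_of_lt_of_le (exp_pos _) hY1
  have hVt : V ≤ exp t := exp_le_exp.2 (by nlinarith)
  have hs0 : 0 < (1 - ε / 2) * t := by nlinarith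
  have hst : (1 - ε / 2) * t ≤ t := by nlinarith
  have a1 : V / t ^ 4 ≤ V / ((1 - ε / 2) * t) ^ 4 :=
    div_le_div_of_nonneg_left hV0.le (by positivity) (pow_le_pow_left₀ hs0.le hst 4)
  have a2 : N + 12 * V * R ≤ 25 * N + 12 * V * R' := by
    have b1 : 12 * V * R ≤ 12 * V * (R' + N * (2 / exp t)) :=
      mul_le_mul_of_nonneg_left hR (by positivity)
    have b2 : V / exp t ≤ 1 := (div_le_one (exp_pos t)).2 hVt
    have b3 : 12 * V * (N * (2 / exp t)) ≤ 24 * N := by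
      have : 12 * V * (N * (2 / exp t)) = 24 * N * (V / exp t) := by ring
      rw [this]
      nlinarith
    nlinarith
  have a3 : C * w * (N + 12 * V * R) ≤ 25 * C * Y * N + 12 * C * V * Y ^ (-(ε / 4)) := by
    calc C * w * (N + 12 * V * R) ≤ C * w * (25 * N + 12 * V * R') :=
          mul_le_mul_of_nonneg_left a2 (by positivity)
      _ = 25 * C * N * w + 12 * C * V * (w * R') := by ring
      _ ≤ 25 * C * N * Y + 12 * C * V * Y ^ (-(ε / 4)) := by
          apply add_le_add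
          · exact mul_le_mul_of_nonneg_left hw (by positivity)
          · exact mul_le_mul_of_nonneg_left hwR (by positivity)
      _ = _ := by ring
  -- the error term
  have a5 : exp (ε / 4 * (c * t / (log t) ^ 2)) ≤ Y ^ (ε / 4) := by
    rw [mul_comm, exp_mul]
    exact rpow_le_rpow (exp_pos _).le hY1 (by positivity)
  have hT0 : (0 : ℝ) < Y ^ (ε / 4) := by positivity
  have a6 : 12 * C * Y ^ (-(ε / 4)) ≤ 1 / (2 * t ^ 4) := by
    rw [rpow_neg hY0.le, ← div_eq_mul_inv, div_le_div_iff₀ hT0 (by positivity)]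
    calc 12 * C * (2 * t ^ 4) = 24 * C * t ^ 4 := by ring
      _ ≤ _ := hi.trans a5
      _ = _ := by ring
  have a7 : 12 * C * V * Y ^ (-(ε / 4)) ≤ V * (1 / (2 * t ^ 4)) := by
    have := mul_le_mul_of_nonneg_left a6 hV0.le
    calc 12 * C * V * Y ^ (-(ε / 4)) = V * (12 * C * Y ^ (-(ε / 4))) := by ring
      _ ≤ _ := this
  have a8 : V / t ^ 4 ≤ 25 * C * Y * N + V * (1 / (2 * t ^ 4)) := by
    have := a1.trans (hS.trans a3)
    linarith
  have a9 : V ≤ 50 * C * t ^ 4 * Y * N := by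
    have b1 : V / t ^ 4 - V * (1 / (2 * t ^ 4)) = V / (2 * t ^ 4) := by
      field_simp
      ring
    have b2 : V / (2 * t ^ 4) ≤ 25 * C * Y * N := by linarith
    rw [div_le_iff₀ (by positivity)] at b2
    linarith
  -- the size of `Y`
  have a10 : Y ≤ exp (ε * t / 8) := by
    have b1 : c * t / (log t) ^ 2 ≤ c * t := div_le_self (by positivity) (one_le_pow₀ hl)
    have b3 : (2 : ℝ) ≤ exp 1 := by
      have := add_one_le_exp (1 : ℝ)
      linarith
    calc Y ≤ 2 * exp (c * t / (log t) ^ 2) := hY2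
      _ ≤ exp 1 * exp (c * t / (log t) ^ 2) := mul_le_mul_of_nonneg_right b3 (exp_pos _).le
      _ = exp (1 + c * t / (log t) ^ 2) := by rw [exp_add]
      _ ≤ _ := exp_le_exp.2 (by nlinarith)
  have a11 : V ≤ exp (ε / 8 * t) * exp (ε * t / 8) * N := by
    calc V ≤ 50 * C * t ^ 4 * Y * N := a9
      _ ≤ exp (ε / 8 * t) * exp (ε * t / 8) * N := by
          apply mul_le_mul_of_nonneg_right _ hN
          exact mul_le_mul hj a10 hY0.le (exp_pos _).le
  have a12 : exp ((1 - ε) * t) * (exp (ε / 8 * t) * exp (ε * t / 8)) ≤ V := by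
    rw [← exp_add, ← exp_add, hV]
    apply exp_le_exp.2
    nlinarith
  have a13 : 0 < exp (ε / 8 * t) * exp (ε * t / 8) := by positivity
  have a14 : exp ((1 - ε) * t) * (exp (ε / 8 * t) * exp (ε * t / 8)) ≤
      N * (exp (ε / 8 * t) * exp (ε * t / 8)) := by linarith
  exact le_of_mul_le_mul_right a14 a13

private lemma mem_SS_iff (W : WeierstrassCurve ℤ) (n p : ℕ) :
    p ∈ SS W n ↔ p ≤ n ∧ p.Prime ∧ ¬ (p : ℤ) ∣ W.Δ ∧ affCount W p = p := by
  unfold SS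
  rw [Finset.mem_filter, Finset.mem_range]
  constructor
  · rintro ⟨h1, h2⟩
    exact ⟨by omega, h2⟩
  · rintro ⟨h1, h2⟩
    exact ⟨by omega, h2⟩

open Classical in
private lemma km2_quarter (W : WeierstrassCurve ℤ) (hΔ : W.Δ ≠ 0) (hCM : NoCM W) {ε : ℝ}
    (hε : 0 < ε) (hε1 : ε ≤ 1 / 4) :
    ∃ c : ℝ, 0 < c ∧ ∃ x₀ : ℝ, ∀ x : ℝ, x₀ ≤ x →
      log x ^ (1 - ε) ≤ ((SS W ⌊x⌋₊).card : ℝ) ∨
      ∃ y : ℕ, exp (c * log (log x) / (log (log (log x))) ^ 2) ≤ y ∧ (y : ℝ) ≤ log x ^ 2 ∧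
        (y : ℝ) ^ (1 / 2 - ε) ≤ ((SS W y).card : ℝ) := by
  obtain ⟨C₁, hC₁, Y₀, H₁⟩ := k_cover (badW W) ε hε (by linarith)
  obtain ⟨C, V₀, hC, H₂⟩ := k_count2 W hΔ hCM
  have hc : 0 < ε / (16 * C₁ + 16) := by positivity
  set c := ε / (16 * C₁ + 16) with hcdef
  have hcε : c ≤ ε / 16 := by
    rw [hcdef]
    exact div_le_div_of_nonneg_left hε.le (by norm_num) (by linarith)
  have hc1 : 2 * C₁ * c ≤ ε / 8 := by
    rw [hcdef, mul_div_assoc', div_le_div_iff₀ (by positivity) (by norm_num)]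
    nlinarith
  obtain ⟨t₀, H₃⟩ := km2_asym C V₀ Y₀ hC hε hc
  refine ⟨c, hc, exp (exp t₀), fun x hx => ?_⟩
  have hx0 : 0 < x := lt_of_lt_of_le (exp_pos _) hx
  have hL1 : exp t₀ ≤ log x := (le_log_iff_exp_le hx0).2 hx
  have hL0 : 0 < log x := lt_of_lt_of_le (exp_pos _) hL1
  have ht₀ : t₀ ≤ log (log x) := (le_log_iff_exp_le hL0).2 hL1
  set t := log (log x) with ht
  have hLt : log x = exp t := (exp_log hL0).symm
  obtain ⟨h1, h2, h3, h4, h5, h6, h7, h8, h9, h10, h11⟩ := H₃ t ht₀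
  have hC0 : 0 < C := by linarith
  have ht0 : 0 < t := by linarith
  by_contra hcon
  rw [not_or] at hcon
  obtain ⟨hc2, hc3⟩ := hcon
  push Not at hc2 hc3
  have hL3 : 3 ≤ exp t := by
    have := add_one_le_exp t
    linarith
  have hll : 0 < log t := by linarith
  -- the number `Y`
  set E := exp (c * t / (log t) ^ 2) with hE
  set Y := ⌈E⌉₊ with hY
  have hE2 : 2 ≤ E := by linarith
  have hYE : E ≤ Y := Nat.le_ceil _
  have hYE2 : (Y : ℝ) ≤ 2 * E := by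
    have := Nat.ceil_lt_add_one (show 0 ≤ E by linarith)
    linarith
  have hY0 : (0 : ℝ) < Y := by linarith
  have hct : c * t / (log t) ^ 2 ≤ c * t := div_le_self (by positivity) (one_le_pow₀ h1)
  have hct2 : c * t ≤ t / 16 := by nlinarith
  have he2 : (2 : ℝ) ≤ exp 1 := by
    have := add_one_le_exp (1 : ℝ)
    linarith
  have hYexp : (Y : ℝ) ≤ exp (1 + c * t / (log t) ^ 2) := by
    rw [exp_add]
    exact hYE2.trans (mul_le_mul_of_nonneg_right he2 (exp_pos _).le)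
  have hYL : (Y : ℝ) ≤ exp t ^ 2 := by
    rw [← exp_nat_mul]
    refine hYexp.trans (exp_le_exp.2 ?_)
    push_cast
    linarith
  -- the number `Z`
  set Z := ⌊exp t ^ 2⌋₊ with hZ
  have hYZ : Y ≤ Z := Nat.le_floor hYL
  have hZle : (Z : ℝ) ≤ exp t ^ 2 := Nat.floor_le (by positivity)
  have hZge : exp t ^ 2 / 4 ≤ Z := by
    have := Nat.lt_floor_add_one (exp t ^ 2)
    nlinarith
  have hZ0 : (0 : ℝ) < Z := by
    have : 0 < exp t ^ 2 / 4 := by positivity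
    linarith
  have hN : ∀ y : ℕ, Y ≤ y → y ≤ Z → ((SS W y).card : ℝ) ≤ (y : ℝ) ^ (1 / 2 - ε) := by
    intro y hy1 hy2
    refine (hc3 y ?_ ?_).le
    · have : (Y : ℝ) ≤ y := by exact_mod_cast hy1
      linarith
    · rw [hLt]
      have : (y : ℝ) ≤ Z := by exact_mod_cast hy2
      linarith
  -- the covering modulus
  have hYY₀ : Y₀ ≤ Y := by
    have : (Y₀ : ℝ) ≤ Y := by linarith
    exact_mod_cast this
  have hlogY1 : c * t / (log t) ^ 2 ≤ log Y := (le_log_iff_exp_le hY0).2 hYE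
  have hlogZ : log Z ≤ 2 * t := by
    rw [log_le_iff_le_exp hZ0]
    refine hZle.trans (le_of_eq ?_)
    rw [← exp_nat_mul]
    norm_num
  have hlogZY : log Z ≤ log Y ^ 2 := by
    refine (hlogZ.trans h11).trans ?_
    exact pow_le_pow_left₀ (by linarith) hlogY1 2
  obtain ⟨M, hM0, hModd, hM3, -, hMk, hMlog, hMw, hMR⟩ := H₁ Y Z hYY₀ hYZ hlogZY (SS W Z)
    (fun p hp => by
      rw [mem_SS_iff] at hp
      exact ⟨hp.2.1, hp.1⟩)
    (fun y hy1 hy2 => by
      have hsub : (SS W Z).filter (fun p => p ≤ y) ⊆ SS W y := by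
        intro p hp
        rw [Finset.mem_filter, mem_SS_iff] at hp
        rw [mem_SS_iff]
        exact ⟨hp.2, hp.1.2⟩
      have hcard := Finset.card_le_card hsub
      have hcard' : (((SS W Z).filter (fun p => p ≤ y)).card : ℝ) ≤ ((SS W y).card : ℝ) := by
        exact_mod_cast hcard
      exact hcard'.trans (hN y hy1 hy2))
  have hMR0 : (0 : ℝ) < M := by exact_mod_cast hM0
  have hlogY2 : log Y ≤ 2 * (c * t / (log t) ^ 2) := by
    have : log Y ≤ 1 + c * t / (log t) ^ 2 := (log_le_iff_le_exp hY0).2 hYexp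
    linarith
  have hllY0 : 0 ≤ log (log Y) := log_nonneg (by linarith)
  have hllY : log (log Y) ≤ log t := log_le_log (by linarith) (by linarith)
  have hM : (M : ℝ) ≤ exp (ε / 8 * t) := by
    rw [← log_le_iff_le_exp hMR0]
    calc log M ≤ C₁ * log Y * (log (log Y)) ^ 2 := hMlog
      _ ≤ C₁ * (2 * (c * t / (log t) ^ 2)) * (log t) ^ 2 := by
          apply mul_le_mul _ (pow_le_pow_left₀ hllY0 hllY 2) (by positivity) (by positivity)
          exact mul_le_mul_of_nonneg_left hlogY2 hC₁.le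
      _ = 2 * C₁ * c * t := by
          field_simp
      _ ≤ ε / 8 * t := mul_le_mul_of_nonneg_right hc1 ht0.le
  -- the number `V`
  set V := exp ((1 - ε / 2) * t) with hV
  have hV0 : 0 < V := exp_pos _
  have hlogV : log V = (1 - ε / 2) * t := log_exp _
  have hVV₀ : V₀ ≤ V := h6.trans (exp_le_exp.2 (by nlinarith))
  have hCMV : C * M ≤ V := by
    calc C * M ≤ exp (3 / 8 * t) * exp (ε / 8 * t) := mul_le_mul h7 hM hMR0.le (exp_pos _).le
      _ = exp (3 / 8 * t + ε / 8 * t) := by rw [exp_add]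
      _ ≤ V := exp_le_exp.2 (by nlinarith)
  have hs0 : 0 < (1 - ε / 2) * t := by nlinarith
  have hst : (1 - ε / 2) * t ≤ t := by nlinarith
  have hX : exp (C * M * V * log V ^ 2) ≤ (⌊x⌋₊ : ℝ) := by
    have b1 : C * M * V * log V ^ 2 ≤ exp t / 2 := by
      rw [hlogV]
      calc C * M * V * ((1 - ε / 2) * t) ^ 2 ≤ C * exp (ε / 8 * t) * V * t ^ 2 := by
            apply mul_le_mul _ (pow_le_pow_left₀ hs0.le hst 2) (by positivity) (by positivity)
            apply mul_le_mul_of_nonneg_right _ hV0.le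
            exact mul_le_mul_of_nonneg_left hM hC0.le
        _ = (2 * C * t ^ 2) * (exp (ε / 8 * t) * V) / 2 := by ring
        _ ≤ exp (3 * ε / 8 * t) * (exp (ε / 8 * t) * V) / 2 := by
            apply div_le_div_of_nonneg_right _ (by norm_num)
            exact mul_le_mul_of_nonneg_right h8 (by positivity)
        _ = exp t / 2 := by
            rw [hV, ← exp_add, ← exp_add]
            congr 2
            ring
    have b2 : exp (exp t / 2) ^ 2 = x := by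
      rw [← exp_nat_mul, ← exp_log hx0, hLt]
      congr 1
      push_cast
      ring
    have b3 : 2 ≤ exp (exp t / 2) := by
      have := add_one_le_exp (exp t / 2)
      linarith
    have b4 := Nat.lt_floor_add_one x
    have b5 : exp (exp t / 2) ≤ (⌊x⌋₊ : ℝ) := by nlinarith
    exact (exp_le_exp.2 b1).trans b5
  have hMk' : ∀ p : ℕ, p.Prime → p % 3 = 2 →
      (p ∈ SS W Y ∨ p ∈ badW W ∨ p ∣ 22 * M) → KilledBy p M := by
    intro p hp hp3 h
    refine hMk p hp hp3 ?_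
    rcases h with h | h
    · left
      rw [mem_SS_iff] at h
      refine ⟨?_, h.1⟩
      rw [mem_SS_iff]
      exact ⟨h.1.trans hYZ, h.2⟩
    · exact Or.inr h
  have hmain := H₂ Y M hM0 hModd hM3 hMk' V hVV₀ hCMV ⌊x⌋₊ hX
  -- the sum over the supersingular primes
  set N : ℝ := ((SS W ⌊x⌋₊).card : ℝ) with hNdef
  have hN0 : 0 ≤ N := Nat.cast_nonneg _
  set R := ∑ p ∈ (SS W ⌊x⌋₊).filter (fun p => Y < p ∧ ¬ KilledBy p M), 1 / Real.sqrt p with hR
  set R' := ∑ p ∈ (SS W Z).filter (fun p => Y < p ∧ ¬ KilledBy p M), 1 / Real.sqrt (p : ℝ) with hR'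
  have hsum : ∑ p ∈ (SS W ⌊x⌋₊).filter (fun p => Y < p ∧ ¬ KilledBy p M),
      (1 + 12 * V / Real.sqrt p) ≤ N + 12 * V * R := by
    rw [Finset.sum_add_distrib, hR, Finset.mul_sum]
    refine add_le_add ?_ (le_of_eq ?_)
    · rw [Finset.sum_const, nsmul_eq_mul, mul_one]
      rw [hNdef]
      exact Nat.cast_le.2 (Finset.card_filter_le _ _)
    · exact Finset.sum_congr rfl (fun p _ => by ring)
  have hRle : R ≤ R' + N * (2 / exp t) := by
    rw [hR, ← Finset.sum_filter_add_sum_filter_not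
      ((SS W ⌊x⌋₊).filter (fun p => Y < p ∧ ¬ KilledBy p M)) (fun p => p ≤ Z)]
    refine add_le_add ?_ ?_
    · rw [hR']
      refine Finset.sum_le_sum_of_subset_of_nonneg ?_ fun p _ _ => by positivity
      intro p hp
      rw [Finset.mem_filter, Finset.mem_filter, mem_SS_iff] at hp
      rw [Finset.mem_filter, mem_SS_iff]
      exact ⟨⟨hp.2, hp.1.1.2⟩, hp.1.2⟩
    · have b1 : exp t / 2 ≤ √(Z : ℝ) := by
        apply le_sqrt_of_sq_le
        linarith [hZge, show (exp t / 2) ^ 2 = exp t ^ 2 / 4 by ring]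
      have b2 : ∀ p ∈ ((SS W ⌊x⌋₊).filter (fun p => Y < p ∧ ¬ KilledBy p M)).filter
          (fun p => ¬ p ≤ Z), 1 / Real.sqrt (p : ℝ) ≤ 2 / exp t := by
        intro p hp
        rw [Finset.mem_filter] at hp
        have b3 : (Z : ℝ) ≤ p := by
          have := hp.2
          exact_mod_cast (not_le.1 this).le
        have b4 : exp t / 2 ≤ √(p : ℝ) := b1.trans (Real.sqrt_le_sqrt b3)
        calc 1 / √(p : ℝ) ≤ 1 / (exp t / 2) := one_div_le_one_div_of_le (by positivity) b4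
          _ = 2 / exp t := by rw [one_div_div]
      refine (Finset.sum_le_card_nsmul _ _ _ b2).trans ?_
      rw [nsmul_eq_mul]
      apply mul_le_mul_of_nonneg_right _ (by positivity)
      rw [hNdef]
      exact_mod_cast (Finset.card_filter_le _ _).trans (Finset.card_filter_le _ _)
  have hfin : exp ((1 - ε) * t) ≤ N := by
    refine km2_core (w := 2 ^ M.primeFactors.card) (R' := R') h5 h1 hε (by linarith) hc hcε hC h2
      hYE hYE2 (by positivity) hMw hN0 ?_ hRle hMR h9 h10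
    rw [hlogV] at hmain
    exact hmain.trans (mul_le_mul_of_nonneg_left hsum (by positivity))
  rw [hLt, ← exp_mul, mul_comm] at hc2
  linarith

theorem k_main2 (W : WeierstrassCurve ℤ) (hΔ : W.Δ ≠ 0) (hCM : NoCM W) {ε : ℝ} (hε : 0 < ε) :
    ∃ c : ℝ, 0 < c ∧ ∃ x₀ : ℝ, ∀ x : ℝ, x₀ ≤ x →
      log x ^ (1 - ε) ≤ ((SS W ⌊x⌋₊).card : ℝ) ∨
      ∃ y : ℕ, exp (c * log (log x) / (log (log (log x))) ^ 2) ≤ y ∧ (y : ℝ) ≤ log x ^ 2 ∧
        (y : ℝ) ^ (1 / 2 - ε) ≤ ((SS W y).card : ℝ) := by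
  obtain ⟨c, hc, x₀, H⟩ := km2_quarter W hΔ hCM (ε := min ε (1 / 4))
    (lt_min hε (by norm_num)) (min_le_right _ _)
  refine ⟨c, hc, max x₀ (exp 1), fun x hx => ?_⟩
  rcases H x ((le_max_left _ _).trans hx) with h | ⟨y, hy1, hy2, hy3⟩
  · left
    refine le_trans ?_ h
    have h1 : 1 ≤ log x := by
      rw [← log_exp 1]
      exact log_le_log (exp_pos _) ((le_max_right _ _).trans hx)
    exact rpow_le_rpow_of_exponent_le h1 (by linarith [min_le_left ε (1 / 4)])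
  · right
    refine ⟨y, hy1, hy2, le_trans ?_ hy3⟩
    have h1 : (1 : ℝ) ≤ y := by
      have h2 : (0 : ℝ) < y := lt_of_lt_of_le (exp_pos _) hy1
      have h3 : 0 < y := by exact_mod_cast h2
      exact_mod_cast h3
    exact rpow_le_rpow_of_exponent_le h1 (by linarith [min_le_left ε (1 / 4)])

/-- Almost `log x` for arbitrarily large `x`. -/
theorem k_omega2 (W : WeierstrassCurve ℤ) (hΔ : W.Δ ≠ 0) (hCM : NoCM W) {ε : ℝ} (hε : 0 < ε)
    (z : ℝ) : ∃ x : ℝ, z ≤ x ∧ log x ^ (1 - ε) ≤ ((SS W ⌊x⌋₊).card : ℝ) := by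
  set ε' := min ε (1 / 4) with hε'
  have hε'0 : 0 < ε' := lt_min hε (by norm_num)
  have hε'1 : ε' ≤ 1 / 4 := min_le_right _ _
  have hε'2 : ε' ≤ ε := min_le_left _ _
  obtain ⟨c, hc, x₀, H⟩ := k_main2 W hΔ hCM hε'0
  have e1 := (isLittleO_log_rpow_rpow_atTop (1 - ε')
    (show (0 : ℝ) < 1 / 2 - ε' by linarith)).bound one_pos
  obtain ⟨y₀, hy₀⟩ := Filter.eventually_atTop.1 e1
  obtain ⟨t₀, H₃⟩ := km2_asym 1 0 (max (max z y₀) (max (log x₀) (exp 1))) le_rfl hε hc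
  set t := max t₀ (max (log (max (log (max x₀ 1)) 1)) 1) with ht
  obtain ⟨h1, h2, h3, h4, -⟩ := H₃ t (le_max_left _ _)
  have hx : x₀ ≤ exp (exp t) := by
    have a1 : log (max (log (max x₀ 1)) 1) ≤ t := (le_max_left _ _).trans (le_max_right _ _)
    have a2 : max (log (max x₀ 1)) 1 ≤ exp t := (log_le_iff_le_exp (by positivity)).1 a1
    have a3 : log (max x₀ 1) ≤ exp t := (le_max_left _ _).trans a2
    have a4 : max x₀ 1 ≤ exp (exp t) := (log_le_iff_le_exp (by positivity)).1 a3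
    exact (le_max_left _ _).trans a4
  have hmono : ∀ x : ℝ, exp 1 ≤ x → log x ^ (1 - ε) ≤ log x ^ (1 - ε') := by
    intro x hx
    have h5 : 1 ≤ log x := by
      rw [← log_exp 1]
      exact log_le_log (exp_pos _) hx
    exact rpow_le_rpow_of_exponent_le h5 (by linarith)
  have hz : z ≤ exp (exp t) := by
    have a1 : z ≤ t := ((le_max_left _ _).trans (le_max_left _ _)).trans h4
    have a2 := add_one_le_exp t
    have a3 := add_one_le_exp (exp t)
    linarith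
  rcases H (exp (exp t)) hx with h | ⟨y, hy1, -, hy3⟩
  · refine ⟨exp (exp t), hz, (hmono _ ?_).trans h⟩
    apply exp_le_exp.2
    have := add_one_le_exp t
    have h5 : 1 ≤ t := (le_max_right _ _).trans (le_max_right _ _)
    linarith
  · rw [log_exp, log_exp] at hy1
    have hty : t ≤ y := h3.trans hy1
    have a1 : z ≤ y := (((le_max_left _ _).trans (le_max_left _ _)).trans h4).trans hty
    have a2 : y₀ ≤ y := (((le_max_right _ _).trans (le_max_left _ _)).trans h4).trans hty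
    have a3 : exp 1 ≤ y := (((le_max_right _ _).trans (le_max_right _ _)).trans h4).trans hty
    have a5 : (1 : ℝ) ≤ y := by
      have := add_one_le_exp (1 : ℝ)
      linarith
    refine ⟨y, a1, (hmono _ a3).trans ?_⟩
    rw [Nat.floor_natCast]
    refine le_trans ?_ hy3
    have a4 := hy₀ y a2
    rw [one_mul, norm_of_nonneg (rpow_nonneg (log_nonneg a5) _), norm_of_nonneg (by positivity)] at a4
    exact a4

/-- The dichotomy. -/
theorem k_dich (W : WeierstrassCurve ℤ) (hΔ : W.Δ ≠ 0) (hCM : NoCM W) {ε : ℝ} (hε : 0 < ε) :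
    (∃ x₀ : ℝ, ∀ x : ℝ, x₀ ≤ x → log x ^ (1 - ε) ≤ ((SS W ⌊x⌋₊).card : ℝ)) ∨
    (∀ z : ℝ, ∃ y : ℝ, z ≤ y ∧ y ^ (1 / 2 - ε) ≤ ((SS W ⌊y⌋₊).card : ℝ)) := by
  by_cases hfirst : ∃ x₀ : ℝ, ∀ x : ℝ, x₀ ≤ x → log x ^ (1 - ε) ≤ ((SS W ⌊x⌋₊).card : ℝ)
  · exact Or.inl hfirst
  · right
    intro z
    push Not at hfirst
    obtain ⟨c, hc, x₀, H⟩ := k_main2 W hΔ hCM hε
    obtain ⟨t₀, H₃⟩ := km2_asym 1 0 z le_rfl hε hc
    obtain ⟨x, hx, hlt⟩ := hfirst (max x₀ (exp (exp t₀)))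
    have hx1 : x₀ ≤ x := (le_max_left _ _).trans hx
    have hx2 : exp (exp t₀) ≤ x := (le_max_right _ _).trans hx
    have hx0 : 0 < x := lt_of_lt_of_le (exp_pos _) hx2
    have hL1 : exp t₀ ≤ log x := (le_log_iff_exp_le hx0).2 hx2
    have hL0 : 0 < log x := lt_of_lt_of_le (exp_pos _) hL1
    have ht₀ : t₀ ≤ log (log x) := (le_log_iff_exp_le hL0).2 hL1
    obtain ⟨h1, h2, h3, h4, -⟩ := H₃ _ ht₀
    rcases H x hx1 with h | ⟨y, hy1, -, hy3⟩
    · exact absurd h (not_le.2 hlt)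
    · refine ⟨y, h4.trans (h3.trans hy1), ?_⟩
      rw [Nat.floor_natCast]
      exact hy3

end LT
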