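import Pool.Agent.Lib_MP_f1a94e_mr.MertOne

/-!
# MP_f1937f_nt, theorem C: Mertens' theorem twisted by the character modulo 3 (piece KMERTA)

Adaptation of Pool/Agent/Lib_MP_f1a94e_mr/MertChi.lean (`mert_chi`, the character modulo 4) to the character modulo 3:
`log n = ∑_{d ∣ n} Λ(d)`, so `∑_{n ≤ N} χ(n) log n / n = ∑_{d ≤ N} χ(d) Λ(d)/d H(N/d)`, `H(y) = ∑_{m ≤ y} χ(m)/m`. The left side is
bounded (the blocks `3i+1, 3i+2` give an alternating sum of a decreasing function), `|H(y) - L| ≤ 1/y`-type bound for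
`L = ∑ χ(m)/m = 1 - 1/2 + 1/4 - 1/5 + ... > 0` (take `L` as the limit or the supremum of the partial sums; every partial sum is
`≥ 1/2`), and `∑_{d ≤ N} Λ(d) = O(N)` (`Chebyshev.psi_le_const_mul_self`). No value of `L` is needed.
-/

namespace LT

open Finset

/-- The character modulo 3. -/
noncomputable def chi3 (n : ℕ) : ℝ := if n % 3 = 1 then 1 else if n % 3 = 2 then -1 else 0

theorem chi3_mul (m n : ℕ) : chi3 (m * n) = chi3 m * chi3 n := by
  unfold chi3
  rw [Nat.mul_mod]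
  have h1 : m % 3 < 3 := Nat.mod_lt _ (by norm_num)
  have h2 : n % 3 < 3 := Nat.mod_lt _ (by norm_num)
  generalize m % 3 = a at *
  generalize n % 3 = b at *
  interval_cases a <;> interval_cases b <;> norm_num

namespace KMertA

open Filter Topology

theorem chi3_abs (n : ℕ) : |chi3 n| ≤ 1 := by
  unfold chi3
  split_ifs <;> simp

/-- `χ(n) Λ(n) / n` -/
noncomputable def mF : ArithmeticFunction ℝ :=
  ⟨fun n => chi3 n * ArithmeticFunction.vonMangoldt n / (n : ℝ), by simp⟩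

/-- `χ(n) / n` -/
noncomputable def mG : ArithmeticFunction ℝ := ⟨fun n => chi3 n / (n : ℝ), by simp⟩

theorem mF_apply (n : ℕ) : mF n = chi3 n * ArithmeticFunction.vonMangoldt n / (n : ℝ) := rfl

theorem mG_apply (n : ℕ) : mG n = chi3 n / (n : ℝ) := rfl

theorem mF_mul_mG (n : ℕ) : (mF * mG) n = chi3 n * (Real.log n / n) := by
  rw [ArithmeticFunction.mul_apply]
  have h : ∀ p ∈ n.divisorsAntidiagonal, mF p.1 * mG p.2
      = (chi3 n / n) * ArithmeticFunction.vonMangoldt p.1 := by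
    intro p hp
    obtain ⟨h1, h2⟩ := Nat.mem_divisorsAntidiagonal.1 hp
    rw [mF_apply, mG_apply, ← h1, chi3_mul]
    push_cast
    rw [div_mul_div_comm, div_mul_eq_mul_div]
    ring
  rw [Finset.sum_congr rfl h, ← Finset.mul_sum,
    Nat.sum_divisorsAntidiagonal (fun a _ => ArithmeticFunction.vonMangoldt a),
    ArithmeticFunction.vonMangoldt_sum]
  ring

/-- sums twisted by the character as alternating sums -/
theorem alt (h : ℕ → ℝ) (k : ℕ) :
    ∑ d ∈ Finset.Ioc 0 k, chi3 d * h d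
      = ∑ i ∈ Finset.range (k - k / 3), (-1) ^ i * h (i + i / 2 + 1) := by
  induction k with
  | zero => simp
  | succ k ih =>
    rw [Finset.sum_Ioc_succ_top (Nat.zero_le k), ih]
    have h3 : (k + 1) % 3 < 3 := Nat.mod_lt _ (by norm_num)
    rcases (by omega : (k + 1) % 3 = 0 ∨ (k + 1) % 3 = 1 ∨ (k + 1) % 3 = 2) with h0 | h0 | h0
    · have e1 : k + 1 - (k + 1) / 3 = k - k / 3 := by omega
      have e2 : chi3 (k + 1) = 0 := by
        unfold chi3
        rw [h0]
        norm_num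
      rw [e1, e2, zero_mul, add_zero]
    · obtain ⟨t, rfl⟩ : ∃ t, k = 3 * t := ⟨k / 3, by omega⟩
      have e1 : 3 * t + 1 - (3 * t + 1) / 3 = 2 * t + 1 := by omega
      have e1' : 3 * t - (3 * t) / 3 = 2 * t := by omega
      have e2 : chi3 (3 * t + 1) = 1 := by
        unfold chi3
        rw [if_pos h0]
      have e3 : 2 * t + 2 * t / 2 + 1 = 3 * t + 1 := by omega
      rw [e1, e1', e2, Finset.sum_range_succ, e3, pow_mul]
      norm_num
    · obtain ⟨t, rfl⟩ : ∃ t, k = 3 * t + 1 := ⟨k / 3, by omega⟩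
      have e1 : 3 * t + 1 + 1 - (3 * t + 1 + 1) / 3 = 2 * t + 1 + 1 := by omega
      have e1' : 3 * t + 1 - (3 * t + 1) / 3 = 2 * t + 1 := by omega
      have e2 : chi3 (3 * t + 1 + 1) = -1 := by
        unfold chi3
        rw [if_neg (by omega), if_pos h0]
      have e3 : 2 * t + 1 + (2 * t + 1) / 2 + 1 = 3 * t + 1 + 1 := by omega
      rw [e1, e1', e2, Finset.sum_range_succ _ (2 * t + 1), e3, pow_succ, pow_mul]
      norm_num

theorem g_antitone : Antitone (fun i : ℕ => 1 / ((i + i / 2 + 1 : ℕ) : ℝ)) := by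
  intro i j hij
  have h1 : i + i / 2 + 1 ≤ j + j / 2 + 1 := by omega
  have h2 : ((i + i / 2 + 1 : ℕ) : ℝ) ≤ ((j + j / 2 + 1 : ℕ) : ℝ) := by exact_mod_cast h1
  have h3 : (0 : ℝ) < ((i + i / 2 + 1 : ℕ) : ℝ) := by positivity
  exact one_div_le_one_div_of_le h3 h2

/-- the limit of the series -/
theorem exists_limit : ∃ l : ℝ, 1 / 2 ≤ l ∧ ∀ n : ℕ,
    |∑ i ∈ Finset.range n, (-1 : ℝ) ^ i * (1 / ((i + i / 2 + 1 : ℕ) : ℝ)) - l| ≤
      1 / ((n + n / 2 + 1 : ℕ) : ℝ) := by
  have h0 : Tendsto (fun i : ℕ => 1 / ((i + i / 2 + 1 : ℕ) : ℝ)) atTop (𝓝 0) := by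
    have h1 : Tendsto (fun i : ℕ => 1 / ((i : ℝ) + 1)) atTop (𝓝 0) :=
      tendsto_one_div_add_atTop_nhds_zero_nat
    refine squeeze_zero (fun i => by positivity) (fun i => ?_) h1
    apply one_div_le_one_div_of_le (by positivity)
    push_cast
    have : (0 : ℝ) ≤ ((i / 2 : ℕ) : ℝ) := Nat.cast_nonneg _
    linarith
  obtain ⟨l, hl⟩ := g_antitone.tendsto_alternating_series_of_tendsto_zero h0
  refine ⟨l, ?_, ?_⟩
  · have h1 := g_antitone.alternating_series_le_tendsto hl 1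
    norm_num [Finset.sum_range_succ] at h1
    linarith
  · intro n
    rcases Nat.even_or_odd' n with ⟨j, rfl | rfl⟩
    · have h1 := g_antitone.alternating_series_le_tendsto hl j
      have h2 := g_antitone.tendsto_le_alternating_series hl j
      rw [Finset.sum_range_succ] at h2
      have e : (-1 : ℝ) ^ (2 * j) = 1 := by simp
      rw [e, one_mul] at h2
      rw [abs_le]
      have h3 : 0 ≤ 1 / ((2 * j + 2 * j / 2 + 1 : ℕ) : ℝ) := by positivity
      constructor <;> linarith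
    · have h1 := g_antitone.alternating_series_le_tendsto hl (j + 1)
      have h2 := g_antitone.tendsto_le_alternating_series hl j
      rw [show 2 * (j + 1) = 2 * j + 1 + 1 by ring, Finset.sum_range_succ] at h1
      have e : (-1 : ℝ) ^ (2 * j + 1) = -1 := by
        rw [pow_succ]; simp
      rw [e, neg_one_mul] at h1
      have h3 : 0 ≤ 1 / ((2 * j + 1 + (2 * j + 1) / 2 + 1 : ℕ) : ℝ) := by positivity
      rw [abs_le]
      constructor <;> linarith

/-- partial sums of an alternating series with an antitone sequence -/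
theorem alt_bound (g : ℕ → ℝ) (hg : Antitone g) (h0 : ∀ n, 0 ≤ g n) (n : ℕ) :
    0 ≤ ∑ i ∈ Finset.range n, (-1 : ℝ) ^ i * g i ∧
      ∑ i ∈ Finset.range n, (-1 : ℝ) ^ i * g i ≤ g 0 := by
  have key : ∀ k : ℕ, 0 ≤ ∑ i ∈ Finset.range (2 * k), (-1 : ℝ) ^ i * g i ∧
      ∑ i ∈ Finset.range (2 * k), (-1 : ℝ) ^ i * g i + g (2 * k) ≤ g 0 := by
    intro k
    induction k with
    | zero => simp
    | succ k ih =>
      have e1 : (-1 : ℝ) ^ (2 * k) = 1 := by simp
      have e2 : (-1 : ℝ) ^ (2 * k + 1) = -1 := by rw [pow_succ]; simp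
      rw [show 2 * (k + 1) = 2 * k + 1 + 1 by ring, Finset.sum_range_succ, Finset.sum_range_succ,
        e1, e2]
      have h1 : g (2 * k + 1) ≤ g (2 * k) := hg (by omega)
      have h2 : g (2 * k + 1 + 1) ≤ g (2 * k + 1) := hg (by omega)
      constructor <;> linarith [ih.1, ih.2]
  rcases Nat.even_or_odd' n with ⟨j, rfl | rfl⟩
  · have := key j
    exact ⟨this.1, by linarith [this.2, h0 (2 * j)]⟩
  · have := key j
    rw [Finset.sum_range_succ]
    have e1 : (-1 : ℝ) ^ (2 * j) = 1 := by simp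
    rw [e1, one_mul]
    exact ⟨by linarith [this.1, h0 (2 * j)], this.2⟩

theorem log_antitone : Antitone (fun i : ℕ =>
    Real.log ((i + 2 + (i + 2) / 2 + 1 : ℕ) : ℝ) / ((i + 2 + (i + 2) / 2 + 1 : ℕ) : ℝ)) := by
  intro i j hij
  have he : Real.exp 1 ≤ 3 := by
    have := Real.exp_one_lt_d9
    linarith
  have h1' : 3 ≤ i + 2 + (i + 2) / 2 + 1 := by omega
  have h1 : (3 : ℝ) ≤ ((i + 2 + (i + 2) / 2 + 1 : ℕ) : ℝ) := by exact_mod_cast h1'
  have h2 : ((i + 2 + (i + 2) / 2 + 1 : ℕ) : ℝ) ≤ ((j + 2 + (j + 2) / 2 + 1 : ℕ) : ℝ) := by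
    have : i + 2 + (i + 2) / 2 + 1 ≤ j + 2 + (j + 2) / 2 + 1 := by omega
    exact_mod_cast this
  exact Real.log_div_self_antitoneOn (he.trans h1) (he.trans (h1.trans h2)) h2

/-- `∑ χ(n) log n / n` is bounded -/
theorem T_bound (N : ℕ) :
    |∑ n ∈ Finset.Ioc 0 N, chi3 n * (Real.log n / n)| ≤ Real.log 2 / 2 + Real.log 4 / 4 := by
  rw [alt (fun n => Real.log n / n)]
  have h2 : 0 ≤ Real.log 2 := Real.log_nonneg (by norm_num)
  have h4 : 0 ≤ Real.log 4 := Real.log_nonneg (by norm_num)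
  generalize N - N / 3 = n
  match n with
  | 0 => simp only [Finset.range_zero, Finset.sum_empty, abs_zero]; positivity
  | 1 => norm_num; positivity
  | n + 2 =>
    have e0 : ∑ i ∈ Finset.range (n + 2), (-1 : ℝ) ^ i *
        (Real.log ((i + i / 2 + 1 : ℕ) : ℝ) / ((i + i / 2 + 1 : ℕ) : ℝ)) =
        (∑ i ∈ Finset.range n, (-1 : ℝ) ^ i * (Real.log ((i + 2 + (i + 2) / 2 + 1 : ℕ) : ℝ) /
          ((i + 2 + (i + 2) / 2 + 1 : ℕ) : ℝ))) - Real.log 2 / 2 := by
      rw [Finset.sum_range_succ', Finset.sum_range_succ']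
      have e1 : ∀ i ∈ Finset.range n, (-1 : ℝ) ^ (i + 1 + 1) *
          (Real.log ((i + 1 + 1 + (i + 1 + 1) / 2 + 1 : ℕ) : ℝ) /
            ((i + 1 + 1 + (i + 1 + 1) / 2 + 1 : ℕ) : ℝ)) = (-1 : ℝ) ^ i *
          (Real.log ((i + 2 + (i + 2) / 2 + 1 : ℕ) : ℝ) /
            ((i + 2 + (i + 2) / 2 + 1 : ℕ) : ℝ)) := by
        intro i _
        have e2 : (-1 : ℝ) ^ (i + 1 + 1) = (-1) ^ i := by
          rw [pow_succ, pow_succ]
          ring
        rw [e2]
      rw [Finset.sum_congr rfl e1]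
      norm_num
      ring
    rw [e0]
    have hb := alt_bound _ log_antitone (fun i => by
      have : (1 : ℝ) ≤ ((i + 2 + (i + 2) / 2 + 1 : ℕ) : ℝ) := by
        have : 1 ≤ i + 2 + (i + 2) / 2 + 1 := by omega
        exact_mod_cast this
      have := Real.log_nonneg this
      positivity) n
    have e2 : Real.log ((0 + 2 + (0 + 2) / 2 + 1 : ℕ) : ℝ) / ((0 + 2 + (0 + 2) / 2 + 1 : ℕ) : ℝ) =
        Real.log 4 / 4 := by norm_num
    have hb2 := hb.2
    rw [e2] at hb2
    have hb1 := hb.1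
    rw [abs_le]
    constructor
    · linarith
    · linarith

end KMertA

open KMertA in
theorem mert_chi3 : ∃ C : ℝ, ∀ N : ℕ, 1 ≤ N →
    |∑ n ∈ Finset.Icc 1 N, chi3 n * ArithmeticFunction.vonMangoldt n / (n : ℝ)| ≤ C := by
  obtain ⟨l, hl, hlim⟩ := exists_limit
  have hl0 : 0 < l := by linarith
  refine ⟨(Real.log 2 / 2 + Real.log 4 / 4 + (Real.log 4 + 4)) * (1 / l), fun N hN => ?_⟩
  have hIcc : Finset.Icc 1 N = Finset.Ioc 0 N := by
    ext x; simp only [Finset.mem_Icc, Finset.mem_Ioc]; omega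
  rw [hIcc]
  have hNpos : (0 : ℝ) < N := by exact_mod_cast hN
  have hT := T_bound N
  have hconv := ArithmeticFunction.sum_Ioc_mul_eq_sum_sum mF mG N
  rw [Finset.sum_congr rfl (fun n _ => mF_mul_mG n)] at hconv
  rw [hconv] at hT
  -- the inner sums
  have hinner : ∀ k : ℕ, |∑ d ∈ Finset.Ioc 0 k, mG d - l| ≤ 1 / ((k : ℝ) + 1) := by
    intro k
    have e1 : ∑ d ∈ Finset.Ioc 0 k, mG d
        = ∑ i ∈ Finset.range (k - k / 3), (-1 : ℝ) ^ i * (1 / ((i + i / 2 + 1 : ℕ) : ℝ)) := by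
      have e2 := alt (fun d => 1 / (d : ℝ)) k
      have e3 : ∑ d ∈ Finset.Ioc 0 k, mG d
          = ∑ d ∈ Finset.Ioc 0 k, chi3 d * (1 / (d : ℝ)) := by
        refine Finset.sum_congr rfl (fun d _ => ?_)
        rw [mG_apply]
        ring
      rw [e3, e2]
    rw [e1]
    refine (hlim _).trans ?_
    apply one_div_le_one_div_of_le (by positivity)
    have h1 : k + 1 ≤ (k - k / 3) + (k - k / 3) / 2 + 1 := by omega
    exact_mod_cast h1
  have hpsi : ∑ n ∈ Finset.Ioc 0 N, ArithmeticFunction.vonMangoldt n ≤ (Real.log 4 + 4) * N := by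
    have h1 := Chebyshev.psi_le_const_mul_self (x := (N : ℝ)) hNpos.le
    refine le_trans (le_of_eq ?_) h1
    unfold Chebyshev.psi
    rw [Nat.floor_natCast]
  set M : ℝ := ∑ n ∈ Finset.Ioc 0 N, mF n with hM
  have hdiff : |∑ n ∈ Finset.Ioc 0 N, mF n * ∑ d ∈ Finset.Ioc 0 (N / n), mG d
      - l * M| ≤ Real.log 4 + 4 := by
    have e1 : ∑ n ∈ Finset.Ioc 0 N, mF n * ∑ d ∈ Finset.Ioc 0 (N / n), mG d
        - l * M
        = ∑ n ∈ Finset.Ioc 0 N, mF n * (∑ d ∈ Finset.Ioc 0 (N / n), mG d - l) := by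
      rw [hM, Finset.mul_sum, ← Finset.sum_sub_distrib]
      refine Finset.sum_congr rfl (fun n _ => ?_)
      ring
    rw [e1]
    refine (Finset.abs_sum_le_sum_abs _ _).trans ?_
    have h1 : ∀ n ∈ Finset.Ioc 0 N, |mF n * (∑ d ∈ Finset.Ioc 0 (N / n), mG d - l)|
        ≤ ArithmeticFunction.vonMangoldt n / N := by
      intro n hn
      rw [Finset.mem_Ioc] at hn
      have hn0 : (0 : ℝ) < n := by exact_mod_cast hn.1
      have hv : 0 ≤ ArithmeticFunction.vonMangoldt n := ArithmeticFunction.vonMangoldt_nonneg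
      rw [abs_mul]
      have h2 : |mF n| ≤ ArithmeticFunction.vonMangoldt n / n := by
        rw [mF_apply, abs_div, abs_mul, abs_of_nonneg hv, abs_of_pos hn0]
        apply div_le_div_of_nonneg_right _ hn0.le
        have := chi3_abs n
        nlinarith
      have h3 : |∑ d ∈ Finset.Ioc 0 (N / n), mG d - l| ≤ n / N := by
        refine (hinner (N / n)).trans ?_
        rw [div_le_div_iff₀ (by positivity) hNpos, one_mul]
        have h4 : N < n * (N / n + 1) := by
          have := Nat.lt_mul_div_succ N hn.1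
          simpa [Nat.succ_eq_add_one] using this
        have h5 : (N : ℝ) < n * (((N / n : ℕ) : ℝ) + 1) := by exact_mod_cast h4
        linarith
      calc |mF n| * |∑ d ∈ Finset.Ioc 0 (N / n), mG d - l|
          ≤ (ArithmeticFunction.vonMangoldt n / n) * (n / N) := by
            apply mul_le_mul h2 h3 (abs_nonneg _) (by positivity)
        _ = ArithmeticFunction.vonMangoldt n / N := by
            field_simp
    refine (Finset.sum_le_sum h1).trans ?_
    rw [← Finset.sum_div, div_le_iff₀ hNpos]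
    exact hpsi
  have hMeq : ∑ n ∈ Finset.Ioc 0 N, chi3 n *
      ArithmeticFunction.vonMangoldt n / (n : ℝ) = M := rfl
  rw [hMeq]
  have h6 : |l * M| ≤ Real.log 2 / 2 + Real.log 4 / 4 + (Real.log 4 + 4) := by
    have h7 := abs_le.1 hdiff
    have h8 := abs_le.1 hT
    rw [abs_le]
    constructor <;> linarith [h7.1, h7.2, h8.1, h8.2]
  rw [abs_mul, abs_of_pos hl0] at h6
  have h9 : |M| = (l * |M|) * (1 / l) := by
    field_simp
  rw [h9]
  exact mul_le_mul_of_nonneg_right h6 (by positivity)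

end LT
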