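import Pool.Agent.Lib_MP_f1937f_nt.KMertA
import Pool.Agent.Lib_MP_f1a94e_mr.MertensA

/-!
# MP_f1937f_nt, theorem C: primes `= 1 mod 3` in intervals `(x/K, x]` (piece KMERTB)

Adaptation of Pool/Agent/Lib_MP_f1a94e_mr/MertensA.lean (`mertens_log` for primes `1 mod 4`): `mertens3`. Then
`k_primes`: with `K = exp (4 C + 2)` the sum of `log q / q` over the primes `q = 1 mod 3` in `(x/K, x]` is at least
`(1/2) log K - 2 C ≥ 1`, and every term is at most `K log x / x`.
-/

namespace LT

open Finset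

theorem mertens3 : ∃ C : ℝ, ∀ x : ℝ, 2 ≤ x →
    |∑ p ∈ (Finset.Icc 1 ⌊x⌋₊).filter (fun p => p.Prime ∧ p % 3 = 1), Real.log p / p -
      Real.log x / 2| ≤ C := by
  obtain ⟨C1, h1⟩ := Pool.Agent.GaussMR.mert_one
  obtain ⟨C2, h2⟩ := mert_chi3
  obtain ⟨C3, h3⟩ := Pool.Agent.GaussMR.mertensA_powers
  refine ⟨C1 / 2 + C2 / 2 + (C3 + 1) + Real.log 2 / 2, fun x hx => ?_⟩
  set N := ⌊x⌋₊ with hN
  have hN1 : 1 ≤ N := by
    rw [hN, Nat.one_le_floor_iff]
    linarith
  have hNpos : (0 : ℝ) < N := by exact_mod_cast hN1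
  have k1 := h1 N hN1
  have k2 := h2 N hN1
  have k3 := h3 N
  set S1 := ∑ n ∈ Finset.Icc 1 N, ArithmeticFunction.vonMangoldt n / (n : ℝ) with hS1
  set S2 := ∑ n ∈ Finset.Icc 1 N,
    chi3 n * ArithmeticFunction.vonMangoldt n / (n : ℝ) with hS2
  set A := ∑ p ∈ (Finset.Icc 1 N).filter (fun p => p.Prime ∧ p % 3 = 1), Real.log p / p with hA
  -- comparison of the logarithms
  have hlog : |Real.log N - Real.log x| ≤ Real.log 2 := by
    have a1 : (N : ℝ) ≤ x := Nat.floor_le (by linarith)
    have a2 : x ≤ 2 * N := by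
      have := Nat.lt_floor_add_one x
      rw [← hN] at this
      have : (1 : ℝ) ≤ N := by exact_mod_cast hN1
      linarith
    have b1 := Real.log_le_log hNpos a1
    have b2 := Real.log_le_log (by linarith) a2
    rw [Real.log_mul (by norm_num) hNpos.ne'] at b2
    rw [abs_le]
    constructor <;> linarith [Real.log_nonneg (by norm_num : (1 : ℝ) ≤ 2)]
  -- termwise comparison
  have hterm : ∀ n ∈ Finset.Icc 1 N,
      |(if n.Prime ∧ n % 3 = 1 then Real.log n / (n : ℝ) else 0) -
        (ArithmeticFunction.vonMangoldt n / (n : ℝ) +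
          chi3 n * ArithmeticFunction.vonMangoldt n / (n : ℝ)) / 2| ≤
      (if n.Prime then 0 else ArithmeticFunction.vonMangoldt n) / (n : ℝ) +
        (if n = 3 then 1 else 0) := by
    intro n hn
    have hn1 : 1 ≤ n := (Finset.mem_Icc.1 hn).1
    have hnpos : (0 : ℝ) < n := by exact_mod_cast hn1
    by_cases hp : n.Prime
    · have hΛ : ArithmeticFunction.vonMangoldt n = Real.log n :=
        ArithmeticFunction.vonMangoldt_apply_prime hp
      rw [if_pos hp, zero_div, zero_add, hΛ]
      rcases eq_or_ne n 3 with h3 | hne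
      · subst h3
        have hχ : chi3 3 = 0 := by
          unfold chi3
          norm_num
        rw [hχ, if_neg (by norm_num), if_pos rfl]
        have l1 : Real.log 3 ≤ 2 := by
          have := Real.log_le_sub_one_of_pos (show (0 : ℝ) < 3 by norm_num)
          linarith
        have l2 : 0 ≤ Real.log 3 := Real.log_nonneg (by norm_num)
        rw [abs_le]
        push_cast
        constructor <;> linarith
      · rw [if_neg hne]
        have h4 : n % 3 = 1 ∨ n % 3 = 2 := by
          have h5 : n % 3 ≠ 0 := by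
            intro h6
            have h7 := Nat.dvd_of_mod_eq_zero h6
            rcases (Nat.dvd_prime hp).mp h7 with h8 | h8
            · omega
            · exact hne h8.symm
          omega
        rcases h4 with h4 | h4
        · have hχ : chi3 n = 1 := by
            unfold chi3
            rw [if_pos h4]
          rw [hχ, if_pos ⟨hp, h4⟩]
          simp
        · have hχ : chi3 n = -1 := by
            unfold chi3
            rw [if_neg (by omega), if_pos h4]
          rw [hχ, if_neg (by omega)]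
          simp [neg_div]
    · have hne : n ≠ 3 := by
        rintro rfl
        exact hp Nat.prime_three
      rw [if_neg hp, if_neg hne, if_neg (fun h => hp h.1), add_zero, zero_sub, abs_neg]
      have hΛ : 0 ≤ ArithmeticFunction.vonMangoldt n / (n : ℝ) :=
        div_nonneg ArithmeticFunction.vonMangoldt_nonneg hnpos.le
      have hχ := KMertA.chi3_abs n
      rw [mul_div_assoc]
      set L := ArithmeticFunction.vonMangoldt n / (n : ℝ) with hL
      set c := chi3 n with hc
      rw [abs_le] at hχ ⊢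
      constructor <;> nlinarith [hχ.1, hχ.2]
  have hAsum : A = ∑ n ∈ Finset.Icc 1 N, (if n.Prime ∧ n % 3 = 1 then Real.log n / (n : ℝ) else 0) := by
    rw [hA, Finset.sum_filter]
  have hdiff : |A - (S1 + S2) / 2| ≤ C3 + 1 := by
    have e1 : A - (S1 + S2) / 2 = ∑ n ∈ Finset.Icc 1 N,
        ((if n.Prime ∧ n % 3 = 1 then Real.log n / (n : ℝ) else 0) -
        (ArithmeticFunction.vonMangoldt n / (n : ℝ) +
          chi3 n * ArithmeticFunction.vonMangoldt n / (n : ℝ)) / 2) := by
      rw [Finset.sum_sub_distrib, ← hAsum, ← Finset.sum_div, Finset.sum_add_distrib]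
    rw [e1]
    refine (Finset.abs_sum_le_sum_abs _ _).trans ((Finset.sum_le_sum hterm).trans ?_)
    rw [Finset.sum_add_distrib]
    refine add_le_add k3 ?_
    rw [Finset.sum_ite_eq']
    split_ifs <;> norm_num
  have e2 : A - Real.log x / 2 = (A - (S1 + S2) / 2) + (S1 - Real.log N) / 2 + S2 / 2 +
      (Real.log N - Real.log x) / 2 := by ring
  rw [e2]
  have t1 : |(S1 - Real.log N) / 2| ≤ C1 / 2 := by
    rw [abs_div, abs_of_pos (by norm_num : (0 : ℝ) < 2)]
    linarith
  have t2 : |S2 / 2| ≤ C2 / 2 := by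
    rw [abs_div, abs_of_pos (by norm_num : (0 : ℝ) < 2)]
    linarith
  have t3 : |(Real.log N - Real.log x) / 2| ≤ Real.log 2 / 2 := by
    rw [abs_div, abs_of_pos (by norm_num : (0 : ℝ) < 2)]
    linarith
  refine (abs_add_le _ _).trans ?_
  have u1 := abs_add_le (A - (S1 + S2) / 2 + (S1 - Real.log N) / 2) (S2 / 2)
  have u2 := abs_add_le (A - (S1 + S2) / 2) ((S1 - Real.log N) / 2)
  linarith

theorem k_primes : ∃ K c x₀ : ℝ, 1 < K ∧ 0 < c ∧ ∀ x : ℝ, x₀ ≤ x →
    c * x / Real.log x ≤
      (((Finset.Icc 1 ⌊x⌋₊).filter (fun q : ℕ => q.Prime ∧ q % 3 = 1 ∧ x / K < (q : ℝ))).card : ℝ) := by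
  obtain ⟨C, hC⟩ := mertens3
  have hC0 : 0 ≤ C := (abs_nonneg _).trans (hC 2 le_rfl)
  set K := Real.exp (4 * C + 2) with hK
  have hK1 : 1 < K := by
    rw [hK, ← Real.exp_zero]
    exact Real.exp_lt_exp.mpr (by linarith)
  have hK0 : 0 < K := by linarith
  refine ⟨K, 1 / K, 2 * K, hK1, by positivity, ?_⟩
  intro x hx
  have hx2 : 2 < x := by linarith
  have hx0 : 0 < x := by linarith
  have hxK : 2 ≤ x / K := by
    rw [le_div_iff₀ hK0]
    exact hx
  have hxK0 : 0 < x / K := by linarith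
  have hlx : 0 < Real.log x := Real.log_pos (by linarith)
  have h1 := (abs_le.1 (hC x hx2.le)).1
  have h2 := (abs_le.1 (hC (x / K) hxK)).2
  rw [Real.log_div hx0.ne' hK0.ne', hK, Real.log_exp, ← hK] at h2
  set P := (Finset.Icc 1 ⌊x⌋₊).filter (fun p : ℕ => p.Prime ∧ p % 3 = 1) with hP
  set Q := (Finset.Icc 1 ⌊x⌋₊).filter
    (fun q : ℕ => q.Prime ∧ q % 3 = 1 ∧ x / K < (q : ℝ)) with hQ
  have hsplit : ∑ p ∈ P, Real.log p / p = ∑ p ∈ Q, Real.log p / p +
      ∑ p ∈ (Finset.Icc 1 ⌊x / K⌋₊).filter (fun p => p.Prime ∧ p % 3 = 1), Real.log p / p := by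
    rw [← Finset.sum_filter_add_sum_filter_not P (fun p : ℕ => x / K < (p : ℝ))]
    congr 1
    · apply Finset.sum_congr _ (fun _ _ => rfl)
      rw [hP, hQ, Finset.filter_filter]
      ext p
      simp only [Finset.mem_filter]
      tauto
    · apply Finset.sum_congr _ (fun _ _ => rfl)
      rw [hP, Finset.filter_filter]
      ext p
      simp only [Finset.mem_filter, Finset.mem_Icc]
      constructor
      · rintro ⟨⟨h3, h4⟩, h5, h6⟩
        exact ⟨⟨h3, (Nat.le_floor_iff' (by omega)).2 (not_lt.mp h6)⟩, h5⟩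
      · rintro ⟨⟨h3, h4⟩, h5⟩
        have h6 := (Nat.le_floor_iff' (by omega)).1 h4
        refine ⟨⟨h3, ?_⟩, h5, not_lt.mpr h6⟩
        rw [Nat.le_floor_iff' (by omega)]
        refine h6.trans ?_
        rw [div_le_iff₀ hK0]
        nlinarith
  have h3 : 1 ≤ ∑ p ∈ Q, Real.log p / p := by
    rw [hsplit] at h1
    linarith
  have h4 : ∑ p ∈ Q, Real.log p / p ≤ Q.card * (K * Real.log x / x) := by
    rw [← nsmul_eq_mul]
    apply Finset.sum_le_card_nsmul
    intro q hq
    rw [hQ, Finset.mem_filter, Finset.mem_Icc] at hq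
    obtain ⟨⟨h5, h6⟩, h7, h8, h9⟩ := hq
    have hq0 : (0 : ℝ) < (q : ℝ) := by exact_mod_cast h5
    have h10 : (q : ℝ) ≤ x := (Nat.le_floor_iff' (by omega)).1 h6
    have h11 : Real.log q ≤ Real.log x := Real.log_le_log hq0 h10
    have h12 : K * Real.log x / x = Real.log x / (x / K) := by
      field_simp
    rw [h12]
    exact div_le_div₀ hlx.le h11 hxK0 h9.le
  have h5 : 1 ≤ (Q.card : ℝ) * (K * Real.log x / x) := h3.trans h4
  rw [div_le_iff₀ hlx]
  have h6 : x ≤ (Q.card : ℝ) * (K * Real.log x) := by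
    have h7 : x * 1 ≤ x * ((Q.card : ℝ) * (K * Real.log x / x)) := by gcongr
    have h8 : x * ((Q.card : ℝ) * (K * Real.log x / x)) = (Q.card : ℝ) * (K * Real.log x) := by
      field_simp
    linarith
  rw [one_div, inv_mul_le_iff₀ hK0]
  linarith

end LT
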