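import Mathlib

/-!
# MP_f1937f_nt, theorem C: coprime pairs in a box (piece KPAIRS)

Proof. Let `s = √T`, `a = 1 + 6 i`, `b = 6 j`. The number of `(i, j)` in the box is `≥ c₀ T` (`η s / 6 - 2` choices for `i` and for
`j`). `gcd(a, b)` is prime to 6, so a pair which is not coprime has a common factor `q ≥ 5` (take `q` prime), `q ≤ (1 + η) s`. For every
`q` prime to `6` the number of the `i` with `q ∣ a` is at most `A / q + 1`, `A = η s / 6 + 1`, the same for `j`; the number of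
pairs is at most `(A / q + 1)²`, and the sum over `5 ≤ q ≤ (1+η) s` is at most `A² / 4 + O(s log s)`
(`∑_{q ≥ 5} 1/q² ≤ ∑ 1/(q(q-1)) = 1/4`). So at least `A²/2` pairs remain for large `T`.
-/

namespace LT

private lemma kp_sq_sum (M : ℕ) (hM : 4 ≤ M) :
    ∑ q ∈ Finset.Ico 5 (M+1), (1:ℝ) / (q:ℝ)^2 ≤ 1/4 - 1/M := by
  induction M, hM using Nat.le_induction with
  | base => norm_num
  | succ n hn ih =>
    rw [Finset.sum_Ico_succ_top (by omega)]
    have hn' : (4:ℝ) ≤ n := by exact_mod_cast hn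
    have : (1:ℝ) / ((n+1:ℕ):ℝ)^2 ≤ 1/n - 1/((n+1:ℕ):ℝ) := by
      push_cast
      rw [div_sub_div _ _ (by positivity) (by positivity),
        div_le_div_iff₀ (by positivity) (by positivity)]
      nlinarith
    linarith

private lemma kp_card_i (i0 M q : ℕ) (hq : 0 < q) :
    ((Finset.Ico i0 (i0+M)).filter (fun i => q ∣ 1 + 6*i)).card ≤ M / q + 1 := by
  have h1 : ((Finset.Ico i0 (i0+M)).filter (fun i => q ∣ 1 + 6*i)).card
      ≤ (Finset.range (M/q+1)).card := by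
    apply Finset.card_le_card_of_injOn (fun i => (i - i0)/q)
    · intro i hi
      simp only [Finset.coe_filter, Finset.mem_Ico, Set.mem_ofPred_eq] at hi
      simp only [Finset.coe_range, Set.mem_Iio]
      have : (i - i0)/q ≤ M/q := Nat.div_le_div_right (by omega)
      omega
    · have key : ∀ i j : ℕ, i0 ≤ i → i ≤ j → q ∣ 1 + 6*i → q ∣ 1 + 6*j →
          (i - i0)/q = (j - i0)/q → i = j := by
        intro i j hi0 hij h1 h2 h3
        have hd : q ∣ 6 * (j - i) := by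
          have : 6 * (j - i) = (1 + 6*j) - (1 + 6*i) := by omega
          rw [this]
          exact Nat.dvd_sub h2 h1
        have hc : Nat.Coprime q 6 := by
          have h4 : Nat.gcd q 6 ∣ 1 := by
            have h5 : Nat.gcd q 6 ∣ 1 + 6*i := (Nat.gcd_dvd_left q 6).trans h1
            have h6 : Nat.gcd q 6 ∣ 6*i := (Nat.gcd_dvd_right q 6).trans (dvd_mul_right 6 i)
            exact (Nat.dvd_add_left h6).mp h5
          exact Nat.dvd_one.mp h4
        have hd' : q ∣ j - i := hc.dvd_of_dvd_mul_left hd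
        have hlt : j - i < q := by
          have e1 := Nat.div_add_mod (i - i0) q
          have e2 := Nat.div_add_mod (j - i0) q
          have e3 := Nat.mod_lt (j - i0) hq
          rw [h3] at e1
          omega
        have := Nat.eq_zero_of_dvd_of_lt hd' hlt
        omega
      intro i hi j hj hij
      simp only [Finset.coe_filter, Finset.mem_Ico, Set.mem_ofPred_eq] at hi hj hij
      rcases le_total i j with h | h
      · exact key i j hi.1.1 h hi.2 hj.2 hij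
      · exact (key j i hj.1.1 h hj.2 hi.2 hij.symm).symm
  simpa using h1

private lemma kp_bad (i0 M : ℕ) (hM : 4 ≤ M) :
    ((((Finset.Ico i0 (i0+M)) ×ˢ (Finset.Ioc 0 M)).filter
      (fun p : ℕ × ℕ => ¬ Nat.Coprime (1 + 6*p.1) (6*p.2))).card : ℝ) ≤ (M:ℝ)^2 / 2 := by
  have hsub : ((Finset.Ico i0 (i0+M)) ×ˢ (Finset.Ioc 0 M)).filter
      (fun p : ℕ × ℕ => ¬ Nat.Coprime (1 + 6*p.1) (6*p.2)) ⊆
      (Finset.Ico 5 (M+1)).biUnion (fun q =>
        ((Finset.Ico i0 (i0+M)).filter (fun i => q ∣ 1 + 6*i)) ×ˢ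
          ((Finset.Ioc 0 M).filter (fun j => q ∣ j))) := by
    intro p hp
    simp only [Finset.mem_filter, Finset.mem_product, Finset.mem_Ico, Finset.mem_Ioc] at hp
    obtain ⟨⟨hp1, hp2⟩, hp3⟩ := hp
    obtain ⟨q, hq, hq1, hq2⟩ := Nat.Prime.not_coprime_iff_dvd.mp hp3
    have hc : Nat.Coprime q 6 := by
      have h4 : Nat.gcd q 6 ∣ 1 := by
        have h5 : Nat.gcd q 6 ∣ 1 + 6*p.1 := (Nat.gcd_dvd_left q 6).trans hq1
        have h6 : Nat.gcd q 6 ∣ 6*p.1 := (Nat.gcd_dvd_right q 6).trans (dvd_mul_right 6 p.1)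
        exact (Nat.dvd_add_left h6).mp h5
      exact Nat.dvd_one.mp h4
    have hq3 : q ∣ p.2 := hc.dvd_of_dvd_mul_left hq2
    have hq4 : q ≤ M := (Nat.le_of_dvd hp2.1 hq3).trans hp2.2
    have hq5 : 5 ≤ q := by
      by_contra h
      have h2 := hq.two_le
      have : q = 2 ∨ q = 3 ∨ q = 4 := by omega
      rcases this with h | h | h
      · subst h; revert hc; decide
      · subst h; revert hc; decide
      · subst h; revert hq; decide
    simp only [Finset.mem_biUnion, Finset.mem_product, Finset.mem_filter, Finset.mem_Ico,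
      Finset.mem_Ioc]
    exact ⟨q, ⟨hq5, by omega⟩, ⟨hp1, hq1⟩, ⟨hp2, hq3⟩⟩
  have h1 := (Finset.card_le_card hsub).trans Finset.card_biUnion_le
  have h2 : ((((Finset.Ico i0 (i0+M)) ×ˢ (Finset.Ioc 0 M)).filter
      (fun p : ℕ × ℕ => ¬ Nat.Coprime (1 + 6*p.1) (6*p.2))).card : ℝ) ≤
      ∑ q ∈ Finset.Ico 5 (M+1), (((M:ℝ)/q + 1) * ((M:ℝ)/q)) := by
    refine (Nat.cast_le.mpr h1).trans ?_
    push_cast
    apply Finset.sum_le_sum
    intro q hq
    rw [Finset.mem_Ico] at hq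
    have hq0 : 0 < q := by omega
    rw [Finset.card_product, Nat.Ioc_filter_dvd_card_eq_div]
    push_cast
    have e1 : ((M / q : ℕ) : ℝ) ≤ (M:ℝ)/q := Nat.cast_div_le
    have e2 : ((((Finset.Ico i0 (i0+M)).filter (fun i => q ∣ 1 + 6*i)).card : ℕ) : ℝ)
        ≤ (M:ℝ)/q + 1 := by
      have := kp_card_i i0 M q hq0
      have h3 : ((((Finset.Ico i0 (i0+M)).filter (fun i => q ∣ 1 + 6*i)).card : ℕ) : ℝ)
        ≤ ((M / q + 1 : ℕ) : ℝ) := by exact_mod_cast this
      push_cast at h3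
      linarith
    exact mul_le_mul e2 e1 (by positivity) (by positivity)
  have h3 : ∀ q ∈ Finset.Ico 5 (M+1), (((M:ℝ)/q + 1) * ((M:ℝ)/q)) ≤
      ((M:ℝ)^2 + 2*M) * (1/(q:ℝ)^2) + (M:ℝ)/8 := by
    intro q hq
    rw [Finset.mem_Ico] at hq
    have hq0 : (0:ℝ) < q := by
      have : 0 < q := by omega
      exact_mod_cast this
    have hM0 : (0:ℝ) ≤ M := by positivity
    have h4 : (1:ℝ)/q ≤ 1/8 + 2 * (1/(q:ℝ)^2) := by
      have : 1/8 + 2 * (1/(q:ℝ)^2) - 1/q = 2 * (1/(q:ℝ) - 1/4)^2 := by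
        field_simp
        ring
      nlinarith [sq_nonneg (1/(q:ℝ) - 1/4)]
    have h5 : (((M:ℝ)/q + 1) * ((M:ℝ)/q)) = (M:ℝ)^2 * (1/(q:ℝ)^2) + M * (1/q) := by
      field_simp
    rw [h5]
    nlinarith [mul_le_mul_of_nonneg_left h4 hM0]
  have h4 := h2.trans (Finset.sum_le_sum h3)
  rw [Finset.sum_add_distrib, ← Finset.mul_sum, Finset.sum_const, Nat.card_Ico] at h4
  have h5 := kp_sq_sum M hM
  have hM' : (4:ℝ) ≤ M := by exact_mod_cast hM
  have h6 : ((M + 1 - 5 : ℕ) : ℝ) = M - 4 := by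
    have : M + 1 - 5 = M - 4 := by omega
    rw [this, Nat.cast_sub hM]
    norm_num
  rw [nsmul_eq_mul, h6] at h4
  have h7 : ∑ q ∈ Finset.Ico 5 (M+1), (1:ℝ) / (q:ℝ)^2 ≤ 1/4 := by
    have : (0:ℝ) ≤ 1/M := by positivity
    linarith
  have h8 : ((M:ℝ)^2 + 2*M) * ∑ q ∈ Finset.Ico 5 (M+1), (1:ℝ) / (q:ℝ)^2
      ≤ ((M:ℝ)^2 + 2*M) * (1/4) :=
    mul_le_mul_of_nonneg_left h7 (by positivity)
  nlinarith

theorem k_pairs (η : ℝ) (hη : 0 < η) : ∃ c : ℝ, 0 < c ∧ ∃ T₀ : ℝ, ∀ T : ℝ, T₀ ≤ T →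
    ∃ S : Finset (ℕ × ℕ), (∀ q ∈ S, q.1 % 6 = 1 ∧ q.2 % 6 = 0 ∧ Nat.Coprime q.1 q.2 ∧
      Real.sqrt T < q.1 ∧ (q.1 : ℝ) < (1 + η) * Real.sqrt T ∧ 0 < q.2 ∧
      (q.2 : ℝ) < η * Real.sqrt T) ∧ c * T ≤ S.card := by
  refine ⟨η^2/128, by positivity, (56/η)^2, ?_⟩
  intro T hT
  have hT0 : 0 < T := lt_of_lt_of_le (by positivity) hT
  set s := Real.sqrt T with hs
  have hs1 : 56/η ≤ s := by
    rw [hs]
    apply Real.le_sqrt_of_sq_le
    exact hT
  have hs0 : 0 < s := lt_of_lt_of_le (by positivity) hs1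
  have hs2 : 56 ≤ η * s := by
    rw [div_le_iff₀ hη] at hs1
    linarith
  have hsT : s^2 = T := Real.sq_sqrt hT0.le
  set M := ⌊η * s / 7⌋₊ with hM
  have hM1 : (M:ℝ) ≤ η * s / 7 := Nat.floor_le (by positivity)
  have hM2 : η * s / 7 < M + 1 := Nat.lt_floor_add_one _
  have hM3 : (7:ℝ) < M + 1 := by linarith
  have hM4 : 4 ≤ M := by
    have : (7:ℝ) < ((M + 1 : ℕ) : ℝ) := by push_cast; linarith
    have : 7 < M + 1 := by exact_mod_cast this
    omega
  set i0 := ⌊s/6⌋₊ + 1 with hi0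
  have hi1 : s < 6 * (i0:ℝ) := by
    have := Nat.lt_floor_add_one (s/6)
    rw [hi0]; push_cast; linarith
  have hi2 : 6 * (i0:ℝ) ≤ s + 6 := by
    have := Nat.floor_le (show 0 ≤ s/6 by positivity)
    rw [hi0]; push_cast; linarith
  let B := (Finset.Ico i0 (i0+M)) ×ˢ (Finset.Ioc 0 M)
  let G := B.filter (fun p : ℕ × ℕ => Nat.Coprime (1 + 6*p.1) (6*p.2))
  have hinj : Function.Injective (fun p : ℕ × ℕ => (1 + 6*p.1, 6*p.2)) := by
    intro p q h
    simp only [Prod.mk.injEq] at h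
    ext <;> omega
  refine ⟨G.map ⟨_, hinj⟩, ?_, ?_⟩
  · intro q hq
    rw [Finset.mem_map] at hq
    obtain ⟨p, hp, rfl⟩ := hq
    simp only [G, B, Finset.mem_filter, Finset.mem_product, Finset.mem_Ico, Finset.mem_Ioc] at hp
    obtain ⟨⟨⟨h1, h2⟩, h3, h4⟩, h5⟩ := hp
    simp only [Function.Embedding.coeFn_mk]
    have h1' : (i0:ℝ) ≤ p.1 := by exact_mod_cast h1
    have h2' : (p.1:ℝ) + 1 ≤ i0 + M := by exact_mod_cast h2
    have h4' : (p.2:ℝ) ≤ M := by exact_mod_cast h4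
    refine ⟨by omega, by omega, h5, ?_, ?_, by omega, ?_⟩
    · push_cast; linarith
    · push_cast; nlinarith
    · push_cast; linarith
  · rw [Finset.card_map]
    have h1 := kp_bad i0 M hM4
    have h2 : G.card + (B.filter (fun p : ℕ × ℕ => ¬ Nat.Coprime (1 + 6*p.1) (6*p.2))).card
        = B.card := Finset.card_filter_add_card_filter_not _
    have h3 : B.card = M * M := by simp [B]
    have h4 : (G.card : ℝ) + ((B.filter (fun p : ℕ × ℕ =>
        ¬ Nat.Coprime (1 + 6*p.1) (6*p.2))).card : ℝ) = M * M := by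
      have h2' := h2.trans h3
      exact_mod_cast h2'
    have h5 : η * s / 8 ≤ M := by linarith
    have h6 : (η * s / 8)^2 ≤ (M:ℝ)^2 := by
      apply pow_le_pow_left₀ (by positivity) h5
    have h7 : (η * s / 8)^2 = η^2 * T / 64 := by
      rw [← hsT]; ring
    have h8 : ((B.filter (fun p : ℕ × ℕ =>
        ¬ Nat.Coprime (1 + 6*p.1) (6*p.2))).card : ℝ) ≤ (M:ℝ)^2/2 := h1
    nlinarith

end LT
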