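import Pool.Agent.Lib_MP_f1937f_nt.KHom

/-!
# MP_f1937f_nt, theorem C: a map killing the `N`-torsion has degree at least `(N² - 1) / 2`
(piece KRANKB)

Proof. Let `n` be odd. A point `(x, y) ≠ 0` with `N • (x, y) = 0` has `y ≠ 0` (otherwise its order is 2; see
`two_of_y_eq_zero`, `y_eq_zero_of_two` in FKerA/FKer). As `Ψ (x, y) = 0`, `Compat` shows that the denominator of
`uu ψ` vanishes at `x` (if it did not, `Ψ (x, y)` would be an affine point, not `0`). There are `N² - 1` such
points (`card_tors`), at most two for each `x`, and at most `(uu ψ).denom.natDegree ≤ hh ψ` roots. Separability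
of `ψ` is not needed.
-/

namespace LT

open Polynomial WeierstrassCurve

section

variable {k : Type} [Field k] [DecidableEq k] [IsAlgClosed k]

/-- coordinates of a point, up to the sign of `y` and a bit -/
def KRankB.g {a b : k} (s : k → k) : Pt a b → Option (k × Bool)
  | .zero => none
  | .some x y _ => some (x, decide (y = s x))

omit [IsAlgClosed k] in
theorem KRankB.g_inj {a b : k} {s : k → k} (hs : ∀ x, s x ^ 2 = x ^ 3 + a * x + b) :
    Function.Injective (KRankB.g (a := a) (b := b) s) := by
  have key : ∀ x y : k, (SW a b).toAffine.Nonsingular x y → y = s x ∨ y = -s x := by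
    intro x y h
    have h1 : y ^ 2 = x ^ 3 + a * x + b := sw_equation.1 h.1
    have h2 : (y - s x) * (y + s x) = 0 := by linear_combination h1 - hs x
    rcases mul_eq_zero.1 h2 with h3 | h3
    · left; exact sub_eq_zero.1 h3
    · right; exact eq_neg_of_add_eq_zero_left h3
  rintro (_ | ⟨x, y, h⟩) (_ | ⟨x', y', h'⟩) he
  · rfl
  · simp [KRankB.g] at he
  · simp [KRankB.g] at he
  · simp only [KRankB.g, Option.some.injEq, Prod.mk.injEq, decide_eq_decide] at he
    obtain ⟨rfl, he⟩ := he
    have hy : y = y' := by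
      by_cases h1 : y = s x
      · rw [h1, he.1 h1]
      · have h2 : ¬ y' = s x := fun h3 => h1 (he.2 h3)
        rw [(key x y h).resolve_left h1, (key x y' h').resolve_left h2]
    subst hy
    rfl

theorem le_of_kill_tors (h2 : (2 : k) ≠ 0) {a b a' b' : k} (hd : dsc a b ≠ 0)
    {ψ : MM a b a' b'} (h0 : ψ ≠ .zero) {Ψ : Pt a b →+ Pt a' b'} (hC : Compat ψ Ψ) {N : ℕ}
    (hN : Odd N) (hNk : (N : k) ≠ 0) (hkill : ∀ P : Pt a b, N • P = 0 → Ψ P = 0) :
    N ^ 2 ≤ 2 * hh ψ + 1 := by
  classical
  have hcard : Nat.card {P : Pt a b // N • P = 0} = N ^ 2 := card_tors h2 hd hNk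
  have hsq : ∀ x : k, ∃ s : k, s ^ 2 = x ^ 3 + a * x + b := fun x => FKer.sqrt_exists _
  choose s hs using hsq
  set D := (uu ψ).denom with hD
  have hD0 : D ≠ 0 := RatFunc.denom_ne_zero _
  set R := D.roots.toFinset with hR
  have hRc : R.card ≤ hh ψ :=
    (Multiset.toFinset_card_le _).trans ((card_roots' _).trans (le_max_right _ _))
  set S : Finset (Option (k × Bool)) :=
    insert none ((R ×ˢ (Finset.univ : Finset Bool)).image some) with hS
  have hSc : S.card ≤ 2 * hh ψ + 1 := by
    refine (Finset.card_insert_le _ _).trans ?_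
    have h3 : ((R ×ˢ (Finset.univ : Finset Bool)).image some).card ≤ R.card * 2 := by
      refine Finset.card_image_le.trans ?_
      rw [Finset.card_product, Finset.card_univ, Fintype.card_bool]
    omega
  have hmem : ∀ P : Pt a b, N • P = 0 → KRankB.g s P ∈ S := by
    rintro (_ | ⟨x, y, h⟩) hP
    · exact Finset.mem_insert_self _ _
    · apply Finset.mem_insert_of_mem
      rw [Finset.mem_image]
      refine ⟨(x, decide (y = s x)), ?_, rfl⟩
      rw [Finset.mem_product]
      refine ⟨?_, Finset.mem_univ _⟩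
      have hy : y ≠ 0 := by
        rintro rfl
        have h3 := FKer.two_of_y_eq_zero h
        obtain ⟨n, rfl⟩ := hN
        have h4 : (2 * n + 1) • (Affine.Point.some x 0 h : Pt a b) = .some x 0 h := by
          rw [add_nsmul, one_nsmul, mul_comm, mul_nsmul, two_nsmul, ← nsmul_add, h3,
            nsmul_zero, zero_add]
        rw [h4] at hP
        exact Affine.Point.some_ne_zero h hP
      rw [hR, Multiset.mem_toFinset, mem_roots hD0, IsRoot.def]
      by_contra hne
      obtain ⟨h', h5⟩ := ((hC x y h hy).2 h0).2 hne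
      rw [hkill _ hP] at h5
      exact Affine.Point.some_ne_zero h' h5.symm
  have h6 : Nat.card {P : Pt a b // N • P = 0} ≤ Nat.card {o // o ∈ S} := by
    refine Nat.card_le_card_of_injective
      (fun P : {P : Pt a b // N • P = 0} => (⟨KRankB.g s P.1, hmem P.1 P.2⟩ : {o // o ∈ S})) ?_
    intro P Q hPQ
    exact Subtype.ext (KRankB.g_inj hs (congrArg Subtype.val hPQ))
  rw [hcard, Nat.card_eq_fintype_card, Fintype.card_coe] at h6
  exact h6.trans hSc

end

end LT
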