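import Pool.Agent.Lib_MP_f1937f_nt.KRankA
import Pool.Agent.Lib_MP_f1937f_nt.KRankB

/-!
# MP_f1937f_nt, theorem C: the group of the maps defined over `F_p` has rank at most two
(piece KRANK)

Proof. Take `l` from `exists_nonres`. Let `H = hh ψ₁ + hh ψ₂ + hh ψ₃`, `N = l ^ n ≥ 64 (H + 1)^3`, `B = N / (4 (H + 1))`
(floor), so `(B + 1)^3 > N^2` and `16 B² H + 1 < N²`. Let `P` be as in `tors_gen` for `n`. The `(B + 1)^3` points
`i • Ψ₁ P + j • Ψ₂ P + m • Ψ₃ P`, `0 ≤ i, j, m ≤ B`, lie in the set of the points of `Pt a' b'` killed by `N`, which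
has `N²` elements (`card_tors`), so two of them agree (pigeonhole) and there are integers `i, j, m`, not all zero, of absolute
value at most `B` with `Ψ P = 0`, `Ψ = i • Ψ₁ + j • Ψ₂ + m • Ψ₃`. `Ψ` commutes with Frobenius, so by `tors_gen` it
kills all the `N`-torsion. If `ψ = i • ψ₁ + j • ψ₂ + m • ψ₃` is not zero, then `N² ≤ 2 hh ψ + 1` (`le_of_kill_tors`), but
`hh ψ ≤ 4 B² H` by the parallelogram law `hh_par` (`hh (x + y) ≤ 2 hh x + 2 hh y`, `hh (i • x) = i² hh x`).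
-/

namespace LT

open Polynomial WeierstrassCurve

namespace KRank

/-- The arithmetic of the bounds. -/
theorem bounds {H N B : ℕ} (hN : 64 * (H + 1) ^ 3 ≤ N) (hB : B = N / (4 * (H + 1))) :
    N ^ 2 < (B + 1) ^ 3 ∧ 8 * B ^ 2 * H + 1 < N ^ 2 := by
  have h1 : B * (4 * (H + 1)) ≤ N := by
    rw [hB]
    exact Nat.div_mul_le_self _ _
  have h2 : N < (B + 1) * (4 * (H + 1)) := by
    rw [hB]
    have := Nat.lt_div_mul_add (a := N) (b := 4 * (H + 1)) (by positivity)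
    linarith
  have hN1 : 64 ≤ N := by
    have : 1 ≤ (H + 1) ^ 3 := Nat.one_le_pow _ _ (by omega)
    omega
  constructor
  · have h3 : N ^ 3 < ((B + 1) * (4 * (H + 1))) ^ 3 := Nat.pow_lt_pow_left h2 (by norm_num)
    have h4 : N ^ 2 * (64 * (H + 1) ^ 3) ≤ N ^ 3 := by
      have := Nat.mul_le_mul_left (N ^ 2) hN
      calc N ^ 2 * (64 * (H + 1) ^ 3) ≤ N ^ 2 * N := this
        _ = N ^ 3 := by ring
    have h5 : N ^ 2 * (64 * (H + 1) ^ 3) < (B + 1) ^ 3 * (64 * (H + 1) ^ 3) := by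
      calc N ^ 2 * (64 * (H + 1) ^ 3) ≤ N ^ 3 := h4
        _ < ((B + 1) * (4 * (H + 1))) ^ 3 := h3
        _ = (B + 1) ^ 3 * (64 * (H + 1) ^ 3) := by ring
    exact Nat.lt_of_mul_lt_mul_right h5
  · have h3 : (B * (4 * (H + 1))) ^ 2 ≤ N ^ 2 := Nat.pow_le_pow_left h1 2
    have h4 : 2 * (8 * B ^ 2 * H) ≤ (B * (4 * (H + 1))) ^ 2 := by
      have e : (B * (4 * (H + 1))) ^ 2 = 16 * B ^ 2 * (H + 1) ^ 2 := by ring
      rw [e]
      have h6 : H ≤ (H + 1) ^ 2 := by nlinarith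
      calc 2 * (8 * B ^ 2 * H) = 16 * B ^ 2 * H := by ring
        _ ≤ 16 * B ^ 2 * (H + 1) ^ 2 := Nat.mul_le_mul_left _ h6
    have h5 : 64 * 64 ≤ N ^ 2 := by
      have := Nat.pow_le_pow_left hN1 2
      norm_num at this ⊢
      exact this
    omega

end KRank

section

variable {k : Type} [Field k] [DecidableEq k] [IsAlgClosed k] [DecidableEq (RatFunc k)] (p : ℕ)
  [Fact p.Prime] [CharP k p]

variable {a b a' b' : k} {ha : a ^ p = a} {hb : b ^ p = b} {ha' : a' ^ p = a'}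
  {hb' : b' ^ p = b'}

namespace KRank

theorem hh_zsmul {k : Type} [Field k] [DecidableEq (RatFunc k)] (h2 : (2 : k) ≠ 0)
    {a b a' b' : k} (hd' : dsc a' b' ≠ 0) (P : MM a b a' b') (i : ℤ) :
    (hh (i • P) : ℤ) = i ^ 2 * hh P := by
  have := quad_form (fun x : MM a b a' b' => (hh x : ℤ)) (by
    intro x y
    have := hh_par h2 hd' x y
    exact_mod_cast this) P 0 i 0
  simp only [smul_zero, add_zero, mul_zero] at this
  rw [this]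
  ring

theorem hh_add_le {k : Type} [Field k] [DecidableEq (RatFunc k)] (h2 : (2 : k) ≠ 0)
    {a b a' b' : k} (hd' : dsc a' b' ≠ 0) (P Q : MM a b a' b') :
    hh (P + Q) ≤ 2 * hh P + 2 * hh Q := by
  have := hh_par h2 hd' P Q
  omega

end KRank

open KRank

theorem k_rank (hp : 5 ≤ p) (hd : dsc a b ≠ 0) (hd' : dsc a' b' ≠ 0)
    (hF : ∀ P : Pt a b, frobPt p ha hb (frobPt p ha hb P) = -(p • P))
    {ψ₁ ψ₂ ψ₃ : MM a b a' b'} (h₁ : HomF p ha hb ha' hb' ψ₁) (h₂ : HomF p ha hb ha' hb' ψ₂)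
    (h₃ : HomF p ha hb ha' hb' ψ₃) :
    ∃ i j l : ℤ, (i ≠ 0 ∨ j ≠ 0 ∨ l ≠ 0) ∧ i • ψ₁ + j • ψ₂ + l • ψ₃ = 0 := by
  have hpp : p.Prime := Fact.out
  have h2 : (2 : k) ≠ 0 := two_ne_of p hp
  obtain ⟨l, hl, hl2, hlp, hjac⟩ := exists_nonres hpp
  obtain ⟨Ψ₁, c₁, f₁⟩ := h₁.hom
  obtain ⟨Ψ₂, c₂, f₂⟩ := h₂.hom
  obtain ⟨Ψ₃, c₃, f₃⟩ := h₃.hom
  set H : ℕ := hh ψ₁ + hh ψ₂ + hh ψ₃ with hH
  set n : ℕ := 64 * (H + 1) ^ 3 with hn
  set N : ℕ := l ^ n with hN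
  have hNn : 64 * (H + 1) ^ 3 ≤ N := (Nat.lt_pow_self hl.one_lt).le
  set B : ℕ := N / (4 * (H + 1)) with hB
  obtain ⟨b1, b2⟩ := bounds hNn hB
  have hNk : (N : k) ≠ 0 := by
    intro h0
    rw [hN, Nat.cast_pow] at h0
    have hn0 : n ≠ 0 := by positivity
    have h1 := (pow_eq_zero_iff hn0).mp h0
    have h3 := (CharP.cast_eq_zero_iff k p l).mp h1
    exact hlp ((Nat.prime_dvd_prime_iff_eq hpp hl).mp h3).symm
  obtain ⟨P, hP, hgen⟩ := tors_gen p hp hd hF hl hlp hjac n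
  -- pigeonhole
  have hcard : Nat.card {Q : Pt a' b' // N • Q = 0} = N ^ 2 := card_tors h2 hd' hNk
  have hfin : Finite {Q : Pt a' b' // N • Q = 0} := by
    apply Nat.finite_of_card_ne_zero
    rw [hcard]
    have : 0 < N := Nat.pos_of_ne_zero (by rintro h; rw [h] at hNk; exact hNk (by simp))
    positivity
  have hkill : ∀ (Ψ : Pt a b →+ Pt a' b'), N • Ψ P = 0 := by
    intro Ψ
    rw [← map_nsmul, hP, map_zero]
  let f : Fin (B + 1) × Fin (B + 1) × Fin (B + 1) → {Q : Pt a' b' // N • Q = 0} := fun t =>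
    ⟨(t.1 : ℕ) • Ψ₁ P + (t.2.1 : ℕ) • Ψ₂ P + (t.2.2 : ℕ) • Ψ₃ P, by
      rw [smul_add, smul_add, smul_comm, hkill, smul_comm N, hkill, smul_comm N (t.2.2 : ℕ), hkill]
      simp⟩
  have hf : ¬ Function.Injective f := by
    intro hinj
    have h3 := Nat.card_le_card_of_injective f hinj
    rw [hcard] at h3
    simp only [Nat.card_eq_fintype_card, Fintype.card_prod, Fintype.card_fin] at h3
    have h4 : (B + 1) * ((B + 1) * (B + 1)) = (B + 1) ^ 3 := by ring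
    rw [h4] at h3
    omega
  obtain ⟨s, t, hst, hne⟩ : ∃ s t, f s = f t ∧ s ≠ t := by
    simpa [Function.Injective] using hf
  have hst' : (s.1 : ℕ) • Ψ₁ P + (s.2.1 : ℕ) • Ψ₂ P + (s.2.2 : ℕ) • Ψ₃ P =
      (t.1 : ℕ) • Ψ₁ P + (t.2.1 : ℕ) • Ψ₂ P + (t.2.2 : ℕ) • Ψ₃ P := congrArg Subtype.val hst
  set i : ℤ := (s.1 : ℤ) - (t.1 : ℤ) with hi
  set j : ℤ := (s.2.1 : ℤ) - (t.2.1 : ℤ) with hj
  set m : ℤ := (s.2.2 : ℤ) - (t.2.2 : ℤ) with hm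
  have hbi : i ^ 2 ≤ (B : ℤ) ^ 2 := by
    have := s.1.2; have := t.1.2
    apply sq_le_sq'
    · omega
    · omega
  have hbj : j ^ 2 ≤ (B : ℤ) ^ 2 := by
    have := s.2.1.2; have := t.2.1.2
    apply sq_le_sq'
    · omega
    · omega
  have hbm : m ^ 2 ≤ (B : ℤ) ^ 2 := by
    have := s.2.2.2; have := t.2.2.2
    apply sq_le_sq'
    · omega
    · omega
  have hnz : i ≠ 0 ∨ j ≠ 0 ∨ m ≠ 0 := by
    by_contra hcon
    push Not at hcon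
    obtain ⟨q1, q2, q3⟩ := hcon
    apply hne
    apply Prod.ext
    · apply Fin.ext; omega
    · apply Prod.ext
      · apply Fin.ext; omega
      · apply Fin.ext; omega
  refine ⟨i, j, m, hnz, ?_⟩
  by_contra hψ
  set ψ : MM a b a' b' := i • ψ₁ + j • ψ₂ + m • ψ₃ with hψdef
  set Ψ : Pt a b →+ Pt a' b' := i • Ψ₁ + j • Ψ₂ + m • Ψ₃ with hΨdef
  have hC : Compat ψ Ψ := Compat_add h2 hd' (Compat_add h2 hd' (Compat_zsmul h2 hd' c₁ i)
    (Compat_zsmul h2 hd' c₂ j)) (Compat_zsmul h2 hd' c₃ m)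
  have hΨa : ∀ Q, Ψ Q = i • Ψ₁ Q + j • Ψ₂ Q + m • Ψ₃ Q := fun Q => rfl
  have hΨP : Ψ P = 0 := by
    rw [hΨa, hi, hj, hm]
    simp only [sub_smul, natCast_zsmul]
    have := sub_eq_zero.mpr hst'
    rw [← this]
    abel
  have hΨF : ∀ Q, Ψ (frobPt p ha hb Q) = frobPt p ha' hb' (Ψ Q) := by
    intro Q
    rw [hΨa, hΨa, map_add, map_add, map_zsmul, map_zsmul, map_zsmul, f₁, f₂, f₃]
  have hk : ∀ Q : Pt a b, N • Q = 0 → Ψ Q = 0 := by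
    intro Q hQ
    obtain ⟨u, v, rfl⟩ := hgen Q hQ
    rw [map_add, map_zsmul, map_zsmul, hΨF, hΨP, map_zero, smul_zero, smul_zero, add_zero]
  have hNodd : Odd N := (hl.odd_of_ne_two hl2).pow
  have hle := le_of_kill_tors h2 hd (ψ := ψ) hψ hC hNodd hNk hk
  -- the bound for the degree
  have hψle : (hh ψ : ℤ) ≤ 4 * (B : ℤ) ^ 2 * H := by
    have e1 := hh_add_le h2 hd' (i • ψ₁ + j • ψ₂) (m • ψ₃)
    have e2 := hh_add_le h2 hd' (i • ψ₁) (j • ψ₂)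
    have e3 := hh_zsmul h2 hd' ψ₁ i
    have e4 := hh_zsmul h2 hd' ψ₂ j
    have e5 := hh_zsmul h2 hd' ψ₃ m
    have e6 : (hh ψ : ℤ) ≤ 2 * hh (i • ψ₁ + j • ψ₂) + 2 * hh (m • ψ₃) := by exact_mod_cast e1
    have e7 : (hh (i • ψ₁ + j • ψ₂) : ℤ) ≤ 2 * hh (i • ψ₁) + 2 * hh (j • ψ₂) := by exact_mod_cast e2
    have g1 : i ^ 2 * (hh ψ₁ : ℤ) ≤ (B : ℤ) ^ 2 * hh ψ₁ :=
      mul_le_mul_of_nonneg_right hbi (Int.natCast_nonneg _)
    have g2 : j ^ 2 * (hh ψ₂ : ℤ) ≤ (B : ℤ) ^ 2 * hh ψ₂ :=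
      mul_le_mul_of_nonneg_right hbj (Int.natCast_nonneg _)
    have g3 : m ^ 2 * (hh ψ₃ : ℤ) ≤ (B : ℤ) ^ 2 * hh ψ₃ :=
      mul_le_mul_of_nonneg_right hbm (Int.natCast_nonneg _)
    have g4 : (0 : ℤ) ≤ (B : ℤ) ^ 2 * hh ψ₃ := by positivity
    have e8 : ((H : ℕ) : ℤ) = hh ψ₁ + hh ψ₂ + hh ψ₃ := by rw [hH]; push_cast; ring
    rw [e8]
    rw [e3, e4] at e7
    rw [e5] at e6
    linarith
  have b2' : 8 * (B : ℤ) ^ 2 * H + 1 < (N : ℤ) ^ 2 := by exact_mod_cast b2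
  have hle' : (N : ℤ) ^ 2 ≤ 2 * hh ψ + 1 := by exact_mod_cast hle
  linarith

end

end LT
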