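import Pool.Agent.Lib_MP_f1937f_nt.KHom
import Pool.Agent.Lib_MP_f1937f_nt.FTors

/-!
# MP_f1937f_nt, theorem C: generators of the `l`-power torsion (piece KRANKA)

Proofs. `exists_nonres`: the Jacobi symbol `(-p / (4p-1)) = (-1/(4p-1)) (p/(4p-1)) = -1`, because
`4p - 1 = 3 mod 4` and `4 p = 1 mod (4p-1)`, so `(p/(4p-1)) = (4p/(4p-1)) = 1`; hence some prime factor `l` of
`4p - 1` has `(-p/l) = -1` (multiplicativity of the Jacobi symbol in the lower argument, as in
`alast_factor` of ALast.lean). `l` is odd and different from `p`.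

`tors_gen`: let `F` be Frobenius, `F (F P) = -(p • P)`. (i) If `l • Q = 0`, `Q ≠ 0` and
`i • Q + j • F Q = 0` then `l ∣ i` and `l ∣ j`: if `l ∤ j` multiply by an inverse of `j` mod `l`: `F Q = s • Q`,
`s` an integer, so `F (F Q) = s² • Q = -(p • Q)` and `l ∣ s² + p` (order of `Q` is `l`), contradiction to the Jacobi
symbol; so `l ∣ j`, `i • Q = 0`, `l ∣ i`. (ii) If `P` has order `l ^ n` and `i • P + j • F P = 0`, then
`l ^ n ∣ i, j`: induction on `n`, multiply by `l ^ (n-1)`, use (i), divide. (iii) `P` of order `l ^ n` exists and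
`{Q : l^n • Q = 0}` has `l^(2n)` elements (`card_tors`, `tors_basis`), so the injective map
`(i, j) ↦ i • P + j • F P`, `0 ≤ i, j < l ^ n`, is onto it.
-/

namespace LT

open Polynomial WeierstrassCurve

private lemma kra_factor (a : ℤ) : ∀ n : ℕ, 0 < n → jacobiSym a n = -1 →
    ∃ q : ℕ, q.Prime ∧ q ∣ n ∧ jacobiSym a q = -1 := by
  intro n
  induction n using Nat.strong_induction_on with
  | _ n ih =>
    intro hn h
    by_cases h1 : n = 1
    · subst h1
      rw [jacobiSym.one_right] at h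
      norm_num at h
    · have hq := Nat.minFac_prime h1
      obtain ⟨m, hm⟩ := Nat.minFac_dvd n
      have hm0 : 0 < m := by
        rcases Nat.eq_zero_or_pos m with h0 | h0
        · rw [h0, mul_zero] at hm; omega
        · exact h0
      have hprod : jacobiSym a n = jacobiSym a (Nat.minFac n) * jacobiSym a m := by
        haveI : NeZero (Nat.minFac n) := ⟨hq.ne_zero⟩
        haveI : NeZero m := ⟨hm0.ne'⟩
        conv_lhs => rw [hm]
        exact jacobiSym.mul_right a _ _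
      rcases jacobiSym.trichotomy a (Nat.minFac n) with h3 | h3 | h3
      · rw [hprod, h3, zero_mul] at h
        norm_num at h
      · rw [hprod, h3, one_mul] at h
        obtain ⟨q, hq1, hq2, hq3⟩ := ih m (by
          have := hq.two_le
          nlinarith) hm0 h
        exact ⟨q, hq1, hq2.trans ⟨Nat.minFac n, by rw [mul_comm]; exact hm⟩, hq3⟩
      · exact ⟨_, hq, Nat.minFac_dvd n, h3⟩

theorem exists_nonres {p : ℕ} (hp : p.Prime) : ∃ l : ℕ, l.Prime ∧ l ≠ 2 ∧ l ≠ p ∧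
    jacobiSym (-(p : ℤ)) l = -1 := by
  have hp2 := hp.two_le
  have hodd : Odd (4 * p - 1) := ⟨2 * p - 1, by omega⟩
  have hcop : IsCoprime (4 * (p : ℤ)) ((4 * p - 1 : ℕ) : ℤ) :=
    ⟨1, -1, by push_cast [Nat.cast_sub (show 1 ≤ 4 * p by omega)]; ring⟩
  have h1 : jacobiSym (4 * (p : ℤ)) (4 * p - 1) = 1 := by
    rw [jacobiSym.mod_left]
    have : (4 * (p : ℤ)) % ((4 * p - 1 : ℕ) : ℤ) = 1 := by
      have e : (4 * (p : ℤ)) = 1 + ((4 * p - 1 : ℕ) : ℤ) := by
        push_cast [Nat.cast_sub (show 1 ≤ 4 * p by omega)]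
        ring
      rw [e, Int.add_emod_right]
      apply Int.emod_eq_of_lt (by norm_num)
      omega
    rw [this, jacobiSym.one_left]
  have h2 : jacobiSym (4 : ℤ) (4 * p - 1) = 1 := by
    have : jacobiSym ((2 : ℤ) ^ 2) (4 * p - 1) = 1 := by
      apply jacobiSym.sq_one'
      have h3 : Nat.gcd 2 (4 * p - 1) = 1 := by
        rw [← Nat.coprime_iff_gcd_eq_one, Nat.coprime_two_left]
        exact hodd
      exact_mod_cast h3
    norm_num at this
    exact this
  have h3 : jacobiSym (p : ℤ) (4 * p - 1) = 1 := by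
    rw [jacobiSym.mul_left, h2, one_mul] at h1
    exact h1
  have h4 : jacobiSym (-(p : ℤ)) (4 * p - 1) = -1 := by
    rw [jacobiSym.neg _ hodd, h3, mul_one]
    exact ZMod.χ₄_nat_three_mod_four (by omega)
  obtain ⟨l, hl, hld, hj⟩ := kra_factor _ _ (by omega) h4
  refine ⟨l, hl, ?_, ?_, hj⟩
  · rintro rfl
    rw [Nat.odd_iff] at hodd
    omega
  · rintro rfl
    have h5 : l ∣ 1 := by
      have h6 : l ∣ 4 * l := Dvd.intro_left 4 rfl
      have := (Nat.dvd_sub h6 hld)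
      rwa [show 4 * l - (4 * l - 1) = 1 by omega] at this
    exact hl.one_lt.ne' (Nat.dvd_one.mp h5)

/-- Step (i). -/
private lemma kra_one {G : Type} [AddCommGroup G] (F : G →+ G) {p l : ℕ}
    (hF : ∀ P, F (F P) = -(p • P)) (hl : l.Prime) (hjac : jacobiSym (-(p : ℤ)) l = -1)
    {Q : G} (hQ : l • Q = 0) (hQ0 : Q ≠ 0) {i j : ℤ} (h : i • Q + j • F Q = 0) :
    (l : ℤ) ∣ i ∧ (l : ℤ) ∣ j := by
  haveI : Fact l.Prime := ⟨hl⟩
  have hord : addOrderOf Q = l := addOrderOf_eq_prime hQ hQ0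
  have hdvd : ∀ m : ℤ, m • Q = 0 → (l : ℤ) ∣ m := by
    intro m hm
    rw [← hord]
    exact addOrderOf_dvd_iff_zsmul_eq_zero.2 hm
  have hFl : (l : ℤ) • F Q = 0 := by
    rw [← map_zsmul, natCast_zsmul, hQ, map_zero]
  by_cases hj : (l : ℤ) ∣ j
  · refine ⟨hdvd i ?_, hj⟩
    obtain ⟨m, rfl⟩ := hj
    rw [mul_comm, mul_smul, hFl, smul_zero, add_zero] at h
    exact h
  · exfalso
    have hcop : IsCoprime (l : ℤ) j :=
      (Nat.prime_iff_prime_int.mp hl).coprime_iff_not_dvd.mpr hj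
    obtain ⟨u, v, huv⟩ := hcop
    -- u * l + v * j = 1
    have e1 : F Q = (-(v * i)) • Q := by
      have h1 : F Q = (u * l + v * j) • F Q := by rw [huv, one_smul]
      rw [add_smul, mul_smul u, hFl, smul_zero, zero_add, mul_smul] at h1
      have h2 : j • F Q = -(i • Q) := by
        rw [eq_neg_iff_add_eq_zero, add_comm]
        exact h
      rw [h1, h2, smul_neg, ← mul_smul, neg_smul]
    have e2 : F (F Q) = ((-(v * i)) ^ 2) • Q := by
      conv_lhs => rw [e1]
      rw [map_zsmul, e1, ← mul_smul, sq]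
    rw [hF] at e2
    have e3 : ((-(v * i)) ^ 2 + (p : ℤ)) • Q = 0 := by
      rw [add_smul, ← e2, natCast_zsmul, neg_add_cancel]
    have e4 := hdvd _ e3
    have e5 : ((-(p : ℤ) : ℤ) : ZMod l) = ((-(v * i) : ℤ) : ZMod l) * ((-(v * i) : ℤ) : ZMod l) := by
      have := (ZMod.intCast_zmod_eq_zero_iff_dvd _ l).mpr e4
      push_cast at this ⊢
      linear_combination -this
    rw [← jacobiSym.legendreSym.to_jacobiSym, legendreSym.eq_neg_one_iff] at hjac
    exact hjac ⟨_, e5⟩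

/-- Step (ii). -/
private lemma kra_two {G : Type} [AddCommGroup G] (F : G →+ G) {p l : ℕ}
    (hF : ∀ P, F (F P) = -(p • P)) (hl : l.Prime) (hjac : jacobiSym (-(p : ℤ)) l = -1)
    {n : ℕ} {P : G} (hP : l ^ (n + 1) • P = 0) (hP0 : l ^ n • P ≠ 0) {i j : ℤ}
    (h : i • P + j • F P = 0) : ∀ m : ℕ, m ≤ n + 1 → ((l ^ m : ℕ) : ℤ) ∣ i ∧ ((l ^ m : ℕ) : ℤ) ∣ j := by
  intro m
  induction m with
  | zero => intro _; simp
  | succ m ih =>
    intro hm
    obtain ⟨⟨i', hi⟩, ⟨j', hj⟩⟩ := ih (by omega)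
    have h1 : i' • (l ^ n • P) + j' • F (l ^ n • P) = 0 := by
      have e : n = (n - m) + m := by omega
      have h2 : ((l ^ (n - m) : ℕ) : ℤ) • (i • P + j • F P) = 0 := by rw [h, smul_zero]
      rw [← h2, smul_add, hi, hj, map_nsmul, ← natCast_zsmul P, ← natCast_zsmul (F P),
        smul_smul, smul_smul, smul_smul, smul_smul]
      have e3 : ((l ^ n : ℕ) : ℤ) = ((l ^ (n - m) : ℕ) : ℤ) * ((l ^ m : ℕ) : ℤ) := by
        rw [← Nat.cast_mul, ← pow_add, ← e]
      rw [e3]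
      congr 2 <;> ring
    have h3 : l • (l ^ n • P) = 0 := by
      rw [← mul_smul, mul_comm, ← pow_succ]
      exact hP
    obtain ⟨⟨i2, hi2⟩, ⟨j2, hj2⟩⟩ := kra_one F hF hl hjac h3 hP0 h1
    refine ⟨⟨i2, ?_⟩, ⟨j2, ?_⟩⟩
    · rw [hi, hi2]; push_cast; ring
    · rw [hj, hj2]; push_cast; ring

private lemma kra_main {G : Type} [AddCommGroup G] (F : G →+ G) {p l : ℕ}
    (hF : ∀ P, F (F P) = -(p • P)) (hl : l.Prime) (hjac : jacobiSym (-(p : ℤ)) l = -1)
    (n : ℕ) (hcard : ∀ m : ℕ, Nat.card {P : G // l ^ m • P = 0} = (l ^ m) ^ 2) :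
    ∃ P : G, l ^ n • P = 0 ∧
      ∀ Q : G, l ^ n • Q = 0 → ∃ i j : ℤ, Q = i • P + j • F P := by
  rcases n with _ | n
  · refine ⟨0, by simp, ?_⟩
    intro Q hQ
    refine ⟨0, 0, ?_⟩
    simpa using hQ
  · have hl1 := hl.one_lt
    have hfin : ∀ m : ℕ, Finite {P : G // l ^ m • P = 0} := fun m =>
      Nat.finite_of_card_ne_zero (by rw [hcard m]; positivity)
    have hex : ∃ P : G, l ^ (n + 1) • P = 0 ∧ l ^ n • P ≠ 0 := by
      by_contra hne
      push Not at hne
      haveI := hfin n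
      haveI := hfin (n + 1)
      have h1 : Nat.card {P : G // l ^ (n + 1) • P = 0} ≤ Nat.card {P : G // l ^ n • P = 0} :=
        Nat.card_le_card_of_injective (fun P => ⟨P.1, hne P.1 P.2⟩) (by
          intro x y hxy
          have h9 : x.1 = y.1 := congrArg (fun z : {P : G // l ^ n • P = 0} => z.1) hxy
          exact Subtype.ext h9)
      rw [hcard, hcard] at h1
      have h2 : l ^ n < l ^ (n + 1) := Nat.pow_lt_pow_right hl1 (Nat.lt_succ_self n)
      have h3 : (l ^ n) ^ 2 < (l ^ (n + 1)) ^ 2 := Nat.pow_lt_pow_left h2 two_ne_zero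
      omega
    obtain ⟨P, hP, hP0⟩ := hex
    refine ⟨P, hP, ?_⟩
    intro Q hQ
    set N : ℕ := l ^ (n + 1) with hN
    haveI := hfin (n + 1)
    have hFP : N • F P = 0 := by rw [← map_nsmul, hP, map_zero]
    let g : Fin N × Fin N → {P : G // N • P = 0} := fun x =>
      ⟨((x.1 : ℕ) : ℤ) • P + ((x.2 : ℕ) : ℤ) • F P, by
        rw [smul_add, smul_comm N, smul_comm N, hP, hFP, smul_zero, smul_zero, add_zero]⟩
    have hg : Function.Injective g := by
      rintro ⟨i, j⟩ ⟨i', j'⟩ hxy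
      have e1 : ((i : ℕ) : ℤ) • P + ((j : ℕ) : ℤ) • F P =
          ((i' : ℕ) : ℤ) • P + ((j' : ℕ) : ℤ) • F P := congrArg Subtype.val hxy
      have e2 : (((i : ℕ) : ℤ) - ((i' : ℕ) : ℤ)) • P +
          (((j : ℕ) : ℤ) - ((j' : ℕ) : ℤ)) • F P = 0 := by
        rw [sub_smul, sub_smul, ← sub_eq_zero.2 e1]
        abel
      obtain ⟨f1, f2⟩ := kra_two F hF hl hjac hP hP0 e2 (n + 1) le_rfl
      rw [← hN] at f1 f2
      have g1 : ((i : ℕ) : ℤ) - ((i' : ℕ) : ℤ) = 0 := by
        apply Int.eq_zero_of_abs_lt_dvd f1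
        have := i.2
        have := i'.2
        rw [abs_lt]
        constructor <;> omega
      have g2 : ((j : ℕ) : ℤ) - ((j' : ℕ) : ℤ) = 0 := by
        apply Int.eq_zero_of_abs_lt_dvd f2
        have := j.2
        have := j'.2
        rw [abs_lt]
        constructor <;> omega
      have k1 : i = i' := by apply Fin.ext; omega
      have k2 : j = j' := by apply Fin.ext; omega
      rw [k1, k2]
    have hc : Nat.card (Fin N × Fin N) = Nat.card {P : G // N • P = 0} := by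
      rw [hcard (n + 1), Nat.card_prod, Nat.card_eq_fintype_card, Fintype.card_fin]
      ring
    have hb : Function.Bijective g := (Nat.bijective_iff_injective_and_card g).2 ⟨hg, hc⟩
    obtain ⟨x, hx⟩ := hb.2 ⟨Q, hQ⟩
    exact ⟨_, _, (congrArg Subtype.val hx).symm⟩

section

variable {k : Type} [Field k] [DecidableEq k] [IsAlgClosed k] (p : ℕ) [Fact p.Prime] [CharP k p]

variable {a b : k} {ha : a ^ p = a} {hb : b ^ p = b}

theorem tors_gen (hp : 5 ≤ p) (hd : dsc a b ≠ 0)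
    (hF : ∀ P : Pt a b, frobPt p ha hb (frobPt p ha hb P) = -(p • P)) {l : ℕ} (hl : l.Prime)
    (hlp : l ≠ p) (hjac : jacobiSym (-(p : ℤ)) l = -1) (n : ℕ) :
    ∃ P : Pt a b, l ^ n • P = 0 ∧
      ∀ Q : Pt a b, l ^ n • Q = 0 → ∃ i j : ℤ, Q = i • P + j • frobPt p ha hb P := by
  have h2 : (2 : k) ≠ 0 := FHasse.two_ne p (by omega)
  refine kra_main (frobPt p ha hb) hF hl hjac n fun m => card_tors h2 hd ?_
  intro h0
  rw [CharP.cast_eq_zero_iff k p] at h0
  have h3 := (Fact.out : p.Prime).dvd_of_dvd_pow h0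
  exact hlp ((Nat.prime_dvd_prime_iff_eq (Fact.out : p.Prime) hl).mp h3).symm

end

end LT
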