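import Pool.Agent.Lib_MP_f1937f_nt.Sign

/-!
# MP_f1937f_nt, theorem C: the sign of `N_n`, `n = h M Q` with a prime `Q` (piece KSIGN)

The same proofs as `comb` (SComb.lean) and `sign_main` (Sign.lean) with a prime `Q` not dividing `M` instead of `7 ^ k`
(only `Q ∣ m₁` or `Q ∣ m₂`, and `Q` odd, is used). `lo = √3 ylo ≥ 1`.
-/

namespace LT

open Polynomial WeierstrassCurve PeriodPair

namespace KSign

open Sgn Sgn.SComb

/-- the case `τ = √3` -/
theorem comb_aux {ylo yhi : ℝ} (h1 : 1 ≤ ylo) {M Q : ℕ}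
    (hM : 1 < M) (hQp : Q.Prime) (hQM : ¬ Q ∣ M)
    (hlo : Real.sqrt 3 * ylo < (Q : ℝ) / (M : ℝ))
    (hhi : (Q : ℝ) / (M : ℝ) < Real.sqrt 3 * yhi) :
    ∃ p₀ ∈ PP (M * Q),
      (ylo < max (Real.sqrt 3 * p₀.1 / p₀.2) (Real.sqrt 3 * p₀.1 / p₀.2)⁻¹ ∧
        max (Real.sqrt 3 * p₀.1 / p₀.2) (Real.sqrt 3 * p₀.1 / p₀.2)⁻¹ < yhi) ∧
      ∀ p ∈ PP (M * Q), p ≠ p₀ →
        3 * ylo ≤ max (Real.sqrt 3 * p.1 / p.2) (Real.sqrt 3 * p.1 / p.2)⁻¹ := by
  have hs : (0 : ℝ) < Real.sqrt 3 := Real.sqrt_pos.mpr (by norm_num)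
  have hs2 : Real.sqrt 3 * Real.sqrt 3 = 3 := Real.mul_self_sqrt (by norm_num)
  have hM0 : (0 : ℝ) < M := by positivity
  have hQ0' : 0 < Q := hQp.pos
  have hQ0 : (0 : ℝ) < (Q : ℝ) := by exact_mod_cast hQ0'
  have hm0 : M * Q ≠ 0 := by positivity
  have hcop : M.Coprime Q := ((Nat.Prime.coprime_iff_not_dvd hQp).mpr hQM).symm
  have hlo' : Real.sqrt 3 < (Q : ℝ) / (M : ℝ) := lt_of_le_of_lt (by nlinarith) hlo
  have hy : Real.sqrt 3 * M / (Q : ℝ) < 1 := by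
    rw [div_lt_one hQ0]
    rwa [lt_div_iff₀ hM0] at hlo'
  have hyinv : (Real.sqrt 3 * M / (Q : ℝ))⁻¹ = (Q : ℝ) / (M : ℝ) / Real.sqrt 3 := by
    rw [inv_div]
    field_simp
  have hb1 : ylo < (Q : ℝ) / (M : ℝ) / Real.sqrt 3 := by
    rw [lt_div_iff₀ hs]
    linarith
  have hb2 : (Q : ℝ) / (M : ℝ) / Real.sqrt 3 < yhi := by
    rw [div_lt_iff₀ hs]
    linarith
  refine ⟨(M, Q), ?_, ?_, ?_⟩
  · rw [mem_PP]
    exact ⟨⟨rfl, hm0⟩, hcop⟩
  · have h2 : max (Real.sqrt 3 * ((M, Q) : ℕ × ℕ).1 / ((M, Q) : ℕ × ℕ).2)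
        (Real.sqrt 3 * ((M, Q) : ℕ × ℕ).1 / ((M, Q) : ℕ × ℕ).2)⁻¹ =
        (Q : ℝ) / (M : ℝ) / Real.sqrt 3 := by
      push_cast
      rw [hyinv]
      apply max_eq_right
      linarith
    rw [h2]
    exact ⟨hb1, hb2⟩
  · rintro ⟨a, b⟩ hp hne
    rw [mem_PP] at hp
    obtain ⟨⟨hab, -⟩, hcab⟩ := hp
    change a * b = M * Q at hab
    change a.Coprime b at hcab
    have ha0 : 0 < a := by
      rcases Nat.eq_zero_or_pos a with h | h
      · rw [h, zero_mul] at hab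
        exact absurd hab.symm hm0
      · exact h
    have hb0 : 0 < b := by
      rcases Nat.eq_zero_or_pos b with h | h
      · rw [h, mul_zero] at hab
        exact absurd hab.symm hm0
      · exact h
    have haR : (0 : ℝ) < a := by exact_mod_cast ha0
    have hbR : (0 : ℝ) < b := by exact_mod_cast hb0
    have hQ : Q ∣ a ∨ Q ∣ b := by
      apply (Nat.Prime.dvd_mul hQp).1
      rw [hab]
      exact Dvd.intro_left _ rfl
    change 3 * ylo ≤ max (Real.sqrt 3 * (a : ℝ) / (b : ℝ)) (Real.sqrt 3 * (a : ℝ) / (b : ℝ))⁻¹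
    rcases hQ with ⟨c, hc⟩ | ⟨c, hc⟩
    · -- `Q` divides `a`
      apply le_max_of_le_left
      have h3 : c * b = M := by
        have h4 : Q * (c * b) = Q * M := by
          rw [← mul_assoc, ← hc, hab, mul_comm]
        exact Nat.eq_of_mul_eq_mul_left (by positivity) h4
      have hbM : (b : ℝ) ≤ M := by
        have : b ≤ M := Nat.le_of_dvd (by omega) (Dvd.intro_left c h3)
        exact_mod_cast this
      have haQ : (Q : ℝ) ≤ a := by
        have : Q ≤ a := Nat.le_of_dvd ha0 (Dvd.intro c hc.symm)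
        exact_mod_cast this
      have h5 : Real.sqrt 3 * ((Q : ℝ) / (M : ℝ)) ≤ Real.sqrt 3 * a / b := by
        rw [← mul_div_assoc]
        apply div_le_div₀ (by positivity) (mul_le_mul_of_nonneg_left haQ hs.le) hbR hbM
      nlinarith
    · -- `Q` divides `b`
      apply le_max_of_le_right
      have h3 : a * c = M := by
        have h4 : Q * (a * c) = Q * M := by
          rw [mul_left_comm, ← hc, hab, mul_comm]
        exact Nat.eq_of_mul_eq_mul_left (by positivity) h4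
      have hc2 : 2 ≤ c := by
        rcases Nat.lt_or_ge c 2 with h | h
        · exfalso
          interval_cases c
          · omega
          · apply hne
            rw [Prod.mk.injEq]
            exact ⟨by omega, by rw [hc]; ring⟩
        · exact h
      have hcR : (2 : ℝ) ≤ c := by exact_mod_cast hc2
      have hMR : (M : ℝ) = a * c := by exact_mod_cast h3.symm
      have hbR' : (b : ℝ) = (Q : ℝ) * c := by
        rw [hc]
        push_cast
        ring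
      have h5 : (Real.sqrt 3 * (a : ℝ) / b)⁻¹ = (Q : ℝ) / (M : ℝ) / Real.sqrt 3 * (c * c) := by
        rw [inv_div, hbR', hMR]
        have : (c : ℝ) ≠ 0 := by positivity
        field_simp
      rw [h5]
      have h6 : (4 : ℝ) ≤ c * c := by nlinarith
      have h7' : 0 < (Q : ℝ) / (M : ℝ) / Real.sqrt 3 := by positivity
      nlinarith

end KSign

open Sgn in
theorem k_comb {τ ylo yhi : ℝ} (hτ : τ = Real.sqrt 3 ∨ τ = 1 / Real.sqrt 3) (h1 : 1 ≤ ylo)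
    {M Q : ℕ} (hM : 1 < M) (hQ : Q.Prime) (hQM : ¬ Q ∣ M)
    (hlo : Real.sqrt 3 * ylo < (Q : ℝ) / (M : ℝ)) (hhi : (Q : ℝ) / (M : ℝ) < Real.sqrt 3 * yhi) :
    ∃ p₀ ∈ Sgn.PP (M * Q),
      (ylo < max (τ * p₀.1 / p₀.2) (τ * p₀.1 / p₀.2)⁻¹ ∧
        max (τ * p₀.1 / p₀.2) (τ * p₀.1 / p₀.2)⁻¹ < yhi) ∧
      ∀ p ∈ Sgn.PP (M * Q), p ≠ p₀ → 3 * ylo ≤ max (τ * p.1 / p.2) (τ * p.1 / p.2)⁻¹ := by
  rcases hτ with rfl | rfl
  · exact KSign.comb_aux h1 hM hQ hQM hlo hhi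
  · obtain ⟨p₀, hp₀, h2, h3⟩ := KSign.comb_aux h1 hM hQ hQM hlo hhi
    have key : ∀ a b : ℕ, max (1 / Real.sqrt 3 * a / b) (1 / Real.sqrt 3 * a / b)⁻¹ =
        max (Real.sqrt 3 * b / a) (Real.sqrt 3 * b / a)⁻¹ := by
      intro a b
      have h4 : 1 / Real.sqrt 3 * a / b = (Real.sqrt 3 * b / a)⁻¹ := by
        rw [inv_div, one_div, inv_mul_eq_div, div_div]
      rw [h4, inv_inv, max_comm]
    refine ⟨p₀.swap, Sgn.SComb.swap_mem hp₀, ?_, ?_⟩
    · rw [key]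
      exact h2
    · intro p hp hne
      rw [key]
      apply h3 p.swap (Sgn.SComb.swap_mem hp)
      intro h
      apply hne
      rw [← h, Prod.swap_swap]


open Sgn in
theorem k_sign (j : ℝ) (hj : j ≠ 1728) :
    ∃ h : ℕ, (h = 1 ∨ h = 2) ∧ ∃ lo hi : ℝ, 1 ≤ lo ∧ lo < hi ∧
      ∀ M Q : ℕ, Odd M → 11 ∣ M → Q.Prime → Odd Q → ¬ Q ∣ M → lo < (Q : ℝ) / (M : ℝ) →
        (Q : ℝ) / (M : ℝ) < hi →
        (∀ L ∈ CycL (0 : ℂ) (-31 / 4) (h * (M * Q)), jL 0 (-31 / 4) L ≠ (j : ℂ)) →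
        ∃ r : ℝ, r < 0 ∧ NN ℂ (j : ℂ) (h * (M * Q)) = (r : ℂ) := by
  obtain ⟨Λ, α, β, hα, hβ, hαβ, hg2, hg3, hlat, -⟩ := hex_exists
  obtain ⟨θ, hθ, -⟩ := th_exists Λ (a := (0 : ℂ)) (b := -31 / 4) (by rw [hg2]; simp) (by rw [hg3])
  have hs3 : 0 < Real.sqrt 3 := Real.sqrt_pos.2 (by norm_num)
  have hs31 : 1 ≤ Real.sqrt 3 := by
    rw [Real.one_le_sqrt]
    norm_num
  have hτ : β / α = Real.sqrt 3 ∨ β / α = 1 / Real.sqrt 3 := by
    rcases hαβ with h | h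
    · left
      rw [h, mul_div_assoc, div_self hα.ne', mul_one]
    · right
      rw [h]
      field_simp
  have hτ0 : 0 < β / α := div_pos hβ hα
  have hpos : ∀ {m : ℕ} {p : ℕ × ℕ}, p ∈ PP m → 0 < β / α * p.1 / p.2 := by
    intro m p hp
    obtain ⟨h1, h2, h3⟩ := PP_mem hp
    have a1 : p.1 ≠ 0 := by
      intro h0
      apply h3
      rw [← h1, h0, zero_mul]
    have a2 : p.2 ≠ 0 := by
      intro h0
      apply h3
      rw [← h1, h0, mul_zero]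
    have a1' : (0 : ℝ) < p.1 := by exact_mod_cast Nat.pos_of_ne_zero a1
    have a2' : (0 : ℝ) < p.2 := by exact_mod_cast Nat.pos_of_ne_zero a2
    positivity
  rcases lt_or_gt_of_ne hj with hlt | hgt
  · obtain ⟨ylo, yhi, h1, h2, h3, h4⟩ := win_bot J1_cont J1_lim (j := j) (by rw [J1_one]; exact hlt)
    refine ⟨1, Or.inl rfl, Real.sqrt 3 * ylo, Real.sqrt 3 * yhi, by nlinarith [hs31],
      mul_lt_mul_of_pos_left h2 hs3, ?_⟩
    intro M Q hM h11 hQp hQo hQM hlo hhi hne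
    rw [one_mul] at hne ⊢
    have hM1 : 1 < M := lt_of_lt_of_le (by norm_num) (Nat.le_of_dvd hM.pos h11)
    have hm : Odd (M * Q) := hM.mul hQo
    obtain ⟨p₀, hp₀, ⟨w1, w2⟩, w3⟩ := k_comb hτ h1 hM1 hQp hQM hlo hhi
    obtain ⟨f1, r, hr, f2⟩ := fix_one hθ hα hβ hlat hm j hne
    refine ⟨_, ?_, f2⟩
    apply mul_neg_of_pos_of_neg hr
    refine neg_one_prod (PP (M * Q)) (fun p => j - J1 (β / α * p.1 / p.2)) hp₀ ?_ ?_
    · have := h3 _ w1 w2
      rw [max_inv (fun y hy => J1_inv hy) (hpos hp₀)] at this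
      simpa using this
    · intro p hp hpp
      have h5 := h4 _ (w3 p hp hpp)
      rw [max_inv (fun y hy => J1_inv hy) (hpos hp)] at h5
      have h6 := f1 p hp
      have : J1 (β / α * p.1 / p.2) < j := lt_of_le_of_ne h5 h6
      simpa using this
  · obtain ⟨ylo, yhi, h1, h2, h3, h4⟩ := win_top J2_cont J2_lim (j := j) (by rw [J2_one]; exact hgt)
    refine ⟨2, Or.inr rfl, Real.sqrt 3 * ylo, Real.sqrt 3 * yhi, by nlinarith [hs31],
      mul_lt_mul_of_pos_left h2 hs3, ?_⟩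
    intro M Q hM h11 hQp hQo hQM hlo hhi hne
    have hM1 : 1 < M := lt_of_lt_of_le (by norm_num) (Nat.le_of_dvd hM.pos h11)
    have hm : Odd (M * Q) := hM.mul hQo
    have hm1 : 1 < M * Q := lt_of_lt_of_le hM1 (Nat.le_mul_of_pos_right _ hQp.pos)
    obtain ⟨p₀, hp₀, ⟨w1, w2⟩, w3⟩ := k_comb hτ h1 hM1 hQp hQM hlo hhi
    obtain ⟨f1, r, hr, f2⟩ := fix_two hθ hα hβ hlat hm j hne
    refine ⟨_, ?_, f2⟩
    apply mul_neg_of_pos_of_neg hr
    refine neg_even_prod (PP (M * Q)) (PP_even hm1) (fun p => j - J2 (β / α * p.1 / p.2)) hp₀ ?_ ?_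
    · have := h3 _ w1 w2
      rw [max_inv (fun y hy => J2_inv hy) (hpos hp₀)] at this
      simpa using this
    · intro p hp hpp
      have h5 := h4 _ (w3 p hp hpp)
      rw [max_inv (fun y hy => J2_inv hy) (hpos hp)] at h5
      have h6 := f1 p hp
      have : j < J2 (β / α * p.1 / p.2) := lt_of_le_of_ne h5 h6.symm
      simpa using this


end LT
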