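import Pool.Agent.Lib_MP_f1937f_nt.LA
import Pool.Agent.Lib_MP_f1937f_nt.FRep
import Pool.Agent.Lib_MP_f1937f_nt.PJinv
import Pool.Agent.Lib_MP_f1937f_nt.PTors

/-!
# MP_f1937f_nt: two isogenies of small degree from the same quotient (piece PPAIR)
-/

namespace LT

open Polynomial WeierstrassCurve

/-- Velu's coefficients of a Frobenius stable subgroup are in `F_p` (`jL_map` for the Frobenius). -/
theorem vel_fix {p : ℕ} [Fact p.Prime] {L : AddSubgroup (Pt (0 : Fb p) (-31 / 4))} (hL : Finite L)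
    (hs : ∀ P ∈ L, F0 p P ∈ L) :
    vA 0 (-31 / 4) L ^ p = vA 0 (-31 / 4) L ∧ vB 0 (-31 / 4) L ^ p = vB 0 (-31 / 4) L := by
  have hE : mapE (frobenius (Fb p) p) = F0 p := rfl
  have hinj : Function.Injective (F0 p) :=
    mapPt_injective (frobenius (Fb p) p) (by rw [frobenius_def, frob_zero])
      (by rw [frobenius_def, frob_quarter])
  have hmap : L.map (F0 p) = L := by
    have hle : L.map (F0 p) ≤ L := by
      rintro _ ⟨P, hP, rfl⟩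
      exact hs P hP
    refine le_antisymm hle ?_
    have hfin : (L : Set (Pt (0 : Fb p) (-31 / 4))).Finite := Set.toFinite _
    have h1 : ((L.map (F0 p) : AddSubgroup _) : Set (Pt (0 : Fb p) (-31 / 4))) = L := by
      apply Set.eq_of_subset_of_ncard_le hle _ hfin
      rw [AddSubgroup.coe_map, Set.ncard_image_of_injective _ hinj]
    intro P hP
    have h2 : P ∈ ((L.map (F0 p) : AddSubgroup _) : Set (Pt (0 : Fb p) (-31 / 4))) := by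
      rw [h1]; exact hP
    exact h2
  obtain ⟨h1, h2, _⟩ := jL_map (frobenius (Fb p) p) hL
  rw [hE, hmap] at h1 h2
  exact ⟨h1.symm, h2.symm⟩

namespace PPair

theorem card_cyc {k : Type} [Field k] [DecidableEq k] {a b : k} {n : ℕ}
    {L : AddSubgroup (Pt a b)} (hL : L ∈ CycL a b n) : Nat.card L = n := by
  obtain ⟨T, hT, rfl⟩ := hL
  rw [Nat.card_zmultiples, hT]

/-- The isogeny between two quotients. -/
theorem chain_data {k : Type} [Field k] [DecidableEq k] [IsAlgClosed k] (h2 : (2 : k) ≠ 0)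
    {a b : k} {L' L : AddSubgroup (Pt a b)} {d m : ℕ} (h : ChainOK a b L' L) (hd : 0 < d)
    (hL' : Nat.card L' = d) (hL : Nat.card L = d * m) :
    ∃ (ψ : MM (vA a b L') (vB a b L') (vA a b L) (vB a b L))
      (Ψ : Pt (vA a b L') (vB a b L') →+ Pt (vA a b L) (vB a b L)),
      HasC ψ 1 ∧ InO ψ ∧ Compat ψ Ψ ∧ hh ψ = m := by
  obtain ⟨h1, _, M, hM, hV, hA, hB⟩ := h
  have hm : Nat.card M = m := by
    rw [hL', hL, mul_comm d m] at hM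
    exact Nat.eq_of_mul_eq_mul_right hd hM
  rw [← hA, ← hB]
  obtain ⟨hd2, ψ, Ψ, _, _, hC, hI, hK, hker, _⟩ := hV
  refine ⟨ψ, Ψ, hC, hI, hK, ?_⟩
  rw [← ker_card h2 h1.1 hd2 one_ne_zero hC hI hK, hker, hm]

/-- Scaling the target. -/
theorem scale_data {k : Type} [Field k] [DecidableEq k] (h2 : (2 : k) ≠ 0) {A B a b a' b' v : k}
    {m : ℕ} (hv : v ≠ 0) (hd : dsc a b ≠ 0) (ha : v ^ 4 * a = a') (hb : v ^ 6 * b = b')
    {ψ : MM A B a b} {Ψ : Pt A B →+ Pt a b} (hC : HasC ψ 1) (hI : InO ψ) (hK : Compat ψ Ψ)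
    (hm : hh ψ = m) :
    ∃ (φ : MM A B a' b') (Φ : Pt A B →+ Pt a' b'), HasC φ (1 / v) ∧ InO φ ∧ Compat φ Φ ∧
      hh φ = m := by
  subst ha hb
  obtain ⟨φ, h1, h3, h4, h5⟩ := scale_exists h2 hv hd ψ
  obtain ⟨e, he⟩ := h5 Ψ hK
  exact ⟨φ, _, h4 1 hC, h3 hI, he, h1.trans hm⟩

end PPair

/-- The two isogenies `C' = E₀/L' → E₀/L₁`, `C' → E₀/L₂ ≃ E₀/L₁` (`jinv_iso_fp`, `scale_exists`) have degrees `m₁`,
`m₂` (`ker_card`), differentials `1`, `1/v` in `F_p`: apply `repulsion`. -/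
theorem pair_square {p : ℕ} [Fact p.Prime] (h5 : 5 ≤ p) (h3 : p % 3 = 2) {d m₁ m₂ : ℕ} {j : ℚ}
    (hd : 0 < d) (hm₁ : 0 < m₁) (hm₂ : 0 < m₂) (hp₁ : ¬ p ∣ d * m₁) (hp₂ : ¬ p ∣ d * m₂)
    (hlt : 4 * m₁ * m₂ < p) (hj0 : ((j : ℚ) : Fb p) ≠ 0) (hj1 : ((j : ℚ) : Fb p) ≠ 1728)
    {L' L₁ L₂ : AddSubgroup (Pt (0 : Fb p) (-31 / 4))} (hL' : L' ∈ CycL (0 : Fb p) (-31 / 4) d)
    (h₁ : RedL p (d * m₁) j L₁) (h₂ : RedL p (d * m₂) j L₂) (hle₁ : L' ≤ L₁) (hle₂ : L' ≤ L₂)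
    (hcls : (vB 0 (-31 / 4) L₁ / vA 0 (-31 / 4) L₁) ^ ((p - 1) / 2) =
      (vB 0 (-31 / 4) L₂ / vA 0 (-31 / 4) L₂) ^ ((p - 1) / 2)) :
    IsSquare (m₁ * m₂) := by
  have hpp : p.Prime := Fact.out
  have h2 := (fb_ne h5).1
  have hc₁ := h₁.chain L' hle₁
  have hc₂ := h₂.chain L' hle₂
  obtain ⟨ψ₁, Ψ₁, hC₁, hI₁, hK₁, hh₁⟩ := PPair.chain_data h2 hc₁ hd (PPair.card_cyc hL')
    (PPair.card_cyc h₁.cyc)
  obtain ⟨ψ₂, Ψ₂, hC₂, hI₂, hK₂, hh₂⟩ := PPair.chain_data h2 hc₂ hd (PPair.card_cyc hL')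
    (PPair.card_cyc h₂.cyc)
  have hd1 : dsc (vA 0 (-31 / 4) L₁) (vB 0 (-31 / 4) L₁) ≠ 0 := hc₁.2.1.1
  have hd2 : dsc (vA 0 (-31 / 4) L₂) (vB 0 (-31 / 4) L₂) ≠ 0 := hc₂.2.1.1
  have hj₁ : jinv (vA 0 (-31 / 4) L₁) (vB 0 (-31 / 4) L₁) = ((j : ℚ) : Fb p) := h₁.jj
  have hj₂ : jinv (vA 0 (-31 / 4) L₂) (vB 0 (-31 / 4) L₂) = ((j : ℚ) : Fb p) := h₂.jj
  obtain ⟨ha₁, hb₁⟩ := jinv_ne (by rw [hj₁]; exact hj0) (by rw [hj₁]; exact hj1) hd1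
  obtain ⟨ha₂, hb₂⟩ := jinv_ne (by rw [hj₂]; exact hj0) (by rw [hj₂]; exact hj1) hd2
  obtain ⟨v, hv, hvp, hva, hvb⟩ := jinv_iso_fp p h5 hd2 hd1 ha₂ hb₂ ha₁ hb₁
    (hj₂.trans hj₁.symm) hcls.symm
  obtain ⟨φ, Φ, hC, hI, hK, hh⟩ := PPair.scale_data h2 hv hd2 hva hvb hC₂ hI₂ hK₂ hh₂
  have hpd : Nat.Coprime p d := by
    rw [Nat.Prime.coprime_iff_not_dvd hpp]
    intro h
    exact hp₁ (h.mul_right m₁)
  have htors : ∀ P : Pt (vA (0 : Fb p) (-31 / 4) L') (vB 0 (-31 / 4) L'), p • P = 0 → P = 0 :=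
    quot_no_tors hpd (fun P hP => e0_no_tors h5 h3 hP) hL' hc₁.1
  have hp2 : p ≠ 2 := by omega
  have hf : (1 / v) ^ p = 1 / v := by rw [div_pow, one_pow, hvp]
  have hres := repulsion p hp2 hc₁.1.1 hd1 htors (c₁ := 1) (c₂ := 1 / v) one_ne_zero
    (one_div_ne_zero hv) (one_pow _) hf hC₁ hC hI₁ hI hK₁ hK (by rw [hh₁, hh]; exact hlt)
  rw [hh₁, hh] at hres
  exact hres

end LT
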