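import Pool.Agent.Lib_MP_f1937f_nt.KFrobR
import Pool.Agent.Lib_MP_f1937f_nt.PPair

/-!
# MP_f1937f_nt, theorem C: Velu's quotient by a Frobenius stable subgroup is defined over `F_p` (piece KVEL)

Proof. `vU_fix`: `frR` permutes the terms of `vU` (`frR_X`, `frR_C`, `map_finsum_mem` or a finite sum over the finite set
`L`; `F0` is a bijection of the nonzero elements of `L`, `xc (F0 P) = (xc P) ^ p`; as in the proof of
`vel_fix`, PPair.lean, `jL_map`, Place.lean or `vA_map`, SizeD.lean).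
`k_vel`: let `ψ`, `Ψ` be given by `VeluOK`. `uu ψ = vU` and `HasC ψ 1` give `vv ψ = dR (vU)`, so `uu ψ`, `vv ψ` are fixed by
`frR` (`frR_dR`). Multiply by `v ∈ F_p`: there is `φ : MM 0 (-31/4) a' b'` with `uu φ = v² uu ψ`, `vv φ = v³ vv ψ` (as in the
proof of `scale_exists`, FPt.lean, whose statement hides this; prove the version needed here), which is compatible with
`e ∘ Ψ`, `e (x, y) = (v² x, v³ y)` (`sc_exists`). `hom_frob` applies to `φ`. `ker (e ∘ Ψ) = ker Ψ = L`, `hh φ = card L`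
by `ker_card`.
-/

namespace LT

open Polynomial WeierstrassCurve

namespace KVel

theorem f0_inj (p : ℕ) [Fact p.Prime] : Function.Injective (F0 p) :=
  mapPt_injective (frobenius (Fb p) p) (by rw [frobenius_def, frob_zero])
    (by rw [frobenius_def, frob_quarter])

theorem map_stable {p : ℕ} [Fact p.Prime] {L : AddSubgroup (Pt (0 : Fb p) (-31 / 4))}
    (hL : Finite L) (hs : ∀ P ∈ L, F0 p P ∈ L) : L.map (F0 p) = L := by
  have hle : L.map (F0 p) ≤ L := by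
    rintro _ ⟨P, hP, rfl⟩
    exact hs P hP
  refine le_antisymm hle ?_
  have hfin : (L : Set (Pt (0 : Fb p) (-31 / 4))).Finite := Set.toFinite _
  have h1 : ((L.map (F0 p) : AddSubgroup _) : Set (Pt (0 : Fb p) (-31 / 4))) = L := by
    apply Set.eq_of_subset_of_ncard_le hle _ hfin
    rw [AddSubgroup.coe_map, Set.ncard_image_of_injective _ (f0_inj p)]
  intro P hP
  have h2 : P ∈ ((L.map (F0 p) : AddSubgroup _) : Set (Pt (0 : Fb p) (-31 / 4))) := by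
    rw [h1]; exact hP
  exact h2

theorem nz_stable {p : ℕ} [Fact p.Prime] {L : AddSubgroup (Pt (0 : Fb p) (-31 / 4))}
    (hL : Finite L) (hs : ∀ P ∈ L, F0 p P ∈ L) :
    F0 p '' {P | P ∈ L ∧ P ≠ 0} = {P | P ∈ L ∧ P ≠ 0} := by
  ext Q
  simp only [Set.mem_ofPred_eq, Set.mem_image]
  constructor
  · rintro ⟨P, ⟨hP, h0⟩, rfl⟩
    exact ⟨hs P hP, fun h => h0 (f0_inj p (h.trans (map_zero _).symm))⟩
  · rintro ⟨hQ, h0⟩
    rw [← map_stable hL hs] at hQ
    obtain ⟨P, hP, rfl⟩ := hQ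
    exact ⟨P, ⟨hP, fun h => h0 (by rw [h, map_zero])⟩, rfl⟩

/-- the terms of Velu's function -/
noncomputable def term {k : Type} [Field k] (a b : k) (P : Pt a b) : RatFunc k :=
  RatFunc.C (3 * xc P ^ 2 + a) / (RatFunc.X - RatFunc.C (xc P)) +
      RatFunc.C (2 * (xc P ^ 3 + a * xc P + b)) / (RatFunc.X - RatFunc.C (xc P)) ^ 2

theorem frR_term {p : ℕ} [Fact p.Prime] (P : Pt (0 : Fb p) (-31 / 4)) :
    frR p (term 0 (-31 / 4) P) = term 0 (-31 / 4) (F0 p P) := by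
  have hx : xc (F0 p P) = frobenius (Fb p) p (xc P) := xc_mapPt (frobenius (Fb p) p)
    (by rw [frobenius_def, frob_zero]) (by rw [frobenius_def, frob_quarter]) P
  have hC : ∀ c : Fb p, frR p (RatFunc.C c) = RatFunc.C (frobenius (Fb p) p c) := fun c => by
    rw [frR_C, frobenius_def]
  have hq : frobenius (Fb p) p (-31 / 4) = -31 / 4 := by
    rw [frobenius_def, frob_quarter]
  unfold term
  rw [map_add, map_div₀, map_div₀, map_pow, map_sub, frR_X, hC, hC, hC, hx]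
  have e1 : frobenius (Fb p) p (3 * xc P ^ 2 + 0) = 3 * frobenius (Fb p) p (xc P) ^ 2 + 0 := by
    simp only [map_add, map_mul, map_pow, map_ofNat, map_zero]
  have e2 : frobenius (Fb p) p (2 * (xc P ^ 3 + 0 * xc P + -31 / 4)) =
      2 * (frobenius (Fb p) p (xc P) ^ 3 + 0 * frobenius (Fb p) p (xc P) + -31 / 4) := by
    rw [map_mul, map_add, map_add, map_mul, map_pow, map_ofNat, map_zero, hq]
  rw [e1, e2]

/-- scaling, with the functions -/
theorem scale {k : Type} [Field k] [DecidableEq k] (h2 : (2 : k) ≠ 0) {a b A B v : k} (hv : v ≠ 0)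
    (hd' : dsc A B ≠ 0) {ψ : MM a b A B} (h0 : ψ ≠ .zero) (hC : HasC ψ 1) (hI : InO ψ)
    {Ψ : Pt a b →+ Pt A B} (hΨ : Compat ψ Ψ) :
    ∃ (φ : MM a b (v ^ 4 * A) (v ^ 6 * B)) (e : Pt A B ≃+ Pt (v ^ 4 * A) (v ^ 6 * B)),
      uu φ = RatFunc.C (v ^ 2) * uu ψ ∧ vv φ = RatFunc.C (v ^ 3) * vv ψ ∧ HasC φ (1 / v) ∧
        InO φ ∧ Compat φ (e.toAddMonoidHom.comp Ψ) := by
  obtain ⟨e, he⟩ := sc_exists hv A B
  have hv2 : v ^ 2 ≠ 0 := pow_ne_zero 2 hv
  have hv3 : v ^ 3 ≠ 0 := pow_ne_zero 3 hv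
  obtain ⟨φ, hφ0, hu, hvv⟩ := mk_exists h2 (a := a) (b := b) (a' := v ^ 4 * A)
    (b' := v ^ 6 * B) (by
      have : dsc (v ^ 4 * A) (v ^ 6 * B) = v ^ 12 * dsc A B := by
        simp only [dsc]
        ring
      rw [this]
      exact mul_ne_zero (pow_ne_zero _ hv) hd')
    (RatFunc.C (v ^ 2) * uu ψ) (RatFunc.C (v ^ 3) * vv ψ) (by
      have h1 := uu_vv_eq h0
      simp only [map_mul, map_pow]
      linear_combination RatFunc.C v ^ 6 * h1)
  refine ⟨φ, e, hu, hvv, ?_, ?_, ?_⟩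
  · obtain ⟨h3, h4⟩ := hC
    refine ⟨?_, ?_⟩
    · rw [hu, hvv, dR_mul, dR_C, zero_mul, zero_add, h3, ← mul_assoc, ← mul_assoc, ← map_mul,
        ← map_mul]
      congr 2
      field_simp
    · intro h
      rw [hvv] at h
      rcases mul_eq_zero.mp h with h5 | h5
      · exact absurd ((map_eq_zero _).mp h5) hv3
      · rw [h4 h5, zero_div]
  · rcases hI with h | h
    · exact absurd h h0
    · right
      rw [hu, FPtAux.num_C_mul hv2, FPtAux.denom_C_mul hv2, Polynomial.natDegree_C_mul hv2]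
      exact h
  · intro x y h hy
    refine ⟨fun h => absurd h hφ0, fun _ => ⟨?_, ?_⟩⟩
    · intro h5
      rw [hu, FPtAux.denom_C_mul hv2] at h5
      have := ((hΨ x y h hy).2 h0).1 h5
      simp [this]
    · intro h5
      rw [hu, FPtAux.denom_C_mul hv2] at h5
      obtain ⟨h6, h7⟩ := ((hΨ x y h hy).2 h0).2 h5
      obtain ⟨h8, h9⟩ := he _ _ h6
      rw [hu, hvv, FPtAux.eval_C_mul hv2, FPtAux.eval_C_mul hv3]
      have h10 : y * (v ^ 3 * (vv ψ).eval (RingHom.id k) x) =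
          v ^ 3 * (y * (vv ψ).eval (RingHom.id k) x) := by ring
      rw [h10]
      refine ⟨h8, ?_⟩
      rw [← h9, ← h7]
      rfl

end KVel

theorem vU_fix {p : ℕ} [Fact p.Prime] {L : AddSubgroup (Pt (0 : Fb p) (-31 / 4))} (hL : Finite L)
    (hs : ∀ P ∈ L, F0 p P ∈ L) : frR p (vU (0 : Fb p) (-31 / 4) L) = vU 0 (-31 / 4) L := by
  have hdef : vU (0 : Fb p) (-31 / 4) L = RatFunc.X +
      ∑ᶠ P ∈ {P : Pt (0 : Fb p) (-31 / 4) | P ∈ L ∧ P ≠ 0}, KVel.term 0 (-31 / 4) P := rfl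
  rw [hdef, map_add, frR_X]
  congr 1
  have hfin := nz_finite hL
  calc frR p (∑ᶠ P ∈ {P : Pt (0 : Fb p) (-31 / 4) | P ∈ L ∧ P ≠ 0}, KVel.term 0 (-31 / 4) P)
      = ∑ᶠ P ∈ {P : Pt (0 : Fb p) (-31 / 4) | P ∈ L ∧ P ≠ 0},
          KVel.term 0 (-31 / 4) (F0 p P) := by
        rw [finsum_mem_eq_finite_toFinset_sum _ hfin, map_sum,
          finsum_mem_eq_finite_toFinset_sum _ hfin]
        exact Finset.sum_congr rfl (fun P _ => KVel.frR_term P)
    _ = ∑ᶠ Q ∈ F0 p '' {P : Pt (0 : Fb p) (-31 / 4) | P ∈ L ∧ P ≠ 0},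
          KVel.term 0 (-31 / 4) Q := (finsum_mem_image (KVel.f0_inj p).injOn).symm
    _ = _ := by rw [KVel.nz_stable hL hs]

theorem k_vel {p : ℕ} [Fact p.Prime] (h5 : 5 ≤ p) (h3 : p % 3 = 2)
    {L : AddSubgroup (Pt (0 : Fb p) (-31 / 4))} (hL : Finite L)
    (hs : ∀ P ∈ L, F0 p P ∈ L) (hV : VeluOK (0 : Fb p) (-31 / 4) L) {v a' b' : Fb p} (hv : v ≠ 0)
    (hvp : v ^ p = v) (ha : v ^ 4 * vA 0 (-31 / 4) L = a') (hb : v ^ 6 * vB 0 (-31 / 4) L = b')
    (ha' : a' ^ p = a') (hb' : b' ^ p = b') :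
    ∃ (φ : MM (0 : Fb p) (-31 / 4) a' b') (Φ : Pt (0 : Fb p) (-31 / 4) →+ Pt a' b'),
      HasC φ (1 / v) ∧ InO φ ∧ Compat φ Φ ∧ (∀ P, Φ (F0 p P) = frobPt p ha' hb' (Φ P)) ∧
      Φ.ker = L ∧ hh φ = Nat.card L := by
  have h2 := (fb_ne h5).1
  have hd := e0_dsc h5 h3
  obtain ⟨hdq, ψ, Ψ, h0, hu, hC, hI, hK, hker, _⟩ := hV
  subst ha hb
  obtain ⟨φ, e, hφu, hφv, hφC, hφI, hφK⟩ := KVel.scale h2 hv hdq h0 hC hI hK
  have hd' : dsc (v ^ 4 * vA 0 (-31 / 4) L) (v ^ 6 * vB 0 (-31 / 4) L) ≠ 0 := by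
    have : dsc (v ^ 4 * vA 0 (-31 / 4) L) (v ^ 6 * vB 0 (-31 / 4) L) =
        v ^ 12 * dsc (vA 0 (-31 / 4) L) (vB 0 (-31 / 4) L) := by
      simp only [dsc]
      ring
    rw [this]
    exact mul_ne_zero (pow_ne_zero _ hv) hdq
  have huf : frR p (uu ψ) = uu ψ := by rw [hu, vU_fix hL hs]
  have hvψ : vv ψ = dR (uu ψ) := by
    rw [hC.1, map_one, one_mul]
  have hvf : frR p (vv ψ) = vv ψ := by rw [hvψ, frR_dR, huf]
  have hφuf : frR p (uu φ) = uu φ := by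
    rw [hφu, map_mul, frR_C, huf]
    congr 2
    rw [← pow_mul, mul_comm, pow_mul, hvp]
  have hφvf : frR p (vv φ) = vv φ := by
    rw [hφv, map_mul, frR_C, hvf]
    congr 2
    rw [← pow_mul, mul_comm, pow_mul, hvp]
  have hker' : (e.toAddMonoidHom.comp Ψ).ker = L := by
    refine Eq.trans ?_ hker
    ext P
    rw [AddMonoidHom.mem_ker, AddMonoidHom.mem_ker]
    constructor
    · intro h
      exact e.injective (h.trans (map_zero e).symm)
    · intro h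
      change e (Ψ P) = 0
      rw [h, map_zero]
  refine ⟨φ, e.toAddMonoidHom.comp Ψ, hφC, hφI, hφK, ?_, hker', ?_⟩
  · intro P
    exact hom_frob p h5 hd (frob_zero p) (frob_quarter p) ha' hb' hφK hφuf hφvf P
  · rw [← ker_card h2 hd hd' (one_div_ne_zero hv) hφC hφI hφK, hker']

end LT
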