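import Pool.Agent.Lib_MP_f1937f_nt.Red
import Pool.Agent.Lib_MP_f1937f_nt.TorsInt

/-!
# MP_f1937f_nt: reduction of short Weierstrass curves (piece VISRED)
-/

namespace LT

open Polynomial WeierstrassCurve

variable {Ω κ : Type} [Field Ω] [Field κ] [DecidableEq Ω] [DecidableEq κ]

/-- The homomorphism `red` is the reduction homomorphism. -/
def IsRed (O : ValuationSubring Ω) (r : O →+* κ) {a b : Ω} {a' b' : κ}
    (red : Pt a b →+ Pt a' b') : Prop :=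
  (∀ (x y : Ω) (h : (SW a b).toAffine.Nonsingular x y), x ∉ O → red (.some x y h) = 0) ∧
    ∀ (x y : Ω) (h : (SW a b).toAffine.Nonsingular x y), x ∈ O → ∃ (x' y' : κ) (h' : _),
      Rdc O r x x' ∧ Rdc O r y y' ∧ red (.some x y h) = .some x' y' h'

variable {O : ValuationSubring Ω} {r : O →+* κ} [IsLocalHom r] {a b : Ω} {a' b' : κ}

namespace VIsRedAux

omit [DecidableEq Ω] [DecidableEq κ] [IsLocalHom r] in
theorem two_ne (h2 : (2 : κ) ≠ 0) (r : O →+* κ) : (2 : Ω) ≠ 0 := by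
  intro h
  have h1 : Rdc O r (2 : Ω) (2 : κ) := by exact_mod_cast Rdc.natCast O r 2
  rw [h] at h1
  exact h2 (h1.unique (Rdc.zero O r))

omit [DecidableEq Ω] [DecidableEq κ] in
theorem nat_ne {n : ℕ} (hn : (n : κ) ≠ 0) (r : O →+* κ) : (n : Ω) ≠ 0 := by
  intro h
  have h1 : Rdc O r (n : Ω) (n : κ) := Rdc.natCast O r n
  rw [h] at h1
  exact hn (h1.unique (Rdc.zero O r))

omit [DecidableEq Ω] [DecidableEq κ] [IsLocalHom r] in
theorem rdc_dsc (ha : Rdc O r a a') (hb : Rdc O r b b') :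
    Rdc O r (dsc a b) (dsc a' b') := by
  have h4 : Rdc O r (4 : Ω) (4 : κ) := by exact_mod_cast Rdc.natCast O r 4
  have h27 : Rdc O r (27 : Ω) (27 : κ) := by exact_mod_cast Rdc.natCast O r 27
  exact (h4.mul (ha.pow 3)).add (h27.mul (hb.pow 2))

omit [DecidableEq Ω] [DecidableEq κ] [IsLocalHom r] in
theorem rdc_sw (ha : Rdc O r a a') (hb : Rdc O r b b') : RdcW O r (SW a b) (SW a' b') :=
  ⟨Rdc.zero O r, Rdc.zero O r, Rdc.zero O r, ha, hb⟩

omit [DecidableEq Ω] in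
theorem sq_mem {y : Ω} (h : y ^ 2 ∈ O) : y ∈ O := by
  rw [← O.valuation_le_one_iff] at h ⊢
  rw [map_pow] at h
  by_contra h1
  rw [not_le] at h1
  have h2 : 1 < O.valuation y ^ 2 := one_lt_pow₀ h1 two_ne_zero
  exact absurd h (not_le.mpr h2)

omit [DecidableEq κ] in
theorem delta_ne (h2 : (2 : κ) ≠ 0) (hd : dsc a' b' ≠ 0) : (SW a' b').Δ ≠ 0 := by
  rw [sw_disc]
  have : (16 : κ) = 2 ^ 4 := by norm_num
  rw [this]
  exact mul_ne_zero (neg_ne_zero.mpr (pow_ne_zero 4 h2)) hd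

end VIsRedAux

open VIsRedAux

theorem isRed_exists (ha : Rdc O r a a') (hb : Rdc O r b b') (h2 : (2 : κ) ≠ 0)
    (hd : dsc a' b' ≠ 0) : ∃ red : Pt a b →+ Pt a' b', IsRed O r red :=
  red_exists O r (rdc_sw ha hb) (delta_ne h2 hd)

theorem dsc_ne_of_red (ha : Rdc O r a a') (hb : Rdc O r b b') (hd : dsc a' b' ≠ 0) :
    dsc a b ≠ 0 := by
  intro h
  have h1 := rdc_dsc ha hb
  rw [h] at h1
  exact hd (h1.unique (Rdc.zero O r))

theorem IsRed.surj [IsAlgClosed Ω] (hr : Function.Surjective r) (ha : Rdc O r a a')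
    (hb : Rdc O r b b') (h2 : (2 : κ) ≠ 0) (hd : dsc a' b' ≠ 0) {red : Pt a b →+ Pt a' b'}
    (h : IsRed O r red) : Function.Surjective red := by
  have h2Ω : (2 : Ω) ≠ 0 := two_ne h2 r
  have hdΩ : dsc a b ≠ 0 := dsc_ne_of_red ha hb hd
  rintro (_ | ⟨x', y', h'⟩)
  · exact ⟨0, map_zero red⟩
  · obtain ⟨z, hz⟩ := hr x'
    have hx : Rdc O r (z : Ω) x' := ⟨z, rfl, hz⟩
    obtain ⟨y, hy⟩ := IsAlgClosed.exists_pow_nat_eq ((z : Ω) ^ 3 + a * z + b) (n := 2) two_pos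
    have hns : (SW a b).toAffine.Nonsingular (z : Ω) y := (sw_nons h2Ω hdΩ).mpr hy
    obtain ⟨x'', y'', h'', hx1, hy1, he⟩ := h.2 z y hns hx.mem
    have hxx : x'' = x' := hx1.unique hx
    subst hxx
    have e1 : y'' ^ 2 = x'' ^ 3 + a' * x'' + b' := (sw_nons h2 hd).mp h''
    have e2 : y' ^ 2 = x'' ^ 3 + a' * x'' + b' := (sw_nons h2 hd).mp h'
    rcases sq_eq_sq_iff_eq_or_eq_neg.mp (e1.trans e2.symm) with e3 | e3
    · subst e3
      exact ⟨_, he⟩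
    · refine ⟨-(.some (z : Ω) y hns), ?_⟩
      rw [map_neg, he, Affine.Point.neg_some]
      have e4 : (SW a' b').toAffine.negY x'' y'' = y' := by
        simp [Affine.negY, SW, e3]
      simp only [e4]

/-- Torsion points of order prime to the residue characteristic are integral. -/
theorem IsRed.xc_mem (ha : Rdc O r a a') (hb : Rdc O r b b') (h2 : (2 : κ) ≠ 0)
    (hd : dsc a' b' ≠ 0) {n : ℕ} (hn : (n : κ) ≠ 0) {P : Pt a b} (hP : n • P = 0) (h0 : P ≠ 0) :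
    xc P ∈ O ∧ yc P ∈ O := by
  have h2Ω : (2 : Ω) ≠ 0 := two_ne h2 r
  have hdΩ : dsc a b ≠ 0 := dsc_ne_of_red ha hb hd
  have hnΩ : (n : Ω) ≠ 0 := nat_ne hn r
  rcases P with _ | ⟨x, y, h⟩
  · exact absurd rfl h0
  · have h1 := tors_int O (SW a b) (delta_ne h2Ω hdΩ) (zero_mem O) (zero_mem O) (zero_mem O)
      ha.mem hb.mem hnΩ h hP
    have h3 : ((n : Ω)⁻¹) ∈ O := ((Rdc.natCast O r n).inv hn).mem
    have hx : x ∈ O := by
      have h4 : x = (n : Ω) ^ 2 * x * ((n : Ω)⁻¹) ^ 2 := by field_simp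
      rw [h4]
      exact mul_mem h1 (pow_mem h3 2)
    refine ⟨hx, sq_mem ?_⟩
    show y ^ 2 ∈ O
    rw [(sw_nons h2Ω hdΩ).mp h]
    exact add_mem (add_mem (pow_mem hx 3) (mul_mem ha.mem hx)) hb.mem

theorem IsRed.inj (ha : Rdc O r a a') (hb : Rdc O r b b') (h2 : (2 : κ) ≠ 0)
    (hd : dsc a' b' ≠ 0) {red : Pt a b →+ Pt a' b'} (h : IsRed O r red) {n : ℕ}
    (hn : (n : κ) ≠ 0) {P : Pt a b} (hP : n • P = 0) (h0 : red P = 0) : P = 0 := by
  by_contra hne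
  have h1 := (IsRed.xc_mem ha hb h2 hd hn hP hne).1
  rcases P with _ | ⟨x, y, hxy⟩
  · exact hne rfl
  · obtain ⟨x', y', h', -, -, he⟩ := h.2 x y hxy h1
    rw [he] at h0
    exact Affine.Point.some_ne_zero _ h0

theorem IsRed.xc_red {red : Pt a b →+ Pt a' b'} (h : IsRed O r red) {P : Pt a b}
    (h0 : red P ≠ 0) : Rdc O r (xc P) (xc (red P)) ∧ Rdc O r (yc P) (yc (red P)) := by
  rcases P with _ | ⟨x, y, hxy⟩
  · exact absurd (map_zero red) h0
  · by_cases hx : x ∈ O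
    · obtain ⟨x', y', h', h1, h3, he⟩ := h.2 x y hxy hx
      rw [he]
      exact ⟨h1, h3⟩
    · exact absurd (h.1 x y hxy hx) h0

end LT
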