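import Pool.Agent.Lib_MP_f1937f_nt.Place
import Pool.Agent.Lib_MP_f1937f_nt.FHasse
import Pool.Agent.Lib_MP_f1937f_nt.FRep
import Pool.Agent.Lib_MP_f1937f_nt.VIsRed

/-!
# MP_f1937f_nt: the curve `E₀` modulo `p = 2 mod 3` (piece LA)
-/

namespace LT

open Polynomial WeierstrassCurve

namespace LAaux

variable {p : ℕ} [Fact p.Prime]

/-- A natural number prime to `p` is non-zero in the algebraic closure of `F_p`. -/
theorem nat_ne {m : ℕ} (h : ¬ p ∣ m) : (m : Fb p) ≠ 0 := by
  intro h0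
  exact h ((CharP.cast_eq_zero_iff (Fb p) p m).mp h0)

end LAaux

theorem fb_ne {p : ℕ} [Fact p.Prime] (h5 : 5 ≤ p) : (2 : Fb p) ≠ 0 ∧ (3 : Fb p) ≠ 0 := by
  constructor
  · have : ¬ p ∣ 2 := fun h => by
      have := Nat.le_of_dvd (by norm_num) h
      omega
    exact_mod_cast LAaux.nat_ne this
  · have : ¬ p ∣ 3 := fun h => by
      have := Nat.le_of_dvd (by norm_num) h
      omega
    exact_mod_cast LAaux.nat_ne this

theorem LAaux.four_ne {p : ℕ} [Fact p.Prime] (h5 : 5 ≤ p) : (4 : Fb p) ≠ 0 := by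
  have : ¬ p ∣ 4 := fun h => by
    have := Nat.le_of_dvd (by norm_num) h
    omega
  exact_mod_cast LAaux.nat_ne this

theorem e0_dsc {p : ℕ} [Fact p.Prime] (h5 : 5 ≤ p) (h3 : p % 3 = 2) :
    dsc (0 : Fb p) (-31 / 4) ≠ 0 := by
  have h31 : (31 : Fb p) ≠ 0 := by
    have : ¬ p ∣ 31 := fun h => by
      rw [Nat.prime_dvd_prime_iff_eq Fact.out (by norm_num)] at h
      subst h
      omega
    exact_mod_cast LAaux.nat_ne this
  have h4 := LAaux.four_ne h5
  have h3' := (fb_ne h5).2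
  unfold dsc
  have e : 4 * (0 : Fb p) ^ 3 + 27 * (-31 / 4) ^ 2 = 3 ^ 3 * (31 / 4) ^ 2 := by ring
  rw [e]
  exact mul_ne_zero (pow_ne_zero _ h3') (pow_ne_zero _ (div_ne_zero h31 h4))

theorem rdc_quarter {p : ℕ} [Fact p.Prime] (h5 : 5 ≤ p) :
    Rdc (OP p) (rP p) (-31 / 4) (-31 / 4) := by
  have h1 : Rdc (OP p) (rP p) (-31 : PadicAlgCl p) (-31 : Fb p) := by
    have := Rdc.intCast (OP p) (rP p) (-31)
    push_cast at this
    exact this
  have h2 : Rdc (OP p) (rP p) (4 : PadicAlgCl p) (4 : Fb p) := by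
    have := Rdc.intCast (OP p) (rP p) 4
    push_cast at this
    exact this
  exact RedAux.Rdc_div h1 h2 (LAaux.four_ne h5)

theorem LAaux.not_dvd_den {p : ℕ} [Fact p.Prime] {j : ℚ} (hj : 0 ≤ padicValRat p j) :
    ¬ p ∣ j.den := by
  intro h
  have hpp : p.Prime := Fact.out
  have h1 : ¬ (p : ℤ) ∣ j.num := by
    intro h2
    have h3 : p ∣ j.num.natAbs := Int.natCast_dvd.mp h2
    have h4 := Nat.dvd_gcd h3 h
    rw [j.reduced] at h4
    exact hpp.one_lt.ne' (Nat.dvd_one.mp h4)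
  rw [padicValRat_def] at hj
  have h2 : padicValInt p j.num = 0 := padicValInt.eq_zero_of_not_dvd h1
  have h3 : 0 < padicValNat p j.den := by
    rw [Nat.pos_iff_ne_zero]
    exact (dvd_iff_padicValNat_ne_zero j.den_nz).mp h
  rw [h2, Nat.cast_zero, zero_sub] at hj
  have h4 : (0 : ℤ) < (padicValNat p j.den : ℤ) := by exact_mod_cast h3
  linarith

/-- Rational numbers without `p` in the denominator reduce to their images. -/
theorem rdc_rat {p : ℕ} [Fact p.Prime] {j : ℚ} (hj : 0 ≤ padicValRat p j) :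
    Rdc (OP p) (rP p) (j : PadicAlgCl p) (j : Fb p) := by
  rw [Rat.cast_def, Rat.cast_def]
  exact RedAux.Rdc_div (Rdc.intCast _ _ _) (Rdc.natCast _ _ _)
    (LAaux.nat_ne (LAaux.not_dvd_den hj))

/-- The elements fixed by Frobenius are in the prime field. -/
theorem LAaux.exists_zmod {p : ℕ} [Fact p.Prime] {c : Fb p} (hc : c ^ p = c) :
    ∃ n : ZMod p, algebraMap (ZMod p) (Fb p) n = c := by
  obtain ⟨n, hn⟩ := FRep.exists_int p hc
  exact ⟨(n : ZMod p), by rw [map_natCast, hn]⟩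

/-- Cube roots modulo `p = 2 mod 3`. -/
theorem LAaux.cube {p : ℕ} [Fact p.Prime] (h3 : p % 3 = 2) {F : Type*} [Field F] (c : F)
    (hc : c ^ p = c) : (c ^ ((2 * p - 1) / 3)) ^ 3 = c := by
  have hpp : p.Prime := Fact.out
  have h2 := hpp.two_le
  rw [← pow_mul]
  have e : (2 * p - 1) / 3 * 3 = p + (p - 1) := by omega
  rw [e, pow_add, hc, ← pow_succ']
  have e2 : p - 1 + 1 = p := by omega
  rw [e2, hc]

theorem LAaux.cube_inj {p : ℕ} [Fact p.Prime] (h3 : p % 3 = 2) {F : Type*} [Field F] (c d : F)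
    (hc : c ^ p = c) (hd : d ^ p = d) (h : c ^ 3 = d ^ 3) : c = d := by
  have h1 := LAaux.cube h3 c hc
  have h2 := LAaux.cube h3 d hd
  rw [← pow_mul, mul_comm, pow_mul] at h1 h2
  rw [← h1, ← h2, h]

/-- The number of points over `F_p`: cubing is a bijection. -/
theorem e0_card {p : ℕ} [Fact p.Prime] (h5 : 5 ≤ p) (h3 : p % 3 = 2) :
    Nat.card {P : Pt (0 : Fb p) (-31 / 4) // F0 p P = P} = p + 1 := by
  have h2 := (fb_ne h5).1
  have hd := e0_dsc h5 h3
  have h4 := LAaux.four_ne h5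
  let i : ZMod p →+* Fb p := algebraMap (ZMod p) (Fb p)
  have hi : Function.Injective i := i.injective
  have hip : ∀ z : ZMod p, (i z) ^ p = i z := fun z => by rw [← map_pow, ZMod.pow_card]
  let xx : ZMod p → Fb p := fun y => i ((y ^ 2 + 31 / 4) ^ ((2 * p - 1) / 3))
  have hx3 : ∀ y, xx y ^ 3 = i y ^ 2 + 31 / 4 := by
    intro y
    have e1 : ((y ^ 2 + 31 / 4 : ZMod p) ^ ((2 * p - 1) / 3)) ^ 3 = y ^ 2 + 31 / 4 :=
      LAaux.cube h3 _ (ZMod.pow_card _)
    have e2 : i (31 / 4) = 31 / 4 := by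
      rw [map_div₀, map_ofNat i 31, map_ofNat i 4]
    show (i _) ^ 3 = _
    rw [← map_pow, e1, map_add, map_pow, e2]
  have hns : ∀ y, (SW (0 : Fb p) (-31 / 4)).toAffine.Nonsingular (xx y) (i y) := by
    intro y
    rw [sw_nons h2 hd, hx3]
    ring
  have hfix : ∀ y, F0 p (.some (xx y) (i y) (hns y)) = .some (xx y) (i y) (hns y) := by
    intro y
    obtain ⟨h', e⟩ := frobPt_some p (frob_zero p) (frob_quarter p) (xx y) (i y) (hns y)
    have e2 : F0 p (.some (xx y) (i y) (hns y)) = .some (xx y ^ p) (i y ^ p) h' := e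
    rw [e2, Affine.Point.some.injEq]
    exact ⟨hip _, hip _⟩
  let g : Option (ZMod p) → {P : Pt (0 : Fb p) (-31 / 4) // F0 p P = P} := fun o =>
    match o with
    | none => ⟨0, map_zero _⟩
    | some y => ⟨.some (xx y) (i y) (hns y), hfix y⟩
  have hg : Function.Bijective g := by
    constructor
    · rintro (_ | y) (_ | y') h
      · rfl
      · exact absurd (congrArg Subtype.val h) (by intro h'; cases h')
      · exact absurd (congrArg Subtype.val h) (by intro h'; cases h')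
      · have h1 : (Affine.Point.some (xx y) (i y) (hns y) : Pt (0 : Fb p) (-31 / 4)) =
            .some (xx y') (i y') (hns y') := congrArg Subtype.val h
        rw [Affine.Point.some.injEq] at h1
        rw [hi h1.2]
    · rintro ⟨P, hP⟩
      rcases P with _ | ⟨X, Y, h⟩
      · exact ⟨none, rfl⟩
      · obtain ⟨h', e⟩ := frobPt_some p (frob_zero p) (frob_quarter p) X Y h
        have e2 : (.some X Y h : Pt (0 : Fb p) (-31 / 4)) = .some (X ^ p) (Y ^ p) h' :=
          hP.symm.trans e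
        rw [Affine.Point.some.injEq] at e2
        obtain ⟨y, hy⟩ := LAaux.exists_zmod e2.2.symm
        have hX : X = xx y := by
          apply LAaux.cube_inj h3 X (xx y) e2.1.symm (hip _)
          rw [hx3]
          have h6 := (sw_nons h2 hd).mp h
          have hy' : i y = Y := hy
          rw [hy', h6]
          ring
        refine ⟨some y, ?_⟩
        apply Subtype.ext
        show (Affine.Point.some (xx y) (i y) (hns y) : Pt (0 : Fb p) (-31 / 4)) = .some X Y h
        rw [Affine.Point.some.injEq]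
        exact ⟨hX.symm, hy⟩
  rw [← Nat.card_congr (Equiv.ofBijective g hg)]
  rw [Nat.card_eq_fintype_card, Fintype.card_option, ZMod.card]

theorem F0_sq {p : ℕ} [Fact p.Prime] (h5 : 5 ≤ p) (h3 : p % 3 = 2)
    (P : Pt (0 : Fb p) (-31 / 4)) : F0 p (F0 p P) = -(p • P) :=
  frob_sq_of_card p (by omega) (e0_dsc h5 h3) (frob_zero p) (frob_quarter p) (e0_card h5 h3) P

/-- Odd powers of Frobenius are multiples of Frobenius. -/
theorem F0_odd {p : ℕ} [Fact p.Prime] (h5 : 5 ≤ p) (h3 : p % 3 = 2) {n : ℕ} (hn : Odd n)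
    (P : Pt (0 : Fb p) (-31 / 4)) :
    (F0 p)^[n] P = ((-(p : ℤ)) ^ ((n - 1) / 2)) • F0 p P := by
  obtain ⟨m, rfl⟩ := hn
  have e : (2 * m + 1 - 1) / 2 = m := by omega
  rw [e]
  clear e
  induction m with
  | zero => simp
  | succ m ih =>
    have e2 : 2 * (m + 1) + 1 = (2 * m + 1) + 1 + 1 := by ring
    rw [e2, Function.iterate_succ_apply', Function.iterate_succ_apply', F0_sq h5 h3, ih,
      ← natCast_zsmul, ← neg_zsmul, smul_smul, ← pow_succ']

/-- There is no `p`-torsion. -/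
theorem e0_no_tors {p : ℕ} [Fact p.Prime] (h5 : 5 ≤ p) (h3 : p % 3 = 2)
    {P : Pt (0 : Fb p) (-31 / 4)} (hP : p • P = 0) : P = 0 := by
  have h1 := F0_sq h5 h3 P
  rw [hP, neg_zero] at h1
  have hinj : Function.Injective (F0 p) :=
    mapPt_injective (frobenius (Fb p) p) (by rw [frobenius_def, frob_zero])
      (by rw [frobenius_def, frob_quarter])
  have h2 : F0 p P = 0 := hinj (by rw [h1, map_zero])
  exact hinj (by rw [h2, map_zero])

end LT
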