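import Pool.Agent.Lib_MP_f1937f_nt.LA

/-!
# MP_f1937f_nt: reduction and the Galois action on `E₀` (piece LB)
-/

namespace LT

open Polynomial WeierstrassCurve

theorem redE_exists {p : ℕ} [Fact p.Prime] (h5 : 5 ≤ p) (h3 : p % 3 = 2) :
    ∃ red : Pt (0 : PadicAlgCl p) (-31 / 4) →+ Pt (0 : Fb p) (-31 / 4),
      IsRed (OP p) (rP p) red ∧ Function.Surjective red := by
  obtain ⟨red, hred⟩ := isRed_exists (Rdc.zero (OP p) (rP p)) (rdc_quarter h5) (fb_ne h5).1
    (e0_dsc h5 h3)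
  exact ⟨red, hred, IsRed.surj (rP_surj p) (Rdc.zero (OP p) (rP p)) (rdc_quarter h5) (fb_ne h5).1
    (e0_dsc h5 h3) hred⟩

namespace LBAux

/-- A point given by its coordinates. -/
theorem some_congr {k : Type} [Field k] {a b : k} {x y x' y' : k}
    (h : (SW a b).toAffine.Nonsingular x y) (h' : (SW a b).toAffine.Nonsingular x' y')
    (hx : x = x') (hy : y = y') : (Affine.Point.some x y h : Pt a b) = .some x' y' h' := by
  subst hx hy
  rfl

end LBAux

open LBAux

/-- Reduction commutes with the Galois action. -/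
theorem red_gal {p : ℕ} [Fact p.Prime]
    {red : Pt (0 : PadicAlgCl p) (-31 / 4) →+ Pt (0 : Fb p) (-31 / 4)}
    (h : IsRed (OP p) (rP p) red) (σ : GP p) (s : Fb p ≃+* Fb p)
    (hs : ∀ (x : PadicAlgCl p) (x' : Fb p), Rdc (OP p) (rP p) x x' →
      Rdc (OP p) (rP p) (σ x) (s x')) (P : Pt (0 : PadicAlgCl p) (-31 / 4)) :
    red (mapE (σ : PadicAlgCl p →+* PadicAlgCl p) P) = mapE (s : Fb p →+* Fb p) (red P) := by
  rcases P with _ | ⟨x, y, hxy⟩
  · have h1 : (Affine.Point.zero : Pt (0 : PadicAlgCl p) (-31 / 4)) = 0 := rfl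
    rw [h1, map_zero, map_zero, map_zero]
  · obtain ⟨h1, h2⟩ := mapPt_some (σ : PadicAlgCl p →+* PadicAlgCl p)
      (map_zero (σ : PadicAlgCl p →+* PadicAlgCl p))
      (map_quarter (σ : PadicAlgCl p →+* PadicAlgCl p)) x y hxy
    have h2' : mapE (σ : PadicAlgCl p →+* PadicAlgCl p) (.some x y hxy) =
        .some (σ x) (σ y) h1 := h2
    rw [h2']
    by_cases hx : x ∈ OP p
    · obtain ⟨x', y', h', hx', hy', he⟩ := h.2 x y hxy hx
      obtain ⟨x'', y'', h'', hx'', hy'', he'⟩ := h.2 (σ x) (σ y) h1 (gal_mem p σ hx)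
      obtain ⟨h3, h4⟩ := mapPt_some (s : Fb p →+* Fb p) (map_zero (s : Fb p →+* Fb p))
        (map_quarter (s : Fb p →+* Fb p)) x' y' h'
      have h4' : mapE (s : Fb p →+* Fb p) (.some x' y' h') = .some (s x') (s y') h3 := h4
      rw [he, he', h4']
      exact some_congr _ _ (hx''.unique (hs x x' hx')) (hy''.unique (hs y y' hy'))
    · have hσx : σ x ∉ OP p := by
        intro h3
        apply hx
        have h4 := gal_mem p σ.symm h3
        rwa [AlgEquiv.symm_apply_apply] at h4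
      rw [h.1 _ _ _ hx, h.1 _ _ _ hσx, map_zero]

/-- The reduction of a subgroup fixed by an automorphism which moves `δ` is Frobenius stable. -/
theorem frob_stable {p : ℕ} [Fact p.Prime] (h5 : 5 ≤ p) (h3 : p % 3 = 2)
    {red : Pt (0 : PadicAlgCl p) (-31 / 4) →+ Pt (0 : Fb p) (-31 / 4)}
    (h : IsRed (OP p) (rP p) red) (σ : GP p) (hσ : σ (dl p) = -dl p)
    (L : AddSubgroup (Pt (0 : PadicAlgCl p) (-31 / 4))) (hL : Finite L)
    (hn : ¬ p ∣ Nat.card L) (hfix : L.map (mapE (σ : PadicAlgCl p →+* PadicAlgCl p)) = L) :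
    ∀ P ∈ L.map red, F0 p P ∈ L.map red := by
  classical
  obtain ⟨s, hs⟩ := gal_res p σ
  have hfinL : (L : Set (Pt (0 : PadicAlgCl p) (-31 / 4))).Finite := hL
  set S : Finset (Fb p) := (hfinL.toFinset.image fun P => xc (red P)) ∪
    (hfinL.toFinset.image fun P => yc (red P)) with hS
  obtain ⟨n, hodd, hpow⟩ := frob_odd p h3 σ hσ s hs S
  rintro _ ⟨P, hP, rfl⟩
  have hPL : P ∈ L := hP
  have hxS : xc (red P) ∈ S := Finset.mem_union_left _
    (Finset.mem_image.mpr ⟨P, hfinL.mem_toFinset.mpr hP, rfl⟩)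
  have hyS : yc (red P) ∈ S := Finset.mem_union_right _
    (Finset.mem_image.mpr ⟨P, hfinL.mem_toFinset.mpr hP, rfl⟩)
  -- the action of `s` on `red P`
  have h6 : mapE (s : Fb p →+* Fb p) (red P) = (F0 p)^[n] (red P) := by
    generalize hQ : red P = Q at hxS hyS ⊢
    rcases Q with _ | ⟨x, y, hxy⟩
    · have h1 : (Affine.Point.zero : Pt (0 : Fb p) (-31 / 4)) = 0 := rfl
      have hit : ∀ m : ℕ, (F0 p)^[m] 0 = 0 := by
        intro m
        induction m with
        | zero => rfl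
        | succ m ih => rw [Function.iterate_succ_apply, map_zero, ih]
      rw [h1, map_zero, hit]
    · obtain ⟨h7, h8⟩ := FFrob.frob_iter p (frob_zero p) (frob_quarter p) n x y hxy
      have h8' : (F0 p)^[n] (.some x y hxy) = .some (x ^ p ^ n) (y ^ p ^ n) h7 := h8
      obtain ⟨h9, h10⟩ := mapPt_some (s : Fb p →+* Fb p) (map_zero (s : Fb p →+* Fb p))
        (map_quarter (s : Fb p →+* Fb p)) x y hxy
      have h10' : mapE (s : Fb p →+* Fb p) (.some x y hxy) = .some (s x) (s y) h9 := h10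
      rw [h8', h10']
      exact some_congr _ _ (hpow x hxS) (hpow y hyS)
  have h7 : mapE (σ : PadicAlgCl p →+* PadicAlgCl p) P ∈ L := by
    rw [← hfix]
    exact ⟨P, hP, rfl⟩
  have h8 : ((-(p : ℤ)) ^ ((n - 1) / 2)) • F0 p (red P) ∈ L.map red := by
    rw [← F0_odd h5 h3 hodd, ← h6, ← red_gal h σ s hs P]
    exact ⟨_, h7, rfl⟩
  -- invert the power of `p`
  have h9 : (Nat.card L : ℤ) • F0 p (red P) = 0 := by
    rw [← map_zsmul (F0 p), ← map_zsmul red]
    have h10 : (Nat.card L : ℤ) • P = 0 := by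
      have h11 : Nat.card L • (⟨P, hPL⟩ : L) = 0 := card_nsmul_eq_zero'
      have h12 := congrArg Subtype.val h11
      rw [natCast_zsmul]
      exact h12
    rw [h10, map_zero, map_zero]
  have hcop : IsCoprime ((-(p : ℤ)) ^ ((n - 1) / 2)) (Nat.card L : ℤ) := by
    apply IsCoprime.pow_left
    apply IsCoprime.neg_left
    rw [Nat.isCoprime_iff_coprime]
    exact (Nat.Prime.coprime_iff_not_dvd Fact.out).mpr hn
  obtain ⟨u, v, huv⟩ := hcop
  have h10 : F0 p (red P) = u • (((-(p : ℤ)) ^ ((n - 1) / 2)) • F0 p (red P)) +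
      v • ((Nat.card L : ℤ) • F0 p (red P)) := by
    rw [smul_smul, smul_smul, ← add_smul, huv, one_smul]
  rw [h10, h9, smul_zero, add_zero]
  exact AddSubgroup.zsmul_mem _ h8 u

end LT
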