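import Pool.Agent.Lib_MP_f1937f_nt.VHomA

/-!
# MP_f1937f_nt: Velu's quotient reduces well (piece VHOM)
-/

namespace LT

open Polynomial WeierstrassCurve

variable {Ω κ : Type} [Field Ω] [Field κ] [DecidableEq Ω] [DecidableEq κ] [IsAlgClosed Ω]
  [IsAlgClosed κ] {O : ValuationSubring Ω} {r : O →+* κ} [IsLocalHom r] {a b : Ω} {a' b' : κ}

namespace VHom

/-- A rational function with a pole at infinity satisfies no monic cubic equation of this kind. -/
theorem cubic_ne {k : Type} [Field k] (U : RatFunc k) (A B : k)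
    (hdeg : U.num.natDegree = U.denom.natDegree + 1) :
    U ^ 3 + RatFunc.C A * U + RatFunc.C B ≠ 0 := by
  intro h
  have hD : U.denom ≠ 0 := U.denom_ne_zero
  have hN : U.num ≠ 0 := by
    intro h0
    rw [h0] at hdeg
    simp at hdeg
  have hD' : algebraMap k[X] (RatFunc k) U.denom ≠ 0 := RatFunc.algebraMap_ne_zero hD
  have h1 : algebraMap k[X] (RatFunc k) (U.num ^ 3 + C A * U.num * U.denom ^ 2 +
      C B * U.denom ^ 3) = 0 := by
    have e : U = algebraMap k[X] (RatFunc k) U.num / algebraMap k[X] (RatFunc k) U.denom :=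
      U.num_div_denom.symm
    have h2 : (algebraMap k[X] (RatFunc k) U.num / algebraMap k[X] (RatFunc k) U.denom) ^ 3 +
        RatFunc.C A * (algebraMap k[X] (RatFunc k) U.num / algebraMap k[X] (RatFunc k) U.denom) +
        RatFunc.C B = 0 := by
      rw [← e]
      exact h
    field_simp at h2
    simp only [map_add, map_mul, map_pow, RatFunc.algebraMap_C]
    linear_combination h2
  have h2 : U.num ^ 3 + C A * U.num * U.denom ^ 2 + C B * U.denom ^ 3 = 0 := by
    apply RatFunc.algebraMap_injective k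
    rw [h1, map_zero]
  have h3 : U.num ^ 3 = -(C A * U.num * U.denom ^ 2 + C B * U.denom ^ 3) := by
    linear_combination h2
  have h4 : (U.num ^ 3).natDegree = 3 * U.num.natDegree := natDegree_pow _ _
  have h5 : (C A * U.num * U.denom ^ 2).natDegree ≤ U.num.natDegree + 2 * U.denom.natDegree := by
    refine (natDegree_mul_le).trans ?_
    have h6 := natDegree_C_mul_le A U.num
    have h7 : (U.denom ^ 2).natDegree = 2 * U.denom.natDegree := natDegree_pow _ _
    omega
  have h6 : (C B * U.denom ^ 3).natDegree ≤ 3 * U.denom.natDegree := by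
    refine (natDegree_C_mul_le B _).trans ?_
    rw [natDegree_pow]
  have h7 := natDegree_add_le (C A * U.num * U.denom ^ 2) (C B * U.denom ^ 3)
  rw [h3, natDegree_neg] at h4
  have h8 := h7.trans (max_le_max h5 h6)
  rcases le_max_iff.mp h8 with h9 | h9 <;> omega

/-- Points with the same `x`-coordinate are equal up to sign. -/
theorem eq_or_neg {k : Type} [Field k] {a b : k} {P Q : Pt a b} (hP : P ≠ 0) (hQ : Q ≠ 0)
    (hx : xc P = xc Q) : P = Q ∨ P = -Q := by
  rcases P with _ | ⟨x, y, h⟩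
  · exact absurd rfl hP
  rcases Q with _ | ⟨x', y', h'⟩
  · exact absurd rfl hQ
  change x = x' at hx
  subst hx
  have h1 := sw_equation.mp h.1
  have h2 := sw_equation.mp h'.1
  rw [← h2] at h1
  rcases sq_eq_sq_iff_eq_or_eq_neg.mp h1 with h3 | h3
  · left
    subst h3
    rfl
  · right
    obtain ⟨h4, h5⟩ := FKer.neg_some h'
    rw [h5]
    subst h3
    rfl

end VHom

/-- Velu's theorem in characteristic `p` by reduction. -/
theorem velu_reduce (hr : Function.Surjective r) (ha : Rdc O r a a') (hb : Rdc O r b b')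
    (h2 : (2 : κ) ≠ 0) (h3 : (3 : κ) ≠ 0)
    (hd : dsc a' b' ≠ 0) {red : Pt a b →+ Pt a' b'} (h : IsRed O r red) (L : AddSubgroup (Pt a b))
    (hL : Finite L) (hn : (Nat.card L : κ) ≠ 0) (hV : VeluOK a b L) :
    VeluOK a' b' (L.map red) := by
  obtain ⟨hd', ψ, Ψ, h0, hu, hc, hI, hC, hk, hs⟩ := hV
  have hvv : vv ψ = dR (vU a b L) := by
    have := hc.1
    rw [hu, map_one, one_mul] at this
    exact this.symm
  have hid : dR (vU a b L) ^ 2 * fR a b = vU a b L ^ 3 + RatFunc.C (vA a b L) * vU a b L +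
      RatFunc.C (vB a b L) := by
    have h1 := uu_vv_eq h0
    rw [hvv, hu] at h1
    exact h1
  have hid' := velu_id_red ha hb h2 hd h L hL hn hid
  obtain ⟨hcard, hfin⟩ := card_map_red ha hb h2 hd h L hL hn
  have hd'' := velu_ns h2 h3 hd (L.map red) hfin (by rw [hcard]; exact hn) hid'
  obtain ⟨hvA, hvB, hvU⟩ := velu_coef_red ha hb h2 hd h L hL hn
  obtain ⟨red', h'⟩ := isRed_exists hvA hvB h2 hd''
  have hsurj' := IsRed.surj hr hvA hvB h2 hd'' h'
  have hsurj := IsRed.surj hr ha hb h2 hd h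
  obtain ⟨hpoles, hdeg⟩ := vU_poles h2 hd (L.map red) hfin
  obtain ⟨ψ', h0', hu', hv'⟩ := mk_exists h2 hd'' (vU a' b' (L.map red))
    (dR (vU a' b' (L.map red))) hid'
  have key := velu_red_ker hr ha hb h2 h3 hd h L hL hn h0 hu hc hI hC hk hd' hd'' h'
  have hker : red.ker ≤ (red'.comp Ψ).ker := by
    intro P hP
    rw [AddMonoidHom.mem_ker] at hP
    rw [AddMonoidHom.mem_ker, AddMonoidHom.comp_apply]
    apply (key P).1
    rw [hP]
    exact AddSubgroup.zero_mem _
  let Ψ' := red.liftOfSurjective hsurj ⟨red'.comp Ψ, hker⟩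
  have hΨ' : ∀ P, Ψ' (red P) = red' (Ψ P) := fun P =>
    AddMonoidHom.liftOfRightInverse_comp_apply red _ (Function.rightInverse_surjInv hsurj)
      ⟨red'.comp Ψ, hker⟩ P
  have hmem : ∀ P, red P ∈ L.map red ↔ red' (Ψ P) = 0 := by
    intro P
    refine ⟨(key P).1, fun h4 => ?_⟩
    by_contra hc
    exact ((key P).2 hc).1 h4
  refine ⟨hd'', ψ', Ψ', h0', hu', ?_, ?_, ?_, ?_, ?_⟩
  · refine ⟨?_, ?_⟩
    · rw [hu', hv', map_one, one_mul]
    · intro h4
      exfalso
      rw [hv'] at h4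
      rw [h4] at hid'
      apply VHom.cubic_ne (vU a' b' (L.map red)) (vA a' b' (L.map red)) (vB a' b' (L.map red)) hdeg
      rw [← hid']
      ring
  · right
    rw [hu', hdeg]
    omega
  · intro x y hxy hy
    refine ⟨fun h4 => absurd h4 h0', fun _ => ?_⟩
    obtain ⟨P, hP⟩ := hsurj (.some x y hxy)
    have hne : (Affine.Point.some x y hxy : Pt a' b') ≠ 0 := Affine.Point.some_ne_zero _
    rw [← hP, hΨ', hu', hv']
    constructor
    · intro h4
      obtain ⟨Q, hQ, hQ0, hQx⟩ := (hpoles x).mp h4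
      rw [← hmem, hP]
      rcases VHom.eq_or_neg hne hQ0 (hQx.symm) with h5 | h5
      · rw [h5]
        exact hQ
      · rw [h5]
        exact AddSubgroup.neg_mem _ hQ
    · intro h4
      have h5 : red P ∉ L.map red := by
        intro h5
        apply h4
        rw [hpoles]
        refine ⟨red P, h5, ?_, ?_⟩
        · rw [hP]
          exact hne
        · rw [hP]
          rfl
      obtain ⟨h6, h7, h8⟩ := (key P).2 h5
      rw [hP] at h7 h8
      change xc (red' (Ψ P)) = (vU a' b' (L.map red)).eval (RingHom.id κ) x at h7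
      change yc (red' (Ψ P)) = y * (dR (vU a' b' (L.map red))).eval (RingHom.id κ) x at h8
      revert h6 h7 h8
      rcases red' (Ψ P) with _ | ⟨X, Y, hXY⟩
      · intro h6
        exact absurd rfl h6
      · intro _ h7 h8
        change X = _ at h7
        change Y = _ at h8
        subst h7
        subst h8
        exact ⟨hXY, rfl⟩
  · ext Q
    obtain ⟨P, rfl⟩ := hsurj Q
    rw [AddMonoidHom.mem_ker, hΨ', hmem]
  · intro R
    obtain ⟨R', rfl⟩ := hsurj' R
    obtain ⟨P, rfl⟩ := hs R'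
    exact ⟨red P, hΨ' P⟩

/-- Chains of quotients reduce. -/
theorem chain_reduce (hr : Function.Surjective r) (ha : Rdc O r a a') (hb : Rdc O r b b')
    (h2 : (2 : κ) ≠ 0) (h3 : (3 : κ) ≠ 0)
    (hd : dsc a' b' ≠ 0) {red : Pt a b →+ Pt a' b'} (h : IsRed O r red)
    {L' L : AddSubgroup (Pt a b)} (hLL : L' ≤ L)
    (hL : Finite L) (hn : (Nat.card L : κ) ≠ 0) (hV : ChainOK a b L' L) :
    ChainOK a' b' (L'.map red) (L.map red) := by
  obtain ⟨hV1, hV2, M, hcardM, hVM, hMA, hMB⟩ := hV
  have hL' : Finite L' := Finite.Set.subset (L : Set (Pt a b)) hLL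
  have hn' : (Nat.card L' : κ) ≠ 0 := by
    intro h4
    apply hn
    rw [← hcardM, Nat.cast_mul, h4, mul_zero]
  have hnM : (Nat.card M : κ) ≠ 0 := by
    intro h4
    apply hn
    rw [← hcardM, Nat.cast_mul, h4, zero_mul]
  have hM : Finite M := by
    apply Nat.finite_of_card_ne_zero
    intro h4
    apply hnM
    rw [h4, Nat.cast_zero]
  have hW1 := velu_reduce hr ha hb h2 h3 hd h L' hL' hn' hV1
  have hW2 := velu_reduce hr ha hb h2 h3 hd h L hL hn hV2
  obtain ⟨hvA', hvB', -⟩ := velu_coef_red ha hb h2 hd h L' hL' hn'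
  obtain ⟨hvA, hvB, -⟩ := velu_coef_red ha hb h2 hd h L hL hn
  obtain ⟨red', h'⟩ := isRed_exists hvA' hvB' h2 hW1.1
  have hW3 := velu_reduce hr hvA' hvB' h2 h3 hW1.1 h' M hM hnM hVM
  obtain ⟨hwA, hwB, -⟩ := velu_coef_red hvA' hvB' h2 hW1.1 h' M hM hnM
  refine ⟨hW1, hW2, M.map red', ?_, hW3, ?_, ?_⟩
  · rw [(card_map_red ha hb h2 hd h L hL hn).1, (card_map_red ha hb h2 hd h L' hL' hn').1,
      (card_map_red hvA' hvB' h2 hW1.1 h' M hM hnM).1]
    exact hcardM
  · rw [hMA] at hwA
    exact hwA.unique hvA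
  · rw [hMB] at hwB
    exact hwB.unique hvB

end LT
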