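import Pool.Agent.Lib_MP_f1937f_nt.LB
import Pool.Agent.Lib_MP_f1937f_nt.VHom
import Pool.Agent.Lib_MP_f1937f_nt.Vel
import Pool.Agent.Lib_MP_f1937f_nt.Rec

/-!
# MP_f1937f_nt: the local theorem: integrality of `j_L` and a fixed subgroup (piece LC)
-/

namespace LT

open Polynomial WeierstrassCurve

theorem CycL_fin {k : Type} [Field k] [DecidableEq k] [IsAlgClosed k] (h2 : (2 : k) ≠ 0)
    {a b : k} (hd : dsc a b ≠ 0) {n : ℕ} (hn : (n : k) ≠ 0) :
    (CycL a b n).Finite ∧ ∀ L ∈ CycL a b n, Finite L ∧ Nat.card L = n := by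
  have hn0 : n ≠ 0 := by
    rintro rfl
    simp at hn
  constructor
  · have hfin : Finite {P : Pt a b // n • P = 0} := by
      apply Nat.finite_of_card_ne_zero
      rw [card_tors h2 hd hn]
      exact pow_ne_zero 2 hn0
    have hset : ({P : Pt a b | n • P = 0}).Finite := Set.finite_coe_iff.mp hfin
    refine (hset.image fun T => AddSubgroup.zmultiples T).subset ?_
    rintro L ⟨T, hT, rfl⟩
    refine ⟨T, ?_, rfl⟩
    show n • T = 0
    rw [← hT]
    exact addOrderOf_nsmul_eq_zero T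
  · rintro L ⟨T, hT, rfl⟩
    have h1 : Nat.card (AddSubgroup.zmultiples T) = n := by
      rw [Nat.card_zmultiples, hT]
    refine ⟨?_, h1⟩
    apply Nat.finite_of_card_ne_zero
    rw [h1]
    exact hn0

/-- `j_L` is integral and reduces to the `j`-invariant of the reduced quotient. -/
theorem jL_red {p : ℕ} [Fact p.Prime] (h5 : 5 ≤ p) (h3 : p % 3 = 2)
    {red : Pt (0 : PadicAlgCl p) (-31 / 4) →+ Pt (0 : Fb p) (-31 / 4)}
    (h : IsRed (OP p) (rP p) red)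
    (L : AddSubgroup (Pt (0 : PadicAlgCl p) (-31 / 4))) (hL : Finite L)
    (hn : ¬ p ∣ Nat.card L) :
    Rdc (OP p) (rP p) (jL 0 (-31 / 4) L) (jL 0 (-31 / 4) (L.map red)) := by
  obtain ⟨ι⟩ := embed_padic p
  have hV : VeluOK (0 : PadicAlgCl p) (-31 / 4) L := (chain_char0 ι le_rfl hL).2.1
  have hn' : (Nat.card L : Fb p) ≠ 0 := by
    rw [Ne, CharP.cast_eq_zero_iff (Fb p) p]
    exact hn
  have h0 : Rdc (OP p) (rP p) 0 0 := Rdc.zero _ _
  have hV' := velu_reduce (rP_surj p) h0 (rdc_quarter h5) (fb_ne h5).1 (fb_ne h5).2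
    (e0_dsc h5 h3) h L hL hn' hV
  obtain ⟨hA, hB, -⟩ := velu_coef_red h0 (rdc_quarter h5) (fb_ne h5).1 (e0_dsc h5 h3) h L hL hn'
  have hnat : ∀ m : ℕ, Rdc (OP p) (rP p) (m : PadicAlgCl p) (m : Fb p) := Rdc.natCast _ _
  have h6912 := hnat 6912
  have h4 := hnat 4
  have h27 := hnat 27
  push_cast at h6912 h4 h27
  rw [jL, jL, jinv, jinv]
  refine RedAux.Rdc_div (h6912.mul (hA.pow 3)) ?_ hV'.1
  rw [dsc, dsc]
  exact (h4.mul (hA.pow 3)).add (h27.mul (hB.pow 2))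

/-- `N_n` is integral at `p`. -/
theorem val_nonneg {p : ℕ} [Fact p.Prime] (h5 : 5 ≤ p) (h3 : p % 3 = 2) {n : ℕ} (hn : 0 < n)
    (hpn : ¬ p ∣ n) {j : ℚ} (hj : 0 ≤ padicValRat p j) {N : ℚ}
    (hN : NN (PadicAlgCl p) (j : PadicAlgCl p) n = (N : PadicAlgCl p)) :
    0 ≤ padicValRat p N := by
  classical
  rcases eq_or_ne N 0 with rfl | hN0
  · simp
  have h2Ω : (2 : PadicAlgCl p) ≠ 0 := two_ne_zero
  have hdΩ : dsc (0 : PadicAlgCl p) (-31 / 4) ≠ 0 := by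
    rw [dsc]
    norm_num
  have hnΩ : (n : PadicAlgCl p) ≠ 0 := by exact_mod_cast hn.ne'
  obtain ⟨hfin, hcard⟩ := CycL_fin h2Ω hdΩ hnΩ
  obtain ⟨red, hred, hsurj⟩ := redE_exists h5 h3
  set f : AddSubgroup (Pt (0 : PadicAlgCl p) (-31 / 4)) → PadicAlgCl p :=
    fun L => (j : PadicAlgCl p) - jL 0 (-31 / 4) L with hf
  set S := hfin.toFinset with hS
  have hSmem : ∀ L, L ∈ S ↔ L ∈ CycL (0 : PadicAlgCl p) (-31 / 4) n := fun L => by
    rw [hS, Set.Finite.mem_toFinset]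
  have hle : ∀ L ∈ S, ‖f L‖ ≤ 1 := by
    intro L hL
    rw [hSmem] at hL
    obtain ⟨hLf, hLc⟩ := hcard L hL
    have h1 := jL_red h5 h3 hred L hLf (by rw [hLc]; exact hpn)
    have h2 := (rdc_rat hj).sub h1
    exact mem_OP.mp h2.mem
  have hprod : NN (PadicAlgCl p) (j : PadicAlgCl p) n = ∏ L ∈ S, f L := by
    rw [NN, ← finprod_mem_coe_finset f S]
    congr 1
    funext L
    have : L ∈ (S : Set _) ↔ L ∈ CycL (0 : PadicAlgCl p) (-31 / 4) n := by
      rw [Finset.mem_coe, hSmem]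
    simp only [this]
    rfl
  have hnorm : ‖(N : PadicAlgCl p)‖ ≤ 1 := by
    rw [← hN, hprod, norm_prod]
    exact Finset.prod_le_one (fun L _ => norm_nonneg _) hle
  have hnorm2 : ‖(N : ℚ_[p])‖ ≤ 1 := by
    have h1 : algebraMap ℚ_[p] (PadicAlgCl p) (N : ℚ_[p]) = (N : PadicAlgCl p) :=
      map_ratCast (algebraMap ℚ_[p] (PadicAlgCl p)) N
    have h2 := PadicAlgCl.norm_extends p (N : ℚ_[p])
    exact ((h2.symm.trans (congrArg norm h1)).le).trans hnorm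
  rw [Padic.eq_padicNorm, padicNorm.eq_zpow_of_nonzero hN0] at hnorm2
  have h4 : ((p : ℚ) ^ (-padicValRat p N)) ≤ 1 := by exact_mod_cast hnorm2
  have hp1 : (1 : ℚ) < p := by exact_mod_cast (Fact.out : p.Prime).one_lt
  by_contra hneg
  push Not at hneg
  have h5 : (1 : ℚ) < (p : ℚ) ^ (-padicValRat p N) := one_lt_zpow₀ hp1 (by linarith)
  linarith

/-- A value of the norm form of the unramified quadratic extension has even valuation. -/
theorem LC.even_val {p : ℕ} [Fact p.Prime] (h3 : p % 3 = 2) {N : ℚ} (hN : N ≠ 0) {a b : ℚ_[p]}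
    (h : ‖(N : ℚ_[p])‖ = ‖a ^ 2 + 3 * b ^ 2‖) : Even (padicValRat p N) := by
  have hN' : (N : ℚ_[p]) ≠ 0 := by exact_mod_cast hN
  have hpos : 0 < ‖a ^ 2 + 3 * b ^ 2‖ := by
    rw [← h]
    exact norm_pos_iff.mpr hN'
  have hcont : Continuous fun q : ℚ_[p] × ℚ_[p] => q.1 ^ 2 + 3 * q.2 ^ 2 := by fun_prop
  have hev := Metric.continuous_iff.mp hcont (a, b) _ hpos
  obtain ⟨δ, hδ, hball⟩ := hev
  obtain ⟨a', ha'⟩ := Padic.rat_dense p a hδ
  obtain ⟨b', hb'⟩ := Padic.rat_dense p b hδ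
  have h1 := hball ((a' : ℚ_[p]), (b' : ℚ_[p])) (by
    rw [Prod.dist_eq, max_lt_iff]
    constructor
    · rw [dist_eq_norm, norm_sub_rev]; exact ha'
    · rw [dist_eq_norm, norm_sub_rev]; exact hb')
  rw [dist_eq_norm] at h1
  have h2 : ‖(a' : ℚ_[p]) ^ 2 + 3 * (b' : ℚ_[p]) ^ 2‖ = ‖a ^ 2 + 3 * b ^ 2‖ := by
    have := Padic.norm_eq_of_norm_add_lt_right (p := p)
      (z1 := (a' : ℚ_[p]) ^ 2 + 3 * (b' : ℚ_[p]) ^ 2) (z2 := -(a ^ 2 + 3 * b ^ 2)) (by
        rw [← sub_eq_add_neg, norm_neg]; exact h1)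
    rwa [norm_neg] at this
  set N' : ℚ := a' ^ 2 + 3 * b' ^ 2 with hN'def
  have hN'cast : (N' : ℚ_[p]) = (a' : ℚ_[p]) ^ 2 + 3 * (b' : ℚ_[p]) ^ 2 := by
    rw [hN'def]; push_cast; ring
  have hnorm : ‖(N : ℚ_[p])‖ = ‖(N' : ℚ_[p])‖ := by rw [h, hN'cast, h2]
  have hN'0 : N' ≠ 0 := by
    intro h0
    rw [h0, Rat.cast_zero, norm_zero, norm_eq_zero] at hnorm
    exact hN' hnorm
  have hval : padicValRat p N = padicValRat p N' := by
    rw [Padic.eq_padicNorm, Padic.eq_padicNorm, padicNorm.eq_zpow_of_nonzero hN,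
      padicNorm.eq_zpow_of_nonzero hN'0] at hnorm
    have h3 : ((p : ℚ) ^ (-padicValRat p N)) = (p : ℚ) ^ (-padicValRat p N') := by
      exact_mod_cast hnorm
    have hp1 : (1 : ℚ) < p := by exact_mod_cast (Fact.out : p.Prime).one_lt
    have := zpow_right_injective₀ (by linarith) hp1.ne' h3
    linarith
  rw [hval]
  exact norm_even h3 hN'0 hN'cast

theorem LC.gal_norm_lt {p : ℕ} [Fact p.Prime] (σ : GP p) {x : PadicAlgCl p} (hx : ‖x‖ < 1) :
    ‖σ x‖ < 1 := by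
  by_contra hcon
  push Not at hcon
  have h0 : σ x ≠ 0 := by
    intro h
    rw [h, norm_zero] at hcon
    linarith
  have h1 : (σ x)⁻¹ ∈ OP p := by
    rw [mem_OP, norm_inv]
    exact inv_le_one_of_one_le₀ hcon
  have h2 := gal_mem p σ.symm h1
  rw [map_inv₀] at h2
  have h3 : σ.symm (σ x) = x := σ.symm_apply_apply x
  rw [h3, mem_OP, norm_inv] at h2
  have h4 : x ≠ 0 := by
    rintro rfl
    exact h0 (map_zero σ)
  have h5 : 1 < ‖x‖⁻¹ := (one_lt_inv₀ (norm_pos_iff.mpr h4)).mpr hx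
  linarith

/-- If the valuation of `N_n` is odd, some `L` with `|j - j_L| < 1` is fixed by an automorphism which
moves `δ`. -/
theorem exists_fixed {p : ℕ} [Fact p.Prime] (h5 : 5 ≤ p) (h3 : p % 3 = 2) {n : ℕ} (hn : 0 < n)
    (hpn : ¬ p ∣ n) {j : ℚ} (hj : 0 ≤ padicValRat p j) {N : ℚ}
    (hN : NN (PadicAlgCl p) (j : PadicAlgCl p) n = (N : PadicAlgCl p))
    (hodd : Odd (padicValRat p N)) :
    ∃ L ∈ CycL (0 : PadicAlgCl p) (-31 / 4) n, ∃ σ : GP p, σ (dl p) = -dl p ∧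
      L.map (mapE (σ : PadicAlgCl p →+* PadicAlgCl p)) = L ∧
      ‖(j : PadicAlgCl p) - jL 0 (-31 / 4) L‖ < 1 := by
  classical
  by_contra hcon
  push Not at hcon
  have hN0 : N ≠ 0 := by
    rintro rfl
    simp at hodd
  have h2Ω : (2 : PadicAlgCl p) ≠ 0 := two_ne_zero
  have hdΩ : dsc (0 : PadicAlgCl p) (-31 / 4) ≠ 0 := by
    rw [dsc]
    norm_num
  have hnΩ : (n : PadicAlgCl p) ≠ 0 := by exact_mod_cast hn.ne'
  obtain ⟨hfin, hcard⟩ := CycL_fin h2Ω hdΩ hnΩ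
  obtain ⟨red, hred, hsurj⟩ := redE_exists h5 h3
  set f : AddSubgroup (Pt (0 : PadicAlgCl p) (-31 / 4)) → PadicAlgCl p :=
    fun L => (j : PadicAlgCl p) - jL 0 (-31 / 4) L with hf
  set S := hfin.toFinset with hS
  have hSmem : ∀ L, L ∈ S ↔ L ∈ CycL (0 : PadicAlgCl p) (-31 / 4) n := fun L => by
    rw [hS, Set.Finite.mem_toFinset]
  -- all factors are integral
  have hle : ∀ L ∈ S, ‖f L‖ ≤ 1 := by
    intro L hL
    rw [hSmem] at hL
    obtain ⟨hLf, hLc⟩ := hcard L hL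
    have h1 := jL_red h5 h3 hred L hLf (by rw [hLc]; exact hpn)
    have h2 := (rdc_rat hj).sub h1
    exact mem_OP.mp h2.mem
  -- the product over all `L`
  have hprod : NN (PadicAlgCl p) (j : PadicAlgCl p) n = ∏ L ∈ S, f L := by
    rw [NN, ← finprod_mem_coe_finset f S]
    congr 1
    funext L
    have : L ∈ (S : Set _) ↔ L ∈ CycL (0 : PadicAlgCl p) (-31 / 4) n := by
      rw [Finset.mem_coe, hSmem]
    simp only [this]
    rfl
  -- the part with small factors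
  let X0 : Set (AddSubgroup (Pt (0 : PadicAlgCl p) (-31 / 4))) :=
    (S.filter fun L => ‖f L‖ < 1 : Finset _)
  have hX0 : ∀ L, L ∈ X0 ↔ L ∈ CycL (0 : PadicAlgCl p) (-31 / 4) n ∧ ‖f L‖ < 1 := fun L => by
    show L ∈ (S.filter fun L => ‖f L‖ < 1 : Finset _) ↔ _
    rw [Finset.mem_filter, hSmem]
  obtain ⟨a, b, hab⟩ := norm_lemma p (Or.inl h3) X0 (Finset.finite_toSet _)
    (fun L hL => (hcard L ((hX0 L).1 hL).1).1) (by
      intro σ L hL
      rw [hX0] at hL ⊢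
      refine ⟨CycL_map _ hL.1, ?_⟩
      have h1 := (jL_map (σ : PadicAlgCl p →+* PadicAlgCl p) (hcard L hL.1).1).2.2
      have h2 : f (L.map (mapE (σ : PadicAlgCl p →+* PadicAlgCl p))) = σ (f L) := by
        rw [hf]
        simp only
        rw [h1, map_sub, map_ratCast]
        rfl
      rw [h2]
      exact LC.gal_norm_lt σ hL.2) (by
      intro σ hσ L hL heq
      rw [hX0] at hL
      exact absurd hL.2 (not_lt.mpr (hcon L hL.1 σ hσ heq))) j
  have hab' : ∏ L ∈ S.filter (fun L => ‖f L‖ < 1), f L =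
      algebraMap ℚ_[p] (PadicAlgCl p) (a ^ 2 + 3 * b ^ 2) := by
    rw [← hab, ← finprod_mem_coe_finset f]
  have hone : ‖∏ L ∈ S.filter (fun L => ¬ ‖f L‖ < 1), f L‖ = 1 := by
    rw [norm_prod]
    apply Finset.prod_eq_one
    intro L hL
    rw [Finset.mem_filter] at hL
    exact le_antisymm (hle L hL.1) (not_lt.mp hL.2)
  have hnorm : ‖(N : PadicAlgCl p)‖ = ‖algebraMap ℚ_[p] (PadicAlgCl p) (a ^ 2 + 3 * b ^ 2)‖ := by
    rw [← hN, hprod, ← Finset.prod_filter_mul_prod_filter_not S (fun L => ‖f L‖ < 1), norm_mul,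
      hone, mul_one, hab']
  have hnorm2 : ‖(N : ℚ_[p])‖ = ‖a ^ 2 + 3 * b ^ 2‖ := by
    have h1 : algebraMap ℚ_[p] (PadicAlgCl p) (N : ℚ_[p]) = (N : PadicAlgCl p) :=
      map_ratCast (algebraMap ℚ_[p] (PadicAlgCl p)) N
    have h2 := PadicAlgCl.norm_extends p (N : ℚ_[p])
    have h3 := PadicAlgCl.norm_extends p (a ^ 2 + 3 * b ^ 2)
    exact (h2.symm.trans (congrArg norm h1)).trans (hnorm.trans h3)
  have heven := LC.even_val h3 hN0 hnorm2
  exact (Int.not_even_iff_odd.mpr hodd) heven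

end LT
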