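import Pool.Agent.Lib_MP_f1937f_nt.NkDefs
import Pool.Agent.Lib_MP_f1937f_nt.LB

/-!
# MP_f1937f_nt: good reduction for `p = 2 mod 3`, `5 ≤ p` (piece NKA)

Proof. `redE_exists`, `F0 p`, `F0_sq`; injectivity on the torsion prime to `p`: `IsRed.inj`; the Galois action: `gal_res`, `red_gal` and
`frob_odd` applied to the coordinates of `red P` (as in `frob_stable` in `LB.lean`).
-/

namespace LT

open Polynomial WeierstrassCurve

open LBAux in
theorem good_five {p : ℕ} [Fact p.Prime] (h5 : 5 ≤ p) (h3 : p % 3 = 2) : GoodRed p := by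
  classical
  obtain ⟨red, hred, -⟩ := redE_exists (p := p) h5 h3
  refine ⟨Pt (0 : Fb p) (-31 / 4), inferInstance, red, F0 p, fun P => F0_sq h5 h3 P, ?_, ?_⟩
  · intro q hq P hP h0
    exact IsRed.inj (Rdc.zero (OP p) (rP p)) (rdc_quarter h5) (fb_ne h5).1 (e0_dsc h5 h3) hred
      (LAaux.nat_ne hq) hP h0
  · intro σ hσ P
    obtain ⟨s, hs⟩ := gal_res p σ
    obtain ⟨n, hodd, hpow⟩ := frob_odd p h3 σ hσ s hs {xc (red P), yc (red P)}
    refine ⟨n, hodd, ?_⟩
    rw [red_gal hred σ s hs P]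
    have hx := hpow (xc (red P)) (by simp)
    have hy := hpow (yc (red P)) (by simp)
    generalize hQ : red P = Q at hx hy ⊢
    rcases Q with _ | ⟨x, y, hxy⟩
    · have h1 : (Affine.Point.zero : Pt (0 : Fb p) (-31 / 4)) = 0 := rfl
      have hit : ∀ m : ℕ, (F0 p)^[m] 0 = 0 := by
        intro m
        induction m with
        | zero => rfl
        | succ m ih => rw [Function.iterate_succ_apply, map_zero, ih]
      rw [h1, map_zero, hit]
    · obtain ⟨h7, h8⟩ := FFrob.frob_iter p (frob_zero p) (frob_quarter p) n x y hxy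
      have h8' : (F0 p)^[n] (.some x y hxy) = .some (x ^ p ^ n) (y ^ p ^ n) h7 := h8
      obtain ⟨h9, h10⟩ := mapPt_some (s : Fb p →+* Fb p) (map_zero (s : Fb p →+* Fb p))
        (map_quarter (s : Fb p →+* Fb p)) x y hxy
      have h10' : mapE (s : Fb p →+* Fb p) (.some x y hxy) = .some (s x) (s y) h9 := h10
      rw [h8', h10']
      exact some_congr _ _ hx hy

end LT
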