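import Pool.Agent.Lib_MP_f1937f_nt.NkDefs
import Pool.Agent.Lib_MP_f1937f_nt.FHasse
import Pool.Agent.Lib_MP_f1937f_nt.Vc

/-!
# MP_f1937f_nt: the curve `y² = x³ + x` in characteristic `3` (piece NKC)

Proof. `three_frob`: `frob_sq_of_card` (`FHasse.lean`) with `p = 3`, `a = 1`, `b = 0`: the points fixed by Frobenius are `0`, `(0, 0)`,
`(2, 1)`, `(2, 2)` (coordinates `c` with `c³ = c`, i.e. `c = 0, 1, 2`; `x = 1` gives `y² = 2`, no solution), so there are
`4 = 3 + 1`. `iso_exists`: for `ε⁴ = 1` the map `(x, y) ↦ (ε² x, ε³ y)` is an automorphism: `sc_exists` of `Vc.lean` with `v = ε⁻¹`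
or `v = ε ^ 3`... (`v⁴ a = a`, `v⁶ b = 0`); here `v = ε`: `(x, y) ↦ (ε² x, ε³ y)` goes from `y² = x³ + a x` to
`y² = x³ + ε⁴ a x`.
-/

namespace LT

open Polynomial WeierstrassCurve

namespace NkCAux

variable {k : Type} [Field k] [CharP k 3]

theorem three_zero : (3 : k) = 0 := by
  have := CharP.cast_eq_zero k 3
  exact_mod_cast this

theorem two_eq : (2 : k) = -1 := by
  have h := three_zero (k := k)
  linear_combination h

theorem two_ne : (2 : k) ≠ 0 := by
  rw [two_eq]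
  exact neg_ne_zero.mpr one_ne_zero

theorem dsc_ne : dsc (1 : k) 0 ≠ 0 := by
  unfold dsc
  have e : (4 * (1 : k) ^ 3 + 27 * 0 ^ 2) = 2 * 2 := by ring
  rw [e]
  exact mul_ne_zero two_ne two_ne

theorem cube_cases {c : k} (h : c ^ 3 = c) : c = 0 ∨ c = 1 ∨ c = -1 := by
  have h1 : c * ((c - 1) * (c + 1)) = 0 := by linear_combination h
  rcases mul_eq_zero.mp h1 with h2 | h2
  · exact Or.inl h2
  · rcases mul_eq_zero.mp h2 with h3 | h3
    · exact Or.inr (Or.inl (sub_eq_zero.mp h3))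
    · exact Or.inr (Or.inr (eq_neg_of_add_eq_zero_left h3))

/-- the two-element list of fixed points -/
theorem fixed_iff {x y : k} : (x ^ 3 = x ∧ y ^ 3 = y ∧ y ^ 2 = x ^ 3 + 1 * x + 0) ↔
    (x = 0 ∧ y = 0) ∨ (x = -1 ∧ y = 1) ∨ (x = -1 ∧ y = -1) := by
  have h3 := three_zero (k := k)
  have h10 : (1 : k) ≠ 0 := one_ne_zero
  constructor
  · rintro ⟨hx, hy, h⟩
    rcases cube_cases hx with rfl | rfl | rfl
    · left
      refine ⟨rfl, ?_⟩
      have : y ^ 2 = 0 := by rw [h]; ring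
      exact pow_eq_zero_iff (two_ne_zero) |>.mp this
    · exfalso
      have h4 : y ^ 2 = -1 := by rw [h]; linear_combination h3
      rcases cube_cases hy with rfl | rfl | rfl
      · apply h10
        linear_combination h4
      · apply h10
        linear_combination -h4 + h3
      · apply h10
        linear_combination -h4 + h3
    · rcases cube_cases hy with rfl | rfl | rfl
      · exfalso
        apply h10
        linear_combination h3 - h
      · right; left; exact ⟨rfl, rfl⟩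
      · right; right; exact ⟨rfl, rfl⟩
  · rintro (⟨rfl, rfl⟩ | ⟨rfl, rfl⟩ | ⟨rfl, rfl⟩)
    · refine ⟨by ring, by ring, by ring⟩
    · refine ⟨by ring, by ring, by linear_combination h3⟩
    · refine ⟨by ring, by ring, by linear_combination h3⟩

end NkCAux

open NkCAux

theorem three_frob {k : Type} [Field k] [DecidableEq k] [IsAlgClosed k] [CharP k 3]
    (P : Pt (1 : k) 0) :
    frobPt 3 (one_pow 3) (zero_pow (by norm_num)) (frobPt 3 (one_pow 3) (zero_pow (by norm_num)) P) =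
      -(3 • P) := by
  have hd := dsc_ne (k := k)
  have h2 := two_ne (k := k)
  refine frob_sq_of_card 3 (by norm_num) hd (one_pow 3) (zero_pow (by norm_num)) ?_ P
  set F : Pt (1 : k) 0 →+ Pt (1 : k) 0 := frobPt 3 (one_pow 3) (zero_pow (by norm_num)) with hF
  have hns : ∀ x y : k, x ^ 3 = x ∧ y ^ 3 = y ∧ y ^ 2 = x ^ 3 + 1 * x + 0 →
      (SW (1 : k) 0).toAffine.Nonsingular x y := by
    intro x y h
    rw [sw_nons h2 hd]
    exact h.2.2
  have hfix : ∀ (x y : k) (h : x ^ 3 = x ∧ y ^ 3 = y ∧ y ^ 2 = x ^ 3 + 1 * x + 0),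
      F (.some x y (hns x y h)) = .some x y (hns x y h) := by
    intro x y h
    obtain ⟨h', e⟩ := frobPt_some 3 (one_pow 3) (zero_pow (by norm_num)) x y (hns x y h)
    have e2 : F (.some x y (hns x y h)) = .some (x ^ 3) (y ^ 3) h' := e
    rw [e2, Affine.Point.some.injEq]
    exact ⟨h.1, h.2.1⟩
  have c0 : ((0 : k) ^ 3 = 0 ∧ (0 : k) ^ 3 = 0 ∧ (0 : k) ^ 2 = 0 ^ 3 + 1 * 0 + 0) :=
    fixed_iff.mpr (Or.inl ⟨rfl, rfl⟩)
  have c1 : ((-1 : k) ^ 3 = -1 ∧ (1 : k) ^ 3 = 1 ∧ (1 : k) ^ 2 = (-1) ^ 3 + 1 * (-1) + 0) :=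
    fixed_iff.mpr (Or.inr (Or.inl ⟨rfl, rfl⟩))
  have c2 : ((-1 : k) ^ 3 = -1 ∧ (-1 : k) ^ 3 = -1 ∧ (-1 : k) ^ 2 = (-1) ^ 3 + 1 * (-1) + 0) :=
    fixed_iff.mpr (Or.inr (Or.inr ⟨rfl, rfl⟩))
  have hne : (0 : k) ≠ -1 := by
    intro h
    exact one_ne_zero (α := k) (by linear_combination h)
  have hne2 : (1 : k) ≠ -1 := by
    intro h
    apply h2
    linear_combination h
  let g : Fin 4 → {P : Pt (1 : k) 0 // F P = P} := ![⟨0, map_zero _⟩,
    ⟨.some 0 0 (hns 0 0 c0), hfix _ _ c0⟩, ⟨.some (-1) 1 (hns (-1) 1 c1), hfix _ _ c1⟩,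
    ⟨.some (-1) (-1) (hns (-1) (-1) c2), hfix _ _ c2⟩]
  have hg : Function.Bijective g := by
    constructor
    · intro i j hij
      have hij' := congrArg Subtype.val hij
      fin_cases i <;> fin_cases j
      all_goals first
        | rfl
        | (exfalso
           simp only [g] at hij'
           first
            | exact absurd hij' (Affine.Point.some_ne_zero _)
            | exact absurd hij'.symm (Affine.Point.some_ne_zero _)
            | (have h5 := (Affine.Point.some.injEq ..).mp hij'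
               first
                | exact hne h5.1
                | exact hne h5.1.symm
                | exact hne2 h5.2
                | exact hne2 h5.2.symm))
    · rintro ⟨P, hP⟩
      rcases P with _ | ⟨X, Y, h⟩
      · exact ⟨0, rfl⟩
      · obtain ⟨h', e⟩ := frobPt_some 3 (one_pow 3) (zero_pow (by norm_num)) X Y h
        have e2 : (.some X Y h : Pt (1 : k) 0) = .some (X ^ 3) (Y ^ 3) h' := hP.symm.trans e
        rw [Affine.Point.some.injEq] at e2
        have h6 := (sw_nons h2 hd).mp h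
        rcases fixed_iff.mp ⟨e2.1.symm, e2.2.symm, h6⟩ with ⟨rfl, rfl⟩ | ⟨rfl, rfl⟩ | ⟨rfl, rfl⟩
        · exact ⟨1, rfl⟩
        · exact ⟨2, rfl⟩
        · exact ⟨3, rfl⟩
  rw [← Nat.card_congr (Equiv.ofBijective g hg), Nat.card_eq_fintype_card, Fintype.card_fin]

namespace NkCAux

/-- Points with equal coordinates. -/
theorem pt_congr {k : Type} [Field k] {a b : k} {x y x' y' : k}
    (h : (SW a b).toAffine.Nonsingular x y) (h' : (SW a b).toAffine.Nonsingular x' y')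
    (hx : x = x') (hy : y = y') : (Affine.Point.some x y h : Pt a b) = .some x' y' h' := by
  subst hx hy
  rfl

theorem iso_aux {k : Type} [Field k] [DecidableEq k] {ε a' b' : k} (ha : a' = 1) (hb : b' = 0)
    (h : ∃ e : Pt (1 : k) 0 ≃+ Pt a' b',
      ∀ (x y : k) (hxy : (SW (1 : k) 0).toAffine.Nonsingular x y), ∃ h', e (.some x y hxy) =
        .some (ε ^ 2 * x) (ε ^ 3 * y) h') :
    ∃ e : Pt (1 : k) 0 →+ Pt (1 : k) 0, ∀ (x y : k) (h : (SW (1 : k) 0).toAffine.Nonsingular x y),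
      ∃ h', e (.some x y h) = .some (ε ^ 2 * x) (ε ^ 3 * y) h' := by
  subst ha hb
  obtain ⟨e, he⟩ := h
  exact ⟨e.toAddMonoidHom, he⟩

end NkCAux

theorem iso_exists {k : Type} [Field k] [DecidableEq k] {ε : k} (hε : ε ^ 4 = 1) :
    ∃ e : Pt (1 : k) 0 →+ Pt (1 : k) 0, ∀ (x y : k) (h : (SW (1 : k) 0).toAffine.Nonsingular x y),
      ∃ h', e (.some x y h) = .some (ε ^ 2 * x) (ε ^ 3 * y) h' := by
  have hv : ε ≠ 0 := by
    rintro rfl
    norm_num at hε
  exact iso_aux (by rw [hε, mul_one]) (by rw [mul_zero]) (sc_exists hv 1 0)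

namespace NkCAux

theorem iter_two {k : Type} [Field k] [DecidableEq k] [IsAlgClosed k] [CharP k 3]
    (n : ℕ) (P : Pt (1 : k) 0) :
    (frobPt 3 (one_pow 3) (zero_pow (by norm_num)) : Pt (1 : k) 0 →+ Pt (1 : k) 0)^[2 * n] P =
      ((-3 : ℤ) ^ n) • P := by
  induction n generalizing P with
  | zero => simp
  | succ n ih =>
    have e : 2 * (n + 1) = 2 * n + 1 + 1 := by ring
    rw [e, Function.iterate_succ_apply, Function.iterate_succ_apply, three_frob, ih,
      ← natCast_zsmul, ← neg_zsmul, smul_smul, pow_succ]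
    norm_num

end NkCAux

/-- The square of `[ε] Frob^n`. -/
theorem three_sq {k : Type} [Field k] [DecidableEq k] [IsAlgClosed k] [CharP k 3] {ε : k} (hε : ε ^ 4 = 1)
    {n : ℕ} (hn : (-1) ^ n * ε ^ 2 = -1) (P : Pt (1 : k) 0) :
    ∃ Φ : Pt (1 : k) 0 →+ Pt (1 : k) 0,
      (∀ (x y : k) (h : (SW (1 : k) 0).toAffine.Nonsingular x y),
        ∃ h', Φ (.some x y h) = .some (ε ^ 2 * x ^ 3 ^ n) (ε ^ 3 * y ^ 3 ^ n) h') ∧
      ((Odd n ∧ Φ (Φ P) = ((-3 : ℤ) ^ n) • P) ∨ (Even n ∧ Φ (Φ P) = (-(3 : ℤ) ^ n) • P)) := by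
  obtain ⟨e, he⟩ := iso_exists hε
  have h1 : (iterateFrobenius k 3 n) (1 : k) = 1 := map_one _
  have h0 : (iterateFrobenius k 3 n) (0 : k) = 0 := map_zero _
  let Fn : Pt (1 : k) 0 →+ Pt (1 : k) 0 := mapPt (iterateFrobenius k 3 n) h1 h0
  have hFn : ∀ (x y : k) (h : (SW (1 : k) 0).toAffine.Nonsingular x y),
      ∃ h', Fn (.some x y h) = .some (x ^ 3 ^ n) (y ^ 3 ^ n) h' := by
    intro x y h
    obtain ⟨h', e'⟩ := mapPt_some (iterateFrobenius k 3 n) h1 h0 x y h
    exact ⟨h', e'⟩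
  have hΦ : ∀ (x y : k) (h : (SW (1 : k) 0).toAffine.Nonsingular x y),
      ∃ h', (e.comp Fn) (.some x y h) = .some (ε ^ 2 * x ^ 3 ^ n) (ε ^ 3 * y ^ 3 ^ n) h' := by
    intro x y h
    obtain ⟨h', e'⟩ := hFn x y h
    obtain ⟨h'', e''⟩ := he _ _ h'
    refine ⟨h'', ?_⟩
    rw [AddMonoidHom.comp_apply, e', e'']
  refine ⟨e.comp Fn, hΦ, ?_⟩
  -- the square
  have hsq : ∀ (x y : k) (h : (SW (1 : k) 0).toAffine.Nonsingular x y),
      ∃ h', (e.comp Fn) ((e.comp Fn) (.some x y h)) =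
        .some (ε ^ 2 * (ε ^ 2 * x ^ 3 ^ n) ^ 3 ^ n) (ε ^ 3 * (ε ^ 3 * y ^ 3 ^ n) ^ 3 ^ n) h' := by
    intro x y h
    obtain ⟨h', e'⟩ := hΦ x y h
    obtain ⟨h'', e''⟩ := hΦ _ _ h'
    exact ⟨h'', by rw [e', e'']⟩
  have hpow : ∀ z : k, (z ^ 3 ^ n) ^ 3 ^ n = z ^ 3 ^ (2 * n) := by
    intro z
    rw [← pow_mul, ← pow_add, two_mul]
  have h3odd : Odd (3 ^ n) := Odd.pow (by decide)
  rcases Nat.even_or_odd n with hev | hodd
  · right
    refine ⟨hev, ?_⟩
    rw [hev.neg_one_pow, one_mul] at hn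
    have hneg : (-(3 : ℤ) ^ n) • P = -(((-3 : ℤ) ^ n) • P) := by
      rw [hev.neg_pow, neg_zsmul]
    rw [hneg, ← iter_two n P]
    rcases P with _ | ⟨x, y, h⟩
    · have h2 : (Affine.Point.zero : Pt (1 : k) 0) = 0 := rfl
      rw [h2, iter_two, smul_zero, map_zero, map_zero, neg_zero]
    · obtain ⟨h', e'⟩ := hsq x y h
      obtain ⟨h'', e''⟩ := FFrob.frob_iter 3 (one_pow 3) (zero_pow (by norm_num)) (2 * n) x y h
      rw [e', e'']
      have e3 : -(Affine.Point.some (x ^ 3 ^ (2 * n)) (y ^ 3 ^ (2 * n)) h'' : Pt (1 : k) 0) =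
          .some (x ^ 3 ^ (2 * n)) (-(y ^ 3 ^ (2 * n)))
            (by
              have := (Affine.nonsingular_neg ..).mpr h''
              simpa [Affine.negY, SW] using this) := by
        rw [Affine.Point.neg_some, Affine.Point.some.injEq]
        refine ⟨rfl, ?_⟩
        simp [Affine.negY, SW]
      rw [e3]
      apply pt_congr
      · rw [mul_pow, hpow, hn, h3odd.neg_one_pow]
        ring
      · rw [mul_pow, hpow]
        -- `ε ^ 3 * (ε ^ 3) ^ 3 ^ n = -1`
        obtain ⟨m, rfl⟩ := hev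
        have h9 : (3 : ℕ) ^ (m + m) % 8 = 1 := by
          rw [← two_mul, pow_mul, Nat.pow_mod]
          norm_num
        obtain ⟨q, hq⟩ : ∃ q, 3 ^ (m + m) = 8 * q + 1 := ⟨3 ^ (m + m) / 8, by omega⟩
        have e4 : (ε ^ 3) ^ 3 ^ (m + m) = ε ^ 3 := by
          rw [hq, pow_add, pow_mul, ← pow_mul ε 3 8]
          have : ε ^ (3 * 8) = (ε ^ 4) ^ 6 := by ring
          rw [this, hε, one_pow, one_pow, one_mul, pow_one]
        rw [e4]
        have e5 : ε ^ 3 * (ε ^ 3 * y ^ 3 ^ (2 * (m + m))) =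
            ε ^ 4 * ε ^ 2 * y ^ 3 ^ (2 * (m + m)) := by ring
        rw [e5, hε, hn]
        ring
  · left
    refine ⟨hodd, ?_⟩
    have he2 : ε ^ 2 = 1 := by
      rw [hodd.neg_one_pow] at hn
      linear_combination -hn
    rw [← iter_two n P]
    rcases P with _ | ⟨x, y, h⟩
    · have h2 : (Affine.Point.zero : Pt (1 : k) 0) = 0 := rfl
      rw [h2, iter_two, smul_zero, map_zero, map_zero]
    · obtain ⟨h', e'⟩ := hsq x y h
      obtain ⟨h'', e''⟩ := FFrob.frob_iter 3 (one_pow 3) (zero_pow (by norm_num)) (2 * n) x y h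
      rw [e', e'']
      apply pt_congr
      · rw [mul_pow, hpow, he2, one_pow, one_mul, one_mul]
      · rw [mul_pow, hpow]
        have e3 : ε ^ 3 = ε := by
          have : ε ^ 3 = ε ^ 2 * ε := by ring
          rw [this, he2, one_mul]
        obtain ⟨q, hq⟩ := h3odd
        have e4 : ε ^ 3 ^ n = ε := by
          rw [hq, pow_add, pow_mul, he2, one_pow, one_mul, pow_one]
        rw [e3, e4]
        have e5 : ε * (ε * y ^ 3 ^ (2 * n)) = ε ^ 2 * y ^ 3 ^ (2 * n) := by ring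
        rw [e5, he2, one_mul]

end LT
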