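import Pool.Agent.Lib_MP_f1937f_nt.Place

/-!
# MP_f1937f_nt: the abstract argument for the norm property (layer GAL)

`GoodRed p` : a reduction of `E₀` at `p = 2 mod 3`, `GoodThree`: the same at `3` (potentially good reduction).
-/

namespace LT

open Polynomial WeierstrassCurve

/-- Reduction of `E₀` modulo a prime `p = 2 mod 3`, with the Frobenius endomorphism `Fr` of square `-p`. -/
def GoodRed (p : ℕ) [Fact p.Prime] : Prop :=
  ∃ (G : Type) (_ : AddCommGroup G) (red : Pt (0 : PadicAlgCl p) (-31 / 4) →+ G) (Fr : G →+ G),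
    (∀ P, Fr (Fr P) = -(p • P)) ∧
      (∀ q : ℕ, ¬ p ∣ q → ∀ P, q • P = 0 → red P = 0 → P = 0) ∧
      ∀ σ : GP p, σ (dl p) = -dl p → ∀ P, ∃ n : ℕ, Odd n ∧
        red (mapE (σ : PadicAlgCl p →+* PadicAlgCl p) P) = Fr^[n] (red P)

/-- Reduction of `E₀` modulo `3` (after a ramified extension). -/
def GoodThree : Prop :=
  ∃ (G : Type) (_ : AddCommGroup G) (red : Pt (0 : PadicAlgCl 3) (-31 / 4) →+ G),
    (∀ q : ℕ, ¬ 3 ∣ q → ∀ P, q • P = 0 → red P = 0 → P = 0) ∧
      ∀ σ : GP 3, σ (dl 3) = -dl 3 → ∀ P, ∃ (Φ : G →+ G) (n : ℕ),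
        red (mapE (σ : PadicAlgCl 3 →+* PadicAlgCl 3) P) = Φ (red P) ∧
          ((Odd n ∧ Φ (Φ (red P)) = ((-3 : ℤ) ^ n) • red P) ∨
            (Even n ∧ Φ (Φ (red P)) = (-(3 : ℤ) ^ n) • red P))

/-- The abstract argument. -/
theorem kill_core {G G' : Type} [AddCommGroup G] [AddCommGroup G'] (red : G →+ G') (σ : G →+ G)
    {q n : ℕ} (hq : q.Prime) (hn : 0 < n) (hqn : q ∣ n)
    (hinj : ∀ P : G, q • P = 0 → red P = 0 → P = 0)
    (hΦ : ∀ P : G, ∃ (Φ : G' →+ G') (m : ℤ), red (σ P) = Φ (red P) ∧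
      Φ (Φ (red P)) = m • red P ∧ jacobiSym m q = -1)
    {T : G} (hT : addOrderOf T = n)
    (hfix : (AddSubgroup.zmultiples T).map σ = AddSubgroup.zmultiples T) : False := by
  have h1 : σ T ∈ AddSubgroup.zmultiples T := by
    rw [← hfix]
    exact ⟨T, AddSubgroup.mem_zmultiples T, rfl⟩
  obtain ⟨c, hc⟩ := AddSubgroup.mem_zmultiples_iff.mp h1
  obtain ⟨d, rfl⟩ := hqn
  have hd : 0 < d := Nat.pos_of_mul_pos_left hn
  set T' : G := d • T with hT'
  have hc' : σ T' = c • T' := by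
    rw [hT', map_nsmul, ← hc, smul_comm]
  have hq0 : q • T' = 0 := by
    rw [hT', ← mul_smul, ← hT]
    exact addOrderOf_nsmul_eq_zero T
  have hord : addOrderOf T' = q := by
    apply addOrderOf_eq_prime hq0 (hp := ⟨hq⟩)
    intro h
    have h2 := addOrderOf_dvd_of_nsmul_eq_zero h
    rw [hT] at h2
    have h3 := Nat.le_of_dvd hd h2
    have h4 := hq.two_le
    nlinarith
  obtain ⟨Φ, m, e1, e2, e3⟩ := hΦ T'
  rw [hc', map_zsmul] at e1
  rw [← e1, map_zsmul, ← e1] at e2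
  have e4 : red ((c * c - m) • T') = 0 := by
    rw [sub_smul, map_sub, map_zsmul, map_zsmul, mul_smul, e2, sub_self]
  have e5 : (c * c - m) • T' = 0 := by
    apply hinj _ _ e4
    rw [smul_comm, hq0, smul_zero]
  have e6 : (q : ℤ) ∣ c * c - m := by
    rw [← hord]
    exact (addOrderOf_dvd_iff_zsmul_eq_zero).mpr e5
  have e7 : jacobiSym m q = jacobiSym (c * c) q := by
    rw [jacobiSym.mod_left m, jacobiSym.mod_left (c * c)]
    congr 1
    exact (Int.modEq_iff_dvd.mpr e6)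
  rw [jacobiSym.mul_left] at e7
  rw [e3] at e7
  have e8 := mul_self_nonneg (jacobiSym c q)
  rw [← e7] at e8
  norm_num at e8

end LT
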