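import Pool.Agent.Lib_MP_f1937f_nt.LA
import Pool.Agent.Lib_MP_f1937f_nt.Vc

/-!
# MP_f1937f_nt: the endomorphism `√-3` of `E₀` modulo `p` anticommutes with Frobenius (piece PDELTA)
-/

namespace LT

open Polynomial WeierstrassCurve

namespace PDelta

theorem ne_one {p : ℕ} [Fact p.Prime] (h5 : 5 ≤ p) {ζ : Fb p} (hζ : ζ ^ 2 + ζ + 1 = 0) : ζ ≠ 1 := by
  rintro rfl
  apply (fb_ne h5).2
  linear_combination hζ

theorem cube {p : ℕ} [Fact p.Prime] {ζ : Fb p} (hζ : ζ ^ 2 + ζ + 1 = 0) : ζ ^ 3 = 1 := by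
  linear_combination (ζ - 1) * hζ

theorem pow_p {p : ℕ} [Fact p.Prime] (h3 : p % 3 = 2) {ζ : Fb p} (hζ : ζ ^ 2 + ζ + 1 = 0) :
    ζ ^ p = ζ ^ 2 := by
  have h := Nat.div_add_mod p 3
  rw [h3] at h
  have h' : ζ ^ p = ζ ^ (3 * (p / 3) + 2) := by rw [h]
  rw [h', pow_add, pow_mul, cube hζ, one_pow, one_mul]

end PDelta

/-- The automorphism `ρ : (x, y) ↦ (ζ x, y)`, `ζ³ = 1`, `ζ ≠ 1` (`vc_exists` with `W' = W = SW 0 b`, `u = ζ²`,
`r = s = t = 0`: `u² = ζ`, `u³ = 1`). -/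
theorem rho_exists {p : ℕ} [Fact p.Prime] (h5 : 5 ≤ p) : ∃ ζ : Fb p, ζ ^ 2 + ζ + 1 = 0 ∧
    ∃ ρ : Pt (0 : Fb p) (-31 / 4) →+ Pt (0 : Fb p) (-31 / 4),
      ∀ (x y : Fb p) (h : (SW (0 : Fb p) (-31 / 4)).toAffine.Nonsingular x y),
        ∃ h', ρ (.some x y h) = .some (ζ * x) y h' := by
  obtain ⟨ζ, hζ⟩ : ∃ ζ : Fb p, ζ ^ 2 + ζ + 1 = 0 := by
    have hd : (X ^ 2 + X + 1 : (Fb p)[X]).degree = 2 := by compute_degree!
    obtain ⟨z, hz⟩ := IsAlgClosed.exists_root (X ^ 2 + X + 1 : (Fb p)[X]) (by rw [hd]; decide)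
    refine ⟨z, ?_⟩
    simpa [IsRoot] using hz
  have hc := PDelta.cube hζ
  have hz0 : ζ ≠ 0 := by
    rintro rfl
    norm_num at hζ
  have hr : VcRel (SW (0 : Fb p) (-31 / 4)) (SW (0 : Fb p) (-31 / 4)) (ζ ^ 2) 0 0 0 := by
    have h6 : (ζ ^ 2) ^ 6 = 1 := by
      have : (ζ ^ 2) ^ 6 = (ζ ^ 3) ^ 4 := by ring
      rw [this, hc, one_pow]
    refine ⟨pow_ne_zero 2 hz0, ?_, ?_, ?_, ?_, ?_⟩
    · simp [SW]
    · simp [SW]
    · simp [SW]
    · simp [SW]
    · rw [h6]
      simp [SW]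
  refine ⟨ζ, hζ, hr.hom, ?_⟩
  intro x y h
  have ex : (ζ ^ 2) ^ 2 * x + 0 = ζ * x := by
    linear_combination (ζ * x) * hc
  have ey : (ζ ^ 2) ^ 3 * y + (ζ ^ 2) ^ 2 * 0 * x + 0 = y := by
    linear_combination (y * (ζ ^ 3 + 1)) * hc
  have h1 : (SW (0 : Fb p) (-31 / 4)).toAffine.Nonsingular (ζ * x) y := by
    have := (hr.nonsingular x y).mpr h
    rwa [ex, ey] at this
  refine ⟨h1, ?_⟩
  have h2 : hr.hom (.some x y h) = .some ((ζ ^ 2) ^ 2 * x + 0)
      ((ζ ^ 2) ^ 3 * y + (ζ ^ 2) ^ 2 * 0 * x + 0) ((hr.nonsingular x y).mpr h) := rfl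
  rw [h2, Affine.Point.some.injEq]
  exact ⟨ex, ey⟩

/-- `P`, `ρ P`, `ρ² P` are on the line `Y = y`. (For `x ≠ 0` the slope of the line through `P`, `ρ P` is `0`;
for `x = 0` the tangent at `P = ρ P` has slope `0`.) -/
theorem rho_sum {p : ℕ} [Fact p.Prime] (h5 : 5 ≤ p) (h3 : p % 3 = 2) {ζ : Fb p}
    (hζ : ζ ^ 2 + ζ + 1 = 0) {ρ : Pt (0 : Fb p) (-31 / 4) →+ Pt (0 : Fb p) (-31 / 4)}
    (hρ : ∀ (x y : Fb p) (h : (SW (0 : Fb p) (-31 / 4)).toAffine.Nonsingular x y),
        ∃ h', ρ (.some x y h) = .some (ζ * x) y h') (P : Pt (0 : Fb p) (-31 / 4)) :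
    ρ (ρ P) + ρ P + P = 0 := by
  have h1 := PDelta.ne_one h5 hζ
  have hc := PDelta.cube hζ
  have h2 := (fb_ne h5).1
  rcases P with _ | ⟨x, y, hxy⟩
  · have h0 : ρ (Affine.Point.zero) = 0 := map_zero ρ
    rw [h0, map_zero, zero_add, zero_add]
    rfl
  · obtain ⟨hx1, e1⟩ := hρ x y hxy
    obtain ⟨hx2, e2⟩ := hρ (ζ * x) y hx1
    rw [e1, e2, add_assoc, add_eq_zero_iff_neg_eq]
    have hE := (sw_nons h2 (e0_dsc h5 h3)).mp hxy
    by_cases hx : x = 0
    · have hy : y ≠ 0 := by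
        rintro rfl
        rw [hx] at hE
        have h31 : (31 : Fb p) ≠ 0 := by
          have : ¬ p ∣ 31 := fun h => by
            rw [Nat.prime_dvd_prime_iff_eq Fact.out (by norm_num)] at h
            subst h
            omega
          exact_mod_cast LAaux.nat_ne this
        have h4 := LAaux.four_ne h5
        have : (-31 / 4 : Fb p) = 0 := by
          linear_combination -hE
        rw [div_eq_zero_iff, neg_eq_zero] at this
        rcases this with h | h
        · exact h31 h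
        · exact h4 h
      have hY : y ≠ (SW (0 : Fb p) (-31 / 4)).toAffine.negY x y := by
        simp only [Affine.negY, SW]
        intro he
        have : 2 * y = 0 := by linear_combination he
        rcases mul_eq_zero.mp this with h | h
        · exact h2 h
        · exact hy h
      have hxx : ζ * x = x := by rw [hx, mul_zero]
      have hY' : ¬ (ζ * x = x ∧ y = (SW (0 : Fb p) (-31 / 4)).toAffine.negY x y) := fun h => hY h.2
      rw [Affine.Point.add_some hY', Affine.Point.neg_some, Affine.Point.some.injEq]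
      have hs : (SW (0 : Fb p) (-31 / 4)).toAffine.slope (ζ * x) x y y = 0 := by
        rw [Affine.slope_of_Y_ne hxx hY]
        simp [SW, hx]
      rw [hs]
      constructor
      · simp [Affine.addX, SW, hx]
      · simp [Affine.addY, Affine.negAddY, Affine.negY, Affine.addX, SW, hx]
    · have hX : ζ * x ≠ x := by
        intro h
        have : (ζ - 1) * x = 0 := by linear_combination h
        rcases mul_eq_zero.mp this with h | h
        · exact h1 (sub_eq_zero.mp h)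
        · exact hx h
      have hY' : ¬ (ζ * x = x ∧ y = (SW (0 : Fb p) (-31 / 4)).toAffine.negY x y) := fun h => hX h.1
      rw [Affine.Point.add_some hY', Affine.Point.neg_some, Affine.Point.some.injEq]
      have hs : (SW (0 : Fb p) (-31 / 4)).toAffine.slope (ζ * x) x y y = 0 := by
        rw [Affine.slope_of_X_ne hX]
        simp
      rw [hs]
      constructor
      · simp only [Affine.addX, SW]
        linear_combination x * hζ
      · simp [Affine.addY, Affine.negAddY, Affine.negY, Affine.addX, SW]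

/-- `D = ρ - ρ²`, `ζ^p = ζ²`. -/
theorem delta_hom {p : ℕ} [Fact p.Prime] (h5 : 5 ≤ p) (h3 : p % 3 = 2) :
    ∃ D : Pt (0 : Fb p) (-31 / 4) →+ Pt (0 : Fb p) (-31 / 4),
      (∀ P, D (D P) = -(3 • P)) ∧ ∀ P, F0 p (D P) = -D (F0 p P) := by
  obtain ⟨ζ, hζ, ρ, hρ⟩ := rho_exists (p := p) h5
  have hsum := rho_sum h5 h3 hζ hρ
  have hc := PDelta.cube hζ
  have hF : ∀ P, F0 p (ρ P) = ρ (ρ (F0 p P)) := by
    rintro (_ | ⟨x, y, hxy⟩)
    · have h0 : (Affine.Point.zero : Pt (0 : Fb p) (-31 / 4)) = 0 := rfl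
      rw [h0, map_zero, map_zero, map_zero, map_zero]
    · obtain ⟨hx1, e1⟩ := hρ x y hxy
      obtain ⟨hx2, e2⟩ := frobPt_some p (frob_zero p) (frob_quarter p) x y hxy
      have e2' : F0 p (.some x y hxy) = .some (x ^ p) (y ^ p) hx2 := e2
      obtain ⟨hx3, e3⟩ := frobPt_some p (frob_zero p) (frob_quarter p) (ζ * x) y hx1
      have e3' : F0 p (.some (ζ * x) y hx1) = .some ((ζ * x) ^ p) (y ^ p) hx3 := e3
      obtain ⟨hx4, e4⟩ := hρ (x ^ p) (y ^ p) hx2
      obtain ⟨hx5, e5⟩ := hρ (ζ * x ^ p) (y ^ p) hx4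
      rw [e1, e2', e3', e4, e5, Affine.Point.some.injEq]
      refine ⟨?_, rfl⟩
      rw [mul_pow, PDelta.pow_p h3 hζ]
      ring
  have hF2 : ∀ P, F0 p (ρ (ρ P)) = ρ (F0 p P) := by
    intro P
    rw [hF, hF]
    have h1 := hsum (F0 p P)
    have h2 := congrArg ρ h1
    rw [map_add, map_add, map_zero] at h2
    have h3 : ρ (ρ (ρ (F0 p P))) = F0 p P := by
      have h4 : ρ (ρ (ρ (F0 p P))) + (ρ (ρ (F0 p P)) + ρ (F0 p P)) =
          F0 p P + (ρ (ρ (F0 p P)) + ρ (F0 p P)) := by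
        rw [← add_assoc, h2, add_comm, h1]
      exact add_right_cancel h4
    rw [h3]
  refine ⟨ρ - ρ.comp ρ, ?_, ?_⟩
  · intro P
    have h1 := hsum P
    have h2 := congrArg ρ h1
    have h3 := congrArg ρ h2
    simp only [map_add, map_zero] at h2 h3
    simp only [AddMonoidHom.sub_apply, AddMonoidHom.comp_apply, map_sub]
    generalize ρ P = a at *
    generalize ρ a = b at *
    generalize ρ b = c at *
    generalize ρ c = d at *
    have hc' : c = P := by
      have : c + (b + a) = P + (b + a) := by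
        rw [← add_assoc, h2, add_comm P, h1]
      exact add_right_cancel this
    have hd' : d = a := by
      have : d + (c + b) = a + (c + b) := by
        rw [← add_assoc, h3, add_comm a, h2]
      exact add_right_cancel this
    rw [hc', hd']
    have hb : b = - a - P := by
      rw [← sub_eq_zero]
      rw [← h1]
      abel
    rw [hb]
    abel
  · intro P
    simp only [AddMonoidHom.sub_apply, AddMonoidHom.comp_apply, map_sub]
    rw [hF, hF2]
    abel

end LT
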