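import Mathlib

/-!
# MP_f1937f_nt: stable cyclic subgroups: definition
-/

namespace LT

/-- The cyclic subgroups of order `n` stable under `F`. -/
def StabG {G : Type} [AddCommGroup G] (F : G →+ G) (n : ℕ) : Set (AddSubgroup G) :=
  {L | (∃ T : G, addOrderOf T = n ∧ L = AddSubgroup.zmultiples T) ∧ ∀ x ∈ L, F x ∈ L}

end LT
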