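import Pool.Agent.Lib_MP_f1937f_nt.IDefs
import Pool.Agent.Lib_MP_f1937f_nt.Red

/-!
# MP_f1937f_nt: the residue field of the algebraic closure of `ℚ_p` (piece PLA)

Proof. Let `κ` be the residue field of the valuation ring `OP p` (`IsLocalRing.ResidueField (OP p)`).
It is algebraically closed: lift a monic polynomial over `κ` of positive degree to a monic polynomial over `OP p`
(`Polynomial.lifts_and_natDegree_eq_and_monic` or `Ideal.Quotient`), it has a root in `PadicAlgCl p`, which is integral
over the integrally closed ring `OP p`, so lies in `OP p`; reduce the root (`IsAlgClosed.of_exists_root`). It is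
of characteristic `p` (`‖p‖ < 1`), so a `ZMod p` algebra, and algebraic over `ZMod p`: an element `x` with `‖x‖ ≤ 1` has
minimal polynomial over `ℚ_[p]` with coefficients of norm at most `1` (the norm of `PadicAlgCl p` is the spectral norm
`spectralNorm ℚ_[p] (PadicAlgCl p)`, `spectralNorm x = spectralValue (minpoly x)`, `spectralValue_le_one_iff`), the
residue field of `ℤ_[p]` is `ZMod p` (`PadicInt.residueField` or `PadicInt.toZMod`), so the residue of `x` is a root of
a monic polynomial over `ZMod p`. Hence `κ` is an algebraic closure of `ZMod p` (`IsAlgClosure`), so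
`κ ≃ₐ[ZMod p] AlgebraicClosure (ZMod p)` (`IsAlgClosure.equiv`); compose with `IsLocalRing.residue`.
-/

namespace LT

open Polynomial WeierstrassCurve

namespace PlAux

/-- The residue field of `OP p` is algebraically closed. -/
theorem res_closed (p : ℕ) [Fact p.Prime] : IsAlgClosed (IsLocalRing.ResidueField (OP p)) := by
  apply IsAlgClosed.of_exists_root
  intro f hf hirr
  obtain ⟨q, hq, hdeg, hmon⟩ := Polynomial.lifts_and_natDegree_eq_and_monic
    (Polynomial.mem_lifts_of_surjective
      (IsLocalRing.residue_surjective (R := OP p)) f) hf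
  have hd : (q.map (algebraMap (OP p) (PadicAlgCl p))).degree ≠ 0 := by
    rw [hmon.degree_map]
    intro h
    have h1 : q.natDegree = 0 := Polynomial.natDegree_eq_of_degree_eq_some h
    rw [hdeg] at h1
    exact (hirr.natDegree_pos).ne' h1
  obtain ⟨x, hx⟩ := IsAlgClosed.exists_root _ hd
  rw [Polynomial.IsRoot.def, Polynomial.eval_map] at hx
  have hint : IsIntegral (OP p) x := ⟨q, hmon, hx⟩
  obtain ⟨y, rfl⟩ := IsIntegrallyClosed.algebraMap_eq_of_integral hint
  have hy : q.eval y = 0 := by
    rw [Polynomial.eval₂_hom] at hx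
    exact (FaithfulSMul.algebraMap_injective (OP p) (PadicAlgCl p)) (by rw [hx, map_zero])
  refine ⟨IsLocalRing.residue _ y, ?_⟩
  rw [← hq, Polynomial.eval_map, Polynomial.eval₂_hom, hy, map_zero]

/-- The map from the `p`-adic integers to `OP p`. -/
noncomputable def zOP (p : ℕ) [Fact p.Prime] : ℤ_[p] →+* OP p :=
  ((algebraMap ℚ_[p] (PadicAlgCl p)).comp (PadicInt.Coe.ringHom)).codRestrict (OP p).toSubring
    (fun x => mem_OP.mpr (by
      change ‖(algebraMap ℚ_[p] (PadicAlgCl p)) (x : ℚ_[p])‖ ≤ 1
      rw [norm_algebraMap']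
      exact x.2))

theorem zOP_coe (p : ℕ) [Fact p.Prime] (x : ℤ_[p]) :
    ((zOP p x : OP p) : PadicAlgCl p) = algebraMap ℚ_[p] (PadicAlgCl p) (x : ℚ_[p]) := rfl

theorem res_p (p : ℕ) [Fact p.Prime] : (p : IsLocalRing.ResidueField (OP p)) = 0 := by
  have h : IsLocalRing.residue (OP p) (p : OP p) = 0 := by
    rw [IsLocalRing.residue_eq_zero_iff, (OP p).valuation_lt_one_iff]
    by_contra hc
    have h1 : (OP p).valuation ((p : OP p) : PadicAlgCl p) = 1 :=
      le_antisymm ((OP p).valuation_le_one _) (not_lt.mp hc)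
    have h2 : (OP p).valuation (((p : OP p) : PadicAlgCl p)⁻¹) ≤ 1 := by
      rw [map_inv₀, h1, inv_one]
    rw [(OP p).valuation_le_one_iff, mem_OP, norm_inv] at h2
    have h3 : ‖((p : OP p) : PadicAlgCl p)‖ = (p : ℝ)⁻¹ := by
      have : ((p : OP p) : PadicAlgCl p) = algebraMap ℚ_[p] (PadicAlgCl p) (p : ℚ_[p]) := by
        simp
      rw [this, norm_algebraMap', Padic.norm_p]
    rw [h3, inv_inv] at h2
    have h4 : (1 : ℝ) < p := by exact_mod_cast (Fact.out : p.Prime).one_lt
    linarith
  rw [map_natCast] at h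
  exact h

instance res_char (p : ℕ) [Fact p.Prime] : CharP (IsLocalRing.ResidueField (OP p)) p := by
  obtain ⟨q, hq⟩ := CharP.exists (IsLocalRing.ResidueField (OP p))
  have h1 : q ∣ p := (CharP.cast_eq_zero_iff _ q p).mp (res_p p)
  rcases (Nat.dvd_prime (Fact.out : p.Prime)).mp h1 with rfl | rfl
  · exact absurd rfl (CharP.char_ne_one (IsLocalRing.ResidueField (OP p)) 1)
  · exact hq

end PlAux

/-- The residue field of `OP p` is the algebraic closure of `F_p`. -/
theorem place_exists (p : ℕ) [Fact p.Prime] :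
    ∃ r : OP p →+* Fb p, IsLocalHom r ∧ Function.Surjective r := by
  letI : Algebra (ZMod p) (IsLocalRing.ResidueField (OP p)) := ZMod.algebra _ p
  haveI := PlAux.res_closed p
  have hmap : ∀ x : ℤ_[p], IsLocalRing.residue (OP p) (PlAux.zOP p x) =
      algebraMap (ZMod p) (IsLocalRing.ResidueField (OP p)) (PadicInt.toZMod x) := by
    intro x
    have h1 : x - (x.zmodRepr : ℤ_[p]) ∈ IsLocalRing.maximalIdeal ℤ_[p] := x.sub_zmodRepr_mem
    rw [PadicInt.maximalIdeal_eq_span_p, Ideal.mem_span_singleton] at h1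
    obtain ⟨c, hc⟩ := h1
    have h2 : x = (x.zmodRepr : ℤ_[p]) + p * c := by rw [← hc]; ring
    have h3 : PadicInt.toZMod x = (x.zmodRepr : ZMod p) := by
      conv_lhs => rw [h2]
      simp
    rw [h3]
    conv_lhs => rw [h2]
    simp only [map_add, map_mul, map_natCast, PlAux.res_p, zero_mul, add_zero]
  haveI : Algebra.IsAlgebraic (ZMod p) (IsLocalRing.ResidueField (OP p)) := by
    constructor
    intro y
    obtain ⟨x, rfl⟩ := IsLocalRing.residue_surjective y
    have hx := mem_OP.mp x.2
    have hint : IsIntegral ℚ_[p] (x : PadicAlgCl p) := Algebra.IsIntegral.isIntegral _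
    rw [← PadicAlgCl.spectralNorm_eq, spectralNorm,
      spectralValue_le_one_iff (minpoly.monic hint)] at hx
    have hl : minpoly ℚ_[p] (x : PadicAlgCl p) ∈
        Polynomial.lifts (PadicInt.Coe.ringHom (p := p)) := by
      rw [Polynomial.lifts_iff_coeff_lifts]
      intro n
      exact ⟨⟨_, hx n⟩, rfl⟩
    obtain ⟨g, hg, hdeg, hmon⟩ := Polynomial.lifts_and_natDegree_eq_and_monic hl
      (minpoly.monic hint)
    have h0 : g.eval₂ (PlAux.zOP p) x = 0 := by
      apply Subtype.ext
      have h1 : ((g.eval₂ (PlAux.zOP p) x : OP p) : PadicAlgCl p) =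
          g.eval₂ ((OP p).subtype.comp (PlAux.zOP p)) (x : PadicAlgCl p) :=
        Polynomial.hom_eval₂ g (PlAux.zOP p) (OP p).subtype x
      have h2 : ((OP p).subtype.comp (PlAux.zOP p)) =
          (algebraMap ℚ_[p] (PadicAlgCl p)).comp PadicInt.Coe.ringHom := rfl
      rw [h1, h2, ← Polynomial.eval₂_map, hg]
      exact minpoly.aeval _ _
    refine ⟨g.map PadicInt.toZMod, (hmon.map _).ne_zero, ?_⟩
    rw [Polynomial.aeval_def, Polynomial.eval₂_map]
    have h3 : (algebraMap (ZMod p) (IsLocalRing.ResidueField (OP p))).comp PadicInt.toZMod =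
        (IsLocalRing.residue (OP p)).comp (PlAux.zOP p) := by
      ext z
      exact (hmap z).symm
    rw [h3, ← Polynomial.hom_eval₂, h0, map_zero]
  haveI : IsAlgClosure (ZMod p) (IsLocalRing.ResidueField (OP p)) := ⟨inferInstance, inferInstance⟩
  let e : IsLocalRing.ResidueField (OP p) ≃ₐ[ZMod p] Fb p := IsAlgClosure.equiv (ZMod p) _ _
  refine ⟨(e : IsLocalRing.ResidueField (OP p) →+* Fb p).comp (IsLocalRing.residue (OP p)), ?_, ?_⟩
  · constructor
    intro a ha
    have h1 : IsUnit (IsLocalRing.residue (OP p) a) := by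
      rw [RingHom.comp_apply] at ha
      rw [isUnit_iff_ne_zero] at ha ⊢
      intro h
      rw [h, map_zero] at ha
      exact ha rfl
    exact (isUnit_map_iff (IsLocalRing.residue (OP p)) a).mp h1
  · exact e.surjective.comp IsLocalRing.residue_surjective

end LT
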