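import Pool.Agent.Lib_MP_f1937f_nt.PlA

/-!
# MP_f1937f_nt: the Galois action on the residue field (piece PLB)

`gal_mem`: the norm of `PadicAlgCl p` is the spectral norm, which is invariant (`spectralNorm_eq_of_equiv`).
`gal_res`: `rP p` is surjective and local, so `rP x = 0` iff `x` is not a unit iff `‖x‖ < 1`, a condition invariant under `σ`
(apply `gal_mem` to `σ` and `σ.symm` and to inverses); so `σ` induces an automorphism of `Fb p` (inverse induced by
`σ.symm`; or: a ring endomorphism of the algebraic extension `Fb p` of `ZMod p` is bijective,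
`Algebra.IsAlgebraic.algHom_bijective`).
`frob_lift`: `S` lies in a finite subfield `K` of `Fb p` (`IntermediateField.adjoin (ZMod p) S`, finite dimensional since the
elements are algebraic, so finite), normal over `ZMod p` (all finite extensions of finite fields are Galois), so `s` restricts to
an automorphism of `K`, which is a power of Frobenius (`FiniteField.bijective_frobeniusAlgHom_pow` or similar).
-/

namespace LT

open Polynomial WeierstrassCurve

/-- The residue map. -/
noncomputable def rP (p : ℕ) [Fact p.Prime] : OP p →+* Fb p := Classical.choose (place_exists p)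

instance rP_local (p : ℕ) [Fact p.Prime] : IsLocalHom (rP p) :=
  (Classical.choose_spec (place_exists p)).1

theorem rP_surj (p : ℕ) [Fact p.Prime] : Function.Surjective (rP p) :=
  (Classical.choose_spec (place_exists p)).2

/-- The absolute Galois group of `ℚ_p`. -/
abbrev GP (p : ℕ) [Fact p.Prime] : Type := PadicAlgCl p ≃ₐ[ℚ_[p]] PadicAlgCl p

/-- Galois automorphisms preserve the valuation ring. -/
theorem gal_mem (p : ℕ) [Fact p.Prime] (σ : GP p) {x : PadicAlgCl p} (hx : x ∈ OP p) :
    σ x ∈ OP p := by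
  rw [mem_OP] at hx ⊢
  have h : spectralNorm ℚ_[p] (PadicAlgCl p) x = spectralNorm ℚ_[p] (PadicAlgCl p) (σ x) :=
    spectralNorm_eq_of_equiv σ x
  rw [PadicAlgCl.spectralNorm_eq, PadicAlgCl.spectralNorm_eq] at h
  rw [← h]
  exact hx

namespace PlAux

/-- The restriction of a Galois automorphism to the valuation ring. -/
noncomputable def galO (p : ℕ) [Fact p.Prime] (σ : GP p) : OP p →+* OP p :=
  ((σ : PadicAlgCl p →+* PadicAlgCl p).comp (OP p).subtype).codRestrict (OP p).toSubring
    (fun x => gal_mem p σ x.2)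

theorem galO_coe (p : ℕ) [Fact p.Prime] (σ : GP p) (x : OP p) :
    ((galO p σ x : OP p) : PadicAlgCl p) = σ (x : PadicAlgCl p) := rfl

/-- A ring endomorphism of the algebraic closure of `F_p` is bijective. -/
theorem end_bij (p : ℕ) [Fact p.Prime] (s : Fb p →+* Fb p) : Function.Bijective s := by
  have h : (s.comp (algebraMap (ZMod p) (Fb p))) = algebraMap (ZMod p) (Fb p) :=
    Subsingleton.elim _ _
  let t : Fb p →ₐ[ZMod p] Fb p :=
    { s with commutes' := fun x => congrArg (fun g : ZMod p →+* Fb p => g x) h }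
  exact Algebra.IsAlgebraic.algHom_bijective t

end PlAux

/-- The automorphism of the residue field induced by a Galois automorphism. -/
theorem gal_res (p : ℕ) [Fact p.Prime] (σ : GP p) : ∃ s : Fb p ≃+* Fb p,
    ∀ (x : PadicAlgCl p) (x' : Fb p), Rdc (OP p) (rP p) x x' → Rdc (OP p) (rP p) (σ x) (s x') := by
  have hker : RingHom.ker (rP p) ≤ RingHom.ker ((rP p).comp (PlAux.galO p σ)) := by
    intro x hx
    rw [RingHom.mem_ker] at hx ⊢
    by_contra hne
    rw [RingHom.comp_apply] at hne
    have h1 : IsUnit (rP p (PlAux.galO p σ x)) := isUnit_iff_ne_zero.mpr hne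
    have h2 := isUnit_of_map_unit (rP p) _ h1
    obtain ⟨u, hu⟩ := h2
    have h3 : (PlAux.galO p σ.symm (u⁻¹ : (OP p)ˣ)) * x = 1 := by
      apply Subtype.ext
      have h4 : ((u⁻¹ : (OP p)ˣ) : OP p) * (u : OP p) = 1 := by simp
      have h5 : (((u⁻¹ : (OP p)ˣ) : OP p) : PadicAlgCl p) * σ (x : PadicAlgCl p) = 1 := by
        rw [hu] at h4
        exact congrArg Subtype.val h4
      change σ.symm (((u⁻¹ : (OP p)ˣ) : OP p) : PadicAlgCl p) * (x : PadicAlgCl p) = 1
      have h6 := congrArg σ.symm h5
      rw [map_mul, AlgEquiv.symm_apply_apply, map_one] at h6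
      exact h6
    have h7 := congrArg (rP p) h3
    rw [map_mul, hx, mul_zero, map_one] at h7
    exact zero_ne_one h7
  let s : Fb p →+* Fb p := RingHom.liftOfSurjective (rP p) (rP_surj p)
    ⟨(rP p).comp (PlAux.galO p σ), hker⟩
  have hs : ∀ z : OP p, s (rP p z) = rP p (PlAux.galO p σ z) := fun z =>
    RingHom.liftOfRightInverse_comp_apply _ _ _ ⟨(rP p).comp (PlAux.galO p σ), hker⟩ z
  refine ⟨RingEquiv.ofBijective s (PlAux.end_bij p s), ?_⟩
  rintro x x' ⟨z, rfl, rfl⟩
  exact ⟨PlAux.galO p σ z, rfl, (hs z).symm⟩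

/-- On finitely many elements an automorphism of the algebraic closure of `F_p` is a power of
Frobenius. -/
theorem frob_lift (p : ℕ) [Fact p.Prime] (s : Fb p ≃+* Fb p) (S : Finset (Fb p)) :
    ∃ n : ℕ, ∀ x ∈ S, s x = x ^ p ^ n := by
  let t : Fb p ≃ₐ[ZMod p] Fb p := AlgEquiv.ofRingEquiv (f := s) (fun x => by
        have h : ((s : Fb p →+* Fb p).comp (algebraMap (ZMod p) (Fb p))) =
          algebraMap (ZMod p) (Fb p) := Subsingleton.elim _ _
        exact congrArg (fun g : ZMod p →+* Fb p => g x) h)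
  let K : IntermediateField (ZMod p) (Fb p) := IntermediateField.adjoin (ZMod p) (S : Set (Fb p))
  haveI : FiniteDimensional (ZMod p) K :=
    IntermediateField.finiteDimensional_adjoin (fun x _ => Algebra.IsIntegral.isIntegral x)
  haveI : Finite K := Module.finite_of_finite (ZMod p)
  let u : K ≃ₐ[ZMod p] K := AlgEquiv.restrictNormal t K
  obtain ⟨n, hn⟩ := (FiniteField.bijective_frobeniusAlgEquivOfAlgebraic_pow (ZMod p) K).2 u
  refine ⟨n, fun x hx => ?_⟩
  have hxK : x ∈ K := IntermediateField.subset_adjoin _ _ hx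
  have h1 : algebraMap K (Fb p) (u ⟨x, hxK⟩) = t (algebraMap K (Fb p) ⟨x, hxK⟩) :=
    AlgEquiv.restrictNormal_commutes t K ⟨x, hxK⟩
  have h2 : t (algebraMap K (Fb p) ⟨x, hxK⟩) = s x := rfl
  rw [← h2, ← h1, ← hn]
  rw [AlgEquiv.coe_pow, FiniteField.coe_frobeniusAlgEquivOfAlgebraic_iterate, ZMod.card]
  rfl

end LT
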