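import Pool.Agent.Lib_MP_f1937f_nt.PlB

/-!
# MP_f1937f_nt: the square root of `-3` and the Galois action (piece PLC)

`delta_exists`: algebraically closed. `dl_gal`: `σ (dl p) ^ 2 = σ (-3) = -3 = dl p ^ 2`.
`dl_moved`: `-3` is not a square in `ℚ_[p]`. For `p % 3 = 2`, `p ≠ 2`: a square root has norm `1`, so lies in `ℤ_[p]`,
reduce to `ZMod p` where `-3` is not a square (else `ω = (-1 + √-3) / 2` has order `3` in `(ZMod p)ˣ`, so `3 ∣ p - 1`;
or quadratic reciprocity). For `p = 2`: `x ^ 2 = -3` gives `x ∈ ℤ_[2]`, and `-3 = 5` is not a square modulo `8`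
(`PadicInt.toZModPow 3`). For `p = 3`: `‖-3‖ = 1 / 3` is not a square of a power of `3` (`padicValuation`: the valuation of a square is
even). So `dl p` is not in the image of `ℚ_[p]`, and since the fixed field of the Galois group of `PadicAlgCl p / ℚ_[p]`
(a Galois extension in characteristic `0`) is `ℚ_[p]`, some `σ` moves it; use `dl_gal`.
`frob_odd`: `ω = (-1 + dl p) / 2` satisfies `ω ^ 2 + ω + 1 = 0`, is integral (`ω ∈ OP p`, since `OP p` is integrally closed), let
`ω'` be its residue, `ω' ^ 2 + ω' + 1 = 0`, and `σ ω = ω⁻¹ = ω ^ 2`, so `s ω' = ω' ^ 2`. Apply `frob_lift` to `insert ω' S`: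
`ω' ^ p ^ n = ω' ^ 2`, `ω' ≠ 1` (`3 ≠ 0` in `Fb p`), `ω' ^ 3 = 1`, so `p ^ n % 3 = 2`, which forces `n` odd.
-/

namespace LT

open Polynomial WeierstrassCurve

/-- A square root of `-3` in the algebraic closure of `ℚ_p`. -/
theorem delta_exists (p : ℕ) [Fact p.Prime] : ∃ δ : PadicAlgCl p, δ ^ 2 = -3 :=
  IsAlgClosed.exists_pow_nat_eq (-3 : PadicAlgCl p) (by norm_num)

/-- `δ = √-3`. -/
noncomputable def dl (p : ℕ) [Fact p.Prime] : PadicAlgCl p := Classical.choose (delta_exists p)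

theorem dl_sq (p : ℕ) [Fact p.Prime] : dl p ^ 2 = -3 := Classical.choose_spec (delta_exists p)

theorem dl_gal (p : ℕ) [Fact p.Prime] (σ : GP p) : σ (dl p) = dl p ∨ σ (dl p) = -dl p := by
  apply sq_eq_sq_iff_eq_or_eq_neg.1
  rw [← map_pow, dl_sq, map_neg, map_ofNat]

/-- A primitive cube root of unity modulo `p`. -/
theorem PlC_cube {p : ℕ} [Fact p.Prime] (h3 : p ≠ 3) (h : p % 3 = 2) (w : ZMod p)
    (hw : w ^ 2 + w + 1 = 0) : False := by
  have hp : p.Prime := Fact.out
  have h30 : (3 : ZMod p) ≠ 0 := by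
    intro h0
    have h1 : ((3 : ℕ) : ZMod p) = 0 := by exact_mod_cast h0
    rw [ZMod.natCast_eq_zero_iff] at h1
    exact h3 ((Nat.prime_dvd_prime_iff_eq hp Nat.prime_three).1 h1)
  have hw3 : w ^ 3 = 1 := by linear_combination (w - 1) * hw
  have hw1 : w ≠ 1 := by
    rintro rfl
    apply h30
    rw [← hw]; norm_num
  have hw0 : w ≠ 0 := by
    rintro rfl
    simp at hw
  have ho : orderOf w = 3 := orderOf_eq_prime hw3 hw1
  have hd : orderOf w ∣ p - 1 := orderOf_dvd_of_pow_eq_one (ZMod.pow_card_sub_one_eq_one hw0)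
  rw [ho] at hd
  have := hp.two_le
  omega

/-- `-3` is not a square in `ℚ_p`. -/
theorem PlC_nosq (p : ℕ) [Fact p.Prime] (h : p % 3 = 2 ∨ p = 3) (y : ℚ_[p])
    (hy : y ^ 2 = -3) : False := by
  have hp : p.Prime := Fact.out
  rcases h with h | h
  · have h3 : p ≠ 3 := by rintro rfl; omega
    set w : ℚ_[p] := (-1 + y) / 2 with hw
    have hw2 : w ^ 2 + w + 1 = 0 := by
      rw [hw]
      field_simp
      linear_combination hy
    have hwn : ‖w‖ ≤ 1 := by
      by_contra hcon
      push Not at hcon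
      have h1 : w ^ 2 = -(w + 1) := by linear_combination hw2
      have h2 : ‖w‖ ^ 2 ≤ max ‖w‖ ‖(1 : ℚ_[p])‖ := by
        rw [← norm_pow, h1, norm_neg]
        exact Padic.nonarchimedean w 1
      rw [norm_one, max_eq_left hcon.le] at h2
      nlinarith
    set z : ℤ_[p] := ⟨w, hwn⟩ with hz
    have hz2 : z ^ 2 + z + 1 = 0 := by
      apply Subtype.ext
      push_cast
      exact hw2
    have h4 := congrArg (PadicInt.toZMod (p := p)) hz2
    rw [map_add, map_add, map_pow, map_one, map_zero] at h4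
    exact PlC_cube h3 h _ h4
  · subst h
    have hy0 : y ≠ 0 := by
      rintro rfl
      norm_num at hy
    have h1 : ‖y‖ ^ 2 = (3 : ℝ)⁻¹ := by
      rw [← norm_pow, hy, norm_neg]
      have := Padic.norm_p (p := 3)
      exact_mod_cast this
    rw [Padic.norm_eq_zpow_neg_valuation hy0] at h1
    have h2 : ((3 : ℝ)) ^ (-(2 * y.valuation)) = (3 : ℝ) ^ (-1 : ℤ) := by
      rw [zpow_neg_one, ← h1, ← zpow_natCast, ← zpow_mul]
      congr 1
      push_cast
      ring
    have h3 := zpow_right_injective₀ (by norm_num : (0 : ℝ) < 3) (by norm_num) h2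
    omega

/-- Some automorphism moves `δ` if `p = 2 mod 3` or `p = 3`. -/
theorem dl_moved (p : ℕ) [Fact p.Prime] (h : p % 3 = 2 ∨ p = 3) : ∃ σ : GP p, σ (dl p) = -dl p := by
  by_contra hcon
  push Not at hcon
  have hfix : ∀ σ : GP p, σ (dl p) = dl p := fun σ => (dl_gal p σ).resolve_right (hcon σ)
  have : IsGalois ℚ_[p] (PadicAlgCl p) := IsAlgClosure.isGalois ℚ_[p] (PadicAlgCl p)
  have hb := (InfiniteGalois.mem_bot_iff_fixed (k := ℚ_[p]) (K := PadicAlgCl p) (dl p)).2 hfix
  rw [IntermediateField.mem_bot] at hb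
  obtain ⟨y, hy⟩ := hb
  apply PlC_nosq p h y
  apply (algebraMap ℚ_[p] (PadicAlgCl p)).injective
  rw [map_pow, hy, dl_sq, map_neg, map_ofNat]

/-- If `σ δ = -δ` and `p = 2 mod 3` then `σ` acts on finitely many residues as an odd power of
Frobenius. -/
theorem frob_odd (p : ℕ) [Fact p.Prime] (h : p % 3 = 2) (σ : GP p) (hσ : σ (dl p) = -dl p)
    (s : Fb p ≃+* Fb p)
    (hs : ∀ (x : PadicAlgCl p) (x' : Fb p), Rdc (OP p) (rP p) x x' →
      Rdc (OP p) (rP p) (σ x) (s x')) (S : Finset (Fb p)) :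
    ∃ n : ℕ, Odd n ∧ ∀ x ∈ S, s x = x ^ p ^ n := by
  classical
  have hp : p.Prime := Fact.out
  have h3 : p ≠ 3 := by rintro rfl; omega
  set w : PadicAlgCl p := (-1 + dl p) / 2 with hw
  have hw2 : w ^ 2 + w + 1 = 0 := by
    rw [hw]
    field_simp
    linear_combination dl_sq p
  have hw0 : w ≠ 0 := by
    intro h0
    rw [h0] at hw2
    simp at hw2
  have hwO : w ∈ OP p := by
    rcases (OP p).mem_or_inv_mem w with h1 | h1
    · exact h1
    · have e : w = -1 - w⁻¹ := by
        field_simp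
        linear_combination hw2
      rw [e]
      exact sub_mem (neg_mem (one_mem _)) h1
  set z : OP p := ⟨w, hwO⟩ with hz
  set w' : Fb p := rP p z with hw'
  have hz2 : z ^ 2 + z + 1 = 0 := by
    apply Subtype.ext
    push_cast
    exact hw2
  have hw'2 : w' ^ 2 + w' + 1 = 0 := by
    have h4 := congrArg (rP p) hz2
    rw [map_add, map_add, map_pow, map_one, map_zero] at h4
    exact h4
  have hσw : σ w = w ^ 2 := by
    have e1 : σ w = (-1 - dl p) / 2 := by
      rw [hw, map_div₀, map_add, map_neg, map_one, hσ, map_ofNat]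
      ring
    rw [e1, hw]
    field_simp
    linear_combination -dl_sq p
  have hs1 : Rdc (OP p) (rP p) (σ w) (s w') := hs w w' ⟨z, rfl, rfl⟩
  have hs2 : s w' = w' ^ 2 := by
    obtain ⟨z1, hz1, hz1'⟩ := hs1
    rw [← hz1']
    have : z1 = z ^ 2 := by
      apply Subtype.ext
      rw [hz1, hσw]
      push_cast
      rfl
    rw [this, map_pow]
  have h30 : (3 : Fb p) ≠ 0 := by
    intro h0
    have h1 : ((3 : ℕ) : Fb p) = 0 := by exact_mod_cast h0
    rw [CharP.cast_eq_zero_iff (Fb p) p] at h1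
    exact h3 ((Nat.prime_dvd_prime_iff_eq hp Nat.prime_three).1 h1)
  have hw3 : w' ^ 3 = 1 := by linear_combination (w' - 1) * hw'2
  have hw1 : w' ≠ 1 := by
    intro h1
    apply h30
    rw [h1] at hw'2
    rw [← hw'2]; norm_num
  obtain ⟨n, hn⟩ := frob_lift p s (insert w' S)
  refine ⟨n, ?_, fun x hx => hn x (Finset.mem_insert_of_mem hx)⟩
  by_contra hodd
  rw [Nat.not_odd_iff_even] at hodd
  obtain ⟨k, hk⟩ := hodd
  have h5 := hn w' (Finset.mem_insert_self _ _)
  rw [hs2] at h5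
  have hmod : p ^ n % 3 = 1 := by
    rw [hk, ← two_mul, pow_mul, Nat.pow_mod, Nat.pow_mod p 2 3, h]
    norm_num
  rw [← Nat.div_add_mod (p ^ n) 3, hmod, pow_add, pow_mul, hw3, one_pow, one_mul, pow_one] at h5
  have hw'0 : w' ≠ 0 := by
    intro h0
    rw [h0] at hw'2
    simp at hw'2
  apply hw1
  have : w' * w' = w' * 1 := by rw [mul_one, ← pow_two]; exact h5
  exact mul_left_cancel₀ hw'0 this

end LT
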