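import Pool.Agent.Lib_MP_f1937f_nt.SizeC

/-!
# MP_f1937f_nt: Velu's coefficients as finite sums (piece SIZED)
-/

namespace LT

open Polynomial WeierstrassCurve

section

variable {k : Type} [Field k] [DecidableEq k]

/-- The nonzero points of a finite subgroup. -/
theorem nz_finite {a b : k} {L : AddSubgroup (Pt a b)} (hL : Finite L) :
    {P : Pt a b | P ∈ L ∧ P ≠ 0}.Finite := by
  have h : (L : Set (Pt a b)).Finite := Set.toFinite _
  exact h.subset fun P hP => hP.1

theorem vA_sum {a b : k} {L : AddSubgroup (Pt a b)} (hL : Finite L) :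
    vA a b L = a - 5 * ∑ P ∈ (nz_finite hL).toFinset, (3 * xc P ^ 2 + a) := by
  rw [vA, finsum_mem_eq_finite_toFinset_sum]

theorem vB_sum {a b : k} {L : AddSubgroup (Pt a b)} (hL : Finite L) :
    vB a b L = b - 7 * ∑ P ∈ (nz_finite hL).toFinset, (5 * xc P ^ 3 + 3 * a * xc P + 2 * b) := by
  rw [vB, finsum_mem_eq_finite_toFinset_sum]

theorem nz_card {a b : k} {L : AddSubgroup (Pt a b)} (hL : Finite L) :
    (nz_finite hL).toFinset.card ≤ Nat.card L := by
  have h : (L : Set (Pt a b)).Finite := Set.toFinite _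
  rw [← Set.ncard_eq_toFinset_card _ (nz_finite hL)]
  have h1 : {P : Pt a b | P ∈ L ∧ P ≠ 0}.ncard ≤ (L : Set (Pt a b)).ncard :=
    Set.ncard_le_ncard (fun P hP => hP.1) h
  exact h1.trans_eq (Nat.card_coe_set_eq (L : Set (Pt a b))).symm

variable {k' : Type} [Field k'] [DecidableEq k']

/-- The nonzero points of the image. -/
theorem nz_map (f : k →+* k') {a b : k} {a' b' : k'} (ha : f a = a') (hb : f b = b')
    (L : AddSubgroup (Pt a b)) :
    {P : Pt a' b' | P ∈ L.map (mapPt f ha hb) ∧ P ≠ 0} =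
      mapPt f ha hb '' {P : Pt a b | P ∈ L ∧ P ≠ 0} := by
  ext Q
  simp only [Set.mem_ofPred_eq, Set.mem_image, AddSubgroup.mem_map]
  constructor
  · rintro ⟨⟨P, hP, rfl⟩, h0⟩
    exact ⟨P, ⟨hP, fun h => h0 (by rw [h, map_zero])⟩, rfl⟩
  · rintro ⟨P, ⟨hP, h0⟩, rfl⟩
    refine ⟨⟨P, hP, rfl⟩, fun h => h0 ?_⟩
    exact mapPt_injective f ha hb (h.trans (map_zero _).symm)

/-- Velu's coefficients are compatible with field homomorphisms. -/
theorem vA_map (f : k →+* k') {a b : k} {a' b' : k'} (ha : f a = a') (hb : f b = b')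
    {L : AddSubgroup (Pt a b)} (hL : Finite L) :
    vA a' b' (L.map (mapPt f ha hb)) = f (vA a b L) := by
  rw [vA_sum hL, vA, nz_map, finsum_mem_image (mapPt_injective f ha hb).injOn,
    finsum_mem_eq_finite_toFinset_sum _ (nz_finite hL), map_sub, map_mul, map_sum, ha, map_ofNat]
  congr 2
  apply Finset.sum_congr rfl
  intro P _
  rw [xc_mapPt, map_add, map_mul, map_pow, map_ofNat, ha]

theorem vB_map (f : k →+* k') {a b : k} {a' b' : k'} (ha : f a = a') (hb : f b = b')
    {L : AddSubgroup (Pt a b)} (hL : Finite L) :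
    vB a' b' (L.map (mapPt f ha hb)) = f (vB a b L) := by
  rw [vB_sum hL, vB, nz_map, finsum_mem_image (mapPt_injective f ha hb).injOn,
    finsum_mem_eq_finite_toFinset_sum _ (nz_finite hL), map_sub, map_mul, map_sum, hb, map_ofNat]
  congr 2
  apply Finset.sum_congr rfl
  intro P _
  rw [xc_mapPt]
  simp only [map_add, map_mul, map_pow, map_ofNat, ha, hb]

end

end LT
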