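import Pool.Agent.Lib_MP_f1937f_nt.IDefs
import Pool.Agent.Lib_MP_f1937f_nt.SizeD

/-!
# MP_f1937f_nt: Galois equivariance of Velu's quantities (piece PLD)

`jL_map`: `vA_map`, `vB_map` of `SizeD.lean`, then `jinv` commutes with `f` (`map_div₀`). `CycL_map`: the image of
`zmultiples T` is `zmultiples (mapE f T)`, and `mapE f` is injective (`mapPt_injective`), so the order is the same
(`addOrderOf_injective`).
-/

namespace LT

open Polynomial WeierstrassCurve

theorem map_quarter {Ω Ω' : Type} [Field Ω] [Field Ω'] (f : Ω →+* Ω') :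
    f (-31 / 4) = -31 / 4 := by
  rw [map_div₀, map_neg]
  congr 1
  · congr 1
    exact map_ofNat f 31
  · exact map_ofNat f 4

/-- The map of `E₀` induced by a homomorphism of fields. -/
noncomputable def mapE {Ω Ω' : Type} [Field Ω] [Field Ω'] [DecidableEq Ω] [DecidableEq Ω']
    (f : Ω →+* Ω') : Pt (0 : Ω) (-31 / 4) →+ Pt (0 : Ω') (-31 / 4) :=
  mapPt f (map_zero f) (map_quarter f)

/-- Galois equivariance of Velu's quantities. -/
theorem jL_map {Ω Ω' : Type} [Field Ω] [Field Ω'] [DecidableEq Ω] [DecidableEq Ω']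
    (f : Ω →+* Ω') {L : AddSubgroup (Pt (0 : Ω) (-31 / 4))} (hL : Finite L) :
    vA (0 : Ω') (-31 / 4) (L.map (mapE f)) = f (vA 0 (-31 / 4) L) ∧
      vB (0 : Ω') (-31 / 4) (L.map (mapE f)) = f (vB 0 (-31 / 4) L) ∧
      jL (0 : Ω') (-31 / 4) (L.map (mapE f)) = f (jL 0 (-31 / 4) L) := by
  have hA : vA (0 : Ω') (-31 / 4) (L.map (mapE f)) = f (vA 0 (-31 / 4) L) :=
    vA_map f (map_zero f) (map_quarter f) hL
  have hB : vB (0 : Ω') (-31 / 4) (L.map (mapE f)) = f (vB 0 (-31 / 4) L) :=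
    vB_map f (map_zero f) (map_quarter f) hL
  refine ⟨hA, hB, ?_⟩
  rw [jL, jL, hA, hB, jinv, jinv, dsc, dsc, map_div₀, map_mul, map_pow, map_add, map_mul, map_mul,
    map_pow, map_pow, map_ofNat, map_ofNat, map_ofNat]

theorem CycL_map {Ω Ω' : Type} [Field Ω] [Field Ω'] [DecidableEq Ω] [DecidableEq Ω']
    (f : Ω →+* Ω') {n : ℕ} {L : AddSubgroup (Pt (0 : Ω) (-31 / 4))}
    (hL : L ∈ CycL (0 : Ω) (-31 / 4) n) : L.map (mapE f) ∈ CycL (0 : Ω') (-31 / 4) n := by
  obtain ⟨T, hT, rfl⟩ := hL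
  refine ⟨mapE f T, ?_, ?_⟩
  · rw [addOrderOf_injective (mapE f) (mapPt_injective f (map_zero f) (map_quarter f)) T, hT]
  · rw [AddMonoidHom.map_zmultiples]

end LT
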