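import Pool.Agent.Lib_MP_f1937f_nt.PlC
import Pool.Agent.Lib_MP_f1937f_nt.PlD

/-!
# MP_f1937f_nt: the norm lemma (piece PLE)

Proof. `G = GP p` acts on the set `X` by `σ • L = L.map (mapE σ)`; write `v L = j - jL L`, then `v (σ L) = σ (v L)` (`jL_map`;
`σ` fixes the rational `j`). Let `H` be the subgroup of the `σ` with `σ (dl p) = dl p`; the others have
`σ (dl p) = -dl p` (`dl_gal`), and there is at least one, `τ` (`dl_moved`). By `hno`, for `L ∈ X` and `σ ∉ H`, `σ L` is not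
in the `H` orbit of `L` (if `σ L = h L` then `h⁻¹ σ ∉ H` fixes `L`). Choose a set `Y ⊆ X` stable under `H` with `X` the disjoint union of `Y` and
`τ Y` (for every orbit of `G` on `X` choose an element `L` and take `H L`; then `τ H L = H τ L`, as `H` is
normal of index `2`). The product `A` of the `v L`, `L ∈ Y`, is fixed by `H`, so lies in `ℚ_[p](dl p)`
(fixed field of `H = Gal(PadicAlgCl p / ℚ_[p](dl p))`; or: `A + τ A` and `(A - τ A) / dl p` are fixed by `H` and by `τ`, so by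
`G`, so are in the image of `ℚ_[p]`), `A = a + b dl p`, the product of the `v L`, `L ∈ τ Y`, is `τ A = a - b dl p`, and
the product of the two is `a ^ 2 - b ^ 2 (dl p) ^ 2 = a ^ 2 + 3 b ^ 2`.
-/

namespace LT

open Polynomial WeierstrassCurve

namespace PlE

/-- Splitting a set without points fixed by elements outside a subgroup of index two. -/
theorem split {G : Type*} [Group G] {T : Type*} [MulAction G T] (H : Subgroup G)
    (hH : ∀ a b : G, a ∉ H → b ∉ H → a * b ∈ H) (X : Set T)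
    (hst : ∀ g : G, ∀ x ∈ X, g • x ∈ X) (hno : ∀ g : G, g ∉ H → ∀ x ∈ X, g • x ≠ x) :
    ∃ Y : Set T, ∀ g : G, ∀ x ∈ X, (g • x ∈ Y ↔ (x ∈ Y ↔ g ∈ H)) := by
  classical
  let rep : T → T := fun x => Quotient.out (Quotient.mk (MulAction.orbitRel G T) x)
  have hrep : ∀ x : T, ∃ g : G, g • rep x = x := by
    intro x
    have h1 : (MulAction.orbitRel G T).r (rep x) x := Quotient.exact (Quotient.out_eq _)
    obtain ⟨g, hg⟩ := h1
    exact ⟨g⁻¹, by rw [← hg]; simp⟩
  have hrepg : ∀ (g : G) (x : T), rep (g • x) = rep x := by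
    intro g x
    have h1 : Quotient.mk (MulAction.orbitRel G T) (g • x) =
        Quotient.mk (MulAction.orbitRel G T) x := Quotient.sound ⟨g, rfl⟩
    show Quotient.out _ = Quotient.out _
    rw [h1]
  have hrepX : ∀ x ∈ X, rep x ∈ X := by
    intro x hx
    obtain ⟨g, hg⟩ := hrep x
    have h1 : rep x = g⁻¹ • x := eq_inv_smul_iff.mpr hg
    rw [h1]
    exact hst _ _ hx
  refine ⟨{x | ∃ h ∈ H, h • rep x = x}, fun g x hx => ?_⟩
  have hkey : ∀ a b : G, a • rep x = b • rep x → (a ∈ H ↔ b ∈ H) := by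
    intro a b hab
    have h1 : (a⁻¹ * b) • rep x = rep x := by rw [mul_smul, ← hab, inv_smul_smul]
    have h2 : a⁻¹ * b ∈ H := by
      by_contra hcon
      exact hno _ hcon _ (hrepX x hx) h1
    constructor
    · intro ha
      have := H.mul_mem ha h2
      rwa [mul_inv_cancel_left] at this
    · intro hb
      have := H.mul_mem hb (H.inv_mem h2)
      rwa [mul_inv_rev, inv_inv, mul_inv_cancel_left] at this
  obtain ⟨k, hk⟩ := hrep x
  have hY : ∀ y, rep y = rep x → ∀ a : G, a • rep x = y → ((∃ h ∈ H, h • rep y = y) ↔ a ∈ H) := by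
    intro y hy a ha
    rw [hy]
    constructor
    · rintro ⟨h, hh, hhy⟩
      exact (hkey h a (hhy.trans ha.symm)).mp hh
    · intro haH
      exact ⟨a, haH, ha⟩
  show (∃ h ∈ H, h • rep (g • x) = g • x) ↔ ((∃ h ∈ H, h • rep x = x) ↔ g ∈ H)
  rw [hY (g • x) (hrepg g x) (g * k) (by rw [mul_smul, hk]), hY x rfl k hk]
  constructor
  · intro h1
    constructor
    · intro h2
      have := H.mul_mem h1 (H.inv_mem h2)
      rwa [mul_inv_cancel_right] at this
    · intro h2
      have := H.mul_mem (H.inv_mem h2) h1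
      rwa [inv_mul_cancel_left] at this
  · intro h1
    by_cases h2 : k ∈ H
    · exact H.mul_mem (h1.mp h2) h2
    · exact hH g k (fun h3 => h2 (h1.mpr h3)) h2

theorem prod_move {G : Type*} [Group G] {T : Type*} [MulAction G T] {M : Type*} [CommMonoid M]
    (S S' : Finset T) (g : G) (h : ∀ x ∈ S, g • x ∈ S') (h' : ∀ x ∈ S', g⁻¹ • x ∈ S)
    (v : T → M) : ∏ x ∈ S, v (g • x) = ∏ x ∈ S', v x := by
  refine Finset.prod_nbij' (fun x => g • x) (fun x => g⁻¹ • x) h h' ?_ ?_ ?_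
  · intro x _
    exact inv_smul_smul g x
  · intro x _
    exact smul_inv_smul g x
  · intro x _
    rfl

/-- The action of the Galois group on the subgroups of `E₀`. -/
noncomputable def act (p : ℕ) [Fact p.Prime] :
    MulAction (GP p) (AddSubgroup (Pt (0 : PadicAlgCl p) (-31 / 4))) where
  smul σ L := L.map (mapE (σ : PadicAlgCl p →+* PadicAlgCl p))
  one_smul L := by
    show L.map (mapE ((1 : GP p) : PadicAlgCl p →+* PadicAlgCl p)) = L
    have h1 : mapE ((1 : GP p) : PadicAlgCl p →+* PadicAlgCl p) = AddMonoidHom.id _ := by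
      ext P
      rcases P with _ | ⟨x, y, hxy⟩
      · rfl
      · rfl
    rw [h1, AddSubgroup.map_id]
  mul_smul σ τ L := by
    show L.map (mapE ((σ * τ : GP p) : PadicAlgCl p →+* PadicAlgCl p)) =
      (L.map (mapE (τ : PadicAlgCl p →+* PadicAlgCl p))).map
        (mapE (σ : PadicAlgCl p →+* PadicAlgCl p))
    rw [AddSubgroup.map_map]
    have h1 : mapE ((σ * τ : GP p) : PadicAlgCl p →+* PadicAlgCl p) =
        (mapE (σ : PadicAlgCl p →+* PadicAlgCl p)).comp
          (mapE (τ : PadicAlgCl p →+* PadicAlgCl p)) := by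
      ext P
      rcases P with _ | ⟨x, y, hxy⟩
      · rfl
      · rfl
    rw [h1]

end PlE

/-- The norm lemma: abstract form. If no `σ` with `σ δ = -δ` fixes an element of the finite stable set
`X`, the product of the values is `a² + 3 b²`. -/
theorem norm_lemma (p : ℕ) [Fact p.Prime] (h : p % 3 = 2 ∨ p = 3)
    (X : Set (AddSubgroup (Pt (0 : PadicAlgCl p) (-31 / 4)))) (hX : X.Finite)
    (hfin : ∀ L ∈ X, Finite L)
    (hst : ∀ (σ : GP p), ∀ L ∈ X, L.map (mapE (σ : PadicAlgCl p →+* PadicAlgCl p)) ∈ X)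
    (hno : ∀ (σ : GP p), σ (dl p) = -dl p → ∀ L ∈ X,
      L.map (mapE (σ : PadicAlgCl p →+* PadicAlgCl p)) ≠ L) (j : ℚ) :
    ∃ a b : ℚ_[p], ∏ᶠ L ∈ X, ((j : PadicAlgCl p) - jL 0 (-31 / 4) L) =
      algebraMap ℚ_[p] (PadicAlgCl p) (a ^ 2 + 3 * b ^ 2) := by
  classical
  letI := PlE.act p
  have hsm : ∀ (σ : GP p) (L : AddSubgroup (Pt (0 : PadicAlgCl p) (-31 / 4))),
      σ • L = L.map (mapE (σ : PadicAlgCl p →+* PadicAlgCl p)) := fun _ _ => rfl
  have hδ := dl_sq p
  have hδ0 : dl p ≠ 0 := by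
    intro h0
    rw [h0] at hδ
    norm_num at hδ
  have hδn : dl p ≠ -dl p := by
    intro h0
    have h1 : (2 : PadicAlgCl p) * dl p = 0 := by linear_combination h0
    rcases mul_eq_zero.mp h1 with h2 | h2
    · norm_num at h2
    · exact hδ0 h2
  let H : Subgroup (GP p) :=
    { carrier := {σ | σ (dl p) = dl p}
      mul_mem' := by
        intro σ τ hσ hτ
        show (σ * τ) (dl p) = dl p
        rw [AlgEquiv.mul_apply]
        rw [show τ (dl p) = dl p from hτ, show σ (dl p) = dl p from hσ]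
      one_mem' := rfl
      inv_mem' := by
        intro σ hσ
        show σ⁻¹ (dl p) = dl p
        have h1 : σ (dl p) = dl p := hσ
        have h2 : σ⁻¹ (σ (dl p)) = dl p := by
          rw [← AlgEquiv.mul_apply, inv_mul_cancel, AlgEquiv.one_apply]
        rwa [h1] at h2 }
  have hmemH : ∀ σ : GP p, σ ∈ H ↔ σ (dl p) = dl p := fun _ => Iff.rfl
  have hnotH : ∀ σ : GP p, σ ∉ H ↔ σ (dl p) = -dl p := by
    intro σ
    rw [hmemH]
    constructor
    · intro h1
      exact (dl_gal p σ).resolve_left h1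
    · intro h1 h2
      exact hδn (h2.symm.trans h1)
  obtain ⟨Y, hY⟩ := PlE.split H (by
      intro a b ha hb
      rw [hnotH] at ha hb
      rw [hmemH, AlgEquiv.mul_apply, hb, map_neg, ha, neg_neg]) X hst
    (fun σ hσ L hL => hno σ ((hnotH σ).mp hσ) L hL)
  set v : AddSubgroup (Pt (0 : PadicAlgCl p) (-31 / 4)) → PadicAlgCl p :=
    fun L => (j : PadicAlgCl p) - jL 0 (-31 / 4) L with hv
  have hvσ : ∀ (σ : GP p), ∀ L ∈ X, σ (v L) = v (σ • L) := by
    intro σ L hL
    have h1 := (jL_map (σ : PadicAlgCl p →+* PadicAlgCl p) (hfin L hL)).2.2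
    rw [hsm, hv]
    simp only
    rw [h1, map_sub]
    congr 1
    exact map_ratCast σ j
  set XF := hX.toFinset with hXF
  have hmemX : ∀ L, L ∈ XF ↔ L ∈ X := fun L => hX.mem_toFinset
  set S : Finset (AddSubgroup (Pt (0 : PadicAlgCl p) (-31 / 4))) :=
    XF.filter (fun L => L ∈ Y) with hS
  set S' : Finset (AddSubgroup (Pt (0 : PadicAlgCl p) (-31 / 4))) :=
    XF.filter (fun L => L ∉ Y) with hS'
  have hmemS : ∀ L, L ∈ S ↔ L ∈ X ∧ L ∈ Y := by
    intro L
    rw [hS, Finset.mem_filter, hmemX]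
  have hmemS' : ∀ L, L ∈ S' ↔ L ∈ X ∧ L ∉ Y := by
    intro L
    rw [hS', Finset.mem_filter, hmemX]
  set A := ∏ L ∈ S, v L with hA
  set B := ∏ L ∈ S', v L with hB
  have hprod : ∏ᶠ L ∈ X, ((j : PadicAlgCl p) - jL 0 (-31 / 4) L) = A * B := by
    rw [finprod_mem_eq_finite_toFinset_prod _ hX, hA, hB]
    exact (Finset.prod_filter_mul_prod_filter_not XF (fun L => L ∈ Y) v).symm
  have hst' : ∀ (σ : GP p), ∀ L ∈ X, σ • L ∈ X := hst
  -- the action on the two products
  have hσS : ∀ σ : GP p, σ A = ∏ L ∈ S, v (σ • L) := by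
    intro σ
    rw [hA, map_prod]
    exact Finset.prod_congr rfl fun L hL => hvσ σ L ((hmemS L).mp hL).1
  have hσS' : ∀ σ : GP p, σ B = ∏ L ∈ S', v (σ • L) := by
    intro σ
    rw [hB, map_prod]
    exact Finset.prod_congr rfl fun L hL => hvσ σ L ((hmemS' L).mp hL).1
  have hin : ∀ σ ∈ H, σ A = A ∧ σ B = B := by
    intro σ hσ
    constructor
    · rw [hσS]
      apply PlE.prod_move
      · intro L hL
        rw [hmemS] at hL ⊢
        exact ⟨hst' σ L hL.1, (hY σ L hL.1).mpr ⟨fun _ => hσ, fun _ => hL.2⟩⟩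
      · intro L hL
        rw [hmemS] at hL ⊢
        exact ⟨hst' σ⁻¹ L hL.1, (hY σ⁻¹ L hL.1).mpr ⟨fun _ => H.inv_mem hσ, fun _ => hL.2⟩⟩
    · rw [hσS']
      apply PlE.prod_move
      · intro L hL
        rw [hmemS'] at hL ⊢
        exact ⟨hst' σ L hL.1, fun h1 => hL.2 (((hY σ L hL.1).mp h1).mpr hσ)⟩
      · intro L hL
        rw [hmemS'] at hL ⊢
        exact ⟨hst' σ⁻¹ L hL.1, fun h1 => hL.2 (((hY σ⁻¹ L hL.1).mp h1).mpr (H.inv_mem hσ))⟩
  have hout : ∀ σ : GP p, σ ∉ H → σ A = B ∧ σ B = A := by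
    intro σ hσ
    have hσi : σ⁻¹ ∉ H := fun h1 => hσ (by simpa using H.inv_mem h1)
    constructor
    · rw [hσS]
      apply PlE.prod_move
      · intro L hL
        rw [hmemS] at hL
        rw [hmemS']
        exact ⟨hst' σ L hL.1, fun h1 => hσ (((hY σ L hL.1).mp h1).mp hL.2)⟩
      · intro L hL
        rw [hmemS'] at hL
        rw [hmemS]
        exact ⟨hst' σ⁻¹ L hL.1, (hY σ⁻¹ L hL.1).mpr
          ⟨fun h1 => absurd h1 hL.2, fun h1 => absurd h1 hσi⟩⟩
    · rw [hσS']
      apply PlE.prod_move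
      · intro L hL
        rw [hmemS'] at hL
        rw [hmemS]
        exact ⟨hst' σ L hL.1, (hY σ L hL.1).mpr
          ⟨fun h1 => absurd h1 hL.2, fun h1 => absurd h1 hσ⟩⟩
      · intro L hL
        rw [hmemS] at hL
        rw [hmemS']
        exact ⟨hst' σ⁻¹ L hL.1, fun h1 => hσi (((hY σ⁻¹ L hL.1).mp h1).mp hL.2)⟩
  -- descent to `ℚ_p`
  have hfix : ∀ x : PadicAlgCl p, (∀ σ : GP p, σ x = x) →
      ∃ a : ℚ_[p], algebraMap ℚ_[p] (PadicAlgCl p) a = x := by
    intro x hx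
    have h1 := (InfiniteGalois.mem_range_algebraMap_iff_fixed
      (k := ℚ_[p]) (K := PadicAlgCl p) x).mpr hx
    exact h1
  obtain ⟨a, ha⟩ := hfix (A + B) (by
    intro σ
    by_cases hσ : σ ∈ H
    · rw [map_add, (hin σ hσ).1, (hin σ hσ).2]
    · rw [map_add, (hout σ hσ).1, (hout σ hσ).2, add_comm])
  obtain ⟨b, hb⟩ := hfix ((A - B) / dl p) (by
    intro σ
    by_cases hσ : σ ∈ H
    · rw [map_div₀, map_sub, (hin σ hσ).1, (hin σ hσ).2, (hmemH σ).mp hσ]
    · rw [map_div₀, map_sub, (hout σ hσ).1, (hout σ hσ).2, (hnotH σ).mp hσ, div_neg,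
        ← neg_div, neg_sub])
  refine ⟨a / 2, b / 2, ?_⟩
  rw [hprod]
  have hb' : A - B = algebraMap ℚ_[p] (PadicAlgCl p) b * dl p := by
    rw [hb]
    field_simp
  simp only [map_add, map_mul, map_pow, map_div₀, map_ofNat]
  have h4 : (4 : PadicAlgCl p) ≠ 0 := by norm_num
  have h5 : 4 * (A * B) = (algebraMap ℚ_[p] (PadicAlgCl p) a) ^ 2 +
      3 * (algebraMap ℚ_[p] (PadicAlgCl p) b) ^ 2 := by
    rw [ha]
    have h6 : (A - B) ^ 2 = -3 * (algebraMap ℚ_[p] (PadicAlgCl p) b) ^ 2 := by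
      rw [hb', mul_pow, hδ]
      ring
    linear_combination (-1 : PadicAlgCl p) * h6
  apply mul_left_cancel₀ h4
  rw [h5]
  ring

end LT
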