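import Pool.Agent.Lib_MP_f1937f_nt.PlE

/-!
# MP_f1937f_nt: the place of the algebraic closure of `ℚ_p` and the Galois action (shared by the
layers GAL and VRED)

`PlA.lean`: the residue field; `PlB.lean`: the Galois action on it; `PlC.lean`: the square root of `-3`; `PlD.lean`: Galois
equivariance of Velu's quantities; `PlE.lean`: the norm lemma.
-/
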