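import Pool.Agent.Lib_MP_f1937f_nt.SHomo
import Pool.Agent.Lib_MP_f1937f_nt.CThB

/-!
# MP_f1937f_nt: complex conjugation on `E₀` and its subgroups (piece SCJ)
-/

namespace LT.Sgn

open Polynomial WeierstrassCurve PeriodPair

namespace SCj

theorem cj_inj : Function.Injective cj := mapPt_injective _ _ _

theorem xc_cj (P : Pt (0 : ℂ) (-31 / 4)) : xc (cj P) = starRingEnd ℂ (xc P) :=
  xc_mapPt _ _ _ P

theorem yc_cj (P : Pt (0 : ℂ) (-31 / 4)) : yc (cj P) = starRingEnd ℂ (yc P) :=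
  yc_mapPt _ _ _ P

theorem cj_ne {P : Pt (0 : ℂ) (-31 / 4)} (h : P ≠ 0) : cj P ≠ 0 := by
  intro h0
  exact h (cj_inj (h0.trans (map_zero cj).symm))

end SCj

theorem cj_cj (P : Pt (0 : ℂ) (-31 / 4)) : cj (cj P) = P := by
  by_cases h : P = 0
  · rw [h, map_zero, map_zero]
  · apply pt_ext (SCj.cj_ne (SCj.cj_ne h)) h
    · rw [SCj.xc_cj, SCj.xc_cj, Complex.conj_conj]
    · rw [SCj.yc_cj, SCj.yc_cj, Complex.conj_conj]

/-- The uniformisation commutes with complex conjugation. -/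
theorem th_conj {Λ : PeriodPair} {θ : ℂ →+ Pt (0 : ℂ) (-31 / 4)} (hθ : IsTh Λ θ)
    (h : ∀ z : ℂ, starRingEnd ℂ z ∈ Λ.lattice ↔ z ∈ Λ.lattice) (z : ℂ) :
    θ (starRingEnd ℂ z) = cj (θ z) := by
  obtain ⟨_, _, _, hp, hp'⟩ := g_conj h
  by_cases hz : z ∈ Λ.lattice
  · rw [hθ.1 z hz, hθ.1 _ ((h z).mpr hz), map_zero]
  · have hz' : starRingEnd ℂ z ∉ Λ.lattice := fun h' => hz ((h z).mp h')
    obtain ⟨h1, e1⟩ := hθ.2 z hz
    obtain ⟨h2, e2⟩ := hθ.2 _ hz'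
    have n1 : θ z ≠ 0 := by
      rw [e1]; rintro ⟨⟩
    have n2 : θ (starRingEnd ℂ z) ≠ 0 := by
      rw [e2]; rintro ⟨⟩
    apply pt_ext n2 (SCj.cj_ne n1)
    · rw [SCj.xc_cj, e1, e2]
      exact hp z
    · rw [SCj.yc_cj, e1, e2]
      change ℘'[Λ] (starRingEnd ℂ z) / 2 = starRingEnd ℂ (℘'[Λ] z / 2)
      rw [hp', map_div₀, Complex.conj_ofNat]

theorem map_cj_cj (L : AddSubgroup (Pt (0 : ℂ) (-31 / 4))) :
    (L.map cj).map cj = L := by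
  ext P
  constructor
  · rintro ⟨Q, ⟨R, hR, rfl⟩, rfl⟩
    rw [cj_cj]
    exact hR
  · intro hP
    exact ⟨cj P, ⟨P, hP, rfl⟩, cj_cj P⟩

theorem map_cj_cyc {n : ℕ} {L : AddSubgroup (Pt (0 : ℂ) (-31 / 4))}
    (hL : L ∈ CycL (0 : ℂ) (-31 / 4) n) : L.map cj ∈ CycL (0 : ℂ) (-31 / 4) n := by
  obtain ⟨T, hT, rfl⟩ := hL
  refine ⟨cj T, ?_, ?_⟩
  · rw [← hT]
    exact addOrderOf_injective cj SCj.cj_inj T
  · exact AddMonoidHom.map_zmultiples cj T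

namespace SCj

theorem set_eq (L : AddSubgroup (Pt (0 : ℂ) (-31 / 4))) :
    {P : Pt (0 : ℂ) (-31 / 4) | P ∈ L.map cj ∧ P ≠ 0} =
      cj '' {P : Pt (0 : ℂ) (-31 / 4) | P ∈ L ∧ P ≠ 0} := by
  ext P
  constructor
  · rintro ⟨⟨Q, hQ, rfl⟩, hne⟩
    refine ⟨Q, ⟨hQ, ?_⟩, rfl⟩
    rintro rfl
    exact hne (map_zero cj)
  · rintro ⟨Q, ⟨hQ, hne⟩, rfl⟩
    exact ⟨⟨Q, hQ, rfl⟩, cj_ne hne⟩

theorem sum_eq {L : AddSubgroup (Pt (0 : ℂ) (-31 / 4))} (hL : Finite L) (F : ℂ → ℂ)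
    (hF : ∀ x, F (starRingEnd ℂ x) = starRingEnd ℂ (F x)) :
    ∑ᶠ P ∈ {P : Pt (0 : ℂ) (-31 / 4) | P ∈ L.map cj ∧ P ≠ 0}, F (xc P) =
      starRingEnd ℂ (∑ᶠ P ∈ {P : Pt (0 : ℂ) (-31 / 4) | P ∈ L ∧ P ≠ 0}, F (xc P)) := by
  have hfin : {P : Pt (0 : ℂ) (-31 / 4) | P ∈ L ∧ P ≠ 0}.Finite := by
    have h1 : (L : Set (Pt (0 : ℂ) (-31 / 4))).Finite := Set.toFinite _
    exact h1.subset fun P hP => hP.1
  rw [set_eq, finsum_mem_image cj_inj.injOn]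
  have := AddMonoidHom.map_finsum_mem (f := fun P : Pt (0 : ℂ) (-31 / 4) => F (xc P))
    (starRingEnd ℂ : ℂ →+* ℂ).toAddMonoidHom hfin
  change starRingEnd ℂ (∑ᶠ P ∈ {P : Pt (0 : ℂ) (-31 / 4) | P ∈ L ∧ P ≠ 0}, F (xc P)) = _ at this
  rw [this]
  apply finsum_mem_congr rfl
  intro P _
  change F (xc (cj P)) = starRingEnd ℂ (F (xc P))
  rw [xc_cj, hF]

end SCj

/-- Velu's coefficients of the conjugate subgroup: reindex the sums by `cj`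
(`finsum_mem_image` or `finsum_mem_eq_of_bijOn`), `xc (cj P) = conj (xc P)` by `xc_mapPt`. -/
theorem jL_cj {L : AddSubgroup (Pt (0 : ℂ) (-31 / 4))} (hL : Finite L) :
    jL 0 (-31 / 4) (L.map cj) = starRingEnd ℂ (jL 0 (-31 / 4) L) := by
  have hA : vA 0 (-31 / 4) (L.map cj) = starRingEnd ℂ (vA 0 (-31 / 4) L) := by
    unfold vA
    rw [SCj.sum_eq hL (fun x => 3 * x ^ 2 + 0) (fun x => by
      rw [map_add, map_mul, map_pow, map_zero, Complex.conj_ofNat])]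
    rw [map_sub, map_mul, map_zero, Complex.conj_ofNat]
  have hB : vB 0 (-31 / 4) (L.map cj) = starRingEnd ℂ (vB 0 (-31 / 4) L) := by
    unfold vB
    rw [SCj.sum_eq hL (fun x => 5 * x ^ 3 + 3 * 0 * x + 2 * (-31 / 4)) (fun x => by
      rw [map_add, map_add, map_mul, map_mul, map_mul, map_mul, map_pow, map_zero,
        Complex.conj_ofNat, Complex.conj_ofNat, Complex.conj_ofNat, conj_quarter])]
    rw [map_sub, map_mul, conj_quarter, Complex.conj_ofNat]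
  unfold jL jinv dsc
  rw [hA, hB]
  simp only [map_div₀, map_mul, map_add, map_pow, Complex.conj_ofNat]

end LT.Sgn
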