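import Mathlib

/-!
# MP_f1937f_nt: number theory for the classification (piece SNUM)
-/

namespace LT.Sgn

/-- Chinese remainder theorem with a parity condition. `k` with `m₁ ∣ U - k u`, `m₂ ∣ V - k v`, then
`s + t ≡ m₁ s + m₂ t = U + V - k (u + v)` modulo `2`; if `u + v` is odd, replace `k` by `k + m₁ m₂` if
necessary. -/
theorem num_crt {m₁ m₂ : ℕ} (h1 : Odd m₁) (h2 : Odd m₂) (hc : m₁.Coprime m₂) {u v : ℤ}
    (hu : IsCoprime u m₁) (hv : IsCoprime v m₂) (U V : ℤ) :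
    ∃ k s t : ℤ, U = k * u + m₁ * s ∧ V = k * v + m₂ * t ∧
      (Even (u + v) → Even (U + V) → Even (s + t)) ∧ (Odd (u + v) → Even (s + t)) := by
  have h1' : Odd (m₁ : ℤ) := by exact_mod_cast h1
  have h2' : Odd (m₂ : ℤ) := by exact_mod_cast h2
  obtain ⟨a, b, hab⟩ := hu
  obtain ⟨a', b', hab'⟩ := hv
  obtain ⟨e, f, hef⟩ := Nat.isCoprime_iff_coprime.mpr hc
  -- a first solution
  obtain ⟨k, s, t, hU, hV⟩ : ∃ k s t : ℤ, U = k * u + m₁ * s ∧ V = k * v + m₂ * t := by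
    refine ⟨a * U * (f * m₂) + a' * V * (e * m₁), U * b - e * (a' * V - a * U) * u,
      V * b' - f * (a * U - a' * V) * v, ?_, ?_⟩
    · have h3 : f * (m₂ : ℤ) = 1 - e * m₁ := by linarith
      rw [h3]
      linear_combination (-U) * hab
    · have h3 : e * (m₁ : ℤ) = 1 - f * m₂ := by linarith
      rw [h3]
      linear_combination (-V) * hab'
  have key : ∀ k s t : ℤ, U = k * u + m₁ * s → V = k * v + m₂ * t →
      (Even (s + t) ↔ Even (U + V - k * (u + v))) := by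
    intro k s t hU hV
    have h3 : U + V - k * (u + v) = m₁ * s + m₂ * t := by rw [hU, hV]; ring
    rw [h3]
    obtain ⟨x, hx⟩ := h1'
    obtain ⟨y, hy⟩ := h2'
    rw [hx, hy]
    have h4 : (2 * x + 1) * s + (2 * y + 1) * t = 2 * (x * s + y * t) + (s + t) := by ring
    rw [h4]
    constructor
    · intro h
      exact (even_two_mul _).add h
    · intro h
      have h5 := h.sub (even_two_mul (x * s + y * t))
      rwa [add_sub_cancel_left] at h5
  by_cases hodd : Odd (u + v)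
  · by_cases hst : Even (s + t)
    · exact ⟨k, s, t, hU, hV, fun _ _ => hst, fun _ => hst⟩
    · refine ⟨k + m₁ * m₂, s - m₂ * u, t - m₁ * v, by rw [hU]; ring, by rw [hV]; ring, ?_, ?_⟩
      · intro h
        exact absurd h (Int.not_even_iff_odd.mpr hodd)
      · intro _
        rw [Int.not_even_iff_odd] at hst
        obtain ⟨x, hx⟩ := h1'
        obtain ⟨y, hy⟩ := h2'
        obtain ⟨z, hz⟩ := hodd
        obtain ⟨w, hw⟩ := hst
        refine ⟨w - y * u - x * v - z, ?_⟩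
        rw [hx, hy]
        linear_combination hw - hz
  · refine ⟨k, s, t, hU, hV, ?_, fun h => absurd h hodd⟩
    intro he hUV
    rw [key k s t hU hV]
    exact hUV.sub (he.mul_left k)

/-- `m₂ = gcd(m, u)`, `m₁ = gcd(m, v)`: coprime by `hg`; `A = m / m₂` divides `1 - c`, `B = m / m₁` divides
`1 + c`, so they are coprime (`m` odd); `A m₂ = B m₁ = m` gives `A = m₁`. -/
theorem num_split {m : ℕ} (hm : Odd m) {u v c : ℤ} (h1 : (m : ℤ) ∣ u * (1 - c))
    (h2 : (m : ℤ) ∣ v * (1 + c)) (hg : ∀ d : ℕ, d ∣ m → (d : ℤ) ∣ u → (d : ℤ) ∣ v → d = 1) :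
    ∃ m₁ m₂ : ℕ, m₁ * m₂ = m ∧ m₁.Coprime m₂ ∧ ∃ u' v' : ℤ, u = m₂ * u' ∧ v = m₁ * v' ∧
      IsCoprime u' m₁ ∧ IsCoprime v' m₂ := by
  have hm0 : m ≠ 0 := by
    rintro rfl
    exact absurd hm (by decide)
  have hm0' : (m : ℤ) ≠ 0 := by exact_mod_cast hm0
  have hp2 : 0 < Int.gcd m u := Nat.pos_of_ne_zero (by
    rw [Ne, Int.gcd_eq_zero_iff]
    tauto)
  have hp1 : 0 < Int.gcd m v := Nat.pos_of_ne_zero (by
    rw [Ne, Int.gcd_eq_zero_iff]
    tauto)
  obtain ⟨A, u', hAu, hA, hu'⟩ := Int.exists_gcd_one hp2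
  obtain ⟨B, v', hBv, hB, hv'⟩ := Int.exists_gcd_one hp1
  set m₂ := Int.gcd m u with hm₂
  set m₁ := Int.gcd m v with hm₁
  have hm2d : m₂ ∣ m := by
    have := Int.gcd_dvd_left (m : ℤ) u
    exact_mod_cast this
  have hm1d : m₁ ∣ m := by
    have := Int.gcd_dvd_left (m : ℤ) v
    exact_mod_cast this
  have hm2u : (m₂ : ℤ) ∣ u := Int.gcd_dvd_right (m : ℤ) u
  have hm1v : (m₁ : ℤ) ∣ v := Int.gcd_dvd_right (m : ℤ) v
  have hcop : m₁.Coprime m₂ := by
    apply hg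
    · exact (Nat.gcd_dvd_left m₁ m₂).trans hm1d
    · exact (Int.natCast_dvd_natCast.mpr (Nat.gcd_dvd_right m₁ m₂)).trans hm2u
    · exact (Int.natCast_dvd_natCast.mpr (Nat.gcd_dvd_left m₁ m₂)).trans hm1v
  have hcop' : IsCoprime (m₁ : ℤ) (m₂ : ℤ) := Nat.isCoprime_iff_coprime.mpr hcop
  have hAc : A ∣ 1 - c := by
    have h3 : A * m₂ ∣ u' * m₂ * (1 - c) := by rw [← hA, ← hu']; exact h1
    have h4 : A ∣ u' * (1 - c) := by
      have h5 : u' * m₂ * (1 - c) = u' * (1 - c) * m₂ := by ring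
      rw [h5] at h3
      exact Int.dvd_of_mul_dvd_mul_right (by exact_mod_cast hp2.ne') h3
    exact (Int.isCoprime_iff_gcd_eq_one.mpr hAu).dvd_of_dvd_mul_left h4
  have hBc : B ∣ 1 + c := by
    have h3 : B * m₁ ∣ v' * m₁ * (1 + c) := by rw [← hB, ← hv']; exact h2
    have h4 : B ∣ v' * (1 + c) := by
      have h5 : v' * m₁ * (1 + c) = v' * (1 + c) * m₁ := by ring
      rw [h5] at h3
      exact Int.dvd_of_mul_dvd_mul_right (by exact_mod_cast hp1.ne') h3
    exact (Int.isCoprime_iff_gcd_eq_one.mpr hBv).dvd_of_dvd_mul_left h4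
  have hAodd : IsCoprime A 2 := by
    have h3 : Odd A := by
      have h4 : Odd (A * m₂) := by rw [← hA]; exact_mod_cast hm
      exact (Int.odd_mul.mp h4).1
    obtain ⟨x, hx⟩ := h3
    exact ⟨1, -x, by rw [hx]; ring⟩
  have hABcop : IsCoprime A B := by
    obtain ⟨x, y, hxy⟩ := hAodd
    obtain ⟨z, hz⟩ := hAc
    obtain ⟨w, hw⟩ := hBc
    refine ⟨x + y * z, y * w, ?_⟩
    linear_combination hxy - y * hz - y * hw
  have hAm : A = m₁ := by
    have h3 : A * m₂ = B * m₁ := by rw [← hA, ← hB]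
    have h4 : A ∣ m₁ := hABcop.dvd_of_dvd_mul_left (by rw [← h3]; exact Dvd.intro _ rfl)
    have h5 : (m₁ : ℤ) ∣ A := hcop'.dvd_of_dvd_mul_right (by rw [h3]; exact Dvd.intro_left _ rfl)
    have h6 : 0 ≤ A := by
      by_contra hneg
      push Not at hneg
      have h7 : A * m₂ < 0 := mul_neg_of_neg_of_pos hneg (by exact_mod_cast hp2)
      rw [← hA] at h7
      have h8 : (0 : ℤ) ≤ (m : ℤ) := by positivity
      linarith
    exact Int.dvd_antisymm h6 (by positivity) h4 h5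
  have hBm : B = m₂ := by
    have h3 : (m₁ : ℤ) * m₂ = B * m₁ := by rw [← hAm, ← hA, hAm, ← hB]
    have h4 : (m₁ : ℤ) ≠ 0 := by exact_mod_cast hp1.ne'
    have h5 : (m₂ : ℤ) * m₁ = B * m₁ := by rw [← h3]; ring
    exact (mul_right_cancel₀ h4 h5).symm
  refine ⟨m₁, m₂, ?_, hcop, u', v', by rw [mul_comm]; exact hu', by rw [mul_comm]; exact hv', ?_, ?_⟩
  · have : (m₁ : ℤ) * m₂ = m := by rw [← hAm]; exact hA.symm
    exact_mod_cast this
  · rw [← hAm]
    exact (Int.isCoprime_iff_gcd_eq_one.mpr hAu).symm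
  · rw [← hBm]
    exact (Int.isCoprime_iff_gcd_eq_one.mpr hBv).symm

end LT.Sgn
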