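import Pool.Agent.Lib_MP_f1937f_nt.SCj
import Pool.Agent.Lib_MP_f1937f_nt.SNum

/-!
# MP_f1937f_nt: the real cyclic subgroups, existence (piece SCLSA)
-/

namespace LT.Sgn

open Polynomial WeierstrassCurve PeriodPair

variable {Λ : PeriodPair} {θ : ℂ →+ Pt (0 : ℂ) (-31 / 4)} {α β : ℝ}

namespace SClsA

/-- the point with coordinates `x`, `y` -/
noncomputable def pt (α β x y : ℝ) : ℂ := ((α * x : ℝ) + (β * y : ℝ) * Complex.I) / 2

theorem pt_re (α β x y : ℝ) : (pt α β x y).re = α * x / 2 := by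
  unfold pt
  rw [show ((((α * x : ℝ) : ℂ) + ((β * y : ℝ) : ℂ) * Complex.I) / 2) =
    ((α * x / 2 : ℝ) : ℂ) + ((β * y / 2 : ℝ) : ℂ) * Complex.I by push_cast; ring]
  simp

theorem pt_im (α β x y : ℝ) : (pt α β x y).im = β * y / 2 := by
  unfold pt
  rw [show ((((α * x : ℝ) : ℂ) + ((β * y : ℝ) : ℂ) * Complex.I) / 2) =
    ((α * x / 2 : ℝ) : ℂ) + ((β * y / 2 : ℝ) : ℂ) * Complex.I by push_cast; ring]
  simp

theorem pt_inj (hα : 0 < α) (hβ : 0 < β) {x y x' y' : ℝ} (h : pt α β x y = pt α β x' y') :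
    x = x' ∧ y = y' := by
  have h1 := congrArg Complex.re h
  have h2 := congrArg Complex.im h
  rw [pt_re, pt_re] at h1
  rw [pt_im, pt_im] at h2
  constructor
  · have h3 : α * x = α * x' := by linarith
    exact mul_left_cancel₀ hα.ne' h3
  · have h3 : β * y = β * y' := by linarith
    exact mul_left_cancel₀ hβ.ne' h3

theorem pt_add (α β x y x' y' : ℝ) :
    pt α β x y + pt α β x' y' = pt α β (x + x') (y + y') := by
  unfold pt
  push_cast
  ring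

theorem pt_sub (α β x y x' y' : ℝ) :
    pt α β x y - pt α β x' y' = pt α β (x - x') (y - y') := by
  unfold pt
  push_cast
  ring

theorem pt_zsmul (α β x y : ℝ) (k : ℤ) : k • pt α β x y = pt α β (k * x) (k * y) := by
  unfold pt
  rw [zsmul_eq_mul]
  push_cast
  ring

theorem mem_CL_self {z : ℂ} : z ∈ CL α β ↔ ∃ s t : ℤ, Even (s + t) ∧ z = pt α β s t := Iff.rfl

theorem pt_mem (hα : 0 < α) (hβ : 0 < β) {x y : ℝ} :
    pt α β x y ∈ CL α β ↔ ∃ s t : ℤ, Even (s + t) ∧ x = s ∧ y = t := by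
  rw [mem_CL_self]
  constructor
  · rintro ⟨s, t, h1, h2⟩
    exact ⟨s, t, h1, pt_inj hα hβ h2⟩
  · rintro ⟨s, t, h1, rfl, rfl⟩
    exact ⟨s, t, h1, rfl⟩

theorem th_zero (hθ : IsTh Λ θ) (h : ∀ z : ℂ, z ∈ Λ.lattice ↔ z ∈ CL α β) (z : ℂ) :
    θ z = 0 ↔ z ∈ CL α β := by
  rw [← h z]
  constructor
  · intro h0
    by_contra hz
    obtain ⟨h1, h2⟩ := hθ.2 z hz
    rw [h0] at h2
    exact absurd h2 (by rintro ⟨⟩)
  · exact hθ.1 z

/-- when `k w` is a period -/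
theorem ker_iff (hθ : IsTh Λ θ) (hα : 0 < α) (hβ : 0 < β)
    (h : ∀ z : ℂ, z ∈ Λ.lattice ↔ z ∈ CL α β) {m₁ m₂ : ℕ} (h1 : 0 < m₁) (h2 : 0 < m₂) (u v : ℤ)
    (k : ℤ) : k • θ (pt α β (u / m₁) (v / m₂)) = 0 ↔
      ∃ s t : ℤ, Even (s + t) ∧ k * u = m₁ * s ∧ k * v = m₂ * t := by
  have h1' : (m₁ : ℝ) ≠ 0 := by positivity
  have h2' : (m₂ : ℝ) ≠ 0 := by positivity
  rw [← map_zsmul, th_zero hθ h, pt_zsmul, pt_mem hα hβ]
  constructor
  · rintro ⟨s, t, h3, h4, h5⟩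
    refine ⟨s, t, h3, ?_, ?_⟩
    · have h6 : (k : ℝ) * u = m₁ * s := by
        rw [← h4]
        field_simp
      exact_mod_cast h6
    · have h6 : (k : ℝ) * v = m₂ * t := by
        rw [← h5]
        field_simp
      exact_mod_cast h6
  · rintro ⟨s, t, h3, h4, h5⟩
    have h4' : (k : ℝ) * u = m₁ * s := by exact_mod_cast h4
    have h5' : (k : ℝ) * v = m₂ * t := by exact_mod_cast h5
    refine ⟨s, t, h3, ?_, ?_⟩
    · rw [← mul_div_assoc, h4']
      field_simp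
    · rw [← mul_div_assoc, h5']
      field_simp

theorem dvd_of_ker {m₁ m₂ : ℕ} (hc : m₁.Coprime m₂) {u v : ℤ} (hu : IsCoprime u m₁)
    (hv : IsCoprime v m₂) {k s t : ℤ} (h1 : k * u = m₁ * s) (h2 : k * v = m₂ * t) :
    ((m₁ * m₂ : ℕ) : ℤ) ∣ k := by
  have h3 : (m₁ : ℤ) ∣ k := hu.symm.dvd_of_dvd_mul_right (Dvd.intro _ h1.symm)
  have h4 : (m₂ : ℤ) ∣ k := hv.symm.dvd_of_dvd_mul_right (Dvd.intro _ h2.symm)
  push_cast
  exact (Nat.isCoprime_iff_coprime.mpr hc).mul_dvd h3 h4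

/-- membership in the multiples of `θ w` -/
theorem mem_mult (hθ : IsTh Λ θ) (h : ∀ z : ℂ, z ∈ Λ.lattice ↔ z ∈ CL α β) (w z : ℂ) :
    θ z ∈ AddSubgroup.zmultiples (θ w) ↔ ∃ k s t : ℤ, Even (s + t) ∧ z = k • w + pt α β s t := by
  rw [AddSubgroup.mem_zmultiples_iff]
  constructor
  · rintro ⟨k, hk⟩
    have h1 : θ (z - k • w) = 0 := by rw [map_sub, map_zsmul, hk, sub_self]
    rw [th_zero hθ h] at h1
    obtain ⟨s, t, h2, h3⟩ := h1
    exact ⟨k, s, t, h2, by rw [← sub_eq_iff_eq_add']; exact h3⟩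
  · rintro ⟨k, s, t, h2, h3⟩
    refine ⟨k, ?_⟩
    have h4 : θ (pt α β s t) = 0 := (th_zero hθ h _).mpr ⟨s, t, h2, rfl⟩
    rw [h3, map_add, h4, add_zero, map_zsmul]

end SClsA

open SClsA

/-- The cyclic subgroup of order `m₁ m₂` generated by `θ w`, `w = (α u / m₁ + i β v / m₂) / 2` with `u + v`
even, `u` prime to `m₁`, `v` prime to `m₂`: its inverse image is `CL (α/m₁) (β/m₂)`.
Proof: `k w ∈ CL α β` iff `m₁ ∣ k u`, `m₂ ∣ k v` (and the parity condition, automatic as `m₁, m₂` are odd)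
iff `m₁ m₂ ∣ k`; `z ∈ CL (α/m₁) (β/m₂)` iff `z - k w ∈ CL α β` for some `k` by `num_crt`. -/
theorem clsA_one (hθ : IsTh Λ θ) (hα : 0 < α) (hβ : 0 < β)
    (h : ∀ z : ℂ, z ∈ Λ.lattice ↔ z ∈ CL α β) {m₁ m₂ : ℕ} (h1 : Odd m₁) (h2 : Odd m₂)
    (hc : m₁.Coprime m₂) {u v : ℤ} (hu : IsCoprime u m₁) (hv : IsCoprime v m₂) (huv : Even (u + v)) :
    addOrderOf (θ (((α * (u / m₁) : ℝ) + (β * (v / m₂) : ℝ) * Complex.I) / 2)) = m₁ * m₂ ∧
      ∀ z : ℂ, θ z ∈ AddSubgroup.zmultiples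
        (θ (((α * (u / m₁) : ℝ) + (β * (v / m₂) : ℝ) * Complex.I) / 2)) ↔
          z ∈ CL (α / m₁) (β / m₂) := by
  have hm1 : 0 < m₁ := h1.pos
  have hm2 : 0 < m₂ := h2.pos
  have h1' : (m₁ : ℝ) ≠ 0 := by positivity
  have h2' : (m₂ : ℝ) ≠ 0 := by positivity
  change addOrderOf (θ (pt α β (u / m₁) (v / m₂))) = m₁ * m₂ ∧
      ∀ z : ℂ, θ z ∈ AddSubgroup.zmultiples (θ (pt α β (u / m₁) (v / m₂))) ↔
          z ∈ CL (α / m₁) (β / m₂)
  constructor
  · apply Nat.dvd_antisymm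
    · apply addOrderOf_dvd_of_nsmul_eq_zero
      rw [← natCast_zsmul, ker_iff hθ hα hβ h hm1 hm2]
      refine ⟨m₂ * u, m₁ * v, ?_, by push_cast; ring, by push_cast; ring⟩
      obtain ⟨x, hx⟩ := h1
      obtain ⟨y, hy⟩ := h2
      obtain ⟨z, hz⟩ := huv
      refine ⟨y * u + x * v + z, ?_⟩
      rw [hx, hy]
      push_cast
      linear_combination hz
    · have h3 : (addOrderOf (θ (pt α β (u / m₁) (v / m₂))) : ℤ) •
          θ (pt α β (u / m₁) (v / m₂)) = 0 := by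
        rw [natCast_zsmul, addOrderOf_nsmul_eq_zero]
      rw [ker_iff hθ hα hβ h hm1 hm2] at h3
      obtain ⟨s, t, -, h4, h5⟩ := h3
      have h6 := dvd_of_ker hc hu hv h4 h5
      exact_mod_cast h6
  · intro z
    rw [mem_mult hθ h]
    constructor
    · rintro ⟨k, s, t, h3, rfl⟩
      refine ⟨k * u + m₁ * s, k * v + m₂ * t, ?_, ?_⟩
      · obtain ⟨x, hx⟩ := h1
        obtain ⟨y, hy⟩ := h2
        obtain ⟨z, hz⟩ := huv
        obtain ⟨w, hw⟩ := h3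
        refine ⟨k * z + x * s + y * t + w, ?_⟩
        rw [hx, hy]
        push_cast
        linear_combination k * hz + hw
      · rw [pt_zsmul, pt_add]
        unfold pt
        push_cast
        have h1'' : (m₁ : ℂ) ≠ 0 := by exact_mod_cast hm1.ne'
        have h2'' : (m₂ : ℂ) ≠ 0 := by exact_mod_cast hm2.ne'
        field_simp
    · rintro ⟨U, V, h3, rfl⟩
      obtain ⟨k, s, t, hU, hV, h4, -⟩ := num_crt h1 h2 hc hu hv U V
      refine ⟨k, s, t, h4 huv h3, ?_⟩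
      rw [pt_zsmul, pt_add, hU, hV]
      unfold pt
      push_cast
      have h1'' : (m₁ : ℂ) ≠ 0 := by exact_mod_cast hm1.ne'
      have h2'' : (m₂ : ℂ) ≠ 0 := by exact_mod_cast hm2.ne'
      field_simp

/-- The same with `u + v` odd: order `2 m₁ m₂`, and the inverse image is `RR (α/(2 m₁)) (β/(2 m₂))`. -/
theorem clsA_two (hθ : IsTh Λ θ) (hα : 0 < α) (hβ : 0 < β)
    (h : ∀ z : ℂ, z ∈ Λ.lattice ↔ z ∈ CL α β) {m₁ m₂ : ℕ} (h1 : Odd m₁) (h2 : Odd m₂)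
    (hc : m₁.Coprime m₂) {u v : ℤ} (hu : IsCoprime u m₁) (hv : IsCoprime v m₂) (huv : Odd (u + v)) :
    addOrderOf (θ (((α * (u / m₁) : ℝ) + (β * (v / m₂) : ℝ) * Complex.I) / 2)) = 2 * (m₁ * m₂) ∧
      ∀ z : ℂ, θ z ∈ AddSubgroup.zmultiples
        (θ (((α * (u / m₁) : ℝ) + (β * (v / m₂) : ℝ) * Complex.I) / 2)) ↔
          z ∈ RR (α / (2 * m₁)) (β / (2 * m₂)) := by
  have hm1 : 0 < m₁ := h1.pos
  have hm2 : 0 < m₂ := h2.pos
  have h1' : (m₁ : ℝ) ≠ 0 := by positivity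
  have h2' : (m₂ : ℝ) ≠ 0 := by positivity
  have h1'' : (m₁ : ℂ) ≠ 0 := by exact_mod_cast hm1.ne'
  have h2'' : (m₂ : ℂ) ≠ 0 := by exact_mod_cast hm2.ne'
  change addOrderOf (θ (pt α β (u / m₁) (v / m₂))) = 2 * (m₁ * m₂) ∧
      ∀ z : ℂ, θ z ∈ AddSubgroup.zmultiples (θ (pt α β (u / m₁) (v / m₂))) ↔
          z ∈ RR (α / (2 * m₁)) (β / (2 * m₂))
  constructor
  · apply Nat.dvd_antisymm
    · apply addOrderOf_dvd_of_nsmul_eq_zero
      rw [← natCast_zsmul, ker_iff hθ hα hβ h hm1 hm2]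
      refine ⟨2 * (m₂ * u), 2 * (m₁ * v), ?_, by push_cast; ring, by push_cast; ring⟩
      exact (even_two_mul _).add (even_two_mul _)
    · have h3 : (addOrderOf (θ (pt α β (u / m₁) (v / m₂))) : ℤ) •
          θ (pt α β (u / m₁) (v / m₂)) = 0 := by
        rw [natCast_zsmul, addOrderOf_nsmul_eq_zero]
      rw [ker_iff hθ hα hβ h hm1 hm2] at h3
      obtain ⟨s, t, h7, h4, h5⟩ := h3
      obtain ⟨k, hk⟩ := dvd_of_ker hc hu hv h4 h5
      rw [hk] at h4 h5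
      push_cast at h4 h5
      have e1 : s = m₂ * k * u := by
        have : (m₁ : ℤ) ≠ 0 := by exact_mod_cast hm1.ne'
        apply mul_left_cancel₀ this
        rw [← h4]
        ring
      have e2 : t = m₁ * k * v := by
        have : (m₂ : ℤ) ≠ 0 := by exact_mod_cast hm2.ne'
        apply mul_left_cancel₀ this
        rw [← h5]
        ring
      have hke : Even k := by
        by_contra hko
        rw [Int.not_even_iff_odd] at hko
        obtain ⟨x, hx⟩ := h1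
        obtain ⟨y, hy⟩ := h2
        obtain ⟨z, hz⟩ := huv
        obtain ⟨w, hw⟩ := hko
        rw [e1, e2, hx, hy, hw] at h7
        obtain ⟨r, hr⟩ := h7
        push_cast at hr
        have : (2 : ℤ) ∣ 1 := ⟨r - (2 * y * w + y) * u - (2 * x * w + x) * v - w * (u + v) - z, by
          linear_combination hr - hz⟩
        omega
      obtain ⟨r, hr⟩ := hke
      have h8 : ((2 * (m₁ * m₂) : ℕ) : ℤ) ∣ (addOrderOf (θ (pt α β (u / m₁) (v / m₂))) : ℤ) := by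
        rw [hk, hr]
        exact ⟨r, by push_cast; ring⟩
      exact_mod_cast h8
  · intro z
    rw [mem_mult hθ h]
    constructor
    · rintro ⟨k, s, t, h3, rfl⟩
      refine ⟨k * u + m₁ * s, k * v + m₂ * t, ?_⟩
      rw [pt_zsmul, pt_add]
      unfold pt
      push_cast
      field_simp
    · rintro ⟨U, V, rfl⟩
      obtain ⟨k, s, t, hU, hV, -, h4⟩ := num_crt h1 h2 hc hu hv U V
      refine ⟨k, s, t, h4 huv, ?_⟩
      rw [pt_zsmul, pt_add, hU, hV]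
      unfold pt
      push_cast
      field_simp

end LT.Sgn
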