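import Pool.Agent.Lib_MP_f1937f_nt.SClsA

/-!
# MP_f1937f_nt: the real cyclic subgroups, classification (piece SCLSB)
-/

namespace LT.Sgn

open Polynomial WeierstrassCurve PeriodPair

variable {Λ : PeriodPair} {θ : ℂ →+ Pt (0 : ℂ) (-31 / 4)} {α β : ℝ}

namespace SClsB

theorem coord {x y : ℝ} (hα : 0 < α) (hβ : 0 < β)
    (hz : (((α * x : ℝ) + (β * y : ℝ) * Complex.I) / 2 : ℂ) ∈ CL α β) :
    ∃ u v : ℤ, Even (u + v) ∧ x = u ∧ y = v := by
  obtain ⟨u, v, huv, h⟩ := hz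
  have h' : ((α * x : ℝ) + (β * y : ℝ) * Complex.I : ℂ) =
      (α * u : ℝ) + (β * v : ℝ) * Complex.I := by
    linear_combination 2 * h
  have hre := congrArg Complex.re h'
  have him := congrArg Complex.im h'
  simp only [Complex.add_re, Complex.ofReal_re, Complex.mul_re, Complex.I_re, mul_zero,
    Complex.ofReal_im, Complex.I_im, mul_one, sub_self, add_zero, Complex.add_im,
    Complex.mul_im, zero_add] at hre him
  exact ⟨u, v, huv, mul_left_cancel₀ hα.ne' hre, mul_left_cancel₀ hβ.ne' him⟩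

theorem conj_mem (z : ℂ) : starRingEnd ℂ z ∈ CL α β ↔ z ∈ CL α β := by
  have key : ∀ z : ℂ, z ∈ CL α β → starRingEnd ℂ z ∈ CL α β := by
    rintro z ⟨u, v, huv, rfl⟩
    refine ⟨u, -v, ?_, ?_⟩
    · rw [Int.even_add] at huv ⊢
      rw [huv, even_neg]
    · rw [map_div₀, map_add, map_mul, Complex.conj_ofReal, Complex.conj_ofReal, Complex.conj_I,
        Complex.conj_ofNat]
      push_cast
      ring
  refine ⟨fun h => ?_, key z⟩
  have := key _ h
  rwa [Complex.conj_conj] at this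

theorem conj_form (x y : ℝ) : starRingEnd ℂ (((α * x : ℝ) + (β * y : ℝ) * Complex.I) / 2 : ℂ) =
    ((α * x : ℝ) + (β * (-y) : ℝ) * Complex.I) / 2 := by
  rw [map_div₀, map_add, map_mul, Complex.conj_ofReal, Complex.conj_ofReal, Complex.conj_I,
    Complex.conj_ofNat]
  push_cast
  ring

theorem mul_form (k : ℤ) (x y : ℝ) : (k : ℂ) * (((α * x : ℝ) + (β * y : ℝ) * Complex.I) / 2 : ℂ) =
    ((α * (k * x) : ℝ) + (β * (k * y) : ℝ) * Complex.I) / 2 := by
  push_cast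
  ring

theorem sub_form (x y x' y' : ℝ) : (((α * x : ℝ) + (β * y : ℝ) * Complex.I) / 2 : ℂ) -
    ((α * x' : ℝ) + (β * y' : ℝ) * Complex.I) / 2 =
    ((α * (x - x') : ℝ) + (β * (y - y') : ℝ) * Complex.I) / 2 := by
  push_cast
  ring

/-- The coordinates of a generator. -/
theorem gen (hθ : IsTh Λ θ) (h : ∀ z : ℂ, z ∈ Λ.lattice ↔ z ∈ CL α β) {n : ℕ} (hn : 0 < n)
    {L : AddSubgroup (Pt (0 : ℂ) (-31 / 4))} (hL : L ∈ CycL (0 : ℂ) (-31 / 4) n)
    (hcj : L.map cj = L) :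
    ∃ u v c : ℤ, Even (u + v) ∧
      L = AddSubgroup.zmultiples (θ (((α * (u / n) : ℝ) + (β * (v / n) : ℝ) * Complex.I) / 2)) ∧
      addOrderOf (θ (((α * (u / n) : ℝ) + (β * (v / n) : ℝ) * Complex.I) / 2)) = n ∧
      c • θ (((α * (u / n) : ℝ) + (β * (v / n) : ℝ) * Complex.I) / 2) =
        cj (θ (((α * (u / n) : ℝ) + (β * (v / n) : ℝ) * Complex.I) / 2)) := by
  obtain ⟨T, hT, rfl⟩ := hL
  obtain ⟨w, rfl⟩ := hθ.surj T
  have h0 : n • θ w = 0 := by
    rw [← hT]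
    exact addOrderOf_nsmul_eq_zero _
  rw [← map_nsmul, hθ.ker, h, nsmul_eq_mul] at h0
  obtain ⟨u, v, huv, hw⟩ := h0
  have hn' : (n : ℂ) ≠ 0 := by exact_mod_cast hn.ne'
  have hw' : w = ((α * (u / n) : ℝ) + (β * (v / n) : ℝ) * Complex.I) / 2 := by
    push_cast at hw ⊢
    field_simp
    field_simp at hw
    linear_combination hw
  have hc : cj (θ w) ∈ AddSubgroup.zmultiples (θ w) := by
    rw [← hcj]
    exact AddSubgroup.mem_map_of_mem _ (AddSubgroup.mem_zmultiples _)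
  obtain ⟨c, hc⟩ := AddSubgroup.mem_zmultiples_iff.1 hc
  refine ⟨u, v, c, huv, ?_, ?_, ?_⟩
  · rw [← hw']
  · rw [← hw']
    exact hT
  · rw [← hw']
    exact hc

theorem conj_rel (hθ : IsTh Λ θ) (hα : 0 < α) (hβ : 0 < β)
    (h : ∀ z : ℂ, z ∈ Λ.lattice ↔ z ∈ CL α β) {x y : ℝ} {c : ℤ}
    (hc : c • θ (((α * x : ℝ) + (β * y : ℝ) * Complex.I) / 2) =
        cj (θ (((α * x : ℝ) + (β * y : ℝ) * Complex.I) / 2))) :
    ∃ s t : ℤ, Even (s + t) ∧ x * (1 - c) = s ∧ y * (1 + c) = t := by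
  rw [← th_conj hθ (fun z => by rw [h, h, conj_mem]), ← map_zsmul, eq_comm, ← sub_eq_zero,
    ← map_sub, hθ.ker, h, conj_form, zsmul_eq_mul, mul_form, sub_form] at hc
  obtain ⟨s, t, hst, h1, h2⟩ := coord hα hβ hc
  refine ⟨s, -t, ?_, ?_, ?_⟩
  · rw [Int.even_add] at hst ⊢
    rw [hst, even_neg]
  · rw [← h1]
    ring
  · push_cast
    rw [← h2]
    ring

theorem smul_zero_of (hθ : IsTh Λ θ) 
    (h : ∀ z : ℂ, z ∈ Λ.lattice ↔ z ∈ CL α β) {x y : ℝ} {k : ℤ} {s t : ℤ} (hst : Even (s + t))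
    (h1 : k * x = s) (h2 : k * y = t) :
    k • θ (((α * x : ℝ) + (β * y : ℝ) * Complex.I) / 2) = 0 := by
  rw [← map_zsmul, hθ.ker, h, zsmul_eq_mul, mul_form]
  exact ⟨s, t, hst, by rw [h1, h2]⟩

theorem of_smul_zero (hθ : IsTh Λ θ) (hα : 0 < α) (hβ : 0 < β)
    (h : ∀ z : ℂ, z ∈ Λ.lattice ↔ z ∈ CL α β) {x y : ℝ} {k : ℤ}
    (hk : k • θ (((α * x : ℝ) + (β * y : ℝ) * Complex.I) / 2) = 0) :
    ∃ s t : ℤ, Even (s + t) ∧ k * x = s ∧ k * y = t := by
  rw [← map_zsmul, hθ.ker, h, zsmul_eq_mul, mul_form] at hk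
  exact coord hα hβ hk

end SClsB

open SClsB

/-- Order `m` odd. `L` is generated by `θ w` with `m w ∈ Λ`: `w = (α u + i β v) / (2 m)`, `u + v` even; no
divisor `d > 1` of `m` divides `u` and `v`; `conj w - c w ∈ Λ` gives `m ∣ u (1 - c)`, `m ∣ v (1 + c)`;
apply `num_split` and `clsA_one` (`u' + v'` is even since `u + v = m₂ u' + m₁ v'`). -/
theorem clsB_one (hθ : IsTh Λ θ) (hα : 0 < α) (hβ : 0 < β)
    (h : ∀ z : ℂ, z ∈ Λ.lattice ↔ z ∈ CL α β) {m : ℕ} (hm : Odd m)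
    {L : AddSubgroup (Pt (0 : ℂ) (-31 / 4))} (hL : L ∈ CycL (0 : ℂ) (-31 / 4) m)
    (hcj : L.map cj = L) :
    ∃ p ∈ PP m, ∀ z : ℂ, θ z ∈ L ↔ z ∈ CL (α / p.1) (β / p.2) := by
  have hm0 : 0 < m := hm.pos
  have hmR : (m : ℝ) ≠ 0 := by exact_mod_cast hm0.ne'
  obtain ⟨u, v, c, huv, hLe, hord, hc⟩ := gen hθ h hm0 hL hcj
  obtain ⟨s, t, -, h1, h2⟩ := conj_rel hθ hα hβ h hc
  have d1 : (m : ℤ) ∣ u * (1 - c) := by
    refine ⟨s, ?_⟩
    have : (u : ℝ) * (1 - c) = m * s := by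
      rw [← h1]
      field_simp
    exact_mod_cast this
  have d2 : (m : ℤ) ∣ v * (1 + c) := by
    refine ⟨t, ?_⟩
    have : (v : ℝ) * (1 + c) = m * t := by
      rw [← h2]
      field_simp
    exact_mod_cast this
  have hg : ∀ d : ℕ, d ∣ m → (d : ℤ) ∣ u → (d : ℤ) ∣ v → d = 1 := by
    rintro d ⟨m', rfl⟩ ⟨u', rfl⟩ ⟨v', rfl⟩
    have hd0 : (d : ℝ) ≠ 0 := by
      rintro h0
      apply hmR
      push_cast
      rw [h0, zero_mul]
    have hm'0 : (m' : ℝ) ≠ 0 := by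
      rintro h0
      apply hmR
      push_cast
      rw [h0, mul_zero]
    have hdodd : Odd (d : ℤ) := by
      have := (Nat.odd_mul.1 hm).1
      exact_mod_cast this
    have hev : Even (u' + v') := by
      rw [← mul_add, Int.even_mul] at huv
      rcases huv with h3 | h3
      · exact absurd h3 (Int.not_even_iff_odd.2 hdodd)
      · exact h3
    have h0 := smul_zero_of (θ := θ) (x := ((d * u' : ℤ) : ℝ) / ((d * m' : ℕ) : ℝ))
      (y := ((d * v' : ℤ) : ℝ) / ((d * m' : ℕ) : ℝ)) (k := (m' : ℤ)) (s := u') (t := v') hθ h hev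
      (by push_cast; field_simp) (by push_cast; field_simp)
    have h3 : addOrderOf (θ (((α * (((d * u' : ℤ) : ℝ) / ((d * m' : ℕ) : ℝ)) : ℝ) +
        (β * (((d * v' : ℤ) : ℝ) / ((d * m' : ℕ) : ℝ)) : ℝ) * Complex.I) / 2)) ∣ m' := by
      rw [natCast_zsmul] at h0
      exact addOrderOf_dvd_of_nsmul_eq_zero h0
    rw [hord] at h3
    have hm'pos : 0 < m' := by
      rcases Nat.eq_zero_or_pos m' with h4 | h4
      · rw [h4, mul_zero] at hm0
        exact absurd hm0 (lt_irrefl 0)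
      · exact h4
    have h4 := Nat.le_of_dvd hm'pos h3
    have h5 : d ≤ 1 := by
      by_contra h6
      have : 2 * m' ≤ d * m' := Nat.mul_le_mul_right _ (by omega)
      omega
    have h6 : d ≠ 0 := by
      rintro rfl
      simp at hd0
    omega
  obtain ⟨m₁, m₂, hmm, hcop, u', v', rfl, rfl, hu', hv'⟩ := num_split hm d1 d2 hg
  have ho1 : Odd m₁ := by
    rw [← hmm] at hm
    exact (Nat.odd_mul.1 hm).1
  have ho2 : Odd m₂ := by
    rw [← hmm] at hm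
    exact (Nat.odd_mul.1 hm).2
  have hm1 : (m₁ : ℝ) ≠ 0 := by exact_mod_cast ho1.pos.ne'
  have hm2 : (m₂ : ℝ) ≠ 0 := by exact_mod_cast ho2.pos.ne'
  have hpar : Even (u' + v') := by
    have hi1 : ¬ Even (m₁ : ℤ) := by
      rw [Int.not_even_iff_odd]
      exact_mod_cast ho1
    have hi2 : ¬ Even (m₂ : ℤ) := by
      rw [Int.not_even_iff_odd]
      exact_mod_cast ho2
    rw [Int.even_add, Int.even_mul, Int.even_mul] at huv
    rw [Int.even_add]
    tauto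
  have e1 : (((m₂ : ℤ) * u' : ℤ) : ℝ) / (m : ℝ) = u' / m₁ := by
    rw [← hmm]
    push_cast
    field_simp
  have e2 : (((m₁ : ℤ) * v' : ℤ) : ℝ) / (m : ℝ) = v' / m₂ := by
    rw [← hmm]
    push_cast
    field_simp
  have key := (clsA_one hθ hα hβ h ho1 ho2 hcop hu' hv' hpar).2
  refine ⟨(m₁, m₂), ?_, ?_⟩
  · rw [PP, Finset.mem_filter, Nat.mem_divisorsAntidiagonal]
    exact ⟨⟨hmm, hm0.ne'⟩, hcop⟩
  · intro z
    rw [hLe, e1, e2]
    exact key z

/-- Order `2 m`, `m` odd. `L` is generated by `θ w`, `2 m w ∈ Λ`, `w = (α u + i β v) / (4 m)`, `u + v` even,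
`conj w - c w ∈ Λ`; `c` is odd (`2 m ∣ c² - 1`), so `conj (m w) - m w ∈ Λ`, i.e. `- i β v / 2 ∈ Λ`, so `v` is
even and `u` is even; `u = 2 u₁`, `v = 2 v₁`, `w = (α u₁ + i β v₁) / (2 m)` and `m w ∉ Λ` says that
`u₁ + v₁` is odd; go on as in `clsB_one` with `num_split` for `u₁`, `v₁` and `clsA_two`. -/
theorem clsB_two (hθ : IsTh Λ θ) (hα : 0 < α) (hβ : 0 < β)
    (h : ∀ z : ℂ, z ∈ Λ.lattice ↔ z ∈ CL α β) {m : ℕ} (hm : Odd m)
    {L : AddSubgroup (Pt (0 : ℂ) (-31 / 4))} (hL : L ∈ CycL (0 : ℂ) (-31 / 4) (2 * m))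
    (hcj : L.map cj = L) :
    ∃ p ∈ PP m, ∀ z : ℂ, θ z ∈ L ↔ z ∈ RR (α / (2 * p.1)) (β / (2 * p.2)) := by
  have hm0 : 0 < m := hm.pos
  have hmR : (m : ℝ) ≠ 0 := by exact_mod_cast hm0.ne'
  obtain ⟨u, v, c, huv, hLe, hord, hc⟩ := gen hθ h (n := 2 * m) (by omega) hL hcj
  obtain ⟨s, t, -, h1, h2⟩ := conj_rel hθ hα hβ h hc
  set W := θ (((α * (u / (2 * m : ℕ)) : ℝ) + (β * (v / (2 * m : ℕ)) : ℝ) * Complex.I) / 2) with hW
  have hcc : (c * c - 1) • W = 0 := by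
    have h3 : c • (c • W) = W := by
      rw [hc, ← map_zsmul, hc, cj_cj]
    rw [sub_smul, one_smul, mul_smul, h3, sub_self]
  have hcodd : Odd c := by
    have h3 : ((2 * m : ℕ) : ℤ) ∣ c * c - 1 := by
      rw [← hord]
      exact addOrderOf_dvd_iff_zsmul_eq_zero.2 hcc
    have h4 : (2 : ℤ) ∣ c * c - 1 := by
      refine dvd_trans ?_ h3
      push_cast
      exact dvd_mul_right _ _
    by_contra h5
    rw [Int.not_odd_iff_even] at h5
    have h6 : (2 : ℤ) ∣ c * c := dvd_mul_of_dvd_left h5.two_dvd _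
    omega
  have h2mW : ((2 * m : ℕ) : ℤ) • W = 0 := by
    rw [natCast_zsmul, ← hord]
    exact addOrderOf_nsmul_eq_zero _
  have hmW : (m : ℤ) • cj W = (m : ℤ) • W := by
    rw [← hc, ← mul_smul]
    obtain ⟨c', rfl⟩ := hcodd
    have : (m : ℤ) * (2 * c' + 1) = c' * ((2 * m : ℕ) : ℤ) + m := by
      push_cast
      ring
    rw [this, add_smul, mul_smul, h2mW, smul_zero, zero_add]
  -- `v` is even
  have hvu : Even v ∧ Even u := by
    have h3 : θ (starRingEnd ℂ (((α * (u / (2 * m : ℕ)) : ℝ) +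
        (β * (v / (2 * m : ℕ)) : ℝ) * Complex.I) / 2)) = cj W :=
      th_conj hθ (fun z => by rw [h, h, conj_mem]) _
    rw [← h3, hW, ← map_zsmul θ, ← map_zsmul θ, ← sub_eq_zero, ← map_sub, hθ.ker, h, conj_form,
      zsmul_eq_mul, zsmul_eq_mul, mul_form, mul_form, sub_form] at hmW
    obtain ⟨s', t', hst, h4, h5⟩ := coord hα hβ hmW
    have h6 : s' = 0 := by
      have : (s' : ℝ) = 0 := by
        rw [← h4]
        ring
      exact_mod_cast this
    have h7 : v = -t' := by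
      have : (v : ℝ) = -t' := by
        rw [← h5]
        push_cast
        field_simp
        ring
      exact_mod_cast this
    rw [h6, zero_add] at hst
    have h8 : Even v := by
      rw [h7, even_neg]
      exact hst
    refine ⟨h8, ?_⟩
    rw [Int.even_add] at huv
    exact huv.2 h8
  obtain ⟨⟨v₁, hv⟩, ⟨u₁, hu⟩⟩ := hvu
  have hv2 : v = 2 * v₁ := by omega
  have hu2 : u = 2 * u₁ := by omega
  clear hv hu
  subst hv2 hu2
  have E1 : ((2 * u₁ : ℤ) : ℝ) / ((2 * m : ℕ) : ℝ) = u₁ / m := by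
    push_cast
    field_simp
  have E2 : ((2 * v₁ : ℤ) : ℝ) / ((2 * m : ℕ) : ℝ) = v₁ / m := by
    push_cast
    field_simp
  rw [E1, E2] at hW
  rw [E1] at h1
  rw [E2] at h2
  have hodd : Odd (u₁ + v₁) := by
    by_contra h3
    rw [Int.not_odd_iff_even] at h3
    have h4 := smul_zero_of (θ := θ) (x := (u₁ : ℝ) / m) (y := (v₁ : ℝ) / m) (k := (m : ℤ)) hθ h h3
      (by push_cast; field_simp) (by push_cast; field_simp)
    rw [← hW, natCast_zsmul] at h4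
    have h5 := addOrderOf_dvd_of_nsmul_eq_zero h4
    rw [hord] at h5
    have h6 := Nat.le_of_dvd hm0 h5
    omega
  have d1 : (m : ℤ) ∣ u₁ * (1 - c) := by
    refine ⟨s, ?_⟩
    have : (u₁ : ℝ) * (1 - c) = m * s := by
      rw [← h1]
      field_simp
    exact_mod_cast this
  have d2 : (m : ℤ) ∣ v₁ * (1 + c) := by
    refine ⟨t, ?_⟩
    have : (v₁ : ℝ) * (1 + c) = m * t := by
      rw [← h2]
      field_simp
    exact_mod_cast this
  have hg : ∀ d : ℕ, d ∣ m → (d : ℤ) ∣ u₁ → (d : ℤ) ∣ v₁ → d = 1 := by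
    rintro d ⟨m', hm'⟩ ⟨u', rfl⟩ ⟨v', rfl⟩
    have hmR' : (m : ℝ) = d * m' := by
      rw [hm']
      push_cast
      ring
    have hd0 : (d : ℝ) ≠ 0 := by
      rintro h0
      apply hmR
      rw [hmR', h0, zero_mul]
    have hm'0 : (m' : ℝ) ≠ 0 := by
      rintro h0
      apply hmR
      rw [hmR', h0, mul_zero]
    have h0 := smul_zero_of (θ := θ) (x := ((d * u' : ℤ) : ℝ) / (m : ℝ))
      (y := ((d * v' : ℤ) : ℝ) / (m : ℝ)) (k := ((2 * m' : ℕ) : ℤ)) (s := 2 * u') (t := 2 * v') hθ h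
      (by rw [← mul_add]; exact even_two_mul _)
      (by rw [hmR']; push_cast; field_simp) (by rw [hmR']; push_cast; field_simp)
    rw [← hW, natCast_zsmul] at h0
    have h3 := addOrderOf_dvd_of_nsmul_eq_zero h0
    rw [hord] at h3
    have hm'pos : 0 < m' := by
      rcases Nat.eq_zero_or_pos m' with h4 | h4
      · rw [h4, Nat.cast_zero] at hm'0
        exact absurd rfl hm'0
      · exact h4
    have h4 := Nat.le_of_dvd (by omega) h3
    have h5 : d ≤ 1 := by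
      by_contra h6
      have : 2 * m' ≤ d * m' := Nat.mul_le_mul_right _ (by omega)
      omega
    have h6 : d ≠ 0 := by
      rintro rfl
      simp at hd0
    omega
  obtain ⟨m₁, m₂, hmm, hcop, u', v', rfl, rfl, hu', hv'⟩ := num_split hm d1 d2 hg
  have ho1 : Odd m₁ := by
    rw [← hmm] at hm
    exact (Nat.odd_mul.1 hm).1
  have ho2 : Odd m₂ := by
    rw [← hmm] at hm
    exact (Nat.odd_mul.1 hm).2
  have hm1 : (m₁ : ℝ) ≠ 0 := by exact_mod_cast ho1.pos.ne'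
  have hm2 : (m₂ : ℝ) ≠ 0 := by exact_mod_cast ho2.pos.ne'
  have hpar : Odd (u' + v') := by
    have hi1 : ¬ Even (m₁ : ℤ) := by
      rw [Int.not_even_iff_odd]
      exact_mod_cast ho1
    have hi2 : ¬ Even (m₂ : ℤ) := by
      rw [Int.not_even_iff_odd]
      exact_mod_cast ho2
    rw [← Int.not_even_iff_odd, Int.even_add, Int.even_mul, Int.even_mul] at hodd
    rw [← Int.not_even_iff_odd, Int.even_add]
    tauto
  have e1 : (((m₂ : ℤ) * u' : ℤ) : ℝ) / (m : ℝ) = u' / m₁ := by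
    rw [← hmm]
    push_cast
    field_simp
  have e2 : (((m₁ : ℤ) * v' : ℤ) : ℝ) / (m : ℝ) = v' / m₂ := by
    rw [← hmm]
    push_cast
    field_simp
  have key := (clsA_two hθ hα hβ h ho1 ho2 hcop hu' hv' hpar).2
  refine ⟨(m₁, m₂), ?_, ?_⟩
  · rw [PP, Finset.mem_filter, Nat.mem_divisorsAntidiagonal]
    exact ⟨⟨hmm, hm0.ne'⟩, hcop⟩
  · intro z
    rw [hLe, hW, e1, e2]
    exact key z

end LT.Sgn
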