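import Pool.Agent.Lib_MP_f1937f_nt.SDef

/-!
# MP_f1937f_nt: the factorisations (piece SCOMB)
-/

namespace LT.Sgn

namespace SComb

theorem mem_PP {m : ℕ} {p : ℕ × ℕ} : p ∈ PP m ↔ (p.1 * p.2 = m ∧ m ≠ 0) ∧ p.1.Coprime p.2 := by
  unfold PP
  rw [Finset.mem_filter, Nat.mem_divisorsAntidiagonal]

theorem swap_mem {m : ℕ} {p : ℕ × ℕ} (h : p ∈ PP m) : p.swap ∈ PP m := by
  rw [mem_PP] at h ⊢
  obtain ⟨⟨h1, h2⟩, h3⟩ := h
  refine ⟨⟨?_, h2⟩, h3.symm⟩
  rw [← h1, mul_comm]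
  rfl

/-- the case `τ = √3` -/
theorem comb_aux {ylo yhi : ℝ} (h1 : 1 ≤ ylo) {M k : ℕ}
    (hM : 1 < M) (h7 : ¬ 7 ∣ M) (hlo : Real.sqrt 3 * ylo < 7 ^ k / (M : ℝ))
    (hhi : 7 ^ k / (M : ℝ) < Real.sqrt 3 * yhi) :
    ∃ p₀ ∈ PP (M * 7 ^ k),
      (ylo < max (Real.sqrt 3 * p₀.1 / p₀.2) (Real.sqrt 3 * p₀.1 / p₀.2)⁻¹ ∧
        max (Real.sqrt 3 * p₀.1 / p₀.2) (Real.sqrt 3 * p₀.1 / p₀.2)⁻¹ < yhi) ∧
      ∀ p ∈ PP (M * 7 ^ k), p ≠ p₀ →
        3 * ylo ≤ max (Real.sqrt 3 * p.1 / p.2) (Real.sqrt 3 * p.1 / p.2)⁻¹ := by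
  have hs : (0 : ℝ) < Real.sqrt 3 := Real.sqrt_pos.mpr (by norm_num)
  have hs2 : Real.sqrt 3 * Real.sqrt 3 = 3 := Real.mul_self_sqrt (by norm_num)
  have hM0 : (0 : ℝ) < M := by positivity
  have hQ0 : (0 : ℝ) < (7 : ℝ) ^ k := by positivity
  have hm0 : M * 7 ^ k ≠ 0 := by positivity
  have hcop : M.Coprime (7 ^ k) :=
    Nat.Coprime.pow_right k (((Nat.Prime.coprime_iff_not_dvd (by norm_num)).mpr h7).symm)
  have hlo' : Real.sqrt 3 < 7 ^ k / (M : ℝ) := lt_of_le_of_lt (by nlinarith) hlo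
  have hy : Real.sqrt 3 * M / 7 ^ k < 1 := by
    rw [div_lt_one hQ0]
    rwa [lt_div_iff₀ hM0] at hlo'
  have hyinv : (Real.sqrt 3 * M / 7 ^ k)⁻¹ = 7 ^ k / (M : ℝ) / Real.sqrt 3 := by
    rw [inv_div]
    field_simp
  have hb1 : ylo < 7 ^ k / (M : ℝ) / Real.sqrt 3 := by
    rw [lt_div_iff₀ hs]
    linarith
  have hb2 : 7 ^ k / (M : ℝ) / Real.sqrt 3 < yhi := by
    rw [div_lt_iff₀ hs]
    linarith
  refine ⟨(M, 7 ^ k), ?_, ?_, ?_⟩
  · rw [mem_PP]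
    exact ⟨⟨rfl, hm0⟩, hcop⟩
  · have h2 : max (Real.sqrt 3 * ((M, 7 ^ k) : ℕ × ℕ).1 / ((M, 7 ^ k) : ℕ × ℕ).2)
        (Real.sqrt 3 * ((M, 7 ^ k) : ℕ × ℕ).1 / ((M, 7 ^ k) : ℕ × ℕ).2)⁻¹ =
        7 ^ k / (M : ℝ) / Real.sqrt 3 := by
      push_cast
      rw [hyinv]
      apply max_eq_right
      linarith
    rw [h2]
    exact ⟨hb1, hb2⟩
  · rintro ⟨a, b⟩ hp hne
    rw [mem_PP] at hp
    obtain ⟨⟨hab, -⟩, hcab⟩ := hp
    change a * b = M * 7 ^ k at hab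
    change a.Coprime b at hcab
    have ha0 : 0 < a := by
      rcases Nat.eq_zero_or_pos a with h | h
      · rw [h, zero_mul] at hab
        exact absurd hab.symm hm0
      · exact h
    have hb0 : 0 < b := by
      rcases Nat.eq_zero_or_pos b with h | h
      · rw [h, mul_zero] at hab
        exact absurd hab.symm hm0
      · exact h
    have haR : (0 : ℝ) < a := by exact_mod_cast ha0
    have hbR : (0 : ℝ) < b := by exact_mod_cast hb0
    have hQ : 7 ^ k ∣ a ∨ 7 ^ k ∣ b := by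
      by_cases h7a : 7 ∣ a
      · left
        have h7b : ¬ 7 ∣ b := by
          intro h
          have := Nat.dvd_gcd h7a h
          rw [hcab] at this
          norm_num at this
        have h3 : Nat.Coprime (7 ^ k) b :=
          Nat.Coprime.pow_left k ((Nat.Prime.coprime_iff_not_dvd (by norm_num)).mpr h7b)
        exact h3.dvd_of_dvd_mul_right (by rw [hab]; exact Dvd.intro_left _ rfl)
      · right
        have h3 : Nat.Coprime (7 ^ k) a :=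
          Nat.Coprime.pow_left k ((Nat.Prime.coprime_iff_not_dvd (by norm_num)).mpr h7a)
        exact h3.dvd_of_dvd_mul_left (by rw [hab]; exact Dvd.intro_left _ rfl)
    change 3 * ylo ≤ max (Real.sqrt 3 * (a : ℝ) / (b : ℝ)) (Real.sqrt 3 * (a : ℝ) / (b : ℝ))⁻¹
    rcases hQ with ⟨c, hc⟩ | ⟨c, hc⟩
    · -- `Q` divides `a`
      apply le_max_of_le_left
      have h3 : c * b = M := by
        have h4 : 7 ^ k * (c * b) = 7 ^ k * M := by
          rw [← mul_assoc, ← hc, hab, mul_comm]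
        exact Nat.eq_of_mul_eq_mul_left (by positivity) h4
      have hbM : (b : ℝ) ≤ M := by
        have : b ≤ M := Nat.le_of_dvd (by omega) (Dvd.intro_left c h3)
        exact_mod_cast this
      have haQ : (7 : ℝ) ^ k ≤ a := by
        have : 7 ^ k ≤ a := Nat.le_of_dvd ha0 (Dvd.intro c hc.symm)
        exact_mod_cast this
      have h5 : Real.sqrt 3 * (7 ^ k / (M : ℝ)) ≤ Real.sqrt 3 * a / b := by
        rw [← mul_div_assoc]
        apply div_le_div₀ (by positivity) (mul_le_mul_of_nonneg_left haQ hs.le) hbR hbM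
      nlinarith
    · -- `Q` divides `b`
      apply le_max_of_le_right
      have h3 : a * c = M := by
        have h4 : 7 ^ k * (a * c) = 7 ^ k * M := by
          rw [mul_left_comm, ← hc, hab, mul_comm]
        exact Nat.eq_of_mul_eq_mul_left (by positivity) h4
      have hc2 : 2 ≤ c := by
        rcases Nat.lt_or_ge c 2 with h | h
        · exfalso
          interval_cases c
          · omega
          · apply hne
            rw [Prod.mk.injEq]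
            exact ⟨by omega, by rw [hc]; ring⟩
        · exact h
      have hcR : (2 : ℝ) ≤ c := by exact_mod_cast hc2
      have hMR : (M : ℝ) = a * c := by exact_mod_cast h3.symm
      have hbR' : (b : ℝ) = 7 ^ k * c := by
        rw [hc]
        push_cast
        ring
      have h5 : (Real.sqrt 3 * (a : ℝ) / b)⁻¹ = 7 ^ k / (M : ℝ) / Real.sqrt 3 * (c * c) := by
        rw [inv_div, hbR', hMR]
        have : (c : ℝ) ≠ 0 := by positivity
        field_simp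
      rw [h5]
      have h6 : (4 : ℝ) ≤ c * c := by nlinarith
      have h7' : 0 < 7 ^ k / (M : ℝ) / Real.sqrt 3 := by positivity
      nlinarith

end SComb

open SComb

/-- The involution `(m₁, m₂) ↦ (m₂, m₁)` has no fixed point for `m ≠ 1`. -/
theorem PP_even {m : ℕ} (hm : 1 < m) : Even (PP m).card := by
  have h1 : ∑ x ∈ PP m, (1 : ZMod 2) = 0 := by
    apply Finset.sum_involution (fun p _ => p.swap)
    · intro p _
      decide
    · intro p hp _ hfix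
      rw [mem_PP] at hp
      obtain ⟨⟨h2, -⟩, h3⟩ := hp
      have h4 : p.2 = p.1 := congrArg Prod.fst hfix
      rw [h4, Nat.coprime_self] at h3
      rw [h4, h3] at h2
      omega
    · intro p hp
      rfl
    · intro p hp
      exact swap_mem hp
  rw [Finset.sum_const, nsmul_eq_mul, mul_one] at h1
  exact (ZMod.natCast_eq_zero_iff_even).mp h1

/-- All factorisations except one have `max y y⁻¹ ≥ 3 ylo`, `y = τ m₁ / m₂`. Proof: put `Q = 7 ^ k`; since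
`7 ^ k / M > lo ≥ √3 > 1`, `Q > M`, `k ≥ 1`. If `τ = √3` then `p₀ = (M, Q)`: `y⁻¹ = Q / (√3 M)` is between
`ylo` and `yhi` (and `y < 1 ≤ ylo < y⁻¹`); if `τ = 1/√3` then `p₀ = (Q, M)`. By the symmetry
`τ ↔ τ⁻¹`, `(m₁, m₂) ↔ (m₂, m₁)` it suffices to treat `τ = √3`.
Let `p = (m₁, m₂) ≠ (M, Q)`. `7 ∤ M`, `m₁ m₂ = M Q` coprime: either `Q ∣ m₁`, and then
`y = √3 m₁ / m₂ ≥ √3 Q / M ≥ 3 ylo`; or `Q ∣ m₂`, `m₂ = Q M₂`, `m₁ M₂ = M`, `M₂ ≠ 1`, so `M₂ ≥ 2` (even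
`≥ 5`), and `y⁻¹ = Q M₂ / (√3 m₁) = Q M₂² / (√3 M) ≥ 4 ylo`. -/
theorem comb {τ ylo yhi : ℝ} (hτ : τ = Real.sqrt 3 ∨ τ = 1 / Real.sqrt 3) (h1 : 1 ≤ ylo) {M k : ℕ}
    (hM : 1 < M) (h7 : ¬ 7 ∣ M) (hlo : Real.sqrt 3 * ylo < 7 ^ k / (M : ℝ))
    (hhi : 7 ^ k / (M : ℝ) < Real.sqrt 3 * yhi) :
    ∃ p₀ ∈ PP (M * 7 ^ k),
      (ylo < max (τ * p₀.1 / p₀.2) (τ * p₀.1 / p₀.2)⁻¹ ∧
        max (τ * p₀.1 / p₀.2) (τ * p₀.1 / p₀.2)⁻¹ < yhi) ∧
      ∀ p ∈ PP (M * 7 ^ k), p ≠ p₀ → 3 * ylo ≤ max (τ * p.1 / p.2) (τ * p.1 / p.2)⁻¹ := by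
  rcases hτ with rfl | rfl
  · exact comb_aux h1 hM h7 hlo hhi
  · obtain ⟨p₀, hp₀, h2, h3⟩ := comb_aux h1 hM h7 hlo hhi
    have key : ∀ a b : ℕ, max (1 / Real.sqrt 3 * a / b) (1 / Real.sqrt 3 * a / b)⁻¹ =
        max (Real.sqrt 3 * b / a) (Real.sqrt 3 * b / a)⁻¹ := by
      intro a b
      have h4 : 1 / Real.sqrt 3 * a / b = (Real.sqrt 3 * b / a)⁻¹ := by
        rw [inv_div, one_div, inv_mul_eq_div, div_div]
      rw [h4, inv_inv, max_comm]
    refine ⟨p₀.swap, swap_mem hp₀, ?_, ?_⟩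
    · rw [key]
      exact h2
    · intro p hp hne
      rw [key]
      apply h3 p.swap (swap_mem hp)
      intro h
      apply hne
      rw [← h, Prod.swap_swap]

end LT.Sgn
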