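import Pool.Agent.Lib_MP_f1937f_nt.IDefs

/-!
# MP_f1937f_nt: definitions for the layer SGN

* `jj Λ` : the `j`-invariant of a lattice; `jt τ` : the `j`-invariant on the upper half plane;
* `J1 y = j((1 + i y) / 2)`, `J2 y = j(i y)` : the real functions of the two real families;
* `cj` : complex conjugation on `E₀`; `PP m` : the factorisations `m = m₁ m₂` with coprime factors.
-/

namespace LT.Sgn

open Polynomial WeierstrassCurve PeriodPair

/-- The `j`-invariant of the lattice. -/
noncomputable def jj (Λ : PeriodPair) : ℂ := jinv (-Λ.g₂ / 4) (-Λ.g₃ / 4)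

/-- The `j`-invariant on the upper half plane. -/
noncomputable def jt (τ : UpperHalfPlane) : ℂ := ModularForm.E₄ τ ^ 3 / ModularForm.discriminant τ

/-- The point `r + i y` of the upper half plane. -/
noncomputable def up (r : ℝ) {y : ℝ} (hy : 0 < y) : UpperHalfPlane :=
  ⟨(r : ℂ) + y * Complex.I, by simpa using hy⟩

/-- `j((1 + i y) / 2)`. -/
noncomputable def J1 (y : ℝ) : ℝ := if h : 0 < y then (jt (up (1 / 2) (half_pos h))).re else 0

/-- `j(i y)`. -/
noncomputable def J2 (y : ℝ) : ℝ := if h : 0 < y then (jt (up 0 h)).re else 0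

theorem conj_quarter : starRingEnd ℂ (-31 / 4) = -31 / 4 := by
  have h := map_div₀ (starRingEnd ℂ) (-31) 4
  rw [h, map_neg, Complex.conj_ofNat, Complex.conj_ofNat]

/-- Complex conjugation on the points of `E₀`. -/
noncomputable def cj : Pt (0 : ℂ) (-31 / 4) →+ Pt (0 : ℂ) (-31 / 4) :=
  mapPt (starRingEnd ℂ) (map_zero _) conj_quarter

/-- The factorisations of `m` with coprime factors. -/
def PP (m : ℕ) : Finset (ℕ × ℕ) := m.divisorsAntidiagonal.filter fun p => p.1.Coprime p.2

end LT.Sgn
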