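import Pool.Agent.Lib_MP_f1937f_nt.SDef
import Pool.Agent.Lib_MP_f1937f_nt.CThB

/-!
# MP_f1937f_nt: finiteness (piece SFIN)
-/

namespace LT.Sgn

open Polynomial WeierstrassCurve PeriodPair

/-- A point of order `n` is `θ ((a ω₁ + b ω₂) / n)` with `0 ≤ a, b < n`. -/
theorem tors_finite {Λ : PeriodPair} {a b : ℂ} {θ : ℂ →+ Pt a b} (hθ : IsTh Λ θ) {n : ℕ}
    (hn : 0 < n) : {T : Pt a b | n • T = 0}.Finite := by
  have hnC : (n : ℂ) ≠ 0 := by exact_mod_cast hn.ne'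
  have hn' : (0 : ℤ) < n := by exact_mod_cast hn
  refine (((Finset.range n) ×ˢ (Finset.range n)).finite_toSet.image
    (fun p : ℕ × ℕ => θ (((p.1 : ℂ) * Λ.ω₁ + (p.2 : ℂ) * Λ.ω₂) / n))).subset ?_
  intro T hT
  obtain ⟨z, rfl⟩ := hθ.surj T
  have h1 : n • θ z = 0 := hT
  rw [← map_nsmul, hθ.ker, nsmul_eq_mul, PeriodPair.mem_lattice] at h1
  obtain ⟨c, d, hcd⟩ := h1
  obtain ⟨i, hi⟩ := Int.eq_ofNat_of_zero_le (Int.emod_nonneg c hn'.ne')
  obtain ⟨j, hj⟩ := Int.eq_ofNat_of_zero_le (Int.emod_nonneg d hn'.ne')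
  have hi' := Int.emod_lt_of_pos c hn'
  have hj' := Int.emod_lt_of_pos d hn'
  refine ⟨(i, j), ?_, ?_⟩
  · simp only [Finset.coe_product, Set.mem_prod, Finset.mem_coe, Finset.mem_range]
    constructor <;> omega
  · have e1 : (c : ℂ) = n * ((c / n : ℤ) : ℂ) + i := by
      have := Int.mul_ediv_add_emod c n
      rw [hi] at this
      exact_mod_cast this.symm
    have e2 : (d : ℂ) = n * ((d / n : ℤ) : ℂ) + j := by
      have := Int.mul_ediv_add_emod d n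
      rw [hj] at this
      exact_mod_cast this.symm
    have h2 : z - ((i : ℂ) * Λ.ω₁ + (j : ℂ) * Λ.ω₂) / n ∈ Λ.lattice := by
      rw [PeriodPair.mem_lattice]
      refine ⟨c / n, d / n, ?_⟩
      have h3 : (n : ℂ) * z = n * (((c / n : ℤ) : ℂ) * Λ.ω₁ + ((d / n : ℤ) : ℂ) * Λ.ω₂) +
          ((i : ℂ) * Λ.ω₁ + (j : ℂ) * Λ.ω₂) := by
        rw [← hcd, e1, e2]
        ring
      field_simp
      linear_combination -h3
    have h4 := hθ.1 _ h2
    rw [map_sub, sub_eq_zero] at h4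
    exact h4.symm

/-- `CycL n` is finite. (Over `ℂ`, using any uniformisation.) -/
theorem cyc_finite {Λ : PeriodPair} {a b : ℂ} {θ : ℂ →+ Pt a b} (hθ : IsTh Λ θ) {n : ℕ}
    (hn : 0 < n) : (CycL a b n).Finite := by
  refine ((tors_finite hθ hn).image AddSubgroup.zmultiples).subset ?_
  rintro L ⟨T, hT, rfl⟩
  exact ⟨T, hT ▸ addOrderOf_nsmul_eq_zero T, rfl⟩

theorem cyc_fin {n : ℕ} (hn : 0 < n) {a b : ℂ} {L : AddSubgroup (Pt a b)} (hL : L ∈ CycL a b n) :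
    Finite L := by
  obtain ⟨T, hT, rfl⟩ := hL
  have h : (AddSubgroup.zmultiples T : Set (Pt a b)).Finite :=
    finite_zmultiples.mpr (addOrderOf_pos_iff.mp (by omega))
  exact h.to_subtype

end LT.Sgn
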