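import Pool.Agent.Lib_MP_f1937f_nt.SDef
import Pool.Agent.Lib_MP_f1937f_nt.CInjB

/-!
# MP_f1937f_nt: the `j`-invariant of the lattice `ℤ τ + ℤ` by Eisenstein series (piece SMOD)
-/

namespace LT.Sgn

open Polynomial WeierstrassCurve PeriodPair

private theorem SMod.coords {τ : UpperHalfPlane} {a b c d : ℤ}
    (h : (a : ℂ) * (τ : ℂ) + b = c * τ + d) : a = c ∧ b = d := by
  have him : (a : ℝ) * τ.im = c * τ.im := by
    have := congrArg Complex.im h
    simpa using this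
  have hac : (a : ℝ) = c := mul_right_cancel₀ τ.im_pos.ne' him
  have hac' : a = c := by exact_mod_cast hac
  refine ⟨hac', ?_⟩
  subst hac'
  have : (b : ℂ) = d := add_left_cancel h
  exact_mod_cast this

/-- `G k (ℤ τ + ℤ) = 2 ζ(k) E_k(τ)`. Proof: the sum over the lattice is
`∑' v : Fin 2 → ℤ, eisSummand k v τ` (reindex by `v ↦ v 0 * τ + v 1`), then
`tsum_eisSummand_eq_riemannZeta_mul_eisensteinSeries` (Mathlib, EisensteinSeries/QExpansion) and
`E hk z = (1 / 2) • eisensteinSeriesSIF (N := 1) 0 k z` by `rfl`. -/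
theorem G_tau {Λ : PeriodPair} {τ : UpperHalfPlane}
    (h : ∀ z : ℂ, z ∈ Λ.lattice ↔ ∃ m n : ℤ, z = m * (τ : ℂ) + n) {k : ℕ} (hk : 3 ≤ k) :
    Λ.G k = 2 * riemannZeta k * ModularForm.E hk τ := by
  have h1 : Λ.G k = ∑' v : Fin 2 → ℤ, EisensteinSeries.eisSummand k v τ := by
    let e : (Fin 2 → ℤ) ≃ Λ.lattice := Equiv.ofBijective
      (fun v => ⟨(v 0 : ℂ) * τ + v 1, (h _).mpr ⟨v 0, v 1, rfl⟩⟩) (by
        constructor
        · intro v w hvw
          have hvw' : (v 0 : ℂ) * τ + v 1 = w 0 * τ + w 1 := congrArg Subtype.val hvw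
          obtain ⟨h0, h1⟩ := SMod.coords hvw'
          funext i
          fin_cases i
          · exact h0
          · exact h1
        · rintro ⟨z, hz⟩
          obtain ⟨m, n, rfl⟩ := (h z).mp hz
          exact ⟨![m, n], by simp⟩)
    rw [PeriodPair.G, ← e.tsum_eq]
    refine tsum_congr fun v => ?_
    change (((v 0 : ℂ) * τ + v 1) ^ k)⁻¹ = ((v 0 : ℂ) * τ + v 1) ^ (-(k : ℤ))
    rw [zpow_neg, zpow_natCast]
  have h2 : ModularForm.E hk τ =
      (1 / 2 : ℂ) • EisensteinSeries.eisensteinSeriesSIF (N := 1) 0 k τ := rfl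
  have h3 : EisensteinSeries.eisensteinSeriesSIF (N := 1) 0 k τ =
      _root_.eisensteinSeries (N := 1) 0 k τ := rfl
  rw [h1, tsum_eisSummand_eq_riemannZeta_mul_eisensteinSeries hk, h2, h3, smul_eq_mul]
  ring

private theorem SMod.zeta_six : riemannZeta 6 = (Real.pi : ℂ) ^ 6 / 945 := by
  have h := riemannZeta_two_mul_nat (k := 3) (by norm_num)
  have hb : _root_.bernoulli 6 = 1 / 42 := by
    rw [_root_.bernoulli_eq_bernoulli'_of_ne_one (by norm_num)]
    have h5 : bernoulli' 5 = 0 := bernoulli'_eq_zero_of_odd (by decide) (by norm_num)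
    have c2 : Nat.choose 6 2 = 15 := by decide
    have c3 : Nat.choose 6 3 = 20 := by decide
    have c4 : Nat.choose 6 4 = 15 := by decide
    have c5 : Nat.choose 6 5 = 6 := by decide
    rw [bernoulli'_def]
    simp only [Finset.sum_range_succ, Finset.sum_range_zero, bernoulli'_zero, bernoulli'_one,
      bernoulli'_two, bernoulli'_three, bernoulli'_four, h5, c2, c3, c4, c5, Nat.choose_zero_right,
      Nat.choose_one_right]
    norm_num
  have h6 : (2 : ℂ) * ((3 : ℕ) : ℂ) = 6 := by norm_num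
  rw [h6] at h
  rw [h]
  norm_num [hb, Nat.factorial]
  ring

/-- `jj (ℤ τ + ℤ) = E₄(τ)³ / Δ(τ)`. Proof: `g₂ = 60 G 4 = 120 ζ(4) E₄ = (4 π⁴ / 3) E₄`,
`g₃ = 140 G 6 = 280 ζ(6) E₆ = (8 π⁶ / 27) E₆` (`riemannZeta_four`, and `ζ(6) = π⁶ / 945` by
`riemannZeta_two_mul_nat`), and `discriminant_eq_E₄_cube_sub_E₆_sq`. -/
theorem jj_tau {Λ : PeriodPair} {τ : UpperHalfPlane}
    (h : ∀ z : ℂ, z ∈ Λ.lattice ↔ ∃ m n : ℤ, z = m * (τ : ℂ) + n) : jj Λ = jt τ := by
  have h4 : Λ.g₂ = 4 * (Real.pi : ℂ) ^ 4 / 3 * ModularForm.E₄ τ := by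
    have h0 := G_tau h (k := 4) (by norm_num)
    have hz : riemannZeta ((4 : ℕ) : ℂ) = (Real.pi : ℂ) ^ 4 / 90 := by
      have := riemannZeta_four
      simpa using this
    rw [PeriodPair.g₂, h0, hz]
    ring
  have h6 : Λ.g₃ = 8 * (Real.pi : ℂ) ^ 6 / 27 * ModularForm.E₆ τ := by
    have h0 := G_tau h (k := 6) (by norm_num)
    have hz : riemannZeta ((6 : ℕ) : ℂ) = (Real.pi : ℂ) ^ 6 / 945 := by
      have := SMod.zeta_six
      simpa using this
    rw [PeriodPair.g₃, h0, hz]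
    ring
  have hpi : (Real.pi : ℂ) ≠ 0 := by exact_mod_cast Real.pi_ne_zero
  have hd := ModularForm.discriminant_eq_E₄_cube_sub_E₆_sq τ
  have hnum : 6912 * (-Λ.g₂ / 4) ^ 3 = -256 * (Real.pi : ℂ) ^ 12 * ModularForm.E₄ τ ^ 3 := by
    rw [h4]; ring
  have hden : dsc (-Λ.g₂ / 4) (-Λ.g₃ / 4) = -256 * (Real.pi : ℂ) ^ 12 * ModularForm.discriminant τ := by
    rw [hd, h4, h6]
    unfold dsc
    ring
  unfold jj jt jinv
  rw [hnum, hden]
  have hc : (-256 * (Real.pi : ℂ) ^ 12) ≠ 0 := mul_ne_zero (by norm_num) (pow_ne_zero _ hpi)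
  rw [mul_div_mul_left _ _ hc]

end LT.Sgn
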