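import Pool.Agent.Lib_MP_f1937f_nt.SPair
import Pool.Agent.Lib_MP_f1937f_nt.SHomo
import Pool.Agent.Lib_MP_f1937f_nt.SMod

/-!
# MP_f1937f_nt: the `j`-invariants of the real lattices (piece SFUN)
-/

namespace LT.Sgn

open Polynomial WeierstrassCurve PeriodPair

namespace SFun

/-- the real number attached to a real `j` -/
theorem re_of_conj {z : ℂ} (h : z = starRingEnd ℂ z) : z = (z.re : ℂ) :=
  ((Complex.conj_eq_iff_re).1 h.symm).symm

theorem CL_conj {α β : ℝ} (z : ℂ) (hz : z ∈ CL α β) : starRingEnd ℂ z ∈ CL α β := by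
  obtain ⟨u, v, huv, rfl⟩ := hz
  refine ⟨u, -v, by rw [Int.even_add, even_neg]; exact Int.even_add.1 huv, ?_⟩
  rw [map_div₀, map_add, map_mul, Complex.conj_ofReal, Complex.conj_ofReal, Complex.conj_I,
    Complex.conj_ofNat]
  push_cast
  ring

theorem RR_conj {α β : ℝ} (z : ℂ) (hz : z ∈ RR α β) : starRingEnd ℂ z ∈ RR α β := by
  obtain ⟨u, v, rfl⟩ := hz
  refine ⟨u, -v, ?_⟩
  rw [map_add, map_mul, Complex.conj_ofReal, Complex.conj_ofReal, Complex.conj_I]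
  push_cast
  ring

/-- `i CL α β = CL β α`. -/
theorem CL_I {α β : ℝ} (z : ℂ) (hz : z ∈ CL α β) : Complex.I * z ∈ CL β α := by
  obtain ⟨u, v, huv, rfl⟩ := hz
  refine ⟨-v, u, by rw [Int.even_add, even_neg]; exact (Int.even_add.1 huv).symm, ?_⟩
  push_cast
  linear_combination (β * v / 2 : ℂ) * Complex.I_mul_I

theorem RR_I {α β : ℝ} (z : ℂ) (hz : z ∈ RR α β) : Complex.I * z ∈ RR β α := by
  obtain ⟨u, v, rfl⟩ := hz
  refine ⟨-v, u, ?_⟩
  push_cast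
  linear_combination (β * v : ℂ) * Complex.I_mul_I

theorem CL_neg {α β : ℝ} (z : ℂ) (hz : z ∈ CL α β) : -z ∈ CL α β := by
  obtain ⟨u, v, huv, rfl⟩ := hz
  refine ⟨-u, -v, by rw [← neg_add, even_neg]; exact huv, ?_⟩
  push_cast
  ring

theorem RR_neg {α β : ℝ} (z : ℂ) (hz : z ∈ RR α β) : -z ∈ RR α β := by
  obtain ⟨u, v, rfl⟩ := hz
  refine ⟨-u, -v, ?_⟩
  push_cast
  ring

theorem CL_I_iff {α β : ℝ} (z : ℂ) : Complex.I * z ∈ CL β α ↔ z ∈ CL α β := by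
  refine ⟨fun h => ?_, CL_I z⟩
  have h1 := CL_neg _ (CL_I _ h)
  have h2 : -(Complex.I * (Complex.I * z)) = z := by
    linear_combination (-z) * Complex.I_mul_I
  rwa [h2] at h1

theorem RR_I_iff {α β : ℝ} (z : ℂ) : Complex.I * z ∈ RR β α ↔ z ∈ RR α β := by
  refine ⟨fun h => ?_, RR_I z⟩
  have h1 := RR_neg _ (RR_I _ h)
  have h2 : -(Complex.I * (Complex.I * z)) = z := by
    linear_combination (-z) * Complex.I_mul_I
  rwa [h2] at h1

theorem jj_real {Λ : PeriodPair} (h : ∀ z : ℂ, starRingEnd ℂ z ∈ Λ.lattice ↔ z ∈ Λ.lattice) :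
    jj Λ = ((jj Λ).re : ℂ) :=
  re_of_conj (g_conj h).2.2.1

theorem conj_iff {S : Set ℂ} (hS : ∀ z ∈ S, starRingEnd ℂ z ∈ S) (z : ℂ) :
    starRingEnd ℂ z ∈ S ↔ z ∈ S := by
  refine ⟨fun h => ?_, hS z⟩
  have := hS _ h
  rwa [Complex.conj_conj] at this

theorem CL_scale {α β : ℝ} (hα : 0 < α) (hβ : 0 < β) (z : ℂ) :
    (α : ℂ) * z ∈ CL α β ↔
      ∃ m n : ℤ, z = m * ((up (1 / 2) (half_pos (div_pos hβ hα)) : UpperHalfPlane) : ℂ) + n := by
  have hα' : (α : ℂ) ≠ 0 := by exact_mod_cast hα.ne'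
  have hup : ((up (1 / 2) (half_pos (div_pos hβ hα)) : UpperHalfPlane) : ℂ)
      = ((1 / 2 : ℝ) : ℂ) + ((β / α / 2 : ℝ) : ℂ) * Complex.I := rfl
  rw [hup]
  constructor
  · rintro ⟨u, v, huv, h⟩
    obtain ⟨w, hw⟩ := huv
    refine ⟨v, w - v, ?_⟩
    have hu : (u : ℂ) = 2 * w - v := by
      have : (u : ℤ) = 2 * w - v := by omega
      rw [this]
      push_cast
      ring
    have h2 : z = (((α * u : ℝ) : ℂ) + ((β * v : ℝ) : ℂ) * Complex.I) / 2 / α := by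
      rw [← h]
      field_simp
    rw [h2]
    push_cast
    rw [hu]
    field_simp
    ring
  · rintro ⟨m, n, rfl⟩
    refine ⟨m + 2 * n, m, ⟨m + n, by ring⟩, ?_⟩
    push_cast
    field_simp
    ring

theorem RR_scale {α β : ℝ} (hα : 0 < α) (hβ : 0 < β) (z : ℂ) :
    (α : ℂ) * z ∈ RR α β ↔
      ∃ m n : ℤ, z = m * ((up 0 (div_pos hβ hα) : UpperHalfPlane) : ℂ) + n := by
  have hα' : (α : ℂ) ≠ 0 := by exact_mod_cast hα.ne'
  have hup : ((up 0 (div_pos hβ hα) : UpperHalfPlane) : ℂ)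
      = ((0 : ℝ) : ℂ) + ((β / α : ℝ) : ℂ) * Complex.I := rfl
  rw [hup]
  constructor
  · rintro ⟨u, v, h⟩
    refine ⟨v, u, ?_⟩
    have h2 : z = (((α * u : ℝ) : ℂ) + ((β * v : ℝ) : ℂ) * Complex.I) / α := by
      rw [← h]
      field_simp
    rw [h2]
    push_cast
    field_simp
    ring
  · rintro ⟨m, n, rfl⟩
    refine ⟨n, m, ?_⟩
    push_cast
    field_simp
    ring

/-- The `j`-invariant of a lattice homothetic to `ℤ τ + ℤ`. -/
theorem jj_of_scale {Λ : PeriodPair} {α : ℝ} (hα : 0 < α) {τ : UpperHalfPlane}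
    (h : ∀ z : ℂ, (α : ℂ) * z ∈ Λ.lattice ↔ ∃ m n : ℤ, z = m * (τ : ℂ) + n) : jj Λ = jt τ := by
  have hα' : (α : ℂ) ≠ 0 := by exact_mod_cast hα.ne'
  obtain ⟨Λ', hΛ'⟩ := scale_exists Λ (c := (α : ℂ)⁻¹) (inv_ne_zero hα')
  rw [← jj_scale (inv_ne_zero hα') hΛ']
  apply jj_tau
  intro z
  rw [← h, ← hΛ', ← mul_assoc, inv_mul_cancel₀ hα', one_mul]

end SFun

/-- `CL α β = α · (ℤ (1 + i y)/2 + ℤ)` with `y = β / α`; and the `j`-invariant is real as the lattice is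
stable under complex conjugation (`g_conj` with `Λ' = Λ`). -/
theorem jj_CL {Λ : PeriodPair} {α β : ℝ} (hα : 0 < α) (hβ : 0 < β)
    (h : ∀ z : ℂ, z ∈ Λ.lattice ↔ z ∈ CL α β) : jj Λ = (J1 (β / α) : ℂ) := by
  have h1 : jj Λ = jt (up (1 / 2) (half_pos (div_pos hβ hα))) := by
    apply SFun.jj_of_scale hα
    intro z
    rw [h, SFun.CL_scale hα hβ]
  have h2 := SFun.jj_real (Λ := Λ) (fun z => by
    rw [h, h]
    exact SFun.conj_iff (fun z hz => SFun.CL_conj z hz) z)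
  rw [h2]
  unfold J1
  rw [dif_pos (div_pos hβ hα), h1]

theorem jj_RR {Λ : PeriodPair} {α β : ℝ} (hα : 0 < α) (hβ : 0 < β)
    (h : ∀ z : ℂ, z ∈ Λ.lattice ↔ z ∈ RR α β) : jj Λ = (J2 (β / α) : ℂ) := by
  have h1 : jj Λ = jt (up 0 (div_pos hβ hα)) := by
    apply SFun.jj_of_scale hα
    intro z
    rw [h, SFun.RR_scale hα hβ]
  have h2 := SFun.jj_real (Λ := Λ) (fun z => by
    rw [h, h]
    exact SFun.conj_iff (fun z hz => SFun.RR_conj z hz) z)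
  rw [h2]
  unfold J2
  rw [dif_pos (div_pos hβ hα), h1]

/-- `i · CL α β = CL β α`. -/
theorem J1_inv {y : ℝ} (hy : 0 < y) : J1 y⁻¹ = J1 y := by
  obtain ⟨Λ, hΛ⟩ := CL_exists one_pos hy
  obtain ⟨Λ', hΛ'⟩ := CL_exists hy one_pos
  have h1 := jj_CL one_pos hy hΛ
  have h2 := jj_CL hy one_pos hΛ'
  have h3 : jj Λ' = jj Λ := jj_scale Complex.I_ne_zero (fun z => by
    rw [hΛ', hΛ]; exact SFun.CL_I_iff z)
  rw [h1, h2, div_one, one_div] at h3
  exact_mod_cast h3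

theorem J2_inv {y : ℝ} (hy : 0 < y) : J2 y⁻¹ = J2 y := by
  obtain ⟨Λ, hΛ⟩ := RR_exists one_pos hy
  obtain ⟨Λ', hΛ'⟩ := RR_exists hy one_pos
  have h1 := jj_RR one_pos hy hΛ
  have h2 := jj_RR hy one_pos hΛ'
  have h3 : jj Λ' = jj Λ := jj_scale Complex.I_ne_zero (fun z => by
    rw [hΛ', hΛ]; exact SFun.RR_I_iff z)
  rw [h1, h2, div_one, one_div] at h3
  exact_mod_cast h3

namespace SFun

/-- A lattice stable under `i` has `j`-invariant `1728`. -/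
theorem jj_I {Λ : PeriodPair} (h : ∀ z : ℂ, Complex.I * z ∈ Λ.lattice ↔ z ∈ Λ.lattice) :
    jj Λ = 1728 := by
  have h1 := (g_scale Complex.I_ne_zero h).2
  have h6 : Complex.I ^ 6 = -1 := by
    rw [show (6 : ℕ) = 4 + 2 by norm_num, pow_add, Complex.I_pow_four, Complex.I_sq, one_mul]
  rw [h6] at h1
  have h3 : Λ.g₃ = 0 := by
    have h4 : (2 : ℂ) * Λ.g₃ = 0 := by
      linear_combination h1
    exact (mul_eq_zero.1 h4).resolve_left (by norm_num)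
  have hd := wp_dsc Λ
  unfold jj jinv
  rw [div_eq_iff hd]
  unfold dsc
  rw [h3]
  ring

end SFun

/-- The lattice `CL 1 1` is stable under `i`, so `g₃ = 0` by `g_scale` with `c = i`. -/
theorem J1_one : J1 1 = 1728 := by
  obtain ⟨Λ, hΛ⟩ := CL_exists one_pos one_pos
  have h1 := jj_CL one_pos one_pos hΛ
  have h2 := SFun.jj_I (Λ := Λ) (fun z => by rw [hΛ, hΛ]; exact SFun.CL_I_iff z)
  rw [h2, div_one] at h1
  have h3 : ((1728 : ℝ) : ℂ) = (J1 1 : ℂ) := by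
    rw [← h1]
    norm_num
  exact (Complex.ofReal_injective h3).symm

theorem J2_one : J2 1 = 1728 := by
  obtain ⟨Λ, hΛ⟩ := RR_exists one_pos one_pos
  have h1 := jj_RR one_pos one_pos hΛ
  have h2 := SFun.jj_I (Λ := Λ) (fun z => by rw [hΛ, hΛ]; exact SFun.RR_I_iff z)
  rw [h2, div_one] at h1
  have h3 : ((1728 : ℝ) : ℂ) = (J2 1 : ℂ) := by
    rw [← h1]
    norm_num
  exact (Complex.ofReal_injective h3).symm

end LT.Sgn
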