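import Mathlib

/-!
# MP_f1937f_nt: products over a set with an involution (piece SPROD)
-/

namespace LT.Sgn

namespace SProd

theorem nofix {X : Type} [DecidableEq X] (n : ℕ) (s : Finset X) (hn : s.card = n) (c : X → X)
    (hc : ∀ x ∈ s, c x ∈ s)
    (hcc : ∀ x ∈ s, c (c x) = x) (hfix : ∀ x ∈ s, c x ≠ x)
    (f : X → ℂ) (hf : ∀ x ∈ s, f (c x) = starRingEnd ℂ (f x))
    (h0 : ∀ x ∈ s, f x ≠ 0) : ∃ r : ℝ, 0 < r ∧ ∏ x ∈ s, f x = (r : ℂ) := by
  induction n using Nat.strong_induction_on generalizing s with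
  | _ n ih =>
    rcases s.eq_empty_or_nonempty with rfl | ⟨x, hx⟩
    · exact ⟨1, one_pos, by simp⟩
    · have hx' : c x ∈ s.erase x := Finset.mem_erase.2 ⟨hfix x hx, hc x hx⟩
      have hsub : ∀ y ∈ (s.erase x).erase (c x), y ∈ s := fun y hy =>
        Finset.mem_of_mem_erase (Finset.mem_of_mem_erase hy)
      have hcard : ((s.erase x).erase (c x)).card < n := by
        have h1 := Finset.card_erase_lt_of_mem hx
        have h2 := Finset.card_erase_lt_of_mem hx'
        omega
      obtain ⟨r, hr, hr'⟩ := ih _ hcard ((s.erase x).erase (c x)) rfl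
        (by
          intro y hy
          have hys := hsub y hy
          rw [Finset.mem_erase, Finset.mem_erase] at hy ⊢
          refine ⟨fun h => ?_, fun h => ?_, hc y hys⟩
          · apply hy.2.1
            rw [← hcc y hys, h, hcc x hx]
          · apply hy.1
            rw [← h, hcc y hys])
        (fun y hy => hcc y (hsub y hy)) (fun y hy => hfix y (hsub y hy))
        (fun y hy => hf y (hsub y hy)) (fun y hy => h0 y (hsub y hy))
      refine ⟨‖f x‖ ^ 2 * r, mul_pos (pow_pos (norm_pos_iff.2 (h0 x hx)) 2) hr, ?_⟩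
      rw [← Finset.mul_prod_erase s f hx, ← Finset.mul_prod_erase _ f hx', hr', hf x hx,
        ← mul_assoc, Complex.mul_conj, Complex.normSq_eq_norm_sq]
      push_cast
      ring

end SProd

/-- The product over the points which are not fixed is a positive real number. Induction on the number
of points which are not fixed: `f x * f (c x) = |f x|² > 0`. -/
theorem sgn_prod {X : Type} [DecidableEq X] (s : Finset X) (c : X → X) (hc : ∀ x ∈ s, c x ∈ s)
    (hcc : ∀ x ∈ s, c (c x) = x) (f : X → ℂ) (hf : ∀ x ∈ s, f (c x) = starRingEnd ℂ (f x))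
    (h0 : ∀ x ∈ s, f x ≠ 0) :
    ∃ r : ℝ, 0 < r ∧ ∏ x ∈ s, f x = (r : ℂ) * ∏ x ∈ s.filter (fun x => c x = x), f x := by
  obtain ⟨r, hr, hr'⟩ := SProd.nofix _ (s.filter (fun x => ¬ c x = x)) rfl c
    (by
      intro x hx
      rw [Finset.mem_filter] at hx ⊢
      refine ⟨hc x hx.1, fun h => hx.2 ?_⟩
      rw [hcc x hx.1] at h
      exact h.symm)
    (fun x hx => hcc x (Finset.mem_of_mem_filter x hx))
    (fun x hx => (Finset.mem_filter.1 hx).2) f
    (fun x hx => hf x (Finset.mem_of_mem_filter x hx))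
    (fun x hx => h0 x (Finset.mem_of_mem_filter x hx))
  refine ⟨r, hr, ?_⟩
  rw [← Finset.prod_filter_mul_prod_filter_not s (fun x => c x = x), hr', mul_comm]

/-- A product of real numbers of which exactly one is negative. -/
theorem neg_one_prod {X : Type} [DecidableEq X] (s : Finset X) (g : X → ℝ) {x₀ : X} (h : x₀ ∈ s)
    (h₀ : g x₀ < 0) (h₁ : ∀ x ∈ s, x ≠ x₀ → 0 < g x) : ∏ x ∈ s, g x < 0 := by
  rw [← Finset.mul_prod_erase s g h]
  exact mul_neg_of_neg_of_pos h₀ (Finset.prod_pos (fun x hx =>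
    h₁ x (Finset.mem_of_mem_erase hx) (Finset.ne_of_mem_erase hx)))

/-- A product of an even number of real numbers of which exactly one is positive. -/
theorem neg_even_prod {X : Type} [DecidableEq X] (s : Finset X) (hs : Even s.card) (g : X → ℝ)
    {x₀ : X} (h : x₀ ∈ s) (h₀ : 0 < g x₀) (h₁ : ∀ x ∈ s, x ≠ x₀ → g x < 0) : ∏ x ∈ s, g x < 0 := by
  rw [← Finset.mul_prod_erase s g h]
  apply mul_neg_of_pos_of_neg h₀
  have hodd : Odd (s.erase x₀).card := by
    rw [Finset.card_erase_of_mem h]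
    have hpos : 0 < s.card := Finset.card_pos.2 ⟨x₀, h⟩
    exact Nat.Even.sub_odd hpos hs odd_one
  have h2 : ∏ x ∈ s.erase x₀, g x = (-1) ^ (s.erase x₀).card * ∏ x ∈ s.erase x₀, (- g x) := by
    rw [← Finset.prod_const, ← Finset.prod_mul_distrib]
    refine Finset.prod_congr rfl (fun x _ => ?_)
    ring
  rw [h2, hodd.neg_one_pow, neg_one_mul]
  apply neg_neg_of_pos
  exact Finset.prod_pos (fun x hx =>
    neg_pos.2 (h₁ x (Finset.mem_of_mem_erase hx) (Finset.ne_of_mem_erase hx)))

end LT.Sgn
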