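import Pool.Agent.Lib_MP_f1937f_nt.SClsB
import Pool.Agent.Lib_MP_f1937f_nt.SFun
import Pool.Agent.Lib_MP_f1937f_nt.SFin
import Pool.Agent.Lib_MP_f1937f_nt.SProd
import Pool.Agent.Lib_MP_f1937f_nt.Vel

/-!
# MP_f1937f_nt: the product over the real subgroups (layer SGN)
-/

namespace LT.Sgn

open Polynomial WeierstrassCurve PeriodPair

variable {Λ : PeriodPair} {θ : ℂ →+ Pt (0 : ℂ) (-31 / 4)}

/-- A subgroup whose inverse image is stable under conjugation is stable under conjugation. -/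
theorem stable_of (hθ : IsTh Λ θ) (h : ∀ z : ℂ, starRingEnd ℂ z ∈ Λ.lattice ↔ z ∈ Λ.lattice)
    {L : AddSubgroup (Pt (0 : ℂ) (-31 / 4))} {S : Set ℂ} (hS : ∀ z : ℂ, θ z ∈ L ↔ z ∈ S)
    (hc : ∀ z ∈ S, starRingEnd ℂ z ∈ S) : L.map cj = L := by
  have key : ∀ P ∈ L, cj P ∈ L := by
    intro P hP
    obtain ⟨z, rfl⟩ := hθ.surj P
    rw [← th_conj hθ h]
    exact (hS _).2 (hc _ ((hS _).1 hP))
  apply le_antisymm
  · rintro _ ⟨P, hP, rfl⟩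
    exact key P hP
  · intro P hP
    exact ⟨cj P, key P hP, cj_cj P⟩

theorem jL_eq_jj (hθ : IsTh Λ θ) {n : ℕ} (hn : 0 < n) {L : AddSubgroup (Pt (0 : ℂ) (-31 / 4))}
    (hL : L ∈ CycL (0 : ℂ) (-31 / 4) n) :
    ∃ Λ' : PeriodPair, (∀ z : ℂ, z ∈ Λ'.lattice ↔ θ z ∈ L) ∧ jL 0 (-31 / 4) L = jj Λ' := by
  obtain ⟨Λ', h1, h2, h3, -⟩ := velu_C hθ L (cyc_fin hn hL)
  refine ⟨Λ', h1, ?_⟩
  rw [jL, h2, h3, jj]

theorem fix_prod (hθ : IsTh Λ θ) {n : ℕ} (hn : 0 < n) (P : Finset (ℕ × ℕ)) (S : ℕ × ℕ → Set ℂ)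
    (y : ℕ × ℕ → ℝ) (j : ℝ)
    (hfwd : ∀ L ∈ CycL (0 : ℂ) (-31 / 4) n, L.map cj = L → ∃ p ∈ P, ∀ z : ℂ, θ z ∈ L ↔ z ∈ S p)
    (hbwd : ∀ p ∈ P, ∃ L ∈ CycL (0 : ℂ) (-31 / 4) n, L.map cj = L ∧ ∀ z : ℂ, θ z ∈ L ↔ z ∈ S p)
    (hinj : ∀ p ∈ P, ∀ q ∈ P, S p = S q → p = q)
    (hJ : ∀ p ∈ P, ∀ Λ' : PeriodPair, (∀ z : ℂ, z ∈ Λ'.lattice ↔ z ∈ S p) → jj Λ' = (y p : ℂ))
    (hne : ∀ L ∈ CycL (0 : ℂ) (-31 / 4) n, jL 0 (-31 / 4) L ≠ (j : ℂ)) :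
    (∀ p ∈ P, y p ≠ j) ∧
    ∃ r : ℝ, 0 < r ∧ NN ℂ (j : ℂ) n = ((r * ∏ p ∈ P, (j - y p) : ℝ) : ℂ) := by
  classical
  have hyL : ∀ p ∈ P, ∀ L ∈ CycL (0 : ℂ) (-31 / 4) n, (∀ z : ℂ, θ z ∈ L ↔ z ∈ S p) →
      jL 0 (-31 / 4) L = (y p : ℂ) := by
    intro p hp L hL hz
    obtain ⟨Λ', h1, h2⟩ := jL_eq_jj hθ hn hL
    rw [h2]
    exact hJ p hp Λ' fun z => (h1 z).trans (hz z)
  refine ⟨fun p hp h => ?_, ?_⟩
  · obtain ⟨L, hL, -, hz⟩ := hbwd p hp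
    exact hne L hL (by rw [hyL p hp L hL hz, h])
  have hfin := cyc_finite hθ hn
  obtain ⟨r, hr, hprod⟩ := sgn_prod hfin.toFinset (fun L => L.map cj)
    (fun L hL => by
      rw [Set.Finite.mem_toFinset] at hL ⊢
      exact map_cj_cyc hL)
    (fun L _ => map_cj_cj L) (fun L => (j : ℂ) - jL 0 (-31 / 4) L)
    (fun L hL => by
      rw [Set.Finite.mem_toFinset] at hL
      have := cyc_fin hn hL
      rw [jL_cj this, map_sub, Complex.conj_ofReal])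
    (fun L hL => by
      rw [Set.Finite.mem_toFinset] at hL
      exact sub_ne_zero.2 (hne L hL).symm)
  refine ⟨r, hr, ?_⟩
  have h1 : NN ℂ (j : ℂ) n = ∏ L ∈ hfin.toFinset, ((j : ℂ) - jL 0 (-31 / 4) L) := by
    rw [NN, finprod_mem_eq_finite_toFinset_prod _ hfin]
  rw [h1, hprod, Complex.ofReal_mul, Complex.ofReal_prod]
  congr 1
  symm
  refine Finset.prod_bij (fun p hp => Classical.choose (hbwd p hp)) ?_ ?_ ?_ ?_
  · intro p hp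
    obtain ⟨a1, a2, -⟩ := Classical.choose_spec (hbwd p hp)
    rw [Finset.mem_filter, Set.Finite.mem_toFinset]
    exact ⟨a1, a2⟩
  · intro p hp q hq hpq
    obtain ⟨-, -, a3⟩ := Classical.choose_spec (hbwd p hp)
    obtain ⟨-, -, b3⟩ := Classical.choose_spec (hbwd q hq)
    apply hinj p hp q hq
    ext z
    rw [← a3, ← b3]
    have hpq' : Classical.choose (hbwd p hp) = Classical.choose (hbwd q hq) := hpq
    rw [hpq']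
  · intro L hL
    rw [Finset.mem_filter, Set.Finite.mem_toFinset] at hL
    obtain ⟨p, hp, hz⟩ := hfwd L hL.1 hL.2
    refine ⟨p, hp, ?_⟩
    obtain ⟨-, -, a3⟩ := Classical.choose_spec (hbwd p hp)
    ext Q
    obtain ⟨z, rfl⟩ := hθ.surj Q
    rw [a3, hz]
  · intro p hp
    obtain ⟨a1, -, a3⟩ := Classical.choose_spec (hbwd p hp)
    rw [hyL p hp _ a1 a3, Complex.ofReal_sub]

end LT.Sgn
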