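import Pool.Agent.Lib_MP_f1937f_nt.SDef

/-!
# MP_f1937f_nt: continuity and limits of `J1` and `J2` (piece SLIM)
-/

namespace LT.Sgn

open Polynomial WeierstrassCurve PeriodPair Filter Topology

namespace SLim

open UpperHalfPlane ModularForm

theorem jt_cont : Continuous jt := by
  unfold jt
  have h1 : Continuous (fun τ : ℍ => E₄ τ) := (ModularFormClass.holo E₄).continuous
  have h2 : Continuous (fun τ : ℍ => ModularForm.discriminant τ) :=
    (CuspFormClass.holo CuspForm.discriminant).continuous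
  exact (h1.pow 3).div h2 (fun τ => ModularForm.discriminant_ne_zero τ)

theorem up_cont (r : ℝ) : Continuous (fun y : Set.Ioi (0:ℝ) => up r y.2) := by
  rw [UpperHalfPlane.isEmbedding_coe.continuous_iff]
  show Continuous (fun y : Set.Ioi (0:ℝ) => (r : ℂ) + (y.1 : ℂ) * Complex.I)
  fun_prop

theorem up_half_cont (r : ℝ) : Continuous (fun y : Set.Ioi (0:ℝ) => up r (half_pos y.2)) := by
  rw [UpperHalfPlane.isEmbedding_coe.continuous_iff]
  show Continuous (fun y : Set.Ioi (0:ℝ) => (r : ℂ) + ((y.1 / 2 : ℝ) : ℂ) * Complex.I)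
  fun_prop

end SLim

/-- `J1` is continuous: `E₄` and `Δ` are holomorphic on the upper half plane, `Δ ≠ 0`. -/
theorem J1_cont : ContinuousOn J1 (Set.Ioi 0) := by
  rw [continuousOn_iff_continuous_domRestrict]
  have : (Set.Ioi (0:ℝ)).domRestrict J1 = fun y => (jt (up (1 / 2) (half_pos y.2))).re := by
    funext y
    show J1 y.1 = _
    unfold J1
    rw [dif_pos (show (0:ℝ) < y.1 from y.2)]
  rw [this]
  exact Complex.continuous_re.comp (SLim.jt_cont.comp (SLim.up_half_cont _))

theorem J2_cont : ContinuousOn J2 (Set.Ioi 0) := by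
  rw [continuousOn_iff_continuous_domRestrict]
  have : (Set.Ioi (0:ℝ)).domRestrict J2 = fun y => (jt (up 0 y.2)).re := by
    funext y
    show J2 y.1 = _
    unfold J2
    rw [dif_pos (show (0:ℝ) < y.1 from y.2)]
  rw [this]
  exact Complex.continuous_re.comp (SLim.jt_cont.comp (SLim.up_cont _))

namespace SLim

open UpperHalfPlane ModularForm

theorem E4_lim : Tendsto (fun τ : ℍ => E₄ τ) atImInfty (𝓝 1) := by
  have h0 : valueAtInfty E₄ = 1 := by
    have h1 := EisensteinSeries.E_qExpansion_coeff_zero (k := 4) (by norm_num) ⟨2, rfl⟩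
    rw [UpperHalfPlane.qExpansion_coeff_zero one_pos
      (ModularFormClass.analyticAt_cuspFunction_zero _ one_pos one_mem_strictPeriods_SL)
      (SlashInvariantFormClass.periodic_comp_ofComplex _ one_mem_strictPeriods_SL)] at h1
    exact h1
  obtain ⟨c, hc, h⟩ := ModularFormClass.exp_decay_sub_atImInfty' E₄
  rw [h0] at h
  have h2 : Tendsto (fun τ : ℍ => Real.exp (-c * τ.im)) atImInfty (𝓝 0) := by
    apply Real.tendsto_exp_atBot.comp
    apply Tendsto.const_mul_atTop_of_neg (by linarith : -c < 0)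
    exact tendsto_comap
  have h3 := h.trans_tendsto h2
  have h4 := h3.add_const 1
  simpa using h4

/-- the factor `q j(τ)` -/
noncomputable def gg (τ : ℍ) : ℂ := E₄ τ ^ 3 / ∏' n : ℕ, (1 - eta_q n τ) ^ 24

theorem gg_lim : Tendsto gg atImInfty (𝓝 1) := by
  have h := (E4_lim.pow 3).div tendsto_atImInfty_tprod_one_sub_eta_q_pow one_ne_zero
  rw [one_pow, div_one] at h
  exact h

theorem jt_eq (τ : ℍ) : jt τ = gg τ / Function.Periodic.qParam 1 τ := by
  unfold jt gg
  rw [discriminant_eq_q_prod, div_div]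
  congr 1
  ring

/-- the point `r + i y`, junk for `y ≤ 0` -/
noncomputable def P (r y : ℝ) : ℍ := ofComplex ((r : ℂ) + y * Complex.I)

theorem P_eq (r : ℝ) {y : ℝ} (hy : 0 < y) : P r y = up r hy := by
  unfold P up
  rw [ofComplex_apply_of_im_pos (by simpa using hy)]

theorem P_lim (r : ℝ) : Tendsto (P r) atTop atImInfty := by
  rw [atImInfty, tendsto_comap_iff]
  refine tendsto_id.congr' ?_
  filter_upwards [eventually_gt_atTop 0] with t ht
  rw [Function.comp_apply, P_eq r ht]
  simp [up, UpperHalfPlane.im]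

theorem coe_up (r : ℝ) {y : ℝ} (hy : 0 < y) : ((up r hy : ℍ) : ℂ) = (r : ℂ) + y * Complex.I := rfl

theorem q_zero {y : ℝ} (hy : 0 < y) :
    Function.Periodic.qParam 1 (up 0 hy) = ((Real.exp (-(2 * Real.pi * y)) : ℝ) : ℂ) := by
  rw [Function.Periodic.qParam, coe_up]
  push_cast
  congr 1
  rw [div_one, zero_add]
  linear_combination (2 * (Real.pi : ℂ) * y) * Complex.I_mul_I

theorem q_half {y : ℝ} (hy : 0 < y) :
    Function.Periodic.qParam 1 (up (1 / 2) (half_pos hy)) =
      ((-Real.exp (-(Real.pi * y)) : ℝ) : ℂ) := by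
  rw [Function.Periodic.qParam, coe_up]
  push_cast
  have : 2 * (Real.pi : ℂ) * Complex.I * (1 / 2 + (y : ℂ) / 2 * Complex.I) / 1 =
      Real.pi * Complex.I + -(Real.pi * y) := by
    rw [div_one]
    linear_combination ((Real.pi : ℂ) * y) * Complex.I_mul_I
  rw [this, Complex.exp_add, Complex.exp_pi_mul_I]
  ring

end SLim

/-- As `y → ∞`: `q = exp(2 π i (1 + i y) / 2) = - exp(- π y)`, `E₄ → 1`
(constant term of the `q`-expansion, `ModularFormClass` / `EisensteinSeries.q_expansion_bernoulli`),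
`Δ = q ∏ (1 - qⁿ)²⁴` (`ModularForm.discriminant_eq_q_prod`) with the product tending to `1`
(Mathlib shows `Δ → 0` in a similar way), so `Re (E₄³ / Δ) → -∞`. -/
theorem J1_lim : Tendsto J1 atTop atBot := by
  have h1 : Tendsto (fun y : ℝ => (SLim.gg (SLim.P (1 / 2) (y / 2))).re) atTop (𝓝 1) := by
    have h2 : Tendsto (fun y : ℝ => y / 2) atTop atTop :=
      tendsto_id.atTop_div_const (by norm_num)
    have h3 := (SLim.gg_lim.comp (SLim.P_lim (1 / 2))).comp h2
    exact (Complex.continuous_re.tendsto _).comp h3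
  have h4 : Tendsto (fun y : ℝ => Real.exp (Real.pi * y)) atTop atTop :=
    Real.tendsto_exp_atTop.comp (tendsto_id.const_mul_atTop Real.pi_pos)
  have h5 := tendsto_neg_atTop_atBot.comp (h1.pos_mul_atTop one_pos h4)
  refine h5.congr' ?_
  filter_upwards [eventually_gt_atTop 0] with y hy
  unfold J1
  rw [dif_pos hy, SLim.jt_eq, SLim.q_half hy, ← SLim.P_eq (1 / 2) (half_pos hy),
    Complex.div_ofReal_re]
  simp only [Function.comp_apply]
  rw [Real.exp_neg]
  field_simp

/-- The same with `q = exp(- 2 π y) > 0`. -/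
theorem J2_lim : Tendsto J2 atTop atTop := by
  have h1 : Tendsto (fun y : ℝ => (SLim.gg (SLim.P 0 y)).re) atTop (𝓝 1) := by
    have h3 := (SLim.gg_lim.comp (SLim.P_lim 0))
    exact (Complex.continuous_re.tendsto _).comp h3
  have h4 : Tendsto (fun y : ℝ => Real.exp (2 * Real.pi * y)) atTop atTop :=
    Real.tendsto_exp_atTop.comp (tendsto_id.const_mul_atTop (by positivity))
  have h5 := (h1.pos_mul_atTop one_pos h4)
  refine h5.congr' ?_
  filter_upwards [eventually_gt_atTop 0] with y hy
  unfold J2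
  rw [dif_pos hy, SLim.jt_eq, SLim.q_zero hy, ← SLim.P_eq 0 hy, Complex.div_ofReal_re,
    Real.exp_neg]
  field_simp

end LT.Sgn
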