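import Mathlib

/-!
# MP_f1937f_nt: a window (piece SWIN)
-/

namespace LT.Sgn

open Filter Topology

/-- Real analysis. Let `y* = sSup {y ≥ 1 | j < J y}` (contains `1`, bounded above as `J → -∞`); take
`y₀ ≥ 1` with `j < J y₀` and `y* < 2 y₀` (possible: `y₀` close to `y*`), `ylo = y₀` and
`yhi` slightly larger. -/
theorem win_bot {J : ℝ → ℝ} (hc : ContinuousOn J (Set.Ioi 0)) (hl : Tendsto J atTop atBot) {j : ℝ}
    (h1 : j < J 1) : ∃ ylo yhi : ℝ, 1 ≤ ylo ∧ ylo < yhi ∧ (∀ y, ylo < y → y < yhi → j < J y) ∧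
      ∀ y, 3 * ylo ≤ y → J y ≤ j := by
  have hS1 : (1 : ℝ) ∈ {y : ℝ | 1 ≤ y ∧ j < J y} := ⟨le_refl _, h1⟩
  have hSb : BddAbove {y : ℝ | 1 ≤ y ∧ j < J y} := by
    obtain ⟨B, hB⟩ := (eventually_atTop).1 (hl.eventually_le_atBot j)
    refine ⟨B, fun y hy => ?_⟩
    by_contra hc
    push Not at hc
    exact absurd (hB y hc.le) (not_le.2 hy.2)
  have hs : 1 ≤ sSup {y : ℝ | 1 ≤ y ∧ j < J y} := le_csSup hSb hS1
  obtain ⟨y0, hy0, hy1⟩ := exists_lt_of_lt_csSup (b := sSup {y : ℝ | 1 ≤ y ∧ j < J y} / 2)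
    ⟨1, hS1⟩ (by linarith)
  have hcat : ContinuousAt J y0 := hc.continuousAt (Ioi_mem_nhds (by linarith [hy0.1]))
  have hev : ∀ᶠ y in 𝓝 y0, j < J y := hcat.eventually_const_lt hy0.2
  obtain ⟨δ, hδ, hb⟩ := Metric.eventually_nhds_iff.1 hev
  refine ⟨y0, y0 + δ, hy0.1, by linarith, ?_, ?_⟩
  · intro y hy hy'
    apply hb
    rw [Real.dist_eq, abs_of_pos (by linarith)]
    linarith
  · intro y hy
    by_contra hcon
    push Not at hcon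
    have h2 : y ≤ sSup {y : ℝ | 1 ≤ y ∧ j < J y} :=
      le_csSup hSb ⟨by linarith [hy0.1], hcon⟩
    linarith [hy0.1]

/-- Apply `win_bot` to `-J`. -/
theorem win_top {J : ℝ → ℝ} (hc : ContinuousOn J (Set.Ioi 0)) (hl : Tendsto J atTop atTop) {j : ℝ}
    (h1 : J 1 < j) : ∃ ylo yhi : ℝ, 1 ≤ ylo ∧ ylo < yhi ∧ (∀ y, ylo < y → y < yhi → J y < j) ∧
      ∀ y, 3 * ylo ≤ y → j ≤ J y := by
  obtain ⟨ylo, yhi, h2, h3, h4, h5⟩ := win_bot (J := fun y => -J y) (j := -j) hc.neg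
    (tendsto_neg_atTop_atBot.comp hl) (neg_lt_neg h1)
  refine ⟨ylo, yhi, h2, h3, fun y hy hy' => ?_, fun y hy => ?_⟩
  · have := h4 y hy hy'
    linarith
  · have := h5 y hy
    linarith

end LT.Sgn
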