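import Pool.Agent.Lib_MP_f1937f_nt.Hex
import Pool.Agent.Lib_MP_f1937f_nt.SFix
import Pool.Agent.Lib_MP_f1937f_nt.SComb
import Pool.Agent.Lib_MP_f1937f_nt.SWin
import Pool.Agent.Lib_MP_f1937f_nt.SLim

/-!
# MP_f1937f_nt: the sign of `N_n` (layer SGN)
-/

namespace LT

open Polynomial WeierstrassCurve PeriodPair

namespace Sgn

theorem CL_conj {α β : ℝ} {z : ℂ} (hz : z ∈ CL α β) : starRingEnd ℂ z ∈ CL α β := by
  obtain ⟨u, v, huv, rfl⟩ := hz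
  refine ⟨u, -v, ?_, ?_⟩
  · rw [← sub_eq_add_neg, Int.even_sub]
    exact Int.even_add.1 huv
  · rw [map_div₀, map_add, map_mul, Complex.conj_ofReal, Complex.conj_ofReal, Complex.conj_I,
      Complex.conj_ofNat]
    push_cast
    ring

theorem RR_conj {α β : ℝ} {z : ℂ} (hz : z ∈ RR α β) : starRingEnd ℂ z ∈ RR α β := by
  obtain ⟨u, v, rfl⟩ := hz
  refine ⟨u, -v, ?_⟩
  rw [map_add, map_mul, Complex.conj_ofReal, Complex.conj_ofReal, Complex.conj_I]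
  push_cast
  ring

theorem lat_conj {Λ : PeriodPair} {α β : ℝ} (h : ∀ z : ℂ, z ∈ Λ.lattice ↔ z ∈ CL α β) (z : ℂ) :
    starRingEnd ℂ z ∈ Λ.lattice ↔ z ∈ Λ.lattice := by
  rw [h, h]
  refine ⟨fun hz => ?_, fun hz => CL_conj hz⟩
  have := CL_conj hz
  rwa [Complex.conj_conj] at this

theorem max_inv {J : ℝ → ℝ} (hJ : ∀ y : ℝ, 0 < y → J y⁻¹ = J y) {y : ℝ} (hy : 0 < y) :
    J (max y y⁻¹) = J y := by
  rcases max_choice y y⁻¹ with h | h
  · rw [h]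
  · rw [h, hJ y hy]

theorem two_coprime {m : ℕ} (h : Odd m) : IsCoprime (2 : ℤ) m := by
  obtain ⟨k, hk⟩ := h
  refine ⟨-k, 1, ?_⟩
  rw [hk]
  push_cast
  ring

theorem PP_mem {m : ℕ} {p : ℕ × ℕ} (hp : p ∈ PP m) : p.1 * p.2 = m ∧ p.1.Coprime p.2 ∧ m ≠ 0 := by
  rw [PP, Finset.mem_filter, Nat.mem_divisorsAntidiagonal] at hp
  exact ⟨hp.1.1, hp.2, hp.1.2⟩

/-- The data of a real subgroup of order `h m`, `h = 1` or `2`. -/
theorem fix_one {Λ : PeriodPair} {θ : ℂ →+ Pt (0 : ℂ) (-31 / 4)} {α β : ℝ} (hθ : IsTh Λ θ)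
    (hα : 0 < α) (hβ : 0 < β) (h : ∀ z : ℂ, z ∈ Λ.lattice ↔ z ∈ CL α β) {m : ℕ} (hm : Odd m)
    (j : ℝ) (hne : ∀ L ∈ CycL (0 : ℂ) (-31 / 4) m, jL 0 (-31 / 4) L ≠ (j : ℂ)) :
    (∀ p ∈ PP m, J1 (β / α * p.1 / p.2) ≠ j) ∧
    ∃ r : ℝ, 0 < r ∧
      NN ℂ (j : ℂ) m = ((r * ∏ p ∈ PP m, (j - J1 (β / α * p.1 / p.2)) : ℝ) : ℂ) := by
  have hm0 : 0 < m := hm.pos
  refine fix_prod hθ hm0 (PP m) (fun p => CL (α / p.1) (β / p.2))
    (fun p => J1 (β / α * p.1 / p.2)) j ?_ ?_ ?_ ?_ hne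
  · intro L hL hcj
    exact clsB_one hθ hα hβ h hm hL hcj
  · intro p hp
    obtain ⟨h1, h2, -⟩ := PP_mem hp
    rw [← h1, Nat.odd_mul] at hm
    have key := clsA_one hθ hα hβ h hm.1 hm.2 h2 (u := 2) (v := 2)
      (two_coprime hm.1) (two_coprime hm.2) (by decide)
    refine ⟨_, ⟨_, key.1.trans h1, rfl⟩, ?_, key.2⟩
    exact stable_of hθ (lat_conj h) key.2 fun z hz => CL_conj hz
  · intro p hp q hq hpq
    obtain ⟨h1, h2, h3⟩ := PP_mem hp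
    obtain ⟨h1', h2', h3'⟩ := PP_mem hq
    have a1 : p.1 ≠ 0 := by
      intro h0
      apply h3
      rw [← h1, h0, zero_mul]
    have a2 : p.2 ≠ 0 := by
      intro h0
      apply h3
      rw [← h1, h0, mul_zero]
    have b1 : q.1 ≠ 0 := by
      intro h0
      apply h3
      rw [← h1', h0, zero_mul]
    have b2 : q.2 ≠ 0 := by
      intro h0
      apply h3
      rw [← h1', h0, mul_zero]
    have a1' : (0 : ℝ) < p.1 := by exact_mod_cast Nat.pos_of_ne_zero a1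
    have a2' : (0 : ℝ) < p.2 := by exact_mod_cast Nat.pos_of_ne_zero a2
    have b1' : (0 : ℝ) < q.1 := by exact_mod_cast Nat.pos_of_ne_zero b1
    have b2' : (0 : ℝ) < q.2 := by exact_mod_cast Nat.pos_of_ne_zero b2
    obtain ⟨e1, e2⟩ := CL_inj (div_pos hα a1') (div_pos hβ a2') (div_pos hα b1') (div_pos hβ b2') hpq
    rw [div_eq_div_iff a1'.ne' b1'.ne'] at e1
    rw [div_eq_div_iff a2'.ne' b2'.ne'] at e2
    have e3 := mul_left_cancel₀ hα.ne' e1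
    have e4 := mul_left_cancel₀ hβ.ne' e2
    apply Prod.ext
    · exact_mod_cast e3.symm
    · exact_mod_cast e4.symm
  · intro p hp Λ' hΛ'
    obtain ⟨h1, h2, h3⟩ := PP_mem hp
    have a1 : p.1 ≠ 0 := by
      intro h0
      apply h3
      rw [← h1, h0, zero_mul]
    have a2 : p.2 ≠ 0 := by
      intro h0
      apply h3
      rw [← h1, h0, mul_zero]
    have a1' : (0 : ℝ) < p.1 := by exact_mod_cast Nat.pos_of_ne_zero a1
    have a2' : (0 : ℝ) < p.2 := by exact_mod_cast Nat.pos_of_ne_zero a2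
    rw [jj_CL (div_pos hα a1') (div_pos hβ a2') hΛ']
    congr 2
    field_simp

theorem fix_two {Λ : PeriodPair} {θ : ℂ →+ Pt (0 : ℂ) (-31 / 4)} {α β : ℝ} (hθ : IsTh Λ θ)
    (hα : 0 < α) (hβ : 0 < β) (h : ∀ z : ℂ, z ∈ Λ.lattice ↔ z ∈ CL α β) {m : ℕ} (hm : Odd m)
    (j : ℝ) (hne : ∀ L ∈ CycL (0 : ℂ) (-31 / 4) (2 * m), jL 0 (-31 / 4) L ≠ (j : ℂ)) :
    (∀ p ∈ PP m, J2 (β / α * p.1 / p.2) ≠ j) ∧
    ∃ r : ℝ, 0 < r ∧
      NN ℂ (j : ℂ) (2 * m) = ((r * ∏ p ∈ PP m, (j - J2 (β / α * p.1 / p.2)) : ℝ) : ℂ) := by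
  have hm0 : 0 < m := hm.pos
  refine fix_prod hθ (by omega) (PP m) (fun p => RR (α / (2 * p.1)) (β / (2 * p.2)))
    (fun p => J2 (β / α * p.1 / p.2)) j ?_ ?_ ?_ ?_ hne
  · intro L hL hcj
    exact clsB_two hθ hα hβ h hm hL hcj
  · intro p hp
    obtain ⟨h1, h2, -⟩ := PP_mem hp
    rw [← h1, Nat.odd_mul] at hm
    have key := clsA_two hθ hα hβ h hm.1 hm.2 h2 (u := 1) (v := 2) isCoprime_one_left
      (two_coprime hm.2) (by decide)
    refine ⟨_, ⟨_, key.1.trans (by rw [h1]), rfl⟩, ?_, key.2⟩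
    exact stable_of hθ (lat_conj h) key.2 fun z hz => RR_conj hz
  · intro p hp q hq hpq
    obtain ⟨h1, h2, h3⟩ := PP_mem hp
    obtain ⟨h1', h2', h3'⟩ := PP_mem hq
    have a1 : p.1 ≠ 0 := by
      intro h0
      apply h3
      rw [← h1, h0, zero_mul]
    have a2 : p.2 ≠ 0 := by
      intro h0
      apply h3
      rw [← h1, h0, mul_zero]
    have b1 : q.1 ≠ 0 := by
      intro h0
      apply h3
      rw [← h1', h0, zero_mul]
    have b2 : q.2 ≠ 0 := by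
      intro h0
      apply h3
      rw [← h1', h0, mul_zero]
    have a1' : (0 : ℝ) < 2 * p.1 := by
      have : (0 : ℝ) < p.1 := by exact_mod_cast Nat.pos_of_ne_zero a1
      linarith
    have a2' : (0 : ℝ) < 2 * p.2 := by
      have : (0 : ℝ) < p.2 := by exact_mod_cast Nat.pos_of_ne_zero a2
      linarith
    have b1' : (0 : ℝ) < 2 * q.1 := by
      have : (0 : ℝ) < q.1 := by exact_mod_cast Nat.pos_of_ne_zero b1
      linarith
    have b2' : (0 : ℝ) < 2 * q.2 := by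
      have : (0 : ℝ) < q.2 := by exact_mod_cast Nat.pos_of_ne_zero b2
      linarith
    obtain ⟨e1, e2⟩ := RR_inj (div_pos hα a1') (div_pos hβ a2') (div_pos hα b1') (div_pos hβ b2') hpq
    rw [div_eq_div_iff a1'.ne' b1'.ne'] at e1
    rw [div_eq_div_iff a2'.ne' b2'.ne'] at e2
    have e3 := mul_left_cancel₀ two_ne_zero (mul_left_cancel₀ hα.ne' e1)
    have e4 := mul_left_cancel₀ two_ne_zero (mul_left_cancel₀ hβ.ne' e2)
    apply Prod.ext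
    · exact_mod_cast e3.symm
    · exact_mod_cast e4.symm
  · intro p hp Λ' hΛ'
    obtain ⟨h1, h2, h3⟩ := PP_mem hp
    have a1 : p.1 ≠ 0 := by
      intro h0
      apply h3
      rw [← h1, h0, zero_mul]
    have a2 : p.2 ≠ 0 := by
      intro h0
      apply h3
      rw [← h1, h0, mul_zero]
    have a1' : (0 : ℝ) < p.1 := by exact_mod_cast Nat.pos_of_ne_zero a1
    have a2' : (0 : ℝ) < p.2 := by exact_mod_cast Nat.pos_of_ne_zero a2
    rw [jj_RR (div_pos hα (by positivity)) (div_pos hβ (by positivity)) hΛ']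
    congr 2
    field_simp

end Sgn

open Sgn

/-- The sign theorem. -/
theorem sign_main (j : ℝ) (hj : j ≠ 1728) :
    ∃ h : ℕ, (h = 1 ∨ h = 2) ∧ ∃ lo hi : ℝ, 0 < lo ∧ lo < hi ∧
      ∀ M k : ℕ, Odd M → ¬ 3 ∣ M → ¬ 7 ∣ M → 11 ∣ M → lo < 7 ^ k / (M : ℝ) → 7 ^ k / (M : ℝ) < hi →
        (∀ L ∈ CycL (0 : ℂ) (-31 / 4) (h * (M * 7 ^ k)), jL 0 (-31 / 4) L ≠ (j : ℂ)) →
        ∃ r : ℝ, r < 0 ∧ NN ℂ (j : ℂ) (h * (M * 7 ^ k)) = (r : ℂ) := by
  obtain ⟨Λ, α, β, hα, hβ, hαβ, hg2, hg3, hlat, -⟩ := hex_exists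
  obtain ⟨θ, hθ, -⟩ := th_exists Λ (a := (0 : ℂ)) (b := -31 / 4) (by rw [hg2]; simp) (by rw [hg3])
  have hs3 : 0 < Real.sqrt 3 := Real.sqrt_pos.2 (by norm_num)
  have hτ : β / α = Real.sqrt 3 ∨ β / α = 1 / Real.sqrt 3 := by
    rcases hαβ with h | h
    · left
      rw [h, mul_div_assoc, div_self hα.ne', mul_one]
    · right
      rw [h]
      field_simp
  have hτ0 : 0 < β / α := div_pos hβ hα
  have hpos : ∀ {m : ℕ} {p : ℕ × ℕ}, p ∈ PP m → 0 < β / α * p.1 / p.2 := by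
    intro m p hp
    obtain ⟨h1, h2, h3⟩ := PP_mem hp
    have a1 : p.1 ≠ 0 := by
      intro h0
      apply h3
      rw [← h1, h0, zero_mul]
    have a2 : p.2 ≠ 0 := by
      intro h0
      apply h3
      rw [← h1, h0, mul_zero]
    have a1' : (0 : ℝ) < p.1 := by exact_mod_cast Nat.pos_of_ne_zero a1
    have a2' : (0 : ℝ) < p.2 := by exact_mod_cast Nat.pos_of_ne_zero a2
    positivity
  rcases lt_or_gt_of_ne hj with hlt | hgt
  · obtain ⟨ylo, yhi, h1, h2, h3, h4⟩ := win_bot J1_cont J1_lim (j := j) (by rw [J1_one]; exact hlt)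
    refine ⟨1, Or.inl rfl, Real.sqrt 3 * ylo, Real.sqrt 3 * yhi, by positivity,
      mul_lt_mul_of_pos_left h2 hs3, ?_⟩
    intro M k hM _ h7 h11 hlo hhi hne
    rw [one_mul] at hne ⊢
    have hM1 : 1 < M := lt_of_lt_of_le (by norm_num) (Nat.le_of_dvd hM.pos h11)
    have hm : Odd (M * 7 ^ k) := hM.mul (Odd.pow (by decide))
    obtain ⟨p₀, hp₀, ⟨w1, w2⟩, w3⟩ := comb hτ h1 hM1 h7 hlo hhi
    obtain ⟨f1, r, hr, f2⟩ := fix_one hθ hα hβ hlat hm j hne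
    refine ⟨_, ?_, f2⟩
    apply mul_neg_of_pos_of_neg hr
    refine neg_one_prod (PP (M * 7 ^ k)) (fun p => j - J1 (β / α * p.1 / p.2)) hp₀ ?_ ?_
    · have := h3 _ w1 w2
      rw [max_inv (fun y hy => J1_inv hy) (hpos hp₀)] at this
      simpa using this
    · intro p hp hpp
      have h5 := h4 _ (w3 p hp hpp)
      rw [max_inv (fun y hy => J1_inv hy) (hpos hp)] at h5
      have h6 := f1 p hp
      have : J1 (β / α * p.1 / p.2) < j := lt_of_le_of_ne h5 h6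
      simpa using this
  · obtain ⟨ylo, yhi, h1, h2, h3, h4⟩ := win_top J2_cont J2_lim (j := j) (by rw [J2_one]; exact hgt)
    refine ⟨2, Or.inr rfl, Real.sqrt 3 * ylo, Real.sqrt 3 * yhi, by positivity,
      mul_lt_mul_of_pos_left h2 hs3, ?_⟩
    intro M k hM _ h7 h11 hlo hhi hne
    have hM1 : 1 < M := lt_of_lt_of_le (by norm_num) (Nat.le_of_dvd hM.pos h11)
    have hm : Odd (M * 7 ^ k) := hM.mul (Odd.pow (by decide))
    have hm1 : 1 < M * 7 ^ k := lt_of_lt_of_le hM1 (Nat.le_mul_of_pos_right _ (by positivity))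
    obtain ⟨p₀, hp₀, ⟨w1, w2⟩, w3⟩ := comb hτ h1 hM1 h7 hlo hhi
    obtain ⟨f1, r, hr, f2⟩ := fix_two hθ hα hβ hlat hm j hne
    refine ⟨_, ?_, f2⟩
    apply mul_neg_of_pos_of_neg hr
    refine neg_even_prod (PP (M * 7 ^ k)) (PP_even hm1) (fun p => j - J2 (β / α * p.1 / p.2)) hp₀ ?_ ?_
    · have := h3 _ w1 w2
      rw [max_inv (fun y hy => J2_inv hy) (hpos hp₀)] at this
      simpa using this
    · intro p hp hpp
      have h5 := h4 _ (w3 p hp hpp)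
      rw [max_inv (fun y hy => J2_inv hy) (hpos hp)] at h5
      have h6 := f1 p hp
      have : j < J2 (β / α * p.1 / p.2) := lt_of_le_of_ne h5 h6.symm
      simpa using this

/-- The `j`-invariants `j_L` are CM values. -/
theorem jL_cm {n : ℕ} (hn : 0 < n) {L : AddSubgroup (Pt (0 : ℂ) (-31 / 4))}
    (hL : L ∈ CycL (0 : ℂ) (-31 / 4) n) :
    ∃ Λ : PeriodPair, jL 0 (-31 / 4) L * (Λ.g₂ ^ 3 - 27 * Λ.g₃ ^ 2) = 1728 * Λ.g₂ ^ 3 ∧
      ∃ α : ℂ, (∀ z ∈ Λ.lattice, α * z ∈ Λ.lattice) ∧ ∀ k : ℤ, α ≠ k := by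
  obtain ⟨Λ, α, β, hα, hβ, hαβ, hg2, hg3, hlat, ρ, hρ, hρl⟩ := hex_exists
  obtain ⟨θ, hθ, -⟩ := th_exists Λ (a := (0 : ℂ)) (b := -31 / 4) (by rw [hg2]; simp) (by rw [hg3])
  obtain ⟨Λ', h1, h2⟩ := jL_eq_jj hθ hn hL
  have hd := wp_disc Λ'
  refine ⟨Λ', ?_, n * ρ, ?_, ?_⟩
  · rw [h2, jj, jinv, dsc]
    have e : 4 * (-Λ'.g₂ / 4) ^ 3 + 27 * (-Λ'.g₃ / 4) ^ 2 = -(Λ'.g₂ ^ 3 - 27 * Λ'.g₃ ^ 2) / 16 := by
      ring
    rw [e]
    field_simp
    ring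
  · intro z hz
    rw [h1] at hz ⊢
    obtain ⟨T, hT, rfl⟩ := hL
    obtain ⟨k, hk⟩ := AddSubgroup.mem_zmultiples_iff.1 hz
    have hnz : (n : ℂ) * z ∈ Λ.lattice := by
      rw [← hθ.ker]
      have : (n : ℂ) * z = n • z := by rw [nsmul_eq_mul]
      rw [this, map_nsmul, ← hk, ← natCast_zsmul, smul_comm, natCast_zsmul, ← hT,
        addOrderOf_nsmul_eq_zero, smul_zero]
    have h3 := hρl _ hnz
    have h4 : (n : ℂ) * ρ * z = ρ * (n * z) := by ring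
    rw [h4, (hθ.ker _).2 h3]
    exact zero_mem _
  · intro k hk
    have hn' : (n : ℂ) ≠ 0 := by exact_mod_cast hn.ne'
    have h3 : ρ = (k : ℂ) / n := by
      rw [← hk]
      field_simp
    have h4 : ρ = (((k : ℝ) / n : ℝ) : ℂ) := by
      rw [h3]
      push_cast
      rfl
    rw [h4] at hρ
    have h5 : (((k : ℝ) / n) ^ 2 + (k : ℝ) / n + 1 : ℝ) = 0 := by exact_mod_cast hρ
    nlinarith [sq_nonneg ((k : ℝ) / n + 1 / 2)]

end LT
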