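import Pool.Agent.Lib_MP_f1937f_nt.TorsInt
import Pool.Agent.Lib_MP_f1937f_nt.Basics

/-!
# MP_f1937f_nt: size of the complex torsion points (piece SIZEA)

Proof. Put `C = 14`, `W = SW 0 (-31/4)`: `b₂ = b₄ = b₈ = 0`, `b₆ = -31`. Suppose `‖x‖ > 14 n²`, `t = 1/x`, `τ = ‖t‖`, so
`n² τ < 1/14`. By induction on `k ≤ n` there are `t_k, t_{k+1}` with `TorsInt.IsXi (k • P) t_k`,
`TorsInt.IsXi ((k+1) • P) t_{k+1}` and, with `e_k = t_k - k² t`, `D = 2480 τ⁴`: `‖e_k‖ ≤ D k⁸`,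
`‖e_{k+1} - e_k‖ ≤ D k⁷`. Step (`TorsInt.step` for `k • P` and `P`): `G = 1 + 31 (t_k + t) t_k t`,
`(t_{k+1} + t_{k-1}) G = 2 (t_k + t) - 31 (t_k t)²`, hence the second difference
`d_k = e_{k+1} - 2 e_k + e_{k-1} = -31 t_k t (t_k t + 2 (t_k + t)²) / G`; as `‖t_k‖ ≤ 2 k² τ` (because
`2480 (k² τ)³ ≤ 1`), `‖G‖ ≥ 1/2` and `‖d_k‖ ≤ 2480 k⁶ τ⁴`. At `k = n`: `t_n = 0`, so
`n² τ = ‖e_n‖ ≤ 2480 n⁸ τ⁴ < n² τ`.
-/

namespace LT

open Polynomial WeierstrassCurve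

namespace SizeA

/-- The estimates of one step. -/
theorem num {s t : ℂ} {M : ℝ} (hM : 1 ≤ M) (hq : M ^ 2 * ‖t‖ ≤ 1 / 14)
    (hs : ‖s - (M : ℂ) ^ 2 * t‖ ≤ 2480 * ‖t‖ ^ 4 * M ^ 8) :
    1 / 2 ≤ ‖1 + 31 * (s + t) * (s * t)‖ ∧
    ∀ w : ℂ, w * (1 + 31 * (s + t) * (s * t)) = 2 * (s + t) - 31 * (s * t) ^ 2 →
      ‖w - 2 * (s + t)‖ ≤ 2480 * ‖t‖ ^ 4 * M ^ 6 := by
  obtain ⟨τ, hτ⟩ : ∃ τ : ℝ, τ = ‖t‖ := ⟨_, rfl⟩
  have hτ0 : 0 ≤ τ := hτ ▸ norm_nonneg t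
  rw [← hτ] at hq hs ⊢
  obtain ⟨q, hqd⟩ : ∃ q : ℝ, q = M ^ 2 * τ := ⟨_, rfl⟩
  have hM2 : (1 : ℝ) ≤ M ^ 2 := one_le_pow₀ hM
  have hq0 : 0 ≤ q := by rw [hqd]; positivity
  have hq1 : q ≤ 1 / 14 := by rw [hqd]; exact hq
  have hτq : τ ≤ q := by
    rw [hqd]
    nlinarith
  have hq3 : q ^ 3 ≤ 1 / 2744 := by
    calc q ^ 3 ≤ (1 / 14) ^ 3 := pow_le_pow_left₀ hq0 hq1 3
      _ = 1 / 2744 := by norm_num
  have hMt : ‖(M : ℂ) ^ 2 * t‖ = q := by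
    rw [norm_mul, norm_pow, Complex.norm_real, Real.norm_eq_abs, abs_of_nonneg (by linarith), hqd, hτ]
  have hsn : ‖s‖ ≤ 2 * q := by
    have h1 : ‖s‖ ≤ ‖s - (M : ℂ) ^ 2 * t‖ + ‖(M : ℂ) ^ 2 * t‖ := by
      calc ‖s‖ = ‖(s - (M : ℂ) ^ 2 * t) + (M : ℂ) ^ 2 * t‖ := by ring_nf
        _ ≤ _ := norm_add_le _ _
    have h2 : 2480 * τ ^ 4 * M ^ 8 = 2480 * q ^ 3 * q := by rw [hqd]; ring
    have h3 : 2480 * q ^ 3 * q ≤ 1 * q := by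
      apply mul_le_mul_of_nonneg_right _ hq0
      linarith
    rw [hMt] at h1
    rw [h2] at hs
    linarith
  have hst : ‖s * t‖ ≤ 2 * q * τ := by
    rw [norm_mul, ← hτ]
    exact mul_le_mul_of_nonneg_right hsn hτ0
  have hsat : ‖s + t‖ ≤ 3 * q := by
    have := norm_add_le s t
    rw [← hτ] at this
    linarith
  have hG : ‖31 * (s + t) * (s * t)‖ ≤ 1 / 2 := by
    have h31 : ‖(31 : ℂ)‖ = 31 := by norm_num
    rw [norm_mul, norm_mul, h31]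
    calc 31 * ‖s + t‖ * ‖s * t‖ ≤ 31 * (3 * q) * (2 * q * q) := by
          apply mul_le_mul _ (hst.trans _) (norm_nonneg _) (by positivity)
          · linarith
          · exact mul_le_mul_of_nonneg_left hτq (by positivity)
      _ = 186 * q ^ 3 := by ring
      _ ≤ 186 * (1 / 2744) := by linarith
      _ ≤ 1 / 2 := by norm_num
  have hG2 : 1 / 2 ≤ ‖1 + 31 * (s + t) * (s * t)‖ := by
    have h1 : ‖(1 : ℂ)‖ ≤ ‖1 + 31 * (s + t) * (s * t)‖ + ‖31 * (s + t) * (s * t)‖ := by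
      calc ‖(1 : ℂ)‖ = ‖(1 + 31 * (s + t) * (s * t)) - 31 * (s + t) * (s * t)‖ := by ring_nf
        _ ≤ _ := norm_sub_le _ _
    rw [norm_one] at h1
    linarith
  refine ⟨hG2, fun w hw => ?_⟩
  have h5 : (w - 2 * (s + t)) * (1 + 31 * (s + t) * (s * t)) =
      -31 * (s * t) * (s * t + 2 * (s + t) ^ 2) := by
    linear_combination hw
  have h6 : ‖w - 2 * (s + t)‖ * ‖1 + 31 * (s + t) * (s * t)‖ ≤ 31 * (2 * q * τ) * (20 * q ^ 2) := by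
    rw [← norm_mul, h5, norm_mul, norm_mul]
    have h31 : ‖(-31 : ℂ)‖ = 31 := by norm_num
    rw [h31]
    have h7 : ‖s * t + 2 * (s + t) ^ 2‖ ≤ 20 * q ^ 2 := by
      calc ‖s * t + 2 * (s + t) ^ 2‖ ≤ ‖s * t‖ + ‖2 * (s + t) ^ 2‖ := norm_add_le _ _
        _ = ‖s * t‖ + 2 * ‖s + t‖ ^ 2 := by
          rw [norm_mul 2, norm_pow]
          norm_num
        _ ≤ 2 * q * q + 2 * (3 * q) ^ 2 := by
          apply add_le_add
          · exact hst.trans (mul_le_mul_of_nonneg_left hτq (by positivity))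
          · exact mul_le_mul_of_nonneg_left (pow_le_pow_left₀ (norm_nonneg _) hsat 2) (by norm_num)
        _ = 20 * q ^ 2 := by ring
    apply mul_le_mul _ h7 (norm_nonneg _) (by positivity)
    exact mul_le_mul_of_nonneg_left hst (by norm_num)
  have h8 : ‖w - 2 * (s + t)‖ * (1 / 2) ≤ 31 * (2 * q * τ) * (20 * q ^ 2) :=
    (mul_le_mul_of_nonneg_left hG2 (norm_nonneg _)).trans h6
  have h9 : 2480 * τ ^ 4 * M ^ 6 = 2 * (31 * (2 * q * τ) * (20 * q ^ 2)) := by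
    rw [hqd]
    ring
  rw [h9]
  linarith

theorem key {P : Pt (0 : ℂ) (-31 / 4)} {t : ℂ} (hP : TorsInt.IsXi P t) {n : ℕ}
    (hn : (n : ℝ) ^ 2 * ‖t‖ ≤ 1 / 14) (k : ℕ) (hk : k ≤ n) :
    ∃ a b : ℂ, TorsInt.IsXi (k • P) a ∧ TorsInt.IsXi ((k + 1) • P) b ∧
      ‖a - (k : ℂ) ^ 2 * t‖ ≤ 2480 * ‖t‖ ^ 4 * (k : ℝ) ^ 8 ∧
      ‖(b - ((k : ℂ) + 1) ^ 2 * t) - (a - (k : ℂ) ^ 2 * t)‖ ≤ 2480 * ‖t‖ ^ 4 * (k : ℝ) ^ 7 := by
  have hD : 0 ≤ 2480 * ‖t‖ ^ 4 := by positivity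
  haveI : (SW (0 : ℂ) (-31 / 4)).IsElliptic := ⟨isUnit_iff_ne_zero.mpr (by
    rw [sw_disc, dsc]
    norm_num)⟩
  induction k with
  | zero =>
    refine ⟨0, t, ?_, ?_, ?_, ?_⟩
    · rw [zero_nsmul]
      exact TorsInt.isXi_zero
    · rw [zero_add, one_nsmul]
      exact hP
    · simp
    · simp
  | succ k ih =>
    obtain ⟨a, b, ha, hb, h1, h2⟩ := ih (by omega)
    have hkr : (0 : ℝ) ≤ k := Nat.cast_nonneg k
    -- the bound at `k + 1`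
    have h3 : ‖b - ((k : ℂ) + 1) ^ 2 * t‖ ≤ 2480 * ‖t‖ ^ 4 * ((k : ℝ) + 1) ^ 8 := by
      calc ‖b - ((k : ℂ) + 1) ^ 2 * t‖
          = ‖((b - ((k : ℂ) + 1) ^ 2 * t) - (a - (k : ℂ) ^ 2 * t)) + (a - (k : ℂ) ^ 2 * t)‖ := by
            ring_nf
        _ ≤ 2480 * ‖t‖ ^ 4 * (k : ℝ) ^ 7 + 2480 * ‖t‖ ^ 4 * (k : ℝ) ^ 8 :=
            (norm_add_le _ _).trans (add_le_add h2 h1)
        _ = 2480 * ‖t‖ ^ 4 * ((k : ℝ) ^ 7 * (k + 1)) := by ring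
        _ ≤ 2480 * ‖t‖ ^ 4 * (((k : ℝ) + 1) ^ 7 * (k + 1)) := by
            apply mul_le_mul_of_nonneg_left _ hD
            apply mul_le_mul_of_nonneg_right _ (by linarith)
            exact pow_le_pow_left₀ hkr (by linarith) 7
        _ = 2480 * ‖t‖ ^ 4 * ((k : ℝ) + 1) ^ 8 := by ring
    have hM : (1 : ℝ) ≤ (k : ℝ) + 1 := by linarith
    have hq : ((k : ℝ) + 1) ^ 2 * ‖t‖ ≤ 1 / 14 := by
      refine le_trans (mul_le_mul_of_nonneg_right ?_ (norm_nonneg t)) hn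
      apply pow_le_pow_left₀ (by linarith)
      exact_mod_cast hk
    have hcast : (((k : ℝ) + 1 : ℝ) : ℂ) = (k : ℂ) + 1 := by push_cast; ring
    obtain ⟨hG, hw⟩ := num (s := b) (t := t) hM hq (by rw [hcast]; exact h3)
    have hb2 : (SW (0 : ℂ) (-31 / 4)).b₂ = 0 := by simp [b₂, SW]
    have hb4 : (SW (0 : ℂ) (-31 / 4)).b₄ = 0 := by simp [b₄, SW]
    have hb6 : (SW (0 : ℂ) (-31 / 4)).b₆ = -31 := by
      simp [b₆, SW]
      norm_num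
    have hb8 : (SW (0 : ℂ) (-31 / 4)).b₈ = 0 := by simp [b₈, SW]
    have hG0 : 1 + 31 * (b + t) * (b * t) ≠ 0 := by
      intro h
      rw [h, norm_zero] at hG
      norm_num at hG
    obtain ⟨u, v, hu, hv, huv⟩ := TorsInt.step hb hP (by
      rw [hb4, hb6, hb8]
      intro h
      apply hG0
      linear_combination h)
    rw [hb2, hb4, hb6, hb8] at huv
    have e1 : (k + 1) • P + P = (k + 1 + 1) • P := (succ_nsmul P (k + 1)).symm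
    have e2 : (k + 1) • P - P = k • P := by
      rw [succ_nsmul, add_sub_cancel_right]
    rw [e1] at hu
    rw [e2] at hv
    have hva := hv.unique ha
    rw [hva] at huv
    have h4 := hw (u + a) (by linear_combination huv)
    refine ⟨b, u, hb, hu, ?_, ?_⟩
    · push_cast
      exact h3
    · push_cast
      have h5 : u - ((k : ℂ) + 1 + 1) ^ 2 * t - (b - ((k : ℂ) + 1) ^ 2 * t) =
          ((b - ((k : ℂ) + 1) ^ 2 * t) - (a - (k : ℂ) ^ 2 * t)) + (u + a - 2 * (b + t)) := by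
        ring
      rw [h5]
      calc _ ≤ 2480 * ‖t‖ ^ 4 * (k : ℝ) ^ 7 + 2480 * ‖t‖ ^ 4 * ((k : ℝ) + 1) ^ 6 :=
            (norm_add_le _ _).trans (add_le_add h2 h4)
        _ = 2480 * ‖t‖ ^ 4 * ((k : ℝ) * k ^ 6 + ((k : ℝ) + 1) ^ 6) := by ring
        _ ≤ 2480 * ‖t‖ ^ 4 * ((k : ℝ) * (k + 1) ^ 6 + ((k : ℝ) + 1) ^ 6) := by
            apply mul_le_mul_of_nonneg_left _ hD
            apply add_le_add _ le_rfl
            apply mul_le_mul_of_nonneg_left _ hkr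
            exact pow_le_pow_left₀ hkr (by linarith) 6
        _ = 2480 * ‖t‖ ^ 4 * ((k : ℝ) + 1) ^ 7 := by ring

end SizeA

theorem arch_x : ∃ C : ℝ, 0 < C ∧ ∀ n : ℕ, 0 < n → ∀ P : Pt (0 : ℂ) (-31 / 4), n • P = 0 →
    ‖xc P‖ ≤ C * (n : ℝ) ^ 2 := by
  refine ⟨14, by norm_num, fun n hn P hP => ?_⟩
  rcases P with _ | ⟨x, y, hxy⟩
  · have h0 : xc (Affine.Point.zero : Pt (0 : ℂ) (-31 / 4)) = 0 := rfl
    rw [h0, norm_zero]
    positivity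
  · change ‖x‖ ≤ 14 * (n : ℝ) ^ 2
    by_contra hlt
    push Not at hlt
    have hnr : (1 : ℝ) ≤ n := by exact_mod_cast hn
    have hn2 : (0 : ℝ) < (n : ℝ) ^ 2 := by positivity
    have hxn : 0 < ‖x‖ := lt_trans (by positivity) hlt
    have hx : x ≠ 0 := norm_pos_iff.mp hxn
    have hq : (n : ℝ) ^ 2 * ‖x⁻¹‖ ≤ 1 / 14 := by
      rw [norm_inv, ← div_eq_mul_inv, div_le_div_iff₀ hxn (by norm_num)]
      linarith
    obtain ⟨a, b, ha, -, h1, -⟩ := SizeA.key (TorsInt.isXi_some hxy hx) hq n le_rfl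
    rw [hP] at ha
    have ha0 := ha.unique TorsInt.isXi_zero
    rw [ha0, zero_sub, norm_neg, norm_mul, norm_pow, Complex.norm_natCast] at h1
    obtain ⟨q, hqd⟩ : ∃ q : ℝ, q = (n : ℝ) ^ 2 * ‖x⁻¹‖ := ⟨_, rfl⟩
    rw [← hqd] at hq h1
    have h2 : 2480 * ‖x⁻¹‖ ^ 4 * (n : ℝ) ^ 8 = 2480 * q ^ 3 * q := by rw [hqd]; ring
    rw [h2] at h1
    have hq0 : 0 < q := by
      rw [hqd]
      have : 0 < ‖x⁻¹‖ := norm_pos_iff.mpr (inv_ne_zero hx)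
      positivity
    have hq3 : q ^ 3 ≤ 1 / 2744 := by
      calc q ^ 3 ≤ (1 / 14) ^ 3 := pow_le_pow_left₀ hq0.le hq 3
        _ = 1 / 2744 := by norm_num
    nlinarith

end LT
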