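import Pool.Agent.Lib_MP_f1937f_nt.TorsInt
import Pool.Agent.Lib_MP_f1937f_nt.Vc
import Pool.Agent.Lib_MP_f1937f_nt.IDefs

/-!
# MP_f1937f_nt: integrality of the torsion points (piece SIZEB)

Proof. `P = 0` is clear (`xc 0 = 0`). `P = (x, y)`: `sc_exists` with `v = 2` maps `P` to the point `(4 x, 8 y)` of
`y² = x³ - 496`, which is again killed by `n`; apply `tors_int` to `W = SW 0 (-496)` and `O = OP l`
(discriminant: `sw_disc`; integers are in `OP l`: `mem_OP`, `natCast_mem`).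
-/

namespace LT

open Polynomial WeierstrassCurve

theorem tors_OP (l : ℕ) [Fact l.Prime] {n : ℕ} (hn : 0 < n) (P : Pt (0 : PadicAlgCl l) (-31 / 4))
    (hP : n • P = 0) : 4 * (n : PadicAlgCl l) ^ 2 * xc P ∈ OP l := by
  have hch : CharZero (PadicAlgCl l) := inferInstance
  rcases P with _ | ⟨x, y, hxy⟩
  · have h0 : xc (Affine.Point.zero : Pt (0 : PadicAlgCl l) (-31 / 4)) = 0 := rfl
    rw [h0, mul_zero]
    exact zero_mem _
  · obtain ⟨e, he⟩ := sc_exists (two_ne_zero : (2 : PadicAlgCl l) ≠ 0) 0 (-31 / 4)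
    obtain ⟨h', h1⟩ := he x y hxy
    have hb : (2 : PadicAlgCl l) ^ 6 * (-31 / 4) = -496 := by norm_num
    have hn0 : (n : PadicAlgCl l) ≠ 0 := Nat.cast_ne_zero.mpr hn.ne'
    have h2 : n • (Affine.Point.some (2 ^ 2 * x) (2 ^ 3 * y) h' :
        (SW ((2 : PadicAlgCl l) ^ 4 * 0) (2 ^ 6 * (-31 / 4))).toAffine.Point) = 0 := by
      rw [← h1, ← map_nsmul, hP, map_zero]
    have hmem : (-496 : PadicAlgCl l) ∈ OP l := by
      have := neg_mem (natCast_mem (OP l) 496)
      simpa using this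
    have h3 := tors_int (OP l) (SW ((2 : PadicAlgCl l) ^ 4 * 0) (2 ^ 6 * (-31 / 4))) (by
      rw [sw_disc, dsc, hb]
      norm_num) (zero_mem _) (zero_mem _) (zero_mem _) (by
        change (2 : PadicAlgCl l) ^ 4 * 0 ∈ OP l
        rw [mul_zero]
        exact zero_mem _) (by
        change (2 : PadicAlgCl l) ^ 6 * (-31 / 4) ∈ OP l
        rw [hb]
        exact hmem) hn0 h' h2
    have h4 : 4 * (n : PadicAlgCl l) ^ 2 * xc (Affine.Point.some x y hxy : Pt _ _) =
        (n : PadicAlgCl l) ^ 2 * (2 ^ 2 * x) := by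
      change 4 * (n : PadicAlgCl l) ^ 2 * x = _
      ring
    rw [h4]
    exact h3

end LT
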