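import Pool.Agent.Lib_MP_f1937f_nt.SizeA
import Pool.Agent.Lib_MP_f1937f_nt.SizeB
import Pool.Agent.Lib_MP_f1937f_nt.SizeD
import Pool.Agent.Lib_MP_f1937f_nt.GlobGen

/-!
# MP_f1937f_nt: the integer `Z` (piece SIZEE)
-/

namespace LT

open Polynomial WeierstrassCurve

/-- The factor of `Z` attached to `L`. -/
noncomputable def zF (u w : ℤ) (n : ℕ) (Ω : Type) [Field Ω] [DecidableEq Ω]
    (L : AddSubgroup (Pt (0 : Ω) (-31 / 4))) : Ω :=
  (4 * (n : Ω) ^ 2) ^ 6 * ((u : Ω) * dsc (vA 0 (-31 / 4) L) (vB 0 (-31 / 4) L) -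
    (w : Ω) * 6912 * vA 0 (-31 / 4) L ^ 3)

theorem zF_map (u w : ℤ) {n : ℕ} (hn : 0 < n) (Ω Ω' : Type) [Field Ω] [DecidableEq Ω]
    [Field Ω'] [DecidableEq Ω'] (σ : Ω →+* Ω') (h0 : σ 0 = 0) (h1 : σ (-31 / 4) = -31 / 4)
    (L : AddSubgroup (Pt (0 : Ω) (-31 / 4))) (hL : L ∈ CycL (0 : Ω) (-31 / 4) n) :
    zF u w n Ω' (L.map (mapPt σ h0 h1)) = σ (zF u w n Ω L) := by
  have hf := (cycL_mem hn hL).1
  simp only [zF, vA_map σ h0 h1 hf, vB_map σ h0 h1 hf, dsc, map_mul, map_sub, map_add, map_pow,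
    map_intCast, map_natCast, map_ofNat]

/-- The product is a rational number. -/
theorem zprod_rat (u w : ℤ) {n : ℕ} (hn : 0 < n) :
    ∃ N : ℚ, ∀ (Ω : Type) [Field Ω] [DecidableEq Ω] [CharZero Ω] [IsAlgClosed Ω],
      ∏ᶠ L ∈ CycL (0 : Ω) (-31 / 4) n, zF u w n Ω L = (N : Ω) :=
  prod_rat hn (fun Ω _ _ L => zF u w n Ω L)
    (fun Ω Ω' _ _ _ _ _ _ σ h0 h1 L hL => zF_map u w hn Ω Ω' σ h0 h1 L hL)

/-! ### integrality -/

section int

variable (l : ℕ) [Fact l.Prime]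

theorem vA_OP {n : ℕ} (hn : 0 < n) {L : AddSubgroup (Pt (0 : PadicAlgCl l) (-31 / 4))}
    (hL : L ∈ CycL (0 : PadicAlgCl l) (-31 / 4) n) :
    (4 * (n : PadicAlgCl l) ^ 2) ^ 2 * vA 0 (-31 / 4) L ∈ OP l := by
  obtain ⟨hf, -, hP⟩ := cycL_mem hn hL
  rw [vA_sum hf]
  have h : (4 * (n : PadicAlgCl l) ^ 2) ^ 2 * (0 - 5 * ∑ P ∈ (nz_finite hf).toFinset,
      (3 * xc P ^ 2 + 0)) = -15 * ∑ P ∈ (nz_finite hf).toFinset,
        (4 * (n : PadicAlgCl l) ^ 2 * xc P) ^ 2 := by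
    rw [zero_sub, mul_neg, Finset.mul_sum, Finset.mul_sum, Finset.mul_sum, ← Finset.sum_neg_distrib]
    apply Finset.sum_congr rfl
    intro P _
    ring
  rw [h]
  refine mul_mem (neg_mem (by exact_mod_cast natCast_mem (OP l) 15)) (sum_mem fun P hPm => ?_)
  have hP' : P ∈ L := by
    rw [Set.Finite.mem_toFinset] at hPm
    exact hPm.1
  exact pow_mem (tors_OP l hn P (hP P hP')) 2

theorem vB_OP {n : ℕ} (hn : 0 < n) {L : AddSubgroup (Pt (0 : PadicAlgCl l) (-31 / 4))}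
    (hL : L ∈ CycL (0 : PadicAlgCl l) (-31 / 4) n) :
    (4 * (n : PadicAlgCl l) ^ 2) ^ 3 * vB 0 (-31 / 4) L ∈ OP l := by
  obtain ⟨hf, -, hP⟩ := cycL_mem hn hL
  have hnat : ∀ m : ℕ, (m : PadicAlgCl l) ∈ OP l := fun m => natCast_mem (OP l) m
  have hq : (4 * (n : PadicAlgCl l) ^ 2) ^ 3 * (-31 / 4) ∈ OP l := by
    have h : (4 * (n : PadicAlgCl l) ^ 2) ^ 3 * (-31 / 4) = -((496 * n ^ 6 : ℕ) : PadicAlgCl l) := by
      push_cast
      ring
    rw [h]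
    exact neg_mem (hnat _)
  rw [vB_sum hf]
  have h : (4 * (n : PadicAlgCl l) ^ 2) ^ 3 * (-31 / 4 - 7 * ∑ P ∈ (nz_finite hf).toFinset,
      (5 * xc P ^ 3 + 3 * 0 * xc P + 2 * (-31 / 4))) = (4 * (n : PadicAlgCl l) ^ 2) ^ 3 * (-31 / 4) +
        -7 * ∑ P ∈ (nz_finite hf).toFinset,
        (5 * (4 * (n : PadicAlgCl l) ^ 2 * xc P) ^ 3 +
          2 * ((4 * (n : PadicAlgCl l) ^ 2) ^ 3 * (-31 / 4))) := by
    rw [mul_sub, sub_eq_add_neg, Finset.mul_sum, Finset.mul_sum, Finset.mul_sum,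
      ← Finset.sum_neg_distrib]
    congr 1
    apply Finset.sum_congr rfl
    intro P _
    ring
  rw [h]
  refine add_mem hq (mul_mem (neg_mem (by exact_mod_cast hnat 7)) (sum_mem fun P hPm => ?_))
  have hP' : P ∈ L := by
    rw [Set.Finite.mem_toFinset] at hPm
    exact hPm.1
  exact add_mem (mul_mem (by exact_mod_cast hnat 5) (pow_mem (tors_OP l hn P (hP P hP')) 3))
    (mul_mem (by exact_mod_cast hnat 2) hq)

theorem dsc_OP {n : ℕ} (hn : 0 < n) {L : AddSubgroup (Pt (0 : PadicAlgCl l) (-31 / 4))}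
    (hL : L ∈ CycL (0 : PadicAlgCl l) (-31 / 4) n) :
    (4 * (n : PadicAlgCl l) ^ 2) ^ 6 * dsc (vA 0 (-31 / 4) L) (vB 0 (-31 / 4) L) ∈ OP l := by
  have h : (4 * (n : PadicAlgCl l) ^ 2) ^ 6 * dsc (vA 0 (-31 / 4) L) (vB 0 (-31 / 4) L) =
      4 * ((4 * (n : PadicAlgCl l) ^ 2) ^ 2 * vA 0 (-31 / 4) L) ^ 3 +
        27 * ((4 * (n : PadicAlgCl l) ^ 2) ^ 3 * vB 0 (-31 / 4) L) ^ 2 := by
    rw [dsc]
    ring
  rw [h]
  exact add_mem (mul_mem (by exact_mod_cast natCast_mem (OP l) 4) (pow_mem (vA_OP l hn hL) 3))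
    (mul_mem (by exact_mod_cast natCast_mem (OP l) 27) (pow_mem (vB_OP l hn hL) 2))

theorem zF_OP (u w : ℤ) {n : ℕ} (hn : 0 < n) {L : AddSubgroup (Pt (0 : PadicAlgCl l) (-31 / 4))}
    (hL : L ∈ CycL (0 : PadicAlgCl l) (-31 / 4) n) : zF u w n (PadicAlgCl l) L ∈ OP l := by
  have hint : ∀ m : ℤ, (m : PadicAlgCl l) ∈ OP l := fun m => intCast_mem (OP l) m
  have h : zF u w n (PadicAlgCl l) L =
      (u : PadicAlgCl l) * ((4 * (n : PadicAlgCl l) ^ 2) ^ 6 *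
        dsc (vA 0 (-31 / 4) L) (vB 0 (-31 / 4) L)) -
      (w : PadicAlgCl l) * 6912 * ((4 * (n : PadicAlgCl l) ^ 2) ^ 2 * vA 0 (-31 / 4) L) ^ 3 := by
    rw [zF]
    ring
  rw [h]
  exact sub_mem (mul_mem (hint u) (dsc_OP l hn hL)) (mul_mem (mul_mem (hint w)
    (by exact_mod_cast natCast_mem (OP l) 6912)) (pow_mem (vA_OP l hn hL) 3))

theorem norm_rat_alg (N : ℚ) : ‖(N : PadicAlgCl l)‖ = (padicNorm l N : ℝ) := by
  have h : (N : PadicAlgCl l) = ((N : ℚ_[l]) : PadicAlgCl l) := by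
    exact (map_ratCast (algebraMap ℚ_[l] (PadicAlgCl l)) N).symm
  rw [h, PadicAlgCl.norm_extends, Padic.eq_padicNorm]

end int

/-- A rational number which is integral at every prime is an integer. -/
theorem rat_int {N : ℚ} (h : ∀ (l : ℕ) [Fact l.Prime], padicNorm l N ≤ 1) : ∃ Z : ℤ, N = Z := by
  refine ⟨N.num, ?_⟩
  have hd : N.den = 1 := by
    by_contra hne
    obtain ⟨l, hl, hdvd⟩ := Nat.exists_prime_and_dvd hne
    have : Fact l.Prime := ⟨hl⟩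
    have h1 := h l
    have h2 : padicNorm l N = padicNorm l N.num / padicNorm l N.den := by
      rw [← padicNorm.div]
      congr 1
      exact (Rat.num_div_den N).symm
    have h3 : padicNorm l (N.num : ℚ) = 1 := by
      rw [padicNorm.int_eq_one_iff]
      intro hd2
      have h4 := N.reduced
      have h5 : l ∣ N.num.natAbs := Int.natCast_dvd.mp hd2
      have h6 : l ∣ 1 := by
        rw [← h4]
        exact Nat.dvd_gcd h5 hdvd
      exact hl.one_lt.ne' (Nat.dvd_one.mp h6)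
    have h7 : padicNorm l (N.den : ℚ) < 1 := by
      rw [padicNorm.nat_lt_one_iff]
      exact hdvd
    have h8 : 0 < padicNorm l (N.den : ℚ) :=
      lt_of_le_of_ne (padicNorm.nonneg _) (Ne.symm (padicNorm.nonzero (by exact_mod_cast N.den_nz)))
    rw [h2, h3, div_le_one h8] at h1
    linarith
  conv_lhs => rw [← Rat.num_div_den N, hd]
  simp

/-- The integer `Z`. -/
theorem z_exists (u w : ℤ) {n : ℕ} (hn : 0 < n) :
    ∃ Z : ℤ, ∀ (Ω : Type) [Field Ω] [DecidableEq Ω] [CharZero Ω] [IsAlgClosed Ω],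
      ∏ᶠ L ∈ CycL (0 : Ω) (-31 / 4) n, zF u w n Ω L = (Z : Ω) := by
  obtain ⟨N, hN⟩ := zprod_rat u w hn
  obtain ⟨Z, rfl⟩ : ∃ Z : ℤ, N = Z := by
    apply rat_int
    intro l _
    have h1 := hN (PadicAlgCl l)
    have h2 : ∏ᶠ L ∈ CycL (0 : PadicAlgCl l) (-31 / 4) n, zF u w n (PadicAlgCl l) L ∈ OP l := by
      rw [finprod_mem_eq_finite_toFinset_prod _ (cycL_finite hn).1]
      refine prod_mem fun L hL => ?_
      rw [Set.Finite.mem_toFinset] at hL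
      exact zF_OP l u w hn hL
    rw [h1, mem_OP, norm_rat_alg] at h2
    exact_mod_cast h2
  refine ⟨Z, fun Ω _ _ _ _ => ?_⟩
  rw [hN Ω]
  push_cast
  rfl

end LT
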