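import Pool.Agent.Lib_MP_f1937f_nt.Final

/-!
# MP_f1937f_nt: an unconditional lower bound for the number of supersingular primes

For every elliptic curve over `ℚ` without complex multiplication the number of primes `p ≤ x` with
`a_p = 0` is at least `exp(c log log x / (log log log x)²)`.
-/

namespace Pool.Agent.Lib_MP_f1937f_nt.SupersingularLower

/-- Let `W` be an integral Weierstrass equation of an elliptic curve `E/ℚ` (`Δ ≠ 0`) without complex
multiplication: every lattice `Λ ⊆ ℂ` with `j(Λ) = j(E)` has only the rational integers as multipliers.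
Then there is `c > 0` such that for all large `x` at least `exp(c log log x / (log log log x)²)`
primes `p ≤ x` not dividing `Δ` satisfy `a_p(E) = 0`, i.e. the reduction has exactly `p` affine points. -/
theorem lower_bound (W : WeierstrassCurve ℤ) (hΔ : W.Δ ≠ 0)
    (hCM : ∀ Λ : PeriodPair,
      (W.c₄ : ℂ) ^ 3 * (Λ.g₂ ^ 3 - 27 * Λ.g₃ ^ 2) = 1728 * Λ.g₂ ^ 3 * (W.Δ : ℂ) →
        ∀ α : ℂ, (∀ z ∈ Λ.lattice, α * z ∈ Λ.lattice) → ∃ k : ℤ, α = k) :
    ∃ c : ℝ, 0 < c ∧ ∃ x₀ : ℝ, ∀ x : ℝ, x₀ ≤ x →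
      Real.exp (c * Real.log (Real.log x) / (Real.log (Real.log (Real.log x))) ^ 2) ≤
        (((Finset.range (⌊x⌋₊ + 1)).filter fun p : ℕ => p.Prime ∧ ¬ (p : ℤ) ∣ W.Δ ∧
          ((Finset.range p ×ˢ Finset.range p).filter (fun q : ℕ × ℕ =>
            (q.2 : ZMod p) ^ 2 + (W.a₁ : ZMod p) * (q.1 : ZMod p) * (q.2 : ZMod p)
              + (W.a₃ : ZMod p) * (q.2 : ZMod p)
            = (q.1 : ZMod p) ^ 3 + (W.a₂ : ZMod p) * (q.1 : ZMod p) ^ 2
              + (W.a₄ : ZMod p) * (q.1 : ZMod p) + (W.a₆ : ZMod p))).card = p).card : ℝ) :=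
  LT.main_theorem W hΔ hCM

end Pool.Agent.Lib_MP_f1937f_nt.SupersingularLower
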