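import Pool.Agent.Lib_MP_f1937f_nt.Red
import Pool.Agent.Lib_MP_f1937f_nt.FDer

/-!
# MP_f1937f_nt: reduction of rational functions (piece VREL)
-/

namespace LT

open Polynomial WeierstrassCurve

variable {Ω κ : Type} [Field Ω] [Field κ]

/-- The rational function `u = N / D` with `N, D ∈ O[X]`, `D` monic, reduces to `u' = N' / D'`; the
roots of `D'` lie in `Z`. -/
def RdR (O : ValuationSubring Ω) (r : O →+* κ) (Z : Set κ) (u : RatFunc Ω) (u' : RatFunc κ) :
    Prop :=
  ∃ N D : Polynomial O, D.Monic ∧ (∀ x : κ, x ∉ Z → (D.map r).eval x ≠ 0) ∧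
    u = algebraMap (Polynomial Ω) (RatFunc Ω) (N.map O.subtype) /
      algebraMap (Polynomial Ω) (RatFunc Ω) (D.map O.subtype) ∧
    u' = algebraMap (Polynomial κ) (RatFunc κ) (N.map r) / algebraMap (Polynomial κ) (RatFunc κ) (D.map r)

variable {O : ValuationSubring Ω} {r : O →+* κ} {Z : Set κ}

theorem RdR.ne_left {D : Polynomial O} (hD : D.Monic) :
    algebraMap (Polynomial Ω) (RatFunc Ω) (D.map O.subtype) ≠ 0 :=
  FDer.am_ne (hD.map _).ne_zero

theorem RdR.ne_right {D : Polynomial O} (hD : D.Monic) :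
    algebraMap (Polynomial κ) (RatFunc κ) (D.map r) ≠ 0 :=
  FDer.am_ne (hD.map _).ne_zero

theorem RdR.poly (N : Polynomial O) :
    RdR O r Z (algebraMap (Polynomial Ω) (RatFunc Ω) (N.map O.subtype))
      (algebraMap (Polynomial κ) (RatFunc κ) (N.map r)) := by
  refine ⟨N, 1, monic_one, ?_, ?_, ?_⟩
  · intro x _
    simp
  · simp
  · simp

theorem RdR.const {c : Ω} {c' : κ} (h : Rdc O r c c') :
    RdR O r Z (RatFunc.C c) (RatFunc.C c') := by
  obtain ⟨o, rfl, rfl⟩ := h
  have := RdR.poly (r := r) (Z := Z) (C o)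
  simpa using this

theorem RdR.X : RdR O r Z (RatFunc.X : RatFunc Ω) RatFunc.X := by
  have := RdR.poly (r := r) (Z := Z) (Polynomial.X : Polynomial O)
  simpa using this

theorem RdR.add {u v : RatFunc Ω} {u' v' : RatFunc κ} (hu : RdR O r Z u u')
    (hv : RdR O r Z v v') : RdR O r Z (u + v) (u' + v') := by
  obtain ⟨N1, D1, m1, z1, rfl, rfl⟩ := hu
  obtain ⟨N2, D2, m2, z2, rfl, rfl⟩ := hv
  refine ⟨N1 * D2 + D1 * N2, D1 * D2, m1.mul m2, ?_, ?_, ?_⟩
  · intro x hx
    rw [Polynomial.map_mul, eval_mul]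
    exact mul_ne_zero (z1 x hx) (z2 x hx)
  · rw [div_add_div _ _ (RdR.ne_left m1) (RdR.ne_left m2)]
    simp only [Polynomial.map_mul, Polynomial.map_add, map_mul, map_add]
  · rw [div_add_div _ _ (RdR.ne_right m1) (RdR.ne_right m2)]
    simp only [Polynomial.map_mul, Polynomial.map_add, map_mul, map_add]

theorem RdR.mul {u v : RatFunc Ω} {u' v' : RatFunc κ} (hu : RdR O r Z u u')
    (hv : RdR O r Z v v') : RdR O r Z (u * v) (u' * v') := by
  obtain ⟨N1, D1, m1, z1, rfl, rfl⟩ := hu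
  obtain ⟨N2, D2, m2, z2, rfl, rfl⟩ := hv
  refine ⟨N1 * N2, D1 * D2, m1.mul m2, ?_, ?_, ?_⟩
  · intro x hx
    rw [Polynomial.map_mul, eval_mul]
    exact mul_ne_zero (z1 x hx) (z2 x hx)
  · rw [div_mul_div_comm]
    simp only [Polynomial.map_mul, map_mul]
  · rw [div_mul_div_comm]
    simp only [Polynomial.map_mul, map_mul]

theorem RdR.neg {u : RatFunc Ω} {u' : RatFunc κ} (hu : RdR O r Z u u') :
    RdR O r Z (-u) (-u') := by
  obtain ⟨N1, D1, m1, z1, rfl, rfl⟩ := hu
  refine ⟨-N1, D1, m1, z1, ?_, ?_⟩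
  · rw [Polynomial.map_neg, map_neg, neg_div]
  · rw [Polynomial.map_neg, map_neg, neg_div]

theorem RdR.sub {u v : RatFunc Ω} {u' v' : RatFunc κ} (hu : RdR O r Z u u')
    (hv : RdR O r Z v v') : RdR O r Z (u - v) (u' - v') := by
  rw [sub_eq_add_neg, sub_eq_add_neg]
  exact hu.add hv.neg

theorem RdR.pow {u : RatFunc Ω} {u' : RatFunc κ} (hu : RdR O r Z u u') (n : ℕ) :
    RdR O r Z (u ^ n) (u' ^ n) := by
  induction n with
  | zero =>
    have := RdR.const (Z := Z) (Rdc.one O r)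
    simpa using this
  | succ n ih =>
    rw [pow_succ, pow_succ]
    exact ih.mul hu

theorem RdR.sum {ι : Type} (s : Finset ι) {u : ι → RatFunc Ω} {u' : ι → RatFunc κ}
    (h : ∀ i ∈ s, RdR O r Z (u i) (u' i)) :
    RdR O r Z (∑ i ∈ s, u i) (∑ i ∈ s, u' i) := by
  classical
  induction s using Finset.induction_on with
  | empty =>
    have := RdR.const (Z := Z) (Rdc.zero O r)
    simpa using this
  | insert i s hi ih =>
    rw [Finset.sum_insert hi, Finset.sum_insert hi]
    exact (h i (Finset.mem_insert_self i s)).add (ih fun j hj => h j (Finset.mem_insert_of_mem hj))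

/-- Division by `(X - x)^n` with the reduction of `x` in `Z`. -/
theorem RdR.div_pow {u : RatFunc Ω} {u' : RatFunc κ} (hu : RdR O r Z u u') {x : Ω} {x' : κ}
    (hx : Rdc O r x x') (hZ : x' ∈ Z) (n : ℕ) :
    RdR O r Z (u / (RatFunc.X - RatFunc.C x) ^ n) (u' / (RatFunc.X - RatFunc.C x') ^ n) := by
  obtain ⟨N1, D1, m1, z1, rfl, rfl⟩ := hu
  obtain ⟨o, rfl, rfl⟩ := hx
  refine ⟨N1, D1 * (Polynomial.X - Polynomial.C o) ^ n, m1.mul ((monic_X_sub_C o).pow n), ?_, ?_, ?_⟩
  · intro y hy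
    rw [Polynomial.map_mul, eval_mul]
    refine mul_ne_zero (z1 y hy) ?_
    rw [Polynomial.map_pow, eval_pow]
    apply pow_ne_zero
    rw [Polynomial.map_sub, map_X, map_C, eval_sub, eval_X, eval_C, sub_ne_zero]
    rintro rfl
    exact hy hZ
  · rw [div_div]
    simp only [Polynomial.map_mul, Polynomial.map_pow, Polynomial.map_sub, map_X, map_C, map_mul,
      map_pow, map_sub, RatFunc.algebraMap_X, RatFunc.algebraMap_C]
    rfl
  · rw [div_div]
    simp only [Polynomial.map_mul, Polynomial.map_pow, Polynomial.map_sub, map_X, map_C, map_mul,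
      map_pow, map_sub, RatFunc.algebraMap_X, RatFunc.algebraMap_C]

theorem RdR.deriv {u : RatFunc Ω} {u' : RatFunc κ} (hu : RdR O r Z u u') :
    RdR O r Z (dR u) (dR u') := by
  obtain ⟨N1, D1, m1, z1, rfl, rfl⟩ := hu
  refine ⟨derivative N1 * D1 - N1 * derivative D1, D1 ^ 2, m1.pow 2, ?_, ?_, ?_⟩
  · intro x hx
    rw [Polynomial.map_pow, eval_pow]
    exact pow_ne_zero 2 (z1 x hx)
  · rw [dR_frac _ _ (m1.map _).ne_zero]
    simp only [Polynomial.map_mul, Polynomial.map_sub, Polynomial.map_pow, derivative_map]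
  · rw [dR_frac _ _ (m1.map _).ne_zero]
    simp only [Polynomial.map_mul, Polynomial.map_sub, Polynomial.map_pow, derivative_map]

theorem RdR.unique {u : RatFunc Ω} {u' u'' : RatFunc κ} (hu : RdR O r Z u u')
    (hu' : RdR O r Z u u'') : u' = u'' := by
  obtain ⟨N1, D1, m1, z1, rfl, rfl⟩ := hu
  obtain ⟨N2, D2, m2, z2, h, rfl⟩ := hu'
  rw [div_eq_div_iff (RdR.ne_left m1) (RdR.ne_left m2), ← map_mul, ← map_mul,
    ← Polynomial.map_mul, ← Polynomial.map_mul] at h
  have h1 := FDer.am_inj h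
  have h2 : N1 * D2 = N2 * D1 := Polynomial.map_injective _ O.subtype_injective h1
  rw [div_eq_div_iff (RdR.ne_right m1) (RdR.ne_right m2), ← map_mul, ← map_mul,
    ← Polynomial.map_mul, ← Polynomial.map_mul, h2]

/-- value of a quotient of polynomials -/
theorem RdR.eval_frac {k : Type} [Field k] (N D : k[X]) (x : k) (hD : D.eval x ≠ 0) :
    (algebraMap k[X] (RatFunc k) N / algebraMap k[X] (RatFunc k) D).denom.eval x ≠ 0 ∧
      (algebraMap k[X] (RatFunc k) N / algebraMap k[X] (RatFunc k) D).eval (RingHom.id k) x =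
        N.eval x / D.eval x := by
  have hD0 : D ≠ 0 := by
    rintro rfl
    simp at hD
  set u := algebraMap k[X] (RatFunc k) N / algebraMap k[X] (RatFunc k) D with hu
  have hdvd : u.denom ∣ D := (RatFunc.denom_dvd hD0).mpr ⟨N, hu⟩
  have hden : u.denom.eval x ≠ 0 := by
    intro h0
    obtain ⟨q, hq⟩ := hdvd
    apply hD
    rw [hq, eval_mul, h0, zero_mul]
  refine ⟨hden, ?_⟩
  have h : u.num * D = N * u.denom := by
    have h1 := u.num_div_denom
    nth_rewrite 3 [hu] at h1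
    rw [div_eq_div_iff (FDer.am_ne u.denom_ne_zero) (FDer.am_ne hD0), ← map_mul, ← map_mul] at h1
    exact FDer.am_inj h1
  have h2 := congrArg (Polynomial.eval x) h
  rw [eval_mul, eval_mul] at h2
  unfold RatFunc.eval
  rw [eval₂_id, eval₂_id, div_eq_div_iff hden hD]
  exact h2

/-- Evaluation at a point whose reduction is not in `Z`. -/
theorem RdR.eval [IsLocalHom r] {u : RatFunc Ω} {u' : RatFunc κ} (hu : RdR O r Z u u') {x : Ω}
    {x' : κ} (hx : Rdc O r x x') (hZ : x' ∉ Z) :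
    u.denom.eval x ≠ 0 ∧ u'.denom.eval x' ≠ 0 ∧
      Rdc O r (u.eval (RingHom.id Ω) x) (u'.eval (RingHom.id κ) x') := by
  obtain ⟨N, D, m, z, rfl, rfl⟩ := hu
  obtain ⟨o, rfl, rfl⟩ := hx
  have hr : ∀ P : Polynomial O, Rdc O r ((P.map O.subtype).eval (o : Ω)) ((P.map r).eval (r o)) := by
    intro P
    refine ⟨P.eval o, ?_, ?_⟩
    · have := Polynomial.eval_map_apply (f := O.subtype) (p := P) o
      exact this.symm
    · exact (Polynomial.eval_map_apply (f := r) (p := P) o).symm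
  have hD' : (D.map r).eval (r o) ≠ 0 := z _ hZ
  have hD : (D.map O.subtype).eval (o : Ω) ≠ 0 := by
    intro h0
    have h1 := hr D
    rw [h0] at h1
    exact hD' (Rdc.unique h1 (Rdc.zero O r))
  obtain ⟨e1, e2⟩ := RdR.eval_frac (N.map O.subtype) (D.map O.subtype) (o : Ω) hD
  obtain ⟨f1, f2⟩ := RdR.eval_frac (N.map r) (D.map r) (r o) hD'
  refine ⟨e1, f1, ?_⟩
  rw [e2, f2]
  exact RedAux.Rdc_div (hr N) (hr D) hD'

end LT
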