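import Pool.Agent.Lib_MP_f1937f_nt.VIsRed
import Pool.Agent.Lib_MP_f1937f_nt.VRel

/-!
# MP_f1937f_nt: reduction of Velu's coefficients and of Velu's function (piece VCOEF)
-/

namespace LT

open Polynomial WeierstrassCurve

variable {Ω κ : Type} [Field Ω] [Field κ] [DecidableEq Ω] [DecidableEq κ]
  {O : ValuationSubring Ω} {r : O →+* κ} [IsLocalHom r] {a b : Ω} {a' b' : κ}

omit [DecidableEq Ω] [DecidableEq κ] [IsLocalHom r] in
theorem VCoef.rdc_sum {ι : Type} (s : Finset ι) {u : ι → Ω} {u' : ι → κ}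
    (h : ∀ i ∈ s, Rdc O r (u i) (u' i)) : Rdc O r (∑ i ∈ s, u i) (∑ i ∈ s, u' i) := by
  classical
  induction s using Finset.induction_on with
  | empty => simpa using Rdc.zero O r
  | insert i s hi ih =>
    rw [Finset.sum_insert hi, Finset.sum_insert hi]
    exact (h i (Finset.mem_insert_self _ _)).add
      (ih fun j hj => h j (Finset.mem_insert_of_mem hj))

theorem VCoef.smul_card_eq_zero (L : AddSubgroup (Pt a b)) {P : Pt a b} (hP : P ∈ L) :
    Nat.card L • P = 0 := by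
  have h1 : Nat.card L • (⟨P, hP⟩ : L) = 0 := card_nsmul_eq_zero'
  exact congrArg (Subtype.val) h1

/-- `red` is injective on `L`. -/
theorem VCoef.red_injOn (ha : Rdc O r a a') (hb : Rdc O r b b') (h2 : (2 : κ) ≠ 0)
    (hd : dsc a' b' ≠ 0) {red : Pt a b →+ Pt a' b'} (h : IsRed O r red) (L : AddSubgroup (Pt a b))
    (hn : (Nat.card L : κ) ≠ 0) : Set.InjOn red (L : Set (Pt a b)) := by
  intro P hP Q hQ hPQ
  have h0 : red (P - Q) = 0 := by rw [map_sub, hPQ, sub_self]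
  have h1 := IsRed.inj ha hb h2 hd h hn (VCoef.smul_card_eq_zero L (L.sub_mem hP hQ)) h0
  exact sub_eq_zero.1 h1

/-- The reduction is a bijection from `L` to its image. -/
theorem card_map_red (ha : Rdc O r a a') (hb : Rdc O r b b') (h2 : (2 : κ) ≠ 0)
    (hd : dsc a' b' ≠ 0) {red : Pt a b →+ Pt a' b'} (h : IsRed O r red) (L : AddSubgroup (Pt a b))
    (hL : Finite L) (hn : (Nat.card L : κ) ≠ 0) :
    Nat.card (L.map red) = Nat.card L ∧ Finite (L.map red) := by
  have hinj := VCoef.red_injOn ha hb h2 hd h L hn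
  have e : ((L.map red : AddSubgroup (Pt a' b')) : Set (Pt a' b')) = red '' (L : Set (Pt a b)) :=
    AddSubgroup.coe_map red L
  constructor
  · have h3 : Nat.card (red '' (L : Set (Pt a b))) = Nat.card (L : Set (Pt a b)) :=
      Nat.card_image_of_injOn hinj
    have h4 : Nat.card (L.map red) = Nat.card (red '' (L : Set (Pt a b))) := by
      rw [← e]; rfl
    rw [h4, h3]; rfl
  · have hf : (red '' (L : Set (Pt a b))).Finite := (Set.toFinite (L : Set (Pt a b))).image _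
    rw [← e] at hf
    exact hf

theorem VCoef.image_eq {red : Pt a b →+ Pt a' b'} (L : AddSubgroup (Pt a b))
    (hinj : Set.InjOn red (L : Set (Pt a b))) :
    {P : Pt a' b' | P ∈ L.map red ∧ P ≠ 0} = red '' {P : Pt a b | P ∈ L ∧ P ≠ 0} := by
  ext Q
  constructor
  · rintro ⟨⟨P, hP, rfl⟩, h0⟩
    refine ⟨P, ⟨hP, ?_⟩, rfl⟩
    rintro rfl
    exact h0 (map_zero red)
  · rintro ⟨P, ⟨hP, h0⟩, rfl⟩
    refine ⟨⟨P, hP, rfl⟩, ?_⟩
    intro h
    apply h0
    exact hinj hP L.zero_mem (by rw [h, map_zero])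

theorem velu_coef_red (ha : Rdc O r a a') (hb : Rdc O r b b') (h2 : (2 : κ) ≠ 0)
    (hd : dsc a' b' ≠ 0) {red : Pt a b →+ Pt a' b'} (h : IsRed O r red) (L : AddSubgroup (Pt a b))
    (hL : Finite L) (hn : (Nat.card L : κ) ≠ 0) :
    Rdc O r (vA a b L) (vA a' b' (L.map red)) ∧ Rdc O r (vB a b L) (vB a' b' (L.map red)) ∧
      RdR O r {x : κ | ∃ Q ∈ L.map red, Q ≠ 0 ∧ xc Q = x} (vU a b L) (vU a' b' (L.map red)) := by
  classical
  have hinj := VCoef.red_injOn ha hb h2 hd h L hn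
  have himg := VCoef.image_eq (a' := a') (b' := b') L hinj
  have hfin : {P : Pt a b | P ∈ L ∧ P ≠ 0}.Finite :=
    (Set.toFinite (L : Set (Pt a b))).subset (fun P hP => hP.1)
  have hinj' : Set.InjOn red {P : Pt a b | P ∈ L ∧ P ≠ 0} :=
    hinj.mono (fun P hP => hP.1)
  have hred : ∀ P ∈ hfin.toFinset, red P ≠ 0 := by
    intro P hP h0
    have hP' : P ∈ L ∧ P ≠ 0 := by simpa using hP
    exact hP'.2 (hinj hP'.1 L.zero_mem (by rw [h0, map_zero]))
  have n2 : Rdc O r (2 : Ω) (2 : κ) := by exact_mod_cast Rdc.natCast O r 2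
  have n3 : Rdc O r (3 : Ω) (3 : κ) := by exact_mod_cast Rdc.natCast O r 3
  have n5 : Rdc O r (5 : Ω) (5 : κ) := by exact_mod_cast Rdc.natCast O r 5
  have n7 : Rdc O r (7 : Ω) (7 : κ) := by exact_mod_cast Rdc.natCast O r 7
  have hx : ∀ P ∈ hfin.toFinset, Rdc O r (xc P) (xc (red P)) :=
    fun P hP => (h.xc_red (hred P hP)).1
  refine ⟨?_, ?_, ?_⟩
  · rw [vA, vA, himg, finsum_mem_image hinj', finsum_mem_eq_finite_toFinset_sum _ hfin,
      finsum_mem_eq_finite_toFinset_sum _ hfin]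
    refine ha.sub (n5.mul (VCoef.rdc_sum _ fun P hP => ?_))
    exact (n3.mul ((hx P hP).pow 2)).add ha
  · rw [vB, vB, himg, finsum_mem_image hinj', finsum_mem_eq_finite_toFinset_sum _ hfin,
      finsum_mem_eq_finite_toFinset_sum _ hfin]
    refine hb.sub (n7.mul (VCoef.rdc_sum _ fun P hP => ?_))
    exact ((n5.mul ((hx P hP).pow 3)).add ((n3.mul ha).mul (hx P hP))).add (n2.mul hb)
  · have hmem : ∀ P ∈ hfin.toFinset,
        xc (red P) ∈ {x : κ | ∃ Q ∈ L.map red, Q ≠ 0 ∧ xc Q = x} := by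
      intro P hP
      have hP' : P ∈ L ∧ P ≠ 0 := by simpa using hP
      exact ⟨red P, ⟨P, hP'.1, rfl⟩, hred P hP, rfl⟩
    rw [vU, vU, himg, finsum_mem_image hinj', finsum_mem_eq_finite_toFinset_sum _ hfin,
      finsum_mem_eq_finite_toFinset_sum _ hfin]
    refine RdR.X.add (RdR.sum _ fun P hP => ?_)
    refine RdR.add ?_ ?_
    · have := RdR.div_pow (Z := {x : κ | ∃ Q ∈ L.map red, Q ≠ 0 ∧ xc Q = x})
        (RdR.const ((n3.mul ((hx P hP).pow 2)).add ha)) (hx P hP) (hmem P hP) 1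
      simpa only [pow_one] using this
    · exact RdR.div_pow (RdR.const (n2.mul ((((hx P hP).pow 3).add (ha.mul (hx P hP))).add hb)))
        (hx P hP) (hmem P hP) 2

omit [DecidableEq Ω] [DecidableEq κ] [IsLocalHom r] in
theorem VCoef.fR_red {Z : Set κ} (ha : Rdc O r a a') (hb : Rdc O r b b') :
    RdR O r Z (fR a b) (fR a' b') := by
  have e : ∀ {k : Type} [Field k] (a b : k), fR a b =
      RatFunc.X ^ 3 + RatFunc.C a * RatFunc.X + RatFunc.C b := by
    intro k _ a b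
    rw [fR, fP, map_add, map_add, map_mul, map_pow, RatFunc.algebraMap_X, RatFunc.algebraMap_C,
      RatFunc.algebraMap_C]
  rw [e, e]
  exact ((RdR.X.pow 3).add ((RdR.const ha).mul RdR.X)).add (RdR.const hb)

/-- Velu's identity reduces. -/
theorem velu_id_red (ha : Rdc O r a a') (hb : Rdc O r b b') (h2 : (2 : κ) ≠ 0)
    (hd : dsc a' b' ≠ 0) {red : Pt a b →+ Pt a' b'} (h : IsRed O r red) (L : AddSubgroup (Pt a b))
    (hL : Finite L) (hn : (Nat.card L : κ) ≠ 0)
    (hid : dR (vU a b L) ^ 2 * fR a b = vU a b L ^ 3 + RatFunc.C (vA a b L) * vU a b L +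
      RatFunc.C (vB a b L)) :
    dR (vU a' b' (L.map red)) ^ 2 * fR a' b' = vU a' b' (L.map red) ^ 3 +
      RatFunc.C (vA a' b' (L.map red)) * vU a' b' (L.map red) +
      RatFunc.C (vB a' b' (L.map red)) := by
  obtain ⟨hA, hB, hU⟩ := velu_coef_red ha hb h2 hd h L hL hn
  have h1 := (hU.deriv.pow 2).mul (VCoef.fR_red ha hb)
  have h3 := ((hU.pow 3).add ((RdR.const hA).mul hU)).add (RdR.const hB)
  rw [hid] at h1
  exact h1.unique h3

end LT
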