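import Pool.Agent.Lib_MP_f1937f_nt.VPole
import Pool.Agent.Lib_MP_f1937f_nt.FKer

/-!
# MP_f1937f_nt: the quotient curve is nonsingular (piece VNS)
-/

namespace LT

open Polynomial WeierstrassCurve

namespace VNs

variable {k : Type} [Field k]

/-- The polynomial form of Velu's identity. -/
theorem poly_id {a b A B : k} {U : RatFunc k}
    (h : dR U ^ 2 * fR a b = U ^ 3 + RatFunc.C A * U + RatFunc.C B) :
    (derivative U.num * U.denom - U.num * derivative U.denom) ^ 2 * fP a b =
      U.denom * (U.num ^ 3 + C A * U.num * U.denom ^ 2 + C B * U.denom ^ 3) := by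
  have hD : U.denom ≠ 0 := RatFunc.denom_ne_zero _
  have hU : U = algebraMap k[X] (RatFunc k) U.num /
      algebraMap k[X] (RatFunc k) U.denom := (RatFunc.num_div_denom _).symm
  unfold dR fR at h
  set w := derivative U.num * U.denom - U.num * derivative U.denom with hw
  generalize hN : U.num = N at *
  generalize hDD : U.denom = D at *
  rw [hU] at h
  have hD' : algebraMap k[X] (RatFunc k) D ≠ 0 := by
    intro h4
    apply hD
    apply RatFunc.algebraMap_injective k
    rw [h4, map_zero]
  apply RatFunc.algebraMap_injective k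
  simp only [map_mul, map_add, map_pow, RatFunc.algebraMap_C] at h ⊢
  field_simp at h
  linear_combination h

/-- The coefficients of `X p'`. -/
theorem coeff_xd (p : k[X]) (m : ℕ) : (X * derivative p).coeff m = m * p.coeff m := by
  cases m with
  | zero => simp
  | succ m =>
    rw [coeff_X_mul, coeff_derivative]
    push_cast
    ring

theorem natDegree_xd (p : k[X]) : (X * derivative p).natDegree ≤ p.natDegree := by
  rw [natDegree_le_iff_coeff_eq_zero]
  intro m hm
  rw [coeff_xd, coeff_eq_zero_of_natDegree_lt hm, mul_zero]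

/-- `p² ∣ m² f` with `f` squarefree implies `p ∣ m`. -/
theorem dvd_of_sq_dvd {p m f : k[X]} (hp : p ≠ 0) (hf : Squarefree f) (h : p ^ 2 ∣ m ^ 2 * f) :
    p ∣ m := by
  classical
  set g := EuclideanDomain.gcd p m with hg
  have hg0 : g ≠ 0 := by
    intro h0
    rw [hg, EuclideanDomain.gcd_eq_zero_iff] at h0
    exact hp h0.1
  obtain ⟨p', hp'⟩ := EuclideanDomain.gcd_dvd_left p m
  obtain ⟨m', hm'⟩ := EuclideanDomain.gcd_dvd_right p m
  rw [← hg] at hp' hm'
  have hcop : IsCoprime p' m' := by
    have h1 := EuclideanDomain.gcd_eq_gcd_ab p m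
    refine ⟨EuclideanDomain.gcdA p m, EuclideanDomain.gcdB p m, ?_⟩
    apply mul_left_cancel₀ hg0
    rw [mul_one]
    conv_rhs => rw [hg, h1]
    nth_rewrite 3 [hp']
    nth_rewrite 4 [hm']
    ring
  have h2 : p' ^ 2 ∣ m' ^ 2 * f := by
    have h3 : g ^ 2 * p' ^ 2 ∣ g ^ 2 * (m' ^ 2 * f) := by
      have e1 : g ^ 2 * p' ^ 2 = p ^ 2 := by
        conv_rhs => rw [hp']
        ring
      have e2 : g ^ 2 * (m' ^ 2 * f) = m ^ 2 * f := by
        conv_rhs => rw [hm']
        ring
      rw [e1, e2]
      exact h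
    exact (mul_dvd_mul_iff_left (pow_ne_zero 2 hg0)).1 h3
  have h4 : p' ^ 2 ∣ f := (hcop.pow (m := 2) (n := 2)).dvd_of_dvd_mul_left h2
  have h5 : IsUnit p' := hf p' (by rw [← sq]; exact h4)
  rw [hp']
  have h6 : g * p' ∣ g := by
    obtain ⟨q, hq⟩ := h5.exists_right_inv
    exact ⟨q, by rw [mul_assoc, hq, mul_one]⟩
  exact h6.trans ⟨m', hm'⟩

theorem derivative_fP (a b : k) : derivative (fP a b) = 3 * X ^ 2 + C a := by
  unfold fP
  simp only [derivative_add, derivative_mul, derivative_X_pow, derivative_C, derivative_X]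
  simp
  exact C_ofNat (R := k) 3

theorem fP_squarefree {a b : k} (hd : dsc a b ≠ 0) : Squarefree (fP a b) := by
  apply Separable.squarefree
  rw [separable_def, derivative_fP]
  refine ⟨C (dsc a b)⁻¹ * (-18 * C a * X + 27 * C b),
    C (dsc a b)⁻¹ * (6 * C a * X ^ 2 - 9 * C b * X + 4 * C a ^ 2), ?_⟩
  have h1 : C (dsc a b)⁻¹ * (4 * C a ^ 3 + 27 * C b ^ 2) = 1 := by
    have h2 : (4 * C a ^ 3 + 27 * C b ^ 2 : k[X]) = C (dsc a b) := by
      unfold dsc
      simp only [map_add, map_mul, map_pow, map_ofNat]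
    rw [h2, ← map_mul, inv_mul_cancel₀ hd, map_one]
  rw [← h1]
  unfold fP
  ring

theorem natDegree_fP (a b : k) : (fP a b).natDegree = 3 := by
  unfold fP
  compute_degree!

theorem coeff_fP (a b : k) : (fP a b).coeff 3 = 1 := by
  simp [fP, coeff_X, coeff_C]

/-- The cubic with vanishing discriminant. -/
theorem exists_double (h2 : (2 : k) ≠ 0) (h3 : (3 : k) ≠ 0) {A B : k} (h : dsc A B = 0) :
    ∃ α : k, A = -3 * α ^ 2 ∧ B = 2 * α ^ 3 := by
  unfold dsc at h
  have h27 : (27 : k) ≠ 0 := by
    have : (27 : k) = 3 ^ 3 := by norm_num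
    rw [this]
    exact pow_ne_zero 3 h3
  by_cases hA : A = 0
  · refine ⟨0, by rw [hA]; ring, ?_⟩
    rw [hA] at h
    have : B ^ 2 = 0 := by
      have h4 : (27 : k) * B ^ 2 = 0 := by linear_combination h
      exact (mul_eq_zero.1 h4).resolve_left h27
    rw [pow_eq_zero_iff two_ne_zero] at this
    rw [this]
    ring
  · refine ⟨-3 * B / (2 * A), ?_, ?_⟩
    · have h4 : (4 : k) ≠ 0 := by
        have : (4 : k) = 2 ^ 2 := by norm_num
        rw [this]
        exact pow_ne_zero 2 h2
      field_simp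
      linear_combination h
    · field_simp
      linear_combination B * h

/-- The algebraic heart: there is no solution with vanishing discriminant unless
`deg D + 1 = 0` in `k`. -/
theorem core (h2 : (2 : k) ≠ 0) (h3 : (3 : k) ≠ 0) {a b A B : k} (hd : dsc a b ≠ 0)
    (hAB : dsc A B = 0) {N D : k[X]} (hD : D.Monic) (hcop : IsCoprime N D)
    (hdeg : N.natDegree = D.natDegree + 1)
    (h : (derivative N * D - N * derivative D) ^ 2 * fP a b =
      D * (N ^ 3 + C A * N * D ^ 2 + C B * D ^ 3)) :
    ((D.natDegree + 1 : ℕ) : k) = 0 := by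
  obtain ⟨α, hα, hβ⟩ := exists_double h2 h3 hAB
  set d := D.natDegree with hdd
  set f := fP a b with hf
  have hD0 : D ≠ 0 := hD.ne_zero
  have hDc : D.coeff d = 1 := hD
  have hDc1 : D.coeff (d + 1) = 0 := coeff_eq_zero_of_natDegree_lt (Nat.lt_succ_self _)
  have hN0 : N ≠ 0 := by
    rintro rfl
    simp at hdeg
  set c := N.coeff (d + 1) with hc
  have hc0 : c ≠ 0 := by
    rw [hc, ← hdeg]
    exact leadingCoeff_ne_zero.2 hN0
  set M := derivative N * D - N * derivative D with hM
  -- the leading coefficient of `N`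
  have hf3 : f.natDegree ≤ 3 := (natDegree_fP a b).le
  have hfc : f.coeff 3 = 1 := coeff_fP a b
  have hXM : X * M = (X * derivative N) * D - N * (X * derivative D) := by
    rw [hM]
    ring
  have hNle : N.natDegree ≤ d + 1 := hdeg.le
  have e1 : (X * M).natDegree ≤ d + 1 + d := by
    rw [hXM]
    refine (natDegree_sub_le _ _).trans (max_le ?_ ?_)
    · exact natDegree_mul_le.trans (add_le_add ((natDegree_xd N).trans hNle) le_rfl)
    · exact natDegree_mul_le.trans (add_le_add hNle (natDegree_xd D))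
  have e2 : (X * M).coeff (d + 1 + d) = c := by
    rw [hXM, coeff_sub, coeff_mul_add_eq_of_natDegree_le ((natDegree_xd N).trans hNle) le_rfl,
      coeff_mul_add_eq_of_natDegree_le hNle (natDegree_xd D), coeff_xd, coeff_xd, hDc]
    push_cast
    ring
  have hGle : (N ^ 3 + C A * N * D ^ 2 + C B * D ^ 3).natDegree ≤ 3 * (d + 1) := by
    refine (natDegree_add_le _ _).trans (max_le ((natDegree_add_le _ _).trans (max_le ?_ ?_)) ?_)
    · exact natDegree_pow_le.trans (Nat.mul_le_mul_left 3 hNle)
    · refine natDegree_mul_le.trans ?_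
      have a2 : (C A * N).natDegree ≤ d + 1 := (natDegree_C_mul_le _ _).trans hNle
      have a3 : (D ^ 2).natDegree ≤ 2 * d := natDegree_pow_le
      omega
    · have a1 : (C B * D ^ 3).natDegree ≤ 3 * d :=
        (natDegree_C_mul_le _ _).trans natDegree_pow_le
      omega
  have hGc : (N ^ 3 + C A * N * D ^ 2 + C B * D ^ 3).coeff (3 * (d + 1)) = c ^ 3 := by
    rw [coeff_add, coeff_add, coeff_pow_of_natDegree_le hNle]
    have a1 : (C A * N * D ^ 2).coeff (3 * (d + 1)) = 0 := by
      apply coeff_eq_zero_of_natDegree_lt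
      have a2 : (C A * N).natDegree ≤ d + 1 := (natDegree_C_mul_le _ _).trans hNle
      have a3 : (D ^ 2).natDegree ≤ 2 * d := natDegree_pow_le
      have a4 : (C A * N * D ^ 2).natDegree ≤ _ := natDegree_mul_le
      omega
    have a5 : (C B * D ^ 3).coeff (3 * (d + 1)) = 0 := by
      apply coeff_eq_zero_of_natDegree_lt
      have a6 : (C B * D ^ 3).natDegree ≤ 3 * d :=
        (natDegree_C_mul_le _ _).trans natDegree_pow_le
      omega
    rw [a1, a5, add_zero, add_zero]
  have hc1 : c = 1 := by
    have a1 : ((X * M) ^ 2 * f).coeff (2 * (d + 1 + d) + 3) = c ^ 2 := by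
      rw [coeff_mul_add_eq_of_natDegree_le (natDegree_pow_le.trans (Nat.mul_le_mul_left 2 e1)) hf3,
        coeff_pow_of_natDegree_le e1, e2, hfc, mul_one]
    have a2 : (X * M) ^ 2 * f = X ^ 2 * (D * (N ^ 3 + C A * N * D ^ 2 + C B * D ^ 3)) := by
      rw [← h]
      ring
    have a3 : (X ^ 2 * (D * (N ^ 3 + C A * N * D ^ 2 + C B * D ^ 3))).coeff
        (2 * (d + 1 + d) + 3) = c ^ 3 := by
      have e : 2 * (d + 1 + d) + 3 = (d + 3 * (d + 1)) + 2 := by ring
      rw [e, coeff_X_pow_mul, coeff_mul_add_eq_of_natDegree_le le_rfl hGle, hGc, hDc, one_mul]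
    rw [a2, a3] at a1
    have a4 : c ^ 2 * (c - 1) = 0 := by linear_combination a1
    have := (mul_eq_zero.1 a4).resolve_left (pow_ne_zero 2 hc0)
    exact sub_eq_zero.1 this
  -- the factorisation
  set N₁ := N - C α * D with hN₁
  set N₂ := N + C (2 * α) * D with hN₂
  have hM₁ : M = derivative N₁ * D - N₁ * derivative D := by
    rw [hM, hN₁]
    simp only [derivative_sub, derivative_mul, derivative_C]
    ring
  have hfac : M ^ 2 * f = D * N₁ ^ 2 * N₂ := by
    rw [h, hN₁, hN₂, hα, hβ]
    simp only [map_mul, map_neg, map_pow, map_ofNat]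
    ring
  have hN₁deg : N₁.natDegree = d + 1 := by
    rw [hN₁, natDegree_sub_eq_left_of_natDegree_lt, hdeg]
    rw [hdeg]
    exact lt_of_le_of_lt (natDegree_C_mul_le _ _) (Nat.lt_succ_self _)
  have hN₂deg : N₂.natDegree = d + 1 := by
    rw [hN₂, natDegree_add_eq_left_of_natDegree_lt, hdeg]
    rw [hdeg]
    exact lt_of_le_of_lt (natDegree_C_mul_le _ _) (Nat.lt_succ_self _)
  have hN₁0 : N₁ ≠ 0 := by
    intro h0
    rw [h0, natDegree_zero] at hN₁deg
    omega
  have hN₂0 : N₂ ≠ 0 := by
    intro h0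
    rw [h0, natDegree_zero] at hN₂deg
    omega
  have hcop₁ : IsCoprime N₁ D := by
    rw [hN₁]
    have := (IsCoprime.add_mul_right_left_iff (x := N) (y := D) (z := -C α)).2 hcop
    have e : N - C α * D = N + -C α * D := by ring
    rw [e]
    exact this
  have hdvd : N₁ ∣ M := by
    apply dvd_of_sq_dvd hN₁0 (fP_squarefree hd)
    rw [← hf, hfac]
    exact ⟨D * N₂, by ring⟩
  have hN₁' : derivative N₁ = 0 := by
    have a1 : N₁ ∣ derivative N₁ * D := by
      have a2 : derivative N₁ * D = M + N₁ * derivative D := by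
        rw [hM₁]
        ring
      rw [a2]
      exact dvd_add hdvd ⟨_, rfl⟩
    have a3 : N₁ ∣ derivative N₁ := hcop₁.dvd_of_dvd_mul_right a1
    by_contra hne
    have a4 := natDegree_le_of_dvd a3 hne
    have a5 := natDegree_derivative_lt (p := N₁) (by omega)
    omega
  have hM₂ : M = -(N₁ * derivative D) := by
    rw [hM₁, hN₁']
    ring
  have hst : (derivative D) ^ 2 * f = D * N₂ := by
    have a1 : N₁ ^ 2 * ((derivative D) ^ 2 * f) = N₁ ^ 2 * (D * N₂) := by
      have a2 := hfac
      rw [hM₂] at a2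
      linear_combination a2
    exact mul_left_cancel₀ (pow_ne_zero 2 hN₁0) a1
  have hD'0 : derivative D ≠ 0 := by
    intro h0
    rw [h0] at hst
    have a1 : D * N₂ = 0 := by
      rw [← hst]
      ring
    exact (mul_ne_zero hD0 hN₂0) a1
  have hN₂' : derivative N₂ = C (3 * α) * derivative D := by
    have a1 : N₂ = N₁ + C (3 * α) * D := by
      rw [hN₁, hN₂]
      simp only [map_mul, map_ofNat]
      ring
    rw [a1]
    simp only [derivative_add, derivative_mul, derivative_C, hN₁']
    ring
  have hder : 2 * derivative (derivative D) * f + derivative D * derivative f =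
      N₂ + C (3 * α) * D := by
    have a1 := congrArg derivative hst
    rw [derivative_mul, derivative_mul, sq, derivative_mul, hN₂'] at a1
    apply mul_left_cancel₀ hD'0
    linear_combination a1
  -- coefficients
  have hN₂c : N₂.coeff (d + 1) = 1 := by
    rw [hN₂, coeff_add, coeff_C_mul, hDc1, mul_zero, add_zero, ← hc, hc1]
  have c1 : (d : k) ^ 2 = 1 := by
    have a1 : ((X * derivative D) ^ 2 * f).coeff (2 * d + 3) = (d : k) ^ 2 := by
      rw [coeff_mul_add_eq_of_natDegree_le
        (natDegree_pow_le.trans (Nat.mul_le_mul_left 2 (natDegree_xd D))) hf3,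
        coeff_pow_of_natDegree_le (natDegree_xd D), coeff_xd, hDc, hfc, mul_one, mul_one]
    have a2 : (X * derivative D) ^ 2 * f = X ^ 2 * (D * N₂) := by
      rw [← hst]
      ring
    rw [a2, show 2 * d + 3 = (d + (d + 1)) + 2 by ring, coeff_X_pow_mul,
      coeff_mul_add_eq_of_natDegree_le le_rfl hN₂deg.le, hDc, hN₂c] at a1
    rw [← a1]
    ring
  have c2 : 2 * (d : k) ^ 2 + d = 1 := by
    have a0 : X * derivative (X * derivative D) = X * derivative D +
        X ^ 2 * derivative (derivative D) := by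
      rw [derivative_mul, derivative_X]
      ring
    have a1 : X ^ 2 * (N₂ + C (3 * α) * D) =
        C 2 * ((X * derivative (X * derivative D) - X * derivative D) * f) +
          (X * derivative D) * (X * derivative f) := by
      rw [← hder, a0]
      simp only [map_ofNat]
      ring
    have b1 : (X * derivative (X * derivative D) - X * derivative D).natDegree ≤ d := by
      refine (natDegree_sub_le _ _).trans (max_le ?_ (natDegree_xd D))
      exact (natDegree_xd _).trans (natDegree_xd D)
    have b2 : (X * derivative f).natDegree ≤ 3 := (natDegree_xd f).trans hf3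
    have a2 := congrArg (fun p : k[X] => p.coeff (d + 3)) a1
    simp only [coeff_add, coeff_C_mul] at a2
    rw [coeff_mul_add_eq_of_natDegree_le b1 hf3, coeff_mul_add_eq_of_natDegree_le (natDegree_xd D) b2,
      coeff_sub, coeff_xd, coeff_xd, coeff_xd, hDc, hfc,
      show d + 3 = (d + 1) + 2 by ring, coeff_X_pow_mul, coeff_add, coeff_C_mul, hDc1, hN₂c] at a2
    push_cast at a2
    linear_combination -a2
  push_cast
  linear_combination c2 - 2 * c1

/-- The multiplicities of the roots of `D`. -/
theorem mult {a b A B : k} {N D : k[X]} (hD0 : D ≠ 0) (hcop : IsCoprime N D)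
    (h : (derivative N * D - N * derivative D) ^ 2 * fP a b =
      D * (N ^ 3 + C A * N * D ^ 2 + C B * D ^ 3)) (hN : N ≠ 0)
    (hG0 : N ^ 3 + C A * N * D ^ 2 + C B * D ^ 3 ≠ 0) (x : k) :
    D.rootMultiplicity x = 0 ∨
        ((fP a b).eval x ≠ 0 ∧ D.rootMultiplicity x = 2) ∨
        ((fP a b).eval x = 0 ∧ D.rootMultiplicity x = 1) := by
  set w := derivative N * D - N * derivative D with hw
  set G := N ^ 3 + C A * N * D ^ 2 + C B * D ^ 3 with hG
  have hf0 : fP a b ≠ 0 := by
    intro h1
    have := natDegree_fP a b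
    rw [h1] at this
    simp at this
  have hR0 : D * G ≠ 0 := mul_ne_zero hD0 hG0
  have hL0 : w ^ 2 * fP a b ≠ 0 := by rw [h]; exact hR0
  have hw0 : w ≠ 0 := by
    intro h1
    apply hL0
    rw [h1]
    ring
  rcases Nat.eq_zero_or_pos (D.rootMultiplicity x) with hm | hm
  · left; exact hm
  right
  set m := D.rootMultiplicity x with hmdef
  have hDx : D.IsRoot x := (rootMultiplicity_pos hD0).1 hm
  have hNx : N.eval x ≠ 0 := by
    intro h1
    obtain ⟨u, v, huv⟩ := hcop
    have h3 := congrArg (eval x) huv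
    rw [eval_add, eval_mul, eval_mul, h1, hDx, mul_zero, mul_zero, add_zero, eval_one] at h3
    exact zero_ne_one h3
  have hGx : G.eval x ≠ 0 := by
    have : G.eval x = N.eval x ^ 3 := by
      rw [hG]
      simp only [eval_add, eval_mul, eval_pow, eval_C]
      rw [show D.eval x = 0 from hDx]
      ring
    rw [this]
    exact pow_ne_zero 3 hNx
  have hGm : G.rootMultiplicity x = 0 := rootMultiplicity_eq_zero hGx
  have hRm : (D * G).rootMultiplicity x = m := by
    rw [rootMultiplicity_mul hR0, hGm, add_zero]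
  have hLm : (w ^ 2 * fP a b).rootMultiplicity x =
      2 * w.rootMultiplicity x + (fP a b).rootMultiplicity x := by
    rw [rootMultiplicity_mul hL0, sq, rootMultiplicity_mul (mul_ne_zero hw0 hw0)]
    omega
  rw [h, hRm] at hLm
  have hwm : m - 1 ≤ w.rootMultiplicity x := by
    rw [le_rootMultiplicity_iff hw0]
    have h3 : (X - C x) ^ m ∣ D := pow_rootMultiplicity_dvd D x
    have h4 : (X - C x) ^ (m - 1) ∣ derivative D :=
      pow_sub_one_dvd_derivative_of_pow_dvd h3
    have h5 : (X - C x) ^ (m - 1) ∣ D := (pow_dvd_pow _ (Nat.sub_le _ _)).trans h3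
    exact dvd_sub (Dvd.dvd.mul_left h5 _) (Dvd.dvd.mul_left h4 _)
  by_cases hfx : (fP a b).eval x = 0
  · right
    have h3 : 0 < (fP a b).rootMultiplicity x := (rootMultiplicity_pos hf0).2 hfx
    exact ⟨hfx, by omega⟩
  · left
    have h3 : (fP a b).rootMultiplicity x = 0 := rootMultiplicity_eq_zero hfx
    exact ⟨hfx, by omega⟩

end VNs

open VNs FKer in
/-- If Velu's identity holds and the order of `L` is not `0` in `k`, Velu's curve is nonsingular. -/
theorem velu_ns {k : Type} [Field k] [DecidableEq k] [IsAlgClosed k] (h2 : (2 : k) ≠ 0)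
    (h3 : (3 : k) ≠ 0) {a b : k} (hd : dsc a b ≠ 0) (L : AddSubgroup (Pt a b)) (hL : Finite L)
    (hn : (Nat.card L : k) ≠ 0)
    (h : dR (vU a b L) ^ 2 * fR a b = vU a b L ^ 3 + RatFunc.C (vA a b L) * vU a b L +
      RatFunc.C (vB a b L)) : dsc (vA a b L) (vB a b L) ≠ 0 := by
  classical
  obtain ⟨hroots, hdeg⟩ := vU_poles h2 hd L hL
  have hid := poly_id h
  have hcop := RatFunc.isCoprime_num_denom (vU a b L)
  have hDm : (vU a b L).denom.Monic := RatFunc.monic_denom _
  have hD0 : (vU a b L).denom ≠ 0 := RatFunc.denom_ne_zero _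
  generalize (vU a b L).num = N at *
  generalize (vU a b L).denom = D at *
  generalize vA a b L = A at *
  generalize vB a b L = B at *
  intro hAB
  have hN0 : N ≠ 0 := by
    rintro rfl
    simp at hdeg
  have hG0 : N ^ 3 + C A * N * D ^ 2 + C B * D ^ 3 ≠ 0 := by
    intro h0
    have a1 : (N ^ 3).natDegree = 3 * (D.natDegree + 1) := by rw [natDegree_pow, hdeg]
    have a2 : N ^ 3 = -(C A * N * D ^ 2 + C B * D ^ 3) := by linear_combination h0
    have a3 : (C A * N * D ^ 2 + C B * D ^ 3).natDegree ≤ 3 * D.natDegree + 1 := by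
      refine (natDegree_add_le _ _).trans (max_le ?_ ?_)
      · refine natDegree_mul_le.trans ?_
        have b2 : (C A * N).natDegree ≤ D.natDegree + 1 := (natDegree_C_mul_le _ _).trans hdeg.le
        have b3 : (D ^ 2).natDegree ≤ 2 * D.natDegree := natDegree_pow_le
        omega
      · have b1 : (C B * D ^ 3).natDegree ≤ 3 * D.natDegree :=
          (natDegree_C_mul_le _ _).trans natDegree_pow_le
        omega
    rw [a2, natDegree_neg] at a1
    omega
  have hmul := mult hD0 hcop hid hN0 hG0
  -- the number of elements of `L`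
  obtain ⟨K', hK'⟩ : ∃ K' : Finset (Σ _ : k, k), K' =
    D.roots.toFinset.sigma fun t => FKer.sq (t ^ 3 + a * t + b) := ⟨_, rfl⟩
  have hmem : ∀ t s : k, (⟨t, s⟩ : Σ _ : k, k) ∈ K' ↔
      D.eval t = 0 ∧ s ^ 2 = t ^ 3 + a * t + b := by
    intro t s
    rw [hK', Finset.mem_sigma, Multiset.mem_toFinset, mem_roots hD0, mem_sq]
    exact Iff.rfl
  have hcard : K'.card = D.natDegree := by
    rw [hK', Finset.card_sigma, (IsAlgClosed.splits D).natDegree_eq_card_roots,
      ← Multiset.toFinset_sum_count_eq]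
    refine Finset.sum_congr rfl fun t ht => ?_
    rw [Multiset.mem_toFinset, mem_roots hD0] at ht
    have hpos : 0 < D.rootMultiplicity t := (rootMultiplicity_pos hD0).mpr ht
    rw [count_roots, card_sq h2]
    rcases hmul t with h3 | ⟨h3, h4⟩ | ⟨h3, h4⟩
    · omega
    · rw [eval_fP] at h3
      rw [if_neg h3, h4]
    · rw [eval_fP] at h3
      rw [if_pos h3, h4]
  have himg : co '' (L : Set (Pt a b)) = ((insert none (K'.map Function.Embedding.some) :
      Finset (Option (Σ _ : k, k))) : Set (Option (Σ _ : k, k))) := by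
    ext o
    simp only [Set.mem_image, SetLike.mem_coe, Finset.coe_insert,
      Set.mem_insert_iff, Finset.mem_map, Function.Embedding.some_apply]
    constructor
    · rintro ⟨P, hP, rfl⟩
      rcases P with _ | ⟨x, y, hxy⟩
      · left; rfl
      · right
        refine ⟨⟨x, y⟩, ?_, rfl⟩
        rw [hmem]
        refine ⟨(hroots x).2 ⟨.some x y hxy, hP, Affine.Point.some_ne_zero _, rfl⟩,
          (sw_nons h2 hd).mp hxy⟩
    · rintro (rfl | ⟨⟨t, s⟩, hts, rfl⟩)
      · exact ⟨0, L.zero_mem, rfl⟩
      · rw [hmem] at hts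
        have hts' : (SW a b).toAffine.Nonsingular t s := (sw_nons h2 hd).mpr hts.2
        obtain ⟨Q, hQ, hQ0, hQx⟩ := (hroots t).1 hts.1
        rcases Q with _ | ⟨x, y, hxy⟩
        · exact absurd rfl hQ0
        change x = t at hQx
        subst hQx
        have hy : s ^ 2 = y ^ 2 := by rw [hts.2, (sw_nons h2 hd).mp hxy]
        rcases sq_eq_sq_iff_eq_or_eq_neg.1 hy with hy | hy
        · subst hy
          exact ⟨.some x s hxy, hQ, rfl⟩
        · obtain ⟨h', hneg⟩ := neg_some hxy
          refine ⟨-(.some x y hxy), L.neg_mem hQ, ?_⟩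
          rw [hneg, hy]
          rfl
  have h8 : Nat.card L = ((L : Set (Pt a b))).ncard := rfl
  have hcardL : Nat.card L = D.natDegree + 1 := by
    rw [h8, ← Set.ncard_image_of_injective _ co_injective, himg, Set.ncard_coe_finset,
      Finset.card_insert_of_notMem (by simp), Finset.card_map, hcard]
  apply hn
  rw [hcardL]
  exact core h2 h3 hd hAB hDm hcop hdeg hid

end LT
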