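import Pool.Agent.Lib_MP_f1937f_nt.VCoef
import Pool.Agent.Lib_MP_f1937f_nt.VNs
import Pool.Agent.Lib_MP_f1937f_nt.FKer
import Pool.Agent.Lib_MP_f1937f_nt.IDefs

/-!
# MP_f1937f_nt: Velu's homomorphism and the kernel of reduction (piece VHOMA)
-/

namespace LT

open Polynomial WeierstrassCurve

variable {Ω κ : Type} [Field Ω] [Field κ] [DecidableEq Ω] [DecidableEq κ] [IsAlgClosed Ω]
  [IsAlgClosed κ] {O : ValuationSubring Ω} {r : O →+* κ} [IsLocalHom r] {a b : Ω} {a' b' : κ}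

namespace VHomA

omit [DecidableEq Ω] [DecidableEq κ] [IsAlgClosed Ω] [IsAlgClosed κ] [IsLocalHom r] in
theorem two_ne (O : ValuationSubring Ω) (r : O →+* κ) (h2 : (2 : κ) ≠ 0) : (2 : Ω) ≠ 0 := by
  intro h
  have e1 : Rdc O r ((2 : ℕ) : Ω) ((2 : ℕ) : κ) := Rdc.natCast O r 2
  have e2 : ((2 : ℕ) : Ω) = 0 := by rw [← h]; norm_cast
  rw [e2] at e1
  have e3 := (Rdc.zero O r).unique e1
  apply h2
  rw [e3]
  norm_cast

omit [DecidableEq Ω] [IsAlgClosed Ω] in
/-- The inverse of a non integral element is integral, also after an integral translation. -/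
theorem inv_mem {O : ValuationSubring Ω} {x z : Ω} (hx : x ∉ O) (hz : z ∈ O) :
    x - z ≠ 0 ∧ (x - z)⁻¹ ∈ O := by
  have h1 : x - z ∉ O := by
    intro h
    apply hx
    have := O.add_mem _ _ h hz
    rwa [sub_add_cancel] at this
  refine ⟨?_, ?_⟩
  · intro h
    apply h1
    rw [h]
    exact O.zero_mem
  · rcases O.mem_or_inv_mem (x - z) with h | h
    · exact absurd h h1
    · exact h

omit [IsAlgClosed Ω] in
/-- Velu's function of a non integral element is not integral. -/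
theorem vU_not_mem {O : ValuationSubring Ω} (ha : a ∈ O) (hb : b ∈ O) (L : AddSubgroup (Pt a b))
    (hL : Finite L) (hi : ∀ Q ∈ L, Q ≠ 0 → xc Q ∈ O) {x : Ω} (hx : x ∉ O) :
    (vU a b L).denom.eval x ≠ 0 ∧ (vU a b L).eval (RingHom.id Ω) x ∉ O := by
  obtain ⟨h1, h2⟩ := vU_eval L hL x (fun Q hQ h0 he => hx (he ▸ hi Q hQ h0))
  refine ⟨h1, ?_⟩
  rw [h2]
  have h3 : (∑ᶠ P ∈ {P : Pt a b | P ∈ L ∧ P ≠ 0},
        ((3 * xc P ^ 2 + a) / (x - xc P) + 2 * (xc P ^ 3 + a * xc P + b) / (x - xc P) ^ 2)) ∈ O := by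
    refine finsum_mem_induction (fun z => z ∈ O) O.zero_mem (fun u v hu hv => O.add_mem _ _ hu hv) ?_
    intro Q hQ
    have hq := hi Q hQ.1 hQ.2
    have hinv := (inv_mem hx hq).2
    have hn : ∀ m : ℕ, (m : Ω) ∈ O := fun m => natCast_mem O m
    have h3' : (3 : Ω) ∈ O := by exact_mod_cast hn 3
    have h2' : (2 : Ω) ∈ O := by exact_mod_cast hn 2
    rw [div_eq_mul_inv, div_eq_mul_inv, ← inv_pow]
    refine O.add_mem _ _ (O.mul_mem _ _ (O.add_mem _ _ (O.mul_mem _ _ h3' (pow_mem hq 2)) ha) hinv)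
      (O.mul_mem _ _ (O.mul_mem _ _ h2' (O.add_mem _ _ (O.add_mem _ _ (pow_mem hq 3)
        (O.mul_mem _ _ ha hq)) hb)) (pow_mem hinv 2))
  intro h4
  apply hx
  have := sub_mem h4 h3
  rwa [add_sub_cancel_right] at this

omit [IsAlgClosed Ω] [IsAlgClosed κ] in
/-- The nonzero points of `L` are integral. -/
theorem int_of_mem (ha : Rdc O r a a') (hb : Rdc O r b b') (h2 : (2 : κ) ≠ 0)
    (hd : dsc a' b' ≠ 0) (L : AddSubgroup (Pt a b)) (hn : (Nat.card L : κ) ≠ 0) {Q : Pt a b}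
    (hQ : Q ∈ L) (h0 : Q ≠ 0) : xc Q ∈ O ∧ yc Q ∈ O := by
  have h1 : Nat.card L • Q = 0 := by
    have h := card_nsmul_eq_zero' (G := L) (x := ⟨Q, hQ⟩)
    exact congrArg Subtype.val h
  exact IsRed.xc_mem ha hb h2 hd hn h1 h0

omit [IsAlgClosed κ] in
/-- The kernel of reduction goes to the kernel of reduction. -/
theorem ker_case (ha : Rdc O r a a') (hb : Rdc O r b b') (h2 : (2 : κ) ≠ 0)
    (hd : dsc a' b' ≠ 0) {red : Pt a b →+ Pt a' b'} (h : IsRed O r red) (L : AddSubgroup (Pt a b))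
    (hL : Finite L) (hn : (Nat.card L : κ) ≠ 0) {ψ : MM a b (vA a b L) (vB a b L)}
    {Ψ : Pt a b →+ Pt (vA a b L) (vB a b L)} (h0 : ψ ≠ .zero) (hu : uu ψ = vU a b L)
    (hI : InO ψ) (hC : Compat ψ Ψ)
    (hd' : dsc (vA a b L) (vB a b L) ≠ 0) {c d : κ}
    {red' : Pt (vA a b L) (vB a b L) →+ Pt c d}
    (h' : IsRed O r red') (P : Pt a b) (hP : red P = 0) : red' (Ψ P) = 0 := by
  rcases P with _ | ⟨x, y, hxy⟩
  · change red' (Ψ 0) = 0
    rw [map_zero, map_zero]
  have hx : x ∉ O := by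
    intro hx
    obtain ⟨x', y', g, h1, h2, h3⟩ := h.2 x y hxy hx
    rw [hP] at h3
    exact absurd h3.symm (Affine.Point.some_ne_zero _)
  obtain ⟨e1, e2⟩ := vU_not_mem (O := O) ha.mem hb.mem L hL
    (fun Q hQ hQ0 => (int_of_mem ha hb h2 hd L hn hQ hQ0).1) hx
  rw [← hu] at e1 e2
  by_cases hy : y = 0
  · subst hy
    obtain ⟨g, hg⟩ := (compat_two (two_ne O r h2) (dsc_ne_of_red ha hb hd) hd' h0 hC hI hxy).2 e1
    rw [hg]
    exact h'.1 _ _ _ e2
  · obtain ⟨g, hg⟩ := ((hC x y hxy hy).2 h0).2 e1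
    rw [hg]
    exact h'.1 _ _ _ e2

omit [DecidableEq Ω] [DecidableEq κ] [IsAlgClosed Ω] [IsAlgClosed κ] [IsLocalHom r] in
/-- Points with the same `x`-coordinate. -/
theorem eq_or_neg {k : Type} [Field k] [DecidableEq k] {c d : k} (G : AddSubgroup (Pt c d))
    {P Q : Pt c d} (hP : P ≠ 0) (hQ : Q ≠ 0) (hx : xc P = xc Q) (hG : Q ∈ G) : P ∈ G := by
  rcases P with _ | ⟨x, y, h⟩
  · exact absurd rfl hP
  rcases Q with _ | ⟨x', y', h'⟩
  · exact absurd rfl hQ
  change x = x' at hx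
  subst hx
  have e1 := sw_equation.mp h.1
  have e2 := sw_equation.mp h'.1
  have e3 : (y - y') * (y + y') = 0 := by
    have : y ^ 2 = y' ^ 2 := e1.trans e2.symm
    linear_combination this
  rcases mul_eq_zero.mp e3 with e | e
  · have : y = y' := sub_eq_zero.mp e
    subst this
    exact hG
  · have : y = -y' := eq_neg_of_add_eq_zero_left e
    subst this
    have h1 : (Affine.Point.some x (-y') h : Pt c d) = -(Affine.Point.some x y' h') := by
      rw [Affine.Point.neg_some]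
      exact (Affine.Point.some.injEq ..).mpr ⟨rfl, by simp [Affine.negY, SW]⟩
    rw [h1]
    exact G.neg_mem hG

end VHomA

open VHomA in
/-- The homomorphism maps the kernel of reduction to the kernel of reduction, and commutes with the
reduction of coordinates. -/
theorem velu_red_ker (hr : Function.Surjective r) (ha : Rdc O r a a') (hb : Rdc O r b b')
    (h2 : (2 : κ) ≠ 0) (h3 : (3 : κ) ≠ 0)
    (hd : dsc a' b' ≠ 0) {red : Pt a b →+ Pt a' b'} (h : IsRed O r red) (L : AddSubgroup (Pt a b))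
    (hL : Finite L) (hn : (Nat.card L : κ) ≠ 0) {ψ : MM a b (vA a b L) (vB a b L)}
    {Ψ : Pt a b →+ Pt (vA a b L) (vB a b L)} (h0 : ψ ≠ .zero) (hu : uu ψ = vU a b L)
    (hc : HasC ψ 1) (hI : InO ψ) (hC : Compat ψ Ψ) (hk : Ψ.ker = L)
    (hd' : dsc (vA a b L) (vB a b L) ≠ 0)
    (hd'' : dsc (vA a' b' (L.map red)) (vB a' b' (L.map red)) ≠ 0)
    {red' : Pt (vA a b L) (vB a b L) →+ Pt (vA a' b' (L.map red)) (vB a' b' (L.map red))}
    (h' : IsRed O r red') (P : Pt a b) :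
    (red P ∈ L.map red → red' (Ψ P) = 0) ∧
      (red P ∉ L.map red → red' (Ψ P) ≠ 0 ∧
        xc (red' (Ψ P)) = (vU a' b' (L.map red)).eval (RingHom.id κ) (xc (red P)) ∧
        yc (red' (Ψ P)) =
          yc (red P) * (dR (vU a' b' (L.map red))).eval (RingHom.id κ) (xc (red P))) := by
  constructor
  · rintro ⟨Q, hQ, hPQ⟩
    have e1 : red (P - Q) = 0 := by rw [map_sub, hPQ, sub_self]
    have e2 := ker_case ha hb h2 hd h L hL hn h0 hu hI hC hd' h' (P - Q) e1
    have e3 : Ψ Q = 0 := by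
      have : Q ∈ Ψ.ker := by rw [hk]; exact hQ
      exact this
    rwa [map_sub, e3, sub_zero] at e2
  · intro hP
    have hP0 : red P ≠ 0 := by
      intro e
      apply hP
      rw [e]
      exact (L.map red).zero_mem
    rcases P with _ | ⟨x, y, hxy⟩
    · exact absurd (map_zero red) hP0
    have hx : x ∈ O := by
      by_contra hx
      exact hP0 (h.1 x y hxy hx)
    obtain ⟨x', y', g, hx', hy', hred⟩ := h.2 x y hxy hx
    rw [hred] at hP hP0 ⊢
    change _ ∧ xc _ = RatFunc.eval (RingHom.id κ) x' _ ∧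
      yc _ = y' * RatFunc.eval (RingHom.id κ) x' _
    obtain ⟨hA, hB, hU⟩ := velu_coef_red ha hb h2 hd h L hL hn
    have hZ : x' ∉ {x : κ | ∃ Q ∈ L.map red, Q ≠ 0 ∧ xc Q = x} := by
      rintro ⟨Q, hQ, hQ0, hQx⟩
      exact hP (eq_or_neg (L.map red) hP0 hQ0 hQx.symm hQ)
    obtain ⟨u1, u2, u3⟩ := hU.eval hx' hZ
    obtain ⟨v1, v2, v3⟩ := hU.deriv.eval hx' hZ
    have hvv : vv ψ = dR (vU a b L) := by
      have := hc.1
      rw [hu, map_one, one_mul] at this
      exact this.symm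
    rw [← hu] at u1
    have key : ∃ g', Ψ (.some x y hxy) = .some ((vU a b L).eval (RingHom.id Ω) x)
        (y * (dR (vU a b L)).eval (RingHom.id Ω) x) g' := by
      by_cases hy : y = 0
      · subst hy
        obtain ⟨g', hg'⟩ := (compat_two (two_ne O r h2) (dsc_ne_of_red ha hb hd) hd' h0 hC hI
          hxy).2 u1
        simp only [hu] at hg'
        simp only [zero_mul]
        exact ⟨hu ▸ g', hg'⟩
      · obtain ⟨g', hg'⟩ := ((hC x y hxy hy).2 h0).2 u1
        rw [hu, hvv] at g'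
        refine ⟨g', ?_⟩
        rw [hg']
        simp only [hu, hvv]
    obtain ⟨g', hg'⟩ := key
    obtain ⟨x'', y'', g'', hx'', hy'', hred'⟩ := h'.2 _ _ g' u3.mem
    rw [hg', hred']
    refine ⟨Affine.Point.some_ne_zero _, ?_, ?_⟩
    · exact hx''.unique u3
    · exact hy''.unique (hy'.mul v3)

end LT
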