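import Pool.Agent.Lib_MP_f1937f_nt.FDer

/-!
# MP_f1937f_nt: the poles of Velu's function (piece VPOLE)
-/

namespace LT

open Polynomial WeierstrassCurve

variable {k : Type} [Field k]

/-- `u` is regular at `x` with value `v`. -/
def VPole.Reg (x : k) (u : RatFunc k) (v : k) : Prop :=
  ∃ p q : k[X], q.eval x ≠ 0 ∧
    u = algebraMap k[X] (RatFunc k) p / algebraMap k[X] (RatFunc k) q ∧ v = p.eval x / q.eval x

theorem VPole.ne_of_eval {x : k} {q : k[X]} (h : q.eval x ≠ 0) : q ≠ 0 := by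
  rintro rfl
  simp at h

theorem VPole.Reg.add {x : k} {u u' : RatFunc k} {v v' : k} (h : VPole.Reg x u v)
    (h' : VPole.Reg x u' v') : VPole.Reg x (u + u') (v + v') := by
  obtain ⟨p, q, hq, rfl, rfl⟩ := h
  obtain ⟨r, s, hs, rfl, rfl⟩ := h'
  refine ⟨p * s + q * r, q * s, ?_, ?_, ?_⟩
  · rw [eval_mul]
    exact mul_ne_zero hq hs
  · rw [div_add_div _ _ (FDer.am_ne (VPole.ne_of_eval hq)) (FDer.am_ne (VPole.ne_of_eval hs)),
      map_add, map_mul, map_mul, map_mul]
  · rw [div_add_div _ _ hq hs]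
    simp

theorem VPole.Reg.zero (x : k) : VPole.Reg x 0 0 := ⟨0, 1, by simp, by simp, by simp⟩

theorem VPole.Reg.neg {x : k} {u : RatFunc k} {v : k} (h : VPole.Reg x u v) :
    VPole.Reg x (-u) (-v) := by
  obtain ⟨p, q, hq, rfl, rfl⟩ := h
  exact ⟨-p, q, hq, by rw [map_neg, neg_div], by rw [eval_neg, neg_div]⟩

theorem VPole.Reg.regX (x : k) : VPole.Reg x RatFunc.X x := ⟨Polynomial.X, 1, by simp, by simp, by simp⟩

theorem VPole.Reg.sum {ι : Type} {x : k} (s : Finset ι) (f : ι → RatFunc k) (g : ι → k)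
    (h : ∀ i ∈ s, VPole.Reg x (f i) (g i)) : VPole.Reg x (∑ i ∈ s, f i) (∑ i ∈ s, g i) := by
  classical
  induction s using Finset.induction_on with
  | empty => simpa using VPole.Reg.zero x
  | insert i s hi ih =>
    rw [Finset.sum_insert hi, Finset.sum_insert hi]
    exact (h i (Finset.mem_insert_self _ _)).add
      (ih fun j hj => h j (Finset.mem_insert_of_mem hj))

theorem VPole.am_sub (s : k) : (RatFunc.X - RatFunc.C s : RatFunc k) =
    algebraMap k[X] (RatFunc k) (X - C s) := by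
  rw [map_sub, RatFunc.algebraMap_X, RatFunc.algebraMap_C]

theorem VPole.Reg.term {x s : k} (hs : s ≠ x) (c d : k) :
    VPole.Reg x (RatFunc.C c / (RatFunc.X - RatFunc.C s) +
      RatFunc.C d / (RatFunc.X - RatFunc.C s) ^ 2) (c / (x - s) + d / (x - s) ^ 2) := by
  have h1 : (X - C s : k[X]).eval x ≠ 0 := by
    simp only [eval_sub, eval_X, eval_C]
    exact sub_ne_zero.mpr (Ne.symm hs)
  apply VPole.Reg.add
  · refine ⟨C c, Polynomial.X - C s, h1, ?_, by simp⟩
    rw [VPole.am_sub, RatFunc.algebraMap_C]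
  · refine ⟨C d, (Polynomial.X - C s) ^ 2, ?_, ?_, by simp⟩
    · rw [eval_pow]
      exact pow_ne_zero 2 h1
    · rw [VPole.am_sub, RatFunc.algebraMap_C, map_pow]

theorem VPole.Reg.spec {x : k} {u : RatFunc k} {v : k} (h : VPole.Reg x u v) :
    u.denom.eval x ≠ 0 ∧ u.eval (RingHom.id k) x = v := by
  obtain ⟨p, q, hq, hu, rfl⟩ := h
  have hq0 := VPole.ne_of_eval hq
  have h1 : u.num * q = p * u.denom := by
    have h1 := u.num_div_denom
    nth_rewrite 3 [hu] at h1
    rw [div_eq_div_iff (FDer.am_ne u.denom_ne_zero) (FDer.am_ne hq0), ← map_mul, ← map_mul] at h1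
    exact FDer.am_inj h1
  have h2 : u.denom ∣ q := by
    have : u.denom ∣ u.num * q := ⟨p, by rw [h1, mul_comm]⟩
    exact (u.isCoprime_num_denom.symm).dvd_of_dvd_mul_left this
  have h3 : u.denom.eval x ≠ 0 := by
    intro h
    obtain ⟨r, hr⟩ := h2
    apply hq
    rw [hr, eval_mul, h, zero_mul]
  refine ⟨h3, ?_⟩
  unfold RatFunc.eval
  rw [Polynomial.eval₂_id, Polynomial.eval₂_id, div_eq_div_iff h3 hq, ← eval_mul, ← eval_mul, h1]

theorem VPole.Reg.of_denom {x : k} {u : RatFunc k} (h : u.denom.eval x ≠ 0) :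
    VPole.Reg x u (u.eval (RingHom.id k) x) := by
  refine ⟨u.num, u.denom, h, u.num_div_denom.symm, ?_⟩
  unfold RatFunc.eval
  rw [Polynomial.eval₂_id, Polynomial.eval₂_id]

/-- a proper fraction -/
def VPole.Prop' (u : RatFunc k) : Prop :=
  ∃ p q : k[X], q ≠ 0 ∧ p.degree < q.degree ∧
    u = algebraMap k[X] (RatFunc k) p / algebraMap k[X] (RatFunc k) q

theorem VPole.Prop'.add {u u' : RatFunc k} (h : VPole.Prop' u) (h' : VPole.Prop' u') :
    VPole.Prop' (u + u') := by
  obtain ⟨p, q, hq, hd, rfl⟩ := h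
  obtain ⟨r, s, hs, hd', rfl⟩ := h'
  refine ⟨p * s + q * r, q * s, mul_ne_zero hq hs, ?_, ?_⟩
  · apply lt_of_le_of_lt (degree_add_le _ _)
    rw [max_lt_iff, degree_mul, degree_mul, degree_mul]
    have e1 := Polynomial.degree_ne_bot.mpr hs
    have e2 := Polynomial.degree_ne_bot.mpr hq
    constructor
    · exact WithBot.add_lt_add_right e1 hd
    · exact WithBot.add_lt_add_left e2 hd'
  · rw [div_add_div _ _ (FDer.am_ne hq) (FDer.am_ne hs), map_add, map_mul, map_mul, map_mul]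

theorem VPole.Prop'.zero : VPole.Prop' (0 : RatFunc k) := ⟨0, 1, one_ne_zero, by simp, by simp⟩

theorem VPole.Prop'.term (s c d : k) :
    VPole.Prop' (RatFunc.C c / (RatFunc.X - RatFunc.C s) +
      RatFunc.C d / (RatFunc.X - RatFunc.C s) ^ 2) := by
  apply VPole.Prop'.add
  · refine ⟨C c, X - C s, X_sub_C_ne_zero s, ?_, ?_⟩
    · rw [degree_X_sub_C]
      exact lt_of_le_of_lt degree_C_le (by norm_num)
    · rw [VPole.am_sub, RatFunc.algebraMap_C]
  · refine ⟨C d, (X - C s) ^ 2, pow_ne_zero 2 (X_sub_C_ne_zero s), ?_, ?_⟩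
    · rw [degree_pow, degree_X_sub_C]
      exact lt_of_le_of_lt degree_C_le (by norm_num)
    · rw [VPole.am_sub, RatFunc.algebraMap_C, map_pow]

theorem VPole.deg_of {w : RatFunc k} (h : VPole.Prop' w) :
    (RatFunc.X + w).num.natDegree = (RatFunc.X + w).denom.natDegree + 1 := by
  obtain ⟨p, q, hq, hd, hw⟩ := h
  set u : RatFunc k := RatFunc.X + w with hu
  have hu' : u = algebraMap k[X] (RatFunc k) (X * q + p) / algebraMap k[X] (RatFunc k) q := by
    rw [hu, hw, map_add, map_mul, RatFunc.algebraMap_X, add_div,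
      mul_div_cancel_right₀ _ (FDer.am_ne hq)]
  have h1 : u.num * q = (X * q + p) * u.denom := by
    have h1 := u.num_div_denom
    nth_rewrite 3 [hu'] at h1
    rw [div_eq_div_iff (FDer.am_ne u.denom_ne_zero) (FDer.am_ne hq), ← map_mul, ← map_mul] at h1
    exact FDer.am_inj h1
  have h2 : (X * q + p).natDegree = q.natDegree + 1 := by
    have h3 : (X * q).natDegree = q.natDegree + 1 := natDegree_X_mul hq
    rw [← h3]
    apply natDegree_add_eq_left_of_degree_lt
    refine lt_of_lt_of_le hd ?_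
    rw [degree_mul, degree_X]
    exact le_add_of_nonneg_left (by norm_num)
  have h4 : X * q + p ≠ 0 := by
    intro h
    rw [h] at h2
    simp at h2
  have h5 : u.num ≠ 0 := by
    intro h
    rw [h, zero_mul] at h1
    exact (mul_ne_zero h4 u.denom_ne_zero) h1.symm
  have h6 := congrArg natDegree h1
  rw [natDegree_mul h5 hq, natDegree_mul h4 u.denom_ne_zero, h2] at h6
  omega

variable [DecidableEq k]

theorem VPole.vU_sum {a b : k} (L : AddSubgroup (Pt a b)) (hL : Finite L) :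
    ∃ S : Finset (Pt a b), (∀ P, P ∈ S ↔ P ∈ L ∧ P ≠ 0) ∧
      (vU a b L = RatFunc.X + ∑ P ∈ S,
        (RatFunc.C (3 * xc P ^ 2 + a) / (RatFunc.X - RatFunc.C (xc P)) +
          RatFunc.C (2 * (xc P ^ 3 + a * xc P + b)) / (RatFunc.X - RatFunc.C (xc P)) ^ 2)) ∧
      ∀ g : Pt a b → k, (∑ᶠ P ∈ {P : Pt a b | P ∈ L ∧ P ≠ 0}, g P) = ∑ P ∈ S, g P := by
  have hfin : {P : Pt a b | P ∈ L ∧ P ≠ 0}.Finite :=
    Set.Finite.subset (s := (L : Set (Pt a b))) (Set.toFinite _) fun P hP => hP.1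
  refine ⟨hfin.toFinset, fun P => by simp, ?_, ?_⟩
  · unfold vU
    rw [finsum_mem_eq_finite_toFinset_sum _ hfin]
  · intro g
    rw [finsum_mem_eq_finite_toFinset_sum _ hfin]

/-- Velu's function as a finite sum, and its values. -/
theorem vU_eval {a b : k} (L : AddSubgroup (Pt a b)) (hL : Finite L) (x : k)
    (hx : ∀ Q ∈ L, Q ≠ 0 → xc Q ≠ x) :
    (vU a b L).denom.eval x ≠ 0 ∧ (vU a b L).eval (RingHom.id k) x =
      x + ∑ᶠ P ∈ {P : Pt a b | P ∈ L ∧ P ≠ 0},
        ((3 * xc P ^ 2 + a) / (x - xc P) + 2 * (xc P ^ 3 + a * xc P + b) / (x - xc P) ^ 2) := by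
  obtain ⟨S, hS, h1, h2⟩ := VPole.vU_sum L hL
  rw [h2, h1]
  apply VPole.Reg.spec
  apply (VPole.Reg.regX x).add
  apply VPole.Reg.sum
  intro P hP
  exact VPole.Reg.term (hx P ((hS P).mp hP).1 ((hS P).mp hP).2) _ _

omit [DecidableEq k] in
theorem VPole.dsc_zero (x a b : k) (h1 : 3 * x ^ 2 + a = 0) (h2 : 0 ^ 2 = x ^ 3 + a * x + b) :
    dsc a b = 0 := by
  have ha : a = -3 * x ^ 2 := by linear_combination h1
  subst ha
  have hb : b = 2 * x ^ 3 := by linear_combination -h2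
  subst hb
  unfold dsc
  ring

omit [DecidableEq k] in
theorem VPole.pt_eq {a b : k} {P : Pt a b} (hP : P ≠ 0) : yc P ^ 2 = xc P ^ 3 + a * xc P + b := by
  rcases P with _ | ⟨x, y, h⟩
  · exact absurd rfl hP
  · exact sw_equation.mp h.1

theorem VPole.neg_c {a b : k} (P : Pt a b) (hP : P ≠ 0) :
    -P ≠ 0 ∧ xc (-P) = xc P ∧ yc (-P) = -yc P := by
  refine ⟨neg_ne_zero.mpr hP, ?_, ?_⟩
  · rcases P with _ | ⟨x, y, h⟩
    · exact absurd rfl hP
    · rfl
  · rcases P with _ | ⟨x, y, h⟩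
    · exact absurd rfl hP
    · change (SW a b).toAffine.negY x y = -y
      simp [Affine.negY, SW]

theorem VPole.filter_eq {a b : k} {S : Finset (Pt a b)} (L : AddSubgroup (Pt a b))
    (hS : ∀ P, P ∈ S ↔ P ∈ L ∧ P ≠ 0) (Q : Pt a b) (hQ : Q ∈ L) (hQ0 : Q ≠ 0) :
    S.filter (fun P => xc P = xc Q) = {Q, -Q} := by
  obtain ⟨h1, h2, h3⟩ := VPole.neg_c Q hQ0
  ext P
  simp only [Finset.mem_filter, Finset.mem_insert, Finset.mem_singleton, hS]
  constructor
  · rintro ⟨⟨-, hP0⟩, hx⟩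
    have e1 := VPole.pt_eq hP0
    have e2 := VPole.pt_eq hQ0
    rw [hx, ← e2, sq_eq_sq_iff_eq_or_eq_neg] at e1
    rcases e1 with e1 | e1
    · exact Or.inl (pt_ext hP0 hQ0 hx e1)
    · exact Or.inr (pt_ext hP0 h1 (by rw [h2, hx]) (by rw [h3, e1]))
  · rintro (rfl | rfl)
    · exact ⟨⟨hQ, hQ0⟩, rfl⟩
    · exact ⟨⟨L.neg_mem hQ, h1⟩, h2⟩

omit [DecidableEq k] in
theorem VPole.not_reg {x c d v : k} (h : VPole.Reg x (RatFunc.C c / (RatFunc.X - RatFunc.C x) +
      RatFunc.C d / (RatFunc.X - RatFunc.C x) ^ 2) v) : d = 0 ∧ c = 0 := by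
  obtain ⟨p, q, hq, hu, -⟩ := h
  have hX : algebraMap k[X] (RatFunc k) (X - C x) ≠ 0 := FDer.am_ne (X_sub_C_ne_zero x)
  have h1 : (C c * (X - C x) + C d) * q = p * (X - C x) ^ 2 := by
    apply FDer.am_inj
    rw [VPole.am_sub] at hu
    simp only [map_mul, map_add, map_pow, RatFunc.algebraMap_C]
    have hq' := FDer.am_ne (VPole.ne_of_eval hq)
    field_simp at hu
    linear_combination hu
  have h2 : d = 0 := by
    have := congrArg (Polynomial.eval x) h1
    simp only [eval_mul, eval_add, eval_sub, eval_pow, eval_X, eval_C, sub_self, mul_zero,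
      zero_add] at this
    rw [zero_pow two_ne_zero, mul_zero] at this
    exact (mul_eq_zero.mp this).resolve_right hq
  refine ⟨h2, ?_⟩
  rw [h2, C_0, add_zero] at h1
  have h3 : C c * q = p * (X - C x) := by
    apply mul_right_cancel₀ (X_sub_C_ne_zero x)
    linear_combination h1
  have := congrArg (Polynomial.eval x) h3
  simp only [eval_mul, eval_sub, eval_X, eval_C, sub_self, mul_zero] at this
  exact (mul_eq_zero.mp this).resolve_right hq

/-- Velu's function has a pole exactly at the `x`-coordinates of the nonzero points of `L` and a simple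
pole at infinity. -/
theorem vU_poles (h2 : (2 : k) ≠ 0) {a b : k} (hd : dsc a b ≠ 0) (L : AddSubgroup (Pt a b))
    (hL : Finite L) :
    (∀ x : k, (vU a b L).denom.eval x = 0 ↔ ∃ Q ∈ L, Q ≠ 0 ∧ xc Q = x) ∧
      (vU a b L).num.natDegree = (vU a b L).denom.natDegree + 1 := by
  obtain ⟨S, hS, h1, -⟩ := VPole.vU_sum L hL
  refine ⟨fun x => ⟨fun hx => ?_, ?_⟩, ?_⟩
  · by_contra hne
    push Not at hne
    exact (vU_eval L hL x hne).1 hx
  · rintro ⟨Q, hQ, hQ0, rfl⟩
    by_contra hne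
    have r1 := VPole.Reg.of_denom hne
    obtain ⟨n1, n2, n3⟩ := VPole.neg_c Q hQ0
    have hsplit := Finset.sum_filter_add_sum_filter_not S (fun P => xc P = xc Q)
      (fun P => (RatFunc.C (3 * xc P ^ 2 + a) / (RatFunc.X - RatFunc.C (xc P)) +
          RatFunc.C (2 * (xc P ^ 3 + a * xc P + b)) / (RatFunc.X - RatFunc.C (xc P)) ^ 2))
    have r2 := VPole.Reg.sum (x := xc Q) (S.filter (fun P => ¬xc P = xc Q))
      (fun P => (RatFunc.C (3 * xc P ^ 2 + a) / (RatFunc.X - RatFunc.C (xc P)) +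
          RatFunc.C (2 * (xc P ^ 3 + a * xc P + b)) / (RatFunc.X - RatFunc.C (xc P)) ^ 2))
      (fun P => ((3 * xc P ^ 2 + a) / (xc Q - xc P) +
        (2 * (xc P ^ 3 + a * xc P + b)) / (xc Q - xc P) ^ 2))
      (fun P hP => VPole.Reg.term (Finset.mem_filter.mp hP).2 _ _)
    have r3 := (r1.add (VPole.Reg.regX (xc Q)).neg).add r2.neg
    rw [h1, ← hsplit] at r3
    have hf := VPole.filter_eq L hS Q hQ hQ0
    have he := VPole.pt_eq hQ0
    rw [hf] at r3
    by_cases hy : yc Q = 0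
    · have hQQ : -Q = Q := pt_ext n1 hQ0 n2 (by rw [n3, hy, neg_zero])
      rw [hQQ, Finset.pair_eq_singleton, Finset.sum_singleton] at r3
      have r4 := VPole.not_reg (x := xc Q) (c := 3 * xc Q ^ 2 + a)
        (d := 2 * (xc Q ^ 3 + a * xc Q + b)) (v := _) (by
          convert r3 using 1
          ring)
      apply hd
      rw [hy] at he
      exact VPole.dsc_zero _ a b r4.2 he
    · have hQQ : Q ≠ -Q := by
        intro h
        have := congrArg yc h
        rw [n3] at this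
        apply hy
        have h3 : 2 * yc Q = 0 := by linear_combination this
        exact (mul_eq_zero.mp h3).resolve_left h2
      rw [Finset.sum_pair hQQ, n2] at r3
      have r4 := VPole.not_reg (x := xc Q) (c := 2 * (3 * xc Q ^ 2 + a))
        (d := 2 * (2 * (xc Q ^ 3 + a * xc Q + b))) (v := _) (by
          convert r3 using 1
          rw [map_mul RatFunc.C 2 (3 * xc Q ^ 2 + a), map_mul RatFunc.C 2 (2 * _)]
          have : (RatFunc.C (2 : k)) = 2 := map_ofNat _ 2
          rw [this]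
          ring)
      rw [← he] at r4
      have h4 := r4.1
      rcases mul_eq_zero.mp h4 with h5 | h5
      · exact h2 h5
      · rcases mul_eq_zero.mp h5 with h6 | h6
        · exact h2 h6
        · exact hy (pow_eq_zero_iff two_ne_zero |>.mp h6)
  · rw [h1]
    apply VPole.deg_of
    apply Finset.sum_induction _ _ (fun _ _ => VPole.Prop'.add) VPole.Prop'.zero
    intro P _
    exact VPole.Prop'.term _ _ _

end LT
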