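import Pool.Agent.Lib_MP_f1937f_nt.IDefs
import Pool.Agent.Lib_MP_f1937f_nt.CThB
import Pool.Agent.Lib_MP_f1937f_nt.COverB
import Pool.Agent.Lib_MP_f1937f_nt.CPer
import Pool.Agent.Lib_MP_f1937f_nt.VPole

/-!
# MP_f1937f_nt: the lattice of the quotient (piece VELA)
-/

namespace LT

open Polynomial WeierstrassCurve PeriodPair

theorem VelA.card_smul {Λ : PeriodPair} {a b : ℂ} {θ : ℂ →+ Pt a b} (hθ : IsTh Λ θ)
    (L : AddSubgroup (Pt a b)) {z : ℂ} (hz : θ z ∈ L) : Nat.card L • z ∈ Λ.lattice := by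
  rw [← hθ.ker, map_nsmul]
  have h1 : Nat.card L • (⟨θ z, hz⟩ : L) = 0 := card_nsmul_eq_zero'
  have h2 := congrArg (AddSubgroup.subtype L) h1
  rw [map_nsmul, map_zero] at h2
  exact h2

/-- Representatives for `Λ' = θ⁻¹(L)` and the transfer of sums. -/
theorem VelA.reps {Λ Λ' : PeriodPair} {a b : ℂ} {θ : ℂ →+ Pt a b} (hθ : IsTh Λ θ)
    (L : AddSubgroup (Pt a b)) (hL : Finite L) (hmem : ∀ z : ℂ, z ∈ Λ'.lattice ↔ θ z ∈ L) :
    Λ.lattice ≤ Λ'.lattice ∧ ∃ R : Finset ℂ, IsReps Λ Λ' R ∧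
      ∀ (A : Type) [AddCommMonoid A] (F : Pt a b → A),
        ∑ᶠ P ∈ {P : Pt a b | P ∈ L ∧ P ≠ 0}, F P = ∑ w ∈ R, F (θ w) := by
  classical
  have hle : ∀ z ∈ Λ.lattice, z ∈ Λ'.lattice := by
    intro z hz
    rw [hmem, hθ.1 z hz]
    exact L.zero_mem
  have hn : 0 < Nat.card L := Nat.card_pos
  obtain ⟨R, hR⟩ := reps_exists hle hn (fun z hz => VelA.card_smul hθ L ((hmem z).1 hz))
  refine ⟨hle, R, hR, ?_⟩
  intro A _ F
  have hinj : Set.InjOn θ (R : Set ℂ) := by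
    intro w hw w' hw' h
    apply hR.2.2 w hw w' hw'
    rw [← hθ.ker, map_sub, h, sub_self]
  have himg : {P : Pt a b | P ∈ L ∧ P ≠ 0} = ((R.image θ : Finset (Pt a b)) : Set (Pt a b)) := by
    ext P
    simp only [Set.mem_ofPred_eq, Finset.coe_image, Set.mem_image, Finset.mem_coe]
    constructor
    · rintro ⟨hP, hP0⟩
      obtain ⟨z, rfl⟩ := hθ.surj P
      have hz : z ∈ Λ'.lattice := (hmem z).2 hP
      have hz' : z ∉ Λ.lattice := fun h => hP0 (hθ.1 z h)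
      obtain ⟨w, hw, hzw⟩ := hR.2.1 z hz hz'
      refine ⟨w, hw, ?_⟩
      rw [← hθ.ker, map_sub, sub_eq_zero] at hzw
      exact hzw.symm
    · rintro ⟨w, hw, rfl⟩
      refine ⟨(hmem w).1 (hR.1 w hw).1, ?_⟩
      rw [Ne, hθ.ker]
      exact (hR.1 w hw).2
  rw [himg, finsum_mem_coe_finset, Finset.sum_image hinj]

/-- The lattice `θ⁻¹(L)`, representatives, and the transfer of sums over `L \ 0`.
Proof: `S = L.comap θ` contains `Λ`, `card L • S ⊆ Λ` (`IsTh.ker`), `pp_exists`, `reps_exists`; `θ` is a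
bijection from `R` onto the nonzero points of `L` (`IsTh.surj`). -/
theorem velu_latt {Λ : PeriodPair} {a b : ℂ} {θ : ℂ →+ Pt a b} (hθ : IsTh Λ θ)
    (L : AddSubgroup (Pt a b)) (hL : Finite L) :
    ∃ (Λ' : PeriodPair) (R : Finset ℂ), (∀ z : ℂ, z ∈ Λ'.lattice ↔ θ z ∈ L) ∧
      Λ.lattice ≤ Λ'.lattice ∧ IsReps Λ Λ' R ∧
      ∀ (A : Type) [AddCommMonoid A] (F : Pt a b → A),
        ∑ᶠ P ∈ {P : Pt a b | P ∈ L ∧ P ≠ 0}, F P = ∑ w ∈ R, F (θ w) := by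
  have hn : 0 < Nat.card L := Nat.card_pos
  obtain ⟨Λ', hΛ'⟩ := pp_exists Λ (L.comap θ)
    (fun z hz => by rw [AddSubgroup.mem_comap, hθ.1 z hz]; exact L.zero_mem) hn
    (fun z hz => VelA.card_smul hθ L hz)
  obtain ⟨hle, R, hR, hsum⟩ := VelA.reps hθ L hL hΛ'
  exact ⟨Λ', R, hΛ', hle, hR, hsum⟩

theorem VelA.xc_th {Λ : PeriodPair} {a b : ℂ} {θ : ℂ →+ Pt a b} (hθ : IsTh Λ θ) {w : ℂ}
    (hw : w ∉ Λ.lattice) : xc (θ w) = ℘[Λ] w := by
  obtain ⟨h', e⟩ := hθ.2 w hw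
  rw [e]
  rfl

/-- Velu's coefficients and functions for the quotient by `L`.
Proof: `velu_latt`, `g_over`, `wp_over_rat` (`xc (θ w) = ℘ w`), evaluation of `vU` at `℘ z` (`vU_eval` in
VPole.lean, import it); the derivative by the chain rule (differentiate the identity
`℘[Λ'] z = vU.eval (℘ z)` on the open set of the `z ∉ Λ'`; the derivative of the evaluation of a rational
function is the evaluation of `dR`). -/
theorem velu_an {Λ Λ' : PeriodPair} {a b : ℂ} {θ : ℂ →+ Pt a b} (hθ : IsTh Λ θ)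
    (L : AddSubgroup (Pt a b)) (hL : Finite L) (h : ∀ z : ℂ, z ∈ Λ'.lattice ↔ θ z ∈ L) :
    vA a b L = -Λ'.g₂ / 4 ∧ vB a b L = -Λ'.g₃ / 4 ∧
      ∀ z : ℂ, z ∉ Λ'.lattice → (vU a b L).denom.eval (℘[Λ] z) ≠ 0 ∧
        ℘[Λ'] z = (vU a b L).eval (RingHom.id ℂ) (℘[Λ] z) ∧
        ℘'[Λ'] z = (dR (vU a b L)).eval (RingHom.id ℂ) (℘[Λ] z) * ℘'[Λ] z := by
  obtain ⟨hle, R, hR, hsum⟩ := VelA.reps hθ L hL h
  obtain ⟨ha, hb⟩ := hθ.coeff
  obtain ⟨g1, g2⟩ := g_over hle hR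
  have key : ∀ z : ℂ, z ∉ Λ'.lattice → (vU a b L).denom.eval (℘[Λ] z) ≠ 0 ∧
      ℘[Λ'] z = (vU a b L).eval (RingHom.id ℂ) (℘[Λ] z) := by
    intro z hz
    have hz0 : z ∉ Λ.lattice := fun hc => hz (hle hc)
    have hx : ∀ Q ∈ L, Q ≠ 0 → xc Q ≠ ℘[Λ] z := by
      intro Q hQ hQ0 hc
      obtain ⟨w, rfl⟩ := hθ.surj Q
      have hw : w ∉ Λ.lattice := fun hc => hQ0 (hθ.1 w hc)
      rw [VelA.xc_th hθ hw] at hc
      have hw' : w ∈ Λ'.lattice := (h w).2 hQ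
      rcases (wp_inj Λ hw hz0).1 hc with h1 | h1
      · apply hz
        have h2 := Λ'.lattice.sub_mem hw' (hle h1)
        rwa [sub_sub_cancel] at h2
      · apply hz
        have h2 := Λ'.lattice.sub_mem (hle h1) hw'
        rwa [add_sub_cancel_left] at h2
    obtain ⟨e1, e2⟩ := vU_eval L hL (℘[Λ] z) hx
    refine ⟨e1, ?_⟩
    rw [e2, hsum ℂ (fun P => (3 * xc P ^ 2 + a) / (℘[Λ] z - xc P) +
      2 * (xc P ^ 3 + a * xc P + b) / (℘[Λ] z - xc P) ^ 2), wp_over_rat hle hR hz]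
    congr 1
    apply Finset.sum_congr rfl
    intro w hw
    have hw2 := (hR.1 w hw).2
    rw [VelA.xc_th hθ hw2, ha, hb]
    have E := Λ.derivWeierstrassP_sq w hw2
    rw [E]
    congr 2 <;> ring
  refine ⟨?_, ?_, ?_⟩
  · unfold vA
    rw [hsum ℂ (fun P => 3 * xc P ^ 2 + a), g1, ← ha]
    congr 2
    apply Finset.sum_congr rfl
    intro w hw
    rw [VelA.xc_th hθ (hR.1 w hw).2, ha]
    ring
  · unfold vB
    rw [hsum ℂ (fun P => 5 * xc P ^ 3 + 3 * a * xc P + 2 * b), g2, ← hb]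
    congr 2
    apply Finset.sum_congr rfl
    intro w hw
    rw [VelA.xc_th hθ (hR.1 w hw).2, ha, hb]
    ring
  · intro z hz
    obtain ⟨k1, k2⟩ := key z hz
    refine ⟨k1, k2, ?_⟩
    have hz0 : z ∉ Λ.lattice := fun hc => hz (hle hc)
    set p := (vU a b L).num with hp
    set q := (vU a b L).denom with hq
    have hev : ∀ x, (vU a b L).eval (RingHom.id ℂ) x = p.eval x / q.eval x := by
      intro x
      unfold RatFunc.eval
      rw [Polynomial.eval₂_id, Polynomial.eval₂_id]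
    -- evaluation of the derivative
    have hd : (dR (vU a b L)).eval (RingHom.id ℂ) (℘[Λ] z) =
        ((derivative p).eval (℘[Λ] z) * q.eval (℘[Λ] z) -
          p.eval (℘[Λ] z) * (derivative q).eval (℘[Λ] z)) / q.eval (℘[Λ] z) ^ 2 := by
      have hreg : VPole.Reg (℘[Λ] z) (dR (vU a b L))
          ((derivative p * q - p * derivative q).eval (℘[Λ] z) / (q ^ 2).eval (℘[Λ] z)) := by
        refine ⟨_, _, ?_, rfl, rfl⟩
        rw [eval_pow]
        exact pow_ne_zero 2 k1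
      rw [hreg.spec.2]
      simp only [eval_sub, eval_mul, eval_pow]
    have h1 : HasDerivAt (fun y => p.eval (℘[Λ] y) / q.eval (℘[Λ] y))
        (((derivative p).eval (℘[Λ] z) * ℘'[Λ] z * q.eval (℘[Λ] z) -
          p.eval (℘[Λ] z) * ((derivative q).eval (℘[Λ] z) * ℘'[Λ] z)) /
            q.eval (℘[Λ] z) ^ 2) z := by
      have hw := COverB.wp_hasDerivAt Λ hz0
      have d1 := (p.hasDerivAt (℘[Λ] z)).comp z hw
      have d2 := (q.hasDerivAt (℘[Λ] z)).comp z hw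
      exact d1.div d2 k1
    have h2 : HasDerivAt ℘[Λ'] (℘'[Λ'] z) z := COverB.wp_hasDerivAt Λ' hz
    have h3 : ℘[Λ'] =ᶠ[nhds z] fun y => p.eval (℘[Λ] y) / q.eval (℘[Λ] y) := by
      filter_upwards [cinj_ev_notMem Λ' hz] with y hy
      rw [(key y hy).2, hev]
    have h4 := h2.congr_of_eventuallyEq h3.symm
    have h5 := h4.unique h1
    rw [h5, hd]
    ring

end LT
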