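import Pool.Agent.Lib_MP_f1937f_nt.VelA
import Pool.Agent.Lib_MP_f1937f_nt.VPole
import Pool.Agent.Lib_MP_f1937f_nt.FKer

/-!
# MP_f1937f_nt: Velu's theorem over `ℂ` (piece VELB)
-/

namespace LT

open Polynomial WeierstrassCurve PeriodPair

namespace VelB

section

variable {k : Type} [Field k]

/-- The derivative of a function regular at `x` is regular at `x`. -/
theorem dR_mem {x : k} {u : RatFunc k} (h : u.denom.eval x ≠ 0) : (dR u).denom.eval x ≠ 0 := by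
  refine FEv.eval_ne_of_dvd (q := u.denom ^ 2) ?_ ?_
  · unfold dR
    exact RatFunc.denom_div_dvd _ _
  · rw [eval_pow]
    exact pow_ne_zero 2 h

/-- A rational function with infinitely many zeros is zero. -/
theorem eq_zero_of_inf {u : RatFunc k} {S : Set k} (hS : S.Infinite)
    (h : ∀ x ∈ S, Rdc (FEv.OO x) (FEv.rr x) u 0) : u = 0 := by
  rw [← RatFunc.num_eq_zero_iff]
  by_contra hne
  apply hS
  refine (u.num.rootSet_finite k).subset ?_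
  intro x hx
  obtain ⟨h1, h2⟩ := FEv.rdc_iff.1 (h x hx)
  rw [FEv.mem_OO] at h1
  rw [RatFunc.eval, FEv.ev2, FEv.ev2, div_eq_zero_iff] at h2
  rw [mem_rootSet]
  refine ⟨hne, ?_⟩
  rw [Polynomial.coe_aeval_eq_eval]
  exact h2.resolve_right h1

end

theorem xc_th {Λ : PeriodPair} {a b : ℂ} {θ : ℂ →+ Pt a b} (hθ : IsTh Λ θ) {z : ℂ}
    (hz : z ∉ Λ.lattice) : xc (θ z) = ℘[Λ] z := by
  obtain ⟨h, e⟩ := hθ.2 z hz
  rw [e]
  rfl

/-- Infinitely many values of `℘` outside the lattice of the quotient. -/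
theorem values_inf {Λ Λ' : PeriodPair} {a b : ℂ} {θ : ℂ →+ Pt a b} (hθ : IsTh Λ θ)
    (L : AddSubgroup (Pt a b)) (hL : Finite L) (h : ∀ z : ℂ, z ∈ Λ'.lattice ↔ θ z ∈ L) :
    {x : ℂ | ∃ z, z ∉ Λ'.lattice ∧ ℘[Λ] z = x}.Infinite := by
  have hfin : (xc '' (L : Set (Pt a b))).Finite := (Set.toFinite (L : Set (Pt a b))).image _
  refine Set.Infinite.mono ?_ hfin.infinite_compl
  intro x hx
  obtain ⟨z, hz, hzx⟩ := wp_surj Λ x
  refine ⟨z, fun hz' => hx ⟨θ z, (h z).1 hz', ?_⟩, hzx⟩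
  rw [xc_th hθ hz, hzx]

end VelB

open VelB

/-- Velu's identity over `ℂ`: both sides are rational functions which agree at the infinitely many
values `℘ z`, `z ∉ Λ'` (`velu_an`, `derivWeierstrassP_sq`). -/
theorem velu_id_C {Λ Λ' : PeriodPair} {a b : ℂ} {θ : ℂ →+ Pt a b} (hθ : IsTh Λ θ)
    (L : AddSubgroup (Pt a b)) (hL : Finite L) (h : ∀ z : ℂ, z ∈ Λ'.lattice ↔ θ z ∈ L) :
    dR (vU a b L) ^ 2 * fR a b = vU a b L ^ 3 + RatFunc.C (vA a b L) * vU a b L +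
      RatFunc.C (vB a b L) := by
  obtain ⟨hA, hB, hz⟩ := velu_an hθ L hL h
  obtain ⟨ha, hb⟩ := hθ.coeff
  rw [← sub_eq_zero]
  refine eq_zero_of_inf (values_inf hθ L hL h) ?_
  rintro _ ⟨z, hz', rfl⟩
  obtain ⟨h1, h2, h3⟩ := hz z hz'
  have hzΛ : z ∉ Λ.lattice := fun hc => hz' ((h z).2 (by rw [(hθ.ker z).2 hc]; exact zero_mem _))
  have e1 := Λ.derivWeierstrassP_sq z hzΛ
  have e2 := Λ'.derivWeierstrassP_sq z hz'
  have r1 : Rdc (FEv.OO (℘[Λ] z)) (FEv.rr (℘[Λ] z)) (vU a b L) (℘[Λ'] z) :=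
    FEv.rdc_iff.2 ⟨h1, h2.symm⟩
  have r2 : Rdc (FEv.OO (℘[Λ] z)) (FEv.rr (℘[Λ] z)) (dR (vU a b L))
      ((dR (vU a b L)).eval (RingHom.id ℂ) (℘[Λ] z)) := FEv.rdc_iff.2 ⟨dR_mem h1, rfl⟩
  have r3 := ((r2.pow 2).mul (FEv.rdc_fR (℘[Λ] z) a b)).sub
    (((r1.pow 3).add ((FEv.rdc_C (℘[Λ] z) (vA a b L)).mul r1)).add (FEv.rdc_C (℘[Λ] z) (vB a b L)))
  have e3 : (dR (vU a b L)).eval (RingHom.id ℂ) (℘[Λ] z) ^ 2 * (℘[Λ] z ^ 3 + a * ℘[Λ] z + b) -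
      (℘[Λ'] z ^ 3 + vA a b L * ℘[Λ'] z + vB a b L) = 0 := by
    rw [hA, hB]
    rw [h3] at e2
    have e4 : ℘[Λ] z ^ 3 + a * ℘[Λ] z + b = ℘'[Λ] z ^ 2 / 4 := by
      linear_combination (-1 / 4 : ℂ) * e1 + ℘[Λ] z * ha + hb
    rw [e4]
    linear_combination (1 / 4 : ℂ) * e2
  rw [e3] at r3
  exact r3

/-- Velu's theorem over `ℂ` in terms of lattices. Proof: `ψ` from `mk_exists` (`U = vU`, `V = dR vU`),
`InO` from `vU_poles`, `HasC ψ 1` (the derivative is not zero: otherwise `vU` would be constant);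
`Ψ (θ z) = θ' z` defines `Ψ` (`ker θ = Λ ⊆ Λ' = ker θ'`, `θ` surjective), `θ'` from `th_exists`. -/
theorem velu_C {Λ : PeriodPair} {a b : ℂ} {θ : ℂ →+ Pt a b} (hθ : IsTh Λ θ)
    (L : AddSubgroup (Pt a b)) (hL : Finite L) :
    ∃ Λ' : PeriodPair, (∀ z : ℂ, z ∈ Λ'.lattice ↔ θ z ∈ L) ∧
      vA a b L = -Λ'.g₂ / 4 ∧ vB a b L = -Λ'.g₃ / 4 ∧
      dsc (vA a b L) (vB a b L) ≠ 0 ∧
      ∃ (ψ : MM a b (vA a b L) (vB a b L)) (Ψ : Pt a b →+ Pt (vA a b L) (vB a b L)),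
        ψ ≠ .zero ∧ uu ψ = vU a b L ∧ HasC ψ 1 ∧ InO ψ ∧ Compat ψ Ψ ∧ Ψ.ker = L ∧
          Function.Surjective Ψ ∧
          ∀ θ' : ℂ →+ Pt (vA a b L) (vB a b L), IsTh Λ' θ' → ∀ z, Ψ (θ z) = θ' z := by
  obtain ⟨Λ', R, h, hle, hR, -⟩ := velu_latt hθ L hL
  obtain ⟨hA, hB, hz⟩ := velu_an hθ L hL h
  obtain ⟨ha, hb⟩ := hθ.coeff
  have hd' : dsc (vA a b L) (vB a b L) ≠ 0 := by
    rw [hA, hB]
    exact wp_dsc Λ'
  have hd : dsc a b ≠ 0 := by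
    rw [ha, hb]
    exact wp_dsc Λ
  refine ⟨Λ', h, hA, hB, hd', ?_⟩
  obtain ⟨ψ, h0, hu, hv⟩ := mk_exists two_ne_zero hd' (vU a b L) (dR (vU a b L))
    (velu_id_C hθ L hL h)
  obtain ⟨hpole, hdeg⟩ := vU_poles two_ne_zero hd L hL
  obtain ⟨θ', hθ', hs'⟩ := th_exists Λ' hA hB
  -- the homomorphism
  have hker : ∀ z w : ℂ, θ z = θ w → θ' z = θ' w := by
    intro z w hzw
    have h1 : θ (z - w) = 0 := by rw [map_sub, hzw, sub_self]
    have h2 : z - w ∈ Λ'.lattice := by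
      rw [h, h1]
      exact zero_mem _
    have h3 := (hθ'.ker _).2 h2
    rw [map_sub] at h3
    exact sub_eq_zero.1 h3
  have hsec : ∀ P : Pt a b, ∃ z : ℂ, θ z = P := hθ.surj
  choose s hs using hsec
  let Ψ : Pt a b →+ Pt (vA a b L) (vB a b L) :=
    AddMonoidHom.mk' (fun P => θ' (s P)) (fun P Q => by
      rw [← map_add]
      apply hker
      rw [hs, map_add, hs, hs])
  have hΨ : ∀ z : ℂ, Ψ (θ z) = θ' z := fun z => hker _ _ (hs (θ z))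
  refine ⟨ψ, Ψ, h0, hu, ⟨?_, ?_⟩, ?_, ?_, ?_, ?_, ?_⟩
  · rw [hu, hv, map_one, one_mul]
  · intro hv0
    exfalso
    rw [hv] at hv0
    obtain ⟨c, hc⟩ := dR_eq_zero_const _ hv0
    rw [hc, RatFunc.num_C, RatFunc.denom_C] at hdeg
    simp at hdeg
  · right
    rw [hu, hdeg]
    exact Nat.lt_succ_self _
  · intro x y hxy hy
    refine ⟨fun h1 => absurd h1 h0, fun _ => ?_⟩
    rw [hu, hv]
    obtain ⟨z, hzP⟩ := hθ.surj (.some x y hxy)
    have hzΛ : z ∉ Λ.lattice := by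
      intro hc
      rw [(hθ.ker z).2 hc] at hzP
      exact absurd hzP.symm (by rintro ⟨⟩)
    obtain ⟨h', e'⟩ := hθ.2 z hzΛ
    rw [e'] at hzP
    have hx : ℘[Λ] z = x := (Affine.Point.some.inj hzP).1
    have hy' : ℘'[Λ] z / 2 = y := (Affine.Point.some.inj hzP).2
    have hzP' : θ z = .some x y hxy := by rw [e', hzP]
    constructor
    · intro hden
      obtain ⟨Q, hQ, hQ0, hQx⟩ := (hpole x).1 hden
      have hmem : θ z ∈ L := by
        obtain ⟨w, rfl⟩ := hθ.surj Q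
        have hw : w ∉ Λ.lattice := fun hc => hQ0 ((hθ.ker w).2 hc)
        rw [xc_th hθ hw, ← hx] at hQx
        rcases (wp_inj Λ hw hzΛ).1 hQx with hc | hc
        · have := (hθ.ker _).2 hc
          rw [map_sub, sub_eq_zero] at this
          rwa [← this]
        · have := (hθ.ker _).2 hc
          rw [map_add] at this
          rw [eq_neg_of_add_eq_zero_right this]
          exact neg_mem hQ
      rw [← hzP', hΨ, (hθ'.ker z).2 ((h z).2 hmem)]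
    · intro hden
      have hz' : z ∉ Λ'.lattice := by
        intro hc
        apply hden
        refine (hpole x).2 ⟨θ z, (h z).1 hc, ?_, ?_⟩
        · intro h1
          exact hzΛ ((hθ.ker z).1 h1)
        · rw [xc_th hθ hzΛ, hx]
      obtain ⟨h1, h2, h3⟩ := hz z hz'
      obtain ⟨h'', e''⟩ := hθ'.2 z hz'
      have e3 : ℘'[Λ'] z / 2 = y * (dR (vU a b L)).eval (RingHom.id ℂ) x := by
        rw [h3, ← hy', hx]
        ring
      rw [hx] at h2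
      rw [← hzP', hΨ, e'']
      refine ⟨by rw [← h2, ← e3]; exact h'', ?_⟩
      rw [Affine.Point.some.injEq]
      exact ⟨h2, e3⟩
  · ext P
    obtain ⟨z, rfl⟩ := hθ.surj P
    rw [AddMonoidHom.mem_ker, hΨ, hθ'.ker, h]
  · intro Q
    obtain ⟨z, rfl⟩ := hs' Q
    exact ⟨θ z, hΨ z⟩
  · intro θ'' hθ'' z
    rw [hΨ]
    by_cases hc : z ∈ Λ'.lattice
    · rw [(hθ'.ker z).2 hc, (hθ''.ker z).2 hc]
    · obtain ⟨h1, e1⟩ := hθ'.2 z hc
      obtain ⟨h2, e2⟩ := hθ''.2 z hc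
      rw [e1, e2]

end LT
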