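import Pool.Agent.Lib_MP_f1937f_nt.VelB
import Pool.Agent.Lib_MP_f1937f_nt.SizeD
import Pool.Agent.Lib_MP_f1937f_nt.FDer

/-!
# MP_f1937f_nt: Velu's theorem over an algebraically closed field embedded in `ℂ` (piece VELC)
-/

namespace LT

open Polynomial WeierstrassCurve PeriodPair

namespace VelC

section

variable {k k' : Type} [Field k] [Field k']

theorem nzd (f : k →+* k') :
    nonZeroDivisors k[X] ≤ (nonZeroDivisors k'[X]).comap (Polynomial.mapRingHom f) := by
  intro p hp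
  rw [Submonoid.mem_comap, mem_nonZeroDivisors_iff_ne_zero]
  rw [mem_nonZeroDivisors_iff_ne_zero] at hp
  rw [Polynomial.coe_mapRingHom]
  exact (Polynomial.map_ne_zero_iff f.injective).2 hp

/-- The extension of a homomorphism of fields to rational functions. -/
noncomputable def Ph (f : k →+* k') : RatFunc k →+* RatFunc k' :=
  RatFunc.mapRingHom (Polynomial.mapRingHom f) (nzd f)

theorem Ph_alg (f : k →+* k') (p : k[X]) :
    Ph f (algebraMap k[X] (RatFunc k) p) = algebraMap k'[X] (RatFunc k') (p.map f) := by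
  have h := RatFunc.map_apply (Polynomial.mapRingHom f) (nzd f) (algebraMap k[X] (RatFunc k) p)
  rw [← RatFunc.coe_mapRingHom_eq_coe_map] at h
  refine h.trans ?_
  simp

theorem Ph_C (f : k →+* k') (c : k) : Ph f (RatFunc.C c) = RatFunc.C (f c) := by
  rw [← RatFunc.algebraMap_C, Ph_alg, Polynomial.map_C, RatFunc.algebraMap_C]

theorem Ph_X (f : k →+* k') : Ph f (RatFunc.X) = RatFunc.X := by
  rw [← RatFunc.algebraMap_X, Ph_alg, Polynomial.map_X, RatFunc.algebraMap_X]

theorem Ph_dR (f : k →+* k') (u : RatFunc k) : dR (Ph f u) = Ph f (dR u) := by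
  obtain ⟨p, q, hq, rfl⟩ := FDer.exists_frac u
  have hq' : q.map f ≠ 0 := (Polynomial.map_ne_zero_iff f.injective).2 hq
  rw [dR_frac _ _ hq, map_div₀, map_div₀, Ph_alg, Ph_alg, Ph_alg, Ph_alg, dR_frac _ _ hq']
  simp [Polynomial.derivative_map]

theorem Ph_fR (f : k →+* k') (a b : k) : Ph f (fR a b) = fR (f a) (f b) := by
  rw [fR, Ph_alg, fR, fP, fP]
  simp

theorem Ph_eval (f : k →+* k') (u : RatFunc k) (x : k) (hx : u.denom.eval x ≠ 0) :
    (Ph f u).denom.eval (f x) ≠ 0 ∧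
      (Ph f u).eval (RingHom.id k') (f x) = f (u.eval (RingHom.id k) x) := by
  have hu : Ph f u = algebraMap k'[X] (RatFunc k') (u.num.map f) /
      algebraMap k'[X] (RatFunc k') (u.denom.map f) := by
    rw [← Ph_alg, ← Ph_alg, ← map_div₀, u.num_div_denom]
  have hd : (u.denom.map f).eval (f x) ≠ 0 := by
    rw [Polynomial.eval_map, Polynomial.eval₂_hom]
    exact (map_ne_zero_iff f f.injective).2 hx
  have h1 : (Ph f u).denom.eval (f x) ≠ 0 := by
    rw [hu]
    obtain ⟨r, hr⟩ := RatFunc.denom_div_dvd (u.num.map f) (u.denom.map f)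
    intro h
    apply hd
    rw [hr, Polynomial.eval_mul, h, zero_mul]
  refine ⟨h1, ?_⟩
  have hq' : u.denom.map f ≠ 0 := (Polynomial.map_ne_zero_iff f.injective).2 u.denom_ne_zero
  have h2 : Ph f u * algebraMap k'[X] (RatFunc k') (u.denom.map f) =
      algebraMap k'[X] (RatFunc k') (u.num.map f) := by
    rw [hu, div_mul_cancel₀]
    exact FDer.am_ne hq'
  have h3 := congrArg (RatFunc.eval (RingHom.id k') (f x)) h2
  rw [RatFunc.eval_mul] at h3
  · rw [RatFunc.eval_algebraMap, RatFunc.eval_algebraMap] at h3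
    simp only [Algebra.algebraMap_self, RingHom.id_apply] at h3
    rw [Polynomial.eval₂_id, Polynomial.eval₂_id, Polynomial.eval_map, Polynomial.eval₂_hom,
      Polynomial.eval_map, Polynomial.eval₂_hom] at h3
    rw [eq_div_of_mul_eq ((map_ne_zero_iff f f.injective).2 hx) h3, ← map_div₀]
    rw [RatFunc.eval, Polynomial.eval₂_id, Polynomial.eval₂_id]
  · rw [Polynomial.eval₂_id]
    exact h1
  · rw [RatFunc.denom_algebraMap]
    simp

theorem dR_denom (u : RatFunc k) (x : k) (hx : u.denom.eval x ≠ 0) :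
    (dR u).denom.eval x ≠ 0 := by
  intro h
  obtain ⟨r, hr⟩ := RatFunc.denom_div_dvd
    (derivative u.num * u.denom - u.num * derivative u.denom) (u.denom ^ 2)
  have h2 : (u.denom ^ 2).eval x = 0 := by
    rw [hr, Polynomial.eval_mul]
    change (dR u).denom.eval x * _ = 0
    rw [h, zero_mul]
  rw [Polynomial.eval_pow] at h2
  exact hx (pow_eq_zero_iff (two_ne_zero) |>.1 h2)

variable [DecidableEq k] [DecidableEq k']

theorem Ph_vU (f : k →+* k') {a b : k} {a' b' : k'} (ha : f a = a') (hb : f b = b')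
    {L : AddSubgroup (Pt a b)} (hL : Finite L) :
    vU a' b' (L.map (mapPt f ha hb)) = Ph f (vU a b L) := by
  rw [vU, vU, nz_map, finsum_mem_image (mapPt_injective f ha hb).injOn,
    finsum_mem_eq_finite_toFinset_sum _ (nz_finite hL),
    finsum_mem_eq_finite_toFinset_sum _ (nz_finite hL), map_add, Ph_X, map_sum]
  congr 1
  apply Finset.sum_congr rfl
  intro P _
  rw [xc_mapPt, map_add (Ph f), map_div₀ (Ph f), map_div₀ (Ph f), map_pow (Ph f), map_sub (Ph f),
    Ph_X, Ph_C, Ph_C, Ph_C]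
  simp only [map_add, map_mul, map_pow, map_ofNat, ha, hb]

end

end VelC

/-- Velu's identity descends along an embedding: the map `Ω(x) → ℂ(x)` is injective, maps `vU` to `vU`
and commutes with `dR`. -/
theorem velu_id_omega {Ω : Type} [Field Ω] [DecidableEq Ω] (ι : Ω →+* ℂ) {a b : Ω}
    (L : AddSubgroup (Pt a b)) (hL : Finite L)
    (h : dR (vU (ι a) (ι b) (L.map (mapPt ι rfl rfl))) ^ 2 * fR (ι a) (ι b) =
      vU (ι a) (ι b) (L.map (mapPt ι rfl rfl)) ^ 3 +
      RatFunc.C (vA (ι a) (ι b) (L.map (mapPt ι rfl rfl))) *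
        vU (ι a) (ι b) (L.map (mapPt ι rfl rfl)) +
      RatFunc.C (vB (ι a) (ι b) (L.map (mapPt ι rfl rfl)))) :
    dR (vU a b L) ^ 2 * fR a b = vU a b L ^ 3 + RatFunc.C (vA a b L) * vU a b L +
      RatFunc.C (vB a b L) := by
  rw [VelC.Ph_vU ι rfl rfl hL, vA_map ι rfl rfl hL, vB_map ι rfl rfl hL, VelC.Ph_dR, ← VelC.Ph_fR,
    ← VelC.Ph_C, ← VelC.Ph_C, ← map_pow, ← map_pow, ← map_mul, ← map_mul, ← map_add, ← map_add] at h
  exact (VelC.Ph ι).injective h

/-- Values of `vU` and its derivative under an embedding. -/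
theorem vU_eval_map {Ω : Type} [Field Ω] [DecidableEq Ω] (ι : Ω →+* ℂ) {a b : Ω}
    (L : AddSubgroup (Pt a b)) (hL : Finite L) (x : Ω) (hx : (vU a b L).denom.eval x ≠ 0) :
    (vU (ι a) (ι b) (L.map (mapPt ι rfl rfl))).denom.eval (ι x) ≠ 0 ∧
    (vU (ι a) (ι b) (L.map (mapPt ι rfl rfl))).eval (RingHom.id ℂ) (ι x) =
        ι ((vU a b L).eval (RingHom.id Ω) x) ∧
      (dR (vU (ι a) (ι b) (L.map (mapPt ι rfl rfl)))).eval (RingHom.id ℂ) (ι x) =
        ι ((dR (vU a b L)).eval (RingHom.id Ω) x) := by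
  rw [VelC.Ph_vU ι rfl rfl hL]
  obtain ⟨h1, h2⟩ := VelC.Ph_eval ι (vU a b L) x hx
  refine ⟨h1, h2, ?_⟩
  rw [VelC.Ph_dR]
  exact (VelC.Ph_eval ι (dR (vU a b L)) x (VelC.dR_denom _ x hx)).2

end LT
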