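import Pool.Agent.Lib_MP_f1937f_nt.VelC

/-!
# MP_f1937f_nt: the quotient homomorphism over `Ω ⊆ ℂ` (piece VELD)
-/

namespace LT

open Polynomial WeierstrassCurve PeriodPair

namespace VelD

theorem dsc_map {K K' : Type} [Field K] [Field K'] (f : K →+* K') (a b : K) :
    dsc (f a) (f b) = f (dsc a b) := by
  unfold dsc
  simp only [map_add, map_mul, map_pow, map_ofNat]

/-- `velu_C` with the coefficients of the quotient as variables. -/
theorem velu_C' {Λ : PeriodPair} {a b : ℂ} {θ : ℂ →+ Pt a b} (hθ : IsTh Λ θ)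
    (L : AddSubgroup (Pt a b)) (hL : Finite L) {A B : ℂ} (hA : vA a b L = A) (hB : vB a b L = B) :
    ∃ Λ' : PeriodPair, (∀ z : ℂ, z ∈ Λ'.lattice ↔ θ z ∈ L) ∧
      A = -Λ'.g₂ / 4 ∧ B = -Λ'.g₃ / 4 ∧
      dsc A B ≠ 0 ∧
      ∃ (ψ : MM a b A B) (Ψ : Pt a b →+ Pt A B),
        ψ ≠ .zero ∧ uu ψ = vU a b L ∧ HasC ψ 1 ∧ InO ψ ∧ Compat ψ Ψ ∧ Ψ.ker = L ∧
          ∀ θ' : ℂ →+ Pt A B, IsTh Λ' θ' → ∀ z, Ψ (θ z) = θ' z := by
  subst hA hB
  obtain ⟨Λ', h1, h2, h3, h4, ψ, Ψ, h5, h6, h7, h8, h9, h10, -, h11⟩ := velu_C hθ L hL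
  exact ⟨Λ', h1, h2, h3, h4, ψ, Ψ, h5, h6, h7, h8, h9, h10, h11⟩

theorem velu_id_C' {Λ Λ' : PeriodPair} {a b : ℂ} {θ : ℂ →+ Pt a b} (hθ : IsTh Λ θ)
    (L : AddSubgroup (Pt a b)) (hL : Finite L) (h : ∀ z : ℂ, z ∈ Λ'.lattice ↔ θ z ∈ L) :
    dR (vU a b L) ^ 2 * fR a b = vU a b L ^ 3 + RatFunc.C (vA a b L) * vU a b L +
      RatFunc.C (vB a b L) := velu_id_C hθ L hL h

end VelD

/-- Velu's theorem over `Ω`, with the lattice of the quotient. Proof: `velu_C` for the image of `L`; `ψ`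
from `velu_id_omega` and `mk_exists`; the homomorphism over `ℂ` maps `Ω`-points to `Ω`-points (`Compat`,
`compat_two`, `vU_eval_map`; kernel points go to `0`), `mapPt ι` is injective, so `Ψ` exists;
surjectivity by `surj_of_compat`. -/
theorem velu_omega {Ω : Type} [Field Ω] [DecidableEq Ω] [IsAlgClosed Ω] (ι : Ω →+* ℂ) {a b : Ω}
    {Λ : PeriodPair} {θ : ℂ →+ Pt (ι a) (ι b)} (hθ : IsTh Λ θ) (L : AddSubgroup (Pt a b))
    (hL : Finite L) :
    ∃ (Λ' : PeriodPair) (θ' : ℂ →+ Pt (ι (vA a b L)) (ι (vB a b L))), IsTh Λ' θ' ∧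
      (∀ z : ℂ, z ∈ Λ'.lattice ↔ ∃ P ∈ L, θ z = mapPt ι rfl rfl P) ∧
      dsc (vA a b L) (vB a b L) ≠ 0 ∧
      ∃ (ψ : MM a b (vA a b L) (vB a b L)) (Ψ : Pt a b →+ Pt (vA a b L) (vB a b L)),
        ψ ≠ .zero ∧ uu ψ = vU a b L ∧ HasC ψ 1 ∧ InO ψ ∧ Compat ψ Ψ ∧ Ψ.ker = L ∧
          Function.Surjective Ψ ∧
          ∀ (P : Pt a b) (z : ℂ), θ z = mapPt ι rfl rfl P → θ' z = mapPt ι rfl rfl (Ψ P) := by
  -- the image of `L`
  set LC : AddSubgroup (Pt (ι a) (ι b)) := L.map (mapPt ι rfl rfl) with hLC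
  have hLCfin : Finite LC := by
    have h1 : (LC : Set (Pt (ι a) (ι b))) = mapPt ι rfl rfl '' (L : Set (Pt a b)) := rfl
    have h2 : (LC : Set (Pt (ι a) (ι b))).Finite := by
      rw [h1]
      exact (Set.toFinite (L : Set (Pt a b))).image _
    exact h2.to_subtype
  have hAeq : vA (ι a) (ι b) LC = ι (vA a b L) := vA_map ι rfl rfl hL
  have hBeq : vB (ι a) (ι b) LC = ι (vB a b L) := vB_map ι rfl rfl hL
  obtain ⟨Λ', hΛ', hg2, hg3, hdC, ψC, ΨC, hψC0, hψCu, hψCc, hψCo, hψCc', hker, hθ'C⟩ :=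
    VelD.velu_C' hθ LC hLCfin hAeq hBeq
  obtain ⟨θ', hθ', -⟩ := th_exists Λ' hg2 hg3
  have hcomp := hθ'C θ' hθ'
  -- nondegeneracy and characteristic
  have hinj := mapPt_injective ι (rfl : ι a = ι a) (rfl : ι b = ι b)
  have hinj' := mapPt_injective ι (rfl : ι (vA a b L) = ι (vA a b L))
    (rfl : ι (vB a b L) = ι (vB a b L))
  have h2 : (2 : Ω) ≠ 0 := by
    intro h
    have := congrArg ι h
    rw [map_ofNat, map_zero] at this
    exact two_ne_zero this
  have hdC0 : dsc (ι a) (ι b) ≠ 0 := by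
    obtain ⟨ha, hb⟩ := hθ.coeff
    rw [ha, hb]
    exact wp_dsc Λ
  have hd : dsc a b ≠ 0 := by
    intro h
    apply hdC0
    rw [VelD.dsc_map, h, map_zero]
  have hd' : dsc (vA a b L) (vB a b L) ≠ 0 := by
    intro h
    apply hdC
    rw [VelD.dsc_map, h, map_zero]
  have hchar : CharZero Ω := ι.charZero
  -- the map
  have hid := velu_id_omega ι L hL (VelD.velu_id_C' hθ LC hLCfin hΛ')
  obtain ⟨ψ, hψ0, hψu, hψv⟩ := mk_exists h2 hd' _ _ hid
  obtain ⟨hpoles, hdeg⟩ := vU_poles h2 hd L hL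
  have hdR0 : dR (vU a b L) ≠ 0 := by
    intro h
    obtain ⟨c, hc⟩ := dR_eq_zero_const _ h
    rw [hc, RatFunc.num_C, RatFunc.denom_C, natDegree_C, natDegree_one] at hdeg
    omega
  have hψc : HasC ψ 1 := by
    refine ⟨by rw [hψu, hψv, map_one, one_mul], fun h => ?_⟩
    rw [hψv] at h
    exact absurd h hdR0
  have hψo : InO ψ := by
    right
    rw [hψu, hdeg]
    exact Nat.lt_succ_self _
  have hψCv : vv ψC = dR (vU (ι a) (ι b) LC) := by
    have h1 := hψCc.1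
    rw [map_one, one_mul, hψCu] at h1
    exact h1.symm
  -- the values of `ΨC` on the points over `Ω`
  have hval0 : ∀ (x y : Ω) (h : (SW a b).toAffine.Nonsingular x y), (vU a b L).denom.eval x = 0 →
      ΨC (mapPt ι rfl rfl (.some x y h)) = 0 := by
    intro x y h hx
    obtain ⟨Q, hQL, hQ0, hQx⟩ := (hpoles x).mp hx
    have hPL : (.some x y h : Pt a b) ∈ L := by
      have e1 := VPole.pt_eq hQ0
      have e2 := sw_equation.mp h.1
      rw [hQx, ← e2] at e1
      obtain ⟨n0, nx, ny⟩ := VPole.neg_c Q hQ0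
      rcases sq_eq_sq_iff_eq_or_eq_neg.mp e1 with e3 | e3
      · have e4 : (.some x y h : Pt a b) = Q :=
          pt_ext (by rintro ⟨⟩) hQ0 hQx.symm e3.symm
        rw [e4]
        exact hQL
      · have e4 : (.some x y h : Pt a b) = -Q :=
          pt_ext (by rintro ⟨⟩) n0 (by rw [nx]; exact hQx.symm) (by
            rw [ny, e3, neg_neg]
            rfl)
        rw [e4]
        exact neg_mem hQL
    have h3 : mapPt ι rfl rfl (.some x y h) ∈ ΨC.ker := by
      rw [hker, hLC]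
      exact ⟨_, hPL, rfl⟩
    exact h3
  have hval1 : ∀ (x y : Ω) (h : (SW a b).toAffine.Nonsingular x y), (vU a b L).denom.eval x ≠ 0 →
      ∃ h', ΨC (mapPt ι rfl rfl (.some x y h)) =
        mapPt ι rfl rfl (.some ((vU a b L).eval (RingHom.id Ω) x)
          (y * (dR (vU a b L)).eval (RingHom.id Ω) x) h') := by
    intro x y h hx
    obtain ⟨hC, e⟩ := mapPt_some ι (rfl : ι a = ι a) (rfl : ι b = ι b) x y h
    obtain ⟨g1, g2, g3⟩ := vU_eval_map ι L hL x hx
    rw [← hLC] at g1 g2 g3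
    have key : ∃ h', ΨC (mapPt ι rfl rfl (.some x y h)) =
        .some (ι ((vU a b L).eval (RingHom.id Ω) x))
          (ι (y * (dR (vU a b L)).eval (RingHom.id Ω) x)) h' := by
      by_cases hy : y = 0
      · subst hy
        have hC0 : (SW (ι a) (ι b)).toAffine.Nonsingular (ι x) 0 := by
          rw [map_zero] at hC
          exact hC
        obtain ⟨h', e'⟩ := (compat_two two_ne_zero hdC0 hdC hψC0 hψCc' hψCo hC0).2
          (by rw [hψCu]; exact g1)
        have e'' : mapPt ι rfl rfl (.some x 0 h) = (.some (ι x) 0 hC0 : Pt (ι a) (ι b)) := by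
          rw [e]
          simp only [map_zero]
        have hz1 : ι (0 * (dR (vU a b L)).eval (RingHom.id Ω) x) = 0 := by
          rw [zero_mul, map_zero]
        rw [e'', e']
        simp only [hψCu, g2, hz1]
        refine ⟨?_, trivial⟩
        rw [← g2, ← hψCu]
        exact h'
      · have hy' : ι y ≠ 0 := by
          rw [Ne, map_eq_zero]
          exact hy
        obtain ⟨h', e'⟩ := ((hψCc' (ι x) (ι y) hC hy').2 hψC0).2 (by rw [hψCu]; exact g1)
        have e3 : ι y * (vv ψC).eval (RingHom.id ℂ) (ι x) =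
            ι (y * (dR (vU a b L)).eval (RingHom.id Ω) x) := by
          rw [hψCv, g3, map_mul]
        rw [e, e']
        simp only [hψCu, g2, e3]
        refine ⟨?_, trivial⟩
        rw [← g2, ← hψCu, ← e3]
        exact h'
    obtain ⟨h', e1⟩ := key
    have hn : (SW (vA a b L) (vB a b L)).toAffine.Nonsingular
        ((vU a b L).eval (RingHom.id Ω) x) (y * (dR (vU a b L)).eval (RingHom.id Ω) x) := by
      rw [sw_nons h2 hd']
      apply ι.injective
      have h4 := (sw_nons two_ne_zero hdC).mp h'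
      rw [map_add, map_add, map_mul, map_pow, map_pow, h4]
    refine ⟨hn, ?_⟩
    rw [e1]
    obtain ⟨h5, e2⟩ := mapPt_some ι (rfl : ι (vA a b L) = ι (vA a b L))
      (rfl : ι (vB a b L) = ι (vB a b L)) _ _ hn
    rw [e2]
  have hrange : ∀ P : Pt a b, ∃ Q : Pt (vA a b L) (vB a b L),
      mapPt ι rfl rfl Q = ΨC (mapPt ι rfl rfl P) := by
    intro P
    rcases P with _ | ⟨x, y, h⟩
    · refine ⟨0, ?_⟩
      rw [map_zero]
      have h3 : mapPt ι rfl rfl (.zero : Pt a b) = (0 : Pt (ι a) (ι b)) :=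
        map_zero (mapPt ι rfl rfl)
      rw [h3, map_zero]
    · by_cases hx : (vU a b L).denom.eval x = 0
      · exact ⟨0, by rw [map_zero, hval0 x y h hx]⟩
      · obtain ⟨h', e⟩ := hval1 x y h hx
        exact ⟨_, e.symm⟩
  choose Ψf hΨf using hrange
  let Ψ : Pt a b →+ Pt (vA a b L) (vB a b L) :=
    { toFun := Ψf
      map_zero' := by
        apply hinj'
        rw [hΨf, map_zero, map_zero, map_zero]
      map_add' := by
        intro P Q
        apply hinj'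
        rw [hΨf, map_add, map_add, map_add, hΨf, hΨf] }
  have hΨ : ∀ P, mapPt ι rfl rfl (Ψ P) = ΨC (mapPt ι rfl rfl P) := hΨf
  have hΨc : Compat ψ Ψ := by
    intro x y h hy
    refine ⟨fun h3 => absurd h3 hψ0, fun _ => ⟨fun hx => ?_, fun hx => ?_⟩⟩
    · apply hinj'
      rw [hΨ, map_zero]
      rw [hψu] at hx
      exact hval0 x y h hx
    · rw [hψu] at hx
      obtain ⟨h', e⟩ := hval1 x y h hx
      have e1 : Ψ (.some x y h) = .some ((vU a b L).eval (RingHom.id Ω) x)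
          (y * (dR (vU a b L)).eval (RingHom.id Ω) x) h' := by
        apply hinj'
        rw [hΨ, e]
      have h3 : (SW (vA a b L) (vB a b L)).toAffine.Nonsingular
          ((uu ψ).eval (RingHom.id Ω) x) (y * (vv ψ).eval (RingHom.id Ω) x) := by
        rw [hψu, hψv]
        exact h'
      refine ⟨h3, ?_⟩
      rw [e1]
      simp only [hψu, hψv]
  refine ⟨Λ', θ', hθ', ?_, hd', ψ, Ψ, hψ0, hψu, hψc, hψo, hΨc, ?_,
    surj_of_compat h2 hd hd' hψ0 hΨc hψo, ?_⟩
  · intro z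
    rw [hΛ', hLC, AddSubgroup.mem_map]
    constructor
    · rintro ⟨P, hP, e⟩
      exact ⟨P, hP, e.symm⟩
    · rintro ⟨P, hP, e⟩
      exact ⟨P, hP, e.symm⟩
  · ext P
    rw [AddMonoidHom.mem_ker]
    constructor
    · intro hP
      have h3 : ΨC (mapPt ι rfl rfl P) = 0 := by rw [← hΨ, hP, map_zero]
      have h4 : mapPt ι rfl rfl P ∈ ΨC.ker := h3
      rw [hker, hLC] at h4
      obtain ⟨Q, hQ, e⟩ := h4
      rw [← hinj e]
      exact hQ
    · intro hP
      apply hinj'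
      rw [hΨ, map_zero]
      have h4 : mapPt ι rfl rfl P ∈ ΨC.ker := by
        rw [hker, hLC]
        exact ⟨P, hP, rfl⟩
      exact h4
  · intro P z hz
    rw [hΨ, ← hz, hcomp]

end LT
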