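import Pool.Agent.Lib_MP_f1937f_nt.VelD
import Pool.Agent.Lib_MP_f1937f_nt.Hex

/-!
# MP_f1937f_nt: chains of Velu quotients (piece VELE)
-/

namespace LT

open Polynomial WeierstrassCurve PeriodPair

private theorem card_map_chain {G H : Type} [AddGroup G] [AddGroup H] (Ψ : G →+ H) {L' L : AddSubgroup G}
    (h : L' ≤ L) (hk : Ψ.ker = L') : Nat.card (L.map Ψ) * Nat.card L' = Nat.card L := by
  let f : L →+ H := Ψ.comp L.subtype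
  have h1 : f.range = L.map Ψ := by
    ext x
    constructor
    · rintro ⟨y, rfl⟩
      exact ⟨y.1, y.2, rfl⟩
    · rintro ⟨y, hy, rfl⟩
      exact ⟨⟨y, hy⟩, rfl⟩
  have h2 : f.ker = L'.addSubgroupOf L := by
    ext x
    rw [AddSubgroup.mem_addSubgroupOf, ← hk]
    rfl
  have h3 : Nat.card (L'.addSubgroupOf L) = Nat.card L' :=
    Nat.card_congr (AddSubgroup.addSubgroupOfEquivOfLe h).toEquiv
  have h4 := AddSubgroup.card_eq_card_quotient_mul_card_addSubgroup f.ker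
  have h5 : Nat.card (L ⧸ f.ker) = Nat.card f.range :=
    Nat.card_congr (QuotientAddGroup.quotientKerEquivRange f).toEquiv
  rw [h4, h5, h1, h2, h3]

/-- Transitivity. Proof: `velu_omega` for `L'` gives `Λ₁, θ₁, Ψ`; `M = L.map Ψ`; `velu_omega` for
`(vA, vB), θ₁, M` gives `Λ₂`; `velu_omega` for `L` gives `Λ₃`. `Λ₂ = Λ₃` as sets (`IsTh.ker`, `IsTh.surj`), so
`lattice_congr` and `IsTh.coeff` give equality of the coefficients after `ι`. -/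
theorem velu_chain {Ω : Type} [Field Ω] [DecidableEq Ω] [IsAlgClosed Ω] (ι : Ω →+* ℂ) {a b : Ω}
    {Λ : PeriodPair} {θ : ℂ →+ Pt (ι a) (ι b)} (hθ : IsTh Λ θ) {L' L : AddSubgroup (Pt a b)}
    (h : L' ≤ L) (hL : Finite L) : ChainOK a b L' L := by
  have hL' : Finite L' := (Set.Finite.subset (Set.toFinite (L : Set (Pt a b))) h).to_subtype
  obtain ⟨Λ₁, θ₁, hθ₁, hlat₁, hd₁, ψ₁, Ψ₁, hne₁, huu₁, hC₁, hI₁, hP₁, hk₁, hs₁, hv₁⟩ :=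
    velu_omega ι hθ L' hL'
  have hM : Finite (L.map Ψ₁) :=
    ((Set.toFinite (L : Set (Pt a b))).image Ψ₁).to_subtype
  obtain ⟨Λ₂, θ₂, hθ₂, hlat₂, hd₂, ψ₂, Ψ₂, hne₂, huu₂, hC₂, hI₂, hP₂, hk₂, hs₂, -⟩ :=
    velu_omega ι hθ₁ (L.map Ψ₁) hM
  obtain ⟨Λ₃, θ₃, hθ₃, hlat₃, hd₃, ψ₃, Ψ₃, hne₃, huu₃, hC₃, hI₃, hP₃, hk₃, hs₃, -⟩ :=
    velu_omega ι hθ L hL
  have hlat : ∀ z : ℂ, z ∈ Λ₂.lattice ↔ z ∈ Λ₃.lattice := by
    intro z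
    rw [hlat₂, hlat₃]
    constructor
    · rintro ⟨Q, ⟨P, hP, rfl⟩, hz⟩
      obtain ⟨w, hw⟩ := hθ.surj (mapPt ι rfl rfl P)
      have h1 := hv₁ P w hw
      have h2 : θ₁ (z - w) = 0 := by
        rw [map_sub, hz, h1, sub_self]
      obtain ⟨P', hP', e'⟩ := (hlat₁ (z - w)).1 ((hθ₁.ker _).1 h2)
      refine ⟨P + P', add_mem hP (h hP'), ?_⟩
      have e3 : z = w + (z - w) := by ring
      rw [e3, map_add, hw, e', map_add]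
    · rintro ⟨P, hP, hz⟩
      exact ⟨Ψ₁ P, ⟨P, hP, rfl⟩, hv₁ P z hz⟩
  obtain ⟨e2, e3, -, -⟩ := lattice_congr hlat
  obtain ⟨c2a, c2b⟩ := hθ₂.coeff
  obtain ⟨c3a, c3b⟩ := hθ₃.coeff
  refine ⟨⟨hd₁, ψ₁, Ψ₁, hne₁, huu₁, hC₁, hI₁, hP₁, hk₁, hs₁⟩,
    ⟨hd₃, ψ₃, Ψ₃, hne₃, huu₃, hC₃, hI₃, hP₃, hk₃, hs₃⟩, L.map Ψ₁, card_map_chain Ψ₁ h hk₁,
    ⟨hd₂, ψ₂, Ψ₂, hne₂, huu₂, hC₂, hI₂, hP₂, hk₂, hs₂⟩, ?_, ?_⟩
  · apply ι.injective
    rw [c2a, c3a, e2]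
  · apply ι.injective
    rw [c2b, c3b, e3]

/-- Velu's formulas and chains of quotients of `E₀` over an algebraically closed field which embeds
in `ℂ` (`hex_exists`, `th_exists`). -/
theorem chain_char0 {Ω : Type} [Field Ω] [DecidableEq Ω] [IsAlgClosed Ω] (ι : Ω →+* ℂ)
    {L' L : AddSubgroup (Pt (0 : Ω) (-31 / 4))} (h : L' ≤ L) (hL : Finite L) :
    ChainOK (0 : Ω) (-31 / 4) L' L := by
  obtain ⟨Λ, α, β, -, -, -, hg2, hg3, -, -⟩ := hex_exists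
  have ha : ι (0 : Ω) = -Λ.g₂ / 4 := by
    rw [map_zero, hg2]
    norm_num
  have hb : ι (-31 / 4 : Ω) = -Λ.g₃ / 4 := by
    rw [hg3, map_div₀, map_neg, map_ofNat, map_ofNat]
  obtain ⟨θ, hθ, -⟩ := th_exists Λ ha hb
  exact velu_chain ι hθ h hL

end LT
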