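import Pool.Agent.Lib_MP_f1937f_nt.Defs

/-!
# Weierstrass uniformisation I: the addition theorem

For a `PeriodPair` `L` let `xW L z = ℘(z)`, `yW L z = ℘'(z) / 2`, `aW L = -g₂/4`, `bW L = -g₃/4`, so that
`yW ^ 2 = xW ^ 3 + aW * xW + bW`.
-/

namespace LT

open PeriodPair Filter Topology Set

variable (L : PeriodPair)

/-- the coefficient `a` of the curve of a lattice -/
noncomputable def aW : ℂ := -L.g₂ / 4

/-- the coefficient `b` of the curve of a lattice -/
noncomputable def bW : ℂ := -L.g₃ / 4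

/-- the `x`-coordinate -/
noncomputable def xW (z : ℂ) : ℂ := ℘[L] z

/-- the `y`-coordinate -/
noncomputable def yW (z : ℂ) : ℂ := ℘'[L] z / 2

theorem yW_sq {z : ℂ} (hz : z ∉ L.lattice) :
    yW L z ^ 2 = xW L z ^ 3 + aW L * xW L z + bW L := by
  have h := L.derivWeierstrassP_sq z hz
  unfold yW xW aW bW
  linear_combination h / 4

theorem xW_neg (z : ℂ) : xW L (-z) = xW L z := L.weierstrassP_neg z

theorem yW_neg (z : ℂ) : yW L (-z) = -yW L z := by
  unfold yW
  rw [L.derivWeierstrassP_neg]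
  ring

theorem xW_add {l : ℂ} (hl : l ∈ L.lattice) (z : ℂ) : xW L (z + l) = xW L z :=
  L.weierstrassP_add_coe z ⟨l, hl⟩

theorem yW_add {l : ℂ} (hl : l ∈ L.lattice) (z : ℂ) : yW L (z + l) = yW L z := by
  unfold yW
  rw [L.derivWeierstrassP_add_coe z ⟨l, hl⟩]

theorem isOpen_compl : IsOpen (L.lattice : Set ℂ)ᶜ := L.isClosed_lattice.isOpen_compl

theorem analyticAt_xW {z : ℂ} (hz : z ∉ L.lattice) : AnalyticAt ℂ (xW L) z :=
  L.analyticOnNhd_weierstrassP z hz

theorem analyticAt_yW {z : ℂ} (hz : z ∉ L.lattice) : AnalyticAt ℂ (yW L) z := by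
  have h := L.analyticOnNhd_derivWeierstrassP z hz
  exact h.div_const

theorem hasDerivAt_xW {z : ℂ} (hz : z ∉ L.lattice) : HasDerivAt (xW L) (2 * yW L z) z := by
  have h1 : DifferentiableAt ℂ (xW L) z := (analyticAt_xW L hz).differentiableAt
  have h2 : deriv (xW L) z = 2 * yW L z := by
    have : xW L = ℘[L] := rfl
    rw [this, L.deriv_weierstrassP]
    unfold yW
    ring
  rw [← h2]
  exact h1.hasDerivAt

theorem countable_lattice : (L.lattice : Set ℂ).Countable := by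
  have : Countable L.lattice := inferInstance
  exact Set.countable_coe_iff.1 this

theorem isPreconnected_compl : IsPreconnected (L.lattice : Set ℂ)ᶜ :=
  ((countable_lattice L).isConnected_compl_of_one_lt_rank (by simp)).2

/-- near the origin -/
theorem tendsto_sq_mul_xW : Tendsto (fun z => z ^ 2 * xW L z) (𝓝[≠] 0) (𝓝 1) := by
  have h1 : Tendsto (fun z => z ^ 2 * ℘[L - (0 : ℂ)] z + 1) (𝓝[≠] 0) (𝓝 (0 ^ 2 * ℘[L - (0 : ℂ)] 0 + 1)) := by
    have h2 : ContinuousAt ℘[L - (0 : ℂ)] 0 := (L.analyticAt_weierstrassPExcept 0).continuousAt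
    have h3 : ContinuousAt (fun z => z ^ 2 * ℘[L - (0 : ℂ)] z + 1) 0 := by fun_prop
    exact h3.tendsto.mono_left nhdsWithin_le_nhds
  simp only [ne_eq, OfNat.ofNat_ne_zero, not_false_eq_true, zero_pow, zero_mul, zero_add] at h1
  refine h1.congr' ?_
  filter_upwards [self_mem_nhdsWithin] with z (hz : z ≠ 0)
  have h4 := L.ite_eq_one_sub_sq_mul_weierstrassP 0 (zero_mem _) z
  rw [if_neg hz] at h4
  simp only [sub_zero, ne_eq, OfNat.ofNat_ne_zero, not_false_eq_true, zero_pow, div_zero] at h4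
  unfold xW
  rw [h4]

theorem tendsto_cube_mul_yW : Tendsto (fun z => z ^ 3 * yW L z) (𝓝[≠] 0) (𝓝 (-1)) := by
  have h1 : Tendsto (fun z => (z ^ 3 * ℘'[L - (0 : ℂ)] z - 2) / 2) (𝓝[≠] 0)
      (𝓝 ((0 ^ 3 * ℘'[L - (0 : ℂ)] 0 - 2) / 2)) := by
    have h2 : ContinuousAt ℘'[L - (0 : ℂ)] 0 := (L.analyticAt_derivWeierstrassPExcept 0).continuousAt
    have h3 : ContinuousAt (fun z => (z ^ 3 * ℘'[L - (0 : ℂ)] z - 2) / 2) 0 := by fun_prop
    exact h3.tendsto.mono_left nhdsWithin_le_nhds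
  norm_num at h1
  refine h1.congr' ?_
  filter_upwards [self_mem_nhdsWithin] with z (hz : z ≠ 0)
  have h4 := L.derivWeierstrassPExcept_def ⟨0, zero_mem _⟩ z
  simp only [sub_zero] at h4
  unfold yW
  rw [h4]
  field_simp
  ring

theorem eventually_notMem {w : ℂ} (hw : w ∉ L.lattice) : ∀ᶠ z in 𝓝 w, z ∉ L.lattice :=
  (isOpen_compl L).mem_nhds hw

theorem eventually_notMem_punctured (w : ℂ) : ∀ᶠ z in 𝓝[≠] w, z ∉ L.lattice := by
  filter_upwards [self_mem_nhdsWithin, mem_nhdsWithin_of_mem_nhds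
    (L.compl_lattice_sdiff_singleton_mem_nhds w)] with z hz hz'
  intro h
  exact hz' ⟨h, hz⟩

/-- `℘ → ∞` at the origin -/
theorem tendsto_norm_xW : Tendsto (fun z => ‖xW L z‖) (𝓝[≠] 0) atTop := by
  have h1 : Tendsto (fun z : ℂ => ‖z ^ 2 * xW L z‖) (𝓝[≠] 0) (𝓝 ‖(1 : ℂ)‖) :=
    (tendsto_sq_mul_xW L).norm
  rw [norm_one] at h1
  have h2 : Tendsto (fun z : ℂ => (‖z‖ ^ 2)⁻¹) (𝓝[≠] 0) atTop := by
    have h3 : Tendsto (fun z : ℂ => ‖z‖ ^ 2) (𝓝[≠] 0) (𝓝[>] 0) := by
      rw [tendsto_nhdsWithin_iff]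
      constructor
      · have : Tendsto (fun z : ℂ => ‖z‖ ^ 2) (𝓝 0) (𝓝 (‖(0 : ℂ)‖ ^ 2)) := by
          apply Continuous.tendsto; fun_prop
        simp only [norm_zero, ne_eq, OfNat.ofNat_ne_zero, not_false_eq_true, zero_pow] at this
        exact this.mono_left nhdsWithin_le_nhds
      · filter_upwards [self_mem_nhdsWithin] with z (hz : z ≠ 0)
        have : 0 < ‖z‖ := norm_pos_iff.2 hz
        exact pow_pos this 2
    exact tendsto_inv_nhdsGT_zero.comp h3
  have h3 := h1.pos_mul_atTop one_pos h2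
  refine h3.congr' ?_
  filter_upwards [self_mem_nhdsWithin] with z (hz : z ≠ 0)
  have : ‖z‖ ≠ 0 := norm_ne_zero_iff.2 hz
  rw [norm_mul, norm_pow]
  field_simp

theorem not_eventually_const (c : ℂ) : ¬ (∀ᶠ z in 𝓝[≠] (0 : ℂ), xW L z = c) := by
  intro h
  have h1 := tendsto_norm_xW L
  have h2 : ∀ᶠ z in 𝓝[≠] (0 : ℂ), ‖c‖ + 1 ≤ ‖xW L z‖ := h1.eventually_ge_atTop _
  obtain ⟨z, hz1, hz2⟩ := (h.and h2).exists
  rw [hz1] at hz2
  linarith

theorem yW_not_zero : ¬ Set.EqOn (yW L) 0 (L.lattice : Set ℂ)ᶜ := by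
  intro h
  obtain ⟨c, hc⟩ := (isOpen_compl L).exists_is_const_of_deriv_eq_zero (isPreconnected_compl L)
    (f := xW L) (fun z hz => (analyticAt_xW L hz).differentiableAt.differentiableWithinAt)
    (fun z hz => by
      rw [(hasDerivAt_xW L hz).deriv, h hz]
      simp)
  apply not_eventually_const L c
  filter_upwards [eventually_notMem_punctured L 0] with z hz
  exact hc z hz

theorem hasDerivAt_yW {z : ℂ} (hz : z ∉ L.lattice) :
    HasDerivAt (yW L) (3 * xW L z ^ 2 + aW L) z := by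
  have hY : AnalyticOnNhd ℂ (yW L) (L.lattice : Set ℂ)ᶜ := fun w hw => analyticAt_yW L hw
  have hX : AnalyticOnNhd ℂ (xW L) (L.lattice : Set ℂ)ᶜ := fun w hw => analyticAt_xW L hw
  have hG : AnalyticOnNhd ℂ (fun w => deriv (yW L) w - (3 * xW L w ^ 2 + aW L))
      (L.lattice : Set ℂ)ᶜ := by
    intro w hw
    have h1 := (hY w hw).deriv
    have h2 := hX w hw
    fun_prop
  have hmul : ∀ w ∈ (L.lattice : Set ℂ)ᶜ,
      yW L w * (deriv (yW L) w - (3 * xW L w ^ 2 + aW L)) = 0 := by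
    intro w hw
    have h1 : HasDerivAt (fun w => yW L w ^ 2) (2 * yW L w * deriv (yW L) w) w := by
      have := ((hY w hw).differentiableAt.hasDerivAt).fun_pow 2
      simpa using this
    have h2 : HasDerivAt (fun w => xW L w ^ 3 + aW L * xW L w + bW L)
        (3 * xW L w ^ 2 * (2 * yW L w) + aW L * (2 * yW L w)) w := by
      have := (((hasDerivAt_xW L hw).fun_pow 3).fun_add
        ((hasDerivAt_xW L hw).const_mul (aW L))).add_const (bW L)
      simpa using this
    have h3 : (fun w => yW L w ^ 2) =ᶠ[𝓝 w] (fun w => xW L w ^ 3 + aW L * xW L w + bW L) := by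
      filter_upwards [eventually_notMem L hw] with v hv
      exact yW_sq L hv
    have h4 := (h1.congr_of_eventuallyEq h3.symm).unique h2
    linear_combination h4 / 2
  rcases hY.eq_zero_or_eq_zero_of_mul_eq_zero hG hmul (isPreconnected_compl L) with h | h
  · exact absurd h (yW_not_zero L)
  · have h1 : deriv (yW L) z = 3 * xW L z ^ 2 + aW L := by
      have := h z hz
      simpa [sub_eq_zero] using this
    rw [← h1]
    exact (hY z hz).differentiableAt.hasDerivAt

end LT
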