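import Pool.Agent.Lib_MP_f1937f_nt.W1

/-!
# Weierstrass uniformisation II: the addition theorem
-/

namespace LT

open PeriodPair Filter Topology Set

variable (L : PeriodPair)

theorem hasDerivAt_xW_sub {c z : ℂ} (hz : c - z ∉ L.lattice) :
    HasDerivAt (fun w => xW L (c - w)) (-(2 * yW L (c - z))) z := by
  exact (hasDerivAt_xW L hz).comp_const_sub c z

theorem hasDerivAt_yW_sub {c z : ℂ} (hz : c - z ∉ L.lattice) :
    HasDerivAt (fun w => yW L (c - w)) (-(3 * xW L (c - z) ^ 2 + aW L)) z := by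
  exact (hasDerivAt_yW L hz).comp_const_sub c z

/-- the flow `z ↦ x(Θ z + Θ (c - z))` -/
noncomputable def flow (c z : ℂ) : ℂ :=
  ((yW L z - yW L (c - z)) / (xW L z - xW L (c - z))) ^ 2 - xW L z - xW L (c - z)

theorem hasDerivAt_flow {c z : ℂ} (hz : z ∉ L.lattice) (hcz : c - z ∉ L.lattice)
    (hne : xW L z ≠ xW L (c - z)) : HasDerivAt (flow L c) 0 z := by
  have hx1 := hasDerivAt_xW L hz
  have hy1 := hasDerivAt_yW L hz
  have hx2 := hasDerivAt_xW_sub L hcz
  have hy2 := hasDerivAt_yW_sub L hcz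
  have hne' : xW L z - xW L (c - z) ≠ 0 := sub_ne_zero.2 hne
  have h := ((((hy1.fun_sub hy2).fun_div (hx1.fun_sub hx2) hne').fun_pow 2).fun_sub hx1).fun_sub hx2
  have e1 := yW_sq L hz
  have e2 := yW_sq L hcz
  have h' : HasDerivAt (flow L c) _ z := h
  refine h'.congr_deriv ?_
  clear h h'
  set x1 := xW L z
  set x2 := xW L (c - z)
  set y1 := yW L z
  set y2 := yW L (c - z)
  obtain ⟨l, hl⟩ : ∃ l, l = (y1 - y2) / (x1 - x2) := ⟨_, rfl⟩
  have hl' : y1 - y2 = l * (x1 - x2) := by rw [hl]; field_simp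
  have key : x1 ^ 2 + x1 * x2 + x2 ^ 2 + aW L = l * (y1 + y2) := by
    have h3 : (x1 - x2) * (x1 ^ 2 + x1 * x2 + x2 ^ 2 + aW L) = (x1 - x2) * (l * (y1 + y2)) := by
      linear_combination e2 - e1 + (y1 + y2) * hl'
    exact mul_left_cancel₀ hne' h3
  have h4 : ((3 * x1 ^ 2 + aW L - -(3 * x2 ^ 2 + aW L)) * (x1 - x2) - (y1 - y2) * (2 * y1 - -(2 * y2))) /
      (x1 - x2) ^ 2 = x1 - x2 := by
    rw [div_eq_iff (pow_ne_zero 2 hne')]
    rw [hl']
    linear_combination (2 * (x1 - x2)) * key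
  rw [h4, ← hl]
  simp only [Nat.cast_ofNat, Nat.add_one_sub_one, pow_one]
  linear_combination -2 * hl'

/-- cleared form of the addition formula -/
theorem flow_eq {c z : ℂ} (hz : z ∉ L.lattice) (hcz : c - z ∉ L.lattice)
    (hne : xW L z ≠ xW L (c - z)) : flow L c z =
      ((xW L z * xW L (c - z) + aW L) * (xW L z + xW L (c - z)) + 2 * bW L -
        2 * yW L z * yW L (c - z)) / (xW L z - xW L (c - z)) ^ 2 := by
  have hne' : xW L z - xW L (c - z) ≠ 0 := sub_ne_zero.2 hne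
  have e1 := yW_sq L hz
  have e2 := yW_sq L hcz
  unfold flow
  field_simp
  linear_combination e1 + e2

theorem eventually_ne {c : ℂ} (hc : c ∉ L.lattice) : ∀ᶠ z in 𝓝[≠] (0 : ℂ),
    z ∉ L.lattice ∧ c - z ∉ L.lattice ∧ xW L z ≠ xW L (c - z) := by
  have h1 := eventually_notMem_punctured L 0
  have hcont : Tendsto (fun z : ℂ => c - z) (𝓝 0) (𝓝 c) := by
    have : Tendsto (fun z : ℂ => c - z) (𝓝 0) (𝓝 (c - 0)) := by
      apply Continuous.tendsto; fun_prop
    rwa [sub_zero] at this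
  have h2 : ∀ᶠ z in 𝓝[≠] (0 : ℂ), c - z ∉ L.lattice :=
    (hcont.eventually (eventually_notMem L hc)).filter_mono nhdsWithin_le_nhds
  have h3 : Tendsto (fun z => xW L (c - z)) (𝓝 0) (𝓝 (xW L c)) :=
    (analyticAt_xW L hc).continuousAt.tendsto.comp hcont
  have h4 : ∀ᶠ z in 𝓝[≠] (0 : ℂ), ‖xW L (c - z)‖ < ‖xW L c‖ + 1 :=
    (h3.norm.eventually (gt_mem_nhds (by linarith))).filter_mono nhdsWithin_le_nhds
  have h5 := (tendsto_norm_xW L).eventually_ge_atTop (‖xW L c‖ + 1)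
  filter_upwards [h1, h2, h4, h5] with z a1 a2 a3 a4
  refine ⟨a1, a2, fun h => ?_⟩
  rw [h] at a4
  linarith

theorem tendsto_flow {c : ℂ} (hc : c ∉ L.lattice) :
    Tendsto (flow L c) (𝓝[≠] 0) (𝓝 (xW L c)) := by
  have hcont : Tendsto (fun z : ℂ => c - z) (𝓝[≠] 0) (𝓝 c) := by
    have : Tendsto (fun z : ℂ => c - z) (𝓝 0) (𝓝 (c - 0)) := by
      apply Continuous.tendsto; fun_prop
    rw [sub_zero] at this
    exact this.mono_left nhdsWithin_le_nhds
  have h3 : Tendsto (fun z => xW L (c - z)) (𝓝[≠] 0) (𝓝 (xW L c)) :=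
    (analyticAt_xW L hc).continuousAt.tendsto.comp hcont
  have h4 : Tendsto (fun z => yW L (c - z)) (𝓝[≠] 0) (𝓝 (yW L c)) :=
    (analyticAt_yW L hc).continuousAt.tendsto.comp hcont
  have hid : Tendsto (fun z : ℂ => z) (𝓝[≠] 0) (𝓝 0) := tendsto_id.mono_left nhdsWithin_le_nhds
  have hx := tendsto_sq_mul_xW L
  have hy := tendsto_cube_mul_yW L
  have hnum : Tendsto (fun z => ((z ^ 2 * xW L z) * xW L (c - z) + aW L * z ^ 2) *
      (z ^ 2 * xW L z + z ^ 2 * xW L (c - z)) + 2 * bW L * z ^ 4 -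
      2 * z * (z ^ 3 * yW L z) * yW L (c - z)) (𝓝[≠] 0)
      (𝓝 ((1 * xW L c + aW L * 0 ^ 2) * (1 + 0 ^ 2 * xW L c) + 2 * bW L * 0 ^ 4 -
        2 * 0 * (-1) * yW L c)) := by
    refine Tendsto.sub (Tendsto.add (Tendsto.mul (Tendsto.add (hx.mul h3) ?_)
      (Tendsto.add hx ?_)) ?_) ?_
    · exact (hid.pow 2).const_mul _
    · exact (hid.pow 2).mul h3
    · exact (hid.pow 4).const_mul _
    · exact ((hid.const_mul 2).mul hy).mul h4
  have hden : Tendsto (fun z => (z ^ 2 * xW L z - z ^ 2 * xW L (c - z)) ^ 2) (𝓝[≠] 0)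
      (𝓝 ((1 - 0 ^ 2 * xW L c) ^ 2)) := (hx.sub ((hid.pow 2).mul h3)).pow 2
  have hq := hnum.div hden (by norm_num)
  have hlim : ((1 * xW L c + aW L * 0 ^ 2) * (1 + 0 ^ 2 * xW L c) + 2 * bW L * 0 ^ 4 -
        2 * 0 * (-1) * yW L c) / (1 - 0 ^ 2 * xW L c) ^ 2 = xW L c := by norm_num
  rw [hlim] at hq
  refine hq.congr' ?_
  filter_upwards [eventually_ne L hc, self_mem_nhdsWithin] with z hz (hz0 : z ≠ 0)
  rw [flow_eq L hz.1 hz.2.1 hz.2.2]
  have hne' : xW L z - xW L (c - z) ≠ 0 := sub_ne_zero.2 hz.2.2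
  have h5 : (z ^ 2 * xW L z - z ^ 2 * xW L (c - z)) ^ 2 = z ^ 4 * (xW L z - xW L (c - z)) ^ 2 := by
    ring
  simp only [Pi.div_apply]
  rw [h5, div_eq_div_iff (mul_ne_zero (pow_ne_zero 4 hz0) (pow_ne_zero 2 hne'))
    (pow_ne_zero 2 hne')]
  ring

theorem flow_const {c : ℂ} (hc : c ∉ L.lattice) :
    ∀ᶠ z in 𝓝[≠] (0 : ℂ), flow L c z = xW L c := by
  classical
  have h1 := eventually_ne L hc
  rw [eventually_nhdsWithin_iff, Metric.eventually_nhds_iff_ball] at h1
  obtain ⟨ε, hε, h1⟩ := h1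
  set E : ℂ → ℂ := Function.update (flow L c) 0 (xW L c) with hE
  have hEne : ∀ z : ℂ, z ≠ 0 → E =ᶠ[𝓝 z] flow L c := by
    intro z hz
    filter_upwards [isOpen_ne.mem_nhds hz] with w (hw : w ≠ 0)
    simp [hE, Function.update_of_ne hw]
  have hd : ∀ z ∈ Metric.ball (0 : ℂ) ε, z ≠ 0 → HasDerivAt E 0 z := by
    intro z hz hz0
    obtain ⟨a1, a2, a3⟩ := h1 z hz hz0
    exact (hasDerivAt_flow L a1 a2 a3).congr_of_eventuallyEq (hEne z hz0)
  have hcE : ContinuousAt E 0 := continuousAt_update_same.2 (tendsto_flow L hc)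
  have hball : Metric.ball (0 : ℂ) ε ∈ 𝓝 (0 : ℂ) := Metric.ball_mem_nhds _ hε
  have hdiff : DifferentiableOn ℂ E (Metric.ball (0 : ℂ) ε) := by
    rw [← Complex.differentiableOn_compl_singleton_and_continuousAt_iff hball]
    refine ⟨fun z hz => ?_, hcE⟩
    exact (hd z hz.1 hz.2).differentiableAt.differentiableWithinAt
  have hder0 : deriv E 0 = 0 := by
    have h2 : AnalyticAt ℂ E 0 := hdiff.analyticAt hball
    have h3 : Tendsto (deriv E) (𝓝[≠] 0) (𝓝 (deriv E 0)) :=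
      h2.deriv.continuousAt.tendsto.mono_left nhdsWithin_le_nhds
    have h4 : Tendsto (deriv E) (𝓝[≠] 0) (𝓝 0) := by
      refine tendsto_const_nhds.congr' ?_
      filter_upwards [self_mem_nhdsWithin, mem_nhdsWithin_of_mem_nhds hball] with z hz hz'
      exact (hd z hz' hz).deriv.symm
    exact tendsto_nhds_unique h3 h4
  have hconst : ∀ z ∈ Metric.ball (0 : ℂ) ε, E z = E 0 := by
    intro z hz
    refine Metric.isOpen_ball.is_const_of_deriv_eq_zero (convex_ball (0 : ℂ) ε).isPreconnected hdiff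
      ?_ hz (Metric.mem_ball_self hε)
    intro w hw
    by_cases hw0 : w = 0
    · rw [hw0]; exact hder0
    · exact (hd w hw hw0).deriv
  filter_upwards [self_mem_nhdsWithin, mem_nhdsWithin_of_mem_nhds hball] with z (hz : z ≠ 0) hz'
  have h5 := hconst z hz'
  simp only [hE, Function.update_of_ne hz, Function.update_self] at h5
  exact h5

/-- **Addition theorem**, cleared form. -/
theorem add_x {z w : ℂ} (hz : z ∉ L.lattice) (hw : w ∉ L.lattice) (hzw : z + w ∉ L.lattice) :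
    (xW L z * xW L w + aW L) * (xW L z + xW L w) + 2 * bW L - 2 * yW L z * yW L w =
      xW L (z + w) * (xW L z - xW L w) ^ 2 := by
  set c := z + w with hc
  set G : ℂ → ℂ := fun v => (xW L v * xW L (c - v) + aW L) * (xW L v + xW L (c - v)) + 2 * bW L -
    2 * yW L v * yW L (c - v) - xW L c * (xW L v - xW L (c - v)) ^ 2 with hG
  set U : Set ℂ := (L.lattice : Set ℂ)ᶜ ∩ (fun v => c - v) ⁻¹' (L.lattice : Set ℂ)ᶜ with hU
  have hUo : IsOpen U := (isOpen_compl L).inter ((isOpen_compl L).preimage (by fun_prop))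
  have hUc : IsPreconnected U := by
    have h1 : U = ((L.lattice : Set ℂ) ∪ (fun v => c - v) ⁻¹' (L.lattice : Set ℂ))ᶜ := by
      rw [hU, Set.compl_union, Set.preimage_compl]
    rw [h1]
    refine (Set.Countable.isConnected_compl_of_one_lt_rank (by simp) ?_).2
    refine (countable_lattice L).union ((countable_lattice L).preimage ?_)
    intro a b hab
    simpa using hab
  have hGa : AnalyticOnNhd ℂ G U := by
    intro v hv
    have h1 := analyticAt_xW L hv.1
    have h2 := analyticAt_yW L hv.1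
    have h0 : AnalyticAt ℂ (fun v : ℂ => c - v) v := by fun_prop
    have h3 : AnalyticAt ℂ (fun v => xW L (c - v)) v := (analyticAt_xW L hv.2).comp h0
    have h4 : AnalyticAt ℂ (fun v => yW L (c - v)) v := (analyticAt_yW L hv.2).comp h0
    simp only [hG]
    fun_prop
  -- G vanishes near the origin
  have h1 : ∀ᶠ v in 𝓝[≠] (0 : ℂ), v ∈ U ∧ G v = 0 := by
    filter_upwards [eventually_ne L hzw, flow_const L hzw] with v hv hv2
    refine ⟨⟨hv.1, hv.2.1⟩, ?_⟩
    rw [flow_eq L hv.1 hv.2.1 hv.2.2] at hv2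
    have hne' : xW L v - xW L (c - v) ≠ 0 := sub_ne_zero.2 hv.2.2
    rw [div_eq_iff (pow_ne_zero 2 hne')] at hv2
    simp only [hG]
    rw [hv2, sub_self]
  rw [eventually_nhdsWithin_iff, Metric.eventually_nhds_iff_ball] at h1
  obtain ⟨ε, hε, h1⟩ := h1
  set v0 : ℂ := ((ε / 2 : ℝ) : ℂ) with hv0
  have hv0n : ‖v0‖ = ε / 2 := by
    rw [hv0, Complex.norm_real, Real.norm_of_nonneg (by linarith)]
  have hv0b : v0 ∈ Metric.ball (0 : ℂ) ε := by
    rw [mem_ball_zero_iff, hv0n]; linarith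
  have hv00 : v0 ≠ 0 := by
    rw [← norm_pos_iff, hv0n]; linarith
  have h2 : G =ᶠ[𝓝 v0] 0 := by
    filter_upwards [Metric.isOpen_ball.mem_nhds hv0b, isOpen_ne.mem_nhds hv00] with v hv hv'
    exact (h1 v hv hv').2
  have h3 := hGa.eqOn_zero_of_preconnected_of_eventuallyEq_zero hUc (h1 v0 hv0b hv00).1 h2
  have hcz : c - z = w := by rw [hc]; ring
  have h4 : G z = 0 := h3 ⟨hz, by show c - z ∉ L.lattice; rw [hcz]; exact hw⟩
  simp only [hG, hcz] at h4
  linear_combination h4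

/-- addition theorem, slope form -/
theorem add_x' {z w : ℂ} (hz : z ∉ L.lattice) (hw : w ∉ L.lattice) (hzw : z + w ∉ L.lattice)
    (hne : xW L z ≠ xW L w) :
    xW L (z + w) = ((yW L z - yW L w) / (xW L z - xW L w)) ^ 2 - xW L z - xW L w := by
  have hne' : xW L z - xW L w ≠ 0 := sub_ne_zero.2 hne
  have h := add_x L hz hw hzw
  have e1 := yW_sq L hz
  have e2 := yW_sq L hw
  field_simp
  linear_combination -h - e1 - e2

theorem add_y' {z w : ℂ} (hz : z ∉ L.lattice) (hw : w ∉ L.lattice) (hzw : z + w ∉ L.lattice)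
    (hne : xW L z ≠ xW L w) :
    yW L (z + w) = ((yW L z - yW L w) / (xW L z - xW L w)) * (xW L z - xW L (z + w)) - yW L z := by
  have hne' : xW L z - xW L w ≠ 0 := sub_ne_zero.2 hne
  have e1 := yW_sq L hz
  have e2 := yW_sq L hw
  have hx1 := hasDerivAt_xW L hz
  have hy1 := hasDerivAt_yW L hz
  -- derivative of the right side of add_x'
  have h := ((((hy1.sub_const (yW L w)).fun_div (hx1.sub_const (xW L w)) hne').fun_pow 2).fun_sub
    hx1).sub_const (xW L w)
  have h1 : HasDerivAt (fun v => xW L (v + w)) (2 * yW L (z + w)) z := by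
    exact (hasDerivAt_xW L hzw).comp_add_const z w
  have h2 : (fun v => xW L (v + w)) =ᶠ[𝓝 z]
      (fun v => ((yW L v - yW L w) / (xW L v - xW L w)) ^ 2 - xW L v - xW L w) := by
    have c1 : ∀ᶠ v in 𝓝 z, v + w ∉ L.lattice := by
      have : Tendsto (fun v : ℂ => v + w) (𝓝 z) (𝓝 (z + w)) := by
        apply Continuous.tendsto; fun_prop
      exact this.eventually (eventually_notMem L hzw)
    have c2 : ∀ᶠ v in 𝓝 z, xW L v ≠ xW L w :=
      (analyticAt_xW L hz).continuousAt.eventually_ne hne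
    filter_upwards [eventually_notMem L hz, c1, c2] with v a1 a2 a3
    exact add_x' L a1 hw a2 a3
  have h3 := (h.congr_of_eventuallyEq h2).unique h1
  have hx3 := add_x' L hz hw hzw hne
  set x1 := xW L z
  set x2 := xW L w
  set y1 := yW L z
  set y2 := yW L w
  set x3 := xW L (z + w)
  set y3 := yW L (z + w)
  obtain ⟨l, hl⟩ : ∃ l, l = (y1 - y2) / (x1 - x2) := ⟨_, rfl⟩
  have hl' : y1 - y2 = l * (x1 - x2) := by rw [hl]; field_simp
  have key : x1 ^ 2 + x1 * x2 + x2 ^ 2 + aW L = l * (y1 + y2) := by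
    have h3 : (x1 - x2) * (x1 ^ 2 + x1 * x2 + x2 ^ 2 + aW L) = (x1 - x2) * (l * (y1 + y2)) := by
      linear_combination e2 - e1 + (y1 + y2) * hl'
    exact mul_left_cancel₀ hne' h3
  have h4 : ((3 * x1 ^ 2 + aW L) * (x1 - x2) - (y1 - y2) * (2 * y1)) /
      (x1 - x2) ^ 2 = x1 - x3 := by
    rw [div_eq_iff (pow_ne_zero 2 hne')]
    rw [hx3, ← hl, hl']
    linear_combination (x1 - x2) * key - (x1 - x2) * l * hl'
  rw [h4, ← hl] at h3
  simp only [Nat.cast_ofNat, Nat.add_one_sub_one, pow_one] at h3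
  rw [← hl]
  linear_combination -h3 / 2

end LT
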